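import Pool.Agent.Lib_MP_3538b5_al.EDvU

/-!
# MP_3538b5_al, endgame 1c: the adapted filtration

For an idempotent `E` which dominates the operator `σ` (`σ = d` on the image of `E`, and `σ` is
relatively small on the image of `1 - E`) there is a commensurable filtration such that `E` does not
lower and `σ` raises the level exactly.  Consequence: `Dv.div`.
-/

namespace MP35

universe u v w

namespace Lin

variable {G : Type u} [Group G] {Q : Type v} [AddCommGroup Q] (L : Lin G Q)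

/-- Change of the filtration. -/
def chg (F' : ℤ → AddSubgroup Q) (b : ℤ) (hb : 0 ≤ b) (anti' : Antitone F')
    (h1 : ∀ n, ∀ q ∈ L.F n, q ∈ F' n) (h2 : ∀ n, ∀ q ∈ F' n, q ∈ L.F (n - b)) : Lin G Q where
  δ := L.δ
  F := F'
  N := L.N
  C := ∅
  c := L.c + 2 * b
  c_nonneg := by have := L.c_nonneg; omega
  anti := anti'
  δ_zero g := h1 _ _ (L.δ_zero g)
  δ_one := L.δ_one
  mul m n g h hm hn hg hh := by
    have hg' : L.δ g ∈ L.F (max (m - b) 0) := by
      rcases le_total (m - b) 0 with h | h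
      · rw [max_eq_right h]; exact L.δ_zero g
      · rw [max_eq_left h]; exact h2 _ _ hg
    have hh' : L.δ h ∈ L.F (max (n - b) 0) := by
      rcases le_total (n - b) 0 with h' | h'
      · rw [max_eq_right h']; exact L.δ_zero h
      · rw [max_eq_left h']; exact h2 _ _ hh
    have := L.mul _ _ g h (le_max_right _ _) (le_max_right _ _) hg' hh'
    refine h1 _ _ (memF ?_ this)
    have e1 := le_max_left (m - b) 0
    have e2 := le_max_left (n - b) 0
    omega
  inv m g hm hg := by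
    have hg' : L.δ g ∈ L.F (max (m - b) 0) := by
      rcases le_total (m - b) 0 with h | h
      · rw [max_eq_right h]; exact L.δ_zero g
      · rw [max_eq_left h]; exact h2 _ _ hg
    have := L.inv _ g (le_max_right _ _) hg'
    refine h1 _ _ (memF ?_ this)
    have e1 := le_max_left (m - b) 0
    omega
  real y hy := absurd hy (Set.notMem_empty y)
  presF y hy := absurd hy (Set.notMem_empty y)

variable {L}

section chg

variable {F' : ℤ → AddSubgroup Q} {b : ℤ} {hb : 0 ≤ b} {anti' : Antitone F'}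
  {h1 : ∀ n, ∀ q ∈ L.F n, q ∈ F' n} {h2 : ∀ n, ∀ q ∈ F' n, q ∈ L.F (n - b)}

theorem Deg.chg {y : Q →+ Q} {n : ℤ} (hy : L.Deg y n) :
    (L.chg F' b hb anti' h1 h2).Deg y (n - b) := fun m q hq => by
  have := hy _ _ (h2 m q hq)
  exact h1 _ _ (memF (by omega) this)

theorem Bdd.chg {y : Q →+ Q} (hy : L.Bdd y) : (L.chg F' b hb anti' h1 h2).Bdd y := by
  obtain ⟨b', hb', h⟩ := hy
  refine ⟨b' + b, by omega, fun m q hq => ?_⟩
  exact h1 _ _ (memF (by omega) (h _ _ (h2 m q hq)))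

theorem DvU.chg {Y : Set (Q →+ Q)} (hY : L.DvU Y) : (L.chg F' b hb anti' h1 h2).DvU Y := by
  obtain ⟨⟨b', hb', h⟩, h3⟩ := hY
  refine ⟨⟨b' + b, by omega, fun y hy => ((h y hy).chg).mono (by omega)⟩, fun J => ?_⟩
  obtain ⟨m₀, hm₀, h4⟩ := h3 (J + b)
  refine ⟨m₀ + b, by omega, fun m hm u hu hum y hy => ?_⟩
  obtain ⟨u', hu', e⟩ := h4 (m - b) (by omega) u hu (h2 _ _ hum) y hy
  exact ⟨u', hu', h1 _ _ (memF (by omega) e)⟩

theorem Dv.chg {y : Q →+ Q} (hy : L.Dv y) : (L.chg F' b hb anti' h1 h2).Dv y :=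
  (DvU.singleton hy).chg.dv rfl

theorem Dv.of_chg {y : Q →+ Q} (hy : (L.chg F' b hb anti' h1 h2).Dv y) : L.Dv y := by
  obtain ⟨⟨b', hb', h⟩, h3⟩ := hy
  refine ⟨⟨b' + b, by omega, fun m q hq => ?_⟩, fun J => ?_⟩
  · exact memF (by omega) (h2 _ _ (h _ _ (h1 m q hq)))
  obtain ⟨m₀, hm₀, h4⟩ := h3 (J + b)
  refine ⟨m₀, hm₀, fun m hm u hu hum => ?_⟩
  obtain ⟨u', hu', e⟩ := h4 m hm u hu (h1 _ _ hum)
  exact ⟨u', hu', memF (by omega) (h2 _ _ e)⟩

end chg

/-- iterates commute with scalars -/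
theorem iter_smul {K : Type*} [SMul K Q] {σ : Q →+ Q}
    (hσd : ∀ (c : K) q, σ (c • q) = c • σ q) (e : ℕ) (c : K) (q : Q) :
    (σ^[e]) (c • q) = c • (σ^[e]) q := by
  induction e generalizing q with
  | zero => rfl
  | succ e ih => rw [Function.iterate_succ_apply, hσd, ih, Function.iterate_succ_apply]

theorem iter_add {σ : Q →+ Q} (e : ℕ) (q q' : Q) :
    (σ^[e]) (q + q') = (σ^[e]) q + (σ^[e]) q' := by
  induction e generalizing q q' with
  | zero => rfl
  | succ e ih => rw [Function.iterate_succ_apply, map_add, ih, Function.iterate_succ_apply,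
      Function.iterate_succ_apply]

theorem iter_zero {σ : Q →+ Q} (e : ℕ) : (σ^[e]) (0 : Q) = 0 := by
  induction e with
  | zero => rfl
  | succ e ih => rw [Function.iterate_succ_apply, map_zero, ih]

theorem iter_neg {σ : Q →+ Q} (e : ℕ) (q : Q) : (σ^[e]) (-q) = -(σ^[e]) q := by
  rw [eq_neg_iff_add_eq_zero, ← iter_add, neg_add_cancel, iter_zero]

/-- **Division**, with all operators realisable. -/
theorem Dv.div {K : Type*} [Field K] [Module K Q] {R : Type w} [CommRing R] [Module R Q]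
    [SMulCommClass K R Q] {d : K} (hd : d ≠ 0) (hD : ∀ n q, q ∈ L.F n ↔ d • q ∈ L.F (n + 1))
    (hRF : ∀ (r : R) n q, q ∈ L.F n → r • q ∈ L.F n)
    (hnoeth : ∀ S : Submodule R Q, (∀ x ∈ S, x ∈ L.F 0) → S.FG)
    {E σ : Q →+ Q} (hEB : L.Bdd E) (hEE : ∀ q, E (E q) = E q)
    (hEc : ∀ (c : K) q, E (c • q) = c • E q) (hEr : ∀ (r : R) q, E (r • q) = r • E q)
    (hσc : ∀ (c : K) q, σ (c • q) = c • σ q) (hσr : ∀ (r : R) q, σ (r • q) = r • σ q)
    (hσ : L.Dv σ) (hσE : ∀ q, σ (E q) = d • E q) (hEσ : ∀ q, E (σ q) = d • E q)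
    (hrel : ∀ J : ℤ, ∃ e₀ : ℕ, ∀ e, e₀ ≤ e → ∀ n, ∀ q ∈ L.F n,
      (σ^[e]) (q - E q) ∈ L.F (n + e + J))
    (hR : ∀ J : ℤ, 0 ≤ J → ∃ (N₀ : ℕ) (Y : Set (Q →+ Q)), L.DvU Y ∧ ∀ r : R, ∃ y ∈ Y,
      ∀ n, ∀ q ∈ L.F n, y q - d ^ (N₀ : ℤ) • r • E q ∈ L.F (n + N₀ + J))
    {θ : Q →+ Q} (hθ : L.Bdd θ) (hθE : ∀ q, E (θ q) = θ q)
    (hθr : ∀ J : ℤ, ∃ (e : ℕ) (y : Q →+ Q), L.Dv y ∧
      ∀ n, ∀ q ∈ L.F n, y q - d ^ (e : ℤ) • θ q ∈ L.F (n + e + J)) :
    L.Dv θ := by
  obtain ⟨bE, hbE, hEb⟩ := hEB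
  obtain ⟨bσ, hbσ, hσb⟩ := hσ.1
  obtain ⟨e₀, he₀⟩ := hrel 0
  -- iterates are bounded
  have hiter : ∀ e : ℕ, ∀ n, ∀ q ∈ L.F n, (σ^[e]) q ∈ L.F (n - e * bσ) := by
    intro e
    induction e with
    | zero => intro n q hq; simpa using hq
    | succ e ih =>
      intro n q hq
      rw [Function.iterate_succ_apply]
      have := ih _ _ (hσb n q hq)
      refine memF ?_ this
      push_cast
      linarith
  -- a common bound
  set b : ℤ := bE + (e₀ : ℤ) * (bσ + 1) with hbdef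
  have hb0 : (0 : ℤ) ≤ (e₀ : ℤ) * (bσ + 1) := by positivity
  have hb : 0 ≤ b := by omega
  have hbnd : ∀ e : ℕ, ∀ n, ∀ q ∈ L.F n, (σ^[e]) (q - E q) ∈ L.F (n + e - b) := by
    intro e n q hq
    rcases le_total e₀ e with h | h
    · exact memF (by omega) (he₀ e h n q hq)
    · have k1 : q - E q ∈ L.F (n - bE) :=
        (L.F _).sub_mem (memF (by omega) hq) (hEb n q hq)
      refine memF ?_ (hiter e _ _ k1)
      have k2 : (e : ℤ) ≤ e₀ := by exact_mod_cast h
      have k3 : (e : ℤ) * bσ ≤ (e₀ : ℤ) * bσ := mul_le_mul_of_nonneg_right k2 hbσ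
      have k4 : b = bE + (e₀ : ℤ) * bσ + e₀ := by rw [hbdef]; ring
      rw [k4]
      linarith
  let F' : ℤ → AddSubgroup Q := fun n =>
    { carrier := {q | E q ∈ L.F (n - b) ∧ ∀ e : ℕ, (σ^[e]) (q - E q) ∈ L.F (n + e - b)}
      zero_mem' := by
        refine ⟨by rw [map_zero]; exact (L.F _).zero_mem, fun e => ?_⟩
        rw [map_zero, sub_zero, iter_zero]
        exact (L.F _).zero_mem
      add_mem' := by
        rintro q q' ⟨h1, h2⟩ ⟨h3, h4⟩
        refine ⟨by rw [map_add]; exact (L.F _).add_mem h1 h3, fun e => ?_⟩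
        rw [map_add, show q + q' - (E q + E q') = (q - E q) + (q' - E q') by abel, iter_add]
        exact (L.F _).add_mem (h2 e) (h4 e)
      neg_mem' := by
        rintro q ⟨h1, h2⟩
        refine ⟨by rw [map_neg]; exact (L.F _).neg_mem h1, fun e => ?_⟩
        rw [map_neg, show -q - -E q = -(q - E q) by abel, iter_neg]
        exact (L.F _).neg_mem (h2 e) }
  have hF' : ∀ n q, q ∈ F' n ↔ E q ∈ L.F (n - b) ∧
      ∀ e : ℕ, (σ^[e]) (q - E q) ∈ L.F (n + e - b) := fun n q => Iff.rfl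
  have anti' : Antitone F' := by
    intro n k hnk q hq
    rw [hF'] at hq ⊢
    exact ⟨memF (by omega) hq.1, fun e => memF (by omega) (hq.2 e)⟩
  have h1 : ∀ n, ∀ q ∈ L.F n, q ∈ F' n := by
    intro n q hq
    rw [hF']
    exact ⟨memF (by omega) (hEb n q hq), fun e => hbnd e n q hq⟩
  have h2 : ∀ n, ∀ q ∈ F' n, q ∈ L.F (n - b) := by
    intro n q hq
    rw [hF'] at hq
    have k1 := hq.2 0
    simp only [Function.iterate_zero, id_eq, Nat.cast_zero, add_zero] at k1
    have := (L.F (n - b)).add_mem hq.1 k1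
    simpa using this
  set L' := L.chg F' b hb anti' h1 h2 with hL'
  refine Dv.of_chg (F' := F') (b := b) (hb := hb) (anti' := anti') (h1 := h1) (h2 := h2) ?_
  have hEE0 : ∀ q, E q - E (E q) = 0 := fun q => by rw [hEE, sub_self]
  -- the lattice
  let Λ : Submodule R Q :=
    { carrier := {x | E x = x ∧ x ∈ L.F (0 - b)}
      zero_mem' := ⟨map_zero _, (L.F _).zero_mem⟩
      add_mem' := by
        rintro x y ⟨hx, hx'⟩ ⟨hy, hy'⟩
        exact ⟨by rw [map_add, hx, hy], (L.F _).add_mem hx' hy'⟩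
      smul_mem' := by
        rintro r x ⟨hx, hx'⟩
        exact ⟨by rw [hEr, hx], hRF r _ _ hx'⟩ }
  have hΛ0 : ∀ x, x ∈ Λ ↔ E x = x ∧ x ∈ L.F (0 - b) := fun x => Iff.rfl
  have hbz : ∀ (q : Q), q ∈ L.F (0 - b) → d ^ b • q ∈ L.F 0 := by
    intro q hq
    have := (shiftF hd hD b (0 - b) q).1 hq
    rwa [sub_add_cancel] at this
  have : IsNoetherian R Λ := by
    rw [isNoetherian_submodule]
    intro S hS
    -- multiply by `d ^ b`
    let f : Q →ₗ[R] Q :=
      { toFun := fun q => d ^ b • q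
        map_add' := fun x y => smul_add _ _ _
        map_smul' := fun r x => by
          rw [RingHom.id_apply, smul_comm] }
    have hf : Function.Injective f := fun x y hxy => smul_right_injective Q (zpow_ne_zero b hd) hxy
    have h3 : (S.map f).FG := by
      refine hnoeth _ ?_
      rintro _ ⟨x, hx, rfl⟩
      exact hbz x ((hΛ0 x).1 (hS hx)).2
    exact Submodule.fg_of_fg_map_injective f hf h3
  have hΛ : ∀ x, x ∈ Λ ↔ E x = x ∧ x ∈ L'.F 0 := by
    intro x
    rw [hΛ0]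
    constructor
    · rintro ⟨hx, hx'⟩
      refine ⟨hx, ?_⟩
      show x ∈ F' 0
      rw [hF']
      refine ⟨by rw [hx]; exact hx', fun e => ?_⟩
      rw [hx, sub_self, iter_zero]
      exact (L.F _).zero_mem
    · rintro ⟨hx, hx'⟩
      exact ⟨hx, h2 0 x hx'⟩
  have hD' : ∀ n q, q ∈ L'.F n ↔ d • q ∈ L'.F (n + 1) := by
    intro n q
    show q ∈ F' n ↔ d • q ∈ F' (n + 1)
    rw [hF', hF', hEc]
    refine and_congr ?_ (forall_congr' fun e => ?_)
    · rw [hD (n - b)]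
      rw [show n - b + 1 = n + 1 - b by ring]
    · rw [← smul_sub, iter_smul hσc, hD (n + e - b)]
      rw [show n + (e : ℤ) - b + 1 = n + 1 + e - b by ring]
  refine Dv.division' (L := L') (R := R) hd hD' (E := E) (σ := σ) Λ hΛ ?_ (hEc d) ?_ hσ.chg ?_ ?_
    ?_ hθ.chg hθE ?_
  · -- `E` does not lower the level
    intro m q hq
    show E q ∈ F' (m + 0)
    rw [add_zero, hF']
    have hq' := (hF' m q).1 hq
    refine ⟨by rw [hEE]; exact hq'.1, fun e => ?_⟩
    rw [hEE0, iter_zero]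
    exact (L.F _).zero_mem
  · -- `R` preserves the filtration
    intro r n q hq
    have hq' := (hF' n q).1 hq
    show r • q ∈ F' n
    rw [hF']
    refine ⟨by rw [hEr]; exact hRF r _ _ hq'.1, fun e => ?_⟩
    rw [hEr, ← smul_sub, iter_smul hσr]
    exact hRF r _ _ (hq'.2 e)
  · -- `σ` raises the level by one
    intro m q hq
    have hq' := (hF' m q).1 hq
    show σ q ∈ F' (m + 1)
    rw [hF']
    constructor
    · rw [hEσ]
      have := (hD (m - b) _).1 hq'.1
      exact memF (by omega) this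
    · intro e
      have h3 : σ q - E (σ q) = σ (q - E q) := by
        rw [map_sub, hσE, hEσ]
      rw [h3, ← Function.iterate_succ_apply]
      have := hq'.2 (e + 1)
      exact memF (by push_cast; omega) this
  · intro q hq
    rw [← hq, hσE]
  · intro J hJ
    obtain ⟨N₀, Y, hY, hYr⟩ := hR (J + b) (by omega)
    refine ⟨N₀, Y, hY.chg, fun r => ?_⟩
    obtain ⟨y, hy, h3⟩ := hYr r
    refine ⟨y, hy, fun n q hq => ?_⟩
    have := h3 _ _ (h2 n q hq)
    exact h1 _ _ (memF (by omega) this)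
  · intro J
    obtain ⟨e, y, hy, h3⟩ := hθr (J + b)
    refine ⟨e, y, hy.chg, fun n q hq => ?_⟩
    have := h3 _ _ (h2 n q hq)
    exact h1 _ _ (memF (by omega) this)

end Lin
end MP35
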