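import Mathlib

/-!
# MP_3538b5_al: finiteness over the Frobenius image

A compact Hausdorff ring of characteristic `p` which is topologically generated (as a ring) by finitely
many elements is finite over the ring of its `p ^ e`-th powers.
-/

namespace MP35

open Polynomial

/-- The Frobenius of a compact topologically finitely generated ring of characteristic `p` is
finite. -/
theorem frob_finite_of_gen (p : ℕ) [Fact p.Prime] (S : Type*) [CommRing S] [CharP S p]
    [TopologicalSpace S] [IsTopologicalRing S] [CompactSpace S] [T2Space S] {r : ℕ} (t : Fin r → S)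
    (ht : Dense (Subring.closure (Set.range t) : Set S)) (e : ℕ) :
    (iterateFrobenius S p e).Finite := by
  set q := p ^ e with hq
  have hq0 : 0 < q := pow_pos (Fact.out : p.Prime).pos e
  -- the span of the monomials over the `q`-th powers
  let mon : (Fin r → Fin q) → S := fun a => ∏ i, t i ^ (a i : ℕ)
  let X : Set S := Set.range fun c : (Fin r → Fin q) → S => ∑ a, c a ^ q * mon a
  have hXc : IsClosed X := by
    refine (isCompact_range ?_).isClosed
    fun_prop
  have hX0 : (0 : S) ∈ X := ⟨0, by simp [hq0.ne']⟩
  have hfrob : ∀ x y : S, (x + y) ^ q = x ^ q + y ^ q := fun x y =>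
    add_pow_char_pow x y p e
  have hXadd : ∀ x ∈ X, ∀ y ∈ X, x + y ∈ X := by
    rintro _ ⟨c, rfl⟩ _ ⟨c', rfl⟩
    refine ⟨fun a => c a + c' a, ?_⟩
    simp only [hfrob, add_mul, Finset.sum_add_distrib]
  have hXmul : ∀ (s : S), ∀ x ∈ X, s ^ q * x ∈ X := by
    rintro s _ ⟨c, rfl⟩
    refine ⟨fun a => s * c a, ?_⟩
    simp only [mul_pow, Finset.mul_sum, mul_assoc]
  have hmonX : ∀ a, mon a ∈ X := by
    intro a
    refine ⟨Pi.single a 1, ?_⟩
    simp only
    rw [Finset.sum_eq_single a]
    · simp
    · intro b _ hb
      rw [Pi.single_eq_of_ne hb, zero_pow hq0.ne', zero_mul]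
    · intro h
      exact absurd (Finset.mem_univ _) h
  -- stable under multiplication by `t i`
  have hti : ∀ i, ∀ x ∈ X, t i * x ∈ X := by
    intro i
    have h1 : ∀ a, t i * mon a ∈ X := by
      intro a
      by_cases ha : (a i : ℕ) + 1 < q
      · have : t i * mon a = mon (Function.update a i ⟨(a i : ℕ) + 1, ha⟩) := by
          simp only [mon]
          rw [← Finset.mul_prod_erase _ _ (Finset.mem_univ i),
            ← Finset.mul_prod_erase _ (fun j => t j ^ (Function.update a i _ j : ℕ))
              (Finset.mem_univ i), Function.update_self, pow_succ']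
          rw [mul_assoc]
          congr 2
          refine Finset.prod_congr rfl fun j hj => ?_
          rw [Function.update_of_ne (Finset.ne_of_mem_erase hj)]
        rw [this]
        exact hmonX _
      · have ha' : (a i : ℕ) + 1 = q := by have := (a i).2; omega
        have : t i * mon a = t i ^ q * mon (Function.update a i ⟨0, hq0⟩) := by
          simp only [mon]
          rw [← Finset.mul_prod_erase _ _ (Finset.mem_univ i),
            ← Finset.mul_prod_erase _ (fun j => t j ^ (Function.update a i _ j : ℕ))
              (Finset.mem_univ i), Function.update_self, pow_zero, one_mul, ← mul_assoc,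
            ← pow_succ', ha']
          congr 1
          refine Finset.prod_congr rfl fun j hj => ?_
          rw [Function.update_of_ne (Finset.ne_of_mem_erase hj)]
        rw [this]
        exact hXmul _ _ (hmonX _)
    rintro _ ⟨c, rfl⟩
    simp only [Finset.mul_sum]
    have h2 : ∀ s : Finset (Fin r → Fin q), ∑ a ∈ s, t i * (c a ^ q * mon a) ∈ X := by
      intro s
      classical
      induction s using Finset.induction_on with
      | empty => simpa using hX0
      | insert a s has ih =>
        rw [Finset.sum_insert has]
        refine hXadd _ ?_ _ ih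
        rw [mul_left_comm]
        exact hXmul _ _ (h1 a)
    exact h2 _
  -- the set of multipliers is a closed subring
  have h1X : (1 : S) ∈ X := by
    have := hmonX fun _ => ⟨0, hq0⟩
    simpa [mon] using this
  have hneg : ∀ x ∈ X, -x ∈ X := by
    intro x hx
    have h1 : ((-1 : S)) ^ q = -1 := by
      have h2 := hfrob 1 (-1)
      rw [add_neg_cancel, zero_pow hq0.ne', one_pow] at h2
      exact (neg_eq_of_add_eq_zero_right h2.symm).symm
    have := hXmul (-1) x hx
    rwa [h1, neg_one_mul] at this
  let M : Subring S :=
    { carrier := {s | ∀ x ∈ X, s * x ∈ X}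
      mul_mem' := fun {a b} ha hb x hx => by
        rw [mul_assoc]
        exact ha _ (hb x hx)
      one_mem' := fun x hx => by rwa [one_mul]
      add_mem' := fun {a b} ha hb x hx => by
        rw [add_mul]
        exact hXadd _ (ha x hx) _ (hb x hx)
      zero_mem' := fun x _ => by rw [zero_mul]; exact hX0
      neg_mem' := fun {a} ha x hx => by
        rw [neg_mul]
        exact hneg _ (ha x hx) }
  have hM : Subring.closure (Set.range t) ≤ M := by
    rw [Subring.closure_le]
    rintro _ ⟨i, rfl⟩
    exact hti i
  have hMX : (Subring.closure (Set.range t) : Set S) ⊆ X := by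
    intro s hs
    have := hM hs 1 h1X
    rwa [mul_one] at this
  have hXtop : ∀ s : S, s ∈ X := by
    intro s
    have h2 : closure (Subring.closure (Set.range t) : Set S) ⊆ X := hXc.closure_subset_iff.2 hMX
    exact h2 (ht s)
  -- conclusion
  have key : ∀ (m : Module S S), (∀ a b : S, m.toSMul.smul a b = a ^ q * b) →
      @Module.Finite S S _ _ m := by
    intro m hm
    classical
    rw [Module.finite_def]
    refine ⟨Finset.univ.image mon, ?_⟩
    rw [eq_top_iff]
    rintro s -
    obtain ⟨c, rfl⟩ := hXtop s
    refine sum_mem fun a _ => ?_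
    rw [← hm]
    have h3 : mon a ∈ @Submodule.span S S _ _ m (Finset.univ.image mon : Finset S) :=
      @Submodule.subset_span S S _ _ m _ _ (by simp)
    exact @Submodule.smul_mem S S _ _ m _ _ (c a) h3
  exact key _ fun a b => rfl

/-- A finite extension of a ring with finite Frobenius has finite Frobenius. -/
theorem frob_finite_of_finite (p : ℕ) [Fact p.Prime] {A B : Type*} [CommRing A] [CharP A p]
    [CommRing B] [CharP B p] (φ : A →+* B) (hφ : φ.Finite) (e : ℕ)
    (h : (iterateFrobenius A p e).Finite) : (iterateFrobenius B p e).Finite := by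
  have h1 : (iterateFrobenius B p e).comp φ = φ.comp (iterateFrobenius A p e) := by
    ext x
    simp [iterateFrobenius_def]
  refine RingHom.Finite.of_comp_finite (f := φ) ?_
  rw [h1]
  exact hφ.comp h

/-- If a power of the Frobenius factors through `w ^ k`, then `w ^ k` is finite. -/
theorem pow_finite_of_frob (p : ℕ) [Fact p.Prime] {A : Type*} [CommRing A] [CharP A p]
    (w : A →+* A) (N : ℕ) (hN : 0 < N) (hw : ∀ x, (w ^ N) x = x ^ p)
    (h : ∀ e, (iterateFrobenius A p e).Finite) (k : ℕ) : (w ^ k).Finite := by
  have h1 : ∀ e x, (w ^ (N * e)) x = x ^ p ^ e := by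
    intro e
    induction e with
    | zero => intro x; simp
    | succ e ih =>
      intro x
      rw [mul_add, mul_one, pow_add]
      show (w ^ (N * e)) ((w ^ N) x) = _
      rw [hw, ih, ← pow_mul, pow_succ']
  have h2 : (w ^ k).comp (w ^ (N * k - k)) = iterateFrobenius A p k := by
    have h3 : w ^ k * w ^ (N * k - k) = w ^ (N * k) := by
      rw [← pow_add]
      congr 1
      have : k ≤ N * k := Nat.le_mul_of_pos_left k hN
      omega
    ext x
    rw [iterateFrobenius_def, ← h1]
    exact RingHom.congr_fun h3 x
  refine RingHom.Finite.of_comp_finite (f := w ^ (N * k - k)) ?_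
  rw [h2]
  exact h k

/-- `p ^ e`-th powers are in the image of `w ^ k` for `k ≤ N * e`. -/
theorem pow_mem_range (p : ℕ) {A : Type*} [CommRing A] (w : A →+* A) (N : ℕ)
    (hw : ∀ x, (w ^ N) x = x ^ p) {k e : ℕ} (hk : k ≤ N * e) (x : A) :
    ∃ y, (w ^ k) y = x ^ p ^ e := by
  have h1 : ∀ e x, (w ^ (N * e)) x = x ^ p ^ e := by
    intro e
    induction e with
    | zero => intro x; simp
    | succ e ih =>
      intro x
      rw [mul_add, mul_one, pow_add]
      show (w ^ (N * e)) ((w ^ N) x) = _
      rw [hw, ih, ← pow_mul, pow_succ']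
  refine ⟨(w ^ (N * e - k)) x, ?_⟩
  rw [← h1]
  have h3 : w ^ k * w ^ (N * e - k) = w ^ (N * e) := by
    rw [← pow_add]
    congr 1
    omega
  exact RingHom.congr_fun h3 x

end MP35
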