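import Pool.Agent.Lib_MP_3538b5_al.ESpeed
import Pool.Agent.Lib_MP_3538b5_al.QFrob

/-!
# MP_3538b5_al, endgame 1e: the algebra around the quasi-inverse

`exists_annihilator`: a polynomial `g` with coefficients in the ring of scalars, nonzero constant
coefficient, and `β ^ m * g(β) = 0`.
`exists_quasi_inverse`: everything together.
-/

namespace MP35

open Polynomial

universe u v w

section annih

variable {R : Type*} [CommRing R] {Ω : Type*} [Field Ω] (ι : R →+* Ω)

theorem exists_annih_elt (hι : Function.Injective ι) {c : Ω} (hc : c ≠ 0)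
    (halg : ∃ f : R[X], f ≠ 0 ∧ f.eval₂ ι c = 0) :
    ∃ f : R[X], f.coeff 0 ≠ 0 ∧ f.eval₂ ι c = 0 := by
  obtain ⟨f, hf, hfc⟩ := halg
  have hdom : IsDomain R := hι.isDomain ι
  obtain ⟨q, hq, hnd⟩ := exists_eq_pow_rootMultiplicity_mul_and_not_dvd f hf 0
  refine ⟨q, ?_, ?_⟩
  · intro h0
    refine hnd ?_
    rw [C_0, sub_zero]
    exact X_dvd_iff.2 h0
  · rw [hq, C_0, sub_zero, eval₂_mul, eval₂_pow, eval₂_X] at hfc
    exact (mul_eq_zero.1 hfc).resolve_left (pow_ne_zero _ hc)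

theorem exists_annih_multiset (hι : Function.Injective ι)
    (halg : ∀ c : Ω, ∃ f : R[X], f ≠ 0 ∧ f.eval₂ ι c = 0) (s : Multiset Ω) :
    ∃ (m : ℕ) (g : R[X]), g.coeff 0 ≠ 0 ∧ (s.map fun a => X - C a).prod ∣ X ^ m * g.map ι := by
  have hdom : IsDomain R := hι.isDomain ι
  induction s using Multiset.induction_on with
  | empty => exact ⟨0, 1, by simp, by simp⟩
  | cons a s ih =>
    obtain ⟨m, g, hg, hd⟩ := ih
    rw [Multiset.map_cons, Multiset.prod_cons]
    by_cases ha : a = 0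
    · refine ⟨m + 1, g, hg, ?_⟩
      rw [ha, C_0, sub_zero, pow_succ', mul_assoc]
      exact mul_dvd_mul_left _ hd
    · obtain ⟨f, hf, hfa⟩ := exists_annih_elt ι hι ha (halg a)
      refine ⟨m, f * g, ?_, ?_⟩
      · rw [mul_coeff_zero]
        exact mul_ne_zero hf hg
      · rw [Polynomial.map_mul]
        have h1 : X - C a ∣ f.map ι := by
          rw [dvd_iff_isRoot, IsRoot.def, eval_map]
          exact hfa
        have h2 := mul_dvd_mul h1 hd
        refine h2.trans (dvd_of_eq ?_)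
        ring

/-- **Annihilating polynomial** with coefficients in the ring of scalars. -/
theorem exists_annihilator [IsAlgClosed Ω] (hι : Function.Injective ι)
    (halg : ∀ c : Ω, ∃ f : R[X], f ≠ 0 ∧ f.eval₂ ι c = 0) {W : Type*} [AddCommGroup W]
    [Module Ω W] [FiniteDimensional Ω W] (β : Module.End Ω W) :
    ∃ (m : ℕ) (g : R[X]), g.coeff 0 ≠ 0 ∧ β ^ m * aeval β (g.map ι) = 0 := by
  obtain ⟨m, g, hg, hd⟩ := exists_annih_multiset ι hι halg β.charpoly.roots
  refine ⟨m, g, hg, ?_⟩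
  have hsplit := IsAlgClosed.splits β.charpoly
  have h1 : (β.charpoly.roots.map fun a => X - C a).prod = β.charpoly :=
    (Splits.eq_prod_roots_of_monic hsplit β.charpoly_monic).symm
  rw [h1] at hd
  obtain ⟨r, hr⟩ := hd
  have h2 : aeval β (X ^ m * g.map ι) = 0 := by
    rw [hr, map_mul, LinearMap.aeval_self_charpoly, zero_mul]
  rwa [map_mul, map_pow, aeval_X] at h2

end annih

/-- The polynomial `H` with `α + α ^ 2 * H(α) = 0`, `α = β ^ (p ^ e)`. -/
theorem quasi_poly (p : ℕ) [Fact p.Prime] {R : Type*} [CommRing R] {Ω : Type*} [Field Ω]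
    [CharP Ω p] (ι : R →+* Ω) {W : Type*} [AddCommGroup W] [Module Ω W] (β : Module.End Ω W)
    {m : ℕ} {g : R[X]} (hg : ι (g.coeff 0) ≠ 0) (hβ : β ^ m * aeval β (g.map ι) = 0) (e : ℕ)
    (hm : m ≤ p ^ e) :
    β ^ p ^ e + (β ^ p ^ e) ^ 2 *
      aeval (β ^ p ^ e) ((C (ι (g.coeff 0))⁻¹ * g.divX.map ι).map (iterateFrobenius Ω p e)) = 0 := by
  set h : Polynomial Ω := C (ι (g.coeff 0))⁻¹ * g.divX.map ι with hh
  have h1 : g.map ι = C (ι (g.coeff 0)) * (1 + X * h) := by
    conv_lhs => rw [← divX_mul_X_add g]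
    rw [Polynomial.map_add, Polynomial.map_mul, map_X, map_C, mul_add, mul_one, hh]
    have : C (ι (g.coeff 0)) * (X * (C (ι (g.coeff 0))⁻¹ * g.divX.map ι))
        = C (ι (g.coeff 0) * (ι (g.coeff 0))⁻¹) * (g.divX.map ι * X) := by
      rw [C_mul]; ring
    rw [this, mul_inv_cancel₀ hg, C_1, one_mul, add_comm]
  have h2 : β ^ m * aeval β (1 + X * h) = 0 := by
    rw [h1, map_mul, aeval_C, Algebra.algebraMap_eq_smul_one, smul_mul_assoc, one_mul,
      mul_smul_comm] at hβ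
    exact (smul_eq_zero.1 hβ).resolve_left hg
  have hcomm : Commute β (aeval β (1 + X * h)) := by
    have := (Polynomial.commute_X (1 + X * h)).map (aeval β)
    rwa [aeval_X] at this
  have hq0 : 0 < p ^ e := pow_pos (Fact.out : p.Prime).pos e
  have h3 : β ^ p ^ e * (aeval β (1 + X * h)) ^ p ^ e = 0 := by
    obtain ⟨k, hk⟩ := Nat.exists_eq_add_of_le hm
    obtain ⟨l, hl⟩ : ∃ l, p ^ e = l + 1 := ⟨p ^ e - 1, by omega⟩
    conv_lhs => rw [hk]
    rw [pow_add, mul_assoc, (hcomm.pow_left k).pow_right (m + k) |>.eq, ← mul_assoc]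
    rw [← hk, hl, pow_succ', ← mul_assoc, h2, zero_mul, zero_mul]
  rw [← map_pow, add_pow_expChar_pow, one_pow, mul_pow] at h3
  have h4 : h ^ p ^ e = expand Ω (p ^ e) (h.map (iterateFrobenius Ω p e)) := by
    rw [← map_iterateFrobenius_expand, map_expand]
  rw [h4, map_add, map_one, map_mul, map_pow, aeval_X, expand_aeval, mul_add, mul_one,
    ← mul_assoc, ← pow_two] at h3
  exact h3

namespace Lin

variable {G : Type u} [Group G] {W : Type v} [AddCommGroup W] {Ω : Type w} [Field Ω] [Module Ω W]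
  {L : Lin G W}

/-- Noetherianity descends along finite ring homomorphisms. -/
theorem NoethAt.comp {A B : Type*} [CommRing A] [IsNoetherianRing A] [CommRing B] {ι : B →+* Ω}
    {F0 : AddSubgroup W} (hF : ∀ (r : B), ∀ x ∈ F0, ι r • x ∈ F0) (h : NoethAt ι F0) (φ : A →+* B)
    (hφ : φ.Finite) : NoethAt (ι.comp φ) F0 := by
  let iB : Module B W := Module.compHom W ι
  let iA : Module A W := Module.compHom W (ι.comp φ)
  let _ : Algebra A B := φ.toAlgebra
  have _ : Module.Finite A B := hφ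
  have _ : IsScalarTower A B W := ⟨fun a b x => by
    show ι (φ a * b) • x = ι (φ a) • ι b • x
    rw [map_mul, mul_smul]⟩
  intro S hS
  let P : Submodule B W :=
    { carrier := F0
      zero_mem' := F0.zero_mem
      add_mem' := fun {a b} ha hb => F0.add_mem ha hb
      smul_mem' := fun r x hx => hF r x hx }
  have hP : P.FG := h P fun x hx => hx
  have _ : Module.Finite B P := Module.Finite.iff_fg.2 hP
  have _ : Module.Finite A P := Module.Finite.trans B P
  have _hNP : IsNoetherian A P := isNoetherian_of_isNoetherianRing_of_finite A P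
  -- `S` inside `P`
  let PA : Submodule A W := P.restrictScalars A
  have hSP : S ≤ PA := fun x hx => hS x hx
  have hPA : IsNoetherian A PA := _hNP
  exact (isNoetherian_submodule.1 hPA) S hSP

/-- scalars with denominators a power of `d`, for all the embeddings in `τs` -/
def scalS {R : Type*} [CommRing R] (d : Ω) (τs : Set (R →+* Ω)) (hd : ∀ τ ∈ τs, ∃ x, τ x = d) :
    Subring Ω where
  carrier := {c | ∀ τ ∈ τs, ∃ (e : ℕ) (r : R), d ^ e * c = τ r}
  mul_mem' := by
    intro a b ha hb τ hτ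
    obtain ⟨e, r, h1⟩ := ha τ hτ
    obtain ⟨e', r', h2⟩ := hb τ hτ
    refine ⟨e + e', r * r', ?_⟩
    rw [map_mul, ← h1, ← h2, pow_add]
    ring
  one_mem' := fun τ _ => ⟨0, 1, by simp⟩
  add_mem' := by
    intro a b ha hb τ hτ
    obtain ⟨e, r, h1⟩ := ha τ hτ
    obtain ⟨e', r', h2⟩ := hb τ hτ
    obtain ⟨x, hx⟩ := hd τ hτ
    refine ⟨e + e', x ^ e' * r + x ^ e * r', ?_⟩
    rw [map_add, map_mul, map_mul, map_pow, map_pow, ← h1, ← h2, hx, pow_add]
    ring
  zero_mem' := fun τ _ => ⟨0, 0, by simp⟩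
  neg_mem' := by
    intro a ha τ hτ
    obtain ⟨e, r, h1⟩ := ha τ hτ
    exact ⟨e, -r, by rw [map_neg, ← h1, mul_neg]⟩

/-- **The quasi-inverse of `α = β ^ (p ^ e)`** from the scalars, the twisted scalars and the
adapted element `D`. -/
theorem exists_quasi_inverse (p : ℕ) [Fact p.Prime] [CharP Ω p] {R : Type*} [CommRing R]
    [CharP R p] [IsNoetherianRing R] (ι : R →+* Ω) (w : R →+* R) (N : ℕ) (hN : 0 < N)
    (hw : ∀ x, (w ^ N) x = x ^ p) (hfrob : ∀ e, (iterateFrobenius R p e).Finite)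
    (hRF : ∀ (r : R) n q, q ∈ L.F n → ι r • q ∈ L.F n) (hnoeth : NoethAt ι (L.F 0))
    {J : Type*} [Fintype J] [DecidableEq J] {KK : Type*} [DecidableEq KK] (kap : J → KK)
    (sp : J → ℕ) (E : J → Module.End Ω W)
    (hEE : ∀ i j, kap i = kap j → E i * E j = if i = j then E i else 0)
    (hEB : ∀ j, L.Bdd (E j).toAddMonoidHom)
    (D : R) (Dk : ℕ → R) (hDk : ∀ j, (w ^ sp j) (Dk (sp j)) = D) (hD0 : ι D ≠ 0)
    (hDF : ∀ n q, q ∈ L.F n ↔ ι D • q ∈ L.F (n + 1))
    (hη : ∀ i, 0 < i → (∃ j, i ≤ sp j) → ∃ η : R, (w ^ i) D = D * η ∧ ∃ e, D ∣ η ^ e)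
    (hX : ∀ i (r : R), (Tf E (Finset.univ.filter fun j => kap j = kap i)
      fun j => ι ((w ^ sp j) (Dk (sp i) * r))).toAddMonoidHom ∈ L.C)
    {β : Module.End Ω W} (hβ : L.LDv β)
    (Fl : ℕ → Submodule Ω W) (l : ℕ) (h0 : Fl 0 = ⊥) (hl : Fl l = ⊤)
    (hub : ∀ i, ∀ v ∈ Fl i, (∑ j, E j) v ∈ Fl i) (hβb : ∀ i, ∀ v ∈ Fl i, β v ∈ Fl i)
    (hlay : ∀ i < l, Acts Fl (∑ j, E j) i 1 ∨ (Acts Fl (∑ j, E j) i 0 ∧ Acts Fl β i 0))
    {m : ℕ} {g : R[X]} (hg : ι (g.coeff 0) ≠ 0) (hβg : β ^ m * aeval β (g.map ι) = 0)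
    (hgD : ∃ e, g.coeff 0 ∣ D ^ e) (e : ℕ) (he1 : l ≤ p ^ e) (he2 : m ≤ p ^ e)
    (he3 : ∀ j, sp j ≤ N * e) :
    ∃ y : Module.End Ω W, L.LDv y ∧ β ^ p ^ e * y * β ^ p ^ e = β ^ p ^ e := by
  classical
  -- the scalars
  set τ : ℕ → R →+* Ω := fun k => ι.comp (w ^ k) with hτ
  have hτ1 : ∀ k r, τ k r = ι ((w ^ k) r) := fun k r => rfl
  let S : Subring Ω := scalS (ι D) {t | ∃ j : J, t = τ (sp j)} (by
    rintro _ ⟨j, rfl⟩
    exact ⟨Dk (sp j), by rw [hτ1, hDk]⟩)
  have hS : ∀ c, c ∈ S ↔ ∀ t ∈ {t | ∃ j : J, t = τ (sp j)}, ∃ (e : ℕ) (r : R),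
      ι D ^ e * c = t r := fun c => Iff.rfl
  have hwfin : ∀ k, (w ^ k).Finite := pow_finite_of_frob p w N hN hw hfrob
  have hwadd : ∀ i j : ℕ, ∀ x, (w ^ (i + j)) x = (w ^ i) ((w ^ j) x) := by
    intro i j x
    rw [pow_add]
    rfl
  -- the families
  have hfam : ∀ κ : KK, ∀ k : ℕ,
      L.Idl S (Tf E (Finset.univ.filter fun j => kap j = κ) fun j => if sp j = k then 1 else 0) := by
    intro κ k
    refine idl_speed (L := L) (R := R) τ (d := ι D) hD0 hDF ?_ ?_ sp ?_ ?_ Dk ?_ ?_ ?_ ?_ k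
    · intro i hi j hj
      exact hEE i j ((Finset.mem_filter.1 hi).2.trans (Finset.mem_filter.1 hj).2.symm)
    · intro j _
      exact hEB j
    · intro j _ r n q hq
      exact hRF _ n q hq
    · intro j _
      exact hnoeth.comp (fun r x hx => hRF r 0 x hx) _ (hwfin _)
    · intro j _
      rw [hτ1, hDk]
    · intro i _ j _ hij B
      obtain ⟨η, h1, e₁, ρ, h2⟩ := hη (sp j - sp i) (by omega) ⟨j, by omega⟩
      have h3 : τ (sp j) (Dk (sp i)) = ι D * ι η := by
        have h4 : sp j = (sp j - sp i) + sp i := by omega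
        rw [hτ1, h4, hwadd, hDk, h1, map_mul]
        
      refine ⟨(e₁ + 1) * B.toNat, fun M hM n q hq => ?_⟩
      obtain ⟨c, rfl⟩ := Nat.exists_eq_add_of_le hM
      have h5 : (ι D * ι η) ^ ((e₁ + 1) * B.toNat + c)
          = ι D ^ ((e₁ + 1) * B.toNat + c + B.toNat) * ι (ρ ^ B.toNat * η ^ (B.toNat + c)) := by
        have h6 : ι η ^ e₁ = ι D * ι ρ := by rw [← map_pow, h2, map_mul]
        rw [mul_pow, pow_add (ι D) _ B.toNat, mul_assoc]
        congr 1
        rw [map_mul, map_pow, map_pow]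
        have h7 : ι η ^ ((e₁ + 1) * B.toNat + c) = (ι η ^ e₁) ^ B.toNat * ι η ^ (B.toNat + c) := by
          rw [← pow_mul, ← pow_add]
          congr 1
          ring
        rw [h7, h6, mul_pow]
        ring
      rw [h3, h5, mul_smul]
      have h8 := (shiftF hD0 hDF (((e₁ + 1) * B.toNat + c + B.toNat : ℕ) : ℤ) n _).1
        (hRF (ρ ^ B.toNat * η ^ (B.toNat + c)) n q hq)
      rw [zpow_natCast] at h8
      refine memF ?_ h8
      have := Int.self_le_toNat B
      push_cast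
      linarith
    · intro i hi r
      have := hX i r
      have h1 : (Finset.univ.filter fun j => kap j = kap i)
          = Finset.univ.filter fun j => kap j = κ := by
        rw [(Finset.mem_filter.1 hi).2]
      rw [h1] at this
      exact this
    · intro c hc j _
      exact (hS c).1 hc _ ⟨j, rfl⟩
  -- the sum of all idempotents
  have hsum : L.Idl S (∑ j, E j) := by
    have h1 : ∀ κ : KK, L.Idl S (∑ j ∈ Finset.univ.filter fun j => kap j = κ, E j) := by
      intro κ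
      have h2 : ∑ j ∈ Finset.univ.filter (fun j => kap j = κ), E j
          = ∑ k ∈ Finset.range (Finset.univ.sup sp + 1),
            Tf E (Finset.univ.filter fun j => kap j = κ) fun j => if sp j = k then 1 else 0 := by
        unfold Tf
        rw [Finset.sum_comm]
        refine Finset.sum_congr rfl fun j _ => ?_
        rw [← Finset.sum_smul, Finset.sum_ite_eq, if_pos, one_smul]
        rw [Finset.mem_range]
        exact Nat.lt_succ_of_le (Finset.le_sup (Finset.mem_univ j))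
      rw [h2]
      exact Idl.sum _ _ fun k _ => hfam κ k
    have h3 : ∑ j, E j = ∑ κ ∈ Finset.univ.image kap,
        ∑ j ∈ Finset.univ.filter (fun j => kap j = κ), E j :=
      (Finset.sum_fiberwise_of_maps_to (fun j _ => Finset.mem_image_of_mem kap (Finset.mem_univ j))
        _).symm
    rw [h3]
    exact Idl.sum _ _ fun κ _ => h1 κ
  have hα : L.Idl S (β ^ p ^ e) := idl_pow Fl l h0 hl hsum hβ hub hβb hlay _ he1
  refine quasi_inverse hα _ (fun i => ?_) (quasi_poly p ι β hg hβg e he2)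
  rw [hS]
  rintro _ ⟨j, rfl⟩
  obtain ⟨e₁, c₁, hc₁⟩ := hgD
  obtain ⟨y, hy⟩ := pow_mem_range p w N hw (he3 j) (c₁ * g.coeff (i + 1))
  refine ⟨e₁ * p ^ e, y, ?_⟩
  rw [hτ1, hy, coeff_map, coeff_C_mul, coeff_map, coeff_divX, iterateFrobenius_def, map_pow,
    pow_mul, ← mul_pow, ← map_pow, hc₁, map_mul, map_mul]
  congr 1
  field_simp

end Lin

end MP35
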