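import Mathlib

/-!
# MP_3538b5_al, endgame 1: division at fixed precision

`Lin G Q`: a group `G`, the map `δ g = g - 1` into an additive group `Q`, a filtration
`F n = D ^ n B₀` (`n : ℤ`) of `Q`, a (normal) subgroup `N` and a set `C` of additive operators of
`Q` which can be realised on `N` up to quadratic terms.

`Dv L y`: the operator `y` can be realised on `N` with every fixed precision `J` from some level on.
These operators are closed under sums and products; `Lin.division` shows that scalars with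
denominators are among them (one speed of a linked family; the slower speeds have to be known).
-/

namespace MP35

universe u v w

/-- The linear range of a group. -/
structure Lin (G : Type u) [Group G] (Q : Type v) [AddCommGroup Q] where
  /-- `δ g = g - 1` -/
  δ : G → Q
  /-- the filtration -/
  F : ℤ → AddSubgroup Q
  /-- the subgroup in which all corrections are made -/
  N : Subgroup G
  /-- the operators which come from the group -/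
  C : Set (Q →+ Q)
  /-- the quadratic constant -/
  c : ℤ
  c_nonneg : 0 ≤ c
  anti : Antitone F
  δ_zero : ∀ g, δ g ∈ F 0
  δ_one : δ 1 = 0
  mul : ∀ m n g h, 0 ≤ m → 0 ≤ n → δ g ∈ F m → δ h ∈ F n → δ (g * h) - δ g - δ h ∈ F (m + n - c)
  inv : ∀ m g, 0 ≤ m → δ g ∈ F m → δ g⁻¹ + δ g ∈ F (2 * m - c)
  real : ∀ y ∈ C, ∀ m h, 0 ≤ m → h ∈ N → δ h ∈ F m → ∃ h' ∈ N, δ h' - y (δ h) ∈ F (2 * m - c)
  presF : ∀ y ∈ C, ∀ m, ∀ q ∈ F m, y q ∈ F m

namespace Lin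

variable {G : Type u} [Group G] {Q : Type v} [AddCommGroup Q] (L : Lin G Q)

/-- bounded operators -/
def Bdd (y : Q →+ Q) : Prop := ∃ b : ℤ, 0 ≤ b ∧ ∀ m, ∀ q ∈ L.F m, y q ∈ L.F (m - b)

/-- Operators which can be realised on `N` with every fixed precision. -/
def Dv (y : Q →+ Q) : Prop :=
  L.Bdd y ∧ ∀ J : ℤ, ∃ m₀ : ℤ, 0 ≤ m₀ ∧ ∀ m, m₀ ≤ m → ∀ u ∈ L.N, L.δ u ∈ L.F m →
    ∃ u' ∈ L.N, L.δ u' - y (L.δ u) ∈ L.F (m + J)

variable {L}

theorem memF {m n : ℤ} (h : n ≤ m) {q : Q} (hq : q ∈ L.F m) : q ∈ L.F n := L.anti h hq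

theorem Dv.of_mem {y : Q →+ Q} (hy : y ∈ L.C) : L.Dv y := by
  refine ⟨⟨0, le_refl _, fun m q hq => by simpa using L.presF y hy m q hq⟩, fun J => ?_⟩
  refine ⟨max 0 (J + L.c), le_max_left _ _, fun m hm u hu hum => ?_⟩
  obtain ⟨h', hh', e⟩ := L.real y hy m u (le_trans (le_max_left _ _) hm) hu hum
  have := le_trans (le_max_right _ _) hm
  exact ⟨h', hh', memF (by omega) e⟩

theorem Dv.zero : L.Dv 0 := by
  refine ⟨⟨0, le_refl _, fun m q _ => by simp [(L.F _).zero_mem]⟩, fun J => ?_⟩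
  exact ⟨0, le_refl _, fun m _ u _ _ => ⟨1, L.N.one_mem, by simp [L.δ_one, (L.F _).zero_mem]⟩⟩

/-- the linear range of a product -/
theorem mul_lin {m : ℤ} (hm : 0 ≤ m) {g h : G} (hg : L.δ g ∈ L.F m) (hh : L.δ h ∈ L.F m) :
    L.δ (g * h) - (L.δ g + L.δ h) ∈ L.F (2 * m - L.c) := by
  have := L.mul m m g h hm hm hg hh
  rw [← sub_sub]
  exact memF (by omega) this

theorem inv_mem {m : ℤ} (hm : 0 ≤ m) {h : G} (hh : L.δ h ∈ L.F m) (hc : L.c ≤ m) :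
    L.δ h⁻¹ ∈ L.F m := by
  have h1 : L.δ h⁻¹ + L.δ h ∈ L.F m := memF (by omega) (L.inv m h hm hh)
  have := (L.F m).sub_mem h1 hh
  simpa using this

/-- the linear range of a quotient -/
theorem div_lin {m : ℤ} (hm : 0 ≤ m) (hc : L.c ≤ m) {g h : G} (hg : L.δ g ∈ L.F m)
    (hh : L.δ h ∈ L.F m) : L.δ (g * h⁻¹) - (L.δ g - L.δ h) ∈ L.F (2 * m - L.c) := by
  have h1 := mul_lin hm hg (inv_mem hm hh hc)
  have h2 := L.inv m h hm hh
  have := (L.F _).add_mem h1 h2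
  have e : L.δ (g * h⁻¹) - (L.δ g + L.δ h⁻¹) + (L.δ h⁻¹ + L.δ h)
      = L.δ (g * h⁻¹) - (L.δ g - L.δ h) := by abel
  rwa [e] at this

theorem Bdd.add {y z : Q →+ Q} (hy : L.Bdd y) (hz : L.Bdd z) : L.Bdd (y + z) := by
  obtain ⟨b, hb, hyb⟩ := hy
  obtain ⟨b', hb', hzb⟩ := hz
  refine ⟨max b b', le_trans hb (le_max_left _ _), fun m q hq => ?_⟩
  rw [AddMonoidHom.add_apply]
  exact (L.F _).add_mem (memF (by have := le_max_left b b'; omega) (hyb m q hq))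
    (memF (by have := le_max_right b b'; omega) (hzb m q hq))

theorem Bdd.comp {y z : Q →+ Q} (hy : L.Bdd y) (hz : L.Bdd z) : L.Bdd (y.comp z) := by
  obtain ⟨b, hb, hyb⟩ := hy
  obtain ⟨b', hb', hzb⟩ := hz
  refine ⟨b + b', by omega, fun m q hq => ?_⟩
  exact memF (by omega) (hyb _ _ (hzb m q hq))

theorem Dv.add {y z : Q →+ Q} (hy : L.Dv y) (hz : L.Dv z) : L.Dv (y + z) := by
  refine ⟨hy.1.add hz.1, fun J => ?_⟩
  obtain ⟨b, hb, hyb⟩ := hy.1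
  obtain ⟨b', hb', hzb⟩ := hz.1
  obtain ⟨m₁, hm₁, h₁⟩ := hy.2 (max J 0)
  obtain ⟨m₂, hm₂, h₂⟩ := hz.2 (max J 0)
  have hc := L.c_nonneg
  have hJ := le_max_left J 0
  have hJ0 := le_max_right J 0
  refine ⟨m₁ + m₂ + (max J 0) + L.c + 2 * b + 2 * b', by omega, fun m hm u hu hum => ?_⟩
  obtain ⟨u₁, hu₁, e₁⟩ := h₁ m (by omega) u hu hum
  obtain ⟨u₂, hu₂, e₂⟩ := h₂ m (by omega) u hu hum
  have k₁ : L.δ u₁ ∈ L.F (m - b - b') := by
    have := (L.F (m - b - b')).add_mem (memF (by omega) e₁) (memF (by omega) (hyb m _ hum))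
    simpa using this
  have k₂ : L.δ u₂ ∈ L.F (m - b - b') := by
    have := (L.F (m - b - b')).add_mem (memF (by omega) e₂) (memF (by omega) (hzb m _ hum))
    simpa using this
  have k₃ := mul_lin (by omega) k₁ k₂
  refine ⟨u₁ * u₂, L.N.mul_mem hu₁ hu₂, ?_⟩
  have k₄ := (L.F (m + J)).add_mem (memF (by omega) k₃)
    ((L.F (m + J)).add_mem (memF (by omega) e₁) (memF (by omega) e₂))
  have e : L.δ (u₁ * u₂) - (L.δ u₁ + L.δ u₂) + (L.δ u₁ - y (L.δ u) + (L.δ u₂ - z (L.δ u)))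
      = L.δ (u₁ * u₂) - (y + z) (L.δ u) := by
    rw [AddMonoidHom.add_apply]; abel
  rwa [e] at k₄

theorem Dv.comp {y z : Q →+ Q} (hy : L.Dv y) (hz : L.Dv z) : L.Dv (y.comp z) := by
  refine ⟨hy.1.comp hz.1, fun J => ?_⟩
  obtain ⟨b, hb, hyb⟩ := hy.1
  obtain ⟨b', hb', hzb⟩ := hz.1
  have hJ := le_max_left J 0
  have hJ0 := le_max_right J 0
  obtain ⟨m₁, hm₁, h₁⟩ := hy.2 (max J 0 + b')
  obtain ⟨m₂, hm₂, h₂⟩ := hz.2 (max J 0 + b)
  refine ⟨m₁ + m₂ + b', by omega, fun m hm u hu hum => ?_⟩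
  obtain ⟨u₂, hu₂, e₂⟩ := h₂ m (by omega) u hu hum
  have k₂ : L.δ u₂ ∈ L.F (m - b') := by
    have := (L.F (m - b')).add_mem (memF (by omega) e₂) (memF (by omega) (hzb m _ hum))
    simpa using this
  obtain ⟨u₁, hu₁, e₁⟩ := h₁ (m - b') (by omega) u₂ hu₂ k₂
  refine ⟨u₁, hu₁, ?_⟩
  have k₃ := hyb _ _ e₂
  have k₄ := (L.F (m + J)).add_mem (memF (by omega) e₁) (memF (by omega) k₃)
  have e : L.δ u₁ - y (L.δ u₂) + y (L.δ u₂ - z (L.δ u)) = L.δ u₁ - (y.comp z) (L.δ u) := by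
    rw [map_sub, AddMonoidHom.comp_apply]; abel
  rwa [e] at k₄

theorem Dv.sum {ι : Type*} (s : Finset ι) (y : ι → Q →+ Q) (hy : ∀ i ∈ s, L.Dv (y i)) :
    L.Dv (∑ i ∈ s, y i) := by
  classical
  induction s using Finset.induction_on with
  | empty => simpa using Dv.zero
  | insert i s hi ih =>
    rw [Finset.sum_insert hi]
    exact (hy i (Finset.mem_insert_self _ _)).add
      (ih fun j hj => hy j (Finset.mem_insert_of_mem hj))

/-! ### Noetherian stability -/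

/-- A sequence of additive subgroups of a noetherian module which is increasing and stable under
scalars with a bounded shift is eventually constant. -/
theorem stable {R : Type w} [CommRing R] [Module R Q] (Λ : Submodule R Q) [IsNoetherian R Λ]
    (X : ℕ → AddSubgroup Q) (hX : ∀ m, ∀ x ∈ X m, x ∈ Λ) (N₀ : ℕ)
    (hmono : ∀ m, X m ≤ X (m + 1)) (hsmul : ∀ m, ∀ r : R, ∀ x ∈ X m, r • x ∈ X (m + N₀)) :
    ∃ m₂, ∀ m, m₂ ≤ m → ∀ x, x ∈ X m → x ∈ X m₂ := by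
  have hmon : Monotone X := monotone_nat_of_le_succ hmono
  let Y : Submodule R Q :=
    { carrier := {x | ∃ m, x ∈ X m}
      add_mem' := by
        rintro x y ⟨m, hm⟩ ⟨n, hn⟩
        exact ⟨max m n, (X _).add_mem (hmon (le_max_left _ _) hm) (hmon (le_max_right _ _) hn)⟩
      zero_mem' := ⟨0, (X 0).zero_mem⟩
      smul_mem' := by
        rintro r x ⟨m, hm⟩
        exact ⟨_, hsmul m r x hm⟩ }
  have hYΛ : Y ≤ Λ := by
    rintro x ⟨m, hm⟩
    exact hX m x hm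
  have hfg : Y.FG := by
    have h1 : (Y.comap Λ.subtype).FG := IsNoetherian.noetherian _
    have h2 := h1.map Λ.subtype
    rwa [Submodule.map_comap_subtype, inf_eq_right.mpr hYΛ] at h2
  obtain ⟨S, hS⟩ := hfg
  have hch : ∀ x ∈ S, ∃ m, x ∈ X m := by
    intro x hx
    have : x ∈ Y := by rw [← hS]; exact Submodule.subset_span hx
    exact this
  choose! f hf using hch
  let M := S.sup f
  refine ⟨M + N₀, fun m _ x hx => ?_⟩
  have hxY : x ∈ Submodule.span R (S : Set Q) := by rw [hS]; exact ⟨m, hx⟩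
  clear hx
  rw [Submodule.mem_span_finset] at hxY
  obtain ⟨g, _, rfl⟩ := hxY
  refine AddSubgroup.sum_mem _ fun a ha => ?_
  have h1 : a ∈ X M := hmon (Finset.le_sup ha) (hf a ha)
  exact hsmul M (g a) a h1

/-! ### Division -/

/-- Apply an operator from `C` and remove the slower speeds. -/
theorem push {Es : Q →+ Q} (hEs : L.Dv Es) (hEsF : ∀ n, ∀ q ∈ L.F n, Es q ∈ L.F n) {M : ℤ}
    (hM : 0 ≤ M) :
    ∃ m₁ : ℤ, 0 ≤ m₁ ∧ L.c ≤ m₁ ∧ M + L.c ≤ m₁ ∧ ∀ m, m₁ ≤ m → ∀ y ∈ L.C, ∀ h ∈ L.N,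
      L.δ h ∈ L.F m → ∃ h' ∈ L.N, L.δ h' - (y (L.δ h) - Es (y (L.δ h))) ∈ L.F (m + M) := by
  obtain ⟨m₀, hm₀, h₀⟩ := hEs.2 M
  have hc := L.c_nonneg
  refine ⟨m₀ + M + L.c, by omega, by omega, by omega, fun m hm y hy h hh hhm => ?_⟩
  obtain ⟨h₁, hh₁, e₁⟩ := L.real y hy m h (by omega) hh hhm
  have k₁ : L.δ h₁ ∈ L.F m := by
    have := (L.F m).add_mem (memF (by omega) e₁) (L.presF y hy m _ hhm)
    simpa using this
  obtain ⟨n, hn, e₂⟩ := h₀ m (by omega) h₁ hh₁ k₁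
  have k₂ : L.δ n ∈ L.F m := by
    have := (L.F m).add_mem (memF (by omega) e₂) (hEsF m _ k₁)
    simpa using this
  have k₃ := div_lin (by omega) (by omega) k₁ k₂
  refine ⟨h₁ * n⁻¹, L.N.mul_mem hh₁ (L.N.inv_mem hn), ?_⟩
  have k₄ : Es (L.δ h₁ - y (L.δ h)) ∈ L.F (m + M) := hEsF _ _ (memF (by omega) e₁)
  have k₅ : L.δ h₁ - y (L.δ h) ∈ L.F (m + M) := memF (by omega) e₁
  have k₆ : L.δ (h₁ * n⁻¹) - (L.δ h₁ - L.δ n) ∈ L.F (m + M) := memF (by omega) k₃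
  have k₇ := (L.F (m + M)).sub_mem ((L.F (m + M)).add_mem k₆ k₅) ((L.F (m + M)).add_mem e₂ k₄)
  have e : L.δ (h₁ * n⁻¹) - (L.δ h₁ - L.δ n) + (L.δ h₁ - y (L.δ h))
      - (L.δ n - Es (L.δ h₁) + Es (L.δ h₁ - y (L.δ h)))
      = L.δ (h₁ * n⁻¹) - (y (L.δ h) - Es (y (L.δ h))) := by
    rw [map_sub]; abel
  rwa [e] at k₇

/-- The shift by `d`. -/
theorem shiftF {K : Type*} [Field K] [Module K Q] {d : K} (hd : d ≠ 0)
    (hD : ∀ n q, q ∈ L.F n ↔ d • q ∈ L.F (n + 1)) (k n : ℤ) (q : Q) :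
    q ∈ L.F n ↔ d ^ k • q ∈ L.F (n + k) := by
  induction k using Int.induction_on generalizing n q with
  | zero => simp
  | succ i ih =>
    rw [zpow_add_one₀ hd, mul_smul]
    have h1 := ih (n + 1) (d • q)
    rw [hD n q, h1]
    rw [show n + 1 + (i : ℤ) = n + ((i : ℤ) + 1) by ring]
  | pred i ih =>
    rw [sub_eq_add_neg, zpow_add₀ hd, mul_smul, zpow_neg_one]
    have h1 := ih (n - 1) (d⁻¹ • q)
    have h2 : q ∈ L.F n ↔ d⁻¹ • q ∈ L.F (n - 1) := by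
      have := hD (n - 1) (d⁻¹ • q)
      rw [smul_inv_smul₀ hd, sub_add_cancel] at this
      exact this.symm
    rw [h2, h1]
    rw [show n - 1 + -(i : ℤ) = n + (-(i : ℤ) + -1) by ring]

/-- The vectors of `Λ` which are represented at level `m` with precision `J`. -/
def X {K : Type*} [Field K] [Module K Q] {R : Type w} [CommRing R] [Module R Q] (L : Lin G Q)
    (d : K) (Λ : Submodule R Q) (hΛ : ∀ (k : ℤ) (x : Q), x ∈ Λ → d ^ k • x ∈ L.F k) (J : ℤ)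
    (hJ : 0 ≤ J) (m : ℤ) (hm : 0 ≤ m) (hmc : J + L.c ≤ m) : AddSubgroup Q where
  carrier := {x | x ∈ Λ ∧ ∃ h ∈ L.N, L.δ h - d ^ m • x ∈ L.F (m + J)}
  zero_mem' := ⟨Λ.zero_mem, 1, L.N.one_mem, by simp [L.δ_one, (L.F _).zero_mem]⟩
  add_mem' := by
    rintro x y ⟨hx, h, hh, e⟩ ⟨hy, h', hh', e'⟩
    refine ⟨Λ.add_mem hx hy, h * h', L.N.mul_mem hh hh', ?_⟩
    have hc := L.c_nonneg
    have k : L.δ h ∈ L.F m := by
      have := (L.F m).add_mem (memF (by omega) e) (hΛ m x hx)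
      simpa using this
    have k' : L.δ h' ∈ L.F m := by
      have := (L.F m).add_mem (memF (by omega) e') (hΛ m y hy)
      simpa using this
    have k₂ : L.δ (h * h') - (L.δ h + L.δ h') ∈ L.F (m + J) := memF (by omega) (mul_lin hm k k')
    have k₃ := (L.F (m + J)).add_mem k₂ ((L.F (m + J)).add_mem e e')
    have e : L.δ (h * h') - (L.δ h + L.δ h') + (L.δ h - d ^ m • x + (L.δ h' - d ^ m • y))
        = L.δ (h * h') - d ^ m • (x + y) := by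
      rw [smul_add]; abel
    rwa [e] at k₃
  neg_mem' := by
    rintro x ⟨hx, h, hh, e⟩
    refine ⟨Λ.neg_mem hx, h⁻¹, L.N.inv_mem hh, ?_⟩
    have hc := L.c_nonneg
    have k : L.δ h ∈ L.F m := by
      have := (L.F m).add_mem (memF (by omega) e) (hΛ m x hx)
      simpa using this
    have k₂ : L.δ h⁻¹ + L.δ h ∈ L.F (m + J) := memF (by omega) (L.inv m h hm k)
    have k₃ := (L.F (m + J)).sub_mem k₂ e
    have e : L.δ h⁻¹ + L.δ h - (L.δ h - d ^ m • x) = L.δ h⁻¹ - d ^ m • (-x) := by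
      rw [smul_neg]; abel
    rwa [e] at k₃

/-- **Division at fixed precision.**  `Es`: the slower speeds of the linked family (already known
to be divisible); `Λ`: the lattice of the speed in question, a noetherian module over the ring `R`
of common scalars. -/
theorem Dv.division {K : Type*} [Field K] [Module K Q] {R : Type w} [CommRing R] [Module R Q]
    [SMulCommClass K R Q] {d : K} (hd : d ≠ 0) (hD : ∀ n q, q ∈ L.F n ↔ d • q ∈ L.F (n + 1))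
    (Λ : Submodule R Q) [IsNoetherian R Λ] (hΛ : ∀ x ∈ Λ, x ∈ L.F 0)
    {Es : Q →+ Q} (hEs : L.Dv Es) (hEsF : ∀ n, ∀ q ∈ L.F n, Es q ∈ L.F n)
    (hEsΛ : ∀ (k : ℤ) (x : Q), x ∈ Λ → Es (d ^ k • x) = 0)
    (hσ : ∃ σ ∈ L.C, (∀ (k : ℤ) (x : Q), x ∈ Λ → σ (d ^ k • x) = d ^ (k + 1) • x) ∧
      ∀ n, ∀ q ∈ L.F n, σ q - Es (σ q) ∈ L.F (n + 1))
    (N₀ : ℕ) (hρ : ∀ r : R, ∃ ρ ∈ L.C,
      (∀ (k : ℤ) (x : Q), x ∈ Λ → ρ (d ^ k • x) = d ^ (k + N₀) • r • x) ∧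
      ∀ n, ∀ q ∈ L.F n, ρ q - Es (ρ q) ∈ L.F (n + N₀))
    {θ : Q →+ Q} (hθ : L.Bdd θ)
    (hθΛ : ∀ (q : Q) (k : ℤ), d ^ k • θ q ∈ L.F 0 → d ^ k • θ q ∈ Λ)
    (hθr : ∀ J : ℤ, ∃ (e : ℕ), ∃ y ∈ L.C, ∀ n, ∀ q ∈ L.F n,
      y q - Es (y q) - d ^ (e : ℤ) • θ q ∈ L.F (n + e + J)) :
    L.Dv θ := by
  have hΛk : ∀ (k : ℤ) (x : Q), x ∈ Λ → d ^ k • x ∈ L.F k := by
    intro k x hx
    have := (shiftF hd hD k 0 x).1 (hΛ x hx)
    rwa [zero_add] at this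
  refine ⟨hθ, fun J₁ => ?_⟩
  obtain ⟨b, hb, hθb⟩ := hθ
  have hc := L.c_nonneg
  -- the precision
  set J := max J₁ 0 + b with hJdef
  have hJ1 := le_max_left J₁ 0
  have hJ2 := le_max_right J₁ 0
  have hJ0 : 0 ≤ J := by omega
  obtain ⟨e, y, hyC, hy⟩ := hθr J
  obtain ⟨m₁, hm₁0, hm₁c, hm₁J, hpush⟩ := push hEs hEsF (M := J + N₀ + 1 + e) (by omega)
  have hpos : ∀ i : ℕ, 0 ≤ m₁ + i := fun i => by omega
  have hposJ : ∀ i : ℕ, J + L.c ≤ m₁ + i := fun i => by omega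
  let Y : ℕ → AddSubgroup Q := fun i => X L d Λ hΛk J hJ0 (m₁ + i) (hpos i) (hposJ i)
  have hlev : ∀ (m : ℤ), m₁ ≤ m → ∀ x ∈ Λ, ∀ h, L.δ h - d ^ m • x ∈ L.F (m + J) →
      L.δ h ∈ L.F m := by
    intro m hm x hx h hh
    have := (L.F m).add_mem (memF (by omega) hh) (hΛk m x hx)
    simpa using this
  -- applying a scalar
  have key : ∀ (s : ℕ), s ≤ N₀ + 1 → ∀ ρ ∈ L.C, ∀ x ∈ Λ, ∀ x' ∈ Λ, ∀ m, m₁ ≤ m →
      ρ (d ^ m • x) = d ^ (m + s) • x' → (∀ n, ∀ q ∈ L.F n, ρ q - Es (ρ q) ∈ L.F (n + s)) →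
      (∃ h ∈ L.N, L.δ h - d ^ m • x ∈ L.F (m + J)) →
      ∃ h ∈ L.N, L.δ h - d ^ (m + s) • x' ∈ L.F (m + s + J) := by
    rintro s hs ρ hρC x hx x' hx' m hm e₁ e₂ ⟨h, hh, e₃⟩
    obtain ⟨h', hh', e₄⟩ := hpush m hm ρ hρC h hh (hlev m hm x hx h e₃)
    refine ⟨h', hh', ?_⟩
    have k₁ := e₂ _ _ e₃
    have k₂ : Es (d ^ (m + s) • x') = 0 := hEsΛ _ _ hx'
    have k₃ := (L.F (m + s + J)).add_mem (memF (by omega) e₄) (memF (by omega) k₁)
    have e : L.δ h' - (ρ (L.δ h) - Es (ρ (L.δ h))) +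
        (ρ (L.δ h - d ^ m • x) - Es (ρ (L.δ h - d ^ m • x))) = L.δ h' - d ^ (m + s) • x' := by
      rw [map_sub, map_sub, e₁, k₂]; abel
    rwa [e] at k₃
  obtain ⟨σ, hσC, hσ1, hσ2⟩ := hσ
  have hstep : ∀ m, Y m ≤ Y (m + 1) := by
    rintro m x ⟨hx, hh⟩
    refine ⟨hx, ?_⟩
    have := key 1 (by omega) σ hσC x hx x hx (m₁ + m) (by omega)
      (by rw [hσ1 _ x hx]; norm_num) (by simpa using hσ2) hh
    have e : m₁ + ((m + 1 : ℕ) : ℤ) = m₁ + m + ((1 : ℕ) : ℤ) := by push_cast; ring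
    rw [e]
    exact this
  have hmono : Monotone Y := monotone_nat_of_le_succ hstep
  obtain ⟨m₂, hm₂⟩ := stable Λ Y (fun m x hx => hx.1) N₀ hstep (by
      rintro m r x ⟨hx, hh⟩
      refine ⟨Λ.smul_mem r hx, ?_⟩
      obtain ⟨ρ, hρC, hρ1, hρ2⟩ := hρ r
      have := key N₀ (by omega) ρ hρC x hx (r • x) (Λ.smul_mem r hx) (m₁ + m) (by omega)
        (hρ1 _ x hx) hρ2 hh
      have e : m₁ + ((m + N₀ : ℕ) : ℤ) = m₁ + m + (N₀ : ℤ) := by push_cast; ring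
      rw [e]
      exact this)
  refine ⟨m₁ + m₂ + b, by omega, fun m hm u hu hum => ?_⟩
  -- apply `y` and compare
  obtain ⟨h, hh, e₁⟩ := hpush m (by omega) y hyC u hu hum
  have k₁ := hy m _ hum
  have k₂ : d ^ (-(m - b)) • θ (L.δ u) ∈ L.F 0 := by
    have := (shiftF hd hD (-(m - b)) (m - b) (θ (L.δ u))).1 (hθb m _ hum)
    rwa [add_neg_cancel] at this
  have k₃ := hθΛ _ _ k₂
  set x := d ^ (-(m - b)) • θ (L.δ u) with hx
  have k₄ : θ (L.δ u) = d ^ (m - b) • x := by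
    rw [hx, ← mul_smul, ← zpow_add₀ hd, add_neg_cancel, zpow_zero, one_smul]
  obtain ⟨i, hi⟩ := Int.eq_ofNat_of_zero_le (show 0 ≤ m - b - m₁ by omega)
  have k₅ : x ∈ Y (i + e) := by
    refine ⟨k₃, h, hh, ?_⟩
    have e₂ : m₁ + ((i + e : ℕ) : ℤ) = m - b + e := by push_cast; omega
    rw [e₂]
    have k₆ := (L.F (m - b + e + J)).add_mem (memF (by omega) e₁) (memF (by omega) k₁)
    have e₃ : L.δ h - (y (L.δ u) - Es (y (L.δ u))) +
        (y (L.δ u) - Es (y (L.δ u)) - d ^ (e : ℤ) • θ (L.δ u))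
        = L.δ h - d ^ (m - b + e) • x := by
      rw [k₄, ← mul_smul, ← zpow_add₀ hd, add_comm (e : ℤ) (m - b)]; abel
    rwa [e₃] at k₆
  have k₆ : x ∈ Y i := hmono (show m₂ ≤ i by omega) (hm₂ (i + e) (by omega) x k₅)
  obtain ⟨_, u', hu', k₇⟩ := k₆
  refine ⟨u', hu', ?_⟩
  have e₄ : m₁ + (i : ℤ) = m - b := by omega
  rw [e₄, ← k₄] at k₇
  exact memF (by omega) k₇

end Lin
end MP35
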