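import Pool.Agent.Lib_MP_3538b5_al.EDiv

/-!
# MP_3538b5_al, endgame 1b: division inside the ring of realisable operators

`Deg L y n`: the operator `y` raises the level by at least `n`.
`DvU L Y`: all operators of the set `Y` can be realised on `N` with fixed precision, uniformly.
`Lin.adapt`: the filtration adapted to a dominating idempotent.
`Dv.division'`: division with scalars which are only known to be realisable.
-/

namespace MP35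

universe u v w

namespace Lin

variable {G : Type u} [Group G] {Q : Type v} [AddCommGroup Q] (L : Lin G Q)

/-- `y` raises the level by at least `n` -/
def Deg (y : Q →+ Q) (n : ℤ) : Prop := ∀ m, ∀ q ∈ L.F m, y q ∈ L.F (m + n)

/-- a uniform family of operators which can be realised on `N` -/
def DvU (Y : Set (Q →+ Q)) : Prop :=
  (∃ b : ℤ, 0 ≤ b ∧ ∀ y ∈ Y, L.Deg y (-b)) ∧
    ∀ J : ℤ, ∃ m₀ : ℤ, 0 ≤ m₀ ∧ ∀ m, m₀ ≤ m → ∀ u ∈ L.N, L.δ u ∈ L.F m →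
      ∀ y ∈ Y, ∃ u' ∈ L.N, L.δ u' - y (L.δ u) ∈ L.F (m + J)

variable {L}

theorem Deg.mono {y : Q →+ Q} {n k : ℤ} (h : L.Deg y n) (hk : k ≤ n) : L.Deg y k :=
  fun m q hq => memF (by omega) (h m q hq)

theorem Deg.comp {y z : Q →+ Q} {n k : ℤ} (hy : L.Deg y n) (hz : L.Deg z k) :
    L.Deg (y.comp z) (n + k) := fun m q hq => by
  have := hy _ _ (hz m q hq)
  rw [AddMonoidHom.comp_apply]
  exact memF (by omega) this

theorem Deg.add {y z : Q →+ Q} {n : ℤ} (hy : L.Deg y n) (hz : L.Deg z n) :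
    L.Deg (y + z) n := fun m q hq => by
  rw [AddMonoidHom.add_apply]
  exact (L.F _).add_mem (hy m q hq) (hz m q hq)

theorem Deg.neg {y : Q →+ Q} {n : ℤ} (hy : L.Deg y n) : L.Deg (-y) n := fun m q hq => by
  rw [AddMonoidHom.neg_apply]
  exact (L.F _).neg_mem (hy m q hq)

theorem Deg.sub {y z : Q →+ Q} {n : ℤ} (hy : L.Deg y n) (hz : L.Deg z n) :
    L.Deg (y - z) n := by
  rw [sub_eq_add_neg]
  exact hy.add hz.neg

theorem Deg.zero (n : ℤ) : L.Deg 0 n := fun m q _ => by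
  rw [AddMonoidHom.zero_apply]
  exact (L.F _).zero_mem

theorem Deg.id : L.Deg (AddMonoidHom.id Q) 0 := fun m q hq => by
  rw [AddMonoidHom.id_apply, add_zero]
  exact hq

theorem bdd_iff {y : Q →+ Q} : L.Bdd y ↔ ∃ b : ℤ, 0 ≤ b ∧ L.Deg y (-b) := Iff.rfl

theorem Dv.deg {y : Q →+ Q} (hy : L.Dv y) : ∃ b : ℤ, 0 ≤ b ∧ L.Deg y (-b) := hy.1

theorem DvU.of_C : L.DvU L.C := by
  refine ⟨⟨0, le_refl _, fun y hy m q hq => by simpa using L.presF y hy m q hq⟩, fun J => ?_⟩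
  refine ⟨max 0 (J + L.c), le_max_left _ _, fun m hm u hu hum y hy => ?_⟩
  obtain ⟨h', hh', e⟩ := L.real y hy m u (le_trans (le_max_left _ _) hm) hu hum
  have := le_trans (le_max_right _ _) hm
  exact ⟨h', hh', memF (by omega) e⟩

theorem DvU.singleton {y : Q →+ Q} (hy : L.Dv y) : L.DvU {y} := by
  obtain ⟨⟨b, hb, h⟩, h2⟩ := hy
  refine ⟨⟨b, hb, ?_⟩, fun J => ?_⟩
  · rintro z (rfl : z = y)
    exact h
  · obtain ⟨m₀, hm₀, h3⟩ := h2 J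
    refine ⟨m₀, hm₀, fun m hm u hu hum z hz => ?_⟩
    obtain rfl : z = y := hz
    exact h3 m hm u hu hum

theorem DvU.dv {Y : Set (Q →+ Q)} (hY : L.DvU Y) {y : Q →+ Q} (hy : y ∈ Y) : L.Dv y := by
  obtain ⟨⟨b, hb, h⟩, h2⟩ := hY
  refine ⟨⟨b, hb, h y hy⟩, fun J => ?_⟩
  obtain ⟨m₀, hm₀, h3⟩ := h2 J
  exact ⟨m₀, hm₀, fun m hm u hu hum => h3 m hm u hu hum y hy⟩

theorem DvU.mono {Y Z : Set (Q →+ Q)} (hY : L.DvU Y) (h : Z ⊆ Y) : L.DvU Z := by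
  obtain ⟨⟨b, hb, h1⟩, h2⟩ := hY
  refine ⟨⟨b, hb, fun y hy => h1 y (h hy)⟩, fun J => ?_⟩
  obtain ⟨m₀, hm₀, h3⟩ := h2 J
  exact ⟨m₀, hm₀, fun m hm u hu hum y hy => h3 m hm u hu hum y (h hy)⟩

theorem DvU.comp {Y Z : Set (Q →+ Q)} (hY : L.DvU Y) (hZ : L.DvU Z) :
    L.DvU {x | ∃ y ∈ Y, ∃ z ∈ Z, x = y.comp z} := by
  obtain ⟨⟨b, hb, hyb⟩, hY2⟩ := hY
  obtain ⟨⟨b', hb', hzb⟩, hZ2⟩ := hZ
  refine ⟨⟨b + b', by omega, ?_⟩, fun J => ?_⟩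
  · rintro _ ⟨y, hy, z, hz, rfl⟩
    exact ((hyb y hy).comp (hzb z hz)).mono (by omega)
  have hJ := le_max_left J 0
  have hJ0 := le_max_right J 0
  obtain ⟨m₁, hm₁, h₁⟩ := hY2 (max J 0 + b')
  obtain ⟨m₂, hm₂, h₂⟩ := hZ2 (max J 0 + b)
  refine ⟨m₁ + m₂ + b', by omega, ?_⟩
  rintro m hm u hu hum _ ⟨y, hy, z, hz, rfl⟩
  obtain ⟨u₂, hu₂, e₂⟩ := h₂ m (by omega) u hu hum z hz
  have k₂ : L.δ u₂ ∈ L.F (m - b') := by
    have := (L.F (m - b')).add_mem (memF (by omega) e₂) (memF (by omega) (hzb z hz m _ hum))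
    simpa using this
  obtain ⟨u₁, hu₁, e₁⟩ := h₁ (m - b') (by omega) u₂ hu₂ k₂ y hy
  refine ⟨u₁, hu₁, ?_⟩
  have k₃ := hyb y hy _ _ e₂
  have k₄ := (L.F (m + J)).add_mem (memF (by omega) e₁) (memF (by omega) k₃)
  have e : L.δ u₁ - y (L.δ u₂) + y (L.δ u₂ - z (L.δ u)) = L.δ u₁ - (y.comp z) (L.δ u) := by
    rw [map_sub, AddMonoidHom.comp_apply]; abel
  rwa [e] at k₄

theorem DvU.add {Y Z : Set (Q →+ Q)} (hY : L.DvU Y) (hZ : L.DvU Z) :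
    L.DvU {x | ∃ y ∈ Y, ∃ z ∈ Z, x = y + z} := by
  obtain ⟨⟨b, hb, hyb⟩, hY2⟩ := hY
  obtain ⟨⟨b', hb', hzb⟩, hZ2⟩ := hZ
  refine ⟨⟨b + b', by omega, ?_⟩, fun J => ?_⟩
  · rintro _ ⟨y, hy, z, hz, rfl⟩
    exact ((hyb y hy).mono (by omega)).add ((hzb z hz).mono (by omega))
  obtain ⟨m₁, hm₁, h₁⟩ := hY2 (max J 0)
  obtain ⟨m₂, hm₂, h₂⟩ := hZ2 (max J 0)
  have hc := L.c_nonneg
  have hJ := le_max_left J 0
  have hJ0 := le_max_right J 0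
  refine ⟨m₁ + m₂ + (max J 0) + L.c + 2 * b + 2 * b', by omega, ?_⟩
  rintro m hm u hu hum _ ⟨y, hy, z, hz, rfl⟩
  obtain ⟨u₁, hu₁, e₁⟩ := h₁ m (by omega) u hu hum y hy
  obtain ⟨u₂, hu₂, e₂⟩ := h₂ m (by omega) u hu hum z hz
  have k₁ : L.δ u₁ ∈ L.F (m - b - b') := by
    have := (L.F (m - b - b')).add_mem (memF (by omega) e₁)
      (memF (by omega) (hyb y hy m _ hum))
    simpa using this
  have k₂ : L.δ u₂ ∈ L.F (m - b - b') := by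
    have := (L.F (m - b - b')).add_mem (memF (by omega) e₂)
      (memF (by omega) (hzb z hz m _ hum))
    simpa using this
  have k₃ := mul_lin (by omega) k₁ k₂
  refine ⟨u₁ * u₂, L.N.mul_mem hu₁ hu₂, ?_⟩
  have k₄ := (L.F (m + J)).add_mem (memF (by omega) k₃)
    ((L.F (m + J)).add_mem (memF (by omega) e₁) (memF (by omega) e₂))
  have e : L.δ (u₁ * u₂) - (L.δ u₁ + L.δ u₂) + (L.δ u₁ - y (L.δ u) + (L.δ u₂ - z (L.δ u)))
      = L.δ (u₁ * u₂) - (y + z) (L.δ u) := by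
    rw [AddMonoidHom.add_apply]; abel
  rwa [e] at k₄

theorem Dv.id : L.Dv (AddMonoidHom.id Q) := by
  refine ⟨⟨0, le_refl _, fun m q hq => by simpa using hq⟩, fun J => ?_⟩
  exact ⟨0, le_refl _, fun m _ u hu _ => ⟨u, hu, by simp [(L.F _).zero_mem]⟩⟩

theorem Dv.neg {y : Q →+ Q} (hy : L.Dv y) : L.Dv (-y) := by
  obtain ⟨⟨b, hb, hyb⟩, h2⟩ := hy
  refine ⟨⟨b, hb, fun m q hq => ?_⟩, fun J => ?_⟩
  · rw [AddMonoidHom.neg_apply]
    exact (L.F _).neg_mem (hyb m q hq)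
  obtain ⟨m₁, hm₁, h₁⟩ := h2 (max J 0)
  have hc := L.c_nonneg
  have hJ := le_max_left J 0
  have hJ0 := le_max_right J 0
  refine ⟨m₁ + (max J 0) + L.c + 2 * b, by omega, fun m hm u hu hum => ?_⟩
  obtain ⟨u₁, hu₁, e₁⟩ := h₁ m (by omega) u hu hum
  have k₁ : L.δ u₁ ∈ L.F (m - b) := by
    have := (L.F (m - b)).add_mem (memF (by omega) e₁) (memF (by omega) (hyb m _ hum))
    simpa using this
  have k₂ := L.inv (m - b) u₁ (by omega) k₁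
  refine ⟨u₁⁻¹, L.N.inv_mem hu₁, ?_⟩
  have k₄ := (L.F (m + J)).sub_mem (memF (by omega) k₂) (memF (by omega) e₁)
  have e : L.δ u₁⁻¹ + L.δ u₁ - (L.δ u₁ - y (L.δ u)) = L.δ u₁⁻¹ - (-y) (L.δ u) := by
    rw [AddMonoidHom.neg_apply]; abel
  rwa [e] at k₄

theorem Dv.sub {y z : Q →+ Q} (hy : L.Dv y) (hz : L.Dv z) : L.Dv (y - z) := by
  rw [sub_eq_add_neg]
  exact hy.add hz.neg

/-! ### The division theorem -/

/-- **Division at fixed precision**, with realisable scalars.  `E` is an idempotent which does not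
lower the level, `σ` acts as `d` on the image of `E` and raises the level by one. -/
theorem Dv.division' {K : Type*} [Field K] [Module K Q] {R : Type w} [CommRing R] [Module R Q]
    [SMulCommClass K R Q] {d : K} (hd : d ≠ 0) (hD : ∀ n q, q ∈ L.F n ↔ d • q ∈ L.F (n + 1))
    {E σ : Q →+ Q} (Λ : Submodule R Q) [IsNoetherian R Λ]
    (hΛ : ∀ x, x ∈ Λ ↔ E x = x ∧ x ∈ L.F 0) (hE0 : L.Deg E 0) (hEd : ∀ q, E (d • q) = d • E q)
    (hRF : ∀ (r : R) n q, q ∈ L.F n → r • q ∈ L.F n)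
    (hσ : L.Dv σ) (hσ1 : L.Deg σ 1) (hσE : ∀ q, E q = q → σ q = d • q)
    (hR : ∀ J : ℤ, 0 ≤ J → ∃ (N₀ : ℕ) (Y : Set (Q →+ Q)), L.DvU Y ∧ ∀ r : R, ∃ y ∈ Y,
      ∀ n, ∀ q ∈ L.F n, y q - d ^ (N₀ : ℤ) • r • E q ∈ L.F (n + N₀ + J))
    {θ : Q →+ Q} (hθ : L.Bdd θ) (hθE : ∀ q, E (θ q) = θ q)
    (hθr : ∀ J : ℤ, ∃ (e : ℕ) (y : Q →+ Q), L.Dv y ∧
      ∀ n, ∀ q ∈ L.F n, y q - d ^ (e : ℤ) • θ q ∈ L.F (n + e + J)) :
    L.Dv θ := by
  have hEdk : ∀ (k : ℤ) q, E (d ^ k • q) = d ^ k • E q := by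
    intro k q
    induction k using Int.induction_on generalizing q with
    | zero => simp
    | succ i ih => rw [zpow_add_one₀ hd, mul_smul, mul_smul, ih, hEd]
    | pred i ih =>
      have h1 : E (d⁻¹ • q) = d⁻¹ • E q := by
        have := hEd (d⁻¹ • q)
        rw [smul_inv_smul₀ hd] at this
        rw [this, inv_smul_smul₀ hd]
      rw [sub_eq_add_neg, zpow_add₀ hd, zpow_neg_one, mul_smul, mul_smul, ih, h1]
  have hΛk : ∀ (k : ℤ) (x : Q), x ∈ Λ → d ^ k • x ∈ L.F k := by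
    intro k x hx
    have := (shiftF hd hD k 0 x).1 ((hΛ x).1 hx).2
    rwa [zero_add] at this
  refine ⟨hθ, fun J₁ => ?_⟩
  obtain ⟨b, hb, hθb⟩ := hθ
  have hc := L.c_nonneg
  -- the precision
  set J := max J₁ 0 + b with hJdef
  have hJ1 := le_max_left J₁ 0
  have hJ2 := le_max_right J₁ 0
  have hJ0 : 0 ≤ J := by omega
  obtain ⟨e, y, hyD, hy⟩ := hθr J
  obtain ⟨N₀, Y, hYU, hYr⟩ := hR J hJ0
  obtain ⟨mσ, hmσ, hσ2⟩ := hσ.2 (J + 1)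
  obtain ⟨mY, hmY, hY2⟩ := hYU.2 (J + N₀)
  obtain ⟨my, hmy, hy2⟩ := hyD.2 (J + e)
  set m₁ := mσ + mY + my + J + L.c with hm₁
  have hpos : ∀ i : ℕ, 0 ≤ m₁ + i := fun i => by omega
  have hposJ : ∀ i : ℕ, J + L.c ≤ m₁ + i := fun i => by omega
  let X' : ℕ → AddSubgroup Q := fun i => X L d Λ hΛk J hJ0 (m₁ + i) (hpos i) (hposJ i)
  have hlev : ∀ (m : ℤ), ∀ x ∈ Λ, ∀ h, L.δ h - d ^ m • x ∈ L.F (m + J) → L.δ h ∈ L.F m := by
    intro m x hx h hh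
    have := (L.F m).add_mem (memF (by omega) hh) (hΛk m x hx)
    simpa using this
  have hstep : ∀ m, X' m ≤ X' (m + 1) := by
    rintro m x ⟨hx, h, hh, e₃⟩
    refine ⟨hx, ?_⟩
    obtain ⟨h', hh', e₄⟩ := hσ2 (m₁ + m) (by omega) h hh (hlev _ x hx h e₃)
    refine ⟨h', hh', ?_⟩
    have k₁ := hσ1 _ _ e₃
    have k₂ : σ (d ^ (m₁ + (m : ℤ)) • x) = d ^ (m₁ + (m : ℤ) + 1) • x := by
      rw [hσE _ (by rw [hEdk, ((hΛ x).1 hx).1]), ← mul_smul, ← zpow_one_add₀ hd, add_comm]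
    have k₃ := (L.F (m₁ + m + 1 + J)).add_mem (memF (by omega) e₄) (memF (by omega) k₁)
    have e₅ : m₁ + ((m + 1 : ℕ) : ℤ) = m₁ + m + 1 := by push_cast; ring
    have e : L.δ h' - σ (L.δ h) + σ (L.δ h - d ^ (m₁ + (m : ℤ)) • x)
        = L.δ h' - d ^ (m₁ + (m : ℤ) + 1) • x := by
      rw [map_sub, k₂]; abel
    rw [e₅]
    rwa [e] at k₃
  have hmono : Monotone X' := monotone_nat_of_le_succ hstep
  obtain ⟨m₂, hm₂⟩ := stable Λ X' (fun m x hx => hx.1) N₀ hstep (by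
      rintro m r x ⟨hx, h, hh, e₃⟩
      refine ⟨Λ.smul_mem r hx, ?_⟩
      obtain ⟨z, hzY, hz⟩ := hYr r
      obtain ⟨h', hh', e₄⟩ := hY2 (m₁ + m) (by omega) h hh (hlev _ x hx h e₃) z hzY
      refine ⟨h', hh', ?_⟩
      have k₁ := hz _ _ (hlev _ x hx h e₃)
      have k₂ : d ^ (N₀ : ℤ) • r • E (L.δ h - d ^ (m₁ + (m : ℤ)) • x)
          ∈ L.F (m₁ + m + J + N₀) := by
        have h1 := hE0 _ _ e₃
        rw [add_zero] at h1
        exact (shiftF hd hD N₀ _ _).1 (hRF r _ _ h1)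
      have k₃ : d ^ (N₀ : ℤ) • r • E (d ^ (m₁ + (m : ℤ)) • x)
          = d ^ (m₁ + (m : ℤ) + N₀) • r • x := by
        rw [hEdk, ((hΛ x).1 hx).1, ← smul_comm (d ^ (m₁ + (m : ℤ))) r x, ← mul_smul,
          ← zpow_add₀ hd]
        congr 2
        ring
      have k₄ := (L.F (m₁ + m + N₀ + J)).add_mem (memF (by omega) e₄)
        ((L.F (m₁ + m + N₀ + J)).add_mem k₁ (memF (by omega) k₂))
      have e₅ : m₁ + ((m + N₀ : ℕ) : ℤ) = m₁ + m + N₀ := by push_cast; ring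
      have e : L.δ h' - z (L.δ h) + (z (L.δ h) - d ^ (N₀ : ℤ) • r • E (L.δ h)
          + d ^ (N₀ : ℤ) • r • E (L.δ h - d ^ (m₁ + (m : ℤ)) • x))
          = L.δ h' - d ^ (m₁ + (m : ℤ) + N₀) • r • x := by
        rw [map_sub, smul_sub, smul_sub, k₃]; abel
      rw [e₅]
      rwa [e] at k₄)
  refine ⟨m₁ + m₂ + b, by omega, fun m hm u hu hum => ?_⟩
  -- apply `y` and compare
  obtain ⟨h, hh, e₁⟩ := hy2 m (by omega) u hu hum
  have k₁ := hy m _ hum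
  have k₂ : d ^ (-(m - b)) • θ (L.δ u) ∈ L.F 0 := by
    have := (shiftF hd hD (-(m - b)) (m - b) (θ (L.δ u))).1 (hθb m _ hum)
    rwa [add_neg_cancel] at this
  have k₃ : d ^ (-(m - b)) • θ (L.δ u) ∈ Λ := by
    rw [hΛ]
    exact ⟨by rw [hEdk, hθE], k₂⟩
  set x := d ^ (-(m - b)) • θ (L.δ u) with hx
  have k₄ : θ (L.δ u) = d ^ (m - b) • x := by
    rw [hx, ← mul_smul, ← zpow_add₀ hd, add_neg_cancel, zpow_zero, one_smul]
  obtain ⟨i, hi⟩ := Int.eq_ofNat_of_zero_le (show 0 ≤ m - b - m₁ by omega)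
  have k₅ : x ∈ X' (i + e) := by
    refine ⟨k₃, h, hh, ?_⟩
    have e₂ : m₁ + ((i + e : ℕ) : ℤ) = m - b + e := by push_cast; omega
    rw [e₂]
    have k₆ := (L.F (m - b + e + J)).add_mem (memF (by omega) e₁) (memF (by omega) k₁)
    have e₃ : L.δ h - y (L.δ u) + (y (L.δ u) - d ^ (e : ℤ) • θ (L.δ u))
        = L.δ h - d ^ (m - b + e) • x := by
      rw [k₄, ← mul_smul, ← zpow_add₀ hd, add_comm (e : ℤ) (m - b)]; abel
    rwa [e₃] at k₆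
  have k₆ : x ∈ X' i := hmono (show m₂ ≤ i by omega) (hm₂ (i + e) (by omega) x k₅)
  obtain ⟨_, u', hu', k₇⟩ := k₆
  refine ⟨u', hu', ?_⟩
  have e₄ : m₁ + (i : ℤ) = m - b := by omega
  rw [e₄, ← k₄] at k₇
  exact memF (by omega) k₇

end Lin
end MP35
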