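import Pool.Agent.Lib_MP_3538b5_al.EAdapt

/-!
# MP_3538b5_al, endgame 1d: induction over the speeds, the quasi-inverse of `α`

`LDv L y`: the `Ω`-linear operator `y` can be realised.  `Idl L S`: all multiples of `y` by scalars
from `S` can be realised (a two-sided ideal of the ring of realisable operators).
`idl_speed`: the idempotents of one family, sorted by speed, are in `Idl`.
`idl_pow`: powers of `β` are in `Idl`, if `β` is nilpotent on the trivial layers of a flag.
`quasi_inverse`: the operator which is needed in the torus lemma.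
-/

namespace MP35

universe u v w

namespace Lin

variable {G : Type u} [Group G] {W : Type v} [AddCommGroup W] {Ω : Type w} [Field Ω] [Module Ω W]
  (L : Lin G W)

/-- the linear operator `y` can be realised -/
def LDv (y : Module.End Ω W) : Prop := L.Dv y.toAddMonoidHom

/-- all multiples of `y` by scalars from `S` can be realised -/
def Idl (S : Subring Ω) (y : Module.End Ω W) : Prop := ∀ c ∈ S, L.LDv (c • y)

variable {L}

theorem LDv.add {y z : Module.End Ω W} (hy : L.LDv y) (hz : L.LDv z) : L.LDv (y + z) :=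
  Dv.add hy hz

theorem LDv.mul {y z : Module.End Ω W} (hy : L.LDv y) (hz : L.LDv z) : L.LDv (y * z) :=
  Dv.comp hy hz

theorem LDv.neg {y : Module.End Ω W} (hy : L.LDv y) : L.LDv (-y) := Dv.neg hy

theorem LDv.sub {y z : Module.End Ω W} (hy : L.LDv y) (hz : L.LDv z) : L.LDv (y - z) :=
  Dv.sub hy hz

theorem LDv.one : L.LDv (1 : Module.End Ω W) := Dv.id

theorem LDv.zero : L.LDv (0 : Module.End Ω W) := Dv.zero

theorem LDv.pow {y : Module.End Ω W} (hy : L.LDv y) (n : ℕ) : L.LDv (y ^ n) := by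
  induction n with
  | zero => rw [pow_zero]; exact LDv.one
  | succ n ih => rw [pow_succ]; exact ih.mul hy

theorem LDv.sum {ι : Type*} (s : Finset ι) (y : ι → Module.End Ω W)
    (hy : ∀ i ∈ s, L.LDv (y i)) : L.LDv (∑ i ∈ s, y i) := by
  classical
  induction s using Finset.induction_on with
  | empty => simpa using LDv.zero
  | insert i s hi ih =>
    rw [Finset.sum_insert hi]
    exact (hy i (Finset.mem_insert_self _ _)).add
      (ih fun j hj => hy j (Finset.mem_insert_of_mem hj))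

section idl

variable {S : Subring Ω}

theorem Idl.ldv {y : Module.End Ω W} (hy : L.Idl S y) : L.LDv y := by
  have := hy 1 S.one_mem
  rwa [one_smul] at this

theorem Idl.zero : L.Idl S (0 : Module.End Ω W) := fun c _ => by
  rw [smul_zero]
  exact LDv.zero

theorem Idl.add {y z : Module.End Ω W} (hy : L.Idl S y) (hz : L.Idl S z) : L.Idl S (y + z) :=
  fun c hc => by rw [smul_add]; exact (hy c hc).add (hz c hc)

theorem Idl.neg {y : Module.End Ω W} (hy : L.Idl S y) : L.Idl S (-y) :=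
  fun c hc => by rw [smul_neg]; exact (hy c hc).neg

theorem Idl.sub {y z : Module.End Ω W} (hy : L.Idl S y) (hz : L.Idl S z) : L.Idl S (y - z) :=
  fun c hc => by rw [smul_sub]; exact (hy c hc).sub (hz c hc)

theorem Idl.mul_right {y z : Module.End Ω W} (hy : L.Idl S y) (hz : L.LDv z) :
    L.Idl S (y * z) := fun c hc => by
  rw [← smul_mul_assoc]
  exact (hy c hc).mul hz

theorem Idl.mul_left {y z : Module.End Ω W} (hy : L.LDv y) (hz : L.Idl S z) :
    L.Idl S (y * z) := fun c hc => by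
  rw [← mul_smul_comm]
  exact hy.mul (hz c hc)

theorem Idl.smul {y : Module.End Ω W} (hy : L.Idl S y) {c : Ω} (hc : c ∈ S) :
    L.Idl S (c • y) := fun c' hc' => by
  rw [smul_smul]
  exact hy _ (S.mul_mem hc' hc)

theorem Idl.sum {ι : Type*} (s : Finset ι) (y : ι → Module.End Ω W)
    (hy : ∀ i ∈ s, L.Idl S (y i)) : L.Idl S (∑ i ∈ s, y i) := by
  classical
  induction s using Finset.induction_on with
  | empty => simpa using Idl.zero
  | insert i s hi ih =>
    rw [Finset.sum_insert hi]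
    exact (hy i (Finset.mem_insert_self _ _)).add
      (ih fun j hj => hy j (Finset.mem_insert_of_mem hj))

theorem Idl.mul_aeval {z α : Module.End Ω W} (hz : L.Idl S z) (hα : L.LDv α) (H : Polynomial Ω)
    (hH : ∀ i, H.coeff i ∈ S) : L.Idl S (z * Polynomial.aeval α H) := by
  rw [Polynomial.aeval_eq_sum_range, Finset.mul_sum]
  refine Idl.sum _ _ fun i _ => ?_
  rw [mul_smul_comm]
  exact (hz.mul_right (hα.pow i)).smul (hH i)

/-- **The quasi-inverse.** -/
theorem quasi_inverse {α : Module.End Ω W} (hα : L.Idl S α) (H : Polynomial Ω)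
    (hH : ∀ i, H.coeff i ∈ S) (hαH : α + α ^ 2 * Polynomial.aeval α H = 0) :
    ∃ y : Module.End Ω W, L.LDv y ∧ α * y * α = α := by
  have h1 : L.Idl S (α * Polynomial.aeval α H) := hα.mul_aeval hα.ldv H hH
  have h2 := h1.mul_aeval hα.ldv H hH
  refine ⟨_, h2.ldv, ?_⟩
  set h := Polynomial.aeval α H with hh
  have hc : h * α = α * h := by
    have := (Polynomial.commute_X H).map (Polynomial.aeval α)
    rw [Polynomial.aeval_X] at this
    exact this.eq.symm
  have h3 : α ^ 2 * h = -α := eq_neg_of_add_eq_zero_right hαH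
  calc α * (α * h * h) * α = α ^ 2 * h * (h * α) := by rw [pow_two]; simp only [mul_assoc]
    _ = α := by rw [h3, hc, neg_mul, ← mul_assoc, ← pow_two, h3, neg_neg]

end idl

/-! ### Flags -/

/-- `y` acts as the scalar `c` on the layer `i` of the flag -/
def Acts (Fl : ℕ → Submodule Ω W) (y : Module.End Ω W) (i : ℕ) (c : Ω) : Prop :=
  ∀ v ∈ Fl (i + 1), y v - c • v ∈ Fl i

/-- **Powers of `β` are in the ideal.**  `u` acts as `1` on the nontrivial layers; on the other layers
`u` and `β` act as `0`. -/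
theorem idl_pow {S : Subring Ω} (Fl : ℕ → Submodule Ω W) (l : ℕ) (h0 : Fl 0 = ⊥) (hl : Fl l = ⊤)
    {u β : Module.End Ω W} (hu : L.Idl S u) (hβ : L.LDv β)
    (hub : ∀ i, ∀ v ∈ Fl i, u v ∈ Fl i) (hβb : ∀ i, ∀ v ∈ Fl i, β v ∈ Fl i)
    (hlay : ∀ i < l, Acts Fl u i 1 ∨ (Acts Fl u i 0 ∧ Acts Fl β i 0)) (m : ℕ) (hm : l ≤ m) :
    L.Idl S (β ^ m) := by
  set f : Module.End Ω W := 1 - u with hf
  have hfb : ∀ i, ∀ v ∈ Fl i, f v ∈ Fl i := fun i v hv => (Fl i).sub_mem hv (hub i v hv)
  -- `f β f` moves the flag down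
  have hdown : ∀ i < l, ∀ v ∈ Fl (i + 1), (f * β * f) v ∈ Fl i := by
    intro i hi v hv
    rcases hlay i hi with h | ⟨_, h⟩
    · -- `f` moves the layer down
      have h1 : ∀ v ∈ Fl (i + 1), f v ∈ Fl i := by
        intro v hv
        have := h v hv
        rw [one_smul] at this
        have e : f v = -(u v - v) := by rw [hf, LinearMap.sub_apply, Module.End.one_apply]; abel
        rw [e]
        exact (Fl i).neg_mem this
      rw [Module.End.mul_apply, Module.End.mul_apply]
      exact hfb i _ (hβb i _ (h1 v hv))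
    · have h1 : β (f v) ∈ Fl i := by
        have := h (f v) (hfb _ v hv)
        rwa [zero_smul, sub_zero] at this
      rw [Module.End.mul_apply, Module.End.mul_apply]
      exact hfb i _ h1
  have hpow : ∀ k ≤ l, ∀ v ∈ Fl k, ((f * β * f) ^ k) v = 0 := by
    intro k
    induction k with
    | zero =>
      intro _ v hv
      rw [h0, Submodule.mem_bot] at hv
      rw [hv, map_zero]
    | succ k ih =>
      intro hk v hv
      rw [pow_succ, Module.End.mul_apply]
      exact ih (by omega) _ (hdown k (by omega) v hv)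
  have hnil : (f * β * f) ^ l = 0 := by
    ext v
    rw [LinearMap.zero_apply]
    exact hpow l le_rfl v (by rw [hl]; trivial)
  have hnil' : (f * β * f) ^ m = 0 := pow_eq_zero_of_le hm hnil
  have hfL : L.LDv f := LDv.one.sub hu.ldv
  have hfβ : L.LDv (f * β * f) := (hfL.mul hβ).mul hfL
  -- difference
  have hd : L.Idl S (β - f * β * f) := by
    have e : β - f * β * f = u * β + β * u - u * (β * u) := by
      rw [hf]; noncomm_ring
    rw [e]
    exact ((hu.mul_right hβ).add (Idl.mul_left hβ hu)).sub (hu.mul_right (hβ.mul hu.ldv))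
  have hdp : ∀ k : ℕ, L.Idl S (β ^ k - (f * β * f) ^ k) := by
    intro k
    induction k with
    | zero => rw [pow_zero, pow_zero, sub_self]; exact Idl.zero
    | succ k ih =>
      have e : β ^ (k + 1) - (f * β * f) ^ (k + 1)
          = (β ^ k - (f * β * f) ^ k) * β + (f * β * f) ^ k * (β - f * β * f) := by
        rw [pow_succ, pow_succ]; noncomm_ring
      rw [e]
      exact (ih.mul_right hβ).add (Idl.mul_left (hfβ.pow k) hd)
  have := hdp m
  rwa [hnil', sub_zero] at this

/-! ### Families -/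

section speed

variable {J : Type*} (E : J → Module.End Ω W) (Fam : Finset J)

/-- combination of the idempotents of one family -/
def Tf (c : J → Ω) : Module.End Ω W := ∑ j ∈ Fam, c j • E j

variable {E Fam}

theorem Tf_mul [DecidableEq J] (hEE : ∀ i ∈ Fam, ∀ j ∈ Fam, E i * E j = if i = j then E i else 0)
    (c c' : J → Ω) : Tf E Fam c * Tf E Fam c' = Tf E Fam (fun j => c j * c' j) := by
  unfold Tf
  rw [Finset.sum_mul]
  refine Finset.sum_congr rfl fun i hi => ?_
  rw [Finset.mul_sum]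
  rw [Finset.sum_eq_single i]
  · rw [smul_mul_smul_comm, hEE i hi i hi, if_pos rfl]
  · intro j hj hji
    rw [smul_mul_smul_comm, hEE i hi j hj, if_neg (Ne.symm hji), smul_zero]
  · intro h
    exact absurd hi h

theorem Tf_add (c c' : J → Ω) : Tf E Fam c + Tf E Fam c' = Tf E Fam (fun j => c j + c' j) := by
  unfold Tf
  rw [← Finset.sum_add_distrib]
  exact Finset.sum_congr rfl fun i _ => (add_smul _ _ _).symm

theorem Tf_sub (c c' : J → Ω) : Tf E Fam c - Tf E Fam c' = Tf E Fam (fun j => c j - c' j) := by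
  unfold Tf
  rw [← Finset.sum_sub_distrib]
  exact Finset.sum_congr rfl fun i _ => (sub_smul _ _ _).symm

theorem Tf_smul (a : Ω) (c : J → Ω) : a • Tf E Fam c = Tf E Fam (fun j => a * c j) := by
  unfold Tf
  rw [Finset.smul_sum]
  exact Finset.sum_congr rfl fun i _ => smul_smul _ _ _

theorem Tf_congr {c c' : J → Ω} (h : ∀ j ∈ Fam, c j = c' j) : Tf E Fam c = Tf E Fam c' :=
  Finset.sum_congr rfl fun j hj => by rw [h j hj]

theorem Tf_pow [DecidableEq J]
    (hEE : ∀ i ∈ Fam, ∀ j ∈ Fam, E i * E j = if i = j then E i else 0) (c : J → Ω) (n : ℕ) :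
    Tf E Fam c ^ (n + 1) = Tf E Fam (fun j => c j ^ (n + 1)) := by
  induction n with
  | zero => simp
  | succ n ih =>
    rw [pow_succ, ih, Tf_mul hEE]
    exact Tf_congr fun j _ => (pow_succ _ _).symm

/-- the degree of a combination -/
theorem Tf_deg {b a : ℤ} (hE : ∀ j ∈ Fam, L.Deg (E j).toAddMonoidHom (-b)) {c : J → Ω}
    (hc : ∀ j ∈ Fam, ∀ n, ∀ q ∈ L.F n, c j • q ∈ L.F (n + a)) :
    L.Deg (Tf E Fam c).toAddMonoidHom (a - b) := by
  intro m q hq
  show (Tf E Fam c) q ∈ _
  unfold Tf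
  rw [LinearMap.sum_apply]
  refine AddSubgroup.sum_mem _ fun j hj => ?_
  rw [LinearMap.smul_apply]
  have h1 := hc j hj _ _ (hE j hj m q hq)
  exact memF (by omega) h1

theorem bound_family (hE : ∀ j ∈ Fam, L.Bdd (E j).toAddMonoidHom) :
    ∃ b : ℤ, 0 ≤ b ∧ ∀ j ∈ Fam, L.Deg (E j).toAddMonoidHom (-b) := by
  classical
  induction Fam using Finset.induction_on with
  | empty => exact ⟨0, le_rfl, fun j hj => absurd hj (Finset.notMem_empty j)⟩
  | insert i s hi ih =>
    obtain ⟨b, hb, h⟩ := ih fun j hj => hE j (Finset.mem_insert_of_mem hj)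
    obtain ⟨b', hb', h'⟩ := hE i (Finset.mem_insert_self _ _)
    refine ⟨b + b', by omega, fun j hj => ?_⟩
    rcases Finset.mem_insert.1 hj with rfl | hj
    · exact (show L.Deg (E j).toAddMonoidHom (-b') from h').mono (by omega)
    · exact (h j hj).mono (by omega)

/-- submodules (for the action through `τ`) of `F0` are finitely generated -/
def NoethAt {R : Type*} [CommRing R] (τ : R →+* Ω) (F0 : AddSubgroup W) : Prop :=
  letI : Module R W := Module.compHom W τ
  ∀ S : Submodule R W, (∀ x ∈ S, x ∈ F0) → S.FG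

/-- **Induction over the speeds.** One family `Fam` with speeds `sp`. -/
theorem idl_speed [DecidableEq J] {R : Type*} [CommRing R] (τ : ℕ → R →+* Ω) {d : Ω} (hd : d ≠ 0)
    (hD : ∀ n q, q ∈ L.F n ↔ d • q ∈ L.F (n + 1))
    (hEE : ∀ i ∈ Fam, ∀ j ∈ Fam, E i * E j = if i = j then E i else 0)
    (hEB : ∀ j ∈ Fam, L.Bdd (E j).toAddMonoidHom) (sp : J → ℕ)
    (hRF : ∀ j ∈ Fam, ∀ r n q, q ∈ L.F n → τ (sp j) r • q ∈ L.F n)
    (hN : ∀ j ∈ Fam, NoethAt (τ (sp j)) (L.F 0))
    (Dk : ℕ → R) (hDk : ∀ j ∈ Fam, τ (sp j) (Dk (sp j)) = d)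
    (hrel : ∀ i ∈ Fam, ∀ j ∈ Fam, sp i < sp j → ∀ B : ℤ, ∃ M₀ : ℕ, ∀ M, M₀ ≤ M → ∀ n,
      ∀ q ∈ L.F n, τ (sp j) (Dk (sp i)) ^ M • q ∈ L.F (n + M + B))
    (hX : ∀ i ∈ Fam, ∀ r : R,
      (Tf E Fam fun j => τ (sp j) (Dk (sp i) * r)).toAddMonoidHom ∈ L.C)
    {S : Subring Ω} (hS : ∀ c ∈ S, ∀ j ∈ Fam, ∃ (e : ℕ) (r : R), d ^ e * c = τ (sp j) r) (k : ℕ) :
    L.Idl S (Tf E Fam fun j => if sp j = k then 1 else 0) := by
  induction k using Nat.strong_induction_on with
  | _ k ih =>
  -- if the speed does not occur, there is nothing to prove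
  by_cases hk : ∃ i ∈ Fam, sp i = k
  swap
  · have : Tf E Fam (fun j => if sp j = k then (1 : Ω) else 0) = 0 := by
      unfold Tf
      refine Finset.sum_eq_zero fun j hj => ?_
      have h1 : ¬ sp j = k := fun h => hk ⟨j, hj, h⟩
      simp only [if_neg h1, zero_smul]
    rw [this]
    exact Idl.zero
  obtain ⟨i₀, hi₀, rfl⟩ := hk
  set k := sp i₀ with hk
  set e := Tf E Fam (fun j => if sp j < k then (1 : Ω) else 0) with he
  have heD : L.LDv e := by
    have h1 : e = ∑ k' ∈ Finset.range k, Tf E Fam (fun j => if sp j = k' then (1 : Ω) else 0) := by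
      rw [he]
      unfold Tf
      rw [Finset.sum_comm]
      refine Finset.sum_congr rfl fun j _ => ?_
      rw [← Finset.sum_smul]
      congr 1
      rw [Finset.sum_ite_eq]
      simp [Finset.mem_range]
    rw [h1]
    exact LDv.sum _ _ fun k' hk' => (ih k' (Finset.mem_range.1 hk')).ldv
  set f : Module.End Ω W := 1 - e with hf
  have hfD : L.LDv f := LDv.one.sub heD
  -- multiplication by `f` on both sides
  have hfT : ∀ c : J → Ω, f * Tf E Fam c * f = Tf E Fam (fun j => if sp j < k then 0 else c j) := by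
    intro c
    have h1 : f * Tf E Fam c = Tf E Fam (fun j => if sp j < k then 0 else c j) := by
      rw [hf, sub_mul, one_mul, he, Tf_mul hEE, Tf_sub]
      refine Tf_congr fun j _ => ?_
      split_ifs <;> simp
    rw [h1, hf, mul_sub, mul_one, he, Tf_mul hEE, Tf_sub]
    refine Tf_congr fun j _ => ?_
    split_ifs <;> simp
  set E₀ := Tf E Fam (fun j => if sp j = k then (1 : Ω) else 0) with hE₀
  set σ := f * (Tf E Fam fun j => τ (sp j) (Dk k)) * f with hσdef
  have hσT : σ = Tf E Fam (fun j => if sp j < k then 0 else τ (sp j) (Dk k)) := hfT _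
  have hcoef : ∀ j ∈ Fam, sp j = k → τ (sp j) (Dk k) = d := by
    intro j hj h
    have := hDk j hj
    rwa [h] at this ⊢
  have hσE : σ * E₀ = d • E₀ := by
    rw [hσT, hE₀, Tf_mul hEE, Tf_smul]
    refine Tf_congr fun j hj => ?_
    by_cases h : sp j = k
    · have h1 : ¬ sp j < k := by omega
      simp only [if_neg h1, if_pos h, hcoef j hj h, mul_one]
    · simp only [if_neg h, mul_zero]
  have hEσ : E₀ * σ = d • E₀ := by
    rw [hσT, hE₀, Tf_mul hEE, Tf_smul]
    refine Tf_congr fun j hj => ?_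
    by_cases h : sp j = k
    · have h1 : ¬ sp j < k := by omega
      simp only [if_neg h1, if_pos h, hcoef j hj h, mul_one, one_mul]
    · simp only [if_neg h, zero_mul, mul_zero]
  have hEE₀ : E₀ * E₀ = E₀ := by
    rw [hE₀, Tf_mul hEE]
    refine Tf_congr fun j hj => ?_
    split_ifs <;> simp
  obtain ⟨b, hb, hEb⟩ := bound_family hEB
  have hX' : ∀ r : R, L.LDv (Tf E Fam fun j => τ (sp j) (Dk k * r)) := fun r =>
    Dv.of_mem (hX i₀ hi₀ r)
  have hσD : L.LDv σ := by
    have := hX' 1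
    rw [mul_one] at this
    exact (hfD.mul this).mul hfD
  let _ : Module R W := Module.compHom W (τ k)
  have hsmul : ∀ (r : R) (q : W), r • q = τ k r • q := fun r q => rfl
  have _ : SMulCommClass Ω R W := ⟨fun a r q => by rw [hsmul, hsmul, smul_comm]⟩
  have hRFk : ∀ (r : R) n q, q ∈ L.F n → r • q ∈ L.F n := fun r n q hq => hRF i₀ hi₀ r n q hq
  have hN' : ∀ S : Submodule R W, (∀ x ∈ S, x ∈ L.F 0) → S.FG := hN i₀ hi₀
  -- the faster part is relatively small
  have hfast : ∀ B : ℤ, ∃ M₀ : ℕ, ∀ M, M₀ ≤ M → ∀ j ∈ Fam, k < sp j → ∀ n, ∀ q ∈ L.F n,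
      τ (sp j) (Dk k) ^ M • q ∈ L.F (n + M + B) := by
    intro B
    choose! M₀ hM₀ using fun j hj h => hrel i₀ hi₀ j hj h B
    exact ⟨Fam.sup M₀, fun M hM j hj h n q hq =>
      hM₀ j hj h M (le_trans (Finset.le_sup hj) hM) n q hq⟩
  -- the scalars
  have hscal : ∀ B : ℤ, 0 ≤ B → ∃ (N₀ : ℕ) (Y : Set (W →+ W)), L.DvU Y ∧ ∀ r : R, ∃ y ∈ Y,
      ∀ n, ∀ q ∈ L.F n, y q - d ^ (N₀ : ℤ) • r • E₀ q ∈ L.F (n + N₀ + B) := by
    intro B hB
    obtain ⟨M₀, hM₀⟩ := hfast (B + b)
    refine ⟨M₀ + 1, _, ((DvU.singleton hfD).comp DvU.of_C).comp (DvU.singleton hfD), fun r => ?_⟩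
    refine ⟨(f * (Tf E Fam fun j => τ (sp j) (Dk k * (Dk k ^ M₀ * r))) * f).toAddMonoidHom,
      ⟨_, ⟨_, rfl, _, hX i₀ hi₀ (Dk k ^ M₀ * r), rfl⟩, _, rfl, rfl⟩, fun n q hq => ?_⟩
    have h1 : f * (Tf E Fam fun j => τ (sp j) (Dk k * (Dk k ^ M₀ * r))) * f
        - (d ^ (M₀ + 1) * τ k r) • E₀
        = Tf E Fam (fun j => if k < sp j then τ (sp j) (Dk k) ^ (M₀ + 1) * τ (sp j) r else 0) := by
      rw [hfT, hE₀, Tf_smul, Tf_sub]
      refine Tf_congr fun j hj => ?_
      have h2 : τ (sp j) (Dk k * (Dk k ^ M₀ * r)) = τ (sp j) (Dk k) ^ (M₀ + 1) * τ (sp j) r := by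
        rw [← mul_assoc, ← pow_succ', map_mul, map_pow]
      rcases lt_trichotomy (sp j) k with h | h | h
      · have h3 : ¬ sp j = k := by omega
        have h4 : ¬ k < sp j := by omega
        simp only [if_pos h, if_neg h3, if_neg h4, mul_zero, sub_zero]
      · have h3 : ¬ sp j < k := by omega
        have h4 : ¬ k < sp j := by omega
        simp only [if_neg h3, if_pos h, if_neg h4, mul_one]
        rw [h2, hcoef j hj h, h, sub_self]
      · have h3 : ¬ sp j < k := by omega
        have h4 : ¬ sp j = k := by omega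
        simp only [if_neg h3, if_neg h4, if_pos h, mul_zero, sub_zero]
        exact h2
    have h5 : L.Deg (Tf E Fam (fun j => if k < sp j then τ (sp j) (Dk k) ^ (M₀ + 1) * τ (sp j) r
        else 0)).toAddMonoidHom (((M₀ + 1 : ℕ) : ℤ) + (B + b) - b) := by
      refine Tf_deg hEb fun j hj n q hq => ?_
      by_cases h : k < sp j
      · simp only [if_pos h]
        rw [mul_smul]
        have := hM₀ (M₀ + 1) (by omega) j hj h n _ (hRF j hj r n q hq)
        rwa [add_assoc] at this
      · simp only [if_neg h, zero_smul]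
        exact (L.F _).zero_mem
    have h6 := h5 n q hq
    rw [← h1] at h6
    have h7 : d ^ ((M₀ + 1 : ℕ) : ℤ) • r • E₀ q = ((d ^ (M₀ + 1) * τ k r) • E₀) q := by
      rw [hsmul, smul_smul, zpow_natCast, LinearMap.smul_apply]
    have h8 : (f * (Tf E Fam fun j => τ (sp j) (Dk k * (Dk k ^ M₀ * r))) * f).toAddMonoidHom q
        - d ^ ((M₀ + 1 : ℕ) : ℤ) • r • E₀ q
        = (f * (Tf E Fam fun j => τ (sp j) (Dk k * (Dk k ^ M₀ * r))) * f
        - (d ^ (M₀ + 1) * τ k r) • E₀).toAddMonoidHom q := by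
      rw [h7]; rfl
    rw [h8]
    exact memF (by omega) h6
  intro c hc
  obtain ⟨e₁, r₁, hr₁⟩ := hS c hc i₀ hi₀
  -- the scalar `c` is bounded
  have hcb : ∀ n, ∀ q ∈ L.F n, c • q ∈ L.F (n - e₁) := by
    intro n q hq
    rw [shiftF hd hD e₁ (n - e₁) (c • q), sub_add_cancel, zpow_natCast, smul_smul, hr₁]
    exact hRF i₀ hi₀ r₁ n q hq
  have hE₀B : L.Deg E₀.toAddMonoidHom (-b) := by
    refine (Tf_deg hEb (a := 0) fun j hj n q hq => ?_).mono (by omega)
    by_cases h : sp j = k
    · simpa only [if_pos h, one_smul, add_zero] using hq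
    · simp only [if_neg h, zero_smul]
      exact (L.F _).zero_mem
  refine Dv.div (K := Ω) (R := R) hd hD hRFk hN' (E := E₀.toAddMonoidHom)
    (σ := σ.toAddMonoidHom) ⟨b, hb, hE₀B⟩ (fun q => ?_) (fun a q => map_smul E₀ a q)
    (fun r q => map_smul E₀ (τ k r) q) (fun a q => map_smul σ a q)
    (fun r q => map_smul σ (τ k r) q) hσD (fun q => ?_) (fun q => ?_) (fun B => ?_) hscal
    (θ := (c • E₀).toAddMonoidHom) ?_ (fun q => ?_) (fun B => ?_)
  · exact LinearMap.congr_fun hEE₀ q
  · exact LinearMap.congr_fun hσE q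
  · exact LinearMap.congr_fun hEσ q
  · obtain ⟨M₀, hM₀⟩ := hfast (B + b)
    refine ⟨M₀ + 1, fun m hm n q hq => ?_⟩
    obtain ⟨m', rfl⟩ : ∃ m', m = m' + 1 := ⟨m - 1, by omega⟩
    have h1 : σ ^ (m' + 1) - σ ^ (m' + 1) * E₀
        = Tf E Fam (fun j => if k < sp j then τ (sp j) (Dk k) ^ (m' + 1) else 0) := by
      rw [hσT, Tf_pow hEE, hE₀, Tf_mul hEE, Tf_sub]
      refine Tf_congr fun j hj => ?_
      rcases lt_trichotomy (sp j) k with h | h | h
      · have h3 : ¬ sp j = k := by omega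
        have h4 : ¬ k < sp j := by omega
        simp only [if_pos h, if_neg h3, if_neg h4, mul_zero, sub_zero, ne_eq,
          Nat.add_eq_zero_iff, one_ne_zero, and_false, not_false_eq_true, zero_pow]
      · have h3 : ¬ sp j < k := by omega
        have h4 : ¬ k < sp j := by omega
        simp only [if_neg h3, if_pos h, if_neg h4, mul_one, sub_self]
      · have h3 : ¬ sp j < k := by omega
        have h4 : ¬ sp j = k := by omega
        simp only [if_neg h3, if_neg h4, if_pos h, mul_zero, sub_zero]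
    have h5 : L.Deg (Tf E Fam (fun j => if k < sp j then τ (sp j) (Dk k) ^ (m' + 1)
        else 0)).toAddMonoidHom (((m' + 1 : ℕ) : ℤ) + (B + b) - b) := by
      refine Tf_deg hEb fun j hj n q hq => ?_
      by_cases h : k < sp j
      · simp only [if_pos h]
        have := hM₀ (m' + 1) (by omega) j hj h n q hq
        rwa [add_assoc] at this
      · simp only [if_neg h, zero_smul]
        exact (L.F _).zero_mem
    have h6 := h5 n q hq
    rw [← h1] at h6
    have h7 : (σ.toAddMonoidHom)^[m' + 1] (q - E₀.toAddMonoidHom q)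
        = (σ ^ (m' + 1) - σ ^ (m' + 1) * E₀).toAddMonoidHom q := by
      have h8 : (σ.toAddMonoidHom)^[m' + 1] (q - E₀.toAddMonoidHom q)
          = (σ ^ (m' + 1)) (q - E₀ q) := (Module.End.pow_apply σ (m' + 1) (q - E₀ q)).symm
      rw [h8, map_sub]
      rfl
    rw [h7]
    exact memF (by omega) h6
  · refine ⟨b + e₁, by omega, fun n q hq => ?_⟩
    have := hcb _ _ (hE₀B n q hq)
    exact memF (by omega) this
  · show E₀ (c • E₀ q) = c • E₀ q
    rw [map_smul]
    congr 1
    exact LinearMap.congr_fun hEE₀ q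
  · obtain ⟨N₀, Y, hY, hYr⟩ := hscal (max B 0 + e₁) (by have := le_max_right B 0; omega)
    obtain ⟨y, hy, h1⟩ := hYr r₁
    refine ⟨N₀ + e₁, y, hY.dv hy, fun n q hq => ?_⟩
    have h2 := h1 n q hq
    have h3 : d ^ (N₀ : ℤ) • r₁ • E₀ q = d ^ ((N₀ + e₁ : ℕ) : ℤ) • (c • E₀).toAddMonoidHom q := by
      show d ^ (N₀ : ℤ) • r₁ • E₀ q = d ^ ((N₀ + e₁ : ℕ) : ℤ) • c • E₀ q
      rw [hsmul, ← hr₁, mul_smul, smul_smul, zpow_natCast, zpow_natCast, ← pow_add]
    rw [h3] at h2
    have := le_max_left B 0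
    exact memF (by push_cast; omega) h2

end speed

end Lin
end MP35
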