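import Pool.Agent.Lib_MP_3538b5_al.EDiv

/-!
# MP_3538b5_al, endgame 2: the torus lemma

`α = Ad a - 1`, `a ∈ N`, and `y` an operator with `α y α = α` (so `P = y α` is the projection onto
the image of `α` if `α` is semisimple) which can be realised on `N` with fixed precision.
Then every `g` close to `1` can be multiplied by an element of `N` so that it commutes with `a`.
-/

namespace MP35

universe u v

namespace Lin

variable {G : Type u} [Group G] {Q : Type v} [AddCommGroup Q] {L : Lin G Q}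

/-- One Newton step. -/
theorem torus_step [hNn : L.N.Normal] {a : G} (ha : a ∈ L.N) {α : Q →+ Q} (hα : L.Bdd α)
    {c₁ : ℤ} (hc₁ : 0 ≤ c₁)
    (hcomm : ∀ m t g, 0 ≤ m → 0 ≤ t → L.δ g ∈ L.F m → α (L.δ g) ∈ L.F t →
      L.δ (a * g * a⁻¹ * g⁻¹) - α (L.δ g) ∈ L.F (m + t - c₁))
    {y : Q →+ Q} (hy : L.Dv y) (hyα : ∀ q, α (y (α q)) = α q) :
    ∃ M t₀ : ℤ, 0 ≤ M ∧ 0 ≤ t₀ ∧ ∀ t, t₀ ≤ t → ∀ g, L.δ g ∈ L.F M → α (L.δ g) ∈ L.F t →
      ∃ n ∈ L.N, L.δ (g * n⁻¹) ∈ L.F M ∧ α (L.δ (g * n⁻¹)) ∈ L.F (t + 1) := by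
  obtain ⟨b, hb, hαb⟩ := hα
  obtain ⟨e, he, hye⟩ := hy.1
  obtain ⟨m₀, hm₀, hdiv⟩ := hy.2 (b + 1)
  have hc := L.c_nonneg
  set M := L.c + c₁ + e + b + 1 with hM
  refine ⟨M, m₀ + M + e, by omega, by omega, fun t ht g hg hgt => ?_⟩
  have k₁ := hcomm M t g (by omega) (by omega) hg hgt
  set w := a * g * a⁻¹ * g⁻¹ with hw
  have hwN : w ∈ L.N := by
    have h1 : g * a⁻¹ * g⁻¹ ∈ L.N := hNn.conj_mem _ (L.N.inv_mem ha) g
    have : w = a * (g * a⁻¹ * g⁻¹) := by rw [hw]; group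
    rw [this]
    exact L.N.mul_mem ha h1
  have k₂ : L.δ w ∈ L.F t := by
    have := (L.F t).add_mem (memF (by omega) k₁) hgt
    simpa using this
  obtain ⟨n, hn, k₃⟩ := hdiv t (by omega) w hwN k₂
  refine ⟨n, hn, ?_⟩
  -- level of `n`
  have k₄ : L.δ n ∈ L.F (t - e) := by
    have := (L.F (t - e)).add_mem (memF (by omega) k₃) (hye _ _ k₂)
    simpa using this
  have k₄' : L.δ n⁻¹ ∈ L.F (t - e) := inv_mem (by omega) k₄ (by omega)
  -- `δ n` is close to `y (α (δ g))`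
  have k₅ : L.δ n - y (α (L.δ g)) ∈ L.F (t + (b + 1)) := by
    have h1 := hye _ _ k₁
    have h2 := (L.F (t + (b + 1))).add_mem k₃ (memF (by omega) h1)
    have e : L.δ n - y (L.δ w) + y (L.δ w - α (L.δ g)) = L.δ n - y (α (L.δ g)) := by
      rw [map_sub]; abel
    rwa [e] at h2
  have k₆ : α (L.δ n) - α (L.δ g) ∈ L.F (t + 1) := by
    have h1 := hαb _ _ k₅
    rw [map_sub, hyα] at h1
    exact memF (by omega) h1
  -- the product
  have k₇ := L.mul M (t - e) g n⁻¹ (by omega) (by omega) hg k₄'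
  have k₈ := L.inv (t - e) n (by omega) k₄
  have k₉ : L.δ (g * n⁻¹) - (L.δ g - L.δ n) ∈ L.F (M + (t - e) - L.c) := by
    have h1 := (L.F (M + (t - e) - L.c)).add_mem k₇ (memF (by omega) k₈)
    have e : L.δ (g * n⁻¹) - L.δ g - L.δ n⁻¹ + (L.δ n⁻¹ + L.δ n)
        = L.δ (g * n⁻¹) - (L.δ g - L.δ n) := by abel
    rwa [e] at h1
  constructor
  · have h1 := (L.F M).add_mem (memF (by omega) k₉)
      ((L.F M).sub_mem hg (memF (by omega) k₄))
    simpa using h1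
  · have h1 := hαb _ _ k₉
    have h2 := (L.F (t + 1)).sub_mem (memF (by omega) h1) k₆
    have e : α (L.δ (g * n⁻¹) - (L.δ g - L.δ n)) - (α (L.δ n) - α (L.δ g))
        = α (L.δ (g * n⁻¹)) := by
      rw [map_sub, map_sub]; abel
    rwa [e] at h2

/-- **Torus lemma.** -/
theorem torus [TopologicalSpace G] [CompactSpace G] (hN : IsClosed (L.N : Set G))
    [hNn : L.N.Normal] {a : G} (ha : a ∈ L.N) {α : Q →+ Q} (hα : L.Bdd α)
    {c₁ : ℤ} (hc₁ : 0 ≤ c₁)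
    (hcomm : ∀ m t g, 0 ≤ m → 0 ≤ t → L.δ g ∈ L.F m → α (L.δ g) ∈ L.F t →
      L.δ (a * g * a⁻¹ * g⁻¹) - α (L.δ g) ∈ L.F (m + t - c₁))
    {y : Q →+ Q} (hy : L.Dv y) (hyα : ∀ q, α (y (α q)) = α q)
    (hcl : ∀ g n, IsClosed {x : G | α (L.δ (g * x)) ∈ L.F n})
    (hint : ∀ q, (∀ n, q ∈ L.F n) → q = 0) (hzero : ∀ g, α (L.δ g) = 0 → a * g = g * a) :
    ∃ m₁ : ℤ, ∀ g, L.δ g ∈ L.F m₁ → ∃ n ∈ L.N, a * (g * n) = g * n * a := by
  obtain ⟨M, t₀, hM, ht₀, hstep⟩ := torus_step ha hα hc₁ hcomm hy hyα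
  obtain ⟨b, hb, hαb⟩ := hα
  refine ⟨max M (t₀ + b), fun g hg => ?_⟩
  have h0 : L.δ g ∈ L.F M := memF (le_max_left _ _) hg
  have h1 : α (L.δ g) ∈ L.F t₀ :=
    memF (by have := le_max_right M (t₀ + b); omega) (hαb _ _ hg)
  have claim : ∀ i : ℕ, ∃ x ∈ L.N, L.δ (g * x) ∈ L.F M ∧ α (L.δ (g * x)) ∈ L.F (t₀ + i) := by
    intro i
    induction i with
    | zero => exact ⟨1, L.N.one_mem, by simpa using h0, by simpa using h1⟩
    | succ i ih =>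
      obtain ⟨x, hx, h2, h3⟩ := ih
      obtain ⟨n, hn, h4, h5⟩ := hstep (t₀ + i) (by omega) (g * x) h2 h3
      refine ⟨x * n⁻¹, L.N.mul_mem hx (L.N.inv_mem hn), ?_, ?_⟩
      · rwa [← mul_assoc]
      · rw [← mul_assoc]
        have e : t₀ + ((i + 1 : ℕ) : ℤ) = t₀ + i + 1 := by push_cast; ring
        rwa [e]
  let K : ℕ → Set G := fun i => (L.N : Set G) ∩ {x : G | α (L.δ (g * x)) ∈ L.F (t₀ + i)}
  have hKcl : ∀ i, IsClosed (K i) := fun i => hN.inter (hcl g _)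
  obtain ⟨n, hn⟩ := IsCompact.nonempty_iInter_of_sequence_nonempty_isCompact_isClosed K
    (fun i x hx => ⟨hx.1, memF (by push_cast; omega) hx.2⟩)
    (fun i => by
      obtain ⟨x, hx, _, h3⟩ := claim i
      exact ⟨x, hx, h3⟩) (hKcl 0).isCompact hKcl
  rw [Set.mem_iInter] at hn
  refine ⟨n, (hn 0).1, hzero _ (hint _ fun m => ?_)⟩
  obtain ⟨i, hi⟩ := Int.eq_ofNat_of_zero_le (le_max_right (m - t₀) 0)
  have h6 : α (L.δ (g * n)) ∈ L.F (t₀ + i) := (hn i).2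
  exact memF (by have := le_max_left (m - t₀) 0; omega) h6

end Lin
end MP35
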