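import Mathlib

/-! # Piece RBURN: Burnside's theorem -/

set_option autoImplicit false

namespace MP35

universe u v w

/-- PROOF. Burnside's theorem. `Fin n → K` is a simple module over the algebra `B`, its endomorphisms are scalars (`K` algebraically
closed), so by the Jacobson density theorem (Mathlib: `jacobson_density`, or Wedderburn-Artin for the semisimple ring `B`) `B` is everything.
Elementary proof: (1) `B` contains an element of rank one: take `a ∈ B` nonzero of minimal rank; if the rank is at least two, choose `v, w` with `a v, a w`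
independent and `b ∈ B` with `b a v = w`; then `a b a` and `a` are not proportional on `a`'s image, `a b` maps `range a` to itself and has an
eigenvalue `c` there (`K` algebraically closed), `(a b - c) a ∈ B` is nonzero of smaller rank. (2) If `B` contains one rank one element `x ⊗ φ`, it
contains all of them by irreducibility (of the module and of its dual; the annihilator of a `B`-stable subspace of the dual is `B`-stable), and these span. -/
theorem burnside {K : Type v} [Field K] [IsAlgClosed K] {n : ℕ}
    (B : Subalgebra K (Matrix (Fin n) (Fin n) K))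
    (h : ∀ U : Submodule K (Fin n → K), (∀ a ∈ B, ∀ v ∈ U, Matrix.mulVec a v ∈ U) → U = ⊥ ∨ U = ⊤) :
    B = ⊤ := by
  classical
  rcases Nat.eq_zero_or_pos n with hn | hn
  · subst hn
    rw [eq_top_iff]
    intro a _
    have h0 : a = 0 := Subsingleton.elim _ _
    rw [h0]
    exact B.zero_mem
  haveI : Nonempty (Fin n) := ⟨⟨0, hn⟩⟩
  let e : Matrix (Fin n) (Fin n) K ≃ₐ[K] Module.End K (Fin n → K) := Matrix.toLinAlgEquiv'
  let A : Subalgebra K (Module.End K (Fin n → K)) := B.map e.toAlgHom
  have hact : ∀ (a : Matrix (Fin n) (Fin n) K) (ha : a ∈ B) (x : Fin n → K),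
      ((⟨e a, ⟨a, ha, rfl⟩⟩ : A) • x : Fin n → K) = Matrix.mulVec a x := by
    intro a ha x
    rfl
  haveI hsimple : IsSimpleModule A (Fin n → K) := by
    refine IsSimpleModule.mk (toIsSimpleOrder := ?_)
    haveI : Nontrivial (Submodule A (Fin n → K)) := inferInstance
    refine ⟨fun U => ?_⟩
    rcases h (U.restrictScalars K) (fun a ha x hx => by
      have h1 := U.smul_mem (⟨e a, ⟨a, ha, rfl⟩⟩ : A) hx
      rw [hact a ha x] at h1
      exact h1) with h1 | h1
    · left
      rwa [Submodule.restrictScalars_eq_bot_iff] at h1
    · right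
      rwa [Submodule.restrictScalars_eq_top_iff] at h1
  have hschur := IsSimpleModule.algebraMap_end_bijective_of_isAlgClosed (A := A) (V := Fin n → K) K
  have htop : ∀ F : Module.End K (Fin n → K), F ∈ A := by
    intro F
    let f : Module.End (Module.End A (Fin n → K)) (Fin n → K) :=
      { toFun := F
        map_add' := F.map_add
        map_smul' := by
          intro g x
          obtain ⟨c, hc⟩ := hschur.2 g
          have h1 : ∀ y : Fin n → K, g • y = c • y := by
            intro y
            rw [← hc]
            rfl
          rw [h1, RingHom.id_apply, h1, F.map_smul] }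
    obtain ⟨r, hr⟩ := jacobson_density (R := A) (M := Fin n → K) f
      (Finset.univ.image (fun i : Fin n => (Pi.single i (1 : K) : Fin n → K)))
    have h2 : F = (r : Module.End K (Fin n → K)) := by
      apply LinearMap.pi_ext'
      intro i
      apply LinearMap.ext_ring
      have h3 := hr (Pi.single i (1 : K)) (Finset.mem_image_of_mem _ (Finset.mem_univ i))
      exact h3
    rw [h2]
    exact r.2
  rw [eq_top_iff]
  intro a _
  obtain ⟨b, hb, hab⟩ := htop (e a)
  have h4 : b = a := e.injective hab
  rw [← h4]
  exact hb

/-- PROOF. The span of the image of a monoid homomorphism is a subalgebra (`Algebra.adjoin_eq_span`, the range is a submonoid); apply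
`burnside` to it. -/
theorem burnside_hom {K : Type v} [Field K] [IsAlgClosed K] {n : ℕ} {G : Type u} [Monoid G]
    (ρ : G →* Matrix (Fin n) (Fin n) K)
    (h : ∀ U : Submodule K (Fin n → K), (∀ g, ∀ v ∈ U, Matrix.mulVec (ρ g) v ∈ U) → U = ⊥ ∨ U = ⊤) :
    Submodule.span K (Set.range ρ) = ⊤ := by
  have h1 : Algebra.adjoin K (Set.range ρ) = ⊤ := by
    apply burnside
    intro U hU
    apply h
    intro g v hv
    exact hU (ρ g) (Algebra.subset_adjoin ⟨g, rfl⟩) v hv
  have h2 := Algebra.adjoin_eq_span K (Set.range ρ)
  have h3 : (Submonoid.closure (Set.range ρ) : Set (Matrix (Fin n) (Fin n) K)) = Set.range ρ := by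
    have h4 : Set.range ρ = ((MonoidHom.mrange ρ : Submonoid (Matrix (Fin n) (Fin n) K)) : Set (Matrix (Fin n) (Fin n) K)) := by
      rw [MonoidHom.coe_mrange]
    rw [h4, Submonoid.closure_eq]
  rw [h3, h1] at h2
  rw [← h2]
  rfl

end MP35
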