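import Pool.Agent.Lib_MP_3538b5_al.FDefs
import Pool.Agent.Lib_MP_3538b5_al.RBurn

/-!
# Layer F: the simple factors of a flag as matrix representations

`R.LB Φ`: the `T`-algebra of the elements of `R.lrMod` which preserve the flag `Φ` (finite over `T`, it
contains `R.B` and `R.CC`); `R.jL Φ : G →* R.LB Φ`; `exists_blk`: the factor `W (i+1) / W i` gives
an algebra homomorphism `R.LB Φ →ₐ[T] M_d(Ω)`.
-/

set_option autoImplicit false

namespace MP35

universe u v w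

/-- the dimension of the `i`-th factor -/
noncomputable def Flag.dim {Ω : Type v} [Field Ω] {V : Type w} [AddCommGroup V] [Module Ω V]
    {X : Set (Module.End Ω V)} (Fl : Flag X) (i : ℕ) : ℕ :=
  Module.finrank Ω (↥(Fl.W (i + 1)) ⧸ (Fl.W i).submoduleOf (Fl.W (i + 1)))

namespace Flag

variable {Ω : Type v} [Field Ω] {V : Type w} [AddCommGroup V] [Module Ω V]
  {X : Set (Module.End Ω V)} (Fl : Flag X)

/-- the `i`-th factor -/
abbrev Q (i : ℕ) : Type w := ↥(Fl.W (i + 1)) ⧸ (Fl.W i).submoduleOf (Fl.W (i + 1))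

/-- the action of an endomorphism preserving the flag on the `i`-th factor -/
noncomputable def act (i : ℕ) (y : Module.End Ω V) (hy : y ∈ Fl.J 0) : Module.End Ω (Fl.Q i) :=
  Submodule.mapQ ((Fl.W i).submoduleOf (Fl.W (i + 1))) ((Fl.W i).submoduleOf (Fl.W (i + 1)))
    (y.restrict (fun v hv => hy (i + 1) v hv)) (fun _ hv => hy i _ hv)

theorem act_mk (i : ℕ) (y : Module.End Ω V) (hy : y ∈ Fl.J 0) (v : Fl.W (i + 1)) :
    Fl.act i y hy (Submodule.Quotient.mk v) =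
      Submodule.Quotient.mk (⟨y v, hy (i + 1) v v.2⟩ : Fl.W (i + 1)) := rfl

theorem act_mk_eq (i : ℕ) (y : Module.End Ω V) (hy : y ∈ Fl.J 0) (v : Fl.W (i + 1)) (c : Ω) :
    Fl.act i y hy (Submodule.Quotient.mk v) = c • Submodule.Quotient.mk v ↔
      y v - c • (v : V) ∈ Fl.W i := by
  rw [Fl.act_mk, ← Submodule.Quotient.mk_smul, Submodule.Quotient.eq]
  rfl

theorem mk_ne_zero (i : ℕ) (v : Fl.W (i + 1)) :
    (Submodule.Quotient.mk v : Fl.Q i) ≠ 0 ↔ (v : V) ∉ Fl.W i := by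
  rw [Ne, Submodule.Quotient.mk_eq_zero]
  rfl

theorem act_eq_smul (i : ℕ) (y : Module.End Ω V) (hy : y ∈ Fl.J 0) (c : Ω) :
    Fl.act i y hy = c • (1 : Module.End Ω (Fl.Q i)) ↔ Fl.Acts y i c := by
  constructor
  · intro h v hv
    have h1 := LinearMap.congr_fun h (Submodule.Quotient.mk (⟨v, hv⟩ : Fl.W (i + 1)))
    rw [LinearMap.smul_apply, Module.End.one_apply, Fl.act_mk_eq] at h1
    exact h1
  · intro h
    refine LinearMap.ext fun x => ?_
    obtain ⟨v, rfl⟩ := Submodule.Quotient.mk_surjective _ x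
    rw [LinearMap.smul_apply, Module.End.one_apply, Fl.act_mk_eq]
    exact h v v.2

theorem act_eigen [FiniteDimensional Ω V] (i : ℕ) (y : Module.End Ω V) (hy : y ∈ Fl.J 0) (μ : Ω) :
    (Fl.act i y hy).HasEigenvalue μ ↔
      ∃ v ∈ Fl.W (i + 1), v ∉ Fl.W i ∧ y v - μ • v ∈ Fl.W i := by
  constructor
  · intro h
    obtain ⟨x, hx⟩ := h.exists_hasEigenvector
    obtain ⟨v, rfl⟩ := Submodule.Quotient.mk_surjective _ x
    refine ⟨v, v.2, (Fl.mk_ne_zero i v).1 hx.2, ?_⟩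
    have h1 := hx.apply_eq_smul
    rwa [Fl.act_mk_eq] at h1
  · rintro ⟨v, hv, hv0, h⟩
    refine Module.End.hasEigenvalue_of_hasEigenvector
      (x := Submodule.Quotient.mk (⟨v, hv⟩ : Fl.W (i + 1))) ?_
    rw [Module.End.hasEigenvector_iff]
    refine ⟨?_, (Fl.mk_ne_zero i _).2 hv0⟩
    rw [Module.End.mem_eigenspace_iff, Fl.act_mk_eq]
    exact h

theorem act_one (i : ℕ) : Fl.act i 1 Fl.J_one = 1 := by
  refine LinearMap.ext fun x => ?_
  obtain ⟨v, rfl⟩ := Submodule.Quotient.mk_surjective _ x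
  rfl

theorem act_zero (i : ℕ) : Fl.act i 0 (Fl.J 0).zero_mem = 0 := by
  refine LinearMap.ext fun x => ?_
  obtain ⟨v, rfl⟩ := Submodule.Quotient.mk_surjective _ x
  rfl

theorem act_add (i : ℕ) (y z : Module.End Ω V) (hy : y ∈ Fl.J 0) (hz : z ∈ Fl.J 0)
    (h : y + z ∈ Fl.J 0) : Fl.act i (y + z) h = Fl.act i y hy + Fl.act i z hz := by
  refine LinearMap.ext fun x => ?_
  obtain ⟨v, rfl⟩ := Submodule.Quotient.mk_surjective _ x
  rfl

theorem act_mul (i : ℕ) (y z : Module.End Ω V) (hy : y ∈ Fl.J 0) (hz : z ∈ Fl.J 0)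
    (h : y * z ∈ Fl.J 0) : Fl.act i (y * z) h = Fl.act i y hy * Fl.act i z hz := by
  refine LinearMap.ext fun x => ?_
  obtain ⟨v, rfl⟩ := Submodule.Quotient.mk_surjective _ x
  rfl

theorem Q_nontrivial {i : ℕ} (hi : i < Fl.l) : Nontrivial (Fl.Q i) := by
  obtain ⟨v, hv, hv0⟩ := SetLike.exists_of_lt (Fl.lt i hi)
  exact ⟨⟨Submodule.Quotient.mk (⟨v, hv⟩ : Fl.W (i + 1)), 0, (Fl.mk_ne_zero i _).2 hv0⟩⟩

/-- subspaces of the factor stable under `X` are trivial -/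
theorem Q_simple {i : ℕ} (hi : i < Fl.l) (U : Submodule Ω (Fl.Q i))
    (hU : ∀ y ∈ X, ∀ hy : y ∈ Fl.J 0, ∀ x ∈ U, Fl.act i y hy x ∈ U) : U = ⊥ ∨ U = ⊤ := by
  let S : Submodule Ω V :=
    (U.comap ((Fl.W i).submoduleOf (Fl.W (i + 1))).mkQ).map (Fl.W (i + 1)).subtype
  have hS : ∀ v : Fl.W (i + 1), (v : V) ∈ S ↔ (Submodule.Quotient.mk v : Fl.Q i) ∈ U := by
    intro v
    constructor
    · rintro ⟨w, hw, hwv⟩
      have h1 : w = v := Subtype.ext hwv
      subst h1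
      exact hw
    · intro h
      exact ⟨v, h, rfl⟩
  have hS1 : S ≤ Fl.W (i + 1) := by
    rintro _ ⟨w, -, rfl⟩
    exact w.2
  have hS2 : ∀ y ∈ X, ∀ v ∈ S, y v ∈ S := by
    intro y hy v hv
    have h1 := (hS ⟨v, hS1 hv⟩).1 hv
    have hy0 : y ∈ Fl.J 0 := fun j w hw => Fl.stable y hy j w hw
    have h2 := hU y hy hy0 _ h1
    rw [Fl.act_mk] at h2
    exact (hS _).2 h2
  have hS3 : Fl.W i ≤ S := by
    intro v hv
    refine (hS ⟨v, Fl.mono (Nat.le_succ i) hv⟩).2 ?_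
    have h1 : (Submodule.Quotient.mk (⟨v, Fl.mono (Nat.le_succ i) hv⟩ : Fl.W (i + 1)) : Fl.Q i) = 0 := by
      rw [Submodule.Quotient.mk_eq_zero]
      exact hv
    rw [h1]
    exact U.zero_mem
  rcases Fl.simple i hi S hS2 hS3 hS1 with h | h
  · left
    rw [eq_bot_iff]
    intro x hx
    obtain ⟨v, rfl⟩ := Submodule.Quotient.mk_surjective _ x
    have h1 := (hS v).2 hx
    rw [h] at h1
    rw [Submodule.mem_bot, Submodule.Quotient.mk_eq_zero]
    exact h1
  · right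
    rw [eq_top_iff]
    intro x _
    obtain ⟨v, rfl⟩ := Submodule.Quotient.mk_surjective _ x
    refine (hS v).1 ?_
    rw [h]
    exact v.2

end Flag

namespace Rep

variable {p : ℕ} {G : Type u} [Group G] [TopologicalSpace G] {T : Type v} [CommRing T]
  [TopologicalSpace T] {Ω : Type v} [Field Ω] [Algebra T Ω] {n : ℕ} (R : Rep p G T Ω n)

/-- the elements of `lrMod` which preserve the flag -/
noncomputable def LB (Φ : R.Fl) : Subalgebra T (Module.End Ω (Matrix (Fin n) (Fin n) Ω)) where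
  carrier := {y | y ∈ R.lrMod ∧ y ∈ Φ.J 0}
  mul_mem' ha hb := ⟨R.lrMod_mul ha.1 hb.1, Φ.J_mul (i := 0) (k := 0) ha.2 hb.2⟩
  add_mem' ha hb := ⟨add_mem ha.1 hb.1, add_mem ha.2 hb.2⟩
  algebraMap_mem' t := by
    rw [Algebra.algebraMap_eq_smul_one]
    refine ⟨Submodule.smul_mem _ _ R.lrMod_one, ?_⟩
    rw [← algebraMap_smul Ω t]
    exact Submodule.smul_mem _ _ Φ.J_one

variable {R} in
theorem mem_LB {Φ : R.Fl} {y : Module.End Ω (Matrix (Fin n) (Fin n) Ω)} :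
    y ∈ R.LB Φ ↔ y ∈ R.lrMod ∧ y ∈ Φ.J 0 := Iff.rfl

theorem Ad_mem_LB (Φ : R.Fl) (g : G) : R.Ad g ∈ R.LB Φ :=
  ⟨R.lrBil_mem (R.j g) (R.j g⁻¹), fun i v hv => Φ.stable _ ⟨g, rfl⟩ i v hv⟩

theorem B_le_LB (Φ : R.Fl) : R.B ≤ R.LB Φ := by
  refine Algebra.adjoin_le ?_
  rintro _ ⟨g, rfl⟩
  exact R.Ad_mem_LB Φ g

instance finLB [CNR T] (Φ : R.Fl) : Module.Finite T (R.LB Φ) := by
  have h : Subalgebra.toSubmodule (R.LB Φ) ≤ R.lrMod := fun y hy => hy.1
  have : IsNoetherian T R.lrMod := isNoetherian_of_isNoetherianRing_of_finite T R.lrMod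
  exact Module.Finite.of_injective (Submodule.inclusion h)
    (Submodule.inclusion_injective h)

/-- the homomorphism to `LB` -/
noncomputable def jL (Φ : R.Fl) : G →* R.LB Φ where
  toFun g := ⟨R.Ad g, R.Ad_mem_LB Φ g⟩
  map_one' := Subtype.ext (map_one R.adH)
  map_mul' g h := Subtype.ext (map_mul R.adH g h)

theorem jL_coe (Φ : R.Fl) (g : G) :
    (R.jL Φ g : Module.End Ω (Matrix (Fin n) (Fin n) Ω)) = R.Ad g := rfl

/-- PROOF. `Q = W (i+1) / W i` (the quotient in the definition of `Flag.dim`). For `y ∈ LB Φ` (it preserves `W i` and `W (i+1)`) let `π₀ y : End Q` be `Submodule.mapQ` of the restriction of `y` to `W (i+1)`;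
`π₀` is a homomorphism of `T`-algebras. Let `π y` be the matrix of `π₀ y` in a basis of `Q` with `d` elements (`Module.finBasisOfFinrankEq`, `LinearMap.toMatrixAlgEquiv`).
(1) `π y = c • 1` iff `π₀ y = c • 1` iff `y v - c • v ∈ W i` for all `v ∈ W (i+1)`. (2) `μ` is a root of the characteristic polynomial iff it is an eigenvalue of `π₀ y` (`Module.End.hasEigenvalue_iff_isRoot_charpoly`, `LinearMap.charpoly_toMatrix`): there is `v ∈ W (i+1)`, `v ∉ W i`, with `y v - μ v ∈ W i`.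
(3) `W i < W (i+1)`, so `Q ≠ 0`. (4) `burnside_hom`: a subspace of `Fin d → Ω` stable under the `π (jL g)` corresponds to a subspace of `Q` stable under the `π₀ (Ad g)`, and (comap of `mkQ`, map to `W`) to a subspace of `W` between `W i` and `W (i+1)` stable under `Ad G`; `Φ.simple`. -/
theorem exists_blk [IsAlgClosed Ω] (Φ : R.Fl) {i : ℕ} (hi : i < Φ.l) {d : ℕ} (hd : Φ.dim i = d) :
    0 < d ∧ ∃ π : R.LB Φ →ₐ[T] Matrix (Fin d) (Fin d) Ω,
      (∀ (y : R.LB Φ) (c : Ω), π y = c • (1 : Matrix (Fin d) (Fin d) Ω) ↔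
        Φ.Acts (y : Module.End Ω (Matrix (Fin n) (Fin n) Ω)) i c) ∧
      (∀ (y : R.LB Φ) (μ : Ω), (π y).charpoly.IsRoot μ ↔
        ∃ v ∈ Φ.W (i + 1), v ∉ Φ.W i ∧
          (y : Module.End Ω (Matrix (Fin n) (Fin n) Ω)) v - μ • v ∈ Φ.W i) ∧
      Submodule.span Ω (Set.range fun g => π (R.jL Φ g)) = ⊤ := by
  classical
  have hnt : Nontrivial (Φ.Q i) := Φ.Q_nontrivial hi
  have hfin : FiniteDimensional Ω (Φ.Q i) := inferInstance
  have hd' : Module.finrank Ω (Φ.Q i) = d := hd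
  refine ⟨by rw [← hd']; exact Module.finrank_pos, ?_⟩
  let b : Module.Basis (Fin d) Ω (Φ.Q i) := Module.finBasisOfFinrankEq Ω (Φ.Q i) hd'
  let M : Module.End Ω (Φ.Q i) ≃ₐ[Ω] Matrix (Fin d) (Fin d) Ω := LinearMap.toMatrixAlgEquiv b
  let f : R.LB Φ →+* Matrix (Fin d) (Fin d) Ω :=
    { toFun := fun y => M (Φ.act i y y.2.2)
      map_one' := by
        have h : Φ.act i ((1 : R.LB Φ) : Module.End Ω (Matrix (Fin n) (Fin n) Ω))
          (1 : R.LB Φ).2.2 = 1 := Φ.act_one i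
        rw [h, map_one]
      map_zero' := by
        have h : Φ.act i ((0 : R.LB Φ) : Module.End Ω (Matrix (Fin n) (Fin n) Ω))
          (0 : R.LB Φ).2.2 = 0 := Φ.act_zero i
        rw [h, map_zero]
      map_add' := fun y z => by
        have h : Φ.act i ((y + z : R.LB Φ) : Module.End Ω (Matrix (Fin n) (Fin n) Ω))
          (y + z : R.LB Φ).2.2 = Φ.act i y y.2.2 + Φ.act i z z.2.2 := Φ.act_add i _ _ _ _ _
        rw [h, map_add]
      map_mul' := fun y z => by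
        have h : Φ.act i ((y * z : R.LB Φ) : Module.End Ω (Matrix (Fin n) (Fin n) Ω))
          (y * z : R.LB Φ).2.2 = Φ.act i y y.2.2 * Φ.act i z z.2.2 := Φ.act_mul i _ _ _ _ _
        rw [h, map_mul] }
  have hf : ∀ y : R.LB Φ, f y = M (Φ.act i y y.2.2) := fun y => rfl
  have hf1 : ∀ (y : R.LB Φ) (c : Ω), f y = c • (1 : Matrix (Fin d) (Fin d) Ω) ↔
      Φ.Acts (y : Module.End Ω (Matrix (Fin n) (Fin n) Ω)) i c := by
    intro y c
    rw [← Φ.act_eq_smul i _ y.2.2 c, hf, ← M.injective.eq_iff (a := Φ.act i y y.2.2), map_smul, map_one]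
  let π : R.LB Φ →ₐ[T] Matrix (Fin d) (Fin d) Ω :=
    { f with
      commutes' := fun t => by
        change f (algebraMap T (R.LB Φ) t) = algebraMap T (Matrix (Fin d) (Fin d) Ω) t
        rw [Algebra.algebraMap_eq_smul_one (A := Matrix (Fin d) (Fin d) Ω),
          ← algebraMap_smul Ω t (1 : Matrix (Fin d) (Fin d) Ω), hf1]
        intro v _
        have h : ((algebraMap T (R.LB Φ) t : R.LB Φ) : Module.End Ω (Matrix (Fin n) (Fin n) Ω)) v
          = t • v := rfl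
        rw [h, algebraMap_smul, sub_self]
        exact Submodule.zero_mem _ }
  have hπ : ∀ y : R.LB Φ, π y = M (Φ.act i y y.2.2) := fun y => rfl
  refine ⟨π, hf1, ?_, ?_⟩
  · intro y μ
    rw [← Φ.act_eigen i _ y.2.2 μ, Module.End.hasEigenvalue_iff_isRoot_charpoly, hπ]
    have h : (M (Φ.act i y y.2.2)).charpoly = (Φ.act i y y.2.2).charpoly :=
      LinearMap.charpoly_toMatrix (Φ.act i y y.2.2) b
    rw [h]
  · let ρ : G →* Matrix (Fin d) (Fin d) Ω := (π : R.LB Φ →* Matrix (Fin d) (Fin d) Ω).comp (R.jL Φ)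
    refine burnside_hom ρ ?_
    intro U hU
    have hmul : ∀ (g : G) (x : Φ.Q i), Matrix.mulVec (ρ g) (b.equivFun x) =
        b.equivFun (Φ.act i (R.jL Φ g) (R.jL Φ g).2.2 x) := by
      intro g x
      exact LinearMap.toMatrix_mulVec_repr b b (Φ.act i (R.jL Φ g) (R.jL Φ g).2.2) x
    have hst : ∀ y ∈ Set.range R.Ad, ∀ hy : y ∈ Φ.J 0,
        ∀ x ∈ U.comap (b.equivFun : Φ.Q i →ₗ[Ω] (Fin d → Ω)),
          Φ.act i y hy x ∈ U.comap (b.equivFun : Φ.Q i →ₗ[Ω] (Fin d → Ω)) := by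
      rintro _ ⟨g, rfl⟩ hy x hx
      rw [Submodule.mem_comap] at hx ⊢
      have h1 := hU g _ hx
      have h2 := hmul g x
      rw [LinearEquiv.coe_coe] at h1 ⊢
      rw [h2] at h1
      exact h1
    rcases Φ.Q_simple hi (U.comap (b.equivFun : Φ.Q i →ₗ[Ω] (Fin d → Ω))) hst with h | h
    · left
      rw [eq_bot_iff]
      intro x hx
      have h1 : b.equivFun.symm x ∈ U.comap (b.equivFun : Φ.Q i →ₗ[Ω] (Fin d → Ω)) := by
        rw [Submodule.mem_comap, LinearEquiv.coe_coe, LinearEquiv.apply_symm_apply]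
        exact hx
      rw [h, Submodule.mem_bot] at h1
      rw [Submodule.mem_bot, ← b.equivFun.apply_symm_apply x, h1, map_zero]
    · right
      rw [eq_top_iff]
      intro x _
      have h1 : b.equivFun.symm x ∈ U.comap (b.equivFun : Φ.Q i →ₗ[Ω] (Fin d → Ω)) := by
        rw [h]; exact Submodule.mem_top
      rw [Submodule.mem_comap, LinearEquiv.coe_coe, LinearEquiv.apply_symm_apply] at h1
      exact h1

end Rep

end MP35
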