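import Pool.Agent.Lib_MP_3538b5_al.RMain

/-! # The core situation passes to open subgroups which contain a full subgroup -/

set_option autoImplicit false

namespace MP35

universe u v w

/-- fullness passes to larger subgroups -/
theorem Rep.Full.of_le {p : ℕ} {G : Type u} [Group G] [TopologicalSpace G]
    {T : Type v} [CommRing T] [TopologicalSpace T] [CNR T] {Ω : Type v} [Field Ω] [Algebra T Ω]
    {n : ℕ} {R : Rep p G T Ω n} {H U : Subgroup G} (hHU : H ≤ U) (hHf : (R.res H).Full) :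
    (R.res U).Full := by
  intro O hO hpO hunip
  refine hHf O hO hpO ?_
  intro g μ hμ
  exact hunip ⟨g, hHU g.2⟩ μ hμ

/-- The core situation passes to open subgroups which contain a full noncommutative closed subgroup. -/
theorem MCore.res_open {p : ℕ} [Fact p.Prime] {G : Type u} [Group G] [TopologicalSpace G]
    [IsTopologicalGroup G] [CompactSpace G] [T2Space G] [TotallyDisconnectedSpace G]
    {T : Type v} [CommRing T] [TopologicalSpace T] [CNR T] {Ω : Type v} [Field Ω] [Algebra T Ω]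
    {n k : ℕ} {R : Rep p G T Ω n} {U : Subgroup G} (hU : IsOpen (U : Set G)) {H : Subgroup G}
    (hHU : H ≤ U) (hHnc : ∃ x ∈ H, ∃ y ∈ H, x * y ≠ y * x)
    (hHf : (R.res H).Full) (hR : MCore.{u, v} R k) : MCore.{u, v} (R.res U) k := by
  classical
  have hUcl : IsClosed (U : Set G) := U.isClosed_of_isOpen hU
  have hUnc : ∃ x ∈ U, ∃ y ∈ U, x * y ≠ y * x := by
    obtain ⟨x, hx, y, hy, hxy⟩ := hHnc
    exact ⟨x, hHU hx, y, hHU hy, hxy⟩
  refine ⟨hR.pf.sub hUcl hUnc, hR.alg, hR.opt, hR.triv.res U, Rep.Full.of_le hHU hHf,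
    fun g => hR.det g, fg_open hR.fg U hU, ?_⟩
  intro K hK hKnc hKfull c hc
  let K' : Subgroup G := K.map U.subtype
  have hK' : IsClosed (K' : Set G) := by
    have : (K' : Set G) = (Subtype.val : U → G) '' (K : Set U) := by
      ext g
      simp [K']
    rw [this]
    exact hUcl.isClosedEmbedding_subtypeVal.isClosedMap _ hK
  have hK'nc : ∃ x ∈ K', ∃ y ∈ K', x * y ≠ y * x := by
    obtain ⟨x, hx, y, hy, hxy⟩ := hKnc
    exact ⟨x, ⟨x, hx, rfl⟩, y, ⟨y, hy, rfl⟩, fun h => hxy (Subtype.ext h)⟩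
  have hmem : ∀ g : K', ∃ g₁ : K, ((g₁ : U) : G) = (g : G) := by
    rintro ⟨_, ⟨g, hg, rfl⟩⟩
    exact ⟨⟨g, hg⟩, rfl⟩
  have hmem' : ∀ g : K, ((g : U) : G) ∈ K' := fun g => ⟨(g : U), g.2, rfl⟩
  have hK'full : (R.res K').Full := by
    intro O hO hpO hunip
    refine hKfull O hO hpO ?_
    intro g μ hμ
    exact hunip ⟨_, hmem' g⟩ μ hμ
  obtain ⟨h, hh, hh1⟩ := hR.deep K' hK' hK'nc hK'full c hc
  obtain ⟨h₁, hh₁⟩ := hmem h
  refine ⟨h₁, ?_, ?_⟩
  · rw [mem_NI_mat] at hh ⊢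
    obtain ⟨a, ha, hga⟩ := hh
    refine ⟨a, ?_, ?_⟩
    · have hle : repAlg T (R.res K').ρ ≤ repAlg T ((R.res U).res K).ρ := by
        refine Algebra.adjoin_mono ?_
        rintro _ ⟨g, rfl⟩
        obtain ⟨g₁, hg₁⟩ := hmem g
        refine ⟨g₁, ?_⟩
        show R.ρ ((g₁ : U) : G) = R.ρ (g : G)
        rw [hg₁]
      exact hle ha
    · show R.ρ ((h₁ : U) : G) = _
      rw [hh₁]
      exact hga
  · intro h0
    apply hh1
    apply Subtype.ext
    rw [← hh₁, h0]
    rfl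

end MP35
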