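import Pool.Agent.Lib_MP_3538b5_al.RMain

/-!
# Layer F: finitely many elements detect fullness

`MCore.exists_detect`: a finite family with two noncommuting members, such that the closed subgroup
generated by the `p ^ e`-th powers is full for every `e`.
-/

set_option autoImplicit false

namespace MP35

universe u v w

variable {p : ℕ} [Fact p.Prime] {G : Type u} [Group G] [TopologicalSpace G]
  [IsTopologicalGroup G] [CompactSpace G] [T2Space G] [TotallyDisconnectedSpace G] {T : Type v}
  [CommRing T] [TopologicalSpace T] [CNR T] [IsDomain T] {Ω : Type v} [Field Ω] [IsAlgClosed Ω]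
  [Algebra T Ω] {n k : ℕ} {R : Rep p G T Ω n}

/-- the degree is positive -/
theorem MCore.pos (hR : MCore R k) : 0 < n := by
  obtain ⟨x, y, hxy⟩ := hR.pf.nc
  rcases Nat.eq_zero_or_pos n with h | h
  · subst h
    exact absurd (R.inj (Subsingleton.elim _ _)) hxy
  · exact h

/-- finitely many elements, two of them noncommuting, such that their `p ^ e`-th powers generate a
full subgroup for every `e` -/
theorem MCore.exists_detect (hR : MCore R k) :
    ∃ (m : ℕ) (g : Fin m → G), (∃ i j, g i * g j ≠ g j * g i) ∧
      ∀ e : ℕ, (R.res (clS (Set.range fun i => g i ^ p ^ e))).Full := by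
  obtain ⟨m, z, hz⟩ := exists_detecting hR.pos R (Rep.span_top hR.opt.nmin hR.pf R) hR.full
  obtain ⟨x, y, hxy⟩ := hR.pf.nc
  refine ⟨m + 2, Fin.cons x (Fin.cons y z), ⟨0, 1, ?_⟩, fun e => hz _ fun i => ⟨e, ?_⟩⟩
  · simpa using hxy
  · refine subset_clS _ ⟨i.succ.succ, ?_⟩
    simp
end MP35
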