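import Pool.Agent.Lib_MP_3538b5_al.RDefs

/-! # Piece RCLOSED: closed conditions on group elements -/

set_option autoImplicit false

namespace MP35

universe u v w

variable {p : ℕ} {G : Type u} [Group G] [TopologicalSpace G] {T : Type v} [CommRing T]
  [TopologicalSpace T] {Ω : Type v} [Field Ω] [Algebra T Ω] {n : ℕ}

/-- PROOF. Let `W₀` be the `T`-submodule of `W` generated by the `b x y`, `x, y ∈ R.A` (finite: `R.A` is a finite module; it is the range of `TensorProduct.lift b`), with the module topology. `(x, y) ↦ b x y ∈ W₀` is continuous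
(`IsModuleTopology.continuous_bilinear_of_finite_left`), `Q ⊓ W₀` is a submodule of a finite module, so closed (`isClosed_submodule`), and `g ↦ (R.j g, R.j g⁻¹)` is continuous. -/
theorem Rep.isClosed_bilin [IsTopologicalGroup G] [CNR T] (R : Rep p G T Ω n) {W : Type w}
    [AddCommGroup W] [Module T W] (b : R.A →ₗ[T] R.A →ₗ[T] W) (Q : Submodule T W) :
    IsClosed {g : G | b (R.j g) (R.j g⁻¹) ∈ Q} := by
  let W₀ : Submodule T W := LinearMap.range (TensorProduct.lift b)
  have : Module.Finite T W₀ := Module.Finite.range _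
  let _ : TopologicalSpace W₀ := moduleTopology T W₀
  have : IsModuleTopology T W₀ := ⟨rfl⟩
  have hmem : ∀ x y : R.A, b x y ∈ W₀ := fun x y => ⟨x ⊗ₜ y, TensorProduct.lift.tmul x y⟩
  let b' : R.A →ₗ[T] R.A →ₗ[T] W₀ := LinearMap.mk₂ T (fun x y => ⟨b x y, hmem x y⟩)
    (fun x y z => Subtype.ext (by simp)) (fun c x y => Subtype.ext (by simp))
    (fun x y z => Subtype.ext (by simp)) (fun c x y => Subtype.ext (by simp))
  have hc : Continuous (fun ab : R.A × R.A => b' ab.1 ab.2) :=
    IsModuleTopology.continuous_bilinear_of_finite_left b'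
  have hcl : IsClosed ((Q.comap W₀.subtype : Submodule T W₀) : Set W₀) := isClosed_submodule _
  have hj : Continuous fun g : G => ((R.j g, R.j g⁻¹) : R.A × R.A) :=
    R.cont_j.prodMk (R.cont_j.comp continuous_inv)
  exact hcl.preimage (hc.comp hj)

/-- PROOF. `Rep.isClosed_bilin` for `b x y = LinearMap.mulLeftRight Ω (x, y)` minus `1`: apply it to `W` the `T`-module of endomorphisms and the bilinear map
`b x y = mulLeftRight (x, y) - x y`-part...: simplest: `Ad g - 1 ∈ Q` iff the pair is in a coset; use the bilinear map `b x y := mulLeftRight Ω (x, y) - mulLeftRight Ω (x * y, 1)`; for `x = ρ g`, `y = ρ g⁻¹` the second term is `1`. -/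
theorem Rep.isClosed_Ad [IsTopologicalGroup G] [CNR T] (R : Rep p G T Ω n)
    (Q : AddSubgroup (Module.End Ω (Matrix (Fin n) (Fin n) Ω)))
    (hQ : ∀ (t : T), ∀ y ∈ Q, algebraMap T Ω t • y ∈ Q) :
    IsClosed {g : G | R.Ad g - 1 ∈ Q} := by
  let M := Matrix (Fin n) (Fin n) Ω
  let Q' : Submodule T (Module.End Ω M) :=
    { Q with
      smul_mem' := fun t y hy => by
        have h := hQ t y hy
        rw [algebraMap_smul] at h
        exact h }
  have hadd : ∀ x₁ x₂ y : M, LinearMap.mulLeftRight Ω (x₁ + x₂, y) =
      LinearMap.mulLeftRight Ω (x₁, y) + LinearMap.mulLeftRight Ω (x₂, y) := by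
    intro x₁ x₂ y
    ext1
    simp [LinearMap.mulLeftRight_apply, add_mul]
  let b : R.A →ₗ[T] R.A →ₗ[T] Module.End Ω M := LinearMap.mk₂ T
    (fun x y => LinearMap.mulLeftRight Ω ((x : M), (y : M))
      - LinearMap.mulLeftRight Ω ((x : M) * (y : M), (1 : M)))
    (fun x x' y => by
      ext1 z
      simp only [LinearMap.sub_apply, LinearMap.add_apply, LinearMap.mulLeftRight_apply,
        Subalgebra.coe_add]
      noncomm_ring)
    (fun c x y => by
      ext1 z
      simp only [LinearMap.sub_apply, LinearMap.smul_apply, LinearMap.mulLeftRight_apply,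
        Subalgebra.coe_smul, smul_mul_assoc, smul_sub])
    (fun x y y' => by
      ext1 z
      simp only [LinearMap.sub_apply, LinearMap.add_apply, LinearMap.mulLeftRight_apply,
        Subalgebra.coe_add]
      noncomm_ring)
    (fun c x y => by
      ext1 z
      simp only [LinearMap.sub_apply, LinearMap.smul_apply, LinearMap.mulLeftRight_apply,
        Subalgebra.coe_smul, mul_smul_comm, smul_mul_assoc, smul_sub])
  have hb : ∀ g : G, b (R.j g) (R.j g⁻¹) = R.Ad g - 1 := by
    intro g
    have h1 : R.ρ g * R.ρ g⁻¹ = 1 := by rw [← map_mul, mul_inv_cancel, map_one]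
    change LinearMap.mulLeftRight Ω (R.ρ g, R.ρ g⁻¹)
      - LinearMap.mulLeftRight Ω (R.ρ g * R.ρ g⁻¹, (1 : M)) = R.Ad g - 1
    rw [h1]
    congr 1
    ext1 z
    simp [LinearMap.mulLeftRight_apply]
  have h := R.isClosed_bilin b Q'
  simp only [hb] at h
  exact h

/-- PROOF. Let `M ≤ (Fin n → Ω)` be the `T`-submodule generated by the vectors `a e_i`, `a ∈ R.A`, `e_i` the standard basis (finite over `T`), and `N₀ ≤ Ω` the `T`-submodule generated by the determinants of `n` vectors of `M` (finite). For
`m : Fin n → M` the map `det (m)` is `T`-multilinear, so continuous `M ^ n → N₀` for the module topologies (a multilinear map on finite modules is continuous: write the arguments through `T ^ r → M`, or: `det` is a polynomial with coefficients in `N₀` in the coordinates). So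
`g ↦ det (ρ g) = det (ρ g e_1, …, ρ g e_n) ∈ N₀` is continuous and `{det = 1}` is closed (`N₀` is Hausdorff). Alternative: expand `det (ρ g) = Σ_σ ± Π_i (ρ g) (σ i) i` with the entries in the finite `T`-algebra... (if the entries of `R.A` are integral; in general use `M`). -/
theorem Rep.isClosed_det [IsTopologicalGroup G] [CNR T] (R : Rep p G T Ω n) :
    IsClosed {g : G | (R.ρ g).det = 1} := by
  classical
  obtain ⟨r, f, hf⟩ := Module.Finite.exists_fin' T R.A
  have hq := IsModuleTopology.isQuotientMap_of_surjective hf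
  -- the generators
  let a : Fin r → Matrix (Fin n) (Fin n) Ω := fun i => ((f (Pi.single i 1) : R.A) : Matrix (Fin n) (Fin n) Ω)
  have hfa : ∀ c : Fin r → T, ((f c : R.A) : Matrix (Fin n) (Fin n) Ω) = ∑ i, algebraMap T Ω (c i) • a i := by
    intro c
    have h1 : c = ∑ i, c i • (Pi.single i 1 : Fin r → T) := by
      ext k
      simp [Finset.sum_apply, Pi.single_apply]
    conv_lhs => rw [h1, map_sum]
    rw [AddSubmonoidClass.coe_finsetSum]
    refine Finset.sum_congr rfl fun i _ => ?_
    rw [map_smul, Subalgebra.coe_smul, algebraMap_smul]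
  let d : (Fin n → Fin r) → Ω := fun φ => Matrix.det (Matrix.of fun k => a (φ k) k)
  have hdet : ∀ c : Fin r → T, ((f c : R.A) : Matrix (Fin n) (Fin n) Ω).det
      = ∑ φ : Fin n → Fin r, (∏ k, c (φ k)) • d φ := by
    intro c
    have h1 : ((f c : R.A) : Matrix (Fin n) (Fin n) Ω).det = Matrix.detRowAlternating
        (fun k => ∑ i, algebraMap T Ω (c i) • a i k) := by
      rw [hfa]
      change Matrix.detRowAlternating _ = _
      congr 1
      ext k l
      rw [Matrix.sum_apply, Finset.sum_apply]
      rfl
    rw [h1, ← AlternatingMap.coe_multilinearMap, MultilinearMap.map_sum]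
    refine Finset.sum_congr rfl fun φ _ => ?_
    rw [MultilinearMap.map_smul_univ, ← map_prod, algebraMap_smul]
    rfl
  let N₀ : Submodule T Ω := Submodule.span T (Set.range d)
  have : Module.Finite T N₀ := Module.Finite.span_of_finite T (Set.finite_range d)
  let _ : TopologicalSpace N₀ := moduleTopology T N₀
  have : IsModuleTopology T N₀ := ⟨rfl⟩
  have : T2Space N₀ := t2_of_finite T N₀
  have : ContinuousSMul T N₀ := IsModuleTopology.toContinuousSMul T N₀
  have : ContinuousAdd N₀ := IsModuleTopology.toContinuousAdd T N₀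
  let D : (Fin r → T) → N₀ := fun c => ∑ φ : Fin n → Fin r, (∏ k, c (φ k)) •
    (⟨d φ, Submodule.subset_span ⟨φ, rfl⟩⟩ : N₀)
  have hD : Continuous D := by
    refine continuous_finsetSum _ fun φ _ => ?_
    exact (continuous_finsetProd _ fun k _ => continuous_apply (φ k)).fun_smul continuous_const
  have hDc : ∀ c, ((D c : N₀) : Ω) = ((f c : R.A) : Matrix (Fin n) (Fin n) Ω).det := by
    intro c
    rw [hdet, AddSubmonoidClass.coe_finsetSum]
    rfl
  have hcl : IsClosed {y : N₀ | (y : Ω) = 1} := by
    refine Set.Subsingleton.isClosed ?_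
    intro y hy z hz
    exact Subtype.ext (Eq.trans hy (Eq.symm hz))
  have hA : IsClosed {x : R.A | (x : Matrix (Fin n) (Fin n) Ω).det = 1} := by
    rw [← hq.isClosed_preimage]
    have h2 : f ⁻¹' {x : R.A | (x : Matrix (Fin n) (Fin n) Ω).det = 1} = D ⁻¹' {y : N₀ | (y : Ω) = 1} := by
      ext c
      simp only [Set.mem_preimage, Set.mem_ofPred_eq]
      rw [hDc]
    rw [h2]
    exact hcl.preimage hD
  exact hA.preimage R.cont_j

end MP35
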