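import Pool.Agent.Lib_MP_3538b5_al.GFree

/-!
# Commuting elements, torsion, normal subgroups of projective pro-p groups, general p
-/

set_option autoImplicit false

namespace MP35

universe u v w

open scoped commutatorElement

/-! ## The Heisenberg group -/

/-- the Heisenberg group modulo `p` -/
@[ext] structure Hei (p : ℕ) where
  x : ZMod p
  y : ZMod p
  z : ZMod p

namespace Hei

variable {p : ℕ}

instance : Group (Hei p) where
  mul a b := ⟨a.x + b.x, a.y + b.y, a.z + b.z + a.x * b.y⟩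
  one := ⟨0, 0, 0⟩
  inv a := ⟨-a.x, -a.y, -a.z + a.x * a.y⟩
  mul_assoc a b c := by
    refine Hei.ext ?_ ?_ ?_
    · exact add_assoc _ _ _
    · exact add_assoc _ _ _
    · show a.z + b.z + a.x * b.y + c.z + (a.x + b.x) * c.y =
        a.z + (b.z + c.z + b.x * c.y) + a.x * (b.y + c.y)
      ring
  one_mul a := by
    refine Hei.ext (zero_add _) (zero_add _) ?_
    show 0 + a.z + 0 * a.y = a.z
    ring
  mul_one a := by
    refine Hei.ext (add_zero _) (add_zero _) ?_
    show a.z + 0 + a.x * 0 = a.z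
    ring
  inv_mul_cancel a := by
    refine Hei.ext (neg_add_cancel _) (neg_add_cancel _) ?_
    show -a.z + a.x * a.y + a.z + -a.x * a.y = 0
    ring

theorem mul_x (a b : Hei p) : (a * b).x = a.x + b.x := rfl

theorem mul_y (a b : Hei p) : (a * b).y = a.y + b.y := rfl

theorem mul_z (a b : Hei p) : (a * b).z = a.z + b.z + a.x * b.y := rfl

theorem one_x : (1 : Hei p).x = 0 := rfl

theorem one_y : (1 : Hei p).y = 0 := rfl

theorem one_z : (1 : Hei p).z = 0 := rfl

/-- as a set -/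
def equiv (p : ℕ) : Hei p ≃ ZMod p × ZMod p × ZMod p where
  toFun a := (a.x, a.y, a.z)
  invFun a := ⟨a.1, a.2.1, a.2.2⟩
  left_inv _ := rfl
  right_inv _ := rfl

instance [NeZero p] : Finite (Hei p) := Finite.of_equiv _ (equiv p).symm

theorem isPGroup (p : ℕ) [hp : Fact p.Prime] : IsPGroup p (Hei p) := by
  apply IsPGroup.of_card (n := 3)
  rw [Nat.card_congr (equiv p), Nat.card_prod, Nat.card_prod, Nat.card_zmod]
  ring

theorem pow_xy (a : Hei p) (n : ℕ) : (a ^ n).x = n * a.x ∧ (a ^ n).y = n * a.y := by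
  induction n with
  | zero => simp [one_x, one_y]
  | succ n ih =>
    rw [pow_succ, mul_x, mul_y, ih.1, ih.2]
    push_cast
    exact ⟨by ring, by ring⟩

theorem pow_z (a : Hei p) (h : a.x = 0) (n : ℕ) : (a ^ n).z = n * a.z := by
  induction n with
  | zero => simp [one_z]
  | succ n ih =>
    rw [pow_succ, mul_z, ih, (pow_xy a n).1, h]
    push_cast
    ring

theorem pow_pp (a : Hei p) : a ^ p ^ 2 = 1 := by
  rw [pow_two, pow_mul]
  have h := pow_xy a p
  rw [CharP.cast_eq_zero, zero_mul, zero_mul] at h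
  have h2 := pow_xy (a ^ p) p
  rw [CharP.cast_eq_zero, zero_mul, zero_mul] at h2
  refine Hei.ext h2.1 h2.2 ?_
  rw [pow_z _ h.1, CharP.cast_eq_zero, zero_mul]
  rfl

/-- two elements which do not commute -/
theorem noncomm (p : ℕ) [hp : Fact p.Prime] :
    (⟨1, 0, 0⟩ : Hei p) * ⟨0, 1, 0⟩ ≠ ⟨0, 1, 0⟩ * ⟨1, 0, 0⟩ := by
  intro h
  have h1 := congrArg Hei.z h
  rw [mul_z, mul_z] at h1
  simp at h1

end Hei

section

variable {p : ℕ} [hp : Fact p.Prime] {G : Type u} [Group G] [TopologicalSpace G]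
  [IsTopologicalGroup G] [CompactSpace G] [T2Space G] [TotallyDisconnectedSpace G]

omit [IsTopologicalGroup G] [CompactSpace G] [TotallyDisconnectedSpace G] in
/-- no elements of order `p` -/
theorem eq_one_of_pow_p (hL : LiftP p G) {g : G} (hg : g ^ p = 1) : g = 1 := by
  by_contra hne
  have ho : orderOf g = p := orderOf_eq_prime hg hne
  have hfin : Finite (Subgroup.zpowers g) := by
    rw [← Nat.card_pos_iff.trans (and_iff_right (⟨1⟩ : Nonempty (Subgroup.zpowers g))),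
      Nat.card_zpowers, ho]
    exact hp.out.pos
  have hfin' : ((Subgroup.zpowers g : Subgroup G) : Set G).Finite := Set.toFinite _
  have hcard : Nat.card (Subgroup.zpowers g) = p := by rw [Nat.card_zpowers, ho]
  have hcard2 : Nat.card (Multiplicative (ZMod p)) = p := by
    rw [Nat.card_congr (Multiplicative.toAdd (α := ZMod p)), Nat.card_zmod]
  let e : Subgroup.zpowers g ≃* Multiplicative (ZMod p) := mulEquivOfPrimeCardEq hcard hcard2
  have hdis : DiscreteTopology (Subgroup.zpowers g) := inferInstance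
  have hdvd : p ∣ p ^ 2 := dvd_pow_self p two_ne_zero
  have hne2 : NeZero (p ^ 2) := ⟨pow_ne_zero _ hp.out.ne_zero⟩
  let π : Multiplicative (ZMod (p ^ 2)) →* Multiplicative (ZMod p) :=
    (ZMod.castHom hdvd (ZMod p)).toAddMonoidHom.toMultiplicative
  have hsurj : Function.Surjective π := by
    intro a
    obtain ⟨b, hb⟩ := ZMod.castHom_surjective hdvd (Multiplicative.toAdd a)
    exact ⟨Multiplicative.ofAdd b, by
      show Multiplicative.ofAdd (ZMod.castHom hdvd (ZMod p) b) = a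
      rw [hb]; rfl⟩
  have hpB : IsPGroup p (Multiplicative (ZMod (p ^ 2))) := by
    apply IsPGroup.of_card (n := 2)
    rw [Nat.card_congr (Multiplicative.toAdd (α := ZMod (p ^ 2))), Nat.card_zmod]
  have hfinB : Finite (Multiplicative (ZMod (p ^ 2))) := inferInstance
  obtain ⟨β, -, hβ⟩ := hL (Subgroup.zpowers g) hfin'.isClosed (Multiplicative (ZMod p))
    (Multiplicative (ZMod (p ^ 2))) hpB π hsurj e.toMonoidHom (isOpen_discrete _)
  let g' : Subgroup.zpowers g := ⟨g, Subgroup.mem_zpowers g⟩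
  have h1 : β g' ^ p = 1 := by
    rw [← map_pow]
    have : g' ^ p = 1 := Subtype.ext hg
    rw [this, map_one]
  have h2 : (p : ZMod (p ^ 2)) * (β g').toAdd = 0 := by
    have h3 := congrArg Multiplicative.toAdd h1
    rw [toAdd_pow, toAdd_one, nsmul_eq_mul] at h3
    exact h3
  have h4 : π (β g') = 1 := by
    show Multiplicative.ofAdd (ZMod.castHom hdvd (ZMod p) (β g').toAdd) = Multiplicative.ofAdd 0
    congr 1
    obtain ⟨k, hk⟩ := ZMod.natCast_zmod_surjective (β g').toAdd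
    rw [← hk] at h2 ⊢
    rw [map_natCast, ZMod.natCast_eq_zero_iff]
    rw [← Nat.cast_mul, ZMod.natCast_eq_zero_iff, pow_two] at h2
    exact Nat.dvd_of_mul_dvd_mul_left hp.out.pos h2
  rw [hβ g'] at h4
  have h5 : e g' = 1 := h4
  rw [map_eq_one_iff e e.injective] at h5
  exact hne (congrArg Subtype.val h5)

/-- torsion free -/
theorem eq_one_of_pow (hP : ProP p G) (hL : LiftP p G) {g : G} {n : ℕ} (hn : n ≠ 0)
    (hg : g ^ n = 1) : g = 1 := by
  have key : ∀ k : ℕ, ∀ x : G, x ^ p ^ k = 1 → x = 1 := by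
    intro k
    induction k with
    | zero => intro x hx; rwa [pow_zero, pow_one] at hx
    | succ k ih =>
      intro x hx
      rw [pow_succ, pow_mul] at hx
      exact ih x (eq_one_of_pow_p hL hx)
  obtain ⟨k, m, hm, hnm⟩ := Nat.exists_eq_pow_mul_and_not_dvd hn p hp.out.ne_one
  rw [hnm, mul_comm, pow_mul] at hg
  have h1 := key k _ hg
  by_contra hne
  obtain ⟨U, hU⟩ := ProfiniteGrp.exist_openNormalSubgroup_sub_open_nhds_of_one
    (isOpen_compl_singleton : IsOpen ({g}ᶜ : Set G)) (by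
      intro h1
      exact hne (Set.mem_singleton_iff.mp h1).symm)
  have hgU : g ∉ U.toSubgroup := fun hm => hU hm rfl
  obtain ⟨s, hs⟩ := hP U.toSubgroup U.isNormal' U.isOpen' g
  apply hgU
  have hco : Nat.Coprime m (p ^ s) := Nat.Coprime.pow_right _
    ((Nat.Prime.coprime_iff_not_dvd hp.out).2 hm).symm
  have hz : ((m : ℤ) * Nat.gcdA m (p ^ s) + ((p ^ s : ℕ) : ℤ) * Nat.gcdB m (p ^ s)) = 1 := by
    have := Nat.gcd_eq_gcd_ab m (p ^ s)
    rw [hco.gcd_eq_one] at this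
    exact_mod_cast this.symm
  have h3 : g = (g ^ m) ^ (Nat.gcdA m (p ^ s)) * (g ^ p ^ s) ^ (Nat.gcdB m (p ^ s)) := by
    rw [← zpow_natCast g m, ← zpow_natCast g (p ^ s), ← zpow_mul, ← zpow_mul, ← zpow_add, hz,
      zpow_one]
  rw [h3, h1, one_zpow, one_mul]
  exact Subgroup.zpow_mem _ hs _

/-- commuting elements lie in a procyclic subgroup -/
theorem commute_cyc' (hP : ProP p G) (hL : LiftP p G) {g h : G} (hgh : g * h = h * g) :
    h ∈ cl g ∨ g ∈ cl h := by
  by_contra hcon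
  push Not at hcon
  obtain ⟨hn1, hn2⟩ := hcon
  obtain ⟨β, -, h1, h2⟩ := free2 hP hL hn1 hn2 (Hei p) (Hei.isPGroup p) ⟨1, 0, 0⟩ ⟨0, 1, 0⟩
  apply Hei.noncomm p
  rw [← h1, ← h2, ← map_mul, ← map_mul]
  congr 1
  exact Subtype.ext hgh

/-- elements of procyclic subgroups are detected by characters with values in `Z/p^m` -/
theorem detect' (hP : ProP p G) (K : Subgroup G) {k z : G} (hk : k ∈ K)
    (hz : z ∈ K) (hzk : z ∈ cl k)
    (h : ∀ m : ℕ, ∃ β : K →* Multiplicative (ZMod (p ^ m)), OpenKer β ∧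
      β ⟨k, hk⟩ = Multiplicative.ofAdd 1 ∧ β ⟨z, hz⟩ = 1) : z = 1 := by
  by_contra hz1
  obtain ⟨U, hU⟩ := ProfiniteGrp.exist_openNormalSubgroup_sub_open_nhds_of_one
    (isOpen_compl_singleton : IsOpen ({z}ᶜ : Set G)) (by
      intro h1
      exact hz1 (Set.mem_singleton_iff.mp h1).symm)
  have hzU : z ∉ U.toSubgroup := fun hm => hU hm rfl
  obtain ⟨s, hs⟩ := hP U.toSubgroup U.isNormal' U.isOpen' k
  obtain ⟨β, hβ, hβk, hβz⟩ := h s
  obtain ⟨V, hV, hVK⟩ := isOpen_induced_iff.mp hβ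
  have hker : ∀ x : K, (x : G) ∈ V ↔ β x = 1 := by
    intro x
    have h1 : x ∈ (Subtype.val ⁻¹' V : Set K) ↔ x ∈ (β.ker : Set K) := by rw [hVK]
    rw [Set.mem_preimage, SetLike.mem_coe, MonoidHom.mem_ker] at h1
    exact h1
  have h1V : (1 : G) ∈ V := by
    have h1 := (hker 1).mpr (map_one β)
    rwa [Subgroup.coe_one] at h1
  have hzc : z ∈ closure ((Subgroup.zpowers k : Subgroup G) : Set G) := hzk
  rw [mem_closure_iff] at hzc
  have hop : IsOpen ((fun g : G => z⁻¹ * g) ⁻¹' ((U.toSubgroup : Set G) ∩ V)) :=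
    (U.isOpen'.inter hV).preimage (continuous_const_mul z⁻¹)
  have hzin : z ∈ ((fun g : G => z⁻¹ * g) ⁻¹' ((U.toSubgroup : Set G) ∩ V)) := by
    show z⁻¹ * z ∈ (U.toSubgroup : Set G) ∩ V
    rw [inv_mul_cancel]
    exact ⟨U.toSubgroup.one_mem, h1V⟩
  obtain ⟨y, hy1, hy2⟩ := hzc _ hop hzin
  obtain ⟨r, rfl⟩ := Subgroup.mem_zpowers_iff.mp hy2
  have hyU : z⁻¹ * k ^ r ∈ U.toSubgroup := hy1.1
  have hyV : z⁻¹ * k ^ r ∈ V := hy1.2
  have hβ1 : β ((⟨z, hz⟩ : K)⁻¹ * (⟨k, hk⟩ : K) ^ r) = 1 := by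
    refine (hker _).mp ?_
    rw [Subgroup.coe_mul, Subgroup.coe_inv, Subgroup.coe_zpow]
    exact hyV
  rw [map_mul, map_inv, map_zpow, hβz, hβk, inv_one, one_mul] at hβ1
  have hr : ((r : ℤ) : ZMod (p ^ s)) = 0 := by
    have h2 := congrArg Multiplicative.toAdd hβ1
    rw [toAdd_zpow, toAdd_ofAdd, toAdd_one, zsmul_one] at h2
    exact h2
  rw [ZMod.intCast_zmod_eq_zero_iff_dvd] at hr
  obtain ⟨q, hq⟩ := hr
  have hkr : k ^ r ∈ U.toSubgroup := by
    rw [hq, zpow_mul]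
    refine U.toSubgroup.zpow_mem ?_ q
    rw [zpow_natCast]
    exact hs
  apply hzU
  have h3 : z = k ^ r * (z⁻¹ * k ^ r)⁻¹ := by group
  rw [h3]
  exact U.toSubgroup.mul_mem hkr (U.toSubgroup.inv_mem hyU)

/-- the coordinate with respect to `k`, `l` -/
theorem exists_coord' (hP : ProP p G) (hL : LiftP p G) {k l : G} (hkl : k * l ≠ l * k) (m : ℕ) :
    ∃ β : cl2 k l →* Multiplicative (ZMod (p ^ m)), OpenKer β ∧
      β ⟨k, left_mem_cl2 k l⟩ = Multiplicative.ofAdd 1 ∧ β ⟨l, right_mem_cl2 k l⟩ = 1 := by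
  have hne2 : NeZero (p ^ m) := ⟨pow_ne_zero _ hp.out.ne_zero⟩
  have hpB : IsPGroup p (Multiplicative (ZMod (p ^ m))) := by
    apply IsPGroup.of_card (n := m)
    rw [Nat.card_congr (Multiplicative.toAdd (α := ZMod (p ^ m))), Nat.card_zmod]
  exact free2_of_ne hP hL hkl _ hpB _ _

/-- non-commuting elements: the procyclic groups intersect trivially -/
theorem cl_inter' (hP : ProP p G) (hL : LiftP p G) {k l z : G} (hz : z ≠ 1) (hk : z ∈ cl k)
    (hl : z ∈ cl l) : k * l = l * k := by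
  by_contra hkl
  apply hz
  have hK : IsClosed ((cl2 k l : Subgroup G) : Set G) := isClosed_cl2 k l
  have hzK : z ∈ cl2 k l := cl_le_cl2 k l hk
  refine detect' hP (cl2 k l) (left_mem_cl2 k l) hzK hk fun m => ?_
  obtain ⟨β, hβ, h1, h2⟩ := exists_coord' hP hL hkl m
  exact ⟨β, hβ, h1, eq_one_of_mem_cl' hK β hβ (right_mem_cl2 k l) hzK h2 hl⟩

/-- commutation is transitive -/
theorem comm_trans' (hP : ProP p G) (hL : LiftP p G) {x y z : G} (hy : y ≠ 1)
    (h1 : x * y = y * x) (h2 : y * z = z * y) : x * z = z * x := by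
  rcases commute_cyc' hP hL h1 with h | h
  · rcases commute_cyc' hP hL h2 with h' | h'
    · -- y ∈ cl x, z ∈ cl y
      exact cl_comm_elem h' h1
    · -- y ∈ cl x, y ∈ cl z
      exact cl_inter' hP hL hy h h'
  · -- x ∈ cl y
    exact (cl_comm_elem h h2.symm).symm

/-- commuting nontrivial normal subgroups -/
theorem normal_comm' (hP : ProP p G) (hL : LiftP p G) (M N : Subgroup G) (hM : M.Normal)
    (hM1 : M ≠ ⊥) (hN1 : N ≠ ⊥) (h : ∀ x ∈ M, ∀ y ∈ N, x * y = y * x) :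
    ∀ x y : G, x * y = y * x := by
  obtain ⟨m, hm, hm1⟩ : ∃ m ∈ M, m ≠ 1 := by
    obtain ⟨a, ha⟩ := Subgroup.ne_bot_iff_exists_ne_one.1 hM1
    exact ⟨a.1, a.2, fun h => ha (Subtype.ext h)⟩
  obtain ⟨n, hn, hn1⟩ : ∃ n ∈ N, n ≠ 1 := by
    obtain ⟨a, ha⟩ := Subgroup.ne_bot_iff_exists_ne_one.1 hN1
    exact ⟨a.1, a.2, fun h => ha (Subtype.ext h)⟩
  have hMc : ∀ x ∈ M, ∀ y ∈ M, x * y = y * x := fun x hx y hy =>
    comm_trans' hP hL hn1 (h x hx n hn) (h y hy n hn).symm
  have claim : ∀ g : G, g * m * g⁻¹ ∈ cl m → g * m = m * g := by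
    intro g hg
    by_contra hne
    have hne' : m * g ≠ g * m := fun e => hne e.symm
    have hc : g * m * g⁻¹ * m⁻¹ ∈ cl m := (cl m).mul_mem hg ((cl m).inv_mem (mem_cl_self' m))
    have hmK : m ∈ cl2 m g := left_mem_cl2 m g
    have hgK : g ∈ cl2 m g := right_mem_cl2 m g
    have hcK : g * m * g⁻¹ * m⁻¹ ∈ cl2 m g := cl_le_cl2 m g hc
    have h1 : g * m * g⁻¹ * m⁻¹ = 1 := by
      refine detect' hP (cl2 m g) hmK hcK hc fun k => ?_
      obtain ⟨β, hβ, h1, -⟩ := exists_coord' hP hL hne' k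
      refine ⟨β, hβ, h1, ?_⟩
      have e : (⟨g * m * g⁻¹ * m⁻¹, hcK⟩ : cl2 m g) =
          ⟨g, hgK⟩ * ⟨m, hmK⟩ * (⟨g, hgK⟩ : cl2 m g)⁻¹ * (⟨m, hmK⟩ : cl2 m g)⁻¹ := rfl
      rw [e, map_mul, map_mul, map_mul, map_inv, map_inv]
      rw [mul_comm (β ⟨g, hgK⟩) (β ⟨m, hmK⟩)]
      group
    apply hne
    have h2 : g * m * g⁻¹ = m := mul_inv_eq_one.1 h1
    calc g * m = g * m * g⁻¹ * g := by group
      _ = m * g := by rw [h2]
  have hcent : ∀ g : G, g * m = m * g := by
    intro g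
    have hm' : g * m * g⁻¹ ∈ M := hM.conj_mem m hm g
    rcases commute_cyc' hP hL (hMc m hm _ hm') with h1 | h1
    · exact claim g h1
    · have hcl : IsClosed (((cl m).comap (MulAut.conj g⁻¹).toMonoidHom : Subgroup G) : Set G) := by
        have : (((cl m).comap (MulAut.conj g⁻¹).toMonoidHom : Subgroup G) : Set G) =
            (fun x => g⁻¹ * x * g) ⁻¹' ((cl m : Subgroup G) : Set G) := by
          ext x
          simp [MulAut.conj_apply]
        rw [this]
        exact (Subgroup.isClosed_topologicalClosure _).preimage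
          ((continuous_const.mul continuous_id).mul continuous_const)
      have hmem : g * m * g⁻¹ ∈ (cl m).comap (MulAut.conj g⁻¹).toMonoidHom := by
        rw [Subgroup.mem_comap]
        have : (MulAut.conj g⁻¹).toMonoidHom (g * m * g⁻¹) = m := by
          simp [MulAut.conj_apply, mul_assoc]
        rw [this]
        exact mem_cl_self' m
      have h2 := cl_le hcl hmem h1
      rw [Subgroup.mem_comap] at h2
      have h3 : g⁻¹ * m * (g⁻¹)⁻¹ ∈ cl m := by
        simpa [MulAut.conj_apply] using h2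
      have h4 := claim g⁻¹ h3
      calc g * m = g * (m * g⁻¹) * g := by group
        _ = g * (g⁻¹ * m) * g := by rw [h4]
        _ = m * g := by group
  intro x y
  exact comm_trans' hP hL hm1 (hcent x) (hcent y).symm

/-- nontrivial normal subgroups of a noncommutative group meet -/
theorem normal_inter (hP : ProP p G) (hL : LiftP p G) (M N : Subgroup G) (hM : M.Normal)
    (hN : N.Normal) (hM1 : M ≠ ⊥) (hN1 : N ≠ ⊥) (hG : ∃ x y : G, x * y ≠ y * x) : M ⊓ N ≠ ⊥ := by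
  intro hbot
  obtain ⟨x, y, hxy⟩ := hG
  apply hxy
  refine normal_comm' hP hL M N hM hM1 hN1 ?_ x y
  intro a ha b hb
  have h1 : a * b * a⁻¹ * b⁻¹ ∈ M ⊓ N := by
    refine ⟨?_, ?_⟩
    · have h2 := hM.conj_mem _ (M.inv_mem ha) b
      have h3 : a * b * a⁻¹ * b⁻¹ = a * (b * a⁻¹ * b⁻¹) := by group
      rw [h3]
      exact M.mul_mem ha h2
    · have h2 := hN.conj_mem b hb a
      exact N.mul_mem h2 (N.inv_mem hb)
  rw [hbot, Subgroup.mem_bot] at h1
  calc a * b = a * b * a⁻¹ * b⁻¹ * (b * a) := by group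
    _ = b * a := by rw [h1, one_mul]

/-- a nontrivial normal subgroup of a noncommutative group is not commutative -/
theorem normal_noncomm (hP : ProP p G) (hL : LiftP p G) (M : Subgroup G) (hM : M.Normal)
    (hM1 : M ≠ ⊥) (hG : ∃ x y : G, x * y ≠ y * x) : ∃ x ∈ M, ∃ y ∈ M, x * y ≠ y * x := by
  by_contra hcon
  push Not at hcon
  obtain ⟨x, y, hxy⟩ := hG
  exact hxy (normal_comm' hP hL M M hM hM1 hM1 hcon x y)

/-- the commutator subgroup of a noncommutative group is not commutative -/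
theorem commutator_noncomm (hP : ProP p G) (hL : LiftP p G) (hG : ∃ x y : G, x * y ≠ y * x) :
    ∃ x ∈ commutator G, ∃ y ∈ commutator G, x * y ≠ y * x := by
  refine normal_noncomm hP hL (commutator G) inferInstance ?_ hG
  intro hb
  obtain ⟨x, y, hxy⟩ := hG
  have : ⁅x, y⁆ ∈ commutator G :=
    Subgroup.commutator_mem_commutator (Subgroup.mem_top x) (Subgroup.mem_top y)
  rw [hb, Subgroup.mem_bot] at this
  exact hxy (commutatorElement_eq_one_iff_mul_comm.1 this)

/-- a noncommutative group has a homomorphism with open kernel onto the Heisenberg group -/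
theorem exists_hei (hP : ProP p G) (hL : LiftP p G) (hG : ∃ x y : G, x * y ≠ y * x) :
    ∃ β : G →* Hei p, OpenKer β ∧ ∃ x y, β x * β y ≠ β y * β x := by
  obtain ⟨a, b, hab⟩ := hG
  have hbot : (⊥ : Subgroup G) ≠ ⊤ := by
    intro h
    apply hab
    have h1 : a ∈ (⊥ : Subgroup G) := by rw [h]; exact Subgroup.mem_top _
    rw [Subgroup.mem_bot.1 h1, one_mul, mul_one]
  obtain ⟨χ1, ho1, -, c, hc⟩ := exists_char hP ⊥ (by
    rw [Subgroup.coe_bot]
    exact isClosed_singleton) hbot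
  have hclne : cl c ≠ ⊤ := by
    intro h
    apply hab
    have h1 : a ∈ cl c := by rw [h]; exact Subgroup.mem_top _
    have h2 : b ∈ cl c := by rw [h]; exact Subgroup.mem_top _
    exact cl_comm_self h1 h2
  obtain ⟨χ2, ho2, h2, g, hg⟩ := exists_char hP (cl c) (isClosed_cl c) hclne
  let A : Type := Multiplicative (ZMod p × ZMod p)
  let α : G →* A := MonoidHom.mk'
    (fun x => Multiplicative.ofAdd ((χ1 x).toAdd, (χ2 x).toAdd)) (by
      intro x y
      rw [χ1.map_mul, χ2.map_mul, toAdd_mul, toAdd_mul]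
      rfl)
  have hα : OpenKer α := by
    refine Subgroup.isOpen_mono (H₁ := χ1.ker ⊓ χ2.ker) ?_ (ho1.inter ho2)
    rintro x ⟨hx1, hx2⟩
    have hx1' : χ1 x = 1 := hx1
    have hx2' : χ2 x = 1 := hx2
    rw [MonoidHom.mem_ker]
    show Multiplicative.ofAdd ((χ1 x).toAdd, (χ2 x).toAdd) = Multiplicative.ofAdd (0, 0)
    rw [hx1', hx2']
    rfl
  let π : Hei p →* A := MonoidHom.mk' (fun q => Multiplicative.ofAdd (q.x, q.y)) (fun _ _ => rfl)
  have hπ : Function.Surjective π := fun q => ⟨⟨q.toAdd.1, q.toAdd.2, 0⟩, rfl⟩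
  let e : (⊤ : Subgroup G) ≃* G := Subgroup.topEquiv
  have hαe : OpenKer (α.comp e.toMonoidHom) := by
    have : ((α.comp e.toMonoidHom).ker : Set (⊤ : Subgroup G)) = Subtype.val ⁻¹' (α.ker : Set G) := rfl
    unfold OpenKer
    rw [this]
    exact hα.preimage continuous_subtype_val
  obtain ⟨β', hβ', hβα⟩ := hL ⊤ isClosed_univ A (Hei p) (Hei.isPGroup p) π hπ
    (α.comp e.toMonoidHom) hαe
  have hval : ∀ x : G, π (β' ⟨x, Subgroup.mem_top x⟩) = α x := fun x => hβα ⟨x, Subgroup.mem_top x⟩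
  refine ⟨β'.comp e.symm.toMonoidHom, ?_, c, g, ?_⟩
  · have : ((β'.comp e.symm.toMonoidHom).ker : Set G) =
        (fun x : G => (⟨x, Subgroup.mem_top x⟩ : (⊤ : Subgroup G))) ⁻¹' (β'.ker : Set _) := rfl
    unfold OpenKer
    rw [this]
    exact hβ'.preimage (continuous_id.subtype_mk _)
  · show β' ⟨c, Subgroup.mem_top c⟩ * β' ⟨g, Subgroup.mem_top g⟩ ≠
      β' ⟨g, Subgroup.mem_top g⟩ * β' ⟨c, Subgroup.mem_top c⟩
    have e1 := hval c
    have e2 := hval g
    generalize β' ⟨c, Subgroup.mem_top c⟩ = q1 at e1 ⊢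
    generalize β' ⟨g, Subgroup.mem_top g⟩ = q2 at e2 ⊢
    have e1' : (q1.x, q1.y) = ((χ1 c).toAdd, (χ2 c).toAdd) := e1
    have e2' : (q2.x, q2.y) = ((χ1 g).toAdd, (χ2 g).toAdd) := e2
    rw [h2 c (mem_cl_self' c)] at e1'
    rw [Prod.mk.injEq] at e1' e2'
    intro hcomm
    have hz := congrArg Hei.z hcomm
    rw [Hei.mul_z, Hei.mul_z, e1'.1, e1'.2, e2'.1, e2'.2, toAdd_one, mul_zero, add_zero,
      add_comm q2.z, add_eq_left] at hz
    rcases mul_eq_zero.1 hz with h3 | h3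
    · exact hc (toAdd_eq_zero.1 h3)
    · exact hg (toAdd_eq_zero.1 h3)

/-- the closed subgroup generated by the `p^2`-th powers does not contain all commutators -/
theorem not_powerful (hP : ProP p G) (hL : LiftP p G) {H : Subgroup G}
    (hH : IsClosed (H : Set G))
    (h : ∀ x ∈ H, ∀ y ∈ H, x * y * x⁻¹ * y⁻¹ ∈ clS {z : G | ∃ h ∈ H, z = h ^ p ^ 2}) :
    ∀ x ∈ H, ∀ y ∈ H, x * y = y * x := by
  by_contra hcon
  push Not at hcon
  obtain ⟨x0, hx0, y0, hy0, hxy0⟩ := hcon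
  have hcomp : CompactSpace H := isCompact_iff_compactSpace.1 hH.isCompact
  obtain ⟨β, hβ, x, y, hxy⟩ := exists_hei (hP.sub H) (hL.sub H hH)
    ⟨⟨x0, hx0⟩, ⟨y0, hy0⟩, fun e => hxy0 (congrArg Subtype.val e)⟩
  have hcl : IsClosed (β.ker : Set H) := Subgroup.isClosed_of_isOpen _ hβ
  have hcl2 : IsClosed ((β.ker.map H.subtype : Subgroup G) : Set G) := by
    rw [Subgroup.coe_map]
    exact hH.isClosedEmbedding_subtypeVal.isClosedMap _ hcl
  have hle : clS {z : G | ∃ h ∈ H, z = h ^ p ^ 2} ≤ β.ker.map H.subtype := by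
    refine clS_le hcl2 ?_
    rintro z ⟨g, hg, rfl⟩
    refine ⟨⟨g, hg⟩ ^ p ^ 2, ?_, rfl⟩
    have h3 : β (⟨g, hg⟩ ^ p ^ 2) = 1 := by rw [map_pow, Hei.pow_pp]
    exact h3
  obtain ⟨w, hw, hwe⟩ := hle (h x x.2 y y.2)
  have hw' : w = x * y * x⁻¹ * y⁻¹ := Subtype.ext hwe
  have hw1 : β w = 1 := hw
  rw [hw', map_mul, map_mul, map_mul, map_inv, map_inv] at hw1
  apply hxy
  calc β x * β y = (β x * β y * (β x)⁻¹ * (β y)⁻¹) * (β y * β x) := by group
    _ = β y * β x := by rw [hw1, one_mul]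

end

end MP35
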