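import Pool.Agent.Lib_MP_3538b5_al.RDefs
import Pool.Agent.Lib_MP_3538b5_al.GComm

/-! # Piece RLOC: a compact noetherian domain is local -/

set_option autoImplicit false

namespace MP35

universe u v w

section

variable {T : Type v} [CommRing T] [TopologicalSpace T] [CNR T]

/-- PROOF. Let `t` be not topologically nilpotent: there is an open ideal `I` (linear topology) with `t ^ k ∉ I` for all `k` (if some power is in `I`, all
later ones are). For every open ideal `J ≤ I` the ring `T ⧸ J` is finite (`T` compact, `J` open), so `t ^ (k !)` is idempotent modulo `J` for all large `k`, and constant modulo `J`. By compactness there is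
`e ∈ T` with, for every open ideal `J`, `e - t ^ (k !) ∈ J` for some arbitrarily large `k` (cluster point of the sequence `t ^ (k !)`), so `e * e - e` is in all open ideals, `e * e = e` (Hausdorff).
`e ∉ I`, so `e ≠ 0`, `e = 1` (domain). So for every open ideal `J` some power `t ^ k`, `k ≥ 1`, is `1` modulo `J`: `t T + J = T` for all open `J`; `t T` is closed (compact image), so `t T = T`. -/
theorem isUnit_or_tn [IsDomain T] (t : T) : IsUnit t ∨ IsTopologicallyNilpotent t := by
  -- the closed semigroup generated by `t` contains an idempotent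
  let A : Subsemigroup T :=
    { carrier := {x | ∃ k : ℕ, x = t ^ (k + 1)}
      mul_mem' := by
        rintro _ _ ⟨k, rfl⟩ ⟨l, rfl⟩
        exact ⟨k + l + 1, by rw [← pow_add]; congr 1; omega⟩ }
  obtain ⟨e, he, hee⟩ := exists_idempotent_in_compact_subsemigroup
    (fun r : T => continuous_mul_const r) (A.topologicalClosure : Set T)
    ⟨t, subset_closure ⟨0, by rw [zero_add, pow_one]⟩⟩ (isClosed_closure.isCompact)
    (fun x hx y hy => A.topologicalClosure.mul_mem hx hy)
  have he' : e ∈ closure {x | ∃ k : ℕ, x = t ^ (k + 1)} := he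
  rcases mul_eq_zero.1 (show e * (e - 1) = 0 by rw [mul_sub, hee, mul_one, sub_self]) with h0 | h1
  · right
    rw [h0] at he'
    show Filter.Tendsto (t ^ ·) Filter.atTop (nhds 0)
    rw [(IsLinearTopology.hasBasis_ideal (R := T)).tendsto_right_iff]
    intro I hI
    obtain ⟨x, hx, k, rfl⟩ := mem_closure_iff_nhds.1 he' _ hI
    filter_upwards [Filter.eventually_ge_atTop (k + 1)] with m hm
    obtain ⟨l, rfl⟩ := Nat.exists_eq_add_of_le hm
    rw [pow_add]
    exact I.mul_mem_right _ hx
  · left
    rw [sub_eq_zero] at h1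
    rw [h1] at he'
    have hcl : IsClosed ((Ideal.span {t} : Ideal T) : Set T) := CNR.closed_ideal _
    have hsub : {x | ∃ k : ℕ, x = t ^ (k + 1)} ⊆ ((Ideal.span {t} : Ideal T) : Set T) := by
      rintro _ ⟨k, rfl⟩
      rw [pow_succ]
      exact Ideal.mul_mem_left _ _ (Ideal.mem_span_singleton_self t)
    have h2 : (1 : T) ∈ Ideal.span {t} := closure_minimal hsub hcl he'
    exact Ideal.span_singleton_eq_top.1 ((Ideal.eq_top_iff_one _).2 h2)

private theorem exists_ideal_one [Nontrivial T] :
    ∃ I : Ideal T, (I : Set T) ∈ nhds (0 : T) ∧ (1 : T) ∉ I := by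
  obtain ⟨I, hI, hI1⟩ := (IsLinearTopology.hasBasis_ideal (R := T)).mem_iff.1
    (isOpen_ne.mem_nhds (show (0 : T) ≠ 1 from zero_ne_one))
  exact ⟨I, hI, fun h => hI1 h rfl⟩

/-- PROOF. If `t` is a unit and topologically nilpotent then `1 = t ^ k * (t⁻¹) ^ k` is in every open ideal (`t ^ k` is, for large `k`), so `1 = 0`. -/
theorem not_isUnit_of_tn [Nontrivial T] {t : T} (h : IsTopologicallyNilpotent t) : ¬ IsUnit t := by
  intro hu
  obtain ⟨I, hI, hI1⟩ := exists_ideal_one (T := T)
  obtain ⟨k, hk⟩ := (Filter.Tendsto.eventually h hI).exists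
  obtain ⟨s, hs⟩ := (hu.pow k).exists_left_inv
  exact hI1 (hs ▸ I.mul_mem_left s hk)

/-- PROOF. The nonunits are the topologically nilpotent elements (`isUnit_or_tn`, `not_isUnit_of_tn`), closed under addition (`IsTopologicallyNilpotent.add`, linear topology). -/
theorem isLocalRing_of_cnr (T : Type v) [CommRing T] [TopologicalSpace T] [CNR T] [IsDomain T] :
    IsLocalRing T := by
  refine IsLocalRing.of_nonunits_add fun a b ha hb => ?_
  have h1 := (isUnit_or_tn a).resolve_left ha
  have h2 := (isUnit_or_tn b).resolve_left hb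
  exact not_isUnit_of_tn (h1.add h2)

/-- PROOF. `isUnit_or_tn`, `not_isUnit_of_tn`. -/
theorem mem_maximalIdeal_iff [IsDomain T] [IsLocalRing T] {t : T} :
    t ∈ IsLocalRing.maximalIdeal T ↔ IsTopologicallyNilpotent t := by
  rw [IsLocalRing.mem_maximalIdeal, mem_nonunits_iff]
  exact ⟨fun h => (isUnit_or_tn t).resolve_left h, not_isUnit_of_tn⟩

/-- PROOF. There is a proper open ideal `I` (linear topology, `1 ≠ 0`, Hausdorff); it is contained in the maximal ideal, which is therefore open. -/
theorem isOpen_maximalIdeal [IsDomain T] [IsLocalRing T] :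
    IsOpen (IsLocalRing.maximalIdeal T : Set T) := by
  obtain ⟨I, hI, hI1⟩ := exists_ideal_one (T := T)
  have h1 : I ≤ IsLocalRing.maximalIdeal T :=
    IsLocalRing.le_maximalIdeal fun h => hI1 (h ▸ trivial)
  exact AddSubgroup.isOpen_of_mem_nhds (IsLocalRing.maximalIdeal T).toAddSubgroup
    (Filter.mem_of_superset hI h1)

/-- PROOF. If `t` is not topologically nilpotent, it is a unit, so `φ t` is a unit, contradiction to `not_isUnit_of_tn`. -/
theorem tn_of_map [IsDomain T] {T' : Type w} [CommRing T'] [TopologicalSpace T'] [CNR T']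
    [Nontrivial T'] (φ : T →+* T') {t : T} (h : IsTopologicallyNilpotent (φ t)) :
    IsTopologicallyNilpotent t := by
  refine (isUnit_or_tn t).resolve_left fun hu => ?_
  exact not_isUnit_of_tn h (hu.map φ)

/-- PROOF. If `T` is finite, the finite `T`-module `R.A` is finite, so `G` is finite (`R.j` injective). By `eq_one_of_pow` (torsion free) `G` is trivial, contradiction to `hG.nc`. -/
theorem infinite_of_rep {p : ℕ} [Fact p.Prime] {G : Type u} [Group G] [TopologicalSpace G]
    [IsTopologicalGroup G] [CompactSpace G] [T2Space G] [TotallyDisconnectedSpace G] (hG : PF p G)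
    {Ω : Type v} [Field Ω] [Algebra T Ω] {n : ℕ} (R : Rep p G T Ω n) : Infinite T := by
  by_contra hinf
  have hfT : Finite T := not_infinite_iff_finite.1 hinf
  have hfA : Finite R.A := Module.finite_of_finite T
  have hfG : Finite G := Finite.of_injective R.j R.j_inj
  obtain ⟨x, y, hxy⟩ := hG.nc
  have hx : x = 1 := eq_one_of_pow hG.proP hG.lift (n := Nat.card G) Nat.card_pos.ne' pow_card_eq_one'
  exact hxy (by rw [hx, one_mul, mul_one])

end

end MP35
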