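import Mathlib

/-! # Piece RVAL: valuation rings, roots and coefficients -/

set_option autoImplicit false

namespace MP35

universe u v w

section

variable {K : Type v} [Field K] (O : ValuationSubring K)

/-- PROOF. Suppose `μ ∉ O.nonunits`. Then `μ⁻¹ ∈ O` and from `μ ^ d = - Σ_{j<d} c_j μ ^ j` we get `1 = - Σ_{j<d} c_j (μ⁻¹) ^ (d - j) ∈ O.nonunits`, a contradiction. (`O.nonunits` is closed under
addition and multiplication by `O`: `ValuationSubring.mem_nonunits_iff`, valuation `< 1`.) -/
theorem root_mem_nonunits {f : Polynomial K} (hf : f.Monic)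
    (h : ∀ j < f.natDegree, f.coeff j ∈ O.nonunits) {μ : K} (hμ : f.IsRoot μ) : μ ∈ O.nonunits := by
  rw [ValuationSubring.mem_nonunits_iff]
  by_contra hcon
  push Not at hcon
  have h1 : (1 : O.ValueGroup) ≤ O.valuation μ := hcon
  have h0 : O.valuation μ ≠ 0 := fun e => by rw [e] at h1; exact not_le.2 zero_lt_one h1
  have hne : (O.valuation μ) ^ f.natDegree ≠ 0 := pow_ne_zero _ h0
  have hsum : O.valuation (∑ i ∈ Finset.range f.natDegree, f.coeff i * μ ^ i) <
      (O.valuation μ) ^ f.natDegree := by
    refine Valuation.map_sum_lt O.valuation hne fun i hi => ?_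
    rw [Finset.mem_range] at hi
    rw [map_mul, map_pow]
    have h2 : O.valuation (f.coeff i) < 1 := O.mem_nonunits_iff.1 (h i hi)
    have h3 : (O.valuation μ) ^ i ≤ (O.valuation μ) ^ f.natDegree := pow_le_pow_right₀ h1 hi.le
    have h4 : 0 < (O.valuation μ) ^ i := pow_pos (zero_lt_iff.2 h0) _
    calc O.valuation (f.coeff i) * (O.valuation μ) ^ i < 1 * (O.valuation μ) ^ i :=
          mul_lt_mul_of_pos_right h2 h4
      _ = (O.valuation μ) ^ i := one_mul _
      _ ≤ _ := h3
  have heq : μ ^ f.natDegree = -∑ i ∈ Finset.range f.natDegree, f.coeff i * μ ^ i := by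
    have h5 : f.eval μ = 0 := hμ
    rw [Polynomial.eval_eq_sum_range, Finset.sum_range_succ, hf.coeff_natDegree, one_mul] at h5
    exact eq_neg_of_add_eq_zero_right h5
  have : O.valuation (μ ^ f.natDegree) < (O.valuation μ) ^ f.natDegree := by
    rw [heq, Valuation.map_neg]
    exact hsum
  rw [map_pow] at this
  exact lt_irrefl _ this

/-- PROOF. `f` is the product of the `X - μ_i`; the coefficients of index `< natDegree f` are, up to sign, the elementary symmetric functions of positive degree of the roots (or: induct over the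
number of factors, for the property: monic, coefficients of index `< natDegree` are in `O.nonunits`). -/
theorem coeff_mem_nonunits [IsAlgClosed K] {f : Polynomial K} (hf : f.Monic)
    (h : ∀ μ, f.IsRoot μ → μ ∈ O.nonunits) {j : ℕ} (hj : j < f.natDegree) :
    f.coeff j ∈ O.nonunits := by
  rw [ValuationSubring.mem_nonunits_iff]
  rw [Polynomial.coeff_eq_esymm_roots_of_card
    (Polynomial.splits_iff_card_roots.1 (IsAlgClosed.splits f)) hj.le, hf.leadingCoeff, one_mul,
    map_mul, map_pow, Valuation.map_neg, map_one, one_pow, one_mul]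
  have hprod : ∀ s : Multiset K, (∀ x ∈ s, O.valuation x < 1) → O.valuation s.prod ≤ 1 ∧
      (s ≠ 0 → O.valuation s.prod < 1) := by
    intro s
    induction s using Multiset.induction_on with
    | empty =>
      intro _
      exact ⟨by rw [Multiset.prod_zero, map_one], fun h => absurd rfl h⟩
    | cons a s ih =>
      intro hs
      have h1 := (ih fun x hx => hs x (Multiset.mem_cons_of_mem hx)).1
      have h2 := hs a (Multiset.mem_cons_self a s)
      have h3 : O.valuation (a ::ₘ s).prod < 1 := by
        rw [Multiset.prod_cons, map_mul]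
        exact mul_lt_one_of_lt_of_le h2 h1
      exact ⟨h3.le, fun _ => h3⟩
  have hsum : ∀ s : Multiset K, (∀ x ∈ s, O.valuation x < 1) → O.valuation s.sum < 1 := by
    intro s
    induction s using Multiset.induction_on with
    | empty =>
      intro _
      rw [Multiset.sum_zero, map_zero]
      exact zero_lt_one
    | cons a s ih =>
      intro hs
      rw [Multiset.sum_cons]
      exact Valuation.map_add_lt _ (hs a (Multiset.mem_cons_self a s))
        (ih fun x hx => hs x (Multiset.mem_cons_of_mem hx))
  rw [Multiset.esymm]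
  refine hsum _ fun x hx => ?_
  rw [Multiset.mem_map] at hx
  obtain ⟨s, hs, rfl⟩ := hx
  rw [Multiset.mem_powersetCard] at hs
  refine (hprod s fun x hx => ?_).2 ?_
  · have hx' := Multiset.mem_of_le hs.1 hx
    exact O.mem_nonunits_iff.1 (h x ((Polynomial.mem_roots hf.ne_zero).1 hx'))
  · rintro rfl
    rw [Multiset.card_zero] at hs
    omega

/-- PROOF. `μ` is a root of the characteristic polynomial of an endomorphism iff it is an eigenvalue. If `x v = μ v`, `v ≠ 0`, the matrix with columns `v` is an eigenvector of the left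
multiplication by `x`; conversely a nonzero column of an eigenvector `y`, `x y = μ y`, is an eigenvector of `x`. -/
theorem isRoot_mulLeft {n : ℕ} (x : Matrix (Fin n) (Fin n) K) (μ : K) :
    (LinearMap.mulLeft K x).charpoly.IsRoot μ ↔ x.charpoly.IsRoot μ := by
  rw [← Matrix.charpoly_toLin' x]
  have e1 := Module.End.hasEigenvalue_iff_isRoot_charpoly (R := K) (LinearMap.mulLeft K x) μ
  have e2 := Module.End.hasEigenvalue_iff_isRoot_charpoly (R := K) (Matrix.toLin' x) μ
  rw [← e1, ← e2]
  constructor
  · intro h
    obtain ⟨y, hy⟩ := h.exists_hasEigenvector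
    have hy1 : x * y = μ • y := hy.apply_eq_smul
    obtain ⟨j, hj⟩ : ∃ j, y.col j ≠ 0 := by
      by_contra hcon
      push Not at hcon
      refine hy.2 ?_
      ext i j
      exact congrFun (hcon j) i
    refine Module.End.hasEigenvalue_of_hasEigenvector (x := y.col j) ⟨?_, hj⟩
    rw [Module.End.mem_eigenspace_iff, Matrix.toLin'_apply]
    ext i
    have := congrFun (congrFun hy1 i) j
    rw [Matrix.mul_apply, Matrix.smul_apply] at this
    exact this
  · intro h
    obtain ⟨v, hv⟩ := h.exists_hasEigenvector
    have hv1 : x.mulVec v = μ • v := by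
      have := hv.apply_eq_smul
      rwa [Matrix.toLin'_apply] at this
    have hn : Nonempty (Fin n) := by
      by_contra hcon
      rw [not_nonempty_iff] at hcon
      exact hv.2 (Subsingleton.elim _ _)
    refine Module.End.hasEigenvalue_of_hasEigenvector (x := Matrix.of fun i _ => v i) ⟨?_, ?_⟩
    · rw [Module.End.mem_eigenspace_iff]
      ext i j
      show (x * Matrix.of fun i _ => v i) i j = μ • v i
      rw [Matrix.mul_apply]
      exact congrFun hv1 i
    · intro h0
      refine hv.2 ?_
      ext i
      exact congrFun (congrFun h0 i) hn.some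

/-- a valuation ring dominating a subring localised at a prime -/
theorem exists_dominating_subring (B : Subring K) (P : Ideal B) [hP : P.IsPrime] :
    ∃ O : ValuationSubring K, (∀ b : B, (b : K) ∈ O) ∧ ∀ b : B, (b : K) ∈ O.nonunits ↔ b ∈ P := by
  obtain ⟨V, hV⟩ := (LocalSubring.ofPrime B P).exists_le_valuationSubring
  have hBV : ∀ b : B, (b : K) ∈ V := fun b => hV.1 (LocalSubring.le_ofPrime B P b.2)
  refine ⟨V, hBV, fun b => ?_⟩
  have h1 := V.coe_mem_nonunits_iff (a := ⟨(b : K), hBV b⟩)
  have h2 : IsUnit (algebraMap B (LocalSubring.ofPrime B P).toSubring b) ↔ b ∈ P.primeCompl :=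
    IsLocalization.AtPrime.isUnit_to_map_iff _ P b
  have h3 : IsUnit (Subring.inclusion hV.1 (algebraMap B (LocalSubring.ofPrime B P).toSubring b)) ↔
      IsUnit (algebraMap B (LocalSubring.ofPrime B P).toSubring b) := by
    have := hV.2
    exact isUnit_map_iff _ _
  have h4 : (⟨(b : K), hBV b⟩ : V) =
      (Subring.inclusion hV.1 (algebraMap B (LocalSubring.ofPrime B P).toSubring b)) := rfl
  rw [h1, IsLocalRing.mem_maximalIdeal, mem_nonunits_iff, h4]
  refine Iff.trans (not_congr (h3.trans h2)) ?_
  rw [Ideal.mem_primeCompl_iff, not_not]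

/-- PROOF. Let `B' = B[1/s]` (`Subring.closure (B ∪ {s⁻¹})` or `{b / s ^ k}`; `s ≠ 0` as `s ∉ I` ...; if `s = 0` the hypothesis fails for `k = 1`). The ideal generated by `I` in `B'` is proper: otherwise `s ^ k ∈ I` for some `k`. By
`Ideal.image_subset_nonunits_valuationSubring` there is a valuation subring `O ≥ B'` whose nonunits contain `I`. `s` and `s⁻¹` are in `O`, so `s ∉ O.nonunits`. -/
theorem exists_valuation (B : Subring K) (I : Ideal B) (s : B) (hs : ∀ k : ℕ, s ^ k ∉ I) :
    ∃ O : ValuationSubring K, (∀ b : B, (b : K) ∈ O) ∧ (∀ x ∈ I, ((x : B) : K) ∈ O.nonunits) ∧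
      (s : K) ∉ O.nonunits := by
  have hd : Disjoint (I : Set B) (Submonoid.powers s : Set B) := by
    rw [Set.disjoint_left]
    rintro x hx ⟨k, rfl⟩
    exact hs k hx
  obtain ⟨P, hP, hIP, hPs⟩ := Ideal.exists_le_prime_disjoint I (Submonoid.powers s) hd
  obtain ⟨V, h1, h2⟩ := exists_dominating_subring B P
  refine ⟨V, h1, fun x hx => (h2 x).2 (hIP hx), fun hcon => ?_⟩
  exact Set.disjoint_left.1 hPs ((h2 s).1 hcon) (Submonoid.mem_powers s)

/-- PROOF. Localise the image `B` of `T` at `Q` and use a valuation ring dominating it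
(`LocalSubring.ofPrime`, `LocalSubring.exists_le_valuationSubring`). -/
theorem exists_dominating {T : Type u} [CommRing T] [Algebra T K]
    (hT : Function.Injective (algebraMap T K)) (Q : Ideal T) (hQ : Q.IsPrime) :
    ∃ O : ValuationSubring K, (∀ t : T, algebraMap T K t ∈ O) ∧
      ∀ t : T, algebraMap T K t ∈ O.nonunits ↔ t ∈ Q := by
  let e : T ≃+* (algebraMap T K).range := RingEquiv.ofBijective (algebraMap T K).rangeRestrict
    ⟨fun a b hab => hT (congrArg Subtype.val hab), (algebraMap T K).rangeRestrict_surjective⟩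
  have hP : (Q.comap (e.symm : (algebraMap T K).range →+* T)).IsPrime := Ideal.comap_isPrime _ _
  obtain ⟨V, h1, h2⟩ := exists_dominating_subring (algebraMap T K).range
    (Q.comap (e.symm : (algebraMap T K).range →+* T))
  refine ⟨V, fun t => h1 (e t), fun t => ?_⟩
  have h3 := h2 (e t)
  rw [Ideal.mem_comap] at h3
  have h4 : (e.symm : (algebraMap T K).range →+* T) (e t) = t := e.symm_apply_apply t
  rw [h4] at h3
  exact h3

/-- PROOF. A valuation ring is integrally closed: if `x` satisfies a monic polynomial over `T`, and `x ∉ O`, then `x⁻¹ ∈ O.nonunits` and dividing the equation by `x ^ d` gives `1 ∈ O.nonunits`. -/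
theorem mem_of_isIntegral {T : Type u} [CommRing T] [Algebra T K]
    (hT : ∀ t : T, algebraMap T K t ∈ O) {x : K} (hx : IsIntegral T x) : x ∈ O := by
  obtain ⟨f, hf, hfx⟩ := hx
  have h1 : LocalSubring.toSubring O.toLocalSubring = O.toSubring := rfl
  have hx' : IsIntegral O.toLocalSubring.toSubring x := by
    let g : T →+* O.toLocalSubring.toSubring := (algebraMap T K).codRestrict _ hT
    refine ⟨f.map g, hf.map g, ?_⟩
    rw [Polynomial.eval₂_map]
    exact hfx
  exact LocalSubring.mem_of_isMax_of_isIntegral O.isMax_toLocalSubring hx'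

end

end MP35
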