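import Pool.Agent.Lib_MP_3538b5_al.RDefs
import Pool.Agent.Lib_MP_3538b5_al.RLoc
import Pool.Agent.Lib_MP_3538b5_al.RVal

/-! # Piece RINT: integrality of characteristic coefficients; unipotence at the maximal ideal -/

set_option autoImplicit false

namespace MP35

universe u v w

variable {p : ℕ} {G : Type u} [Group G] [TopologicalSpace G] {T : Type v} [CommRing T]
  [TopologicalSpace T] {Ω : Type v} [Field Ω] [Algebra T Ω] {n : ℕ}

/-- a matrix which is a root of a polynomial: the eigenvalues are roots -/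
private theorem isRoot_of_aeval {x : Matrix (Fin n) (Fin n) Ω} {f : Polynomial Ω}
    (hf : Polynomial.aeval x f = 0) {μ : Ω} (hμ : x.charpoly.IsRoot μ) : f.IsRoot μ := by
  rw [← Matrix.charpoly_toLin' x,
    ← Module.End.hasEigenvalue_iff_isRoot_charpoly (R := Ω) (Matrix.toLin' x) μ] at hμ
  obtain ⟨v, hv⟩ := hμ.exists_hasEigenvector
  have h1 : Polynomial.aeval (Matrix.toLin' x) f v = f.eval μ • v :=
    Module.End.aeval_apply_of_hasEigenvector hv
  have h2 : Polynomial.aeval (Matrix.toLin' x) f = Matrix.toLin' (Polynomial.aeval x f) :=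
    Polynomial.aeval_algHom_apply (Matrix.toLinAlgEquiv' : Matrix (Fin n) (Fin n) Ω ≃ₐ[Ω] _).toAlgHom x f
  rw [h2, hf, map_zero, LinearMap.zero_apply] at h1
  rcases smul_eq_zero.1 h1.symm with h3 | h3
  · exact h3
  · exact absurd h3 hv.2

/-- eigenvalues of a power -/
private theorem isRoot_pow {x : Matrix (Fin n) (Fin n) Ω} {μ : Ω} (hμ : x.charpoly.IsRoot μ)
    (k : ℕ) : (x ^ k).charpoly.IsRoot (μ ^ k) := by
  rw [← Matrix.charpoly_toLin' x,
    ← Module.End.hasEigenvalue_iff_isRoot_charpoly (R := Ω) (Matrix.toLin' x) μ] at hμ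
  rw [← Matrix.charpoly_toLin' (x ^ k),
    ← Module.End.hasEigenvalue_iff_isRoot_charpoly (R := Ω) (Matrix.toLin' (x ^ k)) (μ ^ k)]
  have h2 : Matrix.toLin' (x ^ k) = Matrix.toLin' x ^ k :=
    map_pow (Matrix.toLinAlgEquiv' : Matrix (Fin n) (Fin n) Ω ≃ₐ[Ω] _) x k
  obtain ⟨v, hv⟩ := hμ.exists_hasEigenvector
  rw [h2]
  exact Module.End.hasEigenvalue_of_hasEigenvector (x := v)
    ⟨Module.End.mem_eigenspace_iff.2 (hv.pow_apply k), hv.2⟩

/-- eigenvalues of `x - 1` -/
private theorem isRoot_sub_one {x : Matrix (Fin n) (Fin n) Ω} {μ : Ω} (hμ : x.charpoly.IsRoot μ) :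
    (x - 1).charpoly.IsRoot (μ - 1) := by
  rw [← Matrix.charpoly_toLin' x,
    ← Module.End.hasEigenvalue_iff_isRoot_charpoly (R := Ω) (Matrix.toLin' x) μ] at hμ
  rw [← Matrix.charpoly_toLin' (x - 1),
    ← Module.End.hasEigenvalue_iff_isRoot_charpoly (R := Ω) (Matrix.toLin' (x - 1)) (μ - 1)]
  obtain ⟨v, hv⟩ := hμ.exists_hasEigenvector
  refine Module.End.hasEigenvalue_of_hasEigenvector (x := v)
    ⟨Module.End.mem_eigenspace_iff.2 ?_, hv.2⟩
  have h1 : Matrix.toLin' x v = μ • v := hv.apply_eq_smul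
  rw [map_sub, Matrix.toLin'_one, LinearMap.sub_apply, h1, LinearMap.id_apply, sub_smul, one_smul]

/-- Frobenius in the residue field of a valuation ring -/
private theorem sub_one_mem_of_pow_aux [Fact p.Prime] {O : ValuationSubring Ω}
    (hp : (p : Ω) ∈ O.nonunits) {μ : Ω} (hμO : μ ∈ O) {e : ℕ} (h : μ ^ p ^ e - 1 ∈ O.nonunits) :
    μ - 1 ∈ O.nonunits := by
  let a : O := ⟨μ, hμO⟩
  have hpr : (p : IsLocalRing.ResidueField O) = 0 := by
    have h1 : ((p : O) : Ω) ∈ O.nonunits := by
      push_cast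
      exact hp
    rw [O.coe_mem_nonunits_iff] at h1
    rw [← map_natCast (IsLocalRing.residue O) p]
    exact (IsLocalRing.residue_eq_zero_iff _).2 h1
  have hchar : CharP (IsLocalRing.ResidueField O) p :=
    (CharP.charP_iff_prime_eq_zero Fact.out).2 hpr
  have h2 : ((a ^ p ^ e - 1 : O) : Ω) ∈ O.nonunits := h
  rw [O.coe_mem_nonunits_iff, ← IsLocalRing.residue_eq_zero_iff, map_sub, map_pow, map_one] at h2
  have h3 : (IsLocalRing.residue O a - 1) ^ p ^ e = 0 := by
    rw [sub_pow_char_pow, one_pow]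
    exact h2
  have h4 : IsLocalRing.residue O (a - 1) = 0 := by
    rw [map_sub, map_one]
    exact pow_eq_zero_iff (pow_ne_zero _ (Fact.out : p.Prime).ne_zero) |>.1 h3
  have h5 : ((a - 1 : O) : Ω) ∈ O.nonunits :=
    O.coe_mem_nonunits_iff.2 ((IsLocalRing.residue_eq_zero_iff _).1 h4)
  exact h5

/-- PROOF. `x` is integral over `T` (`R.A` is a finite `T`-module; `IsIntegral.of_finite`), it is a root of a monic polynomial `f` with coefficients in `T`. If `μ` is an eigenvalue with eigenvector `v`,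
then `0 = f(x) v = f(μ) v`. -/
theorem Rep.isIntegral_root (R : Rep p G T Ω n) {x : Matrix (Fin n) (Fin n) Ω} (hx : x ∈ R.A) {μ : Ω}
    (hμ : x.charpoly.IsRoot μ) : IsIntegral T μ := by
  obtain ⟨f, hf, hfx⟩ := IsIntegral.of_finite T (⟨x, hx⟩ : R.A)
  refine ⟨f, hf, ?_⟩
  have h1 : Polynomial.aeval (⟨x, hx⟩ : R.A) f = 0 := hfx
  have h2 : Polynomial.aeval x f = 0 := by
    have := congrArg (R.A.val) h1
    rw [← Polynomial.aeval_algHom_apply, map_zero] at this
    exact this
  have h3 : Polynomial.aeval x (f.map (algebraMap T Ω)) = 0 := by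
    rw [Polynomial.aeval_map_algebraMap]
    exact h2
  have h4 : (f.map (algebraMap T Ω)).eval μ = 0 := isRoot_of_aeval h3 hμ
  rw [Polynomial.eval_map] at h4
  exact h4

/-- PROOF. Over the algebraically closed field `Ω` the characteristic polynomial is the product of the `X - μ`; its coefficients are polynomials in the roots, which are integral (`Rep.isIntegral_root`). -/
theorem Rep.isIntegral_coeff [IsAlgClosed Ω] (R : Rep p G T Ω n) {x : Matrix (Fin n) (Fin n) Ω}
    (hx : x ∈ R.A) (j : ℕ) : IsIntegral T (x.charpoly.coeff j) := by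
  have h1 : x.charpoly ∈ Polynomial.lifts (algebraMap (integralClosure T Ω) Ω) := by
    rw [(IsAlgClosed.splits x.charpoly).eq_prod_roots_of_monic (Matrix.charpoly_monic x)]
    refine multiset_prod_mem _ fun y hy => ?_
    rw [Multiset.mem_map] at hy
    obtain ⟨μ, hμ, rfl⟩ := hy
    have h2 : IsIntegral T μ := R.isIntegral_root hx ((Polynomial.mem_roots'.1 hμ).2)
    refine ⟨Polynomial.X - Polynomial.C (⟨μ, h2⟩ : integralClosure T Ω), ?_⟩
    simp
  rw [Polynomial.lifts_iff_coeff_lifts] at h1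
  obtain ⟨y, hy⟩ := h1 j
  rw [← hy]
  exact y.2

/-- PROOF. `x = Σ t_i a_i` with `t_i ∈ I`, `a_i ∈ A`. Multiplication by `x` is an endomorphism of the finite `T`-module `A` with image in `I • A`, so it satisfies a monic polynomial whose lower coefficients are in `I`
(`LinearMap.exists_monic_and_coeff_mem_pow_and_aeval_eq_zero_of_range_le_smul`); evaluate at `1`. An eigenvalue `μ` of `x` is a root of the image of this polynomial in `Ω`; its lower coefficients are in `O.nonunits`, so
`root_mem_nonunits`. -/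
theorem Rep.root_of_smul_top [CNR T] (R : Rep p G T Ω n) (O : ValuationSubring Ω) {I : Ideal T}
    (hO : ∀ t : T, algebraMap T Ω t ∈ O) (hI : ∀ t ∈ I, algebraMap T Ω t ∈ O.nonunits) {x : R.A}
    (hx : x ∈ (I • ⊤ : Submodule T R.A)) {μ : Ω}
    (hμ : (x : Matrix (Fin n) (Fin n) Ω).charpoly.IsRoot μ) : μ ∈ O.nonunits := by
  obtain ⟨f, hf, -, hc, hfx⟩ :=
    LinearMap.exists_monic_and_natDegree_eq_and_coeff_mem_pow_and_aeval_eq_zero T
      (LinearMap.mulLeft T x) I (by
        rintro _ ⟨y, rfl⟩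
        exact R.smul_top_mul hx y)
  have h1 : Polynomial.aeval x f = 0 := by
    have h2 : Polynomial.aeval (LinearMap.mulLeft T x) f = LinearMap.mulLeft T (Polynomial.aeval x f) :=
      Polynomial.aeval_algHom_apply (Algebra.lmul T R.A) x f
    rw [h2] at hfx
    have := congrArg (fun φ : R.A →ₗ[T] R.A => φ 1) hfx
    simpa using this
  have h2 : Polynomial.aeval (x : Matrix (Fin n) (Fin n) Ω) f = 0 := by
    have := congrArg (R.A.val) h1
    rw [← Polynomial.aeval_algHom_apply, map_zero] at this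
    exact this
  have h3 : Polynomial.aeval (x : Matrix (Fin n) (Fin n) Ω) (f.map (algebraMap T Ω)) = 0 := by
    rw [Polynomial.aeval_map_algebraMap]
    exact h2
  refine root_mem_nonunits O (hf.map (algebraMap T Ω)) (fun j hj => ?_) (isRoot_of_aeval h3 hμ)
  rw [Polynomial.coeff_map]
  refine hI _ ?_
  have h4 := hc j
  have h5 : f.natDegree - j ≠ 0 := by
    have := Polynomial.natDegree_map_le (p := f) (f := algebraMap T Ω)
    omega
  exact Ideal.pow_le_self h5 h4

/-- PROOF. Let `m` be the (open) maximal ideal of `T` (RLOC), the set of topologically nilpotent elements. `m • A` is open in `A` (it is the image of the open set `m ^ r` under an open quotient map `T ^ r → A`; or: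
it is closed of finite index), so the congruence subgroup `R.NI m` is open (`R.cont_j`) and normal, and `g ^ p ^ k ∈ R.NI m` for some `k` (`ProP`). If `μ` is an eigenvalue of `ρ g`, then
`μ ^ p ^ k - 1` is an eigenvalue of `ρ (g ^ p ^ k) - 1`, so it is in `O.nonunits` (`Rep.root_of_smul_top`). `p ∈ O.nonunits` (`R.pnil`), so `(μ - 1) ^ p ^ k` is congruent to `μ ^ p ^ k - 1` modulo `O.nonunits`
(`μ ∈ O`, as it is integral over `T`, `mem_of_isIntegral`; `add_pow_char_pow` in the residue field). Hence `μ - 1 ∈ O.nonunits`. -/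
theorem Rep.unip_of_maximal [Fact p.Prime] [IsTopologicalGroup G] [CompactSpace G] [CNR T]
    [IsDomain T] (R : Rep p G T Ω n) (hG : ProP p G)
    (O : ValuationSubring Ω) (hO : ∀ t : T, algebraMap T Ω t ∈ O)
    (hm : ∀ t : T, IsTopologicallyNilpotent t → algebraMap T Ω t ∈ O.nonunits) : R.Unip O := by
  have := isLocalRing_of_cnr T
  intro g μ hμ
  let m := IsLocalRing.maximalIdeal T
  have hmo : IsOpen (m : Set T) := isOpen_maximalIdeal
  have hmO : ∀ t ∈ m, algebraMap T Ω t ∈ O.nonunits := fun t ht => hm t (mem_maximalIdeal_iff.1 ht)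
  have hpO : (p : Ω) ∈ O.nonunits := by
    have := hm (p : T) R.pnil
    rwa [map_natCast] at this
  have hopen : IsOpen ((m • ⊤ : Submodule T R.A) : Set R.A) := by
    obtain ⟨r, f, hf⟩ := Module.Finite.exists_fin' T R.A
    have hq := IsModuleTopology.isOpenQuotientMap_of_surjective hf
    have h6 : f '' {c | ∀ i, c i ∈ m} ⊆ ((m • ⊤ : Submodule T R.A) : Set R.A) := by
      rintro _ ⟨c, hc, rfl⟩
      have : c = ∑ i, c i • (Pi.single i 1 : Fin r → T) := by
        ext k
        simp [Finset.sum_apply, Pi.single_apply]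
      rw [this, map_sum]
      refine Submodule.sum_mem _ fun i _ => ?_
      rw [map_smul]
      exact Submodule.smul_mem_smul (hc i) trivial
    have h7 : IsOpen {c : Fin r → T | ∀ i, c i ∈ m} := by
      have : {c : Fin r → T | ∀ i, c i ∈ m} = Set.univ.pi fun _ => (m : Set T) := by
        ext c
        simp
      rw [this]
      exact isOpen_set_pi Set.finite_univ fun i _ => hmo
    have h8 : f '' {c | ∀ i, c i ∈ m} ∈ nhds (0 : R.A) := by
      refine (hq.isOpenMap _ h7).mem_nhds ⟨0, fun i => ?_, map_zero f⟩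
      exact m.zero_mem
    exact AddSubgroup.isOpen_of_mem_nhds (m • ⊤ : Submodule T R.A).toAddSubgroup
      (Filter.mem_of_superset h8 h6)
  have hNI : IsOpen ((R.NI m : Subgroup G) : Set G) := by
    have : ((R.NI m : Subgroup G) : Set G) = (fun g => R.j g - 1) ⁻¹'
        ((m • ⊤ : Submodule T R.A) : Set R.A) := rfl
    rw [this]
    exact hopen.preimage (R.cont_j.sub continuous_const)
  obtain ⟨k, hk⟩ := hG (R.NI m) (R.NI_normal m) hNI g
  rw [R.mem_NI] at hk
  have hμ1 : μ ∈ O := mem_of_isIntegral O hO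
    (R.isIntegral_root (Algebra.subset_adjoin ⟨g, rfl⟩) hμ)
  refine sub_one_mem_of_pow_aux hpO hμ1 (e := k) ?_
  refine R.root_of_smul_top O hO hmO hk ?_
  have h9 : ((R.j (g ^ p ^ k) - 1 : R.A) : Matrix (Fin n) (Fin n) Ω) = R.ρ g ^ p ^ k - 1 := by
    rw [map_pow]
    rfl
  rw [h9]
  exact isRoot_sub_one (isRoot_pow hμ _)

/-- PROOF. `μ` is an eigenvalue of `ρ (g ^ p ^ e)` as soon as ... : if `μ` is an eigenvalue of `ρ g` then `μ ^ p ^ e` is one of `ρ (g ^ p ^ e)`, so `μ ^ p ^ e - 1 ∈ O.nonunits` implies `μ - 1 ∈ O.nonunits` (the residue field of `O` has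
characteristic `p`; `μ ∈ O` because `μ` is integral over `T`). -/
theorem Rep.sub_one_mem_of_pow [Fact p.Prime] (R : Rep p G T Ω n) (O : ValuationSubring Ω)
    (hO : ∀ t : T, algebraMap T Ω t ∈ O) (hp : (p : Ω) ∈ O.nonunits) {g : G} {e : ℕ}
    (h : ∀ ν : Ω, (R.ρ (g ^ p ^ e)).charpoly.IsRoot ν → ν - 1 ∈ O.nonunits) {μ : Ω}
    (hμ : (R.ρ g).charpoly.IsRoot μ) : μ - 1 ∈ O.nonunits := by
  have hμ1 : μ ∈ O := mem_of_isIntegral O hO
    (R.isIntegral_root (Algebra.subset_adjoin ⟨g, rfl⟩) hμ)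
  refine sub_one_mem_of_pow_aux hp hμ1 (e := e) (h _ ?_)
  rw [map_pow]
  exact isRoot_pow hμ _

end MP35
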