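import Pool.Agent.Lib_MP_3538b5_al.RRedDefs
import Pool.Agent.Lib_MP_3538b5_al.RLoc
import Pool.Agent.Lib_MP_3538b5_al.RVal
import Pool.Agent.Lib_MP_3538b5_al.RInt

/-! # Piece RDETECT: finitely many elements detect fullness -/

set_option autoImplicit false

namespace MP35

universe u v w

/-- eigenvalues of `x - 1` -/
private theorem rd_isRoot_sub_one {K : Type v} [Field K] {n : ℕ} (x : Matrix (Fin n) (Fin n) K)
    (ν : K) : (x - 1).charpoly.IsRoot ν ↔ x.charpoly.IsRoot (ν + 1) := by
  rw [Polynomial.IsRoot.def, Polynomial.IsRoot.def, Matrix.eval_charpoly, Matrix.eval_charpoly]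
  have : Matrix.scalar (Fin n) ν - (x - 1) = Matrix.scalar (Fin n) (ν + 1) - x := by
    rw [map_add, map_one]
    abel
  rw [this]

/-- the characteristic coefficients of the left multiplication by `x - 1` detect unipotence modulo
the maximal ideal of a valuation ring -/
private theorem rd_iff {K : Type v} [Field K] [IsAlgClosed K] (O : ValuationSubring K) {n : ℕ}
    (x : Matrix (Fin n) (Fin n) K) :
    (∀ μ : K, x.charpoly.IsRoot μ → μ - 1 ∈ O.nonunits) ↔
      ∀ j < n ^ 2, (LinearMap.mulLeft K (x - 1)).charpoly.coeff j ∈ O.nonunits := by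
  have hfr : (LinearMap.mulLeft K (x - 1)).charpoly.natDegree = n ^ 2 := by
    rw [LinearMap.charpoly_natDegree, Module.finrank_matrix]
    simp [sq]
  constructor
  · intro h j hj
    refine coeff_mem_nonunits O (LinearMap.charpoly_monic _) (fun μ hμ => ?_) (hfr ▸ hj)
    rw [isRoot_mulLeft, rd_isRoot_sub_one] at hμ
    have := h _ hμ
    rwa [add_sub_cancel_right] at this
  · intro h μ hμ
    refine root_mem_nonunits O (LinearMap.charpoly_monic (LinearMap.mulLeft K (x - 1)))
      (fun j hj => h j (hfr ▸ hj)) ?_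
    rw [isRoot_mulLeft, rd_isRoot_sub_one, sub_add_cancel]
    exact hμ

/-- a finitely generated nonzero module of matrices over a subring of a valuation ring has an entry of
largest valuation -/
private theorem rd_exists_max {K : Type v} [Field K] (O : ValuationSubring K) {n : ℕ} {T : Type v}
    [CommRing T] [Algebra T K] (hO : ∀ t : T, algebraMap T K t ∈ O)
    {A : Subalgebra T (Matrix (Fin n) (Fin n) K)} (M : Submodule T A) (hM : M.FG) {m : A}
    (hm : m ∈ M) (hm0 : m ≠ 0) :
    ∃ y ∈ M, ∃ a b : Fin n, (y : Matrix (Fin n) (Fin n) K) a b ≠ 0 ∧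
      ∀ x ∈ M, ∀ c d : Fin n, O.valuation ((x : Matrix (Fin n) (Fin n) K) c d) ≤
        O.valuation ((y : Matrix (Fin n) (Fin n) K) a b) := by
  classical
  obtain ⟨s, hs⟩ := hM
  -- there is an entry
  have hne : ∃ a b : Fin n, (m : Matrix (Fin n) (Fin n) K) a b ≠ 0 := by
    by_contra hcon
    push Not at hcon
    exact hm0 (Subtype.ext (by ext a b; exact hcon a b))
  obtain ⟨a0, b0, hab⟩ := hne
  have hsne : s.Nonempty := by
    rw [Finset.nonempty_iff_ne_empty]
    rintro rfl
    rw [Finset.coe_empty, Submodule.span_empty] at hs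
    rw [← hs] at hm
    exact hm0 ((Submodule.mem_bot T).1 hm)
  obtain ⟨q, hq, hmax⟩ := Finset.exists_max_image (s ×ˢ (Finset.univ : Finset (Fin n × Fin n)))
    (fun q => O.valuation ((q.1 : Matrix (Fin n) (Fin n) K) q.2.1 q.2.2))
    (hsne.product ⟨(a0, b0), Finset.mem_univ _⟩)
  have hle : ∀ x ∈ M, ∀ c d : Fin n, O.valuation ((x : Matrix (Fin n) (Fin n) K) c d) ≤
        O.valuation ((q.1 : Matrix (Fin n) (Fin n) K) q.2.1 q.2.2) := by
    intro x hx
    rw [← hs] at hx
    induction hx using Submodule.span_induction with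
    | mem x hx =>
      intro c d
      exact hmax (x, (c, d)) (Finset.mem_product.2 ⟨hx, Finset.mem_univ _⟩)
    | zero =>
      intro c d
      show O.valuation ((0 : Matrix (Fin n) (Fin n) K) c d) ≤ _
      rw [Matrix.zero_apply, map_zero]
      exact zero_le
    | add x y _ _ hx hy =>
      intro c d
      show O.valuation ((x : Matrix (Fin n) (Fin n) K) c d + (y : Matrix (Fin n) (Fin n) K) c d) ≤ _
      exact Valuation.map_add_le _ (hx c d) (hy c d)
    | smul t x _ hx =>
      intro c d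
      show O.valuation (t • (x : Matrix (Fin n) (Fin n) K) c d) ≤ _
      rw [Algebra.smul_def, map_mul]
      calc _ ≤ 1 * O.valuation ((x : Matrix (Fin n) (Fin n) K) c d) :=
            mul_le_mul_left ((O.valuation_le_one_iff _).2 (hO t)) _
        _ ≤ _ := by rw [one_mul]; exact hx c d
  refine ⟨q.1, hs ▸ Submodule.subset_span (Finset.mem_product.1 hq).1, q.2.1, q.2.2, ?_, hle⟩
  intro h0
  have h1 := hle m hm a0 b0
  rw [h0, map_zero, le_zero_iff, map_eq_zero] at h1
  exact hab h1

/-- if all generators of a submodule have entries of valuation smaller than `γ`, all elements do -/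
private theorem rd_lt {K : Type v} [Field K] (O : ValuationSubring K) {n : ℕ} {T : Type v}
    [CommRing T] [Algebra T K] (hO : ∀ t : T, algebraMap T K t ∈ O)
    {A : Subalgebra T (Matrix (Fin n) (Fin n) K)} (s : Set A) (γ : O.ValueGroup) (hγ : 0 < γ)
    (hs : ∀ x ∈ s, ∀ c d : Fin n, O.valuation ((x : Matrix (Fin n) (Fin n) K) c d) < γ)
    {x : A} (hx : x ∈ Submodule.span T s) (c d : Fin n) :
    O.valuation ((x : Matrix (Fin n) (Fin n) K) c d) < γ := by
  induction hx using Submodule.span_induction with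
  | mem x hx => exact hs x hx c d
  | zero =>
    show O.valuation ((0 : Matrix (Fin n) (Fin n) K) c d) < _
    rw [Matrix.zero_apply, map_zero]
    exact hγ
  | add x y _ _ hx hy =>
    show O.valuation ((x : Matrix (Fin n) (Fin n) K) c d + (y : Matrix (Fin n) (Fin n) K) c d) < _
    exact Valuation.map_add_lt _ hx hy
  | smul t x _ hx =>
    show O.valuation (t • (x : Matrix (Fin n) (Fin n) K) c d) < _
    rw [Algebra.smul_def, map_mul]
    calc _ ≤ 1 * O.valuation ((x : Matrix (Fin n) (Fin n) K) c d) :=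
          mul_le_mul_left ((O.valuation_le_one_iff _).2 (hO t)) _
      _ < _ := by rw [one_mul]; exact hx

/-- PROOF. For `g ∈ G`, `j < n ^ 2` let `E_j(g)` be the coefficient of index `j` of the characteristic polynomial of the left multiplication by `ρ g - 1`. With `M₀ ≤ R.A` the `T`-submodule generated by the `capf b z` (nonzero: `capf_ne_of_span` for `S = R.A`, `hspan`; finitely generated) we have
`E_j(g) • M₀ ≤ M₀` (`capF_up`-computation: `E_j(g) • capf b z = capF LA j b z`; here only the inclusion of `A` in the matrices is used, `capF_eq`, `capF_map`, `capf_map`). Let `T₂` be the `T`-subalgebra of `Ω` generated by all `E_j(g)`; it acts faithfully on `M₀` (`Ω` is a field), so it is isomorphic to a `T`-submodule of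
`Module.End T M₀`, hence a finite `T`-module and a noetherian ring. The ideal of `T₂` generated by all `E_j(g)`, `j < n ^ 2`, is generated by finitely many of them, occurring for `g = z_1..z_m`.
Let `H` contain `z_i ^ p ^ e_i` for all `i`, and let `O ≥ T` be a valuation subring with `p ∈ O.nonunits` and `(R.res H).Unip O`. By `Rep.sub_one_mem_of_pow` all eigenvalues `μ` of `ρ z_i` satisfy `μ - 1 ∈ O.nonunits`; so `E_j(z_i) ∈ O.nonunits` (`isRoot_mulLeft`, `coeff_mem_nonunits`). `T₂ ≤ O` (`mem_of_isIntegral`), so all `E_j(g)` are in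
`O.nonunits`, so `R.Unip O` (`root_mem_nonunits`, `isRoot_mulLeft`), and `R.Full` gives the claim. -/
theorem exists_detecting {p : ℕ} [Fact p.Prime] {G : Type u} [Group G] [TopologicalSpace G]
    {T : Type v} [CommRing T] [TopologicalSpace T] [CNR T] {Ω : Type v} [Field Ω] [IsAlgClosed Ω]
    [Algebra T Ω] {n : ℕ} (hn : 0 < n) (R : Rep p G T Ω n)
    (hspan : Submodule.span Ω (Set.range R.ρ) = ⊤) (h : R.Full) :
    ∃ (m : ℕ) (z : Fin m → G), ∀ H : Subgroup G, (∀ i, ∃ e : ℕ, z i ^ p ^ e ∈ H) →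
      (R.res H).Full := by
  classical
  have hinf : Infinite Ω := IsAlgClosed.instInfinite
  -- the module generated by the Capelli values
  let M : Submodule T R.A := Submodule.span T {x | ∃ b z : Fin (n ^ 2) → R.A, x = capf b z}
  have hMfg : M.FG := IsNoetherian.noetherian M
  obtain ⟨m0, hm0, hm0ne⟩ : ∃ m ∈ M, m ≠ 0 := by
    have hspan' : Submodule.span Ω (R.A : Set (Matrix (Fin n) (Fin n) Ω)) = ⊤ := by
      rw [eq_top_iff, ← hspan]
      exact Submodule.span_mono Algebra.subset_adjoin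
    obtain ⟨b, z, hb, hz, hne⟩ := capf_ne_of_span hn le_rfl hspan'
    refine ⟨capf (fun i => ⟨b i, hb i⟩) (fun i => ⟨z i, hz i⟩), Submodule.subset_span ⟨_, _, rfl⟩, ?_⟩
    intro h0
    apply hne
    have h1 := congrArg (R.A.val : R.A →+* Matrix (Fin n) (Fin n) Ω) h0
    rw [capf_map, map_zero] at h1
    exact h1
  -- stability
  have hstab : ∀ (g : G) (j : ℕ), j < n ^ 2 → ∀ x ∈ M, ∃ y ∈ M,
      (y : Matrix (Fin n) (Fin n) Ω) =
        (LinearMap.mulLeft Ω (R.ρ g - 1)).charpoly.coeff j • (x : Matrix (Fin n) (Fin n) Ω) := by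
    intro g j hj x hx
    induction hx using Submodule.span_induction with
    | mem x hx =>
      obtain ⟨b, z, rfl⟩ := hx
      refine ⟨capF (fun a => (R.j g - 1) * a) j b z, ?_,
        Red.capF_up (R := R) (L := LinearMap.mulLeft Ω (R.ρ g - 1))
          (LA := fun a => (R.j g - 1) * a) (fun a => rfl) hj.le b z⟩
      refine Submodule.sum_mem _ fun S _ => zsmul_mem ?_ _
      exact Submodule.subset_span ⟨b, _, rfl⟩
    | zero => exact ⟨0, zero_mem _, by
        show (0 : Matrix (Fin n) (Fin n) Ω) = _ • (0 : Matrix (Fin n) (Fin n) Ω)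
        rw [smul_zero]⟩
    | add x y _ _ hx hy =>
      obtain ⟨x', hx', ex⟩ := hx
      obtain ⟨y', hy', ey⟩ := hy
      refine ⟨x' + y', add_mem hx' hy', ?_⟩
      show (x' : Matrix (Fin n) (Fin n) Ω) + (y' : Matrix (Fin n) (Fin n) Ω) =
        _ • ((x : Matrix (Fin n) (Fin n) Ω) + (y : Matrix (Fin n) (Fin n) Ω))
      rw [ex, ey, smul_add]
    | smul t x _ hx =>
      obtain ⟨x', hx', ex⟩ := hx
      refine ⟨t • x', Submodule.smul_mem _ _ hx', ?_⟩
      show t • (x' : Matrix (Fin n) (Fin n) Ω) = _ • (t • (x : Matrix (Fin n) (Fin n) Ω))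
      rw [ex, smul_comm]
  -- the submodule generated by all products
  let S : Set R.A := {y | ∃ (g : G) (j : ℕ), j < n ^ 2 ∧ ∃ x ∈ M,
    (y : Matrix (Fin n) (Fin n) Ω) =
      (LinearMap.mulLeft Ω (R.ρ g - 1)).charpoly.coeff j • (x : Matrix (Fin n) (Fin n) Ω)}
  obtain ⟨s, hsS, hs⟩ := (Submodule.fg_span_iff_fg_span_finset_subset S).1
    (IsNoetherian.noetherian (Submodule.span T S))
  have hch : ∀ y : s, ∃ (g : G) (j : ℕ), j < n ^ 2 ∧ ∃ x ∈ M,
    ((y : R.A) : Matrix (Fin n) (Fin n) Ω) =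
      (LinearMap.mulLeft Ω (R.ρ g - 1)).charpoly.coeff j • (x : Matrix (Fin n) (Fin n) Ω) :=
    fun y => hsS y.2
  choose z hz using hch
  refine ⟨s.card, fun i => z (s.equivFin.symm i), fun H hH => ?_⟩
  intro O hO hp hU t ht
  refine h O hO hp ?_ t ht
  -- the generators
  have hgen : ∀ y : s, ∀ j < n ^ 2,
      (LinearMap.mulLeft Ω (R.ρ (z y) - 1)).charpoly.coeff j ∈ O.nonunits := by
    intro y
    rw [← rd_iff O (R.ρ (z y))]
    intro μ hμ
    obtain ⟨e, he⟩ := hH (s.equivFin y)
    simp only [Equiv.symm_apply_apply] at he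
    exact R.sub_one_mem_of_pow O hO hp (g := z y) (e := e)
      (fun ν hν => hU ⟨_, he⟩ ν hν) hμ
  obtain ⟨y0, hy0, a, b, hab, hmax⟩ := rd_exists_max O hO M hMfg hm0 hm0ne
  have hγ : 0 < O.valuation ((y0 : Matrix (Fin n) (Fin n) Ω) a b) := by
    rw [zero_lt_iff, ne_eq, map_eq_zero]
    exact hab
  have hN : ∀ y ∈ Submodule.span T S, ∀ c d : Fin n,
      O.valuation ((y : Matrix (Fin n) (Fin n) Ω) c d) <
        O.valuation ((y0 : Matrix (Fin n) (Fin n) Ω) a b) := by
    intro y hy c d
    rw [hs] at hy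
    refine rd_lt O hO (s : Set R.A) _ hγ (fun x hx c d => ?_) hy c d
    obtain ⟨j, hj, w, hw, hxw⟩ := hz ⟨x, hx⟩
    have h1 : (LinearMap.mulLeft Ω (R.ρ (z ⟨x, hx⟩) - 1)).charpoly.coeff j ∈ O.nonunits :=
      hgen ⟨x, hx⟩ j hj
    rw [show (x : Matrix (Fin n) (Fin n) Ω) = _ from hxw, Matrix.smul_apply, smul_eq_mul, map_mul]
    have h2 : O.valuation ((LinearMap.mulLeft Ω (R.ρ (z ⟨x, hx⟩) - 1)).charpoly.coeff j) < 1 :=
      O.mem_nonunits_iff.1 h1
    calc _ ≤ O.valuation ((LinearMap.mulLeft Ω (R.ρ (z ⟨x, hx⟩) - 1)).charpoly.coeff j) *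
          O.valuation ((y0 : Matrix (Fin n) (Fin n) Ω) a b) :=
          mul_le_mul_right (hmax w hw c d) _
      _ < 1 * O.valuation ((y0 : Matrix (Fin n) (Fin n) Ω) a b) :=
          mul_lt_mul_of_pos_right h2 hγ
      _ = _ := one_mul _
  intro g
  rw [rd_iff O (R.ρ g)]
  intro j hj
  obtain ⟨y, hy, hyy⟩ := hstab g j hj y0 hy0
  have h3 := hN y (Submodule.subset_span ⟨g, j, hj, y0, hy0, hyy⟩) a b
  rw [hyy, Matrix.smul_apply, smul_eq_mul, map_mul] at h3
  rw [ValuationSubring.mem_nonunits_iff]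
  by_contra hcon
  push Not at hcon
  refine absurd h3 (not_lt.2 ?_)
  calc _ = 1 * O.valuation ((y0 : Matrix (Fin n) (Fin n) Ω) a b) := (one_mul _).symm
    _ ≤ _ := mul_le_mul_left hcon _

end MP35
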