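import Pool.Agent.Lib_MP_3538b5_al.RDefs
import Pool.Agent.Lib_MP_3538b5_al.GComm

/-! # Piece RFF: a faithful irreducible factor -/

set_option autoImplicit false

namespace MP35

universe u v w x

/-- PROOF. Strong induction on `finrank K D`. `D ≠ 0` as `G` is not trivial. If `D` has no subspace `0 < U < D` stable under `α(A)`, choose a
basis of `D` and let `β` be `α` followed by the matrix of an endomorphism (`LinearMap.toMatrixAlgEquiv`); the subspaces of `Fin m → K` correspond to those of `D`.
Otherwise let `0 < U < D` be stable, `α₁ : A → End U` the restriction and `α₂ : A → End (D/U)` the quotient (`Submodule.mapQ`). Both inherit the relations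
`α a = ω • α b`. Let `N_i` be the kernel of `g ↦ α_i (j g)`, a normal subgroup. For `g, h ∈ N₁ ⊓ N₂` the product `(α (j g) - 1)(α (j h) - 1)` is zero
(`α (j h) - 1` maps `D` to `U`, `α (j g) - 1` kills `U`), so `α (j (g h)) = α (j g) + α (j h) - 1 = α (j (h g))` and `g h = h g`. So `N₁ ⊓ N₂` is a commutative
normal subgroup, hence `⊥` (`normal_noncomm`). If `N₁ ≠ ⊥` and `N₂ ≠ ⊥` then `N₁ ⊓ N₂ ≠ ⊥` (`normal_inter`). So `N₁ = ⊥` or `N₂ = ⊥`, and the
induction hypothesis applies to `α₁` or `α₂` (smaller dimension; then `m < finrank D`). -/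
theorem faithful_factor {p : ℕ} [Fact p.Prime] {G : Type u} [Group G] [TopologicalSpace G]
    [IsTopologicalGroup G] [CompactSpace G] [T2Space G] [TotallyDisconnectedSpace G] (hG : PF p G)
    {A : Type v} [Ring A] (j : G →* A) {K : Type x} [Field K] {D : Type w} [AddCommGroup D]
    [Module K D] [FiniteDimensional K D] (α : A →+* Module.End K D)
    (hα : Function.Injective fun g => α (j g)) :
    ∃ (m : ℕ) (β : A →+* Matrix (Fin m) (Fin m) K), (Function.Injective fun g => β (j g)) ∧
      (∀ (a b : A) (ω : K), α a = ω • α b → β a = ω • β b) ∧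
      (∀ U : Submodule K (Fin m → K), (∀ a, ∀ v ∈ U, Matrix.mulVec (β a) v ∈ U) → U = ⊥ ∨ U = ⊤) ∧
      m ≤ Module.finrank K D ∧ (m = Module.finrank K D →
        ∀ U : Submodule K D, (∀ a, ∀ v ∈ U, α a v ∈ U) → U = ⊥ ∨ U = ⊤) := by
  classical
  induction h : Module.finrank K D using Nat.strong_induction_on generalizing D with
  | _ d ih =>
  subst h
  by_cases hirr : ∀ U : Submodule K D, (∀ a, ∀ v ∈ U, α a v ∈ U) → U = ⊥ ∨ U = ⊤
  · -- irreducible
    let b : Module.Basis (Fin (Module.finrank K D)) K D := Module.finBasis K D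
    let β : A →+* Matrix (Fin (Module.finrank K D)) (Fin (Module.finrank K D)) K :=
      ((LinearMap.toMatrixAlgEquiv b).toRingEquiv.toRingHom).comp α
    have hβ : ∀ a, β a = LinearMap.toMatrixAlgEquiv b (α a) := fun a => rfl
    refine ⟨Module.finrank K D, β, ?_, ?_, ?_, le_rfl, fun _ => hirr⟩
    · intro g g' hgg
      exact hα ((LinearMap.toMatrixAlgEquiv b).injective hgg)
    · intro a a' ω ha
      rw [hβ, hβ, ha, map_smul]
    · intro U hU
      let U' : Submodule K D := U.comap (b.equivFun : D →ₗ[K] (Fin (Module.finrank K D) → K))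
      have hU' : ∀ a, ∀ v ∈ U', α a v ∈ U' := by
        intro a v hv
        show b.equivFun (α a v) ∈ U
        have e : b.equivFun (α a v) = Matrix.mulVec (β a) (b.equivFun v) := by
          rw [hβ]
          exact (LinearMap.toMatrix_mulVec_repr b b (α a) v).symm
        rw [e]
        exact hU a _ hv
      rcases hirr U' hU' with h1 | h1
      · left
        rw [eq_bot_iff]
        intro v hv
        have h2 : b.equivFun.symm v ∈ U' := by
          show b.equivFun (b.equivFun.symm v) ∈ U
          rw [LinearEquiv.apply_symm_apply]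
          exact hv
        rw [h1, Submodule.mem_bot] at h2
        rw [Submodule.mem_bot]
        exact (LinearEquiv.map_eq_zero_iff _).1 h2
      · right
        rw [eq_top_iff]
        intro v _
        have h2 : b.equivFun.symm v ∈ U' := by rw [h1]; trivial
        have h3 : b.equivFun (b.equivFun.symm v) ∈ U := h2
        rwa [LinearEquiv.apply_symm_apply] at h3
  · push Not at hirr
    obtain ⟨U, hU, hU0, hU1⟩ := hirr
    have hfr1 : Module.finrank K U < Module.finrank K D := Submodule.finrank_lt hU1
    have hfr2 : Module.finrank K (D ⧸ U) < Module.finrank K D := by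
      have h1 := Submodule.finrank_quotient_add_finrank U
      have h2 : 0 < Module.finrank K U := Module.finrank_pos_iff.2
        (Submodule.nontrivial_iff_ne_bot.2 hU0)
      omega
    let α₁ : A →+* Module.End K U :=
      { toFun := fun a => (α a).restrict (hU a)
        map_one' := by ext v; simp
        map_mul' := fun a b => by ext v; simp
        map_zero' := by ext v; simp
        map_add' := fun a b => by ext v; simp }
    have hα₁ : ∀ a (v : U), ((α₁ a v : U) : D) = α a v := fun a v => rfl
    let α₂ : A →+* Module.End K (D ⧸ U) :=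
      { toFun := fun a => U.mapQ U (α a) (hU a)
        map_one' := by ext v; simp
        map_mul' := fun a b => by ext v; simp
        map_zero' := by ext v; simp
        map_add' := fun a b => by ext v; simp }
    have hα₂ : ∀ a (v : D), α₂ a (U.mkQ v) = U.mkQ (α a v) := fun a v => rfl
    let φ₁ : G →* Module.End K U := (α₁ : A →* Module.End K U).comp j
    let φ₂ : G →* Module.End K (D ⧸ U) := (α₂ : A →* Module.End K (D ⧸ U)).comp j
    -- products of elements of both kernels
    have hprod : ∀ g ∈ φ₁.ker, ∀ g' ∈ φ₂.ker,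
        α (j (g * g')) = α (j g) + α (j g') - 1 := by
      intro g hg g' hg'
      have h1 : ∀ v ∈ U, α (j g) v = v := by
        intro v hv
        have : α₁ (j g) = 1 := hg
        have h2 := congrArg (fun f : Module.End K U => ((f ⟨v, hv⟩ : U) : D)) this
        exact h2
      have h2 : ∀ v, α (j g') v - v ∈ U := by
        intro v
        have : α₂ (j g') = 1 := hg'
        have h3 := congrArg (fun f : Module.End K (D ⧸ U) => f (U.mkQ v)) this
        have h4 : U.mkQ (α (j g') v) = U.mkQ v := h3
        rw [← sub_eq_zero, ← map_sub] at h4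
        exact (Submodule.Quotient.mk_eq_zero U).1 h4
      refine LinearMap.ext fun v => ?_
      have h5 := h1 _ (h2 v)
      rw [map_sub] at h5
      rw [map_mul, map_mul, Module.End.mul_apply, LinearMap.sub_apply, LinearMap.add_apply,
        Module.End.one_apply]
      rw [sub_eq_sub_iff_add_eq_add] at h5
      rw [eq_sub_iff_add_eq, h5, add_comm]
    have hker : φ₁.ker = ⊥ ∨ φ₂.ker = ⊥ := by
      by_contra hcon
      push Not at hcon
      have h1 := normal_inter hG.proP hG.lift φ₁.ker φ₂.ker inferInstance inferInstance hcon.1 hcon.2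
        hG.nc
      obtain ⟨g, hg, g', hg', hne⟩ := normal_noncomm hG.proP hG.lift (φ₁.ker ⊓ φ₂.ker) inferInstance
        h1 hG.nc
      apply hne
      apply hα
      show α (j (g * g')) = α (j (g' * g))
      rw [hprod g hg.1 g' hg'.2, hprod g' hg'.1 g hg.2]
      abel
    rcases hker with hk | hk
    · have hinj : Function.Injective fun g => α₁ (j g) := (MonoidHom.ker_eq_bot_iff φ₁).1 hk
      obtain ⟨m, β, h1, h2, h3, h4, -⟩ := ih _ hfr1 α₁ hinj rfl
      refine ⟨m, β, h1, ?_, h3, h4.trans hfr1.le, fun h => absurd h (by omega)⟩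
      intro a b ω hab
      refine h2 a b ω ?_
      refine LinearMap.ext fun v => Subtype.ext ?_
      show α a v = ω • α b v
      rw [hab]
      rfl
    · have hinj : Function.Injective fun g => α₂ (j g) := (MonoidHom.ker_eq_bot_iff φ₂).1 hk
      obtain ⟨m, β, h1, h2, h3, h4, -⟩ := ih _ hfr2 α₂ hinj rfl
      refine ⟨m, β, h1, ?_, h3, h4.trans hfr2.le, fun h => absurd h (by omega)⟩
      intro a b ω hab
      refine h2 a b ω ?_
      refine LinearMap.ext fun v => ?_
      obtain ⟨v, rfl⟩ := U.mkQ_surjective v
      rw [LinearMap.smul_apply, hα₂, hα₂, hab, LinearMap.smul_apply, map_smul]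

end MP35
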