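import Pool.Agent.Lib_MP_3538b5_al.RDefs
import Pool.Agent.Lib_MP_3538b5_al.GComm

/-! # Piece RPRI: the prime ideal -/

set_option autoImplicit false

namespace MP35

universe u v w

/-- the congruence subgroup of the ideal `I` is trivial -/
def congTriv {G : Type u} [Group G] (T : Type v) [CommRing T] {A : Type w} [Ring A] [Algebra T A]
    (j : G →* A) (I : Ideal T) : Prop := ∀ g, j g - 1 ∈ (I • ⊤ : Submodule T A) → g = 1

section ideals

variable {T : Type v} [CommRing T] {A : Type w} [Ring A] [Algebra T A]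

private theorem smul_top_mul' {I : Ideal T} {x : A} (hx : x ∈ (I • ⊤ : Submodule T A)) (a : A) :
    x * a ∈ (I • ⊤ : Submodule T A) := by
  refine Submodule.smul_induction_on hx (fun t ht y _ => ?_) fun y z hy hz => ?_
  · rw [smul_mul_assoc]
    exact Submodule.smul_mem_smul ht trivial
  · rw [add_mul]
    exact add_mem hy hz

private theorem mul_smul_top' {I : Ideal T} {x : A} (hx : x ∈ (I • ⊤ : Submodule T A)) (a : A) :
    a * x ∈ (I • ⊤ : Submodule T A) := by
  refine Submodule.smul_induction_on hx (fun t ht y _ => ?_) fun y z hy hz => ?_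
  · rw [mul_smul_comm]
    exact Submodule.smul_mem_smul ht trivial
  · rw [mul_add]
    exact add_mem hy hz

/-- the two-sided ideal generated by an ideal of `T` -/
private def topI (A : Type w) [Ring A] [Algebra T A] (I : Ideal T) : Ideal A where
  carrier := {a | a ∈ (I • ⊤ : Submodule T A)}
  zero_mem' := Submodule.zero_mem (I • ⊤ : Submodule T A)
  add_mem' := fun ha hb => Submodule.add_mem (I • ⊤ : Submodule T A) ha hb
  smul_mem' := fun c _ hx => mul_smul_top' hx c

private theorem mem_topI {I : Ideal T} {a : A} : a ∈ topI A I ↔ a ∈ (I • ⊤ : Submodule T A) := Iff.rfl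

private instance topI_two (I : Ideal T) : (topI A I).IsTwoSided := ⟨fun a h => smul_top_mul' h a⟩

private theorem topI_mul {I J P : Ideal T} (h : I * J ≤ P) {a b : A} (ha : a ∈ topI A I)
    (hb : b ∈ topI A J) : a * b ∈ topI A P := by
  rw [mem_topI] at ha ⊢
  refine Submodule.smul_induction_on ha (fun t ht y _ => ?_) fun y z hy hz => ?_
  · rw [smul_mul_assoc]
    have h1 : y * b ∈ (J • ⊤ : Submodule T A) := mul_smul_top' hb y
    have h2 : t • (y * b) ∈ (I • (J • ⊤) : Submodule T A) := Submodule.smul_mem_smul ht h1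
    rw [← Submodule.mul_smul] at h2
    exact Submodule.smul_mono_left h h2
  · rw [add_mul]
    exact add_mem hy hz

end ideals

section

variable {G : Type u} [Group G] {A : Type w} [Ring A]

/-- the kernel modulo a two-sided ideal -/
private def kerI (j : G →* A) (Q : Ideal A) [Q.IsTwoSided] : Subgroup G :=
  (((Ideal.Quotient.mk Q : A →+* A ⧸ Q) : A →* A ⧸ Q).comp j).ker

private theorem mem_kerI {j : G →* A} {Q : Ideal A} [Q.IsTwoSided] {g : G} :
    g ∈ kerI j Q ↔ j g - 1 ∈ Q := by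
  unfold kerI
  rw [MonoidHom.mem_ker, ← Ideal.Quotient.eq_zero_iff_mem, map_sub, map_one, sub_eq_zero]
  rfl

private instance kerI_normal (j : G →* A) (Q : Ideal A) [Q.IsTwoSided] : (kerI j Q).Normal := by
  unfold kerI
  infer_instance

private theorem comm_of_ideals (j : G →* A) {Q₁ Q₂ Q₃ : Ideal A} [Q₁.IsTwoSided] [Q₂.IsTwoSided]
    [Q₃.IsTwoSided] (h1 : ∀ a ∈ Q₁, ∀ b ∈ Q₂, a * b ∈ Q₃) (h2 : ∀ a ∈ Q₁, ∀ b ∈ Q₂, b * a ∈ Q₃)
    (h3 : ∀ g, j g - 1 ∈ Q₃ → g = 1) :
    ∀ g ∈ kerI j Q₁, ∀ h ∈ kerI j Q₂, g * h = h * g := by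
  intro g hg h hh
  rw [mem_kerI] at hg hh
  have h4 : j (g * h) - j (h * g) ∈ Q₃ := by
    have e : j (g * h) - j (h * g)
        = (j g - 1) * (j h - 1) - (j h - 1) * (j g - 1) := by
      rw [map_mul, map_mul]
      noncomm_ring
    rw [e]
    exact Q₃.sub_mem (h1 _ hg _ hh) (h2 _ hg _ hh)
  have h5 : j (g * h * (h * g)⁻¹) - 1 ∈ Q₃ := by
    have e : j (g * h * (h * g)⁻¹) - 1 = (j (g * h) - j (h * g)) * j (h * g)⁻¹ := by
      rw [sub_mul, ← map_mul, ← map_mul, mul_inv_cancel, map_one]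
    rw [e]
    exact Ideal.IsTwoSided.mul_mem_of_left _ h4
  exact mul_inv_eq_one.1 (h3 _ h5)

end

section

variable {p : ℕ} [Fact p.Prime] {G : Type u} [Group G] [TopologicalSpace G]
    [IsTopologicalGroup G] [CompactSpace G] [T2Space G] [TotallyDisconnectedSpace G]
    {T : Type v} [CommRing T] [IsNoetherianRing T] {A : Type w} [Ring A] [Algebra T A]

private theorem kerI_ne_bot {j : G →* A} {I : Ideal T} (h : ¬ congTriv T j I) :
    kerI j (topI A I) ≠ ⊥ := by
  intro hb
  apply h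
  intro g hg
  have : g ∈ kerI j (topI A I) := mem_kerI.2 hg
  rwa [hb, Subgroup.mem_bot] at this

/-- PROOF. `T` is noetherian: among the ideals `P ≥ I₀` with `congTriv T j P` choose a maximal one (`set_has_maximal_iff_noetherian`). `P ≠ ⊤` because
otherwise all `g` are in the congruence subgroup and `G` is trivial. Let `x y ∈ P`, `x, y ∉ P`, `I = P + (x)`, `J = P + (y)`; `I * J ≤ P`. The congruence subgroups
`N_I`, `N_J` (normal: `(I • ⊤)` is a two-sided ideal of `A`, see `Rep.NI`, `Rep.NI_normal` in RDefs for the same computation) are nontrivial by maximality, so `N_I ⊓ N_J ≠ ⊥`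
(`normal_inter`), in particular (or by `normal_comm'`) there are `g ∈ N_I`, `h ∈ N_J` with `g h ≠ h g` (apply `normal_comm'`: if `N_I` and `N_J` commute elementwise
then one of them is trivial or `G` is commutative). With `u = j g - 1 ∈ I • ⊤`, `v = j h - 1 ∈ J • ⊤`: `j (g h) - j (h g) = u v - v u ∈ (I * J) • ⊤ ≤ P • ⊤`, so
`j (g h g⁻¹ h⁻¹) - 1 ∈ P • ⊤` and `g h g⁻¹ h⁻¹ = 1`, contradiction. -/
theorem exists_prime_cong (hG : PF p G) (j : G →* A) {I₀ : Ideal T} (h : congTriv T j I₀) :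
    ∃ P : Ideal T, P.IsPrime ∧ I₀ ≤ P ∧ congTriv T j P ∧ ∀ J : Ideal T, P < J → ¬ congTriv T j J := by
  obtain ⟨P, ⟨hP0, hPt⟩, hmax⟩ := set_has_maximal_iff_noetherian.2
    (inferInstanceAs (IsNoetherian T T)) {P : Ideal T | I₀ ≤ P ∧ congTriv T j P} ⟨I₀, le_rfl, h⟩
  have hmax' : ∀ J : Ideal T, P < J → ¬ congTriv T j J := fun J hJ hJt =>
    hmax J ⟨hP0.trans hJ.le, hJt⟩ hJ
  refine ⟨P, ⟨?_, ?_⟩, hP0, hPt, hmax'⟩
  · rintro rfl
    obtain ⟨x, y, hxy⟩ := hG.nc
    have h1 : ∀ g : G, g = 1 := fun g => hPt g (by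
      rw [Submodule.top_smul]
      trivial)
    exact hxy (by rw [h1 x, h1 y])
  · intro x y hxy
    by_contra hcon
    rw [not_or] at hcon
    obtain ⟨hx, hy⟩ := hcon
    have hI : P < P ⊔ Ideal.span {x} := by
      refine lt_of_le_of_ne le_sup_left fun he => hx ?_
      rw [he]
      exact Ideal.mem_sup_right (Ideal.mem_span_singleton_self x)
    have hJ : P < P ⊔ Ideal.span {y} := by
      refine lt_of_le_of_ne le_sup_left fun he => hy ?_
      rw [he]
      exact Ideal.mem_sup_right (Ideal.mem_span_singleton_self y)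
    have hIJ : (P ⊔ Ideal.span {x}) * (P ⊔ Ideal.span {y}) ≤ P := by
      rw [Ideal.sup_mul, Ideal.mul_sup, Ideal.mul_sup]
      refine sup_le (sup_le Ideal.mul_le_left Ideal.mul_le_left) (sup_le Ideal.mul_le_right ?_)
      rw [Ideal.span_singleton_mul_span_singleton, Ideal.span_singleton_le_iff_mem]
      exact hxy
    have hJI : (P ⊔ Ideal.span {y}) * (P ⊔ Ideal.span {x}) ≤ P := by
      rw [mul_comm]
      exact hIJ
    obtain ⟨a, b, hab⟩ := hG.nc
    exact hab (normal_comm' hG.proP hG.lift (kerI j (topI A (P ⊔ Ideal.span {x})))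
      (kerI j (topI A (P ⊔ Ideal.span {y}))) inferInstance (kerI_ne_bot (hmax' _ hI))
      (kerI_ne_bot (hmax' _ hJ))
      (comm_of_ideals j (Q₃ := topI A P) (fun a ha b hb => topI_mul hIJ ha hb)
        (fun a ha b hb => topI_mul hJI hb ha) hPt) a b)

/-- PROOF. Let `J₀ = {a | ∃ s ∉ P, s • a ∈ P • ⊤}`, a two-sided ideal of `A` and a `T`-submodule, `B = A / J₀` (use `RingCon`/`TwoSidedIdeal` quotients, or
`RingQuot`, or define `B` by any construction of the quotient of a noncommutative ring by a two-sided ideal which is a `T`-algebra). `J₀` is finitely generated over `T`,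
so there is one `s ∉ P` with `s • J₀ ≤ P • ⊤`. Let `g` with `v = j g - 1 ∈ J₀`; these `g` form a normal subgroup `H₁`. The congruence subgroup `N` of `P + (s)` is nontrivial
by maximality. For `h ∈ N`, `u = j h - 1 ∈ P • ⊤ + s • ⊤`: `u v` and `v u` are in `P • ⊤` (`s • J₀ ≤ P • ⊤`, `J₀` two-sided), so `j (g h) - j (h g) ∈ P • ⊤` and `g h = h g`
as in `exists_prime_cong`. So `H₁` and `N` commute, `N ≠ ⊥`, hence `H₁ = ⊥` (`normal_comm'`). The last two properties: `t ∈ P` kills `A / J₀`; if `t • b = 0`, `t ∉ P`, then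
`t • a ∈ J₀`, `s' t • a ∈ P • ⊤`, so `a ∈ J₀`. -/
theorem torsion_quot (hG : PF p G) [Module.Finite T A] (j : G →* A) {P : Ideal T} (hp : P.IsPrime)
    (hP : congTriv T j P) (hmax : ∀ J : Ideal T, P < J → ¬ congTriv T j J) :
    ∃ (B : Type w) (_ : Ring B) (_ : Algebra T B) (q : A →ₐ[T] B), Function.Surjective q ∧
      (Function.Injective fun g => q (j g)) ∧ (∀ t ∈ P, ∀ b : B, t • b = 0) ∧
      (∀ (t : T) (b : B), t • b = 0 → t ∈ P ∨ b = 0) := by
  classical
  -- the torsion modulo `P`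
  let J₀ : Ideal A :=
    { carrier := {a | ∃ s : T, s ∉ P ∧ s • a ∈ (P • ⊤ : Submodule T A)}
      zero_mem' := ⟨1, fun h => hp.ne_top ((Ideal.eq_top_iff_one P).2 h), by
        rw [smul_zero]; exact zero_mem _⟩
      add_mem' := by
        rintro a b ⟨s, hs, ha⟩ ⟨t, ht, hb⟩
        refine ⟨s * t, fun h => (hp.mem_or_mem h).elim hs ht, ?_⟩
        rw [smul_add]
        refine add_mem ?_ ?_
        · rw [mul_comm, mul_smul]
          exact Submodule.smul_mem _ _ ha
        · rw [mul_smul]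
          exact Submodule.smul_mem _ _ hb
      smul_mem' := by
        rintro c a ⟨s, hs, ha⟩
        refine ⟨s, hs, ?_⟩
        rw [smul_eq_mul, ← mul_smul_comm]
        exact mul_smul_top' ha c }
  have hJ₀ : ∀ a, a ∈ J₀ ↔ ∃ s : T, s ∉ P ∧ s • a ∈ (P • ⊤ : Submodule T A) := fun a => Iff.rfl
  have hJ₀two : J₀.IsTwoSided := ⟨by
    rintro a b ⟨s, hs, ha⟩
    refine ⟨s, hs, ?_⟩
    rw [← smul_mul_assoc]
    exact smul_top_mul' ha b⟩
  have h1P : (1 : T) ∉ P := fun h => hp.ne_top ((Ideal.eq_top_iff_one P).2 h)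
  have hPJ : ∀ a ∈ (P • ⊤ : Submodule T A), a ∈ J₀ := fun a ha => ⟨1, h1P, by rwa [one_smul]⟩
  -- one denominator
  obtain ⟨s, hs, hsJ⟩ : ∃ s : T, s ∉ P ∧ ∀ a ∈ J₀, s • a ∈ (P • ⊤ : Submodule T A) := by
    have hfg : (J₀.restrictScalars T : Submodule T A).FG :=
      IsNoetherian.noetherian _
    obtain ⟨F, hF⟩ := hfg
    have h1 : ∀ a ∈ F, ∃ s : T, s ∉ P ∧ s • a ∈ (P • ⊤ : Submodule T A) := by
      intro a ha
      have : a ∈ (J₀.restrictScalars T : Submodule T A) := by
        rw [← hF]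
        exact Submodule.subset_span ha
      exact this
    choose! f hf using h1
    refine ⟨∏ a ∈ F, f a, ?_, ?_⟩
    · intro h
      obtain ⟨a, ha, hfa⟩ := (hp.prod_mem_iff).1 h
      exact (hf a ha).1 hfa
    · intro a ha
      have ha' : a ∈ Submodule.span T (F : Set A) := by
        rw [hF]
        exact ha
      refine Submodule.span_induction (p := fun a _ => (∏ a ∈ F, f a) • a ∈ (P • ⊤ : Submodule T A))
        ?_ ?_ ?_ ?_ ha'
      · intro x hx
        rw [← Finset.mul_prod_erase F f hx, mul_comm, mul_smul]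
        exact Submodule.smul_mem _ _ (hf x hx).2
      · rw [smul_zero]
        exact zero_mem _
      · intro x y _ _ hx hy
        rw [smul_add]
        exact add_mem hx hy
      · intro t x _ hx
        rw [smul_comm]
        exact Submodule.smul_mem _ _ hx
  have hlt : P < P ⊔ Ideal.span {s} := by
    refine lt_of_le_of_ne le_sup_left fun he => hs ?_
    rw [he]
    exact Ideal.mem_sup_right (Ideal.mem_span_singleton_self s)
  have key : ∀ t ∈ P ⊔ Ideal.span {s}, ∀ a ∈ J₀, t • a ∈ (P • ⊤ : Submodule T A) := by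
    intro t ht a ha
    obtain ⟨t₁, ht₁, t₂, ht₂, rfl⟩ := Submodule.mem_sup.1 ht
    obtain ⟨c, rfl⟩ := Ideal.mem_span_singleton'.1 ht₂
    rw [add_smul]
    refine add_mem (Submodule.smul_mem_smul ht₁ trivial) ?_
    rw [mul_smul]
    exact Submodule.smul_mem _ _ (hsJ a ha)
  have hcomm := comm_of_ideals j (Q₁ := J₀) (Q₂ := topI A (P ⊔ Ideal.span {s})) (Q₃ := topI A P)
    (by
      intro a ha b hb
      rw [mem_topI] at hb ⊢
      refine Submodule.smul_induction_on hb (fun t ht y _ => ?_) fun y z hy hz => ?_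
      · rw [mul_smul_comm]
        exact key t ht _ (Ideal.IsTwoSided.mul_mem_of_left y ha)
      · rw [mul_add]
        exact add_mem hy hz)
    (by
      intro a ha b hb
      rw [mem_topI] at hb ⊢
      refine Submodule.smul_induction_on hb (fun t ht y _ => ?_) fun y z hy hz => ?_
      · rw [smul_mul_assoc]
        exact key t ht _ (J₀.mul_mem_left y ha)
      · rw [add_mul]
        exact add_mem hy hz)
    hP
  have hbot : kerI j J₀ = ⊥ := by
    by_contra hne
    obtain ⟨a, b, hab⟩ := hG.nc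
    exact hab (normal_comm' hG.proP hG.lift (kerI j J₀)
      (kerI j (topI A (P ⊔ Ideal.span {s}))) inferInstance hne (kerI_ne_bot (hmax _ hlt)) hcomm a b)
  refine ⟨A ⧸ J₀, inferInstance, inferInstance, Ideal.Quotient.mkₐ T J₀,
    Ideal.Quotient.mkₐ_surjective T J₀, ?_, ?_, ?_⟩
  · intro g g' hgg
    have h1 : j g - j g' ∈ J₀ := by
      rw [← Ideal.Quotient.eq_zero_iff_mem, map_sub, sub_eq_zero]
      exact hgg
    have h2 : g * g'⁻¹ ∈ kerI j J₀ := by
      rw [mem_kerI]
      have e : j (g * g'⁻¹) - 1 = (j g - j g') * j g'⁻¹ := by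
        rw [sub_mul, ← map_mul, ← map_mul, mul_inv_cancel, map_one]
      rw [e]
      exact Ideal.IsTwoSided.mul_mem_of_left _ h1
    rw [hbot, Subgroup.mem_bot] at h2
    exact mul_inv_eq_one.1 h2
  · intro t ht b
    obtain ⟨a, rfl⟩ := Ideal.Quotient.mkₐ_surjective T J₀ b
    rw [← map_smul]
    exact Ideal.Quotient.eq_zero_iff_mem.2 (hPJ _ (Submodule.smul_mem_smul ht trivial))
  · intro t b hb
    obtain ⟨a, rfl⟩ := Ideal.Quotient.mkₐ_surjective T J₀ b
    rw [← map_smul] at hb
    obtain ⟨s', hs', h1⟩ := Ideal.Quotient.eq_zero_iff_mem.1 hb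
    by_cases ht : t ∈ P
    · exact Or.inl ht
    · right
      refine Ideal.Quotient.eq_zero_iff_mem.2 ⟨s' * t, fun h => (hp.mem_or_mem h).elim hs' ht, ?_⟩
      rw [mul_smul]
      exact h1

end

end MP35
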