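import Mathlib

/-!
# Piece RCAP: the Capelli polynomial

`capf b z = Σ_σ sign σ · Π_k (b_k z_{σ k})`, defined in every ring, natural under ring homomorphisms and
alternating in `z`.
-/

set_option autoImplicit false

namespace MP35

universe u v w

/-- the Capelli polynomial, alternating in `z` -/
def capf {B : Type u} [Ring B] {m : ℕ} (b z : Fin m → B) : B :=
  ∑ σ : Equiv.Perm (Fin m), ((Equiv.Perm.sign σ : ℤˣ) : ℤ) • (List.ofFn fun k => b k * z (σ k)).prod

/-- the expansion coefficients of `capf b ((X - L) z)` -/
def capF {B : Type u} [Ring B] {m : ℕ} (L : B → B) (j : ℕ) (b z : Fin m → B) : B :=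
  ∑ S ∈ (Finset.univ : Finset (Fin m)).powersetCard (m - j),
    (-1 : ℤ) ^ (m - j) • capf b (fun i => if i ∈ S then L (z i) else z i)

/-- PROOF. Unfold, `map_sum`, `map_zsmul`, `map_list_prod`. -/
theorem capf_map {B : Type u} {C : Type v} [Ring B] [Ring C] (f : B →+* C) {m : ℕ}
    (b z : Fin m → B) : f (capf b z) = capf (fun i => f (b i)) (fun i => f (z i)) := by
  simp only [capf, map_sum, map_zsmul, map_list_prod, List.map_ofFn]
  refine Finset.sum_congr rfl fun σ _ => ?_
  congr 3
  funext k
  simp

/-- PROOF. `capf_map` for every summand. -/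
theorem capF_map {B : Type u} {C : Type v} [Ring B] [Ring C] (f : B →+* C) {L : B → B} {L' : C → C}
    (h : ∀ x, f (L x) = L' (f x)) {m : ℕ} (j : ℕ) (b z : Fin m → B) :
    f (capF L j b z) = capF L' j (fun i => f (b i)) (fun i => f (z i)) := by
  simp only [capF, map_sum, map_zsmul, capf_map]
  refine Finset.sum_congr rfl fun S _ => ?_
  congr 2
  funext i
  split_ifs with hi
  · exact h _
  · rfl

section

variable {K : Type v} [Field K] {n : ℕ}

/-- the multilinear map `z ↦ Π_k (b_k z_k)` -/
private noncomputable def pml {m : ℕ} (b : Fin m → Matrix (Fin n) (Fin n) K) :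
    MultilinearMap K (fun _ : Fin m => Matrix (Fin n) (Fin n) K) (Matrix (Fin n) (Fin n) K) :=
  (MultilinearMap.mkPiAlgebraFin K m (Matrix (Fin n) (Fin n) K)).compLinearMap
    (fun k => LinearMap.mulLeft K (b k))

private theorem pml_apply {m : ℕ} (b z : Fin m → Matrix (Fin n) (Fin n) K) :
    pml b z = (List.ofFn fun k => b k * z k).prod := by
  simp [pml, MultilinearMap.mkPiAlgebraFin_apply]

/-- the alternating map `z ↦ capf b z` -/
noncomputable def capAlt {m : ℕ} (b : Fin m → Matrix (Fin n) (Fin n) K) :
    Matrix (Fin n) (Fin n) K [⋀^Fin m]→ₗ[K] Matrix (Fin n) (Fin n) K :=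
  MultilinearMap.alternatization (pml b)

theorem capAlt_apply {m : ℕ} (b z : Fin m → Matrix (Fin n) (Fin n) K) :
    capAlt b z = capf b z := by
  rw [capAlt, MultilinearMap.alternatization_apply, capf]
  refine Finset.sum_congr rfl fun σ _ => ?_
  rw [MultilinearMap.domDomCongr_apply, pml_apply, Units.smul_def]

/-- the multilinear map `b ↦ capf b z` -/
private noncomputable def capLeft {m : ℕ} (z : Fin m → Matrix (Fin n) (Fin n) K) :
    MultilinearMap K (fun _ : Fin m => Matrix (Fin n) (Fin n) K) (Matrix (Fin n) (Fin n) K) :=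
  ∑ σ : Equiv.Perm (Fin m), ((Equiv.Perm.sign σ : ℤˣ) : ℤ) •
    (MultilinearMap.mkPiAlgebraFin K m (Matrix (Fin n) (Fin n) K)).compLinearMap
      (fun k => LinearMap.mulRight K (z (σ k)))

private theorem capLeft_apply {m : ℕ} (b z : Fin m → Matrix (Fin n) (Fin n) K) :
    capLeft z b = capf b z := by
  simp [capLeft, capf, MultilinearMap.sum_apply, MultilinearMap.mkPiAlgebraFin_apply]

/-- PROOF. `z ↦ capf b z` is (the value of) an alternating `m`-linear map on a space of dimension `n^2 < m`
(`MultilinearMap.alternatization` of `z ↦ Π_k (b_k z_k)`, which is `MultilinearMap.mkPiAlgebraFin` composed with left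
multiplications); `z` is linearly dependent (`AlternatingMap.map_linearDependent`). -/
theorem capf_eq_zero {m : ℕ} (hm : n ^ 2 < m) (b z : Fin m → Matrix (Fin n) (Fin n) K) :
    capf b z = 0 := by
  rw [← capAlt_apply]
  refine AlternatingMap.map_linearDependent _ _ fun hli => ?_
  have h := hli.fintype_card_le_finrank
  rw [Module.finrank_matrix] at h
  simp only [Fintype.card_fin, Module.finrank_self, mul_one] at h
  rw [sq] at hm
  omega

private theorem alt_det {M : Type u} {N : Type w} [AddCommGroup M] [Module K M] [AddCommGroup N]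
    [Module K N] {m : ℕ} (e : Module.Basis (Fin m) K M) (ω : M [⋀^Fin m]→ₗ[K] N)
    (z : Fin m → M) : ω z = e.det z • ω e := by
  have hω : ω = (LinearMap.toSpanSingleton K N (ω e)).compAlternatingMap e.det := by
    refine Module.Basis.ext_alternating e fun i h => ?_
    let σ : Equiv.Perm (Fin m) := Equiv.ofBijective i (Finite.injective_iff_bijective.1 h)
    change ω (e ∘ σ) = ((LinearMap.toSpanSingleton K N (ω e)).compAlternatingMap e.det) (e ∘ σ)
    rw [AlternatingMap.map_perm, AlternatingMap.map_perm]
    congr 1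
    simp [Module.Basis.det_self]
  conv_lhs => rw [hω]
  simp

private theorem alt_comp {M : Type u} {N : Type w} [AddCommGroup M] [Module K M] [AddCommGroup N]
    [Module K N] {m : ℕ} (e : Module.Basis (Fin m) K M) (ω : M [⋀^Fin m]→ₗ[K] N)
    (f : M →ₗ[K] M) (z : Fin m → M) : ω (fun i => f (z i)) = LinearMap.det f • ω z := by
  rw [alt_det e ω (fun i => f (z i)), alt_det e ω z]
  have h := e.det_comp f z
  rw [show (f ∘ z) = fun i => f (z i) from rfl] at h
  rw [h, mul_smul]

/-- PROOF. For an alternating map `ω` in `m = n^2 = dim` variables, `ω (f ∘ z) = det f • ω z` for every endomorphism `f`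
(both sides are alternating in `z`, compare on a basis, `AlternatingMap.eq_smul_basis_det` / `LinearMap.det_comp`...).
Apply it to `f = t • 1 - L`, `t ∈ K`: `ω ((t - L) ∘ z) = L.charpoly.eval t • ω z`. Expand the left side multilinearly
(`MultilinearMap.map_add_univ`): it is `Σ_j t^j • capF L j b z`. If `K` is infinite, compare coefficients; in general pass to the
fraction field of `K[t]` or work with `K[X]`-valued matrices. It is enough (and allowed) to assume `K` infinite. -/
theorem capF_eq [Infinite K] (L : Module.End K (Matrix (Fin n) (Fin n) K)) {j : ℕ} (hj : j ≤ n ^ 2)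
    (b z : Fin (n ^ 2) → Matrix (Fin n) (Fin n) K) :
    capF L j b z = L.charpoly.coeff j • capf b z := by
  have hfr : Module.finrank K (Matrix (Fin n) (Fin n) K) = n ^ 2 := by
    rw [Module.finrank_matrix]; simp [sq]
  let e : Module.Basis (Fin (n ^ 2)) K (Matrix (Fin n) (Fin n) K) :=
    Module.finBasisOfFinrankEq K _ hfr
  -- evaluation at a scalar
  have key : ∀ t : K, ∑ i ∈ Finset.range (n ^ 2 + 1), t ^ i • capF L i b z
      = L.charpoly.eval t • capf b z := by
    intro t
    rw [LinearMap.eval_charpoly, ← capAlt_apply, ← alt_comp e]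
    have h1 : (fun i => (algebraMap K (Module.End K (Matrix (Fin n) (Fin n) K)) t - L) (z i))
        = (fun i => - L (z i)) + (fun i => t • z i) := by
      funext i
      simp only [LinearMap.sub_apply, Pi.add_apply, Module.algebraMap_end_apply]
      abel
    rw [h1, ← AlternatingMap.coe_multilinearMap, MultilinearMap.map_add_univ]
    have h2 : ∀ s : Finset (Fin (n ^ 2)),
        ((capAlt b : Matrix (Fin n) (Fin n) K [⋀^Fin (n ^ 2)]→ₗ[K] Matrix (Fin n) (Fin n) K) :
          MultilinearMap K (fun _ : Fin (n ^ 2) => Matrix (Fin n) (Fin n) K)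
            (Matrix (Fin n) (Fin n) K))
          (s.piecewise (fun i => - L (z i)) (fun i => t • z i))
        = t ^ (n ^ 2 - s.card) • ((-1 : ℤ) ^ s.card •
            capf b (fun i => if i ∈ s then L (z i) else z i)) := by
      intro s
      have h3 : s.piecewise (fun i => - L (z i)) (fun i => t • z i)
          = fun i => (if i ∈ s then (-1 : K) else t) • (if i ∈ s then L (z i) else z i) := by
        funext i
        by_cases hi : i ∈ s
        · simp [Finset.piecewise, hi]
        · simp [Finset.piecewise, hi]
      rw [h3, MultilinearMap.map_smul_univ, AlternatingMap.coe_multilinearMap, capAlt_apply,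
        Finset.prod_ite]
      simp only [Finset.prod_const]
      have h4 : (Finset.univ.filter (fun i => i ∈ s)).card = s.card := by
        congr 1; ext i; simp
      have h5 : (Finset.univ.filter (fun i => i ∉ s)).card = n ^ 2 - s.card := by
        have h6 : Finset.univ.filter (fun i => i ∉ s) = sᶜ := by ext i; simp
        rw [h6, Finset.card_compl, Fintype.card_fin]
      rw [h4, h5, mul_comm, mul_smul]
      congr 1
      rcases Nat.even_or_odd s.card with hs | hs
      · rw [hs.neg_one_pow, hs.neg_one_pow]; simp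
      · rw [hs.neg_one_pow, hs.neg_one_pow]; simp
    rw [Finset.sum_congr rfl fun s _ => h2 s]
    -- group by cardinality
    have h7 : ∀ i ∈ Finset.range (n ^ 2 + 1), t ^ i • capF L i b z
        = ∑ s ∈ (Finset.univ : Finset (Fin (n ^ 2))).powersetCard (n ^ 2 - i),
          t ^ (n ^ 2 - s.card) • ((-1 : ℤ) ^ s.card •
            capf b (fun i => if i ∈ s then L (z i) else z i)) := by
      intro i hi
      rw [capF, Finset.smul_sum]
      refine Finset.sum_congr rfl fun s hs => ?_
      rw [Finset.mem_powersetCard] at hs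
      rw [hs.2]
      congr 2
      have := Finset.mem_range.1 hi
      omega
    rw [Finset.sum_congr rfl h7]
    rw [← Finset.sum_range_reflect]
    have h8 : ∀ i ∈ Finset.range (n ^ 2 + 1),
        (∑ s ∈ (Finset.univ : Finset (Fin (n ^ 2))).powersetCard (n ^ 2 - (n ^ 2 + 1 - 1 - i)),
          t ^ (n ^ 2 - s.card) • ((-1 : ℤ) ^ s.card •
            capf b (fun i => if i ∈ s then L (z i) else z i)))
        = ∑ s ∈ (Finset.univ : Finset (Fin (n ^ 2))).powersetCard i,
          t ^ (n ^ 2 - s.card) • ((-1 : ℤ) ^ s.card •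
            capf b (fun i => if i ∈ s then L (z i) else z i)) := by
      intro i hi
      have := Finset.mem_range.1 hi
      rw [show n ^ 2 - (n ^ 2 + 1 - 1 - i) = i by omega]
    rw [Finset.sum_congr rfl h8]
    have h9 := Finset.sum_powerset (Finset.univ : Finset (Fin (n ^ 2)))
      (fun s => t ^ (n ^ 2 - s.card) • ((-1 : ℤ) ^ s.card •
            capf b (fun i => if i ∈ s then L (z i) else z i)))
    rw [Finset.powerset_univ, Finset.card_univ, Fintype.card_fin] at h9
    exact h9.symm
  -- compare the coefficients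
  ext p q
  let P : Polynomial K := ∑ i ∈ Finset.range (n ^ 2 + 1),
    Polynomial.C (capF L i b z p q) * Polynomial.X ^ i
  have hP : P = L.charpoly * Polynomial.C (capf b z p q) := by
    refine Polynomial.funext fun t => ?_
    have h1 := congrFun (congrFun (key t) p) q
    simp only [Matrix.sum_apply, Matrix.smul_apply, smul_eq_mul] at h1
    simp only [P, Polynomial.eval_finsetSum, Polynomial.eval_mul, Polynomial.eval_C,
      Polynomial.eval_pow, Polynomial.eval_X]
    rw [← h1]
    exact Finset.sum_congr rfl fun i _ => mul_comm _ _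
  have h2 := congrArg (fun Q : Polynomial K => Q.coeff j) hP
  simp only [P, Polynomial.finsetSum_coeff, Polynomial.coeff_C_mul_X_pow,
    Polynomial.coeff_mul_C] at h2
  rw [Finset.sum_ite_eq (Finset.range (n ^ 2 + 1)) j, if_pos (Finset.mem_range.2 (by omega))] at h2
  rw [Matrix.smul_apply, smul_eq_mul]
  exact h2

/-- product of a list of matrix units -/
private theorem unit_list {m : ℕ} : ∀ (x y : Fin (m + 1) → Fin n) (c : Fin (m + 1) → K),
    ∃ C : K, (List.ofFn fun k => Matrix.single (x k) (y k) (c k)).prod
        = Matrix.single (x 0) (y (Fin.last m)) C ∧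
      (C ≠ 0 → (∀ k, c k ≠ 0) ∧ ∀ k : Fin m, y k.castSucc = x k.succ) ∧
      (((∀ k, c k = 1) ∧ ∀ k : Fin m, y k.castSucc = x k.succ) → C = 1) := by
  induction m with
  | zero =>
    intro x y c
    refine ⟨c 0, ?_, fun h => ⟨fun k => ?_, fun k => k.elim0⟩, fun h => h.1 0⟩
    · simp
    · have hk : k = 0 := Fin.fin_one_eq_zero k
      rwa [hk]
  | succ m ih =>
    intro x y c
    obtain ⟨C, h1, h2, h3⟩ := ih (fun k => x k.succ) (fun k => y k.succ) (fun k => c k.succ)
    rw [List.ofFn_succ, List.prod_cons, h1]
    by_cases hxy : y 0 = x 1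
    · refine ⟨c 0 * C, ?_, fun h => ?_, fun h => ?_⟩
      · have : x (Fin.succ 0) = x 1 := rfl
        rw [this, ← hxy, Matrix.single_mul_single_same]
        rfl
      · have hc0 : c 0 ≠ 0 := fun h0 => h (by rw [h0, zero_mul])
        have hC : C ≠ 0 := fun h0 => h (by rw [h0, mul_zero])
        obtain ⟨h4, h5⟩ := h2 hC
        refine ⟨fun k => ?_, fun k => ?_⟩
        · refine Fin.cases hc0 (fun i => h4 i) k
        · refine Fin.cases hxy (fun i => ?_) k
          have := h5 i
          rw [← Fin.succ_castSucc]
          exact this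
      · rw [h.1 0, one_mul]
        refine h3 ⟨fun k => h.1 _, fun k => ?_⟩
        have := h.2 k.succ
        rw [← Fin.succ_castSucc] at this
        exact this
    · refine ⟨0, ?_, fun h => absurd rfl h, fun h => ?_⟩
      · rw [Matrix.single_zero]
        exact Matrix.single_mul_single_of_ne _ _ _ _ hxy _
      · exact absurd (h.2 0) hxy

/-- PROOF. Enumerate `m` different matrix units `z_k = e_{i_k j_k}`, `k < m` (`m ≤ n^2`), and let `b_k = e_{j_{k-1} i_k}`
(`j_{-1} := 0`). In `Π_k b_k z_{σ k}` the factor `b_k z_{σ k}` is `0` unless `i_{σ k} = i_k`, and the product of the `k`-th and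
`k+1`-st factor is `0` unless `j_{σ k} = j_k`. So only `σ = id` contributes (if `σ` fixes all `k < m - 1` then also `m - 1`), and
the product is `e_{0 j_{m-1}}`. (Case `m = 0`: the empty product is `1 ≠ 0`.) -/
theorem capf_ne (hn : 0 < n) {m : ℕ} (hm : m ≤ n ^ 2) :
    ∃ b z : Fin m → Matrix (Fin n) (Fin n) K, capf b z ≠ 0 := by
  classical
  haveI : NeZero n := ⟨hn.ne'⟩
  cases m with
  | zero =>
    refine ⟨fun _ => 0, fun _ => 0, ?_⟩
    simp [capf]
  | succ m =>
    obtain ⟨p, hp⟩ : ∃ p : Fin (m + 1) → Fin n × Fin n, Function.Injective p := by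
      have hc : Fintype.card (Fin (m + 1)) ≤ Fintype.card (Fin n × Fin n) := by
        simpa [sq] using hm
      obtain ⟨f⟩ := Function.Embedding.nonempty_of_card_le hc
      exact ⟨f, f.injective⟩
    let x : Fin (m + 1) → Fin n := Fin.cons 0 (fun k : Fin m => (p k.castSucc).2)
    refine ⟨fun k => Matrix.single (x k) (p k).1 1, fun k => Matrix.single (p k).1 (p k).2 1, ?_⟩
    -- every term
    have hterm : ∀ σ : Equiv.Perm (Fin (m + 1)), (List.ofFn fun k : Fin (m + 1) =>
        (Matrix.single (x k) (p k).1 1 : Matrix (Fin n) (Fin n) K) *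
          Matrix.single (p (σ k)).1 (p (σ k)).2 1)
        = (List.ofFn fun k : Fin (m + 1) =>
          (Matrix.single (x k) (p (σ k)).2 (if (p k).1 = (p (σ k)).1 then (1 : K) else 0) :
            Matrix (Fin n) (Fin n) K)) := by
      intro σ
      congr 1
      funext k
      by_cases h : (p k).1 = (p (σ k)).1
      · rw [if_pos h, ← h, Matrix.single_mul_single_same, mul_one]
      · rw [if_neg h, Matrix.single_zero]
        exact Matrix.single_mul_single_of_ne _ _ _ _ h _
    have hzero : ∀ σ : Equiv.Perm (Fin (m + 1)), σ ≠ 1 → (List.ofFn fun k : Fin (m + 1) =>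
        (Matrix.single (x k) (p k).1 1 : Matrix (Fin n) (Fin n) K) *
          Matrix.single (p (σ k)).1 (p (σ k)).2 1).prod = 0 := by
      intro σ hσ
      rw [hterm σ]
      obtain ⟨C, h1, h2, -⟩ := unit_list (K := K) x (fun k => (p (σ k)).2)
        (fun k => if (p k).1 = (p (σ k)).1 then (1 : K) else 0)
      rw [h1]
      by_cases hC : C = 0
      · rw [hC, Matrix.single_zero]
      · exfalso
        obtain ⟨h3, h4⟩ := h2 hC
        apply hσ
        have hfix : ∀ k : Fin m, σ k.castSucc = k.castSucc := by
          intro k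
          apply hp
          have h5 : (p k.castSucc).1 = (p (σ k.castSucc)).1 := by
            by_contra h
            exact h3 k.castSucc (if_neg h)
          have h6 : (p (σ k.castSucc)).2 = (p k.castSucc).2 := by
            have := h4 k
            simpa [x] using this
          exact Prod.ext h5.symm h6
        have hlast : σ (Fin.last m) = Fin.last m := by
          by_contra h
          obtain ⟨k, hk⟩ := Fin.exists_castSucc_eq.2 h
          have h5 := hfix k
          rw [hk] at h5
          exact h (σ.injective h5)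
        ext k
        refine Fin.lastCases ?_ (fun i => ?_) k
        · rw [hlast]; rfl
        · rw [hfix i]; rfl
    rw [capf, Finset.sum_eq_single (1 : Equiv.Perm (Fin (m + 1)))]
    · rw [Equiv.Perm.sign_one, Units.val_one, one_smul, hterm 1]
      obtain ⟨C, h1, -, h3⟩ := unit_list (K := K) x (fun k => (p ((1 : Equiv.Perm (Fin (m + 1))) k)).2)
        (fun k => if (p k).1 = (p ((1 : Equiv.Perm (Fin (m + 1))) k)).1 then (1 : K) else 0)
      rw [h1, h3 ⟨fun k => by simp, fun k => by simp [x]⟩]
      intro h
      have := congrFun (congrFun h (x 0)) ((p ((1 : Equiv.Perm (Fin (m + 1))) (Fin.last m))).2)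
      rw [Matrix.single_apply_same] at this
      exact one_ne_zero this
    · intro σ _ hσ
      rw [hzero σ hσ, smul_zero]
    · intro h
      exact absurd (Finset.mem_univ _) h

/-- PROOF. `capf` is multilinear in `(b, z)`; if it vanished for all `b, z` in the spanning set `S`, it would vanish
everywhere (induct over the arguments, `Submodule.span_induction`), contradiction to `capf_ne`. -/
theorem capf_ne_of_span (hn : 0 < n) {m : ℕ} (hm : m ≤ n ^ 2) {S : Set (Matrix (Fin n) (Fin n) K)}
    (hS : Submodule.span K S = ⊤) :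
    ∃ b z : Fin m → Matrix (Fin n) (Fin n) K, (∀ i, b i ∈ S) ∧ (∀ i, z i ∈ S) ∧ capf b z ≠ 0 := by
  by_contra hcon
  push Not at hcon
  obtain ⟨b, z, hbz⟩ := capf_ne (K := K) hn hm
  apply hbz
  let e := Module.Basis.ofSpan hS.ge
  have he : ∀ i, e i ∈ S := fun i => Module.Basis.ofSpan_subset hS.ge ⟨i, rfl⟩
  have h1 : ∀ b' : Fin m → Matrix (Fin n) (Fin n) K, (∀ i, b' i ∈ S) →
      ∀ z' : Fin m → Matrix (Fin n) (Fin n) K, capf b' z' = 0 := by
    intro b' hb' z'
    have h2 : ((capAlt b' : Matrix (Fin n) (Fin n) K [⋀^Fin m]→ₗ[K] Matrix (Fin n) (Fin n) K) :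
        MultilinearMap K (fun _ : Fin m => Matrix (Fin n) (Fin n) K) (Matrix (Fin n) (Fin n) K))
        = 0 := by
      refine Module.Basis.ext_multilinear (fun _ => e) fun v => ?_
      rw [AlternatingMap.coe_multilinearMap, capAlt_apply, MultilinearMap.zero_apply]
      exact hcon b' (fun i => e (v i)) hb' (fun i => he _)
    rw [← capAlt_apply, ← AlternatingMap.coe_multilinearMap, h2, MultilinearMap.zero_apply]
  have h3 : capLeft z = 0 := by
    refine Module.Basis.ext_multilinear (fun _ => e) fun v => ?_
    rw [capLeft_apply, MultilinearMap.zero_apply]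
    exact h1 _ (fun i => he _) z
  rw [← capLeft_apply, h3, MultilinearMap.zero_apply]

end

end MP35
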