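import Pool.Agent.Lib_MP_3538b5_al.RDefs
import Pool.Agent.Lib_MP_3538b5_al.RCap

/-! # Piece RREP: representations from homomorphisms; the degree bound -/

set_option autoImplicit false

namespace MP35

universe u v w

variable {p : ℕ} {G : Type u} [Group G] [TopologicalSpace G]

/-- PROOF. `ρ' g = π (j g)`. Let `A' = repAlg T' ρ'`. The image of `π` is `A'` (as `A = adjoin T (range j)` and `φ` is onto), so `A'` is a finite `T'`-module: images of
generators of `A`. Continuity: `π` defines a map `A → A'`, semilinear over the continuous `φ`, so it is continuous for the module topologies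
(`IsModuleTopology.continuous_of_linearMapₛₗ`), and `repHom T' ρ'` is its composition with `j`. -/
theorem rep_of_hom {T : Type v} [CommRing T] [TopologicalSpace T] [CNR T] {A : Type w} [Ring A]
    [Algebra T A] [Module.Finite T A] [TopologicalSpace A] [IsModuleTopology T A] (j : G →* A)
    (hj : Continuous j) (hA : Algebra.adjoin T (Set.range j) = ⊤) {T' : Type v} [CommRing T']
    [TopologicalSpace T'] [CNR T'] (φ : T →+* T') (hφ : Function.Surjective φ) (hφc : Continuous φ)
    {K : Type v} [Field K] [Algebra T' K] (hK : Function.Injective (algebraMap T' K)) {m : ℕ}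
    (π : A →+* Matrix (Fin m) (Fin m) K)
    (hπ : ∀ (t : T) (a : A), π (t • a) = algebraMap T' K (φ t) • π a)
    (hinj : Function.Injective fun g => π (j g)) (hp : IsTopologicallyNilpotent (p : T')) :
    ∃ R' : Rep p G T' K m, ∀ g, R'.ρ g = π (j g) := by
  let ρ' : G →* Matrix (Fin m) (Fin m) K := (π : A →* Matrix (Fin m) (Fin m) K).comp j
  have hρ' : ∀ g, ρ' g = π (j g) := fun _ => rfl
  have hs : ∀ (t : T) (x : Matrix (Fin m) (Fin m) K), algebraMap T' K (φ t) • x = φ t • x := by
    intro t x
    rw [algebraMap_smul]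
  have hmem : ∀ a : A, π a ∈ repAlg T' ρ' := by
    intro a
    have ha : a ∈ Algebra.adjoin T (Set.range j) := by rw [hA]; trivial
    induction ha using Algebra.adjoin_induction with
    | mem x hx =>
      obtain ⟨g, rfl⟩ := hx
      exact Algebra.subset_adjoin ⟨g, rfl⟩
    | algebraMap t =>
      rw [Algebra.algebraMap_eq_smul_one, hπ, map_one, hs]
      exact Subalgebra.smul_mem _ (one_mem _) _
    | add x y _ _ hx hy =>
      rw [map_add]
      exact add_mem hx hy
    | mul x y _ _ hx hy =>
      rw [map_mul]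
      exact mul_mem hx hy
  have : RingHomSurjective φ := ⟨hφ⟩
  let f : A →ₛₗ[φ] repAlg T' ρ' :=
    { toFun := fun a => ⟨π a, hmem a⟩
      map_add' := fun a b => Subtype.ext (map_add π a b)
      map_smul' := fun t a => Subtype.ext ((hπ t a).trans (hs t _)) }
  have hf : Function.Surjective f := by
    have h1 : ∀ x ∈ repAlg T' ρ', ∃ a : A, π a = x := by
      intro x hx
      induction hx using Algebra.adjoin_induction with
      | mem x hx =>
        obtain ⟨g, rfl⟩ := hx
        exact ⟨j g, rfl⟩
      | algebraMap t =>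
        obtain ⟨t, rfl⟩ := hφ t
        refine ⟨t • 1, ?_⟩
        rw [hπ, map_one, hs, Algebra.algebraMap_eq_smul_one]
      | add x y _ _ hx hy =>
        obtain ⟨a, rfl⟩ := hx
        obtain ⟨b, rfl⟩ := hy
        exact ⟨a + b, map_add π a b⟩
      | mul x y _ _ hx hy =>
        obtain ⟨a, rfl⟩ := hx
        obtain ⟨b, rfl⟩ := hy
        exact ⟨a * b, map_mul π a b⟩
    rintro ⟨x, hx⟩
    obtain ⟨a, ha⟩ := h1 x hx
    exact ⟨a, Subtype.ext ha⟩
  have hfin : Module.Finite T' (repAlg T' ρ') := Module.Finite.of_surjective f hf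
  refine ⟨⟨ρ', ?_, hfin, ?_, hp, hK⟩, hρ'⟩
  · exact hinj
  · let _ : TopologicalSpace (repAlg T' ρ') := moduleTopology T' _
    have : IsModuleTopology T' (repAlg T' ρ') := ⟨rfl⟩
    have : ContinuousAdd (repAlg T' ρ') := IsModuleTopology.toContinuousAdd T' _
    have hfc : Continuous f := IsModuleTopology.continuous_of_linearMapₛₗ hφc f
    exact hfc.comp hj

/-- PROOF. `A` is contained in the matrices of degree `n`, so `capf b z = 0` for all `b, z : Fin (n^2 + 1) → R.A` (`capf_eq_zero`, `capf_map` for the inclusion). Hence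
`capf (π ∘ b) (π ∘ z) = 0`. If `n < m` then `n^2 + 1 ≤ m^2` and `capf_ne_of_span` for `S = range π` gives a contradiction. -/
theorem degree_le {T : Type v} [CommRing T] [TopologicalSpace T] {Ω : Type v} [Field Ω] [Algebra T Ω]
    {n : ℕ} (R : Rep p G T Ω n) {K : Type v} [Field K] {m : ℕ}
    (π : R.A →+* Matrix (Fin m) (Fin m) K) (hspan : Submodule.span K (Set.range π) = ⊤) : m ≤ n := by
  by_contra hlt
  push Not at hlt
  have h1 : n ^ 2 + 1 ≤ m ^ 2 := by
    have : n ^ 2 < m ^ 2 := Nat.pow_lt_pow_left hlt (by norm_num)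
    omega
  obtain ⟨b, z, hb, hz, h⟩ := capf_ne_of_span (by omega : 0 < m) h1 hspan
  choose b' hb' using hb
  choose z' hz' using hz
  apply h
  have e1 : b = fun i => π (b' i) := (funext hb').symm
  have e2 : z = fun i => π (z' i) := (funext hz').symm
  rw [e1, e2, ← capf_map]
  have h2 : capf b' z' = 0 := by
    have h3 := capf_map (R.A.val : R.A →+* Matrix (Fin n) (Fin n) Ω) b' z'
    rw [capf_eq_zero (Nat.lt_succ_self _)] at h3
    exact Subtype.ext h3
  rw [h2, map_zero]

/-- PROOF. `R.ρ` is injective and `G` is not commutative, so the matrix ring is not commutative. -/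
theorem Rep.two_le {T : Type v} [CommRing T] [TopologicalSpace T] {Ω : Type v} [Field Ω] [Algebra T Ω]
    {n : ℕ} (R : Rep p G T Ω n) (hnc : ∃ x y : G, x * y ≠ y * x) : 2 ≤ n := by
  by_contra hn
  obtain ⟨x, y, hxy⟩ := hnc
  apply hxy
  apply R.inj
  rw [map_mul, map_mul]
  have hn1 : Subsingleton (Fin n) := by
    rw [Fin.subsingleton_iff_le_one]
    omega
  ext i k
  rw [Matrix.mul_apply, Matrix.mul_apply]
  refine Finset.sum_congr rfl fun l _ => ?_
  have e1 : l = i := Subsingleton.elim _ _
  have e2 : k = i := Subsingleton.elim _ _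
  rw [e1, e2, mul_comm]

end MP35
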