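import Mathlib

/-! # Piece RTENS: from a torsion free algebra to operators on a vector space -/

set_option autoImplicit false

namespace MP35

universe u v w

open TensorProduct

/-- the case of a domain embedded in the field -/
private theorem exists_operators_domain {T : Type v} [CommRing T] [IsDomain T] {B : Type w} [Ring B]
    [Algebra T B] [Module.Finite T B] {K : Type v} [Field K] [Algebra T K] [FaithfulSMul T K]
    (h1 : ∀ (t : T) (b : B), t • b = 0 → t = 0 ∨ b = 0) :
    ∃ (m : ℕ) (α : B →+* Module.End K (Fin m → K)), Function.Injective α ∧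
      ∀ (t : T) (b : B), α (t • b) = algebraMap T K t • α b := by
  let : Algebra (FractionRing T) K := FractionRing.liftAlgebra T K
  have : IsScalarTower T (FractionRing T) K := FractionRing.isScalarTower_liftAlgebra T K
  have : Module.Flat T (FractionRing T) := IsLocalization.flat (FractionRing T) (nonZeroDivisors T)
  have : Module.Flat T K := Module.Flat.trans T (FractionRing T) K
  have hinj : ∀ b : B, (1 : K) ⊗ₜ[T] b = 0 → b = 0 := by
    intro b hb
    by_contra hb0
    have hf : Function.Injective (LinearMap.toSpanSingleton T B b) := by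
      rw [← LinearMap.ker_eq_bot, LinearMap.ker_eq_bot']
      intro t ht
      rw [LinearMap.toSpanSingleton_apply] at ht
      exact (h1 t b ht).resolve_right hb0
    have h2 := Module.Flat.lTensor_preserves_injective_linearMap (M := K) _ hf
    have h3 : (LinearMap.lTensor K (LinearMap.toSpanSingleton T B b)) ((1 : K) ⊗ₜ[T] (1 : T)) = 0 := by
      rw [LinearMap.lTensor_tmul, LinearMap.toSpanSingleton_apply, one_smul]
      exact hb
    have h4 : (1 : K) ⊗ₜ[T] (1 : T) = 0 := h2 (by rw [h3, map_zero])
    have h5 := congrArg (TensorProduct.rid T K) h4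
    rw [TensorProduct.rid_tmul, one_smul, map_zero] at h5
    exact one_ne_zero h5
  let D := K ⊗[T] B
  have : Module.Finite K D := Module.Finite.base_change T K B
  let m := Module.finrank K D
  let e : D ≃ₗ[K] (Fin m → K) := (Module.finBasis K D).equivFun
  let α₀ : B →+* Module.End K D :=
    (Algebra.lmul K D).toRingHom.comp
      (Algebra.TensorProduct.includeRight : B →ₐ[T] K ⊗[T] B).toRingHom
  have hα₀ : ∀ (b : B) (x : D), α₀ b x = ((1 : K) ⊗ₜ[T] b) * x := fun b x => rfl
  let c : Module.End K D →+* Module.End K (Fin m → K) := (e.conjAlgEquiv K).toRingEquiv.toRingHom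
  refine ⟨m, c.comp α₀, ?_, ?_⟩
  · have h6 : Function.Injective c := (e.conjAlgEquiv K).injective
    refine h6.comp ?_
    rw [injective_iff_map_eq_zero]
    intro b hb
    have h7 := hα₀ b 1
    rw [hb, LinearMap.zero_apply, mul_one] at h7
    exact hinj b h7.symm
  · intro t b
    have h8 : α₀ (t • b) = algebraMap T K t • α₀ b := by
      refine LinearMap.ext fun x => ?_
      rw [LinearMap.smul_apply, hα₀, hα₀, ← smul_mul_assoc]
      congr 1
      rw [TensorProduct.tmul_smul, TensorProduct.smul_tmul', TensorProduct.smul_tmul',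
        Algebra.smul_def, smul_eq_mul]
    show c (α₀ (t • b)) = algebraMap T K t • c (α₀ b)
    rw [h8]
    exact map_smul (e.conjAlgEquiv K) _ _

/-- PROOF. Regard `K` as a `T`-algebra through `ψ` (`ψ.toAlgebra`) and let `D = K ⊗[T] B`, `α b = ` left multiplication by `1 ⊗ b` on the
`K`-algebra `D`. `D` is finite dimensional as `B` is a finite `T`-module. `α (t • b) = ψ t • α b` is clear. Injectivity: `α b = 0` gives `1 ⊗ b = 0`. Let
`T' = T / P`; `B` is a torsion free `T'`-module, `K ⊗[T] B = K ⊗[T'] B = K ⊗[Frac T'] (Frac T' ⊗[T'] B)`, `B → Frac T' ⊗[T'] B` is injective (localisation of a torsion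
free module), and `Frac T' → K` is a field extension, so faithfully flat. (Alternative without tensor products over `T'`: `1 ⊗ b = 0` is witnessed by a finitely generated
`T`-submodule of `K`, which is torsion free over `T'` and embeds into `T'`-multiples ...; or choose a maximal `T'`-independent family `b₁..b_m` of `B`, `s ∉ P` with `s • B ≤ Σ T b_i`, and let
`D = K ^ m`, with `α b` the matrix `ψ(s)⁻¹ • (c_{ik})`, `s • (b * b_k) = Σ c_{ik} • b_i`: this is completely elementary.) -/
theorem exists_operators {T : Type v} [CommRing T] [IsNoetherianRing T] {B : Type w} [Ring B] [Algebra T B]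
    [Module.Finite T B] {K : Type v} [Field K] (ψ : T →+* K)
    (h0 : ∀ t : T, ψ t = 0 → ∀ b : B, t • b = 0)
    (h1 : ∀ (t : T) (b : B), t • b = 0 → ψ t = 0 ∨ b = 0) :
    ∃ (m : ℕ) (α : B →+* Module.End K (Fin m → K)), Function.Injective α ∧
      ∀ (t : T) (b : B), α (t • b) = ψ t • α b := by
  let P : Ideal T := RingHom.ker ψ
  have : P.IsPrime := RingHom.ker_isPrime ψ
  let φ : T ⧸ P →+* B := Ideal.Quotient.lift P (algebraMap T B) (by
    intro a ha
    rw [Algebra.algebraMap_eq_smul_one]
    exact h0 a ha 1)
  let : Algebra (T ⧸ P) B := φ.toAlgebra' (by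
    intro c x
    obtain ⟨c, rfl⟩ := Ideal.Quotient.mk_surjective c
    exact Algebra.commutes c x)
  have : IsScalarTower T (T ⧸ P) B := IsScalarTower.of_algebraMap_eq fun t => rfl
  have : Module.Finite (T ⧸ P) B := Module.Finite.of_restrictScalars_finite T (T ⧸ P) B
  let : Algebra (T ⧸ P) K := (RingHom.kerLift ψ).toAlgebra
  have : FaithfulSMul (T ⧸ P) K :=
    (faithfulSMul_iff_algebraMap_injective (T ⧸ P) K).2 (RingHom.kerLift_injective ψ)
  have hsm : ∀ (t : T) (b : B), (Ideal.Quotient.mk P t) • b = t • b := fun t b => by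
    rw [← algebraMap_smul (T ⧸ P) t b]
    rfl
  obtain ⟨m, α, hα, hα'⟩ := exists_operators_domain (T := T ⧸ P) (B := B) (K := K) (by
    intro t b htb
    obtain ⟨t, rfl⟩ := Ideal.Quotient.mk_surjective t
    rw [hsm] at htb
    rcases h1 t b htb with h | h
    · exact Or.inl (Ideal.Quotient.eq_zero_iff_mem.2 h)
    · exact Or.inr h)
  refine ⟨m, α, hα, fun t b => ?_⟩
  rw [← hsm, hα']
  rfl

end MP35
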