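import Pool.Agent.Lib_MP_3538b5_al.RRedDefs
import Pool.Agent.Lib_MP_3538b5_al.RBurn
import Pool.Agent.Lib_MP_3538b5_al.RFF
import Pool.Agent.Lib_MP_3538b5_al.RPri
import Pool.Agent.Lib_MP_3538b5_al.RTens
import Pool.Agent.Lib_MP_3538b5_al.RRep

/-! # Existence of reductions (glue) -/

set_option autoImplicit false

namespace MP35

universe u v w

section

variable {p : ℕ} [hp : Fact p.Prime] {G : Type u} [Group G] [TopologicalSpace G]
    [IsTopologicalGroup G] [CompactSpace G] [T2Space G] [TotallyDisconnectedSpace G]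

/-- a representation over the quotient by a prime ideal, from a faithful homomorphism to an order -/
theorem exists_rep_of_cong (hG : PF p G) {T : Type v} [CommRing T] [TopologicalSpace T] [CNR T]
    (hpn : IsTopologicallyNilpotent (p : T)) {A : Type w} [Ring A] [Algebra T A] [Module.Finite T A]
    [TopologicalSpace A] [IsModuleTopology T A] (j : G →* A) (hj : Continuous j)
    (hA : Algebra.adjoin T (Set.range j) = ⊤) {I₀ : Ideal T} (h : congTriv T j I₀) :
    ∃ (T' : Type v) (_ : CommRing T') (_ : TopologicalSpace T') (_ : CNR T') (_ : IsDomain T')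
      (φ : T →+* T') (Ω' : Type v) (_ : Field Ω') (_ : IsAlgClosed Ω') (_ : Algebra T' Ω') (m : ℕ)
      (R' : Rep p G T' Ω' m) (π : A →+* Matrix (Fin m) (Fin m) Ω'),
      Function.Surjective φ ∧ Continuous φ ∧ (∀ t ∈ I₀, φ t = 0) ∧ (∀ g, π (j g) = R'.ρ g) ∧
      (∀ (t : T) (a : A), π (t • a) = algebraMap T' Ω' (φ t) • π a) ∧
      Submodule.span Ω' (Set.range R'.ρ) = ⊤ ∧ Algebra.IsAlgebraic T' Ω' := by
  obtain ⟨P, hP, hI, hPt, hmax⟩ := exists_prime_cong hG j h
  obtain ⟨B, _, _, q, hq, hqinj, hB0, hB1⟩ := torsion_quot hG j hP hPt hmax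
  have hfin : Module.Finite T B := Module.Finite.of_surjective q.toLinearMap hq
  have hcnr : CNR (T ⧸ P) := cnr_quot P
  have hdom : IsDomain (T ⧸ P) := (Ideal.Quotient.isDomain_iff_prime P).2 hP
  let φ : T →+* T ⧸ P := Ideal.Quotient.mk P
  have hφc : Continuous φ := (QuotientRing.isOpenQuotientMap_mk P).continuous
  let Ω' := AlgebraicClosure (FractionRing (T ⧸ P))
  have hinj : Function.Injective (algebraMap (T ⧸ P) Ω') := by
    rw [IsScalarTower.algebraMap_eq (T ⧸ P) (FractionRing (T ⧸ P)) Ω']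
    exact (algebraMap (FractionRing (T ⧸ P)) Ω').injective.comp
      (IsFractionRing.injective (T ⧸ P) (FractionRing (T ⧸ P)))
  have halg : Algebra.IsAlgebraic (T ⧸ P) Ω' :=
    (IsFractionRing.comap_isAlgebraic_iff (A := T ⧸ P) (K := FractionRing (T ⧸ P))).2 inferInstance
  let ψ : T →+* Ω' := (algebraMap (T ⧸ P) Ω').comp φ
  have hψ : ∀ t, ψ t = 0 ↔ t ∈ P := by
    intro t
    constructor
    · intro h
      rw [← Ideal.Quotient.eq_zero_iff_mem]
      exact hinj (by rw [map_zero]; exact h)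
    · intro h
      show algebraMap (T ⧸ P) Ω' (φ t) = 0
      rw [show φ t = 0 from Ideal.Quotient.eq_zero_iff_mem.2 h, map_zero]
  obtain ⟨m₁, α, hα, hαt⟩ := exists_operators (B := B) ψ (fun t ht => hB0 t ((hψ t).1 ht))
    (fun t b hb => (hB1 t b hb).imp (hψ t).2 id)
  obtain ⟨m, β, hβ, hβr, hβi, -, -⟩ := faithful_factor hG (q.toRingHom.toMonoidHom.comp j)
    (K := Ω') (D := Fin m₁ → Ω') α (fun g h hgh => hqinj (hα hgh))
  let π : A →+* Matrix (Fin m) (Fin m) Ω' := β.comp q.toRingHom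
  have hπ : ∀ (t : T) (a : A), π (t • a) = algebraMap (T ⧸ P) Ω' (φ t) • π a := by
    intro t a
    show β (q (t • a)) = _ • β (q a)
    rw [map_smul]
    exact hβr _ _ _ (hαt t (q a))
  have hpn' : IsTopologicallyNilpotent ((p : ℕ) : T ⧸ P) := by
    have := hpn.map (φ := φ) hφc
    rwa [map_natCast] at this
  obtain ⟨R', hR'⟩ := rep_of_hom (p := p) (m := m) j hj hA φ Ideal.Quotient.mk_surjective hφc hinj π
    hπ hβ hpn'
  refine ⟨T ⧸ P, inferInstance, inferInstance, hcnr, hdom, φ, Ω', inferInstance, inferInstance,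
    inferInstance, m, R', π, Ideal.Quotient.mk_surjective, hφc,
    fun t ht => Ideal.Quotient.eq_zero_iff_mem.2 (hI ht), fun g => (hR' g).symm, hπ, ?_, halg⟩
  refine burnside_hom R'.ρ fun U hU => hβi U fun b v hv => ?_
  -- the subspace is stable under the span of the image
  obtain ⟨a, rfl⟩ := hq b
  have key : ∀ a ∈ Algebra.adjoin T (Set.range j), ∀ v ∈ U, Matrix.mulVec (β (q a)) v ∈ U := by
    intro a ha
    induction ha using Algebra.adjoin_induction with
    | mem x hx =>
      obtain ⟨g, rfl⟩ := hx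
      intro v hv
      have := hU g v hv
      rw [hR'] at this
      exact this
    | algebraMap t =>
      intro v hv
      have e : q (algebraMap T A t) = t • (1 : B) := by
        rw [AlgHom.commutes, Algebra.algebraMap_eq_smul_one]
      have e2 : β (t • (1 : B)) = ψ t • (1 : Matrix (Fin m) (Fin m) Ω') := by
        rw [hβr _ _ _ (hαt t 1), map_one]
      rw [e, e2, Matrix.smul_mulVec, Matrix.one_mulVec]
      exact U.smul_mem _ hv
    | add x y _ _ hx hy =>
      intro v hv
      rw [map_add, map_add, Matrix.add_mulVec]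
      exact U.add_mem (hx v hv) (hy v hv)
    | mul x y _ _ hx hy =>
      intro v hv
      rw [map_mul, map_mul, ← Matrix.mulVec_mulVec]
      exact hx _ (hy v hv)
  exact key a (by rw [hA]; trivial) v hv

/-- a subgroup with trivial congruence subgroup has a reduction of the same (minimal) degree -/
theorem exists_reduction (hG : PF p G) {T : Type v} [CommRing T] [TopologicalSpace T] [CNR T]
    {Ω : Type v} [Field Ω] [Algebra T Ω] {n : ℕ} (R : Rep p G T Ω n)
    (hmin : ∀ m, HasRep.{u, v} p m → n ≤ m) {c : T}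
    (hc : ∀ g ∈ R.NI (Ideal.span {c}), g = 1) :
    ∃ (T' : Type v) (_ : CommRing T') (_ : TopologicalSpace T') (_ : CNR T') (_ : IsDomain T')
      (Ω' : Type v) (_ : Field Ω') (_ : IsAlgClosed Ω') (_ : Algebra T' Ω')
      (R' : Rep p G T' Ω' n) (X : Red R R'), X.φ c = 0 ∧ Algebra.IsAlgebraic T' Ω' := by
  have hA : Algebra.adjoin T (Set.range R.j) = ⊤ := by
    rw [eq_top_iff]
    rintro ⟨a, ha⟩ -
    have h1 : (Algebra.adjoin T (Set.range R.j)).map R.A.val = R.A := by
      rw [AlgHom.map_adjoin]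
      congr 1
      ext x
      constructor
      · rintro ⟨_, ⟨g, rfl⟩, rfl⟩
        exact ⟨g, rfl⟩
      · rintro ⟨g, rfl⟩
        exact ⟨R.j g, ⟨g, rfl⟩, rfl⟩
    have h2 : a ∈ (Algebra.adjoin T (Set.range R.j)).map R.A.val := by rw [h1]; exact ha
    obtain ⟨b, hb, hba⟩ := h2
    have : b = ⟨a, ha⟩ := Subtype.ext hba
    rwa [← this]
  obtain ⟨T', i1, i2, i3, i4, φ, Ω', i5, i6, i7, m, R', π, hφ, hφc, hφ0, hρ, hπ, hsp, halg⟩ :=
    exists_rep_of_cong hG R.pnil R.j R.cont_j hA (I₀ := Ideal.span {c}) hc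
  have h1 : n ≤ m := hmin m ⟨G, inferInstance, inferInstance, inferInstance, inferInstance,
    inferInstance, inferInstance, T', i1, i2, i3, i4, Ω', i5, i6, i7, hG, ⟨R'⟩⟩
  have h2 : m ≤ n := degree_le R π (by
    rw [eq_top_iff, ← hsp]
    refine Submodule.span_mono ?_
    rintro _ ⟨g, rfl⟩
    exact ⟨R.j g, hρ g⟩)
  obtain rfl : m = n := le_antisymm h2 h1
  exact ⟨T', i1, i2, i3, i4, Ω', i5, i6, i7, R', ⟨φ, hφ, hφc, π, hρ, hπ, hsp⟩,
    hφ0 c (Ideal.mem_span_singleton_self c), halg⟩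

end

end MP35
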