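import Pool.Agent.Lib_MP_3538b5_al.RInit
import Pool.Agent.Lib_MP_3538b5_al.RRed

/-! # From a linear group over a profinite ring to a representation -/

set_option autoImplicit false

namespace MP35

universe u v w

theorem adjoin_repHom {G : Type u} [Group G] (T : Type v) [CommRing T] {B : Type w} [Ring B]
    [Algebra T B] (ρ : G →* B) : Algebra.adjoin T (Set.range (repHom T ρ)) = ⊤ := by
  rw [eq_top_iff]
  rintro ⟨a, ha⟩ -
  have h1 : (Algebra.adjoin T (Set.range (repHom T ρ))).map (repAlg T ρ).val = repAlg T ρ := by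
    rw [AlgHom.map_adjoin]
    congr 1
    ext x
    constructor
    · rintro ⟨_, ⟨g, rfl⟩, rfl⟩
      exact ⟨g, rfl⟩
    · rintro ⟨g, rfl⟩
      exact ⟨repHom T ρ g, ⟨g, rfl⟩, rfl⟩
  have h2 : a ∈ (Algebra.adjoin T (Set.range (repHom T ρ))).map (repAlg T ρ).val := by
    rw [h1]; exact ha
  obtain ⟨b, hb, hba⟩ := h2
  have : b = ⟨a, ha⟩ := Subtype.ext hba
  rwa [← this]

/-- a noncommutative group with the lifting property which is linear over a profinite ring gives a
representation of some group -/
theorem hasRep_of_linear {p : ℕ} [hp : Fact p.Prime] {F : Type u} [Group F] [TopologicalSpace F]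
    [IsTopologicalGroup F] [CompactSpace F] [T2Space F] [TotallyDisconnectedSpace F]
    (hF : PF p F) {R : Type v} [CommRing R] [TopologicalSpace R] [IsTopologicalRing R]
    [CompactSpace R] [T2Space R] [TotallyDisconnectedSpace R] {n : ℕ}
    (ρ : F →* GL (Fin n) R) (hρ : Continuous fun g => (ρ g : Matrix (Fin n) (Fin n) R))
    (hinj : Function.Injective ρ) : ∃ m, HasRep.{u, v} p m := by
  obtain ⟨a, b, hab, R', i1, i2, i3, i4, i5, i6, i7, hpn, σ, hσc, hσi, -⟩ :=
    init hF.proP hF.lift hF.nc ρ hρ hinj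
  have hcnr : CNR R' := {}
  have hcl : IsClosed ((cl2 a b : Subgroup F) : Set F) := isClosed_cl2 a b
  have : CompactSpace (cl2 a b) := isCompact_iff_compactSpace.1 hcl.isCompact
  have hG : PF p (cl2 a b) := ⟨hF.proP.sub _, hF.lift.sub _ hcl,
    ⟨a, left_mem_cl2 a b⟩, ⟨b, right_mem_cl2 a b⟩, fun h => hab (congrArg Subtype.val h)⟩
  have hfin : Module.Finite R' (repAlg R' σ) :=
    inferInstanceAs (Module.Finite R' (Subalgebra.toSubmodule (repAlg R' σ)))
  let _ : TopologicalSpace (repAlg R' σ) := moduleTopology R' _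
  have : IsModuleTopology R' (repAlg R' σ) := ⟨rfl⟩
  have hj : Continuous (repHom R' σ) := by
    have e := isClosedEmbedding_of_injective (T := R') (repAlg R' σ).val.toLinearMap
      Subtype.val_injective
    rw [e.continuous_iff]
    exact hσc
  have hcong : congTriv R' (repHom R' σ) ⊥ := by
    intro g hg
    rw [Submodule.bot_smul, Submodule.mem_bot, sub_eq_zero] at hg
    apply hσi
    rw [map_one]
    exact congrArg Subtype.val hg
  obtain ⟨T', j1, j2, j3, j4, φ, Ω', j5, j6, j7, m, R'', π, -⟩ :=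
    exists_rep_of_cong hG hpn (repHom R' σ) hj (adjoin_repHom R' σ) hcong
  exact ⟨m, cl2 a b, inferInstance, inferInstance, inferInstance, inferInstance, inferInstance,
    inferInstance, T', j1, j2, j3, j4, Ω', j5, j6, j7, hG, ⟨R''⟩⟩

end MP35
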