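import Pool.Agent.Lib_MP_3538b5_al.RDefs

/-! # The optimal degree and the optimal number of trivial factors -/

set_option autoImplicit false

namespace MP35

universe u v w

namespace Rep

variable {p : ℕ} {G : Type u} [Group G] [TopologicalSpace G] {T : Type v} [CommRing T]
  [TopologicalSpace T] {Ω : Type v} [Field Ω] [Algebra T Ω] {n : ℕ} (R : Rep p G T Ω n)

theorem trivGE_zero : R.TrivGE 0 := fun x _ => by
  rw [pow_zero]
  exact one_dvd _

theorem TrivGE.le {R : Rep p G T Ω n} {k : ℕ} (h : R.TrivGE k) : k ≤ n ^ 2 := by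
  have h0 := h 0 (zero_mem _)
  have e : (0 : Module.End Ω (Matrix (Fin n) (Fin n) Ω)).charpoly
      = (Polynomial.X : Polynomial Ω) ^ (n ^ 2) := by
    rw [LinearMap.charpoly_zero]
    congr 1
    rw [Module.finrank_matrix]
    simp [sq]
  rw [e] at h0
  exact (Polynomial.natDegree_le_of_dvd h0 (pow_ne_zero _ Polynomial.X_ne_zero)).trans_eq' (by simp)
    |>.trans_eq (by simp)

theorem TrivGE.res [CNR T] {R : Rep p G T Ω n} {k : ℕ} (h : R.TrivGE k) (H : Subgroup G) :
    (R.res H).TrivGE k := by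
  intro x hx
  refine h x ?_
  have : (R.res H).aug ≤ R.aug := by
    refine Submodule.span_mono ?_
    rintro _ ⟨g, rfl⟩
    exact ⟨(g : G), rfl⟩
  exact this hx

/-- `TrivGE` only depends on the homomorphism -/
theorem TrivGE.congr {T₂ : Type v} [CommRing T₂] [TopologicalSpace T₂] [Algebra T₂ Ω]
    {R : Rep p G T Ω n} {R₂ : Rep p G T₂ Ω n} (e : R₂.ρ = R.ρ) {k : ℕ} (h : R.TrivGE k) :
    R₂.TrivGE k := by
  intro x hx
  refine h x ?_
  have h1 : R₂.aug = R.aug := by
    unfold Rep.aug Rep.Ad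
    rw [e]
  rw [← h1]
  exact hx

end Rep

/-- the optimal pair -/
theorem exists_opt {p n₀ : ℕ} (h : HasRep.{u, v} p n₀) : ∃ n k, OptNK.{u, v} p n k := by
  classical
  have hex : ∃ n, HasRep.{u, v} p n := ⟨n₀, h⟩
  let n := Nat.find hex
  have hn : HasRep.{u, v} p n := Nat.find_spec hex
  have hmin : ∀ m, HasRep.{u, v} p m → n ≤ m := fun m hm => Nat.find_min' hex hm
  have h0 : HasRepTriv.{u, v} p n 0 := by
    obtain ⟨G, i1, i2, i3, i4, i5, i6, T, i7, i8, i9, i10, Ω, i11, i12, i13, hG, ⟨R⟩⟩ := hn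
    exact ⟨G, i1, i2, i3, i4, i5, i6, T, i7, i8, i9, i10, Ω, i11, i12, i13, hG, R, R.trivGE_zero⟩
  have hb : ∀ k, HasRepTriv.{u, v} p n k → k ≤ n ^ 2 := by
    rintro k ⟨G, i1, i2, i3, i4, i5, i6, T, i7, i8, i9, i10, Ω, i11, i12, i13, hG, R, hR⟩
    exact hR.le
  let k := Nat.findGreatest (fun k => HasRepTriv.{u, v} p n k) (n ^ 2)
  have hk : HasRepTriv.{u, v} p n k :=
    Nat.findGreatest_spec (P := fun k => HasRepTriv.{u, v} p n k) (Nat.zero_le _) h0
  exact ⟨n, k, hk, hmin, fun l hl => Nat.le_findGreatest (hb l hl) hl⟩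

end MP35
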