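import Pool.Agent.Lib_MP_3538b5_al.RRedDefs
import Pool.Agent.Lib_MP_3538b5_al.RLoc
import Pool.Agent.Lib_MP_3538b5_al.RVal

/-! # Piece RREDFULL: fullness under reduction -/

set_option autoImplicit false

namespace MP35

universe u v w

namespace Red

variable {p : ℕ} {G : Type u} [Group G] [TopologicalSpace G] {T : Type v} [CommRing T]
    [TopologicalSpace T] {Ω : Type v} [Field Ω] [Algebra T Ω] {n : ℕ} {R : Rep p G T Ω n}
    {T' : Type v} [CommRing T'] [TopologicalSpace T'] {Ω' : Type v} [Field Ω'] [Algebra T' Ω']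
    {R' : Rep p G T' Ω' n}

section helpers

variable {K : Type w} [Field K] {m : ℕ}

/-- roots of the characteristic polynomial of `x - 1` -/
private theorem isRoot_sub_one (x : Matrix (Fin m) (Fin m) K) (μ : K) :
    (x - 1).charpoly.IsRoot μ ↔ x.charpoly.IsRoot (μ + 1) := by
  rw [Polynomial.IsRoot.def, Polynomial.IsRoot.def, Matrix.eval_charpoly, Matrix.eval_charpoly]
  have e : Matrix.scalar (Fin m) μ - (x - 1) = Matrix.scalar (Fin m) (μ + 1) - x := by
    rw [map_add, map_one]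
    abel
  rw [e]

/-- roots of the characteristic polynomial of the left multiplication by `x - 1` -/
private theorem isRoot_mulLeft_sub_one (x : Matrix (Fin m) (Fin m) K) (μ : K) :
    (LinearMap.mulLeft K (x - 1)).charpoly.IsRoot μ ↔ x.charpoly.IsRoot (μ + 1) :=
  (isRoot_mulLeft (x - 1) μ).trans (isRoot_sub_one x μ)

private theorem natDegree_charpoly_mulLeft (x : Matrix (Fin m) (Fin m) K) :
    (LinearMap.mulLeft K x).charpoly.natDegree = m ^ 2 := by
  rw [LinearMap.charpoly_natDegree, Module.finrank_matrix, Module.finrank_self, Fintype.card_fin]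
  ring

end helpers

/-- the module of the values of the Capelli polynomial -/
private def capM (R : Rep p G T Ω n) : Submodule T R.A :=
  Submodule.span T (Set.range fun q : (Fin (n ^ 2) → R.A) × (Fin (n ^ 2) → R.A) => capf q.1 q.2)

private theorem capf_mem_capM (b z : Fin (n ^ 2) → R.A) : capf b z ∈ capM R :=
  Submodule.subset_span ⟨(b, z), rfl⟩

private theorem capF_mem_capM (L : R.A → R.A) (j : ℕ) (b z : Fin (n ^ 2) → R.A) :
    capF L j b z ∈ capM R :=
  Submodule.sum_mem _ fun _ _ => zsmul_mem (capf_mem_capM _ _) _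

/-- the action of the coefficients of the characteristic polynomial on `capM R` -/
private theorem exists_smul_capM (X : Red R R') [Infinite Ω] [Infinite Ω'] (g : G) {j : ℕ}
    (hj : j ≤ n ^ 2) {x : R.A} (hx : x ∈ capM R) :
    ∃ y ∈ capM R, ((y : R.A) : Matrix (Fin n) (Fin n) Ω)
        = (LinearMap.mulLeft Ω (R.ρ g - 1)).charpoly.coeff j • ((x : R.A) : Matrix (Fin n) (Fin n) Ω) ∧
      X.π y = (LinearMap.mulLeft Ω' (R'.ρ g - 1)).charpoly.coeff j • X.π x := by
  refine Submodule.span_induction ?_ ?_ ?_ ?_ hx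
  · rintro _ ⟨⟨b, z⟩, rfl⟩
    refine ⟨capF (fun a => (R.j g - 1) * a) j b z, capF_mem_capM _ _ _ _, ?_, ?_⟩
    · exact capF_up (L := LinearMap.mulLeft Ω (R.ρ g - 1)) (LA := fun a => (R.j g - 1) * a)
        (fun a => rfl) hj b z
    · refine X.capF_down (L' := LinearMap.mulLeft Ω' (R'.ρ g - 1))
        (LA := fun a => (R.j g - 1) * a) (fun a => ?_) hj b z
      rw [map_mul, map_sub, map_one, X.hρ, LinearMap.mulLeft_apply]
  · exact ⟨0, zero_mem _, by simp, by simp⟩
  · rintro x y - - ⟨x', hx', h1, h2⟩ ⟨y', hy', h3, h4⟩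
    refine ⟨x' + y', add_mem hx' hy', ?_, ?_⟩
    · rw [Subalgebra.coe_add, Subalgebra.coe_add, h1, h3, smul_add]
    · rw [map_add, map_add, h2, h4, smul_add]
  · rintro t x - ⟨x', hx', h1, h2⟩
    refine ⟨t • x', Submodule.smul_mem _ _ hx', ?_, ?_⟩
    · rw [Subalgebra.coe_smul, Subalgebra.coe_smul, h1, smul_comm]
    · rw [X.hπ, X.hπ, h2, smul_comm]

/-- the multipliers of `capM R` -/
private def mulT (R : Rep p G T Ω n) : Subring Ω where
  carrier := {e | ∀ x ∈ capM R, ∃ y ∈ capM R,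
    ((y : R.A) : Matrix (Fin n) (Fin n) Ω) = e • ((x : R.A) : Matrix (Fin n) (Fin n) Ω)}
  one_mem' := fun x hx => ⟨x, hx, (one_smul _ _).symm⟩
  mul_mem' := by
    intro a b ha hb x hx
    obtain ⟨y, hy, e1⟩ := hb x hx
    obtain ⟨z, hz, e2⟩ := ha y hy
    exact ⟨z, hz, by rw [e2, e1, mul_smul]⟩
  zero_mem' := fun x _ => ⟨0, zero_mem _, by simp⟩
  add_mem' := by
    intro a b ha hb x hx
    obtain ⟨y, hy, e1⟩ := ha x hx
    obtain ⟨z, hz, e2⟩ := hb x hx
    exact ⟨y + z, add_mem hy hz, by rw [Subalgebra.coe_add, e1, e2, add_smul]⟩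
  neg_mem' := by
    intro a ha x hx
    obtain ⟨y, hy, e1⟩ := ha x hx
    exact ⟨-y, neg_mem hy, by rw [Subalgebra.coe_neg, e1, neg_smul]⟩

private theorem mem_mulT {e : Ω} : e ∈ mulT R ↔ ∀ x ∈ capM R, ∃ y ∈ capM R,
    ((y : R.A) : Matrix (Fin n) (Fin n) Ω) = e • ((x : R.A) : Matrix (Fin n) (Fin n) Ω) := Iff.rfl

private theorem algebraMap_mem_mulT (R : Rep p G T Ω n) (t : T) : algebraMap T Ω t ∈ mulT R :=
  mem_mulT.2 fun x hx => ⟨t • x, Submodule.smul_mem _ _ hx, by
    rw [Subalgebra.coe_smul, algebraMap_smul]⟩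

/-- the elements of `Ω` which shrink `capM R` by the bound `γ` -/
private theorem exists_bound (X : Red R R') [CNR T] (hn : 0 < n) (O' : ValuationSubring Ω')
    (hO' : ∀ t : T', algebraMap T' Ω' t ∈ O') :
    ∃ x₀ ∈ capM R, ∃ i₀ j₀ : Fin n, O'.valuation (X.π x₀ i₀ j₀) ≠ 0 ∧
      ∀ x ∈ capM R, ∀ i j, O'.valuation (X.π x i j) ≤ O'.valuation (X.π x₀ i₀ j₀) := by
  classical
  obtain ⟨S, hS⟩ : (capM R).FG := IsNoetherian.noetherian _
  have : Nonempty (Fin n) := ⟨⟨0, hn⟩⟩
  have hSne : S.Nonempty := by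
    rw [Finset.nonempty_iff_ne_empty]
    rintro rfl
    obtain ⟨b, z, hbz⟩ := X.exists_capf_ne hn
    have h0 : capf b z ∈ capM R := capf_mem_capM b z
    rw [← hS, Finset.coe_empty, Submodule.span_empty, Submodule.mem_bot] at h0
    exact hbz (by rw [h0, map_zero])
  obtain ⟨⟨x₀, i₀, j₀⟩, hx₀, hmax⟩ := Finset.exists_max_image
    (S ×ˢ (Finset.univ : Finset (Fin n × Fin n)))
    (fun q => O'.valuation (X.π q.1 q.2.1 q.2.2)) (hSne.product Finset.univ_nonempty)
  have hx₀' : x₀ ∈ capM R := by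
    rw [← hS]
    exact Submodule.subset_span (Finset.mem_product.1 hx₀).1
  have hb : ∀ x ∈ capM R, ∀ i j, O'.valuation (X.π x i j) ≤ O'.valuation (X.π x₀ i₀ j₀) := by
    intro x hx
    rw [← hS] at hx
    refine Submodule.span_induction ?_ ?_ ?_ ?_ hx
    · intro y hy i j
      exact hmax (y, i, j) (Finset.mem_product.2 ⟨hy, Finset.mem_univ _⟩)
    · intro i j
      rw [map_zero, Matrix.zero_apply, map_zero]
      exact zero_le
    · intro y z _ _ hy hz i j
      rw [map_add, Matrix.add_apply]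
      exact Valuation.map_add_le _ (hy i j) (hz i j)
    · intro t y _ hy i j
      rw [X.hπ, Matrix.smul_apply, smul_eq_mul, map_mul]
      have h1 : O'.valuation (algebraMap T' Ω' (X.φ t)) ≤ 1 := (O'.valuation_le_one_iff _).2 (hO' _)
      exact (mul_le_mul' h1 (hy i j)).trans_eq (one_mul _)
  refine ⟨x₀, hx₀', i₀, j₀, fun h0 => ?_, hb⟩
  obtain ⟨b, z, hbz⟩ := X.exists_capf_ne hn
  refine hbz ?_
  ext i j
  have h1 := hb _ (capf_mem_capM b z) i j
  rw [h0, le_zero_iff, map_eq_zero] at h1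
  rw [h1, Matrix.zero_apply]

/-- PROOF. Let `O'` be a valuation subring of `Ω'` containing `T'`, `p ∈ O'.nonunits`, `R'.Unip O'`, and `t' ∈ T'` topologically nilpotent with `t' ∉ O'.nonunits`; we derive a contradiction. `t' = φ t₀`, `t₀` is topologically nilpotent (`tn_of_map`).
For `g ∈ G` and `j < n ^ 2` let `E_j(g)` be the `j`-th coefficient of the characteristic polynomial of the left multiplication by `ρ g - 1`, and `E'_j(g)` that for `ρ' g - 1`. By `isRoot_mulLeft` and `coeff_mem_nonunits`, `E'_j(g) ∈ O'.nonunits`.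
Let `M₀` be the `T`-submodule of `R.A` generated by the `capf b z` (`b, z : Fin (n^2) → R.A`), finitely generated. By `capF_up`/`capF_down` (with `LA` = left multiplication by `j g - 1`), for every `x ∈ M₀` there is `y ∈ M₀` with `y = E_j(g) • x` in the matrices over `Ω` and
`π y = E'_j(g) • π x` (for `x = capf b z`: `y = capF LA j b z`, a sum of values of `capf`; extend linearly).
Let `T₂ = {e ∈ Ω | e • M₀ ≤ M₀}`, a subring of `Ω` containing the image of `T` and all `E_j(g)`; let `𝔮` be the ideal of `T₂` generated by the image of `r = {t ∈ T | φ t ∈ O'.nonunits}` (an ideal) and all `E_j(g)`, `j < n ^ 2`.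
CLAIM: `t₀ ^ k ∉ 𝔮` for all `k`. Otherwise `s = t₀ ^ k ∈ 𝔮` gives `s • M₀ ≤ r • M₀ + Σ E_j(g) • M₀`; apply `π`: `φ(s) • π(M₀) ≤ Σ φ(r) • π(M₀) + Σ E'_j(g) • π(M₀)`. Let `Λ` be the `O'`-submodule generated by `π(M₀)`, finitely generated, `Λ ≠ 0` (`exists_capf_ne`). So `φ(s) • Λ ≤ m' • Λ`, `m'` the maximal ideal of
`O'`, and `φ(s)` is a unit of `O'` (`t' ∉ O'.nonunits`), so `Λ ≤ m' • Λ` and `Λ = 0` by Nakayama, contradiction.
By `exists_valuation` (`B = T₂`, `I = 𝔮`, `s = t₀`) there is a valuation subring `O ≥ T₂` of `Ω`, `𝔮 ≤ O.nonunits`, `t₀ ∉ O.nonunits`. `p ∈ r`, so `p ∈ O.nonunits`; all `E_j(g) ∈ O.nonunits`, so all roots of the characteristic polynomial of the left multiplication by `ρ g - 1` are in `O.nonunits` (`root_mem_nonunits`), so `R.Unip O`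
(`isRoot_mulLeft`; the roots of the characteristic polynomial of `ρ g` are the `1 + ` roots for `ρ g - 1`). `R.Full` gives `t₀ ∈ O.nonunits`, contradiction. -/
theorem full (X : Red R R') [CNR T] [IsDomain T] [CNR T'] [Nontrivial T'] [Infinite Ω] [IsAlgClosed Ω']
    (hn : 0 < n) (h : R.Full) : R'.Full := by
  classical
  intro O' hO' hp' hu' t' ht'
  by_contra hcon
  obtain ⟨t₀, rfl⟩ := X.surj t'
  have ht₀ : IsTopologicallyNilpotent t₀ := tn_of_map X.φ ht'
  obtain ⟨x₀, hx₀, i₀, j₀, hne, hb⟩ := exists_bound X hn O' hO'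
  set γ := O'.valuation (X.π x₀ i₀ j₀) with hγ
  have hγ0 : 0 < γ := zero_lt_iff.2 hne
  -- the coefficients downstairs
  have hE' : ∀ (g : G) (j : ℕ), j < n ^ 2 →
      (LinearMap.mulLeft Ω' (R'.ρ g - 1)).charpoly.coeff j ∈ O'.nonunits := by
    intro g j hj
    refine coeff_mem_nonunits O' (LinearMap.charpoly_monic _) (fun μ hμ => ?_)
      (by rw [natDegree_charpoly_mulLeft]; exact hj)
    have h1 := hu' g (μ + 1) ((isRoot_mulLeft_sub_one _ _).1 hμ)
    rwa [add_sub_cancel_right] at h1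
  have hEm : ∀ (g : G) (j : ℕ), j < n ^ 2 →
      (LinearMap.mulLeft Ω (R.ρ g - 1)).charpoly.coeff j ∈ mulT R := by
    intro g j hj
    refine mem_mulT.2 fun x hx => ?_
    obtain ⟨y, hy, e, -⟩ := exists_smul_capM X g hj.le hx
    exact ⟨y, hy, e⟩
  -- strict shrinking
  let P : Ω → Prop := fun e => ∀ x ∈ capM R, ∃ y ∈ capM R,
    ((y : R.A) : Matrix (Fin n) (Fin n) Ω) = e • ((x : R.A) : Matrix (Fin n) (Fin n) Ω) ∧
      ∀ i j, O'.valuation (X.π y i j) < γ
  have hlt : ∀ (c : Ω'), c ∈ O'.nonunits → ∀ x ∈ capM R, ∀ i j,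
      O'.valuation ((c • X.π x) i j) < γ := by
    intro c hc x hx i j
    rw [Matrix.smul_apply, smul_eq_mul, map_mul]
    have h1 : O'.valuation c < 1 := O'.mem_nonunits_iff.1 hc
    rcases eq_or_ne (O'.valuation (X.π x i j)) 0 with h0 | h0
    · rw [h0, mul_zero]
      exact hγ0
    · calc O'.valuation c * O'.valuation (X.π x i j) < 1 * O'.valuation (X.π x i j) :=
            mul_lt_mul_of_pos_right h1 (zero_lt_iff.2 h0)
        _ = O'.valuation (X.π x i j) := one_mul _
        _ ≤ γ := hb x hx i j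
  let gens : Set (mulT R) := {e | (∃ t : T, algebraMap T' Ω' (X.φ t) ∈ O'.nonunits ∧
      (e : Ω) = algebraMap T Ω t) ∨ ∃ (g : G) (j : ℕ), j < n ^ 2 ∧
      (e : Ω) = (LinearMap.mulLeft Ω (R.ρ g - 1)).charpoly.coeff j}
  have hP : ∀ e ∈ Ideal.span gens, P (e : Ω) := by
    intro e he
    refine Submodule.span_induction ?_ ?_ ?_ ?_ he
    · rintro e (⟨t, ht, het⟩ | ⟨g, j, hj, heg⟩)
      · intro x hx
        refine ⟨t • x, Submodule.smul_mem _ _ hx, ?_, ?_⟩
        · rw [Subalgebra.coe_smul, het, algebraMap_smul]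
        · intro i j
          rw [X.hπ]
          exact hlt _ ht x hx i j
      · intro x hx
        obtain ⟨y, hy, e1, e2⟩ := exists_smul_capM X g hj.le hx
        refine ⟨y, hy, by rw [e1, heg], fun i k => ?_⟩
        rw [e2]
        exact hlt _ (hE' g j hj) x hx i k
    · intro x hx
      refine ⟨0, zero_mem _, by simp, fun i j => ?_⟩
      rw [map_zero, Matrix.zero_apply, map_zero]
      exact hγ0
    · rintro a b - - ha hb' x hx
      obtain ⟨y, hy, e1, e2⟩ := ha x hx
      obtain ⟨z, hz, e3, e4⟩ := hb' x hx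
      refine ⟨y + z, add_mem hy hz, ?_, fun i j => ?_⟩
      · rw [Subalgebra.coe_add, e1, e3, Subring.coe_add, add_smul]
      · rw [map_add, Matrix.add_apply]
        exact Valuation.map_add_lt _ (e2 i j) (e4 i j)
    · rintro a b - hb' x hx
      obtain ⟨y, hy, e1⟩ := mem_mulT.1 a.2 x hx
      obtain ⟨z, hz, e2, e3⟩ := hb' y hy
      refine ⟨z, hz, ?_, e3⟩
      rw [e2, e1, smul_eq_mul, Subring.coe_mul, smul_smul, mul_comm]
  have hs : ∀ k : ℕ, (⟨algebraMap T Ω t₀, algebraMap_mem_mulT R t₀⟩ : mulT R) ^ k ∉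
      Ideal.span gens := by
    intro k hk
    obtain ⟨y, hy, e1, e2⟩ := hP _ hk x₀ hx₀
    have hy' : y = t₀ ^ k • x₀ := by
      refine Subtype.ext ?_
      rw [e1, Subalgebra.coe_smul, Subring.coe_pow, ← map_pow, algebraMap_smul]
    have h1 := e2 i₀ j₀
    rw [hy', X.hπ, Matrix.smul_apply, smul_eq_mul, map_mul, map_pow, map_pow, map_pow] at h1
    have h2 : O'.valuation (algebraMap T' Ω' (X.φ t₀)) = 1 := by
      refine le_antisymm ((O'.valuation_le_one_iff _).2 (hO' _)) ?_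
      rw [← not_lt]
      exact fun h3 => hcon (O'.mem_nonunits_iff.2 h3)
    rw [h2, one_pow, one_mul] at h1
    exact lt_irrefl _ h1
  obtain ⟨O, hO, hOI, hOs⟩ := exists_valuation (mulT R) (Ideal.span gens)
    ⟨algebraMap T Ω t₀, algebraMap_mem_mulT R t₀⟩ hs
  refine hOs (h O (fun t => hO ⟨algebraMap T Ω t, algebraMap_mem_mulT R t⟩) ?_ ?_ t₀ ht₀)
  · have h1 := hOI ⟨algebraMap T Ω (p : T), algebraMap_mem_mulT R _⟩
      (Ideal.subset_span (Or.inl ⟨(p : T), by rwa [map_natCast, map_natCast], rfl⟩))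
    have h2 : (algebraMap T Ω (p : T) : Ω) = (p : Ω) := map_natCast _ _
    rw [← h2]
    exact h1
  · intro g μ hμ
    have h1 : (LinearMap.mulLeft Ω (R.ρ g - 1)).charpoly.IsRoot (μ - 1) := by
      rw [isRoot_mulLeft_sub_one, sub_add_cancel]
      exact hμ
    refine root_mem_nonunits O (LinearMap.charpoly_monic _) (fun j hj => ?_) h1
    rw [natDegree_charpoly_mulLeft] at hj
    exact hOI ⟨_, hEm g j hj⟩ (Ideal.subset_span (Or.inr ⟨g, j, hj, rfl⟩))

end Red

end MP35
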