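import Pool.Agent.Lib_MP_3538b5_al.RRedDefs
import Pool.Agent.Lib_MP_3538b5_al.RLoc

/-! # Piece RREDTRIV: trivial factors and determinants under reduction -/

set_option autoImplicit false

namespace MP35

universe u v w

/-- PROOF. Choose a basis of `W`. The `j`-th coefficient of the characteristic polynomial of `Σ X_i • v_i` (matrices over `MvPolynomial ι K`) is a polynomial `c_j ∈ MvPolynomial ι K` whose value at `ω` is the `j`-th coefficient for `Σ ω_i • v_i`
(`Matrix.charpoly_map`). For `j < k` it vanishes at all points of `T' ^ ι`, `T'` an infinite subset of the field, so `c_j = 0` (`MvPolynomial.funext_set` or induction; Mathlib: `MvPolynomial.eq_zero_of_eval_zero_at_prod_finset`, `MvPolynomial.funext`). -/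
theorem charpoly_dens {T' : Type u} [CommRing T'] [Infinite T'] {K : Type v} [Field K] [Algebra T' K]
    (hinj : Function.Injective (algebraMap T' K)) {W : Type w} [AddCommGroup W] [Module K W]
    [FiniteDimensional K W] {ι : Type} [Fintype ι] (v : ι → Module.End K W) (k : ℕ)
    (h : ∀ t : ι → T', (Polynomial.X : Polynomial K) ^ k ∣
      (∑ i, algebraMap T' K (t i) • v i).charpoly) (ω : ι → K) :
    (Polynomial.X : Polynomial K) ^ k ∣ (∑ i, ω i • v i).charpoly := by
  classical
  let φ : (ι → K) →ₗ[K] Module.End K W := Fintype.linearCombination K v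
  have hφ : ∀ c : ι → K, φ c = ∑ i, c i • v i := fun c => rfl
  let b := Pi.basisFun K ι
  have hb : ∀ c : ι → K, (b.repr c : ι → K) = c := by
    intro c
    funext i
    simp [b]
  have hev : ∀ (c : ι → K) (j : ℕ), MvPolynomial.eval c ((LinearMap.polyCharpoly φ b).coeff j)
      = (∑ i, c i • v i).charpoly.coeff j := by
    intro c j
    have h1 := LinearMap.polyCharpoly_coeff_eval φ b c j
    rw [hb, hφ] at h1
    exact h1
  rw [Polynomial.X_pow_dvd_iff]
  intro j hj
  have hz : (LinearMap.polyCharpoly φ b).coeff j = 0 := by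
    refine MvPolynomial.funext_set (fun _ => Set.range (algebraMap T' K))
      (fun _ => Set.infinite_range_of_injective hinj) fun c hc => ?_
    have hc' : ∀ i, ∃ t : T', algebraMap T' K t = c i := fun i => hc i trivial
    choose t ht using hc'
    rw [map_zero, hev]
    have h2 := (Polynomial.X_pow_dvd_iff.1 (h t)) j hj
    rw [← h2]
    congr 2
    refine Finset.sum_congr rfl fun i _ => ?_
    rw [ht]
  rw [← hev, hz, map_zero]

/-- the determinant of the left multiplication by a matrix -/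
private theorem det_mulLeft_matrix {K : Type v} [Field K] {n : ℕ} (A : Matrix (Fin n) (Fin n) K) :
    LinearMap.det (LinearMap.mulLeft K A) = A.det ^ n := by
  classical
  let b := Matrix.stdBasis K (Fin n) (Fin n)
  have h1 : LinearMap.toMatrix b b (LinearMap.mulLeft K A)
      = Matrix.kroneckerMap (fun x y => x * y) A (1 : Matrix (Fin n) (Fin n) K) := by
    ext ⟨i, j⟩ ⟨k, l⟩
    rw [LinearMap.toMatrix_apply, Matrix.kroneckerMap_apply]
    have h2 : ∀ M : Matrix (Fin n) (Fin n) K, b.repr M (i, j) = M i j := by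
      intro M
      simp [b, Matrix.stdBasis]
    rw [h2, LinearMap.mulLeft_apply]
    simp only [b, Matrix.stdBasis_eq_single]
    by_cases hjl : j = l
    · subst hjl
      simp
    · simp [hjl]
  rw [← LinearMap.det_toMatrix b, h1]
  rw [Matrix.det_kronecker]
  simp

namespace Red

variable {p : ℕ} {G : Type u} [Group G] [TopologicalSpace G] {T : Type v} [CommRing T]
    [TopologicalSpace T] {Ω : Type v} [Field Ω] [Algebra T Ω] {n : ℕ} {R : Rep p G T Ω n}
    {T' : Type v} [CommRing T'] [TopologicalSpace T'] {Ω' : Type v} [Field Ω'] [Algebra T' Ω']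
    {R' : Rep p G T' Ω' n}

/-- PROOF. Every element of `R'.aug` is `Σ_i ω_i • (R'.Ad g_i - 1)` (finite sum, `i : Fin r`). By `charpoly_dens` it is enough to treat `ω_i = algebraMap (φ t_i)`, `t_i ∈ T`. Let `L = Σ_i algebraMap t_i • (R.Ad g_i - 1) ∈ R.aug`, `L' = Σ_i algebraMap (φ t_i) • (R'.Ad g_i - 1)`, and
`LA a = Σ_i t_i • (j g_i * a * j g_i⁻¹ - a)`. Then `LA` is compatible with `L` (inclusion) and with `L'` (`X.π`). `X ^ k ∣ L.charpoly` means that the coefficients of index `j < k` vanish; if `k ≤ n ^ 2`, by `capF_up` the elements `capF LA j b z` of `A` are zero for `j < k`, so by `capF_down`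
`L'.charpoly.coeff j • π (capf b z) = 0`; choose `b, z` with `π (capf b z) ≠ 0` (`exists_capf_ne`). (`k ≤ n ^ 2` because the characteristic polynomial of `0 ∈ R.aug` is `X ^ (n ^ 2)`.) -/
theorem triv (X : Red R R') [Infinite Ω] [Infinite T'] (hn : 0 < n) {k : ℕ}
    (h : R.TrivGE k) : R'.TrivGE k := by
  classical
  have : Infinite Ω' := Infinite.of_injective _ R'.tinj
  have hk : k ≤ n ^ 2 := by
    have h1 := h 0 (Submodule.zero_mem _)
    rw [LinearMap.charpoly_zero, Module.finrank_matrix] at h1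
    simp only [Fintype.card_fin, Module.finrank_self, mul_one] at h1
    rw [sq]
    exact (pow_dvd_pow_iff Polynomial.X_ne_zero Polynomial.not_isUnit_X).1 h1
  intro x hx
  obtain ⟨r, ω, g, rfl⟩ := Submodule.mem_span_set'.1 hx
  have hg : ∀ i, ∃ y : G, R'.Ad y - 1 = (g i : Module.End Ω' (Matrix (Fin n) (Fin n) Ω')) :=
    fun i => (g i).2
  choose y hy using hg
  simp only [← hy]
  refine charpoly_dens (T' := T') R'.tinj (fun i => R'.Ad (y i) - 1) k (fun t' => ?_) ω
  choose t ht using fun i => X.surj (t' i)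
  let L : Module.End Ω (Matrix (Fin n) (Fin n) Ω) :=
    ∑ i, algebraMap T Ω (t i) • (R.Ad (y i) - 1)
  let LA : R.A → R.A := fun a => ∑ i, t i • (R.j (y i) * a * R.j (y i)⁻¹ - a)
  let L' : Module.End Ω' (Matrix (Fin n) (Fin n) Ω') :=
    ∑ i, algebraMap T' Ω' (t' i) • (R'.Ad (y i) - 1)
  have hL : ∀ a : R.A, ((LA a : R.A) : Matrix (Fin n) (Fin n) Ω) = L a := by
    intro a
    change ((∑ i, t i • (R.j (y i) * a * R.j (y i)⁻¹ - a) : R.A) : Matrix (Fin n) (Fin n) Ω) = L a
    rw [AddSubmonoidClass.coe_finsetSum, LinearMap.sum_apply]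
    refine Finset.sum_congr rfl fun i _ => ?_
    rw [LinearMap.smul_apply, algebraMap_smul]
    rfl
  have hL' : ∀ a : R.A, X.π (LA a) = L' (X.π a) := by
    intro a
    change X.π (∑ i, t i • (R.j (y i) * a * R.j (y i)⁻¹ - a)) = L' (X.π a)
    rw [map_sum, LinearMap.sum_apply]
    refine Finset.sum_congr rfl fun i _ => ?_
    rw [X.hπ, ht, map_sub, map_mul, map_mul, X.hρ, X.hρ]
    rfl
  have hLmem : L ∈ R.aug := Submodule.sum_mem _ fun i _ =>
    Submodule.smul_mem _ _ (Submodule.subset_span ⟨y i, rfl⟩)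
  obtain ⟨b, z, hbz⟩ := X.exists_capf_ne hn
  change (Polynomial.X : Polynomial Ω') ^ k ∣ L'.charpoly
  rw [Polynomial.X_pow_dvd_iff]
  intro j hj
  have hj2 : j ≤ n ^ 2 := hj.le.trans hk
  have h1 := capF_up (R := R) hL hj2 b z
  rw [(Polynomial.X_pow_dvd_iff.1 (h L hLmem)) j hj, zero_smul] at h1
  have h2 : capF LA j b z = 0 := Subtype.ext h1
  have h3 := X.capF_down hL' hj2 b z
  rw [h2, map_zero] at h3
  exact (smul_eq_zero.1 h3.symm).resolve_right hbz

/-- PROOF. Let `x = g ^ N`, `L = ` left multiplication by `ρ x`, `L'` by `ρ' x`, `LA` by `j x`. The coefficient of index `0` of the characteristic polynomial of `L` is `± det L = ± (det ρ x) ^ n = ± 1` (the determinant of the left multiplication is the `n`-th power: the left multiplication is a direct sum of `n` copies of `x` acting on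
columns). By `capF_up` `capF LA 0 b z = ± capf b z` in `A` (same sign `(-1) ^ (n ^ 2)`), by `capF_down` the same for `L'`, so `det L' = 1` and `(det ρ' x) ^ n = 1`. -/
theorem det_pow (X : Red R R') [Infinite Ω] [Infinite Ω'] (hn : 0 < n) {N : ℕ}
    (h : ∀ g, (R.ρ g).det ^ N = 1) (g : G) : (R'.ρ g).det ^ (n * N) = 1 := by
  classical
  let x : G := g ^ N
  let L : Module.End Ω (Matrix (Fin n) (Fin n) Ω) := LinearMap.mulLeft Ω (R.ρ x)
  let L' : Module.End Ω' (Matrix (Fin n) (Fin n) Ω') := LinearMap.mulLeft Ω' (R'.ρ x)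
  let LA : R.A → R.A := fun a => R.j x * a
  have hL : ∀ a : R.A, ((LA a : R.A) : Matrix (Fin n) (Fin n) Ω) = L a := fun a => rfl
  have hL' : ∀ a : R.A, X.π (LA a) = L' (X.π a) := by
    intro a
    change X.π (R.j x * a) = R'.ρ x * X.π a
    rw [map_mul, X.hρ]
  have hdL : LinearMap.det L = 1 := by
    rw [det_mulLeft_matrix]
    change (R.ρ (g ^ N)).det ^ n = 1
    rw [map_pow, Matrix.det_pow, h, one_pow]
  have hfr : ∀ (K : Type v) [Field K], Module.finrank K (Matrix (Fin n) (Fin n) K) = n ^ 2 := by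
    intro K _
    rw [Module.finrank_matrix]
    simp [sq]
  obtain ⟨b, z, hbz⟩ := X.exists_capf_ne hn
  have h1 := capF_up (R := R) hL (Nat.zero_le _) b z
  have h3 := X.capF_down hL' (Nat.zero_le _) b z
  have e1 := LinearMap.det_eq_sign_charpoly_coeff (f := L)
  have e2 := LinearMap.det_eq_sign_charpoly_coeff (f := L')
  rw [hfr, hdL] at e1
  rw [hfr, det_mulLeft_matrix] at e2
  have hs : ((-1 : ℤ) ^ (n ^ 2)) * ((-1 : ℤ) ^ (n ^ 2)) = 1 := by
    rw [← mul_pow]
    norm_num
  have hc : L.charpoly.coeff 0 = ((-1 : ℤ) ^ (n ^ 2) : ℤ) := by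
    have hs' : (((-1 : Ω)) ^ (n ^ 2)) * ((-1 : Ω) ^ (n ^ 2)) = 1 := by
      rw [← mul_pow]
      norm_num
    push_cast
    calc L.charpoly.coeff 0 = (((-1 : Ω)) ^ (n ^ 2)) * ((-1 : Ω) ^ (n ^ 2)) * L.charpoly.coeff 0 := by
          rw [hs', one_mul]
      _ = (-1 : Ω) ^ (n ^ 2) * 1 := by rw [mul_assoc, ← e1]
      _ = _ := mul_one _
  have h2 : capF LA 0 b z = ((-1 : ℤ) ^ (n ^ 2) : ℤ) • capf b z := by
    apply Subtype.ext
    rw [h1, hc]
    rw [Int.cast_smul_eq_zsmul]
    rfl
  rw [h2, map_zsmul, ← Int.cast_smul_eq_zsmul Ω'] at h3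
  have h4 : ((((-1 : ℤ) ^ (n ^ 2) : ℤ) : Ω') - L'.charpoly.coeff 0) • X.π (capf b z) = 0 := by
    rw [sub_smul, h3, sub_self]
  have h5 := sub_eq_zero.1 ((smul_eq_zero.1 h4).resolve_right hbz)
  rw [← h5] at e2
  have h6 : (R'.ρ x).det ^ n = 1 := by
    rw [e2]
    have := congrArg (Int.cast : ℤ → Ω') hs
    push_cast at this ⊢
    exact this
  rw [mul_comm, pow_mul]
  have h7 : (R'.ρ g).det ^ N = (R'.ρ x).det := by
    change _ = (R'.ρ (g ^ N)).det
    rw [map_pow, Matrix.det_pow]
  rw [h7, h6]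

end Red

end MP35
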