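import Pool.Agent.Lib_MP_3538b5_al.RRed

/-! # Irreducibility in minimal degree (glue) -/

set_option autoImplicit false

namespace MP35

universe u v w

variable {p : ℕ} [Fact p.Prime] {G : Type u} [Group G] [TopologicalSpace G]
    [IsTopologicalGroup G] [CompactSpace G] [T2Space G] [TotallyDisconnectedSpace G]

theorem adjoin_j_eq_top {T : Type v} [CommRing T] [TopologicalSpace T]
    {Ω : Type v} [Field Ω] [Algebra T Ω] {n : ℕ} (R : Rep p G T Ω n) :
    Algebra.adjoin T (Set.range R.j) = ⊤ := by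
  rw [eq_top_iff]
  rintro ⟨a, ha⟩ -
  have h1 : (Algebra.adjoin T (Set.range R.j)).map R.A.val = R.A := by
    rw [AlgHom.map_adjoin]
    congr 1
    ext x
    constructor
    · rintro ⟨_, ⟨g, rfl⟩, rfl⟩
      exact ⟨g, rfl⟩
    · rintro ⟨g, rfl⟩
      exact ⟨R.j g, ⟨g, rfl⟩, rfl⟩
  have h2 : a ∈ (Algebra.adjoin T (Set.range R.j)).map R.A.val := by rw [h1]; exact ha
  obtain ⟨b, hb, hba⟩ := h2
  have : b = ⟨a, ha⟩ := Subtype.ext hba
  rwa [← this]

/-- a subspace stable under the group is stable under the order -/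
theorem Rep.stable_A {T : Type v} [CommRing T] [TopologicalSpace T]
    {Ω : Type v} [Field Ω] [Algebra T Ω] {n : ℕ} (R : Rep p G T Ω n) {U : Submodule Ω (Fin n → Ω)}
    (hU : ∀ g, ∀ v ∈ U, Matrix.mulVec (R.ρ g) v ∈ U) {a : Matrix (Fin n) (Fin n) Ω} (ha : a ∈ R.A) :
    ∀ v ∈ U, Matrix.mulVec a v ∈ U := by
  induction ha using Algebra.adjoin_induction with
  | mem x hx =>
    obtain ⟨g, rfl⟩ := hx
    exact fun v hv => hU g v hv
  | algebraMap t =>
    intro v hv
    have e : algebraMap T (Matrix (Fin n) (Fin n) Ω) t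
        = algebraMap T Ω t • (1 : Matrix (Fin n) (Fin n) Ω) := by
      rw [IsScalarTower.algebraMap_apply T Ω (Matrix (Fin n) (Fin n) Ω),
        Algebra.algebraMap_eq_smul_one]
    rw [e, Matrix.smul_mulVec, Matrix.one_mulVec]
    exact U.smul_mem _ hv
  | add x y _ _ hx hy =>
    intro v hv
    rw [Matrix.add_mulVec]
    exact U.add_mem (hx v hv) (hy v hv)
  | mul x y _ _ hx hy =>
    intro v hv
    rw [← Matrix.mulVec_mulVec]
    exact hx _ (hy v hv)

/-- in minimal degree representations are irreducible -/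
theorem Rep.span_top {n : ℕ} (hmin : ∀ m, HasRep.{u, v} p m → n ≤ m) (hG : PF p G) {T : Type v}
    [CommRing T] [TopologicalSpace T] [CNR T] [IsDomain T] {Ω : Type v} [Field Ω] [IsAlgClosed Ω]
    [Algebra T Ω] (R : Rep p G T Ω n) :
    Submodule.span Ω (Set.range R.ρ) = ⊤ := by
  let α : R.A →+* Module.End Ω (Fin n → Ω) :=
    (Matrix.toLinAlgEquiv' : Matrix (Fin n) (Fin n) Ω ≃ₐ[Ω] _).toAlgHom.toRingHom.comp
      R.A.val.toRingHom
  have hα : ∀ (a : R.A) (v : Fin n → Ω), α a v = Matrix.mulVec (a : Matrix (Fin n) (Fin n) Ω) v :=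
    fun a v => rfl
  have hαinj : Function.Injective fun g => α (R.j g) := by
    intro g h hgh
    apply R.inj
    have := Matrix.toLinAlgEquiv'.injective hgh
    exact this
  obtain ⟨m, β, hβ, hβr, hβi, hm, hm'⟩ := faithful_factor hG R.j (K := Ω) (D := Fin n → Ω) α hαinj
  have hπ : ∀ (t : T) (a : R.A), β (t • a) = algebraMap T Ω (RingHom.id T t) • β a := by
    intro t a
    apply hβr
    have e1 : α (t • a) = algebraMap T Ω t • α a := by
      refine LinearMap.ext fun v => ?_
      have e2 : ((t • a : R.A) : Matrix (Fin n) (Fin n) Ω)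
          = algebraMap T Ω t • (a : Matrix (Fin n) (Fin n) Ω) := by
        rw [algebraMap_smul]
        rfl
      rw [hα, e2, Matrix.smul_mulVec, LinearMap.smul_apply, hα]
    exact e1
  obtain ⟨R', hR'⟩ := rep_of_hom (p := p) R.j R.cont_j (adjoin_j_eq_top R) (RingHom.id T)
    Function.surjective_id continuous_id R.tinj β hπ hβ R.pnil
  have h1 : n ≤ m := hmin m ⟨G, inferInstance, inferInstance, inferInstance, inferInstance,
    inferInstance, inferInstance, T, inferInstance, inferInstance, inferInstance, inferInstance,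
    Ω, inferInstance, inferInstance, inferInstance, hG, ⟨R'⟩⟩
  have h2 : Module.finrank Ω (Fin n → Ω) = n := by simp
  rw [h2] at hm hm'
  have hirr := hm' (le_antisymm hm h1)
  exact burnside_hom R.ρ fun U hU => hirr U fun a v hv => R.stable_A hU a.2 v hv

/-- closed noncommutative subgroups -/
theorem PF.sub {H : Subgroup G} (hG : PF p G) (hH : IsClosed (H : Set G))
    (hnc : ∃ x ∈ H, ∃ y ∈ H, x * y ≠ y * x) : PF p H := by
  refine ⟨hG.proP.sub H, hG.lift.sub H hH, ?_⟩
  obtain ⟨x, hx, y, hy, h⟩ := hnc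
  exact ⟨⟨x, hx⟩, ⟨y, hy⟩, fun e => h (congrArg Subtype.val e)⟩

end MP35
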