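import Pool.Agent.Lib_MP_3538b5_al.RTraceG

/-! # Piece RTRACE: the ring of characteristic coefficients -/

set_option autoImplicit false

namespace MP35

universe u v w

/-- PROOF. Let `X 0 = ρ a - 1`, `X 1 = ρ b - 1`, `ev = FreeAlgebra.lift ℤ X` (into `R.A`), `l, r, y` from `levitzki`, and `E = {(ev (y i)).charpoly.coeff j | i, j < n}`, a finite set of elements of `Ω` integral over `T` (`Rep.isIntegral_coeff`).
(1) `ev (y i)` is in the `ℤ`-span of the `ρ g - 1`: it has no constant term, and `(ρ g - 1)(ρ h - 1) = (ρ (g h) - 1) - (ρ g - 1) - (ρ h - 1)`.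
(2) `T₁ = Algebra.adjoin T E`, a finite `T`-algebra in `Ω`, with the module topology a `CNR` domain (`cnr_of_finite`); `B = ` the `T₁`-subalgebra of the matrices generated by `ρ(G)`, finite over `T₁` (spanned by the generators of `R.A`), with the module topology; `G → B` is continuous (`R.A → B` is `T`-linear).
(3) The elements of `E` are topologically nilpotent in `T₁`: otherwise some `c ∈ E` is a unit of `T₁` (`isUnit_or_tn`). Let `O` be a valuation subring of `Ω` dominating `T₁` at its maximal ideal (`exists_dominating`); the topologically nilpotent elements of `T` are in `O.nonunits`, so `R.Unip O` (`Rep.unip_of_maximal`), so by (1) and `Rep.root_of_unip`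
the eigenvalues of `ev (y i)` are in `O.nonunits`, `c ∈ O.nonunits` (`coeff_mem_nonunits`), contradiction.
(4) `S = (Subring.closure E).topologicalClosure ≤ T₁` is noetherian (`noeth_closureP`), `CNR`, a domain, `p` is topologically nilpotent. By Cayley-Hamilton and `span_words` the `S`-span of the words is finitely generated, by `mem_span_words` it contains `ρ(G)`, so the `S`-algebra generated by `ρ(G)` is a finite `S`-module. Continuity: it embeds in `B`
(`isClosedEmbedding_of_injective` over `S`).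
(5) Full: let `O ≥ S` be a valuation subring of `Ω`, `p ∈ O.nonunits`, unipotent. By (1) and `Rep.root_of_unip` (for the new representation) `E ≤ O.nonunits`. The ideal `J` of `S` generated by `p` and `E` is closed, and the image of `ℤ[E]` is dense in `S`, so `S = ℤ + J` (`S ⧸ J` is generated by `1`, finite or: `ℤ + J` is compact, as `J` is and `p ∈ J` makes it a finite union of cosets).
A topologically nilpotent `s ∈ S` is `m + x`, `m ∈ ℤ`, `x ∈ J`; if `p ∤ m` then `m` is a unit modulo `J`, and `s` is a unit modulo `J`, contradiction (`J` is a proper ideal: its elements are topologically nilpotent); so `s ∈ J` and `s ∈ O.nonunits`. -/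
theorem exists_trace {p : ℕ} [Fact p.Prime] {G : Type u} [Group G] [TopologicalSpace G]
    [IsTopologicalGroup G] [CompactSpace G] [T2Space G] [TotallyDisconnectedSpace G] (hG : PF p G)
    {a b : G} (hab : cl2 a b = ⊤) {T : Type v} [CommRing T] [TopologicalSpace T] [CNR T] [IsDomain T]
    {Ω : Type v} [Field Ω] [IsAlgClosed Ω] [Algebra T Ω] {n : ℕ} (hn : 0 < n) (R : Rep p G T Ω n) :
    ∃ (S : Type v) (_ : CommRing S) (_ : TopologicalSpace S) (_ : CNR S) (_ : IsDomain S)
      (_ : Algebra S Ω) (R' : Rep p G S Ω n), R'.ρ = R.ρ ∧ R'.Full := by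
  classical
  obtain ⟨l, r, y, hy0, hlev⟩ := levitzki hn
  let X₀ : Fin 2 → Matrix (Fin n) (Fin n) Ω := ![R.ρ a - 1, R.ρ b - 1]
  have hX₀ : ∀ i, X₀ i ∈ AddSubgroup.closure (Set.range fun g => R.ρ g - 1) := by
    intro i
    fin_cases i
    · exact AddSubgroup.subset_closure ⟨a, rfl⟩
    · exact AddSubgroup.subset_closure ⟨b, rfl⟩
  have hw : ∀ i, FreeAlgebra.lift ℤ X₀ (y i) ∈ Submodule.span T (Set.range fun g => R.ρ g - 1) :=
    fun i => word_mem_span R.ρ X₀ hX₀ (hy0 i) T
  have hspanA : Submodule.span T (Set.range fun g => R.ρ g - 1) ≤ Subalgebra.toSubmodule R.A := by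
    rw [Submodule.span_le]
    rintro _ ⟨g, rfl⟩
    exact R.A.sub_mem (Algebra.subset_adjoin ⟨g, rfl⟩) R.A.one_mem
  -- the coefficients
  let c₀ : Fin r × Fin n → Ω := fun q => (FreeAlgebra.lift ℤ X₀ (y q.1)).charpoly.coeff q.2
  have hint : ∀ q, IsIntegral T (c₀ q) := fun q => R.isIntegral_coeff (hspanA (hw q.1)) _
  let T₁ : Subalgebra T Ω := Algebra.adjoin T (Set.range c₀)
  have hT₁fg : (Subalgebra.toSubmodule T₁).FG := fg_adjoin_of_finite (Set.finite_range c₀) (by
    rintro _ ⟨q, rfl⟩
    exact hint q)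
  have hT₁fin : Module.Finite T T₁ := Module.Finite.iff_fg.2 hT₁fg
  let _ : TopologicalSpace T₁ := moduleTopology T T₁
  have hmt : IsModuleTopology T T₁ := ⟨rfl⟩
  have hcnr : CNR T₁ := cnr_of_finite T T₁
  have hcsm : ContinuousSMul T T₁ := IsModuleTopology.toContinuousSMul T T₁
  have hc1 : Continuous (algebraMap T T₁) := by
    have e : (algebraMap T T₁ : T → T₁) = fun t => t • (1 : T₁) := by
      funext t
      rw [Algebra.algebraMap_eq_smul_one]
    rw [e]
    exact continuous_id.smul continuous_const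
  have hinj1 : Function.Injective (algebraMap T₁ Ω) := Subtype.val_injective
  obtain ⟨R₁, hR₁⟩ := R.exists_extend hc1 hinj1
  let c : Fin r × Fin n → T₁ := fun q => ⟨c₀ q, Algebra.subset_adjoin ⟨q, rfl⟩⟩
  -- (3) the coefficients are topologically nilpotent
  have hctn : ∀ q, IsTopologicallyNilpotent (c q) := by
    intro q
    refine (isUnit_or_tn (c q)).resolve_left fun hu => ?_
    have hloc := isLocalRing_of_cnr T₁
    obtain ⟨O, hO, hOQ⟩ := exists_dominating (K := Ω) hinj1 (IsLocalRing.maximalIdeal T₁)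
      inferInstance
    have hOT : ∀ t : T, algebraMap T Ω t ∈ O := by
      intro t
      rw [IsScalarTower.algebraMap_apply T T₁ Ω]
      exact hO _
    have hm : ∀ t : T, IsTopologicallyNilpotent t → algebraMap T Ω t ∈ O.nonunits := by
      intro t ht
      rw [IsScalarTower.algebraMap_apply T T₁ Ω, hOQ, mem_maximalIdeal_iff]
      exact ht.map (φ := algebraMap T T₁) hc1
    have hU : R.Unip O := R.unip_of_maximal hG.proP O hOT hm
    have h1 : c₀ q ∈ O.nonunits := by
      refine coeff_mem_nonunits O (Matrix.charpoly_monic _)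
        (fun μ hμ => R.root_of_unip O hOT hU (hw q.1) hμ) ?_
      rw [Matrix.charpoly_natDegree_eq_dim, Fintype.card_fin]
      exact q.2.2
    have h2 : algebraMap T₁ Ω (c q) ∈ O.nonunits := h1
    rw [hOQ, IsLocalRing.mem_maximalIdeal, mem_nonunits_iff] at h2
    exact h2 hu
  -- (4) the ring generated by the coefficients
  let S : Subring T₁ := (Subring.closure (Set.range c)).topologicalClosure
  have hScl : IsClosed (S : Set T₁) := Subring.isClosed_topologicalClosure _
  have hSn : IsNoetherianRing S := noeth_closureP (p := p) R₁.pnil c hctn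
  have hScnr : CNR S := cnr_subring S hScl hSn
  have hSsub : ∀ q, c q ∈ S := fun q =>
    Subring.le_topologicalClosure _ (Subring.subset_closure ⟨q, rfl⟩)
  let c' : Fin r → Fin n → S := fun i j => -⟨c (i, j), hSsub (i, j)⟩
  have hc'tn : ∀ i j, IsTopologicallyNilpotent (c' i j) := by
    intro i j
    have h1 : IsTopologicallyNilpotent (⟨c (i, j), hSsub (i, j)⟩ : S) := tn_subring (hctn (i, j))
    have h2 : c' i j = (⟨c (i, j), hSsub (i, j)⟩ : S) * (-1) := by rw [mul_neg, mul_one]
    rw [h2]
    exact h1.mul_right _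
  have hpS : IsTopologicallyNilpotent (p : S) := by
    refine tn_subring ?_
    rw [Subring.coe_natCast]
    exact R₁.pnil
  have hc2 : Continuous (algebraMap S T₁) := continuous_subtype_val
  -- words in the algebra over `T₁`
  let X : Fin 2 → R₁.A := ![R₁.j a - 1, R₁.j b - 1]
  have hXX : ∀ w, ((FreeAlgebra.lift ℤ X w : R₁.A) : Matrix (Fin n) (Fin n) Ω)
      = FreeAlgebra.lift ℤ X₀ w := by
    intro w
    have e : ((R₁.A.val.restrictScalars ℤ).comp (FreeAlgebra.lift ℤ X)) = FreeAlgebra.lift ℤ X₀ := by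
      refine FreeAlgebra.hom_ext ?_
      funext i
      fin_cases i
      · show ((FreeAlgebra.lift ℤ X (FreeAlgebra.ι ℤ 0) : R₁.A) : Matrix (Fin n) (Fin n) Ω)
          = FreeAlgebra.lift ℤ X₀ (FreeAlgebra.ι ℤ 0)
        rw [FreeAlgebra.lift_ι_apply, FreeAlgebra.lift_ι_apply]
        show R₁.ρ a - 1 = R.ρ a - 1
        rw [hR₁]
      · show ((FreeAlgebra.lift ℤ X (FreeAlgebra.ι ℤ 1) : R₁.A) : Matrix (Fin n) (Fin n) Ω)
          = FreeAlgebra.lift ℤ X₀ (FreeAlgebra.ι ℤ 1)
        rw [FreeAlgebra.lift_ι_apply, FreeAlgebra.lift_ι_apply]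
        show R₁.ρ b - 1 = R.ρ b - 1
        rw [hR₁]
    exact congrArg (fun f : FreeAlgebra ℤ (Fin 2) →ₐ[ℤ] Matrix (Fin n) (Fin n) Ω => f w) e
  have hCH : ∀ i, FreeAlgebra.lift ℤ X (y i) ^ n
      = ∑ j : Fin n, c' i j • FreeAlgebra.lift ℤ X (y i) ^ (j : ℕ) := by
    intro i
    apply Subtype.ext
    set M := FreeAlgebra.lift ℤ X₀ (y i) with hM
    have e1 : (((FreeAlgebra.lift ℤ X (y i)) ^ n : R₁.A) : Matrix (Fin n) (Fin n) Ω) = M ^ n := by
      rw [SubmonoidClass.coe_pow, hXX]
    have e2 : ((∑ j : Fin n, c' i j • FreeAlgebra.lift ℤ X (y i) ^ (j : ℕ) : R₁.A) :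
        Matrix (Fin n) (Fin n) Ω) = ∑ j : Fin n, (-(M.charpoly.coeff j)) • M ^ (j : ℕ) := by
      rw [AddSubmonoidClass.coe_finsetSum]
      refine Finset.sum_congr rfl fun j _ => ?_
      have e3 : ((c' i j • FreeAlgebra.lift ℤ X (y i) ^ (j : ℕ) : R₁.A) :
          Matrix (Fin n) (Fin n) Ω) = ((c' i j : T₁) : Ω) • M ^ (j : ℕ) := by
        rw [hM, ← hXX, ← SubmonoidClass.coe_pow]
        rfl
      rw [e3]
      rfl
    rw [e1, e2]
    have h1 := Matrix.aeval_self_charpoly M
    rw [Polynomial.aeval_eq_sum_range, Matrix.charpoly_natDegree_eq_dim, Fintype.card_fin,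
      Finset.sum_range_succ] at h1
    have h2 : M.charpoly.coeff n = 1 := by
      have h3 := (Matrix.charpoly_monic M).coeff_natDegree
      rwa [Matrix.charpoly_natDegree_eq_dim, Fintype.card_fin] at h3
    rw [h2, one_smul, add_comm, ← eq_neg_iff_add_eq_zero] at h1
    rw [h1, ← Finset.sum_neg_distrib, ← Fin.sum_univ_eq_sum_range
      (fun j => -(M.charpoly.coeff j • M ^ j))]
    refine Finset.sum_congr rfl fun j _ => ?_
    rw [neg_smul]
  have hfg := span_words hc2 X y hlev c' hc'tn hCH
  have hcadd : ContinuousAdd R₁.A := IsModuleTopology.toContinuousAdd T₁ _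
  have hcsmul : ContinuousSMul T₁ R₁.A := IsModuleTopology.toContinuousSMul T₁ _
  have hcsmulS : ContinuousSMul S R₁.A := by
    constructor
    exact (hc2.comp continuous_fst).smul continuous_snd
  have hwords := mem_span_words hG.proP hab R₁.j R₁.cont_j (X := X) ⟨rfl, rfl⟩ hfg
  -- finiteness over `S`
  have hfinS : Module.Finite S (repAlg S R₁.ρ) := by
    let val : R₁.A →ₗ[S] Matrix (Fin n) (Fin n) Ω :=
      { toFun := fun x => x
        map_add' := fun x y => rfl
        map_smul' := fun t x => rfl }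
    have h1 := hfg.map val
    have h2 : Subalgebra.toSubmodule (repAlg S R₁.ρ) ≤
        (Submodule.span S (Set.range (FreeAlgebra.lift ℤ X))).map val := by
      rw [repAlg_eq_span, Submodule.span_le]
      rintro _ ⟨g, rfl⟩
      exact ⟨R₁.j g, hwords g, rfl⟩
    have h3 : Module.Finite S ((Submodule.span S (Set.range (FreeAlgebra.lift ℤ X))).map val) :=
      Module.Finite.iff_fg.2 h1
    have h4 : IsNoetherian S ((Submodule.span S (Set.range (FreeAlgebra.lift ℤ X))).map val) :=
      isNoetherian_of_isNoetherianRing_of_finite S _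
    exact Module.Finite.of_injective (Submodule.inclusion h2) (Submodule.inclusion_injective h2)
  have hinjS : Function.Injective (algebraMap S Ω) := fun x y hxy =>
    Subtype.ext (hinj1 hxy)
  obtain ⟨R', hR'⟩ := R₁.exists_descend (S := S) hc2 hinjS hpS hfinS
  have hρ : R'.ρ = R.ρ := hR'.trans hR₁
  refine ⟨S, inferInstance, inferInstance, hScnr, inferInstance, inferInstance, R', hρ, ?_⟩
  -- (5)
  intro O hO hpO hU t ht
  refine tn_nonunits (p := p) (Set.range c) O hO hpO ?_ t ht
  rintro _ ⟨q, rfl⟩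
  refine coeff_mem_nonunits O (Matrix.charpoly_monic _) (fun μ hμ => R'.root_of_unip O hO hU
    (x := FreeAlgebra.lift ℤ X₀ (y q.1)) ?_ hμ) ?_
  · rw [hρ]
    exact word_mem_span R.ρ X₀ hX₀ (hy0 q.1) S
  · rw [Matrix.charpoly_natDegree_eq_dim, Fintype.card_fin]
    exact q.2.2

end MP35
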