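import Pool.Agent.Lib_MP_3538b5_al.GHall
import Pool.Agent.Lib_MP_3538b5_al.RInit2
import Pool.Agent.Lib_MP_3538b5_al.ROpt
import Pool.Agent.Lib_MP_3538b5_al.RSpan
import Pool.Agent.Lib_MP_3538b5_al.RClosed
import Pool.Agent.Lib_MP_3538b5_al.RRedTriv
import Pool.Agent.Lib_MP_3538b5_al.RRedFull
import Pool.Agent.Lib_MP_3538b5_al.RDetect
import Pool.Agent.Lib_MP_3538b5_al.RTrace

/-! # The reduction -/

set_option autoImplicit false

namespace MP35

universe u v w

/-- the conditions carried through the reduction -/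
structure Good {p : ℕ} {G : Type u} [Group G] [TopologicalSpace G] [IsTopologicalGroup G]
    {T : Type v} [CommRing T] [TopologicalSpace T] {Ω : Type v} [Field Ω] [Algebra T Ω] {n : ℕ}
    (R : Rep p G T Ω n) (k : ℕ) : Prop where
  pf : PF p G
  fg : ∃ (m : ℕ) (z : Fin m → G), clS (Set.range z) = ⊤
  alg : Algebra.IsAlgebraic T Ω
  full : R.Full
  triv : R.TrivGE k
  det : ∃ N : ℕ, 0 < N ∧ ∀ g, (R.ρ g).det ^ N = 1

/-- the ideals of `S` whose quotients carry good representations -/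
def GoodIdeal (p n k : ℕ) (S : Type v) [CommRing S] [TopologicalSpace S] (P : Ideal S) : Prop :=
  ∃ (G : Type u) (_ : Group G) (_ : TopologicalSpace G) (_ : IsTopologicalGroup G)
    (_ : CompactSpace G) (_ : T2Space G) (_ : TotallyDisconnectedSpace G)
    (T : Type v) (_ : CommRing T) (_ : TopologicalSpace T) (_ : CNR T) (_ : IsDomain T)
    (φ : S →+* T) (Ω : Type v) (_ : Field Ω) (_ : IsAlgClosed Ω) (_ : Algebra T Ω)
    (R : Rep p G T Ω n), Function.Surjective φ ∧ Continuous φ ∧ RingHom.ker φ = P ∧ Good R k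

/-- congruence subgroups in terms of matrices -/
theorem mem_NI_mat {p : ℕ} {G : Type u} [Group G] [TopologicalSpace G] {T : Type v} [CommRing T]
    [TopologicalSpace T] {Ω : Type v} [Field Ω] [Algebra T Ω] {n : ℕ} (R : Rep p G T Ω n) {c : T}
    {g : G} :
    g ∈ R.NI (Ideal.span {c}) ↔
      ∃ x ∈ repAlg T R.ρ, R.ρ g = 1 + c • (x : Matrix (Fin n) (Fin n) Ω) := by
  rw [R.mem_NI_span]
  constructor
  · rintro ⟨x, hx⟩
    exact ⟨x, x.2, congrArg Subtype.val hx⟩
  · rintro ⟨x, hx, h⟩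
    exact ⟨⟨x, hx⟩, Subtype.ext h⟩

section

variable {p : ℕ} [hp : Fact p.Prime] {G : Type u} [Group G] [TopologicalSpace G]
    [IsTopologicalGroup G] [CompactSpace G] [T2Space G] [TotallyDisconnectedSpace G]
    {T : Type v} [CommRing T] [TopologicalSpace T] [CNR T] [IsDomain T]
    {Ω : Type v} [Field Ω] [IsAlgClosed Ω] [Algebra T Ω] {n k : ℕ}

theorem good_red (hopt : OptNK.{u, v} p n k) (hG : PF p G)
    (hfg : ∃ (m : ℕ) (z : Fin m → G), clS (Set.range z) = ⊤)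
    (R : Rep p G T Ω n) (hfull : R.Full) (htriv : R.TrivGE k)
    (hdet : ∃ N : ℕ, 0 < N ∧ ∀ g, (R.ρ g).det ^ N = 1)
    {c : T} (hc : ∀ g ∈ R.NI (Ideal.span {c}), g = 1) :
    ∃ (T' : Type v) (_ : CommRing T') (_ : TopologicalSpace T') (_ : CNR T') (_ : IsDomain T')
      (φ : T →+* T') (Ω' : Type v) (_ : Field Ω') (_ : IsAlgClosed Ω') (_ : Algebra T' Ω')
      (R' : Rep p G T' Ω' n), Function.Surjective φ ∧ Continuous φ ∧ φ c = 0 ∧ Good R' k := by
  have hn : 0 < n := lt_of_lt_of_le two_pos (R.two_le hG.nc)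
  obtain ⟨T', i1, i2, i3, i4, Ω', i5, i6, i7, R', X, hXc, halg⟩ :=
    exists_reduction hG R hopt.nmin hc
  obtain ⟨N, hN, hdet⟩ := hdet
  have hinf : Infinite T' := infinite_of_rep hG R'
  exact ⟨T', i1, i2, i3, i4, X.φ, Ω', i5, i6, i7, R', X.surj, X.cont, hXc,
    ⟨hG, hfg, halg, X.full hn hfull, X.triv hn htriv, n * N, Nat.mul_pos hn hN,
      X.det_pow hn hdet⟩⟩

theorem deep_step (hopt : OptNK.{u, v} p n k) (R : Rep p G T Ω n) (hR : Good R k)
    (K : Subgroup G) (hK : IsClosed (K : Set G)) (hnc : ∃ x ∈ K, ∃ y ∈ K, x * y ≠ y * x)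
    (hfull : (R.res K).Full) {c : T} (hc : ∀ h ∈ (R.res K).NI (Ideal.span {c}), h = 1) :
    ∃ (G' : Type u) (_ : Group G') (_ : TopologicalSpace G') (_ : IsTopologicalGroup G')
      (_ : CompactSpace G') (_ : T2Space G') (_ : TotallyDisconnectedSpace G')
      (T' : Type v) (_ : CommRing T') (_ : TopologicalSpace T') (_ : CNR T') (_ : IsDomain T')
      (φ : T →+* T') (Ω' : Type v) (_ : Field Ω') (_ : IsAlgClosed Ω') (_ : Algebra T' Ω')
      (R' : Rep p G' T' Ω' n), Function.Surjective φ ∧ Continuous φ ∧ φ c = 0 ∧ Good R' k := by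
  classical
  have hn : 0 < n := lt_of_lt_of_le two_pos (R.two_le hR.pf.nc)
  have hKc : CompactSpace K := isCompact_iff_compactSpace.1 hK.isCompact
  have hKpf : PF p K := hR.pf.sub hK hnc
  obtain ⟨m, z, hz⟩ := exists_detecting hn (R.res K)
    (Rep.span_top hopt.nmin hKpf (R.res K)) hfull
  obtain ⟨x, hx, y, hy, hxy⟩ := hnc
  -- the finitely generated subgroup
  let X : Set K := Set.range z ∪ {⟨x, hx⟩, ⟨y, hy⟩}
  have hXfin : X.Finite := (Set.finite_range z).union (Set.toFinite _)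
  let K₁ : Subgroup K := clS X
  have hK₁ : IsClosed (K₁ : Set K) := isClosed_clS X
  have hK₁c : CompactSpace K₁ := isCompact_iff_compactSpace.1 hK₁.isCompact
  have hxK : (⟨x, hx⟩ : K) ∈ K₁ := subset_clS X (Or.inr (Or.inl rfl))
  have hyK : (⟨y, hy⟩ : K) ∈ K₁ := subset_clS X (Or.inr (Or.inr rfl))
  have hK₁pf : PF p K₁ := hKpf.sub hK₁
    ⟨_, hxK, _, hyK, fun h => hxy (congrArg Subtype.val h)⟩
  have hfull₁ : ((R.res K).res K₁).Full := by
    refine hz K₁ fun i => ⟨0, ?_⟩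
    rw [pow_zero, pow_one]
    exact subset_clS X (Or.inl ⟨i, rfl⟩)
  have hfg : ∃ (m : ℕ) (z : Fin m → K₁), clS (Set.range z) = ⊤ := by
    have : Finite X := hXfin
    obtain ⟨r, ⟨e⟩⟩ := Finite.exists_equiv_fin X
    refine ⟨r, fun i => ⟨(e.symm i : K), subset_clS X (e.symm i).2⟩, ?_⟩
    refine eq_top_of_clS (X := X) _ (isClosed_clS _) fun t ht => ?_
    refine subset_clS _ ⟨e ⟨t, ht⟩, ?_⟩
    exact Subtype.ext (by simp)
  have hc₁ : ∀ g ∈ ((R.res K).res K₁).NI (Ideal.span {c}), g = 1 := by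
    intro g hg
    have h1 : (g : K) = 1 := by
      apply hc
      rw [mem_NI_mat] at hg ⊢
      obtain ⟨a, ha, hga⟩ := hg
      refine ⟨a, ?_, hga⟩
      have hle : repAlg T ((R.res K).res K₁).ρ ≤ repAlg T (R.res K).ρ := by
        refine Algebra.adjoin_mono ?_
        rintro _ ⟨g, rfl⟩
        exact ⟨(g : K), rfl⟩
      exact hle ha
    exact Subtype.ext h1
  obtain ⟨N, hN, hdet⟩ := hR.det
  obtain ⟨T', j1, j2, j3, j4, φ, Ω', j5, j6, j7, R', h1, h2, h3, h4⟩ :=
    good_red hopt hK₁pf hfg ((R.res K).res K₁) hfull₁ ((hR.triv.res K).res K₁)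
      ⟨N, hN, fun g => hdet ((g : K) : G)⟩ hc₁
  exact ⟨K₁, inferInstance, inferInstance, inferInstance, hK₁c, inferInstance, inferInstance,
    T', j1, j2, j3, j4, φ, Ω', j5, j6, j7, R', h1, h2, h3, h4⟩

/-- from `det ^ N = 1` to `det = 1` -/
theorem det_one_step (hopt : OptNK.{u, v} p n k) (R : Rep p G T Ω n) (hR : Good R k)
    (hdeep : ∀ H : Subgroup G, IsClosed (H : Set G) → (∃ x ∈ H, ∃ y ∈ H, x * y ≠ y * x) →
      (R.res H).Full → ∀ c : T, c ≠ 0 → ∃ h ∈ (R.res H).NI (Ideal.span {c}), h ≠ 1) :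
    ∃ U : Subgroup G, IsClosed (U : Set G) ∧ MCore (R.res U) k := by
  classical
  have hn : 0 < n := lt_of_lt_of_le two_pos (R.two_le hR.pf.nc)
  obtain ⟨N, hN, hdet⟩ := hR.det
  let δ : G →* Ωˣ := (Matrix.detMonoidHom.comp R.ρ).toHomUnits
  have hδ : ∀ g, ((δ g : Ωˣ) : Ω) = (R.ρ g).det := fun g => rfl
  let U : Subgroup G := δ.ker
  have hU : ∀ g, g ∈ U ↔ (R.ρ g).det = 1 := by
    intro g
    rw [MonoidHom.mem_ker, Units.ext_iff, hδ]
    rfl
  have hUcl : IsClosed (U : Set G) := by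
    have : (U : Set G) = {g : G | (R.ρ g).det = 1} := Set.ext hU
    rw [this]
    exact R.isClosed_det
  have hNe : NeZero N := ⟨hN.ne'⟩
  have hrange : δ.range ≤ rootsOfUnity N Ω := by
    rintro _ ⟨g, rfl⟩
    rw [mem_rootsOfUnity, Units.ext_iff, Units.val_pow_eq_pow_val, hδ, hdet]
    rfl
  have hfinr : Finite δ.range := Finite.of_injective _ (Subgroup.inclusion_injective hrange)
  have hUfi : U.FiniteIndex := Subgroup.finiteIndex_ker δ
  have hUo : IsOpen (U : Set G) := Subgroup.isOpen_of_isClosed_of_finiteIndex U hUcl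
  have hUc : CompactSpace U := isCompact_iff_compactSpace.1 hUcl.isCompact
  have hUn : U.Normal := inferInstance
  -- `U` is full and noncommutative
  obtain ⟨m, z, hz⟩ := exists_detecting hn R (Rep.span_top hopt.nmin hR.pf R) hR.full
  have hUfull : (R.res U).Full := hz U fun i => hR.pf.proP U hUn hUo (z i)
  have hUnc : ∃ x ∈ U, ∃ y ∈ U, x * y ≠ y * x := by
    refine normal_noncomm hR.pf.proP hR.pf.lift U hUn ?_ hR.pf.nc
    intro hb
    -- then `G` is finite
    have hfin : Finite G := by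
      have h1 : Finite (G ⧸ U) := Subgroup.finite_quotient_of_finiteIndex
      have h2 : Function.Injective (QuotientGroup.mk : G → G ⧸ U) := by
        intro a b hab
        rw [QuotientGroup.eq, hb, Subgroup.mem_bot] at hab
        exact (inv_mul_eq_one.1 hab)
      exact Finite.of_injective _ h2
    obtain ⟨x, y, hxy⟩ := hR.pf.nc
    have hx : x = 1 := eq_one_of_pow hR.pf.proP hR.pf.lift (n := Nat.card G)
      Nat.card_pos.ne' (pow_card_eq_one')
    exact hxy (by rw [hx, one_mul, mul_one])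
  have hUpf : PF p U := hR.pf.sub hUcl hUnc
  refine ⟨U, hUcl, hUpf, hR.alg, hopt, hR.triv.res U, hUfull, fun g => (hU g).1 g.2,
    fg_open hR.fg U hUo, ?_⟩
  intro K hK hKnc hKfull c hc
  let K' : Subgroup G := K.map U.subtype
  have hK' : IsClosed (K' : Set G) := by
    have : (K' : Set G) = (Subtype.val : U → G) '' (K : Set U) := by
      ext g
      simp [K']
    rw [this]
    exact hUcl.isClosedEmbedding_subtypeVal.isClosedMap _ hK
  have hK'nc : ∃ x ∈ K', ∃ y ∈ K', x * y ≠ y * x := by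
    obtain ⟨x, hx, y, hy, hxy⟩ := hKnc
    exact ⟨x, ⟨x, hx, rfl⟩, y, ⟨y, hy, rfl⟩, fun h => hxy (Subtype.ext h)⟩
  have hmem : ∀ g : K', ∃ g₁ : K, ((g₁ : U) : G) = (g : G) := by
    rintro ⟨_, ⟨g, hg, rfl⟩⟩
    exact ⟨⟨g, hg⟩, rfl⟩
  have hmem' : ∀ g : K, ((g : U) : G) ∈ K' := fun g => ⟨(g : U), g.2, rfl⟩
  have hK'full : (R.res K').Full := by
    intro O hO hpO hunip
    refine hKfull O hO hpO ?_
    intro g μ hμ
    exact hunip ⟨_, hmem' g⟩ μ hμ
  obtain ⟨h, hh, hh1⟩ := hdeep K' hK' hK'nc hK'full c hc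
  obtain ⟨h₁, hh₁⟩ := hmem h
  refine ⟨h₁, ?_, ?_⟩
  · rw [mem_NI_mat] at hh ⊢
    obtain ⟨a, ha, hga⟩ := hh
    refine ⟨a, ?_, ?_⟩
    · have hle : repAlg T (R.res K').ρ ≤ repAlg T ((R.res U).res K).ρ := by
        refine Algebra.adjoin_mono ?_
        rintro _ ⟨g, rfl⟩
        obtain ⟨g₁, hg₁⟩ := hmem g
        refine ⟨g₁, ?_⟩
        show R.ρ ((g₁ : U) : G) = R.ρ (g : G)
        rw [hg₁]
      exact hle ha
    · show R.ρ ((h₁ : U) : G) = _
      rw [hh₁]
      exact hga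
  · intro h0
    apply hh1
    apply Subtype.ext
    rw [← hh₁, h0]
    rfl

end

/-- THE REDUCTION: a noncommutative pro-p group with the lifting property which is linear over a
profinite ring gives the core situation. -/
theorem reduction {p : ℕ} [hp : Fact p.Prime] {F : Type u} [Group F] [TopologicalSpace F]
    [IsTopologicalGroup F] [CompactSpace F] [T2Space F] [TotallyDisconnectedSpace F]
    (hF : PF p F) {R₀ : Type v} [CommRing R₀] [TopologicalSpace R₀] [IsTopologicalRing R₀]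
    [CompactSpace R₀] [T2Space R₀] [TotallyDisconnectedSpace R₀] {n₀ : ℕ}
    (ρ : F →* GL (Fin n₀) R₀) (hρ : Continuous fun g => (ρ g : Matrix (Fin n₀) (Fin n₀) R₀))
    (hinj : Function.Injective ρ) :
    ∃ (n k : ℕ) (G : Type u) (_ : Group G) (_ : TopologicalSpace G) (_ : IsTopologicalGroup G)
      (_ : CompactSpace G) (_ : T2Space G) (_ : TotallyDisconnectedSpace G)
      (T : Type v) (_ : CommRing T) (_ : TopologicalSpace T) (_ : CNR T) (_ : IsDomain T)
      (Ω : Type v) (_ : Field Ω) (_ : IsAlgClosed Ω) (_ : Algebra T Ω) (R : Rep p G T Ω n),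
      MCore.{u, v} R k := by
  classical
  obtain ⟨m, hm⟩ := hasRep_of_linear hF ρ hρ hinj
  obtain ⟨n, k, hopt⟩ := exists_opt hm
  obtain ⟨G, i1, i2, i3, i4, i5, i6, T, i7, i8, i9, i10, Ω, i11, i12, i13, hG, R, hR⟩ := hopt.hasrep
  have hn : 0 < n := lt_of_lt_of_le two_pos (R.two_le hG.nc)
  -- determinant one
  obtain ⟨a, ha, b, hb, hab⟩ := commutator_noncomm hG.proP hG.lift hG.nc
  have hcl : IsClosed ((cl2 a b : Subgroup G) : Set G) := isClosed_cl2 a b
  have hcomp : CompactSpace (cl2 a b) := isCompact_iff_compactSpace.1 hcl.isCompact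
  have hdet1 : ∀ g ∈ cl2 a b, (R.ρ g).det = 1 := by
    let δ : G →* Ωˣ := (Matrix.detMonoidHom.comp R.ρ).toHomUnits
    have hδ : ∀ g, g ∈ δ.ker ↔ (R.ρ g).det = 1 := by
      intro g
      rw [MonoidHom.mem_ker, Units.ext_iff]
      rfl
    have h1 : IsClosed (δ.ker : Set G) := by
      have : (δ.ker : Set G) = {g : G | (R.ρ g).det = 1} := Set.ext hδ
      rw [this]
      exact R.isClosed_det
    have h2 : commutator G ≤ δ.ker := Abelianization.commutator_subset_ker δ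
    intro g hg
    exact (hδ g).1 (cl2_le h1 (h2 ha) (h2 hb) hg)
  have hG₀ : PF p (cl2 a b) := hG.sub hcl ⟨a, left_mem_cl2 a b, b, right_mem_cl2 a b, hab⟩
  let a' : cl2 a b := ⟨a, left_mem_cl2 a b⟩
  let b' : cl2 a b := ⟨b, right_mem_cl2 a b⟩
  have hab' : cl2 a' b' = ⊤ := eq_top_of_cl2 _ (isClosed_cl2 a' b') (left_mem_cl2 a' b')
    (right_mem_cl2 a' b')
  obtain ⟨S, j1, j2, j3, j4, j5, R₁, hR₁, hfull⟩ := exists_trace hG₀ hab' hn (R.res (cl2 a b))
  have htriv : R₁.TrivGE k := (hR.res (cl2 a b)).congr hR₁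
  have hdet : ∃ N : ℕ, 0 < N ∧ ∀ g, (R₁.ρ g).det ^ N = 1 := by
    refine ⟨1, one_pos, fun g => ?_⟩
    rw [hR₁, pow_one]
    exact hdet1 g g.2
  have hfg : ∃ (m : ℕ) (z : Fin m → cl2 a b), clS (Set.range z) = ⊤ := by
    refine ⟨2, ![a', b'], ?_⟩
    refine Eq.trans ?_ hab'
    rw [cl2_eq_clS a' b']
    congr 1
    ext x
    simp [or_comm]
  have hc0 : ∀ g ∈ R₁.NI (Ideal.span {(0 : S)}), g = 1 := by
    intro g hg
    rw [mem_NI_mat] at hg
    obtain ⟨x, -, hx⟩ := hg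
    apply R₁.inj
    rw [hx, zero_smul, add_zero, map_one]
  obtain ⟨T', k1, k2, k3, k4, φ, Ω', k5, k6, k7, R', h1, h2, -, h4⟩ :=
    good_red hopt hG₀ hfg R₁ hfull htriv hdet hc0
  have hne : {P : Ideal S | GoodIdeal.{u, v} p n k S P}.Nonempty :=
    ⟨RingHom.ker φ, cl2 a b, inferInstance, inferInstance, inferInstance, inferInstance,
      inferInstance, inferInstance, T', k1, k2, k3, k4, φ, Ω', k5, k6, k7, R', h1, h2, rfl, h4⟩
  obtain ⟨P, hP, hPmax⟩ := set_has_maximal_iff_noetherian.2 (inferInstanceAs (IsNoetherian S S)) _ hne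
  obtain ⟨H, l1, l2, l3, l4, l5, l6, T₂, l7, l8, l9, l10, φ₂, Ω₂, l11, l12, l13, R₂, hφ, hφc, hker,
    hgood⟩ := hP
  obtain ⟨U, hU, hcore⟩ := det_one_step hopt R₂ hgood (by
    intro K hK hKnc hKfull c hc
    by_contra hcon
    push Not at hcon
    obtain ⟨G', m1, m2, m3, m4, m5, m6, T₃, m7, m8, m9, m10, φ₃, Ω₃, m11, m12, m13, R₃, hs, hsc,
      hsz, hg⟩ := deep_step hopt R₂ hgood K hK hKnc hKfull hcon
    refine hPmax (RingHom.ker (φ₃.comp φ₂)) ⟨G', m1, m2, m3, m4, m5, m6, T₃, m7, m8, m9, m10,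
      φ₃.comp φ₂, Ω₃, m11, m12, m13, R₃, hs.comp hφ, hsc.comp hφc, rfl, hg⟩ ?_
    obtain ⟨c₀, hc₀⟩ := hφ c
    rw [← hker]
    refine lt_of_le_of_ne ?_ ?_
    · intro x hx
      rw [RingHom.mem_ker] at hx ⊢
      rw [RingHom.comp_apply, hx, map_zero]
    · intro he
      have : c₀ ∈ RingHom.ker (φ₃.comp φ₂) := by
        rw [RingHom.mem_ker, RingHom.comp_apply, hc₀, hsz]
      rw [← he, RingHom.mem_ker, hc₀] at this
      exact hc this)
  have hUc : CompactSpace U := isCompact_iff_compactSpace.1 hU.isCompact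
  exact ⟨n, k, U, inferInstance, inferInstance, inferInstance, hUc, inferInstance, inferInstance,
    T₂, l7, l8, l9, l10, Ω₂, l11, l12, l13, R₂.res U, hcore⟩

end MP35
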