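import Pool.Agent.Lib_MP_3538b5_al.FY
import Pool.Agent.Lib_MP_3538b5_al.FCore
import Pool.Agent.Lib_MP_3538b5_al.FDet
import Pool.Agent.Lib_MP_3538b5_al.RMain

/-!
# The core situation in characteristic `p` is impossible
-/

set_option autoImplicit false

namespace MP35

universe u v w

/-- **There is no core situation in characteristic `p`.** -/
theorem core_p {p : ℕ} [hp : Fact p.Prime] {G : Type u} [Group G] [TopologicalSpace G]
    [IsTopologicalGroup G] [CompactSpace G] [T2Space G] [TotallyDisconnectedSpace G]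
    {T Ω : Type v} [CommRing T] [TopologicalSpace T] [CNR T] [IsDomain T] [Field Ω]
    [IsAlgClosed Ω] [Algebra T Ω] {n k : ℕ} {R : Rep p G T Ω n} [CharP Ω p]
    (hR : MCore.{u, v} R k) : False := by
  obtain ⟨m, g, hnc, hfull⟩ := hR.exists_detect
  obtain ⟨e0, he0⟩ := hall_powers hR.pf.proP hR.pf.lift hR.fg g hnc
  obtain ⟨U, π, hUo, hle, hπc, hπG, hπid, ⟨b, hb1, hb⟩, x, hx, y, hy, hxy⟩ := he0 e0 le_rfl
  have hfull' := hfull e0
  have hG'c : IsClosed ((clS (Set.range fun i => g i ^ p ^ e0) : Subgroup G) : Set G) :=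
    isClosed_clS _
  revert hfull' hG'c hx hy hle hπG hπid
  generalize clS (Set.range fun i => g i ^ p ^ e0) = G'
  intro hle hπG hπid hx hy hfull' hG'c
  have hRU : MCore.{u, v} (R.res U) k := hR.res_open hUo hle ⟨x, hx, y, hy, hxy⟩ hfull'
  have hUc : IsClosed (U : Set G) := U.isClosed_of_isOpen hUo
  have : CompactSpace U := isCompact_iff_compactSpace.1 hUc.isCompact
  have hN : IsClosed ((π.ker : Subgroup U) : Set U) := by
    have : ((π.ker : Subgroup U) : Set U) = π ⁻¹' {1} := by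
      ext z
      rw [SetLike.mem_coe, MonoidHom.mem_ker]
      rfl
    rw [this]
    exact isClosed_singleton.preimage hπc
  refine torus_contra hRU.pf.proP hRU.pf.lift (R.res U) π hπc hN (b := b) hb1 hb
    (exists_torusData hRU π.ker hN b) ?_
  intro c hc
  obtain ⟨h, hh, hh1⟩ := hR.deep G' hG'c ⟨x, hx, y, hy, hxy⟩ hfull' c hc
  obtain ⟨z, hz, hρ⟩ := (mem_NI_mat _).1 hh
  refine ⟨⟨h, hle h.2⟩, fun e => hh1 (Subtype.ext
    (show ((h : G') : G) = 1 from congrArg (fun z : U => (z : G)) e)), hπid _ h.2, z, ?_, hρ⟩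
  refine Algebra.adjoin_mono ?_ hz
  rintro _ ⟨q, rfl⟩
  exact ⟨⟨q, hle q.2⟩, rfl⟩

end MP35
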