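import Pool.Agent.Lib_MP_3538b5_al.RDefs

/-!
# Layer F (families), definitions

For `R : Rep p G T Ω n`, `W = Matrix (Fin n) (Fin n) Ω` with the conjugation action `R.Ad`:

* `R.adH : G →* End W`, `R.B` its `T`-span (a finite `T`-module, compact),
* `R.CC : Subring (End W)`: the closure of the ring generated by `Ad G`,
* `Flag X`: a flag of `X`-stable subspaces with simple factors,
* `Fl.Acts y i c`: `y` acts on the `i`-th factor as the scalar `c`,
* `Fam`: a family of nontrivial factors with the ring `S` of its scalars.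
-/

set_option autoImplicit false

namespace MP35

universe u v w

open scoped TensorProduct

/-! ### flags -/

/-- A flag of subspaces stable under the set `X` of endomorphisms, with simple factors
`W (i + 1) / W i`, `i < l`. -/
structure Flag {Ω : Type v} [Field Ω] {V : Type w} [AddCommGroup V] [Module Ω V]
    (X : Set (Module.End Ω V)) where
  /-- the length -/
  l : ℕ
  /-- the subspaces -/
  W : ℕ → Submodule Ω V
  mono : Monotone W
  bot : W 0 = ⊥
  top : W l = ⊤
  stable : ∀ y ∈ X, ∀ i, ∀ v ∈ W i, y v ∈ W i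
  lt : ∀ i < l, W i < W (i + 1)
  simple : ∀ i < l, ∀ U : Submodule Ω V, (∀ y ∈ X, ∀ v ∈ U, y v ∈ U) → W i ≤ U →
    U ≤ W (i + 1) → U = W i ∨ U = W (i + 1)

namespace Flag

variable {Ω : Type v} [Field Ω] {V : Type w} [AddCommGroup V] [Module Ω V]
  {X : Set (Module.End Ω V)} (Fl : Flag X)

/-- `y` acts on the `i`-th factor as the scalar `c` -/
def Acts (y : Module.End Ω V) (i : ℕ) (c : Ω) : Prop := ∀ v ∈ Fl.W (i + 1), y v - c • v ∈ Fl.W i

/-- the `i`-th factor is trivial: all elements of `X` act as `1` -/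
def Triv (i : ℕ) : Prop := ∀ y ∈ X, Fl.Acts y i 1

/-- endomorphisms which move the flag down by `k` -/
def J (k : ℕ) : Submodule Ω (Module.End Ω V) where
  carrier := {y | ∀ i, ∀ v ∈ Fl.W (i + k), y v ∈ Fl.W i}
  zero_mem' := fun i _ _ => (Fl.W i).zero_mem
  add_mem' hy hz := fun i v hv => (Fl.W i).add_mem (hy i v hv) (hz i v hv)
  smul_mem' c _ hy := fun i v hv => (Fl.W i).smul_mem c (hy i v hv)

theorem mem_J {k : ℕ} {y : Module.End Ω V} :
    y ∈ Fl.J k ↔ ∀ i, ∀ v ∈ Fl.W (i + k), y v ∈ Fl.W i := Iff.rfl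

theorem J_anti : Antitone Fl.J := by
  intro k k' h y hy i v hv
  exact hy i v (Fl.mono (Nat.add_le_add_left h i) hv)

theorem J_mul {i k : ℕ} {a b : Module.End Ω V} (ha : a ∈ Fl.J i) (hb : b ∈ Fl.J k) :
    a * b ∈ Fl.J (i + k) := by
  intro m v hv
  rw [← add_assoc] at hv
  exact ha m _ (hb (m + i) v hv)

theorem J_one : (1 : Module.End Ω V) ∈ Fl.J 0 := fun _ _ hv => hv

theorem W_top {i : ℕ} (h : Fl.l ≤ i) : Fl.W i = ⊤ := top_le_iff.1 (Fl.top ▸ Fl.mono h)

theorem J_last : ∀ a ∈ Fl.J Fl.l, a = 0 := by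
  intro a ha
  refine LinearMap.ext fun v => ?_
  have h1 := ha 0 v (by rw [zero_add, Fl.top]; trivial)
  rw [Fl.bot] at h1
  exact (Submodule.mem_bot Ω).1 h1

/-- an endomorphism is in `J 1` iff it acts as `0` on all factors -/
theorem mem_J_one {y : Module.End Ω V} : y ∈ Fl.J 1 ↔ ∀ i < Fl.l, Fl.Acts y i 0 := by
  constructor
  · intro h i _ v hv
    rw [zero_smul, sub_zero]
    exact h i v hv
  · intro h i v hv
    rcases lt_or_ge i Fl.l with hi | hi
    · have := h i hi v hv
      rwa [zero_smul, sub_zero] at this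
    · rw [Fl.W_top hi]; trivial

theorem Acts.sub {y z : Module.End Ω V} {i : ℕ} {c d : Ω} (hy : Fl.Acts y i c)
    (hz : Fl.Acts z i d) : Fl.Acts (y - z) i (c - d) := by
  intro v hv
  have := (Fl.W i).sub_mem (hy v hv) (hz v hv)
  convert this using 1
  rw [LinearMap.sub_apply, sub_smul]
  abel

theorem Acts.add {y z : Module.End Ω V} {i : ℕ} {c d : Ω} (hy : Fl.Acts y i c)
    (hz : Fl.Acts z i d) : Fl.Acts (y + z) i (c + d) := by
  intro v hv
  have := (Fl.W i).add_mem (hy v hv) (hz v hv)
  convert this using 1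
  rw [LinearMap.add_apply, add_smul]
  abel

theorem Acts.mul {y z : Module.End Ω V} {i : ℕ} {c d : Ω} (hy : Fl.Acts y i c)
    (hy0 : y ∈ Fl.J 0) (hz : Fl.Acts z i d) : Fl.Acts (y * z) i (c * d) := by
  intro v hv
  have h1 : y (z v - d • v) ∈ Fl.W i := hy0 i _ (hz v hv)
  have h2 := (Fl.W i).smul_mem d (hy v hv)
  have := (Fl.W i).add_mem h1 h2
  convert this using 1
  rw [Module.End.mul_apply, map_sub, map_smul, smul_sub, smul_smul, mul_comm d c]
  abel

end Flag

namespace Rep

variable {p : ℕ} {G : Type u} [Group G] [TopologicalSpace G] {T : Type v} [CommRing T]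
  [TopologicalSpace T] {Ω : Type v} [Field Ω] [Algebra T Ω] {n : ℕ} (R : Rep p G T Ω n)

/-- the conjugation representation -/
def adH : G →* Module.End Ω (Matrix (Fin n) (Fin n) Ω) where
  toFun := R.Ad
  map_one' := by
    refine LinearMap.ext fun x => ?_
    rw [Ad_apply, map_one, inv_one, map_one, one_mul, mul_one]
    rfl
  map_mul' g h := by
    refine LinearMap.ext fun x => ?_
    rw [Module.End.mul_apply, Ad_apply, Ad_apply, Ad_apply, mul_inv_rev, map_mul, map_mul]
    noncomm_ring

theorem adH_apply (g : G) (x : Matrix (Fin n) (Fin n) Ω) :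
    R.adH g x = R.ρ g * x * R.ρ g⁻¹ := rfl

/-- the `T`-span of `Ad G` -/
abbrev B : Subalgebra T (Module.End Ω (Matrix (Fin n) (Fin n) Ω)) := repAlg T R.adH

/-- two-sided multiplication by elements of `A`, bilinear over `T` -/
noncomputable def lrBil : R.A →ₗ[T] R.A →ₗ[T] Module.End Ω (Matrix (Fin n) (Fin n) Ω) :=
  LinearMap.mk₂ T (fun a b => LinearMap.mulLeftRight Ω
    ((a : Matrix (Fin n) (Fin n) Ω), (b : Matrix (Fin n) (Fin n) Ω)))
    (fun a a' b => LinearMap.ext fun x => by simp [LinearMap.mulLeftRight_apply, add_mul])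
    (fun t a b => LinearMap.ext fun x => by simp [LinearMap.mulLeftRight_apply])
    (fun a b b' => LinearMap.ext fun x => by simp [LinearMap.mulLeftRight_apply, mul_add])
    (fun t a b => LinearMap.ext fun x => by simp [LinearMap.mulLeftRight_apply])

theorem lrBil_apply (a b : R.A) (x : Matrix (Fin n) (Fin n) Ω) :
    R.lrBil a b x = (a : Matrix (Fin n) (Fin n) Ω) * x * (b : Matrix (Fin n) (Fin n) Ω) := rfl

/-- the `T`-span of the two-sided multiplications by elements of `A` -/
noncomputable def lrMod : Submodule T (Module.End Ω (Matrix (Fin n) (Fin n) Ω)) :=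
  LinearMap.range (TensorProduct.lift R.lrBil)

theorem lrBil_mem (a b : R.A) : R.lrBil a b ∈ R.lrMod :=
  ⟨a ⊗ₜ b, TensorProduct.lift.tmul _ _⟩

instance finite_lrMod : Module.Finite T R.lrMod := Module.Finite.range _

theorem lrMod_mul {x y : Module.End Ω (Matrix (Fin n) (Fin n) Ω)} (hx : x ∈ R.lrMod)
    (hy : y ∈ R.lrMod) : x * y ∈ R.lrMod := by
  obtain ⟨x, rfl⟩ := hx
  obtain ⟨y, rfl⟩ := hy
  induction x using TensorProduct.induction_on with
  | zero => rw [map_zero, zero_mul]; exact zero_mem _
  | add x x' hx hx' => rw [map_add, add_mul]; exact add_mem hx hx'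
  | tmul a b =>
    induction y using TensorProduct.induction_on with
    | zero => rw [map_zero, mul_zero]; exact zero_mem _
    | add y y' hy hy' => rw [map_add, mul_add]; exact add_mem hy hy'
    | tmul c d =>
      rw [TensorProduct.lift.tmul, TensorProduct.lift.tmul]
      have e : R.lrBil a b * R.lrBil c d = R.lrBil (a * c) (d * b) := by
        refine LinearMap.ext fun x => ?_
        rw [Module.End.mul_apply, lrBil_apply, lrBil_apply, lrBil_apply]
        simp only [MulMemClass.coe_mul]
        noncomm_ring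
      rw [e]
      exact R.lrBil_mem _ _

theorem lrMod_one : (1 : Module.End Ω (Matrix (Fin n) (Fin n) Ω)) ∈ R.lrMod := by
  have e : (1 : Module.End Ω (Matrix (Fin n) (Fin n) Ω)) = R.lrBil 1 1 := by
    refine LinearMap.ext fun x => ?_
    rw [lrBil_apply]
    simp
  rw [e]
  exact R.lrBil_mem _ _

theorem B_le : Subalgebra.toSubmodule R.B ≤ R.lrMod := by
  have h : R.B ≤ R.lrMod.toSubalgebra R.lrMod_one fun x y hx hy => R.lrMod_mul hx hy := by
    refine Algebra.adjoin_le ?_
    rintro _ ⟨g, rfl⟩
    exact R.lrBil_mem (R.j g) (R.j g⁻¹)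
  exact h

instance finB [CNR T] : Module.Finite T R.B := by
  have h := R.B_le
  have : IsNoetherian T R.lrMod := isNoetherian_of_isNoetherianRing_of_finite T R.lrMod
  exact Module.Finite.of_injective (Submodule.inclusion h)
    (Submodule.inclusion_injective h)

/-- the topology of `B` is the module topology -/
instance topB : TopologicalSpace R.B := moduleTopology T R.B

instance modB : IsModuleTopology T R.B := ⟨rfl⟩

instance compactB [CNR T] : CompactSpace R.B := compact_of_finite T R.B

instance t2B [CNR T] : T2Space R.B := t2_of_finite T R.B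

instance topRingB [CNR T] : IsTopologicalRing R.B := IsModuleTopology.isTopologicalRing T R.B

instance noethB [CNR T] : IsNoetherian T R.B := isNoetherian_of_isNoetherianRing_of_finite T R.B

/-- the homomorphism from `G` to `B` -/
abbrev jB : G →* R.B := repHom T R.adH

theorem jB_coe (g : G) : (R.jB g : Module.End Ω (Matrix (Fin n) (Fin n) Ω)) = R.Ad g := rfl

/-- the closed ring generated by `Ad G`, inside `B` -/
noncomputable def CB [CNR T] : Subring R.B :=
  (Subring.closure (Set.range R.jB)).topologicalClosure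

/-- the closed ring generated by `Ad G`, as a ring of endomorphisms -/
noncomputable def CC [CNR T] : Subring (Module.End Ω (Matrix (Fin n) (Fin n) Ω)) :=
  R.CB.map R.B.val.toRingHom

variable [CNR T]

theorem mem_CC {y : Module.End Ω (Matrix (Fin n) (Fin n) Ω)} :
    y ∈ R.CC ↔ ∃ x ∈ R.CB, (x : Module.End Ω (Matrix (Fin n) (Fin n) Ω)) = y := Iff.rfl

theorem Ad_mem_CC (g : G) : R.Ad g ∈ R.CC :=
  ⟨R.jB g, Subring.le_topologicalClosure _ (Subring.subset_closure ⟨g, rfl⟩), rfl⟩

theorem CC_le_B {y : Module.End Ω (Matrix (Fin n) (Fin n) Ω)} (hy : y ∈ R.CC) : y ∈ R.B := by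
  obtain ⟨x, -, rfl⟩ := hy
  exact x.2

theorem isClosed_CB : IsClosed (R.CB : Set R.B) := Subring.isClosed_topologicalClosure _

/-- To prove that all elements of `CC` have a property: it holds for `Ad g`, for sums, negatives and
products, and the elements of `B` with the property contain a closed set containing the ring generated
by `Ad G`. -/
theorem CC_induction {P : Module.End Ω (Matrix (Fin n) (Fin n) Ω) → Prop}
    (hcl : IsClosed {x : R.B | P x}) (hg : ∀ g, P (R.Ad g)) (h0 : P 0)
    (hadd : ∀ x y, P x → P y → P (x + y)) (hneg : ∀ x, P x → P (-x))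
    (hmul : ∀ x y, P x → P y → P (x * y)) {y : Module.End Ω (Matrix (Fin n) (Fin n) Ω)}
    (hy : y ∈ R.CC) : P y := by
  obtain ⟨x, hx, rfl⟩ := hy
  have h1 : (Subring.closure (Set.range R.jB) : Set R.B) ⊆ {x : R.B | P x} := by
    intro z hz
    induction hz using Subring.closure_induction with
    | mem z hz =>
      obtain ⟨g, rfl⟩ := hz
      exact hg g
    | zero => exact h0
    | one =>
      have := hg 1
      rwa [← jB_coe, map_one] at this
    | add x y _ _ hx hy => exact hadd _ _ hx hy
    | neg x _ hx => exact hneg _ hx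
    | mul x y _ _ hx hy => exact hmul _ _ hx hy
  exact closure_minimal h1 hcl hx

/-- `B` preserves `Ad G`-stable subspaces -/
theorem B_stable {U : Submodule Ω (Matrix (Fin n) (Fin n) Ω)}
    (hU : ∀ g, ∀ v ∈ U, R.Ad g v ∈ U) {y : Module.End Ω (Matrix (Fin n) (Fin n) Ω)}
    (hy : y ∈ R.B) : ∀ v ∈ U, y v ∈ U := by
  have h : R.B ≤
      { carrier := {y : Module.End Ω (Matrix (Fin n) (Fin n) Ω) | ∀ v ∈ U, y v ∈ U}
        mul_mem' := fun ha hb v hv => ha _ (hb v hv)
        add_mem' := fun ha hb v hv => U.add_mem (ha v hv) (hb v hv)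
        algebraMap_mem' := fun t v hv => by
          rw [Module.algebraMap_end_apply, ← algebraMap_smul Ω t v]
          exact U.smul_mem _ hv : Subalgebra T (Module.End Ω (Matrix (Fin n) (Fin n) Ω)) } := by
    refine Algebra.adjoin_le ?_
    rintro _ ⟨g, rfl⟩
    exact hU g
  exact h hy

theorem CC_stable {U : Submodule Ω (Matrix (Fin n) (Fin n) Ω)}
    (hU : ∀ g, ∀ v ∈ U, R.Ad g v ∈ U) {y : Module.End Ω (Matrix (Fin n) (Fin n) Ω)}
    (hy : y ∈ R.CC) : ∀ v ∈ U, y v ∈ U := R.B_stable hU (R.CC_le_B hy)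

/-- the flags used for `R` -/
abbrev Fl : Type _ := Flag (Ω := Ω) (V := Matrix (Fin n) (Fin n) Ω) (Set.range R.Ad)

theorem CC_J {Φ : R.Fl} {y : Module.End Ω (Matrix (Fin n) (Fin n) Ω)} (hy : y ∈ R.CC) :
    y ∈ Φ.J 0 := fun i v hv =>
  R.CC_stable (U := Φ.W i) (fun g v hv => Φ.stable _ ⟨g, rfl⟩ i v hv) hy v hv

/-- A family of nontrivial factors of a flag: a compact noetherian domain `S` of scalars, its embeddings
`φ j` in a finite `T`-algebra `T' ≤ Ω` (finite over the image), the labels of the factors; all multiples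
of some `z ≠ 0` are realised by elements of `CC` which act as `0` on all other factors. -/
structure Fam (Φ : R.Fl) (T' : Subalgebra T Ω) where
  /-- the ring of scalars -/
  S : Type v
  [commRing : CommRing S]
  [top : TopologicalSpace S]
  [cnr : CNR S]
  [dom : IsDomain S]
  /-- the embeddings -/
  ι : Type
  [fin : Fintype ι]
  [dec : DecidableEq ι]
  /-- the embeddings -/
  φ : ι → S →+* T'
  φ_inj : ∀ j, Function.Injective (φ j)
  φ_ne : ∀ i j, i ≠ j → φ i ≠ φ j
  φ_cont : ∀ j, @Continuous S T' _ (moduleTopology T T') (φ j)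
  φ_fin : ∀ j, (φ j).Finite
  /-- topologically generated by finitely many topologically nilpotent elements -/
  gen : ∃ F : Finset S, (∀ s ∈ F, IsTopologicallyNilpotent s) ∧
    (Subring.closure (F : Set S)).topologicalClosure = ⊤
  /-- the label of the `i`-th factor -/
  lab : ℕ → Option ι
  lab_lt : ∀ i j, lab i = some j → i < Φ.l
  lab_surj : ∀ j, ∃ i, lab i = some j
  /-- factors with the same label are isomorphic in the sense that `CC` has the same scalars; the monic
  polynomial `chp g` over `S` has the eigenvalues of `Ad g` on the factor as roots -/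
  chp : G → Polynomial S
  chp_monic : ∀ g, (chp g).Monic
  chp_root : ∀ g i j, lab i = some j → ∀ μ : Ω,
    (((chp g).map (φ j)).map T'.val.toRingHom).IsRoot μ ↔
      ∃ v ∈ Φ.W (i + 1), v ∉ Φ.W i ∧ R.Ad g v - μ • v ∈ Φ.W i
  scal : ∃ z : S, z ≠ 0 ∧ ∀ s : S, ∃ y ∈ R.CC, ∀ i < Φ.l,
    Φ.Acts y i (match lab i with
      | some j => ((φ j (z * s) : T') : Ω)
      | none => 0)

attribute [instance] Fam.commRing Fam.top Fam.cnr Fam.dom Fam.fin Fam.dec

/-- a complete set of families: every nontrivial factor has a label in exactly one family, the trivial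
factors have none -/
structure Fams (Φ : R.Fl) where
  /-- a finite extension of `T` in `Ω` -/
  T' : Subalgebra T Ω
  finT : Module.Finite T T'
  /-- the index type of the families -/
  κ : Type
  [fin : Fintype κ]
  /-- the families -/
  fam : κ → R.Fam Φ T'
  nontriv : ∀ i < Φ.l, ¬ Φ.Triv i → ∃! k, (fam k).lab i ≠ none
  triv : ∀ i < Φ.l, Φ.Triv i → ∀ k, (fam k).lab i = none

end Rep
end MP35
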