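import Pool.Agent.Lib_MP_3538b5_al.FTor

/-!
# MP_3538b5_al, layer F (families): exact twisted scalars

A ring `C` of block upper triangular operators (`J k`: operators which move the flag down by `k`),
a family of embeddings `φ j : S → Ω` and idempotents `E j`.  If for all `s` in a nonzero ideal `w S`
there are elements of `C` congruent to `∑ φ j s • E j` modulo `J 1`, then
`∑ φ j ((w' s) ^ q) • E j` lies in `C` for all `s`, for some `w' ≠ 0` (`q` a power of `p`).
-/

set_option autoImplicit false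

namespace MP35

universe u v w x

/-- The block setting for one family of factors. -/
structure ExDat (Ω : Type u) (A : Type v) [Field Ω] [Ring A] [Algebra Ω A] (S : Type w)
    [CommRing S] (ι : Type x) [Fintype ι] [DecidableEq ι] where
  J : ℕ → Submodule Ω A
  J_anti : Antitone J
  J_mul : ∀ {i k : ℕ} {a b : A}, a ∈ J i → b ∈ J k → a * b ∈ J (i + k)
  J_one : (1 : A) ∈ J 0
  C : Subring A
  C_le : ∀ y ∈ C, y ∈ J 0
  φ : ι → S →+* Ω
  φ_inj : ∀ j, Function.Injective (φ j)
  E : ι → A
  E_mem : ∀ j, E j ∈ J 0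
  E_idem : ∀ j, E j * E j = E j
  E_orth : ∀ i j, i ≠ j → E i * E j = 0
  t : S
  t_ne : t ≠ 0
  t_sep : ∀ i j, i ≠ j → φ i t ≠ φ j t
  x_mem : ∑ j, φ j t • E j ∈ C
  lat : AddSubgroup A
  lat_smul : ∀ j s, ∀ v ∈ lat, φ j s • v ∈ lat
  lat_fg : ∀ j, ∃ F : Finset A, ∀ v ∈ lat, ∃ c : A → S, v = ∑ a ∈ F, φ j (c a) • a
  lat_C : ∀ y ∈ C, ∀ j, y * E j ∈ lat ∧ E j * y ∈ lat ∧ E j * y * E j ∈ lat

namespace ExDat

variable {Ω : Type u} {A : Type v} [Field Ω] [Ring A] [Algebra Ω A] {S : Type w}
  [CommRing S] {ι : Type x} [Fintype ι] [DecidableEq ι] (X : ExDat Ω A S ι)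

/-- the twisted scalar -/
def br (s : S) : A := ∑ j, X.φ j s • X.E j

theorem br_add (s s' : S) : X.br (s + s') = X.br s + X.br s' := by
  simp only [br, map_add, add_smul, Finset.sum_add_distrib]

theorem E_mul (i j : ι) : X.E i * X.E j = if i = j then X.E i else 0 := by
  split_ifs with h
  · subst h; exact X.E_idem i
  · exact X.E_orth i j h

theorem br_mul_E (s : S) (j : ι) : X.br s * X.E j = X.φ j s • X.E j := by
  rw [br, Finset.sum_mul, Finset.sum_eq_single j]
  · rw [smul_mul_assoc, X.E_idem]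
  · intro i _ hij
    rw [smul_mul_assoc, X.E_orth i j hij, smul_zero]
  · intro h; exact absurd (Finset.mem_univ j) h

theorem E_mul_br (s : S) (j : ι) : X.E j * X.br s = X.φ j s • X.E j := by
  rw [br, Finset.mul_sum, Finset.sum_eq_single j]
  · rw [mul_smul_comm, X.E_idem]
  · intro i _ hij
    rw [mul_smul_comm, X.E_orth j i (Ne.symm hij), smul_zero]
  · intro h; exact absurd (Finset.mem_univ j) h

theorem br_mul (s s' : S) : X.br (s * s') = X.br s * X.br s' := by
  conv_rhs => rw [br, Finset.sum_mul]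
  rw [br]
  refine Finset.sum_congr rfl fun j _ => ?_
  rw [smul_mul_assoc, E_mul_br, smul_smul, map_mul]

theorem br_mem (s : S) : X.br s ∈ X.J 0 :=
  Submodule.sum_mem _ fun j _ => Submodule.smul_mem _ _ (X.E_mem j)

theorem br_pow (s : S) {n : ℕ} (hn : n ≠ 0) : X.br (s ^ n) = X.br s ^ n := by
  induction n with
  | zero => exact absurd rfl hn
  | succ n ih =>
    rcases Nat.eq_zero_or_pos n with h | h
    · subst h; simp
    · rw [pow_succ, br_mul, ih (by omega), pow_succ]

/-- the separating element -/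
def xx : A := X.br X.t

theorem xx_mem : X.xx ∈ X.C := X.x_mem

/-- all idempotents -/
def Eh : Option ι → A
  | some j => X.E j
  | none => 1 - ∑ j, X.E j

/-- the eigenvalues of `xx` -/
def ev : Option ι → Ω
  | some j => X.φ j X.t
  | none => 0

theorem sum_Eh : ∑ a, X.Eh a = 1 := by
  rw [Fintype.sum_option]
  simp [Eh]

theorem E_mul_none (j : ι) : X.E j * X.Eh none = 0 := by
  rw [Eh, mul_sub, mul_one, Finset.mul_sum, Finset.sum_eq_single j, X.E_idem, sub_self]
  · intro i _ hij
    exact X.E_orth j i (Ne.symm hij)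
  · intro h; exact absurd (Finset.mem_univ j) h

theorem none_mul_E (j : ι) : X.Eh none * X.E j = 0 := by
  rw [Eh, sub_mul, one_mul, Finset.sum_mul, Finset.sum_eq_single j, X.E_idem, sub_self]
  · intro i _ hij
    exact X.E_orth i j hij
  · intro h; exact absurd (Finset.mem_univ j) h

theorem Eh_orth (a b : Option ι) (h : a ≠ b) : X.Eh a * X.Eh b = 0 := by
  cases a with
  | none =>
    cases b with
    | none => exact absurd rfl h
    | some j => exact X.none_mul_E j
  | some i =>
    cases b with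
    | none => exact X.E_mul_none i
    | some j => exact X.E_orth i j fun e => h (congrArg some e)

theorem Eh_idem (a : Option ι) : X.Eh a * X.Eh a = X.Eh a := by
  cases a with
  | none =>
    have e : X.Eh none * X.Eh none = (1 - ∑ j, X.E j) * X.Eh none := rfl
    rw [e, sub_mul, one_mul, Finset.sum_mul, Finset.sum_eq_zero, sub_zero]
    intro i _
    exact X.E_mul_none i
  | some j => exact X.E_idem j

theorem Eh_mem (a : Option ι) : X.Eh a ∈ X.J 0 := by
  cases a with
  | none => exact Submodule.sub_mem _ X.J_one (Submodule.sum_mem _ fun j _ => X.E_mem j)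
  | some j => exact X.E_mem j

theorem br_Eh (s : S) (a : Option ι) :
    X.br s * X.Eh a = (match a with | some j => X.φ j s | none => 0 : Ω) • X.Eh a := by
  cases a with
  | none =>
    rw [br, Finset.sum_mul, zero_smul]
    refine Finset.sum_eq_zero fun j _ => ?_
    rw [smul_mul_assoc, X.E_mul_none, smul_zero]
  | some j => exact X.br_mul_E s j

theorem Eh_br (s : S) (a : Option ι) :
    X.Eh a * X.br s = (match a with | some j => X.φ j s | none => 0 : Ω) • X.Eh a := by
  cases a with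
  | none =>
    rw [br, Finset.mul_sum, zero_smul]
    refine Finset.sum_eq_zero fun j _ => ?_
    rw [mul_smul_comm, X.none_mul_E, smul_zero]
  | some j => exact X.E_mul_br s j

theorem xx_Eh (a : Option ι) : X.xx * X.Eh a = X.ev a • X.Eh a := by
  rw [xx, br_Eh]
  cases a <;> rfl

theorem Eh_xx (a : Option ι) : X.Eh a * X.xx = X.ev a • X.Eh a := by
  rw [xx, Eh_br]
  cases a <;> rfl

theorem ev_inj (a b : Option ι) (h : a ≠ b) : X.ev a ≠ X.ev b := by
  have hn : ∀ j, X.φ j X.t ≠ 0 := fun j h =>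
    X.t_ne (X.φ_inj j (by rw [h, map_zero]))
  cases a with
  | none =>
    cases b with
    | none => exact absurd rfl h
    | some j => exact (hn j).symm
  | some i =>
    cases b with
    | none => exact hn i
    | some j => exact X.t_sep i j fun e => h (congrArg some e)

/-! ### diagonal and off-diagonal parts -/

/-- diagonal part -/
def dg (y : A) : A := ∑ a, X.Eh a * y * X.Eh a

/-- off-diagonal part -/
def off (y : A) : A := y - X.dg y

theorem dg_add (y z : A) : X.dg (y + z) = X.dg y + X.dg z := by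
  simp only [dg, mul_add, add_mul, Finset.sum_add_distrib]

theorem dg_sub (y z : A) : X.dg (y - z) = X.dg y - X.dg z := by
  simp only [dg, mul_sub, sub_mul, Finset.sum_sub_distrib]

theorem off_add (y z : A) : X.off (y + z) = X.off y + X.off z := by
  rw [off, dg_add, off, off]; abel

theorem off_sub (y z : A) : X.off (y - z) = X.off y - X.off z := by
  rw [off, dg_sub, off, off]; abel

theorem dg_mem {k : ℕ} {y : A} (hy : y ∈ X.J k) : X.dg y ∈ X.J k := by
  refine Submodule.sum_mem _ fun a _ => ?_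
  have h1 := X.J_mul (X.J_mul (X.Eh_mem a) hy) (X.Eh_mem a)
  rwa [zero_add, add_zero] at h1

theorem off_mem {k : ℕ} {y : A} (hy : y ∈ X.J k) : X.off y ∈ X.J k :=
  Submodule.sub_mem _ hy (X.dg_mem hy)

theorem Eh_dg (a : Option ι) (y : A) : X.Eh a * X.dg y = X.Eh a * y * X.Eh a := by
  rw [dg, Finset.mul_sum, Finset.sum_eq_single a]
  · rw [← mul_assoc, ← mul_assoc, Eh_idem]
  · intro b _ hb
    rw [← mul_assoc, ← mul_assoc, X.Eh_orth a b (Ne.symm hb), zero_mul, zero_mul]
  · intro h; exact absurd (Finset.mem_univ a) h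

theorem dg_Eh (a : Option ι) (y : A) : X.dg y * X.Eh a = X.Eh a * y * X.Eh a := by
  rw [dg, Finset.sum_mul, Finset.sum_eq_single a]
  · rw [mul_assoc, Eh_idem]
  · intro b _ hb
    rw [mul_assoc, X.Eh_orth b a hb, mul_zero]
  · intro h; exact absurd (Finset.mem_univ a) h

theorem dg_mul (y z : A) : X.dg (X.dg y * z) = X.dg y * X.dg z := by
  conv_rhs => rw [dg, Finset.sum_mul]
  rw [dg]
  refine Finset.sum_congr rfl fun a _ => ?_
  rw [← mul_assoc (X.Eh a) (X.dg y) z, Eh_dg, mul_assoc (X.Eh a * y) (X.Eh a) (X.dg z), Eh_dg]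
  noncomm_ring

theorem mul_dg (y z : A) : X.dg (y * X.dg z) = X.dg y * X.dg z := by
  conv_rhs => rw [dg, Finset.sum_mul]
  rw [dg]
  refine Finset.sum_congr rfl fun a _ => ?_
  rw [← mul_assoc (X.Eh a) y (X.dg z), mul_assoc (X.Eh a * y) (X.dg z) (X.Eh a), dg_Eh,
    mul_assoc (X.Eh a * y) (X.Eh a) (X.dg z), Eh_dg]

theorem dg_dg (y : A) : X.dg (X.dg y) = X.dg y := by
  have h := X.mul_dg 1 y
  have h1 : X.dg 1 = 1 := by
    rw [dg, ← X.sum_Eh]
    refine Finset.sum_congr rfl fun a _ => ?_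
    rw [X.sum_Eh, mul_one, Eh_idem]
  rwa [one_mul, h1, one_mul] at h

theorem dg_br (s : S) : X.dg (X.br s) = X.br s := by
  have h : X.br s = X.br s * 1 := (mul_one _).symm
  conv_rhs => rw [h, ← X.sum_Eh, Finset.mul_sum]
  rw [dg]
  refine Finset.sum_congr rfl fun a _ => ?_
  rw [Eh_br, br_Eh, smul_mul_assoc, Eh_idem]

theorem off_br (s : S) : X.off (X.br s) = 0 := by rw [off, dg_br, sub_self]

theorem dg_off (y : A) : X.dg (X.off y) = 0 := by rw [off, dg_sub, dg_dg, sub_self]

/-- the product formula -/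
theorem off_mul (a b : A) :
    X.off (a * b) = X.dg a * X.off b + X.off a * X.dg b + X.off (X.off a * X.off b) := by
  have h1 : a * b = X.dg a * b + X.off a * X.dg b + X.off a * X.off b := by
    rw [off, off]; noncomm_ring
  have h2 : X.off (X.dg a * b) = X.dg a * X.off b := by
    rw [off, dg_mul, off, mul_sub]
  have h3 : X.off (X.off a * X.dg b) = X.off a * X.dg b := by
    rw [off, mul_dg, dg_off, zero_mul, sub_zero]
  conv_lhs => rw [h1]
  rw [off_add, off_add, h2, h3]

/-- congruence of the diagonal part -/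
theorem dg_type {y : A} {s : S} (h : y - X.br s ∈ X.J 1) : X.dg y - X.br s ∈ X.J 1 := by
  have := X.dg_mem h
  rwa [dg_sub, dg_br] at this

theorem off_type {y : A} {s : S} (h : y - X.br s ∈ X.J 1) : X.off y ∈ X.J 1 := by
  have := X.off_mem h
  rwa [off_sub, off_br, sub_zero] at this

theorem off_mul_type {k : ℕ} (hk : 1 ≤ k) {a b : A} {α β : S} (ha : a - X.br α ∈ X.J 1)
    (hb : b - X.br β ∈ X.J 1) (ha' : X.off a ∈ X.J k) (hb' : X.off b ∈ X.J k) :
    X.off (a * b) - (X.br α * X.off b + X.off a * X.br β) ∈ X.J (k + 1) := by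
  have h1 : (X.dg a - X.br α) * X.off b ∈ X.J (k + 1) := by
    have := X.J_mul (X.dg_type ha) hb'
    rwa [add_comm] at this
  have h2 : X.off a * (X.dg b - X.br β) ∈ X.J (k + 1) := X.J_mul ha' (X.dg_type hb)
  have h3 : X.off (X.off a * X.off b) ∈ X.J (k + 1) :=
    X.off_mem (X.J_anti (by omega) (X.J_mul ha' hb'))
  have h4 := Submodule.add_mem _ (Submodule.add_mem _ h1 h2) h3
  rw [off_mul]
  convert h4 using 1
  noncomm_ring

theorem type_mul {a b : A} {α β : S} (ha : a - X.br α ∈ X.J 1) (hb : b - X.br β ∈ X.J 1) :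
    a * b - X.br (α * β) ∈ X.J 1 := by
  have hb0 : b ∈ X.J 0 := by
    have := Submodule.add_mem _ (X.J_anti (Nat.zero_le 1) hb) (X.br_mem β)
    simpa using this
  have h1 : (a - X.br α) * b ∈ X.J 1 := by simpa using X.J_mul ha hb0
  have h2 : X.br α * (b - X.br β) ∈ X.J 1 := by simpa using X.J_mul (X.br_mem α) hb
  have h3 := Submodule.add_mem _ h1 h2
  rw [br_mul]
  convert h3 using 1
  noncomm_ring

/-! ### the commutator with `xx` -/

theorem dg_comm (y : A) : X.xx * X.dg y = X.dg y * X.xx := by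
  have h : ∀ z : A, z = ∑ a, X.Eh a * z := fun z => by
    rw [← Finset.sum_mul, sum_Eh, one_mul]
  rw [h (X.xx * X.dg y), h (X.dg y * X.xx)]
  refine Finset.sum_congr rfl fun a _ => ?_
  rw [← mul_assoc, Eh_xx, smul_mul_assoc, ← mul_assoc, Eh_dg, mul_assoc (X.Eh a * y), Eh_xx,
    mul_smul_comm]

/-- the commutator with `xx` -/
def th (y : A) : A := X.xx * y - y * X.xx

theorem th_off (y : A) : X.th (X.off y) = X.th y := by
  rw [th, th, off, mul_sub, sub_mul, dg_comm]; abel

theorem dg_th (y : A) : X.dg (X.th y) = 0 := by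
  have hx : X.dg X.xx = X.xx := X.dg_br _
  have h1 : X.dg (X.xx * y) = X.xx * X.dg y := by
    have := X.dg_mul X.xx y
    rwa [hx] at this
  have h2 : X.dg (y * X.xx) = X.dg y * X.xx := by
    have := X.mul_dg y X.xx
    rwa [hx] at this
  rw [th, dg_sub, h1, h2, dg_comm, sub_self]

theorem off_th (y : A) : X.off (X.th y) = X.th y := by rw [off, dg_th, sub_zero]

theorem xx_J : X.xx ∈ X.J 0 := X.br_mem _

theorem th_mem {k : ℕ} {y : A} (hy : y ∈ X.J k) : X.th y ∈ X.J k := by
  have h1 := X.J_mul X.xx_J hy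
  have h2 := X.J_mul hy X.xx_J
  rw [zero_add] at h1
  rw [add_zero] at h2
  exact Submodule.sub_mem _ h1 h2

theorem Eh_th (a b : Option ι) (y : A) :
    X.Eh a * X.th y * X.Eh b = (X.ev a - X.ev b) • (X.Eh a * y * X.Eh b) := by
  have e1 : X.Eh a * (X.xx * y) * X.Eh b = X.ev a • (X.Eh a * y * X.Eh b) := by
    rw [← mul_assoc (X.Eh a), Eh_xx, smul_mul_assoc, smul_mul_assoc]
  have e2 : X.Eh a * (y * X.xx) * X.Eh b = X.ev b • (X.Eh a * y * X.Eh b) := by
    rw [← mul_assoc (X.Eh a), mul_assoc (X.Eh a * y), xx_Eh, mul_smul_comm]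
  rw [th, mul_sub, sub_mul, e1, e2, sub_smul]

theorem th_add (y z : A) : X.th (y + z) = X.th y + X.th z := by
  rw [th, th, th]; noncomm_ring

theorem th_smul (c : Ω) (y : A) : X.th (c • y) = c • X.th y := by
  rw [th, th, mul_smul_comm, smul_mul_assoc, smul_sub]

theorem th_zero : X.th 0 = 0 := by rw [th, mul_zero, zero_mul, sub_zero]

theorem th_mul_E (y : A) (j : ι) : X.th (y * X.E j) = X.th y * X.E j := by
  have h : X.xx * X.E j = X.E j * X.xx := by
    rw [xx, br_mul_E, E_mul_br]
  rw [th, th, sub_mul, mul_assoc y, ← h]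
  noncomm_ring

theorem E_mul_th (y : A) (j : ι) : X.th (X.E j * y) = X.E j * X.th y := by
  have h : X.xx * X.E j = X.E j * X.xx := by
    rw [xx, br_mul_E, E_mul_br]
  rw [th, th, mul_sub, ← mul_assoc, h]
  noncomm_ring

theorem E_eq_Eh (j : ι) : X.E j = X.Eh (some j) := rfl

theorem th_inj_right {v : A} {j : ι} (h1 : v * X.E j = v) (h2 : X.E j * v = 0)
    (h3 : X.th v = 0) : v = 0 := by
  have h : ∀ a, X.Eh a * v = 0 := by
    intro a
    by_cases ha : a = some j
    · rw [ha]; exact h2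
    · have h4 := X.Eh_th a (some j) v
      rw [h3, mul_zero, zero_mul, ← E_eq_Eh, mul_assoc, h1] at h4
      have h5 : X.ev a - X.ev (some j) ≠ 0 := sub_ne_zero.2 (X.ev_inj a _ ha)
      exact (smul_eq_zero.1 h4.symm).resolve_left h5
  rw [← one_mul v, ← X.sum_Eh, Finset.sum_mul]
  exact Finset.sum_eq_zero fun a _ => h a

theorem th_inj_left {v : A} {j : ι} (h1 : X.E j * v = v) (h2 : v * X.E j = 0)
    (h3 : X.th v = 0) : v = 0 := by
  have h : ∀ a, v * X.Eh a = 0 := by
    intro a
    by_cases ha : a = some j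
    · rw [ha]; exact h2
    · have h4 := X.Eh_th (some j) a v
      rw [h3, mul_zero, zero_mul, ← E_eq_Eh, h1] at h4
      have h5 : X.ev (some j) - X.ev a ≠ 0 := sub_ne_zero.2 (X.ev_inj _ a (Ne.symm ha))
      exact (smul_eq_zero.1 h4.symm).resolve_left h5
  rw [← mul_one v, ← X.sum_Eh, Finset.mul_sum]
  exact Finset.sum_eq_zero fun a _ => h a

/-! ### columns as an `S`-module -/

/-- `ι → A` as an `S`-module; `s` acts as `φ j s` on coordinate `j` -/
@[nolint unusedArguments]
def Col (_X : ExDat Ω A S ι) : Type _ := ι → A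

instance : AddCommGroup X.Col := inferInstanceAs (AddCommGroup (ι → A))

instance : Module S X.Col where
  smul s f := fun j => X.φ j s • f j
  one_smul f := funext fun j => by
    show X.φ j 1 • f j = f j
    rw [map_one, one_smul]
  mul_smul s s' f := funext fun j => by
    show X.φ j (s * s') • f j = X.φ j s • X.φ j s' • f j
    rw [map_mul, mul_smul]
  smul_zero s := funext fun j => by
    show X.φ j s • (0 : A) = 0
    exact smul_zero _
  smul_add s f g := funext fun j => by
    show X.φ j s • (f j + g j) = X.φ j s • f j + X.φ j s • g j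
    exact smul_add _ _ _
  add_smul s s' f := funext fun j => by
    show X.φ j (s + s') • f j = X.φ j s • f j + X.φ j s' • f j
    rw [map_add, add_smul]
  zero_smul f := funext fun j => by
    show X.φ j 0 • f j = 0
    rw [map_zero, zero_smul]

theorem Col.smul_apply (s : S) (f : X.Col) (j : ι) : (s • f : X.Col) j = X.φ j s • f j := rfl

theorem Col.add_apply (f g : X.Col) (j : ι) : (f + g : X.Col) j = f j + g j := rfl

/-- the commutator on columns -/
def Th : X.Col →ₗ[S] X.Col where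
  toFun f := fun j => X.th (f j)
  map_add' _ _ := funext fun _ => X.th_add _ _
  map_smul' _ _ := funext fun _ => X.th_smul _ _

theorem Th_apply (f : X.Col) (j : ι) : X.Th f j = X.th (f j) := rfl

/-- the columns with entries in the lattice -/
def Big : Submodule S X.Col where
  carrier := {f | ∀ j, f j ∈ X.lat}
  add_mem' hf hg := fun j => X.lat.add_mem (hf j) (hg j)
  zero_mem' := fun _ => X.lat.zero_mem
  smul_mem' s _ hf := fun j => X.lat_smul j s _ (hf j)

theorem Big_fg [IsNoetherianRing S] : X.Big.FG := by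
  classical
  choose F hF using X.lat_fg
  let sg : ι → A → X.Col := fun j a => (Pi.single j a : ι → A)
  let G : Submodule S X.Col := Submodule.span S (Set.range fun q : (Σ j : ι, F j) => sg q.1 q.2)
  have hG : G.FG := Submodule.fg_span (Set.finite_range _)
  refine hG.of_le fun f hf => ?_
  choose c hc using fun j => hF j (f j) (hf j)
  have e : f = ∑ j, ∑ a ∈ F j, c j a • sg j a := by
    funext i
    have h1 : (∑ j, ∑ a ∈ F j, c j a • sg j a : X.Col) i
        = ∑ j, ∑ a ∈ F j, X.φ i (c j a) • ((Pi.single j a : ι → A) i) := by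
      have : ∀ (T : Finset ι) , (∑ j ∈ T, ∑ a ∈ F j, c j a • sg j a : X.Col) i
          = ∑ j ∈ T, ∑ a ∈ F j, X.φ i (c j a) • ((Pi.single j a : ι → A) i) := by
        intro T
        induction T using Finset.induction_on with
        | empty => rfl
        | insert j T hj ih =>
          rw [Finset.sum_insert hj, Finset.sum_insert hj, Col.add_apply, ih]
          congr 1
          have h2 : ∀ U : Finset A, (∑ a ∈ U, c j a • sg j a : X.Col) i
              = ∑ a ∈ U, X.φ i (c j a) • ((Pi.single j a : ι → A) i) := by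
            intro U
            induction U using Finset.induction_on with
            | empty => rfl
            | insert a U ha ih2 =>
              rw [Finset.sum_insert ha, Finset.sum_insert ha, Col.add_apply, ih2]
              rfl
          exact h2 _
      exact this _
    rw [h1, Finset.sum_eq_single i]
    · rw [hc i]
      refine Finset.sum_congr rfl fun a _ => ?_
      rw [Pi.single_eq_same]
    · intro j _ hj
      refine Finset.sum_eq_zero fun a _ => ?_
      rw [Pi.single_eq_of_ne (Ne.symm hj), smul_zero]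
    · intro h; exact absurd (Finset.mem_univ i) h
  rw [e]
  refine Submodule.sum_mem _ fun j _ => Submodule.sum_mem _ fun a ha => ?_
  exact Submodule.smul_mem _ _ (Submodule.subset_span ⟨⟨j, ⟨a, ha⟩⟩, rfl⟩)

/-- the classes modulo `J (k + 1)` of the elements of `C` in `J k` -/
def BB (k : ℕ) : AddSubgroup A where
  carrier := {v | ∃ b ∈ X.C, b ∈ X.J k ∧ v - b ∈ X.J (k + 1)}
  zero_mem' := ⟨0, X.C.zero_mem, (X.J k).zero_mem, by simp⟩
  add_mem' := by
    rintro v v' ⟨b, hb, h1, h2⟩ ⟨b', hb', h1', h2'⟩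
    refine ⟨b + b', X.C.add_mem hb hb', (X.J k).add_mem h1 h1', ?_⟩
    have := (X.J (k + 1)).add_mem h2 h2'
    convert this using 1
    abel
  neg_mem' := by
    rintro v ⟨b, hb, h1, h2⟩
    refine ⟨-b, X.C.neg_mem hb, (X.J k).neg_mem h1, ?_⟩
    have := (X.J (k + 1)).neg_mem h2
    convert this using 1
    abel

theorem BB_of_J {k : ℕ} {v : A} (hv : v ∈ X.J (k + 1)) : v ∈ X.BB k :=
  ⟨0, X.C.zero_mem, (X.J k).zero_mem, by simpa using hv⟩

theorem BB_J {k : ℕ} {v : A} (hv : v ∈ X.BB k) : v ∈ X.J k := by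
  obtain ⟨b, -, h1, h2⟩ := hv
  have := (X.J k).add_mem (X.J_anti (Nat.le_succ k) h2) h1
  simpa using this

/-- realisable scalars act on `BB` from the left -/
theorem br_mul_BB {k : ℕ} {s : S} (hs : ∃ y ∈ X.C, y - X.br s ∈ X.J 1) {v : A}
    (hv : v ∈ X.BB k) : X.br s * v ∈ X.BB k := by
  obtain ⟨y, hy, hy1⟩ := hs
  obtain ⟨b, hb, h1, h2⟩ := hv
  refine ⟨y * b, X.C.mul_mem hy hb, by simpa using X.J_mul (X.C_le y hy) h1, ?_⟩
  have e : X.br s * v - y * b = X.br s * (v - b) - (y - X.br s) * b := by noncomm_ring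
  rw [e]
  refine Submodule.sub_mem _ (by simpa using X.J_mul (X.br_mem s) h2) ?_
  have := X.J_mul hy1 h1
  rwa [add_comm] at this

/-- realisable scalars act on `BB` from the right -/
theorem BB_mul_br {k : ℕ} {s : S} (hs : ∃ y ∈ X.C, y - X.br s ∈ X.J 1) {v : A}
    (hv : v ∈ X.BB k) : v * X.br s ∈ X.BB k := by
  obtain ⟨y, hy, hy1⟩ := hs
  obtain ⟨b, hb, h1, h2⟩ := hv
  refine ⟨b * y, X.C.mul_mem hb hy, by simpa using X.J_mul h1 (X.C_le y hy), ?_⟩
  have e : v * X.br s - b * y = (v - b) * X.br s - b * (y - X.br s) := by noncomm_ring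
  rw [e]
  exact Submodule.sub_mem _ (by simpa using X.J_mul h2 (X.br_mem s)) (X.J_mul h1 hy1)

theorem off_mul_E (y : A) (j : ι) : X.off y * X.E j = y * X.E j - X.E j * y * X.E j := by
  rw [off, sub_mul, E_eq_Eh, dg_Eh]

theorem E_mul_off (y : A) (j : ι) : X.E j * X.off y = X.E j * y - X.E j * y * X.E j := by
  rw [off, mul_sub, E_eq_Eh, Eh_dg]

theorem th_C {y : A} (hy : y ∈ X.C) : X.th y ∈ X.C :=
  X.C.sub_mem (X.C.mul_mem X.xx_mem hy) (X.C.mul_mem hy X.xx_mem)

theorem th_good {k : ℕ} {y : A} (h : X.off y ∈ X.J k) : X.th y ∈ X.J k := by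
  rw [← th_off]
  exact X.th_mem h

/-- the right torsion statement -/
theorem claimR [IsDomain S] [IsNoetherianRing S] {w : S}
    (hty : ∀ s, ∃ y ∈ X.C, y - X.br (w * s) ∈ X.J 1) (k : ℕ) :
    ∃ w' : S, w' ≠ 0 ∧ ∀ y ∈ X.C, X.off y ∈ X.J k → X.off y * X.br (w' * w) ∈ X.BB k := by
  let O : Set X.Col := {o | ∃ y ∈ X.C, X.off y ∈ X.J k ∧ ∀ j, o j = X.φ j w • (X.off y * X.E j)}
  have hO : ∀ o ∈ O, X.Th o ∈ O := by
    rintro o ⟨y, hy, hk, ho⟩
    refine ⟨X.th y, X.th_C hy, ?_, fun j => ?_⟩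
    · rw [off_th]; exact X.th_good hk
    · rw [Th_apply, ho, th_smul, th_mul_E, th_off, off_th]
  have hsp : ∀ f ∈ Submodule.span S O, ∀ j, f j ∈ X.lat ∧ f j * X.E j = f j ∧ X.E j * f j = 0 := by
    intro f hf
    induction hf using Submodule.span_induction with
    | mem f hf =>
      obtain ⟨y, hy, hk, ho⟩ := hf
      intro j
      rw [ho j, off_mul_E]
      refine ⟨X.lat_smul j w _ ?_, ?_, ?_⟩
      · exact X.lat.sub_mem (X.lat_C y hy j).1 (X.lat_C y hy j).2.2
      · rw [smul_mul_assoc, sub_mul, mul_assoc y, X.E_idem, mul_assoc (X.E j * y), X.E_idem]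
      · rw [mul_smul_comm, mul_sub, mul_assoc (X.E j) y, ← mul_assoc (X.E j) (X.E j), X.E_idem,
          sub_self, smul_zero]
    | zero => intro j; exact ⟨X.lat.zero_mem, zero_mul _, mul_zero _⟩
    | add f g _ _ hf hg =>
      intro j
      rw [Col.add_apply]
      refine ⟨X.lat.add_mem (hf j).1 (hg j).1, ?_, ?_⟩
      · rw [add_mul, (hf j).2.1, (hg j).2.1]
      · rw [mul_add, (hf j).2.2, (hg j).2.2, add_zero]
    | smul s f _ hf =>
      intro j
      rw [Col.smul_apply]
      refine ⟨X.lat_smul j s _ (hf j).1, ?_, ?_⟩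
      · rw [smul_mul_assoc, (hf j).2.1]
      · rw [mul_smul_comm, (hf j).2.2, smul_zero]
  obtain ⟨w', hw', h⟩ := torsion_span X.Th O hO
    (X.Big_fg.of_le fun f hf j => (hsp f hf j).1)
    (fun f hf h0 => funext fun j => X.th_inj_right (hsp f hf j).2.1 (hsp f hf j).2.2
      (congrFun h0 j))
  refine ⟨w', hw', fun y hy hk => ?_⟩
  let o : X.Col := fun j => X.φ j w • (X.off y * X.E j)
  have ho : o ∈ O := ⟨y, hy, hk, fun j => rfl⟩
  have key : ∀ f ∈ Submodule.span S (X.Th '' O), ∀ s : S, ∑ j, (s • f : X.Col) j ∈ X.BB k := by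
    intro f hf
    induction hf using Submodule.span_induction with
    | mem f hf =>
      obtain ⟨o, ⟨y, hy, hk, ho⟩, rfl⟩ := hf
      intro s
      have e : ∑ j, (s • X.Th o : X.Col) j = X.th y * X.br (w * s) := by
        rw [br, Finset.mul_sum]
        refine Finset.sum_congr rfl fun j _ => ?_
        rw [Col.smul_apply, Th_apply, ho, th_smul, th_mul_E, th_off, smul_smul, mul_smul_comm,
          map_mul, mul_comm]
      rw [e]
      exact X.BB_mul_br (hty s) ⟨X.th y, X.th_C hy, X.th_good hk, by simp⟩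
    | zero =>
      intro s
      rw [smul_zero]
      have : ∑ j, (0 : X.Col) j = 0 := Finset.sum_eq_zero fun j _ => rfl
      rw [this]
      exact (X.BB k).zero_mem
    | add f g _ _ hf hg =>
      intro s
      have : ∑ j, (s • (f + g) : X.Col) j = ∑ j, (s • f : X.Col) j + ∑ j, (s • g : X.Col) j := by
        rw [smul_add]
        show ∑ j, ((s • f : X.Col) j + (s • g : X.Col) j) = _
        exact Finset.sum_add_distrib
      rw [this]
      exact (X.BB k).add_mem (hf s) (hg s)
    | smul r f _ hf =>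
      intro s
      rw [← mul_smul]
      exact hf _
  have h1 := key _ (h o (Submodule.subset_span ho)) 1
  have e : ∑ j, ((1 : S) • w' • o : X.Col) j = X.off y * X.br (w' * w) := by
    rw [one_smul, br, Finset.mul_sum]
    refine Finset.sum_congr rfl fun j _ => ?_
    rw [Col.smul_apply, smul_smul, mul_smul_comm, map_mul]
  rwa [e] at h1

/-- the left torsion statement -/
theorem claimL [IsDomain S] [IsNoetherianRing S] {w : S}
    (hty : ∀ s, ∃ y ∈ X.C, y - X.br (w * s) ∈ X.J 1) (k : ℕ) :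
    ∃ w' : S, w' ≠ 0 ∧ ∀ y ∈ X.C, X.off y ∈ X.J k → X.br (w' * w) * X.off y ∈ X.BB k := by
  let O : Set X.Col := {o | ∃ y ∈ X.C, X.off y ∈ X.J k ∧ ∀ j, o j = X.φ j w • (X.E j * X.off y)}
  have hO : ∀ o ∈ O, X.Th o ∈ O := by
    rintro o ⟨y, hy, hk, ho⟩
    refine ⟨X.th y, X.th_C hy, ?_, fun j => ?_⟩
    · rw [off_th]; exact X.th_good hk
    · rw [Th_apply, ho, th_smul, E_mul_th, th_off, off_th]
  have hsp : ∀ f ∈ Submodule.span S O, ∀ j, f j ∈ X.lat ∧ X.E j * f j = f j ∧ f j * X.E j = 0 := by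
    intro f hf
    induction hf using Submodule.span_induction with
    | mem f hf =>
      obtain ⟨y, hy, hk, ho⟩ := hf
      intro j
      rw [ho j, E_mul_off]
      refine ⟨X.lat_smul j w _ ?_, ?_, ?_⟩
      · exact X.lat.sub_mem (X.lat_C y hy j).2.1 (X.lat_C y hy j).2.2
      · rw [mul_smul_comm, mul_sub, ← mul_assoc, X.E_idem, mul_assoc (X.E j) y, ← mul_assoc,
          X.E_idem]
      · rw [smul_mul_assoc, sub_mul, mul_assoc (X.E j * y), X.E_idem, sub_self, smul_zero]
    | zero => intro j; exact ⟨X.lat.zero_mem, mul_zero _, zero_mul _⟩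
    | add f g _ _ hf hg =>
      intro j
      rw [Col.add_apply]
      refine ⟨X.lat.add_mem (hf j).1 (hg j).1, ?_, ?_⟩
      · rw [mul_add, (hf j).2.1, (hg j).2.1]
      · rw [add_mul, (hf j).2.2, (hg j).2.2, add_zero]
    | smul s f _ hf =>
      intro j
      rw [Col.smul_apply]
      refine ⟨X.lat_smul j s _ (hf j).1, ?_, ?_⟩
      · rw [mul_smul_comm, (hf j).2.1]
      · rw [smul_mul_assoc, (hf j).2.2, smul_zero]
  obtain ⟨w', hw', h⟩ := torsion_span X.Th O hO
    (X.Big_fg.of_le fun f hf j => (hsp f hf j).1)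
    (fun f hf h0 => funext fun j => X.th_inj_left (hsp f hf j).2.1 (hsp f hf j).2.2
      (congrFun h0 j))
  refine ⟨w', hw', fun y hy hk => ?_⟩
  let o : X.Col := fun j => X.φ j w • (X.E j * X.off y)
  have ho : o ∈ O := ⟨y, hy, hk, fun j => rfl⟩
  have key : ∀ f ∈ Submodule.span S (X.Th '' O), ∀ s : S, ∑ j, (s • f : X.Col) j ∈ X.BB k := by
    intro f hf
    induction hf using Submodule.span_induction with
    | mem f hf =>
      obtain ⟨o, ⟨y, hy, hk, ho⟩, rfl⟩ := hf
      intro s
      have e : ∑ j, (s • X.Th o : X.Col) j = X.br (w * s) * X.th y := by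
        rw [br, Finset.sum_mul]
        refine Finset.sum_congr rfl fun j _ => ?_
        rw [Col.smul_apply, Th_apply, ho, th_smul, E_mul_th, th_off, smul_smul, smul_mul_assoc,
          map_mul, mul_comm]
      rw [e]
      exact X.br_mul_BB (hty s) ⟨X.th y, X.th_C hy, X.th_good hk, by simp⟩
    | zero =>
      intro s
      rw [smul_zero]
      have : ∑ j, (0 : X.Col) j = 0 := Finset.sum_eq_zero fun j _ => rfl
      rw [this]
      exact (X.BB k).zero_mem
    | add f g _ _ hf hg =>
      intro s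
      have : ∑ j, (s • (f + g) : X.Col) j = ∑ j, (s • f : X.Col) j + ∑ j, (s • g : X.Col) j := by
        rw [smul_add]
        show ∑ j, ((s • f : X.Col) j + (s • g : X.Col) j) = _
        exact Finset.sum_add_distrib
      rw [this]
      exact (X.BB k).add_mem (hf s) (hg s)
    | smul r f _ hf =>
      intro s
      rw [← mul_smul]
      exact hf _
  have h1 := key _ (h o (Submodule.subset_span ho)) 1
  have e : ∑ j, ((1 : S) • w' • o : X.Col) j = X.br (w' * w) * X.off y := by
    rw [one_smul, br, Finset.sum_mul]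
    refine Finset.sum_congr rfl fun j _ => ?_
    rw [Col.smul_apply, smul_smul, smul_mul_assoc, map_mul]
  rwa [e] at h1

/-- `k`-th approximation -/
def PP (k : ℕ) : Prop := ∃ w : S, w ≠ 0 ∧ ∀ s, ∃ y ∈ X.C, y - X.br (w * s) ∈ X.J 1 ∧ X.off y ∈ X.J k

theorem PP_one (h : ∃ w : S, w ≠ 0 ∧ ∀ s, ∃ y ∈ X.C, y - X.br (w * s) ∈ X.J 1) : X.PP 1 := by
  obtain ⟨w, hw, h⟩ := h
  refine ⟨w, hw, fun s => ?_⟩
  obtain ⟨y, hy, h1⟩ := h s
  exact ⟨y, hy, h1, X.off_type h1⟩

theorem PP_succ [IsDomain S] [IsNoetherianRing S] {k : ℕ} (hk : 1 ≤ k) (h : X.PP k) :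
    X.PP (k + 1) := by
  obtain ⟨w, hw, h⟩ := h
  have hty : ∀ s, ∃ y ∈ X.C, y - X.br (w * s) ∈ X.J 1 := fun s => by
    obtain ⟨y, hy, h1, -⟩ := h s
    exact ⟨y, hy, h1⟩
  obtain ⟨r, hr, hR⟩ := X.claimR hty k
  obtain ⟨l, hl, hL⟩ := X.claimL hty k
  -- the element `u` of type `w * (r * w * (l * w))`
  obtain ⟨u, hu, hu1, huk⟩ := h (r * w * (l * w))
  set υ : S := w * (r * w * (l * w)) with hυ
  refine ⟨υ * υ * w, mul_ne_zero (mul_ne_zero ?_ ?_) hw, fun s => ?_⟩
  · exact mul_ne_zero hw (mul_ne_zero (mul_ne_zero hr hw) (mul_ne_zero hl hw))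
  · exact mul_ne_zero hw (mul_ne_zero (mul_ne_zero hr hw) (mul_ne_zero hl hw))
  obtain ⟨y, hy, hy1, hyk⟩ := h s
  set σ : S := w * s with hσ
  -- the three products
  have e1 := X.off_mul_type hk hu1 hy1 huk hyk
  have huy1 := X.type_mul hu1 hy1
  have huyk : X.off (u * y) ∈ X.J k := by
    have h1 := X.J_anti (Nat.le_succ k) e1
    have h2 : X.br υ * X.off y + X.off u * X.br σ ∈ X.J k := by
      refine Submodule.add_mem _ ?_ ?_
      · simpa using X.J_mul (X.br_mem υ) hyk
      · simpa using X.J_mul huk (X.br_mem σ)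
    have h3 := Submodule.add_mem _ h1 h2
    simpa using h3
  have e2 := X.off_mul_type hk huy1 hu1 huyk huk
  -- the sum of the three terms is in `BB k`
  have t1 : X.br (υ * σ) * X.off u ∈ X.BB k := by
    have h1 : υ * σ = (w * (r * w * σ)) * (l * w) := by rw [hυ]; ring
    rw [h1, br_mul, mul_assoc]
    exact X.br_mul_BB (hty _) (hL u hu huk)
  have t2 : X.br υ * X.off y * X.br υ ∈ X.BB k := by
    have h1 : υ = (r * w) * (w * (l * w)) := by rw [hυ]; ring
    have h2 : X.br υ * X.off y * X.br υ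
        = X.br υ * (X.off y * X.br (r * w) * X.br (w * (l * w))) := by
      conv_lhs => rw [mul_assoc]
      congr 1
      rw [mul_assoc, ← br_mul, ← h1]
    rw [h2]
    exact X.br_mul_BB ⟨u, hu, hu1⟩ (X.BB_mul_br (hty _) (hR y hy hyk))
  have t3 : X.off u * X.br σ * X.br υ ∈ X.BB k := by
    have h1 : σ * υ = (r * w) * (w * (l * w * σ)) := by rw [hυ]; ring
    rw [mul_assoc, ← br_mul, h1, br_mul, ← mul_assoc]
    exact X.BB_mul_br (hty _) (hR u hu huk)
  have t4 : (X.off (u * y) - (X.br υ * X.off y + X.off u * X.br σ)) * X.br υ ∈ X.BB k := by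
    refine X.BB_of_J ?_
    simpa using X.J_mul e1 (X.br_mem υ)
  have t5 : X.off (u * y * u) ∈ X.BB k := by
    have h1 := (X.BB k).add_mem (X.BB_of_J e2) ((X.BB k).add_mem t4
      ((X.BB k).add_mem t1 ((X.BB k).add_mem t2 t3)))
    convert h1 using 1
    noncomm_ring
  obtain ⟨b, hb, hbk, hb'⟩ := t5
  have hdb : X.dg b ∈ X.J (k + 1) := by
    have h1 := X.dg_mem hb'
    rw [dg_sub, dg_off, zero_sub] at h1
    simpa using Submodule.neg_mem _ h1
  refine ⟨u * y * u - b, X.C.sub_mem (X.C.mul_mem (X.C.mul_mem hu hy) hu) hb, ?_, ?_⟩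
  · have h1 := X.type_mul huy1 hu1
    have h2 : υ * σ * υ = υ * υ * w * s := by rw [hσ]; ring
    rw [h2] at h1
    have h3 := Submodule.sub_mem _ h1 (X.J_anti hk hbk)
    convert h3 using 1
    abel
  · have h1 : X.off (u * y * u - b) = X.off (u * y * u) - b + X.dg b := by
      have h2 : X.off b = b - X.dg b := rfl
      rw [off_sub, h2]; abel
    rw [h1]
    exact Submodule.add_mem _ hb' hdb

/-- **Exact twisted scalars.** -/
theorem exact_scalars [IsDomain S] [IsNoetherianRing S] (p : ℕ) [hp : Fact p.Prime] [CharP Ω p]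
    {l : ℕ} (hl : ∀ a ∈ X.J l, a = 0)
    (h : ∃ w : S, w ≠ 0 ∧ ∀ s, ∃ y ∈ X.C, y - X.br (w * s) ∈ X.J 1) {m : ℕ} (hm : l ≤ p ^ m) :
    ∃ w : S, w ≠ 0 ∧ ∀ s, X.br ((w * s) ^ p ^ m) ∈ X.C := by
  have hPP : ∀ k, X.PP (k + 1) := by
    intro k
    induction k with
    | zero => exact X.PP_one h
    | succ k ih => exact X.PP_succ (by omega) ih
  obtain ⟨w, hw, hy⟩ := hPP l
  refine ⟨w, hw, fun s => ?_⟩
  obtain ⟨y, hyC, hy1, hyl⟩ := hy s
  have hoff : X.off y = 0 := hl _ (X.J_anti (Nat.le_succ l) hyl)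
  have hdg : X.dg y = y := by rw [off, sub_eq_zero] at hoff; exact hoff.symm
  -- `br` commutes with diagonal elements
  have hcomm : Commute (X.br (w * s)) (y - X.br (w * s)) := by
    have h1 : X.br (w * s) * y = y * X.br (w * s) := by
      have h2 : ∀ z : A, z = ∑ a, X.Eh a * z := fun z => by
        rw [← Finset.sum_mul, sum_Eh, one_mul]
      rw [← hdg, h2 (X.br (w * s) * X.dg y), h2 (X.dg y * X.br (w * s))]
      refine Finset.sum_congr rfl fun a _ => ?_
      rw [← mul_assoc, Eh_br, smul_mul_assoc, ← mul_assoc, Eh_dg, mul_assoc (X.Eh a * y), Eh_br,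
        mul_smul_comm]
    show _ * _ = _ * _
    rw [mul_sub, sub_mul, h1]
  have hpowJ : ∀ n : ℕ, (y - X.br (w * s)) ^ n ∈ X.J n := by
    intro n
    induction n with
    | zero => rw [pow_zero]; exact X.J_one
    | succ n ih => rw [pow_succ]; exact X.J_mul ih hy1
  have hnil : (y - X.br (w * s)) ^ p ^ m = 0 := hl _ (X.J_anti hm (hpowJ _))
  have hch : CharP A p ∨ Subsingleton A := by
    rcases subsingleton_or_nontrivial A with h | h
    · exact Or.inr h
    · exact Or.inl (charP_of_injective_algebraMap (algebraMap Ω A).injective p)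
  have e : X.br ((w * s) ^ p ^ m) = y ^ p ^ m := by
    rcases hch with hch | hch
    · rw [X.br_pow _ (pow_ne_zero m hp.out.ne_zero)]
      have h1 : y = X.br (w * s) + (y - X.br (w * s)) := by abel
      conv_rhs => rw [h1]
      rw [add_pow_char_pow_of_commute p m hcomm, hnil, add_zero]
    · exact Subsingleton.elim _ _
  rw [e]
  exact X.C.pow_mem hyC _

end ExDat

end MP35
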