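import Pool.Agent.Lib_MP_3538b5_al.FIdeal

/-!
# Layer F: construction of one family

Owner: helper99.
-/

set_option autoImplicit false
set_option linter.unusedSectionVars false

namespace MP35

universe u v w

theorem exists_q {T : Type v} [CommRing T] [TopologicalSpace T] [CNR T] {B : Type w} [Ring B]
    [Algebra T B] [Module.Finite T B] [TopologicalSpace B] [IsModuleTopology T B] (CB : Subring B)
    (hCB : IsClosed (CB : Set B)) (M : Submodule T B) (hl : ∀ a, ∀ x ∈ M, a * x ∈ M)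
    (hr : ∀ a, ∀ x ∈ M, x * a ∈ M) :
    ∃ q : AddSubgroup B, (∀ x, x ∈ q ↔ x ∈ CB ∧ x ∈ M) ∧ (∀ a ∈ CB, ∀ x ∈ q, a * x ∈ q) ∧
      (∀ a ∈ CB, ∀ x ∈ q, x * a ∈ q) ∧ IsClosed (q : Set B) := by
  refine ⟨CB.toAddSubgroup ⊓ M.toAddSubgroup, fun x => Iff.rfl, ?_, ?_, ?_⟩
  · rintro a ha x ⟨h1, h2⟩
    exact ⟨CB.mul_mem ha h1, hl a x h2⟩
  · rintro a ha x ⟨h1, h2⟩
    exact ⟨CB.mul_mem h1 ha, hr a x h2⟩
  · exact hCB.inter (isClosed_submodule M)

namespace Rep

variable {p : ℕ} [Fact p.Prime] {G : Type u} [Group G] [TopologicalSpace G] [IsTopologicalGroup G]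
  [CompactSpace G] [T2Space G] [TotallyDisconnectedSpace G] {T : Type v} [CommRing T]
  [TopologicalSpace T] [CNR T] [IsDomain T] {Ω : Type v} [Field Ω] [IsAlgClosed Ω] [Algebra T Ω]
  {n : ℕ} {R : Rep p G T Ω n}

namespace FamBlk

variable {Φ : R.Fl} {J : Type} [Finite J] (X : FamBlk R Φ J) {T' : Subalgebra T Ω}
  [Module.Finite T T'] [TopologicalSpace T'] [IsModuleTopology T T'] [CNR T'] {k : ℕ}
  (hR : MCore R k)
  (hT' : ∀ j, ∀ y : R.B, ∀ m, (LinearMap.mulLeft Ω (X.π j y)).charpoly.coeff m ∈ T')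

section chp

/-- the tuple of the coefficients of index `m` -/
noncomputable def tup (y : R.B) (m : ℕ) : J → T' :=
  fun j => ⟨(LinearMap.mulLeft Ω (X.π j y)).charpoly.coeff m, hT' j y m⟩

theorem tup_mem {y : R.B} (hy : y ∈ R.plusSet) (m : ℕ) : X.tup hT' y m ∈ X.S T' := by
  have hnat : ∀ j, (LinearMap.mulLeft Ω (X.π j y)).charpoly.natDegree = X.d ^ 2 := fun j =>
    charpoly_mulLeft_natDegree _
  rcases lt_trichotomy m (X.d ^ 2) with hm | hm | hm
  · exact tup_mem_scRing ⟨y, hy, m, hm, fun j => rfl⟩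
  · have : X.tup hT' y m = 1 := by
      funext j
      refine Subtype.ext ?_
      show (LinearMap.mulLeft Ω (X.π j y)).charpoly.coeff m = 1
      have := (LinearMap.charpoly_monic (LinearMap.mulLeft Ω (X.π j y))).coeff_natDegree
      rwa [hnat, ← hm] at this
    rw [this]
    exact (X.S T').one_mem
  · have : X.tup hT' y m = 0 := by
      funext j
      refine Subtype.ext ?_
      show (LinearMap.mulLeft Ω (X.π j y)).charpoly.coeff m = 0
      refine Polynomial.coeff_eq_zero_of_natDegree_lt ?_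
      rw [hnat]
      exact hm
    rw [this]
    exact (X.S T').zero_mem

/-- the characteristic polynomials of the left multiplications by `π j y`, over `S` -/
noncomputable def tupPoly (y : R.B) (hy : y ∈ R.plusSet) : Polynomial (X.S T') :=
  ∑ m ∈ Finset.range (X.d ^ 2 + 1), Polynomial.monomial m ⟨X.tup hT' y m, X.tup_mem hT' hy m⟩

theorem tupPoly_map (y : R.B) (hy : y ∈ R.plusSet) (j : J) :
    ((X.tupPoly hT' y hy).map (X.φ T' j)).map T'.val.toRingHom
      = (LinearMap.mulLeft Ω (X.π j y)).charpoly := by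
  have hnat : (LinearMap.mulLeft Ω (X.π j y)).charpoly.natDegree = X.d ^ 2 :=
    charpoly_mulLeft_natDegree _
  rw [tupPoly, Polynomial.map_sum, Polynomial.map_sum]
  rw [Polynomial.as_sum_range_C_mul_X_pow (LinearMap.mulLeft Ω (X.π j y)).charpoly, hnat]
  refine Finset.sum_congr rfl fun m _ => ?_
  rw [Polynomial.map_monomial, Polynomial.map_monomial, Polynomial.C_mul_X_pow_eq_monomial]
  rfl

theorem tupPoly_monic [Nonempty J] (y : R.B) (hy : y ∈ R.plusSet) : (X.tupPoly hT' y hy).Monic := by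
  obtain ⟨j⟩ := ‹Nonempty J›
  have hinj : Function.Injective (T'.val.toRingHom.comp (X.φ T' j)) :=
    Subtype.val_injective.comp (X.φ_inj j)
  have h1 := X.tupPoly_map hT' y hy j
  rw [Polynomial.map_map] at h1
  refine Polynomial.monic_of_injective hinj ?_
  rw [h1]
  exact LinearMap.charpoly_monic _

/-- the polynomial of `Ad g` -/
noncomputable def chp (g : G) : Polynomial (X.S T') :=
  (X.tupPoly hT' (R.jB g - 1) (jB_sub_one_mem g)).comp (Polynomial.X - Polynomial.C 1)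

theorem chp_monic [Nonempty J] (g : G) : (X.chp hT' g).Monic := by
  obtain ⟨j⟩ := ‹Nonempty J›
  have hinj : Function.Injective (T'.val.toRingHom.comp (X.φ T' j)) :=
    Subtype.val_injective.comp (X.φ_inj j)
  have : IsDomain (X.S T') := (X.φ_inj j).isDomain _
  exact (X.tupPoly_monic hT' _ _).comp (Polynomial.monic_X_sub_C 1) (by
    rw [Polynomial.natDegree_X_sub_C]; exact one_ne_zero)

theorem chp_root (g : G) (j : J) (μ : Ω) :
    (((X.chp hT' g).map (X.φ T' j)).map T'.val.toRingHom).IsRoot μ ↔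
      ∃ v ∈ Φ.W (X.b j + 1), v ∉ Φ.W (X.b j) ∧ R.Ad g v - μ • v ∈ Φ.W (X.b j) := by
  rw [chp, Polynomial.map_comp, Polynomial.map_comp, X.tupPoly_map hT']
  simp only [Polynomial.map_sub, Polynomial.map_X, map_one, Polynomial.map_one]
  rw [Polynomial.IsRoot, Polynomial.eval_comp]
  simp only [Polynomial.eval_sub, Polynomial.eval_X, Polynomial.eval_one]
  have e1 : X.π j (R.jB g - 1) = X.π j (R.jB g) - 1 := by
    have e2 : X.π j (R.jB g - 1) = X.π j (R.jB g) - X.π j 1 := map_sub (X.π j) _ _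
    rw [e2, map_one]
  have h1 : (LinearMap.mulLeft Ω (X.π j (R.jB g - 1))).charpoly.IsRoot (μ - 1) ↔
      (X.π j (R.jB g)).charpoly.IsRoot μ := by
    rw [isRoot_mulLeft, e1, isRoot_sub_one']
  rw [Polynomial.IsRoot] at h1
  rw [h1]
  exact R.blk_root Φ (X.lt j) (X.dim j) (R.jB g) μ

end chp

/-- the family is complete: it contains all factors with the same kernel -/
def Complete : Prop :=
  ∀ i < Φ.l, ¬ Φ.Triv i → (∀ j, X.b j ≠ i) → ∀ j, ∃ x ∈ R.CB,
    Φ.Acts (x : Module.End Ω (Matrix (Fin n) (Fin n) Ω)) i 0 ∧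
    ¬ Φ.Acts (x : Module.End Ω (Matrix (Fin n) (Fin n) Ω)) (X.b j) 0

include hR hT' in
/-- scalars of a complete family are realised by elements which act as `0` on all other factors -/
theorem scal_complete [Nonempty J] (hX : X.Complete) :
    ∃ z : X.S T', z ≠ 0 ∧ ∀ s : X.S T', ∃ y ∈ R.CC,
      (∀ j, Φ.Acts y (X.b j) ((X.φ T' j (z * s) : T') : Ω)) ∧
      ∀ i < Φ.l, (∀ j, X.b j ≠ i) → Φ.Acts y i 0 := by
  classical
  obtain ⟨j₀⟩ := ‹Nonempty J›
  -- the submodule of elements acting as `0` on the other nontrivial factors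
  let P : ℕ → Submodule T R.B := fun i =>
    { carrier := {y | i < Φ.l → ¬ Φ.Triv i → (∀ j, X.b j ≠ i) →
        Φ.Acts (y : Module.End Ω (Matrix (Fin n) (Fin n) Ω)) i 0}
      add_mem' := by
        intro a b ha hb h1 h2 h3
        have := Flag.Acts.add Φ (ha h1 h2 h3) (hb h1 h2 h3)
        rwa [add_zero] at this
      zero_mem' := by
        intro _ _ _ v _
        simp
      smul_mem' := by
        intro t x hx h1 h2 h3 v hv
        have h4 := hx h1 h2 h3 v hv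
        rw [zero_smul, sub_zero] at h4 ⊢
        have h5 : ((t • x : R.B) : Module.End Ω (Matrix (Fin n) (Fin n) Ω)) v
            = algebraMap T Ω t • (x : Module.End Ω (Matrix (Fin n) (Fin n) Ω)) v := by
          rw [algebraMap_smul]
          rfl
        rw [h5]
        exact (Φ.W i).smul_mem _ h4 }
  have hPl : ∀ i (a x : R.B), x ∈ P i → a * x ∈ P i := by
    intro i a x hx h1 h2 h3
    refine (R.blk_eq_zero Φ h1 rfl _).1 ?_
    rw [map_mul, (R.blk_eq_zero Φ h1 rfl x).2 (hx h1 h2 h3), mul_zero]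
  have hPr : ∀ i (a x : R.B), x ∈ P i → x * a ∈ P i := by
    intro i a x hx h1 h2 h3
    refine (R.blk_eq_zero Φ h1 rfl _).1 ?_
    rw [map_mul, (R.blk_eq_zero Φ h1 rfl x).2 (hx h1 h2 h3), zero_mul]
  let M : Submodule T R.B := R.plusMod ⊓ ⨅ i, P i
  have hMmem : ∀ y, y ∈ M ↔ y ∈ R.plusMod ∧ ∀ i, y ∈ P i := by
    intro y
    rw [Submodule.mem_inf, Submodule.mem_iInf]
  have hMl : ∀ a, ∀ x ∈ M, a * x ∈ M := by
    intro a x hx
    obtain ⟨h1, h2⟩ := (hMmem x).1 hx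
    exact (hMmem _).2 ⟨mul_plusMod a h1, fun i => hPl i a x (h2 i)⟩
  have hMr : ∀ a, ∀ x ∈ M, x * a ∈ M := by
    intro a x hx
    obtain ⟨h1, h2⟩ := (hMmem x).1 hx
    exact (hMmem _).2 ⟨plusMod_mul a h1, fun i => hPr i a x (h2 i)⟩
  obtain ⟨q, hq, hl, hr, hqc⟩ := @exists_q T _ _ _ R.B _ _ _ _ _ R.CB R.isClosed_CB M hMl hMr
  have hqmem : ∀ y, y ∈ q ↔ y ∈ R.plusSet ∧ ∀ i, y ∈ P i := by
    intro y
    rw [hq, hMmem]
    exact ⟨fun h => ⟨⟨h.1, h.2.1⟩, h.2.2⟩, fun h => ⟨h.1.1, h.1.2, h.2⟩⟩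
  have hqC : ∀ x ∈ q, x ∈ R.plusSet := fun x hx => ((hqmem x).1 hx).1
  have hne : ∃ x ∈ q, X.π j₀ x ≠ 0 := by
    let s : Finset ℕ := (Finset.range Φ.l).filter fun i => ¬ Φ.Triv i ∧ ∀ j, X.b j ≠ i
    obtain ⟨x, hx, hxs, hxj⟩ := exists_ideal Φ (X.lt j₀) (X.nt j₀) s (by
      intro i hi
      obtain ⟨h1, h2, h3⟩ := Finset.mem_filter.1 hi
      exact ⟨Finset.mem_range.1 h1, hX i (Finset.mem_range.1 h1) h2 h3 j₀⟩)
    refine ⟨x, (hqmem x).2 ⟨hx, fun i h1 h2 h3 => hxs i ?_⟩, fun h => hxj ((X.π_zero j₀ x).1 h)⟩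
    exact Finset.mem_filter.2 ⟨Finset.mem_range.2 h1, h2, h3⟩
  obtain ⟨z, hz, h⟩ := X.scal (T' := T') hR hT' j₀ q hqC hl hr hqc hne
  refine ⟨z, hz, fun s => ?_⟩
  obtain ⟨y, hy, e⟩ := h s
  obtain ⟨hy1, hy2⟩ := (hqmem y).1 hy
  refine ⟨y, R.mem_CC.2 ⟨y, hy1.1, rfl⟩, fun j => ?_, fun i hi hij => ?_⟩
  · exact (R.blk_eq_smul Φ (X.lt j) (X.dim j) y _).1 (e j)
  · by_cases ht : Φ.Triv i
    · exact acts_of_triv ht hy1.2
    · exact hy2 i hi ht hij

end FamBlk

end Rep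

end MP35
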