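import Pool.Agent.Lib_MP_3538b5_al.RDefs
import Pool.Agent.Lib_MP_3538b5_al.RClosed
import Pool.Agent.Lib_MP_3538b5_al.GComm

/-! # Piece RFAITH: nontrivial factors of the conjugation representation are faithful -/

set_option autoImplicit false

namespace MP35

universe u v w

/-- PROOF. Let `V` be an algebra of endomorphisms... `y` an endomorphism of the finite dimensional space `W`. There is a polynomial `q` with `q(0) = 0` such that `e = q(y)` is idempotent and `ker e` is the generalised eigenspace of `0`: write the minimal polynomial as `X ^ a h`, `h(0) ≠ 0`, `u X ^ (a+1) + v h X = X`..., e.g. Bezout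
`u X ^ a + v h = 1` (`a ≥ 1` may be assumed), `e = u(y) y ^ a`, `1 - e = v(y) h(y)`, `e (1 - e) = 0`. The rank of `e` is `finrank W` minus the multiplicity of `0` as a root of the characteristic polynomial of `y`. -/
theorem exists_idempotent {K : Type v} [Field K] {W : Type w} [AddCommGroup W] [Module K W]
    [FiniteDimensional K W] (y : Module.End K W) :
    ∃ q : Polynomial K, q.coeff 0 = 0 ∧
      IsIdempotentElem (Polynomial.aeval y q) ∧
      Module.finrank K (LinearMap.range (Polynomial.aeval y q))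
        + y.charpoly.rootMultiplicity 0 = Module.finrank K W := by
  classical
  have hχ0 : y.charpoly ≠ 0 := (LinearMap.charpoly_monic y).ne_zero
  obtain ⟨h, hh, hnd⟩ := Polynomial.exists_eq_pow_rootMultiplicity_mul_and_not_dvd y.charpoly hχ0 0
  rw [Polynomial.C_0, sub_zero] at hh hnd
  generalize ha : y.charpoly.rootMultiplicity 0 = a at hh
  have hcop : IsCoprime ((Polynomial.X : Polynomial K) ^ (a + 1)) h :=
    IsCoprime.pow_left ((Polynomial.irreducible_X.coprime_iff_not_dvd).2 hnd)
  obtain ⟨u, v, huv⟩ := hcop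
  have h0 : Polynomial.aeval y y.charpoly = 0 := LinearMap.aeval_self_charpoly y
  have hid : IsIdempotentElem (Polynomial.aeval y (u * Polynomial.X ^ (a + 1))) := by
    have e1 : (u * Polynomial.X ^ (a + 1)) * (u * Polynomial.X ^ (a + 1))
        = u * Polynomial.X ^ (a + 1) - u * Polynomial.X * v * y.charpoly := by
      have e2 : u * Polynomial.X ^ (a + 1) = 1 - v * h := by rw [← huv]; ring
      have e3 : u * Polynomial.X * v * y.charpoly = (u * Polynomial.X ^ (a + 1)) * (v * h) := by
        rw [hh]; ring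
      rw [e3]
      have e4 : v * h = 1 - u * Polynomial.X ^ (a + 1) := by rw [← huv]; ring
      rw [e4]
      ring
    show Polynomial.aeval y (u * Polynomial.X ^ (a + 1)) * Polynomial.aeval y (u * Polynomial.X ^ (a + 1)) = _
    rw [← map_mul, e1, map_sub, map_mul _ _ y.charpoly, h0, mul_zero, sub_zero]
  refine ⟨u * Polynomial.X ^ (a + 1), ?_, hid, ?_⟩
  · rw [pow_succ, ← mul_assoc, Polynomial.coeff_mul_X_zero]
  · have hker : LinearMap.ker (Polynomial.aeval y (u * Polynomial.X ^ (a + 1)))
        = y.maxGenEigenspace 0 := by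
      ext x
      rw [LinearMap.mem_ker, Module.End.mem_maxGenEigenspace]
      simp only [zero_smul, sub_zero]
      constructor
      · intro hx
        refine ⟨a, ?_⟩
        have e1 : (Polynomial.X : Polynomial K) ^ a
            = Polynomial.X ^ a * (u * Polynomial.X ^ (a + 1)) + v * y.charpoly := by
          calc (Polynomial.X : Polynomial K) ^ a = Polynomial.X ^ a * (u * Polynomial.X ^ (a + 1) + v * h) := by
                rw [huv, mul_one]
            _ = _ := by rw [hh]; ring
        have e2 : y ^ a = y ^ a * Polynomial.aeval y (u * Polynomial.X ^ (a + 1)) := by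
          have := congrArg (Polynomial.aeval y) e1
          rw [map_add, map_mul _ v, h0, mul_zero, add_zero, map_mul, map_pow, Polynomial.aeval_X] at this
          exact this
        rw [e2, Module.End.mul_apply, hx, map_zero]
      · rintro ⟨m, hm⟩
        have e1 : (Polynomial.aeval y (u * Polynomial.X ^ (a + 1))) ^ (m + 1)
            = Polynomial.aeval y (u * Polynomial.X ^ (a + 1)) := hid.pow_succ_eq m
        have e2 : (u * Polynomial.X ^ (a + 1)) ^ (m + 1)
            = (u ^ (m + 1) * Polynomial.X ^ (a * (m + 1) + 1)) * Polynomial.X ^ m := by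
          ring
        have e3 : Polynomial.aeval y (u * Polynomial.X ^ (a + 1))
            = Polynomial.aeval y (u ^ (m + 1) * Polynomial.X ^ (a * (m + 1) + 1)) * y ^ m := by
          rw [← e1, ← map_pow, e2, map_mul, map_pow _ Polynomial.X m, Polynomial.aeval_X]
        rw [e3, Module.End.mul_apply, hm, map_zero]
    have h1 := LinearMap.finrank_range_add_finrank_ker (Polynomial.aeval y (u * Polynomial.X ^ (a + 1)))
    rw [hker, LinearMap.finrank_maxGenEigenspace_eq, ha] at h1
    rw [← h1]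

theorem corner_expand {A : Type w} [Ring A] (e y : A) :
    (1 - e) * y * (1 - e) = y - e * y - y * e + e * y * e := by
  rw [sub_mul, one_mul, mul_sub, mul_one, sub_mul]
  abel

theorem corner_left {A : Type w} [Ring A] {e : A} (he : e * e = e) (y : A) :
    e * ((1 - e) * y * (1 - e)) = 0 := by
  have h : e * (1 - e) = 0 := by rw [mul_sub, mul_one, he, sub_self]
  rw [← mul_assoc, ← mul_assoc, h, zero_mul, zero_mul]

theorem corner_right {A : Type w} [Ring A] {e : A} (he : e * e = e) (y : A) :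
    ((1 - e) * y * (1 - e)) * e = 0 := by
  have h : (1 - e) * e = 0 := by rw [sub_mul, one_mul, he, sub_self]
  rw [mul_assoc, h, mul_zero]

/-- an idempotent plus an orthogonal endomorphism, which is not locally nilpotent -/
theorem rootMultiplicity_add_lt {K : Type v} [Field K] {W : Type w} [AddCommGroup W] [Module K W]
    [FiniteDimensional K W] {e z : Module.End K W} (he : e * e = e) (hez : e * z = 0)
    (hze : z * e = 0) (x : W) (hx : ∀ m : ℕ, (z ^ m) x ≠ 0) :
    (e + z).charpoly.rootMultiplicity 0 + Module.finrank K (LinearMap.range e)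
      < Module.finrank K W := by
  have h1 : (e + z).maxGenEigenspace 0 < LinearMap.ker e := by
    refine lt_of_le_of_ne ?_ ?_
    · intro w hw
      rw [Module.End.mem_maxGenEigenspace] at hw
      simp only [zero_smul, sub_zero] at hw
      obtain ⟨m, hm⟩ := hw
      have e1 : ∀ m : ℕ, e * (e + z) ^ m = e := by
        intro m
        induction m with
        | zero => rw [pow_zero, mul_one]
        | succ m ih => rw [pow_succ, ← mul_assoc, ih, mul_add, he, hez, add_zero]
      rw [LinearMap.mem_ker, ← e1 m, Module.End.mul_apply, hm, map_zero]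
    · intro heq
      have hx' : x - e x ∈ LinearMap.ker e := by
        rw [LinearMap.mem_ker, map_sub, ← Module.End.mul_apply, he, sub_self]
      have e1 : ∀ m : ℕ, ((e + z) ^ m) (x - e x) = (z ^ m) (x - e x) := by
        intro m
        induction m with
        | zero => rw [pow_zero, pow_zero]
        | succ m ih =>
          rw [pow_succ', Module.End.mul_apply, ih, LinearMap.add_apply, pow_succ', Module.End.mul_apply z]
          have : e ((z ^ m) (x - e x)) = 0 := by
            cases m with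
            | zero => rw [pow_zero, Module.End.one_apply]; exact hx'
            | succ m => rw [pow_succ', Module.End.mul_apply, ← Module.End.mul_apply e, hez,
                LinearMap.zero_apply]
          rw [this, zero_add]
      rw [← heq, Module.End.mem_maxGenEigenspace] at hx'
      simp only [zero_smul, sub_zero] at hx'
      obtain ⟨m, hm⟩ := hx'
      rw [e1 m] at hm
      apply hx (m + 1)
      have e2 : (z ^ (m + 1)) (x - e x) = 0 := by
        rw [pow_succ', Module.End.mul_apply, hm, map_zero]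
      have e3 : (z ^ (m + 1)) (e x) = 0 := by
        rw [pow_succ, ← Module.End.mul_apply, mul_assoc, hze, mul_zero, LinearMap.zero_apply]
      rw [map_sub, e3, sub_zero] at e2
      exact e2
  have h2 := Submodule.finrank_lt_finrank_of_lt h1
  rw [LinearMap.finrank_maxGenEigenspace_eq] at h2
  have h3 := LinearMap.finrank_range_add_finrank_ker e
  omega

section aug

variable {p : ℕ} {G : Type u} [Group G] [TopologicalSpace G] {T : Type v} [CommRing T]
  [TopologicalSpace T] {Ω : Type v} [Field Ω] [Algebra T Ω] {n : ℕ} (R : Rep p G T Ω n)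

theorem Rep.Ad_mul (g h : G) : R.Ad (g * h) = R.Ad g * R.Ad h := by
  refine LinearMap.ext fun x => ?_
  rw [Module.End.mul_apply, R.Ad_apply, R.Ad_apply, R.Ad_apply, mul_inv_rev, map_mul, map_mul]
  simp only [mul_assoc]

theorem Rep.Ad_one : R.Ad 1 = 1 := by
  refine LinearMap.ext fun x => ?_
  rw [R.Ad_apply, inv_one, map_one, one_mul, mul_one, Module.End.one_apply]

theorem Rep.sub_one_mem_aug (g : G) : R.Ad g - 1 ∈ R.aug := Submodule.subset_span ⟨g, rfl⟩

theorem Rep.Ad_mul_mem_aug (g : G) {y : Module.End Ω (Matrix (Fin n) (Fin n) Ω)} (hy : y ∈ R.aug) :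
    R.Ad g * y ∈ R.aug := by
  unfold Rep.aug at hy
  induction hy using Submodule.span_induction with
  | mem x hx =>
    obtain ⟨h, rfl⟩ := hx
    have e : R.Ad g * (R.Ad h - 1) = (R.Ad (g * h) - 1) - (R.Ad g - 1) := by
      rw [R.Ad_mul, mul_sub, mul_one]; abel
    show R.Ad g * (R.Ad h - 1) ∈ R.aug
    rw [e]
    exact sub_mem (R.sub_one_mem_aug _) (R.sub_one_mem_aug _)
  | zero => rw [mul_zero]; exact zero_mem _
  | add x y _ _ hx hy => rw [mul_add]; exact add_mem hx hy
  | smul a x _ hx => rw [mul_smul_comm]; exact Submodule.smul_mem _ _ hx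

theorem Rep.mul_Ad_mem_aug (g : G) {y : Module.End Ω (Matrix (Fin n) (Fin n) Ω)} (hy : y ∈ R.aug) :
    y * R.Ad g ∈ R.aug := by
  unfold Rep.aug at hy
  induction hy using Submodule.span_induction with
  | mem x hx =>
    obtain ⟨h, rfl⟩ := hx
    have e : (R.Ad h - 1) * R.Ad g = (R.Ad (h * g) - 1) - (R.Ad g - 1) := by
      rw [R.Ad_mul, sub_mul, one_mul]; abel
    show (R.Ad h - 1) * R.Ad g ∈ R.aug
    rw [e]
    exact sub_mem (R.sub_one_mem_aug _) (R.sub_one_mem_aug _)
  | zero => rw [zero_mul]; exact zero_mem _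
  | add x y _ _ hx hy => rw [add_mul]; exact add_mem hx hy
  | smul a x _ hx => rw [smul_mul_assoc]; exact Submodule.smul_mem _ _ hx

theorem Rep.aug_mul_mem {y z : Module.End Ω (Matrix (Fin n) (Fin n) Ω)} (hy : y ∈ R.aug)
    (hz : z ∈ R.aug) : y * z ∈ R.aug := by
  unfold Rep.aug at hy
  induction hy using Submodule.span_induction with
  | mem x hx =>
    obtain ⟨h, rfl⟩ := hx
    show (R.Ad h - 1) * z ∈ R.aug
    rw [sub_mul, one_mul]
    exact sub_mem (R.Ad_mul_mem_aug h hz) hz
  | zero => rw [zero_mul]; exact zero_mem _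
  | add x y _ _ hx hy => rw [add_mul]; exact add_mem hx hy
  | smul a x _ hx => rw [smul_mul_assoc]; exact Submodule.smul_mem _ _ hx

theorem Rep.aug_pow_mem {y : Module.End Ω (Matrix (Fin n) (Fin n) Ω)} (hy : y ∈ R.aug) (m : ℕ) :
    y ^ (m + 1) ∈ R.aug := by
  induction m with
  | zero => rw [zero_add, pow_one]; exact hy
  | succ m ih => rw [pow_succ]; exact R.aug_mul_mem ih hy

theorem Rep.aug_aeval_mem {y : Module.End Ω (Matrix (Fin n) (Fin n) Ω)} (hy : y ∈ R.aug)
    {q : Polynomial Ω} (hq : q.coeff 0 = 0) : Polynomial.aeval y q ∈ R.aug := by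
  rw [Polynomial.aeval_eq_sum_range]
  refine Submodule.sum_mem _ fun i _ => ?_
  cases i with
  | zero => rw [hq, zero_smul]; exact zero_mem _
  | succ i => exact Submodule.smul_mem _ _ (R.aug_pow_mem hy i)

theorem Rep.aug_apply_mem {B' : Submodule Ω (Matrix (Fin n) (Fin n) Ω)}
    (hB' : ∀ g, ∀ x ∈ B', R.Ad g x ∈ B') {y : Module.End Ω (Matrix (Fin n) (Fin n) Ω)}
    (hy : y ∈ R.aug) {x : Matrix (Fin n) (Fin n) Ω} (hx : x ∈ B') : y x ∈ B' := by
  unfold Rep.aug at hy
  induction hy using Submodule.span_induction with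
  | mem z hz =>
    obtain ⟨h, rfl⟩ := hz
    show (R.Ad h - 1) x ∈ B'
    rw [LinearMap.sub_apply, Module.End.one_apply]
    exact sub_mem (hB' h x hx) hx
  | zero => rw [LinearMap.zero_apply]; exact zero_mem _
  | add y z _ _ hy hz => rw [LinearMap.add_apply]; exact add_mem hy hz
  | smul a y _ hy => rw [LinearMap.smul_apply]; exact Submodule.smul_mem _ _ hy

theorem Rep.res_aug_le [CNR T] (H : Subgroup G) : (R.res H).aug ≤ R.aug := by
  refine Submodule.span_le.2 ?_
  rintro _ ⟨h, rfl⟩
  exact R.sub_one_mem_aug (h : G)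

theorem Rep.res_aug_apply_mem [CNR T] (H : Subgroup G)
    {B' B : Submodule Ω (Matrix (Fin n) (Fin n) Ω)}
    (hH : ∀ g ∈ H, ∀ x ∈ B, R.Ad g x - x ∈ B')
    {y : Module.End Ω (Matrix (Fin n) (Fin n) Ω)}
    (hy : y ∈ (R.res H).aug) {x : Matrix (Fin n) (Fin n) Ω} (hx : x ∈ B) : y x ∈ B' := by
  unfold Rep.aug at hy
  induction hy using Submodule.span_induction with
  | mem z hz =>
    obtain ⟨h, rfl⟩ := hz
    exact hH h h.2 x hx
  | zero => rw [LinearMap.zero_apply]; exact zero_mem _
  | add y z _ _ hy hz => rw [LinearMap.add_apply]; exact add_mem hy hz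
  | smul a y _ hy => rw [LinearMap.smul_apply]; exact Submodule.smul_mem _ _ hy

/-- a nontrivial simple factor is generated by every vector -/
theorem Rep.exists_aug_apply_sub_mem {B' B : Submodule Ω (Matrix (Fin n) (Fin n) Ω)}
    (hB' : ∀ g, ∀ x ∈ B', R.Ad g x ∈ B') (hB : ∀ g, ∀ x ∈ B, R.Ad g x ∈ B) (hlt : B' < B)
    (hsimple : ∀ U : Submodule Ω (Matrix (Fin n) (Fin n) Ω), B' ≤ U → U ≤ B →
      (∀ g, ∀ x ∈ U, R.Ad g x ∈ U) → U = B' ∨ U = B)
    (hnt : ∃ g, ∃ x ∈ B, R.Ad g x - x ∉ B') {x : Matrix (Fin n) (Fin n) Ω} (hx : x ∈ B)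
    (hx' : x ∉ B') : ∃ y ∈ R.aug, y x - x ∈ B' := by
  obtain ⟨y₁, hy₁, hy₁'⟩ : ∃ y ∈ R.aug, y x ∉ B' := by
    by_contra hcon
    push Not at hcon
    let U : Submodule Ω (Matrix (Fin n) (Fin n) Ω) :=
      { carrier := {w | w ∈ B ∧ ∀ y ∈ R.aug, y w ∈ B'}
        zero_mem' := ⟨zero_mem _, fun y _ => by rw [map_zero]; exact zero_mem _⟩
        add_mem' := fun {a b} ha hb => ⟨add_mem ha.1 hb.1, fun y hy => by
          rw [map_add]; exact add_mem (ha.2 y hy) (hb.2 y hy)⟩
        smul_mem' := fun c a ha => ⟨Submodule.smul_mem _ _ ha.1, fun y hy => by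
          rw [map_smul]; exact Submodule.smul_mem _ _ (ha.2 y hy)⟩ }
    have hU : ∀ w, w ∈ U ↔ w ∈ B ∧ ∀ y ∈ R.aug, y w ∈ B' := fun w => Iff.rfl
    rcases hsimple U (fun w hw => ⟨hlt.le hw, fun y hy => R.aug_apply_mem hB' hy hw⟩)
      (fun w hw => hw.1) (fun g w hw => ⟨hB g w hw.1, fun y hy => by
        rw [← Module.End.mul_apply]
        exact hw.2 _ (R.mul_Ad_mem_aug g hy)⟩) with h | h
    · exact hx' (h ▸ (hU x).2 ⟨hx, hcon⟩)
    · obtain ⟨g, w, hw, hgw⟩ := hnt
      have : w ∈ U := by rw [h]; exact hw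
      exact hgw (((hU w).1 this).2 _ (R.sub_one_mem_aug g))
  let U : Submodule Ω (Matrix (Fin n) (Fin n) Ω) := B' ⊔ R.aug.map (LinearMap.applyₗ x)
  have hUB : U ≤ B := by
    refine sup_le hlt.le ?_
    rintro _ ⟨y, hy, rfl⟩
    exact R.aug_apply_mem hB hy hx
  have hUG : ∀ g, ∀ w ∈ U, R.Ad g w ∈ U := by
    intro g w hw
    obtain ⟨b, hb, c, hc, rfl⟩ := Submodule.mem_sup.1 hw
    obtain ⟨y, hy, rfl⟩ := hc
    rw [map_add]
    refine add_mem (Submodule.mem_sup_left (hB' g b hb)) (Submodule.mem_sup_right ?_)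
    exact ⟨R.Ad g * y, R.Ad_mul_mem_aug g hy, rfl⟩
  have hUne : U ≠ B' := by
    intro h
    apply hy₁'
    rw [← h]
    exact Submodule.mem_sup_right ⟨y₁, hy₁, rfl⟩
  have hUB' : U = B := (hsimple U le_sup_left hUB hUG).resolve_left hUne
  have hxU : x ∈ U := by rw [hUB']; exact hx
  obtain ⟨b, hb, c, hc, hbc⟩ := Submodule.mem_sup.1 hxU
  obtain ⟨y, hy, hyc⟩ := hc
  refine ⟨y, hy, ?_⟩
  have : y x - x = -b := by
    have e1 : y x = c := hyc
    rw [e1, ← hbc]
    abel
  rw [this]
  exact neg_mem hb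

end aug

/-- PROOF. Let `N = {g | ∀ x ∈ B, Ad g x - x ∈ B'}`, a normal subgroup of `G` (as `B`, `B'` are `G`-stable), closed by `Rep.isClosed_Ad` (`Q` = the endomorphisms mapping `B` into `B'`). Suppose `N ≠ ⊥`. Then `N` is noncommutative (`normal_noncomm`) and `PF p N` (`ProP.sub`, `LiftP.sub`). By `hopt.kmax` applied to `R.res N`
and `k + 1`, `¬ (R.res N).TrivGE (k + 1)`: there is `y ∈ (R.res N).aug` whose characteristic polynomial is not divisible by `X ^ (k+1)`; it is divisible by `X ^ k` (`(R.res N).aug ≤ R.aug`), so the multiplicity of the root `0` is exactly `k`. Let `e` be the idempotent of `exists_idempotent`; `e ∈ (R.res N).aug` (it is a polynomial in `y` without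
constant term, and `aug` is closed under multiplication: `(Ad g - 1)(Ad h - 1) = (Ad (g h) - 1) - (Ad g - 1) - (Ad h - 1)`), and `rank e = n^2 - k`. `e` maps `B` into `B'`, since every `Ad g - 1`, `g ∈ N` does.
`R.aug` is stable under left and right multiplication by the `Ad g`. Let `v ∈ B \ B'`... By simplicity and nontriviality: choose `g₀`, `x₀ ∈ B` with `Ad g₀ x₀ - x₀ ∉ B'`. The subspace `B' + R.aug • x` (for `x ∈ B \ B'`) is `G`-stable, between `B'` and `B`; it is not `B'` for any `x ∈ B \ B'`: otherwise `{x ∈ B | R.aug x ≤ B'}` is a `G`-stable subspace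
strictly bigger than `B'`, so it is `B`, contradiction to nontriviality. So `R.aug x + B' = B`, and there is `y₀ ∈ R.aug` with `y₀ x - x ∈ B'`. Put `f = 1 - e` and `z = f y₀ f ∈ R.aug` (expand). Modulo `B'`, `f` acts on `B` as the identity, so `z x - x ∈ B'`, hence `z ^ m x - x ∈ B'` and `z` is not nilpotent. `e z = z e = 0`, so
`(e + z) ^ m = e + z ^ m` and, the ranges of `e` and `z ^ m` being independent, `rank (e + z) ^ m ≥ rank e + 1 = n^2 - k + 1` for all `m`; so the multiplicity of `0` in the characteristic polynomial of `e + z ∈ R.aug` is `< k` (apply `exists_idempotent` or: the multiplicity is the dimension of the kernel of `(e+z) ^ (n^2)`), contradiction to `hk`. -/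
theorem faithful_of_opt {p : ℕ} [Fact p.Prime] {G : Type u} [Group G] [TopologicalSpace G]
    [IsTopologicalGroup G] [CompactSpace G] [T2Space G] [TotallyDisconnectedSpace G] (hG : PF p G)
    {T : Type v} [CommRing T] [TopologicalSpace T] [CNR T] [IsDomain T]
    {Ω : Type v} [Field Ω] [IsAlgClosed Ω] [Algebra T Ω] {n k : ℕ} (R : Rep p G T Ω n)
    (hopt : OptNK.{u, v} p n k) (hk : R.TrivGE k)
    {B' B : Submodule Ω (Matrix (Fin n) (Fin n) Ω)}
    (hB' : ∀ g, ∀ x ∈ B', R.Ad g x ∈ B') (hB : ∀ g, ∀ x ∈ B, R.Ad g x ∈ B) (hlt : B' < B)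
    (hsimple : ∀ U : Submodule Ω (Matrix (Fin n) (Fin n) Ω), B' ≤ U → U ≤ B →
      (∀ g, ∀ x ∈ U, R.Ad g x ∈ U) → U = B' ∨ U = B)
    (hnt : ∃ g, ∃ x ∈ B, R.Ad g x - x ∉ B') (g : G) (hg : ∀ x ∈ B, R.Ad g x - x ∈ B') : g = 1 := by
  classical
  let N : Subgroup G :=
    { carrier := {g | ∀ x ∈ B, R.Ad g x - x ∈ B'}
      one_mem' := fun x _ => by
        rw [R.Ad_one, Module.End.one_apply, sub_self]
        exact zero_mem _
      mul_mem' := fun {a b} ha hb x hx => by
        have e : R.Ad (a * b) x - x = (R.Ad a (R.Ad b x) - R.Ad b x) + (R.Ad b x - x) := by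
          rw [R.Ad_mul, Module.End.mul_apply]; abel
        rw [e]
        exact add_mem (ha _ (hB b x hx)) (hb x hx)
      inv_mem' := fun {a} ha x hx => by
        have e : R.Ad a⁻¹ x - x = -(R.Ad a (R.Ad a⁻¹ x) - R.Ad a⁻¹ x) := by
          rw [← Module.End.mul_apply, ← R.Ad_mul, mul_inv_cancel, R.Ad_one, Module.End.one_apply,
            neg_sub]
        rw [e]
        exact neg_mem (ha _ (hB _ x hx)) }
  have hNmem : ∀ a, a ∈ N ↔ ∀ x ∈ B, R.Ad a x - x ∈ B' := fun a => Iff.rfl
  have hNn : N.Normal := ⟨fun a ha h x hx => by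
    have e : R.Ad (h * a * h⁻¹) x - x = R.Ad h (R.Ad a (R.Ad h⁻¹ x) - R.Ad h⁻¹ x) := by
      rw [map_sub, ← Module.End.mul_apply (R.Ad h) (R.Ad h⁻¹), ← R.Ad_mul, mul_inv_cancel, R.Ad_one,
        Module.End.one_apply, R.Ad_mul, R.Ad_mul, Module.End.mul_apply, Module.End.mul_apply]
    rw [e]
    exact hB' _ _ (ha _ (hB _ x hx))⟩
  have hNc : IsClosed (N : Set G) := by
    let Q : AddSubgroup (Module.End Ω (Matrix (Fin n) (Fin n) Ω)) :=
      { carrier := {φ | ∀ x ∈ B, φ x ∈ B'}
        zero_mem' := fun x _ => by rw [LinearMap.zero_apply]; exact zero_mem _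
        add_mem' := fun {a b} ha hb x hx => by
          rw [LinearMap.add_apply]; exact add_mem (ha x hx) (hb x hx)
        neg_mem' := fun {a} ha x hx => by
          rw [LinearMap.neg_apply]; exact neg_mem (ha x hx) }
    exact R.isClosed_Ad Q fun t y hy x hx => by
      rw [LinearMap.smul_apply]
      exact Submodule.smul_mem _ _ (hy x hx)
  by_contra hg1
  have hNb : N ≠ ⊥ := by
    intro h
    have : g ∈ N := hg
    rw [h, Subgroup.mem_bot] at this
    exact hg1 this
  obtain ⟨a, ha, b, hb, hab⟩ := normal_noncomm hG.proP hG.lift N hNn hNb hG.nc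
  have : CompactSpace N := isCompact_iff_compactSpace.1 hNc.isCompact
  have hPF : PF p N :=
    ⟨ProP.sub hG.proP N, LiftP.sub hG.lift N hNc, ⟨a, ha⟩, ⟨b, hb⟩, fun h => hab (congrArg Subtype.val h)⟩
  have hnot : ¬ (R.res N).TrivGE (k + 1) := by
    intro h
    have : HasRepTriv.{u, v} p n (k + 1) :=
      ⟨N, inferInstance, inferInstance, inferInstance, inferInstance, inferInstance, inferInstance,
        T, inferInstance, inferInstance, inferInstance, inferInstance,
        Ω, inferInstance, inferInstance, inferInstance, hPF, R.res N, h⟩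
    have := hopt.kmax _ this
    omega
  unfold Rep.TrivGE at hnot
  push Not at hnot
  obtain ⟨y, hy, hyX⟩ := hnot
  have hχ0 : ∀ y : Module.End Ω (Matrix (Fin n) (Fin n) Ω), y.charpoly ≠ 0 := fun y =>
    (LinearMap.charpoly_monic y).ne_zero
  have hrm : ∀ (y : Module.End Ω (Matrix (Fin n) (Fin n) Ω)) (m : ℕ),
      m ≤ y.charpoly.rootMultiplicity 0 ↔ (Polynomial.X : Polynomial Ω) ^ m ∣ y.charpoly := by
    intro y m
    rw [Polynomial.le_rootMultiplicity_iff (hχ0 y), Polynomial.C_0, sub_zero]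
  have hyk : y.charpoly.rootMultiplicity 0 = k := by
    have h1 := (hrm y k).2 (hk y (R.res_aug_le N hy))
    have h2 : ¬ (k + 1 ≤ y.charpoly.rootMultiplicity 0) := fun h => hyX ((hrm y (k + 1)).1 h)
    omega
  obtain ⟨q, hq0, hqi, hqr⟩ := exists_idempotent y
  rw [hyk] at hqr
  have heN : Polynomial.aeval y q ∈ (R.res N).aug := (R.res N).aug_aeval_mem hy hq0
  have heR : Polynomial.aeval y q ∈ R.aug := R.res_aug_le N heN
  have heB : ∀ x ∈ B, (Polynomial.aeval y q) x ∈ B' := fun x hx =>
    R.res_aug_apply_mem N (fun g hg => hg) heN hx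
  generalize Polynomial.aeval y q = e at hqi hqr heN heR heB
  have hee : e * e = e := hqi
  obtain ⟨x, hxB, hxB'⟩ := SetLike.exists_of_lt hlt
  obtain ⟨y₀, hy₀, hy₀x⟩ := R.exists_aug_apply_sub_mem hB' hB hlt hsimple hnt hxB hxB'
  have hz : (1 - e) * y₀ * (1 - e) ∈ R.aug := by
    rw [corner_expand]
    exact add_mem (sub_mem (sub_mem hy₀ (R.aug_mul_mem heR hy₀)) (R.aug_mul_mem hy₀ heR))
      (R.aug_mul_mem (R.aug_mul_mem heR hy₀) heR)
  have hez : e * ((1 - e) * y₀ * (1 - e)) = 0 := corner_left hee y₀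
  have hze : ((1 - e) * y₀ * (1 - e)) * e = 0 := corner_right hee y₀
  have hzx : ((1 - e) * y₀ * (1 - e)) x - x ∈ B' := by
    have e1 : ((1 - e) * y₀ * (1 - e)) x - x = (y₀ x - x) - y₀ (e x) - e (y₀ x - x) - e x
        + e (y₀ (e x)) := by
      simp only [Module.End.mul_apply, LinearMap.sub_apply, Module.End.one_apply, map_sub]
      abel
    rw [e1]
    have h1 : e x ∈ B' := heB x hxB
    have h2 : y₀ (e x) ∈ B' := R.aug_apply_mem hB' hy₀ h1
    exact add_mem (sub_mem (sub_mem (sub_mem hy₀x h2) (R.aug_apply_mem hB' heR hy₀x)) h1)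
      (R.aug_apply_mem hB' heR h2)
  generalize (1 - e) * y₀ * (1 - e) = z at hz hez hze hzx
  have hzm : ∀ m : ℕ, (z ^ m) x - x ∈ B' := by
    intro m
    induction m with
    | zero => rw [pow_zero, Module.End.one_apply, sub_self]; exact zero_mem _
    | succ m ih =>
      have e1 : (z ^ (m + 1)) x - x = z ((z ^ m) x - x) + (z x - x) := by
        rw [pow_succ', Module.End.mul_apply, map_sub]; abel
      rw [e1]
      exact add_mem (R.aug_apply_mem hB' hz ih) hzx
  have hzm' : ∀ m : ℕ, (z ^ m) x ≠ 0 := by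
    intro m h
    have := hzm m
    rw [h, zero_sub] at this
    exact hxB' (neg_mem_iff.1 this)
  have h1 := rootMultiplicity_add_lt hee hez hze x hzm'
  have h2 := (hrm (e + z) k).2 (hk _ (add_mem heR hz))
  omega

end MP35
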