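import Pool.Agent.Lib_MP_3538b5.RTop
import Pool.Agent.Lib_MP_3538b5.Defs

/-! # Profinite rings: closures of finitely generated subrings, the p-divisible part -/

set_option autoImplicit false

namespace MP35

universe u v w

section prelim

variable {p : ℕ} [hp : Fact p.Prime] {R : Type u} [CommRing R] [TopologicalSpace R]
    [IsTopologicalRing R] [CompactSpace R] [T2Space R] [IsLinearTopology R R]

omit [CompactSpace R] hp in
/-- an element divisible by all powers of `p` vanishes -/
theorem p_sep (h2 : IsTopologicallyNilpotent (p : R)) {x : R}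
    (h : ∀ k : ℕ, ∃ y : R, x = (p : R) ^ k * y) : x = 0 := by
  by_contra hx
  have hU : ({x}ᶜ : Set R) ∈ nhds (0 : R) :=
    isOpen_compl_singleton.mem_nhds fun h0 => hx (Eq.symm h0)
  obtain ⟨I, hI, hIU⟩ := IsLinearTopology.hasBasis_open_ideal.mem_iff.1 hU
  obtain ⟨k, hk⟩ := h2.exists_pow_mem_of_mem_nhds (hI.mem_nhds I.zero_mem)
  obtain ⟨y, hy⟩ := h k
  have hxI : x ∈ (I : Set R) := by
    rw [hy]
    exact I.mul_mem_right _ hk
  exact hIU hxI rfl

omit [IsLinearTopology R R] in
/-- residues modulo `p` -/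
private theorem RNP_par {x : R} (hx : x ∈ (⊥ : Subring R).topologicalClosure) :
    ∃ y ∈ (⊥ : Subring R).topologicalClosure, ∃ r : Fin p, x = (r : ℕ) + (p : R) * y := by
  have hcl : IsClosed (((⊥ : Subring R).topologicalClosure : Set R)) :=
    (⊥ : Subring R).isClosed_topologicalClosure
  have h1 : ∀ r : Fin p, IsClosed ((fun y : R => ((r : ℕ) : R) + (p : R) * y) ''
      ((⊥ : Subring R).topologicalClosure : Set R)) := fun r =>
    (hcl.isCompact.image (by fun_prop)).isClosed
  have h3 : ((⊥ : Subring R).topologicalClosure : Set R) ⊆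
      ⋃ r : Fin p, (fun y : R => ((r : ℕ) : R) + (p : R) * y) ''
        ((⊥ : Subring R).topologicalClosure : Set R) := by
    refine closure_minimal ?_ (isClosed_iUnion_of_finite h1)
    intro z hz
    obtain ⟨n, rfl⟩ := Subring.mem_bot.1 hz
    have hn : ((n / p : ℤ) : R) ∈ closure ((⊥ : Subring R) : Set R) :=
      subset_closure (Subring.mem_bot.2 ⟨_, rfl⟩)
    have hpp : (0 : ℤ) < p := by exact_mod_cast hp.out.pos
    have hnn : 0 ≤ n % p := Int.emod_nonneg _ hpp.ne'
    have hnl : n % p < p := Int.emod_lt_of_pos _ hpp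
    obtain ⟨r, hr⟩ := Int.eq_ofNat_of_zero_le hnn
    have hrp : r < p := by
      rw [hr] at hnl
      exact_mod_cast hnl
    refine Set.mem_iUnion.2 ⟨⟨r, hrp⟩, ((n / p : ℤ) : R), hn, ?_⟩
    have e : n = r + p * (n / p) := by
      rw [← hr]
      exact (Int.emod_add_mul_ediv n p).symm
    have e2 := congrArg (Int.cast : ℤ → R) e
    push_cast at e2
    exact e2.symm
  obtain ⟨r, y, hy, rfl⟩ := Set.mem_iUnion.1 (h3 hx)
  exact ⟨y, hy, r, rfl⟩

/-- elements prime to `p` are units -/
private theorem RNP_unit (h2 : IsTopologicallyNilpotent (p : R)) {y : R}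
    (hy : y ∈ (⊥ : Subring R).topologicalClosure) {r : ℕ} (hr : ¬ p ∣ r) :
    ∃ c ∈ (⊥ : Subring R).topologicalClosure, (r + (p : R) * y) * c = 1 := by
  obtain ⟨s, t, hst⟩ : ∃ s t : ℤ, (r : ℤ) * s = 1 + p * t := by
    have hc : IsCoprime (r : ℤ) (p : ℤ) := by
      rw [Nat.isCoprime_iff_coprime]
      exact (Nat.coprime_comm.1 ((Nat.Prime.coprime_iff_not_dvd hp.out).2 hr))
    obtain ⟨s, t, hst⟩ := hc
    exact ⟨s, -t, by linarith⟩
  have hcl : IsClosed (((⊥ : Subring R).topologicalClosure : Set R)) :=
    (⊥ : Subring R).isClosed_topologicalClosure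
  -- `(r + p y) s = 1 + p y'`
  let y' : R := t + y * s
  have hint : ∀ z : ℤ, ((z : ℤ) : R) ∈ (⊥ : Subring R).topologicalClosure := fun z =>
    Subring.le_topologicalClosure _ (Subring.mem_bot.2 ⟨z, rfl⟩)
  have hy' : y' ∈ (⊥ : Subring R).topologicalClosure :=
    add_mem (hint t) (mul_mem hy (hint s))
  have e0 : (r + (p : R) * y) * s = 1 + (p : R) * y' := by
    have e2 := congrArg (Int.cast : ℤ → R) hst
    push_cast at e2
    show (r + (p : R) * y) * s = 1 + (p : R) * (t + y * s)
    calc (r + (p : R) * y) * s = r * s + p * y * s := by ring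
      _ = (1 + p * t) + p * y * s := by rw [e2]
      _ = _ := by ring
  have h1 : IsClosed ((fun c : R => (1 + (p : R) * y') * c) ''
      ((⊥ : Subring R).topologicalClosure : Set R)) :=
    (hcl.isCompact.image (by fun_prop)).isClosed
  have hw : IsTopologicallyNilpotent ((p : R) * -y') := h2.mul_right _
  have h3 : Filter.Tendsto (fun k : ℕ => 1 - ((p : R) * -y') ^ k) Filter.atTop (nhds (1 - 0)) :=
    tendsto_const_nhds.sub hw
  have h4 : (1 : R) - 0 ∈ (fun c : R => (1 + (p : R) * y') * c) ''
      ((⊥ : Subring R).topologicalClosure : Set R) := by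
    refine h1.mem_of_tendsto h3 (Filter.Eventually.of_forall fun k => ?_)
    refine ⟨∑ i ∈ Finset.range k, ((p : R) * -y') ^ i, ?_, ?_⟩
    · exact sum_mem fun i _ => pow_mem (mul_mem (natCast_mem _ p) (neg_mem hy')) i
    · have e := mul_neg_geom_sum ((p : R) * -y') k
      have e2 : (1 : R) - (p : R) * -y' = 1 + (p : R) * y' := by ring
      rw [e2] at e
      exact e
  obtain ⟨c, hc, hc2⟩ := h4
  rw [sub_zero] at hc2
  refine ⟨s * c, mul_mem (hint s) hc, ?_⟩
  rw [← mul_assoc, e0]
  exact hc2

/-- normal form -/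
private theorem RNP_nf (h2 : IsTopologicallyNilpotent (p : R)) {x : R}
    (hx : x ∈ (⊥ : Subring R).topologicalClosure) (hx0 : x ≠ 0) :
    ∃ (k : ℕ) (c d : R), c ∈ (⊥ : Subring R).topologicalClosure ∧
      d ∈ (⊥ : Subring R).topologicalClosure ∧ x * c = (p : R) ^ k ∧ x = (p : R) ^ k * d := by
  classical
  have hex : ∃ k : ℕ, ¬ ∃ y ∈ (⊥ : Subring R).topologicalClosure, x = (p : R) ^ k * y := by
    by_contra hall
    push Not at hall
    exact hx0 (p_sep h2 fun k => by
      obtain ⟨y, -, hy⟩ := hall k
      exact ⟨y, hy⟩)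
  have hk := Nat.find_spec hex
  have hmin := fun m => Nat.find_min (m := m) hex
  generalize Nat.find hex = K at hk hmin
  have hK : K ≠ 0 := by
    rintro rfl
    exact hk ⟨x, hx, by rw [pow_zero, one_mul]⟩
  obtain ⟨j, rfl⟩ := Nat.exists_eq_succ_of_ne_zero hK
  have hj := hmin j (Nat.lt_succ_self j)
  push Not at hj
  obtain ⟨y, hy, hxy⟩ := hj
  obtain ⟨z, hz, r, h⟩ := RNP_par (p := p) hy
  by_cases hr : p ∣ (r : ℕ)
  · exfalso
    have hr0 : (r : ℕ) = 0 := Nat.eq_zero_of_dvd_of_lt hr r.2
    rw [hr0, Nat.cast_zero, zero_add] at h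
    exact hk ⟨z, hz, by rw [hxy, h, pow_succ, mul_assoc]⟩
  · obtain ⟨c, hc, hc1⟩ := RNP_unit h2 hz hr
    refine ⟨j, c, y, hc, hy, ?_, hxy⟩
    rw [hxy, mul_assoc, h, hc1, mul_one]

/-- the closure of the integers is noetherian -/
private theorem RNP_int (h2 : IsTopologicallyNilpotent (p : R)) :
    IsNoetherianRing (⊥ : Subring R).topologicalClosure := by
  classical
  rw [isNoetherianRing_iff_ideal_fg]
  intro I
  by_cases hI : I = ⊥
  · rw [hI]
    exact Submodule.fg_bot
  · obtain ⟨x, hxI, hx0⟩ := Submodule.exists_mem_ne_zero_of_ne_bot hI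
    have hnf : ∀ z : (⊥ : Subring R).topologicalClosure, z ∈ I → z ≠ 0 →
        ∃ k : ℕ, (p : (⊥ : Subring R).topologicalClosure) ^ k ∈ I ∧
          ∃ d : (⊥ : Subring R).topologicalClosure, z = (p : _) ^ k * d := by
      intro z hz hz0
      obtain ⟨k, c, d, hc, hd, h3, h4⟩ := RNP_nf h2 z.2 (fun h => hz0 (Subtype.ext h))
      refine ⟨k, ?_, ⟨d, hd⟩, Subtype.ext ?_⟩
      · have e : (p : (⊥ : Subring R).topologicalClosure) ^ k = z * ⟨c, hc⟩ := by
          apply Subtype.ext
          change ((p : (⊥ : Subring R).topologicalClosure) ^ k : (⊥ : Subring R).topologicalClosure).1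
            = z.1 * c
          rw [h3]
          rfl
        rw [e]
        exact I.mul_mem_right _ hz
      · rw [h4]
        rfl
    have hex : ∃ k : ℕ, (p : (⊥ : Subring R).topologicalClosure) ^ k ∈ I := by
      obtain ⟨k, hk, -⟩ := hnf x hxI hx0
      exact ⟨k, hk⟩
    have hk := Nat.find_spec hex
    have hmin := fun m => Nat.find_min' (m := m) hex
    generalize Nat.find hex = K at hk hmin
    refine ⟨{(p : (⊥ : Subring R).topologicalClosure) ^ K}, le_antisymm ?_ ?_⟩
    · rw [Submodule.span_le]
      intro z hz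
      rw [Finset.coe_singleton, Set.mem_singleton_iff] at hz
      rw [hz]
      exact hk
    · intro z hz
      by_cases hz0 : z = 0
      · rw [hz0]
        exact Submodule.zero_mem _
      · obtain ⟨k, hk2, d, hd⟩ := hnf z hz hz0
        have hle := hmin k hk2
        have hmem : (p : (⊥ : Subring R).topologicalClosure) ^ K ∈
            Submodule.span (⊥ : Subring R).topologicalClosure
              ((({(p : (⊥ : Subring R).topologicalClosure) ^ K} : Finset
                (⊥ : Subring R).topologicalClosure)) : Set (⊥ : Subring R).topologicalClosure) :=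
          Submodule.subset_span (by simp)
        have e : z = ((p : (⊥ : Subring R).topologicalClosure) ^ (k - K) * d) •
            (p : (⊥ : Subring R).topologicalClosure) ^ K := by
          rw [hd, smul_eq_mul]
          have : k = (k - K) + K := by omega
          conv_lhs => rw [this, pow_add]
          ring
        rw [e]
        exact Submodule.smul_mem _ _ hmem

end prelim

open MvPowerSeries.WithPiTopology in
/-- the closure is the range of the evaluation -/
private theorem RNP_main {A : Type v} [CommRing A] [UniformSpace A] [IsUniformAddGroup A]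
    [IsTopologicalRing A] [CompactSpace A] [IsNoetherianRing A] {R : Type u} [CommRing R]
    [UniformSpace R] [IsUniformAddGroup R] [IsTopologicalRing R] [CompactSpace R] [T2Space R]
    [IsLinearTopology R R] (φ : A →+* R) (hφ : Continuous φ) {ι : Type w} [Finite ι] (t : ι → R)
    (hr : ∀ a, φ a ∈ (Subring.closure (Set.range t)).topologicalClosure)
    (ht : ∀ i, IsTopologicallyNilpotent (t i)) :
    IsNoetherianRing (Subring.closure (Set.range t)).topologicalClosure := by
  have ha : MvPowerSeries.HasEval t := ⟨ht, by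
    rw [Filter.cofinite_eq_bot]
    exact Filter.tendsto_bot⟩
  have hc : Continuous (MvPowerSeries.eval₂Hom hφ ha) := by
    rw [MvPowerSeries.coe_eval₂Hom]
    exact MvPowerSeries.continuous_eval₂ hφ ha
  have hcomp : CompactSpace (MvPowerSeries ι A) := by
    unfold MvPowerSeries
    exact Pi.compactSpace
  have hcl : IsClosed ((MvPowerSeries.eval₂Hom hφ ha).range : Set R) := by
    rw [RingHom.coe_range]
    exact (isCompact_range hc).isClosed
  have hrange : (MvPowerSeries.eval₂Hom hφ ha).range =
      (Subring.closure (Set.range t)).topologicalClosure := by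
    refine le_antisymm ?_ ?_
    · rintro _ ⟨f, rfl⟩
      have hs := MvPowerSeries.hasSum_eval₂ hφ ha f
      rw [← MvPowerSeries.coe_eval₂Hom hφ ha] at hs
      refine (Subring.closure (Set.range t)).isClosed_topologicalClosure.mem_of_tendsto hs
        (Filter.Eventually.of_forall fun s => ?_)
      refine sum_mem fun d _ => mul_mem (hr _) (prod_mem fun i _ => pow_mem ?_ _)
      exact Subring.le_topologicalClosure _ (Subring.subset_closure ⟨i, rfl⟩)
    · refine Subring.topologicalClosure_minimal _ (Subring.closure_le.2 ?_) hcl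
      rintro _ ⟨i, rfl⟩
      refine ⟨MvPowerSeries.X i, ?_⟩
      rw [MvPowerSeries.coe_eval₂Hom, MvPowerSeries.eval₂_X]
  rw [← hrange]
  exact isNoetherianRing_range _

/-- the closed subring generated by finitely many topologically nilpotent elements is noetherian -/
theorem noeth_closureP {p : ℕ} [hp : Fact p.Prime] {R : Type u} [CommRing R] [TopologicalSpace R]
    [IsTopologicalRing R] [CompactSpace R] [T2Space R] [IsLinearTopology R R]
    (h2 : IsTopologicallyNilpotent (p : R)) {ι : Type w} [Finite ι]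
    (t : ι → R) (ht : ∀ i, IsTopologicallyNilpotent (t i)) :
    IsNoetherianRing (Subring.closure (Set.range t)).topologicalClosure := by
  have hcl : IsClosed (((⊥ : Subring R).topologicalClosure : Set R)) :=
    (⊥ : Subring R).isClosed_topologicalClosure
  have hcomp : CompactSpace (⊥ : Subring R).topologicalClosure :=
    isCompact_iff_compactSpace.1 hcl.isCompact
  have hN := RNP_int h2
  let u1 : UniformSpace R := IsTopologicalAddGroup.rightUniformSpace R
  have u2 : IsUniformAddGroup R := isUniformAddGroup_of_addCommGroup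
  let u3 : UniformSpace (⊥ : Subring R).topologicalClosure :=
    IsTopologicalAddGroup.rightUniformSpace (⊥ : Subring R).topologicalClosure
  have u4 : IsUniformAddGroup (⊥ : Subring R).topologicalClosure :=
    isUniformAddGroup_of_addCommGroup
  refine RNP_main (⊥ : Subring R).topologicalClosure.subtype continuous_subtype_val t
    (fun a => ?_) ht
  exact Subring.topologicalClosure_minimal _
    (bot_le.trans (Subring.le_topologicalClosure _))
    (Subring.closure (Set.range t)).isClosed_topologicalClosure a.2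

section quot

variable (p : ℕ) {R : Type u} [CommRing R] [TopologicalSpace R] [IsTopologicalRing R]

/-- the elements divisible by all powers of `p` -/
def JinfP (R : Type u) [CommRing R] : Ideal R := ⨅ n : ℕ, Ideal.span {(p : R) ^ n}

theorem closed_JinfP [CompactSpace R] [T2Space R] : IsClosed (JinfP p R : Set R) := by
  have h1 : (JinfP p R : Set R) = ⋂ n : ℕ, Set.range (fun x : R => x * (p : R) ^ n) := by
    ext x
    unfold JinfP
    simp only [SetLike.mem_coe, Ideal.mem_iInf, Ideal.mem_span_singleton', Set.mem_iInter,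
      Set.mem_range]
  rw [h1]
  refine isClosed_iInter fun n => (isCompact_range ?_).isClosed
  fun_prop

theorem p_tn [CompactSpace R] [T2Space R] [IsLinearTopology R R] :
    IsTopologicallyNilpotent (p : R ⧸ JinfP p R) := by
  rw [IsTopologicallyNilpotent, Filter.tendsto_def]
  intro U hU
  have hc : Continuous (Ideal.Quotient.mk (JinfP p R)) := continuous_quotient_mk'
  have h0 : U ∈ nhds (Ideal.Quotient.mk (JinfP p R) 0) := by rwa [map_zero]
  obtain ⟨I, hI, hIU⟩ := (IsLinearTopology.hasBasis_open_ideal (R := R)).mem_iff.1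
    (hc.continuousAt.preimage_mem_nhds h0)
  have hopen : IsOpen ((I ⊔ JinfP p R : Ideal R) : Set R) :=
    AddSubgroup.isOpen_mono (H₁ := I.toAddSubgroup) (H₂ := (I ⊔ JinfP p R).toAddSubgroup)
      (fun x hx => Submodule.mem_sup_left hx) hI
  have hdir : Directed (fun A B : Set R => A ⊇ B)
      (fun n : ℕ => Set.range (fun x : R => x * (p : R) ^ n)) := by
    refine directed_of_isDirected_le (r := fun A B : Set R => A ⊇ B) ?_
    rintro m n hmn _ ⟨x, rfl⟩
    refine ⟨x * (p : R) ^ (n - m), ?_⟩
    simp only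
    rw [mul_assoc, ← pow_add, Nat.sub_add_cancel hmn]
  have hcpt : ∀ n : ℕ, IsCompact (Set.range (fun x : R => x * (p : R) ^ n)) := fun n =>
    isCompact_range (by fun_prop)
  obtain ⟨n, hn⟩ := exists_subset_nhds_of_isCompact' hdir hcpt (fun n => (hcpt n).isClosed)
    (U := ((I ⊔ JinfP p R : Ideal R) : Set R)) (by
      intro x hx
      refine hopen.mem_nhds (Submodule.mem_sup_right ?_)
      unfold JinfP
      rw [Ideal.mem_iInf]
      intro k
      rw [Ideal.mem_span_singleton']
      exact Set.mem_iInter.1 hx k)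
  rw [Filter.mem_atTop_sets]
  refine ⟨n, fun m hm => ?_⟩
  have h1 : (p : R) ^ m ∈ I ⊔ JinfP p R := by
    apply hn
    refine ⟨(p : R) ^ (m - n), ?_⟩
    simp only
    rw [← pow_add, Nat.sub_add_cancel hm]
  obtain ⟨i, hi, j, hj, hij⟩ := Submodule.mem_sup.1 h1
  have h2 : (p : R ⧸ JinfP p R) ^ m = Ideal.Quotient.mk (JinfP p R) i := by
    have h3 : (p : R ⧸ JinfP p R) ^ m = Ideal.Quotient.mk (JinfP p R) ((p : R) ^ m) := by
      rw [map_pow, map_natCast]
    rw [h3, ← hij, map_add, Ideal.Quotient.eq_zero_iff_mem.2 hj, add_zero]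
  change (p : R ⧸ JinfP p R) ^ m ∈ U
  rw [h2]
  exact hIU hi

end quot

section divis

variable {p : ℕ} [hp : Fact p.Prime]

/-- the ideal of nilpotent elements divisible by all powers of `p` -/
private def rpJ (p : ℕ) (A : Type u) [CommRing A] : Ideal A :=
  nilradical A ⊓ ⨅ n : ℕ, Ideal.span {(p : A) ^ n}

omit hp in
private theorem mem_rpJ {A : Type u} [CommRing A] {x : A} :
    x ∈ rpJ p A ↔ IsNilpotent x ∧ ∀ n : ℕ, (p : A) ^ n ∣ x := by
  unfold rpJ
  rw [Ideal.mem_inf, mem_nilradical, Ideal.mem_iInf]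
  exact and_congr Iff.rfl (forall_congr' fun n => Ideal.mem_span_singleton)

private theorem rp_inv (p : ℕ) (A : Type u) [CommRing A] [Finite A] :
    ∃ u : A, ∀ x ∈ rpJ p A, p * (u * x) = x := by
  obtain ⟨i, j, hij, h⟩ := Finite.exists_ne_map_eq_of_infinite (fun n : ℕ => (p : A) ^ n)
  have key : ∀ i j : ℕ, i < j → (p : A) ^ i = (p : A) ^ j →
      ∃ u : A, ∀ x ∈ rpJ p A, p * (u * x) = x := by
    intro i j hlt h
    obtain ⟨L, rfl⟩ := Nat.exists_eq_add_of_lt hlt
    refine ⟨(p : A) ^ L, fun x hx => ?_⟩
    obtain ⟨y, rfl⟩ := (mem_rpJ.1 hx).2 i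
    calc p * ((p : A) ^ L * ((p : A) ^ i * y)) = (p : A) ^ (i + L + 1) * y := by ring
      _ = (p : A) ^ i * y := by rw [← h]
  rcases lt_or_gt_of_ne hij with hlt | hlt
  · exact key i j hlt h
  · exact key j i hlt h.symm

/-- binomial expansion to second order -/
theorem pow_expand {S : Type u} [Ring S] (m : S) (k : ℕ) :
    ∃ c : S, Commute m c ∧ (1 + m) ^ k = 1 + k * m + m * m * c := by
  induction k with
  | zero => exact ⟨0, Commute.zero_right m, by simp⟩
  | succ k ih =>
    obtain ⟨c, hc, h⟩ := ih
    refine ⟨k + c + c * m, ?_, ?_⟩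
    · exact ((Nat.cast_commute k m).symm.add_right hc).add_right (hc.mul_right (Commute.refl m))
    · rw [pow_succ, h]
      have e1 : (k : S) * m = m * k := Nat.cast_commute k m
      push_cast
      simp only [mul_add, add_mul, mul_one, one_mul]
      have e2 : (k : S) * m * m = m * m * k := by
        rw [e1, mul_assoc, e1, ← mul_assoc]
      rw [e2]
      simp only [mul_assoc]
      abel

omit hp in
private theorem rp_sq {n : ℕ} {A : Type u} [CommRing A] [Finite A]
    {m c : Matrix (Fin n) (Fin n) A}
    (hJ : ∀ i j, m i j ∈ rpJ p A) (h : (p : Matrix (Fin n) (Fin n) A) * m + m * m * c = 0) :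
    m = 0 := by
  obtain ⟨u, hu⟩ := rp_inv p A
  have hm : ∀ i j, m i j = -u * (m * (m * c)) i j := by
    intro i j
    have h1 : ((p : Matrix (Fin n) (Fin n) A) * m + m * m * c : Matrix (Fin n) (Fin n) A) i j = 0 := by
      rw [h]; rfl
    have h2 : ((p : Matrix (Fin n) (Fin n) A) * m : Matrix (Fin n) (Fin n) A) i j = p * m i j := by
      rw [← nsmul_eq_mul, ← nsmul_eq_mul]
      rfl
    rw [Matrix.add_apply, h2, mul_assoc] at h1
    have h3 : (m * (m * c)) i j = -(p * m i j) := by
      rw [eq_neg_iff_add_eq_zero, add_comm]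
      exact h1
    rw [h3]
    calc m i j = p * (u * m i j) := (hu _ (hJ i j)).symm
      _ = -u * -(p * m i j) := by ring
  have claim : ∀ k : ℕ, ∀ i j, m i j ∈ (nilradical A) ^ (k + 1) := by
    intro k
    induction k with
    | zero =>
      intro i j
      rw [zero_add, pow_one]
      exact (mem_nilradical).2 (mem_rpJ.1 (hJ i j)).1
    | succ k ih =>
      intro i j
      rw [hm i j]
      refine Ideal.mul_mem_left _ _ ?_
      rw [Matrix.mul_apply]
      refine Ideal.sum_mem _ fun l _ => ?_
      rw [pow_succ]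
      refine Ideal.mul_mem_mul (ih i l) ?_
      rw [Matrix.mul_apply]
      refine Ideal.sum_mem _ fun r _ => ?_
      exact Ideal.mul_mem_right _ _ ((mem_nilradical).2 (mem_rpJ.1 (hJ l r)).1)
  obtain ⟨K, hK⟩ := IsNoetherianRing.isNilpotent_nilradical A
  ext i j
  have h1 := claim K i j
  rw [pow_succ, hK, zero_mul] at h1
  exact h1

/-- a unipotent matrix of `p`-power order with entries (minus identity) divisible by all powers of
`p` is trivial -/
theorem mat_p {n : ℕ} {A : Type u} [CommRing A] [Finite A] {m : Matrix (Fin n) (Fin n) A}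
    (h1 : ∀ i j, IsNilpotent (m i j)) (h2 : ∀ (k : ℕ) (i j), (p : A) ^ k ∣ m i j) {s : ℕ}
    (h : (1 + m) ^ (p ^ s) = 1) : m = 0 := by
  have hJ : ∀ i j, m i j ∈ rpJ p A := fun i j => mem_rpJ.2 ⟨h1 i j, fun n => h2 n i j⟩
  clear h1 h2
  induction s generalizing m with
  | zero =>
    rw [pow_zero, pow_one] at h
    exact left_eq_add.1 h.symm
  | succ s ih =>
    obtain ⟨c, -, hc⟩ := pow_expand m p
    have hJ' : ∀ i j, ((p : Matrix (Fin n) (Fin n) A) * m + m * m * c :
        Matrix (Fin n) (Fin n) A) i j ∈ rpJ p A := by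
      intro i j
      have h2 : ((p : Matrix (Fin n) (Fin n) A) * m : Matrix (Fin n) (Fin n) A) i j
          = p * m i j := by
        rw [← nsmul_eq_mul, ← nsmul_eq_mul]
        rfl
      rw [Matrix.add_apply, h2, mul_assoc]
      refine Ideal.add_mem _ (Ideal.mul_mem_left _ _ (hJ i j)) ?_
      rw [Matrix.mul_apply]
      exact Ideal.sum_mem _ fun l _ => Ideal.mul_mem_right _ _ (hJ i l)
    have h0 : (p : Matrix (Fin n) (Fin n) A) * m + m * m * c = 0 := by
      refine ih ?_ hJ'
      rw [← add_assoc, ← hc, ← pow_mul, ← pow_succ']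
      exact h
    exact rp_sq hJ h0

/-- the representation modulo the `p`-divisible part is faithful on the elements with
topologically nilpotent entries -/
theorem inj_modP {n : ℕ} {G : Type u} [Group G] [TopologicalSpace G] [IsTopologicalGroup G]
    [CompactSpace G]
    (hP : ProP p G) {R : Type v} [CommRing R] [TopologicalSpace R] [IsTopologicalRing R]
    [CompactSpace R] [T2Space R] [IsLinearTopology R R] (ρ : G →* Matrix (Fin n) (Fin n) R)
    (hρ : Continuous ρ) {g : G}
    (h1 : ∀ i j, IsTopologicallyNilpotent (ρ g i j - (1 : Matrix (Fin n) (Fin n) R) i j))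
    (h2 : ∀ (k : ℕ) (i j), (p : R) ^ k ∣ ρ g i j - (1 : Matrix (Fin n) (Fin n) R) i j) :
    ρ g = 1 := by
  have main : ∀ I : Ideal R, IsOpen (I : Set R) → ∀ i j,
      ρ g i j - (1 : Matrix (Fin n) (Fin n) R) i j ∈ I := by
    intro I hI
    have : Finite (R ⧸ I) := AddSubgroup.quotient_finite_of_isOpen I.toAddSubgroup hI
    let q : R →+* R ⧸ I := Ideal.Quotient.mk I
    let Q : Matrix (Fin n) (Fin n) R →+* Matrix (Fin n) (Fin n) (R ⧸ I) := q.mapMatrix
    let f : G →* Matrix (Fin n) (Fin n) (R ⧸ I) :=
      (Q : Matrix (Fin n) (Fin n) R →* Matrix (Fin n) (Fin n) (R ⧸ I)).comp ρ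
    have hf : ∀ x, f x = Q (ρ x) := fun x => rfl
    have hker : ∀ x, x ∈ f.ker ↔ ∀ i j, ρ x i j - (1 : Matrix (Fin n) (Fin n) R) i j ∈ I := by
      intro x
      rw [MonoidHom.mem_ker, hf, ← map_one Q]
      constructor
      · intro h i j
        rw [← Ideal.Quotient.eq]
        exact congrFun (congrFun h i) j
      · intro h
        ext i j
        exact Ideal.Quotient.eq.2 (h i j)
    have hopen : IsOpen (f.ker : Set G) := by
      have : (f.ker : Set G) = ⋂ i, ⋂ j, (fun x => ρ x i j
        - (1 : Matrix (Fin n) (Fin n) R) i j) ⁻¹' (I : Set R) := by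
        ext x
        rw [SetLike.mem_coe, hker, Set.mem_iInter]
        exact forall_congr' fun i => by rw [Set.mem_iInter]; exact Iff.rfl
      rw [this]
      refine isOpen_iInter_of_finite fun i => isOpen_iInter_of_finite fun j => ?_
      exact hI.preimage (((continuous_apply j).comp ((continuous_apply i).comp hρ)).sub
        continuous_const)
    obtain ⟨k, hk⟩ := hP f.ker inferInstance hopen g
    rw [MonoidHom.mem_ker, map_pow] at hk
    have hm : 1 + (f g - 1) = f g := by abel
    have h0 : f g - 1 = 0 := by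
      refine mat_p (s := k) (p := p) ?_ ?_ (by rw [hm]; exact hk)
      · intro i j
        have hev : ∀ᶠ k in Filter.atTop, (ρ g i j
          - (1 : Matrix (Fin n) (Fin n) R) i j) ^ k ∈ (I : Set R) :=
          (h1 i j).eventually (hI.mem_nhds I.zero_mem)
        obtain ⟨k, hk⟩ := hev.exists
        refine ⟨k, ?_⟩
        have h3 : (f g - 1) i j = q (ρ g i j - (1 : Matrix (Fin n) (Fin n) R) i j) := by
          rw [hf, ← map_one Q, ← map_sub]
          rfl
        rw [h3, ← map_pow]
        exact Ideal.Quotient.eq_zero_iff_mem.2 hk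
      · intro k i j
        have h3 : (f g - 1) i j = q (ρ g i j - (1 : Matrix (Fin n) (Fin n) R) i j) := by
          rw [hf, ← map_one Q, ← map_sub]
          rfl
        rw [h3]
        have := map_dvd q (h2 k i j)
        rw [map_pow, map_natCast] at this
        exact this
    refine (hker g).1 ?_
    rw [MonoidHom.mem_ker]
    exact sub_eq_zero.1 h0
  have hz : ∀ i j, ρ g i j - (1 : Matrix (Fin n) (Fin n) R) i j = 0 := by
    intro i j
    by_contra hne
    obtain ⟨I, hI, hsub⟩ := (IsLinearTopology.hasBasis_open_ideal (R := R)).mem_iff.1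
      (isOpen_compl_singleton.mem_nhds (x := (0 : R)) (Ne.symm hne))
    exact hsub (main I hI i j) rfl
  ext i j
  exact sub_eq_zero.1 (hz i j)

end divis

end MP35
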