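import Pool.Agent.Lib_MP_3538b5_al.RDefs
import Pool.Agent.Lib_MP_3538b5_al.RLoc
import Pool.Agent.Lib_MP_3538b5_al.RInitA

/-! # Piece RFINOVER: finiteness over a closed subring -/

set_option autoImplicit false

namespace MP35

universe u v w

/-- PROOF. The ideal generated by `X` in the noetherian ring `T` is generated by finitely many elements `x_i` of `X`. Let `J = (p, x_i)`. Every prime ideal containing `J` contains the maximal ideal `m` of `T` (RLOC: `T` is local, `m` is the
set of topologically nilpotent elements), so `m` is contained in the radical of `J` and `m ^ N ≤ J` (noetherian); `m ^ N` is open (`T ⧸ m ^ N` is finite: `m` is open and finitely generated), so `T ⧸ J` is finite. `S` is noetherian by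
`noeth_closureP`. Let `t_1..t_r` represent `T ⧸ J` and `M = Σ S t_i`, a compact (closed) subgroup of `T`. `T = M + J T`, and `J T` is the sum of the `s T`, `s = p, x_i ∈ S`, `s M ≤ M`; so `T = M + J ^ k T` for all `k`, and `J ^ k` is contained in any given open ideal for large `k`
(finitely many topologically nilpotent generators). So `M` is dense and closed. -/
theorem finite_over {p : ℕ} [Fact p.Prime] {T : Type v} [CommRing T] [TopologicalSpace T] [CNR T]
    [IsDomain T] (hp : IsTopologicallyNilpotent (p : T)) (X : Set T)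
    (hX : ∀ x ∈ X, IsTopologicallyNilpotent x)
    (hprime : ∀ Q : Ideal T, Q.IsPrime → (p : T) ∈ Q → X ⊆ Q →
      ∀ t : T, IsTopologicallyNilpotent t → t ∈ Q) :
    ∃ (m : ℕ) (x : Fin m → T), (∀ i, x i ∈ X) ∧
      IsNoetherianRing (Subring.closure (Set.range x)).topologicalClosure ∧
      Module.Finite (Subring.closure (Set.range x)).topologicalClosure T := by
  classical
  obtain ⟨F, hFX, hF⟩ := (Submodule.fg_span_iff_fg_span_finset_subset (R := T) X).1
    (IsNoetherian.noetherian _)
  let e := F.equivFin
  let x : Fin F.card → T := fun i => (e.symm i : T)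
  have hxF : Set.range x = (F : Set T) := by
    ext y
    constructor
    · rintro ⟨i, rfl⟩
      exact (e.symm i).2
    · intro hy
      exact ⟨e ⟨y, hy⟩, by simp [x]⟩
  have hxX : ∀ i, x i ∈ X := fun i => hFX (e.symm i).2
  refine ⟨F.card, x, hxX, noeth_closureP hp x fun i => hX _ (hxX i), ?_⟩
  set S := (Subring.closure (Set.range x)).topologicalClosure with hS
  have hScl : IsClosed (S : Set T) := Subring.isClosed_topologicalClosure _
  have : CompactSpace S := isCompact_iff_compactSpace.1 hScl.isCompact
  have hxS : ∀ i, x i ∈ S := fun i =>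
    Subring.le_topologicalClosure _ (Subring.subset_closure ⟨i, rfl⟩)
  -- the ideal `J`
  let F' : Set T := insert (p : T) (Set.range x)
  let J : Ideal T := Ideal.span F'
  have hF'fin : F'.Finite := (Set.finite_range x).insert _
  have hF'S : ∀ s ∈ F', s ∈ S := by
    rintro s (rfl | ⟨i, rfl⟩)
    · exact natCast_mem _ p
    · exact hxS i
  have hF'tn : ∀ s ∈ F', IsTopologicallyNilpotent s := by
    rintro s (rfl | ⟨i, rfl⟩)
    · exact hp
    · exact hX _ (hxX i)
  have hJfg : J.FG := ⟨hF'fin.toFinset, by simp [J]⟩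
  have : IsLocalRing T := isLocalRing_of_cnr T
  -- `T ⧸ J` is finite
  have hrad : IsLocalRing.maximalIdeal T ≤ J.radical := by
    rw [Ideal.radical_eq_sInf]
    refine le_sInf ?_
    rintro Q ⟨hJQ, hQ⟩ t ht
    refine hprime Q hQ (hJQ (Ideal.subset_span (Set.mem_insert _ _))) ?_ t
      (mem_maximalIdeal_iff.1 ht)
    intro y hy
    have h1 : Ideal.span X ≤ Q := by
      change Submodule.span T X ≤ Q
      rw [hF, Submodule.span_le, ← hxF]
      rintro _ ⟨i, rfl⟩
      exact hJQ (Ideal.subset_span (Set.mem_insert_of_mem _ ⟨i, rfl⟩))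
    exact h1 (Ideal.subset_span hy)
  obtain ⟨N, hN⟩ := Ideal.exists_pow_le_of_le_radical_of_fg hrad (IsNoetherian.noetherian _)
  have : Finite (T ⧸ IsLocalRing.maximalIdeal T) :=
    IsLocalRing.finite_residueField_of_compactSpace (R := T)
  have : Finite (T ⧸ IsLocalRing.maximalIdeal T ^ N) :=
    Ideal.finite_quotient_pow (IsNoetherian.noetherian _) N
  have : Finite (T ⧸ J) :=
    Finite.of_surjective (Ideal.Quotient.factor hN) (Ideal.Quotient.factor_surjective hN)
  have : Fintype (T ⧸ J) := Fintype.ofFinite _
  -- representatives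
  let t : T ⧸ J → T := fun q => Function.surjInv Ideal.Quotient.mk_surjective q
  have ht : ∀ q, Ideal.Quotient.mk J (t q) = q := fun q =>
    Function.surjInv_eq Ideal.Quotient.mk_surjective q
  let M : Submodule S T := Submodule.span S (Set.range t)
  have hM1 : ∀ y : T, ∃ m ∈ M, y - m ∈ J := by
    intro y
    refine ⟨t (Ideal.Quotient.mk J y), Submodule.subset_span ⟨_, rfl⟩, ?_⟩
    rw [← Ideal.Quotient.eq, ht]
  have hMk : ∀ k : ℕ, ∀ y : T, ∃ m ∈ M, y - m ∈ J ^ k := by
    intro k
    induction k with
    | zero => exact fun y => ⟨0, M.zero_mem, by simp⟩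
    | succ k ih =>
      have hJk : ∀ j ∈ J, ∀ u : T, ∃ m ∈ M, u * j - m ∈ J ^ (k + 1) := by
        intro j hj
        refine Submodule.span_induction (p := fun j _ => ∀ u : T, ∃ m ∈ M, u * j - m ∈ J ^ (k + 1))
          ?_ ?_ ?_ ?_ hj
        · intro s hs u
          obtain ⟨m, hm, hum⟩ := ih u
          refine ⟨(⟨s, hF'S s hs⟩ : S) • m, M.smul_mem _ hm, ?_⟩
          have e1 : u * s - (⟨s, hF'S s hs⟩ : S) • m = (u - m) * s := by
            change u * s - s * m = (u - m) * s
            ring
          rw [e1, pow_succ]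
          exact Ideal.mul_mem_mul hum (Ideal.subset_span hs)
        · intro u
          exact ⟨0, M.zero_mem, by simp⟩
        · intro y z _ _ hy hz u
          obtain ⟨m, hm, h1⟩ := hy u
          obtain ⟨m', hm', h2⟩ := hz u
          refine ⟨m + m', M.add_mem hm hm', ?_⟩
          have e1 : u * (y + z) - (m + m') = (u * y - m) + (u * z - m') := by ring
          rw [e1]
          exact add_mem h1 h2
        · intro a y _ hy u
          obtain ⟨m, hm, h1⟩ := hy (u * a)
          refine ⟨m, hm, ?_⟩
          rw [smul_eq_mul, ← mul_assoc]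
          exact h1
      intro y
      obtain ⟨m, hm, h1⟩ := hM1 y
      obtain ⟨m', hm', h2⟩ := hJk _ h1 1
      refine ⟨m + m', M.add_mem hm hm', ?_⟩
      have e1 : y - (m + m') = 1 * (y - m) - m' := by ring
      rw [e1]
      exact h2
  -- `M` is closed
  have hMcl : IsClosed (M : Set T) := by
    have h1 : (M : Set T) = Set.range (fun c : T ⧸ J → S => ∑ q, c q • t q) := by
      ext y
      rw [SetLike.mem_coe, Submodule.mem_span_range_iff_exists_fun]
      rfl
    rw [h1]
    refine (isCompact_range ?_).isClosed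
    refine continuous_finsetSum _ fun q _ => ?_
    change Continuous fun c : T ⧸ J → S => ((c q : S) : T) * t q
    exact (continuous_subtype_val.comp (continuous_apply q)).mul continuous_const
  -- `M` is dense
  have hMtop : M = ⊤ := by
    rw [eq_top_iff]
    intro y _
    change y ∈ (M : Set T)
    rw [← hMcl.closure_eq, mem_closure_iff_nhds]
    intro U hU
    have hU' : (fun z : T => y + z) ⁻¹' U ∈ nhds (0 : T) := by
      have hc : Continuous fun z : T => y + z := by fun_prop
      apply hc.continuousAt.preimage_mem_nhds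
      rwa [add_zero]
    obtain ⟨I, hI, hIU⟩ := (IsLinearTopology.hasBasis_open_ideal (R := T)).mem_iff.1 hU'
    have hJI : J ≤ I.radical := by
      refine Ideal.span_le.2 fun s hs => ?_
      obtain ⟨k, hk⟩ := (hF'tn s hs).exists_pow_mem_of_mem_nhds (hI.mem_nhds I.zero_mem)
      exact ⟨k, hk⟩
    obtain ⟨k, hk⟩ := Ideal.exists_pow_le_of_le_radical_of_fg hJI hJfg
    obtain ⟨m, hm, hym⟩ := hMk k y
    refine ⟨m, ?_, hm⟩
    have h2 : m - y ∈ I := by
      rw [← neg_sub]
      exact I.neg_mem (hk hym)
    have h3 := hIU h2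
    have h4 : y + (m - y) = m := by ring
    change y + (m - y) ∈ U at h3
    rwa [h4] at h3
  refine ⟨?_⟩
  rw [← hMtop]
  exact Submodule.fg_span (Set.finite_range t)

end MP35
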