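import Pool.Agent.Lib_MP_3538b5_al.LemE
import Pool.Agent.Lib_MP_3538b5_al.RInt
import Pool.Agent.Lib_MP_3538b5_al.RVal
import Pool.Agent.Lib_MP_3538b5_al.RFinOver
import Pool.Agent.Lib_MP_3538b5_al.RFaith
import Pool.Agent.Lib_MP_3538b5_al.FDefs

/-!
# Lemma E: valuations, finiteness over the scalars of a faithful factor

* `Rep.pow_mem`: if `det ρ g = 1`, for every eigenvalue `l` of `ρ g` some power `l ^ (n * p ^ m)` is in
  the group generated by the eigenvalues of `Ad g` on `B / B'`.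
* `Rep.unip_of_evQ`: if all eigenvalues on `B / B'` are `1` modulo the maximal ideal of a valuation ring
  containing `T`, of residue characteristic `p`, then `R.Unip O`.
* `Rep.finite_of_evQ`: a finite `T`-subalgebra `T'` of `Ω` is finite over the closed ring generated by a
  set which detects the eigenvalues on `B / B'` (for example the characteristic coefficients).
* `MCore` versions.
-/

set_option autoImplicit false

namespace MP35

universe u v w

section det

variable {p : ℕ} [hp : Fact p.Prime] {G : Type u} [Group G] [TopologicalSpace G]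
  [IsTopologicalGroup G] [CompactSpace G] [T2Space G] [TotallyDisconnectedSpace G] {T : Type v}
  [CommRing T] [TopologicalSpace T] [CNR T] {Ω : Type v} [Field Ω] [Algebra T Ω] {n : ℕ}

theorem Rep.pow_mem [IsDomain T] [IsAlgClosed Ω] (nmin : ∀ m, HasRep.{u, v} p m → n ≤ m)
    (hG : PF p G) (R : Rep p G T Ω n) (alg : Algebra.IsAlgebraic T Ω)
    (hdeep : ∀ c : T, c ≠ 0 → ∃ h ∈ R.NI (Ideal.span {c}), h ≠ 1)
    {B' B : Submodule Ω (Matrix (Fin n) (Fin n) Ω)} (hle : B' ≤ B) (hB : R.Stable B)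
    (hB' : R.Stable B') (hf : R.FaithQ B' B) {g : G} (hdet : (R.ρ g).det = 1) {l : Ωˣ}
    (hl : (R.ρ g).charpoly.IsRoot (l : Ω)) :
    ∃ m : ℕ, l ^ (n * p ^ m) ∈ Subgroup.closure {u : Ωˣ | R.EvQ B' B g u} := by
  classical
  set Y := Subgroup.closure {u : Ωˣ | R.EvQ B' B g u} with hY
  have key : ∀ s : Multiset Ω, (∀ x ∈ s, (R.ρ g).charpoly.IsRoot x) →
      ∃ m : ℕ, ∃ u ∈ Y, (u : Ω) * s.prod ^ p ^ m = (l : Ω) ^ (Multiset.card s * p ^ m) := by
    intro s
    induction s using Multiset.induction_on with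
    | empty =>
      intro _
      exact ⟨0, 1, one_mem _, by simp⟩
    | cons x s ih =>
      intro hs
      obtain ⟨m₁, u₁, hu₁, h1⟩ := ih fun x hx => hs x (Multiset.mem_cons_of_mem hx)
      have hx := hs x (Multiset.mem_cons_self x s)
      have hx0 := R.root_ne_zero hx
      obtain ⟨m₂, h2⟩ := R.quot_mem nmin hG alg hdeep hle hB hB' hf hl (l' := Units.mk0 x hx0) hx
      refine ⟨m₁ + m₂, u₁ ^ p ^ m₂ * ((l / Units.mk0 x hx0) ^ p ^ m₂) ^ p ^ m₁,
        mul_mem (_root_.pow_mem hu₁ _) (_root_.pow_mem h2 _), ?_⟩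
      have h3 : ((l / Units.mk0 x hx0 : Ωˣ) : Ω) * x = l := by
        rw [Units.val_div_eq_div_val, Units.val_mk0, div_mul_cancel₀ _ hx0]
      rw [Units.val_mul, Units.val_pow_eq_pow_val, Units.val_pow_eq_pow_val,
        Units.val_pow_eq_pow_val, Multiset.prod_cons, Multiset.card_cons]
      calc (u₁ : Ω) ^ p ^ m₂ * (((l / Units.mk0 x hx0 : Ωˣ) : Ω) ^ p ^ m₂) ^ p ^ m₁ *
            (x * s.prod) ^ p ^ (m₁ + m₂)
          = ((u₁ : Ω) * s.prod ^ p ^ m₁) ^ p ^ m₂ *
            (((l / Units.mk0 x hx0 : Ωˣ) : Ω) * x) ^ p ^ (m₁ + m₂) := by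
              rw [pow_add, mul_pow, mul_pow, mul_pow, ← pow_mul, ← pow_mul,
                mul_comm (p ^ m₂) (p ^ m₁)]
              ring
        _ = _ := by
              rw [h1, h3, ← pow_mul, ← pow_add]
              congr 1
              rw [pow_add]
              ring
  obtain ⟨m, u, hu, h1⟩ := key (R.ρ g).charpoly.roots fun x hx =>
    (Polynomial.mem_roots (Matrix.charpoly_monic _).ne_zero).1 hx
  refine ⟨m, ?_⟩
  rw [← Matrix.det_eq_prod_roots_charpoly, hdet, one_pow, mul_one] at h1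
  have hcard : Multiset.card (R.ρ g).charpoly.roots = n := by
    rw [Polynomial.splits_iff_card_roots.1 (IsAlgClosed.splits _), Matrix.charpoly_natDegree_eq_dim,
      Fintype.card_fin]
  rw [hcard] at h1
  have h2 : u = l ^ (n * p ^ m) := by
    apply Units.ext
    rw [h1, Units.val_pow_eq_pow_val]
  rw [← h2]
  exact hu

end det

section vals

/-- prime to `p` and `p`-power parts of a congruence -/
theorem sub_one_mem_of_pow_mem {L : Type v} [CommRing L] {P M : Ideal L} [hP : P.IsPrime]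
    (hM : M ≠ ⊤) (hPM : P ≤ M) {p : ℕ} [hp : Fact p.Prime] (hpP : (p : L) ∈ P) {x : L}
    (hx : x - 1 ∈ M) {k : ℕ} (hk : 0 < k) (h : x ^ k - 1 ∈ P) : x - 1 ∈ P := by
  obtain ⟨a, k', hk', rfl⟩ := Nat.exists_eq_pow_mul_and_not_dvd hk.ne' p hp.out.ne_one
  have hdom : IsDomain (L ⧸ P) := Ideal.Quotient.isDomain P
  have hp0 : (p : L ⧸ P) = 0 := by
    have := Ideal.Quotient.eq_zero_iff_mem.2 hpP
    rwa [map_natCast] at this
  haveI hchar : CharP (L ⧸ P) p := ringChar.of_eq (CharP.ringChar_of_prime_eq_zero hp.out hp0)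
  have h1 : (Ideal.Quotient.mk P x) ^ (p ^ a * k') = 1 := by
    have := Ideal.Quotient.eq_zero_iff_mem.2 h
    rwa [map_sub, map_one, map_pow, sub_eq_zero] at this
  have h2 : (Ideal.Quotient.mk P x) ^ k' = 1 :=
    (ExpChar.pow_prime_pow_mul_eq_one_iff p a k' _).1 h1
  have h3 : x ^ k' - 1 ∈ P := by
    rw [← Ideal.Quotient.eq_zero_iff_mem, map_sub, map_one, map_pow, h2, sub_self]
  have h4 : (x - 1) * ∑ i ∈ Finset.range k', x ^ i ∈ P := by
    rw [mul_geom_sum]
    exact h3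
  rcases hP.mem_or_mem h4 with h5 | h5
  · exact h5
  · exfalso
    have h6 : (∑ i ∈ Finset.range k', x ^ i) - (k' : L) ∈ M := by
      have : ((∑ i ∈ Finset.range k', x ^ i) - (k' : L)) = ∑ i ∈ Finset.range k', (x ^ i - 1) := by
        rw [Finset.sum_sub_distrib]
        simp
      rw [this]
      refine Ideal.sum_mem _ fun i _ => ?_
      obtain ⟨y, hy⟩ := (by simpa using sub_dvd_pow_sub_pow x 1 i : x - 1 ∣ x ^ i - 1)
      rw [hy]
      exact Ideal.mul_mem_right _ _ hx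
    have h7 : (k' : L) ∈ M := by
      have := M.sub_mem (hPM h5) h6
      rwa [sub_sub_cancel] at this
    have hco : IsCoprime (k' : ℤ) (p : ℤ) :=
      Nat.isCoprime_iff_coprime.2 ((Nat.Prime.coprime_iff_not_dvd hp.out).2 hk').symm
    obtain ⟨b, c, hbc⟩ := hco
    apply hM
    rw [Ideal.eq_top_iff_one]
    have h8 := congrArg (fun z : ℤ => (z : L)) hbc
    push_cast at h8
    rw [← h8]
    exact M.add_mem (M.mul_mem_left _ h7) (M.mul_mem_left _ (hPM hpP))

variable {p : ℕ} [hp : Fact p.Prime] {G : Type u} [Group G] [TopologicalSpace G]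
  [IsTopologicalGroup G] [CompactSpace G] {T : Type v}
  [CommRing T] [TopologicalSpace T] [CNR T] [IsDomain T] {Ω : Type v} [Field Ω] [Algebra T Ω] {n : ℕ}

theorem Rep.sub_one_of_pow (hG : ProP p G) (R : Rep p G T Ω n) (O : ValuationSubring Ω)
    (hO : ∀ t : T, algebraMap T Ω t ∈ O) (hpO : (p : Ω) ∈ O.nonunits) {g : G} {l : Ω}
    (hl : (R.ρ g).charpoly.IsRoot l) {k : ℕ} (hk : 0 < k) (h : l ^ k - 1 ∈ O.nonunits) :
    l - 1 ∈ O.nonunits := by
  classical
  let L := integralClosure T Ω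
  have hloc := isLocalRing_of_cnr T
  have hLO : ∀ x : L, (x : Ω) ∈ O := fun x => mem_of_isIntegral O hO x.2
  let i : L →+* O := (L.val.toRingHom).codRestrict O.toSubring hLO
  let P : Ideal L := (IsLocalRing.maximalIdeal O).comap i
  have hPmem : ∀ x : L, x ∈ P ↔ (x : Ω) ∈ O.nonunits := by
    intro x
    rw [Ideal.mem_comap]
    exact (O.coe_mem_nonunits_iff (a := i x)).symm
  haveI hPp : P.IsPrime := Ideal.comap_isPrime _ _
  obtain ⟨M, hM, hPM⟩ := Ideal.exists_le_maximal P hPp.ne_top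
  have hlint : IsIntegral T l := R.isIntegral_root (R.j g).2 hl
  let x : L := ⟨l, hlint⟩
  haveI hMprime : M.IsPrime := hM.isPrime
  -- the valuation ring at `M`
  obtain ⟨O', hO', hO'M⟩ := exists_dominating (K := Ω) (T := L)
    (fun a b hab => Subtype.ext hab) M hMprime
  have hTO' : ∀ t : T, algebraMap T Ω t ∈ O' := fun t => hO' (algebraMap T L t)
  have hMT : (M.comap (algebraMap T L)).IsMaximal := Ideal.isMaximal_comap_of_isIntegral_of_isMaximal M
  have hMT' := IsLocalRing.eq_maximalIdeal hMT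
  have htn : ∀ t : T, IsTopologicallyNilpotent t → algebraMap T Ω t ∈ O'.nonunits := by
    intro t ht
    have h1 : t ∈ M.comap (algebraMap T L) := by
      rw [hMT']
      exact mem_maximalIdeal_iff.2 ht
    exact (hO'M _).2 h1
  have hunip := R.unip_of_maximal hG O' hTO' htn g l hl
  have hxM : x - 1 ∈ M := (hO'M (x - 1)).1 hunip
  have := sub_one_mem_of_pow_mem (P := P) (M := M) hM.ne_top hPM (p := p)
    ((hPmem _).2 (by simpa using hpO)) (x := x) hxM hk ((hPmem _).2 (by simpa using h))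
  exact (hPmem (x - 1)).1 this

theorem Rep.unip_of_pow (hG : ProP p G) (R : Rep p G T Ω n) (O : ValuationSubring Ω)
    (hO : ∀ t : T, algebraMap T Ω t ∈ O) (hpO : (p : Ω) ∈ O.nonunits)
    (h : ∀ g l, (R.ρ g).charpoly.IsRoot l → ∃ e : ℕ, 0 < e ∧ l ^ e - 1 ∈ O.nonunits) : R.Unip O := by
  intro g l hl
  obtain ⟨e, he, h1⟩ := h g l hl
  exact R.sub_one_of_pow hG O hO hpO hl he h1

end vals

section unip

variable {p : ℕ} [hp : Fact p.Prime] {G : Type u} [Group G] [TopologicalSpace G]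
  [IsTopologicalGroup G] [CompactSpace G] [T2Space G] [TotallyDisconnectedSpace G] {T : Type v}
  [CommRing T] [TopologicalSpace T] [CNR T] {Ω : Type v} [Field Ω] [Algebra T Ω] {n : ℕ}

/-- **Lemma E, valuations.** -/
theorem Rep.unip_of_evQ [IsDomain T] [IsAlgClosed Ω] (nmin : ∀ m, HasRep.{u, v} p m → n ≤ m)
    (hG : PF p G) (R : Rep p G T Ω n) (alg : Algebra.IsAlgebraic T Ω)
    (hdeep : ∀ c : T, c ≠ 0 → ∃ h ∈ R.NI (Ideal.span {c}), h ≠ 1)
    {B' B : Submodule Ω (Matrix (Fin n) (Fin n) Ω)} (hle : B' ≤ B) (hB : R.Stable B)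
    (hB' : R.Stable B') (hf : R.FaithQ B' B) (hdet : ∀ g, (R.ρ g).det = 1)
    (O : ValuationSubring Ω) (hO : ∀ t : T, algebraMap T Ω t ∈ O) (hpO : (p : Ω) ∈ O.nonunits)
    (hev : ∀ g μ, R.EvQ B' B g μ → μ - 1 ∈ O.nonunits) : R.Unip O := by
  intro g l hl
  have hl0 := R.root_ne_zero hl
  obtain ⟨m, hm⟩ := R.pow_mem nmin hG alg hdeep hle hB hB' hf (hdet g) (l := Units.mk0 l hl0) hl
  have h1 : Subgroup.closure {u : Ωˣ | R.EvQ B' B g u} ≤ O.principalUnitGroup := by
    rw [Subgroup.closure_le]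
    intro u hu
    rw [SetLike.mem_coe, ValuationSubring.mem_principalUnitGroup_iff]
    exact O.mem_nonunits_iff.1 (hev g u hu)
  have h2 := (O.mem_principalUnitGroup_iff _).1 (h1 hm)
  rw [Units.val_pow_eq_pow_val, Units.val_mk0] at h2
  have hn : 0 < n := by
    rcases Nat.eq_zero_or_pos n with rfl | h
    · exfalso
      have h3 : (R.ρ g).charpoly = 1 := by
        rw [Matrix.charpoly, Matrix.det_isEmpty]
      rw [h3, Polynomial.IsRoot, Polynomial.eval_one] at hl
      exact one_ne_zero hl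
    · exact h
  exact R.sub_one_of_pow hG.proP O hO hpO hl (Nat.mul_pos hn (pow_pos hp.out.pos m))
    (O.mem_nonunits_iff.2 h2)

/-- the eigenvalues on factors are `1` for valuations at which `G` is unipotent -/
theorem Rep.Unip.evQ [IsAlgClosed Ω] {R : Rep p G T Ω n} {O : ValuationSubring Ω} (h : R.Unip O)
    {B' B : Submodule Ω (Matrix (Fin n) (Fin n) Ω)} (hB' : R.Stable B') {g : G} {μ : Ω}
    (hμ : R.EvQ B' B g μ) : μ - 1 ∈ O.nonunits := by
  obtain ⟨l, h1, h2⟩ := hμ.exists_ratio hB'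
  have hl0 := R.root_ne_zero h1
  have hμ0 := hμ.ne_zero hB'
  have e1 : Units.mk0 l hl0 ∈ O.principalUnitGroup :=
    (O.mem_principalUnitGroup_iff _).2 (O.mem_nonunits_iff.1 (h g l h1))
  have e2 : Units.mk0 μ hμ0 * Units.mk0 l hl0 ∈ O.principalUnitGroup :=
    (O.mem_principalUnitGroup_iff _).2 (O.mem_nonunits_iff.1 (h g _ h2))
  have e3 := O.principalUnitGroup.div_mem e2 e1
  rw [mul_div_cancel_right] at e3
  exact O.mem_nonunits_iff.2 ((O.mem_principalUnitGroup_iff _).1 e3)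

end unip

section fin

variable {p : ℕ} [hp : Fact p.Prime] {G : Type u} [Group G] [TopologicalSpace G]
  [IsTopologicalGroup G] [CompactSpace G] [T2Space G] [TotallyDisconnectedSpace G] {T : Type v}
  [CommRing T] [TopologicalSpace T] [CNR T] [IsDomain T] {Ω : Type v} [Field Ω] [IsAlgClosed Ω]
  [Algebra T Ω] {n : ℕ}

omit [IsAlgClosed Ω] [T2Space G] [TotallyDisconnectedSpace G] in
/-- elements of `T'` which are not units at all valuation rings where `G` is unipotent are topologically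
nilpotent -/
theorem Rep.tn_of_unip (hG : ProP p G) (R : Rep p G T Ω n) {T' : Subalgebra T Ω}
    [Module.Finite T T'] [TopologicalSpace T'] [IsModuleTopology T T'] {x : T'}
    (hx : ∀ O : ValuationSubring Ω, (∀ t : T, algebraMap T Ω t ∈ O) → (p : Ω) ∈ O.nonunits →
      R.Unip O → (x : Ω) ∈ O.nonunits) : IsTopologicallyNilpotent x := by
  haveI hcnr : CNR T' := cnr_of_finite T T'
  have hloc := isLocalRing_of_cnr T'
  rcases isUnit_or_tn x with h | h
  · exfalso
    obtain ⟨O, hO, hOM⟩ := exists_dominating (K := Ω) (T := T') (fun a b hab => Subtype.ext hab)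
      (IsLocalRing.maximalIdeal T') inferInstance
    have hcont : Continuous (algebraMap T T') := IsModuleTopology.continuous_of_linearMap
      (Algebra.linearMap T T')
    have h1 : R.Unip O := R.unip_of_maximal hG O (fun t => hO (algebraMap T T' t)) fun t ht =>
      (hOM _).2 (mem_maximalIdeal_iff.2 (ht.map hcont))
    have hpO : (p : Ω) ∈ O.nonunits := by
      have h3 : (p : T') ∈ IsLocalRing.maximalIdeal T' := by
        have := R.pnil.map hcont
        rw [map_natCast] at this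
        exact mem_maximalIdeal_iff.2 this
      simpa using (hOM (p : T')).2 h3
    have h2 := (hOM x).1 (hx O (fun t => hO (algebraMap T T' t)) hpO h1)
    exact h2 h
  · exact h

/-- finiteness over a closed ring generated by a set which detects unipotence of `G` -/
theorem Rep.finite_of_unip (hG : ProP p G) (R : Rep p G T Ω n) (hfull : R.Full)
    {T' : Subalgebra T Ω} [Module.Finite T T'] [TopologicalSpace T'] [IsModuleTopology T T']
    [CNR T'] (X : Set T')
    (hX : ∀ O : ValuationSubring Ω, (∀ t : T, algebraMap T Ω t ∈ O) → (p : Ω) ∈ O.nonunits →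
      R.Unip O → ∀ x ∈ X, (x : Ω) ∈ O.nonunits)
    (hX' : ∀ O : ValuationSubring Ω, (∀ t : T, algebraMap T Ω t ∈ O) → (p : Ω) ∈ O.nonunits →
      (∀ x ∈ X, (x : Ω) ∈ O.nonunits) → R.Unip O) :
    (∀ x ∈ X, IsTopologicallyNilpotent x) ∧
    ∃ (m : ℕ) (x : Fin m → T'), (∀ i, x i ∈ X) ∧
      IsNoetherianRing (Subring.closure (Set.range x)).topologicalClosure ∧
      Module.Finite (Subring.closure (Set.range x)).topologicalClosure T' := by
  have hloc := isLocalRing_of_cnr T'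
  have hlocT := isLocalRing_of_cnr T
  have hcont : Continuous (algebraMap T T') := IsModuleTopology.continuous_of_linearMap
    (Algebra.linearMap T T')
  have htn : ∀ x ∈ X, IsTopologicallyNilpotent x := fun x hx =>
    R.tn_of_unip hG fun O hO hpO hU => hX O hO hpO hU x hx
  refine ⟨htn, finite_over (p := p) ?_ X htn ?_⟩
  · have := R.pnil.map hcont
    rwa [map_natCast] at this
  · intro Q hQ hpQ hXQ t ht
    obtain ⟨O, hO, hOQ⟩ := exists_dominating (K := Ω) (T := T') (fun a b hab => Subtype.ext hab) Q hQ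
    have hTO : ∀ t : T, algebraMap T Ω t ∈ O := fun t => hO (algebraMap T T' t)
    have hpO : (p : Ω) ∈ O.nonunits := by
      have := (hOQ (p : T')).2 hpQ
      simpa using this
    have hU := hX' O hTO hpO fun x hx => (hOQ x).2 (hXQ hx)
    have hm := hfull O hTO hpO hU
    have h1 : Q.comap (algebraMap T T') = IsLocalRing.maximalIdeal T := by
      refine le_antisymm (IsLocalRing.le_maximalIdeal (Ideal.comap_ne_top _ hQ.ne_top)) fun s hs => ?_
      rw [Ideal.mem_comap]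
      exact (hOQ _).1 (hm s (mem_maximalIdeal_iff.1 hs))
    have h2 : Q.IsMaximal := by
      refine Ideal.isMaximal_of_isIntegral_of_isMaximal_comap (R := T) Q ?_
      rw [h1]
      infer_instance
    rw [IsLocalRing.eq_maximalIdeal h2]
    exact mem_maximalIdeal_iff.2 ht

/-- **Lemma E, finiteness.** `X` is a subset of the finite `T`-algebra `T'` which is in the maximal ideal
of a valuation ring `O` of residue characteristic `p` iff all eigenvalues of `G` on `B / B'` are `1` modulo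
this ideal: for example, the coefficients (without the leading one) of the characteristic polynomials of
`Ad g - 1` on `B / B'`. -/
theorem Rep.finite_of_evQ (nmin : ∀ m, HasRep.{u, v} p m → n ≤ m)
    (hG : PF p G) (R : Rep p G T Ω n) (alg : Algebra.IsAlgebraic T Ω) (hfull : R.Full)
    (hdeep : ∀ c : T, c ≠ 0 → ∃ h ∈ R.NI (Ideal.span {c}), h ≠ 1)
    {B' B : Submodule Ω (Matrix (Fin n) (Fin n) Ω)} (hle : B' ≤ B) (hB : R.Stable B)
    (hB' : R.Stable B') (hf : R.FaithQ B' B) (hdet : ∀ g, (R.ρ g).det = 1)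
    {T' : Subalgebra T Ω} [Module.Finite T T'] [TopologicalSpace T'] [IsModuleTopology T T']
    [CNR T'] (X : Set T')
    (hX : ∀ O : ValuationSubring Ω, (∀ t : T, algebraMap T Ω t ∈ O) → (p : Ω) ∈ O.nonunits →
      ((∀ x ∈ X, (x : Ω) ∈ O.nonunits) ↔ ∀ g μ, R.EvQ B' B g μ → μ - 1 ∈ O.nonunits)) :
    (∀ x ∈ X, IsTopologicallyNilpotent x) ∧
    ∃ (m : ℕ) (x : Fin m → T'), (∀ i, x i ∈ X) ∧
      IsNoetherianRing (Subring.closure (Set.range x)).topologicalClosure ∧
      Module.Finite (Subring.closure (Set.range x)).topologicalClosure T' := by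
  refine R.finite_of_unip hG.proP hfull X (fun O hO hpO hU => ?_) fun O hO hpO h => ?_
  · exact (hX O hO hpO).2 fun g μ hμ => hU.evQ hB' hμ
  · exact R.unip_of_evQ nmin hG alg hdeep hle hB hB' hf hdet O hO hpO ((hX O hO hpO).1 h)

end fin

/-! ### the core situation -/

namespace MCore

variable {p : ℕ} [hp : Fact p.Prime] {G : Type u} [Group G] [TopologicalSpace G]
  [IsTopologicalGroup G] [CompactSpace G] [T2Space G] [TotallyDisconnectedSpace G] {T : Type v}
  [CommRing T] [TopologicalSpace T] [CNR T] [IsDomain T] {Ω : Type v} [Field Ω] [IsAlgClosed Ω]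
  [Algebra T Ω] {n k : ℕ} {R : Rep p G T Ω n}

omit hp [CompactSpace G] [T2Space G] [TotallyDisconnectedSpace G] [IsDomain T] [IsAlgClosed Ω] in
theorem deep_top (hR : MCore R k) {c : T} (hc : c ≠ 0) : ∃ h ∈ R.NI (Ideal.span {c}), h ≠ 1 := by
  obtain ⟨x, y, hxy⟩ := hR.pf.nc
  have hfull : (R.res ⊤).Full := by
    intro O hO hpO hU
    exact hR.full O hO hpO fun g => hU ⟨g, trivial⟩
  obtain ⟨h, hh, h1⟩ := hR.deep ⊤ isClosed_univ ⟨x, trivial, y, trivial, hxy⟩ hfull c hc
  refine ⟨h, ?_, fun e => h1 (Subtype.ext e)⟩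
  obtain ⟨a, ha⟩ := (R.res ⊤).mem_NI_span.1 hh
  have hle : (R.res ⊤).A ≤ R.A :=
    Algebra.adjoin_mono (by rintro _ ⟨g, rfl⟩; exact ⟨g, rfl⟩)
  have h2 : ((R.res ⊤).j h : Matrix (Fin n) (Fin n) Ω) = 1 + c • (a : Matrix (Fin n) (Fin n) Ω) :=
    congrArg Subtype.val ha
  exact R.mem_NI_span.2 ⟨⟨a, hle a.2⟩, Subtype.ext h2⟩

variable (hR : MCore R k) (Φ : R.Fl) {i : ℕ} (hi : i < Φ.l) (hnt : ¬ Φ.Triv i)

omit hp [IsTopologicalGroup G] [CompactSpace G] [T2Space G] [TotallyDisconnectedSpace G] [CNR T]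
  [IsDomain T] [IsAlgClosed Ω] in
theorem _root_.MP35.Rep.Fl_stable (Φ : R.Fl) (i : ℕ) : R.Stable (Φ.W i) :=
  fun g w hw => Φ.stable _ ⟨g, rfl⟩ i w hw

include hR hi hnt

/-- nontrivial factors are faithful -/
theorem faithQ : R.FaithQ (Φ.W i) (Φ.W (i + 1)) := by
  intro g hg
  refine faithful_of_opt hR.pf R hR.opt hR.triv (B' := Φ.W i) (B := Φ.W (i + 1))
    (R.Fl_stable Φ i) (R.Fl_stable Φ (i + 1)) (Φ.lt i hi) (fun U h1 h2 h3 => ?_) ?_ g hg
  · refine Φ.simple i hi U ?_ h1 h2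
    rintro _ ⟨g, rfl⟩
    exact h3 g
  · by_contra hcon
    push Not at hcon
    apply hnt
    rintro _ ⟨g, rfl⟩ v hv
    rw [one_smul]
    exact hcon g v hv

/-- a power of the ratio of two eigenvalues is in the group generated by the eigenvalues on a
nontrivial factor -/
theorem quot_mem {g : G} {l l' : Ωˣ} (hl : (R.ρ g).charpoly.IsRoot (l : Ω))
    (hl' : (R.ρ g).charpoly.IsRoot (l' : Ω)) :
    ∃ m : ℕ, (l / l') ^ p ^ m ∈ Subgroup.closure {u : Ωˣ | R.EvQ (Φ.W i) (Φ.W (i + 1)) g u} :=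
  R.quot_mem hR.opt.nmin hR.pf hR.alg (fun _ hc => hR.deep_top hc) (Φ.mono (Nat.le_succ i))
    (R.Fl_stable Φ (i + 1)) (R.Fl_stable Φ i) (hR.faithQ Φ hi hnt) hl hl'

/-- a power of every eigenvalue is in the group generated by the eigenvalues on a nontrivial factor -/
theorem pow_mem {g : G} {l : Ωˣ} (hl : (R.ρ g).charpoly.IsRoot (l : Ω)) :
    ∃ m : ℕ, l ^ (n * p ^ m) ∈ Subgroup.closure {u : Ωˣ | R.EvQ (Φ.W i) (Φ.W (i + 1)) g u} :=
  R.pow_mem hR.opt.nmin hR.pf hR.alg (fun _ hc => hR.deep_top hc) (Φ.mono (Nat.le_succ i))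
    (R.Fl_stable Φ (i + 1)) (R.Fl_stable Φ i) (hR.faithQ Φ hi hnt) (hR.det g) hl

theorem unip_of_evQ (O : ValuationSubring Ω) (hO : ∀ t : T, algebraMap T Ω t ∈ O)
    (hpO : (p : Ω) ∈ O.nonunits)
    (hev : ∀ g μ, R.EvQ (Φ.W i) (Φ.W (i + 1)) g μ → μ - 1 ∈ O.nonunits) : R.Unip O :=
  R.unip_of_evQ hR.opt.nmin hR.pf hR.alg (fun _ hc => hR.deep_top hc) (Φ.mono (Nat.le_succ i))
    (R.Fl_stable Φ (i + 1)) (R.Fl_stable Φ i) (hR.faithQ Φ hi hnt) hR.det O hO hpO hev

/-- **Lemma E, finiteness**, for a nontrivial factor of a flag. -/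
theorem finite_of_evQ {T' : Subalgebra T Ω} [Module.Finite T T'] [TopologicalSpace T']
    [IsModuleTopology T T'] [CNR T'] (X : Set T')
    (hX : ∀ O : ValuationSubring Ω, (∀ t : T, algebraMap T Ω t ∈ O) → (p : Ω) ∈ O.nonunits →
      ((∀ x ∈ X, (x : Ω) ∈ O.nonunits) ↔
        ∀ g μ, R.EvQ (Φ.W i) (Φ.W (i + 1)) g μ → μ - 1 ∈ O.nonunits)) :
    (∀ x ∈ X, IsTopologicallyNilpotent x) ∧
    ∃ (m : ℕ) (x : Fin m → T'), (∀ i, x i ∈ X) ∧
      IsNoetherianRing (Subring.closure (Set.range x)).topologicalClosure ∧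
      Module.Finite (Subring.closure (Set.range x)).topologicalClosure T' :=
  R.finite_of_evQ hR.opt.nmin hR.pf hR.alg hR.full (fun _ hc => hR.deep_top hc)
    (Φ.mono (Nat.le_succ i)) (R.Fl_stable Φ (i + 1)) (R.Fl_stable Φ i) (hR.faithQ Φ hi hnt) hR.det
    X hX

omit hi hnt in
/-- **Lemma E** for a simple nontrivial factor `B / B'`. -/
theorem _root_.MP35.Rep.unip_of_factor {B' B : Submodule Ω (Matrix (Fin n) (Fin n) Ω)}
    (hB' : ∀ g, ∀ x ∈ B', R.Ad g x ∈ B') (hB : ∀ g, ∀ x ∈ B, R.Ad g x ∈ B) (hlt : B' < B)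
    (hsimple : ∀ U : Submodule Ω (Matrix (Fin n) (Fin n) Ω), B' ≤ U → U ≤ B →
      (∀ g, ∀ x ∈ U, R.Ad g x ∈ U) → U = B' ∨ U = B)
    (hnt : ∃ g, ∃ x ∈ B, R.Ad g x - x ∉ B') (O : ValuationSubring Ω)
    (hO : ∀ t : T, algebraMap T Ω t ∈ O) (hp : (p : Ω) ∈ O.nonunits)
    (h : ∀ g μ, (∃ x ∈ B, x ∉ B' ∧ R.Ad g x - μ • x ∈ B') → μ - 1 ∈ O.nonunits) : R.Unip O :=
  R.unip_of_evQ hR.opt.nmin hR.pf hR.alg (fun _ hc => hR.deep_top hc) hlt.le hB hB'
    (fun g hg => faithful_of_opt hR.pf R hR.opt hR.triv hB' hB hlt hsimple hnt g hg) hR.det O hO hp h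

end MCore

end MP35
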