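import Pool.Agent.Lib_MP_3538b5_al.FPlus
import Pool.Agent.Lib_MP_3538b5_al.LemV

/-!
# Layer F: the rings of scalars of the families

Owner: helper99.
-/

set_option autoImplicit false
set_option linter.unusedSectionVars false

namespace MP35

universe u v w

/-- a finite product of topologically nilpotent elements -/
theorem tn_pi {J : Type} {A : Type v} [CommRing A] [TopologicalSpace A] {s : J → A}
    (h : ∀ j, IsTopologicallyNilpotent (s j)) : IsTopologicallyNilpotent s := by
  rw [IsTopologicallyNilpotent, tendsto_pi_nhds]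
  intro j
  exact h j

theorem tn_subtype {A : Type v} [CommRing A] [TopologicalSpace A] {S : Subring A} {s : S}
    (h : IsTopologicallyNilpotent (s : A)) : IsTopologicallyNilpotent s := by
  rw [IsTopologicallyNilpotent, tendsto_subtype_rng]
  exact h

theorem tn_coe {A : Type v} [CommRing A] [TopologicalSpace A] {S : Subring A} {s : S}
    (h : IsTopologicallyNilpotent s) : IsTopologicallyNilpotent (s : A) :=
  h.map (φ := S.subtype) continuous_subtype_val

namespace Rep

variable {p : ℕ} [Fact p.Prime] {G : Type u} [Group G] [TopologicalSpace G] [IsTopologicalGroup G]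
  [CompactSpace G] [T2Space G] [TotallyDisconnectedSpace G] {T : Type v} [CommRing T]
  [TopologicalSpace T] [CNR T] [IsDomain T] {Ω : Type v} [Field Ω] [IsAlgClosed Ω] [Algebra T Ω]
  {n : ℕ} {R : Rep p G T Ω n}

section det

variable {T' : Subalgebra T Ω} [Module.Finite T T'] [TopologicalSpace T'] [IsModuleTopology T T']
  [CNR T']

/-- the characteristic coefficients of one factor -/
def coefSet (T' : Subalgebra T Ω) (R : Rep p G T Ω n) (Φ : R.Fl) {i : ℕ} (hi : i < Φ.l) {d : ℕ}
    (hd : Φ.dim i = d) : Set T' :=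
  {t | ∃ y ∈ R.plusSet, ∃ m : ℕ, m < d ^ 2 ∧
    (t : Ω) = (LinearMap.mulLeft Ω (R.blk Φ hi hd y)).charpoly.coeff m}

/-- roots of the characteristic polynomial of `x - 1` -/
theorem isRoot_sub_one' {K : Type v} [Field K] {m : ℕ} (x : Matrix (Fin m) (Fin m) K) (μ : K) :
    (x - 1).charpoly.IsRoot (μ - 1) ↔ x.charpoly.IsRoot μ := by
  rw [Polynomial.IsRoot.def, Polynomial.IsRoot.def, Matrix.eval_charpoly, Matrix.eval_charpoly]
  have e : Matrix.scalar (Fin m) (μ - 1) - (x - 1) = Matrix.scalar (Fin m) μ - x := by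
    rw [map_sub, map_one]
    abel
  rw [e]

theorem coefSet_finite {k : ℕ} (hR : MCore R k) (Φ : R.Fl) {i : ℕ} (hi : i < Φ.l)
    (hnt : ¬ Φ.Triv i) {d : ℕ} (hd : Φ.dim i = d)
    (hT' : ∀ y : R.B, ∀ m, (LinearMap.mulLeft Ω (R.blk Φ hi hd y)).charpoly.coeff m ∈ T') :
    ∃ (m : ℕ) (x : Fin m → T'), (∀ j, x j ∈ coefSet T' R Φ hi hd) ∧
      IsNoetherianRing (Subring.closure (Set.range x)).topologicalClosure ∧
      Module.Finite (Subring.closure (Set.range x)).topologicalClosure T' := by
  refine (hR.finite_of_evQ Φ hi hnt (coefSet T' R Φ hi hd) ?_).2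
  intro O hO hpO
  constructor
  · intro h g μ hμ
    have h1 : (R.blk Φ hi hd (R.jB g)).charpoly.IsRoot μ := (R.blk_root Φ hi hd _ _).2 hμ
    have e1 : R.blk Φ hi hd (R.jB g - 1) = R.blk Φ hi hd (R.jB g) - 1 := by
      have e2 : R.blk Φ hi hd (R.jB g - 1) = R.blk Φ hi hd (R.jB g) - R.blk Φ hi hd 1 :=
        map_sub (R.blk Φ hi hd) _ _
      rw [e2, map_one]
    have h2 : (LinearMap.mulLeft Ω (R.blk Φ hi hd (R.jB g - 1))).charpoly.IsRoot (μ - 1) := by
      rw [isRoot_mulLeft, e1, isRoot_sub_one']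
      exact h1
    refine root_mem_nonunits O (LinearMap.charpoly_monic _) (fun m hm => ?_) h2
    rw [charpoly_mulLeft_natDegree] at hm
    exact h ⟨_, hT' _ m⟩ ⟨R.jB g - 1, jB_sub_one_mem g, m, hm, rfl⟩
  · rintro h x ⟨y, hy, m, hm, e⟩
    obtain ⟨R', hR'⟩ := exists_blkRep hR Φ hi hnt hd
    have hU : R'.Unip O := by
      intro g μ hμ
      rw [hR'] at hμ
      exact h g μ ((R.blk_root Φ hi hd _ _).1 hμ)
    rw [e]
    refine coeff_mem_nonunits O (LinearMap.charpoly_monic _) (fun μ hμ => ?_)
      (by rwa [charpoly_mulLeft_natDegree])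
    refine R'.root_of_unip O hO hU ?_ ((isRoot_mulLeft _ _).1 hμ)
    refine Submodule.span_induction (fun z hz => ?_) ?_ (fun x y _ _ hx hy => ?_)
      (fun t x _ hx => ?_) hy.2
    · obtain ⟨g, rfl⟩ := hz
      refine Submodule.subset_span ⟨g, ?_⟩
      have e1 : R.blk Φ hi hd (R.jB g - 1) = R.blk Φ hi hd (R.jB g) - R.blk Φ hi hd 1 :=
        map_sub (R.blk Φ hi hd) _ _
      show R'.ρ g - 1 = R.blk Φ hi hd (R.jB g - 1)
      rw [e1, hR', map_one]
    · rw [map_zero]; exact zero_mem _
    · rw [map_add]; exact add_mem hx hy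
    · rw [map_smul]; exact Submodule.smul_mem _ _ hx

end det

/-- blocks of a family: equal dimensions and equal kernels on `CB` -/
structure FamBlk (R : Rep p G T Ω n) (Φ : R.Fl) (J : Type) where
  b : J → ℕ
  lt : ∀ j, b j < Φ.l
  nt : ∀ j, ¬ Φ.Triv (b j)
  d : ℕ
  dim : ∀ j, Φ.dim (b j) = d
  ker : ∀ i j, ∀ y ∈ R.CB, Φ.Acts (y : Module.End Ω (Matrix (Fin n) (Fin n) Ω)) (b i) 0 →
    Φ.Acts (y : Module.End Ω (Matrix (Fin n) (Fin n) Ω)) (b j) 0

namespace FamBlk

variable {Φ : R.Fl} {J : Type} [Finite J] (X : FamBlk R Φ J)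

/-- the matrix representations -/
noncomputable def π (j : J) : R.B →ₐ[T] Matrix (Fin X.d) (Fin X.d) Ω :=
  R.blk Φ (X.lt j) (X.dim j)

theorem π_zero (j : J) (y : R.B) : X.π j y = 0 ↔
    Φ.Acts (y : Module.End Ω (Matrix (Fin n) (Fin n) Ω)) (X.b j) 0 :=
  R.blk_eq_zero Φ (X.lt j) (X.dim j) y

theorem span (j : J) : Submodule.span Ω (X.π j '' (R.CB : Set R.B)) = ⊤ := by
  rw [eq_top_iff, ← R.blk_span Φ (X.lt j) (X.dim j)]
  refine Submodule.span_mono ?_
  rintro _ ⟨g, rfl⟩
  exact ⟨R.jB g, Subring.le_topologicalClosure _ (Subring.subset_closure ⟨g, rfl⟩), rfl⟩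

theorem d_pos (j : J) : 0 < X.d := R.blk_pos Φ (X.lt j) (X.dim j)

variable (T' : Subalgebra T Ω) [Module.Finite T T'] [TopologicalSpace T'] [IsModuleTopology T T']
  [CNR T']

/-- the ring of scalars of the family -/
noncomputable def S : Subring (J → T') := scRing T' X.π R.plusSet

theorem isClosed_S : IsClosed (X.S T' : Set (J → T')) := isClosed_scRing _ _ _

/-- the embeddings -/
noncomputable def φ (j : J) : X.S T' →+* T' := (Pi.evalRingHom (fun _ => T') j).comp (X.S T').subtype

theorem φ_apply (j : J) (s : X.S T') : X.φ T' j s = (s : J → T') j := rfl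

theorem φ_cont (j : J) : Continuous (X.φ T' j) :=
  (continuous_apply j).comp continuous_subtype_val

variable {T'}

theorem φ_inj (j : J) : Function.Injective (X.φ T' j) := by
  rw [injective_iff_map_eq_zero]
  intro s hs
  refine Subtype.ext (funext fun i => ?_)
  exact scRing_inj (X.d_pos j) R.CB R.isClosed_CB (fun y hy => hy.1)
    (fun y hy h => (X.π_zero i y).2 (X.ker j i y hy ((X.π_zero j y).1 h))) (X.span i) s.2 hs

section fin

variable {k : ℕ} (hR : MCore R k)
  (hT' : ∀ j, ∀ y : R.B, ∀ m, (LinearMap.mulLeft Ω (X.π j y)).charpoly.coeff m ∈ T')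

include hR hT'

/-- finitely many generators of a large closed subring -/
theorem exists_x (j : J) : ∃ (m : ℕ) (x : Fin m → X.S T'),
    (∀ i, IsTopologicallyNilpotent (x i)) ∧
    IsNoetherianRing (Subring.closure (Set.range fun i => X.φ T' j (x i))).topologicalClosure ∧
    Module.Finite (Subring.closure (Set.range fun i => X.φ T' j (x i))).topologicalClosure T' := by
  obtain ⟨m, x, hx, h1, h2⟩ := coefSet_finite (T' := T') hR Φ (X.lt j) (X.nt j) (X.dim j) (hT' j)
  have hx' : ∀ i, ∃ s : X.S T', X.φ T' j s = x i ∧ IsTopologicallyNilpotent s := by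
    intro i
    obtain ⟨y, hy, m, hm, e⟩ := hx i
    refine ⟨⟨fun j' => ⟨(LinearMap.mulLeft Ω (X.π j' y)).charpoly.coeff m, hT' j' y m⟩,
      tup_mem_scRing ⟨y, hy, m, hm, fun j' => rfl⟩⟩, Subtype.ext e.symm, ?_⟩
    refine tn_subtype (tn_pi fun j' => ?_)
    exact coef_tn hR Φ (X.lt j') (X.nt j') (X.dim j') hy hm rfl
  choose s hs hs' using hx'
  have e : (fun i => X.φ T' j (s i)) = x := funext hs
  exact ⟨m, s, hs', by rw [e]; exact h1, by rw [e]; exact h2⟩

theorem compactS : CompactSpace (X.S T') := by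
  have : CompactSpace (J → T') := inferInstance
  exact isCompact_iff_compactSpace.1 (X.isClosed_S T').isCompact

theorem noeth [Nonempty J] : IsNoetherianRing (X.S T') := by
  obtain ⟨j⟩ := ‹Nonempty J›
  obtain ⟨m, x, -, h1, h2⟩ := X.exists_x hR hT' j
  have := X.compactS hR hT'
  exact gen_noeth (X.φ T' j) (X.φ_cont T' j) x (X.φ_inj j) h1 h2

theorem φ_fin (j : J) : (X.φ T' j).Finite := by
  obtain ⟨m, x, -, h1, h2⟩ := X.exists_x hR hT' j
  have := X.compactS hR hT'
  exact gen_finite (X.φ T' j) (X.φ_cont T' j) x h2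

/-- all scalars are integers modulo topologically nilpotent elements -/
theorem sub_int (s : X.S T') : ∃ k : ℤ, IsTopologicallyNilpotent (s - (k : X.S T')) := by
  have hloc : IsLocalRing T' := isLocalRing_of_cnr T'
  set M := IsLocalRing.maximalIdeal T' with hM
  have hMcl : IsClosed (M : Set T') := CNR.closed_ideal M
  have hpM : (p : T') ∈ M := mem_maximalIdeal_iff.2 (tn_natCast T' R.pnil)
  let P : Subring (J → T') :=
    { carrier := {s | ∃ k : ℤ, ∀ j, s j - k ∈ M}
      mul_mem' := by
        rintro s t ⟨k, hk⟩ ⟨l, hl⟩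
        refine ⟨k * l, fun j => ?_⟩
        have e : (s * t) j - ((k * l : ℤ) : T') = (s j - k) * t j + k * (t j - l) := by
          rw [Pi.mul_apply]
          push_cast
          ring
        rw [e]
        exact M.add_mem (M.mul_mem_right _ (hk j)) (M.mul_mem_left _ (hl j))
      one_mem' := ⟨1, fun j => by simp⟩
      add_mem' := by
        rintro s t ⟨k, hk⟩ ⟨l, hl⟩
        refine ⟨k + l, fun j => ?_⟩
        have e : (s + t) j - ((k + l : ℤ) : T') = (s j - k) + (t j - l) := by
          rw [Pi.add_apply]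
          push_cast
          ring
        rw [e]
        exact M.add_mem (hk j) (hl j)
      zero_mem' := ⟨0, fun j => by simp⟩
      neg_mem' := by
        rintro s ⟨k, hk⟩
        refine ⟨-k, fun j => ?_⟩
        have e : (-s) j - ((-k : ℤ) : T') = -(s j - k) := by
          rw [Pi.neg_apply]
          push_cast
          ring
        rw [e]
        exact M.neg_mem (hk j) }
  have hPcl : IsClosed (P : Set (J → T')) := by
    have e : (P : Set (J → T')) = ⋃ k ∈ Finset.range p, {s : J → T' | ∀ j, s j - (k : T') ∈ M} := by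
      ext s
      simp only [Set.mem_iUnion, Finset.mem_range, exists_prop]
      constructor
      · rintro ⟨k, hk⟩
        have hp0 : (0 : ℤ) < p := by exact_mod_cast (Fact.out : p.Prime).pos
        have h1 := Int.emod_nonneg k hp0.ne'
        have h2 := Int.emod_lt_of_pos k hp0
        refine ⟨(k % p).toNat, by omega, fun j => ?_⟩
        have e1 : ((((k % p).toNat : ℕ) : ℤ) : T') = ((k % p : ℤ) : T') := by
          rw [Int.toNat_of_nonneg h1]
        have e2 : (k : T') = ((k % p : ℤ) : T') + (p : T') * ((k / p : ℤ) : T') := by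
          have h3 : ((k % p + p * (k / p) : ℤ) : T') = (k : T') := by
            rw [Int.emod_add_mul_ediv k p]
          rw [← h3]
          push_cast
          rfl
        have e3 : s j - (((k % p).toNat : ℕ) : T') = (s j - k) + (p : T') * ((k / p : ℤ) : T') := by
          have e4 : (((k % p).toNat : ℕ) : T') = ((k % p : ℤ) : T') := by
            rw [← e1, Int.cast_natCast]
          rw [e4, e2]
          ring
        show s j - (((k % p).toNat : ℕ) : T') ∈ M
        rw [e3]
        exact M.add_mem (hk j) (M.mul_mem_right _ hpM)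
      · rintro ⟨k, -, hk⟩
        exact ⟨k, fun j => by simpa using hk j⟩
    rw [e]
    refine Set.Finite.isClosed_biUnion (Finset.finite_toSet _) fun k _ => ?_
    have e2 : {s : J → T' | ∀ j, s j - (k : T') ∈ M} = ⋂ j, {s : J → T' | s j - (k : T') ∈ M} := by
      ext s
      simp
    rw [e2]
    refine isClosed_iInter fun j => hMcl.preimage ?_
    fun_prop
  have hS : X.S T' ≤ P := by
    refine Subring.topologicalClosure_minimal _ ?_ hPcl
    rw [Subring.closure_le]
    rintro t ⟨y, hy, m, hm, e⟩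
    refine ⟨0, fun j => ?_⟩
    rw [Int.cast_zero, sub_zero]
    exact mem_maximalIdeal_iff.2 (coef_tn hR Φ (X.lt j) (X.nt j) (X.dim j) hy hm (e j))
  obtain ⟨k, hk⟩ := hS s.2
  refine ⟨k, tn_subtype (tn_pi fun j => ?_)⟩
  have := mem_maximalIdeal_iff.1 (hk j)
  simpa using this

theorem gen [Nonempty J] : ∃ F : Finset (X.S T'), (∀ s ∈ F, IsTopologicallyNilpotent s) ∧
    (Subring.closure (F : Set (X.S T'))).topologicalClosure = ⊤ := by
  obtain ⟨j⟩ := ‹Nonempty J›
  obtain ⟨m, x, hx, h1, h2⟩ := X.exists_x hR hT' j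
  have := X.compactS hR hT'
  exact gen_gen (X.φ T' j) (X.φ_cont T' j) x (X.φ_inj j) h1 h2 hx (X.sub_int hR hT')

theorem infiniteS [Nonempty J] : Infinite (X.S T') := by
  obtain ⟨j⟩ := ‹Nonempty J›
  by_contra hfin
  rw [not_infinite_iff_finite] at hfin
  have h1 := X.φ_fin hR hT' j
  let _ := (X.φ T' j).toAlgebra
  have h2 : Module.Finite (X.S T') T' := h1
  have h3 : Finite T' := Module.finite_of_finite (X.S T')
  have h4 : Infinite T := infinite_of_rep hR.pf R
  have h5 : Function.Injective (algebraMap T T') := by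
    intro a b hab
    exact R.tinj (congrArg Subtype.val hab)
  exact h4.not_finite (Finite.of_injective _ h5)

end fin

end FamBlk

end Rep

end MP35
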