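import Pool.Agent.Lib_MP_3538b5_al.FFam

/-!
# Layer F: families (F2 and F3 of board notes 543, 544)

Owner: helper99.

For `i < Φ.l` nontrivial let `π i : CB → M_d(Ω)` be the `i`-th factor, `𝔭 i` its kernel. The family of `i` = all
nontrivial `j` with `𝔭 j = 𝔭 i`. Kernels are incomparable (FIncomp). `S` = closure of the ring generated by the
tuples of the characteristic coefficients of the left multiplications by `π j y`, `y` in the augmentation part of
`CB`, `j` in the family; members of the family get the same label iff the projections of `S` are equal.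
-/

set_option autoImplicit false
set_option linter.unusedSectionVars false

namespace MP35

universe u v w

namespace Rep

variable {p : ℕ} {G : Type u} [Group G] [TopologicalSpace G] [IsTopologicalGroup G]
  [CompactSpace G] [T2Space G] [TotallyDisconnectedSpace G] {T : Type v} [CommRing T]
  [TopologicalSpace T] [CNR T] [IsDomain T] {Ω : Type v} [Field Ω] [IsAlgClosed Ω] [Algebra T Ω]
  {n : ℕ} {R : Rep p G T Ω n}

/-- a complete system of blocks gives a family -/
theorem FamBlk.exists_fam [Fact p.Prime] {Φ : R.Fl} {J : Type} [Finite J] [Nonempty J]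
    (X : FamBlk R Φ J) (hb : Function.Injective X.b) {T' : Subalgebra T Ω}
    (hfin : Module.Finite T T') {k : ℕ} (hR : MCore R k)
    (hT' : ∀ j, ∀ y : R.B, ∀ m, (LinearMap.mulLeft Ω (X.π j y)).charpoly.coeff m ∈ T')
    (hX : X.Complete) :
    ∃ F : R.Fam Φ T', Infinite F.S ∧ Nonempty F.ι ∧
      ∀ i, F.lab i ≠ none ↔ ∃ j, X.b j = i := by
  classical
  let _ : TopologicalSpace T' := moduleTopology T T'
  have : IsModuleTopology T T' := ⟨rfl⟩
  have : CNR T' := cnr_of_finite T T'
  have hprod : CNR (J → T') := cnr_of_finite T (J → T')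
  have hnoeth : IsNoetherianRing (X.S T') := X.noeth hR hT'
  have hcnr : CNR (X.S T') := cnr_subring (X.S T') (X.isClosed_S T') hnoeth
  obtain ⟨j₀⟩ := ‹Nonempty J›
  have : Nonempty J := ⟨j₀⟩
  have hdom : IsDomain (X.S T') := (X.φ_inj j₀).isDomain _
  let r : Setoid J := Setoid.ker fun j => X.φ T' j
  let ι := Quotient r
  let φ : ι → X.S T' →+* T' := Quotient.lift (fun j => X.φ T' j) fun _ _ h => h
  have hφ : ∀ j : J, φ (Quotient.mk r j) = X.φ T' j := fun _ => rfl
  have hι : Finite ι := Quotient.finite r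
  let lab : ℕ → Option ι := fun i => if h : ∃ j, X.b j = i then some (Quotient.mk r h.choose) else none
  have lab_b : ∀ j, lab (X.b j) = some (Quotient.mk r j) := by
    intro j
    have h : ∃ j', X.b j' = X.b j := ⟨j, rfl⟩
    have h1 : lab (X.b j) = some (Quotient.mk r h.choose) := dif_pos h
    rw [h1, hb h.choose_spec]
  have lab_none : ∀ i, (∀ j, X.b j ≠ i) → lab i = none := by
    intro i hi
    exact dif_neg fun ⟨j, hj⟩ => hi j hj
  have lab_some : ∀ i c, lab i = some c → ∃ j, X.b j = i ∧ Quotient.mk r j = c := by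
    intro i c hc
    by_cases h : ∃ j, X.b j = i
    · obtain ⟨j, rfl⟩ := h
      rw [lab_b] at hc
      exact ⟨j, rfl, Option.some.inj hc⟩
    · rw [lab_none i fun j hj => h ⟨j, hj⟩] at hc
      exact absurd hc (by simp)
  refine ⟨{ S := X.S T', commRing := inferInstance, top := inferInstance, cnr := hcnr, dom := hdom,
            ι := ι, fin := Fintype.ofFinite ι, dec := Classical.decEq ι, φ := φ,
            φ_inj := ?_, φ_ne := ?_, φ_cont := ?_, φ_fin := ?_, gen := X.gen hR hT', lab := lab,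
            lab_lt := ?_, lab_surj := ?_, chp := X.chp hT', chp_monic := X.chp_monic hT',
            chp_root := ?_, scal := ?_ }, ?_, ?_, ?_⟩
  · intro c
    obtain ⟨j, rfl⟩ := Quotient.exists_rep c
    exact X.φ_inj j
  · intro c c' hcc h
    obtain ⟨j, rfl⟩ := Quotient.exists_rep c
    obtain ⟨j', rfl⟩ := Quotient.exists_rep c'
    exact hcc (Quotient.sound h)
  · intro c
    obtain ⟨j, rfl⟩ := Quotient.exists_rep c
    exact X.φ_cont T' j
  · intro c
    obtain ⟨j, rfl⟩ := Quotient.exists_rep c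
    exact X.φ_fin hR hT' j
  · intro i c hc
    obtain ⟨j, rfl, -⟩ := lab_some i c hc
    exact X.lt j
  · intro c
    obtain ⟨j, rfl⟩ := Quotient.exists_rep c
    exact ⟨X.b j, lab_b j⟩
  · intro g i c hc μ
    obtain ⟨j, rfl, rfl⟩ := lab_some i c hc
    exact X.chp_root hT' g j μ
  · obtain ⟨z, hz, h⟩ := X.scal_complete hR hT' hX
    refine ⟨z, hz, fun s => ?_⟩
    obtain ⟨y, hy, h1, h2⟩ := h s
    refine ⟨y, hy, fun i hi => ?_⟩
    by_cases hi' : ∃ j, X.b j = i
    · obtain ⟨j, rfl⟩ := hi'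
      rw [lab_b]
      exact h1 j
    · rw [lab_none i fun j hj => hi' ⟨j, hj⟩]
      exact h2 i hi fun j hj => hi' ⟨j, hj⟩
  · exact X.infiniteS hR hT'
  · exact ⟨Quotient.mk r j₀⟩
  · intro i
    constructor
    · intro h
      by_contra hcon
      exact h (lab_none i fun j hj => hcon ⟨j, hj⟩)
    · rintro ⟨j, rfl⟩
      show lab (X.b j) ≠ none
      rw [lab_b]
      simp

/-- every flag has a complete set of families; the rings of scalars are infinite -/
theorem exists_fams' [Fact p.Prime] [CharP Ω p] {k : ℕ} (hR : MCore R k) (Φ : R.Fl) :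
    ∃ 𝓕 : R.Fams Φ, (∀ κ, Infinite (𝓕.fam κ).S) ∧ ∀ κ, Nonempty (𝓕.fam κ).ι := by
  classical
  obtain ⟨T', hfin, hT'⟩ := R.exists_T' Φ
  let N := {i : Fin Φ.l // ¬ Φ.Triv i}
  let K : N → N → Prop := fun i j => ∀ y ∈ R.CB,
    Φ.Acts (y : Module.End Ω (Matrix (Fin n) (Fin n) Ω)) i.1 0 →
    Φ.Acts (y : Module.End Ω (Matrix (Fin n) (Fin n) Ω)) j.1 0
  have hKsymm : ∀ i j, K i j → K j i := fun i j h =>
    incomparable hR Φ i.1.2 j.1.2 i.2 j.2 h
  let r : Setoid N :=
    { r := K
      iseqv := ⟨fun i y _ h => h, fun {i j} h => hKsymm i j h,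
        fun {i j l} h1 h2 y hy h => h2 y hy (h1 y hy h)⟩ }
  have hN : Finite N := inferInstance
  let κ := Quotient r
  have hκ : Finite κ := Quotient.finite r
  -- the blocks of a class
  let J : κ → Type := fun c => {i : N // Quotient.mk r i = c}
  have hJ : ∀ c, Nonempty (J c) := fun c => by
    obtain ⟨i, hi⟩ := Quotient.exists_rep c
    exact ⟨⟨i, hi⟩⟩
  have hJf : ∀ c, Finite (J c) := fun c => inferInstance
  have hKJ : ∀ c, ∀ i j : J c, K i.1 j.1 := fun c i j =>
    Quotient.exact (s := r) (i.2.trans j.2.symm)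
  let X : ∀ c, FamBlk R Φ (J c) := fun c =>
    { b := fun j => j.1.1
      lt := fun j => j.1.1.2
      nt := fun j => j.1.2
      d := Φ.dim (hJ c).some.1.1
      dim := fun j => le_antisymm
        (dim_le Φ (hJ c).some.1.1.2 j.1.1.2 (hKJ c (hJ c).some j))
        (dim_le Φ j.1.1.2 (hJ c).some.1.1.2 (hKJ c j (hJ c).some))
      ker := fun i j => hKJ c i j }
  have hb : ∀ c, Function.Injective (X c).b := by
    intro c i j hij
    exact Subtype.ext (Subtype.ext (Fin.ext hij))
  have hcomp : ∀ c, (X c).Complete := by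
    intro c i hi hin hij j
    by_contra hcon
    push Not at hcon
    have h1 : K ⟨⟨i, hi⟩, hin⟩ j.1 := hcon
    exact hij ⟨⟨⟨i, hi⟩, hin⟩, (Quotient.sound (s := r) h1).trans j.2⟩ rfl
  have hF := fun c => (X c).exists_fam (hb c) hfin hR
    (fun j y m => hT' _ ((X c).lt j) _ ((X c).dim j) y m) (hcomp c)
  choose F hF1 hF2 hF3 using hF
  refine ⟨{ T' := T', finT := hfin, κ := κ, fin := Fintype.ofFinite κ, fam := F,
            nontriv := ?_, triv := ?_ }, hF1, hF2⟩
  · intro i hi hin
    refine ⟨Quotient.mk r ⟨⟨i, hi⟩, hin⟩, (hF3 _ i).2 ⟨⟨⟨⟨i, hi⟩, hin⟩, rfl⟩, rfl⟩, ?_⟩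
    intro c hc
    obtain ⟨j, hj⟩ := (hF3 c i).1 hc
    have e : j.1 = ⟨⟨i, hi⟩, hin⟩ := Subtype.ext (Fin.ext hj)
    rw [← e]
    exact j.2.symm
  · intro i _ hti c
    by_contra hc
    obtain ⟨j, rfl⟩ := (hF3 c i).1 hc
    exact (X c).nt j hti

/-- every flag has a complete set of families -/
theorem exists_fams [Fact p.Prime] [CharP Ω p] {k : ℕ} (hR : MCore R k) (Φ : R.Fl) :
    Nonempty (R.Fams Φ) := by
  obtain ⟨𝓕, -⟩ := exists_fams' hR Φ
  exact ⟨𝓕⟩

end Rep

end MP35
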