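import Pool.Agent.Lib_MP_3538b5_al.FDefs

/-!
# Layer F: existence of flags with simple factors

Owner: helper93.
-/

set_option autoImplicit false

namespace MP35

universe v w

/-- a flag of stable subspaces of a stable subspace -/
private theorem flag_aux {Ω : Type v} [Field Ω] {V : Type w} [AddCommGroup V] [Module Ω V]
    [FiniteDimensional Ω V] (X : Set (Module.End Ω V)) (U : Submodule Ω V) :
    (∀ y ∈ X, ∀ v ∈ U, y v ∈ U) → ∃ (l : ℕ) (W : ℕ → Submodule Ω V), Monotone W ∧ W 0 = ⊥ ∧
      (∀ i, l ≤ i → W i = U) ∧ (∀ y ∈ X, ∀ i, ∀ v ∈ W i, y v ∈ W i) ∧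
      (∀ i < l, W i < W (i + 1)) ∧
      (∀ i < l, ∀ U : Submodule Ω V, (∀ y ∈ X, ∀ v ∈ U, y v ∈ U) → W i ≤ U →
        U ≤ W (i + 1) → U = W i ∨ U = W (i + 1)) := by
  induction U using WellFoundedLT.induction with
  | ind U ih =>
  intro hU
  by_cases hb : U = ⊥
  · refine ⟨0, fun _ => ⊥, fun _ _ _ => le_rfl, rfl, fun _ _ => hb.symm, ?_, ?_, ?_⟩
    · intro y _ i v hv
      rw [(Submodule.mem_bot Ω).1 hv, map_zero]
      exact zero_mem _
    · intro i hi
      exact absurd hi (Nat.not_lt_zero i)
    · intro i hi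
      exact absurd hi (Nat.not_lt_zero i)
  · obtain ⟨U', ⟨hU's, hU'lt⟩, hmax⟩ := (wellFounded_gt (α := Submodule Ω V)).has_min
      {U' | (∀ y ∈ X, ∀ v ∈ U', y v ∈ U') ∧ U' < U} ⟨⊥, fun y _ v hv => by
        rw [(Submodule.mem_bot Ω).1 hv, map_zero]
        exact zero_mem _, bot_lt_iff_ne_bot.2 hb⟩
    obtain ⟨l, W, hmono, h0, htop, hst, hlt, hsi⟩ := ih U' hU'lt hU's
    refine ⟨l + 1, fun i => if i ≤ l then W i else U, ?_, ?_, ?_, ?_, ?_, ?_⟩
    · intro i j hij
      show (if i ≤ l then W i else U) ≤ (if j ≤ l then W j else U)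
      by_cases hj : j ≤ l
      · rw [if_pos hj, if_pos (hij.trans hj)]
        exact hmono hij
      · rw [if_neg hj]
        by_cases hi : i ≤ l
        · rw [if_pos hi]
          exact (hmono hi).trans ((htop l le_rfl).le.trans hU'lt.le)
        · rw [if_neg hi]
    · show (if 0 ≤ l then W 0 else U) = ⊥
      rw [if_pos (Nat.zero_le l)]
      exact h0
    · intro i hi
      show (if i ≤ l then W i else U) = U
      rw [if_neg (by omega)]
    · intro y hy i v hv
      show y v ∈ (if i ≤ l then W i else U)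
      have hv' : v ∈ (if i ≤ l then W i else U) := hv
      by_cases hi : i ≤ l
      · rw [if_pos hi] at hv' ⊢
        exact hst y hy i v hv'
      · rw [if_neg hi] at hv' ⊢
        exact hU y hy v hv'
    · intro i hi
      show (if i ≤ l then W i else U) < (if i + 1 ≤ l then W (i + 1) else U)
      rw [if_pos (by omega)]
      by_cases h : i + 1 ≤ l
      · rw [if_pos h]
        exact hlt i (by omega)
      · rw [if_neg h, htop i (by omega)]
        exact hU'lt
    · intro i hi Z hZ h1 h2
      have h1' : (if i ≤ l then W i else U) ≤ Z := h1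
      have h2' : Z ≤ (if i + 1 ≤ l then W (i + 1) else U) := h2
      show Z = (if i ≤ l then W i else U) ∨ Z = (if i + 1 ≤ l then W (i + 1) else U)
      rw [if_pos (by omega)] at h1' ⊢
      by_cases h : i + 1 ≤ l
      · rw [if_pos h] at h2' ⊢
        exact hsi i (by omega) Z hZ h1' h2'
      · rw [if_neg h] at h2' ⊢
        rw [htop i (by omega)] at h1' ⊢
        by_cases hZU : Z = U
        · exact Or.inr hZU
        · left
          by_contra hne
          exact hmax Z ⟨hZ, lt_of_le_of_ne h2' hZU⟩ (lt_of_le_of_ne h1' (Ne.symm hne))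

/-- Every finite dimensional space has a flag of `X`-stable subspaces with simple factors: take a chain
of stable subspaces from `⊥` to `⊤` of maximal length. -/
theorem exists_flag {Ω : Type v} [Field Ω] {V : Type w} [AddCommGroup V] [Module Ω V]
    [FiniteDimensional Ω V] (X : Set (Module.End Ω V)) : Nonempty (Flag X) := by
  obtain ⟨l, W, hmono, h0, htop, hst, hlt, hsi⟩ := flag_aux X ⊤ fun _ _ _ _ => trivial
  exact ⟨⟨l, W, hmono, h0, htop l le_rfl, hst, hlt, hsi⟩⟩

end MP35
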