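import Pool.Agent.Lib_MP_3538b5_al.RCap

/-! # Scalars in a spanning ring of matrices

`C` a subring of `M_m(K)`, `K` an infinite field, spanning `M_m(K)` over `K`; `N` a nonzero two-sided ideal
of `C`; `S` the ring generated by the coefficients of the characteristic polynomials of the left
multiplications by elements of `C`. If `S` is infinite, there is `z ≠ 0` in `K` such that all scalar
matrices `z s`, `s ∈ S`, are in `N`. -/

set_option autoImplicit false

namespace MP35

universe u v w

open Polynomial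

section

variable {K : Type v} [Field K] {m : ℕ}

/-- the ring generated by the coefficients of the characteristic polynomials of the left
multiplications by elements of `C` -/
def cRing (C : Subring (Matrix (Fin m) (Fin m) K)) : Subring K :=
  Subring.closure {s | ∃ y ∈ C, ∃ j, s = (LinearMap.mulLeft K y).charpoly.coeff j}

theorem coeff_mem_cRing {C : Subring (Matrix (Fin m) (Fin m) K)} {y : Matrix (Fin m) (Fin m) K}
    (hy : y ∈ C) (j : ℕ) : (LinearMap.mulLeft K y).charpoly.coeff j ∈ cRing C :=
  Subring.subset_closure ⟨y, hy, j, rfl⟩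

/-- a determinant which does not vanish identically on the span of `v` over `K` does not vanish
identically on the combinations with coefficients in an infinite set -/
theorem exists_det_ne {ι : Type*} [Fintype ι] [DecidableEq ι] {S : Set K} (hS : S.Infinite)
    {N : Type*} [Fintype N] (v : N → Matrix ι ι K) (h : ∃ c : N → K, (∑ i, c i • v i).det ≠ 0) :
    ∃ c : N → K, (∀ i, c i ∈ S) ∧ (∑ i, c i • v i).det ≠ 0 := by
  classical
  by_contra hcon
  push Not at hcon
  let P : MvPolynomial N K :=
    Matrix.det (Matrix.of fun a b => ∑ i, MvPolynomial.X i * MvPolynomial.C (v i a b))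
  have hP : ∀ c : N → K, MvPolynomial.eval c P = (∑ i, c i • v i).det := by
    intro c
    rw [RingHom.map_det]
    congr 1
    ext a b
    simp [Matrix.sum_apply]
  have h0 : P = 0 := by
    refine MvPolynomial.funext_set (fun _ => S) (fun _ => hS) fun x hx => ?_
    rw [hP, map_zero]
    exact hcon x fun i => hx i trivial
  obtain ⟨c, hc⟩ := h
  apply hc
  rw [← hP, h0, map_zero]

/-- a nonzero subset of the matrix ring stable under a spanning set on both sides spans -/
theorem span_eq_top_of_ideal {C N : Set (Matrix (Fin m) (Fin m) K)} (hC : Submodule.span K C = ⊤)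
    (hl : ∀ a ∈ C, ∀ x ∈ N, a * x ∈ N) (hr : ∀ a ∈ C, ∀ x ∈ N, x * a ∈ N)
    (h0 : ∃ x ∈ N, x ≠ 0) : Submodule.span K N = ⊤ := by
  classical
  have hl' : ∀ a, ∀ x ∈ Submodule.span K N, a * x ∈ Submodule.span K N := by
    intro a x hx
    have ha : a ∈ Submodule.span K C := by rw [hC]; trivial
    refine Submodule.span_induction (fun a ha => ?_) ?_ (fun a b _ _ ha hb => ?_)
      (fun c a _ ha => ?_) ha
    · refine Submodule.span_induction (fun x hx => ?_) ?_ (fun x y _ _ hx hy => ?_)
        (fun c x _ hx => ?_) hx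
      · exact Submodule.subset_span (hl a ha x hx)
      · rw [mul_zero]; exact zero_mem _
      · rw [mul_add]; exact add_mem hx hy
      · rw [mul_smul_comm]; exact Submodule.smul_mem _ _ hx
    · rw [zero_mul]; exact zero_mem _
    · rw [add_mul]; exact add_mem ha hb
    · rw [smul_mul_assoc]; exact Submodule.smul_mem _ _ ha
  have hr' : ∀ a, ∀ x ∈ Submodule.span K N, x * a ∈ Submodule.span K N := by
    intro a x hx
    have ha : a ∈ Submodule.span K C := by rw [hC]; trivial
    refine Submodule.span_induction (fun a ha => ?_) ?_ (fun a b _ _ ha hb => ?_)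
      (fun c a _ ha => ?_) ha
    · refine Submodule.span_induction (fun x hx => ?_) ?_ (fun x y _ _ hx hy => ?_)
        (fun c x _ hx => ?_) hx
      · exact Submodule.subset_span (hr a ha x hx)
      · rw [zero_mul]; exact zero_mem _
      · rw [add_mul]; exact add_mem hx hy
      · rw [smul_mul_assoc]; exact Submodule.smul_mem _ _ hx
    · rw [mul_zero]; exact zero_mem _
    · rw [mul_add]; exact add_mem ha hb
    · rw [mul_smul_comm]; exact Submodule.smul_mem _ _ ha
  obtain ⟨x, hx, hx0⟩ := h0
  obtain ⟨i, j, hij⟩ : ∃ i j, x i j ≠ 0 := by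
    by_contra h
    push Not at h
    exact hx0 (by ext i j; exact h i j)
  have key : ∀ a b, Matrix.single a b (1 : K) ∈ Submodule.span K N := by
    intro a b
    have h1 : Matrix.single a i (1 : K) * x * Matrix.single j b (1 : K)
        = x i j • Matrix.single a b (1 : K) := by
      ext c d
      simp only [Matrix.mul_apply, Matrix.single_apply, Matrix.smul_apply, smul_eq_mul]
      by_cases hc : a = c
      · by_cases hd : b = d
        · subst hc hd
          simp
        · simp [hd]
      · simp [hc]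
    have h2 : Matrix.single a i (1 : K) * x * Matrix.single j b (1 : K) ∈ Submodule.span K N :=
      hr' _ _ (hl' _ _ (Submodule.subset_span hx))
    rw [h1] at h2
    exact (Submodule.smul_mem_iff _ hij).1 h2
  rw [eq_top_iff]
  rintro y -
  rw [Matrix.matrix_eq_sum_single y]
  refine Submodule.sum_mem _ fun a _ => Submodule.sum_mem _ fun b _ => ?_
  have : Matrix.single a b (y a b) = y a b • Matrix.single a b (1 : K) := by
    rw [Matrix.smul_single, smul_eq_mul, mul_one]
  rw [this]
  exact Submodule.smul_mem _ _ (key a b)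

/-- `capf b z` is in every left ideal containing the `z i` -/
theorem capf_mem {B : Type u} [Ring B] {d : ℕ} (hd : 0 < d) {C : Subring B} {N : AddSubgroup B}
    (hNC : ∀ x ∈ N, x ∈ C) (hl : ∀ a ∈ C, ∀ x ∈ N, a * x ∈ N) (hr : ∀ a ∈ C, ∀ x ∈ N, x * a ∈ N)
    {b z : Fin d → B} (hb : ∀ i, b i ∈ C) (hz : ∀ i, z i ∈ N) : capf b z ∈ N := by
  obtain ⟨d, rfl⟩ : ∃ e, d = e + 1 := ⟨d - 1, by omega⟩
  refine AddSubgroup.sum_mem _ fun σ _ => AddSubgroup.zsmul_mem _ ?_ _
  rw [List.ofFn_succ, List.prod_cons]
  refine hr _ ?_ _ (hl _ (hb 0) _ (hz _))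
  refine Subring.list_prod_mem _ fun x hx => ?_
  rw [List.mem_ofFn] at hx
  obtain ⟨i, rfl⟩ := hx
  exact C.mul_mem (hb _) (hNC _ (hz _))

/-- multiplying the first left entry -/
theorem mul_capf {B : Type u} [Ring B] {d : ℕ} (hd : 0 < d) (a : B) (b z : Fin d → B) :
    a * capf b z = capf (Function.update b ⟨0, hd⟩ (a * b ⟨0, hd⟩)) z := by
  obtain ⟨d, rfl⟩ : ∃ e, d = e + 1 := ⟨d - 1, by omega⟩
  unfold capf
  rw [Finset.mul_sum]
  refine Finset.sum_congr rfl fun σ _ => ?_
  rw [mul_smul_comm]
  congr 1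
  rw [List.ofFn_succ, List.prod_cons, List.ofFn_succ, List.prod_cons, ← mul_assoc, ← mul_assoc]
  have h0 : (⟨0, hd⟩ : Fin (d + 1)) = 0 := rfl
  rw [h0, Function.update_self]
  have h1 : (fun i : Fin d => b i.succ * z (σ i.succ))
      = fun i => Function.update b 0 (a * b 0) i.succ * z (σ i.succ) := by
    funext i
    rw [Function.update_of_ne (Fin.succ_ne_zero i)]
  rw [h1]

/-- **SCALARS.** -/
theorem scalars [Infinite K] (hm : 0 < m) (C : Subring (Matrix (Fin m) (Fin m) K))
    (hC : Submodule.span K (C : Set (Matrix (Fin m) (Fin m) K)) = ⊤)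
    (hS : (cRing C : Set K).Infinite) (N : AddSubgroup (Matrix (Fin m) (Fin m) K))
    (hNC : ∀ x ∈ N, x ∈ C) (hl : ∀ a ∈ C, ∀ x ∈ N, a * x ∈ N) (hr : ∀ a ∈ C, ∀ x ∈ N, x * a ∈ N)
    (h0 : ∃ x ∈ N, x ≠ 0) :
    ∃ z : K, z ≠ 0 ∧ ∀ s ∈ cRing C, (z * s) • (1 : Matrix (Fin m) (Fin m) K) ∈ N := by
  classical
  have hd : 0 < m ^ 2 := by positivity
  -- the ideal generated by the Capelli values
  let I : AddSubgroup (Matrix (Fin m) (Fin m) K) :=
    AddSubgroup.closure {x | ∃ (b z : Fin (m ^ 2) → Matrix (Fin m) (Fin m) K) (a : Matrix (Fin m) (Fin m) K),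
      (∀ i, b i ∈ C) ∧ (∀ i, z i ∈ N) ∧ a ∈ C ∧ x = capf b z * a}
  have hIN : ∀ x ∈ I, x ∈ N := by
    intro x hx
    refine AddSubgroup.closure_induction (fun x hx => ?_) N.zero_mem (fun x y _ _ hx hy => N.add_mem hx hy)
      (fun x _ hx => N.neg_mem hx) hx
    obtain ⟨b, z, a, hb, hz, ha, rfl⟩ := hx
    exact hr a ha _ (capf_mem hd hNC hl hr hb hz)
  have hIl : ∀ a ∈ C, ∀ x ∈ I, a * x ∈ I := by
    intro a ha x hx
    refine AddSubgroup.closure_induction (fun x hx => ?_) ?_ (fun x y _ _ hx hy => ?_)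
      (fun x _ hx => ?_) hx
    · obtain ⟨b, z, a', hb, hz, ha', rfl⟩ := hx
      refine AddSubgroup.subset_closure ⟨Function.update b ⟨0, hd⟩ (a * b ⟨0, hd⟩), z, a', ?_, hz, ha', ?_⟩
      · intro i
        by_cases hi : i = ⟨0, hd⟩
        · subst hi
          rw [Function.update_self]
          exact C.mul_mem ha (hb _)
        · rw [Function.update_of_ne hi]
          exact hb i
      · rw [← mul_assoc, mul_capf hd]
    · rw [mul_zero]; exact I.zero_mem
    · rw [mul_add]; exact I.add_mem hx hy
    · rw [mul_neg]; exact I.neg_mem hx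
  have hIr : ∀ a ∈ C, ∀ x ∈ I, x * a ∈ I := by
    intro a ha x hx
    refine AddSubgroup.closure_induction (fun x hx => ?_) ?_ (fun x y _ _ hx hy => ?_)
      (fun x _ hx => ?_) hx
    · obtain ⟨b, z, a', hb, hz, ha', rfl⟩ := hx
      exact AddSubgroup.subset_closure ⟨b, z, a' * a, hb, hz, C.mul_mem ha' ha, by rw [mul_assoc]⟩
    · rw [zero_mul]; exact I.zero_mem
    · rw [add_mul]; exact I.add_mem hx hy
    · rw [neg_mul]; exact I.neg_mem hx
  -- stability under the coefficients
  have hIc : ∀ s ∈ cRing C, ∀ x ∈ I, s • x ∈ I := by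
    intro s hs
    refine Subring.closure_induction (fun s hs => ?_) ?_ ?_ (fun s t _ _ hs ht => ?_)
      (fun s _ hs => ?_) (fun s t _ _ hs ht => ?_) hs
    · obtain ⟨y, hy, j, rfl⟩ := hs
      intro x hx
      refine AddSubgroup.closure_induction (fun x hx => ?_) ?_ (fun x y _ _ hx hy => ?_)
        (fun x _ hx => ?_) hx
      · obtain ⟨b, z, a, hb, hz, ha, rfl⟩ := hx
        by_cases hj : j ≤ m ^ 2
        · rw [← smul_mul_assoc, ← capF_eq (LinearMap.mulLeft K y) hj b z]
          unfold capF
          rw [Finset.sum_mul]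
          refine AddSubgroup.sum_mem _ fun S _ => ?_
          rw [smul_mul_assoc]
          have hz' : ∀ i, (if i ∈ S then LinearMap.mulLeft K y (z i) else z i) ∈ N := by
            intro i
            split_ifs
            · exact hl y hy _ (hz i)
            · exact hz i
          have hmem : capf b (fun i => if i ∈ S then LinearMap.mulLeft K y (z i) else z i) * a ∈ I :=
            AddSubgroup.subset_closure ⟨b, _, a, hb, hz', ha, rfl⟩
          exact AddSubgroup.zsmul_mem _ hmem _
        · have : (LinearMap.mulLeft K y).charpoly.coeff j = 0 := by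
            apply Polynomial.coeff_eq_zero_of_natDegree_lt
            rw [LinearMap.charpoly_natDegree, Module.finrank_matrix]
            simp only [Fintype.card_fin, Module.finrank_self, mul_one]
            rw [sq] at hj
            omega
          rw [this, zero_smul]
          exact I.zero_mem
      · rw [smul_zero]; exact I.zero_mem
      · rw [smul_add]; exact I.add_mem hx hy
      · rw [smul_neg]; exact I.neg_mem hx
    · intro x _
      rw [zero_smul]; exact I.zero_mem
    · intro x hx
      rw [one_smul]; exact hx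
    · intro x hx
      rw [add_smul]; exact I.add_mem (hs x hx) (ht x hx)
    · intro x hx
      rw [neg_smul]; exact I.neg_mem (hs x hx)
    · intro x hx
      rw [mul_smul]; exact hs _ (ht _ hx)
  -- `I` is not zero
  have hNsp := span_eq_top_of_ideal hC hl hr h0
  obtain ⟨b, z, hb, hz, hbz⟩ := capf_ne_of_span hm le_rfl hNsp
  have hI0 : ∃ x ∈ (I : Set (Matrix (Fin m) (Fin m) K)), x ≠ 0 :=
    ⟨capf b z, AddSubgroup.subset_closure ⟨b, z, 1, fun i => hNC _ (hb i), hz, C.one_mem, by rw [mul_one]⟩, hbz⟩
  have hIsp := span_eq_top_of_ideal hC hIl hIr hI0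
  -- an invertible element of `I`
  obtain ⟨v, hv, hv0⟩ : ∃ v ∈ I, v.det ≠ 0 := by
    obtain ⟨f, hf, hfs, -⟩ := Submodule.exists_fun_fin_finrank_span_eq K (I : Set (Matrix (Fin m) (Fin m) K))
    have h1 : (1 : Matrix (Fin m) (Fin m) K) ∈ Submodule.span K (Set.range f) := by
      rw [hfs, hIsp]; trivial
    rw [Submodule.mem_span_range_iff_exists_fun] at h1
    obtain ⟨c, hc⟩ := h1
    obtain ⟨c', hc', hdet⟩ := exists_det_ne hS f ⟨c, by rw [hc, Matrix.det_one]; exact one_ne_zero⟩
    exact ⟨_, AddSubgroup.sum_mem _ fun i _ => hIc _ (hc' i) _ (hf i), hdet⟩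
  -- Cayley-Hamilton
  refine ⟨(LinearMap.mulLeft K v).charpoly.coeff 0, ?_, ?_⟩
  · intro h
    have h1 := LinearMap.det_eq_sign_charpoly_coeff (LinearMap.mulLeft K v)
    rw [h, mul_zero] at h1
    obtain ⟨w, rfl⟩ : IsUnit v := (Matrix.isUnit_iff_isUnit_det v).2 (isUnit_iff_ne_zero.2 hv0)
    have h2 : LinearMap.mulLeft K (w : Matrix (Fin m) (Fin m) K) *
        LinearMap.mulLeft K ((w⁻¹ : (Matrix (Fin m) (Fin m) K)ˣ) : Matrix (Fin m) (Fin m) K) = 1 := by
      ext x : 1
      simp
    have h3 := congrArg LinearMap.det h2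
    rw [map_mul, h1, zero_mul, map_one] at h3
    exact zero_ne_one h3
  · intro s hs
    have h1 := LinearMap.aeval_self_charpoly (LinearMap.mulLeft K v)
    have h2 : (aeval (LinearMap.mulLeft K v) (LinearMap.mulLeft K v).charpoly) 1 = 0 := by rw [h1]; rfl
    rw [Polynomial.aeval_eq_sum_range, LinearMap.sum_apply, Finset.sum_range_succ'] at h2
    have h3 : (LinearMap.mulLeft K v).charpoly.coeff 0 • (1 : Matrix (Fin m) (Fin m) K)
        = -∑ k ∈ Finset.range (LinearMap.mulLeft K v).charpoly.natDegree,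
            (LinearMap.mulLeft K v).charpoly.coeff (k + 1) • v ^ (k + 1) := by
      rw [eq_neg_iff_add_eq_zero, add_comm]
      simpa [LinearMap.pow_mulLeft] using h2
    rw [mul_comm, mul_smul, h3, smul_neg, Finset.smul_sum]
    refine N.neg_mem (AddSubgroup.sum_mem _ fun k _ => ?_)
    rw [smul_smul]
    refine hIN _ (hIc _ (mul_mem hs (coeff_mem_cRing (hNC _ (hIN _ hv)) _)) _ ?_)
    rw [pow_succ']
    exact hIr _ (pow_mem (hNC _ (hIN _ hv)) k) _ hv

end

end MP35
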