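import Pool.Agent.Lib_MP_3538b5_al.RTopo
import Pool.Agent.Lib_MP_3538b5_al.ZScal

/-!
# Layer F: rings of scalars, commutative algebra

* `exists_coefAlg`: a finite `T`-subalgebra of `Ω` containing all characteristic coefficients of the left
  multiplications by elements of the image of a finite `T`-algebra in `M_d(Ω)`;
* `exists_supAlg`: a common one for finitely many algebras;
* `gen_noeth`, `gen_finite`, `gen_gen`: a compact ring `S` with an injective continuous homomorphism to a ring
  `T'` which is finite over the closed noetherian subring generated by the images of some elements of `S`.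
-/

set_option autoImplicit false
set_option linter.unusedSectionVars false

namespace MP35

universe u v w x

section coef

variable {T : Type u} [CommRing T] {Ω : Type v} [Field Ω] [Algebra T Ω] {V : Type w}
  [AddCommGroup V] [Module Ω V] [Module T V] [IsScalarTower T Ω V]

/-- the multipliers of a submodule -/
def mulAlg (N : Submodule T V) : Subalgebra T Ω where
  carrier := {e | ∀ x ∈ N, e • x ∈ N}
  mul_mem' ha hb x hx := by rw [mul_smul]; exact ha _ (hb _ hx)
  add_mem' ha hb x hx := by rw [add_smul]; exact N.add_mem (ha _ hx) (hb _ hx)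
  algebraMap_mem' t x hx := by rw [algebraMap_smul]; exact N.smul_mem t hx

theorem mem_mulAlg {N : Submodule T V} {e : Ω} : e ∈ mulAlg (Ω := Ω) N ↔ ∀ x ∈ N, e • x ∈ N := Iff.rfl

theorem finite_mulAlg (N : Submodule T V) [IsNoetherian T N] {x : V} (hx : x ∈ N) (hx0 : x ≠ 0) :
    Module.Finite T (mulAlg (Ω := Ω) N) := by
  let f : mulAlg (Ω := Ω) N →ₗ[T] N :=
    { toFun := fun e => ⟨(e : Ω) • x, e.2 x hx⟩
      map_add' := fun a b => Subtype.ext (by simp [add_smul])
      map_smul' := fun t a => Subtype.ext (by simp [smul_assoc]) }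
  refine Module.Finite.of_injective f fun a b hab => ?_
  have h1 : (a : Ω) • x = (b : Ω) • x := congrArg Subtype.val hab
  have h2 : ((a : Ω) - b) • x = 0 := by rw [sub_smul, h1, sub_self]
  rcases smul_eq_zero.1 h2 with h3 | h3
  · exact Subtype.ext (sub_eq_zero.1 h3)
  · exact absurd h3 hx0

/-- the characteristic coefficients of left multiplications are in a finite `T`-algebra -/
theorem exists_coefAlg [IsNoetherianRing T] [Infinite Ω] {B : Type x} [Ring B] [Algebra T B]
    [Module.Finite T B] {d : ℕ} (hd : 0 < d) (π : B →ₐ[T] Matrix (Fin d) (Fin d) Ω)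
    (hπ : Submodule.span Ω (Set.range π) = ⊤) :
    ∃ T' : Subalgebra T Ω, Module.Finite T T' ∧
      ∀ y m, (LinearMap.mulLeft Ω (π y)).charpoly.coeff m ∈ T' := by
  let N : Submodule T (Matrix (Fin d) (Fin d) Ω) :=
    Submodule.span T {x | ∃ b z : Fin (d ^ 2) → B, x = π (capf b z)}
  have hN : N ≤ LinearMap.range π.toLinearMap := by
    refine Submodule.span_le.2 ?_
    rintro _ ⟨b, z, rfl⟩
    exact ⟨_, rfl⟩
  have : IsNoetherian T B := isNoetherian_of_isNoetherianRing_of_finite T B
  have h1 : IsNoetherian T (LinearMap.range π.toLinearMap) :=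
    isNoetherian_of_surjective π.toLinearMap.rangeRestrict (LinearMap.range_rangeRestrict _)
  have h2 : IsNoetherian T N := isNoetherian_of_injective (Submodule.inclusion hN)
    (Submodule.inclusion_injective hN)
  obtain ⟨b, z, hb, hz, h⟩ := capf_ne_of_span hd le_rfl hπ
  choose b' eb using hb
  choose z' ez using hz
  have e1 : capf b z = π (capf b' z') := by
    have h2 := capf_map (π : B →+* Matrix (Fin d) (Fin d) Ω) b' z'
    have e1 : (fun i => (π : B →+* Matrix (Fin d) (Fin d) Ω) (b' i)) = b := funext eb
    have e2 : (fun i => (π : B →+* Matrix (Fin d) (Fin d) Ω) (z' i)) = z := funext ez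
    rw [e1, e2] at h2
    exact h2.symm
  refine ⟨mulAlg N, finite_mulAlg N (Submodule.subset_span ⟨b', z', e1⟩) h, fun y m => ?_⟩
  rcases lt_or_ge (d ^ 2) m with hm | hm
  · have : (LinearMap.mulLeft Ω (π y)).charpoly.coeff m = 0 := by
      refine Polynomial.coeff_eq_zero_of_natDegree_lt ?_
      rw [LinearMap.charpoly_natDegree, Module.finrank_matrix]
      simp only [Fintype.card_fin, Module.finrank_self, mul_one]
      rw [sq] at hm
      exact hm
    rw [this]
    exact zero_mem _
  · intro x hx
    refine Submodule.span_induction (fun x hx => ?_) ?_ (fun x y _ _ hx hy => ?_)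
      (fun t x _ hx => ?_) hx
    · obtain ⟨b, z, rfl⟩ := hx
      have h1 := capF_map (π : B →+* Matrix (Fin d) (Fin d) Ω) (L := fun a => y * a)
        (L' := LinearMap.mulLeft Ω (π y)) (fun a => by simp) m b z
      have h2 := capf_map (π : B →+* Matrix (Fin d) (Fin d) Ω) b z
      have h3 : π (capF (fun a => y * a) m b z)
          = (LinearMap.mulLeft Ω (π y)).charpoly.coeff m • π (capf b z) :=
        h1.trans ((capF_eq _ hm _ _).trans (congrArg _ h2.symm))
      rw [← h3, capF, map_sum]
      refine Submodule.sum_mem _ fun S _ => ?_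
      rw [map_zsmul]
      have hm : π (capf b (fun i => if i ∈ S then y * z i else z i)) ∈ N :=
        Submodule.subset_span ⟨b, _, rfl⟩
      exact zsmul_mem hm _
    · rw [smul_zero]
      exact zero_mem _
    · rw [smul_add]
      exact add_mem hx hy
    · rw [smul_comm]
      exact Submodule.smul_mem _ _ hx

/-- finitely many finite subalgebras are contained in a finite subalgebra -/
theorem exists_supAlg {ι : Type w} [Finite ι] (A : ι → Subalgebra T Ω)
    (h : ∀ i, Module.Finite T (A i)) :
    ∃ T' : Subalgebra T Ω, Module.Finite T T' ∧ ∀ i, A i ≤ T' := by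
  classical
  cases nonempty_fintype ι
  have key : ∀ s : Finset ι, ∃ T' : Subalgebra T Ω, Module.Finite T T' ∧ ∀ i ∈ s, A i ≤ T' := by
    intro s
    induction s using Finset.induction_on with
    | empty =>
      refine ⟨⊥, ?_, by simp⟩
      exact Module.Finite.of_surjective (Algebra.linearMap T (⊥ : Subalgebra T Ω)) (by
        rintro ⟨x, hx⟩
        obtain ⟨t, ht⟩ := Algebra.mem_bot.1 hx
        exact ⟨t, Subtype.ext ht⟩)
    | insert i s _ ih =>
      obtain ⟨T', hT', h'⟩ := ih
      have := h i
      refine ⟨A i ⊔ T', Subalgebra.finite_sup _ _, ?_⟩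
      intro j hj
      rcases Finset.mem_insert.1 hj with rfl | hj
      · exact le_sup_left
      · exact (h' j hj).trans le_sup_right
  obtain ⟨T', hT', h'⟩ := key Finset.univ
  exact ⟨T', hT', fun i => h' i (Finset.mem_univ i)⟩

end coef

section gen

variable {S : Type u} [CommRing S] [TopologicalSpace S] [IsTopologicalRing S] [CompactSpace S]
  {T' : Type v} [CommRing T'] [TopologicalSpace T'] [IsTopologicalRing T'] [T2Space T'] (φ : S →+* T')
  (hφ : Continuous φ) {m : ℕ} (x : Fin m → S)

include hφ

theorem gen_le : (Subring.closure (Set.range fun i => φ (x i))).topologicalClosure ≤ φ.range := by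
  refine Subring.topologicalClosure_minimal _ ?_ ?_
  · rw [Subring.closure_le]
    rintro _ ⟨i, rfl⟩
    exact ⟨x i, rfl⟩
  · exact (isCompact_range hφ).isClosed

/-- the image of the closure of the ring generated by the `x i` -/
theorem gen_image : ∀ c ∈ (Subring.closure (Set.range fun i => φ (x i))).topologicalClosure,
    ∃ s ∈ (Subring.closure (Set.range x)).topologicalClosure, φ s = c := by
  intro c hc
  have hcl : IsClosed (φ '' ((Subring.closure (Set.range x)).topologicalClosure : Set S)) :=
    ((Subring.isClosed_topologicalClosure _).isCompact.image hφ).isClosed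
  have h1 : (Subring.closure (Set.range fun i => φ (x i))).topologicalClosure
      ≤ ((Subring.closure (Set.range x)).topologicalClosure).map φ := by
    refine Subring.topologicalClosure_minimal _ ?_ hcl
    rw [Subring.closure_le]
    rintro _ ⟨i, rfl⟩
    exact ⟨x i, Subring.le_topologicalClosure _ (Subring.subset_closure ⟨i, rfl⟩), rfl⟩
  exact h1 hc

/-- `S` is noetherian -/
theorem gen_noeth (hinj : Function.Injective φ)
    (hN : IsNoetherianRing (Subring.closure (Set.range fun i => φ (x i))).topologicalClosure)
    (hfin : Module.Finite (Subring.closure (Set.range fun i => φ (x i))).topologicalClosure T') :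
    IsNoetherianRing S := by
  set S₀ := (Subring.closure (Set.range fun i => φ (x i))).topologicalClosure
  have hle : S₀ ≤ φ.range := gen_le φ hφ x
  let _ : Algebra S₀ φ.range := (Subring.inclusion hle).toAlgebra
  have h1 : IsNoetherian S₀ T' := isNoetherian_of_isNoetherianRing_of_finite _ _
  let f : φ.range →ₗ[S₀] T' :=
    { toFun := fun s => s
      map_add' := fun _ _ => rfl
      map_smul' := fun _ _ => rfl }
  have h2 : IsNoetherian S₀ φ.range := isNoetherian_of_injective f Subtype.val_injective
  have h3 : IsNoetherianRing φ.range := isNoetherian_of_tower S₀ h2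
  let e : S ≃+* φ.range := RingEquiv.ofBijective φ.rangeRestrict
    ⟨fun a b hab => hinj (congrArg Subtype.val hab), φ.rangeRestrict_surjective⟩
  exact isNoetherianRing_of_ringEquiv _ e.symm

/-- `T'` is finite over `S` -/
theorem gen_finite
    (hfin : Module.Finite (Subring.closure (Set.range fun i => φ (x i))).topologicalClosure T') :
    φ.Finite := by
  obtain ⟨F, hF⟩ := hfin.fg_top
  let _ := φ.toAlgebra
  refine ⟨⟨F, ?_⟩⟩
  rw [eq_top_iff]
  rintro t -
  have ht : t ∈ Submodule.span (Subring.closure (Set.range fun i => φ (x i))).topologicalClosure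
      (F : Set T') := by rw [hF]; trivial
  refine Submodule.span_induction (fun y hy => Submodule.subset_span hy) (zero_mem _)
    (fun y z _ _ hy hz => add_mem hy hz) (fun c y _ hy => ?_) ht
  obtain ⟨s, hs⟩ := gen_le φ hφ x c.2
  have : c • y = s • y := by
    have e1 : c • y = (c : T') * y := rfl
    have e2 : s • y = φ s * y := Algebra.smul_def s y
    rw [e1, e2, hs]
  rw [this]
  exact Submodule.smul_mem _ _ hy

/-- `S` is topologically generated by finitely many topologically nilpotent elements -/
theorem gen_gen (hinj : Function.Injective φ)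
    (hN : IsNoetherianRing (Subring.closure (Set.range fun i => φ (x i))).topologicalClosure)
    (hfin : Module.Finite (Subring.closure (Set.range fun i => φ (x i))).topologicalClosure T')
    (hx : ∀ i, IsTopologicallyNilpotent (x i))
    (hn : ∀ s : S, ∃ k : ℤ, IsTopologicallyNilpotent (s - k)) :
    ∃ F : Finset S, (∀ s ∈ F, IsTopologicallyNilpotent s) ∧
      (Subring.closure (F : Set S)).topologicalClosure = ⊤ := by
  classical
  set S₀ := (Subring.closure (Set.range fun i => φ (x i))).topologicalClosure with hS₀
  have h1 : IsNoetherian S₀ T' := isNoetherian_of_isNoetherianRing_of_finite _ _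
  let N : Submodule S₀ T' :=
    { carrier := φ.range
      add_mem' := fun ha hb => φ.range.add_mem ha hb
      zero_mem' := φ.range.zero_mem
      smul_mem' := fun c y hy => φ.range.mul_mem (gen_le φ hφ x c.2) hy }
  obtain ⟨F₀, hF₀⟩ : N.FG := IsNoetherian.noetherian N
  have hF₀N : ∀ t ∈ F₀, ∃ s, φ s = t := by
    intro t ht
    have : t ∈ N := by rw [← hF₀]; exact Submodule.subset_span ht
    exact this
  choose! u hu using hF₀N
  choose k hk using hn
  refine ⟨Finset.univ.image x ∪ F₀.image (fun t => u t - k (u t)), ?_, ?_⟩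
  · intro s hs
    rcases Finset.mem_union.1 hs with hs | hs
    · obtain ⟨i, -, rfl⟩ := Finset.mem_image.1 hs
      exact hx i
    · obtain ⟨t, -, rfl⟩ := Finset.mem_image.1 hs
      exact hk _
  · rw [eq_top_iff]
    rintro s -
    set F : Finset S := Finset.univ.image x ∪ F₀.image (fun t => u t - k (u t))
    set S₁ := (Subring.closure (F : Set S)).topologicalClosure
    have hxS : (Subring.closure (Set.range x)).topologicalClosure ≤ S₁ := by
      refine Subring.topologicalClosure_minimal _ ?_ (Subring.isClosed_topologicalClosure _)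
      rw [Subring.closure_le]
      rintro _ ⟨i, rfl⟩
      exact Subring.le_topologicalClosure _ (Subring.subset_closure
        (Finset.mem_coe.2 (Finset.mem_union_left _ (Finset.mem_image_of_mem _ (Finset.mem_univ i)))))
    have huS : ∀ t ∈ F₀, u t ∈ S₁ := by
      intro t ht
      have h2 : u t - k (u t) ∈ S₁ := Subring.le_topologicalClosure _ (Subring.subset_closure
        (Finset.mem_coe.2 (Finset.mem_union_right _ (Finset.mem_image_of_mem _ ht))))
      have h3 := S₁.add_mem h2 (intCast_mem S₁ (k (u t)))
      rwa [sub_add_cancel] at h3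
    have hs : φ s ∈ N := ⟨s, rfl⟩
    rw [← hF₀] at hs
    have key : ∀ t ∈ Submodule.span S₀ (F₀ : Set T'), ∃ s ∈ S₁, φ s = t := by
      intro t ht
      refine Submodule.span_induction (fun y hy => ⟨u y, huS y hy, hu y hy⟩)
        ⟨0, S₁.zero_mem, map_zero φ⟩ ?_ ?_ ht
      · rintro y z - - ⟨a, ha, rfl⟩ ⟨b, hb, rfl⟩
        exact ⟨a + b, S₁.add_mem ha hb, map_add φ a b⟩
      · rintro c y - ⟨a, ha, rfl⟩
        obtain ⟨b, hb, hbc⟩ := gen_image φ hφ x c c.2
        refine ⟨b * a, S₁.mul_mem (hxS hb) ha, ?_⟩
        rw [map_mul, hbc]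
        rfl
    obtain ⟨s', hs', e⟩ := key _ hs
    rwa [← hinj e]

end gen

end MP35
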