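import Pool.Agent.Lib_MP_3538b5_al.GHall

/-!
# Closed subgroups generated by high powers are not open

* `freeR`: the closed subgroup generated by `b^i a b^(-i)`, `i < r`, is free on them.
* `not_open_powers`, `hall_powers`.
-/

set_option autoImplicit false

namespace MP35

universe u v w

section

variable {p : ℕ} [hp : Fact p.Prime] {G : Type u} [Group G] [TopologicalSpace G]
  [IsTopologicalGroup G]

/-- the elements `b^i a b^(-i)` -/
def genR (r : ℕ) (a b : G) : Fin r → G := fun i => b ^ (i : ℕ) * a * (b ^ (i : ℕ))⁻¹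

/-- the closed subgroup generated by the elements `b^i a b^(-i)`, `i < r` -/
abbrev KR (r : ℕ) (a b : G) : Subgroup G := clS (Set.range (genR r a b))

theorem genR_mem (r : ℕ) (a b : G) (i : Fin r) : genR r a b i ∈ KR r a b := subset_clS _ ⟨i, rfl⟩

variable [CompactSpace G] [T2Space G] [TotallyDisconnectedSpace G]

/-- the wreath product of `P` with the cyclic group of order `p^s` -/
private abbrev WR (p s : ℕ) (P : Type) [Group P] : Type :=
  (Multiplicative (ZMod (p ^ s)) → P) ⋊[(mulAutArrow :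
    Multiplicative (ZMod (p ^ s)) →* MulAut (Multiplicative (ZMod (p ^ s)) → P))]
    (Multiplicative (ZMod (p ^ s)))

/-- the closed subgroup generated by the `b^i a b^(-i)`, `i < r`, is free on them -/
theorem freeR (hP : ProP p G) (hL : LiftP p G) {a b : G} (hab : a * b ≠ b * a) (r : ℕ)
    (P : Type) [Group P] [Finite P] (hPp : IsPGroup p P) (f : Fin r → P) :
    ∃ φ : KR r a b →* P, OpenKer φ ∧ ∀ i, φ ⟨genR r a b i, genR_mem r a b i⟩ = f i := by
  classical
  have hne : NeZero (p ^ r) := ⟨pow_ne_zero _ hp.out.ne_zero⟩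
  have h4 : r < p ^ r := Nat.lt_pow_self hp.out.one_lt
  let C : Type := Multiplicative (ZMod (p ^ r))
  have hfinW : Finite (WR p r P) := Finite.of_equiv _ SemidirectProduct.equivProd.symm
  have hW : IsPGroup p (WR p r P) := by
    rw [IsPGroup.iff_card] at hPp ⊢
    obtain ⟨k, hk⟩ := hPp
    refine ⟨k * p ^ r + r, ?_⟩
    have hC : Nat.card (Multiplicative (ZMod (p ^ r))) = p ^ r := by
      rw [Nat.card_congr (Multiplicative.toAdd (α := ZMod (p ^ r))), Nat.card_zmod]
    rw [Nat.card_congr (SemidirectProduct.equivProd (N := Multiplicative (ZMod (p ^ r)) → P)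
      (G := Multiplicative (ZMod (p ^ r)))), Nat.card_prod, hC, pow_add]
    congr 1
    rw [Nat.card_fun, hk, hC, pow_mul]
  -- the elements of the wreath product
  let t : C := Multiplicative.ofAdd (1 : ZMod (p ^ r))
  let F : C → P := fun ω => if h : ∃ i : Fin r, ω = (t ^ (i : ℕ))⁻¹ then f h.choose else 1
  have hinj : ∀ i j : Fin r, (t ^ (i : ℕ))⁻¹ = (t ^ (j : ℕ))⁻¹ → i = j := by
    intro i j hij
    rw [inv_inj] at hij
    have h1 : ((i : ℕ) : ZMod (p ^ r)) = ((j : ℕ) : ZMod (p ^ r)) := by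
      have h2 := congrArg Multiplicative.toAdd hij
      rw [toAdd_pow, toAdd_pow] at h2
      have h3 : (i : ℕ) • (1 : ZMod (p ^ r)) = (j : ℕ) • (1 : ZMod (p ^ r)) := h2
      rwa [nsmul_one, nsmul_one] at h3
    rw [ZMod.natCast_eq_natCast_iff] at h1
    have h5 : (i : ℕ) < p ^ r := lt_trans i.2 h4
    have h6 : (j : ℕ) < p ^ r := lt_trans j.2 h4
    have h7 := Nat.ModEq.eq_of_lt_of_lt h1 h5 h6
    exact Fin.ext h7
  have hF : ∀ i : Fin r, F (t ^ (i : ℕ))⁻¹ = f i := by
    intro i
    have hex : ∃ j : Fin r, (t ^ (i : ℕ))⁻¹ = (t ^ (j : ℕ))⁻¹ := ⟨i, rfl⟩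
    show (if h : ∃ j : Fin r, (t ^ (i : ℕ))⁻¹ = (t ^ (j : ℕ))⁻¹ then f h.choose else 1) = f i
    rw [dif_pos hex]
    congr 1
    exact (hinj _ _ hex.choose_spec).symm
  obtain ⟨θ, hθ, hθa, hθb⟩ := free2_of_ne hP hL hab (WR p r P) hW
    (SemidirectProduct.inl F) (SemidirectProduct.inr t)
  -- `KR` is in `cl2 a b`
  have hle : KR r a b ≤ cl2 a b := by
    refine clS_le (isClosed_cl2 a b) ?_
    rintro _ ⟨i, rfl⟩
    exact (cl2 a b).mul_mem ((cl2 a b).mul_mem ((cl2 a b).pow_mem (right_mem_cl2 a b) _)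
      (left_mem_cl2 a b)) ((cl2 a b).inv_mem ((cl2 a b).pow_mem (right_mem_cl2 a b) _))
  let θ' : KR r a b →* WR p r P := θ.comp (Subgroup.inclusion hle)
  have hθ' : OpenKer θ' := by
    have : (θ'.ker : Set (KR r a b)) = (Subgroup.inclusion hle) ⁻¹' (θ.ker : Set (cl2 a b)) := rfl
    unfold OpenKer
    rw [this]
    exact hθ.preimage (continuous_subtype_val.subtype_mk _)
  have hval : ∀ i : Fin r, θ' ⟨genR r a b i, genR_mem r a b i⟩ =
      SemidirectProduct.inr t ^ (i : ℕ) * SemidirectProduct.inl F *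
        (SemidirectProduct.inr t ^ (i : ℕ))⁻¹ := by
    intro i
    rw [← hθa, ← hθb, ← map_pow, ← map_mul, ← map_inv, ← map_mul]
    rfl
  have hright : ∀ x, (θ' x).right = 1 := by
    let S : Subgroup (KR r a b) := (SemidirectProduct.rightHom.comp θ').ker
    have hS : IsClosed (S : Set (KR r a b)) :=
      Subgroup.isClosed_of_isOpen _ (hθ'.comp SemidirectProduct.rightHom)
    have htop : S = ⊤ := by
      refine eq_top_of_clS (X := Set.range (genR r a b)) S hS ?_
      rintro _ ⟨i, rfl⟩
      show SemidirectProduct.rightHom (θ' ⟨genR r a b i, genR_mem r a b i⟩) = 1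
      rw [hval, map_mul, map_mul, map_inv, SemidirectProduct.rightHom_inl, mul_one, mul_inv_cancel]
    intro x
    have : x ∈ S := by rw [htop]; exact Subgroup.mem_top _
    exact this
  let φ : KR r a b →* P :=
    { toFun := fun x => (θ' x).left 1
      map_one' := by
        rw [map_one, SemidirectProduct.one_left, Pi.one_apply]
      map_mul' := fun x y => by
        rw [map_mul, SemidirectProduct.mul_left, hright, map_one, Pi.mul_apply]
        rfl }
  refine ⟨φ, ?_, fun i => ?_⟩
  · refine Subgroup.isOpen_mono (H₁ := θ'.ker) ?_ hθ'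
    intro x hx
    have hx' : θ' x = 1 := hx
    rw [MonoidHom.mem_ker]
    show (θ' x).left 1 = 1
    rw [hx', SemidirectProduct.one_left, Pi.one_apply]
  · show (θ' ⟨genR r a b i, genR_mem r a b i⟩).left 1 = f i
    rw [hval, ← map_pow, ← map_inv, SemidirectProduct.mul_left, SemidirectProduct.mul_left,
      SemidirectProduct.left_inr, SemidirectProduct.left_inl, SemidirectProduct.left_inr,
      SemidirectProduct.right_inr, one_mul, map_one, mul_one, ← hF i]
    show F ((t ^ (i : ℕ))⁻¹ * 1) = F (t ^ (i : ℕ))⁻¹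
    rw [mul_one]

end

/-- the subgroup generated by `m` vectors in `(Z/q)^n` has at most `q^m` elements -/
theorem card_closure_le {q m n : ℕ} [NeZero q] (v : Fin m → Multiplicative (Fin n → ZMod q)) :
    Nat.card (Subgroup.closure (Set.range v)) ≤ q ^ m := by
  classical
  let L : (Fin m → ZMod q) →ₗ[ZMod q] (Fin n → ZMod q) :=
    (Pi.basisFun (ZMod q) (Fin m)).constr (ZMod q) fun i => (v i).toAdd
  have hL : ∀ i, L (Pi.single i 1) = (v i).toAdd := by
    intro i
    have h1 := (Pi.basisFun (ZMod q) (Fin m)).constr_basis (ZMod q) (fun i => (v i).toAdd) i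
    rwa [Pi.basisFun_apply] at h1
  let R : Subgroup (Multiplicative (Fin n → ZMod q)) := (AddMonoidHom.toMultiplicative
    (L : (Fin m → ZMod q) →+ (Fin n → ZMod q))).range
  have hle : Subgroup.closure (Set.range v) ≤ R := by
    rw [Subgroup.closure_le]
    rintro _ ⟨i, rfl⟩
    exact ⟨Multiplicative.ofAdd (Pi.single i 1), hL i⟩
  have h1 : Nat.card (Subgroup.closure (Set.range v)) ≤ Nat.card R :=
    Nat.card_le_card_of_injective _ (Subgroup.inclusion_injective hle)
  refine h1.trans ?_
  have h2 : Nat.card R ≤ Nat.card (Multiplicative (Fin m → ZMod q)) :=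
    Nat.card_le_card_of_surjective _ (AddMonoidHom.toMultiplicative
      (L : (Fin m → ZMod q) →+ (Fin n → ZMod q))).rangeRestrict_surjective
  refine h2.trans ?_
  rw [Nat.card_congr (Multiplicative.toAdd (α := Fin m → ZMod q)), Nat.card_fun, Nat.card_zmod,
    Nat.card_fin]

section

variable {p : ℕ} [hp : Fact p.Prime] {G : Type u} [Group G] [TopologicalSpace G]
  [IsTopologicalGroup G] [CompactSpace G] [T2Space G] [TotallyDisconnectedSpace G]

/-- the closed subgroup generated by the `p^e`-th powers of finitely many elements is not open if `e` is large -/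
theorem not_open_powers (hP : ProP p G) (hL : LiftP p G) (hG : ∃ x y : G, x * y ≠ y * x) {m : ℕ}
    (g : Fin m → G) : ∃ e0 : ℕ, ∀ e, e0 ≤ e →
      ¬ IsOpen ((clS (Set.range fun i => g i ^ p ^ e) : Subgroup G) : Set G) := by
  classical
  obtain ⟨a, b, hab⟩ := hG
  have hKc : IsClosed ((KR (m + 1) a b : Subgroup G) : Set G) := isClosed_clS _
  let A : Type := Multiplicative (Fin (m + 1) → ZMod p)
  have hAp : IsPGroup p A := by
    apply IsPGroup.of_card (n := m + 1)
    show Nat.card (Multiplicative (Fin (m + 1) → ZMod p)) = p ^ (m + 1)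
    rw [Nat.card_congr (Multiplicative.toAdd (α := Fin (m + 1) → ZMod p)), Nat.card_fun,
      Nat.card_zmod, Nat.card_fin]
  have hAf : Finite A := inferInstanceAs (Finite (Multiplicative (Fin (m + 1) → ZMod p)))
  obtain ⟨α, hα, hαx⟩ := freeR hP hL hab (m + 1) A hAp
    (fun i => Multiplicative.ofAdd (Pi.single i (1 : ZMod p)))
  obtain ⟨N, hN, hNo, α', hα'1, hα'2⟩ := extend_open (KR (m + 1) a b) α hα
  let W : Subgroup G := KR (m + 1) a b ⊔ N
  have hNW : N ≤ W := le_sup_right
  have hWo : IsOpen (W : Set G) := Subgroup.isOpen_mono hNW hNo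
  have hWc : IsClosed (W : Set G) := Subgroup.isClosed_of_isOpen _ hWo
  have hWcomp : CompactSpace W := isCompact_iff_compactSpace.1 hWc.isCompact
  have hα'o : OpenKer α' := by
    refine Subgroup.isOpen_mono (H₁ := N.subgroupOf W) ?_ (hNo.preimage continuous_subtype_val)
    intro x hx
    rw [MonoidHom.mem_ker]
    exact hα'2 ⟨(x : G), hx⟩
  -- powers in `N`
  choose k hk using fun i : Fin m => hP N hN hNo (g i)
  refine ⟨∑ i, k i, fun e he hopen => ?_⟩
  have hgN : ∀ i, g i ^ p ^ e ∈ N := by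
    intro i
    have h1 : k i ≤ e := le_trans (Finset.single_le_sum (f := k) (fun _ _ => Nat.zero_le _)
      (Finset.mem_univ i)) he
    obtain ⟨d, rfl⟩ := Nat.exists_eq_add_of_le h1
    rw [pow_add, pow_mul]
    exact N.pow_mem (hk i) _
  let H : Subgroup G := clS (Set.range fun i => g i ^ p ^ e)
  have hNc : IsClosed (N : Set G) := Subgroup.isClosed_of_isOpen _ hNo
  have hHW : H ≤ W := by
    refine (clS_le hNc ?_).trans hNW
    rintro _ ⟨i, rfl⟩
    exact hgN i
  let H' : Subgroup W := H.subgroupOf W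
  have hH'o : IsOpen (H' : Set W) := hopen.preimage continuous_subtype_val
  have hfin : Finite (W ⧸ H') := Subgroup.quotient_finite_of_isOpen H' hH'o
  obtain ⟨c, hc⟩ : ∃ c, H'.index = c := ⟨_, rfl⟩
  have hc0 : c ≠ 0 := by
    rw [← hc]
    exact Subgroup.index_ne_zero_of_finite
  -- the lift
  obtain ⟨n, hn1, hn⟩ : ∃ n, n ≠ 0 ∧ c < p ^ n :=
    ⟨c, hc0, Nat.lt_pow_self hp.out.one_lt⟩
  have hne : NeZero (p ^ n) := ⟨pow_ne_zero _ hp.out.ne_zero⟩
  have hdvd : p ∣ p ^ n := dvd_pow_self p hn1
  let B : Type := Multiplicative (Fin (m + 1) → ZMod (p ^ n))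
  have hBcard : Nat.card B = p ^ n * (p ^ n) ^ m := by
    show Nat.card (Multiplicative (Fin (m + 1) → ZMod (p ^ n))) = _
    rw [Nat.card_congr (Multiplicative.toAdd (α := Fin (m + 1) → ZMod (p ^ n))), Nat.card_fun,
      Nat.card_zmod, Nat.card_fin, pow_succ, mul_comm]
  have hBp : IsPGroup p B := by
    apply IsPGroup.of_card (n := n + n * m)
    rw [hBcard, pow_add, pow_mul]
  have hBf : Finite B := inferInstanceAs (Finite (Multiplicative (Fin (m + 1) → ZMod (p ^ n))))
  let cst : ZMod (p ^ n) →+* ZMod p := ZMod.castHom hdvd (ZMod p)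
  let π0 : (Fin (m + 1) → ZMod (p ^ n)) →+ (Fin (m + 1) → ZMod p) :=
    { toFun := fun f i => cst (f i)
      map_zero' := by funext i; exact map_zero cst
      map_add' := fun f f' => by funext i; exact map_add cst _ _ }
  let π : B →* A := AddMonoidHom.toMultiplicative π0
  have hπ : Function.Surjective π := by
    intro q
    choose f hf using fun i => ZMod.castHom_surjective hdvd (q.toAdd i)
    refine ⟨Multiplicative.ofAdd f, ?_⟩
    show Multiplicative.ofAdd (fun i => cst (f i)) = q
    rw [show (fun i => cst (f i)) = q.toAdd from funext hf]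
    rfl
  obtain ⟨β, hβ, hβα⟩ := (hL.sub W hWc).top hBp π hπ α' hα'o
  -- `β` is surjective
  have hα's : ∀ q : A, ∃ w : W, α' w = q := by
    have hrange : α'.range = ⊤ := by
      rw [eq_top_iff]
      intro q _
      obtain ⟨f, hf⟩ : ∃ f : Fin (m + 1) → ZMod p, q = Multiplicative.ofAdd f := ⟨q.toAdd, rfl⟩
      have h1 : f = ∑ i, (f i).val • (Pi.single i (1 : ZMod p)) := by
        funext j
        rw [Finset.sum_apply, Finset.sum_eq_single j]
        · rw [Pi.smul_apply, Pi.single_eq_same, nsmul_one, ZMod.natCast_zmod_val]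
        · intro i _ hij
          rw [Pi.smul_apply, Pi.single_eq_of_ne (Ne.symm hij), smul_zero]
        · intro hj
          exact absurd (Finset.mem_univ j) hj
      have hgen : (Multiplicative.ofAdd f : A) =
          ∏ i, (Multiplicative.ofAdd (Pi.single i (1 : ZMod p)) : A) ^ (f i).val := by
        refine (congrArg Multiplicative.ofAdd h1).trans ?_
        rw [ofAdd_sum]
        exact Finset.prod_congr rfl fun i _ => ofAdd_nsmul _ _
      rw [hf, hgen]
      refine Subgroup.prod_mem _ fun i _ => Subgroup.pow_mem _ ?_ _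
      refine ⟨⟨genR (m + 1) a b i, le_sup_left (a := KR (m + 1) a b) (b := N)
        (genR_mem (m + 1) a b i)⟩, ?_⟩
      rw [← hαx i]
      exact hα'1 ⟨genR (m + 1) a b i, genR_mem (m + 1) a b i⟩
    intro q
    have : q ∈ α'.range := by rw [hrange]; exact Subgroup.mem_top _
    exact this
  have hβs : Function.Surjective β := by
    rw [← MonoidHom.range_eq_top]
    by_contra hne'
    obtain ⟨χ, h1, q, hq⟩ := exists_char_finite hBp β.range hne'
    apply hq
    obtain ⟨w, hw⟩ := hα's (π q)
    have h2 : π ((β w)⁻¹ * q) = 1 := by rw [map_mul, map_inv, hβα, hw, inv_mul_cancel]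
    -- elements of the kernel of `π` are `p`-th powers
    have h3 : ∀ d : B, π d = 1 → χ d = 1 := by
      intro d hd
      have hd' : ∀ i, cst (d.toAdd i) = 0 := by
        intro i
        exact congrFun (congrArg Multiplicative.toAdd hd) i
      have hd2 : ∀ i, ∃ f : ZMod (p ^ n), d.toAdd i = p * f := by
        intro i
        have h4 := hd' i
        obtain ⟨j, hj⟩ := ZMod.natCast_zmod_surjective (d.toAdd i)
        rw [← hj, map_natCast, ZMod.natCast_eq_zero_iff] at h4
        obtain ⟨l, rfl⟩ := h4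
        refine ⟨(l : ZMod (p ^ n)), ?_⟩
        rw [← hj]
        push_cast
        rfl
      choose f hf using hd2
      have h5 : d = (Multiplicative.ofAdd f) ^ p := by
        rw [← ofAdd_nsmul]
        have : d.toAdd = p • f := by
          funext i
          rw [hf i, Pi.smul_apply, nsmul_eq_mul]
        rw [← this]
        rfl
      rw [h5, map_pow]
      have h6 : ∀ y : Multiplicative (ZMod p), y ^ p = 1 := by
        intro y
        have : (y ^ p).toAdd = 0 := by
          rw [toAdd_pow, nsmul_eq_mul, CharP.cast_eq_zero, zero_mul]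
        exact this
      exact h6 _
    have h4 := h3 _ h2
    have h5 : q = β w * ((β w)⁻¹ * q) := (mul_inv_cancel_left _ _).symm
    rw [h5, map_mul, h4, mul_one]
    exact h1 _ ⟨w, rfl⟩
  -- the image of `H'`
  have himg : H'.map β ≤ Subgroup.closure (Set.range fun i : Fin m =>
      β ⟨g i ^ p ^ e, hNW (hgN i)⟩) := by
    rw [Subgroup.map_le_iff_le_comap]
    let D : Subgroup W := (Subgroup.closure (Set.range fun i : Fin m =>
      β ⟨g i ^ p ^ e, hNW (hgN i)⟩)).comap β
    have hDo : IsOpen (D : Set W) := by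
      refine Subgroup.isOpen_mono (H₁ := β.ker) ?_ hβ
      intro x hx
      have hx' : β x = 1 := hx
      show β x ∈ Subgroup.closure (Set.range fun i : Fin m => β ⟨g i ^ p ^ e, hNW (hgN i)⟩)
      rw [hx']
      exact Subgroup.one_mem _
    have hDc0 : IsClosed (D : Set W) := Subgroup.isClosed_of_isOpen D hDo
    have hDc : IsClosed ((D.map W.subtype : Subgroup G) : Set G) := by
      rw [Subgroup.coe_map]
      exact hWc.isClosedEmbedding_subtypeVal.isClosedMap _ hDc0
    have hHD : H ≤ D.map W.subtype := by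
      refine clS_le hDc ?_
      rintro _ ⟨i, rfl⟩
      exact ⟨⟨g i ^ p ^ e, hNW (hgN i)⟩, Subgroup.subset_closure ⟨i, rfl⟩, rfl⟩
    intro x hx
    obtain ⟨y, hy, hyx⟩ := hHD hx
    have : y = x := Subtype.ext hyx
    rw [← this]
    exact hy
  have h1 : Nat.card (H'.map β) ≤ (p ^ n) ^ m := by
    refine le_trans (Nat.card_le_card_of_injective _ (Subgroup.inclusion_injective himg)) ?_
    exact card_closure_le _
  have h2 : (H'.map β).index ∣ c := by
    rw [← hc]
    exact Subgroup.index_map_dvd _ hβs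
  have h3 : (H'.map β).index ≤ c := Nat.le_of_dvd (Nat.pos_of_ne_zero hc0) h2
  have h4 := (H'.map β).card_mul_index
  rw [hBcard] at h4
  have h5 : Nat.card (H'.map β) * (H'.map β).index ≤ (p ^ n) ^ m * c := Nat.mul_le_mul h1 h3
  rw [h4, mul_comm] at h5
  have h6 : 0 < (p ^ n) ^ m := pow_pos (pow_pos hp.out.pos _) _
  have h7 : p ^ n ≤ c := Nat.le_of_mul_le_mul_left h5 h6
  omega

/-- powers of non-commuting elements do not commute -/
theorem pow_noncomm (hP : ProP p G) (hL : LiftP p G) {a b : G} (hab : a * b ≠ b * a) {n : ℕ}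
    (hn : n ≠ 0) : a ^ n * b ^ n ≠ b ^ n * a ^ n := by
  intro h
  apply hab
  have ha : a ^ n ≠ 1 := fun h1 => hab (by
    rw [eq_one_of_pow hP hL hn h1, one_mul, mul_one])
  have hb : b ^ n ≠ 1 := fun h1 => hab (by
    rw [eq_one_of_pow hP hL hn h1, one_mul, mul_one])
  have h1 : a * b ^ n = b ^ n * a :=
    comm_trans' hP hL ha ((Commute.refl a).pow_right n).eq h
  exact comm_trans' hP hL hb h1 ((Commute.refl b).pow_left n).eq

/-- The closed subgroup `G'` generated by high `p`-powers of finitely many elements, two of which do not commute, is a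
retract of an open subgroup `U`, with nontrivial kernel. -/
theorem hall_powers (hP : ProP p G) (hL : LiftP p G)
    (hfg : ∃ n : ℕ, ∃ z : Fin n → G, clS (Set.range z) = ⊤) {m : ℕ} (g : Fin m → G)
    (hg : ∃ i j, g i * g j ≠ g j * g i) : ∃ e0 : ℕ, ∀ e, e0 ≤ e →
      ∃ (U : Subgroup G) (ρ : U →* U), IsOpen (U : Set G) ∧
        clS (Set.range fun i => g i ^ p ^ e) ≤ U ∧ Continuous ρ ∧
        (∀ x, ((ρ x : U) : G) ∈ clS (Set.range fun i => g i ^ p ^ e)) ∧
        (∀ x : U, (x : G) ∈ clS (Set.range fun i => g i ^ p ^ e) → ρ x = x) ∧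
        (∃ x, ρ x = 1 ∧ x ≠ 1) ∧
        ∃ x ∈ clS (Set.range fun i => g i ^ p ^ e), ∃ y ∈ clS (Set.range fun i => g i ^ p ^ e),
          x * y ≠ y * x := by
  obtain ⟨i, j, hij⟩ := hg
  obtain ⟨e0, he0⟩ := not_open_powers hP hL ⟨g i, g j, hij⟩ g
  refine ⟨e0, fun e he => ?_⟩
  obtain ⟨U, ρ, h1, h2, h3, h4, h5⟩ := hall hP hL hfg (fun i => g i ^ p ^ e)
  refine ⟨U, ρ, h1, h2, h3, h4, h5, ?_, g i ^ p ^ e, subset_clS _ ⟨i, rfl⟩, g j ^ p ^ e,
    subset_clS _ ⟨j, rfl⟩, pow_noncomm hP hL hij (pow_ne_zero _ hp.out.ne_zero)⟩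
  by_contra hcon
  push Not at hcon
  apply he0 e he
  have hinj : ∀ x : U, ρ x = x := by
    intro x
    have h6 : ρ (ρ x) = ρ x := h5 _ (h4 x)
    have h7 : ρ (ρ x * x⁻¹) = 1 := by rw [map_mul, map_inv, h6, mul_inv_cancel]
    exact mul_inv_eq_one.1 (hcon _ h7)
  have hle : U ≤ clS (Set.range fun i => g i ^ p ^ e) := by
    intro x hx
    have h6 := h4 ⟨x, hx⟩
    rw [hinj] at h6
    exact h6
  exact Subgroup.isOpen_mono hle h1

end

end MP35
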