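import Pool.Agent.Lib_MP_3538b5_al.FLin
import Pool.Agent.Lib_MP_3538b5_al.GPow


/-!
# Layer F: the contradiction in characteristic `p`

`TorusData R N b`: what the families and the scalars give for an element `b` and a closed normal
subgroup `N`.  `core_contra`: group theory + torus lemma + deep elements.
-/

set_option autoImplicit false

namespace MP35

universe u v w

section group

variable {p : ℕ} [hp : Fact p.Prime] {G : Type u} [Group G] [TopologicalSpace G]
  [IsTopologicalGroup G] [CompactSpace G] [T2Space G] [TotallyDisconnectedSpace G]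

/-- a power of an element of the centralizer of `a ≠ 1` is in `cl a` -/
theorem pow_mem_cl (hP : ProP p G) (hL : LiftP p G) {a x : G} (ha : a ≠ 1)
    (h : a * x = x * a) : ∃ s : ℕ, x ^ p ^ s ∈ cl a := by
  obtain ⟨U, hU⟩ := ProfiniteGrp.exist_openNormalSubgroup_sub_open_nhds_of_one
    (isOpen_compl_singleton : IsOpen ({a}ᶜ : Set G)) (by
      intro h1
      exact ha (Set.mem_singleton_iff.mp h1).symm)
  have haU : a ∉ U.toSubgroup := fun hm => hU hm rfl
  obtain ⟨s, hs⟩ := hP U.toSubgroup U.isNormal' U.isOpen' x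
  refine ⟨s, ?_⟩
  have hUc : IsClosed (U.toSubgroup : Set G) := U.toSubgroup.isClosed_of_isOpen U.isOpen'
  have h1 : cl (x ^ p ^ s) ≤ U.toSubgroup := cl_le hUc hs
  have h3 : a * x ^ p ^ s = x ^ p ^ s * a := ((show Commute a x from h).pow_right (p ^ s)).eq
  rcases commute_cyc' hP hL h3 with h2 | h2
  · exact h2
  · exact absurd (h1 h2) haU

/-- the kernel of an endomorphism contains the centralizers of its nontrivial elements -/
theorem mem_ker_of_comm (hP : ProP p G) (hL : LiftP p G) (π : G →* G) (hπ : Continuous π)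
    {a x : G} (haN : a ∈ π.ker) (ha : a ≠ 1) (h : a * x = x * a) : x ∈ π.ker := by
  obtain ⟨s, hs⟩ := pow_mem_cl hP hL ha h
  have hcl : IsClosed ((π.ker : Subgroup G) : Set G) := by
    have : ((π.ker : Subgroup G) : Set G) = π ⁻¹' {1} := by
      ext z
      rw [SetLike.mem_coe, MonoidHom.mem_ker]
      rfl
    rw [this]
    exact isClosed_singleton.preimage hπ
  have h1 : x ^ p ^ s ∈ π.ker := cl_le hcl haN hs
  rw [MonoidHom.mem_ker, map_pow] at h1
  exact eq_one_of_pow hP hL (pow_ne_zero _ hp.out.ne_zero) h1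

end group

/-- a nonzero element of a finite `T`-algebra divides a nonzero element of `T` -/
theorem exists_dvd_base {T : Type v} [CommRing T] [IsDomain T] {Ω : Type w} [Field Ω] [Algebra T Ω]
    (T₂ : Subalgebra T Ω) [Module.Finite T T₂] {d : Ω} (hd : d ∈ T₂) (hd0 : d ≠ 0) :
    ∃ c : T, c ≠ 0 ∧ ∃ s ∈ T₂, algebraMap T Ω c = s * d := by
  have h1 : IsIntegral T (⟨d, hd⟩ : T₂) := Algebra.IsIntegral.isIntegral _
  have h2 : (⟨d, hd⟩ : T₂) ∈ nonZeroDivisors T₂ :=
    mem_nonZeroDivisors_of_ne_zero fun h => hd0 (congrArg Subtype.val h)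
  obtain ⟨c, hc, s, hs⟩ := h1.isAlgebraic.exists_nonzero_dvd h2
  refine ⟨c, hc, s, s.2, ?_⟩
  have h3 := congrArg Subtype.val hs
  rw [mul_comm]
  exact h3

namespace Rep

variable {p : ℕ} {G : Type u} [Group G] [TopologicalSpace G] [IsTopologicalGroup G]
  [CompactSpace G] {T : Type v} [CommRing T] [TopologicalSpace T] [CNR T] {Ω : Type v} [Field Ω]
  [Algebra T Ω] {n : ℕ}

/-- what the families and the scalars give -/
def TorusData (R : Rep p G T Ω n) (N : Subgroup G) [N.Normal] (hN : IsClosed (N : Set G))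
    (b : G) : Prop :=
  ∃ (T₂ : Subalgebra T Ω) (_ : Module.Finite T T₂) (D : Ω) (hD : D ∈ T₂) (hD0 : D ≠ 0)
    (_ : ¬ IsUnit (⟨D, hD⟩ : T₂)) (e : ℕ) (y : Module.End Ω (Matrix (Fin n) (Fin n) Ω)),
    (R.lin T₂ hD hD0 N hN).LDv y ∧
      (R.Ad (b ^ p ^ e) - 1) * y * (R.Ad (b ^ p ^ e) - 1) = R.Ad (b ^ p ^ e) - 1

/-- small multiples of `A` -/
theorem exists_small [IsDomain T] (R : Rep p G T Ω n) (T₂ : Subalgebra T Ω) [Module.Finite T T₂]
    {D : Ω} (hD : D ∈ T₂) (hD0 : D ≠ 0) (m : ℤ) :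
    ∃ c : T, c ≠ 0 ∧ ∀ x ∈ R.A, c • x ∈ R.FF T₂ D m := by
  obtain ⟨c, hc, s, hs, e⟩ := exists_dvd_base T₂ (T₂.pow_mem hD m.toNat) (pow_ne_zero _ hD0)
  refine ⟨c, hc, fun x hx => ?_⟩
  have h1 : D ^ (m.toNat : ℤ) • x ∈ R.FF T₂ D (0 + (m.toNat : ℤ)) :=
    (R.FF_scale hD0 _).2 (R.A_le_FF hx)
  rw [zpow_natCast] at h1
  have h2 : D ^ m.toNat • x ∈ R.FF T₂ D m :=
    R.FF_anti hD hD0 (by have := Int.self_le_toNat m; omega) h1
  rw [← algebraMap_smul Ω c x, e, mul_smul]
  exact R.FF_smul h2 hs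

end Rep

section final

variable {p : ℕ} [hp : Fact p.Prime] {G : Type u} [Group G] [TopologicalSpace G]
  [IsTopologicalGroup G] [CompactSpace G] [T2Space G] [TotallyDisconnectedSpace G]
  {T : Type v} [CommRing T] [TopologicalSpace T] [CNR T] [IsDomain T] {Ω : Type v} [Field Ω]
  [Algebra T Ω] {n : ℕ}

/-- a retract with torus data for an element of the kernel and deep elements in the image:
contradiction -/
theorem torus_contra (hP : ProP p G) (hL : LiftP p G) (R : Rep p G T Ω n) (π : G →* G)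
    (hπ : Continuous π) (hN : IsClosed ((π.ker : Subgroup G) : Set G)) {b : G} (hb : b ∈ π.ker)
    (hb1 : b ≠ 1) (hdata : R.TorusData π.ker hN b)
    (hdeep : ∀ c : T, c ≠ 0 → ∃ h : G, h ≠ 1 ∧ π h = h ∧ ∃ x ∈ R.A, R.ρ h = 1 + c • x) :
    False := by
  obtain ⟨T₂, hfin, D, hD, hD0, hu, e, y, hy, hyα⟩ := hdata
  have ha : b ^ p ^ e ∈ π.ker := π.ker.pow_mem hb _
  have ha1 : b ^ p ^ e ≠ 1 := fun h =>
    hb1 (eq_one_of_pow hP hL (pow_ne_zero _ hp.out.ne_zero) h)
  obtain ⟨m₁, hm₁⟩ := R.lin_torus hD hD0 π.ker hN hu ha hy hyα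
  obtain ⟨c, hc, hcA⟩ := R.exists_small T₂ hD hD0 m₁
  obtain ⟨h, hh1, hπh, x, hx, hρ⟩ := hdeep c hc
  obtain ⟨z, hz, hcomm⟩ := hm₁ h (by
    rw [hρ, add_sub_cancel_left]
    exact hcA x hx)
  have h1 : h * z ∈ π.ker := mem_ker_of_comm hP hL π hπ ha ha1 hcomm
  have h2 : h ∈ π.ker := (Subgroup.mul_mem_cancel_right _ hz).1 h1
  rw [MonoidHom.mem_ker, hπh] at h2
  exact hh1 h2

end final

end MP35
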