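import Pool.Agent.Lib_MP_3538b5_al.FRings
import Pool.Agent.Lib_MP_3538b5_al.LemV

/-!
# Layer F: kernels of nontrivial factors are incomparable (F2)
-/

set_option autoImplicit false
set_option linter.unusedSectionVars false

namespace MP35

universe u v w

namespace Rep

variable {p : ℕ} [Fact p.Prime] {G : Type u} [Group G] [TopologicalSpace G] [IsTopologicalGroup G]
  [CompactSpace G] [T2Space G] [TotallyDisconnectedSpace G] {T : Type v} [CommRing T]
  [TopologicalSpace T] [CNR T] [IsDomain T] {Ω : Type v} [Field Ω] [IsAlgClosed Ω] [Algebra T Ω]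
  {n : ℕ} {R : Rep p G T Ω n}


private theorem acts_mul_left (Φ : R.Fl) {j : ℕ} {a x : R.B}
    (hx : Φ.Acts (x : Module.End Ω (Matrix (Fin n) (Fin n) Ω)) j 0) :
    Φ.Acts ((a * x : R.B) : Module.End Ω (Matrix (Fin n) (Fin n) Ω)) j 0 := by
  intro v hv
  have h1 := hx v hv
  rw [zero_smul, sub_zero] at h1 ⊢
  exact R.B_stable (U := Φ.W j) (fun g v hv => Φ.stable _ ⟨g, rfl⟩ j v hv) a.2 _ h1

private theorem acts_mul_right (Φ : R.Fl) {j : ℕ} {a x : R.B}
    (hx : Φ.Acts (x : Module.End Ω (Matrix (Fin n) (Fin n) Ω)) j 0) :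
    Φ.Acts ((x * a : R.B) : Module.End Ω (Matrix (Fin n) (Fin n) Ω)) j 0 := by
  intro v hv
  have h1 := hx _ (R.B_stable (U := Φ.W (j + 1))
    (fun g v hv => Φ.stable _ ⟨g, rfl⟩ (j + 1) v hv) a.2 v hv)
  rw [zero_smul, sub_zero] at h1 ⊢
  exact h1

/-- the elements of `B` acting as zero on a factor -/
private def zeroSub (Φ : R.Fl) (j : ℕ) : Submodule T R.B where
  carrier := {y | Φ.Acts (y : Module.End Ω (Matrix (Fin n) (Fin n) Ω)) j 0}
  zero_mem' := by
    intro v _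
    rw [zero_smul, sub_zero]
    exact (Φ.W j).zero_mem
  add_mem' {x y} hx hy := by
    intro v hv
    have h1 := hx v hv
    have h2 := hy v hv
    rw [zero_smul, sub_zero] at h1 h2 ⊢
    exact (Φ.W j).add_mem h1 h2
  smul_mem' t x hx := by
    intro v hv
    have h1 := hx v hv
    rw [zero_smul, sub_zero] at h1 ⊢
    have e : ((t • x : R.B) : Module.End Ω (Matrix (Fin n) (Fin n) Ω)) v
        = algebraMap T Ω t • (x : Module.End Ω (Matrix (Fin n) (Fin n) Ω)) v := by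
      rw [algebraMap_smul]; rfl
    rw [e]
    exact (Φ.W j).smul_mem _ h1

/-- the elements of `CB` acting as zero on a factor, an additive group -/
private def zeroCB (Φ : R.Fl) (j : ℕ) : AddSubgroup R.B where
  carrier := {y | y ∈ R.CB ∧ Φ.Acts (y : Module.End Ω (Matrix (Fin n) (Fin n) Ω)) j 0}
  zero_mem' := ⟨R.CB.zero_mem, (zeroSub Φ j).zero_mem⟩
  add_mem' hx hy := ⟨R.CB.add_mem hx.1 hy.1, (zeroSub Φ j).add_mem hx.2 hy.2⟩
  neg_mem' {x} hx := by
    refine ⟨R.CB.neg_mem hx.1, ?_⟩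
    intro v hv
    have h1 := hx.2 v hv
    rw [zero_smul, sub_zero] at h1 ⊢
    exact (Φ.W j).neg_mem h1

private theorem mem_zeroCB {Φ : R.Fl} {j : ℕ} {y : R.B} : y ∈ zeroCB Φ j ↔
    y ∈ R.CB ∧ Φ.Acts (y : Module.End Ω (Matrix (Fin n) (Fin n) Ω)) j 0 := Iff.rfl

private theorem isClosed_zeroCB (Φ : R.Fl) (j : ℕ) : IsClosed (zeroCB Φ j : Set R.B) := by
  have h1 : (zeroCB Φ j : Set R.B) = (R.CB : Set R.B) ∩ (zeroSub Φ j : Set R.B) := rfl
  rw [h1]
  have h2 : IsClosed (zeroSub Φ j : Set R.B) :=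
    @isClosed_submodule T _ _ _ R.B _ _ _ _ _ (zeroSub Φ j)
  exact R.isClosed_CB.inter h2

/-- deep elements: `Ad h - 1 = c • λ`, `λ ∈ LB Φ` -/
private theorem exists_deep {k : ℕ} (hR : MCore R k) (Φ : R.Fl) {c : T} (hc : c ≠ 0) :
    ∃ h : G, h ≠ 1 ∧ ∃ l : R.LB Φ, R.jL Φ h - 1 = c • l := by
  obtain ⟨h, hh, h1⟩ := hR.deep_top hc
  refine ⟨h, h1, ?_⟩
  obtain ⟨a, ha⟩ := R.mem_NI_span.1 hh
  obtain ⟨b, hb⟩ := R.mem_NI_span.1 ((R.NI _).inv_mem hh)
  have ha' : R.ρ h = 1 + c • (a : Matrix (Fin n) (Fin n) Ω) := congrArg Subtype.val ha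
  have hb' : R.ρ h⁻¹ = 1 + c • (b : Matrix (Fin n) (Fin n) Ω) := congrArg Subtype.val hb
  let l : Module.End Ω (Matrix (Fin n) (Fin n) Ω) :=
    R.lrBil a 1 + R.lrBil 1 b + c • R.lrBil a b
  have hl : R.Ad h - 1 = c • l := by
    refine LinearMap.ext fun x => ?_
    have e1 : (R.Ad h - 1) x = R.ρ h * x * R.ρ h⁻¹ - x := rfl
    have e2 : (c • l) x = c • ((a : Matrix (Fin n) (Fin n) Ω) * x * (1 : Matrix (Fin n) (Fin n) Ω)
      + (1 : Matrix (Fin n) (Fin n) Ω) * x * (b : Matrix (Fin n) (Fin n) Ω)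
      + c • ((a : Matrix (Fin n) (Fin n) Ω) * x * (b : Matrix (Fin n) (Fin n) Ω))) := rfl
    rw [e1, e2, ha', hb']
    simp only [add_mul, mul_add, one_mul, mul_one, smul_mul_assoc, mul_smul_comm, smul_add]
    abel
  have hlm : l ∈ R.lrMod :=
    add_mem (add_mem (R.lrBil_mem _ _) (R.lrBil_mem _ _))
      (Submodule.smul_mem _ _ (R.lrBil_mem _ _))
  have hc' : algebraMap T Ω c ≠ 0 := fun h0 => hc (R.tinj (by rw [h0, map_zero]))
  have hl0 : l ∈ Φ.J 0 := by
    intro i v hv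
    have h2 : (R.Ad h - 1) v ∈ Φ.W i := by
      have e1 : (R.Ad h - 1) v = R.Ad h v - v := rfl
      rw [e1]
      exact (Φ.W i).sub_mem (Φ.stable _ ⟨h, rfl⟩ i v hv) hv
    rw [hl] at h2
    have e2 : (c • l) v = algebraMap T Ω c • l v := by
      rw [algebraMap_smul]; rfl
    rw [e2] at h2
    have h3 := (Φ.W i).smul_mem (algebraMap T Ω c)⁻¹ h2
    rwa [smul_smul, inv_mul_cancel₀ hc', one_smul] at h3
  exact ⟨⟨l, hlm, hl0⟩, Subtype.ext hl⟩

/-- an abstract Artin-Rees argument: `Mh` a noetherian `S`-module, `U` a submodule: there is `m` such that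
`z ^ (m + 1) • x ∈ U` implies `z ^ m • x ∈ U` for `x ∈ Mh`. -/
private theorem exists_stable {S : Type*} [CommRing S] {M : Type*} [AddCommGroup M] [Module S M]
    (Mh U : Submodule S M) [IsNoetherian S Mh] (z : S) :
    ∃ m : ℕ, ∀ x ∈ Mh, z ^ (m + 1) • x ∈ U → z ^ m • x ∈ U := by
  let X : ℕ →o Submodule S Mh :=
    { toFun := fun m => (U.comap (LinearMap.lsmul S M (z ^ m))).comap Mh.subtype
      monotone' := by
        refine monotone_nat_of_le_succ fun m => ?_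
        intro x hx
        have hx' : z ^ m • (x : M) ∈ U := hx
        show z ^ (m + 1) • (x : M) ∈ U
        rw [pow_succ', mul_smul]
        exact U.smul_mem _ hx' }
  obtain ⟨m, hm⟩ := monotone_stabilizes_iff_noetherian.2 (inferInstance : IsNoetherian S Mh) X
  refine ⟨m, fun x hx h => ?_⟩
  have h1 : (⟨x, hx⟩ : Mh) ∈ X (m + 1) := h
  rw [← hm (m + 1) (Nat.le_succ m)] at h1
  exact h1

/-- PROOF. Suppose `x ∈ CB` acts as `0` on the factor `j` but not on `i`. `q = {y ∈ CB | Acts y j 0}` is a closed two-sided ideal of `CB` (closed: the elements of `R.B` acting as `0` on the factor form a submodule, `isClosed_submodule`; `isClosed_CB`), contained in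
`plusSet` (`mem_plusSet_of_acts`), and `blk_i x ≠ 0` (`blk_eq_zero`). Take `T'`, `S`, `z` from `blk_scal`. Write `π = blkL Φ hi`, on the `T`-algebra `LB Φ` (it extends `blk Φ hi`).
Let `M̂` be the `T'`-span of `π (LB Φ)` in the matrices, a finite `T'`-module (`finLB`), so a finite `S`-module (`Module.Finite.trans`), hence a noetherian `S`-module. `U ≤ M̂` the `S`-submodule spanned by `π (CB)`. `z • U ≤ π (q)`: `z s π(y) = π (w) π (y) = π (w y)`, `w ∈ q` with `π w = z s • 1`.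
`X_m = {x ∈ M̂ | z ^ m • x ∈ U}` is an increasing chain of submodules, so `X_(m+1) = X_m` for some `m` (`monotone_stabilizes_iff_noetherian`).
There is `c ≠ 0` in `T` with `algebraMap c = z ^ (m+1) * t'`, `t' ∈ T'` (`T'` is integral over `T`, a nonzero ideal of `T'` meets `T`: `Ideal.exists_nonzero_mem_of_ne_bot` / `Ideal.comap_ne_bot_of_integral_mem`). By `hR.deep ⊤` there is `h ≠ 1` with `ρ h - 1 = c • a`, `a ∈ R.A` (`mem_NI_span`/`mem_NI_mat`; `R.res ⊤` has the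
same order; `(R.res ⊤).Full` follows from `hR.full`), and `ρ h⁻¹ - 1 = c • a'` (`NI` is a subgroup), so `Ad h - 1 = c • λ` with `λ = lr(a, 1) + lr(1, a') + c lr(a, a') ∈ lrMod`, and `λ` preserves the flag because `c • λ` does and `c ≠ 0` in the field `Ω`: `λ ∈ LB Φ`.
So `π (Ad h - 1) = c • π λ = z ^ (m+1) • (t' • π λ)` is in `U`, i.e. `t' • π λ ∈ X_(m+1) = X_m`, and `π (Ad h - 1) = z • (z ^ m • t' • π λ) ∈ z • U ≤ π (q)`: there is `w ∈ q` with `blk_i w = blk_i (jB h - 1)`. So `jB h - 1 - w ∈ CB` acts as `0` on `i`, so on `j` (`h`), and `w` acts as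
`0` on `j`; hence `Acts (Ad h) j 1` and `h = 1` (`blk_faithful`), contradiction. -/
theorem incomparable [CharP Ω p] {k : ℕ} (hR : MCore R k) (Φ : R.Fl) {i j : ℕ}
    (hi : i < Φ.l) (hj : j < Φ.l) (hin : ¬ Φ.Triv i) (hjn : ¬ Φ.Triv j)
    (h : ∀ y ∈ R.CB, Φ.Acts (y : Module.End Ω (Matrix (Fin n) (Fin n) Ω)) i 0 →
      Φ.Acts (y : Module.End Ω (Matrix (Fin n) (Fin n) Ω)) j 0) :
    ∀ y ∈ R.CB, Φ.Acts (y : Module.End Ω (Matrix (Fin n) (Fin n) Ω)) j 0 →
      Φ.Acts (y : Module.End Ω (Matrix (Fin n) (Fin n) Ω)) i 0 := by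
  intro x0 hx0 hx0j
  by_contra hx0i
  obtain ⟨d, hd⟩ : ∃ d, Φ.dim i = d := ⟨_, rfl⟩
  obtain ⟨T', hfin, S, hS, hST', z, hzS, hz0, hz⟩ := blk_scal hR Φ hi hin hd (zeroCB Φ j)
    (fun x hx => mem_plusSet_of_acts hR Φ hj hjn (mem_zeroCB.1 hx).1 (mem_zeroCB.1 hx).2)
    (fun a ha x hx => mem_zeroCB.2 ⟨R.CB.mul_mem ha (mem_zeroCB.1 hx).1,
      acts_mul_left Φ (mem_zeroCB.1 hx).2⟩)
    (fun a ha x hx => mem_zeroCB.2 ⟨R.CB.mul_mem (mem_zeroCB.1 hx).1 ha,
      acts_mul_right Φ (mem_zeroCB.1 hx).2⟩)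
    (isClosed_zeroCB Φ j)
    ⟨x0, mem_zeroCB.2 ⟨hx0, hx0j⟩, fun h0 => hx0i ((R.blk_eq_zero Φ hi hd x0).1 h0)⟩
  let zS : S := ⟨z, hzS⟩
  -- the finite module
  let Mh' : Submodule T' (Matrix (Fin d) (Fin d) Ω) :=
    Submodule.span T' (Set.range (R.blkL Φ hi hd))
  have hMfg : Module.Finite T' Mh' := by
    obtain ⟨F, hF⟩ := (Module.Finite.fg_top : (⊤ : Submodule T (R.LB Φ)).FG)
    have hle : Mh' ≤ Submodule.span T' (R.blkL Φ hi hd '' (F : Set (R.LB Φ))) := by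
      rw [Submodule.span_le]
      rintro _ ⟨y, rfl⟩
      have hy : y ∈ Submodule.span T (F : Set (R.LB Φ)) := by rw [hF]; trivial
      refine Submodule.span_induction ?_ ?_ ?_ ?_ hy
      · intro x hx
        exact Submodule.subset_span ⟨x, hx, rfl⟩
      · have e : R.blkL Φ hi hd 0 = 0 := map_zero _
        rw [e]
        exact zero_mem _
      · intro a b _ _ ha hb
        have e : R.blkL Φ hi hd (a + b) = R.blkL Φ hi hd a + R.blkL Φ hi hd b := map_add _ _ _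
        rw [e]
        exact add_mem ha hb
      · intro t a _ ha
        have e : R.blkL Φ hi hd (t • a) = algebraMap T T' t • R.blkL Φ hi hd a := by
          rw [map_smul, algebraMap_smul]
        rw [e]
        exact Submodule.smul_mem _ _ ha
    have hge : Submodule.span T' (R.blkL Φ hi hd '' (F : Set (R.LB Φ))) ≤ Mh' :=
      Submodule.span_mono (Set.image_subset_range _ _)
    have heq : Mh' = Submodule.span T' (R.blkL Φ hi hd '' (F : Set (R.LB Φ))) :=
      le_antisymm hle hge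
    rw [heq]
    exact Module.Finite.span_of_finite T' (F.finite_toSet.image _)
  let Mh : Submodule S (Matrix (Fin d) (Fin d) Ω) := Mh'.restrictScalars S
  have hMfin : Module.Finite S Mh := by
    have : Module.Finite S Mh' := Module.Finite.trans T' Mh'
    exact this
  have hMn : IsNoetherian S Mh := isNoetherian_of_isNoetherianRing_of_finite S Mh
  let U : Submodule S (Matrix (Fin d) (Fin d) Ω) :=
    Submodule.span S (R.blk Φ hi hd '' (R.CB : Set R.B))
  have hU : ∀ u ∈ U, ∀ s ∈ S, ∃ w ∈ zeroCB Φ j, R.blk Φ hi hd w = ((z * s : T') : Ω) • u := by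
    intro u hu
    refine Submodule.span_induction ?_ ?_ ?_ ?_ hu
    · rintro _ ⟨y, hy, rfl⟩ s hs
      obtain ⟨w, hw, e⟩ := hz s hs
      refine ⟨w * y, mem_zeroCB.2 ⟨R.CB.mul_mem (mem_zeroCB.1 hw).1 hy,
        acts_mul_right Φ (mem_zeroCB.1 hw).2⟩, ?_⟩
      rw [map_mul, e, smul_mul_assoc, one_mul]
    · intro s _
      exact ⟨0, (zeroCB Φ j).zero_mem, by rw [map_zero, smul_zero]⟩
    · intro x y _ _ hx hy s hs
      obtain ⟨w, hw, e⟩ := hx s hs
      obtain ⟨w', hw', e'⟩ := hy s hs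
      exact ⟨w + w', (zeroCB Φ j).add_mem hw hw', by rw [map_add, e, e', smul_add]⟩
    · intro t x _ hx s hs
      obtain ⟨w, hw, e⟩ := hx (s * t) (S.mul_mem hs t.2)
      refine ⟨w, hw, ?_⟩
      rw [e]
      have e1 : t • x = ((t : T') : Ω) • x := rfl
      rw [e1, smul_smul]
      congr 1
      push_cast
      ring
  obtain ⟨m, hm⟩ := exists_stable Mh U zS
  -- an element of `T`
  have hzm : z ^ (m + 1) ≠ 0 := pow_ne_zero _ hz0
  obtain ⟨c, hc0, t', hct⟩ : ∃ c : T, c ≠ 0 ∧ ∃ t' : T', algebraMap T T' c = z ^ (m + 1) * t' := by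
    have hint : IsIntegral T (z ^ (m + 1)) := Algebra.IsIntegral.isIntegral _
    have h1 := Ideal.comap_ne_bot_of_integral_mem (I := Ideal.span {z ^ (m + 1)}) hzm
      (Ideal.mem_span_singleton_self _) hint
    obtain ⟨c, hc, hc0⟩ := Submodule.exists_mem_ne_zero_of_ne_bot h1
    obtain ⟨t', ht'⟩ := Ideal.mem_span_singleton.1 (Ideal.mem_comap.1 hc)
    exact ⟨c, hc0, t', ht'⟩
  obtain ⟨h1, hh1, l, hl⟩ := exists_deep hR Φ hc0
  have e1 : R.blk Φ hi hd (R.jB h1 - 1) = algebraMap T Ω c • R.blkL Φ hi hd l := by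
    have e2 : R.blk Φ hi hd (R.jB h1 - 1) = R.blkL Φ hi hd (R.jL Φ h1 - 1) := rfl
    rw [e2, hl, map_smul, algebraMap_smul]
  let x : Matrix (Fin d) (Fin d) Ω := (t' : Ω) • R.blkL Φ hi hd l
  have hx : x ∈ Mh := Mh'.smul_mem t' (Submodule.subset_span ⟨l, rfl⟩)
  have e3 : zS ^ (m + 1) • x = R.blk Φ hi hd (R.jB h1 - 1) := by
    have e4 : zS ^ (m + 1) • x = ((z ^ (m + 1) : T') : Ω) • x := rfl
    have e5 : algebraMap T Ω c = ((z ^ (m + 1) : T') : Ω) * (t' : Ω) := congrArg Subtype.val hct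
    rw [e1, e4, e5, mul_smul]
  have hxU : zS ^ (m + 1) • x ∈ U := by
    rw [e3]
    refine Submodule.subset_span ⟨_, ?_, rfl⟩
    exact R.CB.sub_mem (Subring.le_topologicalClosure _ (Subring.subset_closure ⟨h1, rfl⟩))
      R.CB.one_mem
  obtain ⟨w, hw, e6⟩ := hU _ (hm x hx hxU) 1 S.one_mem
  have e7 : R.blk Φ hi hd w = R.blk Φ hi hd (R.jB h1 - 1) := by
    rw [e6, ← e3, pow_succ', mul_smul, mul_one]
    rfl
  have hw' := mem_zeroCB.1 hw
  have e8 := h (R.jB h1 - 1 - w) (R.CB.sub_mem (R.CB.sub_mem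
    (Subring.le_topologicalClosure _ (Subring.subset_closure ⟨h1, rfl⟩)) R.CB.one_mem) hw'.1)
    ((R.blk_eq_zero Φ hi hd _).1 (by
      have e14 : R.blk Φ hi hd (R.jB h1 - 1 - w)
        = R.blk Φ hi hd (R.jB h1 - 1) - R.blk Φ hi hd w := map_sub (R.blk Φ hi hd) _ _
      rw [e14, e7, sub_self]))
  refine hh1 (blk_faithful hR Φ hj hjn ?_)
  intro v hv
  have e9 := e8 v hv
  have e10 := hw'.2 v hv
  rw [zero_smul, sub_zero] at e9 e10
  have e11 := (Φ.W j).add_mem e9 e10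
  have e12 : ((R.jB h1 - 1 - w : R.B) : Module.End Ω (Matrix (Fin n) (Fin n) Ω)) v
      + (w : Module.End Ω (Matrix (Fin n) (Fin n) Ω)) v = R.Ad h1 v - v := by
    have e13 : ((R.jB h1 - 1 - w : R.B) : Module.End Ω (Matrix (Fin n) (Fin n) Ω)) v
      = R.Ad h1 v - v - (w : Module.End Ω (Matrix (Fin n) (Fin n) Ω)) v := rfl
    rw [e13, sub_add_cancel]
  rw [e12] at e11
  rwa [one_smul]

end Rep

end MP35
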