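import Pool.Agent.Lib_MP_3538b5_al.FRings
import Pool.Agent.Lib_MP_3538b5_al.FIncomp

/-!
# Layer F: the ideal of a family

Owner: helper99.
-/

set_option autoImplicit false
set_option linter.unusedSectionVars false

namespace MP35

universe u v w

/-- the ring of matrices is prime -/
theorem matrix_prime {Ω : Type v} [Field Ω] {d : ℕ} {A B : Matrix (Fin d) (Fin d) Ω}
    (h : ∀ M, A * M * B = 0) : A = 0 ∨ B = 0 := by
  by_contra hcon
  push Not at hcon
  obtain ⟨hA, hB⟩ := hcon
  obtain ⟨i, j, hij⟩ : ∃ i j, A i j ≠ 0 := by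
    by_contra h'
    push Not at h'
    exact hA (by ext i j; exact h' i j)
  obtain ⟨k, l, hkl⟩ : ∃ k l, B k l ≠ 0 := by
    by_contra h'
    push Not at h'
    exact hB (by ext i j; exact h' i j)
  have h1 := congrFun (congrFun (h (Matrix.single j k 1)) i) l
  have h2 : (A * Matrix.single j k (1 : Ω) * B) i l = A i j * B k l := by
    rw [Matrix.mul_apply, Finset.sum_eq_single k]
    · rw [Matrix.mul_apply, Finset.sum_eq_single j]
      · simp
      · intro b _ hb
        simp [Ne.symm hb]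
      · intro h'; exact absurd (Finset.mem_univ _) h'
    · intro b _ hb
      have : (A * Matrix.single j k (1 : Ω)) i b = 0 := by
        rw [Matrix.mul_apply]
        refine Finset.sum_eq_zero fun c _ => ?_
        simp [Ne.symm hb]
      rw [this, zero_mul]
    · intro h'; exact absurd (Finset.mem_univ _) h'
  rw [h2] at h1
  exact mul_ne_zero hij hkl h1

section aug

variable {T : Type v} [CommRing T] {B : Type w} [Ring B] [Algebra T B] {G : Type u} [Group G]
  {j : G → B} (hj : ∀ g h, j (g * h) = j g * j h)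

include hj

theorem aug_left (a : B) (ha : a ∈ Submodule.span T (Set.range j)) {x : B}
    (hx : x ∈ Submodule.span T (Set.range fun g => j g - 1)) :
    a * x ∈ Submodule.span T (Set.range fun g => j g - 1) := by
  refine Submodule.span_induction (fun a ha => ?_) ?_ (fun a b _ _ ha hb => ?_)
    (fun t a _ ha => ?_) ha
  · obtain ⟨g, rfl⟩ := ha
    refine Submodule.span_induction (fun x hx => ?_) ?_ (fun x y _ _ hx hy => ?_)
      (fun t x _ hx => ?_) hx
    · obtain ⟨h, rfl⟩ := hx
      have e : j g * (j h - 1) = (j (g * h) - 1) - (j g - 1) := by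
        rw [hj, mul_sub, mul_one]
        abel
      show j g * (j h - 1) ∈ _
      rw [e]
      exact sub_mem (Submodule.subset_span ⟨_, rfl⟩) (Submodule.subset_span ⟨_, rfl⟩)
    · rw [mul_zero]; exact zero_mem _
    · rw [mul_add]; exact add_mem hx hy
    · rw [mul_smul_comm]; exact Submodule.smul_mem _ _ hx
  · rw [zero_mul]; exact zero_mem _
  · rw [add_mul]; exact add_mem ha hb
  · rw [smul_mul_assoc]; exact Submodule.smul_mem _ _ ha

theorem aug_right (a : B) (ha : a ∈ Submodule.span T (Set.range j)) {x : B}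
    (hx : x ∈ Submodule.span T (Set.range fun g => j g - 1)) :
    x * a ∈ Submodule.span T (Set.range fun g => j g - 1) := by
  refine Submodule.span_induction (fun a ha => ?_) ?_ (fun a b _ _ ha hb => ?_)
    (fun t a _ ha => ?_) ha
  · obtain ⟨g, rfl⟩ := ha
    refine Submodule.span_induction (fun x hx => ?_) ?_ (fun x y _ _ hx hy => ?_)
      (fun t x _ hx => ?_) hx
    · obtain ⟨h, rfl⟩ := hx
      have e : (j h - 1) * j g = (j (h * g) - 1) - (j g - 1) := by
        rw [hj, sub_mul, one_mul]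
        abel
      show (j h - 1) * j g ∈ _
      rw [e]
      exact sub_mem (Submodule.subset_span ⟨_, rfl⟩) (Submodule.subset_span ⟨_, rfl⟩)
    · rw [zero_mul]; exact zero_mem _
    · rw [add_mul]; exact add_mem hx hy
    · rw [smul_mul_assoc]; exact Submodule.smul_mem _ _ hx
  · rw [mul_zero]; exact zero_mem _
  · rw [mul_add]; exact add_mem ha hb
  · rw [mul_smul_comm]; exact Submodule.smul_mem _ _ ha

end aug

namespace Rep

variable {p : ℕ} [Fact p.Prime] {G : Type u} [Group G] [TopologicalSpace G] [IsTopologicalGroup G]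
  [CompactSpace G] [T2Space G] [TotallyDisconnectedSpace G] {T : Type v} [CommRing T]
  [TopologicalSpace T] [CNR T] [IsDomain T] {Ω : Type v} [Field Ω] [IsAlgClosed Ω] [Algebra T Ω]
  {n : ℕ} {R : Rep p G T Ω n}

/-- the augmentation submodule of `B` -/
def plusMod (R : Rep p G T Ω n) : Submodule T R.B :=
  Submodule.span T (Set.range fun g => R.jB g - 1)

theorem mem_plusSet {y : R.B} : y ∈ R.plusSet ↔ y ∈ R.CB ∧ y ∈ R.plusMod := Iff.rfl

theorem mem_span_jB (a : R.B) : a ∈ Submodule.span T (Set.range R.jB) := by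
  have h1 : a ∈ Algebra.adjoin T (Set.range R.jB) := by
    rw [R.adjoin_jB_eq_top]; trivial
  rw [← Subalgebra.mem_toSubmodule, Algebra.adjoin_eq_span] at h1
  have h3 : (Submonoid.closure (Set.range R.jB) : Set R.B) = Set.range R.jB := by
    have h4 : Set.range R.jB = ((MonoidHom.mrange R.jB : Submonoid R.B) : Set R.B) := by
      rw [MonoidHom.coe_mrange]
    rw [h4, Submonoid.closure_eq]
  rwa [h3] at h1

theorem mul_plusMod (a : R.B) {x : R.B} (hx : x ∈ R.plusMod) : a * x ∈ R.plusMod :=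
  aug_left (j := R.jB) (fun g h => map_mul R.jB g h) a (R.mem_span_jB a) hx

theorem plusMod_mul (a : R.B) {x : R.B} (hx : x ∈ R.plusMod) : x * a ∈ R.plusMod :=
  aug_right (j := R.jB) (fun g h => map_mul R.jB g h) a (R.mem_span_jB a) hx

theorem isClosed_plusSet (R : Rep p G T Ω n) : IsClosed R.plusSet := by
  have h1 : IsClosed (R.plusMod : Set R.B) := isClosed_submodule (M := R.B) R.plusMod
  exact R.isClosed_CB.inter h1

/-- elements of the augmentation submodule act as `0` on trivial factors -/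
theorem acts_of_triv {Φ : R.Fl} {i : ℕ} (h : Φ.Triv i) {y : R.B} (hy : y ∈ R.plusMod) :
    Φ.Acts (y : Module.End Ω (Matrix (Fin n) (Fin n) Ω)) i 0 := by
  refine Submodule.span_induction (fun x hx => ?_) ?_ (fun x y _ _ hx hy => ?_)
    (fun t x _ hx => ?_) hy
  · obtain ⟨g, rfl⟩ := hx
    intro v hv
    rw [zero_smul, sub_zero]
    have := h _ ⟨g, rfl⟩ v hv
    rw [one_smul] at this
    exact this
  · intro v _
    simp
  · have := Flag.Acts.add Φ hx hy
    rwa [add_zero] at this
  · intro v hv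
    have h1 := hx v hv
    rw [zero_smul, sub_zero] at h1 ⊢
    have h2 : ((t • x : R.B) : Module.End Ω (Matrix (Fin n) (Fin n) Ω)) v
        = algebraMap T Ω t • (x : Module.End Ω (Matrix (Fin n) (Fin n) Ω)) v := by
      rw [algebraMap_smul]
      rfl
    rw [h2]
    exact (Φ.W i).smul_mem _ h1

/-- comparison of the dimensions of factors with comparable kernels -/
theorem dim_le (Φ : R.Fl) {i j : ℕ} (hi : i < Φ.l) (hj : j < Φ.l)
    (h : ∀ y ∈ R.CB, Φ.Acts (y : Module.End Ω (Matrix (Fin n) (Fin n) Ω)) i 0 →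
      Φ.Acts (y : Module.End Ω (Matrix (Fin n) (Fin n) Ω)) j 0) : Φ.dim j ≤ Φ.dim i := by
  by_contra hlt
  push Not at hlt
  have hspan : Submodule.span Ω (R.blk Φ hj rfl '' (R.CB : Set R.B)) = ⊤ := by
    rw [eq_top_iff, ← R.blk_span Φ hj rfl]
    refine Submodule.span_mono ?_
    rintro _ ⟨g, rfl⟩
    exact ⟨R.jB g, Subring.le_topologicalClosure _ (Subring.subset_closure ⟨g, rfl⟩), rfl⟩
  obtain ⟨b, z, hb, hz, hne⟩ := capf_ne_of_span (R.blk_pos Φ hj rfl) le_rfl hspan
  choose b' hb' eb using hb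
  choose z' hz' ez using hz
  apply hne
  have h2 := capf_map (R.blk Φ hj rfl : R.B →+* Matrix (Fin (Φ.dim j)) (Fin (Φ.dim j)) Ω) b' z'
  have e1 : (fun i => (R.blk Φ hj rfl : R.B →+* _) (b' i)) = b := funext eb
  have e2 : (fun i => (R.blk Φ hj rfl : R.B →+* _) (z' i)) = z := funext ez
  rw [e1, e2] at h2
  rw [← h2]
  have hmem : capf b' z' ∈ R.CB := by
    refine sum_mem fun σ _ => zsmul_mem (Subring.list_prod_mem _ fun x hx => ?_) _
    rw [List.mem_ofFn] at hx
    obtain ⟨k, rfl⟩ := hx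
    exact R.CB.mul_mem (hb' _) (hz' _)
  refine (R.blk_eq_zero Φ hj rfl _).2 (h _ hmem ((R.blk_eq_zero Φ hi rfl _).1 ?_))
  have h3 := capf_map (R.blk Φ hi rfl : R.B →+* Matrix (Fin (Φ.dim i)) (Fin (Φ.dim i)) Ω) b' z'
  exact h3.trans (capf_eq_zero (Nat.pow_lt_pow_left hlt (by norm_num)) _ _)

/-- for finitely many nontrivial factors `i` whose kernels are not contained in the kernel of `j`,
there is an element of the augmentation part which acts as `0` on them and not on `j` -/
theorem exists_ideal (Φ : R.Fl) {j : ℕ} (hj : j < Φ.l) (hjn : ¬ Φ.Triv j)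
    (s : Finset ℕ) (hs : ∀ i ∈ s, i < Φ.l ∧ ∃ x ∈ R.CB,
      Φ.Acts (x : Module.End Ω (Matrix (Fin n) (Fin n) Ω)) i 0 ∧
      ¬ Φ.Acts (x : Module.End Ω (Matrix (Fin n) (Fin n) Ω)) j 0) :
    ∃ x ∈ R.plusSet, (∀ i ∈ s, Φ.Acts (x : Module.End Ω (Matrix (Fin n) (Fin n) Ω)) i 0) ∧
      ¬ Φ.Acts (x : Module.End Ω (Matrix (Fin n) (Fin n) Ω)) j 0 := by
  induction s using Finset.induction_on with
  | empty =>
    have h1 : ∃ g, ¬ Φ.Acts ((R.jB g - 1 : R.B) : Module.End Ω (Matrix (Fin n) (Fin n) Ω)) j 0 := by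
      by_contra hcon
      push Not at hcon
      apply hjn
      rintro _ ⟨g, rfl⟩ v hv
      have := hcon g v hv
      rw [zero_smul, sub_zero] at this
      rw [one_smul]
      exact this
    obtain ⟨g, hg⟩ := h1
    exact ⟨R.jB g - 1, jB_sub_one_mem g, by simp, hg⟩
  | insert i s _ ih =>
    obtain ⟨x, hx, hxs, hxj⟩ := ih fun i' hi' => hs i' (Finset.mem_insert_of_mem hi')
    obtain ⟨hi, y, hy, hyi, hyj⟩ := hs i (Finset.mem_insert_self _ _)
    have h1 : ∃ g, R.blk Φ hj rfl (x * R.jB g * y) ≠ 0 := by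
      by_contra hcon
      push Not at hcon
      have h2 : ∀ M, R.blk Φ hj rfl x * M * R.blk Φ hj rfl y = 0 := by
        intro M
        have hM : M ∈ Submodule.span Ω (Set.range fun g => R.blk Φ hj rfl (R.jB g)) := by
          rw [R.blk_span Φ hj rfl]; trivial
        refine Submodule.span_induction (fun M hM => ?_) ?_ (fun a b _ _ ha hb => ?_)
          (fun c a _ ha => ?_) hM
        · obtain ⟨g, rfl⟩ := hM
          have := hcon g
          rwa [map_mul, map_mul] at this
        · rw [mul_zero, zero_mul]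
        · rw [mul_add, add_mul, ha, hb, add_zero]
        · rw [mul_smul_comm, smul_mul_assoc, ha, smul_zero]
      rcases matrix_prime h2 with h3 | h3
      · exact hxj ((R.blk_eq_zero Φ hj rfl x).1 h3)
      · exact hyj ((R.blk_eq_zero Φ hj rfl y).1 h3)
    obtain ⟨g, hg⟩ := h1
    have hgC : R.jB g ∈ R.CB := Subring.le_topologicalClosure _ (Subring.subset_closure ⟨g, rfl⟩)
    refine ⟨x * R.jB g * y, ⟨R.CB.mul_mem (R.CB.mul_mem hx.1 hgC) hy,
      plusMod_mul _ (plusMod_mul _ hx.2)⟩, fun i' hi' => ?_, fun h => hg ((R.blk_eq_zero Φ hj rfl _).2 h)⟩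
    rcases Finset.mem_insert.1 hi' with rfl | hi'
    · refine (R.blk_eq_zero Φ hi rfl _).1 ?_
      rw [map_mul, (R.blk_eq_zero Φ hi rfl y).2 hyi, mul_zero]
    · have hi'' := (hs i' (Finset.mem_insert_of_mem hi')).1
      refine (R.blk_eq_zero Φ hi'' rfl _).1 ?_
      rw [map_mul, map_mul, (R.blk_eq_zero Φ hi'' rfl x).2 (hxs i' hi'), zero_mul, zero_mul]

end Rep

end MP35
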