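import Pool.Agent.Lib_MP_3538b5_al.FDefs

/-!
# Layer F: the linear range lemma

Owner: helper43.

PROOF.  `P y :⟺ y ∈ B and for all h in N with j h - 1 in U there is h' in N with j h' - 1 - y (j h - 1) in U'`.
`P (Ad g)`: `h' = g h g⁻¹`.  Sums: `(1 + x) (1 + x') = 1 + x + x' + x x'`, `x x'` in `U'`.  Negatives:
`(1 + x)⁻¹ = 1 - x + x ^ 2 (1 + x)⁻¹`.  Products: apply `P y₁` to the element found for `y₂`; `U'` is stable under
`B`.  Closedness: for fixed `h` the set of `y` is the projection of a closed subset of `N × B` along the compact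
set `N` (`U'` is closed in `A`).  Then `CC_induction`.
-/

set_option autoImplicit false

namespace MP35

universe u v w

namespace Rep

section

variable {p : ℕ} {G : Type u} [Group G] [TopologicalSpace G] {T : Type v} [CommRing T]
  [TopologicalSpace T] {Ω : Type v} [Field Ω] [Algebra T Ω] {n : ℕ} (R : Rep p G T Ω n)

/-- `B` preserves `Ad G`-stable `T`-submodules -/
theorem B_stableT {U : Submodule T (Matrix (Fin n) (Fin n) Ω)}
    (hU : ∀ g, ∀ v ∈ U, R.Ad g v ∈ U) {y : Module.End Ω (Matrix (Fin n) (Fin n) Ω)}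
    (hy : y ∈ R.B) : ∀ v ∈ U, y v ∈ U := by
  have h : R.B ≤
      { carrier := {y : Module.End Ω (Matrix (Fin n) (Fin n) Ω) | ∀ v ∈ U, y v ∈ U}
        mul_mem' := fun ha hb v hv => ha _ (hb v hv)
        add_mem' := fun ha hb v hv => U.add_mem (ha v hv) (hb v hv)
        algebraMap_mem' := fun t v hv => by
          rw [Module.algebraMap_end_apply]
          exact U.smul_mem _ hv : Subalgebra T (Module.End Ω (Matrix (Fin n) (Fin n) Ω)) } := by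
    refine Algebra.adjoin_le ?_
    rintro _ ⟨g, rfl⟩
    exact hU g
  exact h hy

/-- evaluation at a vector of a `T`-submodule stable under `Ad G` -/
def evM {U : Submodule T (Matrix (Fin n) (Fin n) Ω)}
    (hU : ∀ g, ∀ v ∈ U, R.Ad g v ∈ U) (v : U) : R.B →ₗ[T] U where
  toFun y := ⟨(y : Module.End Ω (Matrix (Fin n) (Fin n) Ω)) v, R.B_stableT hU y.2 v v.2⟩
  map_add' _ _ := rfl
  map_smul' _ _ := rfl

theorem evM_coe {U : Submodule T (Matrix (Fin n) (Fin n) Ω)}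
    (hU : ∀ g, ∀ v ∈ U, R.Ad g v ∈ U) (v : U) (y : R.B) :
    ((R.evM hU v y : U) : Matrix (Fin n) (Fin n) Ω)
      = (y : Module.End Ω (Matrix (Fin n) (Fin n) Ω)) v := rfl

/-- the inclusion of `A` into a `T`-submodule containing it -/
def inclA {U : Submodule T (Matrix (Fin n) (Fin n) Ω)} (hA : ∀ a ∈ R.A, a ∈ U) : R.A →ₗ[T] U where
  toFun a := ⟨(a : Matrix (Fin n) (Fin n) Ω), hA a a.2⟩
  map_add' _ _ := rfl
  map_smul' _ _ := rfl

end

variable {p : ℕ} {G : Type u} [Group G] [TopologicalSpace G] [IsTopologicalGroup G]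
  [CompactSpace G] {T : Type v} [CommRing T] [TopologicalSpace T] [CNR T] {Ω : Type v} [Field Ω]
  [Algebra T Ω] {n : ℕ} (R : Rep p G T Ω n)

/-- Projection along `G`: for a finite `T`-module `V` of matrices, stable under `Ad G` and containing
`ρ g - 1` for all `g`, a submodule `K` of `V` and a vector `X` of `V`, the set of the operators `y` in `B`
such that `ρ h' - 1 - y X` is in `K` for some `h'` in the closed set `N` is closed. -/
theorem isClosed_real {V : Submodule T (Matrix (Fin n) (Fin n) Ω)} [Module.Finite T V]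
    (hV : ∀ g, ∀ v ∈ V, R.Ad g v ∈ V) (hA : ∀ a ∈ R.A, a ∈ V)
    (K : Submodule T (Matrix (Fin n) (Fin n) Ω)) {N : Set G} (hN : IsClosed N)
    {X : Matrix (Fin n) (Fin n) Ω} (hX : X ∈ V) :
    IsClosed {y : R.B | ∃ h' ∈ N,
      R.ρ h' - 1 - (y : Module.End Ω (Matrix (Fin n) (Fin n) Ω)) X ∈ K} := by
  let _ : TopologicalSpace V := moduleTopology T V
  have : IsModuleTopology T V := ⟨rfl⟩
  have := IsModuleTopology.topologicalAddGroup T V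
  have h1 : Continuous (R.evM hV ⟨X, hX⟩) := IsModuleTopology.continuous_of_linearMap _
  have h2 : Continuous (R.inclA hA) :=
    IsModuleTopology.continuous_of_linearMap _
  have h3 : Continuous fun z : R.B × G =>
      (R.inclA hA) (R.j z.2 - 1)
        - R.evM hV ⟨X, hX⟩ z.1 := by
    have h4 : Continuous fun z : R.B × G => R.j z.2 - 1 :=
      (R.cont_j.comp continuous_snd).sub continuous_const
    exact (h2.comp h4).sub (h1.comp continuous_fst)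
  have h5 : IsClosed ((K.comap V.subtype : Submodule T V) : Set V) := isClosed_submodule _
  have h6 : IsClosed {z : R.B × G | z.2 ∈ N ∧
      (R.inclA hA) (R.j z.2 - 1)
        - R.evM hV ⟨X, hX⟩ z.1 ∈ (K.comap V.subtype : Submodule T V)} :=
    (hN.preimage continuous_snd).inter (h5.preimage h3)
  have h7 := isClosedMap_fst_of_compactSpace _ h6
  convert h7 using 1
  ext y
  constructor
  · rintro ⟨h', hh', e⟩
    exact ⟨(y, h'), ⟨hh', e⟩, rfl⟩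
  · rintro ⟨⟨y', h'⟩, ⟨hh', e⟩, rfl⟩
    exact ⟨h', hh', e⟩

/-- **Linear range.** -/
theorem linear_range {N : Subgroup G} (hN : IsClosed (N : Set G)) [N.Normal]
    (U U' : Submodule T R.A) (hUU' : U' ≤ U)
    (hU : ∀ g, ∀ x ∈ U, R.j g * x * R.j g⁻¹ ∈ U) (hU' : ∀ g, ∀ x ∈ U', R.j g * x ∈ U')
    (hU'' : ∀ g, ∀ x ∈ U', x * R.j g ∈ U') (hmul : ∀ x ∈ U, ∀ y ∈ U, x * y ∈ U')
    {y : Module.End Ω (Matrix (Fin n) (Fin n) Ω)} (hy : y ∈ R.CC) {h : G} (hh : h ∈ N)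
    (hx : R.j h - 1 ∈ U) :
    ∃ h' ∈ N, ∃ u ∈ U', (R.ρ h' - 1 : Matrix (Fin n) (Fin n) Ω)
      = y (R.ρ h - 1) + ((u : R.A) : Matrix (Fin n) (Fin n) Ω) := by
  classical
  -- the images in the matrices
  set AA : Submodule T (Matrix (Fin n) (Fin n) Ω) := Subalgebra.toSubmodule R.A with hAA
  set W : Submodule T (Matrix (Fin n) (Fin n) Ω) := U.map R.A.val.toLinearMap with hW
  set W' : Submodule T (Matrix (Fin n) (Fin n) Ω) := U'.map R.A.val.toLinearMap with hW'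
  have mW : ∀ x : R.A, (x : Matrix (Fin n) (Fin n) Ω) ∈ W ↔ x ∈ U := fun x => by
    constructor
    · rintro ⟨z, hz, e⟩
      rwa [← Subtype.ext (show (z : Matrix (Fin n) (Fin n) Ω) = x from e)]
    · exact fun hx => ⟨x, hx, rfl⟩
  have mW' : ∀ x : R.A, (x : Matrix (Fin n) (Fin n) Ω) ∈ W' ↔ x ∈ U' := fun x => by
    constructor
    · rintro ⟨z, hz, e⟩
      rwa [← Subtype.ext (show (z : Matrix (Fin n) (Fin n) Ω) = x from e)]
    · exact fun hx => ⟨x, hx, rfl⟩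
  have sA : ∀ g, ∀ v ∈ AA, R.Ad g v ∈ AA := fun g v hv =>
    R.A.mul_mem (R.A.mul_mem (R.j g).2 hv) (R.j g⁻¹).2
  have sW : ∀ g, ∀ v ∈ W, R.Ad g v ∈ W := by
    rintro g _ ⟨x, hx, rfl⟩
    exact ⟨_, hU g x hx, rfl⟩
  have sW' : ∀ g, ∀ v ∈ W', R.Ad g v ∈ W' := by
    rintro g _ ⟨x, hx, rfl⟩
    exact ⟨_, hU'' g⁻¹ _ (hU' g x hx), rfl⟩
  have key := R.CC_induction (P := fun y => y ∈ R.B ∧ ∀ h ∈ N, R.ρ h - 1 ∈ W →
    ∃ h' ∈ N, R.ρ h' - 1 - y (R.ρ h - 1) ∈ W') ?_ ?_ ?_ ?_ ?_ ?_ hy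
  · obtain ⟨h', hh', e⟩ := key.2 h hh ((mW _).2 hx)
    obtain ⟨u, hu, e'⟩ := e
    refine ⟨h', hh', u, hu, ?_⟩
    have e'' : (u : Matrix (Fin n) (Fin n) Ω) = R.ρ h' - 1 - y (R.ρ h - 1) := e'
    rw [e'']
    abel
  · have h1 : {x : R.B | (x : Module.End Ω (Matrix (Fin n) (Fin n) Ω)) ∈ R.B ∧
        ∀ h ∈ N, R.ρ h - 1 ∈ W → ∃ h' ∈ N,
          R.ρ h' - 1 - (x : Module.End Ω (Matrix (Fin n) (Fin n) Ω)) (R.ρ h - 1) ∈ W'}
        = ⋂ (h : G) (_ : h ∈ N) (_ : R.ρ h - 1 ∈ W), {y : R.B | ∃ h' ∈ (N : Set G),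
      R.ρ h' - 1 - (y : Module.End Ω (Matrix (Fin n) (Fin n) Ω)) (R.ρ h - 1) ∈ W'} := by
      ext x
      simp only [Set.mem_ofPred_eq, Set.mem_iInter, SetLike.mem_coe, SetLike.coe_mem, true_and]
    rw [h1]
    refine isClosed_iInter fun h => isClosed_iInter fun _ => isClosed_iInter fun _ => ?_
    have : Module.Finite T AA := R.fin
    exact R.isClosed_real sA (fun a ha => ha) W' hN (R.j h - 1).2
  · intro g
    refine ⟨(R.jB g).2, fun h hh _ => ⟨g * h * g⁻¹, Subgroup.Normal.conj_mem ‹_› h hh g, ?_⟩⟩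
    have e : R.ρ (g * h * g⁻¹) - 1 - R.Ad g (R.ρ h - 1) = 0 := by
      rw [Ad_apply, mul_sub, sub_mul, map_mul, map_mul, mul_one, ← map_mul R.ρ g g⁻¹,
        mul_inv_cancel, map_one]
      simp
    rw [e]
    exact W'.zero_mem
  · refine ⟨zero_mem _, fun h hh _ => ⟨1, N.one_mem, ?_⟩⟩
    simp
  · rintro x y ⟨hx, hx'⟩ ⟨hy, hy'⟩
    refine ⟨add_mem hx hy, fun h hh hW => ?_⟩
    obtain ⟨h₁, hh₁, e₁⟩ := hx' h hh hW
    obtain ⟨h₂, hh₂, e₂⟩ := hy' h hh hW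
    refine ⟨h₁ * h₂, N.mul_mem hh₁ hh₂, ?_⟩
    have k₁ : R.ρ h₁ - 1 ∈ W := by
      have := W.add_mem (Submodule.map_mono hUU' e₁) (R.B_stableT sW hx _ hW)
      simpa using this
    have k₂ : R.ρ h₂ - 1 ∈ W := by
      have := W.add_mem (Submodule.map_mono hUU' e₂) (R.B_stableT sW hy _ hW)
      simpa using this
    have k₃ : (R.ρ h₁ - 1) * (R.ρ h₂ - 1) ∈ W' :=
      (mW' ((R.j h₁ - 1) * (R.j h₂ - 1))).2 (hmul _ ((mW (R.j h₁ - 1)).1 k₁) _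
        ((mW (R.j h₂ - 1)).1 k₂))
    have k₄ := W'.add_mem k₃ (W'.add_mem e₁ e₂)
    have e : (R.ρ h₁ - 1) * (R.ρ h₂ - 1) + (R.ρ h₁ - 1 - x (R.ρ h - 1)
        + (R.ρ h₂ - 1 - y (R.ρ h - 1))) = R.ρ (h₁ * h₂) - 1 - (x + y) (R.ρ h - 1) := by
      rw [map_mul, LinearMap.add_apply]
      noncomm_ring
    rwa [e] at k₄
  · rintro x ⟨hx, hx'⟩
    refine ⟨neg_mem hx, fun h hh hW => ?_⟩
    obtain ⟨h₁, hh₁, e₁⟩ := hx' h hh hW
    refine ⟨h₁⁻¹, N.inv_mem hh₁, ?_⟩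
    have k₁ : R.ρ h₁ - 1 ∈ W := by
      have := W.add_mem (Submodule.map_mono hUU' e₁) (R.B_stableT sW hx _ hW)
      simpa using this
    have k₃ : (R.ρ h₁ - 1) * (R.ρ h₁ - 1) * R.ρ h₁⁻¹ ∈ W' :=
      (mW' ((R.j h₁ - 1) * (R.j h₁ - 1) * R.j h₁⁻¹)).2 (hU'' _ _ (hmul _
        ((mW (R.j h₁ - 1)).1 k₁) _ ((mW (R.j h₁ - 1)).1 k₁)))
    have k₄ := W'.sub_mem k₃ e₁
    have e : (R.ρ h₁ - 1) * (R.ρ h₁ - 1) * R.ρ h₁⁻¹ - (R.ρ h₁ - 1 - x (R.ρ h - 1))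
        = R.ρ h₁⁻¹ - 1 - (-x) (R.ρ h - 1) := by
      have e₂ : R.ρ h₁ * R.ρ h₁⁻¹ = 1 := by rw [← map_mul, mul_inv_cancel, map_one]
      have e₃ : (R.ρ h₁ - 1) * (R.ρ h₁ - 1) * R.ρ h₁⁻¹
          = R.ρ h₁ * (R.ρ h₁ * R.ρ h₁⁻¹) - R.ρ h₁ * R.ρ h₁⁻¹ - R.ρ h₁ * R.ρ h₁⁻¹ + R.ρ h₁⁻¹ := by
        noncomm_ring
      rw [e₃, e₂, LinearMap.neg_apply]
      noncomm_ring
    rwa [e] at k₄
  · rintro x y ⟨hx, hx'⟩ ⟨hy, hy'⟩
    refine ⟨mul_mem hx hy, fun h hh hW => ?_⟩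
    obtain ⟨h₂, hh₂, e₂⟩ := hy' h hh hW
    have k₂ : R.ρ h₂ - 1 ∈ W := by
      have := W.add_mem (Submodule.map_mono hUU' e₂) (R.B_stableT sW hy _ hW)
      simpa using this
    obtain ⟨h₁, hh₁, e₁⟩ := hx' h₂ hh₂ k₂
    refine ⟨h₁, hh₁, ?_⟩
    have k₄ := W'.add_mem e₁ (R.B_stableT sW' hx _ e₂)
    have e : R.ρ h₁ - 1 - x (R.ρ h₂ - 1) + x (R.ρ h₂ - 1 - y (R.ρ h - 1))
        = R.ρ h₁ - 1 - (x * y) (R.ρ h - 1) := by
      rw [map_sub x (R.ρ h₂ - 1), Module.End.mul_apply]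
      abel
    rwa [e] at k₄

end Rep

end MP35
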