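import Pool.Agent.Lib_MP_3538b5_al.FLR

/-!
# Layer F: linear range for projective elements, with quadratic errors in ideals

Owner: helper43.
-/

set_option autoImplicit false

namespace MP35

universe u v w

/-- in a compact ring one plus a topologically nilpotent element is a unit -/
theorem isUnit_one_add_of_tn {S : Type u} [CommRing S] [TopologicalSpace S] [CNR S] {x : S}
    (hx : IsTopologicallyNilpotent x) : IsUnit (1 + x) := by
  have h1 : (1 : S) ∈ Ideal.span {1 + x} := by
    have hc : IsClosed ((Ideal.span {1 + x} : Ideal S) : Set S) := CNR.closed_ideal _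
    rw [← SetLike.mem_coe, ← hc.closure_eq, mem_closure_iff_nhds]
    intro U hU
    have hU' : (fun y : S => 1 + y) ⁻¹' U ∈ nhds (0 : S) := by
      apply (continuous_const.add continuous_id).continuousAt.preimage_mem_nhds
      simpa using hU
    obtain ⟨I, hI, hIU⟩ := (IsLinearTopology.hasBasis_ideal (R := S)).mem_iff.1 hU'
    obtain ⟨k, hk⟩ := hx.exists_pow_mem_of_mem_nhds hI
    refine ⟨1 + (-(-x) ^ k), hIU (I.neg_mem ?_), ?_⟩
    · rw [neg_pow]
      exact I.mul_mem_left _ hk
    · have h2 := mul_neg_geom_sum (-x) k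
      rw [sub_neg_eq_add] at h2
      rw [← sub_eq_add_neg, ← h2]
      exact Ideal.mul_mem_right _ _ (Ideal.subset_span rfl)
  rw [Ideal.mem_span_singleton] at h1
  exact isUnit_of_dvd_one h1

section mat

theorem smono {T : Type v} [CommRing T] {B : Type w} [Ring B] [Algebra T B]
    {I J K L : Submodule T B} (h : I ≤ J) (h' : K ≤ L) : I * K ≤ J * L := by
  rw [Submodule.mul_le]
  exact fun a ha b hb => Submodule.mul_mem_mul (h ha) (h' hb)

variable {T : Type v} [CommRing T] {Ω : Type w} [Field Ω] [Algebra T Ω]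

/-- the matrices with entries in a submodule -/
def matOf (n : ℕ) (I : Submodule T Ω) : Submodule T (Matrix (Fin n) (Fin n) Ω) where
  carrier := {m | ∀ i j, m i j ∈ I}
  zero_mem' := fun _ _ => I.zero_mem
  add_mem' ha hb := fun i j => I.add_mem (ha i j) (hb i j)
  smul_mem' t _ ha := fun i j => I.smul_mem t (ha i j)

theorem mem_matOf {n : ℕ} {I : Submodule T Ω} {m : Matrix (Fin n) (Fin n) Ω} :
    m ∈ matOf n I ↔ ∀ i j, m i j ∈ I := Iff.rfl

theorem matOf_mono {n : ℕ} {I J : Submodule T Ω} (h : I ≤ J) : matOf n I ≤ matOf n J :=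
  fun _ hm i j => h (hm i j)

theorem matOf_mul {n : ℕ} (I J : Submodule T Ω) : matOf n I * matOf n J ≤ matOf n (I * J) := by
  rw [Submodule.mul_le]
  intro a ha b hb i j
  rw [Matrix.mul_apply]
  exact sum_mem fun k _ => Submodule.mul_mem_mul (ha i k) (hb k j)

theorem matOf_one {n : ℕ} {I : Submodule T Ω} (h : 1 ∈ I) :
    (1 : Matrix (Fin n) (Fin n) Ω) ∈ matOf n I := by
  intro i j
  rw [Matrix.one_apply]
  split
  · exact h
  · exact I.zero_mem

theorem matOf_fg {n : ℕ} {I : Submodule T Ω} (h : I.FG) : (matOf n I).FG := by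
  classical
  have e : matOf n I = ⨆ i : Fin n, ⨆ j : Fin n,
      I.map (Matrix.singleLinearMap T i j : Ω →ₗ[T] Matrix (Fin n) (Fin n) Ω) := by
    apply le_antisymm
    · intro m hm
      rw [Matrix.matrix_eq_sum_single m]
      refine sum_mem fun i _ => sum_mem fun j _ => ?_
      refine Submodule.mem_iSup_of_mem i (Submodule.mem_iSup_of_mem j ?_)
      exact ⟨m i j, hm i j, rfl⟩
    · refine iSup_le fun i => iSup_le fun j => ?_
      rintro _ ⟨x, hx, rfl⟩ k l
      show Matrix.single i j x k l ∈ I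
      rw [Matrix.single_apply]
      split
      · exact hx
      · exact I.zero_mem
  rw [e]
  exact Submodule.fg_iSup _ fun i => Submodule.fg_iSup _ fun j => h.map _

/-- `A M A` for an algebra `A` of matrices and the matrices `M` with entries in `I` -/
def bimod {n : ℕ} (A : Subalgebra T (Matrix (Fin n) (Fin n) Ω)) (I : Submodule T Ω) :
    Submodule T (Matrix (Fin n) (Fin n) Ω) :=
  Subalgebra.toSubmodule A * matOf n I * Subalgebra.toSubmodule A

variable {n : ℕ} (A : Subalgebra T (Matrix (Fin n) (Fin n) Ω))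

theorem bimod_mono {I J : Submodule T Ω} (h : I ≤ J) : bimod A I ≤ bimod A J :=
  smono (smono le_rfl (matOf_mono h)) le_rfl

theorem le_bimod (I : Submodule T Ω) : matOf n I ≤ bimod A I := by
  intro m hm
  have h := Submodule.mul_mem_mul (Submodule.mul_mem_mul (show (1 : Matrix (Fin n) (Fin n) Ω) ∈
    Subalgebra.toSubmodule A from A.one_mem) hm) (show (1 : Matrix (Fin n) (Fin n) Ω) ∈
    Subalgebra.toSubmodule A from A.one_mem)
  rwa [one_mul, mul_one] at h

theorem bimod_mul {I J D : Submodule T Ω} (hD : Subalgebra.toSubmodule A ≤ matOf n D) :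
    bimod A I * bimod A J ≤ bimod A (I * D * J) := by
  have hA : Subalgebra.toSubmodule A * Subalgebra.toSubmodule A ≤ Subalgebra.toSubmodule A := by
    rw [Submodule.mul_le]
    exact fun a ha b hb => A.mul_mem ha hb
  calc bimod A I * bimod A J
      = Subalgebra.toSubmodule A * (matOf n I * (Subalgebra.toSubmodule A
          * Subalgebra.toSubmodule A) * matOf n J) * Subalgebra.toSubmodule A := by
        rw [bimod, bimod]
        simp only [mul_assoc]
    _ ≤ Subalgebra.toSubmodule A * (matOf n I * matOf n D * matOf n J)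
          * Subalgebra.toSubmodule A :=
        smono (smono le_rfl (smono (smono le_rfl (hA.trans hD)) le_rfl)) le_rfl
    _ ≤ bimod A (I * D * J) :=
        smono (smono le_rfl ((smono (matOf_mul I D) le_rfl).trans (matOf_mul _ _))) le_rfl

theorem bimod_le {I D : Submodule T Ω} (hD : Subalgebra.toSubmodule A ≤ matOf n D) :
    bimod A I ≤ matOf n (D * I * D) :=
  (smono (smono hD le_rfl) hD).trans ((smono (matOf_mul _ _) le_rfl).trans (matOf_mul _ _))

theorem bimod_mul_mem {I : Submodule T Ω} {x a : Matrix (Fin n) (Fin n) Ω} (hx : x ∈ bimod A I)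
    (ha : a ∈ A) : x * a ∈ bimod A I := by
  have hA : Subalgebra.toSubmodule A * Subalgebra.toSubmodule A ≤ Subalgebra.toSubmodule A := by
    rw [Submodule.mul_le]
    exact fun a ha b hb => A.mul_mem ha hb
  have h : bimod A I * Subalgebra.toSubmodule A ≤ bimod A I := by
    rw [bimod, mul_assoc]
    exact smono le_rfl hA
  exact h (Submodule.mul_mem_mul hx ha)

theorem mul_bimod_mem {I : Submodule T Ω} {x a : Matrix (Fin n) (Fin n) Ω} (hx : x ∈ bimod A I)
    (ha : a ∈ A) : a * x ∈ bimod A I := by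
  have hA : Subalgebra.toSubmodule A * Subalgebra.toSubmodule A ≤ Subalgebra.toSubmodule A := by
    rw [Submodule.mul_le]
    exact fun a ha b hb => A.mul_mem ha hb
  have h : Subalgebra.toSubmodule A * bimod A I ≤ bimod A I := by
    rw [bimod, ← mul_assoc, ← mul_assoc]
    exact smono (smono hA le_rfl) le_rfl
  exact h (Submodule.mul_mem_mul ha hx)

theorem bimod_fg {I : Submodule T Ω} (hA : (Subalgebra.toSubmodule A).FG) (hI : I.FG) :
    (bimod A I).FG := (hA.mul (matOf_fg hI)).mul hA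

end mat

namespace Rep

section

variable {p : ℕ} {G : Type u} [Group G] [TopologicalSpace G] {T : Type v} [CommRing T]
  [TopologicalSpace T] [CNR T] {Ω : Type v} [Field Ω] [Algebra T Ω] {n : ℕ} (R : Rep p G T Ω n)

/-- the additive group generated by the differences of the `Ad g` -/
def AugB : AddSubgroup R.B := AddSubgroup.closure {x | ∃ g h, x = R.jB g - R.jB h}

/-- elements of the closed ring generated by `Ad G` which kill the identity matrix are in the closure of
the additive group generated by the differences of the `Ad g` -/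
theorem mem_closure_AugB {x : R.B} (hx : x ∈ R.CB)
    (h1 : (x : Module.End Ω (Matrix (Fin n) (Fin n) Ω)) 1 = 0) :
    x ∈ closure (R.AugB : Set R.B) := by
  have : ContinuousAdd R.B := R.topRingB.toContinuousAdd
  let f : R.B →ₗ[T] Matrix (Fin n) (Fin n) Ω :=
    { toFun := fun y => (y : Module.End Ω (Matrix (Fin n) (Fin n) Ω)) 1
      map_add' := fun _ _ => rfl
      map_smul' := fun _ _ => rfl }
  -- the compact set
  have hcomp : IsCompact ((fun z : T × R.B => algebraMap T R.B z.1 + z.2) ''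
      (Set.univ ×ˢ closure (R.AugB : Set R.B))) := by
    refine (isCompact_univ.prod isClosed_closure.isCompact).image ?_
    have h2 : Continuous (algebraMap T R.B) :=
      IsModuleTopology.continuous_of_linearMap (Algebra.linearMap T R.B)
    exact (h2.comp continuous_fst).add continuous_snd
  have hsub : (Subring.closure (Set.range R.jB) : Set R.B) ⊆
      (fun z : T × R.B => algebraMap T R.B z.1 + z.2) ''
      (Set.univ ×ˢ closure (R.AugB : Set R.B)) := by
    intro y hy
    rw [SetLike.mem_coe, Subring.mem_closure_iff] at hy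
    have h3 : ((Submonoid.closure (Set.range R.jB) : Submonoid R.B) : Set R.B)
        = Set.range R.jB := by
      rw [← MonoidHom.coe_mrange, Submonoid.closure_eq]
    rw [h3] at hy
    have h4 : ∃ k : ℤ, ∃ a ∈ R.AugB, y = k • 1 + a := by
      induction hy using AddSubgroup.closure_induction with
      | mem y hy =>
        obtain ⟨g, rfl⟩ := hy
        refine ⟨1, R.jB g - R.jB 1, AddSubgroup.subset_closure ⟨g, 1, rfl⟩, ?_⟩
        rw [map_one, one_smul]
        abel
      | zero => exact ⟨0, 0, zero_mem _, by simp⟩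
      | add a b _ _ ha hb =>
        obtain ⟨k, a', ha', rfl⟩ := ha
        obtain ⟨l, b', hb', rfl⟩ := hb
        exact ⟨k + l, a' + b', add_mem ha' hb', by rw [add_smul]; abel⟩
      | neg a _ ha =>
        obtain ⟨k, a', ha', rfl⟩ := ha
        exact ⟨-k, -a', neg_mem ha', by rw [neg_smul k (1 : R.B)]; abel⟩
    obtain ⟨k, a, ha, rfl⟩ := h4
    refine ⟨((k : T), a), ⟨trivial, subset_closure ha⟩, ?_⟩
    show algebraMap T R.B (k : T) + a = k • 1 + a
    rw [map_intCast, ← zsmul_one (k : ℤ)]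
  obtain ⟨⟨t, a⟩, ⟨-, ha⟩, e⟩ := closure_minimal hsub hcomp.isClosed hx
  have ha' : (a : Module.End Ω (Matrix (Fin n) (Fin n) Ω)) 1 = 0 := by
    have h5 : IsClosed ((LinearMap.ker f : Submodule T R.B) : Set R.B) :=
      isClosed_submodule (M := R.B) (LinearMap.ker f)
    have h7 : ∀ y ∈ R.AugB, f y = 0 := by
      intro y hy
      unfold AugB at hy
      induction hy using AddSubgroup.closure_induction with
      | mem y hy =>
        obtain ⟨g, h, rfl⟩ := hy
        show R.Ad g 1 - R.Ad h 1 = 0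
        rw [Ad_apply, Ad_apply, mul_one, mul_one, ← map_mul, ← map_mul, mul_inv_cancel,
          mul_inv_cancel, sub_self]
      | zero => exact map_zero f
      | add a b _ _ ha hb => rw [map_add, ha, hb, add_zero]
      | neg a _ ha => rw [map_neg, ha, neg_zero]
    have h6 : (R.AugB : Set R.B) ⊆ (LinearMap.ker f : Submodule T R.B) := h7
    exact closure_minimal h6 h5 ha
  have ht : t • (1 : Matrix (Fin n) (Fin n) Ω) = 0 := by
    have h7 : ((algebraMap T R.B t + a : R.B) : Module.End Ω (Matrix (Fin n) (Fin n) Ω)) 1 = 0 := by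
      have e' : algebraMap T R.B t + a = x := e
      rw [e']; exact h1
    have h8 : ((algebraMap T R.B t + a : R.B) : Module.End Ω (Matrix (Fin n) (Fin n) Ω)) 1
        = t • (1 : Matrix (Fin n) (Fin n) Ω)
          + (a : Module.End Ω (Matrix (Fin n) (Fin n) Ω)) 1 := rfl
    rw [h8, ha', add_zero] at h7
    exact h7
  have ht' : algebraMap T R.B t = 0 := by
    refine Subtype.ext (LinearMap.ext fun m => ?_)
    show t • m = 0
    rw [← one_mul m, ← smul_mul_assoc, ht, zero_mul]
  rw [← e]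
  show algebraMap T R.B t + a ∈ _
  rw [ht', zero_add]
  exact ha

end

variable {p : ℕ} {G : Type u} [Group G] [TopologicalSpace G] [IsTopologicalGroup G]
  [CompactSpace G] {T : Type v} [CommRing T] [TopologicalSpace T] [CNR T] {Ω : Type v} [Field Ω]
  [Algebra T Ω] {n : ℕ} (R : Rep p G T Ω n)

/-- **Linear range for projective elements.**  `T'`: a finite `T`-subalgebra of `Ω`; `D`: a fractional
ideal containing the entries of the elements of `A`; `I`: an ideal with `I D ≤ T'` which contains the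
entries of `X`.  For `z = lam (1 + X)` in `N` and an element `c` of the closed ring generated by `Ad G`
which kills the scalars there is `z'` in `N` with `z' - 1 - c X` in `A M_n(I D I) A`. -/
theorem linear_range_proj {N : Subgroup G} (hN : IsClosed (N : Set G)) [N.Normal]
    (T' : Subalgebra T Ω) [Module.Finite T T'] {D I : Submodule T Ω}
    (hAD : Subalgebra.toSubmodule R.A ≤ matOf n D) (h1D : 1 ∈ D)
    (hTI : Subalgebra.toSubmodule T' * I ≤ I) (hID : I * D ≤ Subalgebra.toSubmodule T')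
    {z : G} (hz : z ∈ N) {lam : Ω} {X Y : Matrix (Fin n) (Fin n) Ω}
    (hzX : R.ρ z = lam • (1 + X)) (hX : X ∈ matOf n I)
    (hY : Y ∈ matOf n (Subalgebra.toSubmodule T')) (hXY : (1 + X) * Y = 1) (hYX : Y * (1 + X) = 1)
    {c : Module.End Ω (Matrix (Fin n) (Fin n) Ω)} (hc : c ∈ R.CC) (hc1 : c 1 = 0) :
    ∃ z' ∈ N, R.ρ z' - 1 - c X ∈ bimod R.A (I * D * I) := by
  have hTJ : Subalgebra.toSubmodule T' * (I * D * I) ≤ I * D * I := by
    rw [← mul_assoc, ← mul_assoc]
    exact smono (smono hTI le_rfl) le_rfl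
  have hJI : I * D * I ≤ I := (smono hID le_rfl).trans hTI
  have hIJ : I * I ≤ I * D * I := by
    refine smono ?_ le_rfl
    intro x hx
    have := Submodule.mul_mem_mul hx h1D
    rwa [mul_one] at this
  have hIT : I ≤ Subalgebra.toSubmodule T' := by
    intro x hx
    have := hID (Submodule.mul_mem_mul hx h1D)
    rwa [mul_one] at this
  -- products
  have hII : ∀ x ∈ bimod R.A I, ∀ y ∈ bimod R.A I, x * y ∈ bimod R.A (I * D * I) :=
    fun x hx y hy => bimod_mul R.A hAD (Submodule.mul_mem_mul hx hy)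
  have hIJ' : ∀ x ∈ bimod R.A I, ∀ y ∈ bimod R.A (I * D * I), x * y ∈ bimod R.A (I * D * I) :=
    fun x hx y hy => bimod_mono R.A ((smono hID le_rfl).trans hTJ)
      (bimod_mul R.A hAD (Submodule.mul_mem_mul hx hy))
  have hJI' : bimod R.A (I * D * I) ≤ bimod R.A I := bimod_mono R.A hJI
  have hconj : ∀ (K : Submodule T Ω) (g : G), ∀ v ∈ bimod R.A K, R.Ad g v ∈ bimod R.A K :=
    fun K g v hv => bimod_mul_mem R.A (mul_bimod_mem R.A hv (R.j g).2) (R.j g⁻¹).2
  have hXb : X ∈ bimod R.A I := le_bimod R.A I hX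
  have hcXb : ∀ c : R.B, (c : Module.End Ω (Matrix (Fin n) (Fin n) Ω)) X ∈ bimod R.A I :=
    fun c => R.B_stableT (hconj I) c.2 X hXb
  -- the inverse of `1 + X`
  have hlam : lam • R.ρ z⁻¹ = Y := by
    have h1 : R.ρ z * R.ρ z⁻¹ = 1 := by rw [← map_mul, mul_inv_cancel, map_one]
    rw [hzX] at h1
    calc lam • R.ρ z⁻¹ = (Y * (1 + X)) * (lam • R.ρ z⁻¹) := by rw [hYX, one_mul]
      _ = Y * ((lam • (1 + X)) * R.ρ z⁻¹) := by
        rw [mul_assoc, mul_smul_comm, smul_mul_assoc]
      _ = Y := by rw [h1, mul_one]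
  have hYe : Y = 1 - X + X * X * Y := by
    have h2 : Y = 1 - X * Y := by
      rw [eq_sub_iff_add_eq, ← hXY, add_mul, one_mul]
    have h3 : X * Y = X - X * (X * Y) := by
      conv_lhs => rw [h2]
      rw [mul_sub, mul_one]
    calc Y = 1 - X * Y := h2
      _ = 1 - (X - X * (X * Y)) := by rw [← h3]
      _ = 1 - X + X * X * Y := by rw [mul_assoc]; abel
  have hXXY : X * X * Y ∈ bimod R.A (I * D * I) := by
    refine le_bimod R.A _ ?_
    have h4 : X * X ∈ matOf n (I * I) := matOf_mul I I (Submodule.mul_mem_mul hX hX)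
    have h5 := matOf_mul _ _ (Submodule.mul_mem_mul (matOf_mono hIJ h4) hY)
    rw [mul_comm (I * D * I)] at h5
    exact matOf_mono hTJ h5
  -- the closed set
  obtain ⟨c, hcB, rfl⟩ := hc
  have hcl := R.mem_closure_AugB hcB hc1
  have hfin : Module.Finite T (bimod R.A (Subalgebra.toSubmodule T')) := by
    rw [Module.Finite.iff_fg]
    exact bimod_fg R.A (Module.Finite.iff_fg.1 R.fin)
      (Module.Finite.iff_fg.1 (inferInstanceAs (Module.Finite T T')))
  have hAV : ∀ a ∈ R.A, a ∈ bimod R.A (Subalgebra.toSubmodule T') := by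
    intro a ha
    have h6 : (1 : Matrix (Fin n) (Fin n) Ω) ∈ matOf n (Subalgebra.toSubmodule T') :=
      matOf_one T'.one_mem
    have h7 := mul_bimod_mem R.A (le_bimod R.A _ h6) ha
    rwa [mul_one] at h7
  have hclosed := R.isClosed_real (hconj (Subalgebra.toSubmodule T')) hAV
    (bimod R.A (I * D * I)) hN (bimod_mono R.A hIT hXb)
  refine closure_minimal ?_ hclosed hcl
  intro y hy
  have hy' : y ∈ R.AugB := hy
  clear hy
  show ∃ z' ∈ N, R.ρ z' - 1 - (y : Module.End Ω (Matrix (Fin n) (Fin n) Ω)) X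
    ∈ bimod R.A (I * D * I)
  unfold AugB at hy'
  have hmem : ∀ (y : R.B) (z' : G),
      R.ρ z' - 1 - (y : Module.End Ω (Matrix (Fin n) (Fin n) Ω)) X ∈ bimod R.A (I * D * I) →
      R.ρ z' - 1 ∈ bimod R.A I := by
    intro y z' h
    have := add_mem (hJI' h) (hcXb y)
    simpa using this
  induction hy' using AddSubgroup.closure_induction with
  | mem y hy =>
    obtain ⟨g, h, rfl⟩ := hy
    refine ⟨(g * z * g⁻¹) * (h * z⁻¹ * h⁻¹), N.mul_mem (Subgroup.Normal.conj_mem ‹_› z hz g)
      (Subgroup.Normal.conj_mem ‹_› _ (N.inv_mem hz) h), ?_⟩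
    show R.ρ ((g * z * g⁻¹) * (h * z⁻¹ * h⁻¹)) - 1 - (R.Ad g X - R.Ad h X) ∈ _
    have e1 : R.ρ ((g * z * g⁻¹) * (h * z⁻¹ * h⁻¹)) = (1 + R.Ad g X) * R.Ad h Y := by
      have e2 : R.ρ g * R.ρ g⁻¹ = 1 := by rw [← map_mul, mul_inv_cancel, map_one]
      rw [← hlam, map_mul, map_mul, map_mul, map_mul, map_mul, hzX, Ad_apply, Ad_apply]
      rw [mul_smul_comm, smul_mul_assoc, smul_mul_assoc, mul_smul_comm, smul_mul_assoc,
        mul_smul_comm, mul_add, add_mul, mul_one, e2]
    have e3 : R.Ad h Y = 1 - R.Ad h X + R.Ad h (X * X * Y) := by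
      have e4 : R.Ad h 1 = 1 := by
        rw [Ad_apply, mul_one, ← map_mul, mul_inv_cancel, map_one]
      conv_lhs => rw [hYe]
      rw [map_add, map_sub, e4]
    have h8 := hconj _ g X hXb
    have h9 := hconj _ h X hXb
    have h10 := hconj _ h _ hXXY
    have h11 := add_mem (sub_mem h10 (hII _ h8 _ h9)) (hIJ' _ h8 _ h10)
    have e5 : R.Ad h (X * X * Y) - R.Ad g X * R.Ad h X + R.Ad g X * R.Ad h (X * X * Y)
        = R.ρ ((g * z * g⁻¹) * (h * z⁻¹ * h⁻¹)) - 1 - (R.Ad g X - R.Ad h X) := by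
      rw [e1, e3]
      noncomm_ring
    rwa [e5] at h11
  | zero => exact ⟨1, N.one_mem, by simp⟩
  | add a b _ _ ha hb =>
    obtain ⟨z₁, hz₁, h₁⟩ := ha
    obtain ⟨z₂, hz₂, h₂⟩ := hb
    refine ⟨z₁ * z₂, N.mul_mem hz₁ hz₂, ?_⟩
    have h3 := hII _ (hmem a z₁ h₁) _ (hmem b z₂ h₂)
    have h4 := add_mem h3 (add_mem h₁ h₂)
    have e : (R.ρ z₁ - 1) * (R.ρ z₂ - 1)
        + (R.ρ z₁ - 1 - (a : Module.End Ω (Matrix (Fin n) (Fin n) Ω)) X
        + (R.ρ z₂ - 1 - (b : Module.End Ω (Matrix (Fin n) (Fin n) Ω)) X))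
        = R.ρ (z₁ * z₂) - 1 - ((a + b : R.B) : Module.End Ω (Matrix (Fin n) (Fin n) Ω)) X := by
      have e1 : ((a + b : R.B) : Module.End Ω (Matrix (Fin n) (Fin n) Ω)) X
        = (a : Module.End Ω (Matrix (Fin n) (Fin n) Ω)) X
          + (b : Module.End Ω (Matrix (Fin n) (Fin n) Ω)) X := rfl
      rw [map_mul, e1]
      noncomm_ring
    rwa [e] at h4
  | neg a _ ha =>
    obtain ⟨z₁, hz₁, h₁⟩ := ha
    refine ⟨z₁⁻¹, N.inv_mem hz₁, ?_⟩
    have h3 : (R.ρ z₁ - 1) * (R.ρ z₁ - 1) * R.ρ z₁⁻¹ ∈ bimod R.A (I * D * I) :=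
      bimod_mul_mem R.A (hII _ (hmem a z₁ h₁) _ (hmem a z₁ h₁)) (R.j z₁⁻¹).2
    have h4 := sub_mem h3 h₁
    have e : (R.ρ z₁ - 1) * (R.ρ z₁ - 1) * R.ρ z₁⁻¹
        - (R.ρ z₁ - 1 - (a : Module.End Ω (Matrix (Fin n) (Fin n) Ω)) X)
        = R.ρ z₁⁻¹ - 1 - ((-a : R.B) : Module.End Ω (Matrix (Fin n) (Fin n) Ω)) X := by
      have e1 : ((-a : R.B) : Module.End Ω (Matrix (Fin n) (Fin n) Ω)) X
        = -(a : Module.End Ω (Matrix (Fin n) (Fin n) Ω)) X := rfl
      have e₂ : R.ρ z₁ * R.ρ z₁⁻¹ = 1 := by rw [← map_mul, mul_inv_cancel, map_one]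
      have e₃ : (R.ρ z₁ - 1) * (R.ρ z₁ - 1) * R.ρ z₁⁻¹
          = R.ρ z₁ * (R.ρ z₁ * R.ρ z₁⁻¹) - R.ρ z₁ * R.ρ z₁⁻¹ - R.ρ z₁ * R.ρ z₁⁻¹ + R.ρ z₁⁻¹ := by
        noncomm_ring
      rw [e₃, e₂, e1]
      noncomm_ring
    rwa [e] at h4

/-- common denominator of the entries of the elements of `A` -/
theorem exists_denom [IsDomain T] [Algebra.IsAlgebraic T Ω] :
    ∃ δ : T, δ ≠ 0 ∧ ∃ F : Set Ω, F.Finite ∧ (∀ x ∈ F, IsIntegral T x) ∧
      ∀ a ∈ R.A, ∀ i j, algebraMap T Ω δ * a i j ∈ Submodule.span T F := by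
  classical
  have hfg : (Subalgebra.toSubmodule R.A).FG := Module.Finite.iff_fg.1 R.fin
  obtain ⟨S, hS⟩ := hfg
  let F₀ : Finset Ω := S.biUnion fun m => Finset.univ.biUnion fun i => Finset.univ.image fun j =>
    m i j
  obtain ⟨δ, hδ, hint⟩ := Algebra.IsAlgebraic.exists_integral_multiples T F₀
  refine ⟨δ, hδ, (F₀.image fun x => δ • x : Finset Ω), Finset.finite_toSet _, ?_, ?_⟩
  · intro x hx
    rw [Finset.mem_coe, Finset.mem_image] at hx
    obtain ⟨y, hy, rfl⟩ := hx
    exact hint y hy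
  · intro a ha i j
    have ha' : a ∈ Submodule.span T (S : Set (Matrix (Fin n) (Fin n) Ω)) := by rw [hS]; exact ha
    induction ha' using Submodule.span_induction with
    | mem m hm =>
      refine Submodule.subset_span ?_
      rw [Finset.mem_coe, Finset.mem_image]
      refine ⟨m i j, ?_, by rw [Algebra.smul_def]⟩
      rw [Finset.mem_biUnion]
      refine ⟨m, hm, ?_⟩
      rw [Finset.mem_biUnion]
      exact ⟨i, Finset.mem_univ _, Finset.mem_image.2 ⟨j, Finset.mem_univ _, rfl⟩⟩
    | zero => simp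
    | add x y hx hy hx' hy' =>
      have ex : x ∈ R.A := by
        rw [hS] at hx
        exact hx
      have ey : y ∈ R.A := by
        rw [hS] at hy
        exact hy
      rw [Matrix.add_apply, mul_add]
      exact add_mem (hx' ex) (hy' ey)
    | smul t x hx hx' =>
      have ex : x ∈ R.A := by
        rw [hS] at hx
        exact hx
      rw [Matrix.smul_apply, mul_smul_comm]
      exact Submodule.smul_mem _ _ (hx' ex)

/-- `1 + X` is invertible over a finite algebra if the entries of `X` are divisible by a topologically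
nilpotent element -/
theorem exists_inv_one_add (T' : Subalgebra T Ω) [Module.Finite T T'] {d : T}
    (hd : IsTopologicallyNilpotent d) {X : Matrix (Fin n) (Fin n) Ω}
    (hX : ∀ i j, ∃ y ∈ T', X i j = algebraMap T Ω d * y) :
    ∃ Y ∈ matOf n (Subalgebra.toSubmodule T'), (1 + X) * Y = 1 ∧ Y * (1 + X) = 1 := by
  classical
  let _ : TopologicalSpace T' := moduleTopology T T'
  have : IsModuleTopology T T' := ⟨rfl⟩
  have hT' := cnr_of_finite T T'
  have hc : Continuous (algebraMap T T') :=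
    IsModuleTopology.continuous_of_linearMap (Algebra.linearMap T T')
  choose y hy hXy using hX
  let Z : Matrix (Fin n) (Fin n) T' := fun i j => ⟨y i j, hy i j⟩
  let d' : T' := algebraMap T T' d
  have hd' : IsTopologicallyNilpotent d' := hd.map (φ := algebraMap T T') hc
  have hXZ : X = (d' • Z).map T'.val.toRingHom := by
    ext i j
    rw [hXy]
    rfl
  have hdet : IsUnit (1 + d' • Z).det := by
    rw [Matrix.det_one_add_smul, add_assoc]
    apply isUnit_one_add_of_tn
    have e : Z.trace * d' + (Matrix.det (1 + (Polynomial.X : Polynomial T') •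
        Z.map Polynomial.C)).divX.divX.eval d' * d' ^ 2 = d' * (Z.trace +
        (Matrix.det (1 + (Polynomial.X : Polynomial T') •
        Z.map Polynomial.C)).divX.divX.eval d' * d') := by ring
    rw [e]
    exact hd'.mul_right _
  have h1 : (1 + X : Matrix (Fin n) (Fin n) Ω) = (1 + d' • Z).map T'.val.toRingHom := by
    rw [hXZ]
    ext i j
    rw [Matrix.add_apply, Matrix.map_apply, Matrix.map_apply, Matrix.add_apply, map_add]
    congr 1
    rw [Matrix.one_apply, Matrix.one_apply]
    split <;> simp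
  refine ⟨((1 + d' • Z)⁻¹).map T'.val.toRingHom, fun i j => ((1 + d' • Z)⁻¹ i j).2, ?_, ?_⟩
  · rw [h1, ← Matrix.map_mul, Matrix.mul_nonsing_inv _ hdet]
    exact Matrix.map_one _ (map_zero _) (map_one _)
  · rw [h1, ← Matrix.map_mul, Matrix.nonsing_inv_mul _ hdet]
    exact Matrix.map_one _ (map_zero _) (map_one _)

/-- **Linear range for projective elements, all valuations.**  `d` does not depend on `c`, `N`, `z`. -/
theorem exists_LR [IsDomain T] [Algebra.IsAlgebraic T Ω] {ϖ : T} (h0 : ϖ ≠ 0)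
    (hϖ : IsTopologicallyNilpotent ϖ) :
    ∃ d : T, d ≠ 0 ∧ IsTopologicallyNilpotent d ∧ ∀ c ∈ R.CC, c 1 = 0 →
      ∀ N : Subgroup G, N.Normal → IsClosed (N : Set G) → ∀ z ∈ N,
      ∀ (lam : Ω) (X : Matrix (Fin n) (Fin n) Ω), R.ρ z = lam • (1 + X) →
      (∀ i j, ∃ y, IsIntegral T y ∧ X i j = algebraMap T Ω d * y) →
      ∃ z' ∈ N, ∃ T' : Subalgebra T Ω, Module.Finite T T' ∧
        ∀ i j, algebraMap T Ω d * (R.ρ z' - 1 - c X) i j ∈
          Submodule.span T {x | ∃ k l, x = X k l} * Submodule.span T {x | ∃ k l, x = X k l}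
            * Subalgebra.toSubmodule T' := by
  classical
  obtain ⟨δ, hδ, F, hF, hFint, hA⟩ := R.exists_denom
  have hδ' : algebraMap T Ω δ ≠ 0 := fun h => hδ (R.tinj (by rw [h, map_zero]))
  refine ⟨δ ^ 3 * ϖ, mul_ne_zero (pow_ne_zero 3 hδ) h0, hϖ.mul_left _, ?_⟩
  intro c hc hc1 N hN hNc z hz lam X hzX hX
  choose y hy hXy using hX
  -- the finite algebra
  set F' : Set Ω := F ∪ Set.range fun ij : Fin n × Fin n => y ij.1 ij.2 with hF'
  have hF'fin : F'.Finite := hF.union (Set.finite_range _)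
  have hF'int : ∀ x ∈ F', IsIntegral T x := by
    rintro x (hx | ⟨ij, rfl⟩)
    · exact hFint x hx
    · exact hy _ _
  set T' := Algebra.adjoin T F' with hT'
  have hfin : Module.Finite T T' :=
    Module.Finite.iff_fg.2 (fg_adjoin_of_finite hF'fin hF'int)
  have hyT : ∀ i j, y i j ∈ T' := fun i j => Algebra.subset_adjoin (Or.inr ⟨(i, j), rfl⟩)
  have hFT : Submodule.span T F ≤ Subalgebra.toSubmodule T' := by
    rw [Submodule.span_le]
    exact fun x hx => Algebra.subset_adjoin (Or.inl hx)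
  set t := Subalgebra.toSubmodule T' with ht
  have htt : t * t ≤ t := by
    rw [Submodule.mul_le]
    exact fun a ha b hb => T'.mul_mem ha hb
  set s : Submodule T Ω := Submodule.span T {(algebraMap T Ω δ)⁻¹} with hs
  set x : Submodule T Ω := Submodule.span T {x | ∃ k l, x = X k l} with hx
  have hδs : ∀ m ∈ s, algebraMap T Ω δ * m ∈ t := by
    intro m hm
    obtain ⟨r, rfl⟩ := Submodule.mem_span_singleton.1 hm
    rw [mul_smul_comm, mul_inv_cancel₀ hδ']
    exact t.smul_mem r T'.one_mem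
  have h1D : (1 : Ω) ∈ s * t := by
    have := Submodule.mul_mem_mul (show (algebraMap T Ω δ)⁻¹ ∈ s from
      Submodule.mem_span_singleton_self _) (show algebraMap T Ω δ ∈ t from T'.algebraMap_mem δ)
    rwa [inv_mul_cancel₀ hδ'] at this
  have hAD : Subalgebra.toSubmodule R.A ≤ matOf n (s * t) := by
    intro a ha i j
    have := Submodule.mul_mem_mul (show (algebraMap T Ω δ)⁻¹ ∈ s from
      Submodule.mem_span_singleton_self _) (hFT (hA a ha i j))
    rwa [inv_mul_cancel_left₀ hδ'] at this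
  have hxs : x * s ≤ t := by
    rw [Submodule.mul_le]
    intro a ha b hb
    have h1 : ∀ a ∈ x, ∃ e ∈ t, a = algebraMap T Ω δ * e := by
      intro a ha
      induction ha using Submodule.span_induction with
      | mem a ha =>
        obtain ⟨k, l, rfl⟩ := ha
        refine ⟨algebraMap T Ω (δ ^ 2 * ϖ) * y k l, T'.mul_mem (T'.algebraMap_mem _) (hyT k l), ?_⟩
        rw [hXy, ← mul_assoc, ← map_mul]
        congr 2
        ring
      | zero => exact ⟨0, t.zero_mem, by simp⟩
      | add a b _ _ ha hb =>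
        obtain ⟨e, he, rfl⟩ := ha
        obtain ⟨e', he', rfl⟩ := hb
        exact ⟨e + e', add_mem he he', by ring⟩
      | smul r a _ ha =>
        obtain ⟨e, he, rfl⟩ := ha
        exact ⟨r • e, t.smul_mem r he, by rw [mul_smul_comm]⟩
    obtain ⟨e, he, rfl⟩ := h1 a ha
    have : algebraMap T Ω δ * e * b = e * (algebraMap T Ω δ * b) := by ring
    rw [this]
    exact T'.mul_mem he (hδs b hb)
  have hTI : t * (x * t) ≤ x * t := by
    have e : t * (x * t) = x * (t * t) := by ring
    rw [e]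
    exact smono le_rfl htt
  have hID : x * t * (s * t) ≤ t := by
    have e : x * t * (s * t) = (x * s) * (t * t) := by ring
    rw [e]
    exact (smono hxs htt).trans htt
  obtain ⟨Y, hY, hXY, hYX⟩ := exists_inv_one_add T' (hϖ.mul_left (δ ^ 3))
    (fun i j => ⟨y i j, hyT i j, hXy i j⟩)
  have hXI : X ∈ matOf n (x * t) := by
    intro i j
    have := Submodule.mul_mem_mul (show X i j ∈ x from Submodule.subset_span ⟨i, j, rfl⟩)
      (show (1 : Ω) ∈ t from T'.one_mem)
    rwa [mul_one] at this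
  obtain ⟨z', hz', h⟩ := R.linear_range_proj hNc T' hAD h1D hTI hID hz hzX hXI hY hXY hYX hc hc1
  refine ⟨z', hz', T', hfin, fun i j => ?_⟩
  have h2 := bimod_le R.A hAD h i j
  have e : s * t * (x * t * (s * t) * (x * t)) * (s * t)
      = (s * s * s) * (x * x * (t * t * t * t * t)) := by ring
  rw [e] at h2
  have h3 : t * t * t * t * t ≤ t :=
    (smono ((smono ((smono htt le_rfl).trans htt) le_rfl).trans htt) le_rfl).trans htt
  have h4 := smono (le_refl (s * s * s)) (smono (le_refl (x * x)) h3) h2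
  rw [hs, Submodule.span_mul_span, Submodule.span_mul_span, Set.singleton_mul_singleton,
    Set.singleton_mul_singleton, Submodule.mem_span_singleton_mul] at h4
  obtain ⟨w, hw, e⟩ := h4
  rw [← e]
  have e2 : algebraMap T Ω (δ ^ 3 * ϖ) * ((algebraMap T Ω δ)⁻¹ * (algebraMap T Ω δ)⁻¹ *
      (algebraMap T Ω δ)⁻¹ * w) = ϖ • w := by
    rw [Algebra.smul_def, map_mul, map_pow]
    field_simp
  rw [e2]
  exact Submodule.smul_mem _ _ hw

end Rep

end MP35
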