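import Pool.Agent.Lib_MP_3538b5_al.FLR
import Pool.Agent.Lib_MP_3538b5_al.ESpeed
import Pool.Agent.Lib_MP_3538b5_al.ETorus

/-!
# Layer F: the linear range of `G` as an instance of `Lin`

`T₂ ≤ Ω` a finite `T`-algebra, `D ∈ T₂` not zero and not a unit of `T₂`;
`B₀` = the `T₂`-span of `A` (a ring), `F m = D ^ m B₀`.
-/

set_option autoImplicit false

namespace MP35

universe u v w

namespace Rep

variable {p : ℕ} {G : Type u} [Group G] [TopologicalSpace G] {T : Type v} [CommRing T]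
  [TopologicalSpace T] {Ω : Type v} [Field Ω] [Algebra T Ω] {n : ℕ} (R : Rep p G T Ω n)

/-- the lattice `T₂ A` -/
def B0 (T₂ : Subalgebra T Ω) : Submodule T₂ (Matrix (Fin n) (Fin n) Ω) :=
  Submodule.span T₂ (R.A : Set (Matrix (Fin n) (Fin n) Ω))

section

variable {T₂ : Subalgebra T Ω}

theorem A_le_B0 {x : Matrix (Fin n) (Fin n) Ω} (hx : x ∈ R.A) : x ∈ R.B0 T₂ :=
  Submodule.subset_span hx

theorem one_mem_B0 : (1 : Matrix (Fin n) (Fin n) Ω) ∈ R.B0 T₂ := R.A_le_B0 R.A.one_mem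

theorem B0_mul {x y : Matrix (Fin n) (Fin n) Ω} (hx : x ∈ R.B0 T₂) (hy : y ∈ R.B0 T₂) :
    x * y ∈ R.B0 T₂ := by
  induction hx using Submodule.span_induction with
  | mem x hx =>
    induction hy using Submodule.span_induction with
    | mem y hy => exact R.A_le_B0 (R.A.mul_mem hx hy)
    | zero => rw [mul_zero]; exact zero_mem _
    | add y y' _ _ hy hy' => rw [mul_add]; exact add_mem hy hy'
    | smul t y _ hy => rw [mul_smul_comm]; exact Submodule.smul_mem _ _ hy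
  | zero => rw [zero_mul]; exact zero_mem _
  | add x x' _ _ hx hx' => rw [add_mul]; exact add_mem hx hx'
  | smul t x _ hx => rw [smul_mul_assoc]; exact Submodule.smul_mem _ _ hx

theorem B0_smulT {x : Matrix (Fin n) (Fin n) Ω} (hx : x ∈ R.B0 T₂) (t : T) :
    t • x ∈ R.B0 T₂ := by
  have h : t • x = (algebraMap T T₂ t) • x := (algebraMap_smul T₂ t x).symm
  rw [h]
  exact Submodule.smul_mem _ _ hx

theorem B0_smul {x : Matrix (Fin n) (Fin n) Ω} (hx : x ∈ R.B0 T₂) {c : Ω} (hc : c ∈ T₂) :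
    c • x ∈ R.B0 T₂ := Submodule.smul_mem _ (⟨c, hc⟩ : T₂) hx

instance finB0 : Module.Finite T₂ (R.B0 T₂) := by
  obtain ⟨s, hs⟩ := (Module.Finite.fg_top : (⊤ : Submodule T R.A).FG)
  refine Module.Finite.iff_fg.2 ?_
  classical
  refine ⟨s.image Subtype.val, le_antisymm (Submodule.span_le.2 ?_) (Submodule.span_le.2 ?_)⟩
  · intro x hx
    rw [Finset.coe_image] at hx
    obtain ⟨a, -, rfl⟩ := hx
    exact R.A_le_B0 a.2
  · intro x hx
    have h1 : (⟨x, hx⟩ : R.A) ∈ Submodule.span T (s : Set R.A) := by rw [hs]; trivial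
    have h2 : x ∈ (Submodule.span T (s : Set R.A)).map R.A.val.toLinearMap := ⟨_, h1, rfl⟩
    rw [Submodule.map_span] at h2
    have h3 : (R.A.val.toLinearMap '' (s : Set R.A)) = ((s.image Subtype.val : Finset _) : Set _) := by
      rw [Finset.coe_image]
      rfl
    rw [h3] at h2
    exact Submodule.span_le_restrictScalars T T₂ _ h2

end

/-- the filtration `D ^ m B₀` -/
def FF (T₂ : Subalgebra T Ω) (D : Ω) (m : ℤ) : AddSubgroup (Matrix (Fin n) (Fin n) Ω) where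
  carrier := {x | D ^ (-m) • x ∈ R.B0 T₂}
  zero_mem' := by
    rw [Set.mem_ofPred_eq, smul_zero]
    exact zero_mem _
  add_mem' {x y} hx hy := by
    rw [Set.mem_ofPred_eq] at hx hy ⊢
    rw [smul_add]
    exact add_mem hx hy
  neg_mem' {x} hx := by
    rw [Set.mem_ofPred_eq] at hx ⊢
    rw [smul_neg]
    exact neg_mem hx

variable {T₂ : Subalgebra T Ω} {D : Ω}

theorem mem_FF {m : ℤ} {x : Matrix (Fin n) (Fin n) Ω} :
    x ∈ R.FF T₂ D m ↔ D ^ (-m) • x ∈ R.B0 T₂ := Iff.rfl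

theorem mem_FF_zero {x : Matrix (Fin n) (Fin n) Ω} : x ∈ R.FF T₂ D 0 ↔ x ∈ R.B0 T₂ := by
  rw [mem_FF, neg_zero, zpow_zero, one_smul]

theorem FF_smul {m : ℤ} {x : Matrix (Fin n) (Fin n) Ω} (hx : x ∈ R.FF T₂ D m) {c : Ω}
    (hc : c ∈ T₂) : c • x ∈ R.FF T₂ D m := by
  rw [mem_FF, smul_comm]
  exact R.B0_smul hx hc

theorem FF_smulT {m : ℤ} {x : Matrix (Fin n) (Fin n) Ω} (hx : x ∈ R.FF T₂ D m) (t : T) :
    t • x ∈ R.FF T₂ D m := by
  rw [← algebraMap_smul Ω t x]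
  exact R.FF_smul hx (T₂.algebraMap_mem t)

theorem FF_scale (hD : D ≠ 0) (k : ℤ) {m : ℤ} {x : Matrix (Fin n) (Fin n) Ω} :
    D ^ k • x ∈ R.FF T₂ D (m + k) ↔ x ∈ R.FF T₂ D m := by
  rw [mem_FF, mem_FF, smul_smul, ← zpow_add₀ hD]
  have : -(m + k) + k = -m := by ring
  rw [this]

theorem FF_anti (hD : D ∈ T₂) (hD0 : D ≠ 0) : Antitone (R.FF T₂ D) := by
  intro m m' h x hx
  obtain ⟨k, hk⟩ := Int.eq_ofNat_of_zero_le (sub_nonneg.2 h)
  rw [mem_FF] at hx ⊢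
  have h1 : D ^ (-m) = D ^ k * D ^ (-m') := by
    rw [← zpow_natCast, ← zpow_add₀ hD0]
    congr 1
    omega
  rw [h1, mul_smul]
  exact R.B0_smul hx (T₂.pow_mem hD k)

theorem FF_mul {m m' : ℤ} (hD0 : D ≠ 0) {x y : Matrix (Fin n) (Fin n) Ω}
    (hx : x ∈ R.FF T₂ D m) (hy : y ∈ R.FF T₂ D m') : x * y ∈ R.FF T₂ D (m + m') := by
  rw [mem_FF] at hx hy ⊢
  have h1 : D ^ (-(m + m')) = D ^ (-m) * D ^ (-m') := by
    rw [← zpow_add₀ hD0]
    congr 1
    ring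
  rw [h1, mul_smul, ← mul_smul_comm, ← smul_mul_assoc]
  exact R.B0_mul hx hy

theorem A_le_FF {x : Matrix (Fin n) (Fin n) Ω} (hx : x ∈ R.A) : x ∈ R.FF T₂ D 0 :=
  R.mem_FF_zero.2 (R.A_le_B0 hx)

theorem ρ_mem_A (g : G) : R.ρ g ∈ R.A := (R.j g).2

/-- `B` preserves the filtration -/
theorem B_FF {y : Module.End Ω (Matrix (Fin n) (Fin n) Ω)} (hy : y ∈ R.B) {m : ℤ}
    {x : Matrix (Fin n) (Fin n) Ω} (hx : x ∈ R.FF T₂ D m) : y x ∈ R.FF T₂ D m := by
  have h : R.B ≤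
      { carrier := {y : Module.End Ω (Matrix (Fin n) (Fin n) Ω) |
          ∀ x ∈ R.B0 T₂, y x ∈ R.B0 T₂}
        mul_mem' := fun ha hb v hv => ha _ (hb v hv)
        add_mem' := fun ha hb v hv => add_mem (ha v hv) (hb v hv)
        algebraMap_mem' := fun t v hv => by
          rw [Module.algebraMap_end_apply]
          exact R.B0_smulT hv t : Subalgebra T (Module.End Ω (Matrix (Fin n) (Fin n) Ω)) } := by
    refine Algebra.adjoin_le ?_
    rintro _ ⟨g, rfl⟩ x hx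
    rw [adH_apply]
    exact R.B0_mul (R.B0_mul (R.A_le_B0 (R.ρ_mem_A g)) hx) (R.A_le_B0 (R.ρ_mem_A _))
  rw [mem_FF, ← map_smul]
  exact h hy _ hx

theorem CC_FF [CNR T] {y : Module.End Ω (Matrix (Fin n) (Fin n) Ω)} (hy : y ∈ R.CC) {m : ℤ}
    {x : Matrix (Fin n) (Fin n) Ω} (hx : x ∈ R.FF T₂ D m) : y x ∈ R.FF T₂ D m :=
  R.B_FF (R.CC_le_B hy) hx

/-- the part of `A` in the filtration -/
def UA (T₂ : Subalgebra T Ω) (D : Ω) (m : ℤ) : Submodule T R.A where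
  carrier := {x | (x : Matrix (Fin n) (Fin n) Ω) ∈ R.FF T₂ D m}
  zero_mem' := (R.FF T₂ D m).zero_mem
  add_mem' hx hy := (R.FF T₂ D m).add_mem hx hy
  smul_mem' t _ hx := R.FF_smulT hx t

theorem mem_UA {m : ℤ} {x : R.A} :
    x ∈ R.UA T₂ D m ↔ (x : Matrix (Fin n) (Fin n) Ω) ∈ R.FF T₂ D m := Iff.rfl

theorem UA_mul_left (hD0 : D ≠ 0) {m : ℤ} {x : R.A} (hx : x ∈ R.UA T₂ D m) (a : R.A) :
    a * x ∈ R.UA T₂ D m := by
  have := R.FF_mul hD0 (R.A_le_FF (T₂ := T₂) (D := D) a.2) hx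
  rwa [zero_add] at this

theorem UA_mul_right (hD0 : D ≠ 0) {m : ℤ} {x : R.A} (hx : x ∈ R.UA T₂ D m) (a : R.A) :
    x * a ∈ R.UA T₂ D m := by
  have := R.FF_mul hD0 hx (R.A_le_FF (T₂ := T₂) (D := D) a.2)
  rwa [add_zero] at this

theorem δ_one_eq : (R.ρ 1 - 1 : Matrix (Fin n) (Fin n) Ω) = 0 := by rw [map_one, sub_self]

/-- **The linear range of `G`.** -/
noncomputable def lin [IsTopologicalGroup G] [CompactSpace G] [CNR T] (T₂ : Subalgebra T Ω) {D : Ω}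
    (hD : D ∈ T₂) (hD0 : D ≠ 0) (N : Subgroup G) [N.Normal] (hN : IsClosed (N : Set G)) :
    Lin G (Matrix (Fin n) (Fin n) Ω) where
  δ g := R.ρ g - 1
  F := R.FF T₂ D
  N := N
  C := {y | ∃ z ∈ R.CC, z.toAddMonoidHom = y}
  c := 0
  c_nonneg := le_rfl
  anti := R.FF_anti hD hD0
  δ_zero g := R.A_le_FF (R.A.sub_mem (R.ρ_mem_A g) R.A.one_mem)
  δ_one := R.δ_one_eq
  mul m k g h _ _ hg hh := by
    have e : R.ρ (g * h) - 1 - (R.ρ g - 1) - (R.ρ h - 1) = (R.ρ g - 1) * (R.ρ h - 1) := by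
      rw [map_mul]; noncomm_ring
    rw [sub_zero, e]
    exact R.FF_mul hD0 hg hh
  inv m g _ hg := by
    have h1 : R.ρ g⁻¹ * R.ρ g = 1 := by rw [← map_mul, inv_mul_cancel, map_one]
    have e : R.ρ g⁻¹ - 1 + (R.ρ g - 1) = R.ρ g⁻¹ * ((R.ρ g - 1) * (R.ρ g - 1)) := by
      have e2 : R.ρ g⁻¹ * ((R.ρ g - 1) * (R.ρ g - 1))
          = R.ρ g⁻¹ * R.ρ g * R.ρ g - R.ρ g⁻¹ * R.ρ g - R.ρ g⁻¹ * R.ρ g + R.ρ g⁻¹ := by
        noncomm_ring
      rw [e2, h1]
      noncomm_ring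
    rw [sub_zero, e]
    have h2 := R.FF_mul hD0 (R.A_le_FF (T₂ := T₂) (D := D) (R.ρ_mem_A g⁻¹)) (R.FF_mul hD0 hg hg)
    rwa [zero_add, ← two_mul] at h2
  real := by
    rintro _ ⟨y, hy, rfl⟩ m h hm hh hhm
    obtain ⟨h', hh', u, hu, e⟩ := R.linear_range hN (R.UA T₂ D m) (R.UA T₂ D (2 * m))
      (fun x hx => R.FF_anti hD hD0 (by omega) hx)
      (fun g x hx => R.UA_mul_right hD0 (R.UA_mul_left hD0 hx _) _)
      (fun g x hx => R.UA_mul_left hD0 hx _) (fun g x hx => R.UA_mul_right hD0 hx _)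
      (fun x hx y hy => by
        have := R.FF_mul hD0 (R.mem_UA.1 hx) (R.mem_UA.1 hy)
        rw [← two_mul] at this
        exact this) hy hh hhm
    refine ⟨h', hh', ?_⟩
    rw [sub_zero, e]
    show y (R.ρ h - 1) + (u : Matrix (Fin n) (Fin n) Ω) - y (R.ρ h - 1) ∈ _
    rw [add_sub_cancel_left]
    exact hu
  presF := by
    rintro _ ⟨y, hy, rfl⟩ m x hx
    exact R.CC_FF hy hx

section lin

variable [IsTopologicalGroup G] [CompactSpace G] [CNR T] (hD : D ∈ T₂) (hD0 : D ≠ 0)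
  (N : Subgroup G) [N.Normal] (hN : IsClosed (N : Set G))

theorem lin_δ (g : G) : (R.lin T₂ hD hD0 N hN).δ g = R.ρ g - 1 := rfl

theorem lin_F : (R.lin T₂ hD hD0 N hN).F = R.FF T₂ D := rfl

theorem lin_N : (R.lin T₂ hD hD0 N hN).N = N := rfl

theorem lin_scale (m : ℤ) (q : Matrix (Fin n) (Fin n) Ω) :
    q ∈ (R.lin T₂ hD hD0 N hN).F m ↔ D • q ∈ (R.lin T₂ hD hD0 N hN).F (m + 1) := by
  rw [lin_F]
  have := R.FF_scale (T₂ := T₂) hD0 1 (m := m) (x := q)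
  rw [zpow_one] at this
  exact this.symm

theorem lin_smul (m : ℤ) (q : Matrix (Fin n) (Fin n) Ω) (c : Ω) (hc : c ∈ T₂)
    (hq : q ∈ (R.lin T₂ hD hD0 N hN).F m) : c • q ∈ (R.lin T₂ hD hD0 N hN).F m :=
  R.FF_smul hq hc

theorem lin_mem_C {y : Module.End Ω (Matrix (Fin n) (Fin n) Ω)} (hy : y ∈ R.CC) :
    y.toAddMonoidHom ∈ (R.lin T₂ hD hD0 N hN).C := ⟨y, hy, rfl⟩

/-- linear operators with a denominator dividing `D` are bounded -/
theorem lin_bdd {y : Module.End Ω (Matrix (Fin n) (Fin n) Ω)} {t : Ω} (k : ℕ)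
    (ht : ∃ s ∈ T₂, D ^ k = s * t) (hy : ∀ x ∈ R.B0 T₂, t • y x ∈ R.B0 T₂) :
    (R.lin T₂ hD hD0 N hN).Bdd y.toAddMonoidHom := by
  obtain ⟨s, hs, e⟩ := ht
  refine ⟨k, by omega, fun m q hq => ?_⟩
  rw [lin_F, mem_FF] at hq ⊢
  have h1 : D ^ (-(m - (k : ℤ))) = D ^ k * D ^ (-m) := by
    rw [← zpow_natCast, ← zpow_add₀ hD0]
    congr 1
    ring
  show D ^ (-(m - (k : ℤ))) • y q ∈ _
  rw [h1, mul_smul, ← map_smul, e, mul_smul]
  exact R.B0_smul (hy _ hq) hs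

/-- intersection of the filtration -/
theorem lin_inter (hu : ¬ IsUnit (⟨D, hD⟩ : T₂)) [Module.Finite T T₂]
    (q : Matrix (Fin n) (Fin n) Ω) (hq : ∀ m, q ∈ (R.lin T₂ hD hD0 N hN).F m) : q = 0 := by
  by_contra hne
  have hnoeth : IsNoetherianRing T₂ :=
    isNoetherian_of_tower T (isNoetherian_of_isNoetherianRing_of_finite T T₂)
  have hq0 : q ∈ R.B0 T₂ := R.mem_FF_zero.1 (hq 0)
  have h1 : (⟨q, hq0⟩ : R.B0 T₂) ∈
      (⨅ i : ℕ, (Ideal.span {(⟨D, hD⟩ : T₂)}) ^ i • ⊤ : Submodule T₂ (R.B0 T₂)) := by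
    rw [Submodule.mem_iInf]
    intro i
    have h2 := hq i
    rw [lin_F, mem_FF] at h2
    have h3 : (⟨q, hq0⟩ : R.B0 T₂)
        = (⟨D, hD⟩ : T₂) ^ i • (⟨D ^ (-(i : ℤ)) • q, h2⟩ : R.B0 T₂) := by
      apply Subtype.ext
      show q = D ^ i • D ^ (-(i : ℤ)) • q
      rw [smul_smul, ← zpow_natCast, ← zpow_add₀ hD0, add_neg_cancel, zpow_zero, one_smul]
    rw [h3]
    exact Submodule.smul_mem_smul (Ideal.pow_mem_pow (Ideal.mem_span_singleton_self _) i) trivial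
  rw [Ideal.mem_iInf_smul_pow_eq_bot_iff] at h1
  obtain ⟨⟨r, hr⟩, h4⟩ := h1
  have h5 : (r : Ω) • q = q := congrArg Subtype.val h4
  have h6 : ((r : Ω) - 1) • q = 0 := by rw [sub_smul, one_smul, h5, sub_self]
  have h7 : (r : Ω) = 1 := by
    rcases smul_eq_zero.1 h6 with h | h
    · exact sub_eq_zero.1 h
    · exact absurd h hne
  have h8 : r = 1 := Subtype.ext h7
  rw [h8, Ideal.mem_span_singleton] at hr
  exact hu (isUnit_of_dvd_one hr)

theorem isClosed_lin (y : Module.End Ω (Matrix (Fin n) (Fin n) Ω)) (g : G) (m : ℤ) :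
    IsClosed {x : G | y ((R.lin T₂ hD hD0 N hN).δ (g * x)) ∈ (R.lin T₂ hD hD0 N hN).F m} := by
  let S : Submodule T R.A :=
    { carrier := {x | y (x : Matrix (Fin n) (Fin n) Ω) ∈ R.FF T₂ D m}
      zero_mem' := by
        rw [Set.mem_ofPred_eq, ZeroMemClass.coe_zero, map_zero]
        exact (R.FF T₂ D m).zero_mem
      add_mem' := fun {a b} ha hb => by
        rw [Set.mem_ofPred_eq] at ha hb ⊢
        rw [AddMemClass.coe_add, map_add]
        exact (R.FF T₂ D m).add_mem ha hb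
      smul_mem' := fun t a ha => by
        rw [Set.mem_ofPred_eq] at ha ⊢
        have e : ((t • a : R.A) : Matrix (Fin n) (Fin n) Ω)
            = algebraMap T Ω t • (a : Matrix (Fin n) (Fin n) Ω) := by
          rw [algebraMap_smul]; rfl
        rw [e, map_smul, algebraMap_smul]
        exact R.FF_smulT ha t }
  have hS : IsClosed (S : Set R.A) := isClosed_submodule S
  have hc : Continuous fun x : G => R.j (g * x) - 1 :=
    (R.cont_j.comp (continuous_const.mul continuous_id)).sub continuous_const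
  exact hS.preimage hc

/-- **The torus lemma for `G`.** -/
theorem lin_torus (hu : ¬ IsUnit (⟨D, hD⟩ : T₂)) [Module.Finite T T₂] {a : G} (ha : a ∈ N)
    {y : Module.End Ω (Matrix (Fin n) (Fin n) Ω)} (hy : (R.lin T₂ hD hD0 N hN).LDv y)
    (hyα : (R.Ad a - 1) * y * (R.Ad a - 1) = R.Ad a - 1) :
    ∃ m₁ : ℤ, ∀ g, R.ρ g - 1 ∈ R.FF T₂ D m₁ → ∃ n ∈ N, a * (g * n) = g * n * a := by
  have hα1 : ∀ x, (R.Ad a - 1 : Module.End Ω (Matrix (Fin n) (Fin n) Ω)).toAddMonoidHom x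
      = R.ρ a * x * R.ρ a⁻¹ - x := fun x => rfl
  have hαF : ∀ m, ∀ x ∈ R.FF T₂ D m,
      (R.Ad a - 1 : Module.End Ω (Matrix (Fin n) (Fin n) Ω)).toAddMonoidHom x ∈ R.FF T₂ D m := by
    intro m x hx
    exact R.CC_FF (R.CC.sub_mem (R.Ad_mem_CC a) R.CC.one_mem) hx
  have hinv : ∀ g : G, R.ρ g * R.ρ g⁻¹ = 1 := fun g => by rw [← map_mul, mul_inv_cancel, map_one]
  have hinv' : ∀ g : G, R.ρ g⁻¹ * R.ρ g = 1 := fun g => by rw [← map_mul, inv_mul_cancel, map_one]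
  have hαδ : ∀ g, (R.Ad a - 1 : Module.End Ω (Matrix (Fin n) (Fin n) Ω)).toAddMonoidHom
      (R.ρ g - 1) = R.ρ a * R.ρ g * R.ρ a⁻¹ - R.ρ g := by
    intro g
    rw [hα1, mul_sub, sub_mul, mul_one, hinv]
    abel
  have hNc : IsClosed ((R.lin T₂ hD hD0 N hN).N : Set G) := hN
  have hNn : (R.lin T₂ hD hD0 N hN).N.Normal := inferInstanceAs N.Normal
  refine Lin.torus (L := R.lin T₂ hD hD0 N hN) hNc (hNn := hNn) (a := a) ha
    (α := (R.Ad a - 1 : Module.End Ω (Matrix (Fin n) (Fin n) Ω)).toAddMonoidHom)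
    ⟨0, le_rfl, fun m q hq => by rw [sub_zero]; exact hαF m q hq⟩ (c₁ := 0) le_rfl ?_
    (y := y.toAddMonoidHom) hy ?_ ?_ ?_ ?_
  · intro m t g hm ht hg hgt
    rw [sub_zero]
    have hg' : R.ρ g - 1 ∈ R.FF T₂ D m := hg
    have hgt' : R.ρ a * R.ρ g * R.ρ a⁻¹ - R.ρ g ∈ R.FF T₂ D t := by
      rw [← hαδ]; exact hgt
    show R.ρ (a * g * a⁻¹ * g⁻¹) - 1 - (R.Ad a - 1 : Module.End Ω _).toAddMonoidHom (R.ρ g - 1) ∈ _
    rw [hαδ]
    have e : R.ρ (a * g * a⁻¹ * g⁻¹) - 1 - (R.ρ a * R.ρ g * R.ρ a⁻¹ - R.ρ g)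
        = (R.ρ a * R.ρ g * R.ρ a⁻¹ - R.ρ g) * ((-1 : Matrix (Fin n) (Fin n) Ω) *
          (R.ρ g - 1) * R.ρ g⁻¹) := by
      rw [map_mul, map_mul, map_mul]
      have e1 : (-1 : Matrix (Fin n) (Fin n) Ω) * (R.ρ g - 1) * R.ρ g⁻¹ = R.ρ g⁻¹ - 1 := by
        have : (-1 : Matrix (Fin n) (Fin n) Ω) * (R.ρ g - 1) * R.ρ g⁻¹
            = R.ρ g⁻¹ - R.ρ g * R.ρ g⁻¹ := by noncomm_ring
        rw [this, hinv]
      rw [e1]
      have e2 : (R.ρ a * R.ρ g * R.ρ a⁻¹ - R.ρ g) * (R.ρ g⁻¹ - 1)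
          = R.ρ a * R.ρ g * R.ρ a⁻¹ * R.ρ g⁻¹ - R.ρ g * R.ρ g⁻¹
            - (R.ρ a * R.ρ g * R.ρ a⁻¹ - R.ρ g) := by noncomm_ring
      rw [e2, hinv]
    rw [e, add_comm]
    have h1 : (-1 : Matrix (Fin n) (Fin n) Ω) * (R.ρ g - 1) * R.ρ g⁻¹ ∈ R.FF T₂ D m := by
      have h2 := R.FF_mul hD0 ((R.FF T₂ D m).neg_mem hg')
        (R.A_le_FF (T₂ := T₂) (D := D) (R.ρ_mem_A g⁻¹))
      rw [add_zero] at h2
      have h3 : (-1 : Matrix (Fin n) (Fin n) Ω) * (R.ρ g - 1) * R.ρ g⁻¹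
          = -(R.ρ g - 1) * R.ρ g⁻¹ := by noncomm_ring
      rw [h3]
      exact h2
    have h4 := R.FF_mul hD0 hgt' h1
    rw [add_comm t m] at h4
    rw [add_comm]
    exact h4
  · intro q
    exact LinearMap.congr_fun hyα q
  · intro g m
    exact R.isClosed_lin hD hD0 N hN (R.Ad a - 1) g m
  · exact R.lin_inter hD hD0 N hN hu
  · intro g hg
    have h1 : R.ρ a * R.ρ g * R.ρ a⁻¹ - R.ρ g = 0 := by rw [← hαδ]; exact hg
    apply R.inj
    rw [map_mul, map_mul]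
    calc R.ρ a * R.ρ g = R.ρ a * R.ρ g * (R.ρ a⁻¹ * R.ρ a) := by rw [hinv', mul_one]
      _ = R.ρ a * R.ρ g * R.ρ a⁻¹ * R.ρ a := by noncomm_ring
      _ = R.ρ g * R.ρ a := by rw [sub_eq_zero.1 h1]

/-- submodules of `B₀` over a ring over which `T₂` is finite are finitely generated -/
theorem lin_noeth {S : Type*} [CommRing S] [IsNoetherianRing S] (σ : S →+* T₂) (hσ : σ.Finite) :
    Lin.NoethAt (T₂.val.toRingHom.comp σ) ((R.lin T₂ hD hD0 N hN).F 0) := by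
  let _ : Module S (Matrix (Fin n) (Fin n) Ω) := Module.compHom _ (T₂.val.toRingHom.comp σ)
  show ∀ P : Submodule S (Matrix (Fin n) (Fin n) Ω), (∀ x ∈ P, x ∈ R.FF T₂ D 0) → P.FG
  intro P hP
  let _ : Algebra S T₂ := σ.toAlgebra
  have h1 : Module.Finite S T₂ := hσ
  let _ : Module S (R.B0 T₂) := Module.compHom _ σ
  have h2 : IsScalarTower S T₂ (R.B0 T₂) := ⟨fun s t x => by
    show (σ s * t) • x = σ s • t • x
    rw [mul_smul]⟩
  have h3 : Module.Finite S (R.B0 T₂) := Module.Finite.trans T₂ _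
  have h4 : IsNoetherian S (R.B0 T₂) := isNoetherian_of_isNoetherianRing_of_finite S _
  -- `P` embeds in `B₀`
  let f : P →ₗ[S] (R.B0 T₂) :=
    { toFun := fun x => ⟨x.1, R.mem_FF_zero.1 (hP x.1 x.2)⟩
      map_add' := fun x y => rfl
      map_smul' := fun s x => rfl }
  have hf : Function.Injective f := fun x y h => by
    have h' : (f x : Matrix (Fin n) (Fin n) Ω) = f y := by rw [h]
    exact Subtype.ext h'
  have h5 : Module.Finite S P := Module.Finite.of_injective f hf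
  exact Module.Finite.iff_fg.1 h5

end lin

/-- every linear operator has a denominator, if `A` spans the matrices and `T₂` contains finitely many
integral elements -/
theorem exists_denominator [IsDomain T] [Algebra.IsAlgebraic T Ω]
    (hspan : Submodule.span Ω (Set.range R.ρ) = ⊤)
    (y : Module.End Ω (Matrix (Fin n) (Fin n) Ω)) :
    ∃ (t : T) (Z : Finset Ω), t ≠ 0 ∧ (∀ z ∈ Z, IsIntegral T z) ∧
      ∀ T₂ : Subalgebra T Ω, (∀ z ∈ Z, z ∈ T₂) → ∀ x ∈ R.B0 T₂,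
        algebraMap T Ω t • y x ∈ R.B0 T₂ := by
  classical
  obtain ⟨s, hs⟩ := (Module.Finite.fg_top : (⊤ : Submodule T R.A).FG)
  have hsA : ∀ T₂ : Subalgebra T Ω, ∀ x ∈ R.B0 T₂,
      x ∈ Submodule.span T₂ (Subtype.val '' (s : Set R.A)) := by
    intro T₂ x hx
    refine Submodule.span_le.2 ?_ hx
    intro x hx
    have h1 : (⟨x, hx⟩ : R.A) ∈ Submodule.span T (s : Set R.A) := by rw [hs]; trivial
    have h2 : x ∈ (Submodule.span T (s : Set R.A)).map R.A.val.toLinearMap := ⟨_, h1, rfl⟩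
    rw [Submodule.map_span] at h2
    exact Submodule.span_le_restrictScalars T T₂ _ h2
  have hsΩ : Submodule.span Ω (Subtype.val '' (s : Set R.A)) = ⊤ := by
    rw [eq_top_iff, ← hspan, Submodule.span_le]
    rintro _ ⟨g, rfl⟩
    have h1 : R.j g ∈ Submodule.span T (s : Set R.A) := by rw [hs]; trivial
    have h2 : R.ρ g ∈ (Submodule.span T (s : Set R.A)).map R.A.val.toLinearMap := ⟨_, h1, rfl⟩
    rw [Submodule.map_span] at h2
    exact Submodule.span_le_restrictScalars T Ω _ h2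
  have hco : ∀ a : R.A, ∃ c : R.A → Ω, y a = ∑ b ∈ s, c b • (b : Matrix (Fin n) (Fin n) Ω) := by
    intro a
    have h1 : y a ∈ Submodule.span Ω (Subtype.val '' (s : Set R.A)) := by rw [hsΩ]; trivial
    rw [Submodule.mem_span_image_finset_iff_exists_fun'] at h1
    obtain ⟨c, hc⟩ := h1
    exact ⟨c, hc.symm⟩
  choose c hc using hco
  -- common denominator
  obtain ⟨t, ht, hint⟩ : ∃ t : T, t ≠ 0 ∧ ∀ z ∈ (s ×ˢ s).image (fun ab : R.A × R.A => c ab.1 ab.2),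
      IsIntegral T (t • z) := by
    obtain ⟨t, ht, h⟩ := Algebra.IsAlgebraic.exists_integral_multiples T
      ((s ×ˢ s).image (fun ab : R.A × R.A => c ab.1 ab.2))
    exact ⟨t, ht, h⟩
  refine ⟨t, ((s ×ˢ s).image (fun ab : R.A × R.A => t • c ab.1 ab.2)), ht, ?_, ?_⟩
  · intro z hz
    obtain ⟨ab, hab, rfl⟩ := Finset.mem_image.1 hz
    exact hint _ (Finset.mem_image_of_mem _ hab)
  · intro T₂ hT₂ x hx
    have h1 := hsA T₂ x hx
    clear hx
    induction h1 using Submodule.span_induction with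
    | mem x hx =>
      obtain ⟨a, ha, rfl⟩ := hx
      rw [hc, Finset.smul_sum]
      refine sum_mem fun b hb => ?_
      rw [smul_smul]
      refine R.B0_smul (R.A_le_B0 b.2) ?_
      have := hT₂ _ (Finset.mem_image_of_mem (fun ab : R.A × R.A => t • c ab.1 ab.2)
        (Finset.mk_mem_product ha hb))
      rwa [Algebra.smul_def] at this
    | zero => rw [map_zero, smul_zero]; exact zero_mem _
    | add x x' _ _ hx hx' =>
      rw [map_add, smul_add]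
      exact add_mem hx hx'
    | smul r x _ hx =>
      have e : y (r • x) = (r : Ω) • y x := y.map_smul (r : Ω) x
      rw [e, smul_comm]
      exact R.B0_smul hx r.2

end Rep

end MP35
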