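import Pool.Agent.Lib_MP_3538b5_al.RTopo
import Pool.Agent.Lib_MP_3538b5_al.ZScal

/-!
# Layer F: scalars of a family, on an ideal

`B` a finite `T`-algebra with algebra homomorphisms `π j : B →ₐ[T] M_d(Ω)`, `j ∈ J`; `CB ≤ B` a subring,
`q` a closed two-sided ideal of `CB`; `Y` with `q ≤ Y ≤ CB`. `scRing T' π Y`: the closed subring of `J → T'`
generated by the tuples of the coefficients of the characteristic polynomials of the left
multiplications by `π j y`, `y ∈ Y`. If some `π j` is not zero on `q` then there is `z ∈ scRing`,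
`z j ≠ 0`, such that all tuples `z * s`, `s ∈ scRing`, are realised by elements of `q`.
-/

set_option autoImplicit false
set_option linter.unusedSectionVars false

namespace MP35

universe u v w x

section

variable {T : Type v} [CommRing T] [TopologicalSpace T] [CNR T]

/-- a closedness lemma -/
theorem isClosed_exists {P : Type u} {Q : Type w} {V : Type x} [AddCommGroup P] [Module T P]
    [Module.Finite T P] [TopologicalSpace P] [IsModuleTopology T P] [AddCommGroup Q] [Module T Q]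
    [Module.Finite T Q] [TopologicalSpace Q] [IsModuleTopology T Q] [AddCommGroup V] [Module T V]
    (f : P →ₗ[T] V) (g : Q →ₗ[T] V) {K : Set Q} (hK : IsClosed K) :
    IsClosed {x : P | ∃ y ∈ K, g y = f x} := by
  have : CompactSpace Q := compact_of_finite T Q
  let N : Submodule T (P × Q) :=
    LinearMap.ker (f.comp (LinearMap.fst T P Q) - g.comp (LinearMap.snd T P Q))
  have h1 : IsClosed (N : Set (P × Q)) := isClosed_submodule N
  have h2 : IsClosed ((N : Set (P × Q)) ∩ Prod.snd ⁻¹' K) := h1.inter (hK.preimage continuous_snd)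
  have h3 := isClosedMap_fst_of_compactSpace _ h2
  convert h3 using 1
  ext x
  simp only [Set.mem_ofPred_eq, Set.mem_image, Set.mem_inter_iff, SetLike.mem_coe, Set.mem_preimage,
    Prod.exists, exists_and_right, exists_eq_right]
  constructor
  · rintro ⟨y, hy, h⟩
    refine ⟨y, ?_, hy⟩
    show (f.comp (LinearMap.fst T P Q) - g.comp (LinearMap.snd T P Q)) (x, y) = 0
    simp [h]
  · rintro ⟨y, h, hy⟩
    refine ⟨y, hy, ?_⟩
    have h' : (f.comp (LinearMap.fst T P Q) - g.comp (LinearMap.snd T P Q)) (x, y) = 0 := h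
    simp only [LinearMap.sub_apply, LinearMap.comp_apply, LinearMap.fst_apply,
      LinearMap.snd_apply] at h'
    exact (sub_eq_zero.1 h').symm

variable {B : Type w} [Ring B] [Algebra T B] [Module.Finite T B] [TopologicalSpace B]
  [IsModuleTopology T B] {Ω : Type v} [Field Ω] [Algebra T Ω] (T' : Subalgebra T Ω)
  [Module.Finite T T'] [TopologicalSpace T'] [IsModuleTopology T T'] [CNR T'] {J : Type} [Finite J]
  {d : ℕ} (π : J → B →ₐ[T] Matrix (Fin d) (Fin d) Ω) (Y : Set B)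

/-- the tuples of the characteristic coefficients -/
def tupSet : Set (J → T') :=
  {s | ∃ y ∈ Y, ∃ m : ℕ, m < d ^ 2 ∧
    ∀ j, ((s j : T') : Ω) = (LinearMap.mulLeft Ω (π j y)).charpoly.coeff m}

/-- the closed ring generated by the tuples -/
def scRing : Subring (J → T') := (Subring.closure (tupSet T' π Y)).topologicalClosure

theorem isClosed_scRing : IsClosed (scRing T' π Y : Set (J → T')) :=
  Subring.isClosed_topologicalClosure _

/-- all characteristic coefficients are in `T'` -/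
def HasCoef : Prop :=
  ∀ y ∈ Y, ∀ j m, (LinearMap.mulLeft Ω (π j y)).charpoly.coeff m ∈ T'

variable {T' π Y}

theorem tup_mem_scRing {s : J → T'} (hs : s ∈ tupSet T' π Y) : s ∈ scRing T' π Y :=
  Subring.le_topologicalClosure _ (Subring.subset_closure hs)

/-- the elements on which all scalars act, with values in `q` -/
private def goodI (q : AddSubgroup B) (S : Subring (J → T')) (π : J → B →ₐ[T] Matrix (Fin d) (Fin d) Ω) :
    AddSubgroup B where
  carrier := {x | x ∈ q ∧ ∀ s ∈ S, ∃ y ∈ q, ∀ j, π j y = ((s j : T') : Ω) • π j x}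
  zero_mem' := ⟨q.zero_mem, fun s _ => ⟨0, q.zero_mem, fun j => by simp⟩⟩
  add_mem' := by
    rintro x x' ⟨hx, h⟩ ⟨hx', h'⟩
    refine ⟨q.add_mem hx hx', fun s hs => ?_⟩
    obtain ⟨y, hy, e⟩ := h s hs
    obtain ⟨y', hy', e'⟩ := h' s hs
    exact ⟨y + y', q.add_mem hy hy', fun j => by rw [map_add, e, e', map_add, smul_add]⟩
  neg_mem' := by
    rintro x ⟨hx, h⟩
    refine ⟨q.neg_mem hx, fun s hs => ?_⟩
    obtain ⟨y, hy, e⟩ := h s hs
    exact ⟨-y, q.neg_mem hy, fun j => by rw [map_neg, e, map_neg, smul_neg]⟩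

private theorem mem_goodI {q : AddSubgroup B} {S : Subring (J → T')}
    {π : J → B →ₐ[T] Matrix (Fin d) (Fin d) Ω} {x : B} : x ∈ goodI q S π ↔
      x ∈ q ∧ ∀ s ∈ S, ∃ y ∈ q, ∀ j, π j y = ((s j : T') : Ω) • π j x := Iff.rfl

/-- the scalars act on the Capelli values -/
theorem scal_capf [Infinite Ω] (hd : 0 < d) (CB : Subring B) (q : AddSubgroup B)
    (hqC : ∀ x ∈ q, x ∈ CB) (hl : ∀ a ∈ CB, ∀ x ∈ q, a * x ∈ q)
    (hr : ∀ a ∈ CB, ∀ x ∈ q, x * a ∈ q) (hqc : IsClosed (q : Set B)) (hY : ∀ y ∈ Y, y ∈ CB)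
    {b z : Fin (d ^ 2) → B} (hb : ∀ i, b i ∈ CB) (hz : ∀ i, z i ∈ q) {s : J → T'}
    (hs : s ∈ scRing T' π Y) :
    ∃ y ∈ q, ∀ j, π j y = ((s j : T') : Ω) • π j (capf b z) := by
  classical
  have hd2 : 0 < d ^ 2 := by positivity
  -- the span of the Capelli values
  let I₀ : AddSubgroup B :=
    AddSubgroup.closure {x | ∃ b z : Fin (d ^ 2) → B, (∀ i, b i ∈ CB) ∧ (∀ i, z i ∈ q) ∧ x = capf b z}
  have hI₀q : ∀ x ∈ I₀, x ∈ q := by
    intro x hx
    refine AddSubgroup.closure_induction (fun x hx => ?_) q.zero_mem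
      (fun x y _ _ hx hy => q.add_mem hx hy) (fun x _ hx => q.neg_mem hx) hx
    obtain ⟨b, z, hb, hz, rfl⟩ := hx
    exact capf_mem hd2 hqC hl hr hb hz
  have hI₀S : ∀ s ∈ Subring.closure (tupSet T' π Y), ∀ x ∈ I₀, ∃ y ∈ I₀, ∀ j,
      π j y = ((s j : T') : Ω) • π j x := by
    intro s hs
    refine Subring.closure_induction (fun s hs => ?_) ?_ ?_ (fun s t _ _ hs ht => ?_)
      (fun s _ hs => ?_) (fun s t _ _ hs ht => ?_) hs
    · obtain ⟨y, hy, m, hm, e⟩ := hs
      intro x hx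
      refine AddSubgroup.closure_induction (fun x hx => ?_) ?_ (fun x y _ _ hx hy => ?_)
        (fun x _ hx => ?_) hx
      · obtain ⟨b, z, hb, hz, rfl⟩ := hx
        refine ⟨capF (fun a => y * a) m b z, ?_, fun j => ?_⟩
        · refine AddSubgroup.sum_mem _ fun S _ => AddSubgroup.zsmul_mem _ ?_ _
          refine AddSubgroup.subset_closure ⟨b, fun i => if i ∈ S then y * z i else z i, hb,
            fun i => ?_, rfl⟩
          dsimp only
          split_ifs
          · exact hl y (hY y hy) _ (hz i)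
          · exact hz i
        · rw [e]
          have h1 := capF_map (π j : B →+* Matrix (Fin d) (Fin d) Ω) (L := fun a => y * a)
            (L' := LinearMap.mulLeft Ω (π j y)) (fun a => by simp) m b z
          have h2 := capf_map (π j : B →+* Matrix (Fin d) (Fin d) Ω) b z
          exact h1.trans ((capF_eq _ hm.le _ _).trans (congrArg _ h2.symm))
      · exact ⟨0, I₀.zero_mem, fun j => by simp⟩
      · obtain ⟨x', hx', e1⟩ := hx
        obtain ⟨y', hy', e2⟩ := hy
        exact ⟨x' + y', I₀.add_mem hx' hy', fun j => by rw [map_add, e1, e2, map_add, smul_add]⟩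
      · obtain ⟨x', hx', e1⟩ := hx
        exact ⟨-x', I₀.neg_mem hx', fun j => by rw [map_neg, e1, map_neg, smul_neg]⟩
    · intro x _
      exact ⟨0, I₀.zero_mem, fun j => by simp⟩
    · intro x hx
      exact ⟨x, hx, fun j => by simp⟩
    · intro x hx
      obtain ⟨x', hx', e1⟩ := hs x hx
      obtain ⟨y', hy', e2⟩ := ht x hx
      exact ⟨x' + y', I₀.add_mem hx' hy', fun j => by
        rw [map_add, e1, e2, Pi.add_apply, Subalgebra.coe_add, add_smul]⟩
    · intro x hx
      obtain ⟨x', hx', e1⟩ := hs x hx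
      exact ⟨-x', I₀.neg_mem hx', fun j => by
        rw [map_neg, e1, Pi.neg_apply, Subalgebra.coe_neg, neg_smul]⟩
    · intro x hx
      obtain ⟨x', hx', e1⟩ := ht x hx
      obtain ⟨y', hy', e2⟩ := hs x' hx'
      exact ⟨y', hy', fun j => by rw [e2, e1, Pi.mul_apply, Subalgebra.coe_mul, mul_smul]⟩
  -- the closed set of scalars which multiply `x` to `q`
  let f : B → (J → T') →ₗ[T] (J → Matrix (Fin d) (Fin d) Ω) := fun x =>
    { toFun := fun s j => ((s j : T') : Ω) • π j x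
      map_add' := fun s t => by
        funext j
        rw [Pi.add_apply, Subalgebra.coe_add, add_smul]
        rfl
      map_smul' := fun t s => by
        funext j
        rw [Pi.smul_apply, Subalgebra.coe_smul, smul_assoc]
        rfl }
  let g : B →ₗ[T] (J → Matrix (Fin d) (Fin d) Ω) := LinearMap.pi fun j => (π j).toLinearMap
  have hclosed : ∀ x : B, IsClosed {s : J → T' | ∃ y ∈ q, ∀ j, π j y = ((s j : T') : Ω) • π j x} := by
    intro x
    have h1 := isClosed_exists (f x) g (K := (q : Set B)) hqc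
    convert h1 using 1
    ext s
    refine exists_congr fun y => and_congr_right fun _ => ?_
    constructor
    · intro h
      funext j
      exact h j
    · intro h j
      exact congrFun h j
  have hx : capf b z ∈ I₀ := AddSubgroup.subset_closure ⟨b, z, hb, hz, rfl⟩
  refine closure_minimal (s := (Subring.closure (tupSet T' π Y) : Set (J → T'))) ?_
    (hclosed (capf b z)) hs
  intro s hs
  obtain ⟨y, hy, e⟩ := hI₀S s hs _ hx
  exact ⟨y, hI₀q y hy, e⟩

/-- a Capelli value which is not in the kernel -/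
theorem exists_capf_blk (hd : 0 < d) {q : Set B} {j₀ : J}
    (hspan : Submodule.span Ω (π j₀ '' q) = ⊤) :
    ∃ b z : Fin (d ^ 2) → B, (∀ i, b i ∈ q) ∧ (∀ i, z i ∈ q) ∧ π j₀ (capf b z) ≠ 0 := by
  obtain ⟨b, z, hb, hz, h⟩ := capf_ne_of_span hd le_rfl hspan
  choose b' hb' eb using hb
  choose z' hz' ez using hz
  refine ⟨b', z', hb', hz', ?_⟩
  have h2 := capf_map (π j₀ : B →+* Matrix (Fin d) (Fin d) Ω) b' z'
  have e1 : (fun i => (π j₀ : B →+* Matrix (Fin d) (Fin d) Ω) (b' i)) = b := funext eb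
  have e2 : (fun i => (π j₀ : B →+* Matrix (Fin d) (Fin d) Ω) (z' i)) = z := funext ez
  rw [e1, e2] at h2
  intro h0
  exact h (h2.symm.trans h0)

/-- the projections of the ring of scalars are injective if the kernels are equal -/
theorem scRing_inj [Infinite Ω] (hd : 0 < d) (CB : Subring B) (hCB : IsClosed (CB : Set B))
    (hY : ∀ y ∈ Y, y ∈ CB) {i j : J} (hker : ∀ y ∈ CB, π i y = 0 → π j y = 0)
    (hspan : Submodule.span Ω (π j '' (CB : Set B)) = ⊤) {s : J → T'} (hs : s ∈ scRing T' π Y)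
    (hi : s i = 0) : s j = 0 := by
  obtain ⟨b, z, hb, hz, h⟩ := exists_capf_blk hd hspan
  obtain ⟨y, hy, e⟩ := scal_capf hd CB CB.toAddSubgroup (fun x hx => hx)
    (fun a ha x hx => CB.mul_mem ha hx) (fun a ha x hx => CB.mul_mem hx ha) hCB hY hb hz hs
  have h1 : π i y = 0 := by
    rw [e, hi]
    simp
  have h2 := hker y hy h1
  rw [e, smul_eq_zero] at h2
  rcases h2 with h2 | h2
  · exact Subtype.ext h2
  · exact absurd h2 h

/-- **Scalars of a family on an ideal.** -/
theorem scal_blocks [Infinite Ω] (hd : 0 < d) (CB : Subring B) (q : AddSubgroup B)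
    (hqC : ∀ x ∈ q, x ∈ CB) (hl : ∀ a ∈ CB, ∀ x ∈ q, a * x ∈ q)
    (hr : ∀ a ∈ CB, ∀ x ∈ q, x * a ∈ q) (hqc : IsClosed (q : Set B)) (hY : ∀ y ∈ Y, y ∈ CB)
    (hqY : ∀ x ∈ q, x ∈ Y)
    (hT' : HasCoef T' π Y) (j₀ : J)
    (hspan : Submodule.span Ω (π j₀ '' (CB : Set B)) = ⊤)
    (hinf : {c : Ω | ∃ s ∈ scRing T' π Y, ((s j₀ : T') : Ω) = c}.Infinite)
    (hne : ∃ x ∈ q, π j₀ x ≠ 0) :
    ∃ z ∈ scRing T' π Y, z j₀ ≠ 0 ∧ ∀ s ∈ scRing T' π Y, ∃ y ∈ q, ∀ j,
      π j y = (((z * s) j : T') : Ω) • (1 : Matrix (Fin d) (Fin d) Ω) := by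
  classical
  set S := scRing T' π Y with hSdef
  -- the set `I`
  set I := goodI q S π with hIdef
  have hIS : ∀ s ∈ S, ∀ x ∈ I, ∃ y ∈ I, ∀ j, π j y = ((s j : T') : Ω) • π j x := by
    intro s hs x hx
    obtain ⟨hx, h⟩ := mem_goodI.1 hx
    obtain ⟨y, hy, e⟩ := h s hs
    refine ⟨y, mem_goodI.2 ⟨hy, fun t ht => ?_⟩, e⟩
    obtain ⟨y', hy', e'⟩ := h (t * s) (S.mul_mem ht hs)
    exact ⟨y', hy', fun j => by rw [e', e, Pi.mul_apply, Subalgebra.coe_mul, mul_smul]⟩
  have hIl : ∀ a ∈ CB, ∀ x ∈ I, a * x ∈ I := by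
    intro a ha x hx
    obtain ⟨hx, h⟩ := mem_goodI.1 hx
    refine mem_goodI.2 ⟨hl a ha x hx, fun s hs => ?_⟩
    obtain ⟨y, hy, e⟩ := h s hs
    exact ⟨a * y, hl a ha y hy, fun j => by rw [map_mul, e, map_mul, mul_smul_comm]⟩
  have hIr : ∀ a ∈ CB, ∀ x ∈ I, x * a ∈ I := by
    intro a ha x hx
    obtain ⟨hx, h⟩ := mem_goodI.1 hx
    refine mem_goodI.2 ⟨hr a ha x hx, fun s hs => ?_⟩
    obtain ⟨y, hy, e⟩ := h s hs
    exact ⟨y * a, hr a ha y hy, fun j => by rw [map_mul, e, map_mul, smul_mul_assoc]⟩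
  have hIq : ∀ x ∈ I, x ∈ q := fun x hx => (mem_goodI.1 hx).1
  -- spanning
  have hqsp : Submodule.span Ω (π j₀ '' (q : Set B)) = ⊤ := by
    refine span_eq_top_of_ideal hspan ?_ ?_ ?_
    · rintro _ ⟨a, ha, rfl⟩ _ ⟨x, hx, rfl⟩
      exact ⟨a * x, hl a ha x hx, map_mul _ _ _⟩
    · rintro _ ⟨a, ha, rfl⟩ _ ⟨x, hx, rfl⟩
      exact ⟨x * a, hr a ha x hx, map_mul _ _ _⟩
    · obtain ⟨x, hx, h⟩ := hne
      exact ⟨_, ⟨x, hx, rfl⟩, h⟩
  have hI0 : ∃ x ∈ I, π j₀ x ≠ 0 := by
    obtain ⟨b, z, hb, hz, h⟩ := exists_capf_blk hd hqsp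
    have hd2 : 0 < d ^ 2 := by positivity
    exact ⟨capf b z, mem_goodI.2 ⟨capf_mem hd2 hqC hl hr (fun i => hqC _ (hb i)) hz, fun s hs =>
      scal_capf hd CB q hqC hl hr hqc hY (fun i => hqC _ (hb i)) hz hs⟩, h⟩
  have hIsp : Submodule.span Ω (π j₀ '' (I : Set B)) = ⊤ := by
    refine span_eq_top_of_ideal hspan ?_ ?_ ?_
    · rintro _ ⟨a, ha, rfl⟩ _ ⟨x, hx, rfl⟩
      exact ⟨a * x, hIl a ha x hx, map_mul _ _ _⟩
    · rintro _ ⟨a, ha, rfl⟩ _ ⟨x, hx, rfl⟩
      exact ⟨x * a, hIr a ha x hx, map_mul _ _ _⟩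
    · obtain ⟨x, hx, h⟩ := hI0
      exact ⟨_, ⟨x, hx, rfl⟩, h⟩
  -- an element with nonzero determinant
  obtain ⟨v, hv, hv0⟩ : ∃ v ∈ I, (π j₀ v).det ≠ 0 := by
    obtain ⟨f, hf, hfs, -⟩ := Submodule.exists_fun_fin_finrank_span_eq Ω (π j₀ '' (I : Set B))
    have h1 : (1 : Matrix (Fin d) (Fin d) Ω) ∈ Submodule.span Ω (Set.range f) := by
      rw [hfs, hIsp]; trivial
    rw [Submodule.mem_span_range_iff_exists_fun] at h1
    obtain ⟨c, hc⟩ := h1
    obtain ⟨c', hc', hdet⟩ := exists_det_ne hinf f ⟨c, by rw [hc, Matrix.det_one]; exact one_ne_zero⟩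
    have h2 : ∀ i, ∃ y ∈ I, π j₀ y = c' i • f i := by
      intro i
      obtain ⟨s, hs, e⟩ := hc' i
      obtain ⟨x, hx, e'⟩ := hf i
      obtain ⟨y, hy, e''⟩ := hIS s hs x hx
      exact ⟨y, hy, by rw [e'' j₀, e, e']⟩
    choose y hy ey using h2
    refine ⟨∑ i, y i, AddSubgroup.sum_mem _ fun i _ => hy i, ?_⟩
    rw [map_sum, Finset.sum_congr rfl fun i _ => ey i]
    exact hdet
  -- the coefficients of `v`
  have hvY : v ∈ Y := hqY v (hIq v hv)
  let z : ℕ → J → T' := fun m j => ⟨(LinearMap.mulLeft Ω (π j v)).charpoly.coeff m, hT' v hvY j m⟩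
  have hnat : ∀ j, (LinearMap.mulLeft Ω (π j v)).charpoly.natDegree = d ^ 2 := by
    intro j
    rw [LinearMap.charpoly_natDegree, Module.finrank_matrix]
    simp only [Fintype.card_fin, Module.finrank_self, mul_one]
    rw [sq]
  have hz : ∀ m, z m ∈ S := by
    intro m
    rcases lt_trichotomy m (d ^ 2) with hm | hm | hm
    · exact tup_mem_scRing ⟨v, hvY, m, hm, fun j => rfl⟩
    · have : z m = 1 := by
        funext j
        refine Subtype.ext ?_
        show (LinearMap.mulLeft Ω (π j v)).charpoly.coeff m = 1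
        have := (LinearMap.charpoly_monic (LinearMap.mulLeft Ω (π j v))).coeff_natDegree
        rwa [hnat, ← hm] at this
      rw [this]
      exact S.one_mem
    · have : z m = 0 := by
        funext j
        refine Subtype.ext ?_
        show (LinearMap.mulLeft Ω (π j v)).charpoly.coeff m = 0
        refine Polynomial.coeff_eq_zero_of_natDegree_lt ?_
        rw [hnat]
        exact hm
      rw [this]
      exact S.zero_mem
  refine ⟨z 0, hz 0, fun h => ?_, fun s hs => ?_⟩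
  · have h0 : (LinearMap.mulLeft Ω (π j₀ v)).charpoly.coeff 0 = 0 := congrArg Subtype.val h
    have h1 := LinearMap.det_eq_sign_charpoly_coeff (LinearMap.mulLeft Ω (π j₀ v))
    rw [h0, mul_zero] at h1
    obtain ⟨w, hw⟩ : IsUnit (π j₀ v) :=
      (Matrix.isUnit_iff_isUnit_det _).2 (isUnit_iff_ne_zero.2 hv0)
    rw [← hw] at h1
    have h2 : LinearMap.mulLeft Ω (w : Matrix (Fin d) (Fin d) Ω) *
        LinearMap.mulLeft Ω ((w⁻¹ : (Matrix (Fin d) (Fin d) Ω)ˣ) : Matrix (Fin d) (Fin d) Ω) = 1 := by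
      ext x : 1
      simp
    have h3 := congrArg LinearMap.det h2
    rw [map_mul, h1, zero_mul, map_one] at h3
    exact zero_ne_one h3
  · -- Cayley-Hamilton
    have hCH : ∀ j, ((z 0 j : T') : Ω) • (1 : Matrix (Fin d) (Fin d) Ω)
        = -∑ k ∈ Finset.range (d ^ 2), ((z (k + 1) j : T') : Ω) • (π j v) ^ (k + 1) := by
      intro j
      have h1 := LinearMap.aeval_self_charpoly (LinearMap.mulLeft Ω (π j v))
      have h2 : (Polynomial.aeval (LinearMap.mulLeft Ω (π j v))
        (LinearMap.mulLeft Ω (π j v)).charpoly) 1 = 0 := by rw [h1]; rfl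
      rw [Polynomial.aeval_eq_sum_range, LinearMap.sum_apply, Finset.sum_range_succ', hnat] at h2
      rw [eq_neg_iff_add_eq_zero, add_comm]
      simpa [z, LinearMap.pow_mulLeft] using h2
    have hvp : ∀ k, v ^ (k + 1) ∈ I := by
      intro k
      induction k with
      | zero => rw [zero_add, pow_one]; exact hv
      | succ k ih =>
        rw [pow_succ]
        exact hIr _ (hqC _ (hIq _ hv)) _ ih
    have h4 : ∀ k, ∃ y ∈ q, ∀ j, π j y = (((s * z (k + 1)) j : T') : Ω) • π j (v ^ (k + 1)) :=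
      fun k => (mem_goodI.1 (hvp k)).2 _ (S.mul_mem hs (hz _))
    choose y hy ey using h4
    refine ⟨-∑ k ∈ Finset.range (d ^ 2), y k, q.neg_mem (q.sum_mem fun k _ => hy k), fun j => ?_⟩
    rw [map_neg, map_sum, Finset.sum_congr rfl fun k _ => ey k j, mul_comm (z 0) s, Pi.mul_apply,
      Subalgebra.coe_mul, mul_smul, hCH, smul_neg, Finset.smul_sum]
    congr 1
    refine Finset.sum_congr rfl fun k _ => ?_
    rw [Pi.mul_apply, Subalgebra.coe_mul, mul_smul, map_pow]

end

end MP35
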