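import Pool.Agent.Lib_MP_3538b5_al.RDefs
import Pool.Agent.Lib_MP_3538b5_al.RVal
import Pool.Agent.Lib_MP_3538b5_al.RBurn

/-! # Piece RKOL: Kolchin's theorem modulo a valuation ring -/

set_option autoImplicit false

namespace MP35

universe u v w

/-- PROOF. A finitely generated torsion free module over a valuation ring is free: take a generating family with the smallest number of elements; a relation `Σ c_i m_i = 0`, not all `c_i = 0`, divide by the coefficient `c_k` of
largest valuation (torsion free): `m_k` is a combination of the others. (Or `Module.free_of_flat_of_isLocalRing` and flatness of torsion free modules.) Let `M` be the `O`-submodule of `Fin n → Ω` generated by the vectors `a e_i`, `a` in a finite generating set of the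
`T`-module `B`, `e_i` the standard basis; it is stable under `B`, spans, and is finitely generated, so free with a basis of `n` elements (linearly independent over `Ω` as well). Let `P` have this basis as columns. -/
theorem exists_lattice {Ω : Type v} [Field Ω] {T : Type w} [CommRing T] [Algebra T Ω] {n : ℕ}
    (B : Subalgebra T (Matrix (Fin n) (Fin n) Ω)) (hB : Module.Finite T B) (O : ValuationSubring Ω)
    (hO : ∀ t : T, algebraMap T Ω t ∈ O) :
    ∃ P Q : Matrix (Fin n) (Fin n) Ω, P * Q = 1 ∧ Q * P = 1 ∧
      ∀ a ∈ B, ∀ i j, (Q * a * P) i j ∈ O := by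
  classical
  obtain ⟨s, hs⟩ := hB.fg_top
  let M : Submodule O (Fin n → Ω) :=
    Submodule.span O (⋃ a ∈ s, Set.range fun i => ((a : B) : Matrix (Fin n) (Fin n) Ω).col i)
  have hM : ∀ a ∈ B, ∀ i, a.col i ∈ M := by
    intro a ha i
    have h1 : (⟨a, ha⟩ : B) ∈ Submodule.span T (s : Set B) := by rw [hs]; trivial
    have h2 : ∀ x : B, x ∈ Submodule.span T (s : Set B) →
        ((x : Matrix (Fin n) (Fin n) Ω).col i) ∈ M := by
      intro x hx
      induction hx using Submodule.span_induction with
      | mem x hx => exact Submodule.subset_span (Set.mem_biUnion hx ⟨i, rfl⟩)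
      | zero => exact M.zero_mem
      | add x y _ _ hx hy => exact M.add_mem hx hy
      | smul t x _ hx =>
        have h3 : (((t • x : B) : Matrix (Fin n) (Fin n) Ω).col i) =
            (⟨algebraMap T Ω t, hO t⟩ : O) • ((x : Matrix (Fin n) (Fin n) Ω).col i) := by
          ext j
          show (t • (x : Matrix (Fin n) (Fin n) Ω)) j i = algebraMap T Ω t * (x : Matrix (Fin n) (Fin n) Ω) j i
          rw [Matrix.smul_apply, Algebra.smul_def]
        rw [h3]
        exact M.smul_mem _ hx
    exact h2 _ h1
  have hfg : M.FG := Submodule.fg_span (Set.Finite.biUnion s.finite_toSet fun a _ => Set.finite_range _)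
  have hsp : Submodule.span Ω (M : Set (Fin n → Ω)) = ⊤ := by
    rw [eq_top_iff, ← (Pi.basisFun Ω (Fin n)).span_eq, Submodule.span_le]
    rintro _ ⟨i, rfl⟩
    refine Submodule.subset_span ?_
    have h1 := hM 1 B.one_mem i
    have h2 : (1 : Matrix (Fin n) (Fin n) Ω).col i = Pi.basisFun Ω (Fin n) i := by
      ext j
      rw [Pi.basisFun_apply]
      show (1 : Matrix (Fin n) (Fin n) Ω) j i = _
      rw [Matrix.one_apply, Pi.single_apply]
    rwa [h2] at h1
  have hlat : Submodule.IsLattice Ω M := ⟨hfg, hsp⟩
  have : Module.Flat O M := by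
    rw [Module.Flat.flat_iff_torsion_eq_bot_of_isBezout, ← Submodule.isTorsionFree_iff_torsion_eq_bot]
    infer_instance
  have : Module.Free O M := Module.free_of_flat_of_isLocalRing
  let b := Module.Free.chooseBasis O M
  let b' := b.extendOfIsLattice Ω
  have hcard : Fintype.card (Module.Free.ChooseBasisIndex O M) = Fintype.card (Fin n) := by
    have h1 := Module.finrank_eq_card_basis b'
    have h2 := Module.finrank_eq_card_basis (Pi.basisFun Ω (Fin n))
    rw [← h1, ← h2]
  let e := Fintype.equivOfCardEq hcard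
  let b₂ := b'.reindex e
  have hb₂ : ∀ m ∈ M, ∀ i, b₂.repr m i ∈ O := by
    intro m hm i
    have h1 : m = ∑ j, (b.repr ⟨m, hm⟩ j : Ω) • b' j := by
      have h2 := congrArg (Subtype.val) (b.sum_repr ⟨m, hm⟩)
      rw [AddSubmonoidClass.coe_finsetSum] at h2
      refine h2.symm.trans (Finset.sum_congr rfl fun j _ => ?_)
      rw [Module.Basis.extendOfIsLattice_apply]
      rfl
    have h2 : b₂.repr m i = (b.repr ⟨m, hm⟩ (e.symm i) : Ω) := by
      rw [Module.Basis.repr_reindex_apply]
      conv_lhs => rw [h1]
      rw [map_sum, Finsupp.finsetSum_apply]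
      rw [Finset.sum_eq_single (e.symm i)]
      · rw [map_smul, Finsupp.smul_apply, Module.Basis.repr_self, Finsupp.single_eq_same, smul_eq_mul, mul_one]
      · intro j _ hj
        rw [map_smul, Finsupp.smul_apply, Module.Basis.repr_self, Finsupp.single_apply, if_neg hj, smul_zero]
      · intro h
        exact absurd (Finset.mem_univ _) h
    rw [h2]
    exact (b.repr ⟨m, hm⟩ (e.symm i)).2
  refine ⟨(Pi.basisFun Ω (Fin n)).toMatrix b₂, b₂.toMatrix (Pi.basisFun Ω (Fin n)),
    Module.Basis.toMatrix_mul_toMatrix_flip _ _, Module.Basis.toMatrix_mul_toMatrix_flip _ _, ?_⟩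
  intro a ha i j
  have h0 : LinearMap.toMatrix (Pi.basisFun Ω (Fin n)) (Pi.basisFun Ω (Fin n)) (Matrix.toLin' a) = a := by
    rw [LinearMap.toMatrix_eq_toMatrix', LinearMap.toMatrix'_toLin']
  have h1 : b₂.toMatrix (Pi.basisFun Ω (Fin n)) * a * (Pi.basisFun Ω (Fin n)).toMatrix b₂ =
      LinearMap.toMatrix b₂ b₂ (Matrix.toLin' a) := by
    conv_lhs => rw [← h0]
    exact basis_toMatrix_mul_linearMap_toMatrix_mul_basis_toMatrix _ _ _ _ _
  rw [h1, LinearMap.toMatrix_apply, Matrix.toLin'_apply]
  refine hb₂ _ ?_ i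
  have hst : ∀ m ∈ M, a.mulVec m ∈ M := by
    intro m hm
    induction hm using Submodule.span_induction with
    | mem x hx =>
      obtain ⟨c, hc, k, rfl⟩ := Set.mem_iUnion₂.1 hx
      have h2 : a.mulVec ((c : Matrix (Fin n) (Fin n) Ω).col k) =
          (a * (c : Matrix (Fin n) (Fin n) Ω)).col k := rfl
      rw [h2]
      exact hM _ (B.mul_mem ha c.2) k
    | zero => rw [Matrix.mulVec_zero]; exact M.zero_mem
    | add x y _ _ hx hy => rw [Matrix.mulVec_add]; exact M.add_mem hx hy
    | smul t x _ hx =>
      have h2 : a.mulVec (t • x) = t • a.mulVec x := Matrix.mulVec_smul a (t : Ω) x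
      rw [h2]
      exact M.smul_mem _ hx
  refine hst _ ?_
  rw [Module.Basis.reindex_apply, Module.Basis.extendOfIsLattice_apply]
  exact (b (e.symm j)).2

/-- the irreducible case -/
private theorem kolchin_irred {κ : Type v} [Field κ] [IsAlgClosed κ] {W : Type w} [AddCommGroup W]
    [Module κ W] [FiniteDimensional κ W] {Γ : Type u} [Monoid Γ] (α : Γ →* Module.End κ W)
    (h : ∀ γ, IsNilpotent (α γ - 1))
    (hirr : ∀ U : Submodule κ W, (∀ γ, ∀ v ∈ U, α γ v ∈ U) → U = ⊥ ∨ U = ⊤) (γ : Γ) :
    α γ - 1 = 0 := by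
  classical
  let b := Module.finBasis κ W
  let φ := LinearMap.toMatrixAlgEquiv b
  let ρ : Γ →* Matrix (Fin (Module.finrank κ W)) (Fin (Module.finrank κ W)) κ :=
    (φ : Module.End κ W →* Matrix (Fin (Module.finrank κ W)) (Fin (Module.finrank κ W)) κ).comp α
  have hρ : ∀ δ, ρ δ = φ (α δ) := fun δ => rfl
  have hnil : ∀ δ, IsNilpotent (ρ δ - 1) := by
    intro δ
    have h1 := (h δ).map φ
    rwa [map_sub, map_one] at h1
  have htr : ∀ δ, (ρ δ).trace = (1 : Matrix (Fin (Module.finrank κ W)) (Fin (Module.finrank κ W)) κ).trace := by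
    intro δ
    have h1 := (Matrix.isNilpotent_trace_of_isNilpotent (hnil δ)).eq_zero
    rwa [Matrix.trace_sub, sub_eq_zero] at h1
  have hspan : Submodule.span κ (Set.range ρ) = ⊤ := by
    refine burnside_hom ρ fun U hU => ?_
    have hst : ∀ δ, ∀ v ∈ U.comap b.equivFun.toLinearMap, α δ v ∈ U.comap b.equivFun.toLinearMap := by
      intro δ v hv
      rw [Submodule.mem_comap] at hv ⊢
      have h2 := hU δ _ hv
      have h3 : (ρ δ).mulVec (b.equivFun v) = b.equivFun (α δ v) := by
        have h4 := LinearMap.toMatrix_mulVec_repr b b (α δ) v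
        exact h4
      rw [LinearEquiv.coe_coe, ← h3]
      exact h2
    rcases hirr (U.comap b.equivFun.toLinearMap) hst with h1 | h1
    · left
      rw [eq_bot_iff]
      intro v hv
      have h2 : b.equivFun.symm v ∈ U.comap b.equivFun.toLinearMap := by
        rw [Submodule.mem_comap, LinearEquiv.coe_coe, LinearEquiv.apply_symm_apply]
        exact hv
      rw [h1, Submodule.mem_bot] at h2
      rw [Submodule.mem_bot, ← b.equivFun.apply_symm_apply v, h2, map_zero]
    · right
      rw [eq_top_iff]
      intro v _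
      have h2 : b.equivFun.symm v ∈ U.comap b.equivFun.toLinearMap := by
        rw [h1]; trivial
      rwa [Submodule.mem_comap, LinearEquiv.coe_coe, LinearEquiv.apply_symm_apply] at h2
  have h1 : ρ γ = 1 := by
    rw [Matrix.ext_iff_trace_mul_right]
    intro y
    have hy : y ∈ Submodule.span κ (Set.range ρ) := by rw [hspan]; trivial
    induction hy using Submodule.span_induction with
    | mem y hy =>
      obtain ⟨δ, rfl⟩ := hy
      rw [← map_mul, htr, one_mul, htr]
    | zero => rw [mul_zero, mul_zero]
    | add y z _ _ hy hz => rw [mul_add, mul_add, Matrix.trace_add, Matrix.trace_add, hy, hz]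
    | smul t y _ hy =>
      rw [Matrix.mul_smul, Matrix.mul_smul, Matrix.trace_smul, Matrix.trace_smul, hy]
  have h2 : φ (α γ) = φ 1 := by rw [← hρ, h1, map_one]
  rw [φ.injective h2, sub_self]

/-- PROOF. Kolchin's theorem. Strong induction on `finrank κ W`. If `W` has a subspace `0 < U < W` stable under all `α γ`, then `x` stabilises it, `x` restricted to `U` and the map induced on `W/U` are in the corresponding spans, so
both are nilpotent by induction, and `x` is nilpotent. Otherwise (irreducible) by Burnside (`burnside` for the matrices, or directly) every endomorphism is a combination of the `α δ`. For all `γ, δ`: `tr ((α γ - 1) α δ) = tr (α (γ δ)) - tr (α δ) = 0` (the trace of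
`α γ` is `finrank` as `α γ - 1` is nilpotent), so `tr ((α γ - 1) y) = 0` for all `y` and `α γ = 1`; then `x = 0`. -/
theorem kolchin {κ : Type v} [Field κ] [IsAlgClosed κ] {W : Type w} [AddCommGroup W] [Module κ W]
    [FiniteDimensional κ W] {Γ : Type u} [Monoid Γ] (α : Γ →* Module.End κ W)
    (h : ∀ γ, IsNilpotent (α γ - 1)) {x : Module.End κ W}
    (hx : x ∈ Submodule.span κ (Set.range fun γ => α γ - 1)) : IsNilpotent x := by
  classical
  induction hd : Module.finrank κ W using Nat.strong_induction_on generalizing W with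
  | _ d ih =>
  by_cases hirr : ∀ U : Submodule κ W, (∀ γ, ∀ v ∈ U, α γ v ∈ U) → U = ⊥ ∨ U = ⊤
  · have h0 : (Set.range fun γ => α γ - 1) ⊆ {0} := by
      rintro _ ⟨γ, rfl⟩
      exact kolchin_irred α h hirr γ
    have h1 := Submodule.span_mono (R := κ) h0 hx
    rw [Submodule.span_zero_singleton, Submodule.mem_bot] at h1
    rw [h1]
    exact IsNilpotent.zero
  · push Not at hirr
    obtain ⟨U, hU, hU1, hU2⟩ := hirr
    -- the restricted and the induced action
    let αU : Γ →* Module.End κ U :=
      { toFun := fun γ => (α γ).restrict (hU γ)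
        map_one' := by
          ext v
          simp
        map_mul' := by
          intro γ δ
          ext v
          simp }
    let αQ : Γ →* Module.End κ (W ⧸ U) :=
      { toFun := fun γ => U.mapQ U (α γ) (hU γ)
        map_one' := by
          ext v
          simp
        map_mul' := by
          intro γ δ
          ext v
          simp }
    have hU' : ∀ γ, ∀ v ∈ U, (α γ - 1) v ∈ U := by
      intro γ v hv
      rw [LinearMap.sub_apply]
      exact U.sub_mem (hU γ v hv) hv
    have hαU : ∀ γ, αU γ - 1 = (α γ - 1).restrict (hU' γ) := by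
      intro γ
      ext v
      simp [αU]
    have hαQ : ∀ γ, αQ γ - 1 = U.mapQ U (α γ - 1) (hU' γ) := by
      intro γ
      ext v
      simp [αQ]
    have hnU : ∀ γ, IsNilpotent (αU γ - 1) := by
      intro γ
      rw [hαU]
      exact Module.End.isNilpotent.restrict (hU' γ) (h γ)
    have hnQ : ∀ γ, IsNilpotent (αQ γ - 1) := by
      intro γ
      rw [hαQ]
      exact Module.End.IsNilpotent.mapQ (hU' γ) (h γ)
    have key : ∃ hxU : ∀ v ∈ U, x v ∈ U,
        x.restrict hxU ∈ Submodule.span κ (Set.range fun γ => αU γ - 1) ∧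
        U.mapQ U x hxU ∈ Submodule.span κ (Set.range fun γ => αQ γ - 1) := by
      clear hd
      induction hx using Submodule.span_induction with
      | mem y hy =>
        obtain ⟨γ, rfl⟩ := hy
        exact ⟨hU' γ, Submodule.subset_span ⟨γ, hαU γ⟩, Submodule.subset_span ⟨γ, hαQ γ⟩⟩
      | zero =>
        refine ⟨fun v _ => U.zero_mem, ?_, ?_⟩
        · convert Submodule.zero_mem _
          ext v
          simp
        · convert Submodule.zero_mem _
          ext v
          simp
      | add y z _ _ hy hz =>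
        obtain ⟨hy1, hy2, hy3⟩ := hy
        obtain ⟨hz1, hz2, hz3⟩ := hz
        refine ⟨fun v hv => U.add_mem (hy1 v hv) (hz1 v hv), ?_, ?_⟩
        · convert Submodule.add_mem _ hy2 hz2
          ext v
          simp
        · convert Submodule.add_mem _ hy3 hz3
          ext v
          simp
      | smul t y _ hy =>
        obtain ⟨hy1, hy2, hy3⟩ := hy
        refine ⟨fun v hv => U.smul_mem t (hy1 v hv), ?_, ?_⟩
        · convert Submodule.smul_mem _ t hy2
          ext v
          simp
        · convert Submodule.smul_mem _ t hy3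
          ext v
          simp
    obtain ⟨hxU, h1, h2⟩ := key
    have hlt1 : Module.finrank κ U < d := by
      rw [← hd]
      exact Submodule.finrank_lt hU2
    have hlt2 : Module.finrank κ (W ⧸ U) < d := by
      have h3 := U.finrank_quotient_add_finrank
      have h4 : 0 < Module.finrank κ U := by
        rw [Module.finrank_pos_iff_exists_ne_zero]
        obtain ⟨v, hv, hv0⟩ := Submodule.exists_mem_ne_zero_of_ne_bot hU1
        exact ⟨⟨v, hv⟩, fun h => hv0 (congrArg Subtype.val h)⟩
      omega
    obtain ⟨a, ha⟩ := ih _ hlt1 αU hnU h1 rfl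
    obtain ⟨c, hc⟩ := ih _ hlt2 αQ hnQ h2 rfl
    refine ⟨a + c, ?_⟩
    have h5 : ∀ w, (x ^ c) w ∈ U := by
      intro w
      rw [← Submodule.mapQ_pow U hxU c] at hc
      have := LinearMap.congr_fun hc (Submodule.Quotient.mk w)
      rwa [Submodule.mapQ_apply, LinearMap.zero_apply, Submodule.Quotient.mk_eq_zero] at this
    have h6 : ∀ w ∈ U, (x ^ a) w = 0 := by
      intro w hw
      rw [Module.End.pow_restrict a] at ha
      have := congrArg Subtype.val (LinearMap.congr_fun ha ⟨w, hw⟩)
      exact this
    ext w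
    rw [pow_add, Module.End.mul_apply, h6 _ (h5 w), LinearMap.zero_apply]

/-- the residue field of a valuation ring of an algebraically closed field is algebraically closed -/
private theorem residue_isAlgClosed {Ω : Type v} [Field Ω] [IsAlgClosed Ω] (O : ValuationSubring Ω) :
    IsAlgClosed (IsLocalRing.ResidueField O) := by
  refine IsAlgClosed.of_exists_root _ fun f hf hirr => ?_
  obtain ⟨F, hF1, hF2, hF3⟩ := Polynomial.lifts_and_degree_eq_and_monic
    (f := IsLocalRing.residue O) (p := f)
    (by
      rw [Polynomial.lifts_iff_coeff_lifts]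
      intro k
      exact IsLocalRing.residue_surjective _) hf
  have hd : (F.map (algebraMap O Ω)).degree ≠ 0 := by
    rw [hF3.degree_map, hF2]
    exact (Polynomial.degree_pos_of_irreducible hirr).ne'
  obtain ⟨μ, hμ⟩ := IsAlgClosed.exists_root (F.map (algebraMap O Ω)) hd
  have hμO : μ ∈ O := by
    refine mem_of_isIntegral (T := O) O (fun t => t.2) ⟨F, hF3, ?_⟩
    rw [Polynomial.IsRoot.def, Polynomial.eval_map] at hμ
    exact hμ
  refine ⟨IsLocalRing.residue O ⟨μ, hμO⟩, ?_⟩
  rw [← hF1, Polynomial.eval_map, Polynomial.eval₂_at_apply]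
  have h1 : Polynomial.eval (⟨μ, hμO⟩ : O) F = 0 := by
    rw [Polynomial.IsRoot.def, Polynomial.eval_map] at hμ
    have h2 : Polynomial.eval₂ (algebraMap O Ω) (algebraMap O Ω ⟨μ, hμO⟩) F = 0 := hμ
    rw [Polynomial.eval₂_at_apply] at h2
    exact Subtype.ext h2
  rw [h1, map_zero]

/-- coefficients and residues -/
private theorem mem_nonunits_iff_residue {Ω : Type v} [Field Ω] (O : ValuationSubring Ω) (a : O) :
    (a : Ω) ∈ O.nonunits ↔ IsLocalRing.residue O a = 0 := by
  rw [O.coe_mem_nonunits_iff, IsLocalRing.residue_eq_zero_iff]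

/-- a matrix over a valuation ring whose eigenvalues are in the maximal ideal is nilpotent over the
residue field -/
private theorem nilp_of_roots {Ω : Type v} [Field Ω] [IsAlgClosed Ω] (O : ValuationSubring Ω) {n : ℕ}
    (M : Matrix (Fin n) (Fin n) O)
    (h : ∀ μ, (M.map O.subtype).charpoly.IsRoot μ → μ ∈ O.nonunits) :
    IsNilpotent (M.map (IsLocalRing.residue O)) := by
  have hc : (M.map (IsLocalRing.residue O)).charpoly = Polynomial.X ^ n := by
    ext j
    rw [Polynomial.coeff_X_pow]
    have hnd : (M.map (IsLocalRing.residue O)).charpoly.natDegree = n := by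
      rw [Matrix.charpoly_natDegree_eq_dim, Fintype.card_fin]
    rcases lt_trichotomy j n with hj | hj | hj
    · rw [if_neg hj.ne, Matrix.charpoly_map, Polynomial.coeff_map, ← mem_nonunits_iff_residue]
      have h1 := coeff_mem_nonunits O (Matrix.charpoly_monic (M.map O.subtype)) h (j := j)
        (by rw [Matrix.charpoly_natDegree_eq_dim, Fintype.card_fin]; exact hj)
      rw [Matrix.charpoly_map, Polynomial.coeff_map] at h1
      exact h1
    · rw [if_pos hj, hj]
      have h1 := (Matrix.charpoly_monic (M.map (IsLocalRing.residue O))).coeff_natDegree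
      rwa [hnd] at h1
    · rw [if_neg hj.ne']
      exact Polynomial.coeff_eq_zero_of_natDegree_lt (by rw [hnd]; exact hj)
  refine ⟨n, ?_⟩
  have h1 := Matrix.aeval_self_charpoly (M.map (IsLocalRing.residue O))
  rwa [hc, map_pow, Polynomial.aeval_X] at h1

/-- the converse -/
private theorem roots_of_nilp {Ω : Type v} [Field Ω] (O : ValuationSubring Ω) {n : ℕ}
    (M : Matrix (Fin n) (Fin n) O) (h : IsNilpotent (M.map (IsLocalRing.residue O))) {μ : Ω}
    (hμ : (M.map O.subtype).charpoly.IsRoot μ) : μ ∈ O.nonunits := by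
  have hc : (M.map (IsLocalRing.residue O)).charpoly = Polynomial.X ^ n := by
    have h1 := (Matrix.isNilpotent_charpoly_sub_pow_of_isNilpotent h).eq_zero
    rwa [Fintype.card_fin, sub_eq_zero] at h1
  refine root_mem_nonunits O (Matrix.charpoly_monic (M.map O.subtype)) (fun j hj => ?_) hμ
  rw [Matrix.charpoly_natDegree_eq_dim, Fintype.card_fin] at hj
  rw [Matrix.charpoly_map, Polynomial.coeff_map]
  show ((M.charpoly.coeff j : O) : Ω) ∈ O.nonunits
  rw [mem_nonunits_iff_residue, ← Polynomial.coeff_map, ← Matrix.charpoly_map, hc,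
    Polynomial.coeff_X_pow, if_neg hj.ne]

/-- PROOF. Choose `P`, `Q` for `B = R.A` (`exists_lattice`) and reduce `Q a P` modulo the maximal ideal of `O`: a ring homomorphism `R.A → Matrix (Fin n) (Fin n) κ`, `κ` the residue field of `O` (algebraically closed, as
`Ω` is: lift a monic polynomial; its roots are in `O`). The characteristic polynomial of `Q a P` is that of `a`, so for `a = ρ g` it reduces to `(X - 1) ^ n` (`R.Unip O`, all roots are `1` modulo the maximal ideal, `coeff_mem_nonunits` for `ρ g - 1`),
and `ρ g - 1` becomes nilpotent. `x` becomes a combination of these, so nilpotent (`kolchin`); its characteristic polynomial reduces to `X ^ n`, so all coefficients of index `< n` of the characteristic polynomial of `x` are in `O.nonunits`: `root_mem_nonunits`. -/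
theorem Rep.root_of_unip {p : ℕ} {G : Type u} [Group G] [TopologicalSpace G] {T : Type v}
    [CommRing T] [TopologicalSpace T] {Ω : Type v} [Field Ω] [IsAlgClosed Ω] [Algebra T Ω] {n : ℕ}
    (R : Rep p G T Ω n) (O : ValuationSubring Ω) (hO : ∀ t : T, algebraMap T Ω t ∈ O)
    (hU : R.Unip O) {x : Matrix (Fin n) (Fin n) Ω}
    (hx : x ∈ Submodule.span T (Set.range fun g => R.ρ g - 1)) {μ : Ω}
    (hμ : x.charpoly.IsRoot μ) : μ ∈ O.nonunits := by
  classical
  obtain ⟨P, Q, hPQ, hQP, hint⟩ := exists_lattice R.A R.fin O hO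
  have hAlg := residue_isAlgClosed O
  let κ := IsLocalRing.ResidueField O
  -- the integral matrix
  let L : R.A → Matrix (Fin n) (Fin n) O := fun a => Matrix.of fun i j =>
    ⟨(Q * (a : Matrix (Fin n) (Fin n) Ω) * P) i j, hint a a.2 i j⟩
  have hL : ∀ a : R.A, (L a).map O.subtype = Q * (a : Matrix (Fin n) (Fin n) Ω) * P := fun a => rfl
  have hinj : Function.Injective fun M : Matrix (Fin n) (Fin n) O => M.map O.subtype := by
    intro M N hMN
    ext i j
    exact congrFun (congrFun hMN i) j
  have hLmul : ∀ a b : R.A, L (a * b) = L a * L b := by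
    intro a b
    apply hinj
    show (L (a * b)).map O.subtype = (L a * L b).map O.subtype
    rw [Matrix.map_mul, hL, hL, hL]
    show Q * ((a : Matrix (Fin n) (Fin n) Ω) * b) * P = _
    calc Q * ((a : Matrix (Fin n) (Fin n) Ω) * b) * P
        = Q * (a : Matrix (Fin n) (Fin n) Ω) * 1 * b * P := by simp only [mul_one, mul_assoc]
      _ = _ := by rw [← hPQ]; simp only [mul_assoc]
  have hLone : L 1 = 1 := by
    apply hinj
    show (L 1).map O.subtype = (1 : Matrix (Fin n) (Fin n) O).map O.subtype
    rw [hL, Matrix.map_one _ (map_zero _) (map_one _)]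
    show Q * 1 * P = 1
    rw [mul_one, hQP]
  have hLadd : ∀ a b : R.A, L (a + b) = L a + L b := by
    intro a b
    apply hinj
    show (L (a + b)).map O.subtype = (L a + L b).map O.subtype
    rw [Matrix.map_add _ (map_add _), hL, hL, hL]
    show Q * ((a : Matrix (Fin n) (Fin n) Ω) + b) * P = _
    rw [mul_add, add_mul]
  have hLsub : ∀ a b : R.A, L (a - b) = L a - L b := by
    intro a b
    rw [eq_sub_iff_add_eq, ← hLadd, sub_add_cancel]
  have hLsmul : ∀ (t : T) (a : R.A), L (t • a) = (⟨algebraMap T Ω t, hO t⟩ : O) • L a := by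
    intro t a
    apply hinj
    ext i j
    show (Q * (t • (a : Matrix (Fin n) (Fin n) Ω)) * P) i j = algebraMap T Ω t *
      (Q * (a : Matrix (Fin n) (Fin n) Ω) * P) i j
    rw [Matrix.mul_smul, Matrix.smul_mul, Matrix.smul_apply, Algebra.smul_def]
  have hchar : ∀ a : R.A, ((L a).map O.subtype).charpoly =
      (a : Matrix (Fin n) (Fin n) Ω).charpoly := by
    intro a
    rw [hL, Matrix.charpoly_mul_comm, ← mul_assoc, hPQ, one_mul]
  -- the residual representation
  let ρ' : G →* Matrix (Fin n) (Fin n) κ :=
    { toFun := fun g => (L (R.j g)).map (IsLocalRing.residue O)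
      map_one' := by
        rw [map_one, hLone, Matrix.map_one _ (map_zero _) (map_one _)]
      map_mul' := by
        intro g h
        rw [map_mul, hLmul, Matrix.map_mul] }
  have hρ1 : ∀ g, ρ' g - 1 = (L (R.j g - 1)).map (IsLocalRing.residue O) := by
    intro g
    rw [hLsub, hLone, Matrix.map_sub _ (map_sub _), Matrix.map_one _ (map_zero _) (map_one _)]
    rfl
  have hnil : ∀ g, IsNilpotent (ρ' g - 1) := by
    intro g
    rw [hρ1]
    refine nilp_of_roots O _ fun ν hν => ?_
    rw [hchar] at hν
    have h1 : ((R.j g - 1 : R.A) : Matrix (Fin n) (Fin n) Ω) = R.ρ g - Matrix.scalar (Fin n) 1 := by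
      rw [map_one, Subalgebra.coe_sub, Subalgebra.coe_one, R.j_coe]
    rw [h1, Matrix.charpoly_sub_scalar, Polynomial.IsRoot.def, Polynomial.eval_comp] at hν
    have h2 : (R.ρ g).charpoly.IsRoot (ν + 1) := by
      rw [Polynomial.IsRoot.def]
      simpa using hν
    have h3 := hU g (ν + 1) h2
    rwa [add_sub_cancel_right] at h3
  -- x as an element of the algebra
  have hx2 : ∃ hxA : x ∈ R.A, (L ⟨x, hxA⟩).map (IsLocalRing.residue O) ∈
      Submodule.span κ (Set.range fun g => ρ' g - 1) := by
    clear hμ
    induction hx using Submodule.span_induction with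
    | mem y hy =>
      obtain ⟨g, rfl⟩ := hy
      refine ⟨(R.j g - 1).2, Submodule.subset_span ⟨g, hρ1 g⟩⟩
    | zero =>
      refine ⟨R.A.zero_mem, ?_⟩
      have h1 : L ⟨0, R.A.zero_mem⟩ = 0 := by
        have h2 := hLsub 1 1
        rwa [sub_self, sub_self] at h2
      rw [h1, Matrix.map_zero _ (map_zero _)]
      exact Submodule.zero_mem _
    | add y z _ _ hy hz =>
      obtain ⟨hy1, hy2⟩ := hy
      obtain ⟨hz1, hz2⟩ := hz
      refine ⟨R.A.add_mem hy1 hz1, ?_⟩
      have h1 : L ⟨y + z, R.A.add_mem hy1 hz1⟩ = L ⟨y, hy1⟩ + L ⟨z, hz1⟩ := hLadd ⟨y, hy1⟩ ⟨z, hz1⟩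
      rw [h1, Matrix.map_add _ (map_add _)]
      exact Submodule.add_mem _ hy2 hz2
    | smul t y _ hy =>
      obtain ⟨hy1, hy2⟩ := hy
      refine ⟨R.A.smul_mem hy1 t, ?_⟩
      have h1 : L ⟨t • y, R.A.smul_mem hy1 t⟩ = (⟨algebraMap T Ω t, hO t⟩ : O) • L ⟨y, hy1⟩ :=
        hLsmul t ⟨y, hy1⟩
      have h2 : (L ⟨t • y, R.A.smul_mem hy1 t⟩).map (IsLocalRing.residue O) =
          (IsLocalRing.residue O ⟨algebraMap T Ω t, hO t⟩) •
            (L ⟨y, hy1⟩).map (IsLocalRing.residue O) := by
        rw [h1]
        ext i j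
        show IsLocalRing.residue O (_ * _) = _ * _
        rw [map_mul]
        rfl
      rw [h2]
      exact Submodule.smul_mem _ _ hy2
  obtain ⟨hxA, hx3⟩ := hx2
  -- Kolchin
  let e : Matrix (Fin n) (Fin n) κ ≃ₐ[κ] Module.End κ (Fin n → κ) := Matrix.toLinAlgEquiv'
  let α : G →* Module.End κ (Fin n → κ) :=
    (e : Matrix (Fin n) (Fin n) κ →* Module.End κ (Fin n → κ)).comp ρ'
  have hα : ∀ g, α g - 1 = e (ρ' g - 1) := by
    intro g
    rw [map_sub, map_one]
    rfl
  have h4 : IsNilpotent (e ((L ⟨x, hxA⟩).map (IsLocalRing.residue O))) := by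
    refine kolchin α (fun g => ?_) ?_
    · rw [hα]
      exact (hnil g).map e
    · have h5 : (Set.range fun g => α g - 1) = e '' (Set.range fun g => ρ' g - 1) := by
        rw [← Set.range_comp]
        exact congrArg Set.range (funext hα)
      rw [h5]
      have h6 := Submodule.mem_map_of_mem (f := e.toLinearMap) hx3
      rwa [Submodule.map_span] at h6
  have h7 : IsNilpotent ((L ⟨x, hxA⟩).map (IsLocalRing.residue O)) := by
    have h8 := h4.map e.symm
    rwa [AlgEquiv.symm_apply_apply] at h8
  refine roots_of_nilp O _ h7 ?_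
  rw [hchar]
  exact hμ

end MP35
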