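import Pool.Agent.Lib_MP_3538b5_al.FBlock
import Pool.Agent.Lib_MP_3538b5_al.FScal
import Pool.Agent.Lib_MP_3538b5_al.FGen
import Pool.Agent.Lib_MP_3538b5_al.RFinOver
import Pool.Agent.Lib_MP_3538b5_al.RLoc
import Pool.Agent.Lib_MP_3538b5_al.RInt
import Pool.Agent.Lib_MP_3538b5_al.RKol
import Pool.Agent.Lib_MP_3538b5_al.RRep
import Pool.Agent.Lib_MP_3538b5_al.RFaith
import Pool.Agent.Lib_MP_3538b5_al.RSpan

/-!
# Layer F: the rings of scalars of the factors are noetherian and large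

Owner: helper99.
-/

set_option autoImplicit false
set_option linter.unusedSectionVars false

namespace MP35

universe u v w

open scoped TensorProduct in
/-- continuity of a map defined by a bilinear map -/
theorem cont_of_bilin {T : Type v} [CommRing T] [TopologicalSpace T] [CNR T] {A : Type v}
    [AddCommGroup A] [Module T A] [Module.Finite T A] [TopologicalSpace A] [IsModuleTopology T A]
    {W : Type v} [AddCommGroup W] [Module T W] (b : A →ₗ[T] A →ₗ[T] W) {X : Type u}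
    [TopologicalSpace X] {f f' : X → A} (hf : Continuous f) (hf' : Continuous f') {M : Type v}
    [AddCommGroup M] [Module T M] [Module.Finite T M] [TopologicalSpace M] [IsModuleTopology T M]
    (e : M →ₗ[T] W) (he : Function.Injective e) (c : X → M) (hc : ∀ x, e (c x) = b (f x) (f' x)) :
    Continuous c := by
  let W₀ : Submodule T W := LinearMap.range (TensorProduct.lift b) ⊔ LinearMap.range e
  have h1 : Module.Finite T (LinearMap.range (TensorProduct.lift b)) := Module.Finite.range _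
  have h2 : Module.Finite T (LinearMap.range e) := Module.Finite.range _
  have : Module.Finite T W₀ := Submodule.finite_sup _ _
  let _ : TopologicalSpace W₀ := moduleTopology T W₀
  have : IsModuleTopology T W₀ := ⟨rfl⟩
  have : T2Space W₀ := t2_of_finite T W₀
  have : ContinuousAdd W₀ := IsModuleTopology.toContinuousAdd T _
  have hmem : ∀ x y : A, b x y ∈ W₀ := fun x y =>
    Submodule.mem_sup_left ⟨x ⊗ₜ y, TensorProduct.lift.tmul x y⟩
  let b' : A →ₗ[T] A →ₗ[T] W₀ := LinearMap.mk₂ T (fun x y => ⟨b x y, hmem x y⟩)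
    (fun x y z => Subtype.ext (by simp)) (fun c x y => Subtype.ext (by simp))
    (fun x y z => Subtype.ext (by simp)) (fun c x y => Subtype.ext (by simp))
  have hc' : Continuous (fun ab : A × A => b' ab.1 ab.2) :=
    IsModuleTopology.continuous_bilinear_of_finite_left b'
  have hj : Continuous fun g : X => ((f g, f' g) : A × A) := hf.prodMk hf'
  let e' : M →ₗ[T] W₀ := e.codRestrict W₀ fun x => Submodule.mem_sup_right ⟨x, rfl⟩
  have he' : Function.Injective e' := fun x y hxy => he (congrArg Subtype.val hxy)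
  have hcl := isClosedEmbedding_of_injective e' he'
  rw [hcl.continuous_iff]
  have h3 : e' ∘ c = (fun ab : A × A => b' ab.1 ab.2) ∘ fun g : X => ((f g, f' g) : A × A) := by
    funext x
    exact Subtype.ext (hc x)
  rw [h3]
  exact hc'.comp hj

namespace Rep

section

variable {p : ℕ} {G : Type u} [Group G] [TopologicalSpace G] {T : Type v} [CommRing T]
  [TopologicalSpace T] {Ω : Type v} [Field Ω] [Algebra T Ω] {n : ℕ} (R : Rep p G T Ω n)

theorem cont_jB [IsTopologicalGroup G] [CNR T] : Continuous R.jB :=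
  cont_of_bilin R.lrBil R.cont_j (R.cont_j.comp continuous_inv) R.B.val.toLinearMap
    Subtype.val_injective R.jB fun _ => rfl

theorem adjoin_jB_eq_top : Algebra.adjoin T (Set.range R.jB) = ⊤ := by
  rw [eq_top_iff]
  rintro ⟨a, ha⟩ -
  have h1 : (Algebra.adjoin T (Set.range R.jB)).map R.B.val = R.B := by
    rw [AlgHom.map_adjoin]
    congr 1
    ext x
    constructor
    · rintro ⟨_, ⟨g, rfl⟩, rfl⟩
      exact ⟨g, rfl⟩
    · rintro ⟨g, rfl⟩
      exact ⟨R.jB g, ⟨g, rfl⟩, rfl⟩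
  have h2 : a ∈ (Algebra.adjoin T (Set.range R.jB)).map R.B.val := by rw [h1]; exact ha
  obtain ⟨b, hb, hba⟩ := h2
  have : b = ⟨a, ha⟩ := Subtype.ext hba
  rwa [← this]

variable [IsAlgClosed Ω]

/-- the `i`-th factor as a matrix representation of `LB Φ` -/
noncomputable def blkL (Φ : R.Fl) {i : ℕ} (hi : i < Φ.l) {d : ℕ} (hd : Φ.dim i = d) :
    R.LB Φ →ₐ[T] Matrix (Fin d) (Fin d) Ω := (R.exists_blk Φ hi hd).2.choose

theorem blkL_eq_smul (Φ : R.Fl) {i : ℕ} (hi : i < Φ.l) {d : ℕ} (hd : Φ.dim i = d) (y : R.LB Φ)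
    (c : Ω) : R.blkL Φ hi hd y = c • (1 : Matrix (Fin d) (Fin d) Ω) ↔
      Φ.Acts (y : Module.End Ω (Matrix (Fin n) (Fin n) Ω)) i c :=
  (R.exists_blk Φ hi hd).2.choose_spec.1 y c

theorem blkL_root (Φ : R.Fl) {i : ℕ} (hi : i < Φ.l) {d : ℕ} (hd : Φ.dim i = d) (y : R.LB Φ)
    (μ : Ω) : (R.blkL Φ hi hd y).charpoly.IsRoot μ ↔ ∃ v ∈ Φ.W (i + 1), v ∉ Φ.W i ∧
      (y : Module.End Ω (Matrix (Fin n) (Fin n) Ω)) v - μ • v ∈ Φ.W i :=
  (R.exists_blk Φ hi hd).2.choose_spec.2.1 y μ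

theorem blkL_span (Φ : R.Fl) {i : ℕ} (hi : i < Φ.l) {d : ℕ} (hd : Φ.dim i = d) :
    Submodule.span Ω (Set.range fun g => R.blkL Φ hi hd (R.jL Φ g)) = ⊤ :=
  (R.exists_blk Φ hi hd).2.choose_spec.2.2

/-- the `i`-th factor as a matrix representation of `B` -/
noncomputable def blk (Φ : R.Fl) {i : ℕ} (hi : i < Φ.l) {d : ℕ} (hd : Φ.dim i = d) :
    R.B →ₐ[T] Matrix (Fin d) (Fin d) Ω :=
  (R.blkL Φ hi hd).comp (Subalgebra.inclusion (R.B_le_LB Φ))

theorem blk_apply (Φ : R.Fl) {i : ℕ} (hi : i < Φ.l) {d : ℕ} (hd : Φ.dim i = d) (y : R.B) :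
    R.blk Φ hi hd y = R.blkL Φ hi hd ⟨y, R.B_le_LB Φ y.2⟩ := rfl

theorem blk_jB (Φ : R.Fl) {i : ℕ} (hi : i < Φ.l) {d : ℕ} (hd : Φ.dim i = d) (g : G) :
    R.blk Φ hi hd (R.jB g) = R.blkL Φ hi hd (R.jL Φ g) := rfl

theorem blk_eq_smul (Φ : R.Fl) {i : ℕ} (hi : i < Φ.l) {d : ℕ} (hd : Φ.dim i = d) (y : R.B)
    (c : Ω) : R.blk Φ hi hd y = c • (1 : Matrix (Fin d) (Fin d) Ω) ↔
      Φ.Acts (y : Module.End Ω (Matrix (Fin n) (Fin n) Ω)) i c :=
  R.blkL_eq_smul Φ hi hd _ c

theorem blk_eq_zero (Φ : R.Fl) {i : ℕ} (hi : i < Φ.l) {d : ℕ} (hd : Φ.dim i = d) (y : R.B) :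
    R.blk Φ hi hd y = 0 ↔ Φ.Acts (y : Module.End Ω (Matrix (Fin n) (Fin n) Ω)) i 0 := by
  rw [← R.blk_eq_smul Φ hi hd, zero_smul]

theorem blk_root (Φ : R.Fl) {i : ℕ} (hi : i < Φ.l) {d : ℕ} (hd : Φ.dim i = d) (y : R.B)
    (μ : Ω) : (R.blk Φ hi hd y).charpoly.IsRoot μ ↔ ∃ v ∈ Φ.W (i + 1), v ∉ Φ.W i ∧
      (y : Module.End Ω (Matrix (Fin n) (Fin n) Ω)) v - μ • v ∈ Φ.W i :=
  R.blkL_root Φ hi hd _ μ

theorem blk_span (Φ : R.Fl) {i : ℕ} (hi : i < Φ.l) {d : ℕ} (hd : Φ.dim i = d) :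
    Submodule.span Ω (Set.range fun g => R.blk Φ hi hd (R.jB g)) = ⊤ := R.blkL_span Φ hi hd

theorem blk_pos (Φ : R.Fl) {i : ℕ} (hi : i < Φ.l) {d : ℕ} (hd : Φ.dim i = d) : 0 < d :=
  (R.exists_blk Φ hi hd).1

end

variable {p : ℕ} [Fact p.Prime] {G : Type u} [Group G] [TopologicalSpace G] [IsTopologicalGroup G]
  [CompactSpace G] [T2Space G] [TotallyDisconnectedSpace G] {T : Type v} [CommRing T]
  [TopologicalSpace T] [CNR T] [IsDomain T] {Ω : Type v} [Field Ω] [IsAlgClosed Ω] [Algebra T Ω]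
  {n : ℕ} {R : Rep p G T Ω n}

/-- nontrivial factors are faithful -/
theorem blk_faithful {k : ℕ} (hR : MCore R k) (Φ : R.Fl) {i : ℕ} (hi : i < Φ.l)
    (hnt : ¬ Φ.Triv i) {g : G} (hg : Φ.Acts (R.Ad g) i 1) : g = 1 := by
  refine faithful_of_opt hR.pf R hR.opt hR.triv (B' := Φ.W i) (B := Φ.W (i + 1))
    (fun g x hx => Φ.stable _ ⟨g, rfl⟩ i x hx) (fun g x hx => Φ.stable _ ⟨g, rfl⟩ _ x hx)
    (Φ.lt i hi) (fun U h1 h2 h3 => Φ.simple i hi U ?_ h1 h2) ?_ g (fun x hx => ?_)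
  · rintro _ ⟨g, rfl⟩ v hv
    exact h3 g v hv
  · by_contra hcon
    push Not at hcon
    refine hnt ?_
    rintro _ ⟨g, rfl⟩ v hv
    rw [one_smul]
    exact hcon g v hv
  · have := hg x hx
    rwa [one_smul] at this

theorem blk_inj {k : ℕ} (hR : MCore R k) (Φ : R.Fl) {i : ℕ} (hi : i < Φ.l)
    (hnt : ¬ Φ.Triv i) {d : ℕ} (hd : Φ.dim i = d) :
    Function.Injective fun g => R.blk Φ hi hd (R.jB g) := by
  intro g h hgh
  have h1 : R.blk Φ hi hd (R.jB (g * h⁻¹)) = 1 := by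
    have h2 : R.blk Φ hi hd (R.jB g) = R.blk Φ hi hd (R.jB h) := hgh
    rw [map_mul, map_mul, h2, ← map_mul, ← map_mul, mul_inv_cancel, map_one, map_one]
  have h3 := (R.blk_eq_smul Φ hi hd (R.jB (g * h⁻¹)) 1).1 (by rw [h1, one_smul])
  exact mul_inv_eq_one.1 (blk_faithful hR Φ hi hnt h3)

/-- a nontrivial factor is a representation -/
theorem exists_blkRep {k : ℕ} (hR : MCore R k) (Φ : R.Fl) {i : ℕ} (hi : i < Φ.l)
    (hnt : ¬ Φ.Triv i) {d : ℕ} (hd : Φ.dim i = d) :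
    ∃ R' : Rep p G T Ω d, ∀ g, R'.ρ g = R.blk Φ hi hd (R.jB g) := by
  have hπ : ∀ (t : T) (a : R.B), (R.blk Φ hi hd : R.B →+* Matrix (Fin d) (Fin d) Ω) (t • a)
      = algebraMap T Ω (RingHom.id T t) • (R.blk Φ hi hd : R.B →+* Matrix (Fin d) (Fin d) Ω) a := by
    intro t a
    show R.blk Φ hi hd (t • a) = algebraMap T Ω t • R.blk Φ hi hd a
    rw [map_smul, algebraMap_smul]
  have hinj : Function.Injective fun g =>
      (R.blk Φ hi hd : R.B →+* Matrix (Fin d) (Fin d) Ω) (R.jB g) := blk_inj hR Φ hi hnt hd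
  have hc : Continuous R.jB := R.cont_jB
  have htop : Algebra.adjoin T (Set.range R.jB) = ⊤ := R.adjoin_jB_eq_top
  obtain ⟨R', hR'⟩ := rep_of_hom (p := p) (K := Ω) (A := R.B) (T' := T) (m := d) R.jB hc htop
    (RingHom.id T) Function.surjective_id continuous_id R.tinj
    (R.blk Φ hi hd : R.B →+* Matrix (Fin d) (Fin d) Ω) hπ hinj R.pnil
  exact ⟨R', hR'⟩

/-- the elements of `CB` in the augmentation submodule -/
def plusSet (R : Rep p G T Ω n) : Set R.B :=
  {y | y ∈ R.CB ∧ y ∈ Submodule.span T (Set.range fun g => R.jB g - 1)}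

theorem jB_sub_one_mem (g : G) : R.jB g - 1 ∈ R.plusSet := by
  refine ⟨R.CB.sub_mem ?_ R.CB.one_mem, Submodule.subset_span ⟨g, rfl⟩⟩
  exact Subring.le_topologicalClosure _ (Subring.subset_closure ⟨g, rfl⟩)

theorem charpoly_mulLeft_natDegree {d : ℕ} (x : Matrix (Fin d) (Fin d) Ω) :
    (LinearMap.mulLeft Ω x).charpoly.natDegree = d ^ 2 := by
  rw [LinearMap.charpoly_natDegree, Module.finrank_matrix]
  simp only [Fintype.card_fin, Module.finrank_self, mul_one]
  rw [sq]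

section T'

variable (T' : Subalgebra T Ω) [Module.Finite T T'] [TopologicalSpace T'] [IsModuleTopology T T']
  [CNR T']

theorem tn_algebraMap {t : T} (h : IsTopologicallyNilpotent t) :
    IsTopologicallyNilpotent (algebraMap T T' t) := by
  have hc : Continuous (Algebra.linearMap T T') := IsModuleTopology.continuous_of_linearMap _
  exact h.map (φ := algebraMap T T') hc

theorem tn_natCast (h : IsTopologicallyNilpotent (p : T)) :
    IsTopologicallyNilpotent (p : T') := by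
  have := tn_algebraMap T' h
  rwa [map_natCast] at this

variable {T'}

/-- the characteristic coefficients of the augmentation part are topologically nilpotent -/
theorem coef_tn {k : ℕ} (hR : MCore R k) (Φ : R.Fl) {i : ℕ} (hi : i < Φ.l)
    (hnt : ¬ Φ.Triv i) {d : ℕ} (hd : Φ.dim i = d) {y : R.B} (hy : y ∈ R.plusSet) {m : ℕ}
    (hm : m < d ^ 2) {t : T'}
    (ht : (t : Ω) = (LinearMap.mulLeft Ω (R.blk Φ hi hd y)).charpoly.coeff m) :
    IsTopologicallyNilpotent t := by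
  obtain ⟨R', hR'⟩ := exists_blkRep hR Φ hi hnt hd
  have : IsLocalRing T' := isLocalRing_of_cnr T'
  obtain ⟨O, hO, hOm⟩ := exists_dominating (K := Ω) (T := T') (Subtype.val_injective)
    (IsLocalRing.maximalIdeal T') inferInstance
  have hOT : ∀ t : T, algebraMap T Ω t ∈ O := fun t => hO (algebraMap T T' t)
  have hOTn : ∀ t : T, IsTopologicallyNilpotent t → algebraMap T Ω t ∈ O.nonunits := by
    intro t ht
    exact (hOm (algebraMap T T' t)).2 (mem_maximalIdeal_iff.2 (tn_algebraMap T' ht))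
  have hU : R'.Unip O := R'.unip_of_maximal hR.pf.proP O hOT hOTn
  have h1 : R.blk Φ hi hd y ∈ Submodule.span T (Set.range fun g => R'.ρ g - 1) := by
    have h2 : ∀ z ∈ Submodule.span T (Set.range fun g => R.jB g - 1),
        R.blk Φ hi hd z ∈ Submodule.span T (Set.range fun g => R'.ρ g - 1) := by
      intro z hz
      refine Submodule.span_induction (fun z hz => ?_) ?_ (fun x y _ _ hx hy => ?_)
        (fun t x _ hx => ?_) hz
      · obtain ⟨g, rfl⟩ := hz
        refine Submodule.subset_span ⟨g, ?_⟩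
        have e1 : R.blk Φ hi hd (R.jB g - 1) = R.blk Φ hi hd (R.jB g) - R.blk Φ hi hd 1 :=
          map_sub (R.blk Φ hi hd) _ _
        show R'.ρ g - 1 = R.blk Φ hi hd (R.jB g - 1)
        rw [e1, hR', map_one]
      · rw [map_zero]; exact zero_mem _
      · rw [map_add]; exact add_mem hx hy
      · rw [map_smul]; exact Submodule.smul_mem _ _ hx
    exact h2 y hy.2
  refine mem_maximalIdeal_iff.1 ((hOm t).1 ?_)
  have h3 : (LinearMap.mulLeft Ω (R.blk Φ hi hd y)).charpoly.coeff m ∈ O.nonunits := by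
    refine coeff_mem_nonunits O (LinearMap.charpoly_monic _) (fun μ hμ => ?_)
      (by rwa [charpoly_mulLeft_natDegree])
    exact R'.root_of_unip O hOT hU h1 ((isRoot_mulLeft _ _).1 hμ)
  have h4 : algebraMap T' Ω t = (t : Ω) := rfl
  rw [h4, ht]
  exact h3

end T'

end Rep

end MP35
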