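import Mathlib

/-! # Groups of field automorphisms: definitions -/

set_option autoImplicit false

namespace MP35

universe u v w x

/-- automorphisms fixing the image of a ring homomorphism pointwise -/
def FixH {Ω : Type v} [Field Ω] {S : Type w} [CommRing S] (ψ : S →+* Ω) : Subgroup (RingAut Ω) where
  carrier := {s | ∀ x, s (ψ x) = ψ x}
  one_mem' := fun x => rfl
  mul_mem' {a b} ha hb x := by
    show a (b (ψ x)) = ψ x
    rw [hb, ha]
  inv_mem' {a} ha x := by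
    show a.symm (ψ x) = ψ x
    rw [RingEquiv.symm_apply_eq, ha]

theorem mem_FixH {Ω : Type v} [Field Ω] {S : Type w} [CommRing S] {ψ : S →+* Ω} {s : RingAut Ω} :
    s ∈ FixH ψ ↔ ∀ x, s (ψ x) = ψ x := Iff.rfl

/-- the Frobenius automorphism -/
noncomputable def FrobA (p : ℕ) [Fact p.Prime] (Ω : Type v) [Field Ω] [IsAlgClosed Ω] [CharP Ω p] :
    RingAut Ω := frobeniusEquiv Ω p

theorem FrobA_apply (p : ℕ) [Fact p.Prime] (Ω : Type v) [Field Ω] [IsAlgClosed Ω] [CharP Ω p]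
    (x : Ω) : FrobA p Ω x = x ^ p := rfl

theorem FrobA_comm (p : ℕ) [Fact p.Prime] (Ω : Type v) [Field Ω] [IsAlgClosed Ω] [CharP Ω p]
    (s : RingAut Ω) : s * FrobA p Ω = FrobA p Ω * s := by
  ext x
  show s (FrobA p Ω x) = FrobA p Ω (s x)
  rw [FrobA_apply, FrobA_apply, map_pow]

theorem FrobA_pow_apply (p : ℕ) [Fact p.Prime] (Ω : Type v) [Field Ω] [IsAlgClosed Ω] [CharP Ω p]
    (k : ℕ) (x : Ω) : (FrobA p Ω ^ k) x = x ^ p ^ k := by
  induction k with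
  | zero => simp
  | succ k ih =>
    rw [pow_succ']
    show FrobA p Ω ((FrobA p Ω ^ k) x) = _
    rw [ih, FrobA_apply, ← pow_mul, ← pow_succ]

/-- automorphisms acting on the image of a ring homomorphism as a power of Frobenius -/
noncomputable def DelH (p : ℕ) [Fact p.Prime] {Ω : Type v} [Field Ω] [IsAlgClosed Ω] [CharP Ω p]
    {S : Type w} [CommRing S] (ψ : S →+* Ω) : Subgroup (RingAut Ω) where
  carrier := {s | ∃ c : ℤ, ∀ x, s (ψ x) = (FrobA p Ω ^ c) (ψ x)}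
  one_mem' := ⟨0, fun x => by simp⟩
  mul_mem' {a b} ha hb := by
    obtain ⟨c, hc⟩ := ha
    obtain ⟨d, hd⟩ := hb
    refine ⟨d + c, fun x => ?_⟩
    have h1 : a * FrobA p Ω ^ d = FrobA p Ω ^ d * a :=
      (Commute.zpow_right (FrobA_comm p Ω a) d).eq
    show a (b (ψ x)) = _
    rw [hd]
    calc a ((FrobA p Ω ^ d) (ψ x)) = (a * FrobA p Ω ^ d) (ψ x) := rfl
      _ = (FrobA p Ω ^ d) (a (ψ x)) := by rw [h1]; rfl
      _ = (FrobA p Ω ^ d) ((FrobA p Ω ^ c) (ψ x)) := by rw [hc]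
      _ = _ := by rw [zpow_add]; rfl
  inv_mem' {a} ha := by
    obtain ⟨c, hc⟩ := ha
    refine ⟨-c, fun x => ?_⟩
    have h1 : a * FrobA p Ω ^ (-c) = FrobA p Ω ^ (-c) * a :=
      (Commute.zpow_right (FrobA_comm p Ω a) (-c)).eq
    have h2 : a ((FrobA p Ω ^ (-c)) (ψ x)) = ψ x := by
      calc a ((FrobA p Ω ^ (-c)) (ψ x)) = (a * FrobA p Ω ^ (-c)) (ψ x) := rfl
        _ = (FrobA p Ω ^ (-c)) (a (ψ x)) := by rw [h1]; rfl
        _ = (FrobA p Ω ^ (-c)) ((FrobA p Ω ^ c) (ψ x)) := by rw [hc]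
        _ = (FrobA p Ω ^ (-c) * FrobA p Ω ^ c) (ψ x) := rfl
        _ = ψ x := by rw [← zpow_add]; simp
    show a.symm (ψ x) = _
    rw [RingEquiv.symm_apply_eq]
    exact h2.symm

theorem mem_DelH (p : ℕ) [Fact p.Prime] {Ω : Type v} [Field Ω] [IsAlgClosed Ω] [CharP Ω p]
    {S : Type w} [CommRing S] {ψ : S →+* Ω} {s : RingAut Ω} :
    s ∈ DelH p ψ ↔ ∃ c : ℤ, ∀ x, s (ψ x) = (FrobA p Ω ^ c) (ψ x) := Iff.rfl

end MP35
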