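import Pool.Agent.Lib_MP_3538b5_al.RDefs
import Pool.Agent.Lib_MP_3538b5_al.QGrpDefs

/-! # Layer Q: definitions

* `CtsInto T B f`, `CtsInt T f`: `f` is continuous into a finite `T`-subalgebra of `Ω`.
* `CtsAut T s`: the automorphism `s` of `Ω` is continuous on finite `T`-subalgebras.
* `GoodHom T φ`: injective ring homomorphism, continuous and finite into a finite `T`-subalgebra.
* `SatL R g x`: a power of `x` is in the group generated by the eigenvalues of `ρ g`.
* `Gam R`: the group of automorphisms of `Ω` which (with their inverses) are continuous and preserve all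
  `SatL R g`.
* `LR R c`: the operator `c` is in the linear range, for all valuations at the same time.
* `FamData`: the input of the layer.
-/

set_option autoImplicit false

namespace MP35

universe u v w x y

section cts

variable (T : Type v) [CommRing T] [TopologicalSpace T] {Ω : Type v} [Field Ω] [Algebra T Ω]

/-- `f` is continuous into the subalgebra `B` with the module topology -/
def CtsInto (B : Subalgebra T Ω) {X : Type x} [TopologicalSpace X] (f : X → Ω) : Prop :=
  ∃ h : ∀ a, f a ∈ B, @Continuous X B _ (moduleTopology T B) fun a => ⟨f a, h a⟩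

/-- `f` is continuous into a finite subalgebra -/
def CtsInt {X : Type x} [TopologicalSpace X] (f : X → Ω) : Prop :=
  ∃ B : Subalgebra T Ω, Module.Finite T B ∧ CtsInto T B f

/-- the automorphism `s` of `Ω` is continuous on finite subalgebras -/
def CtsAut (s : RingAut Ω) : Prop :=
  ∀ B : Subalgebra T Ω, Module.Finite T B → ∃ B' : Subalgebra T Ω, Module.Finite T B' ∧
    ∃ h : ∀ b ∈ B, s b ∈ B', @Continuous B B' (moduleTopology T B) (moduleTopology T B')
      fun b => ⟨s b, h b b.2⟩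

/-- injective ring homomorphism, continuous and finite into a finite `T`-subalgebra of `Ω` -/
structure GoodHom {S : Type x} [CommRing S] [TopologicalSpace S] (φ : S →+* Ω) : Prop where
  tinj : Function.Injective (algebraMap T Ω)
  inj : Function.Injective φ
  ex : ∃ B : Subalgebra T Ω, Module.Finite T B ∧ ∃ h : ∀ s, φ s ∈ B,
    @Continuous S B _ (moduleTopology T B) (φ.codRestrict B h) ∧ (φ.codRestrict B h).Finite

end cts

section gam

variable {p : ℕ} {G : Type u} [Group G] [TopologicalSpace G] {T : Type v} [CommRing T]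
  [TopologicalSpace T] {Ω : Type v} [Field Ω] [Algebra T Ω] {n : ℕ} (R : Rep p G T Ω n)

/-- the multiplicative group generated by the eigenvalues of `ρ g` -/
def Rep.eigG (g : G) : Subgroup Ωˣ :=
  Subgroup.closure {u : Ωˣ | (R.ρ g).charpoly.IsRoot (u : Ω)}

/-- a power of `x` is in the group generated by the eigenvalues of `ρ g` -/
def SatL (g : G) (x : Ω) : Prop :=
  ∃ e : ℕ, 0 < e ∧ ∃ u ∈ R.eigG g, (u : Ω) = x ^ e

/-- the automorphism `s` maps the eigenvalues of `ρ g` to elements of `SatL R g` -/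
def SatAut (s : RingAut Ω) : Prop :=
  ∀ g μ, (R.ρ g).charpoly.IsRoot μ → SatL R g (s μ)

theorem Rep.det_ne (g : G) : (R.ρ g).det ≠ 0 := by
  intro h
  have h1 : R.ρ g * R.ρ g⁻¹ = 1 := by rw [← map_mul, mul_inv_cancel, map_one]
  have h2 := congrArg Matrix.det h1
  rw [Matrix.det_mul, h, zero_mul, Matrix.det_one] at h2
  exact zero_ne_one h2

/-- eigenvalues are not zero -/
theorem Rep.root_ne {g : G} {μ : Ω} (h : (R.ρ g).charpoly.IsRoot μ) : μ ≠ 0 := by
  rintro rfl
  rw [Polynomial.IsRoot, Matrix.eval_charpoly, map_zero, zero_sub, Matrix.det_neg] at h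
  rcases mul_eq_zero.1 h with h | h
  · exact pow_ne_zero _ (neg_ne_zero.2 one_ne_zero) h
  · exact R.det_ne g h

theorem SatL.of_root {g : G} {μ : Ω} (h : (R.ρ g).charpoly.IsRoot μ) : SatL R g μ :=
  ⟨1, one_pos, Units.mk0 μ (R.root_ne h), Subgroup.subset_closure h, (pow_one μ).symm⟩

theorem SatL.one {g : G} : SatL R g 1 := ⟨1, one_pos, 1, one_mem _, by simp⟩

variable {R}

theorem SatL.ne {g : G} {x : Ω} (h : SatL R g x) : x ≠ 0 := by
  rintro rfl
  obtain ⟨e, he, u, -, hu⟩ := h
  rw [zero_pow he.ne'] at hu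
  exact u.ne_zero hu

theorem SatL.mul {g : G} {x y : Ω} (hx : SatL R g x) (hy : SatL R g y) : SatL R g (x * y) := by
  obtain ⟨e, he, u, hu, hue⟩ := hx
  obtain ⟨f, hf, v, hv, hvf⟩ := hy
  refine ⟨e * f, Nat.mul_pos he hf, u ^ f * v ^ e, mul_mem (pow_mem hu _) (pow_mem hv _), ?_⟩
  rw [Units.val_mul, Units.val_pow_eq_pow_val, Units.val_pow_eq_pow_val, hue, hvf, mul_pow,
    pow_mul, mul_comm e f, pow_mul y]

theorem SatL.inv {g : G} {x : Ω} (hx : SatL R g x) : SatL R g x⁻¹ := by
  obtain ⟨e, he, u, hu, hue⟩ := hx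
  refine ⟨e, he, u⁻¹, inv_mem hu, ?_⟩
  rw [Units.val_inv_eq_inv_val, hue, inv_pow]

theorem SatL.of_pow {g : G} {x : Ω} {m : ℕ} (hm : 0 < m) (hx : SatL R g (x ^ m)) :
    SatL R g x := by
  obtain ⟨e, he, u, hu, hue⟩ := hx
  exact ⟨m * e, Nat.mul_pos hm he, u, hu, by rw [hue, pow_mul]⟩

theorem SatL.pow {g : G} {x : Ω} (hx : SatL R g x) (m : ℕ) : SatL R g (x ^ m) := by
  obtain ⟨e, he, u, hu, hue⟩ := hx
  refine ⟨e, he, u ^ m, pow_mem hu _, ?_⟩
  rw [Units.val_pow_eq_pow_val, hue, ← pow_mul, ← pow_mul, mul_comm]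

/-- a `SatAut` automorphism preserves `SatL` -/
theorem SatAut.map {s : RingAut Ω} (hs : SatAut R s) {g : G} {x : Ω} (hx : SatL R g x) :
    SatL R g (s x) := by
  obtain ⟨e, he, u, hu, hue⟩ := hx
  have key : ∀ u ∈ R.eigG g, SatL R g (s (u : Ω)) := by
    intro u hu
    unfold Rep.eigG at hu
    induction hu using Subgroup.closure_induction with
    | mem u hu => exact hs g _ hu
    | one => simpa using SatL.one R
    | mul a b _ _ ha hb =>
      rw [Units.val_mul, map_mul]
      exact ha.mul hb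
    | inv a _ ha =>
      rw [Units.val_inv_eq_inv_val, map_inv₀]
      exact ha.inv
  have h1 := key u hu
  rw [hue, map_pow] at h1
  exact h1.of_pow he

theorem CtsAut.mul {s s' : RingAut Ω} (hs : CtsAut T s) (hs' : CtsAut T s') :
    CtsAut T (s * s') := by
  intro B hB
  obtain ⟨B', hB', h', hc'⟩ := hs' B hB
  obtain ⟨B'', hB'', h'', hc''⟩ := hs B' hB'
  refine ⟨B'', hB'', fun b hb => h'' _ (h' b hb), ?_⟩
  let _ : TopologicalSpace B := moduleTopology T B
  let _ : TopologicalSpace B' := moduleTopology T B'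
  let _ : TopologicalSpace B'' := moduleTopology T B''
  exact hc''.comp hc'

theorem CtsAut.one : CtsAut T (1 : RingAut Ω) := fun B hB =>
  ⟨B, hB, fun b hb => hb, by let _ : TopologicalSpace B := moduleTopology T B; exact continuous_id⟩

theorem SatAut.mul {s s' : RingAut Ω} (hs : SatAut R s) (hs' : SatAut R s') :
    SatAut R (s * s') := fun g μ hμ => hs.map (hs' g μ hμ)

theorem SatAut.one : SatAut R (1 : RingAut Ω) := fun _ _ hμ => SatL.of_root R hμ

variable (R)

/-- The group of automorphisms of `Ω` which, together with their inverses, are continuous on finite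
`T`-subalgebras and preserve all `SatL R g`. -/
def Gam : Subgroup (RingAut Ω) where
  carrier := {s | (CtsAut T s ∧ SatAut R s) ∧ CtsAut T s⁻¹ ∧ SatAut R s⁻¹}
  one_mem' := by
    refine ⟨⟨CtsAut.one, SatAut.one⟩, ?_, ?_⟩
    · rw [inv_one]; exact CtsAut.one
    · rw [inv_one]; exact SatAut.one
  mul_mem' {a b} ha hb := by
    refine ⟨⟨ha.1.1.mul hb.1.1, ha.1.2.mul hb.1.2⟩, ?_, ?_⟩
    · rw [mul_inv_rev]; exact hb.2.1.mul ha.2.1
    · rw [mul_inv_rev]; exact hb.2.2.mul ha.2.2
  inv_mem' {a} ha := by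
    refine ⟨ha.2, ?_⟩
    rw [inv_inv]
    exact ha.1

theorem mem_Gam {s : RingAut Ω} :
    s ∈ Gam R ↔ (CtsAut T s ∧ SatAut R s) ∧ CtsAut T s⁻¹ ∧ SatAut R s⁻¹ := Iff.rfl

/-- The operator `c` is in the linear range: for `z = lam (1 + X)` in a closed normal subgroup `N`, with
`X` divisible by `d`, there is `z' ∈ N` such that `z' = 1 + c X` up to an error which is quadratic in `X`
for all valuations which are nonnegative on `T`. -/
def LR (c : Module.End Ω (Matrix (Fin n) (Fin n) Ω)) : Prop :=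
  ∃ d : T, d ≠ 0 ∧ ∀ N : Subgroup G, N.Normal → IsClosed (N : Set G) → ∀ z ∈ N,
    ∀ (lam : Ω) (X : Matrix (Fin n) (Fin n) Ω), lam ≠ 0 → R.ρ z = lam • (1 + X) →
      (∀ i j, ∃ y, IsIntegral T y ∧ X i j = algebraMap T Ω d * y) →
      ∃ z' ∈ N, ∀ (Γ₀ : Type v) [LinearOrderedCommGroupWithZero Γ₀] (ν : Valuation Ω Γ₀),
        (∀ t, ν (algebraMap T Ω t) ≤ 1) → ∀ μ : Γ₀, (∀ i j, ν (X i j) ≤ μ) →
          ∀ i j, ν (algebraMap T Ω d * (R.ρ z' - 1 - c X) i j) ≤ μ ^ 2

/-- The input of the layer Q: finitely many families `k : K` of embeddings `φ k j` of rings of scalars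
`S k`, operators `E k j`, nonzero elements `w k`, exponents `m k`, a finite set `X` of operators. -/
structure FamData {K : Type x} {J : K → Type x} [∀ k, Fintype (J k)] {S : K → Type v}
    [∀ k, CommRing (S k)] [∀ k, TopologicalSpace (S k)] (φ : ∀ k, J k → S k →+* Ω)
    (E : ∀ k, J k → Module.End Ω (Matrix (Fin n) (Fin n) Ω)) (w : ∀ k, S k) (m : K → ℕ)
    (X : Finset (Module.End Ω (Matrix (Fin n) (Fin n) Ω))) : Prop where
  good : ∀ k j, GoodHom T (φ k j)
  ne : ∀ k i j, i ≠ j → φ k i ≠ φ k j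
  w_ne : ∀ k, w k ≠ 0
  link : ∀ k i j, ∀ s : RingAut Ω, (∀ x, s (φ k i x) = φ k j x) → SatAut R s
  lr : ∀ k x, ∀ y ∈ X, LR R ((∑ j, φ k j ((w k * x) ^ p ^ m k) • E k j) * y)
  vis : ∀ x : Matrix (Fin n) (Fin n) Ω, (∀ k j, ∀ y ∈ X, E k j (y x) = 0) →
    ∃ c : Ω, x = c • 1

end gam

end MP35
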