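import Pool.Agent.Lib_MP_3538b5_al.QFix

/-! # Piece QCOND: a conductor -/

set_option autoImplicit false

namespace MP35

universe u v w x y

/-- a uniform exponent for finitely many fixed elements -/
private theorem uniform_QC {p : ℕ} [Fact p.Prime] {T : Type v} [CommRing T] [TopologicalSpace T]
    [CNR T] {Ω : Type v} [Field Ω] [IsAlgClosed Ω] [CharP Ω p] [Algebra T Ω]
    [Algebra.IsAlgebraic T Ω] {S : Type v} [CommRing S] [TopologicalSpace S]
    {φ : S →+* Ω} (hφ : GoodHom T φ) (t : Finset Ω) (ht : ∀ y ∈ t, ∀ s ∈ FixH φ, s y = y) :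
    ∃ (e : ℕ) (b : S), φ b ≠ 0 ∧ ∀ y ∈ t, ∃ a, φ b * y ^ p ^ e = φ a := by
  classical
  induction t using Finset.induction_on with
  | empty => exact ⟨0, 1, by rw [map_one]; exact one_ne_zero, fun y hy => absurd hy (Finset.notMem_empty y)⟩
  | insert z t hz ih =>
    obtain ⟨e, b, hb, h⟩ := ih fun y hy => ht y (Finset.mem_insert_of_mem hy)
    obtain ⟨e', a', b', hb', h'⟩ := exists_pow_of_fixed (p := p) hφ
      (ht z (Finset.mem_insert_self z t))
    refine ⟨e + e', b ^ p ^ e' * b' ^ p ^ e, ?_, ?_⟩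
    · rw [map_mul, map_pow, map_pow]
      exact mul_ne_zero (pow_ne_zero _ hb) (pow_ne_zero _ hb')
    · intro y hy
      rcases Finset.mem_insert.1 hy with rfl | hy
      · refine ⟨b ^ p ^ e' * a' ^ p ^ e, ?_⟩
        rw [map_mul, map_mul, map_pow, map_pow, map_pow, ← h', mul_pow, ← pow_mul, ← pow_add,
          Nat.add_comm e' e, mul_assoc]
      · obtain ⟨a, ha⟩ := h y hy
        refine ⟨b' ^ p ^ e * a ^ p ^ e', ?_⟩
        rw [map_mul, map_mul, map_pow, map_pow, map_pow, ← ha, mul_pow, ← pow_mul, ← pow_add]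
        ring

/-- PROOF. Let `B₁ ≥ B` be finite over `T` with `φ : S → B₁` finite (`hφ.exists_ge`). `M = {x ∈ B₁ | s x = x for all s ∈ FixH φ}` is a subring of `B₁` and an `S`-submodule (via `φ`), `B₁` is finite over the noetherian ring `S`, so `M` is generated over `S` by `y_1, …, y_r`. By `exists_pow_of_fixed` `φ (b_i) y_i ^ p ^ (e_i) = φ (a_i)`, `φ (b_i) ≠ 0`. With
`e = max e_i` and `b = ∏ b_i ^ (p ^ (e - e_i))` we get `φ b * x ^ p ^ e ∈ φ S` for all `x ∈ M` (`x = Σ φ (s_i) y_i`, characteristic `p`). `RR ≤ M`. `β = φ (b * w₀) ∈ M`, `β ≠ 0`. `β ∈ B₁` is integral over `RR` (`B₁` is finite over `T ≤ B` and `B` is finite over `RR`), so (dividing by a power of `β`) there is a monic polynomial over `RR` with nonzero constant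
coefficient and root `β`, and `r = β * β'` with `r ∈ RR`, `r ≠ 0`, `β'` a polynomial in `β` with coefficients in `RR`, so `β' ∈ M`. For `x ∈ RR`: `(r x) ^ p ^ e = φ (b w₀) ^ (p ^ e - 1) * φ w₀ * (φ b * (β' x) ^ p ^ e)`, and the last factor is in `φ S`. -/
theorem exists_cond {p : ℕ} [Fact p.Prime] {T : Type v} [CommRing T] [TopologicalSpace T] [CNR T]
    [IsDomain T] {Ω : Type v} [Field Ω] [IsAlgClosed Ω] [CharP Ω p] [Algebra T Ω]
    [Algebra.IsAlgebraic T Ω] {S : Type v} [CommRing S] [TopologicalSpace S] [CNR S] [IsDomain S]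
    {φ : S →+* Ω} (hφ : GoodHom T φ) {w₀ : S} (hw₀ : w₀ ≠ 0) {B : Subalgebra T Ω}
    (hB : Module.Finite T B) {RR : Subring Ω} (hRB : ∀ x : RR, (x : Ω) ∈ B)
    (hfin : (RR.subtype.codRestrict B hRB).Finite) (hfix : ∀ x ∈ RR, ∀ s ∈ FixH φ, s x = x) :
    ∃ (e : ℕ) (r : Ω), r ∈ RR ∧ r ≠ 0 ∧ ∀ x ∈ RR, ∃ s : S, φ (w₀ * s) = (r * x) ^ p ^ e := by
  classical
  obtain ⟨B₁, hle, hB₁, h, -, hfin₁⟩ := hφ.exists_ge B hB
  have hp : p.Prime := Fact.out
  let _ : Algebra S B₁ := (φ.codRestrict B₁ h).toAlgebra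
  have _ : Module.Finite S B₁ := hfin₁
  have hsmul : ∀ (c : S) (x : B₁), ((c • x : B₁) : Ω) = φ c * x := fun c x => rfl
  -- the fixed elements
  let M : Submodule S B₁ :=
    { carrier := {x | ∀ s ∈ FixH φ, s (x : Ω) = x}
      zero_mem' := fun s _ => map_zero s
      add_mem' := fun {a b} ha hb s hs => by
        have h1 : ((a + b : B₁) : Ω) = a + b := rfl
        rw [h1, map_add, ha s hs, hb s hs]
      smul_mem' := fun c a ha s hs => by
        rw [hsmul, map_mul, ha s hs, hs c] }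
  have _ : IsNoetherian S B₁ := isNoetherian_of_isNoetherianRing_of_finite S B₁
  obtain ⟨t, ht⟩ := IsNoetherian.noetherian M
  obtain ⟨e, b, hb, hunif⟩ := uniform_QC (p := p) hφ (t.image (Subtype.val : B₁ → Ω)) (by
    intro y hy
    obtain ⟨z, hz, rfl⟩ := Finset.mem_image.1 hy
    have hzM : z ∈ M := by
      rw [← ht]
      exact Submodule.subset_span hz
    exact hzM)
  have hM : ∀ x : B₁, x ∈ M → ∃ a, φ b * (x : Ω) ^ p ^ e = φ a := by
    intro x hx
    rw [← ht] at hx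
    induction hx using Submodule.span_induction with
    | mem x hx => exact hunif _ (Finset.mem_image_of_mem _ hx)
    | zero =>
      refine ⟨0, ?_⟩
      have h1 : ((0 : B₁) : Ω) = 0 := rfl
      rw [h1, zero_pow (pow_ne_zero _ hp.ne_zero), mul_zero, map_zero]
    | add x y _ _ hx hy =>
      obtain ⟨a, ha⟩ := hx
      obtain ⟨a', ha'⟩ := hy
      refine ⟨a + a', ?_⟩
      have h1 : ((x + y : B₁) : Ω) = x + y := rfl
      rw [h1, add_pow_char_pow, mul_add, ha, ha', map_add]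
    | smul c x _ hx =>
      obtain ⟨a, ha⟩ := hx
      refine ⟨c ^ p ^ e * a, ?_⟩
      rw [hsmul, mul_pow, map_mul, ← ha, map_pow]
      ring
  -- the element β
  have hinj := hφ.inj
  have hb0 : b ≠ 0 := fun h0 => hb (by rw [h0, map_zero])
  have hβ : φ (b * w₀) ≠ 0 := fun h0 => mul_ne_zero hb0 hw₀ (hinj (by rw [h0, map_zero]))
  have hint : IsIntegral RR (φ (b * w₀)) := by
    have h1 : ∀ z : B, IsIntegral RR (z : Ω) := by
      intro z
      let _ : Algebra RR B := (RR.subtype.codRestrict B hRB).toAlgebra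
      have _ : Module.Finite RR B := hfin
      obtain ⟨P, hP, hz⟩ := Algebra.IsIntegral.isIntegral (R := RR) z
      refine ⟨P, hP, ?_⟩
      have h2 := congrArg (Subalgebra.val B : B →+* Ω) hz
      rw [Polynomial.hom_eval₂, map_zero] at h2
      exact h2
    let A := integralClosure RR Ω
    have h3 : ∀ c : T, algebraMap T Ω c ∈ A := fun c => h1 ⟨algebraMap T Ω c, B.algebraMap_mem c⟩
    have h4 : IsIntegral A (φ (b * w₀)) := by
      obtain ⟨P, hP, hz⟩ := hφ.isIntegral (b * w₀)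
      refine ⟨P.map ((algebraMap T Ω).codRestrict A h3), hP.map _, ?_⟩
      rw [Polynomial.eval₂_map]
      exact hz
    exact isIntegral_trans (R := RR) (A := A) _ h4
  obtain ⟨q, hq0, hq⟩ := hint.isAlgebraic.exists_nonzero_coeff_and_aeval_eq_zero
    (mem_nonZeroDivisors_of_ne_zero hβ)
  have hq2 : Polynomial.aeval (φ (b * w₀)) q.divX * φ (b * w₀) + ((q.coeff 0 : RR) : Ω) = 0 := by
    have h1 := hq
    rw [← Polynomial.divX_mul_X_add q, map_add, map_mul, Polynomial.aeval_X,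
      Polynomial.aeval_C] at h1
    exact h1
  set β := φ (b * w₀) with hβdef
  set δ := Polynomial.aeval β q.divX with hδ
  -- δ is in the fixed part of B₁
  have hβ1 : β ∈ B₁ := h _
  have hβf : ∀ s ∈ FixH φ, s β = β := fun s hs => hs _
  have hpol : ∀ Q : Polynomial RR, Polynomial.aeval β Q ∈ B₁ ∧
      ∀ s ∈ FixH φ, s (Polynomial.aeval β Q) = Polynomial.aeval β Q := by
    intro Q
    rw [Polynomial.aeval_eq_sum_range]
    refine ⟨sum_mem fun i _ => ?_, fun s hs => ?_⟩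
    · have h1 : Q.coeff i • β ^ i = ((Q.coeff i : RR) : Ω) * β ^ i := rfl
      rw [h1]
      exact mul_mem (hle (hRB _)) (pow_mem hβ1 _)
    · rw [map_sum]
      refine Finset.sum_congr rfl fun i _ => ?_
      have h1 : Q.coeff i • β ^ i = ((Q.coeff i : RR) : Ω) * β ^ i := rfl
      rw [h1, map_mul, map_pow, hβf s hs, hfix _ (Q.coeff i).2 s hs]
  obtain ⟨hδ1, hδf⟩ := hpol q.divX
  refine ⟨e, ((q.coeff 0 : RR) : Ω), (q.coeff 0).2, ?_, ?_⟩
  · intro h0
    exact hq0 (Subtype.ext h0)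
  · intro x hx
    have hx1 : x ∈ B₁ := hle (hRB ⟨x, hx⟩)
    obtain ⟨a, ha⟩ := hM ⟨-δ * x, mul_mem (neg_mem hδ1) hx1⟩ (by
      intro s hs
      show s (-δ * x) = -δ * x
      rw [map_mul, map_neg, hδf s hs, hfix x hx s hs])
    have ha' : φ b * (-δ * x) ^ p ^ e = φ a := ha
    refine ⟨(b * w₀) ^ (p ^ e - 1) * a, ?_⟩
    have h1 : ((q.coeff 0 : RR) : Ω) * x = β * (-δ * x) := by
      have h2 : ((q.coeff 0 : RR) : Ω) = -(δ * β) := by
        rw [eq_neg_iff_add_eq_zero, add_comm]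
        exact hq2
      rw [h2]
      ring
    have h3 : β ^ p ^ e = β ^ (p ^ e - 1) * (φ b * φ w₀) := by
      have h4 : p ^ e = p ^ e - 1 + 1 := (Nat.sub_add_cancel (Nat.one_le_pow _ _ hp.pos)).symm
      conv_lhs => rw [h4, pow_succ]
      rw [hβdef, map_mul]
    have h5 : φ ((b * w₀) ^ (p ^ e - 1)) = β ^ (p ^ e - 1) := map_pow _ _ _
    rw [h1, mul_pow β, h3, map_mul, map_mul, h5, ← ha']
    ring

end MP35
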