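import Pool.Agent.Lib_MP_3538b5_al.QGood

/-! # Piece QFIX: automorphisms fixing a ring of scalars, extension of isomorphisms -/

set_option autoImplicit false

namespace MP35

universe u v w x y

/-- an automorphism fixing the coefficients permutes the roots -/
private theorem eval_fix_QF {Ω : Type v} [Field Ω] {S : Type x} [CommRing S] {φ : S →+* Ω}
    {s : RingAut Ω} (hs : s ∈ FixH φ) (P : Polynomial S) {z : Ω} (h : P.eval₂ φ z = 0) :
    P.eval₂ φ (s z) = 0 := by
  have h1 : (s : Ω →+* Ω).comp φ = φ := RingHom.ext fun a => hs a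
  have h2 := Polynomial.hom_eval₂ P φ (s : Ω →+* Ω) z
  rw [h1, h, map_zero] at h2
  exact h2.symm

/-- the roots of a nonzero image polynomial are finite in number -/
private theorem finite_roots_QF {Ω : Type v} [Field Ω] {S : Type x} [CommRing S] {φ : S →+* Ω}
    {P : Polynomial S} (hP : P.map φ ≠ 0) : {z : Ω | P.eval₂ φ z = 0}.Finite := by
  refine (P.map φ).rootSet_finite Ω |>.subset fun z hz => ?_
  rw [Polynomial.mem_rootSet]
  refine ⟨hP, ?_⟩
  rw [Polynomial.coe_aeval_eq_eval, Polynomial.eval_map]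
  exact hz

variable {T : Type v} [CommRing T] [TopologicalSpace T] [CNR T] {Ω : Type v} [Field Ω]
  [Algebra T Ω] [Algebra.IsAlgebraic T Ω] {S : Type x} [CommRing S] [TopologicalSpace S]

/-- PROOF. `x` is a root of `P.map φ ≠ 0` (`GoodHom.algebraic`), and so are all `(s ^ i) x`, because `s` fixes the coefficients; this polynomial has finitely many roots, so `(s ^ i) x = (s ^ j) x` for some `i < j`, `m = j - i`. -/
theorem exists_pow_fix {φ : S →+* Ω} (hφ : GoodHom T φ) {s : RingAut Ω} (hs : s ∈ FixH φ) (x : Ω) :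
    ∃ m : ℕ, 0 < m ∧ (s ^ m) x = x := by
  obtain ⟨P, hP, hx⟩ := hφ.algebraic x
  have hf := finite_roots_QF hP
  have hm : ∀ i : ℕ, (s ^ i) x ∈ {z : Ω | P.eval₂ φ z = 0} := fun i =>
    eval_fix_QF (pow_mem hs i) P hx
  have := hf.to_subtype
  obtain ⟨i, j, hij, he⟩ := Finite.exists_ne_map_eq_of_infinite
    (fun i : ℕ => (⟨(s ^ i) x, hm i⟩ : {z : Ω | P.eval₂ φ z = 0}))
  have he' : (s ^ i) x = (s ^ j) x := congrArg Subtype.val he
  have key : ∀ i j : ℕ, i < j → (s ^ i) x = (s ^ j) x → ∃ m : ℕ, 0 < m ∧ (s ^ m) x = x := by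
    intro i j hij he
    refine ⟨j - i, Nat.sub_pos_of_lt hij, ?_⟩
    have h1 : (s ^ j) x = (s ^ i) ((s ^ (j - i)) x) := by
      conv_lhs => rw [← Nat.add_sub_of_le hij.le, pow_add]
      rfl
    rw [h1] at he
    exact ((s ^ i).injective he).symm
  rcases lt_or_gt_of_ne hij with h | h
  · exact key i j h he'
  · exact key j i h he'.symm

/-- PROOF. Let `B₀` be the finite subalgebra of `hψ.ex`, `B ≥ B₀` as in `hφ.exists_ge`, generated by `b_1, …, b_r` over `S` (via `φ`). If `s ∈ FixH φ` fixes all `b_i` then it fixes `B` and `ψ S`. The orbit of the tuple `(b_i)` under `FixH φ` is finite: every `b_i` is a root of a polynomial `P_i.map φ ≠ 0`, whose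
roots are permuted by `FixH φ`. So the stabiliser of the tuple in `FixH φ` has finite index (orbit-stabiliser: `MulAction.orbitEquivQuotientStabilizer`), and it is contained in `FixH ψ` (`Subgroup.relIndex`, `Subgroup.index_ne_zero_of_finite`, monotone). -/
theorem relIndex_FixH {S' : Type y} [CommRing S'] [TopologicalSpace S'] {φ : S →+* Ω}
    (hφ : GoodHom T φ) {ψ : S' →+* Ω} (hψ : GoodHom T ψ) : (FixH ψ).relIndex (FixH φ) ≠ 0 := by
  obtain ⟨B₀, hB₀, h₀, -⟩ := hψ.ex
  obtain ⟨B, hle, hB, h, -, hfin⟩ := hφ.exists_ge B₀ hB₀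
  let _ : Algebra S B := (φ.codRestrict B h).toAlgebra
  have hfin' : Module.Finite S B := hfin
  obtain ⟨t, ht⟩ := hfin'.fg_top
  -- stabilisers have finite relative index
  have hst : ∀ b : Ω, (MulAction.stabilizer (RingAut Ω) b).relIndex (FixH φ) ≠ 0 := by
    intro b
    obtain ⟨P, hP, hb⟩ := hφ.algebraic b
    have h1 : (MulAction.stabilizer (RingAut Ω) b).subgroupOf (FixH φ) =
        MulAction.stabilizer (FixH φ) b := by
      ext s
      rw [Subgroup.mem_subgroupOf, MulAction.mem_stabilizer_iff, MulAction.mem_stabilizer_iff]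
      rfl
    rw [Subgroup.relIndex, h1, MulAction.index_stabilizer]
    refine Set.ncard_ne_zero_of_mem (MulAction.mem_orbit_self b) ?_
    refine (finite_roots_QF hP).subset ?_
    rintro _ ⟨s, rfl⟩
    exact eval_fix_QF s.2 P hb
  have h2 : (⨅ b : t, MulAction.stabilizer (RingAut Ω) ((b : B) : Ω)).relIndex (FixH φ) ≠ 0 :=
    Subgroup.relIndex_iInf_ne_zero fun b => hst _
  have h3 : (⨅ b : t, MulAction.stabilizer (RingAut Ω) ((b : B) : Ω)) ⊓ FixH φ ≤ FixH ψ := by
    rintro s ⟨hs1, hs2⟩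
    have hs3 : ∀ b ∈ t, s ((b : B) : Ω) = b := fun b hb =>
      (Subgroup.mem_iInf.1 hs1 ⟨b, hb⟩ : _)
    have h4 : ∀ b : B, s (b : Ω) = b := by
      intro b
      have hb : b ∈ Submodule.span S (t : Set B) := by
        rw [ht]
        trivial
      induction hb using Submodule.span_induction with
      | mem b hb => exact hs3 b hb
      | zero => simp
      | add a b _ _ ha hb =>
        rw [Subalgebra.coe_add, map_add, ha, hb]
      | smul c b _ hb =>
        have h5 : ((c • b : B) : Ω) = φ c * b := rfl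
        rw [h5, map_mul, hb, hs2 c]
    intro a
    exact h4 ⟨ψ a, hle (h₀ a)⟩
  rw [← Subgroup.inf_relIndex_right] at h2
  intro h5
  have h6 := Subgroup.relIndex_dvd_of_le_left (FixH φ) h3
  rw [h5, zero_dvd_iff] at h6
  exact h2 h6

/-- a copy of the field, for a second algebra structure -/
private def CopyQF (Ω : Type v) : Type v := Ω

private instance instCopyQF {Ω : Type v} [Field Ω] : Field (CopyQF Ω) := inferInstanceAs (Field Ω)

/-- PROOF. `S` is a domain (`φ` injective); `Ω` with the algebra structures `φ.toAlgebra` and `ψ.toAlgebra` over `S` is twice an algebraic closure of `S` (`IsAlgClosure S Ω`: algebraically closed, algebraic over `S` by `GoodHom.algebraic`); take `IsAlgClosure.equiv` (with explicit instances), or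
extend the isomorphism of the subfields generated by `φ S`, `ψ S` (`IsAlgClosure.equivOfEquiv`). -/
theorem exists_link [IsAlgClosed Ω] {φ ψ : S →+* Ω} (hφ : GoodHom T φ) (hψ : GoodHom T ψ) :
    ∃ s : RingAut Ω, ∀ x, s (φ x) = ψ x := by
  have hS : IsDomain S := hφ.inj.isDomain φ
  let ψ' : S →+* CopyQF Ω := ψ
  have hc : IsAlgClosed (CopyQF Ω) := inferInstanceAs (IsAlgClosed Ω)
  let _ : Algebra S Ω := φ.toAlgebra
  let _ : Algebra S (CopyQF Ω) := ψ'.toAlgebra
  have h1 : FaithfulSMul S Ω := (faithfulSMul_iff_algebraMap_injective S Ω).2 hφ.inj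
  have h2 : FaithfulSMul S (CopyQF Ω) :=
    (faithfulSMul_iff_algebraMap_injective S (CopyQF Ω)).2 hψ.inj
  have h3 : IsAlgClosure S Ω := ⟨inferInstance, ⟨fun x => by
    obtain ⟨P, hP, hx⟩ := hφ.algebraic x
    exact ⟨P, fun h => hP (by rw [h, Polynomial.map_zero]), hx⟩⟩⟩
  have h4 : IsAlgClosure S (CopyQF Ω) := ⟨inferInstance, ⟨fun x => by
    obtain ⟨P, hP, hx⟩ := hψ.algebraic x
    exact ⟨P, fun h => hP (by rw [h, Polynomial.map_zero]), hx⟩⟩⟩
  let e : Ω ≃ₐ[S] CopyQF Ω := IsAlgClosure.equiv S Ω (CopyQF Ω)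
  let s : Ω ≃+* Ω := e.toRingEquiv
  exact ⟨s, fun x => e.commutes x⟩

/-- PROOF. Let `K₀` be the subfield of `Ω` generated by `φ S` (the fractions `φ a / φ b`). `Ω` is an algebraic closure of `K₀` (`GoodHom.algebraic`), so normal; every root of the minimal polynomial of `x` over `K₀` is the image of `x` under an automorphism of `Ω` fixing `K₀`, so equal to `x`; the minimal polynomial has only one root, and
`x ^ p ^ e ∈ K₀` for some `e` (`minpoly.natSepDegree_eq_one_iff_pow_mem` or `perfectClosure`). -/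
theorem exists_pow_of_fixed {p : ℕ} [Fact p.Prime] [CharP Ω p] [IsAlgClosed Ω] {φ : S →+* Ω}
    (hφ : GoodHom T φ) {x : Ω} (hx : ∀ s ∈ FixH φ, s x = x) :
    ∃ (e : ℕ) (a b : S), φ b ≠ 0 ∧ φ b * x ^ p ^ e = φ a := by
  classical
  have hS : IsDomain S := hφ.inj.isDomain φ
  let _ : Algebra S Ω := φ.toAlgebra
  have h1 : FaithfulSMul S Ω := (faithfulSMul_iff_algebraMap_injective S Ω).2 hφ.inj
  let K := FractionRing S
  let _ : Algebra K Ω := FractionRing.liftAlgebra S Ω
  have h2 : IsScalarTower S K Ω := FractionRing.isScalarTower_liftAlgebra S Ω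
  have h3 : Algebra.IsAlgebraic S Ω := ⟨fun x => by
    obtain ⟨P, hP, hx⟩ := hφ.algebraic x
    exact ⟨P, fun h => hP (by rw [h, Polynomial.map_zero]), hx⟩⟩
  have h4 : Algebra.IsAlgebraic K Ω :=
    (IsFractionRing.comap_isAlgebraic_iff (A := S) (K := K) (C := Ω)).1 h3
  have h5 : IsAlgClosure K Ω := ⟨inferInstance, h4⟩
  have h6 : Normal K Ω := inferInstance
  have h7 : CharP K p := (RingHom.charP_iff (algebraMap K Ω) (algebraMap K Ω).injective p).2 inferInstance
  have h8 : ExpChar K p := ExpChar.prime Fact.out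
  have h9 : (minpoly K x).natSepDegree = 1 := by
    rw [Polynomial.natSepDegree_eq_of_isAlgClosed Ω, Finset.card_eq_one]
    refine ⟨x, Finset.eq_singleton_iff_unique_mem.2 ⟨?_, fun y hy => ?_⟩⟩
    · rw [Multiset.mem_toFinset, Polynomial.mem_aroots]
      exact ⟨minpoly.ne_zero (h4.isAlgebraic x).isIntegral, minpoly.aeval K x⟩
    · rw [Multiset.mem_toFinset, Polynomial.mem_aroots] at hy
      obtain ⟨σ, hσ⟩ := minpoly.exists_algEquiv_of_root' (h4.isAlgebraic x) hy.2
      rw [← hσ]
      refine hx (σ.toRingEquiv : RingAut Ω) fun a => ?_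
      have h10 : φ a = algebraMap K Ω (algebraMap S K a) := by
        rw [← IsScalarTower.algebraMap_apply S K Ω]
        rfl
      rw [h10]
      exact σ.commutes _
  obtain ⟨e, z, hz⟩ := (minpoly.natSepDegree_eq_one_iff_pow_mem p).1 h9
  obtain ⟨a, b, hb, hab⟩ := IsFractionRing.div_surjective (A := S) z
  have hb0 : φ b ≠ 0 := fun h => nonZeroDivisors.ne_zero hb (hφ.inj (by rw [h, map_zero]))
  refine ⟨e, a, b, hb0, ?_⟩
  have h11 : ∀ c : S, algebraMap K Ω (algebraMap S K c) = φ c := fun c => by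
    rw [← IsScalarTower.algebraMap_apply S K Ω]
    rfl
  rw [← hz, ← hab, map_div₀, h11, h11, mul_div_cancel₀ _ hb0]

end MP35
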