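import Pool.Agent.Lib_MP_3538b5_al.QGrpDefs

/-! # Piece QGRP: the group of automorphisms, finite index and transfer -/

set_option autoImplicit false

namespace MP35

universe u v w x

open scoped Pointwise

variable {p : ℕ} [Fact p.Prime] {Ω : Type v} [Field Ω] [IsAlgClosed Ω] [CharP Ω p]

/-- powers of Frobenius commute with all automorphisms -/
theorem FrobA_zpow_comm (c : ℤ) (s : RingAut Ω) (y : Ω) :
    s ((FrobA p Ω ^ c) y) = (FrobA p Ω ^ c) (s y) := by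
  have h1 : s * FrobA p Ω ^ c = FrobA p Ω ^ c * s := (Commute.zpow_right (FrobA_comm p Ω s) c).eq
  calc s ((FrobA p Ω ^ c) y) = (s * FrobA p Ω ^ c) y := rfl
    _ = _ := by rw [h1]; rfl

theorem FrobA_zpow_add (c d : ℤ) (y : Ω) :
    (FrobA p Ω ^ c) ((FrobA p Ω ^ d) y) = (FrobA p Ω ^ (c + d)) y := by
  rw [zpow_add]
  rfl

theorem FrobA_zpow_neg_apply (c : ℤ) (y : Ω) :
    (FrobA p Ω ^ (-c)) ((FrobA p Ω ^ c) y) = y := by
  rw [FrobA_zpow_add, neg_add_cancel, zpow_zero]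
  rfl

theorem FixH_le_DelH {S : Type w} [CommRing S] (ψ : S →+* Ω) : FixH ψ ≤ DelH p ψ := by
  intro s hs
  refine ⟨0, fun x => ?_⟩
  rw [zpow_zero]
  exact hs x

theorem FrobA_mem_DelH {S : Type w} [CommRing S] (ψ : S →+* Ω) (c : ℤ) :
    FrobA p Ω ^ c ∈ DelH p ψ := ⟨c, fun _ => rfl⟩

/-- an element of `DelH` times a power of Frobenius is in `FixH` -/
theorem mul_mem_FixH {S : Type w} [CommRing S] {ψ : S →+* Ω} {s : RingAut Ω} {c : ℤ}
    (h : ∀ x, s (ψ x) = (FrobA p Ω ^ c) (ψ x)) : FrobA p Ω ^ (-c) * s ∈ FixH ψ := by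
  intro x
  show (FrobA p Ω ^ (-c)) (s (ψ x)) = ψ x
  rw [h, FrobA_zpow_neg_apply]

/-- `DelH` is Frobenius times `FixH` -/
theorem relIndex_DelH_of_FixH {S : Type w} [CommRing S] (ψ : S →+* Ω) {S' : Type x} [CommRing S']
    (ψ' : S' →+* Ω) (h : (FixH ψ').relIndex (FixH ψ) ≠ 0) :
    (DelH p ψ').relIndex (DelH p ψ) ≠ 0 := by
  have h1 : (DelH p ψ').relIndex (FixH ψ) ≠ 0 := fun h0 =>
    h (Subgroup.relIndex_eq_zero_of_le_left (FixH_le_DelH ψ') h0)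
  have h2 : Finite (FixH ψ ⧸ (DelH p ψ').subgroupOf (FixH ψ)) :=
    Nat.finite_of_card_ne_zero h1
  have hle := FixH_le_DelH (p := p) ψ
  have hsurj : Function.Surjective
      (Subgroup.quotientSubgroupOfEmbeddingOfLE (DelH p ψ') hle) := by
    intro q
    obtain ⟨⟨s, hs⟩, rfl⟩ := QuotientGroup.mk_surjective q
    obtain ⟨c, hc⟩ := hs
    refine ⟨QuotientGroup.mk ⟨FrobA p Ω ^ (-c) * s, mul_mem_FixH hc⟩, ?_⟩
    rw [Subgroup.quotientSubgroupOfEmbeddingOfLE_apply_mk, QuotientGroup.eq]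
    show (FrobA p Ω ^ (-c) * s)⁻¹ * s ∈ DelH p ψ'
    have e : (FrobA p Ω ^ (-c) * s)⁻¹ * s = FrobA p Ω ^ c := by
      have h3 : s⁻¹ * FrobA p Ω ^ c = FrobA p Ω ^ c * s⁻¹ :=
        (Commute.zpow_right (FrobA_comm p Ω s⁻¹) c).eq
      rw [mul_inv_rev, zpow_neg, inv_inv, h3, mul_assoc, inv_mul_cancel, mul_one]
    rw [e]
    exact FrobA_mem_DelH ψ' c
  have h3 : Finite (DelH p ψ ⧸ (DelH p ψ').subgroupOf (DelH p ψ)) := Finite.of_surjective _ hsurj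
  exact Nat.card_pos.ne'

/-- All `DelH (φ k j)` have finite index in `Γ`.

PROOF. Call `s, s' ∈ Γ` related if `s ∘ φ k i = Frob ^ c ∘ s' ∘ φ k j` for some `k, i, j, c` (a symmetric relation). Take a tuple `s 0, …, s (m-1)` in `Γ` of pairwise unrelated elements with `m` maximal (`m ≤ n` by `hsep`). Then every `s ∈ Γ` is
related to some `s l`: `s ∘ φ k j = Frob ^ c ∘ s l ∘ φ k i`. For fixed `l, k, i, j` the set of these `s` is empty or contained in one left coset `s' • DelH (φ k j)` (if `s, s'` are in it then `s'⁻¹ s φ_j = Frob ^ (c - c') φ_j`). So `Γ` is a finite union of left cosets of the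
subgroups `DelH (φ k j) ⊓ Γ`, and by B.H. Neumann's lemma (`Subgroup.exists_finiteIndex_of_leftCoset_cover`, in the group `Γ`) some `DelH (φ k₀ j₀) ⊓ Γ` has finite index in `Γ`.
Now let `k, j` be arbitrary. `Δ₀ = DelH (φ k₀ j₀) ⊓ Γ` consists of the products `Frob ^ c * s`, `s ∈ FixH (φ k₀ j₀)` (`hle`, `hF`), `Frob` is central, and `FixH (φ k j) ⊓ FixH (φ k₀ j₀)` has finite index in `FixH (φ k₀ j₀)` (`hrel`): finitely many
`s_i ∈ FixH (φ k₀ j₀)` with `FixH (φ k₀ j₀) ⊆ ⋃ s_i (FixH (φ k₀ j₀) ⊓ FixH (φ k j))`; then `Δ₀ ⊆ ⋃ s_i DelH (φ k j)`. So `DelH (φ k j)` has finite relative index in `Δ₀` and so in `Γ`. -/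
theorem relIndex_DelH (Γ : Subgroup (RingAut Ω)) (hF : FrobA p Ω ∈ Γ) {K : Type w} [Finite K]
    {J : K → Type w} [∀ k, Finite (J k)] {S : K → Type x} [∀ k, CommRing (S k)]
    (φ : ∀ k, J k → S k →+* Ω) (hle : ∀ k j, FixH (φ k j) ≤ Γ)
    (hrel : ∀ k j k' j', (FixH (φ k' j')).relIndex (FixH (φ k j)) ≠ 0)
    (n : ℕ) (hsep : ∀ s : Fin (n + 1) → RingAut Ω, (∀ l, s l ∈ Γ) → ∃ l l', l ≠ l' ∧
      ∃ k, ∃ i j : J k, ∃ c : ℤ, ∀ x, s l (φ k i x) = (FrobA p Ω ^ c) (s l' (φ k j x)))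
    (k : K) (j : J k) : (DelH p (φ k j)).relIndex Γ ≠ 0 := by
  classical
  let Rel : RingAut Ω → RingAut Ω → Prop := fun s s' =>
    ∃ k, ∃ i j : J k, ∃ c : ℤ, ∀ x, s (φ k i x) = (FrobA p Ω ^ c) (s' (φ k j x))
  have hsymm : ∀ s s', Rel s s' → Rel s' s := by
    rintro s s' ⟨k, i, j, c, h⟩
    refine ⟨k, j, i, -c, fun x => ?_⟩
    rw [h, FrobA_zpow_neg_apply]
  -- a finite set of representatives
  have hfin : ∃ F : Finset (RingAut Ω), (∀ t ∈ F, t ∈ Γ) ∧ ∀ s ∈ Γ, ∃ t ∈ F, Rel s t := by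
    by_contra hcon
    push Not at hcon
    obtain ⟨f, hf, hf'⟩ := exists_seq_of_forall_finset_exists (fun s : RingAut Ω => s ∈ Γ)
      (fun s s' => ¬ Rel s' s) (fun F hFΓ => by
        obtain ⟨s, hs, hs'⟩ := hcon F hFΓ
        exact ⟨s, hs, fun t ht => hs' t ht⟩)
    obtain ⟨l, l', hll, h⟩ := hsep (fun l => f l) (fun l => hf l)
    rcases lt_or_gt_of_ne (fun e => hll (Fin.ext e) : (l : ℕ) ≠ l') with hlt | hlt
    · exact hf' l l' hlt (hsymm _ _ h)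
    · exact hf' l' l hlt h
  obtain ⟨F, hFΓ, hFrel⟩ := hfin
  -- the covering
  let ι := F × (Σ k, J k × J k)
  have : Finite ι := inferInstance
  let A : ι → Set Γ := fun a => {s | ∃ c : ℤ, ∀ x, (s : RingAut Ω) (φ a.2.1 a.2.2.1 x)
    = (FrobA p Ω ^ c) ((a.1 : RingAut Ω) (φ a.2.1 a.2.2.2 x))}
  let g : ι → Γ := fun a => if h : (A a).Nonempty then h.some else 1
  let H : ι → Subgroup Γ := fun a => (DelH p (φ a.2.1 a.2.2.1)).subgroupOf Γ
  have hg : ∀ a, ∀ s ∈ A a, s ∈ g a • (H a : Set Γ) := by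
    intro a s hs
    have hne : (A a).Nonempty := ⟨s, hs⟩
    have hgA : g a ∈ A a := by
      show (if h : (A a).Nonempty then h.some else 1) ∈ A a
      rw [dif_pos hne]
      exact hne.some_mem
    rw [mem_leftCoset_iff]
    obtain ⟨c, hc⟩ := hs
    obtain ⟨d, hd⟩ := hgA
    refine ⟨c - d, fun x => ?_⟩
    show (g a : RingAut Ω).symm ((s : RingAut Ω) (φ a.2.1 a.2.2.1 x)) = _
    rw [RingEquiv.symm_apply_eq, FrobA_zpow_comm, hc, hd, FrobA_zpow_add, sub_add_cancel]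
  have hcov : ⋃ a ∈ (Set.finite_univ (α := ι)).toFinset, g a • (H a : Set Γ) = Set.univ := by
    rw [Set.eq_univ_iff_forall]
    intro s
    obtain ⟨t, ht, k, i, j, c, h⟩ := hFrel s s.2
    rw [Set.mem_iUnion₂]
    exact ⟨⟨⟨t, ht⟩, ⟨k, i, j⟩⟩, by simp, hg _ s ⟨c, h⟩⟩
  obtain ⟨a, -, ha⟩ := Subgroup.exists_finiteIndex_of_leftCoset_cover hcov
  have h1 : (DelH p (φ a.2.1 a.2.2.1)).relIndex Γ ≠ 0 := ha.index_ne_zero
  exact Subgroup.relIndex_ne_zero_trans (relIndex_DelH_of_FixH _ _ (hrel _ _ _ _)) h1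

/-- powers of Frobenius move elements of infinite order -/
theorem FrobA_zpow_fix {y : Ω} (hy0 : y ≠ 0) (hy : ∀ m : ℕ, 0 < m → y ^ m ≠ 1) {c : ℤ}
    (h : (FrobA p Ω ^ c) y = y) : c = 0 := by
  have key : ∀ m : ℕ, m ≠ 0 → (FrobA p Ω ^ m) y ≠ y := by
    intro m hm hcon
    rw [FrobA_pow_apply] at hcon
    have hp : 1 < p ^ m := Nat.one_lt_pow hm (Fact.out : p.Prime).one_lt
    have : y ^ (p ^ m - 1) = 1 := by
      have e : y * y ^ (p ^ m - 1) = y * 1 := by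
        rw [← pow_succ', Nat.sub_add_cancel hp.le, hcon, mul_one]
      exact mul_left_cancel₀ hy0 e
    exact hy _ (by omega) this
  obtain ⟨m, rfl | rfl⟩ := c.eq_nat_or_neg
  · by_contra hc
    rw [zpow_natCast] at h
    exact key m (fun h0 => hc (by rw [h0]; rfl)) h
  · by_contra hc
    have h2 : (FrobA p Ω ^ m) y = y := by
      conv_lhs => rw [← h]
      rw [← zpow_natCast, FrobA_zpow_add, add_neg_cancel, zpow_zero]
      rfl
    exact key m (fun h0 => hc (by rw [h0]; rfl)) h2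

/-- the character of `DelH` -/
theorem exists_chi {S : Type w} [CommRing S] (ψ : S →+* Ω)
    (hinf : ∃ x, ψ x ≠ 0 ∧ ∀ m : ℕ, 0 < m → ψ x ^ m ≠ 1) :
    ∃ χ : DelH p ψ →* Multiplicative ℤ, ∀ (s : DelH p ψ) (x : S),
      (s : RingAut Ω) (ψ x) = (FrobA p Ω ^ (Multiplicative.toAdd (χ s))) (ψ x) := by
  obtain ⟨x₀, hx0, hx⟩ := hinf
  have huniq : ∀ c d : ℤ, (FrobA p Ω ^ c) (ψ x₀) = (FrobA p Ω ^ d) (ψ x₀) → c = d := by
    intro c d h
    have h1 : (FrobA p Ω ^ (-d + c)) (ψ x₀) = ψ x₀ := by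
      rw [← FrobA_zpow_add, h, FrobA_zpow_neg_apply]
    have := FrobA_zpow_fix hx0 hx h1
    omega
  choose c hc using fun s : DelH p ψ => (mem_DelH p).1 s.2
  refine ⟨{ toFun := fun s => Multiplicative.ofAdd (c s), map_one' := ?_, map_mul' := ?_ },
    fun s x => hc s x⟩
  · have : c 1 = 0 := huniq _ _ (by
      rw [← hc 1 x₀, zpow_zero]
      rfl)
    rw [this]
    rfl
  · intro s t
    have : c (s * t) = c s + c t := huniq _ _ (by
      rw [← hc (s * t) x₀]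
      show (s : RingAut Ω) ((t : RingAut Ω) (ψ x₀)) = _
      rw [hc t, FrobA_zpow_comm, hc s, FrobA_zpow_add, add_comm])
    rw [this, ofAdd_add]

/-- PROOF. Let `Δ = DelH (φ k₀ j₀) ⊓ Γ`, of finite index in `Γ`. The character `χ : Δ → ℤ` (`Multiplicative ℤ`), `s ∘ φ k₀ j₀ = Frob ^ χ(s) ∘ φ k₀ j₀`, is well defined by `hinf` (an element `y` of infinite order with
`y ^ p ^ c = y`, `c > 0`, is impossible). Let `τ : Γ → ℤ` be its transfer (`MonoidHom.transfer`, in the group `Γ`). `Frob` is central: `τ(Frob) = χ(Frob) * [Γ : Δ] = [Γ : Δ] > 0` (`MonoidHom.transfer_eq_pow`).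
`τ = 0` on `FixH (φ k j)`: let `s ∈ FixH (φ k j)`; by `MonoidHom.transfer_eq_prod_quotient_orbitRel_zpowers_quot` `τ(s)` is a product of values `χ(g⁻¹ s ^ m g)` with `g⁻¹ s ^ m g ∈ Δ`, `m ≥ 1`; then `s ^ m (g (φ k₀ j₀ x)) = Frob ^ c (g (φ k₀ j₀ x))`, `c` the value of `χ`; take `x` of `hinf`, `y = g (φ k₀ j₀ x)`,
of infinite order. By `horb` `(s ^ m') y = y` for some `m' > 0`, so `y = (s ^ (m m')) y = Frob ^ (c m') y`, hence `c = 0` (`y` has infinite order).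
So `τ(s) = 0`. The image of `τ` is `e ℤ`, `e > 0`; let `w ∈ Γ` with `τ(w) = e`, `N = τ(Frob) / e`, `Γ₁` the image of `ker τ`. `Γ₁` is normal in `Γ`. `FixH (φ k j) ≤ Γ₁`, and it has finite index in `Γ₁`: `DelH (φ k j) ⊓ Γ₁ = FixH (φ k j)`, because `s ∈ DelH (φ k j) ⊓ Γ₁`, `s φ = Frob ^ c φ`, gives
`Frob ^ (-c) s ∈ FixH (φ k j)`, `0 = τ(Frob ^ (-c) s) = - c τ(Frob)`, `c = 0`; and `DelH (φ k j)` has finite relative index in `Γ`, so in `Γ₁`. -/
theorem exists_grp (Γ : Subgroup (RingAut Ω)) (hF : FrobA p Ω ∈ Γ) {K : Type w} [Finite K]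
    {J : K → Type w} [∀ k, Finite (J k)] {S : K → Type x} [∀ k, CommRing (S k)]
    (φ : ∀ k, J k → S k →+* Ω) (k₀ : K) (j₀ : J k₀) (hle : ∀ k j, FixH (φ k j) ≤ Γ)
    (hrel : ∀ k j k' j', (FixH (φ k' j')).relIndex (FixH (φ k j)) ≠ 0)
    (hinf : ∀ k j, ∃ x, φ k j x ≠ 0 ∧ ∀ m : ℕ, 0 < m → φ k j x ^ m ≠ 1)
    (horb : ∀ k j, ∀ s ∈ FixH (φ k j), ∀ x : Ω, ∃ m : ℕ, 0 < m ∧ (s ^ m) x = x)
    (n : ℕ) (hsep : ∀ s : Fin (n + 1) → RingAut Ω, (∀ l, s l ∈ Γ) → ∃ l l', l ≠ l' ∧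
      ∃ k, ∃ i j : J k, ∃ c : ℤ, ∀ x, s l (φ k i x) = (FrobA p Ω ^ c) (s l' (φ k j x))) :
    ∃ (Γ₁ : Subgroup (RingAut Ω)) (w : RingAut Ω) (N : ℕ), Γ₁ ≤ Γ ∧ w ∈ Γ ∧ 0 < N ∧
      (∀ s ∈ Γ, ∃ i : ℤ, w ^ (-i) * s ∈ Γ₁) ∧ w ^ (-(N : ℤ)) * FrobA p Ω ∈ Γ₁ ∧
      (∀ s ∈ Γ, ∀ a ∈ Γ₁, s * a * s⁻¹ ∈ Γ₁) ∧
      ∀ k j, FixH (φ k j) ≤ Γ₁ ∧ (FixH (φ k j)).relIndex Γ₁ ≠ 0 := by
  classical
  have hrelD : ∀ k j, (DelH p (φ k j)).relIndex Γ ≠ 0 := fun k j =>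
    relIndex_DelH Γ hF φ hle hrel n hsep k j
  obtain ⟨χ, hχ⟩ := exists_chi (p := p) (φ k₀ j₀) (hinf k₀ j₀)
  obtain ⟨x₀, hx0, hx⟩ := hinf k₀ j₀
  let H : Subgroup Γ := (DelH p (φ k₀ j₀)).subgroupOf Γ
  have hHfin : H.FiniteIndex := ⟨hrelD k₀ j₀⟩
  let χ' : H →* Multiplicative ℤ := χ.comp (MonoidHom.subgroupComap Γ.subtype (DelH p (φ k₀ j₀)))
  have hχ' : ∀ (s : H) (x : S k₀), ((s : Γ) : RingAut Ω) (φ k₀ j₀ x)
      = (FrobA p Ω ^ (Multiplicative.toAdd (χ' s))) (φ k₀ j₀ x) := fun s x =>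
    hχ (MonoidHom.subgroupComap Γ.subtype (DelH p (φ k₀ j₀)) s) x
  let τ : Γ →* Multiplicative ℤ := MonoidHom.transfer χ'
  let f : Γ := ⟨FrobA p Ω, hF⟩
  have hfc : ∀ g : Γ, g * f = f * g := fun g => Subtype.ext (FrobA_comm p Ω (g : RingAut Ω))
  have key : ∀ (m : ℕ) (g₀ : Γ), g₀⁻¹ * f ^ m * g₀ ∈ H → g₀⁻¹ * f ^ m * g₀ = f ^ m := by
    intro m g₀ _
    have : Commute g₀ (f ^ m) := Commute.pow_right (hfc g₀) m
    rw [mul_assoc, ← this.eq, inv_mul_cancel_left]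
  have hτf : Multiplicative.toAdd (τ f) = H.index := by
    have h1 : τ f = χ' ⟨f ^ H.index, MonoidHom.transfer_eq_pow_aux f key⟩ :=
      MonoidHom.transfer_eq_pow χ' f key
    rw [h1]
    have h2 := hχ' ⟨f ^ H.index, MonoidHom.transfer_eq_pow_aux f key⟩ x₀
    have h3 : (((⟨f ^ H.index, MonoidHom.transfer_eq_pow_aux f key⟩ : H) : Γ) : RingAut Ω)
        = FrobA p Ω ^ (H.index : ℤ) := by
      rw [zpow_natCast]
      rfl
    rw [h3] at h2
    have h4 : (FrobA p Ω ^ (-(Multiplicative.toAdd (χ' ⟨f ^ H.index,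
        MonoidHom.transfer_eq_pow_aux f key⟩)) + (H.index : ℤ))) (φ k₀ j₀ x₀) = φ k₀ j₀ x₀ := by
      rw [← FrobA_zpow_add, h2, FrobA_zpow_neg_apply]
    have := FrobA_zpow_fix hx0 hx h4
    omega
  have hidx : 0 < H.index := Nat.pos_of_ne_zero hHfin.index_ne_zero
  -- the transfer is trivial on the fixators
  have hτ1 : ∀ k j (s : Γ), (s : RingAut Ω) ∈ FixH (φ k j) → τ s = 1 := by
    intro k j s hs
    have hone : ∀ (m : ℕ) (g : Γ) (hmem : g⁻¹ * s ^ m * g ∈ H),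
        χ' ⟨g⁻¹ * s ^ m * g, hmem⟩ = 1 := by
      intro m g hmem
      set c := Multiplicative.toAdd (χ' ⟨g⁻¹ * s ^ m * g, hmem⟩) with hc
      set y := (g : RingAut Ω) (φ k₀ j₀ x₀) with hy
      have hy0 : y ≠ 0 := fun h0 => hx0 (by
        rw [hy] at h0
        exact (map_eq_zero (g : RingAut Ω)).1 h0)
      have hyinf : ∀ i : ℕ, 0 < i → y ^ i ≠ 1 := by
        intro i hi h0
        refine hx i hi ?_
        rw [hy, ← map_pow] at h0
        exact (g : RingAut Ω).injective (by rw [h0, map_one])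
      have h2 : ((s : RingAut Ω) ^ m) y = (FrobA p Ω ^ c) y := by
        have h3 := hχ' ⟨g⁻¹ * s ^ m * g, hmem⟩ x₀
        rw [← hc] at h3
        have h4 : (((g : RingAut Ω)⁻¹ * (s : RingAut Ω) ^ m * (g : RingAut Ω)) : RingAut Ω)
            (φ k₀ j₀ x₀) = (FrobA p Ω ^ c) (φ k₀ j₀ x₀) := h3
        have h5 : (g : RingAut Ω).symm (((s : RingAut Ω) ^ m) y)
            = (FrobA p Ω ^ c) (φ k₀ j₀ x₀) := h4
        rw [RingEquiv.symm_apply_eq, FrobA_zpow_comm] at h5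
        exact h5
      obtain ⟨m', hm', h6⟩ := horb k j s hs y
      have h7 : ∀ i : ℕ, (((s : RingAut Ω) ^ m) ^ i) y = (FrobA p Ω ^ (c * i)) y := by
        intro i
        induction i with
        | zero => simp
        | succ i ih =>
          rw [pow_succ']
          show ((s : RingAut Ω) ^ m) ((((s : RingAut Ω) ^ m) ^ i) y) = _
          rw [ih, FrobA_zpow_comm, h2, FrobA_zpow_add]
          congr 2
          push_cast
          ring
      have h8 : ∀ i : ℕ, (((s : RingAut Ω) ^ m') ^ i) y = y := by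
        intro i
        induction i with
        | zero => simp
        | succ i ih =>
          rw [pow_succ']
          show ((s : RingAut Ω) ^ m') ((((s : RingAut Ω) ^ m') ^ i) y) = _
          rw [ih, h6]
      have h9 : (FrobA p Ω ^ (c * m')) y = y := by
        rw [← h7, ← pow_mul, mul_comm, pow_mul, h8]
      have h10 := FrobA_zpow_fix hy0 hyinf h9
      have h11 : c = 0 := by
        rcases mul_eq_zero.1 h10 with h | h
        · exact h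
        · exact absurd (Int.natCast_eq_zero.1 h) hm'.ne'
      apply Multiplicative.toAdd.injective
      exact h11
    have : Finite (Γ ⧸ H) := inferInstance
    let : Fintype (Quotient (MulAction.orbitRel (Subgroup.zpowers s) (Γ ⧸ H))) :=
      Fintype.ofFinite _
    have h1 : τ s = _ := MonoidHom.transfer_eq_prod_quotient_orbitRel_zpowers_quot χ' s
    rw [h1]
    exact Finset.prod_eq_one fun q _ => hone _ _ _
  -- the generator
  obtain ⟨w, N, hN, hfN, hw⟩ : ∃ (w : Γ) (N : ℕ), 0 < N ∧ τ f = τ w ^ N ∧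
      ∀ s, ∃ i : ℤ, τ s = τ w ^ i := by
    obtain ⟨⟨e, w₀, he⟩, hgen⟩ := IsCyclic.exists_generator (α := τ.range)
    have h1 : ∀ s, ∃ i : ℤ, τ s = τ w₀ ^ i := by
      intro s
      obtain ⟨i, hi⟩ := hgen ⟨τ s, s, rfl⟩
      refine ⟨i, ?_⟩
      have := congrArg Subtype.val hi
      rw [he]
      exact this.symm
    obtain ⟨i, hi⟩ := h1 f
    have hi0 : i ≠ 0 := by
      rintro rfl
      rw [zpow_zero] at hi
      rw [hi] at hτf
      have : (H.index : ℤ) = 0 := hτf.symm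
      omega
    rcases lt_or_gt_of_ne hi0 with hneg | hpos
    · refine ⟨w₀⁻¹, i.natAbs, Int.natAbs_pos.2 hi0, ?_, fun s => ?_⟩
      · rw [hi, map_inv, ← zpow_natCast, inv_zpow', Int.natCast_natAbs, abs_of_neg hneg, neg_neg]
      · obtain ⟨a, ha⟩ := h1 s
        exact ⟨-a, by rw [ha, map_inv, inv_zpow', neg_neg]⟩
    · refine ⟨w₀, i.natAbs, Int.natAbs_pos.2 hi0, ?_, h1⟩
      rw [hi, ← zpow_natCast, Int.natCast_natAbs, abs_of_pos hpos]
  have hmem : ∀ {s : RingAut Ω} (hs : s ∈ Γ), s ∈ τ.ker.map Γ.subtype ↔ τ ⟨s, hs⟩ = 1 := by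
    intro s hs
    constructor
    · rintro ⟨a, ha, rfl⟩
      exact ha
    · intro h
      exact ⟨⟨s, hs⟩, h, rfl⟩
  have hle1 : ∀ k j, FixH (φ k j) ≤ τ.ker.map Γ.subtype := fun k j s hs =>
    (hmem (hle k j hs)).2 (hτ1 k j ⟨s, hle k j hs⟩ hs)
  have hΓ1 : τ.ker.map Γ.subtype ≤ Γ := by
    rintro _ ⟨a, _, rfl⟩
    exact a.2
  refine ⟨τ.ker.map Γ.subtype, w, N, hΓ1, w.2, hN, fun s hs => ?_, ?_, fun s hs a ha => ?_,
    fun k j => ⟨hle1 k j, ?_⟩⟩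
  · obtain ⟨i, hi⟩ := hw ⟨s, hs⟩
    refine ⟨i, (hmem (Γ.mul_mem (Γ.zpow_mem w.2 _) hs)).2 ?_⟩
    have e : (⟨(w : RingAut Ω) ^ (-i) * s, Γ.mul_mem (Γ.zpow_mem w.2 _) hs⟩ : Γ)
        = w ^ (-i) * ⟨s, hs⟩ := rfl
    rw [e, map_mul, map_zpow, hi, ← zpow_add, neg_add_cancel, zpow_zero]
  · refine (hmem (Γ.mul_mem (Γ.zpow_mem w.2 _) hF)).2 ?_
    have e : (⟨(w : RingAut Ω) ^ (-(N : ℤ)) * FrobA p Ω, Γ.mul_mem (Γ.zpow_mem w.2 _) hF⟩ : Γ)
        = w ^ (-(N : ℤ)) * f := rfl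
    rw [e, map_mul, map_zpow, hfN, ← zpow_natCast, ← zpow_add, neg_add_cancel, zpow_zero]
  · have haΓ := hΓ1 ha
    refine (hmem (Γ.mul_mem (Γ.mul_mem hs haΓ) (Γ.inv_mem hs))).2 ?_
    have e : (⟨s * a * s⁻¹, Γ.mul_mem (Γ.mul_mem hs haΓ) (Γ.inv_mem hs)⟩ : Γ)
        = ⟨s, hs⟩ * ⟨a, haΓ⟩ * ⟨s, hs⟩⁻¹ := rfl
    rw [e, map_mul, map_mul, map_inv, (hmem haΓ).1 ha, mul_one, mul_inv_cancel]
  · have h1 : (DelH p (φ k j)).relIndex (τ.ker.map Γ.subtype) ≠ 0 := fun h0 =>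
      hrelD k j (Subgroup.relIndex_eq_zero_of_le_right hΓ1 h0)
    have h2 : DelH p (φ k j) ⊓ τ.ker.map Γ.subtype ≤ FixH (φ k j) := by
      rintro s ⟨⟨c, hc⟩, hs⟩
      have h3 := mul_mem_FixH hc
      have h4 := (hmem (hΓ1 hs)).1 hs
      have h5 := (hmem (hle k j h3)).1 (hle1 k j h3)
      have e : (⟨FrobA p Ω ^ (-c) * s, hle k j h3⟩ : Γ) = f ^ (-c) * ⟨s, hΓ1 hs⟩ := rfl
      rw [e, map_mul, h4, mul_one, map_zpow] at h5
      have h6 : (-c) * Multiplicative.toAdd (τ f) = 0 := by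
        have := congrArg Multiplicative.toAdd h5
        rw [toAdd_zpow, smul_eq_mul] at this
        exact this
      rw [hτf] at h6
      have h7 : c = 0 := by
        rcases mul_eq_zero.1 h6 with h | h
        · omega
        · omega
      subst h7
      intro x
      have := hc x
      rw [zpow_zero] at this
      exact this
    intro h0
    refine h1 ?_
    rw [← Subgroup.inf_relIndex_right]
    have h8 : DelH p (φ k j) ⊓ τ.ker.map Γ.subtype = FixH (φ k j) :=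
      le_antisymm h2 (le_inf (FixH_le_DelH _) (hle1 k j))
    rw [h8]
    exact h0

end MP35
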