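import Pool.Agent.Lib_MP_3538b5_al.QDefs
import Pool.Agent.Lib_MP_3538b5_al.FLR2
import Pool.Agent.Lib_MP_3538b5_al.RLoc
import Pool.Agent.Lib_MP_3538b5_al.RVal

/-! # Piece QLR: elements of `CC` which kill the scalars are in the linear range

Owner: helper43. The work is done in `FLR2.lean` (`Rep.exists_LR`). -/

set_option autoImplicit false

namespace MP35

universe u v w

section val

variable {T : Type u} [CommRing T] {Ω : Type v} [Field Ω] [Algebra T Ω] {Γ₀ : Type w}
  [LinearOrderedCommGroupWithZero Γ₀] (ν : Valuation Ω Γ₀)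
  (hν : ∀ t : T, ν (algebraMap T Ω t) ≤ 1)

/-- the elements of valuation at most `γ` -/
def valSub (γ : Γ₀) : Submodule T Ω where
  carrier := {x | ν x ≤ γ}
  zero_mem' := by
    show ν 0 ≤ γ
    rw [map_zero]
    exact zero_le
  add_mem' ha hb := ν.map_add_le ha hb
  smul_mem' t x hx := by
    show ν (t • x) ≤ γ
    rw [Algebra.smul_def, map_mul]
    exact (mul_le_mul' (hν t) hx).trans (one_mul γ).le

theorem valSub_mul (a b : Γ₀) : valSub ν hν a * valSub ν hν b ≤ valSub ν hν (a * b) := by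
  rw [Submodule.mul_le]
  intro x hx y hy
  show ν (x * y) ≤ a * b
  rw [map_mul]
  exact mul_le_mul' hx hy

include hν in
theorem val_le_one_of_isIntegral {x : Ω} (hx : IsIntegral T x) : ν x ≤ 1 := by
  have h := mem_of_isIntegral (O := ν.valuationSubring)
    (fun t => (Valuation.mem_valuationSubring_iff ν _).2 (hν t)) hx
  exact (Valuation.mem_valuationSubring_iff ν _).1 h

end val

variable {p : ℕ} [Fact p.Prime] {G : Type u} [Group G] [TopologicalSpace G] [IsTopologicalGroup G]
  [CompactSpace G] [T2Space G] [TotallyDisconnectedSpace G] {T : Type v} [CommRing T]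
  [TopologicalSpace T] [CNR T] [IsDomain T] {Ω : Type v} [Field Ω] [IsAlgClosed Ω] [CharP Ω p]
  [Algebra T Ω] {n : ℕ} {R : Rep p G T Ω n}

/-- Elements of the closed ring generated by `Ad G` which kill the scalars are in the linear range. -/
theorem LR_of_CC {k : ℕ} (hR : MCore R k) {c : Module.End Ω (Matrix (Fin n) (Fin n) Ω)}
    (hc : c ∈ R.CC) (h1 : c 1 = 0) : LR R c := by
  have halg := hR.alg
  by_cases htn : ∃ ϖ : T, ϖ ≠ 0 ∧ IsTopologicallyNilpotent ϖ
  · obtain ⟨ϖ, h0, hϖ⟩ := htn
    obtain ⟨d, hd, -, h⟩ := R.exists_LR h0 hϖ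
    refine ⟨d, hd, fun N hN hNc z hz lam X _ hzX hX => ?_⟩
    obtain ⟨z', hz', T', hT', h⟩ := h c hc h1 N hN hNc z hz lam X hzX hX
    refine ⟨z', hz', fun Γ₀ _ ν hν μ hμ i j => ?_⟩
    have h2 : Submodule.span T {x | ∃ k l, x = X k l} ≤ valSub ν hν μ := by
      rw [Submodule.span_le]
      rintro _ ⟨k, l, rfl⟩
      exact hμ k l
    have h3 : Subalgebra.toSubmodule T' ≤ valSub ν hν 1 := by
      intro x hx
      have h4 : IsIntegral T (⟨x, hx⟩ : T') := Algebra.IsIntegral.isIntegral _
      exact val_le_one_of_isIntegral ν hν (h4.algebraMap (B := Ω))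
    have h5 := ((smono ((smono h2 h2).trans (valSub_mul ν hν μ μ)) h3).trans
      (valSub_mul ν hν _ _)) (h i j)
    have h6 : ν (algebraMap T Ω d * (R.ρ z' - 1 - c X) i j) ≤ μ * μ * 1 := h5
    rwa [mul_one, ← pow_two] at h6
  · push Not at htn
    refine ⟨1, one_ne_zero, fun N hN hNc z hz lam X _ hzX hX => ⟨1, N.one_mem, ?_⟩⟩
    intro Γ₀ _ ν hν μ hμ i j
    have hunit : ∀ t : T, t ≠ 0 → IsUnit t := fun t ht =>
      (isUnit_or_tn t).resolve_right (htn t ht)
    have hint : ∀ x : Ω, IsIntegral T x := by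
      intro x
      obtain ⟨y, hy, hyx⟩ := (halg.isAlgebraic x).exists_integral_multiple
      obtain ⟨u, rfl⟩ := hunit y hy
      have h2 : IsIntegral T ((↑u⁻¹ : T) • (u : T) • x) := hyx.smul _
      rwa [smul_smul, Units.inv_mul, one_smul] at h2
    by_cases hX0 : X = 0
    · have e : R.ρ 1 - 1 - c X = 0 := by rw [hX0, map_zero, map_one, sub_self, sub_zero]
      rw [e, Matrix.zero_apply, mul_zero, map_zero]
      exact zero_le
    · have h2 : ∃ k l, X k l ≠ 0 := by
        by_contra hne
        push Not at hne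
        exact hX0 (Matrix.ext hne)
      obtain ⟨k, l, hkl⟩ := h2
      have h3 : 1 ≤ μ := by
        have h4 := val_le_one_of_isIntegral ν hν (hint (X k l)⁻¹)
        rw [map_inv₀] at h4
        have h5 : 1 ≤ ν (X k l) := by
          have h6 : 0 < ν (X k l) := (zero_lt_iff).2 ((Valuation.ne_zero_iff ν).2 hkl)
          exact (inv_le_one₀ h6).1 h4
        exact h5.trans (hμ k l)
      refine (val_le_one_of_isIntegral ν hν (hint _)).trans ?_
      exact one_le_pow₀ h3

end MP35
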