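import Pool.Agent.Lib_MP_3538b5_al.QDefs
import Pool.Agent.Lib_MP_3538b5_al.RInt

/-! # Piece QCTS: continuous functions into finite subalgebras -/

set_option autoImplicit false

namespace MP35

universe u v w x y

variable {T : Type v} [CommRing T] [TopologicalSpace T] [CNR T] {Ω : Type v} [Field Ω]
  [Algebra T Ω] {X : Type x} [TopologicalSpace X]

/-- PROOF. The inclusion `B → B'` is `T`-linear, so continuous for the module topologies (`IsModuleTopology.continuous_of_linearMap`). -/
theorem CtsInto.mono {B B' : Subalgebra T Ω} (h : B ≤ B') {f : X → Ω} (hf : CtsInto T B f) :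
    CtsInto T B' f := by
  obtain ⟨hB, hc⟩ := hf
  let _ : TopologicalSpace B := moduleTopology T B
  let _ : TopologicalSpace B' := moduleTopology T B'
  have : IsModuleTopology T B := ⟨rfl⟩
  have : IsModuleTopology T B' := ⟨rfl⟩
  have := IsModuleTopology.toContinuousAdd T B'
  have := IsModuleTopology.toContinuousSMul T B'
  have hi : Continuous (Subalgebra.inclusion h).toLinearMap :=
    IsModuleTopology.continuous_of_linearMap _
  exact ⟨fun a => h (hB a), hi.comp hc⟩

/-- PROOF. `Algebra.adjoin T {c}` is a finite module for integral `c`; a constant function is continuous. -/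
theorem CtsInt.const {c : Ω} (hc : IsIntegral T c) : CtsInt T fun _ : X => c := by
  refine ⟨Algebra.adjoin T {c}, Module.Finite.iff_fg.2 hc.fg_adjoin_singleton,
    fun _ => Algebra.subset_adjoin rfl, ?_⟩
  let _ : TopologicalSpace (Algebra.adjoin T {c}) := moduleTopology T (Algebra.adjoin T {c})
  exact continuous_const

/-- two functions into a common subalgebra -/
theorem CtsInt.common {f f' : X → Ω} (hf : CtsInt T f) (hf' : CtsInt T f') :
    ∃ B : Subalgebra T Ω, Module.Finite T B ∧ CtsInto T B f ∧ CtsInto T B f' := by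
  obtain ⟨B, hB, h⟩ := hf
  obtain ⟨B', hB', h'⟩ := hf'
  exact ⟨B ⊔ B', Subalgebra.finite_sup B B', h.mono le_sup_left, h'.mono le_sup_right⟩

/-- PROOF. `f`, `f'` are continuous into finite subalgebras `B`, `B'`, so both into `B ⊔ B'` (finite: `Subalgebra.finite_sup`; `CtsInto.mono`), a topological ring (`IsModuleTopology.isTopologicalRing`). -/
theorem CtsInt.add {f f' : X → Ω} (hf : CtsInt T f) (hf' : CtsInt T f') :
    CtsInt T fun a => f a + f' a := by
  obtain ⟨B, hB, ⟨h, hc⟩, ⟨h', hc'⟩⟩ := hf.common hf'
  refine ⟨B, hB, fun a => B.add_mem (h a) (h' a), ?_⟩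
  let _ : TopologicalSpace B := moduleTopology T B
  have : IsModuleTopology T B := ⟨rfl⟩
  have := IsModuleTopology.isTopologicalRing T B
  exact hc.add hc'

/-- PROOF. As `CtsInt.add`. -/
theorem CtsInt.mul {f f' : X → Ω} (hf : CtsInt T f) (hf' : CtsInt T f') :
    CtsInt T fun a => f a * f' a := by
  obtain ⟨B, hB, ⟨h, hc⟩, ⟨h', hc'⟩⟩ := hf.common hf'
  refine ⟨B, hB, fun a => B.mul_mem (h a) (h' a), ?_⟩
  let _ : TopologicalSpace B := moduleTopology T B
  have : IsModuleTopology T B := ⟨rfl⟩
  have := IsModuleTopology.isTopologicalRing T B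
  exact hc.mul hc'

/-- PROOF. Induction on `k`, `CtsInt.mul`, `CtsInt.const` for `c = 1`. -/
theorem CtsInt.pow {f : X → Ω} (hf : CtsInt T f) (k : ℕ) : CtsInt T fun a => f a ^ k := by
  induction k with
  | zero =>
    simp only [pow_zero]
    exact CtsInt.const isIntegral_one
  | succ k ih =>
    simp only [pow_succ]
    exact ih.mul hf

/-- PROOF. `MvPolynomial.induction_on`, `CtsInt.add`, `CtsInt.mul`, `CtsInt.const` (the elements of `ZMod p` are mapped to images of natural numbers, so integral). -/
theorem CtsInt.aeval {p : ℕ} [Fact p.Prime] [Algebra (ZMod p) Ω] {ι : Type y} {f : ι → X → Ω}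
    (hf : ∀ i, CtsInt T (f i)) (P : MvPolynomial ι (ZMod p)) :
    CtsInt T fun a => MvPolynomial.aeval (fun i => f i a) P := by
  induction P using MvPolynomial.induction_on with
  | C c =>
    simp only [MvPolynomial.aeval_C]
    apply CtsInt.const
    rw [← ZMod.natCast_zmod_val c, map_natCast, ← map_natCast (algebraMap T Ω)]
    exact isIntegral_algebraMap
  | add P Q hP hQ =>
    simp only [map_add]
    exact hP.add hQ
  | mul_X P i hP =>
    simp only [map_mul, MvPolynomial.aeval_X]
    exact hP.mul (hf i)

/-- PROOF. `f` is continuous into `B` finite, `s` maps `B` continuously into `B'` finite. -/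
theorem CtsInt.aut {s : RingAut Ω} (hs : CtsAut T s) {f : X → Ω} (hf : CtsInt T f) :
    CtsInt T fun a => s (f a) := by
  obtain ⟨B, hB, h, hc⟩ := hf
  obtain ⟨B', hB', h', hc'⟩ := hs B hB
  refine ⟨B', hB', fun a => h' _ (h a), ?_⟩
  let _ : TopologicalSpace B := moduleTopology T B
  let _ : TopologicalSpace B' := moduleTopology T B'
  exact hc'.comp hc

/-- PROOF. `f` is continuous into `B` finite, and `B` is Hausdorff (`t2_of_finite`), so `{0}` is closed in `B`. -/
theorem CtsInt.isClosed_zero {f : X → Ω} (hf : CtsInt T f) : IsClosed {a | f a = 0} := by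
  obtain ⟨B, hB, h, hc⟩ := hf
  let _ : TopologicalSpace B := moduleTopology T B
  have : IsModuleTopology T B := ⟨rfl⟩
  have := t2_of_finite T B
  have h1 := (isClosed_singleton (x := (0 : B))).preimage hc
  convert h1 using 1
  ext a
  constructor
  · intro ha
    exact Subtype.ext ha
  · intro ha
    exact congrArg Subtype.val ha

/-- PROOF. `x` is in the finite subalgebra `Algebra.adjoin T {x}`, `s x` is in a finite subalgebra (`IsIntegral.of_mem_of_fg` or `Algebra.IsIntegral.of_finite`). -/
theorem CtsAut.isIntegral {s : RingAut Ω} (hs : CtsAut T s) {x : Ω} (hx : IsIntegral T x) :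
    IsIntegral T (s x) := by
  obtain ⟨B, hB, h, -⟩ := hs (Algebra.adjoin T {x}) (Module.Finite.iff_fg.2 hx.fg_adjoin_singleton)
  have h1 : s x ∈ B := h x (Algebra.subset_adjoin rfl)
  have h2 : IsIntegral T (⟨s x, h1⟩ : B) := Algebra.IsIntegral.isIntegral _
  exact h2.algebraMap (B := Ω)

/-- PROOF. `a ↦ trace a` is a `T`-linear map from `R.A` to `Ω`; its range `N₀` is a finite `T`-module of integral elements (the trace of `a ∈ R.A` is the sum of the eigenvalues, `Matrix.trace_eq_sum_roots_charpoly`,
and the eigenvalues are integral: `a` is integral over `T` as an element of the finite algebra `R.A`, so a root of a monic `f` over `T`, and every eigenvalue of `a` is a root of `f`; this is `Rep.isIntegral_root` in RInt). `B = Algebra.adjoin T N₀` is a finite algebra, and the linear map `R.A → B` is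
continuous; `g ↦ R.j g` is continuous. -/
theorem Rep.ctsInt_trace {p : ℕ} {G : Type u} [Group G] [TopologicalSpace G] [IsAlgClosed Ω] {n : ℕ}
    (R : Rep p G T Ω n) : CtsInt T fun g => (R.ρ g).trace := by
  classical
  let tr : R.A →ₗ[T] Ω :=
    { toFun := fun a => (a : Matrix (Fin n) (Fin n) Ω).trace
      map_add' := fun a b => Matrix.trace_add _ _
      map_smul' := fun t a => Matrix.trace_smul _ _ }
  have hint : ∀ a : R.A, IsIntegral T (tr a) := by
    intro a
    show IsIntegral T (a : Matrix (Fin n) (Fin n) Ω).trace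
    rw [Matrix.trace_eq_sum_roots_charpoly]
    refine IsIntegral.multiset_sum fun μ hμ => ?_
    exact R.isIntegral_root a.2 (Polynomial.isRoot_of_mem_roots hμ)
  obtain ⟨S, hS⟩ := (Module.Finite.iff_fg.1 (Module.Finite.range tr) : (LinearMap.range tr).FG)
  have hSint : ∀ x ∈ (S : Set Ω), IsIntegral T x := by
    intro x hx
    have h2 : x ∈ LinearMap.range tr := by rw [← hS]; exact Submodule.subset_span hx
    obtain ⟨a, rfl⟩ := h2
    exact hint a
  have hfin : Module.Finite T (Algebra.adjoin T (S : Set Ω)) :=
    Module.Finite.iff_fg.2 (fg_adjoin_of_finite S.finite_toSet hSint)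
  have hmem : ∀ a, tr a ∈ Algebra.adjoin T (S : Set Ω) := by
    intro a
    have h3 : tr a ∈ Submodule.span T (S : Set Ω) := by rw [hS]; exact ⟨a, rfl⟩
    exact (Submodule.span_le.2 (show (S : Set Ω) ⊆ (Subalgebra.toSubmodule
      (Algebra.adjoin T (S : Set Ω)) : Set Ω) from Algebra.subset_adjoin)) h3
  refine ⟨Algebra.adjoin T (S : Set Ω), hfin, fun g => hmem (R.j g), ?_⟩
  let _ : TopologicalSpace (Algebra.adjoin T (S : Set Ω)) :=
    moduleTopology T (Algebra.adjoin T (S : Set Ω))
  have : IsModuleTopology T (Algebra.adjoin T (S : Set Ω)) := ⟨rfl⟩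
  have := IsModuleTopology.toContinuousAdd T (Algebra.adjoin T (S : Set Ω))
  have := IsModuleTopology.toContinuousSMul T (Algebra.adjoin T (S : Set Ω))
  let tr' : R.A →ₗ[T] Algebra.adjoin T (S : Set Ω) :=
    { toFun := fun a => ⟨tr a, hmem a⟩
      map_add' := fun a b => Subtype.ext (map_add tr a b)
      map_smul' := fun t a => Subtype.ext (map_smul tr t a) }
  have hc : Continuous tr' := IsModuleTopology.continuous_of_linearMap _
  exact hc.comp R.cont_j

end MP35
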