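import Pool.Agent.Lib_MP_3538b5_al.QGood
import Pool.Agent.Lib_MP_3538b5_al.QCts
import Pool.Agent.Lib_MP_3538b5_al.QFrob
import Pool.Agent.Lib_MP_3538b5_al.RFinOver

/-! # Piece QRING: the ring of common scalars -/

set_option autoImplicit false

namespace MP35

universe u v w x y

section QRingHelpers

variable {T : Type v} [CommRing T] [TopologicalSpace T] [CNR T] {Ω : Type v} [Field Ω]
  [Algebra T Ω]

private theorem QR_cnr (B : Subalgebra T Ω) (_hB : Module.Finite T B) :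
    @CNR B _ (moduleTopology T B) := by
  let _ : TopologicalSpace B := moduleTopology T B
  have : IsModuleTopology T B := ⟨rfl⟩
  exact cnr_of_finite T B

private theorem QR_cont_incl {B B' : Subalgebra T Ω} (_hB : Module.Finite T B)
    (hB' : Module.Finite T B') (h : B ≤ B') :
    @Continuous B B' (moduleTopology T B) (moduleTopology T B') (Subalgebra.inclusion h) := by
  let _ : TopologicalSpace B := moduleTopology T B
  have : IsModuleTopology T B := ⟨rfl⟩
  let _ : TopologicalSpace B' := moduleTopology T B'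
  have : IsModuleTopology T B' := ⟨rfl⟩
  have := cnr_of_finite T B'
  have : ContinuousSMul T B' := IsModuleTopology.toContinuousSMul T B'
  exact IsModuleTopology.continuous_of_linearMap (Subalgebra.inclusion h).toLinearMap

omit [TopologicalSpace T] [CNR T] in
private theorem QR_fin_adjoin {X : Set Ω} (hX : X.Finite) (hi : ∀ x ∈ X, IsIntegral T x) :
    Module.Finite T (Algebra.adjoin T X) :=
  ⟨(Submodule.fg_top _).2 (fg_adjoin_of_finite hX hi)⟩

omit [TopologicalSpace T] [CNR T] in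
private theorem QR_int {B : Subalgebra T Ω} (hB : Module.Finite T B) {x : Ω} (hx : x ∈ B) :
    IsIntegral T x :=
  IsIntegral.of_mem_of_fg B ((Submodule.fg_top _).1 hB.1) x hx

private theorem QR_tn_iff {B : Subalgebra T Ω} (hB : Module.Finite T B) {x : Ω} (hx : x ∈ B) :
    @IsTopologicallyNilpotent B _ (moduleTopology T B) ⟨x, hx⟩ ↔ (x = 0 ∨ ¬ IsIntegral T x⁻¹) := by
  constructor
  · intro h
    by_contra hne
    rw [not_or, not_not] at hne
    obtain ⟨hx0, hxi⟩ := hne
    have hB₁ : Module.Finite T (Algebra.adjoin T {x⁻¹}) :=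
      QR_fin_adjoin (Set.finite_singleton _) fun y hy => by
        rw [Set.mem_singleton_iff.1 hy]; exact hxi
    let B' : Subalgebra T Ω := B ⊔ Algebra.adjoin T {x⁻¹}
    have hB' : Module.Finite T B' := Subalgebra.finite_sup _ _
    have hle : B ≤ B' := le_sup_left
    have hc := QR_cont_incl hB hB' hle
    let _ : TopologicalSpace B := moduleTopology T B
    let _ : TopologicalSpace B' := moduleTopology T B'
    have : CNR B' := QR_cnr B' hB'
    have h1 : IsTopologicallyNilpotent (Subalgebra.inclusion hle ⟨x, hx⟩) := h.map hc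
    refine not_isUnit_of_tn h1 ?_
    have hxm : x⁻¹ ∈ B' := (le_sup_right : Algebra.adjoin T {x⁻¹} ≤ B')
      (Algebra.subset_adjoin (Set.mem_singleton _))
    refine IsUnit.of_mul_eq_one (⟨x⁻¹, hxm⟩ : B') (Subtype.ext ?_)
    exact mul_inv_cancel₀ hx0
  · intro h
    let _ : TopologicalSpace B := moduleTopology T B
    have : CNR B := QR_cnr B hB
    refine (isUnit_or_tn (⟨x, hx⟩ : B)).resolve_left fun hu => ?_
    obtain ⟨y, hy⟩ := isUnit_iff_exists_inv.1 hu
    have h1 : x * (y : Ω) = 1 := congrArg Subtype.val hy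
    have hx0 : x ≠ 0 := left_ne_zero_of_mul (by rw [h1]; exact one_ne_zero)
    have h2 : x⁻¹ = (y : Ω) := (eq_inv_of_mul_eq_one_right h1).symm
    refine h.elim hx0 fun h3 => h3 ?_
    rw [h2]
    exact QR_int hB y.2

/-- integral and not a unit -/
private def QR_N (T : Type v) [CommRing T] {Ω : Type v} [Field Ω] [Algebra T Ω] (x : Ω) : Prop :=
  IsIntegral T x ∧ (x = 0 ∨ ¬ IsIntegral T x⁻¹)

private theorem QR_N_aut {s : RingAut Ω} (hs : CtsAut T s) (hs' : CtsAut T s⁻¹) {x : Ω}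
    (hx : QR_N T x) : QR_N T (s x) := by
  refine ⟨hs.isIntegral hx.1, ?_⟩
  rcases hx.2 with h | h
  · left; rw [h, map_zero]
  · right
    intro h1
    apply h
    have h2 := hs'.isIntegral h1
    rw [← map_inv₀] at h2
    have h3 : s⁻¹ (s x⁻¹) = x⁻¹ := s.symm_apply_apply _
    rwa [h3] at h2

private theorem QR_N_good {S : Type x} [CommRing S] [TopologicalSpace S] {φ : S →+* Ω}
    (hφ : GoodHom T φ) {t : S} (ht : IsTopologicallyNilpotent t) : QR_N T (φ t) := by
  obtain ⟨B, hB, h, hc, -⟩ := hφ.ex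
  refine ⟨QR_int hB (h t), (QR_tn_iff hB (h t)).1 ?_⟩
  let _ : TopologicalSpace B := moduleTopology T B
  exact ht.map hc

private theorem QR_coeff (F : Finset Ω) (hF : ∀ x ∈ F, QR_N T x) {i : ℕ} (hi : i < F.card) :
    QR_N T ((∏ x ∈ F, (Polynomial.X - Polynomial.C x)).coeff i) := by
  classical
  let B : Subalgebra T Ω := Algebra.adjoin T (F : Set Ω)
  have hB : Module.Finite T B := QR_fin_adjoin F.finite_toSet fun x hx => (hF x hx).1
  have hFB : ∀ x ∈ F, x ∈ B := fun x hx => Algebra.subset_adjoin hx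
  let _ : TopologicalSpace B := moduleTopology T B
  have : CNR B := QR_cnr B hB
  have : IsLocalRing B := isLocalRing_of_cnr B
  let P : Polynomial B := ∏ x ∈ F.attach, (Polynomial.X - Polynomial.C ⟨x.1, hFB x.1 x.2⟩)
  have h1 : P.map (algebraMap B Ω) = ∏ x ∈ F, (Polynomial.X - Polynomial.C x) := by
    rw [Polynomial.map_prod, ← Finset.prod_attach F]
    refine Finset.prod_congr rfl fun x _ => ?_
    rw [Polynomial.map_sub, Polynomial.map_X, Polynomial.map_C]
    rfl
  have h2 : P.map (IsLocalRing.residue B) = Polynomial.X ^ F.card := by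
    rw [Polynomial.map_prod, ← Finset.card_attach, ← Finset.prod_const]
    refine Finset.prod_congr rfl fun x _ => ?_
    have h3 : IsLocalRing.residue B ⟨x.1, hFB x.1 x.2⟩ = 0 := by
      rw [IsLocalRing.residue_eq_zero_iff, mem_maximalIdeal_iff]
      exact (QR_tn_iff hB (hFB x.1 x.2)).2 (hF x.1 x.2).2
    rw [Polynomial.map_sub, Polynomial.map_X, Polynomial.map_C, h3, map_zero, sub_zero]
  have h4 : IsTopologicallyNilpotent (P.coeff i) := by
    rw [← mem_maximalIdeal_iff, ← IsLocalRing.residue_eq_zero_iff, ← Polynomial.coeff_map, h2,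
      Polynomial.coeff_X_pow, if_neg hi.ne]
  have h5 : (∏ x ∈ F, (Polynomial.X - Polynomial.C x)).coeff i = (P.coeff i : Ω) := by
    rw [← h1, Polynomial.coeff_map]
    rfl
  rw [h5]
  exact ⟨QR_int hB (P.coeff i).2, (QR_tn_iff hB (P.coeff i).2).1 h4⟩

omit [TopologicalSpace T] [CNR T] [Algebra T Ω] in
private theorem QR_map_prod (F : Finset Ω) (s : RingAut Ω) (hs : ∀ x ∈ F, s x ∈ F) (i : ℕ) :
    s ((∏ x ∈ F, (Polynomial.X - Polynomial.C x)).coeff i)
      = (∏ x ∈ F, (Polynomial.X - Polynomial.C x)).coeff i := by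
  classical
  have h1 : (∏ x ∈ F, (Polynomial.X - Polynomial.C x)).map (s : Ω →+* Ω)
      = ∏ x ∈ F, (Polynomial.X - Polynomial.C x) := by
    rw [Polynomial.map_prod]
    have h2 : F.image s = F :=
      Finset.eq_of_subset_of_card_le (Finset.image_subset_iff.2 hs)
        (by rw [Finset.card_image_of_injective _ s.injective])
    conv_rhs => rw [← h2, Finset.prod_image fun a _ b _ h => s.injective h]
    refine Finset.prod_congr rfl fun x _ => ?_
    rw [Polynomial.map_sub, Polynomial.map_X, Polynomial.map_C]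
    rfl
  conv_rhs => rw [← h1, Polynomial.coeff_map]
  rfl

omit [TopologicalSpace T] [CNR T] [Algebra T Ω] in
private theorem QR_orbit {S : Type x} [CommRing S] (φ : S →+* Ω) (Γ₁ : Subgroup (RingAut Ω))
    (hrel : (FixH φ).relIndex Γ₁ ≠ 0) (t : S) : {x : Ω | ∃ s ∈ Γ₁, s (φ t) = x}.Finite := by
  have h1 : ((FixH φ).subgroupOf Γ₁).FiniteIndex := ⟨hrel⟩
  have h2 : Finite (Γ₁ ⧸ (FixH φ).subgroupOf Γ₁) := inferInstance
  refine (Set.finite_range fun q : Γ₁ ⧸ (FixH φ).subgroupOf Γ₁ =>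
    ((q.out : Γ₁) : RingAut Ω) (φ t)).subset ?_
  rintro x ⟨s, hs, rfl⟩
  refine ⟨((⟨s, hs⟩ : Γ₁) : Γ₁ ⧸ (FixH φ).subgroupOf Γ₁), ?_⟩
  obtain ⟨h, hh⟩ := QuotientGroup.mk_out_eq_mul ((FixH φ).subgroupOf Γ₁) ⟨s, hs⟩
  show (((((⟨s, hs⟩ : Γ₁) : Γ₁ ⧸ (FixH φ).subgroupOf Γ₁)).out : Γ₁) : RingAut Ω) (φ t) = s (φ t)
  rw [hh]
  have h3 : ((h : Γ₁) : RingAut Ω) (φ t) = φ t := by
    have h4 := h.2
    rw [Subgroup.mem_subgroupOf, mem_FixH] at h4
    exact h4 t
  show s (((h : Γ₁) : RingAut Ω) (φ t)) = s (φ t)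
  rw [h3]


private theorem QR_cts {s : RingAut Ω} (hs : CtsAut T s) {B : Subalgebra T Ω}
    (hB : Module.Finite T B) : ∃ B' : Subalgebra T Ω, Module.Finite T B' ∧
      ∃ (h : B ≤ B') (h' : ∀ b ∈ B, s b ∈ B'),
        @Continuous B B' (moduleTopology T B) (moduleTopology T B') (Subalgebra.inclusion h) ∧
        @Continuous B B' (moduleTopology T B) (moduleTopology T B') fun b => ⟨s b, h' b b.2⟩ := by
  obtain ⟨B₁, hB₁, h₁, hc₁⟩ := hs B hB
  have hB' : Module.Finite T (B ⊔ B₁ : Subalgebra T Ω) := Subalgebra.finite_sup _ _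
  refine ⟨B ⊔ B₁, hB', le_sup_left, fun b hb => (le_sup_right : B₁ ≤ B ⊔ B₁) (h₁ b hb),
    QR_cont_incl hB hB' le_sup_left, ?_⟩
  have h2 := QR_cont_incl hB₁ hB' (le_sup_right : B₁ ≤ B ⊔ B₁)
  let _ : TopologicalSpace B := moduleTopology T B
  let _ : TopologicalSpace B₁ := moduleTopology T B₁
  let _ : TopologicalSpace (B ⊔ B₁ : Subalgebra T Ω) := moduleTopology T (B ⊔ B₁ : Subalgebra T Ω)
  exact h2.comp hc₁


private theorem QR_monic_root (O : Finset Ω) {y : Ω} (hy : y ∈ O) :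
    y ^ O.card = -∑ i ∈ (Finset.range O.card).attach,
      (∏ x ∈ O, (Polynomial.X - Polynomial.C x)).coeff i.1 * y ^ i.1 := by
  set P : Polynomial Ω := ∏ x ∈ O, (Polynomial.X - Polynomial.C x) with hP
  have hmon : P.Monic := Polynomial.monic_prod_X_sub_C _ _
  have hdeg : P.natDegree = O.card := by
    rw [hP, Polynomial.natDegree_prod_of_monic _ _ fun y _ => Polynomial.monic_X_sub_C y]
    simp
  have hroot : P.eval y = 0 := by
    rw [hP, Polynomial.eval_prod]
    refine Finset.prod_eq_zero hy ?_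
    simp
  have hsum := hmon.as_sum
  rw [hsum, Polynomial.eval_add, Polynomial.eval_pow, Polynomial.eval_X,
    Polynomial.eval_finsetSum, hdeg] at hroot
  rw [eq_neg_iff_add_eq_zero, ← hroot]
  congr 1
  rw [Finset.sum_attach (Finset.range O.card) fun i => P.coeff i * y ^ i]
  refine Finset.sum_congr rfl fun i _ => ?_
  rw [Polynomial.eval_mul, Polynomial.eval_C, Polynomial.eval_pow, Polynomial.eval_X]

omit [TopologicalSpace T] [CNR T] in
private theorem QR_prime {S : Type x} [CommRing S] [IsLocalRing S] (B : Subalgebra T Ω)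
    [IsLocalRing B] (ψ : S →+* B) (hψ : ψ.Finite) (F₁ : Finset S)
    (hF₁ : IsLocalRing.maximalIdeal S ≤ Ideal.span (F₁ : Set S)) (O : S → Finset Ω)
    (hO : ∀ t ∈ F₁, (ψ t : Ω) ∈ O t) (C : Finset Ω) (hC : ∀ t ∈ F₁, ∀ i < (O t).card,
      (∏ x ∈ O t, (Polynomial.X - Polynomial.C x)).coeff i ∈ C) (hCB : ∀ c ∈ C, c ∈ B)
    {Q : Ideal B} (hQ : Q.IsPrime) (hCQ : ∀ c (hc : c ∈ C), (⟨c, hCB c hc⟩ : B) ∈ Q) :
    Q = IsLocalRing.maximalIdeal B := by
  have hψQ : ∀ t ∈ F₁, ψ t ∈ Q := by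
    intro t ht
    have h5 : ψ t ^ (O t).card = -∑ i ∈ (Finset.range (O t).card).attach,
        (⟨(∏ x ∈ O t, (Polynomial.X - Polynomial.C x)).coeff i.1,
          hCB _ (hC t ht i.1 (Finset.mem_range.1 i.2))⟩ : B) * ψ t ^ i.1 := by
      refine Subtype.ext ?_
      simp only [Subalgebra.coe_neg, AddSubmonoidClass.coe_finsetSum, Subalgebra.coe_mul,
        Subalgebra.coe_pow]
      exact QR_monic_root (O t) (hO t ht)
    have h6 : ψ t ^ (O t).card ∈ Q := by
      rw [h5]
      exact neg_mem (sum_mem fun i _ => Q.mul_mem_right _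
        (hCQ _ (hC t ht i.1 (Finset.mem_range.1 i.2))))
    exact hQ.mem_of_pow_mem _ h6
  have hle : IsLocalRing.maximalIdeal S ≤ Q.comap ψ := by
    refine hF₁.trans ?_
    rw [Ideal.span_le]
    intro t ht
    exact hψQ t ht
  have hne : Q.comap ψ ≠ ⊤ := Ideal.comap_ne_top _ hQ.ne_top
  have heq : IsLocalRing.maximalIdeal S = Q.comap ψ :=
    (IsLocalRing.maximalIdeal.isMaximal S).eq_of_le hne hle
  have hmax : (Q.comap ψ).IsMaximal := by
    rw [← heq]
    exact IsLocalRing.maximalIdeal.isMaximal S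
  have hQmax : Q.IsMaximal :=
    Ideal.isMaximal_of_isIntegral_of_isMaximal_comap' ψ hψ.to_isIntegral Q hmax
  exact IsLocalRing.eq_maximalIdeal hQmax

private theorem QR_dense {B : Type w} [CommRing B] [TopologicalSpace B] {k : ℕ}
    (x : Fin k → B) (R : Subring B) (hR : (R : Set B) ⊆ closure (Subring.closure (Set.range x)))
    (t : Fin k → R) (ht : ∀ i, (t i : B) = x i) : Dense (Subring.closure (Set.range t) : Set R) := by
  have h1 : (Subring.closure (Set.range t)).map R.subtype = Subring.closure (Set.range x) := by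
    rw [RingHom.map_closure, ← Set.range_comp]
    congr 2
    funext i
    exact ht i
  have h2 : (Subtype.val '' (Subring.closure (Set.range t) : Set R))
        = (Subring.closure (Set.range x) : Set B) := by
    rw [← h1]
    rfl
  rw [dense_iff_closure_eq, Topology.IsInducing.subtypeVal.closure_eq_preimage_closure_image]
  refine Set.eq_univ_of_forall fun y => ?_
  show (y : B) ∈ closure (Subtype.val '' (Subring.closure (Set.range t) : Set R))
  rw [h2]
  exact hR y.2

private theorem QR_frob (p : ℕ) [Fact p.Prime] {B : Type w} [CommRing B] [CharP B p]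
    [TopologicalSpace B] [IsTopologicalRing B] [CompactSpace B] [T2Space B] {k : ℕ}
    (x : Fin k → B) (R : Subring B) (hRc : IsClosed (R : Set B))
    (hR : (R : Set B) ⊆ closure (Subring.closure (Set.range x))) (t : Fin k → R)
    (ht : ∀ i, (t i : B) = x i) (e : ℕ) : (iterateFrobenius R p e).Finite := by
  have hR'c : CompactSpace R := isCompact_iff_compactSpace.1 hRc.isCompact
  exact frob_finite_of_gen p R t (QR_dense x R hR t ht) e

private theorem QR_finR {p : ℕ} [Fact p.Prime] {B : Type w} [CommRing B] [TopologicalSpace B]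
    [CNR B] [IsDomain B] (hp : IsTopologicallyNilpotent (p : B)) {k : ℕ} (x : Fin k → B)
    (hx : ∀ i, IsTopologicallyNilpotent (x i))
    (hprime : ∀ Q : Ideal B, Q.IsPrime → (p : B) ∈ Q → Set.range x ⊆ Q →
      ∀ t : B, IsTopologicallyNilpotent t → t ∈ Q) (R : Subring B) (hRc : IsClosed (R : Set B))
    (hxR : ∀ i, x i ∈ R) : R.subtype.Finite := by
  obtain ⟨m, y, hyx, -, hyf⟩ := finite_over hp (Set.range x)
    (by rintro _ ⟨i, rfl⟩; exact hx i) hprime
  have h1 : (Subring.closure (Set.range y)).topologicalClosure ≤ R := by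
    refine Subring.topologicalClosure_minimal _ ?_ hRc
    rw [Subring.closure_le]
    rintro _ ⟨i, rfl⟩
    obtain ⟨j, hj⟩ := hyx i
    rw [← hj]
    exact hxR j
  have h2 : ((Subring.closure (Set.range y)).topologicalClosure).subtype.Finite :=
    RingHom.finite_algebraMap.2 hyf
  refine RingHom.Finite.of_comp_finite (f := Subring.inclusion h1) ?_
  exact h2

private theorem QR_exR (p : ℕ) [Fact p.Prime] {B : Type w} [CommRing B] [TopologicalSpace B]
    [CNR B] [IsDomain B] [CharP B p] {k : ℕ} (x : Fin k → B)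
    (hx : ∀ i, IsTopologicallyNilpotent (x i))
    (hprime : ∀ Q : Ideal B, Q.IsPrime → Set.range x ⊆ Q →
      ∀ t : B, IsTopologicallyNilpotent t → t ∈ Q) :
    ∃ R : Subring B, IsClosed (R : Set B) ∧ (∀ i, x i ∈ R) ∧
      (∀ K : Subring B, IsClosed (K : Set B) → (∀ i, x i ∈ K) → R ≤ K) ∧ IsNoetherianRing R ∧
      R.subtype.Finite ∧ ∀ e, (iterateFrobenius R p e).Finite := by
  have hp : IsTopologicallyNilpotent (p : B) := by
    rw [CharP.cast_eq_zero B p]
    exact IsTopologicallyNilpotent.zero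
  have hn := noeth_closureP hp x hx
  obtain ⟨R, hR⟩ : ∃ R : Subring B, R = (Subring.closure (Set.range x)).topologicalClosure :=
    ⟨_, rfl⟩
  rw [← hR] at hn
  have hRc : IsClosed (R : Set B) := by
    rw [hR]
    exact Subring.isClosed_topologicalClosure _
  have hxR : ∀ i, x i ∈ R := fun i => by
    rw [hR]
    exact Subring.le_topologicalClosure _ (Subring.subset_closure ⟨i, rfl⟩)
  have hRcl : (R : Set B) ⊆ closure (Subring.closure (Set.range x)) := by
    intro y hy
    rw [hR] at hy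
    exact hy
  refine ⟨R, hRc, hxR, ?_, hn, QR_finR hp x hx (fun Q h _ => hprime Q h) R hRc hxR,
    fun e => QR_frob p x R hRc hRcl (fun i => ⟨x i, hxR i⟩) (fun i => rfl) e⟩
  intro K hK hxK
  rw [hR]
  refine Subring.topologicalClosure_minimal _ ?_ hK
  rw [Subring.closure_le]
  rintro _ ⟨i, rfl⟩
  exact hxK i

private theorem QR_fix {s : RingAut Ω} (hs : CtsAut T s) (B : Subalgebra T Ω)
    (hB : Module.Finite T B) (C : Finset Ω) (hx : ∀ c ∈ C, s c = c) (R : Subring B)
    (hR : ∀ K : Subring B, @IsClosed B (moduleTopology T B) (K : Set B) →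
      (∀ c ∈ C, ∀ h : c ∈ B, (⟨c, h⟩ : B) ∈ K) → R ≤ K) (y : B) (hy : y ∈ R) :
    s (y : Ω) = y := by
  obtain ⟨B', hB', h, h', hc, hc'⟩ := QR_cts hs hB
  let _ : TopologicalSpace B := moduleTopology T B
  let _ : TopologicalSpace B' := moduleTopology T B'
  have : CNR B' := QR_cnr B' hB'
  let K : Subring B := RingHom.eqLocus ((s : Ω →+* Ω).comp (B.val : B →+* Ω)) (B.val : B →+* Ω)
  have hK : IsClosed (K : Set B) := by
    have h1 : (K : Set B) = {b : B | (⟨s b, h' b b.2⟩ : B') = Subalgebra.inclusion h b} := by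
      ext b
      show s (b : Ω) = (b : Ω) ↔ (⟨s b, h' b b.2⟩ : B') = Subalgebra.inclusion h b
      rw [Subtype.ext_iff]
      rfl
    rw [h1]
    exact isClosed_eq hc' hc
  exact hR K hK (fun c hc h => hx c hc) hy

private theorem QR_stab {w : RingAut Ω} (hw : CtsAut T w) (B : Subalgebra T Ω)
    (hB : Module.Finite T B) (C : Finset Ω) (R : Subring B)
    (hRc : @IsClosed B (moduleTopology T B) (R : Set B))
    (hx : ∀ c ∈ C, w c ∈ R.map (B.val : B →+* Ω))
    (hR : ∀ K : Subring B, @IsClosed B (moduleTopology T B) (K : Set B) →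
      (∀ c ∈ C, ∀ h : c ∈ B, (⟨c, h⟩ : B) ∈ K) → R ≤ K) (y : B) (hy : y ∈ R) :
    w (y : Ω) ∈ R.map (B.val : B →+* Ω) := by
  obtain ⟨B', hB', h, h', hc, hc'⟩ := QR_cts hw hB
  let _ : TopologicalSpace B := moduleTopology T B
  have : CNR B := QR_cnr B hB
  let _ : TopologicalSpace B' := moduleTopology T B'
  have : CNR B' := QR_cnr B' hB'
  let K : Subring B := (R.map (B.val : B →+* Ω)).comap ((w : Ω →+* Ω).comp (B.val : B →+* Ω))
  have hK : IsClosed (K : Set B) := by
    have h1 : (K : Set B) = (fun b : B => (⟨w b, h' b b.2⟩ : B')) ⁻¹'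
        (Subalgebra.inclusion h '' (R : Set B)) := by
      ext b
      constructor
      · rintro ⟨z, hz, hzb⟩
        exact ⟨z, hz, Subtype.ext hzb⟩
      · rintro ⟨z, hz, hzb⟩
        exact ⟨z, hz, congrArg Subtype.val hzb⟩
    rw [h1]
    exact ((hRc.isCompact.image hc).isClosed).preimage hc'
  exact hR K hK (fun c hc h => hx c hc) hy

omit [TopologicalSpace T] [CNR T] in
private theorem QR_asm (p : ℕ) [Fact p.Prime] (B : Subalgebra T Ω) (R : Subring B)
    (hn : IsNoetherianRing R) (hRf : R.subtype.Finite) [CharP R p]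
    (hfr : ∀ e, (iterateFrobenius R p e).Finite) [CharP (R.map (B.val : B →+* Ω)) p]
    (hRB : ∀ x : R.map (B.val : B →+* Ω), (x : Ω) ∈ B) :
    IsNoetherianRing (R.map (B.val : B →+* Ω)) ∧
    ((R.map (B.val : B →+* Ω)).subtype.codRestrict B hRB).Finite ∧
    ∀ e, (iterateFrobenius (R.map (B.val : B →+* Ω)) p e).Finite := by
  let e : R ≃+* R.map (B.val : B →+* Ω) :=
    Subring.equivMapOfInjective R (B.val : B →+* Ω) Subtype.val_injective
  refine ⟨isNoetherianRing_of_ringEquiv R e, ?_, ?_⟩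
  · refine RingHom.Finite.of_comp_finite (f := (e : R →+* R.map (B.val : B →+* Ω))) ?_
    exact hRf
  · intro k
    have h1 : iterateFrobenius (R.map (B.val : B →+* Ω)) p k
        = ((e : R →+* R.map (B.val : B →+* Ω)).comp (iterateFrobenius R p k)).comp
          (e.symm : R.map (B.val : B →+* Ω) →+* R) := by
      ext y
      simp [iterateFrobenius_def]
    rw [h1]
    exact ((RingHom.Finite.of_surjective _ e.surjective).comp (hfr k)).comp
      (RingHom.Finite.of_surjective _ e.symm.surjective)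

/-- the ring `B` and the ring `RR`, for a finite set `C` -/
private theorem QR_core {p : ℕ} [Fact p.Prime] [CharP Ω p] {S : Type x} [CommRing S]
    [TopologicalSpace S] [CNR S] [IsDomain S] {φ : S →+* Ω} (hφ : GoodHom T φ)
    (T₁ : Subalgebra T Ω) (hT₁ : Module.Finite T T₁) (F₁ : Finset S)
    (hF₁ : ∀ t : S, IsTopologicallyNilpotent t → t ∈ Ideal.span (F₁ : Set S)) (O : S → Finset Ω)
    (hO : ∀ t ∈ F₁, φ t ∈ O t) (C : Finset Ω) (hC : ∀ t ∈ F₁, ∀ i < (O t).card,
      (∏ x ∈ O t, (Polynomial.X - Polynomial.C x)).coeff i ∈ C) (hCN : ∀ c ∈ C, QR_N T c) :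
    ∃ (B : Subalgebra T Ω) (R : Subring B), Module.Finite T B ∧ T₁ ≤ B ∧
      @IsClosed B (moduleTopology T B) (R : Set B) ∧ (∀ c ∈ C, c ∈ R.map (B.val : B →+* Ω)) ∧
      (∀ K : Subring B, @IsClosed B (moduleTopology T B) (K : Set B) →
        (∀ c ∈ C, ∀ h : c ∈ B, (⟨c, h⟩ : B) ∈ K) → R ≤ K) ∧ IsNoetherianRing R ∧
      R.subtype.Finite ∧ ∀ [CharP R p] (e : ℕ), (iterateFrobenius R p e).Finite := by
  have hSloc : IsLocalRing S := isLocalRing_of_cnr S
  have hfinC : Module.Finite T (Algebra.adjoin T (C : Set Ω)) :=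
    QR_fin_adjoin C.finite_toSet fun c hc => (hCN c hc).1
  have hfin₀ : Module.Finite T (T₁ ⊔ Algebra.adjoin T (C : Set Ω) : Subalgebra T Ω) :=
    Subalgebra.finite_sup _ _
  obtain ⟨B, hB₀B, hB, hφB, -, hφfin⟩ := hφ.exists_ge _ hfin₀
  have hCB : ∀ c ∈ C, c ∈ B := fun c hc =>
    hB₀B ((le_sup_right : Algebra.adjoin T (C : Set Ω) ≤ _) (Algebra.subset_adjoin hc))
  obtain ⟨x, hxC, hCx⟩ : ∃ x : Fin C.card → B, (∀ i, ((x i : B) : Ω) ∈ C) ∧
      ∀ c ∈ C, ∀ h : c ∈ B, (⟨c, h⟩ : B) ∈ Set.range x :=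
    ⟨fun i => ⟨(C.equivFin.symm i : Ω), hCB _ (C.equivFin.symm i).2⟩,
      fun i => (C.equivFin.symm i).2,
      fun c hc h => ⟨C.equivFin ⟨c, hc⟩, Subtype.ext (by simp)⟩⟩
  let _ : TopologicalSpace B := moduleTopology T B
  have : CNR B := QR_cnr B hB
  have : IsLocalRing B := isLocalRing_of_cnr B
  have hxtn : ∀ i, IsTopologicallyNilpotent (x i) := fun i =>
    (QR_tn_iff hB (x i).2).2 (hCN _ (hxC i)).2
  have hcharB : CharP B p := RingHom.charP (B.val : B →+* Ω) Subtype.val_injective p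
  obtain ⟨R, hRc, hxR, hRmin, hRn, hRf, hRfr⟩ := QR_exR p x hxtn fun Q hQ hxQ t ht => by
    have h1 : Q = IsLocalRing.maximalIdeal B :=
      QR_prime B (φ.codRestrict B hφB) hφfin F₁ (fun t ht => hF₁ t (mem_maximalIdeal_iff.1 ht)) O
        (fun t ht => hO t ht) C hC hCB hQ fun c hc => hxQ (hCx c hc _)
    rw [h1]
    exact mem_maximalIdeal_iff.2 ht
  refine ⟨B, R, hB, le_sup_left.trans hB₀B, hRc, ?_, ?_, hRn, hRf, fun e => hRfr e⟩
  · intro c hc
    obtain ⟨i, hi⟩ := hCx c hc (hCB c hc)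
    exact ⟨x i, hxR i, by rw [hi]; rfl⟩
  · intro K hK hKC
    exact hRmin K hK fun i => hKC _ (hxC i) (x i).2

end QRingHelpers

/-- PROOF. Let `t_1, …, t_r` generate the maximal ideal of the local noetherian ring `S` (the topologically nilpotent elements; one `t_i` is not zero, `hφ.exists_inf`). `Γ₁` modulo `FixH φ ⊓ Γ₁` is finite; for `t ∈ S` let `P_t = ∏ (X - c (φ t))` over the cosets `c` in `Γ₁ / (FixH φ ⊓ Γ₁)` (`c (φ t)` is well defined). The coefficients of
`P_t` are fixed by `Γ₁` (which permutes the cosets). All `c (φ t)` are integral over `T` (`CtsAut.isIntegral`), and for topologically nilpotent `t` they are topologically nilpotent in any finite `T`-subalgebra `B₀` containing them: `x = c (φ t)` is not a unit there, as `c` and `c⁻¹` preserve integral elements and `(φ t)⁻¹` is not integral (`φ t` is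
topologically nilpotent in the algebra of `hφ.ex`, use `isUnit_or_tn`, `not_isUnit_of_tn`). So the coefficients of index `< deg` of the `P_{t_i}` are topologically nilpotent in finite subalgebras; let `C` be the finite set of all `w ^ a c`, `a < N`, `c` such a coefficient (again topologically nilpotent). For such `c` (fixed by `Γ₁`, and so is `w ^ a c`, by `hnorm`):
`w ^ N c = w ^ N (w ^ (-N) Frob c) = c ^ p`. So `w` maps `C` into the ring generated by `C`.
Let `B` be a finite `T`-subalgebra containing `T₁`, `C` with `φ : S → B` continuous and finite (`hφ.exists_ge`). Apply `finite_over` (RFinOver) to the compact noetherian domain `B` and the set `C`: if `Q` is a prime ideal of `B` containing `C` then `φ t_i ∈ Q` (root of `P_{t_i}`, whose lower coefficients are in `Q`), so `Q` contracts to the maximal ideal of `S`, `B` is integral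
over `S`, `Q` is maximal, and it contains all topologically nilpotent elements (`B` is local). So `B` is finite over the closed subring generated by some elements of `C`, so over the closed subring `R'` of `B` generated by `C`. `R'` is noetherian (`noeth_closureP`). `RR` is the image of `R'` in `Ω`. Its elements are fixed by `Γ₁`: for `s ∈ Γ₁` the set of `x ∈ B` with `s x = x` is a
closed subring (`CtsAut`, Hausdorff finite subalgebra containing `B` and `s B`) containing `C`. `w` maps `RR` to `RR`: the set of all `x ∈ B` with `w x ∈ RR` is a closed subring containing `C` (`w : B → B'` is continuous for a finite `B' ≥ B`, and `RR` is compact so closed in `B'`). Finiteness of the Frobenius map: `frob_finite_of_gen` (QFrob). `d` is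
the constant coefficient (a product of conjugates of `φ t_i`, not zero) of `P_{t_i}` for `t_i ≠ 0`. -/
theorem exists_ring {p : ℕ} [Fact p.Prime] {G : Type u} [Group G] [TopologicalSpace G]
    {T : Type v} [CommRing T] [TopologicalSpace T] [CNR T] [IsDomain T] [Infinite T] {Ω : Type v}
    [Field Ω] [IsAlgClosed Ω] [CharP Ω p] [Algebra T Ω] [Algebra.IsAlgebraic T Ω] {n : ℕ}
    (R : Rep p G T Ω n) (T₁ : Subalgebra T Ω) (hT₁ : Module.Finite T T₁) {S : Type v} [CommRing S]
    [TopologicalSpace S] [CNR S] [IsDomain S] {φ : S →+* Ω} (hφ : GoodHom T φ)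
    {Γ₁ : Subgroup (RingAut Ω)} (hΓ₁ : Γ₁ ≤ Gam R) (hrel : (FixH φ).relIndex Γ₁ ≠ 0)
    {w : RingAut Ω} (hw : w ∈ Gam R) {N : ℕ} (hN : 0 < N)
    (hwN : w ^ (-(N : ℤ)) * FrobA p Ω ∈ Γ₁) (hnorm : ∀ a ∈ Γ₁, w⁻¹ * a * w ∈ Γ₁) :
    ∃ (B : Subalgebra T Ω) (RR : Subring Ω) (hRB : ∀ x : RR, (x : Ω) ∈ B), Module.Finite T B ∧
      T₁ ≤ B ∧ (∀ x ∈ RR, ∀ s ∈ Γ₁, s x = x) ∧ (∀ x ∈ RR, w x ∈ RR) ∧ IsNoetherianRing RR ∧
      (RR.subtype.codRestrict B hRB).Finite ∧ (∀ e, (iterateFrobenius RR p e).Finite) ∧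
      ∃ d : RR, d ≠ 0 ∧ @IsTopologicallyNilpotent B _ (moduleTopology T B) ⟨d, hRB d⟩ := by
  classical
  have hSloc : IsLocalRing S := isLocalRing_of_cnr S
  obtain ⟨t₀, ht₀, hφt₀, -⟩ := hφ.exists_inf R.tinj
  obtain ⟨F₀, hF₀⟩ : (IsLocalRing.maximalIdeal S).FG := IsNoetherian.noetherian _
  let F₁ : Finset S := insert t₀ F₀
  have hF₁ : ∀ t ∈ F₁, IsTopologicallyNilpotent t := by
    intro t ht
    rcases Finset.mem_insert.1 ht with rfl | ht
    · exact ht₀
    · rw [← mem_maximalIdeal_iff, ← hF₀]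
      exact Submodule.subset_span ht
  have hF₁sp : ∀ t : S, IsTopologicallyNilpotent t → t ∈ Ideal.span (F₁ : Set S) := by
    intro t ht
    rw [← mem_maximalIdeal_iff, ← hF₀] at ht
    exact Submodule.span_mono (fun y hy => Finset.mem_insert_of_mem hy) ht
  -- orbits
  let O : S → Finset Ω := fun t => (QR_orbit φ Γ₁ hrel t).toFinset
  have hO : ∀ t x, x ∈ O t ↔ ∃ s ∈ Γ₁, s (φ t) = x := fun t x => by
    show x ∈ (QR_orbit φ Γ₁ hrel t).toFinset ↔ _
    rw [Set.Finite.mem_toFinset]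
    rfl
  let P : S → Polynomial Ω := fun t => ∏ x ∈ O t, (Polynomial.X - Polynomial.C x)
  let C₀ : Finset Ω := F₁.biUnion fun t => (Finset.range (O t).card).image fun i => (P t).coeff i
  have hC₀m : ∀ c, c ∈ C₀ ↔ ∃ t ∈ F₁, ∃ i < (O t).card, (P t).coeff i = c := fun c => by
    simp [C₀]
  have hN0 : ∀ c ∈ C₀, QR_N T c := by
    intro c hc
    obtain ⟨t, ht, i, hi, rfl⟩ := (hC₀m c).1 hc
    refine QR_coeff (O t) (fun x hx => ?_) hi
    obtain ⟨s, hs, rfl⟩ := (hO t x).1 hx
    have hs' := (mem_Gam R).1 (hΓ₁ hs)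
    exact QR_N_aut hs'.1.1 hs'.2.1 (QR_N_good hφ (hF₁ t ht))
  have hfix0 : ∀ c ∈ C₀, ∀ s ∈ Γ₁, s c = c := by
    intro c hc s hs
    obtain ⟨t, ht, i, hi, rfl⟩ := (hC₀m c).1 hc
    refine QR_map_prod (O t) s (fun x hx => ?_) i
    obtain ⟨s', hs', rfl⟩ := (hO t x).1 hx
    exact (hO t _).2 ⟨s * s', mul_mem hs hs', rfl⟩
  let C : Finset Ω := (Finset.range N ×ˢ C₀).image fun z => (w ^ z.1) z.2
  have hCm : ∀ c, c ∈ C ↔ ∃ a < N, ∃ c₀ ∈ C₀, (w ^ a) c₀ = c := by
    intro c
    simp only [C, Finset.mem_image, Finset.mem_product, Finset.mem_range, Prod.exists]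
    constructor
    · rintro ⟨a, b, ⟨ha, hb⟩, h⟩
      exact ⟨a, ha, b, hb, h⟩
    · rintro ⟨a, ha, b, hb, h⟩
      exact ⟨a, b, ⟨ha, hb⟩, h⟩
  have hC₀C : ∀ c ∈ C₀, c ∈ C := fun c hc => (hCm c).2 ⟨0, hN, c, hc, by simp⟩
  have hCN : ∀ c ∈ C, QR_N T c := by
    intro c hc
    obtain ⟨a, -, c₀, hc₀, rfl⟩ := (hCm c).1 hc
    have hs' := (mem_Gam R).1 (pow_mem hw a)
    exact QR_N_aut hs'.1.1 hs'.2.1 (hN0 c₀ hc₀)
  have hnorm' : ∀ a : ℕ, ∀ s ∈ Γ₁, (w ^ a)⁻¹ * s * w ^ a ∈ Γ₁ := by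
    intro a
    induction a with
    | zero => intro s hs; simpa using hs
    | succ a ih =>
      intro s hs
      have h1 := hnorm _ (ih s hs)
      have h2 : (w ^ (a + 1))⁻¹ * s * w ^ (a + 1) = w⁻¹ * ((w ^ a)⁻¹ * s * w ^ a) * w := by
        rw [pow_succ]; group
      rwa [h2]
  have hCfix : ∀ c ∈ C, ∀ s ∈ Γ₁, s c = c := by
    intro c hc s hs
    obtain ⟨a, -, c₀, hc₀, rfl⟩ := (hCm c).1 hc
    have h1 : s * w ^ a = w ^ a * ((w ^ a)⁻¹ * s * w ^ a) := by group
    calc s ((w ^ a) c₀) = (s * w ^ a) c₀ := rfl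
      _ = (w ^ a) (((w ^ a)⁻¹ * s * w ^ a) c₀) := by rw [h1]; rfl
      _ = (w ^ a) c₀ := by rw [hfix0 c₀ hc₀ _ (hnorm' a s hs)]
  have hCw : ∀ c ∈ C, w c ∈ Subring.closure (C : Set Ω) := by
    intro c hc
    obtain ⟨a, ha, c₀, hc₀, rfl⟩ := (hCm c).1 hc
    have h1 : w ((w ^ a) c₀) = (w ^ (a + 1)) c₀ := by rw [pow_succ']; rfl
    rw [h1]
    by_cases haN : a + 1 < N
    · exact Subring.subset_closure ((hCm _).2 ⟨a + 1, haN, c₀, hc₀, rfl⟩)
    · have h2 : a + 1 = N := by omega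
      rw [h2]
      have h3 := hfix0 c₀ hc₀ _ hwN
      have h4 : (w ^ N) ((w ^ (-(N : ℤ)) * FrobA p Ω) c₀) = FrobA p Ω c₀ := by
        show (w ^ N * (w ^ (-(N : ℤ)) * FrobA p Ω)) c₀ = _
        rw [zpow_neg, zpow_natCast, mul_inv_cancel_left]
      rw [h3, FrobA_apply] at h4
      rw [h4]
      exact pow_mem (Subring.subset_closure (hC₀C c₀ hc₀)) p
  obtain ⟨B, R', hB, hT₁B, hRc, hCR, hRmin, hRn, hRf, hRfr⟩ := QR_core (p := p) hφ T₁ hT₁ F₁
    hF₁sp O (fun t _ => (hO t _).2 ⟨1, one_mem _, rfl⟩) C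
    (fun t ht i hi => hC₀C _ ((hC₀m _).2 ⟨t, ht, i, hi, rfl⟩)) hCN
  have hcl : Subring.closure (C : Set Ω) ≤ R'.map (B.val : B →+* Ω) := by
    rw [Subring.closure_le]
    exact hCR
  have hRB : ∀ y : R'.map (B.val : B →+* Ω), (y : Ω) ∈ B := by
    rintro ⟨_, y, hy, rfl⟩
    exact y.2
  have hcharB : CharP B p := RingHom.charP (B.val : B →+* Ω) Subtype.val_injective p
  obtain ⟨h1, h2, h3⟩ := QR_asm p B R' hRn hRf (fun e => hRfr e) hRB
  refine ⟨B, R'.map (B.val : B →+* Ω), hRB, hB, hT₁B, ?_, ?_, h1, h2, h3, ?_⟩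
  · rintro _ ⟨y, hy, rfl⟩ s hs
    exact QR_fix ((mem_Gam R).1 (hΓ₁ hs)).1.1 B hB C (fun c hc => hCfix c hc s hs) R' hRmin y hy
  · rintro _ ⟨y, hy, rfl⟩
    exact QR_stab ((mem_Gam R).1 hw).1.1 B hB C R' hRc (fun c hc => hcl (hCw c hc)) hRmin y hy
  · have hpos : 0 < (O t₀).card := Finset.card_pos.2 ⟨φ t₀, (hO t₀ (φ t₀)).2 ⟨1, one_mem _, rfl⟩⟩
    have hd : (P t₀).coeff 0 ∈ C :=
      hC₀C _ ((hC₀m _).2 ⟨t₀, Finset.mem_insert_self _ _, 0, hpos, rfl⟩)
    refine ⟨⟨(P t₀).coeff 0, hCR _ hd⟩, ?_, ?_⟩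
    · intro h0
      have h1 : (P t₀).coeff 0 = 0 := congrArg Subtype.val h0
      rw [Polynomial.coeff_zero_eq_eval_zero] at h1
      change (∏ x ∈ O t₀, (Polynomial.X - Polynomial.C x)).eval 0 = 0 at h1
      rw [Polynomial.eval_prod, Finset.prod_eq_zero_iff] at h1
      obtain ⟨y, hy, hy0⟩ := h1
      obtain ⟨s, -, rfl⟩ := (hO t₀ y).1 hy
      simp at hy0
      exact hφt₀ hy0
    · exact (QR_tn_iff hB _).2 (hCN _ hd).2

end MP35
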