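import Pool.Agent.Lib_MP_3538b5_al.LemV
import Pool.Agent.Lib_MP_3538b5_al.QDefs

/-!
# Layer Q: automorphisms which link two embeddings of a family preserve the eigenvalue groups

`Rep.Fam.link`: an automorphism `s` of `Ω` with `s ∘ φ i = φ j` for two labels of a family is in
`SatAut R`.
-/

set_option autoImplicit false

namespace MP35

universe u v w

namespace Rep

variable {p : ℕ} [hp : Fact p.Prime] {G : Type u} [Group G] [TopologicalSpace G]
  [IsTopologicalGroup G] [CompactSpace G] [T2Space G] [TotallyDisconnectedSpace G] {T : Type v}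
  [CommRing T] [TopologicalSpace T] [CNR T] [IsDomain T] {Ω : Type v} [Field Ω] [IsAlgClosed Ω]
  [Algebra T Ω] {n k : ℕ} {R : Rep p G T Ω n}

omit hp [IsTopologicalGroup G] [CompactSpace G] [T2Space G] [TotallyDisconnectedSpace G] [CNR T]
  [IsDomain T] in
/-- eigenvalues on factors are in `SatL` -/
theorem EvQ.satL {B' B : Submodule Ω (Matrix (Fin n) (Fin n) Ω)} (hB' : R.Stable B') {g : G} {μ : Ω}
    (h : R.EvQ B' B g μ) : SatL R g μ := by
  obtain ⟨l, h1, h2⟩ := h.exists_ratio hB'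
  have h3 := (SatL.of_root R h2).mul (SatL.of_root R h1).inv
  rwa [mul_assoc, mul_inv_cancel₀ (R.root_ne_zero h1), mul_one] at h3

/-- an automorphism which maps the eigenvalues on one nontrivial factor to elements of `SatL` is in
`SatAut` -/
theorem satAut_of_evQ (hR : MCore R k) (Φ : R.Fl) {i : ℕ} (hi : i < Φ.l) (hnt : ¬ Φ.Triv i)
    (s : RingAut Ω) (hs : ∀ g μ, R.EvQ (Φ.W i) (Φ.W (i + 1)) g μ → SatL R g (s μ)) :
    SatAut R s := by
  intro g μ hμ
  have hμ0 := R.root_ne_zero hμ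
  obtain ⟨m, hm⟩ := hR.pow_mem Φ hi hnt (l := Units.mk0 μ hμ0) hμ
  have key : ∀ u ∈ Subgroup.closure {u : Ωˣ | R.EvQ (Φ.W i) (Φ.W (i + 1)) g u},
      SatL R g (s (u : Ω)) := by
    intro u hu
    induction hu using Subgroup.closure_induction with
    | mem u hu => exact hs g _ hu
    | one => simpa using SatL.one R
    | mul a b _ _ ha hb =>
      rw [Units.val_mul, map_mul]
      exact ha.mul hb
    | inv a _ ha =>
      rw [Units.val_inv_eq_inv_val, map_inv₀]
      exact ha.inv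
  have hn : 0 < n := by
    rcases Nat.eq_zero_or_pos n with rfl | h
    · exfalso
      have h3 : (R.ρ g).charpoly = 1 := by
        rw [Matrix.charpoly, Matrix.det_isEmpty]
      rw [h3, Polynomial.IsRoot, Polynomial.eval_one] at hμ
      exact one_ne_zero hμ
    · exact h
  have h1 := key _ hm
  rw [Units.val_pow_eq_pow_val, Units.val_mk0, map_pow] at h1
  exact h1.of_pow (Nat.mul_pos hn (pow_pos hp.out.pos m))

/-- **Automorphisms linking two embeddings of a family.** -/
theorem Fam.link (hR : MCore R k) {Φ : R.Fl} {T' : Subalgebra T Ω} (F : R.Fam Φ T') {i₀ : ℕ}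
    {i j : F.ι} (h₀ : F.lab i₀ = some i) (hnt : ¬ Φ.Triv i₀) (s : RingAut Ω)
    (hs : ∀ x : F.S, s ((F.φ i x : T') : Ω) = ((F.φ j x : T') : Ω)) : SatAut R s := by
  refine satAut_of_evQ hR Φ (F.lab_lt _ _ h₀) hnt s fun g μ hμ => ?_
  obtain ⟨i₁, h₁⟩ := F.lab_surj j
  have h1 := (F.chp_root g i₀ i h₀ μ).2 hμ
  have h2 : (((F.chp g).map (F.φ j)).map T'.val.toRingHom).IsRoot (s μ) := by
    rw [Polynomial.IsRoot, Polynomial.map_map, Polynomial.eval_map] at h1 ⊢
    have h3 := congrArg s h1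
    rw [map_zero] at h3
    have h4 := Polynomial.hom_eval₂ (F.chp g) (T'.val.toRingHom.comp (F.φ i))
      (s : Ω →+* Ω) μ
    have h5 : (s : Ω →+* Ω).comp (T'.val.toRingHom.comp (F.φ i)) = T'.val.toRingHom.comp (F.φ j) :=
      RingHom.ext hs
    rw [h5] at h4
    exact h4.symm.trans h3
  have h3 : R.EvQ (Φ.W i₁) (Φ.W (i₁ + 1)) g (s μ) := (F.chp_root g i₁ j h₁ (s μ)).1 h2
  exact h3.satL (R.Fl_stable Φ i₁)

end Rep

end MP35
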