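import Pool.Agent.Lib_MP_3538b5_al.QDefs
import Pool.Agent.Lib_MP_3538b5_al.FDefs
import Pool.Agent.Lib_MP_3538b5_al.QLink

/-! # Piece QSAT: linked embeddings preserve the saturated eigenvalue groups

Reserved for helper83. -/

set_option autoImplicit false

namespace MP35

universe u v w x y

/-- PROOF. Let `μ` be an eigenvalue of `ρ g`. `i` is the label of a factor `a < Φ.l` (`lab_surj`, `lab_lt`), with `B' = Φ.W a`, `B = Φ.W (a + 1)`, stable under `Ad`; it is not trivial (`𝓕.triv`), so `G` acts faithfully on it (`faithful_of_opt` in RFaith, with `hR.opt`, `hR.triv`, `Φ.simple`, `Φ.lt`; not trivial: some `g`, `x` with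
`Ad g x - x ∉ B'`). By `Rep.pow_mem` (LemE; `hR.det`, `hR.alg`, `hR.opt.nmin`, `hR.deep` for `⊤` as in other uses, or `MCore` versions) some power `μ ^ (n * p ^ m)` is in the group generated by the `u` with `R.EvQ B' B g u`. Such `u` are the roots of `(chp g).map (φ i)` (`chp_root`), `s` maps them to the roots of
`(chp g).map (φ j)`, so to eigenvalues on a factor with label `j`, which are quotients of eigenvalues of `ρ g` (`Rep.EvQ.exists_ratio`), so in `SatL R g` (`SatL.of_root`, `SatL.mul`, `SatL.inv`). So `s (μ ^ (n * p ^ m))` is in `SatL R g`, and so is `s μ` (`SatL.of_pow`; `n > 0` because a group of `0 × 0` matrices is commutative). -/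
theorem satAut_of_link {p : ℕ} [Fact p.Prime] {G : Type u} [Group G] [TopologicalSpace G]
    [IsTopologicalGroup G] [CompactSpace G] [T2Space G] [TotallyDisconnectedSpace G] {T : Type v}
    [CommRing T] [TopologicalSpace T] [CNR T] [IsDomain T] {Ω : Type v} [Field Ω] [IsAlgClosed Ω]
    [Algebra T Ω] {n k : ℕ} {R : Rep p G T Ω n} (hR : MCore R k) {Φ : R.Fl} (𝓕 : R.Fams Φ)
    (κ : 𝓕.κ) (i j : (𝓕.fam κ).ι) (s : RingAut Ω)
    (h : ∀ x, s (((𝓕.fam κ).φ i x : 𝓕.T') : Ω) = (((𝓕.fam κ).φ j x : 𝓕.T') : Ω)) :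
    SatAut R s := by
  obtain ⟨a, ha⟩ := (𝓕.fam κ).lab_surj i
  have hnt : ¬ Φ.Triv a := fun ht => by
    rw [𝓕.triv a ((𝓕.fam κ).lab_lt _ _ ha) ht κ] at ha
    exact Option.some_ne_none _ ha.symm
  exact Rep.Fam.link hR (𝓕.fam κ) ha hnt s h

end MP35
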