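import Pool.Agent.Lib_MP_3538b5_al.QThm
import Pool.Agent.Lib_MP_3538b5_al.QGrp
import Pool.Agent.Lib_MP_3538b5_al.QFix
import Pool.Agent.Lib_MP_3538b5_al.QRing
import Pool.Agent.Lib_MP_3538b5_al.QCond
import Pool.Agent.Lib_MP_3538b5_al.QLR
import Pool.Agent.Lib_MP_3538b5_al.QSat

/-! # From the families to the input of Theorem Q, and the ring of common scalars -/

set_option autoImplicit false

namespace MP35

universe u v w x y

set_option linter.unusedSectionVars false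

variable {p : ℕ} [Fact p.Prime] {G : Type u} [Group G] [TopologicalSpace G] [IsTopologicalGroup G]
  [CompactSpace G] [T2Space G] [TotallyDisconnectedSpace G] {T : Type v} [CommRing T]
  [TopologicalSpace T] [CNR T] [IsDomain T] {Ω : Type v} [Field Ω] [IsAlgClosed Ω] [CharP Ω p]
  [Algebra T Ω] {n k : ℕ} {R : Rep p G T Ω n}

/-- the embeddings of the scalars of a family in `Ω` -/
def Rep.Fams.emb {Φ : R.Fl} (𝓕 : R.Fams Φ) (κ : 𝓕.κ) (j : (𝓕.fam κ).ι) : (𝓕.fam κ).S →+* Ω :=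
  𝓕.T'.val.toRingHom.comp ((𝓕.fam κ).φ j)

theorem Rep.Fams.emb_apply {Φ : R.Fl} (𝓕 : R.Fams Φ) (κ : 𝓕.κ) (j : (𝓕.fam κ).ι)
    (x : (𝓕.fam κ).S) : 𝓕.emb κ j x = (((𝓕.fam κ).φ j x : 𝓕.T') : Ω) := rfl

theorem Rep.Fams.good {Φ : R.Fl} (𝓕 : R.Fams Φ) (κ : 𝓕.κ) (j : (𝓕.fam κ).ι) :
    GoodHom T (𝓕.emb κ j) where
  tinj := R.tinj
  inj := Subtype.val_injective.comp ((𝓕.fam κ).φ_inj j)
  ex := ⟨𝓕.T', 𝓕.finT, fun s => ((𝓕.fam κ).φ j s).2, (𝓕.fam κ).φ_cont j, (𝓕.fam κ).φ_fin j⟩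

/-- the identity matrix is in a trivial factor -/
theorem exists_triv (hR : MCore R k) (Φ : R.Fl) : ∃ i < Φ.l, Φ.Triv i ∧
    (1 : Matrix (Fin n) (Fin n) Ω) ∈ Φ.W (i + 1) ∧ (1 : Matrix (Fin n) (Fin n) Ω) ∉ Φ.W i := by
  classical
  have hn := n_pos hR
  have h1 : ∃ i, (1 : Matrix (Fin n) (Fin n) Ω) ∈ Φ.W i := ⟨Φ.l, by rw [Φ.top]; trivial⟩
  have h2 := Nat.find_spec h1
  have h3 : Nat.find h1 ≠ 0 := by
    intro h0
    rw [h0, Φ.bot, Submodule.mem_bot] at h2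
    have h4 := congrFun (congrFun h2 ⟨0, hn⟩) ⟨0, hn⟩
    rw [Matrix.one_apply_eq, Matrix.zero_apply] at h4
    exact one_ne_zero h4
  obtain ⟨i, hi⟩ := Nat.exists_eq_succ_of_ne_zero h3
  have h4 : (1 : Matrix (Fin n) (Fin n) Ω) ∉ Φ.W i := Nat.find_min h1 (by omega)
  have h5 : (1 : Matrix (Fin n) (Fin n) Ω) ∈ Φ.W (i + 1) := by rw [hi] at h2; exact h2
  have hil : i < Φ.l := by
    by_contra hcon
    apply h4
    rw [Φ.W_top (not_lt.1 hcon)]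
    trivial
  refine ⟨i, hil, ?_, h5, h4⟩
  have hAd1 : ∀ g, R.Ad g (1 : Matrix (Fin n) (Fin n) Ω) = 1 := fun g => by
    rw [R.Ad_apply, mul_one, ← map_mul, mul_inv_cancel, map_one]
  have h6 := Φ.simple i hil (Φ.W i ⊔ Submodule.span Ω {1}) (by
      rintro _ ⟨g, rfl⟩ v hv
      obtain ⟨a, ha, b, hb, rfl⟩ := Submodule.mem_sup.1 hv
      obtain ⟨c, rfl⟩ := Submodule.mem_span_singleton.1 hb
      rw [map_add, map_smul, hAd1]
      exact Submodule.add_mem_sup (Φ.stable _ ⟨g, rfl⟩ i a ha)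
        (Submodule.smul_mem _ c (Submodule.mem_span_singleton_self _)))
    le_sup_left (sup_le (Φ.mono (Nat.le_succ i)) (by
      rw [Submodule.span_singleton_le_iff_mem]
      exact h5))
  have h7 : Φ.W i ⊔ Submodule.span Ω {(1 : Matrix (Fin n) (Fin n) Ω)} = Φ.W (i + 1) := by
    rcases h6 with h | h
    · exfalso
      apply h4
      rw [← h]
      exact Submodule.mem_sup_right (Submodule.mem_span_singleton_self _)
    · exact h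
  rintro _ ⟨g, rfl⟩ v hv
  rw [← h7] at hv
  obtain ⟨a, ha, b, hb, rfl⟩ := Submodule.mem_sup.1 hv
  obtain ⟨c, rfl⟩ := Submodule.mem_span_singleton.1 hb
  rw [map_add, map_smul, hAd1, one_smul, add_sub_add_right_eq_sub]
  exact (Φ.W i).sub_mem (Φ.stable _ ⟨g, rfl⟩ i a ha) ha

theorem CC_one {y : Module.End Ω (Matrix (Fin n) (Fin n) Ω)} (hy : y ∈ R.CC) :
    ∃ c : Ω, y 1 = c • (1 : Matrix (Fin n) (Fin n) Ω) := by
  have h := R.CC_stable (U := Submodule.span Ω {(1 : Matrix (Fin n) (Fin n) Ω)}) (fun g v hv => by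
    obtain ⟨c, rfl⟩ := Submodule.mem_span_singleton.1 hv
    rw [map_smul, R.Ad_apply, mul_one, ← map_mul, mul_inv_cancel, map_one]
    exact Submodule.smul_mem _ c (Submodule.mem_span_singleton_self _)) hy 1
    (Submodule.mem_span_singleton_self _)
  obtain ⟨c, hc⟩ := Submodule.mem_span_singleton.1 h
  exact ⟨c, hc.symm⟩

section

variable {Φ : R.Fl} (𝓕 : R.Fams Φ)
  (E : ∀ κ, (𝓕.fam κ).ι → Module.End Ω (Matrix (Fin n) (Fin n) Ω))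
  (w : ∀ κ, (𝓕.fam κ).S) (m : 𝓕.κ → ℕ) (hw : ∀ κ, w κ ≠ 0)
  (hEA : ∀ κ j, ∀ i < Φ.l, Φ.Acts (E κ j) i (if (𝓕.fam κ).lab i = some j then 1 else 0))
  (hX : ∀ κ s, ∑ j, 𝓕.emb κ j ((w κ * s) ^ p ^ m κ) • E κ j ∈ R.CC)

include hEA hX in
theorem scal_one (hR : MCore R k) (κ : 𝓕.κ) (s : (𝓕.fam κ).S) :
    (∑ j, 𝓕.emb κ j ((w κ * s) ^ p ^ m κ) • E κ j) (1 : Matrix (Fin n) (Fin n) Ω) = 0 := by
  obtain ⟨i, hil, htriv, h1, h2⟩ := exists_triv hR Φ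
  obtain ⟨c, hc⟩ := CC_one (hX κ s)
  have hlab := 𝓕.triv i hil htriv κ
  have h3 : ∀ j, E κ j (1 : Matrix (Fin n) (Fin n) Ω) ∈ Φ.W i := by
    intro j
    have h4 := hEA κ j i hil 1 h1
    rw [hlab] at h4
    simpa using h4
  have h5 : c • (1 : Matrix (Fin n) (Fin n) Ω) ∈ Φ.W i := by
    rw [← hc, LinearMap.sum_apply]
    exact Submodule.sum_mem _ fun j _ => Submodule.smul_mem _ _ (h3 j)
  have h6 : c = 0 := by
    by_contra hne
    apply h2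
    have := (Φ.W i).smul_mem c⁻¹ h5
    rwa [smul_smul, inv_mul_cancel₀ hne, one_smul] at this
  rw [hc, h6, zero_smul]

include hw hEA hX in
theorem exists_famData (hR : MCore R k) : ∃ Y : Finset (Module.End Ω (Matrix (Fin n) (Fin n) Ω)),
    FamData R 𝓕.emb E w m Y := by
  classical
  obtain ⟨Y, hY, hspan⟩ := (Submodule.fg_span_iff_fg_span_finset_subset
    (R := Ω) (R.CC : Set (Module.End Ω (Matrix (Fin n) (Fin n) Ω)))).1 (IsNoetherian.noetherian _)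
  refine ⟨Y, ⟨fun κ j => 𝓕.good κ j, fun κ i j hij h => ?_, hw, fun κ i j s hs => ?_,
    fun κ x y hy => ?_, fun x hx => ?_⟩⟩
  · refine (𝓕.fam κ).φ_ne i j hij (RingHom.ext fun x => Subtype.ext ?_)
    exact RingHom.congr_fun h x
  · exact satAut_of_link hR 𝓕 κ i j s hs
  · refine LR_of_CC hR (R.CC.mul_mem (hX κ x) (hY hy)) ?_
    rw [Module.End.mul_apply]
    obtain ⟨c, hc⟩ := CC_one (hY hy)
    rw [hc, map_smul, scal_one 𝓕 E w m hEA hX hR κ x, smul_zero]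
  · have key : ∀ κ j, ∀ y ∈ Submodule.span Ω
        (Y : Set (Module.End Ω (Matrix (Fin n) (Fin n) Ω))), E κ j (y x) = 0 := by
      intro κ j y hy
      induction hy using Submodule.span_induction with
      | mem y hy => exact hx κ j y hy
      | zero => simp
      | add a b _ _ ha hb => rw [LinearMap.add_apply, map_add, ha, hb, add_zero]
      | smul c a _ ha => rw [LinearMap.smul_apply, map_smul, ha, smul_zero]
    refine vis hR 𝓕 E hEA fun κ j y hy => key κ j y ?_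
    rw [← hspan]
    exact Submodule.subset_span hy

end

section fix

variable {Γ Γ₁ : Subgroup (RingAut Ω)} {W : RingAut Ω} {N : ℕ}

theorem fix_zpow (hW : W ∈ Γ) (hnorm : ∀ s ∈ Γ, ∀ a ∈ Γ₁, s * a * s⁻¹ ∈ Γ₁) {x : Ω}
    (hx : ∀ s ∈ Γ₁, s x = x) (i : ℤ) : ∀ s ∈ Γ₁, s ((W ^ i) x) = (W ^ i) x := by
  intro s hs
  have h1 : W ^ (-i) * s * (W ^ (-i))⁻¹ ∈ Γ₁ := hnorm _ (zpow_mem hW _) s hs
  have h2 := hx _ h1
  have h3 : W ^ i * (W ^ (-i) * s * (W ^ (-i))⁻¹) = s * W ^ i := by group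
  calc s ((W ^ i) x) = (s * W ^ i) x := rfl
    _ = (W ^ i * (W ^ (-i) * s * (W ^ (-i))⁻¹)) x := by rw [h3]
    _ = (W ^ i) ((W ^ (-i) * s * (W ^ (-i))⁻¹) x) := rfl
    _ = (W ^ i) x := by rw [h2]

theorem frob_eq_pow (hWN : W ^ (-(N : ℤ)) * FrobA p Ω ∈ Γ₁) {x : Ω} (hx : ∀ s ∈ Γ₁, s x = x) :
    x ^ p = (W ^ N) x := by
  have h1 := hx _ hWN
  have h2 : (W ^ N) ((W ^ (-(N : ℤ)) * FrobA p Ω) x) = FrobA p Ω x := by
    have h3 : W ^ N * (W ^ (-(N : ℤ)) * FrobA p Ω) = FrobA p Ω := by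
      rw [← zpow_natCast, ← mul_assoc, ← zpow_add, add_neg_cancel, zpow_zero, one_mul]
    exact congrArg (fun s : RingAut Ω => s x) h3
  rw [h1] at h2
  exact h2.symm

theorem frob_pow_eq_pow (hW : W ∈ Γ) (hnorm : ∀ s ∈ Γ, ∀ a ∈ Γ₁, s * a * s⁻¹ ∈ Γ₁)
    (hWN : W ^ (-(N : ℤ)) * FrobA p Ω ∈ Γ₁) {x : Ω} (hx : ∀ s ∈ Γ₁, s x = x) (b : ℕ) :
    x ^ p ^ b = (W ^ (N * b)) x := by
  induction b with
  | zero => simp
  | succ b ih =>
    have h1 : ∀ s ∈ Γ₁, s ((W ^ (N * b)) x) = (W ^ (N * b)) x := by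
      have := fix_zpow hW hnorm hx ((N * b : ℕ) : ℤ)
      rwa [zpow_natCast] at this
    rw [pow_succ, pow_mul, ih, frob_eq_pow hWN h1, mul_add, mul_one, add_comm, pow_add]
    rfl

end fix

section

variable {Φ : R.Fl} (𝓕 : R.Fams Φ)
  (E : ∀ κ, (𝓕.fam κ).ι → Module.End Ω (Matrix (Fin n) (Fin n) Ω))
  (w : ∀ κ, (𝓕.fam κ).S) (m : 𝓕.κ → ℕ)

/-- the conductor of a family -/
theorem exists_cond_fam (hR : MCore R k) {Γ₁ : Subgroup (RingAut Ω)} {W : RingAut Ω}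
    (hrep : ∀ s ∈ Gam R, ∃ i : ℤ, W ^ (-i) * s ∈ Γ₁)
    (hfixle : ∀ κ j, FixH (𝓕.emb κ j) ≤ Γ₁) {B : Subalgebra T Ω} (hB : Module.Finite T B)
    {RR : Subring Ω} (hRB : ∀ x : RR, (x : Ω) ∈ B)
    (hfin : (RR.subtype.codRestrict B hRB).Finite) (hfix : ∀ x ∈ RR, ∀ s ∈ Γ₁, s x = x) (κ : 𝓕.κ)
    (hw : w κ ≠ 0) : ∃ (e : ℕ) (r : Ω) (i : (𝓕.fam κ).ι → ℤ), r ∈ RR ∧ r ≠ 0 ∧
      ∀ x ∈ RR, ∃ s, ∀ j, 𝓕.emb κ j (w κ * s) = ((W ^ (i j)) (r * x)) ^ p ^ e := by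
  classical
  have halg := hR.alg
  rcases isEmpty_or_nonempty (𝓕.fam κ).ι with hemp | ⟨⟨j₀⟩⟩
  · exact ⟨0, 1, fun _ => 0, RR.one_mem, one_ne_zero, fun x _ => ⟨0, fun j => (hemp.false j).elim⟩⟩
  obtain ⟨e, r, hr, hr0, hcond⟩ := exists_cond (p := p) (𝓕.good κ j₀) hw hB hRB hfin
    fun x hx s hs => hfix x hx s (hfixle κ j₀ hs)
  have hlink : ∀ j, ∃ s : RingAut Ω, ∀ x, s (𝓕.emb κ j₀ x) = 𝓕.emb κ j x := fun j =>
    exists_link (𝓕.good κ j₀) (𝓕.good κ j)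
  choose σ hσ using hlink
  have hσΓ : ∀ j, σ j ∈ Gam R := fun j => mem_Gam_of_link R (𝓕.good κ j₀) (𝓕.good κ j)
    (fun s hs => satAut_of_link hR 𝓕 κ j₀ j s hs) (fun s hs => satAut_of_link hR 𝓕 κ j j₀ s hs)
    (hσ j)
  choose i hi using fun j => hrep (σ j) (hσΓ j)
  have hact : ∀ j, ∀ y ∈ RR, σ j y = (W ^ i j) y := by
    intro j y hy
    have h1 := hfix y hy _ (hi j)
    have h2 : W ^ (i j) * (W ^ (-(i j)) * σ j) = σ j := by
      rw [← mul_assoc, ← zpow_add, add_neg_cancel, zpow_zero, one_mul]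
    calc σ j y = (W ^ (i j) * (W ^ (-(i j)) * σ j)) y := by rw [h2]
      _ = (W ^ (i j)) ((W ^ (-(i j)) * σ j) y) := rfl
      _ = (W ^ (i j)) y := by rw [h1]
  refine ⟨e, r, i, hr, hr0, fun x hx => ?_⟩
  obtain ⟨s, hs⟩ := hcond x hx
  refine ⟨s, fun j => ?_⟩
  rw [← hσ j, hs, map_pow, hact j _ (RR.mul_mem hr hx)]

end

end MP35
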