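import Pool.Agent.Lib_MP_3538b5_al.FDefs
import Pool.Agent.Lib_MP_3538b5_al.QDefs
import Pool.Agent.Lib_MP_3538b5_al.QOut

/-!
# Layer Q: the output

Owner: helper19.
-/

set_option autoImplicit false

namespace MP35

universe u v w

namespace Rep

variable {p : ℕ} {G : Type u} [Group G] [TopologicalSpace G] [IsTopologicalGroup G]
  [CompactSpace G] [T2Space G] [TotallyDisconnectedSpace G] {T : Type v} [CommRing T]
  [TopologicalSpace T] [CNR T] [IsDomain T] {Ω : Type v} [Field Ω] [IsAlgClosed Ω] [Algebra T Ω]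
  {n : ℕ} {R : Rep p G T Ω n}

attribute [instance] Fams.fin Fams.finT

/-- The output of the layer Q: a ring `RR` of scalars (embedded in `Ω` by `ι`) with an endomorphism `ω`, a
root of the Frobenius map, such that for all `r` and all families the twisted scalars
`∑ j, ι (ω ^ sp j (t₀ r)) • E j` are in `CC`. -/
structure ScalOut [Fact p.Prime] [CharP Ω p] {Φ : R.Fl} (𝓕 : R.Fams Φ)
    (E : ∀ κ, (𝓕.fam κ).ι → Module.End Ω (Matrix (Fin n) (Fin n) Ω)) where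
  /-- the ring of scalars -/
  RR : Type v
  [commRing : CommRing RR]
  [charP : CharP RR p]
  [noeth : IsNoetherianRing RR]
  /-- the embedding -/
  ι : RR →+* Ω
  /-- the root of the Frobenius map -/
  ω : RR →+* RR
  /-- the exponent -/
  N : ℕ
  /-- a finite `T`-algebra containing `RR` -/
  T₂ : Subalgebra T Ω
  finT₂ : Module.Finite T T₂
  /-- the speeds -/
  sp : ∀ κ, (𝓕.fam κ).ι → ℕ
  /-- the conductor -/
  t₀ : RR
  inj : Function.Injective ι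
  N_pos : 0 < N
  frob : ∀ r, (ω ^ N) r = r ^ p
  frob_fin : ∀ e, (iterateFrobenius RR p e).Finite
  mem : ∀ r, ι r ∈ T₂
  fin : (ι.codRestrict T₂ mem).Finite
  t₀_ne : t₀ ≠ 0
  real : ∀ κ r, ∑ j, ι ((ω ^ sp κ j) (t₀ * r)) • E κ j ∈ R.CC

attribute [instance] ScalOut.commRing ScalOut.charP ScalOut.noeth

theorem omega_pow {RR : Subring Ω} {W : RingAut Ω} (hWR : ∀ x ∈ RR, W x ∈ RR) (k : ℕ) (x : RR) :
    ((((((W : Ω →+* Ω).comp RR.subtype).codRestrict RR fun x => hWR x x.2) ^ k : RR →+* RR) x : RR)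
      : Ω) = (W ^ k) (x : Ω) := by
  induction k with
  | zero => rfl
  | succ k ih =>
    rw [pow_succ', pow_succ']
    show W (((((W : Ω →+* Ω).comp RR.subtype).codRestrict RR fun x => hWR x x.2) ^ k : RR →+* RR) x : RR)
      = W ((W ^ k) (x : Ω))
    rw [ih]

/-- **The output of the layer Q.** -/
theorem exists_scalOut [Fact p.Prime] [CharP Ω p] {k : ℕ} (hR : MCore R k) {Φ : R.Fl}
    (𝓕 : R.Fams Φ) (E : ∀ κ, (𝓕.fam κ).ι → Module.End Ω (Matrix (Fin n) (Fin n) Ω))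
    (w : ∀ κ, (𝓕.fam κ).S) (m : 𝓕.κ → ℕ) (hw : ∀ κ, w κ ≠ 0)
    (hE : ∀ κ j, E κ j * E κ j = E κ j) (hEE : ∀ κ i j, i ≠ j → E κ i * E κ j = 0)
    (hEJ : ∀ κ j, E κ j ∈ Φ.J 0)
    (hEA : ∀ κ j, ∀ i < Φ.l, Φ.Acts (E κ j) i (if (𝓕.fam κ).lab i = some j then 1 else 0))
    (hX : ∀ κ s, ∑ j, (((𝓕.fam κ).φ j ((w κ * s) ^ p ^ m κ) : 𝓕.T') : Ω) • E κ j ∈ R.CC) :
    Nonempty (ScalOut 𝓕 E) := by
  classical
  have halg := hR.alg
  have hTinf : Infinite T := infinite_of_rep hR.pf R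
  have hX' : ∀ κ s, ∑ j, 𝓕.emb κ j ((w κ * s) ^ p ^ m κ) • E κ j ∈ R.CC := hX
  obtain ⟨Y, hF⟩ := exists_famData 𝓕 E w m hw hEA hX' hR
  -- a label
  obtain ⟨κ₀, ⟨j₀⟩⟩ : ∃ κ, Nonempty (𝓕.fam κ).ι := by
    by_contra hcon
    push Not at hcon
    obtain ⟨x, y, hxy⟩ := hR.pf.nc
    apply hxy
    obtain ⟨c, hc⟩ := hF.vis (R.ρ x) fun κ j => ((hcon κ).false j).elim
    apply R.inj
    rw [map_mul, map_mul, hc, smul_mul_assoc, one_mul, mul_smul_comm, mul_one]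
  -- the group
  obtain ⟨Γ₁, W, N, hΓ₁, hW, hN, hrep, hWN, hnorm, hfam⟩ := exists_grp (p := p) (Gam R)
    (frobA_mem_Gam R) 𝓕.emb κ₀ j₀
    (fun κ j s hs => mem_Gam_of_link R (𝓕.good κ j) (𝓕.good κ j) (hF.link κ j j)
      (hF.link κ j j) hs)
    (fun κ j κ' j' => relIndex_FixH (𝓕.good κ j) (𝓕.good κ' j'))
    (fun κ j => by
      obtain ⟨x, -, h1, h2⟩ := (𝓕.good κ j).exists_inf R.tinj
      exact ⟨x, h1, h2⟩)
    (fun κ j s hs x => exists_pow_fix (𝓕.good κ j) hs x) n (fun s hs => theoremQ hR hF s hs)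
  -- the ring
  obtain ⟨B, RR, hRB, hB, -, hfix, hWR, hnoeth, hfin, hfrob, -⟩ := exists_ring R 𝓕.T' 𝓕.finT
    (𝓕.good κ₀ j₀) hΓ₁ (hfam κ₀ j₀).2 hW hN hWN
    (fun a ha => by simpa using hnorm W⁻¹ (inv_mem hW) a ha)
  choose e r i hr hr0 hcond using fun κ => exists_cond_fam 𝓕 w hR hrep (fun κ j => (hfam κ j).1)
    hB hRB hfin hfix κ (hw κ)
  let t₀ : Ω := ∏ κ, r κ
  have ht₀ : t₀ ∈ RR := RR.prod_mem fun κ _ => hr κ
  have ht₀0 : t₀ ≠ 0 := Finset.prod_ne_zero_iff.2 fun κ _ => hr0 κ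
  let a : ℕ := ∑ κ, (m κ + ∑ j, (i κ j).natAbs)
  have ha1 : ∀ κ, m κ ≤ a := fun κ =>
    (Nat.le_add_right _ _).trans (Finset.single_le_sum (f := fun κ => m κ + ∑ j, (i κ j).natAbs)
      (fun _ _ => Nat.zero_le _) (Finset.mem_univ κ))
  have ha2 : ∀ κ j, (i κ j).natAbs ≤ a := fun κ j =>
    ((Finset.single_le_sum (f := fun j => (i κ j).natAbs) (fun _ _ => Nat.zero_le _)
      (Finset.mem_univ j)).trans (Nat.le_add_left _ _)).trans
      (Finset.single_le_sum (f := fun κ => m κ + ∑ j, (i κ j).natAbs)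
        (fun _ _ => Nat.zero_le _) (Finset.mem_univ κ))
  let sp : ∀ κ, (𝓕.fam κ).ι → ℕ := fun κ j => (i κ j + N * (e κ + a) : ℤ).toNat
  have hsp : ∀ κ j, (sp κ j : ℤ) = i κ j + N * (e κ + a) := by
    intro κ j
    refine Int.toNat_of_nonneg ?_
    have h1 := ha2 κ j
    have h2 : (a : ℤ) ≤ N * (e κ + a) := by
      have : (1 : ℤ) ≤ N := by exact_mod_cast hN
      nlinarith [(Nat.cast_nonneg (e κ) : (0 : ℤ) ≤ e κ), (Nat.cast_nonneg a : (0 : ℤ) ≤ a)]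
    omega
  have hchar : CharP RR p := RR.subtype.charP RR.subtype_injective p
  let ω : RR →+* RR := ((W : Ω →+* Ω).comp RR.subtype).codRestrict RR fun x => hWR x x.2
  have hω : ∀ (l : ℕ) (x : RR), (((ω ^ l) x : RR) : Ω) = (W ^ l) (x : Ω) := fun l x =>
    omega_pow hWR l x
  refine ⟨{
    RR := RR
    ι := RR.subtype
    ω := ω
    N := N
    T₂ := B
    finT₂ := hB
    sp := sp
    t₀ := ⟨t₀, ht₀⟩
    inj := RR.subtype_injective
    N_pos := hN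
    frob := fun x => Subtype.ext ?_
    frob_fin := hfrob
    mem := hRB
    fin := hfin
    t₀_ne := fun h => ht₀0 (congrArg Subtype.val h)
    real := fun κ x => ?_ }⟩
  · rw [hω, ← frob_eq_pow hWN (hfix x x.2)]
    rfl
  · have hy : t₀ * (x : Ω) ∈ RR := RR.mul_mem ht₀ x.2
    -- the element of the ring of scalars
    obtain ⟨s, hs⟩ := hcond κ ((∏ κ' ∈ Finset.univ.erase κ, r κ') * x)
      (RR.mul_mem (RR.prod_mem fun κ' _ => hr κ') x.2)
    have hprod : r κ * ((∏ κ' ∈ Finset.univ.erase κ, r κ') * (x : Ω)) = t₀ * x := by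
      rw [← mul_assoc, Finset.mul_prod_erase _ _ (Finset.mem_univ κ)]
    rw [hprod] at hs
    obtain ⟨b, hb⟩ := Nat.exists_eq_add_of_le (ha1 κ)
    have h1 := hX' κ (w κ ^ (p ^ b - 1) * s ^ p ^ b)
    have h2 : w κ * (w κ ^ (p ^ b - 1) * s ^ p ^ b) = (w κ * s) ^ p ^ b := by
      rw [mul_pow, ← mul_assoc, ← pow_succ', Nat.sub_add_cancel
        (Nat.one_le_pow _ _ (Fact.out : p.Prime).pos)]
    rw [h2, ← pow_mul, ← pow_add, add_comm b, ← hb] at h1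
    convert h1 using 1
    refine Finset.sum_congr rfl fun j _ => ?_
    congr 1
    show (((ω ^ sp κ j) (⟨t₀, ht₀⟩ * x) : RR) : Ω) = 𝓕.emb κ j ((w κ * s) ^ p ^ a)
    rw [hω, map_pow, hs, ← pow_mul, ← pow_add]
    show (W ^ sp κ j) (t₀ * (x : Ω)) = _
    rw [frob_pow_eq_pow hW hnorm hWN (fix_zpow hW hnorm (hfix _ hy) (i κ j)) (e κ + a)]
    have h3 : W ^ sp κ j = W ^ (N * (e κ + a)) * W ^ (i κ j) := by
      rw [← zpow_natCast, ← zpow_natCast, ← zpow_add, hsp]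
      congr 1
      push_cast
      ring
    rw [h3]
    rfl

end Rep

end MP35
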