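import Pool.Agent.Lib_MP_3538b5_al.FNoeth

/-!
# Layer F: the augmentation part of `CB`
-/

set_option autoImplicit false
set_option linter.unusedSectionVars false

namespace MP35

universe u v w

section aug

variable {T : Type v} [CommRing T] {B : Type w} [Ring B] [Algebra T B] {G : Type u} [Group G]
  {j : G → B} (hj : ∀ g h, j (g * h) = j g * j h)

include hj

/-- the augmentation submodule is stable under multiplication -/
private theorem aug_mul {x y : B}
    (hx : x ∈ Submodule.span T (Set.range fun g => j g - 1))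
    (hy : y ∈ Submodule.span T (Set.range fun g => j g - 1)) :
    x * y ∈ Submodule.span T (Set.range fun g => j g - 1) := by
  refine Submodule.span_induction (fun x hx => ?_) ?_ (fun a b _ _ ha hb => ?_)
    (fun t a _ ha => ?_) hx
  · obtain ⟨g, rfl⟩ := hx
    refine Submodule.span_induction (fun y hy => ?_) ?_ (fun a b _ _ ha hb => ?_)
      (fun t a _ ha => ?_) hy
    · obtain ⟨h, rfl⟩ := hy
      have e : (j g - 1) * (j h - 1) = (j (g * h) - 1) - (j g - 1) - (j h - 1) := by
        rw [hj]
        noncomm_ring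
      show (j g - 1) * (j h - 1) ∈ _
      rw [e]
      exact sub_mem (sub_mem (Submodule.subset_span ⟨_, rfl⟩) (Submodule.subset_span ⟨_, rfl⟩))
        (Submodule.subset_span ⟨_, rfl⟩)
    · rw [mul_zero]; exact zero_mem _
    · rw [mul_add]; exact add_mem ha hb
    · rw [mul_smul_comm]; exact Submodule.smul_mem _ _ ha
  · rw [zero_mul]; exact zero_mem _
  · rw [add_mul]; exact add_mem ha hb
  · rw [smul_mul_assoc]; exact Submodule.smul_mem _ _ ha

private theorem exists_nat_aux {p : ℕ} (hp : p.Prime) (hp0 : (p : B) = 0) [TopologicalSpace T]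
    [CNR T] [Module.Finite T B] [TopologicalSpace B] [IsModuleTopology T B] [IsTopologicalRing B]
    {y : B} (hy : y ∈ (Subring.closure (Set.range j)).topologicalClosure) :
    ∃ k : ℕ, k < p ∧ y - k ∈ Submodule.span T (Set.range fun g => j g - 1) := by
  set P := Submodule.span T (Set.range fun g => j g - 1) with hP
  have hpos : (0 : ℤ) < p := by exact_mod_cast hp.pos
  have red : ∀ y : B, (∃ k : ℕ, k < p ∧ y - k ∈ P) ↔ ∃ k : ℤ, y - k ∈ P := by
    intro y
    constructor
    · rintro ⟨k, -, h⟩
      exact ⟨k, by rwa [Int.cast_natCast]⟩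
    · rintro ⟨k, h⟩
      have h2 := Int.emod_nonneg k hpos.ne'
      have h3 := Int.emod_lt_of_pos k hpos
      obtain ⟨l, hl⟩ := Int.eq_ofNat_of_zero_le h2
      refine ⟨l, by omega, ?_⟩
      have h1 : (l : B) = (k : B) := by
        have h4 : (l : B) = ((k % p : ℤ) : B) := by rw [hl, Int.cast_natCast]
        rw [h4]
        conv_rhs => rw [← Int.emod_add_mul_ediv k p]
        rw [Int.cast_add, Int.cast_mul, Int.cast_natCast, hp0, zero_mul, add_zero]
      rwa [h1]
  let S : Subring B :=
    { carrier := {y | ∃ k : ℤ, y - k ∈ P}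
      mul_mem' := by
        rintro a b ⟨k, ha⟩ ⟨l, hb⟩
        refine ⟨k * l, ?_⟩
        have e : a * b - ((k * l : ℤ) : B) = (a - k) * (b - l) + l • (a - k) + k • (b - l) := by
          rw [Int.cast_mul, zsmul_eq_mul, zsmul_eq_mul]
          have h1 : (l : B) * (a - k) = (a - k) * l := (Int.cast_commute l _)
          rw [h1]
          noncomm_ring
        rw [e]
        exact add_mem (add_mem (aug_mul hj ha hb) (zsmul_mem ha _)) (zsmul_mem hb _)
      one_mem' := ⟨1, by rw [Int.cast_one, sub_self]; exact zero_mem _⟩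
      add_mem' := by
        rintro a b ⟨k, ha⟩ ⟨l, hb⟩
        refine ⟨k + l, ?_⟩
        have e : a + b - ((k + l : ℤ) : B) = (a - k) + (b - l) := by
          rw [Int.cast_add]; abel
        rw [e]
        exact add_mem ha hb
      zero_mem' := ⟨0, by rw [Int.cast_zero, sub_self]; exact zero_mem _⟩
      neg_mem' := by
        rintro a ⟨k, ha⟩
        refine ⟨-k, ?_⟩
        have e : -a - ((-k : ℤ) : B) = -(a - k) := by
          rw [Int.cast_neg]; abel
        rw [e]
        exact neg_mem ha }
  have hScl : IsClosed (S : Set B) := by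
    have h1 : (S : Set B) = ⋃ k ∈ Finset.range p, {y : B | y - (k : B) ∈ P} := by
      ext y
      simp only [Set.mem_iUnion, Finset.mem_range, exists_prop]
      exact (red y).symm
    rw [h1]
    refine isClosed_biUnion_finset fun k _ => ?_
    exact (isClosed_submodule P).preimage (continuous_id.sub continuous_const)
  have hle : (Subring.closure (Set.range j)).topologicalClosure ≤ S := by
    refine Subring.topologicalClosure_minimal _ ?_ hScl
    rw [Subring.closure_le]
    rintro _ ⟨g, rfl⟩
    exact ⟨1, by rw [Int.cast_one]; exact Submodule.subset_span ⟨g, rfl⟩⟩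
  exact (red y).2 (hle hy)

end aug

namespace Rep

variable {p : ℕ} [Fact p.Prime] {G : Type u} [Group G] [TopologicalSpace G] [IsTopologicalGroup G]
  [CompactSpace G] [T2Space G] [TotallyDisconnectedSpace G] {T : Type v} [CommRing T]
  [TopologicalSpace T] [CNR T] [IsDomain T] {Ω : Type v} [Field Ω] [IsAlgClosed Ω] [Algebra T Ω]
  {n : ℕ} {R : Rep p G T Ω n}

private theorem natCast_coe (R : Rep p G T Ω n) (m : ℕ) :
    (((m : ℕ) : R.B) : Module.End Ω (Matrix (Fin n) (Fin n) Ω)) = (m : ℕ) := map_natCast R.B.val m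

private theorem natCast_apply' (R : Rep p G T Ω n) (m : ℕ) (v : Matrix (Fin n) (Fin n) Ω) :
    (((m : ℕ) : R.B) : Module.End Ω (Matrix (Fin n) (Fin n) Ω)) v = (m : Ω) • v := by
  rw [natCast_coe, Module.End.natCast_apply, Nat.cast_smul_eq_nsmul]

/-- PROOF. Let `P` be the `T`-span of the `R.jB g - 1`, a submodule of `R.B`, so closed (`isClosed_submodule`). In characteristic `p` the set `{y : R.B | ∃ k < p, y - k ∈ P}` is a finite union of closed sets, so it is closed, and it is
a subring (`P` is stable under multiplication: `(jB g - 1)(jB h - 1) = (jB (g h) - 1) - (jB g - 1) - (jB h - 1)`; reduce `k` modulo `p`, `(p : Ω) = 0`) containing all `jB g`. So it contains `CB` (the topological closure of the ring generated by the `jB g`). -/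
theorem exists_nat_sub_mem [CharP Ω p] {y : R.B} (hy : y ∈ R.CB) :
    ∃ k : ℕ, k < p ∧ y - k ∈ Submodule.span T (Set.range fun g => R.jB g - 1) := by
  have hp0 : ((p : ℕ) : R.B) = 0 := by
    refine Subtype.ext (LinearMap.ext fun v => ?_)
    rw [natCast_apply', CharP.cast_eq_zero, zero_smul]
    rfl
  have h := @exists_nat_aux T _ R.B _ _ G _ (fun g => R.jB g) (fun g h => map_mul R.jB g h) p
    (Fact.out : p.Prime) hp0 _ _ _ _ _ _ y
  exact h hy

/-- PROOF. `y = k + y'`, `k < p`, `y' ∈ P` (`exists_nat_sub_mem`). If `k = 0`, we are done. Otherwise let `O` be a valuation subring of `Ω` dominating `T` (`exists_dominating`, `isLocalRing_of_cnr`), `R'` the representation on the factor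
(`exists_blkRep`); `R'.Unip O` (`Rep.unip_of_maximal`), and the eigenvalues of `blk y'` are in `O.nonunits` (`Rep.root_of_unip`; see the proof of `coef_tn` in FNoeth). But `blk y = 0` (`blk_eq_zero`), so `blk y' = - k`, and `-k` is an eigenvalue of `blk y'`
(the degree `d` is positive, `blk_pos`); but `k` is invertible modulo `p`, so `-k` is a unit of `O`, contradiction. -/
theorem mem_plusSet_of_acts [CharP Ω p] {k : ℕ} (hR : MCore R k) (Φ : R.Fl) {i : ℕ}
    (hi : i < Φ.l) (hnt : ¬ Φ.Triv i) {y : R.B} (hy : y ∈ R.CB)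
    (h : Φ.Acts (y : Module.End Ω (Matrix (Fin n) (Fin n) Ω)) i 0) : y ∈ R.plusSet := by
  obtain ⟨m, hm, hP⟩ := exists_nat_sub_mem hy
  rcases Nat.eq_zero_or_pos m with h0 | hpos
  · refine ⟨hy, ?_⟩
    have e : y - ((m : ℕ) : R.B) = y := by
      refine Subtype.ext (LinearMap.ext fun v => ?_)
      have e1 : ((y - ((m : ℕ) : R.B) : R.B) : Module.End Ω (Matrix (Fin n) (Fin n) Ω)) v
          = (y : Module.End Ω (Matrix (Fin n) (Fin n) Ω)) v
            - (((m : ℕ) : R.B) : Module.End Ω (Matrix (Fin n) (Fin n) Ω)) v := rfl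
      rw [e1, natCast_apply', h0, Nat.cast_zero, zero_smul, sub_zero]
    rw [e] at hP
    exact hP
  exfalso
  obtain ⟨R', hR'⟩ := exists_blkRep hR Φ hi hnt rfl
  have : IsLocalRing T := isLocalRing_of_cnr T
  obtain ⟨O, hO, hOm⟩ := exists_dominating (K := Ω) (T := T) R.tinj
    (IsLocalRing.maximalIdeal T) inferInstance
  have hOTn : ∀ t : T, IsTopologicallyNilpotent t → algebraMap T Ω t ∈ O.nonunits := by
    intro t ht
    exact (hOm t).2 (mem_maximalIdeal_iff.2 ht)
  have hU : R'.Unip O := R'.unip_of_maximal hR.pf.proP O hO hOTn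
  have h1 : R.blk Φ hi rfl (y - m) ∈ Submodule.span T (Set.range fun g => R'.ρ g - 1) := by
    have h2 : ∀ z ∈ Submodule.span T (Set.range fun g => R.jB g - 1),
        R.blk Φ hi rfl z ∈ Submodule.span T (Set.range fun g => R'.ρ g - 1) := by
      intro z hz
      refine Submodule.span_induction (fun z hz => ?_) ?_ (fun x y _ _ hx hy => ?_)
        (fun t x _ hx => ?_) hz
      · obtain ⟨g, rfl⟩ := hz
        refine Submodule.subset_span ⟨g, ?_⟩
        have e1 : R.blk Φ hi rfl (R.jB g - 1) = R.blk Φ hi rfl (R.jB g) - R.blk Φ hi rfl 1 :=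
          map_sub (R.blk Φ hi rfl) _ _
        show R'.ρ g - 1 = R.blk Φ hi rfl (R.jB g - 1)
        rw [e1, hR', map_one]
      · rw [map_zero]; exact zero_mem _
      · rw [map_add]; exact add_mem hx hy
      · rw [map_smul]; exact Submodule.smul_mem _ _ hx
    exact h2 _ hP
  -- the eigenvalue `-m`
  have h2 : (R.blk Φ hi rfl (y - m)).charpoly.IsRoot (-(m : Ω)) := by
    rw [R.blk_root Φ hi rfl]
    obtain ⟨v, hv, hv'⟩ := SetLike.exists_of_lt (Φ.lt i hi)
    refine ⟨v, hv, hv', ?_⟩
    have h3 := h v hv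
    rw [zero_smul, sub_zero] at h3
    have h4 : ((y - (m : R.B) : R.B) : Module.End Ω (Matrix (Fin n) (Fin n) Ω)) v - (-(m : Ω)) • v
        = (y : Module.End Ω (Matrix (Fin n) (Fin n) Ω)) v := by
      have e1 : ((y - ((m : ℕ) : R.B) : R.B) : Module.End Ω (Matrix (Fin n) (Fin n) Ω)) v
          = (y : Module.End Ω (Matrix (Fin n) (Fin n) Ω)) v
            - (((m : ℕ) : R.B) : Module.End Ω (Matrix (Fin n) (Fin n) Ω)) v := rfl
      rw [e1, natCast_apply', neg_smul, sub_neg_eq_add, sub_add_cancel]
    rw [h4]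
    exact h3
  have h3 := R'.root_of_unip O hO hU h1 h2
  -- `m` is a unit
  have hcop : Nat.Coprime m p :=
    Nat.Coprime.symm (((Fact.out : p.Prime).coprime_iff_not_dvd).2 (Nat.not_dvd_of_pos_of_lt hpos hm))
  obtain ⟨l, -, hl⟩ := Nat.exists_mul_mod_eq_one_of_coprime hcop (Fact.out : p.Prime).one_lt
  have h4 : (m : Ω) * (l : Ω) = 1 := by
    have h5 : ((m * l : ℕ) : Ω) = ((m * l % p : ℕ) : Ω) := by
      conv_lhs => rw [← Nat.mod_add_div (m * l) p]
      rw [Nat.cast_add, Nat.cast_mul p, CharP.cast_eq_zero Ω p, zero_mul, add_zero]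
    rw [hl, Nat.cast_one, Nat.cast_mul] at h5
    exact h5
  have h5 : O.valuation (-(m : Ω)) < 1 := (ValuationSubring.mem_nonunits_iff O).1 h3
  have h6 : O.valuation (l : Ω) ≤ 1 := (O.valuation_le_one_iff _).2 (natCast_mem O l)
  have h7 : O.valuation (-(m : Ω)) * O.valuation (l : Ω) = 1 := by
    rw [← map_mul, neg_mul, h4, Valuation.map_neg, map_one]
  have h8 : O.valuation (-(m : Ω)) * O.valuation (l : Ω) < 1 := mul_lt_one_of_lt_of_le h5 h6
  exact (lt_irrefl _) (h7 ▸ h8)

end Rep

end MP35
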