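import Pool.Agent.Lib_MP_3538b5_al.FFamBlk

/-!
# Layer F: scalars on ideals for families of factors

Owner: helper99.
-/

set_option autoImplicit false
set_option linter.unusedSectionVars false

namespace MP35

universe u v w

namespace Rep

variable {p : ℕ} [Fact p.Prime] {G : Type u} [Group G] [TopologicalSpace G] [IsTopologicalGroup G]
  [CompactSpace G] [T2Space G] [TotallyDisconnectedSpace G] {T : Type v} [CommRing T]
  [TopologicalSpace T] [CNR T] [IsDomain T] {Ω : Type v} [Field Ω] [IsAlgClosed Ω] [Algebra T Ω]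
  {n : ℕ} {R : Rep p G T Ω n}

namespace FamBlk

variable {Φ : R.Fl} {J : Type} [Finite J] (X : FamBlk R Φ J) {T' : Subalgebra T Ω}
  [Module.Finite T T'] [TopologicalSpace T'] [IsModuleTopology T T'] [CNR T'] {k : ℕ}
  (hR : MCore R k)
  (hT' : ∀ j, ∀ y : R.B, ∀ m, (LinearMap.mulLeft Ω (X.π j y)).charpoly.coeff m ∈ T')

include hR hT'

/-- **Scalars of the family on an ideal.** -/
theorem scal (j : J) (q : AddSubgroup R.B)
    (hqC : ∀ x ∈ q, x ∈ R.plusSet) (hl : ∀ a ∈ R.CB, ∀ x ∈ q, a * x ∈ q)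
    (hr : ∀ a ∈ R.CB, ∀ x ∈ q, x * a ∈ q) (hqc : IsClosed (q : Set R.B))
    (hne : ∃ x ∈ q, X.π j x ≠ 0) :
    ∃ z : X.S T', z ≠ 0 ∧ ∀ s : X.S T', ∃ y ∈ q, ∀ i,
      X.π i y = ((X.φ T' i (z * s) : T') : Ω) • (1 : Matrix (Fin X.d) (Fin X.d) Ω) := by
  have : Nonempty J := ⟨j⟩
  have hinf : {c : Ω | ∃ s ∈ scRing T' X.π R.plusSet, ((s j : T') : Ω) = c}.Infinite := by
    have h1 := X.infiniteS hR hT'
    have h2 : Function.Injective fun s : X.S T' => ((X.φ T' j s : T') : Ω) :=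
      Subtype.val_injective.comp (X.φ_inj j)
    have h3 := Set.infinite_range_of_injective h2
    refine h3.mono ?_
    rintro _ ⟨s, rfl⟩
    exact ⟨s, s.2, rfl⟩
  have hqC' : ∀ x ∈ q, x ∈ R.CB := fun x hx => (hqC x hx).1
  have hY : ∀ y ∈ R.plusSet, y ∈ R.CB := fun y hy => hy.1
  have hT'' : HasCoef T' X.π R.plusSet := by
    intro y _ j m
    exact hT' j y m
  have h0 := @scal_blocks T _ _ _ R.B _ _ _ _ _ Ω _ _ T' _ _ _ _ J _ X.d X.π R.plusSet _
    (X.d_pos j) R.CB q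
  obtain ⟨z, hz, hz0, h⟩ := h0 hqC' hl hr hqc hY hqC hT'' j (X.span j) hinf hne
  refine ⟨⟨z, hz⟩, fun h0 => hz0 ?_, fun s => ?_⟩
  · have := congrArg (fun s : X.S T' => (s : J → T') j) h0
    exact this
  · obtain ⟨y, hy, e⟩ := h s.1 s.2
    refine ⟨y, hy, fun i => ?_⟩
    have e2 : X.φ T' i ((⟨z, hz⟩ : X.S T') * s) = (z * s.1) i := rfl
    rw [e2]
    exact e i

end FamBlk

/-- a common finite algebra for the characteristic coefficients of all factors -/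
theorem exists_T' (R : Rep p G T Ω n) (Φ : R.Fl) : ∃ T' : Subalgebra T Ω, Module.Finite T T' ∧
    ∀ (i : ℕ) (hi : i < Φ.l) (d : ℕ) (hd : Φ.dim i = d) (y : R.B) (m : ℕ),
      (LinearMap.mulLeft Ω (R.blk Φ hi hd y)).charpoly.coeff m ∈ T' := by
  have h0 : ∀ (i : ℕ) (hi : i < Φ.l) (d : ℕ) (hd : Φ.dim i = d), ∃ T' : Subalgebra T Ω,
      Module.Finite T T' ∧ ∀ (y : R.B) (m : ℕ),
        (LinearMap.mulLeft Ω (R.blk Φ hi hd y)).charpoly.coeff m ∈ T' := by
    intro i hi d hd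
    have h2 : Submodule.span Ω (Set.range (R.blk Φ hi hd)) = ⊤ := by
      rw [eq_top_iff, ← R.blk_span Φ hi hd]
      refine Submodule.span_mono ?_
      rintro _ ⟨g, rfl⟩
      exact ⟨R.jB g, rfl⟩
    have h3 := @exists_coefAlg T _ Ω _ _ _ _ R.B _ _ _ d (R.blk_pos Φ hi hd) (R.blk Φ hi hd)
    exact h3 h2
  have h1 : ∀ i : Fin Φ.l, ∃ T' : Subalgebra T Ω, Module.Finite T T' ∧
      ∀ (d : ℕ) (hd : Φ.dim (i : ℕ) = d) (y : R.B) (m : ℕ),
        (LinearMap.mulLeft Ω (R.blk Φ i.2 hd y)).charpoly.coeff m ∈ T' := by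
    intro i
    obtain ⟨T', h1, h2⟩ := h0 i i.2 _ rfl
    refine ⟨T', h1, ?_⟩
    rintro d hd
    subst hd
    exact h2
  choose A hA hA' using h1
  obtain ⟨T', hT', h⟩ := exists_supAlg A hA
  refine ⟨T', hT', ?_⟩
  intro i hi d hd y m
  have h3 := hA' ⟨i, hi⟩ d hd y m
  exact h ⟨i, hi⟩ h3

/-- SCALARS for one factor and a closed two-sided ideal `q` of `CB`, over a noetherian ring `S` over which
`T'` is finite. -/
theorem blk_scal [CharP Ω p] {k : ℕ} (hR : MCore R k) (Φ : R.Fl) {i : ℕ} (hi : i < Φ.l)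
    (hnt : ¬ Φ.Triv i) {d : ℕ} (hd : Φ.dim i = d) (q : AddSubgroup R.B)
    (hqC : ∀ x ∈ q, x ∈ R.plusSet) (hl : ∀ a ∈ R.CB, ∀ x ∈ q, a * x ∈ q)
    (hr : ∀ a ∈ R.CB, ∀ x ∈ q, x * a ∈ q) (hqc : IsClosed (q : Set R.B))
    (hne : ∃ x ∈ q, R.blk Φ hi hd x ≠ 0) :
    ∃ (T' : Subalgebra T Ω) (_ : Module.Finite T T') (S : Subring T') (_ : IsNoetherianRing S)
      (_ : Module.Finite S T'), ∃ z ∈ S, z ≠ 0 ∧ ∀ s ∈ S, ∃ y ∈ q,
        R.blk Φ hi hd y = ((z * s : T') : Ω) • (1 : Matrix (Fin d) (Fin d) Ω) := by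
  obtain ⟨T', hfin, hT'⟩ := R.exists_T' Φ
  let _ : TopologicalSpace T' := moduleTopology T T'
  have : IsModuleTopology T T' := ⟨rfl⟩
  have : CNR T' := cnr_of_finite T T'
  let X : FamBlk R Φ Unit :=
    { b := fun _ => i
      lt := fun _ => hi
      nt := fun _ => hnt
      d := d
      dim := fun _ => hd
      ker := fun _ _ y _ h => h }
  have hT'' : ∀ j, ∀ y : R.B, ∀ m, (LinearMap.mulLeft Ω (X.π j y)).charpoly.coeff m ∈ T' :=
    fun j y m => hT' i hi d hd y m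
  obtain ⟨z, hz, h⟩ := X.scal (T' := T') hR hT'' () q hqC hl hr hqc hne
  have h1 := X.noeth (T' := T') hR hT''
  refine ⟨T', hfin, (X.φ T' ()).range, ?_, ?_, X.φ T' () z, ⟨z, rfl⟩, ?_, ?_⟩
  · exact isNoetherianRing_of_surjective _ _ _ (X.φ T' ()).rangeRestrict_surjective
  · have h2 := X.φ_fin (T' := T') hR hT'' ()
    let _ := (X.φ T' ()).toAlgebra
    obtain ⟨F, hF⟩ := (show Module.Finite (X.S T') T' from h2).fg_top
    refine ⟨⟨F, ?_⟩⟩
    rw [eq_top_iff]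
    rintro t -
    have ht : t ∈ Submodule.span (X.S T') (F : Set T') := by rw [hF]; trivial
    refine Submodule.span_induction (fun y hy => Submodule.subset_span hy) (zero_mem _)
      (fun y z _ _ hy hz => add_mem hy hz) (fun c y _ hy => ?_) ht
    have e : c • y = (⟨X.φ T' () c, ⟨c, rfl⟩⟩ : (X.φ T' ()).range) • y := rfl
    rw [e]
    exact Submodule.smul_mem _ _ hy
  · intro h0
    exact hz (X.φ_inj () (by rw [h0, map_zero]))
  · rintro _ ⟨s, rfl⟩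
    obtain ⟨y, hy, e⟩ := h s
    refine ⟨y, hy, ?_⟩
    have := e ()
    rw [map_mul] at this
    exact this

end Rep

end MP35
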