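import Pool.Agent.Lib_MP_3538b5_al.FDefs
import Pool.Agent.Lib_MP_3538b5_al.FExact

/-!
# Layer F: from a family to exact twisted scalars

Owner: helper93.

PROOF of `Fam.exact` (board note 544).
(a) Some `s` in `F.S` has `φ j (z s)` pairwise different and nonzero: otherwise `F.S` is a finite union of the
additive groups `{s | φ i (z s) = φ j (z s)}` (and `0`), so one of them has finite index (B. H. Neumann,
`AddSubgroup.exists_finiteIndex_of_leftCoset_cover`), which is impossible (`F.S` is an infinite domain,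
`φ i ≠ φ j`).  If `F.S` is finite, it is a field with `p ^ f` elements and there are only the automorphisms;
exclude it by `hinf`.
(b) Take `x₀` in `CC` with `Acts x₀ i (φ j (z s))`, `q = p ^ m ≥ Φ.l`, `x = x₀ ^ q`.
`x₀ ∏ (x₀ - φ j (z s))` is in `J 1`, so its `q`-th power is `0`: `x ∏ (x - τ j) = 0`, `τ j = φ j ((z s) ^ q)`;
the idempotents `E j` are the Lagrange polynomials in `x` for the nodes `τ j` and `0` (`Lagrange.basis`), and
`x = ∑ τ j • E j`; `E j` acts on the factor `i` as `1` if `lab i = some j` and as `0` otherwise.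
(c) `ExDat` with `J = Φ.J`, `C = CC`, `φ j = T'.val ∘ F.φ j`, `t = (z s) ^ q`,
`lat = ∑ a • T'·B`, `a` in the finite set of products of two coefficients of the Lagrange polynomials (a finite
`T'`-module; `T'` is finite over `φ j S`).
(d) `ExDat.exact_scalars` with `l = Φ.l`.
-/

set_option autoImplicit false

namespace MP35

universe u v w

/-! ### separating elements -/

/-- two different embeddings of an infinite domain do not agree on a subgroup of finite index
(multiplied by a fixed element) -/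
theorem eq_of_finiteIndex_sep {S : Type u} {L : Type v} [CommRing S] [IsDomain S] [Infinite S]
    [CommRing L] [IsDomain L] {φ ψ : S →+* L} (hφ : Function.Injective φ) {z : S} (hz : z ≠ 0)
    (H : AddSubgroup S) (hH : ∀ s ∈ H, φ (z * s) = ψ (z * s)) (hfi : H.FiniteIndex) : φ = ψ := by
  ext s
  have h1 : (H ⊓ H.comap (AddMonoidHom.mulRight s)).FiniteIndex := by
    have : (H.comap (AddMonoidHom.mulRight s)).FiniteIndex := by
      refine ⟨fun h0 => hfi.index_ne_zero ?_⟩
      have h2 := AddSubgroup.index_comap H (AddMonoidHom.mulRight s)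
      rw [h2] at h0
      have h3 : H.relIndex (AddMonoidHom.mulRight s).range ∣ H.index := by
        exact AddSubgroup.relIndex_dvd_index_of_normal H (AddMonoidHom.mulRight s).range
      rw [h0] at h3
      exact zero_dvd_iff.1 h3
    infer_instance
  have h2 : Infinite (H ⊓ H.comap (AddMonoidHom.mulRight s) : AddSubgroup S) := by
    by_contra hn
    rw [not_infinite_iff_finite] at hn
    have h3 : Finite (S ⧸ (H ⊓ H.comap (AddMonoidHom.mulRight s))) :=
      AddSubgroup.finite_quotient_of_finiteIndex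
    have h4 : Finite S := by
      have e := AddSubgroup.addGroupEquivQuotientProdAddSubgroup
        (s := H ⊓ H.comap (AddMonoidHom.mulRight s))
      exact Finite.of_equiv _ e.symm
    exact not_finite S
  obtain ⟨⟨r, hr⟩, hr0⟩ := exists_ne (0 : (H ⊓ H.comap (AddMonoidHom.mulRight s) : AddSubgroup S))
  have hr0' : r ≠ 0 := fun h => hr0 (Subtype.ext h)
  have h3 := hH r hr.1
  have h4 := hH (r * s) hr.2
  rw [← mul_assoc, map_mul, map_mul ψ (z * r) s, ← h3] at h4
  exact mul_left_cancel₀ (fun h => mul_ne_zero hz hr0' (hφ (h.trans (map_zero φ).symm))) h4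

open Pointwise in
/-- there is an element with different images, also after multiplication by a fixed element -/
theorem exists_sep {S : Type u} {L : Type v} [CommRing S] [IsDomain S] [Infinite S]
    [CommRing L] [IsDomain L] {ι : Type w} [Finite ι] (φ : ι → S →+* L)
    (hφ : ∀ j, Function.Injective (φ j)) (hne : ∀ i j, i ≠ j → φ i ≠ φ j) {z : S} (hz : z ≠ 0) :
    ∃ s : S, s ≠ 0 ∧ ∀ i j, i ≠ j → φ i (z * s) ≠ φ j (z * s) := by
  classical
  have := Fintype.ofFinite ι
  by_contra hcon
  push Not at hcon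
  let H : Option {q : ι × ι // q.1 ≠ q.2} → AddSubgroup S := fun o => match o with
    | none => ⊥
    | some q => (((φ q.1.1 : S →+* L) : S →+ L) - ((φ q.1.2 : S →+* L) : S →+ L)).ker.comap
        (AddMonoidHom.mulLeft z)
  have hcov : ⋃ o ∈ (Finset.univ : Finset (Option {q : ι × ι // q.1 ≠ q.2})),
      ((0 : S) +ᵥ (H o : Set S)) = Set.univ := by
    rw [Set.eq_univ_iff_forall]
    intro s
    rw [Set.mem_iUnion₂]
    by_cases hs : s = 0
    · refine ⟨none, Finset.mem_univ _, ?_⟩
      rw [zero_vadd]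
      show s ∈ (⊥ : AddSubgroup S)
      rw [hs]
      exact zero_mem _
    · obtain ⟨i, j, hij, h⟩ := hcon s hs
      refine ⟨some ⟨(i, j), hij⟩, Finset.mem_univ _, ?_⟩
      rw [zero_vadd]
      show z * s ∈ (((φ i : S →+* L) : S →+ L) - ((φ j : S →+* L) : S →+ L)).ker
      rw [AddMonoidHom.mem_ker, AddMonoidHom.sub_apply]
      exact sub_eq_zero.2 h
  obtain ⟨o, -, ho⟩ := AddSubgroup.exists_finiteIndex_of_leftCoset_cover hcov
  cases o with
  | none =>
    have h3 : Finite (S ⧸ (⊥ : AddSubgroup S)) := by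
      have : (⊥ : AddSubgroup S).FiniteIndex := ho
      exact AddSubgroup.finite_quotient_of_finiteIndex
    have h4 : Finite S := Finite.of_equiv _ (QuotientAddGroup.quotientBot (G := S)).toEquiv
    exact not_finite S
  | some q =>
    refine hne q.1.1 q.1.2 q.2 (eq_of_finiteIndex_sep (hφ q.1.1) hz (H (some q)) ?_ ho)
    intro s hs
    have h1 : z * s ∈ (((φ q.1.1 : S →+* L) : S →+ L) - ((φ q.1.2 : S →+* L) : S →+ L)).ker := hs
    rw [AddMonoidHom.mem_ker, AddMonoidHom.sub_apply] at h1
    exact sub_eq_zero.1 h1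

/-! ### finite generation over a subring -/

theorem fin_gen {S : Type u} {L : Type v} {M : Type w} [CommRing S] [CommRing L] [AddCommGroup M]
    [Module L M] (φ : S →+* L) (hφ : φ.Finite) (N : Submodule L M) (hN : N.FG) :
    ∃ F : Finset M, ∀ v ∈ N, ∃ c : M → S, v = ∑ a ∈ F, φ (c a) • a := by
  let _ : Algebra S L := φ.toAlgebra
  have h1 : Module.Finite S L := hφ
  let _ : Module S M := Module.compHom M φ
  have h2 : IsScalarTower S L M := ⟨fun s t m => by
    show (φ s * t) • m = φ s • (t • m)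
    rw [mul_smul]⟩
  have h3 : Module.Finite L N := Module.Finite.iff_fg.2 hN
  have h4 : Module.Finite S N := Module.Finite.trans L N
  have h5 : (N.restrictScalars S).FG := Module.Finite.iff_fg.1 h4
  obtain ⟨F, hF⟩ := h5
  refine ⟨F, fun v hv => ?_⟩
  have hv' : v ∈ Submodule.span S (F : Set M) := by
    rw [hF]
    exact hv
  obtain ⟨f, -, hf⟩ := Submodule.mem_span_finset.1 hv'
  exact ⟨f, hf.symm⟩

/-! ### scalars on the factors -/

namespace Flag

variable {Ω : Type v} [Field Ω] {V : Type w} [AddCommGroup V] [Module Ω V]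
  {X : Set (Module.End Ω V)} (Fl : Flag X)

theorem Acts_zero (i : ℕ) : Fl.Acts 0 i 0 := by
  intro v _
  rw [zero_smul, sub_zero, LinearMap.zero_apply]
  exact zero_mem _

theorem Acts_one (i : ℕ) : Fl.Acts 1 i 1 := by
  intro v _
  rw [one_smul, Module.End.one_apply, sub_self]
  exact zero_mem _

theorem Acts_smul {y : Module.End Ω V} {i : ℕ} {c : Ω} (hy : Fl.Acts y i c) (a : Ω) :
    Fl.Acts (a • y) i (a * c) := by
  intro v hv
  have := (Fl.W i).smul_mem a (hy v hv)
  rwa [smul_sub, smul_smul] at this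

theorem Acts_sum {α : Type*} (s : Finset α) {y : α → Module.End Ω V} {i : ℕ} {c : α → Ω}
    (hy : ∀ a ∈ s, Fl.Acts (y a) i (c a)) : Fl.Acts (∑ a ∈ s, y a) i (∑ a ∈ s, c a) := by
  classical
  induction s using Finset.induction_on with
  | empty =>
    rw [Finset.sum_empty, Finset.sum_empty]
    exact Fl.Acts_zero i
  | insert a s ha ih =>
    rw [Finset.sum_insert ha, Finset.sum_insert ha]
    exact Flag.Acts.add Fl (hy a (Finset.mem_insert_self a s))
      (ih fun b hb => hy b (Finset.mem_insert_of_mem hb))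

theorem J0_mul {a b : Module.End Ω V} (ha : a ∈ Fl.J 0) (hb : b ∈ Fl.J 0) : a * b ∈ Fl.J 0 := by
  have := Fl.J_mul ha hb
  rwa [add_zero] at this

theorem J0_pow {a : Module.End Ω V} (ha : a ∈ Fl.J 0) (k : ℕ) : a ^ k ∈ Fl.J 0 := by
  induction k with
  | zero =>
    rw [pow_zero]
    exact Fl.J_one
  | succ k ih =>
    rw [pow_succ]
    exact Fl.J0_mul ih ha

theorem Acts_pow {y : Module.End Ω V} {i : ℕ} {c : Ω} (hy0 : y ∈ Fl.J 0) (hy : Fl.Acts y i c)
    (k : ℕ) : Fl.Acts (y ^ k) i (c ^ k) := by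
  induction k with
  | zero =>
    rw [pow_zero, pow_zero]
    exact Fl.Acts_one i
  | succ k ih =>
    rw [pow_succ, pow_succ]
    exact Flag.Acts.mul Fl ih (Fl.J0_pow hy0 k) hy

theorem J0_aeval {y : Module.End Ω V} (hy0 : y ∈ Fl.J 0) (P : Polynomial Ω) :
    Polynomial.aeval y P ∈ Fl.J 0 := by
  rw [Polynomial.aeval_eq_sum_range]
  exact Submodule.sum_mem _ fun k _ => Submodule.smul_mem _ _ (Fl.J0_pow hy0 k)

theorem Acts_aeval {y : Module.End Ω V} {i : ℕ} {c : Ω} (hy0 : y ∈ Fl.J 0) (hy : Fl.Acts y i c)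
    (P : Polynomial Ω) : Fl.Acts (Polynomial.aeval y P) i (P.eval c) := by
  rw [Polynomial.aeval_eq_sum_range, Polynomial.eval_eq_sum_range]
  exact Fl.Acts_sum _ fun k _ => Fl.Acts_smul (Fl.Acts_pow hy0 hy k) _

theorem J_pow {y : Module.End Ω V} (hy : y ∈ Fl.J 1) (k : ℕ) : y ^ k ∈ Fl.J k := by
  induction k with
  | zero =>
    rw [pow_zero]
    exact Fl.J_one
  | succ k ih =>
    rw [pow_succ]
    exact Fl.J_mul ih hy

end Flag

/-! ### the idempotents -/

section lagrange

variable {Ω : Type v} [Field Ω] {A : Type w} [Ring A] [Algebra Ω A] {α : Type u} [Fintype α]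
  [DecidableEq α]

open Polynomial

theorem lag_mul {x : A} {ν : α → Ω} (hx : aeval x (∏ a, (X - C (ν a))) = 0) (a : α) :
    x * aeval x (Lagrange.basis Finset.univ ν a) =
      ν a • aeval x (Lagrange.basis Finset.univ ν a) := by
  have h1 : (X - C (ν a)) * Lagrange.basis Finset.univ ν a =
      C (∏ b ∈ Finset.univ.erase a, (ν a - ν b)⁻¹) * ∏ b, (X - C (ν b)) := by
    have h2 : Lagrange.basis Finset.univ ν a = C (∏ b ∈ Finset.univ.erase a, (ν a - ν b)⁻¹) *
        ∏ b ∈ Finset.univ.erase a, (X - C (ν b)) := by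
      rw [map_prod, ← Finset.prod_mul_distrib]
      rfl
    rw [h2, ← Finset.mul_prod_erase Finset.univ (fun b => X - C (ν b)) (Finset.mem_univ a)]
    ring
  have h3 := congrArg (aeval x) h1
  rw [map_mul, map_mul, hx, mul_zero, map_sub, aeval_X, aeval_C, sub_mul, sub_eq_zero] at h3
  rw [h3, Algebra.smul_def]

theorem lag_comm (x : A) (P Q : Polynomial Ω) : aeval x P * aeval x Q = aeval x Q * aeval x P := by
  rw [← map_mul, mul_comm, map_mul]

theorem lag_orth {x : A} {ν : α → Ω} (hν : Function.Injective ν)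
    (hx : aeval x (∏ a, (X - C (ν a))) = 0) {a b : α} (hab : a ≠ b) :
    aeval x (Lagrange.basis Finset.univ ν a) * aeval x (Lagrange.basis Finset.univ ν b) = 0 := by
  set ea := aeval x (Lagrange.basis Finset.univ ν a) with hea
  set eb := aeval x (Lagrange.basis Finset.univ ν b) with heb
  have h1 : x * (ea * eb) = ν a • (ea * eb) := by
    rw [← mul_assoc, lag_mul hx, smul_mul_assoc]
  have h2 : x * (ea * eb) = ν b • (ea * eb) := by
    have h3 : ea * eb = eb * ea := lag_comm x _ _
    rw [h3, ← mul_assoc, lag_mul hx, smul_mul_assoc]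
  rw [h1, ← sub_eq_zero, ← sub_smul] at h2
  by_contra hne
  exact sub_ne_zero.2 (hν.ne hab) ((smul_eq_zero.1 h2).resolve_right hne)

theorem lag_sum [Nonempty α] {x : A} {ν : α → Ω} (hν : Function.Injective ν) :
    ∑ a, aeval x (Lagrange.basis Finset.univ ν a) = 1 := by
  rw [← map_sum, Lagrange.sum_basis (hν.injOn) Finset.univ_nonempty, map_one]

theorem lag_idem [Nonempty α] {x : A} {ν : α → Ω} (hν : Function.Injective ν)
    (hx : aeval x (∏ a, (X - C (ν a))) = 0) (a : α) :
    aeval x (Lagrange.basis Finset.univ ν a) * aeval x (Lagrange.basis Finset.univ ν a) =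
      aeval x (Lagrange.basis Finset.univ ν a) := by
  have h1 : aeval x (Lagrange.basis Finset.univ ν a) *
      ∑ b, aeval x (Lagrange.basis Finset.univ ν b) =
      aeval x (Lagrange.basis Finset.univ ν a) := by
    rw [lag_sum hν, mul_one]
  rw [Finset.mul_sum, Finset.sum_eq_single a] at h1
  · exact h1
  · intro b _ hb
    exact lag_orth hν hx (Ne.symm hb)
  · intro h
    exact absurd (Finset.mem_univ a) h

theorem lag_x [Nonempty α] {x : A} {ν : α → Ω} (hν : Function.Injective ν)
    (hx : aeval x (∏ a, (X - C (ν a))) = 0) :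
    x = ∑ a, ν a • aeval x (Lagrange.basis Finset.univ ν a) := by
  conv_lhs => rw [← mul_one x, ← lag_sum (x := x) hν, Finset.mul_sum]
  exact Finset.sum_congr rfl fun a _ => lag_mul hx a

omit [DecidableEq α] in
/-- the polynomial identity in characteristic `p` -/
theorem prod_pow_char (p : ℕ) [Fact p.Prime] [CharP Ω p] (ν : α → Ω) (m : ℕ) :
    (∏ a, (X - C (ν a))) ^ p ^ m = (∏ a, (X - C (ν a ^ p ^ m))).comp (X ^ p ^ m : Polynomial Ω) := by
  rw [← Finset.prod_pow, prod_comp]
  refine Finset.prod_congr rfl fun a _ => ?_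
  rw [sub_comp, X_comp, C_comp, sub_pow_char_pow, C_pow]

end lagrange

namespace Rep

variable {p : ℕ} {G : Type u} [Group G] [TopologicalSpace G] {T : Type v} [CommRing T]
  [TopologicalSpace T] {Ω : Type v} [Field Ω] [Algebra T Ω] {n : ℕ} {R : Rep p G T Ω n} [CNR T]

/-- **Exact twisted scalars for a family.** -/
theorem Fam.exact [Fact p.Prime] [CharP Ω p] {Φ : R.Fl} {T' : Subalgebra T Ω}
    [Module.Finite T T'] (F : R.Fam Φ T') (hinf : Infinite F.S) :
    ∃ (E : F.ι → Module.End Ω (Matrix (Fin n) (Fin n) Ω)) (w : F.S) (m : ℕ),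
      w ≠ 0 ∧ (∀ j, E j * E j = E j) ∧ (∀ i j, i ≠ j → E i * E j = 0) ∧ (∀ j, E j ∈ Φ.J 0) ∧
      (∀ j, ∀ i < Φ.l, Φ.Acts (E j) i (if F.lab i = some j then 1 else 0)) ∧
      ∀ s, ∑ j, ((F.φ j ((w * s) ^ p ^ m) : T') : Ω) • E j ∈ R.CC := by
  classical
  have hp : p.Prime := Fact.out
  obtain ⟨z, hz, hscal⟩ := F.scal
  -- (a)
  let ψ : F.ι → F.S →+* Ω := fun j => (T'.val : T' →+* Ω).comp (F.φ j)
  have hψ : ∀ j s, ψ j s = ((F.φ j s : T') : Ω) := fun _ _ => rfl
  have hψi : ∀ j, Function.Injective (ψ j) := fun j =>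
    Subtype.val_injective.comp (F.φ_inj j)
  have hψn : ∀ i j, i ≠ j → ψ i ≠ ψ j := by
    intro i j hij h
    refine F.φ_ne i j hij (RingHom.ext fun s => Subtype.ext ?_)
    exact RingHom.congr_fun h s
  obtain ⟨s₀, hs₀, hsep⟩ := exists_sep ψ hψi hψn hz
  obtain ⟨x₀, hx₀C, hx₀⟩ := hscal s₀
  have hzs : z * s₀ ≠ 0 := mul_ne_zero hz hs₀
  -- (b)
  let τ : Option F.ι → Ω := fun o => match o with
    | some j => ψ j (z * s₀)
    | none => 0
  have hτi : Function.Injective τ := by
    intro a b hab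
    cases a with
    | none =>
      cases b with
      | none => rfl
      | some j =>
        have h1 : (0 : Ω) = ψ j (z * s₀) := hab
        exact absurd (hψi j (h1.symm.trans (map_zero _).symm)) hzs
    | some i =>
      cases b with
      | none =>
        have h1 : ψ i (z * s₀) = 0 := hab
        exact absurd (hψi i (h1.trans (map_zero _).symm)) hzs
      | some j =>
        by_contra hne
        exact hsep i j (fun h => hne (congrArg some h)) hab
  have hacts : ∀ i < Φ.l, Φ.Acts x₀ i (τ (F.lab i)) := by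
    intro i hi
    have h1 := hx₀ i hi
    cases h : F.lab i with
    | none =>
      rw [h] at h1
      exact h1
    | some j =>
      rw [h] at h1
      exact h1
  obtain ⟨m, hm⟩ : ∃ m : ℕ, Φ.l ≤ p ^ m := ⟨Φ.l, (Nat.lt_pow_self hp.one_lt).le⟩
  have hx₀J : x₀ ∈ Φ.J 0 := R.CC_J hx₀C
  set x : Module.End Ω (Matrix (Fin n) (Fin n) Ω) := x₀ ^ p ^ m with hx
  have hxC : x ∈ R.CC := pow_mem hx₀C _
  have hxJ : x ∈ Φ.J 0 := Φ.J0_pow hx₀J _
  let ν : Option F.ι → Ω := fun o => τ o ^ p ^ m
  have hνi : Function.Injective ν := by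
    intro a b hab
    apply hτi
    have := iterateFrobenius_inj Ω p m
    apply this
    rw [iterateFrobenius_def, iterateFrobenius_def]
    exact hab
  have hxP : Polynomial.aeval x (∏ a, (Polynomial.X - Polynomial.C (ν a))) = 0 := by
    have h1 : Polynomial.aeval x₀ (∏ a, (Polynomial.X - Polynomial.C (τ a))) ∈ Φ.J 1 := by
      rw [Φ.mem_J_one]
      intro i hi
      have h2 := Φ.Acts_aeval hx₀J (hacts i hi) (∏ a, (Polynomial.X - Polynomial.C (τ a)))
      have h3 : (∏ a, (Polynomial.X - Polynomial.C (τ a))).eval (τ (F.lab i)) = 0 := by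
        rw [Polynomial.eval_prod]
        refine Finset.prod_eq_zero (Finset.mem_univ (F.lab i)) ?_
        rw [Polynomial.eval_sub, Polynomial.eval_X, Polynomial.eval_C, sub_self]
      rw [h3] at h2
      exact h2
    have h2 : Polynomial.aeval x₀ (∏ a, (Polynomial.X - Polynomial.C (τ a))) ^ p ^ m = 0 :=
      Φ.J_last _ (Φ.J_anti hm (Φ.J_pow h1 _))
    rw [← map_pow, prod_pow_char p, Polynomial.aeval_comp, map_pow, Polynomial.aeval_X] at h2
    exact h2
  let e : Option F.ι → Module.End Ω (Matrix (Fin n) (Fin n) Ω) := fun a =>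
    Polynomial.aeval x (Lagrange.basis Finset.univ ν a)
  have heJ : ∀ a, e a ∈ Φ.J 0 := fun a => Φ.J0_aeval hxJ _
  have heacts : ∀ a, ∀ i < Φ.l, Φ.Acts (e a) i (if F.lab i = a then 1 else 0) := by
    intro a i hi
    have h1 : Φ.Acts x i (ν (F.lab i)) := Φ.Acts_pow hx₀J (hacts i hi) _
    have h2 := Φ.Acts_aeval hxJ h1 (Lagrange.basis Finset.univ ν a)
    by_cases h : F.lab i = a
    · rw [if_pos h]
      rw [h, Lagrange.eval_basis_self hνi.injOn (Finset.mem_univ a)] at h2
      exact h2
    · rw [if_neg h]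
      rw [Lagrange.eval_basis_of_ne (Ne.symm h) (Finset.mem_univ _)] at h2
      exact h2
  have hxsum : x = ∑ j : F.ι, ψ j ((z * s₀) ^ p ^ m) • e (some j) := by
    have h1 := lag_x hνi hxP
    rw [Fintype.sum_option] at h1
    have h2 : ν none = 0 := zero_pow (pow_ne_zero _ hp.ne_zero)
    rw [h2, zero_smul, zero_add] at h1
    refine h1.trans (Finset.sum_congr rfl fun j _ => ?_)
    rw [map_pow]
  -- (c) the lattice
  let B' : Submodule T' (Module.End Ω (Matrix (Fin n) (Fin n) Ω)) :=
    Submodule.span T' (R.B : Set (Module.End Ω (Matrix (Fin n) (Fin n) Ω)))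
  have hB'fg : B'.FG := by
    have hfB : Module.Finite T (Subalgebra.toSubmodule R.B) := R.finB
    obtain ⟨G₀, hG₀⟩ := Module.Finite.iff_fg.1 hfB
    refine ⟨G₀, le_antisymm (Submodule.span_mono ?_) (Submodule.span_le.2 ?_)⟩
    · intro b hb
      have : b ∈ Subalgebra.toSubmodule R.B := hG₀ ▸ Submodule.subset_span hb
      exact this
    · intro b hb
      have h1 : b ∈ Submodule.span T (G₀ : Set (Module.End Ω (Matrix (Fin n) (Fin n) Ω))) := by
        rw [hG₀]
        exact hb
      have h2 := Submodule.span_le_restrictScalars T T'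
        (G₀ : Set (Module.End Ω (Matrix (Fin n) (Fin n) Ω)))
      exact h2 h1
  have hB'C : ∀ y ∈ R.CC, y ∈ B' := fun y hy => Submodule.subset_span (R.CC_le_B hy)
  let P : F.ι → Polynomial Ω := fun j => Lagrange.basis Finset.univ ν (some j)
  obtain ⟨D, hD⟩ : ∃ D : ℕ, ∀ j, (P j).natDegree < D := by
    refine ⟨∑ j, ((P j).natDegree + 1), fun j => ?_⟩
    exact Nat.lt_of_succ_le (Finset.single_le_sum
      (f := fun j => (P j).natDegree + 1) (fun _ _ => Nat.zero_le _) (Finset.mem_univ j))
  have hE : ∀ j, e (some j) = ∑ k ∈ Finset.range D, (P j).coeff k • x ^ k := fun j =>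
    Polynomial.aeval_eq_sum_range' (hD j) x
  let sc : Ω → Submodule T' (Module.End Ω (Matrix (Fin n) (Fin n) Ω)) := fun c =>
    B'.map ((c • (LinearMap.id : Module.End Ω (Matrix (Fin n) (Fin n) Ω) →ₗ[Ω]
      Module.End Ω (Matrix (Fin n) (Fin n) Ω))).restrictScalars T')
  have hsc : ∀ c, ∀ b ∈ B', c • b ∈ sc c := fun c b hb => ⟨b, hb, rfl⟩
  let N : Submodule T' (Module.End Ω (Matrix (Fin n) (Fin n) Ω)) :=
    (⨆ q : F.ι × Fin D, sc ((P q.1).coeff q.2)) ⊔
      ⨆ q : F.ι × Fin D × Fin D, sc ((P q.1).coeff q.2.1 * (P q.1).coeff q.2.2)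
  have hN : N.FG := by
    refine Submodule.FG.sup ?_ ?_
    · exact Submodule.fg_iSup _ fun q => hB'fg.map _
    · exact Submodule.fg_iSup _ fun q => hB'fg.map _
  have hN1 : ∀ j, ∀ k < D, ∀ b ∈ B', (P j).coeff k • b ∈ N := fun j k hk b hb =>
    Submodule.mem_sup_left (Submodule.mem_iSup_of_mem (j, ⟨k, hk⟩) (hsc _ b hb))
  have hN2 : ∀ j, ∀ k < D, ∀ l < D, ∀ b ∈ B', ((P j).coeff k * (P j).coeff l) • b ∈ N :=
    fun j k hk l hl b hb =>
      Submodule.mem_sup_right (Submodule.mem_iSup_of_mem (j, ⟨k, hk⟩, ⟨l, hl⟩) (hsc _ b hb))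
  have hlatC : ∀ y ∈ R.CC, ∀ j, y * e (some j) ∈ N ∧ e (some j) * y ∈ N ∧
      e (some j) * y * e (some j) ∈ N := by
    intro y hy j
    have hpow : ∀ k, x ^ k ∈ R.CC := fun k => pow_mem hxC k
    refine ⟨?_, ?_, ?_⟩
    · rw [hE, Finset.mul_sum]
      refine Submodule.sum_mem _ fun k hk => ?_
      rw [mul_smul_comm]
      exact hN1 j k (Finset.mem_range.1 hk) _ (hB'C _ (mul_mem hy (hpow k)))
    · rw [hE, Finset.sum_mul]
      refine Submodule.sum_mem _ fun k hk => ?_
      rw [smul_mul_assoc]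
      exact hN1 j k (Finset.mem_range.1 hk) _ (hB'C _ (mul_mem (hpow k) hy))
    · rw [hE, Finset.sum_mul, Finset.sum_mul]
      refine Submodule.sum_mem _ fun k hk => ?_
      rw [Finset.mul_sum]
      refine Submodule.sum_mem _ fun l hl => ?_
      rw [smul_mul_assoc, smul_mul_assoc, mul_smul_comm, smul_smul]
      exact hN2 j k (Finset.mem_range.1 hk) l (Finset.mem_range.1 hl) _
        (hB'C _ (mul_mem (mul_mem (hpow k) hy) (hpow l)))
  let Y : ExDat Ω (Module.End Ω (Matrix (Fin n) (Fin n) Ω)) F.S F.ι :=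
    { J := Φ.J
      J_anti := Φ.J_anti
      J_mul := fun ha hb => Φ.J_mul ha hb
      J_one := Φ.J_one
      C := R.CC
      C_le := fun y hy => R.CC_J hy
      φ := ψ
      φ_inj := hψi
      E := fun j => e (some j)
      E_mem := fun j => heJ _
      E_idem := fun j => lag_idem hνi hxP _
      E_orth := fun i j hij => lag_orth hνi hxP fun h => hij (Option.some.inj h)
      t := (z * s₀) ^ p ^ m
      t_ne := pow_ne_zero _ hzs
      t_sep := by
        intro i j hij h
        rw [map_pow, map_pow] at h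
        exact hij (Option.some.inj (hνi (a₁ := some i) (a₂ := some j) h))
      x_mem := by
        rw [← hxsum]
        exact hxC
      lat := N.toAddSubgroup
      lat_smul := fun j s v hv => N.smul_mem (F.φ j s) hv
      lat_fg := fun j => fin_gen (F.φ j) (F.φ_fin j) N hN
      lat_C := hlatC }
  have hYbr : ∀ s, Y.br s = ∑ j, ((F.φ j s : T') : Ω) • e (some j) := fun s => rfl
  have hbracts : ∀ s, ∀ i < Φ.l, Φ.Acts (Y.br s) i (match F.lab i with
      | some j => ((F.φ j s : T') : Ω)
      | none => 0) := by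
    intro s i hi
    rw [hYbr]
    have h1 := Φ.Acts_sum Finset.univ (fun j _ =>
      Φ.Acts_smul (heacts (some j) i hi) ((F.φ j s : T') : Ω))
    have h2 : ∑ j, ((F.φ j s : T') : Ω) * (if F.lab i = some j then (1 : Ω) else 0) =
        (match F.lab i with
          | some j => ((F.φ j s : T') : Ω)
          | none => 0) := by
      cases h : F.lab i with
      | none =>
        refine Finset.sum_eq_zero fun j _ => ?_
        rw [if_neg (by simp), mul_zero]
      | some j =>
        rw [Finset.sum_eq_single j]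
        · rw [if_pos rfl, mul_one]
        · intro j' _ hj'
          rw [if_neg (fun h' => hj' (Option.some.inj h').symm), mul_zero]
        · intro h'
          exact absurd (Finset.mem_univ j) h'
    rw [h2] at h1
    exact h1
  obtain ⟨w, hw, hws⟩ := Y.exact_scalars p (l := Φ.l) Φ.J_last
    ⟨z, hz, fun s => by
      obtain ⟨y, hyC, hy⟩ := hscal s
      refine ⟨y, hyC, ?_⟩
      have h0 : y - Y.br (z * s) ∈ Φ.J 1 := by
        rw [Φ.mem_J_one]
        intro i hi
        have h1 := Flag.Acts.sub Φ (hy i hi) (hbracts (z * s) i hi)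
        convert h1 using 1
        cases F.lab i
        · exact (sub_self _).symm
        · exact (sub_self _).symm
      exact h0⟩ hm
  refine ⟨fun j => e (some j), w, m, hw, fun j => lag_idem hνi hxP _,
    fun i j hij => lag_orth hνi hxP fun h => hij (Option.some.inj h), fun j => heJ _,
    fun j i hi => heacts (some j) i hi, fun s => ?_⟩
  exact hws s

end Rep

end MP35
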