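import Mathlib

/-!
# MP_3538b5_al, layer F (families): a torsion lemma

`Θ` an injective endomorphism of a finitely generated module over a domain `S`: some `w ≠ 0` in `S`
maps the module into the image of `Θ`.
-/

set_option autoImplicit false

namespace MP35

universe u v

open Polynomial

/-- an injective endomorphism of a finite module over a domain has torsion cokernel -/
theorem exists_smul_mem_range {S : Type u} {M : Type v} [CommRing S] [IsDomain S] [AddCommGroup M]
    [Module S M] [Module.Finite S M] (θ : M →ₗ[S] M) (hθ : Function.Injective θ) :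
    ∃ w : S, w ≠ 0 ∧ ∀ m : M, ∃ m' : M, θ m' = w • m := by
  obtain ⟨P, hPm, hP⟩ := LinearMap.exists_monic_and_aeval_eq_zero S θ
  have hP0 : P ≠ 0 := hPm.ne_zero
  -- strong induction on the degree
  have key : ∀ n : ℕ, ∀ P : S[X], P.natDegree = n → P ≠ 0 → aeval θ P = 0 →
      ∃ w : S, w ≠ 0 ∧ ∀ m : M, ∃ m' : M, θ m' = w • m := by
    intro n
    induction n using Nat.strong_induction_on with
    | _ n ih =>
      intro P hn hP0 hP
      have e := P.divX_mul_X_add
      by_cases h0 : P.coeff 0 = 0
      · rw [h0, C_0, add_zero] at e
        have hne : P.divX ≠ 0 := by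
          rintro h
          rw [h, zero_mul] at e
          exact hP0 e.symm
        have hz : aeval θ P.divX = 0 := by
          rw [← e, map_mul, aeval_X] at hP
          -- `divX(θ) * θ = 0`, and they commute
          refine LinearMap.ext fun m => hθ ?_
          have h1 : (θ * aeval θ P.divX) m = 0 := by
            have hc : θ * aeval θ P.divX = aeval θ P.divX * θ := by
              have := congrArg (aeval θ) (mul_comm (X : S[X]) P.divX)
              rwa [map_mul, map_mul, aeval_X] at this
            rw [hc, hP]
            rfl
          simpa using h1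
        refine ih P.divX.natDegree ?_ P.divX rfl hne hz
        rw [← hn]
        have h2 : P.natDegree = P.divX.natDegree + 1 := by
          conv_lhs => rw [← e]
          rw [natDegree_mul_X hne]
        omega
      · refine ⟨P.coeff 0, h0, fun m => ⟨-(aeval θ P.divX m), ?_⟩⟩
        rw [← e, map_add, map_mul, aeval_X, aeval_C] at hP
        have h1 : (aeval θ P.divX * θ) m + P.coeff 0 • m = 0 := by
          have := congrArg (fun f : Module.End S M => f m) hP
          simpa [Algebra.algebraMap_eq_smul_one] using this
        have hc : aeval θ P.divX * θ = θ * aeval θ P.divX := by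
          have := congrArg (aeval θ) (mul_comm P.divX (X : S[X]))
          rwa [map_mul, map_mul, aeval_X] at this
        rw [hc] at h1
        rw [map_neg, neg_eq_iff_add_eq_zero]
        simpa [add_comm] using h1
  exact key _ P rfl hP0 hP

/-- the form used for families -/
theorem torsion_span {S : Type u} {X : Type v} [CommRing S] [IsDomain S] [AddCommGroup X]
    [Module S X] (Θ : X →ₗ[S] X) (O : Set X) (hO : ∀ o ∈ O, Θ o ∈ O)
    (hfg : (Submodule.span S O).FG) (hinj : ∀ f ∈ Submodule.span S O, Θ f = 0 → f = 0) :
    ∃ w : S, w ≠ 0 ∧ ∀ o ∈ Submodule.span S O, w • o ∈ Submodule.span S (Θ '' O) := by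
  set M := Submodule.span S O with hM
  have hmap : ∀ f ∈ M, Θ f ∈ M := by
    intro f hf
    have h1 : M.map Θ ≤ M := by
      rw [hM, Submodule.map_span]
      refine Submodule.span_le.2 ?_
      rintro _ ⟨o, ho, rfl⟩
      exact Submodule.subset_span (hO o ho)
    exact h1 ⟨f, hf, rfl⟩
  have : Module.Finite S M := Module.Finite.iff_fg.2 hfg
  let θ : M →ₗ[S] M := Θ.restrict hmap
  have hθ : Function.Injective θ := by
    rw [injective_iff_map_eq_zero]
    intro a ha
    have : Θ a = 0 := congrArg Subtype.val ha
    exact Subtype.ext (hinj a a.2 this)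
  obtain ⟨w, hw, h⟩ := exists_smul_mem_range θ hθ
  refine ⟨w, hw, fun o ho => ?_⟩
  obtain ⟨m', hm'⟩ := h ⟨o, ho⟩
  have e : Θ m' = w • o := congrArg Subtype.val hm'
  rw [← e, ← Submodule.map_span]
  exact ⟨m', m'.2, rfl⟩

end MP35
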