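import Mathlib

/-! # Piece QADAPT: adapted levels -/

set_option autoImplicit false

namespace MP35

universe u v w

/-- Existence of an adapted level. `A` is a domain with an endomorphism `w` such that `w ^ N` is the Frobenius map.

PROOF. `w` is injective. Let `d = t₀ * r₀`, choose `M` with `K ≤ N * M`, `d₀ = d ^ p ^ M = w^[N * M] d`, exponents `b i`, `i < N`, strictly decreasing, positive with
`p * b (N-1) > b 0` (e.g. `b i = 2 * N - i`: `b 0 = 2 N < 2 (N + 1) = 2 b (N-1)`). `D = ∏ i < N, (w^[i] d₀) ^ b i`. Then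
`w D = d₀ ^ (p * b (N-1)) * ∏_{1 ≤ i < N} (w^[i] d₀) ^ b (i-1) = D * η₁` with `η₁ = d₀ ^ (p * b (N-1) - b 0) * ∏_{1 ≤ i < N} (w^[i] d₀) ^ (b (i-1) - b i)`; all exponents are positive, so
`D ∣ η₁ ^ (2 N)`; all `w^[i] d₀`, `i < N`, divide `D`, so `η₁ ∣ D ^ e₁` for some `e₁`. `w^[k] D = D * (η₁ * w η₁ * … * w^[k-1] η₁)`, and by induction `w^[i] η₁ ∣ (w^[i] D) ^ e₁` divides a power of `D`.
For `k ≤ K`: `D' = ∏ i < N, (w^[i + N * M - k] d) ^ b i` has `w^[k] D' = D`; some `i < N` has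
`i + N * M - k = N * m'`, and `w^[N * m'] d = d ^ p ^ m'` is divisible by `d`, so by `t₀`. -/
theorem adapted {A : Type v} [CommRing A] [IsDomain A] (w : A →+* A) {p N : ℕ} (hp : 2 ≤ p)
    (hN : 0 < N) (hw : ∀ r, w^[N] r = r ^ p) (t₀ r₀ : A) (ht : t₀ ≠ 0) (hr : r₀ ≠ 0) (K : ℕ) :
    ∃ D : A, D ≠ 0 ∧ r₀ ∣ D ∧ t₀ ∣ D ∧ ∀ k, 1 ≤ k → k ≤ K →
      (∃ η : A, ∃ e : ℕ, w^[k] D = D * η ∧ D ∣ η ^ e ∧ η ∣ D ^ e) ∧
      ∃ D' : A, t₀ ∣ D' ∧ w^[k] D' = D := by
  obtain ⟨n, rfl⟩ : ∃ n, N = n + 1 := ⟨N - 1, by omega⟩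
  have hit : ∀ m : ℕ, ∀ x : A, w^[m] x = (w ^ m) x := fun m x => by rw [RingHom.coe_pow]
  have hw' : ∀ m : ℕ, ∀ x : A, (w ^ ((n + 1) * m)) x = x ^ p ^ m := by
    intro m
    induction m with
    | zero => intro x; simp
    | succ m ih =>
      intro x
      rw [Nat.mul_succ, pow_add, RingHom.mul_def, RingHom.comp_apply, ih, ← hit, hw, pow_succ,
        mul_comm, pow_mul]
  have hinj : Function.Injective w := by
    rw [injective_iff_map_eq_zero]
    intro x hx
    have h1 : w^[n + 1] x = 0 := by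
      rw [Function.iterate_succ_apply, hx, hit, map_zero]
    rw [hw] at h1
    exact eq_zero_of_pow_eq_zero h1
  have hinj' : ∀ m : ℕ, ∀ x : A, x ≠ 0 → (w ^ m) x ≠ 0 := by
    intro m x hx h
    apply hx
    rw [← hit] at h
    exact hinj.iterate m (by rw [h, hit, map_zero])
  set d : A := t₀ * r₀ with hd
  have hd0 : d ≠ 0 := mul_ne_zero ht hr
  set d₀ : A := (w ^ ((n + 1) * K)) d with hd₀
  have hdd : d ∣ d₀ := by
    rw [hd₀, hw']
    exact dvd_pow_self d (pow_pos (by omega) _).ne'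
  set c : ℕ → A := fun i => (w ^ i) d₀ with hc
  have hcs : ∀ i, w (c i) = c (i + 1) := by
    intro i
    simp only [hc]
    rw [pow_succ', RingHom.mul_def, RingHom.comp_apply]
  have hcN : c (n + 1) = c 0 ^ p := by
    simp only [hc]
    rw [← hit, hw, pow_zero, RingHom.one_def, RingHom.id_apply]
  have hc0 : ∀ i, c i ≠ 0 := fun i => hinj' _ _ (hinj' _ _ hd0)
  set D : A := ∏ i ∈ Finset.range (n + 1), c i ^ (2 * (n + 1) - i) with hD
  have hDne : D ≠ 0 := Finset.prod_ne_zero_iff.2 fun i _ => pow_ne_zero _ (hc0 i)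
  have hcD : ∀ i, i < n + 1 → c i ∣ D := fun i hi =>
    (dvd_pow_self (c i) (by omega)).trans
      (Finset.dvd_prod_of_mem (fun i => c i ^ (2 * (n + 1) - i)) (Finset.mem_range.2 hi))
  have hdD : d ∣ D := hdd.trans (by simpa [hc] using hcD 0 (by omega))
  set x : ℕ := p * (n + 2) - 2 * (n + 1) with hx
  have hpn : 2 * (n + 2) ≤ p * (n + 2) := Nat.mul_le_mul_right _ hp
  set η : A := c 0 ^ x * ∏ i ∈ Finset.range n, c (i + 1) with hη
  have hwD : w D = D * η := by
    have h1 : D = (∏ i ∈ Finset.range n, c (i + 1) ^ (2 * (n + 1) - (i + 1))) *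
        c 0 ^ (2 * (n + 1)) := by
      rw [hD, Finset.prod_range_succ']
      simp
    have h2 : w D = (∏ i ∈ Finset.range n, c (i + 1) ^ (2 * (n + 1) - i)) *
        c 0 ^ (p * (n + 2)) := by
      rw [hD, map_prod, Finset.prod_range_succ, map_pow, hcs, hcN, ← pow_mul]
      congr 1
      · exact Finset.prod_congr rfl fun i _ => by rw [map_pow, hcs]
      · congr 2
        omega
    have h3 : ∀ i ∈ Finset.range n, c (i + 1) ^ (2 * (n + 1) - i) =
        c (i + 1) ^ (2 * (n + 1) - (i + 1)) * c (i + 1) := by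
      intro i hi
      rw [← pow_succ]
      congr 1
      have := Finset.mem_range.1 hi
      omega
    have h4 : c 0 ^ (p * (n + 2)) = c 0 ^ (2 * (n + 1)) * c 0 ^ x := by
      rw [← pow_add]
      congr 1
      omega
    rw [h2, Finset.prod_congr rfl h3, Finset.prod_mul_distrib, h4, h1, hη]
    ring
  have hcη : ∀ i, i < n + 1 → c i ∣ η := by
    intro i hi
    rcases Nat.eq_zero_or_pos i with rfl | hi0
    · exact (dvd_pow_self _ (by omega)).trans (dvd_mul_right _ _)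
    · obtain ⟨j, rfl⟩ : ∃ j, i = j + 1 := ⟨i - 1, by omega⟩
      exact (Finset.dvd_prod_of_mem (fun i => c (i + 1)) (Finset.mem_range.2 (by omega))).trans
        (dvd_mul_left _ _)
  obtain ⟨e₁, he₁⟩ : ∃ e, D ∣ η ^ e := by
    refine ⟨∑ i ∈ Finset.range (n + 1), (2 * (n + 1) - i), ?_⟩
    rw [← Finset.prod_pow_eq_pow_sum]
    exact Finset.prod_dvd_prod_of_dvd _ _ fun i hi => pow_dvd_pow_of_dvd (hcη i (Finset.mem_range.1 hi)) _
  obtain ⟨e₂, he₂⟩ : ∃ e, η ∣ D ^ e := by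
    refine ⟨x + n, ?_⟩
    rw [pow_add, hη]
    refine mul_dvd_mul (pow_dvd_pow_of_dvd (hcD 0 (by omega)) _) ?_
    have : D ^ n = ∏ _i ∈ Finset.range n, D := by simp
    rw [this]
    exact Finset.prod_dvd_prod_of_dvd _ _ fun i hi =>
      hcD _ (by have := Finset.mem_range.1 hi; omega)
  have hWD : ∀ k : ℕ, (w ^ k) D = D * ∏ j ∈ Finset.range k, (w ^ j) η := by
    intro k
    induction k with
    | zero => simp
    | succ k ih =>
      rw [Finset.prod_range_succ, ← mul_assoc, ← ih, pow_succ, RingHom.mul_def,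
        RingHom.comp_apply, hwD, map_mul]
  have hWe : ∀ k : ℕ, ∃ e, (w ^ k) D ∣ D ^ e := by
    intro k
    induction k with
    | zero => exact ⟨1, by simp⟩
    | succ k ih =>
      obtain ⟨e, he⟩ := ih
      refine ⟨e * (1 + e₂), ?_⟩
      rw [pow_succ, RingHom.mul_def, RingHom.comp_apply, hwD, map_mul, pow_mul, pow_add, pow_one]
      refine mul_dvd_mul he ?_
      have h1 : (w ^ k) η ∣ (w ^ k) (D ^ e₂) := map_dvd _ he₂
      rw [map_pow] at h1
      exact h1.trans (pow_dvd_pow_of_dvd he _)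
  refine ⟨D, hDne, (dvd_mul_left r₀ t₀).trans hdD, (dvd_mul_right t₀ r₀).trans hdD, ?_⟩
  intro k hk1 hkK
  constructor
  · obtain ⟨e, he⟩ := hWe k
    refine ⟨∏ j ∈ Finset.range k, (w ^ j) η, e₁ + e, ?_, ?_, ?_⟩
    · rw [hit, hWD]
    · have h1 : η ∣ ∏ j ∈ Finset.range k, (w ^ j) η := by
        have := Finset.dvd_prod_of_mem (fun j => (w ^ j) η) (Finset.mem_range.2 hk1)
        simpa using this
      exact (he₁.trans (pow_dvd_pow_of_dvd h1 _)).trans (pow_dvd_pow _ (by omega))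
    · refine ((Dvd.intro_left D (hWD k).symm).trans he).trans (pow_dvd_pow _ (by omega))
  · refine ⟨∏ i ∈ Finset.range (n + 1),
      ((w ^ (i + (n + 1) * K - k)) d) ^ (2 * (n + 1) - i), ?_, ?_⟩
    · have h1 : k % (n + 1) < n + 1 := Nat.mod_lt _ (by omega)
      have h2 : k % (n + 1) + (n + 1) * K - k = (n + 1) * (K - k / (n + 1)) := by
        have h3 := Nat.mod_add_div k (n + 1)
        have h4 : k / (n + 1) ≤ K := (Nat.div_le_self _ _).trans hkK
        rw [Nat.mul_sub]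
        have h5 : (n + 1) * (k / (n + 1)) ≤ (n + 1) * K := Nat.mul_le_mul_left _ h4
        omega
      refine Dvd.dvd.trans ?_ (Finset.dvd_prod_of_mem
        (fun i => ((w ^ (i + (n + 1) * K - k)) d) ^ (2 * (n + 1) - i)) (Finset.mem_range.2 h1))
      show t₀ ∣ ((w ^ (k % (n + 1) + (n + 1) * K - k)) d) ^ (2 * (n + 1) - k % (n + 1))
      rw [h2, hw', ← pow_mul]
      refine (dvd_mul_right t₀ r₀).trans (dvd_pow_self d ?_)
      exact (Nat.mul_pos (pow_pos (by omega) _) (by omega)).ne'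
    · rw [hit, map_prod, hD]
      refine Finset.prod_congr rfl fun i hi => ?_
      rw [map_pow]
      congr 1
      simp only [hc]
      rw [hd₀, ← RingHom.comp_apply, ← RingHom.comp_apply, ← RingHom.mul_def, ← RingHom.mul_def,
        ← pow_add, ← pow_add]
      congr 2
      have : k ≤ (n + 1) * K := hkK.trans (Nat.le_mul_of_pos_left _ (by omega))
      omega

end MP35
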