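import Pool.Agent.Lib_MP_3538b5_al.FGlue
import Pool.Agent.Lib_MP_3538b5_al.FOut
import Pool.Agent.Lib_MP_3538b5_al.FStep
import Pool.Agent.Lib_MP_3538b5_al.FFams
import Pool.Agent.Lib_MP_3538b5_al.FFlag
import Pool.Agent.Lib_MP_3538b5_al.EAlg
import Pool.Agent.Lib_MP_3538b5_al.QAdapt
import Pool.Agent.Lib_MP_3538b5_al.RSpan

/-!
# Layer F: families and scalars give the data for the torus lemma
-/

set_option autoImplicit false

namespace MP35

universe u v w

open Polynomial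

/-- `(x - 1) ^ q = x ^ q - 1` -/
theorem sub_one_pow_q {p : ℕ} [Fact p.Prime] {Ω : Type v} [Field Ω] [CharP Ω p] {A : Type w}
    [Ring A] [Algebra Ω A] (x : A) (e : ℕ) : (x - 1) ^ p ^ e = x ^ p ^ e - 1 := by
  have h1 : (X - 1 : Polynomial Ω) ^ p ^ e = X ^ p ^ e - 1 := by
    rw [sub_pow_char_pow, one_pow]
  have h2 := congrArg (aeval x) h1
  rwa [map_pow, map_sub, map_sub, map_pow, aeval_X, map_one] at h2

/-- a finite algebra over `T` generated by finitely many integral elements and a finite algebra -/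
theorem exists_bigger {T : Type v} [CommRing T] {Ω : Type w} [Field Ω] [Algebra T Ω]
    (T₂ : Subalgebra T Ω) [Module.Finite T T₂] (Z : Finset Ω) (hZ : ∀ z ∈ Z, IsIntegral T z) :
    ∃ T₃ : Subalgebra T Ω, Module.Finite T T₃ ∧ T₂ ≤ T₃ ∧ ∀ z ∈ Z, z ∈ T₃ := by
  have h1 : Module.Finite T (Algebra.adjoin T (Z : Set Ω)) :=
    Algebra.finite_adjoin_of_finite_of_isIntegral Z.finite_toSet hZ
  refine ⟨T₂ ⊔ Algebra.adjoin T (Z : Set Ω), Subalgebra.finite_sup _ _, le_sup_left, ?_⟩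
  intro z hz
  exact (le_sup_right : Algebra.adjoin T (Z : Set Ω) ≤ _) (Algebra.subset_adjoin hz)

/-- finiteness passes to bigger finite algebras -/
theorem finite_bigger {T : Type v} [CommRing T] {Ω : Type w} [Field Ω] [Algebra T Ω]
    {T₂ T₃ : Subalgebra T Ω} [Module.Finite T T₃] (h : T₂ ≤ T₃) {RR : Type*} [CommRing RR]
    (ι : RR →+* Ω) (h2 : ∀ r, ι r ∈ T₂) (hf : (ι.codRestrict T₂ h2).Finite) :
    (ι.codRestrict T₃ fun r => h (h2 r)).Finite := by
  let i : T₂ →ₐ[T] T₃ := Subalgebra.inclusion h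
  let _ : Algebra T₂ T₃ := i.toRingHom.toAlgebra
  have h3 : IsScalarTower T T₂ T₃ := IsScalarTower.of_algebraMap_eq fun t => (i.commutes t).symm
  have h4 : Module.Finite T₂ T₃ := Module.Finite.of_restrictScalars_finite T T₂ T₃
  have h5 : i.toRingHom.Finite := h4
  exact h5.comp hf

/-- a nonzero element of a ring which is finite over `RR` divides a nonzero element of `RR` -/
theorem exists_dvd_of_finite {RR : Type v} [CommRing RR] [IsDomain RR] {B : Type w} [CommRing B]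
    [IsDomain B] (σ : RR →+* B) (hσ : σ.Finite) {d : B} (hd : d ≠ 0) :
    ∃ c : RR, c ≠ 0 ∧ d ∣ σ c := by
  let _ : Algebra RR B := σ.toAlgebra
  have h0 : Module.Finite RR B := hσ
  have h1 : IsIntegral RR d := Algebra.IsIntegral.isIntegral _
  obtain ⟨c, hc, h⟩ := h1.isAlgebraic.exists_nonzero_dvd (mem_nonZeroDivisors_of_ne_zero hd)
  exact ⟨c, hc, h⟩

/-- elements of `Ω` are algebraic over `RR` -/
theorem exists_alg {T : Type v} [CommRing T] [IsDomain T] {Ω : Type v} [Field Ω] [Algebra T Ω]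
    [Algebra.IsAlgebraic T Ω] (htinj : Function.Injective (algebraMap T Ω)) {T₂ : Subalgebra T Ω}
    {RR : Type v} [CommRing RR] [IsDomain RR] (ι : RR →+* Ω) (h2 : ∀ r, ι r ∈ T₂)
    (hf : (ι.codRestrict T₂ h2).Finite) (c : Ω) : ∃ f : RR[X], f ≠ 0 ∧ f.eval₂ ι c = 0 := by
  let _ : Algebra RR T₂ := (ι.codRestrict T₂ h2).toAlgebra
  let _ : Algebra RR Ω := ι.toAlgebra
  have hst : IsScalarTower RR T₂ Ω := IsScalarTower.of_algebraMap_eq fun r => rfl
  have h0 : Module.Finite RR T₂ := hf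
  have hinj : Function.Injective (algebraMap T T₂) := fun a b h =>
    htinj (congrArg (fun z : T₂ => (z : Ω)) h)
  have h1 : Algebra.IsAlgebraic T₂ Ω := Algebra.IsAlgebraic.extendScalars hinj
  have h3 : Algebra.IsAlgebraic RR T₂ := inferInstance
  have h4 : IsAlgebraic RR c := (Algebra.IsAlgebraic.trans RR T₂ Ω).isAlgebraic c
  obtain ⟨f, hf0, hfc⟩ := h4
  exact ⟨f, hf0, hfc⟩

section

variable {p : ℕ} [hp : Fact p.Prime] {G : Type u} [Group G] [TopologicalSpace G]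
  [IsTopologicalGroup G] [CompactSpace G] [T2Space G] [TotallyDisconnectedSpace G]
  {T : Type v} [CommRing T] [TopologicalSpace T] [CNR T] [IsDomain T] {Ω : Type v} [Field Ω]
  [Algebra T Ω] {n : ℕ}

/-- `T` is not a field -/
theorem exists_nonunit (hG : PF p G) (R : Rep p G T Ω n) : ∃ t : T, t ≠ 0 ∧ ¬ IsUnit t := by
  by_contra hcon
  push Not at hcon
  -- `T` is finite
  have hfin : Finite T := by
    have h1 : ({1} : Set T)ᶜ ∈ nhds (0 : T) := isOpen_compl_singleton.mem_nhds zero_ne_one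
    obtain ⟨I, hI, hIV⟩ := (IsLinearTopology.hasBasis_ideal (R := T)).mem_iff.1 h1
    have h2 : I = ⊥ := by
      rw [eq_bot_iff]
      intro x hx
      by_contra hx0
      have h3 := I.eq_top_of_isUnit_mem hx (hcon x hx0)
      exact hIV (by rw [h3]; trivial : (1 : T) ∈ (I : Set T)) rfl
    have h4 : IsOpen ({0} : Set T) := by
      have h5 : (I : Set T) = {0} := by rw [h2]; rfl
      rw [isOpen_singleton_iff_nhds_eq_pure]
      have hI : ({0} : Set T) ∈ nhds 0 := by rw [← h5]; exact hI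
      refine le_antisymm (fun s hs => ?_) (pure_le_nhds 0)
      exact Filter.mem_of_superset hI (Set.singleton_subset_iff.2 (Filter.mem_pure.1 hs))
    have h6 : DiscreteTopology T := discreteTopology_iff_isOpen_singleton_zero.2 h4
    exact finite_of_compact_of_discrete
  have hA : Finite R.A := Module.finite_of_finite T
  have hGf : Finite G := Finite.of_injective _ R.j_inj
  obtain ⟨x, y, hxy⟩ := hG.nc
  apply hxy
  have h1 : x = 1 := eq_one_of_pow hG.proP hG.lift (Nat.card_pos (α := G)).ne' pow_card_eq_one'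
  rw [h1, one_mul, mul_one]

/-- nonunits stay nonunits in finite extensions -/
theorem nonunit_of_dvd {T₂ : Subalgebra T Ω} [Module.Finite T T₂]
    (htinj : Function.Injective (algebraMap T Ω)) {s : T} (hs : ¬ IsUnit s) {x : T₂}
    (h : algebraMap T T₂ s ∣ x) : ¬ IsUnit x := by
  intro hx
  have h1 : IsUnit (algebraMap T T₂ s) := isUnit_of_dvd_unit h hx
  have hinj : Function.Injective (algebraMap T T₂) := fun a b h =>
    htinj (congrArg (fun z : T₂ => (z : Ω)) h)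
  have h2 : (algebraMap T T₂).IsIntegral := fun y => Algebra.IsIntegral.isIntegral y
  exact hs ((h2.isLocalHom hinj).map_nonunit _ h1)

variable [IsAlgClosed Ω]

/-- **Families and scalars give the data for the torus lemma.** -/
theorem exists_torusData [CharP Ω p] {k : ℕ} {R : Rep p G T Ω n} (hR : MCore R k)
    (N : Subgroup G) [N.Normal] (hN : IsClosed (N : Set G)) (b : G) : R.TorusData N hN b := by
  classical
  have halg : Algebra.IsAlgebraic T Ω := hR.alg
  obtain ⟨Φ⟩ := exists_flag (Set.range R.Ad)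
  obtain ⟨𝓕, hinf, -⟩ := Rep.exists_fams' hR Φ
  have hex := fun κ : 𝓕.κ => Rep.Fam.exact (𝓕.fam κ) (hinf κ)
  choose E w m hw hE hEE hEJ hEA hX using hex
  obtain ⟨O⟩ := Rep.exists_scalOut hR 𝓕 E w m hw hE hEE hEJ hEA hX
  have hdomR : IsDomain O.RR := O.inj.isDomain O.ι
  -- denominators of the idempotents
  have hspan := Rep.span_top hR.opt.nmin hR.pf R
  choose t Z ht hZ hden using fun j : (Σ κ, (𝓕.fam κ).ι) =>
    R.exists_denominator hspan (E j.1 j.2)
  have hfin₂ : Module.Finite T O.T₂ := O.finT₂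
  obtain ⟨T₃, hT₃, h23, hZ3⟩ := exists_bigger O.T₂ (Finset.univ.biUnion Z) (by
    intro z hz
    obtain ⟨j, -, hj⟩ := Finset.mem_biUnion.1 hz
    exact hZ j z hj)
  have hmem3 : ∀ r, O.ι r ∈ T₃ := fun r => h23 (O.mem r)
  have hfin3 : (O.ι.codRestrict T₃ hmem3).Finite := finite_bigger h23 O.ι O.mem O.fin
  -- the annihilating polynomial
  obtain ⟨m₀, g, hg, hβg⟩ := exists_annihilator O.ι O.inj
    (fun c => exists_alg R.tinj O.ι O.mem O.fin c) (R.Ad b - 1)
  -- a nonunit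
  obtain ⟨s, hs, hsu⟩ := exists_nonunit hR.pf R
  have htt : s * ∏ j, t j ≠ 0 := mul_ne_zero hs (Finset.prod_ne_zero_iff.2 fun j _ => ht j)
  have hinj3 : Function.Injective (algebraMap T T₃) := fun a b h =>
    R.tinj (congrArg (fun z : T₃ => (z : Ω)) h)
  obtain ⟨r₀, hr₀, hdvd⟩ := exists_dvd_of_finite (O.ι.codRestrict T₃ hmem3) hfin3
    (d := algebraMap T T₃ (s * ∏ j, t j)) (fun h => htt (hinj3 (by rw [h, map_zero])))
  -- the adapted element
  have hw' : ∀ r, O.ω^[O.N] r = r ^ p := fun r => by rw [← RingHom.coe_pow]; exact O.frob r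
  obtain ⟨D, hD0, hrD, htD, had⟩ := adapted O.ω hp.out.two_le O.N_pos hw' O.t₀ (r₀ * g.coeff 0)
    O.t₀_ne (mul_ne_zero hr₀ hg) (Finset.univ.sup fun j : (Σ κ, (𝓕.fam κ).ι) => O.sp j.1 j.2)
  have hspK : ∀ j : (Σ κ, (𝓕.fam κ).ι), O.sp j.1 j.2 ≤
      Finset.univ.sup fun j : (Σ κ, (𝓕.fam κ).ι) => O.sp j.1 j.2 := fun j =>
    Finset.le_sup (f := fun j : (Σ κ, (𝓕.fam κ).ι) => O.sp j.1 j.2) (Finset.mem_univ j)
  set K := Finset.univ.sup fun j : (Σ κ, (𝓕.fam κ).ι) => O.sp j.1 j.2 with hK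
  have hιD : O.ι D ∈ T₃ := hmem3 D
  have hιD0 : O.ι D ≠ 0 := fun h => hD0 (O.inj (by rw [h, map_zero]))
  have hdvdD : algebraMap T T₃ (s * ∏ j, t j) ∣ (⟨O.ι D, hιD⟩ : T₃) := by
    have h1 : (O.ι.codRestrict T₃ hmem3) r₀ ∣ (O.ι.codRestrict T₃ hmem3) D :=
      map_dvd _ ((dvd_mul_right _ _).trans hrD)
    exact hdvd.trans h1
  have hDu : ¬ IsUnit (⟨O.ι D, hιD⟩ : T₃) := by
    refine nonunit_of_dvd R.tinj hsu (dvd_trans ?_ hdvdD)
    exact map_dvd _ (dvd_mul_right _ _)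
  -- the levels
  have hDk : ∀ k ≤ K, ∃ D' : O.RR, O.t₀ ∣ D' ∧ (O.ω ^ k) D' = D := by
    intro k hk
    rcases Nat.eq_zero_or_pos k with h0 | h0
    · subst h0
      exact ⟨D, htD, by rw [pow_zero]; rfl⟩
    · obtain ⟨-, D', h1, h2⟩ := had k h0 hk
      exact ⟨D', h1, by rw [RingHom.coe_pow]; exact h2⟩
  choose! Dk hDkt hDkD using hDk
  have hbdd : ∀ j : (Σ κ, (𝓕.fam κ).ι),
      (R.lin T₃ hιD hιD0 N hN).Bdd (E j.1 j.2).toAddMonoidHom := by
    intro j
    obtain ⟨x, hx⟩ := hdvdD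
    have h1 : algebraMap T T₃ (t j) ∣ algebraMap T T₃ (s * ∏ j, t j) :=
      map_dvd _ ((Finset.dvd_prod_of_mem t (Finset.mem_univ j)).trans (dvd_mul_left _ _))
    obtain ⟨x', hx'⟩ := h1
    refine R.lin_bdd hιD hιD0 N hN (t := algebraMap T Ω (t j)) 1
      ⟨x' * x, (x' * x).2, ?_⟩ ?_
    · rw [pow_one]
      have h2 := congrArg (fun z : T₃ => (z : Ω)) hx
      have h3 := congrArg (fun z : T₃ => (z : Ω)) hx'
      change O.ι D = (algebraMap T T₃ (s * ∏ j, t j) : Ω) * x at h2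
      change (algebraMap T T₃ (s * ∏ j, t j) : Ω) = algebraMap T Ω (t j) * x' at h3
      rw [h2, h3]
      ring
    · exact hden j T₃ fun z hz => hZ3 z (Finset.mem_biUnion.2 ⟨j, Finset.mem_univ j, hz⟩)
  refine Exists.elim (Lin.exists_quasi_inverse (L := R.lin T₃ hιD hιD0 N hN) p O.ι O.ω O.N
    O.N_pos O.frob O.frob_fin
    (fun r l q hq => R.lin_smul hιD hιD0 N hN l q _ (hmem3 r) hq)
    (R.lin_noeth hιD hιD0 N hN (O.ι.codRestrict T₃ hmem3) hfin3)
    (J := Σ κ, (𝓕.fam κ).ι) (KK := 𝓕.κ) Sigma.fst (fun j => O.sp j.1 j.2) (fun j => E j.1 j.2)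
    ?_ hbdd D Dk (fun j => hDkD _ (hspK j)) hιD0
    (fun l q => R.lin_scale hιD hιD0 N hN l q) ?_ ?_ (β := R.Ad b - 1) ?_ Φ.W Φ.l Φ.bot Φ.top
    ?_ ?_ ?_ (m := m₀) (g := g) (fun h => hg (O.inj (by rw [h, map_zero]))) hβg
    ⟨1, by rw [pow_one]; exact (dvd_mul_left _ _).trans hrD⟩ (Φ.l + m₀ + K) ?_ ?_ ?_) ?_
  · -- idempotents
    rintro ⟨κ, i⟩ ⟨κ', j⟩ h
    obtain rfl : κ = κ' := h
    by_cases hij : i = j
    · subst hij
      rw [if_pos rfl]
      exact hE κ i
    · have hne : (⟨κ, i⟩ : Σ κ, (𝓕.fam κ).ι) ≠ ⟨κ, j⟩ := fun h => hij (by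
        simpa using h)
      rw [if_neg hne]
      exact hEE κ i j hij
  · -- ratios
    rintro i hi ⟨j, hij⟩
    obtain ⟨⟨η, e, h1, h2, -⟩, -⟩ := had i hi (hij.trans (hspK j))
    exact ⟨η, by rw [RingHom.coe_pow]; exact h1, e, h2⟩
  · -- realised scalars
    rintro ⟨κ, i⟩ r
    obtain ⟨r', hr'⟩ := hDkt _ (hspK ⟨κ, i⟩)
    have h1 := O.real κ (r' * r)
    refine ⟨_, h1, ?_⟩
    congr 1
    unfold Lin.Tf
    have h2 : (Finset.univ.filter fun j : (Σ κ, (𝓕.fam κ).ι) => j.1 = κ)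
        = Finset.univ.map ⟨fun j : (𝓕.fam κ).ι => (⟨κ, j⟩ : Σ κ, (𝓕.fam κ).ι),
          fun a b h => by simpa using h⟩ := by
      ext ⟨κ', j⟩
      simp only [Finset.mem_filter, Finset.mem_univ, true_and, Finset.mem_map,
        Function.Embedding.coeFn_mk, Sigma.mk.injEq]
      constructor
      · rintro rfl
        exact ⟨j, rfl, HEq.rfl⟩
      · rintro ⟨_, h, -⟩
        exact h.symm
    rw [h2, Finset.sum_map]
    refine Finset.sum_congr rfl fun j _ => ?_
    show _ = O.ι ((O.ω ^ O.sp κ j) (Dk (O.sp κ i) * r)) • E κ j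
    rw [hr', mul_assoc]
  · -- `β`
    exact Lin.Dv.of_mem (R.lin_mem_C hιD hιD0 N hN (R.CC.sub_mem (R.Ad_mem_CC b) R.CC.one_mem))
  · -- the sum preserves the flag
    intro i v hv
    rw [LinearMap.sum_apply]
    exact sum_mem fun j _ => hEJ j.1 j.2 i v hv
  · intro i v hv
    exact (Φ.W i).sub_mem (Φ.stable _ ⟨b, rfl⟩ i v hv) hv
  · -- layers
    intro i hi
    by_cases htriv : Φ.Triv i
    · right
      constructor
      · intro v hv
        rw [zero_smul, sub_zero, LinearMap.sum_apply]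
        refine sum_mem fun j _ => ?_
        have h1 := hEA j.1 j.2 i hi v hv
        rw [𝓕.triv i hi htriv j.1, if_neg (by simp), zero_smul, sub_zero] at h1
        exact h1
      · intro v hv
        have h1 := htriv _ ⟨b, rfl⟩ v hv
        rw [one_smul] at h1
        rw [zero_smul, sub_zero]
        exact h1
    · left
      obtain ⟨κ, hκ, huniq⟩ := 𝓕.nontriv i hi htriv
      obtain ⟨j₀, hj₀⟩ := Option.ne_none_iff_exists'.1 hκ
      intro v hv
      rw [LinearMap.sum_apply, ← Finset.add_sum_erase _ _ (Finset.mem_univ ⟨κ, j₀⟩), add_sub_right_comm]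
      refine add_mem ?_ (sum_mem fun j hj => ?_)
      · have h1 := hEA κ j₀ i hi v hv
        rwa [if_pos hj₀] at h1
      · have h1 := hEA j.1 j.2 i hi v hv
        have h2 : ¬ (𝓕.fam j.1).lab i = some j.2 := by
          intro h
          obtain ⟨κ', j'⟩ := j
          have h3 : κ' = κ := huniq κ' (by
            show (𝓕.fam κ').lab i ≠ none
            rw [show (𝓕.fam κ').lab i = some j' from h]
            simp)
          subst h3
          have h4 : j' = j₀ := Option.some_injective _ ((show _ = some j' from h).symm.trans hj₀)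
          subst h4
          exact (Finset.ne_of_mem_erase hj) rfl
        rw [if_neg h2, zero_smul, sub_zero] at h1
        exact h1
  · exact (by omega : Φ.l ≤ Φ.l + m₀ + K).trans (Nat.lt_pow_self hp.out.one_lt).le
  · exact (by omega : m₀ ≤ Φ.l + m₀ + K).trans (Nat.lt_pow_self hp.out.one_lt).le
  · intro j
    have h1 := hspK j
    have h2 := O.N_pos
    calc O.sp j.1 j.2 ≤ Φ.l + m₀ + K := by omega
      _ = 1 * (Φ.l + m₀ + K) := (one_mul _).symm
      _ ≤ O.N * (Φ.l + m₀ + K) := Nat.mul_le_mul_right _ h2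
  · rintro y ⟨hy, hyα⟩
    refine ⟨T₃, hT₃, O.ι D, hιD, hιD0, hDu, Φ.l + m₀ + K, y, hy, ?_⟩
    have e1 : R.Ad (b ^ p ^ (Φ.l + m₀ + K)) = R.Ad b ^ p ^ (Φ.l + m₀ + K) :=
      map_pow R.adH b _
    rw [e1, ← sub_one_pow_q (Ω := Ω) (p := p)]
    exact hyα

end

end MP35
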