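import Pool.Agent.Lib_MP_3538b5.GExt
import Pool.Agent.Lib_MP_3538b5.GSub

/-!
# Free pro-p groups, general p: the lifting property, basic facts

Everything is for a compact, Hausdorff, totally disconnected group `G`; `cl`, `cl2`, `ProP`, `OpenKer`,
`IsFreeProP` are those of `Lib_MP_3538b5`.
-/

set_option autoImplicit false

namespace MP35

universe u v w

/-- the lifting property: every homomorphism with open kernel of a closed subgroup to a quotient of
a finite `p`-group lifts -/
def LiftP (p : ℕ) (G : Type u) [Group G] [TopologicalSpace G] : Prop :=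
  ∀ K : Subgroup G, IsClosed (K : Set G) → ∀ (A B : Type) [Group A] [Group B] [Finite B],
    IsPGroup p B → ∀ π : B →* A, Function.Surjective π → ∀ α : K →* A, OpenKer α →
      ∃ β : K →* B, OpenKer β ∧ ∀ g, π (β g) = α g

/-- closed subgroups inherit the lifting property -/
theorem LiftP.sub {p : ℕ} {G : Type u} [Group G] [TopologicalSpace G] [IsTopologicalGroup G]
    (h : LiftP p G) (K : Subgroup G) (hK : IsClosed (K : Set G)) : LiftP p K := by
  intro L hL A B _ _ _ hB π hπ α hα
  have hL' : IsClosed ((L.map K.subtype : Subgroup G) : Set G) := by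
    rw [Subgroup.coe_map]
    exact hK.isClosedEmbedding_subtypeVal.isClosedMap _ hL
  let e : L ≃* L.map K.subtype := L.equivMapOfInjective K.subtype K.subtype_injective
  have he : ∀ x : L, ((e x : L.map K.subtype) : G) = ((x : K) : G) := fun x =>
    Subgroup.coe_equivMapOfInjective_apply L K.subtype K.subtype_injective x
  have he' : ∀ x : L.map K.subtype, (((e.symm x : L) : K) : G) = (x : G) := fun x => by
    rw [← he, e.apply_symm_apply]
  have ce : Continuous e := by
    refine continuous_induced_rng.2 ?_
    have : (Subtype.val ∘ e : L → G) = fun x : L => ((x : K) : G) := funext he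
    rw [this]
    exact continuous_subtype_val.comp continuous_subtype_val
  have ce' : Continuous e.symm := by
    refine continuous_induced_rng.2 (continuous_induced_rng.2 ?_)
    have : (Subtype.val ∘ (Subtype.val ∘ e.symm) : L.map K.subtype → G)
        = fun x : L.map K.subtype => (x : G) := funext he'
    rw [this]
    exact continuous_subtype_val
  have hα' : OpenKer (α.comp e.symm.toMonoidHom) := by
    have : ((α.comp e.symm.toMonoidHom).ker : Set (L.map K.subtype)) = e.symm ⁻¹' (α.ker : Set L) := rfl
    unfold OpenKer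
    rw [this]
    exact hα.preimage ce'
  obtain ⟨β, hβ, hβ'⟩ := h (L.map K.subtype) hL' A B hB π hπ (α.comp e.symm.toMonoidHom) hα'
  refine ⟨β.comp e.toMonoidHom, ?_, fun g => ?_⟩
  · have : ((β.comp e.toMonoidHom).ker : Set L) = e ⁻¹' (β.ker : Set (L.map K.subtype)) := rfl
    unfold OpenKer
    rw [this]
    exact hβ.preimage ce
  · have h1 := hβ' (e g)
    rw [MonoidHom.comp_apply] at h1
    have h2 : e.symm.toMonoidHom (e g) = g := e.symm_apply_apply g
    rw [h2] at h1
    exact h1

section basic

variable {G : Type u} [Group G] [TopologicalSpace G] [IsTopologicalGroup G]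

/-- the closed subgroup generated by a set -/
def clS (X : Set G) : Subgroup G := (Subgroup.closure X).topologicalClosure

theorem isClosed_clS (X : Set G) : IsClosed ((clS X : Subgroup G) : Set G) :=
  Subgroup.isClosed_topologicalClosure _

theorem isClosed_cl (a : G) : IsClosed ((cl a : Subgroup G) : Set G) :=
  Subgroup.isClosed_topologicalClosure _

theorem isClosed_cl2 (a b : G) : IsClosed ((cl2 a b : Subgroup G) : Set G) :=
  Subgroup.isClosed_topologicalClosure _

theorem subset_clS (X : Set G) {x : G} (hx : x ∈ X) : x ∈ clS X :=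
  Subgroup.le_topologicalClosure _ (Subgroup.subset_closure hx)

theorem clS_le {X : Set G} {K : Subgroup G} (hK : IsClosed (K : Set G)) (h : ∀ x ∈ X, x ∈ K) :
    clS X ≤ K :=
  Subgroup.topologicalClosure_minimal _ ((Subgroup.closure_le _).2 h) hK

theorem mem_cl_self' (a : G) : a ∈ cl a :=
  Subgroup.le_topologicalClosure _ (Subgroup.mem_zpowers a)

theorem left_mem_cl2 (a b : G) : a ∈ cl2 a b :=
  Subgroup.le_topologicalClosure _ (Subgroup.subset_closure (by simp))

theorem right_mem_cl2 (a b : G) : b ∈ cl2 a b :=
  Subgroup.le_topologicalClosure _ (Subgroup.subset_closure (by simp))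

theorem cl_le {K : Subgroup G} (hK : IsClosed (K : Set G)) {a : G} (ha : a ∈ K) : cl a ≤ K := by
  refine Subgroup.topologicalClosure_minimal _ ?_ hK
  rw [Subgroup.zpowers_le]
  exact ha

theorem cl2_le {K : Subgroup G} (hK : IsClosed (K : Set G)) {a b : G} (ha : a ∈ K) (hb : b ∈ K) :
    cl2 a b ≤ K := by
  refine Subgroup.topologicalClosure_minimal _ ?_ hK
  rw [Subgroup.closure_le]
  rintro x (rfl | hx)
  · exact ha
  · rw [Set.mem_singleton_iff] at hx
    rw [hx]
    exact hb

theorem cl_le_cl2 (a b : G) : cl a ≤ cl2 a b := cl_le (isClosed_cl2 a b) (left_mem_cl2 a b)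

/-- the elements which commute with `x` form a closed subgroup -/
theorem isClosed_centralizer [T2Space G] (x : G) :
    IsClosed ((Subgroup.centralizer ({x} : Set G) : Subgroup G) : Set G) := by
  have : ((Subgroup.centralizer ({x} : Set G) : Subgroup G) : Set G) = {g | x * g = g * x} := by
    ext g
    simp [Subgroup.mem_centralizer_iff]
  rw [this]
  exact isClosed_eq (continuous_const.mul continuous_id) (continuous_id.mul continuous_const)

omit [TopologicalSpace G] [IsTopologicalGroup G] in
theorem mem_centralizer_singleton' {x g : G} :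
    g ∈ Subgroup.centralizer ({x} : Set G) ↔ x * g = g * x := by
  simp [Subgroup.mem_centralizer_iff]

/-- an element commuting with the generators commutes with the closed subgroup -/
theorem clS_comm [T2Space G] {X : Set G} {z : G} (h : ∀ x ∈ X, z * x = x * z) :
    ∀ g ∈ clS X, z * g = g * z := by
  intro g hg
  have h1 : clS X ≤ Subgroup.centralizer ({z} : Set G) :=
    clS_le (isClosed_centralizer z) fun x hx => mem_centralizer_singleton'.2 (h x hx)
  exact mem_centralizer_singleton'.1 (h1 hg)

/-- the closed subgroup generated by commuting elements is commutative -/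
theorem clS_comm2 [T2Space G] {X : Set G} (h : ∀ x ∈ X, ∀ y ∈ X, x * y = y * x) :
    ∀ g ∈ clS X, ∀ k ∈ clS X, g * k = k * g := by
  have h1 : ∀ x ∈ X, ∀ g ∈ clS X, x * g = g * x := fun x hx => clS_comm (h x hx)
  intro g hg
  exact clS_comm fun x hx => (h1 x hx g hg).symm

theorem cl_eq_clS (a : G) : cl a = clS {a} := by
  unfold cl clS
  rw [Subgroup.zpowers_eq_closure]

theorem cl2_eq_clS (a b : G) : cl2 a b = clS {a, b} := rfl

theorem cl_comm_elem [T2Space G] {x y z : G} (hx : x ∈ cl y) (h : z * y = y * z) :
    z * x = x * z := by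
  rw [cl_eq_clS] at hx
  exact clS_comm (X := {y}) (fun w hw => by rw [Set.mem_singleton_iff.mp hw, h]) x hx

/-- `cl a` is commutative -/
theorem cl_comm_self [T2Space G] {a x y : G} (hx : x ∈ cl a) (hy : y ∈ cl a) : x * y = y * x := by
  rw [cl_eq_clS] at hx hy
  refine clS_comm2 (X := {a}) ?_ x hx y hy
  intro s hs t ht
  rw [Set.mem_singleton_iff.mp hs, Set.mem_singleton_iff.mp ht]

/-- a homomorphism with open kernel of a closed subgroup which kills `l` kills `cl l` -/
theorem eq_one_of_mem_cl' {K : Subgroup G} (hK : IsClosed (K : Set G)) {A : Type w} [Group A]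
    (β : K →* A) (hβ : OpenKer β) {l z : G} (hl : l ∈ K) (hz : z ∈ K) (h1 : β ⟨l, hl⟩ = 1)
    (hzl : z ∈ cl l) : β ⟨z, hz⟩ = 1 := by
  have hcl : IsClosed (β.ker : Set K) := Subgroup.isClosed_of_isOpen _ hβ
  have hcl2 : IsClosed ((β.ker.map K.subtype : Subgroup G) : Set G) := by
    rw [Subgroup.coe_map]
    exact hK.isClosedEmbedding_subtypeVal.isClosedMap _ hcl
  have hmem : l ∈ β.ker.map K.subtype := ⟨⟨l, hl⟩, h1, rfl⟩
  obtain ⟨x, hx, hxz⟩ := cl_le hcl2 hmem hzl
  have : x = ⟨z, hz⟩ := Subtype.ext hxz
  rw [← this]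
  exact hx

/-- a subgroup of the closed subgroup generated by `X` which is closed and contains the generators
is everything -/
theorem eq_top_of_clS {X : Set G} (S : Subgroup (clS X)) (hS : IsClosed (S : Set (clS X)))
    (h : ∀ x (hx : x ∈ X), (⟨x, subset_clS X hx⟩ : clS X) ∈ S) : S = ⊤ := by
  have hmap : IsClosed ((S.map (clS X).subtype : Subgroup G) : Set G) := by
    rw [Subgroup.coe_map]
    exact (isClosed_clS X).isClosedEmbedding_subtypeVal.isClosedMap _ hS
  have h2 : clS X ≤ S.map (clS X).subtype := clS_le hmap fun x hx => ⟨_, h x hx, rfl⟩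
  rw [Subgroup.eq_top_iff']
  intro x
  obtain ⟨y, hy, hyx⟩ := h2 x.2
  have : y = x := Subtype.ext hyx
  rwa [← this]

/-- a subgroup of `cl2 a b` which is closed and contains the generators is everything -/
theorem eq_top_of_cl2 {a b : G} (S : Subgroup (cl2 a b)) (hS : IsClosed (S : Set (cl2 a b)))
    (ha : (⟨a, left_mem_cl2 a b⟩ : cl2 a b) ∈ S) (hb : (⟨b, right_mem_cl2 a b⟩ : cl2 a b) ∈ S) :
    S = ⊤ := by
  refine eq_top_of_clS (X := {a, b}) S hS ?_
  rintro x (rfl | hx)
  · exact ha
  · rw [Set.mem_singleton_iff] at hx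
    subst hx
    exact hb

end basic

/-- the open kernel of a composition -/
theorem OpenKer.comp {G : Type u} {A : Type v} {B : Type w} [Group G] [TopologicalSpace G]
    [IsTopologicalGroup G] [Group A] [Group B] {β : G →* A} (h : OpenKer β) (f : A →* B) :
    OpenKer (f.comp β) := by
  refine Subgroup.isOpen_mono (H₁ := β.ker) ?_ h
  intro x hx
  rw [MonoidHom.mem_ker] at hx ⊢
  rw [MonoidHom.comp_apply, hx, map_one]

end MP35
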