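import Pool.Agent.Lib_MP_3538b5_al.GBase

/-!
# Characters of pro-p groups; two elements which do not lie in a procyclic group are free

* `exists_char`: a closed proper subgroup `H` of a pro-p group lies in the kernel of a nontrivial character with
  values in `Z/p`.
* `free2`: if `a ∉ cl b` and `b ∉ cl a` then `cl2 a b` is free on `a, b`.
-/

set_option autoImplicit false

namespace MP35

universe u v w

/-- maximal subgroups of a finite `p`-group have index `p` -/
theorem index_of_coatom {p : ℕ} [hp : Fact p.Prime] {P : Type u} [Group P] [Finite P]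
    (hP : IsPGroup p P) (M : Subgroup P) (hM : IsCoatom M) : M.index = p := by
  obtain ⟨k, hk⟩ := IsPGroup.iff_card.1 hP
  obtain ⟨n, hn⟩ := IsPGroup.iff_card.1 (hP.to_subgroup M)
  have hlt : n < k := by
    by_contra hle
    have h3 : Nat.card P ≤ Nat.card M := by
      rw [hk, hn]
      exact Nat.pow_le_pow_right hp.out.pos (by omega)
    exact hM.1 (Subgroup.eq_top_of_le_card M h3)
  obtain ⟨K, hK1, hK2⟩ := Sylow.exists_subgroup_card_pow_succ (p := p) (n := n)
    (by rw [hk]; exact pow_dvd_pow p hlt) hn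
  have hne : M ≠ K := by
    intro h
    rw [← h, hn] at hK1
    have := Nat.pow_right_injective hp.out.two_le hK1
    omega
  have htop : K = ⊤ := hM.2 K (lt_of_le_of_ne hK2 hne)
  rw [htop, Subgroup.card_top] at hK1
  have h4 := M.card_mul_index
  rw [hn, hK1, pow_succ] at h4
  exact Nat.eq_of_mul_eq_mul_left (pow_pos hp.out.pos n) h4

/-- a proper subgroup of a finite `p`-group lies in the kernel of a nontrivial character -/
theorem exists_char_finite {p : ℕ} [hp : Fact p.Prime] {P : Type u} [Group P] [Finite P]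
    (hP : IsPGroup p P) (H : Subgroup P) (hH : H ≠ ⊤) :
    ∃ χ : P →* Multiplicative (ZMod p), (∀ h ∈ H, χ h = 1) ∧ ∃ g, χ g ≠ 1 := by
  obtain ⟨M, hM, hHM⟩ := (eq_top_or_exists_le_coatom H).resolve_left hH
  have hnil : Group.IsNilpotent P := hP.isNilpotent
  have hn : M.Normal := Subgroup.NormalizerCondition.normal_of_coatom M
    (Group.normalizerCondition_of_isNilpotent) hM
  have hidx := index_of_coatom hP M hM
  have hcard : Nat.card (P ⧸ M) = p := hidx
  have hcard2 : Nat.card (Multiplicative (ZMod p)) = p := by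
    rw [Nat.card_congr (Multiplicative.toAdd (α := ZMod p)), Nat.card_zmod]
  let e : (P ⧸ M) ≃* Multiplicative (ZMod p) := mulEquivOfPrimeCardEq hcard hcard2
  refine ⟨e.toMonoidHom.comp (QuotientGroup.mk' M), fun h hh => ?_, ?_⟩
  · have h1 : (QuotientGroup.mk' M) h = 1 := (QuotientGroup.eq_one_iff h).2 (hHM hh)
    rw [MonoidHom.comp_apply, h1, map_one]
  · have hne : ∃ g, g ∉ M := by
      by_contra hcon
      push Not at hcon
      exact hM.1 ((Subgroup.eq_top_iff' M).2 hcon)
    obtain ⟨g, hg⟩ := hne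
    refine ⟨g, fun h1 => hg ?_⟩
    have h2 : e ((QuotientGroup.mk' M) g) = 1 := h1
    rw [map_eq_one_iff e e.injective] at h2
    exact (QuotientGroup.eq_one_iff g).1 h2

section

variable {p : ℕ} [hp : Fact p.Prime] {G : Type u} [Group G] [TopologicalSpace G]
  [IsTopologicalGroup G] [CompactSpace G] [TotallyDisconnectedSpace G]

/-- a closed subgroup is an intersection of open subgroups -/
theorem exists_open_of_notMem {H : Subgroup G} (hH : IsClosed (H : Set G)) {g : G} (hg : g ∉ H) :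
    ∃ N : Subgroup G, N.Normal ∧ IsOpen (N : Set G) ∧ g ∉ H ⊔ N := by
  obtain ⟨N, hN⟩ := ProfiniteGrp.exist_openNormalSubgroup_sub_open_nhds_of_one
    (U := {x : G | g * x ∉ (H : Subgroup G)})
    ((hH.isOpen_compl).preimage (continuous_const_mul g)) (by
      show g * 1 ∉ H
      rwa [mul_one])
  let N' : Subgroup G := N.toSubgroup
  have hNn : N'.Normal := inferInstance
  refine ⟨N', hNn, N.isOpen', fun hm => ?_⟩
  obtain ⟨c, hc, n, hn', hcn⟩ := Subgroup.mem_sup_of_normal_right.1 hm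
  have h1 : g * n⁻¹ ∉ H := hN (N'.inv_mem hn')
  apply h1
  rw [← hcn, mul_inv_cancel_right]
  exact hc

/-- a closed proper subgroup lies in the kernel of a nontrivial character -/
theorem exists_char (hP : ProP p G) (H : Subgroup G) (hH : IsClosed (H : Set G)) (hne : H ≠ ⊤) :
    ∃ χ : G →* Multiplicative (ZMod p), OpenKer χ ∧ (∀ h ∈ H, χ h = 1) ∧ ∃ g, χ g ≠ 1 := by
  obtain ⟨g, hg⟩ : ∃ g, g ∉ H := by
    by_contra hcon
    push Not at hcon
    exact hne ((Subgroup.eq_top_iff' H).2 hcon)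
  obtain ⟨N, hN, hNo, hgN⟩ := exists_open_of_notMem hH hg
  have : Finite (G ⧸ N) := Subgroup.quotient_finite_of_isOpen N hNo
  have hQ : IsPGroup p (G ⧸ N) := by
    intro q
    induction q using QuotientGroup.induction_on with
    | H z =>
      obtain ⟨k, hk⟩ := hP N hN hNo z
      exact ⟨k, by
        rw [← QuotientGroup.mk_pow]
        exact (QuotientGroup.eq_one_iff _).2 hk⟩
  have hprop : H.map (QuotientGroup.mk' N) ≠ ⊤ := by
    intro htop
    apply hgN
    have h1 : (QuotientGroup.mk' N) g ∈ H.map (QuotientGroup.mk' N) := by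
      rw [htop]
      exact Subgroup.mem_top _
    obtain ⟨h, hh, hhg⟩ := h1
    have h2 : (h : G)⁻¹ * g ∈ N := QuotientGroup.eq.1 hhg
    have h3 : g = h * (h⁻¹ * g) := by group
    rw [h3]
    exact Subgroup.mul_mem _ (Subgroup.mem_sup_left hh) (Subgroup.mem_sup_right h2)
  obtain ⟨χ, h1, q, hq⟩ := exists_char_finite hQ _ hprop
  refine ⟨χ.comp (QuotientGroup.mk' N), ?_, fun h hh => h1 _ ⟨h, hh, rfl⟩, ?_⟩
  · refine Subgroup.isOpen_mono (H₁ := N) ?_ hNo
    intro x hx
    rw [MonoidHom.mem_ker, MonoidHom.comp_apply]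
    have : (QuotientGroup.mk' N) x = 1 := (QuotientGroup.eq_one_iff x).2 hx
    rw [this, map_one]
  · induction q using QuotientGroup.induction_on with
    | H z => exact ⟨z, hq⟩

/-- the coordinate character: `a ↦ 0`, `b ↦ 1` if `b ∉ cl a` -/
theorem exists_char2 (hP : ProP p G) {a b : G} (hb : b ∉ cl a) :
    ∃ χ : cl2 a b →* Multiplicative (ZMod p), OpenKer χ ∧ χ ⟨a, left_mem_cl2 a b⟩ = 1 ∧
      χ ⟨b, right_mem_cl2 a b⟩ = Multiplicative.ofAdd 1 := by
  have hKc : IsClosed ((cl2 a b : Subgroup G) : Set G) := isClosed_cl2 a b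
  have hcomp : CompactSpace (cl2 a b) := isCompact_iff_compactSpace.1 hKc.isCompact
  let H : Subgroup (cl2 a b) := (cl a).subgroupOf (cl2 a b)
  have hH : IsClosed (H : Set (cl2 a b)) := (isClosed_cl a).preimage continuous_subtype_val
  have hne : H ≠ ⊤ := by
    intro htop
    have h1 : (⟨b, right_mem_cl2 a b⟩ : cl2 a b) ∈ H := by rw [htop]; exact Subgroup.mem_top _
    exact hb h1
  obtain ⟨χ, hχ, h1, g, hg⟩ := exists_char (hP.sub (cl2 a b)) H hH hne
  have ha : χ ⟨a, left_mem_cl2 a b⟩ = 1 := h1 _ (mem_cl_self' a)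
  have hbne : χ ⟨b, right_mem_cl2 a b⟩ ≠ 1 := by
    intro hb1
    have htop : χ.ker = ⊤ := eq_top_of_cl2 χ.ker (Subgroup.isClosed_of_isOpen _ hχ) ha hb1
    apply hg
    have : g ∈ χ.ker := by rw [htop]; exact Subgroup.mem_top _
    exact this
  set c : ZMod p := (χ ⟨b, right_mem_cl2 a b⟩).toAdd with hc
  have hc0 : c ≠ 0 := fun h => hbne (by
    have : χ ⟨b, right_mem_cl2 a b⟩ = Multiplicative.ofAdd c := rfl
    rw [this, h]
    rfl)
  let f : ZMod p →+ ZMod p := AddMonoidHom.mulLeft c⁻¹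
  refine ⟨(AddMonoidHom.toMultiplicative f).comp χ, hχ.comp _, ?_, ?_⟩
  · rw [MonoidHom.comp_apply, ha, map_one]
  · show Multiplicative.ofAdd (c⁻¹ * c) = Multiplicative.ofAdd 1
    rw [inv_mul_cancel₀ hc0]

/-- the two coordinate characters -/
theorem exists_char2' (hP : ProP p G) {a b : G} (hb : b ∉ cl a) (ha : a ∉ cl b)
    (i j : ZMod p) :
    ∃ χ : cl2 a b →* Multiplicative (ZMod p), OpenKer χ ∧
      χ ⟨a, left_mem_cl2 a b⟩ = Multiplicative.ofAdd i ∧
      χ ⟨b, right_mem_cl2 a b⟩ = Multiplicative.ofAdd j := by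
  obtain ⟨χ1, ho1, h11, h12⟩ := exists_char2 hP hb
  obtain ⟨χ2, ho2, h21', h22'⟩ : ∃ χ : cl2 a b →* Multiplicative (ZMod p), OpenKer χ ∧
      χ ⟨b, right_mem_cl2 a b⟩ = 1 ∧ χ ⟨a, left_mem_cl2 a b⟩ = Multiplicative.ofAdd 1 := by
    obtain ⟨χ2', ho2', h21', h22'⟩ := exists_char2 hP ha
    have hle : cl2 a b ≤ cl2 b a :=
      cl2_le (isClosed_cl2 b a) (right_mem_cl2 b a) (left_mem_cl2 b a)
    refine ⟨χ2'.comp (Subgroup.inclusion hle), ?_, h21', h22'⟩
    have : ((χ2'.comp (Subgroup.inclusion hle)).ker : Set (cl2 a b)) =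
        (Subgroup.inclusion hle) ⁻¹' (χ2'.ker : Set (cl2 b a)) := rfl
    unfold OpenKer
    rw [this]
    exact ho2'.preimage (continuous_subtype_val.subtype_mk _)
  let f1 : ZMod p →+ ZMod p := AddMonoidHom.mulLeft i
  let f2 : ZMod p →+ ZMod p := AddMonoidHom.mulLeft j
  refine ⟨((AddMonoidHom.toMultiplicative f1).comp χ2) * ((AddMonoidHom.toMultiplicative f2).comp χ1),
    ?_, ?_, ?_⟩
  · refine Subgroup.isOpen_mono (H₁ := χ1.ker ⊓ χ2.ker) ?_ (ho1.inter ho2)
    rintro x ⟨hx1, hx2⟩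
    have hx1' : χ1 x = 1 := hx1
    have hx2' : χ2 x = 1 := hx2
    rw [MonoidHom.mem_ker, MonoidHom.mul_apply, MonoidHom.comp_apply, MonoidHom.comp_apply, hx1',
      hx2', map_one, map_one, one_mul]
  · have e1 : χ2 ⟨a, left_mem_cl2 a b⟩ = Multiplicative.ofAdd 1 := h22'
    rw [MonoidHom.mul_apply, MonoidHom.comp_apply, MonoidHom.comp_apply, h11, e1,
      map_one (AddMonoidHom.toMultiplicative f2), mul_one]
    show Multiplicative.ofAdd (i * 1) = Multiplicative.ofAdd i
    rw [mul_one]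
  · have e1 : χ2 ⟨b, right_mem_cl2 a b⟩ = 1 := h21'
    rw [MonoidHom.mul_apply, MonoidHom.comp_apply, MonoidHom.comp_apply, h12, e1,
      map_one (AddMonoidHom.toMultiplicative f1), one_mul]
    show Multiplicative.ofAdd (j * 1) = Multiplicative.ofAdd j
    rw [mul_one]

/-- If `a ∉ cl b` and `b ∉ cl a` then `cl2 a b` is free on `a`, `b`. Induction on the order of the finite `p`-group
`P`: let `Z` be a central subgroup of order `p`, lift a homomorphism to `P / Z` and correct it by a character. -/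
theorem free2 (hP : ProP p G) (hL : LiftP p G) {a b : G} (hb : b ∉ cl a) (ha : a ∉ cl b)
    (P : Type) [Group P] [Finite P] (hPp : IsPGroup p P) (u v : P) :
    ∃ β : cl2 a b →* P, OpenKer β ∧ β ⟨a, left_mem_cl2 a b⟩ = u ∧
      β ⟨b, right_mem_cl2 a b⟩ = v := by
  obtain ⟨n, hn⟩ : ∃ n, Nat.card P = n := ⟨_, rfl⟩
  induction n using Nat.strong_induction_on generalizing P with
  | _ n ih =>
    by_cases htriv : Subsingleton P
    · refine ⟨1, ?_, Subsingleton.elim _ _, Subsingleton.elim _ _⟩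
      unfold OpenKer
      rw [MonoidHom.ker_one]
      exact isOpen_univ
    have hnon : Nontrivial P := not_subsingleton_iff_nontrivial.1 htriv
    -- a central element of order `p`
    have hcen : Nontrivial (Subgroup.center P) := hPp.center_nontrivial
    have hcp : IsPGroup p (Subgroup.center P) := hPp.to_subgroup _
    obtain ⟨z, hz⟩ : ∃ z : Subgroup.center P, orderOf z = p := by
      have hdvd : p ∣ Nat.card (Subgroup.center P) := by
        obtain ⟨k, hk⟩ := IsPGroup.iff_card.1 hcp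
        rw [hk]
        refine dvd_pow_self p ?_
        rintro rfl
        rw [pow_zero] at hk
        have h1 : 1 < Nat.card (Subgroup.center P) := Finite.one_lt_card
        omega
      exact exists_prime_orderOf_dvd_card' p hdvd
    let Z : Subgroup P := Subgroup.zpowers (z : P)
    have hzc : ∀ x ∈ Z, ∀ g : P, g * x = x * g := by
      intro x hx g
      have h1 : Z ≤ Subgroup.center P := by
        rw [Subgroup.zpowers_le]
        exact z.2
      exact Subgroup.mem_center_iff.1 (h1 hx) g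
    have hZn : Z.Normal := ⟨fun x hx g => by
      rw [hzc x hx g, mul_inv_cancel_right]
      exact hx⟩
    have hzo : orderOf (z : P) = p := by
      rw [Subgroup.orderOf_coe]
      exact hz
    have hZcard : Nat.card Z = p := by
      rw [Nat.card_zpowers, hzo]
    have hlt : Nat.card (P ⧸ Z) < n := by
      have h1 := Subgroup.card_eq_card_quotient_mul_card_subgroup Z
      rw [hZcard, hn] at h1
      have h2 : 0 < Nat.card (P ⧸ Z) := Nat.card_pos
      have h3 := hp.out.two_le
      rw [h1]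
      nlinarith
    obtain ⟨γ, hγ, hγa, hγb⟩ := ih _ hlt (P ⧸ Z) (hPp.to_quotient Z)
      ((QuotientGroup.mk' Z) u) ((QuotientGroup.mk' Z) v) rfl
    obtain ⟨β0, hβ0, hβγ⟩ := hL (cl2 a b) (isClosed_cl2 a b) (P ⧸ Z) P hPp (QuotientGroup.mk' Z)
      (QuotientGroup.mk'_surjective Z) γ hγ
    have ea : (β0 ⟨a, left_mem_cl2 a b⟩)⁻¹ * u ∈ Z := by
      have h1 := hβγ ⟨a, left_mem_cl2 a b⟩
      rw [hγa] at h1
      exact QuotientGroup.eq.1 h1
    have eb : (β0 ⟨b, right_mem_cl2 a b⟩)⁻¹ * v ∈ Z := by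
      have h1 := hβγ ⟨b, right_mem_cl2 a b⟩
      rw [hγb] at h1
      exact QuotientGroup.eq.1 h1
    obtain ⟨i, hi⟩ := Subgroup.mem_zpowers_iff.1 ea
    obtain ⟨j, hj⟩ := Subgroup.mem_zpowers_iff.1 eb
    -- the character with values in `Z`
    let f0 : ℤ →+ Additive P := zmultiplesHom (Additive P) (Additive.ofMul (z : P))
    have hf0 : f0 p = 0 := by
      show (p : ℤ) • Additive.ofMul (z : P) = 0
      rw [← ofMul_zpow, zpow_natCast, ← hzo, pow_orderOf_eq_one]
      rfl
    let f : ZMod p →+ Additive P := ZMod.lift p ⟨f0, hf0⟩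
    have hf : ∀ k : ℤ, f (k : ZMod p) = Additive.ofMul ((z : P) ^ k) := by
      intro k
      show ZMod.lift p ⟨f0, hf0⟩ (k : ZMod p) = _
      rw [ZMod.lift_coe]
      show k • Additive.ofMul (z : P) = _
      rw [← ofMul_zpow]
    have hfc : ∀ t : ZMod p, ∀ g : P, g * (f t).toMul = (f t).toMul * g := by
      intro t g
      obtain ⟨k, rfl⟩ := ZMod.intCast_surjective t
      rw [hf]
      exact hzc _ (Subgroup.zpow_mem _ (Subgroup.mem_zpowers _) k) g
    obtain ⟨χ, hχ, hχa, hχb⟩ := exists_char2' hP hb ha (i : ZMod p) (j : ZMod p)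
    refine ⟨MonoidHom.mk' (fun x => β0 x * (f (χ x).toAdd).toMul) ?_, ?_, ?_, ?_⟩
    · intro x y
      show β0 (x * y) * (f (χ (x * y)).toAdd).toMul =
        (β0 x * (f (χ x).toAdd).toMul) * (β0 y * (f (χ y).toAdd).toMul)
      rw [map_mul, map_mul, toAdd_mul, map_add, toMul_add]
      have h1 := hfc (χ x).toAdd (β0 y)
      calc β0 x * β0 y * ((f (χ x).toAdd).toMul * (f (χ y).toAdd).toMul)
          = β0 x * (β0 y * (f (χ x).toAdd).toMul) * (f (χ y).toAdd).toMul := by group
        _ = β0 x * ((f (χ x).toAdd).toMul * β0 y) * (f (χ y).toAdd).toMul := by rw [h1]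
        _ = _ := by group
    · refine Subgroup.isOpen_mono (H₁ := β0.ker ⊓ χ.ker) ?_ (hβ0.inter hχ)
      rintro x ⟨hx1, hx2⟩
      have hx1' : β0 x = 1 := hx1
      have hx2' : χ x = 1 := hx2
      rw [MonoidHom.mem_ker]
      show β0 x * (f (χ x).toAdd).toMul = 1
      rw [hx1', hx2', one_mul]
      show (f (0 : ZMod p)).toMul = 1
      rw [map_zero]
      rfl
    · show β0 _ * (f (χ ⟨a, left_mem_cl2 a b⟩).toAdd).toMul = u
      rw [hχa]
      show β0 _ * (f (i : ZMod p)).toMul = u
      rw [hf, toMul_ofMul, hi]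
      group
    · show β0 _ * (f (χ ⟨b, right_mem_cl2 a b⟩).toAdd).toMul = v
      rw [hχb]
      show β0 _ * (f (j : ZMod p)).toMul = v
      rw [hf, toMul_ofMul, hj]
      group

omit [CompactSpace G] [TotallyDisconnectedSpace G] in
/-- non-commuting elements -/
theorem notMem_cl_of_ne [T2Space G] {a b : G} (hab : a * b ≠ b * a) : b ∉ cl a ∧ a ∉ cl b :=
  ⟨fun h => hab (cl_comm_self (mem_cl_self' a) h), fun h => hab (cl_comm_self h (mem_cl_self' b))⟩

/-- the closed subgroup generated by two non-commuting elements is free on them -/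
theorem free2_of_ne [T2Space G] (hP : ProP p G) (hL : LiftP p G) {a b : G} (hab : a * b ≠ b * a)
    (P : Type) [Group P] [Finite P] (hPp : IsPGroup p P) (u v : P) :
    ∃ β : cl2 a b →* P, OpenKer β ∧ β ⟨a, left_mem_cl2 a b⟩ = u ∧
      β ⟨b, right_mem_cl2 a b⟩ = v :=
  free2 hP hL (notMem_cl_of_ne hab).1 (notMem_cl_of_ne hab).2 P hPp u v

end

end MP35
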