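import Pool.Agent.Lib_MP_3538b5_al.GStart

/-!
# Marshall Hall's theorem for projective pro-p groups; closed subgroups generated by powers

* `freeOn_of_char`: a generating family with all characters is a basis.
* `exists_basis_minimal`: a minimal generating family has all characters.
* `hall`: a topologically finitely generated closed subgroup `G'` of a topologically finitely generated
  group is a retract of an open subgroup.
* `not_open_powers`: the closed subgroup generated by `g_i ^ p ^ e`, `i < m`, is not open for large `e`.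
-/

set_option autoImplicit false

namespace MP35

universe u v w

section

variable {p : ℕ} [hp : Fact p.Prime] {G : Type u} [Group G] [TopologicalSpace G]
  [IsTopologicalGroup G]

omit hp [IsTopologicalGroup G] in
/-- the lifting property for homomorphisms of the group itself -/
theorem LiftP.top (hL : LiftP p G) {A B : Type} [Group A] [Group B] [Finite B]
    (hB : IsPGroup p B) (π : B →* A) (hπ : Function.Surjective π) (α : G →* A) (hα : OpenKer α) :
    ∃ β : G →* B, OpenKer β ∧ ∀ g, π (β g) = α g := by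
  let e : (⊤ : Subgroup G) ≃* G := Subgroup.topEquiv
  have hαe : OpenKer (α.comp e.toMonoidHom) := by
    have : ((α.comp e.toMonoidHom).ker : Set (⊤ : Subgroup G)) = Subtype.val ⁻¹' (α.ker : Set G) := rfl
    unfold OpenKer
    rw [this]
    exact hα.preimage continuous_subtype_val
  obtain ⟨β', hβ', hβα⟩ := hL ⊤ isClosed_univ A B hB π hπ (α.comp e.toMonoidHom) hαe
  refine ⟨β'.comp e.symm.toMonoidHom, ?_, fun x => hβα ⟨x, Subgroup.mem_top x⟩⟩
  have : ((β'.comp e.symm.toMonoidHom).ker : Set G) =
      (fun x : G => (⟨x, Subgroup.mem_top x⟩ : (⊤ : Subgroup G))) ⁻¹' (β'.ker : Set _) := rfl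
  unfold OpenKer
  rw [this]
  exact hβ'.preimage (continuous_id.subtype_mk _)

/-- all characters are realised on the family `X` -/
def AllChar (p : ℕ) {K : Type u} [Group K] [TopologicalSpace K] {ι : Type v} (X : ι → K) : Prop :=
  ∀ f : ι → ZMod p, ∃ χ : K →* Multiplicative (ZMod p), OpenKer χ ∧
    ∀ i, χ (X i) = Multiplicative.ofAdd (f i)

/-- a generating family which realises all characters is a basis -/
theorem freeOn_of_char (hL : LiftP p G) {ι : Type v} {X : ι → G}
    (hgen : clS (Set.range X) = ⊤) (hX : AllChar p X) : FreeOn p X where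
  gen := hgen
  ext P _ _ hPp f := by
    obtain ⟨n, hn⟩ : ∃ n, Nat.card P = n := ⟨_, rfl⟩
    induction n using Nat.strong_induction_on generalizing P with
    | _ n ih =>
      by_cases htriv : Subsingleton P
      · refine ⟨1, ?_, fun i => Subsingleton.elim _ _⟩
        unfold OpenKer
        rw [MonoidHom.ker_one]
        exact isOpen_univ
      have hnon : Nontrivial P := not_subsingleton_iff_nontrivial.1 htriv
      -- a central element of order `p`
      have hcen : Nontrivial (Subgroup.center P) := hPp.center_nontrivial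
      have hcp : IsPGroup p (Subgroup.center P) := hPp.to_subgroup _
      obtain ⟨z, hz⟩ : ∃ z : Subgroup.center P, orderOf z = p := by
        have hdvd : p ∣ Nat.card (Subgroup.center P) := by
          obtain ⟨k, hk⟩ := IsPGroup.iff_card.1 hcp
          rw [hk]
          refine dvd_pow_self p ?_
          rintro rfl
          rw [pow_zero] at hk
          have h1 : 1 < Nat.card (Subgroup.center P) := Finite.one_lt_card
          omega
        exact exists_prime_orderOf_dvd_card' p hdvd
      let Z : Subgroup P := Subgroup.zpowers (z : P)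
      have hzc : ∀ x ∈ Z, ∀ g : P, g * x = x * g := by
        intro x hx g
        have h1 : Z ≤ Subgroup.center P := by
          rw [Subgroup.zpowers_le]
          exact z.2
        exact Subgroup.mem_center_iff.1 (h1 hx) g
      have hZn : Z.Normal := ⟨fun x hx g => by
        rw [hzc x hx g, mul_inv_cancel_right]
        exact hx⟩
      have hzo : orderOf (z : P) = p := by
        rw [Subgroup.orderOf_coe]
        exact hz
      have hZcard : Nat.card Z = p := by
        rw [Nat.card_zpowers, hzo]
      have hlt : Nat.card (P ⧸ Z) < n := by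
        have h1 := Subgroup.card_eq_card_quotient_mul_card_subgroup Z
        rw [hZcard, hn] at h1
        have h2 : 0 < Nat.card (P ⧸ Z) := Nat.card_pos
        have h3 := hp.out.two_le
        rw [h1]
        nlinarith
      obtain ⟨γ, hγ, hγX⟩ := ih _ hlt (P ⧸ Z) inferInstance inferInstance (hPp.to_quotient Z)
        (fun i => (QuotientGroup.mk' Z) (f i)) rfl
      obtain ⟨β0, hβ0, hβγ⟩ := hL.top hPp (QuotientGroup.mk' Z)
        (QuotientGroup.mk'_surjective Z) γ hγ
      have eX : ∀ i, ∃ k : ℤ, (z : P) ^ k = (β0 (X i))⁻¹ * f i := by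
        intro i
        have h1 := hβγ (X i)
        rw [hγX i] at h1
        exact Subgroup.mem_zpowers_iff.1 (QuotientGroup.eq.1 h1)
      choose k hk using eX
      -- the character with values in `Z`
      let f0 : ℤ →+ Additive P := zmultiplesHom (Additive P) (Additive.ofMul (z : P))
      have hf0 : f0 p = 0 := by
        show (p : ℤ) • Additive.ofMul (z : P) = 0
        rw [← ofMul_zpow, zpow_natCast, ← hzo, pow_orderOf_eq_one]
        rfl
      let F : ZMod p →+ Additive P := ZMod.lift p ⟨f0, hf0⟩
      have hF : ∀ k : ℤ, F (k : ZMod p) = Additive.ofMul ((z : P) ^ k) := by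
        intro k
        show ZMod.lift p ⟨f0, hf0⟩ (k : ZMod p) = _
        rw [ZMod.lift_coe]
        show k • Additive.ofMul (z : P) = _
        rw [← ofMul_zpow]
      have hFc : ∀ t : ZMod p, ∀ g : P, g * (F t).toMul = (F t).toMul * g := by
        intro t g
        obtain ⟨k, rfl⟩ := ZMod.intCast_surjective t
        rw [hF]
        exact hzc _ (Subgroup.zpow_mem _ (Subgroup.mem_zpowers _) k) g
      obtain ⟨χ, hχ, hχX⟩ := hX (fun i => (k i : ZMod p))
      refine ⟨MonoidHom.mk' (fun x => β0 x * (F (χ x).toAdd).toMul) ?_, ?_, ?_⟩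
      · intro x y
        show β0 (x * y) * (F (χ (x * y)).toAdd).toMul =
          (β0 x * (F (χ x).toAdd).toMul) * (β0 y * (F (χ y).toAdd).toMul)
        rw [map_mul, map_mul, toAdd_mul, map_add, toMul_add]
        have h1 := hFc (χ x).toAdd (β0 y)
        calc β0 x * β0 y * ((F (χ x).toAdd).toMul * (F (χ y).toAdd).toMul)
            = β0 x * (β0 y * (F (χ x).toAdd).toMul) * (F (χ y).toAdd).toMul := by group
          _ = β0 x * ((F (χ x).toAdd).toMul * β0 y) * (F (χ y).toAdd).toMul := by rw [h1]
          _ = _ := by group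
      · refine Subgroup.isOpen_mono (H₁ := β0.ker ⊓ χ.ker) ?_ (hβ0.inter hχ)
        rintro x ⟨hx1, hx2⟩
        have hx1' : β0 x = 1 := hx1
        have hx2' : χ x = 1 := hx2
        rw [MonoidHom.mem_ker]
        show β0 x * (F (χ x).toAdd).toMul = 1
        rw [hx1', hx2', one_mul]
        show (F (0 : ZMod p)).toMul = 1
        rw [map_zero]
        rfl
      · intro i
        show β0 _ * (F (χ (X i)).toAdd).toMul = f i
        rw [hχX i]
        show β0 _ * (F (k i : ZMod p)).toMul = f i
        rw [hF, toMul_ofMul, hk i]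
        group

/-- combinations of characters -/
theorem allChar_of_delta {ι : Type v} [Finite ι] {X : ι → G}
    (h : ∀ i, ∃ χ : G →* Multiplicative (ZMod p), OpenKer χ ∧
      χ (X i) = Multiplicative.ofAdd 1 ∧ ∀ j, j ≠ i → χ (X j) = 1) : AllChar p X := by
  classical
  have : Fintype ι := Fintype.ofFinite ι
  choose χ hχ h1 h0 using h
  intro f
  refine ⟨∏ i, (AddMonoidHom.toMultiplicative (AddMonoidHom.mulLeft (f i))).comp (χ i), ?_, ?_⟩
  · have hopen : IsOpen ((⨅ i, (χ i).ker : Subgroup G) : Set G) := by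
      rw [Subgroup.coe_iInf]
      exact isOpen_iInter_of_finite fun i => hχ i
    refine Subgroup.isOpen_mono ?_ hopen
    intro x hx
    rw [Subgroup.mem_iInf] at hx
    rw [MonoidHom.mem_ker, MonoidHom.finsetProd_apply]
    refine Finset.prod_eq_one fun i _ => ?_
    have hxi : χ i x = 1 := hx i
    rw [MonoidHom.comp_apply, hxi, map_one]
  · intro j
    rw [MonoidHom.finsetProd_apply, Finset.prod_eq_single j]
    · rw [MonoidHom.comp_apply, h1 j]
      show Multiplicative.ofAdd (f j * 1) = Multiplicative.ofAdd (f j)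
      rw [mul_one]
    · intro i _ hij
      rw [MonoidHom.comp_apply, h0 i j (Ne.symm hij), map_one]
    · intro hj
      exact absurd (Finset.mem_univ j) hj

/-- rescale a character -/
theorem char_scale {χ : G →* Multiplicative (ZMod p)} (hχ : OpenKer χ) {x : G} (hx : χ x ≠ 1) :
    ∃ ψ : G →* Multiplicative (ZMod p), OpenKer ψ ∧ ψ x = Multiplicative.ofAdd 1 ∧
      ∀ y, χ y = 1 → ψ y = 1 := by
  set c : ZMod p := (χ x).toAdd with hc
  have hc0 : c ≠ 0 := fun h => hx (by
    have : χ x = Multiplicative.ofAdd c := rfl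
    rw [this, h]
    rfl)
  let f : ZMod p →+ ZMod p := AddMonoidHom.mulLeft c⁻¹
  refine ⟨(AddMonoidHom.toMultiplicative f).comp χ, hχ.comp _, ?_, ?_⟩
  · show Multiplicative.ofAdd (c⁻¹ * c) = Multiplicative.ofAdd 1
    rw [inv_mul_cancel₀ hc0]
  · intro y hy
    rw [MonoidHom.comp_apply, hy, map_one]

end

section

variable {p : ℕ} [hp : Fact p.Prime] {G : Type u} [Group G] [TopologicalSpace G]
  [IsTopologicalGroup G] [CompactSpace G] [TotallyDisconnectedSpace G]

/-- Among the families `z` with `n` elements such that `X` and `z` generate `G` take one with `n` minimal: every `z j` has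
its own character. -/
theorem exists_minimal_completion (hP : ProP p G) {ι : Type v} (X : ι → G)
    (hfg : ∃ n : ℕ, ∃ z : Fin n → G, clS (Set.range X ∪ Set.range z) = ⊤) :
    ∃ n : ℕ, ∃ z : Fin n → G, clS (Set.range X ∪ Set.range z) = ⊤ ∧
      ∀ j, ∃ χ : G →* Multiplicative (ZMod p), OpenKer χ ∧ χ (z j) = Multiplicative.ofAdd 1 ∧
        (∀ i, χ (X i) = 1) ∧ ∀ k, k ≠ j → χ (z k) = 1 := by
  classical
  obtain ⟨z, hz⟩ := Nat.find_spec hfg
  have hmin : ∀ m, m < Nat.find hfg → ¬ ∃ z : Fin m → G, clS (Set.range X ∪ Set.range z) = ⊤ :=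
    fun m hm => Nat.find_min hfg hm
  generalize Nat.find hfg = n at z hz hmin
  refine ⟨n, z, hz, fun j => ?_⟩
  -- the closed subgroup generated by the others
  obtain ⟨m, rfl⟩ : ∃ m, n = m + 1 := ⟨n - 1, by have := j.2; omega⟩
  let H : Subgroup G := clS (Set.range X ∪ Set.range (fun k => z (j.succAbove k)))
  have hH : H ≠ ⊤ := fun h => hmin m (Nat.lt_succ_self m) ⟨fun k => z (j.succAbove k), h⟩
  obtain ⟨χ, hχ, h1, g, hg⟩ := exists_char hP H (isClosed_clS _) hH
  have hz' : ∀ k, k ≠ j → χ (z k) = 1 := by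
    intro k hk
    obtain ⟨k', rfl⟩ := Fin.exists_succAbove_eq hk
    exact h1 _ (subset_clS _ (Or.inr ⟨k', rfl⟩))
  have hX' : ∀ i, χ (X i) = 1 := fun i => h1 _ (subset_clS _ (Or.inl ⟨i, rfl⟩))
  have hj : χ (z j) ≠ 1 := by
    intro hj
    apply hg
    have hle : clS (Set.range X ∪ Set.range z) ≤ χ.ker := by
      refine clS_le (Subgroup.isClosed_of_isOpen _ hχ) ?_
      rintro _ (⟨i, rfl⟩ | ⟨k, rfl⟩)
      · exact hX' i
      · by_cases hk : k = j
        · rw [hk]
          exact hj
        · exact hz' k hk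
    have : g ∈ clS (Set.range X ∪ Set.range z) := by rw [hz]; exact Subgroup.mem_top _
    exact hle this
  obtain ⟨ψ, hψ, h2, h3⟩ := char_scale hχ hj
  exact ⟨ψ, hψ, h2, fun i => h3 _ (hX' i), fun k hk => h3 _ (hz' k hk)⟩

/-- a topologically finitely generated group has a finite generating family with all characters -/
theorem exists_basis (hP : ProP p G) (hfg : ∃ n : ℕ, ∃ z : Fin n → G, clS (Set.range z) = ⊤) :
    ∃ n : ℕ, ∃ z : Fin n → G, clS (Set.range z) = ⊤ ∧ AllChar p z := by
  obtain ⟨n, z, hz, h⟩ := exists_minimal_completion hP (fun x : Empty => (x.elim : G)) (by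
    obtain ⟨n, z, hz⟩ := hfg
    refine ⟨n, z, ?_⟩
    rw [Set.range_eq_empty, Set.empty_union]
    exact hz)
  refine ⟨n, z, ?_, allChar_of_delta fun j => ?_⟩
  · rw [Set.range_eq_empty, Set.empty_union] at hz
    exact hz
  · obtain ⟨χ, h1, h2, -, h3⟩ := h j
    exact ⟨χ, h1, h2, h3⟩

omit hp in
/-- topological finite generation passes to open subgroups -/
theorem fg_open (hfg : ∃ n : ℕ, ∃ z : Fin n → G, clS (Set.range z) = ⊤) (U : Subgroup G)
    (hU : IsOpen (U : Set G)) : ∃ n : ℕ, ∃ z : Fin n → U, clS (Set.range z) = ⊤ := by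
  classical
  obtain ⟨n, z, hz⟩ := hfg
  let A : Subgroup G := Subgroup.closure (Set.range z)
  have hA : A.topologicalClosure = ⊤ := hz
  have : Finite (G ⧸ U) := Subgroup.quotient_finite_of_isOpen U hU
  have hUi : U.FiniteIndex := Subgroup.finiteIndex_of_finite_quotient
  have hAfg : Group.FG A := by
    rw [Group.fg_iff_subgroup_fg]
    exact ⟨(Set.finite_range z).toFinset, by rw [Set.Finite.coe_toFinset]⟩
  have hBi : (U.subgroupOf A).FiniteIndex := inferInstance
  have hBfg : (U.subgroupOf A).FG := (Group.fg_iff_subgroup_fg _).1 inferInstance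
  obtain ⟨S, hS⟩ := hBfg
  -- the generators as elements of `U`
  have hmem : ∀ s ∈ S, ((s : A) : G) ∈ U := by
    intro s hs
    have : s ∈ U.subgroupOf A := by
      rw [← hS]
      exact Subgroup.subset_closure hs
    exact this
  obtain ⟨m, e⟩ : ∃ m, Nonempty (Fin m ≃ S) := ⟨S.card, ⟨S.equivFin.symm⟩⟩
  obtain ⟨e⟩ := e
  refine ⟨m, fun i => ⟨((e i : A) : G), hmem _ (e i).2⟩, ?_⟩
  rw [Subgroup.eq_top_iff']
  intro x
  -- density
  have hclo : ∀ y : G, y ∈ A → ∀ hy : y ∈ U, (⟨y, hy⟩ : U) ∈
      Subgroup.closure (Set.range fun i => (⟨((e i : A) : G), hmem _ (e i).2⟩ : U)) := by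
    intro y hyA hy
    have h1 : (⟨y, hyA⟩ : A) ∈ U.subgroupOf A := hy
    rw [← hS] at h1
    have key : ∀ t : A, t ∈ Subgroup.closure (S : Set A) → ∀ ht : (t : G) ∈ U,
        (⟨(t : G), ht⟩ : U) ∈
          Subgroup.closure (Set.range fun i => (⟨((e i : A) : G), hmem _ (e i).2⟩ : U)) := by
      intro t ht
      have ht2 : ∀ t : A, t ∈ Subgroup.closure (S : Set A) → (t : G) ∈ U := by
        intro t ht
        rw [hS] at ht
        exact ht
      induction ht using Subgroup.closure_induction with
      | mem t ht =>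
        intro htU
        refine Subgroup.subset_closure ⟨e.symm ⟨t, ht⟩, ?_⟩
        apply Subtype.ext
        show (((e (e.symm ⟨t, ht⟩) : S) : A) : G) = (t : G)
        rw [e.apply_symm_apply]
      | one => intro _; exact Subgroup.one_mem _
      | mul a b ha hb iha ihb =>
        intro _
        exact Subgroup.mul_mem _ (iha (ht2 a ha)) (ihb (ht2 b hb))
      | inv a ha iha =>
        intro _
        exact Subgroup.inv_mem _ (iha (ht2 a ha))
    exact key ⟨y, hyA⟩ h1 hy
  show x ∈ closure ((Subgroup.closure (Set.range fun i =>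
    (⟨((e i : A) : G), hmem _ (e i).2⟩ : U)) : Subgroup U) : Set U)
  rw [mem_closure_iff]
  intro V hV hxV
  obtain ⟨V', hV', rfl⟩ := isOpen_induced_iff.1 hV
  have hxA : (x : G) ∈ closure (A : Set G) := by
    have : (x : G) ∈ A.topologicalClosure := by rw [hA]; exact Subgroup.mem_top _
    exact this
  obtain ⟨y, hy1, hy2⟩ := mem_closure_iff.1 hxA _ (hV'.inter hU) ⟨hxV, x.2⟩
  exact ⟨⟨y, hy1.2⟩, hy1.1, hclo y hy2 hy1.2⟩

variable [T2Space G]

/-- MARSHALL HALL: a closed subgroup `G'` generated by finitely many elements is a retract of an open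
subgroup `U`. -/
theorem hall (hP : ProP p G) (hL : LiftP p G)
    (hfg : ∃ n : ℕ, ∃ z : Fin n → G, clS (Set.range z) = ⊤) {m : ℕ} (g : Fin m → G) :
    ∃ (U : Subgroup G) (ρ : U →* U), IsOpen (U : Set G) ∧ clS (Set.range g) ≤ U ∧ Continuous ρ ∧
      (∀ x, ((ρ x : U) : G) ∈ clS (Set.range g)) ∧
      ∀ x : U, (x : G) ∈ clS (Set.range g) → ρ x = x := by
  classical
  let G' : Subgroup G := clS (Set.range g)
  have hG'c : IsClosed (G' : Set G) := isClosed_clS _
  have hcomp : CompactSpace G' := isCompact_iff_compactSpace.1 hG'c.isCompact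
  have hG'fg : ∃ n : ℕ, ∃ z : Fin n → G', clS (Set.range z) = ⊤ := by
    refine ⟨m, fun i => ⟨g i, subset_clS _ ⟨i, rfl⟩⟩, ?_⟩
    refine eq_top_of_clS (X := Set.range g) _ (isClosed_clS _) ?_
    rintro _ ⟨i, rfl⟩
    exact subset_clS _ ⟨i, rfl⟩
  obtain ⟨r, y, hygen, hychar⟩ := exists_basis (hP.sub G') hG'fg
  -- the characters of `G'` dual to `y`
  choose χ hχo hχ using fun i : Fin r => hychar (fun j => if j = i then (1 : ZMod p) else 0)
  let α : G' →* (Fin r → Multiplicative (ZMod p)) := MonoidHom.pi χ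
  have hα : OpenKer α := by
    have hopen : IsOpen ((⨅ i, (χ i).ker : Subgroup G') : Set G') := by
      rw [Subgroup.coe_iInf]
      exact isOpen_iInter_of_finite fun i => hχo i
    refine Subgroup.isOpen_mono ?_ hopen
    intro x hx
    rw [Subgroup.mem_iInf] at hx
    rw [MonoidHom.mem_ker]
    funext i
    exact hx i
  obtain ⟨N, hN, hNo, α', hα'1, hα'2⟩ := extend_open G' α hα
  let U : Subgroup G := G' ⊔ N
  have hUo : IsOpen (U : Set G) := Subgroup.isOpen_mono le_sup_right hNo
  have hUc : IsClosed (U : Set G) := Subgroup.isClosed_of_isOpen _ hUo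
  have hUcomp : CompactSpace U := isCompact_iff_compactSpace.1 hUc.isCompact
  have hG'U : G' ≤ U := le_sup_left
  have hα'o : OpenKer α' := by
    refine Subgroup.isOpen_mono (H₁ := N.subgroupOf U) ?_ (hNo.preimage continuous_subtype_val)
    intro x hx
    rw [MonoidHom.mem_ker]
    exact hα'2 ⟨(x : G), hx⟩
  let Y : Fin r → U := fun i => ⟨(y i : G), hG'U (y i).2⟩
  have hYval : ∀ i j, α' (Y j) i = Multiplicative.ofAdd (if j = i then (1 : ZMod p) else 0) := by
    intro i j
    have h1 : α' (Y j) = α (y j) := hα'1 (y j)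
    rw [h1]
    exact hχ i j
  -- complete to a minimal generating family of `U`
  obtain ⟨s, z, hzgen, hzchar⟩ := exists_minimal_completion (hP.sub U) Y (by
    obtain ⟨n, z, hz⟩ := fg_open hfg U hUo
    refine ⟨n, z, ?_⟩
    rw [eq_top_iff, ← hz]
    exact clS_le (isClosed_clS _) fun x hx => subset_clS _ (Or.inr hx))
  have hall : AllChar p (Sum.elim Y z) := by
    refine allChar_of_delta ?_
    -- first the characters for `z`
    have hzc : ∀ f : Fin s → ZMod p, ∃ ψ : U →* Multiplicative (ZMod p), OpenKer ψ ∧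
        (∀ i, ψ (Y i) = 1) ∧ ∀ j, ψ (z j) = Multiplicative.ofAdd (f j) := by
      intro f
      choose ψ h1 h2 h3 h4 using hzchar
      refine ⟨∏ j, (AddMonoidHom.toMultiplicative (AddMonoidHom.mulLeft (f j))).comp (ψ j),
        ?_, ?_, ?_⟩
      · have hopen : IsOpen ((⨅ i, (ψ i).ker : Subgroup U) : Set U) := by
          rw [Subgroup.coe_iInf]
          exact isOpen_iInter_of_finite fun i => h1 i
        refine Subgroup.isOpen_mono ?_ hopen
        intro x hx
        rw [Subgroup.mem_iInf] at hx
        rw [MonoidHom.mem_ker, MonoidHom.finsetProd_apply]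
        refine Finset.prod_eq_one fun i _ => ?_
        have hxi : ψ i x = 1 := hx i
        rw [MonoidHom.comp_apply, hxi, map_one]
      · intro i
        rw [MonoidHom.finsetProd_apply]
        refine Finset.prod_eq_one fun j _ => ?_
        rw [MonoidHom.comp_apply, h3 j i, map_one]
      · intro j
        rw [MonoidHom.finsetProd_apply, Finset.prod_eq_single j]
        · rw [MonoidHom.comp_apply, h2 j]
          show Multiplicative.ofAdd (f j * 1) = Multiplicative.ofAdd (f j)
          rw [mul_one]
        · intro i _ hij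
          rw [MonoidHom.comp_apply, h4 i j (Ne.symm hij), map_one]
        · intro hj
          exact absurd (Finset.mem_univ j) hj
    rintro (i | j)
    · -- correct the extension of the dual character
      let χi : U →* Multiplicative (ZMod p) := (Pi.evalMonoidHom _ i).comp α'
      have hχi : OpenKer χi := hα'o.comp _
      obtain ⟨ψ, hψ, h1, h2⟩ := hzc (fun j => -(χi (z j)).toAdd)
      refine ⟨χi * ψ, ?_, ?_, ?_⟩
      · refine Subgroup.isOpen_mono (H₁ := χi.ker ⊓ ψ.ker) ?_ (hχi.inter hψ)
        rintro x ⟨hx1, hx2⟩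
        have hx1' : χi x = 1 := hx1
        have hx2' : ψ x = 1 := hx2
        rw [MonoidHom.mem_ker, MonoidHom.mul_apply, hx1', hx2', one_mul]
      · show χi (Y i) * ψ (Y i) = _
        rw [h1, mul_one]
        show α' (Y i) i = _
        rw [hYval, if_pos rfl]
      · rintro (j | j) hj
        · show χi (Y j) * ψ (Y j) = 1
          rw [h1, mul_one]
          show α' (Y j) i = 1
          rw [hYval, if_neg (fun h => hj (by rw [h]))]
          rfl
        · show χi (z j) * ψ (z j) = 1
          rw [h2, ofAdd_neg, ofAdd_toAdd, mul_inv_cancel]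
    · obtain ⟨χj, h1, h2, h3, h4⟩ := hzchar j
      refine ⟨χj, h1, h2, ?_⟩
      rintro (i | k) hk
      · exact h3 i
      · exact h4 k fun h => hk (by rw [h])
  have hfree : FreeOn p (Sum.elim Y z) := by
    refine freeOn_of_char (hL.sub U hUc) ?_ hall
    rw [Set.Sum.elim_range]
    exact hzgen
  obtain ⟨ρ, hρc, hρ⟩ := hfree.lift (hP.sub U) (Sum.elim Y (fun _ => 1))
  have hρY : ∀ i, ρ (Y i) = Y i := fun i => hρ (Sum.inl i)
  have hρz : ∀ j, ρ (z j) = 1 := fun j => hρ (Sum.inr j)
  refine ⟨U, ρ, hUo, hG'U, hρc, ?_, ?_⟩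
  · have hcl : IsClosed (((G'.subgroupOf U).comap ρ : Subgroup U) : Set U) :=
      (hG'c.preimage continuous_subtype_val).preimage hρc
    have hle : clS (Set.range Y ∪ Set.range z) ≤ (G'.subgroupOf U).comap ρ := by
      refine clS_le hcl ?_
      rintro _ (⟨i, rfl⟩ | ⟨j, rfl⟩)
      · show ((ρ (Y i) : U) : G) ∈ G'
        rw [hρY]
        exact (y i).2
      · show ((ρ (z j) : U) : G) ∈ G'
        rw [hρz]
        exact G'.one_mem
    intro x
    have hx : x ∈ clS (Set.range Y ∪ Set.range z) := by rw [hzgen]; exact Subgroup.mem_top _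
    exact hle hx
  · -- `ρ` is the identity on `G'`
    have hcl : IsClosed (((ρ.eqLocus (MonoidHom.id U)).comap (Subgroup.inclusion hG'U) :
        Subgroup G') : Set G') :=
      (isClosed_eq hρc continuous_id).preimage (continuous_subtype_val.subtype_mk _)
    have hle : clS (Set.range y) ≤ (ρ.eqLocus (MonoidHom.id U)).comap (Subgroup.inclusion hG'U) := by
      refine clS_le hcl ?_
      rintro _ ⟨i, rfl⟩
      exact hρY i
    intro x hx
    have hx' : (⟨(x : G), hx⟩ : G') ∈ clS (Set.range y) := by rw [hygen]; exact Subgroup.mem_top _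
    exact hle hx'

end

end MP35
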