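import Pool.Agent.Lib_MP_3538b5_al.GComm

/-!
# Homomorphisms from free pro-p groups to pro-p groups, free groups of rank three, retractions

* `FreeOn p X`: `K` is free on the family `X` (with respect to finite `p`-groups).
* `FreeOn.lift`: homomorphisms to compact totally disconnected pro-p groups.
* `free3`: the closed subgroup generated by `a`, `b a b⁻¹`, `b² a b⁻²` is free on them.
* `exists_retract`: a closed subgroup `K` with a retraction `π` on a noncommutative subgroup `G'`, and with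
  noncommutative kernel.
-/

set_option autoImplicit false

namespace MP35

universe u v w

/-- `K` is topologically generated by the family `X` and free on it -/
structure FreeOn (p : ℕ) {K : Type u} [Group K] [TopologicalSpace K] [IsTopologicalGroup K]
    {ι : Type v} (X : ι → K) : Prop where
  gen : clS (Set.range X) = ⊤
  ext : ∀ (P : Type) [Group P] [Finite P], IsPGroup p P → ∀ f : ι → P,
    ∃ φ : K →* P, OpenKer φ ∧ ∀ i, φ (X i) = f i

/-- finite groups in other universes -/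
theorem FreeOn.ext' {p : ℕ} {K : Type u} [Group K] [TopologicalSpace K] [IsTopologicalGroup K]
    {ι : Type v} {X : ι → K} (h : FreeOn p X) (P : Type w) [Group P] [Finite P]
    (hP : IsPGroup p P) (f : ι → P) : ∃ φ : K →* P, OpenKer φ ∧ ∀ i, φ (X i) = f i := by
  have hfin : Finite (Shrink.{0} P) := Finite.of_equiv P (equivShrink.{0, w} P)
  let E : Shrink.{0} P ≃* P := Shrink.mulEquiv
  obtain ⟨φ, h1, h2⟩ := h.ext (Shrink.{0} P) (hP.of_equiv E.symm) (fun i => E.symm (f i))
  refine ⟨E.toMonoidHom.comp φ, h1.comp _, fun i => ?_⟩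
  rw [MonoidHom.comp_apply, h2]
  exact E.apply_symm_apply (f i)

/-- a homomorphism to a profinite group is continuous if the inverse images of the open normal
subgroups are open -/
theorem continuous_of_openNormal {K : Type u} {L : Type w} [Group K] [TopologicalSpace K]
    [IsTopologicalGroup K] [Group L] [TopologicalSpace L] [IsTopologicalGroup L] [CompactSpace L]
    [TotallyDisconnectedSpace L] (φ : K →* L)
    (h : ∀ U : Subgroup L, U.Normal → IsOpen (U : Set L) → IsOpen (φ ⁻¹' (U : Set L))) :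
    Continuous φ := by
  refine continuous_of_continuousAt_one φ ?_
  rw [ContinuousAt, map_one]
  intro V hV
  obtain ⟨V', hV'V, hV'o, h1⟩ := mem_nhds_iff.1 hV
  obtain ⟨U, hU⟩ := ProfiniteGrp.exist_openNormalSubgroup_sub_open_nhds_of_one hV'o h1
  have h2 := h U.toSubgroup U.isNormal' U.isOpen'
  refine Filter.mem_map.2 (Filter.mem_of_superset (h2.mem_nhds ?_) ?_)
  · show φ 1 ∈ U.toSubgroup
    rw [map_one]
    exact U.toSubgroup.one_mem
  · intro x hx
    exact hV'V (hU hx)

section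

variable {p : ℕ} {K : Type u} [Group K] [TopologicalSpace K] [IsTopologicalGroup K]
  [CompactSpace K] {L : Type w} [Group L] [TopologicalSpace L] [IsTopologicalGroup L]
  [CompactSpace L] [T2Space L] [TotallyDisconnectedSpace L]

omit [CompactSpace K] [CompactSpace L] [TotallyDisconnectedSpace L] [IsTopologicalGroup L] in
/-- two continuous homomorphisms which agree on the generators are equal -/
theorem FreeOn.unique {ι : Type v} {X : ι → K} (h : FreeOn p X) (φ ψ : K →* L)
    (hφ : Continuous φ) (hψ : Continuous ψ) (he : ∀ i, φ (X i) = ψ (X i)) : φ = ψ := by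
  have h1 : clS (Set.range X) ≤ φ.eqLocus ψ := by
    refine clS_le (isClosed_eq hφ hψ) ?_
    rintro _ ⟨i, rfl⟩
    exact he i
  ext x
  have h2 : x ∈ clS (Set.range X) := by rw [h.gen]; exact Subgroup.mem_top _
  exact h1 h2

/-- homomorphisms of free pro-p groups to pro-p groups -/
theorem FreeOn.lift [T2Space K] {ι : Type v} {X : ι → K} (h : FreeOn p X) (hL : ProP p L)
    (f : ι → L) : ∃ φ : K →* L, Continuous φ ∧ ∀ i, φ (X i) = f i := by
  classical
  let Γ : Subgroup (K × L) := clS (Set.range fun i => (X i, f i))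
  have hΓc : IsClosed (Γ : Set (K × L)) := isClosed_clS _
  -- finite approximations
  have happ : ∀ (U : Subgroup L) [U.Normal], IsOpen (U : Set L) → ∃ φ : K →* L ⧸ U, OpenKer φ ∧
      ∀ x ∈ Γ, φ x.1 = ((x.2 : L) : L ⧸ U) := by
    intro U hU hUo
    have : Finite (L ⧸ U) := Subgroup.quotient_finite_of_isOpen U hUo
    have hQ : IsPGroup p (L ⧸ U) := by
      intro q
      induction q using QuotientGroup.induction_on with
      | H z =>
        obtain ⟨k, hk⟩ := hL U hU hUo z
        exact ⟨k, by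
          rw [← QuotientGroup.mk_pow]
          exact (QuotientGroup.eq_one_iff _).2 hk⟩
    obtain ⟨φ, hφ, hφX⟩ := h.ext' (L ⧸ U) hQ (fun i => ((f i : L) : L ⧸ U))
    refine ⟨φ, hφ, ?_⟩
    let E : Subgroup (K × L) :=
      (φ.comp (MonoidHom.fst K L)).eqLocus ((QuotientGroup.mk' U).comp (MonoidHom.snd K L))
    have hEo : IsOpen (E : Set (K × L)) := by
      refine Subgroup.isOpen_mono (H₁ := φ.ker.prod U) ?_ (hφ.prod hUo)
      rintro ⟨k, l⟩ ⟨h1, h2⟩
      change φ k = ((l : L) : L ⧸ U)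
      have h1' : φ k = 1 := h1
      rw [h1', eq_comm]
      exact (QuotientGroup.eq_one_iff l).2 h2
    have hEc : IsClosed (E : Set (K × L)) := Subgroup.isClosed_of_isOpen E hEo
    have hle : Γ ≤ E := by
      refine clS_le hEc ?_
      rintro _ ⟨i, rfl⟩
      exact hφX i
    intro x hx
    exact hle hx
  have hker : ∀ l : L, ((1 : K), l) ∈ Γ → l = 1 := by
    intro l hl
    by_contra hne
    obtain ⟨U, hU⟩ := ProfiniteGrp.exist_openNormalSubgroup_sub_open_nhds_of_one
      (isOpen_compl_singleton : IsOpen ({l}ᶜ : Set L)) (by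
        intro h1
        exact hne (Set.mem_singleton_iff.mp h1).symm)
    obtain ⟨φ, -, hφ⟩ := happ U.toSubgroup U.isOpen'
    have h1 := hφ _ hl
    have h2 : ((l : L) : L ⧸ U.toSubgroup) = 1 := by
      rw [← h1]
      exact map_one φ
    exact hU ((QuotientGroup.eq_one_iff l).1 h2) rfl
  have huniq : ∀ k : K, ∀ l l' : L, (k, l) ∈ Γ → (k, l') ∈ Γ → l = l' := by
    intro k l l' h1 h2
    have h3 := Γ.mul_mem h1 (Γ.inv_mem h2)
    have h4 : ((k, l) : K × L) * (k, l')⁻¹ = (1, l * l'⁻¹) := by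
      rw [Prod.inv_mk, Prod.mk_mul_mk, mul_inv_cancel]
    rw [h4] at h3
    exact mul_inv_eq_one.1 (hker _ h3)
  have hex : ∀ k : K, ∃ l : L, (k, l) ∈ Γ := by
    have hcomp : IsCompact (Γ : Set (K × L)) := hΓc.isCompact
    have hmap : IsClosed ((Γ.map (MonoidHom.fst K L) : Subgroup K) : Set K) := by
      rw [Subgroup.coe_map]
      exact (hcomp.image continuous_fst).isClosed
    have hle : clS (Set.range X) ≤ Γ.map (MonoidHom.fst K L) := by
      refine clS_le hmap ?_
      rintro _ ⟨i, rfl⟩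
      exact ⟨(X i, f i), subset_clS _ ⟨i, rfl⟩, rfl⟩
    intro k
    have h2 : k ∈ clS (Set.range X) := by rw [h.gen]; exact Subgroup.mem_top _
    obtain ⟨⟨k', l⟩, h3, h4⟩ := hle h2
    have h5 : k' = k := h4
    exact ⟨l, h5 ▸ h3⟩
  choose F hF using hex
  let φ : K →* L := MonoidHom.mk' F (fun x y => huniq _ _ _ (hF _) (Γ.mul_mem (hF x) (hF y)))
  refine ⟨φ, ?_, fun i => huniq _ _ _ (hF _) (subset_clS _ ⟨i, rfl⟩)⟩
  refine continuous_of_openNormal φ fun U hU hUo => ?_
  obtain ⟨ψ, hψ, hψΓ⟩ := happ U hUo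
  have : φ ⁻¹' (U : Set L) = (ψ.ker : Set K) := by
    ext k
    have h1 := hψΓ _ (hF k)
    rw [Set.mem_preimage, SetLike.mem_coe, SetLike.mem_coe, MonoidHom.mem_ker, h1]
    exact (QuotientGroup.eq_one_iff (F k)).symm
  rw [this]
  exact hψ

end

section

variable {p : ℕ} [hp : Fact p.Prime] {G : Type u} [Group G] [TopologicalSpace G]
  [IsTopologicalGroup G] [CompactSpace G] [T2Space G] [TotallyDisconnectedSpace G]

/-- the two generators of `cl2 a b` -/
def gens2 (a b : G) : Fin 2 → cl2 a b :=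
  ![⟨a, left_mem_cl2 a b⟩, ⟨b, right_mem_cl2 a b⟩]

/-- `cl2 a b` is free on `a`, `b` if they do not commute -/
theorem freeOn2 (hP : ProP p G) (hL : LiftP p G) {a b : G} (hab : a * b ≠ b * a) :
    FreeOn p (gens2 a b) where
  gen := by
    refine eq_top_of_cl2 _ (isClosed_clS _) (subset_clS _ ⟨0, rfl⟩) (subset_clS _ ⟨1, rfl⟩)
  ext P _ _ hPp f := by
    obtain ⟨β, h1, h2, h3⟩ := free2_of_ne hP hL hab P hPp (f 0) (f 1)
    refine ⟨β, h1, fun i => ?_⟩
    fin_cases i
    · exact h2
    · exact h3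

/-- homomorphisms of `cl2 a b` -/
theorem hom2 (hP : ProP p G) (hL : LiftP p G) {a b : G} (hab : a * b ≠ b * a) {L : Type w}
    [Group L] [TopologicalSpace L] [IsTopologicalGroup L] [CompactSpace L] [T2Space L]
    [TotallyDisconnectedSpace L] (hLP : ProP p L) (u v : L) :
    ∃ φ : cl2 a b →* L, Continuous φ ∧ φ ⟨a, left_mem_cl2 a b⟩ = u ∧
      φ ⟨b, right_mem_cl2 a b⟩ = v := by
  have hcomp : CompactSpace (cl2 a b) := isCompact_iff_compactSpace.1 (isClosed_cl2 a b).isCompact
  obtain ⟨φ, h1, h2⟩ := (freeOn2 hP hL hab).lift hLP ![u, v]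
  exact ⟨φ, h1, h2 0, h2 1⟩

/-- the generators `a`, `b a b⁻¹`, `b² a b⁻²` -/
def gen3 (a b : G) : Fin 3 → G := fun i => b ^ (i : ℕ) * a * (b ^ (i : ℕ))⁻¹

/-- the closed subgroup generated by `a`, `b a b⁻¹`, `b² a b⁻²` -/
abbrev K3 (a b : G) : Subgroup G := clS (Set.range (gen3 a b))

omit [CompactSpace G] [T2Space G] [TotallyDisconnectedSpace G] in
theorem gen3_mem (a b : G) (i : Fin 3) : gen3 a b i ∈ K3 a b := subset_clS _ ⟨i, rfl⟩

/-- the wreath product of `P` with the cyclic group of order `p^2` -/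
private abbrev W3 (p : ℕ) (P : Type) [Group P] : Type :=
  (Multiplicative (ZMod (p ^ 2)) → P) ⋊[(mulAutArrow :
    Multiplicative (ZMod (p ^ 2)) →* MulAut (Multiplicative (ZMod (p ^ 2)) → P))]
    (Multiplicative (ZMod (p ^ 2)))

/-- the closed subgroup generated by `a`, `b a b⁻¹`, `b² a b⁻²` is free on them -/
theorem free3 (hP : ProP p G) (hL : LiftP p G) {a b : G} (hab : a * b ≠ b * a)
    (P : Type) [Group P] [Finite P] (hPp : IsPGroup p P) (f : Fin 3 → P) :
    ∃ φ : K3 a b →* P, OpenKer φ ∧ ∀ i, φ ⟨gen3 a b i, gen3_mem a b i⟩ = f i := by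
  classical
  have hne : NeZero (p ^ 2) := ⟨pow_ne_zero _ hp.out.ne_zero⟩
  have h4 : 4 ≤ p ^ 2 := by
    have := hp.out.two_le
    nlinarith
  let C : Type := Multiplicative (ZMod (p ^ 2))
  have hfinW : Finite (W3 p P) := Finite.of_equiv _ SemidirectProduct.equivProd.symm
  have hW : IsPGroup p (W3 p P) := by
    rw [IsPGroup.iff_card] at hPp ⊢
    obtain ⟨k, hk⟩ := hPp
    refine ⟨k * p ^ 2 + 2, ?_⟩
    have hC : Nat.card (Multiplicative (ZMod (p ^ 2))) = p ^ 2 := by
      rw [Nat.card_congr (Multiplicative.toAdd (α := ZMod (p ^ 2))), Nat.card_zmod]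
    rw [Nat.card_congr (SemidirectProduct.equivProd (N := Multiplicative (ZMod (p ^ 2)) → P)
      (G := Multiplicative (ZMod (p ^ 2)))), Nat.card_prod, hC, pow_add]
    congr 1
    rw [Nat.card_fun, hk, hC, pow_mul]
  -- the elements of the wreath product
  let t : C := Multiplicative.ofAdd (1 : ZMod (p ^ 2))
  let F : C → P := fun ω => if h : ∃ i : Fin 3, ω = (t ^ (i : ℕ))⁻¹ then f h.choose else 1
  have hinj : ∀ i j : Fin 3, (t ^ (i : ℕ))⁻¹ = (t ^ (j : ℕ))⁻¹ → i = j := by
    intro i j hij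
    rw [inv_inj] at hij
    have h1 : ((i : ℕ) : ZMod (p ^ 2)) = ((j : ℕ) : ZMod (p ^ 2)) := by
      have h2 := congrArg Multiplicative.toAdd hij
      rw [toAdd_pow, toAdd_pow] at h2
      have h3 : (i : ℕ) • (1 : ZMod (p ^ 2)) = (j : ℕ) • (1 : ZMod (p ^ 2)) := h2
      rwa [nsmul_one, nsmul_one] at h3
    rw [ZMod.natCast_eq_natCast_iff] at h1
    have h5 : (i : ℕ) < p ^ 2 := lt_of_lt_of_le i.2 (by omega)
    have h6 : (j : ℕ) < p ^ 2 := lt_of_lt_of_le j.2 (by omega)
    have h7 := Nat.ModEq.eq_of_lt_of_lt h1 h5 h6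
    exact Fin.ext h7
  have hF : ∀ i : Fin 3, F (t ^ (i : ℕ))⁻¹ = f i := by
    intro i
    have hex : ∃ j : Fin 3, (t ^ (i : ℕ))⁻¹ = (t ^ (j : ℕ))⁻¹ := ⟨i, rfl⟩
    show (if h : ∃ j : Fin 3, (t ^ (i : ℕ))⁻¹ = (t ^ (j : ℕ))⁻¹ then f h.choose else 1) = f i
    rw [dif_pos hex]
    congr 1
    exact (hinj _ _ hex.choose_spec).symm
  obtain ⟨θ, hθ, hθa, hθb⟩ := free2_of_ne hP hL hab (W3 p P) hW
    (SemidirectProduct.inl F) (SemidirectProduct.inr t)
  -- `K3` is in `cl2 a b`
  have hle : K3 a b ≤ cl2 a b := by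
    refine clS_le (isClosed_cl2 a b) ?_
    rintro _ ⟨i, rfl⟩
    exact (cl2 a b).mul_mem ((cl2 a b).mul_mem ((cl2 a b).pow_mem (right_mem_cl2 a b) _)
      (left_mem_cl2 a b)) ((cl2 a b).inv_mem ((cl2 a b).pow_mem (right_mem_cl2 a b) _))
  let θ' : K3 a b →* W3 p P := θ.comp (Subgroup.inclusion hle)
  have hθ' : OpenKer θ' := by
    have : (θ'.ker : Set (K3 a b)) = (Subgroup.inclusion hle) ⁻¹' (θ.ker : Set (cl2 a b)) := rfl
    unfold OpenKer
    rw [this]
    exact hθ.preimage (continuous_subtype_val.subtype_mk _)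
  have hval : ∀ i : Fin 3, θ' ⟨gen3 a b i, gen3_mem a b i⟩ =
      SemidirectProduct.inr t ^ (i : ℕ) * SemidirectProduct.inl F *
        (SemidirectProduct.inr t ^ (i : ℕ))⁻¹ := by
    intro i
    rw [← hθa, ← hθb, ← map_pow, ← map_mul, ← map_inv, ← map_mul]
    rfl
  have hright : ∀ x, (θ' x).right = 1 := by
    let S : Subgroup (K3 a b) := (SemidirectProduct.rightHom.comp θ').ker
    have hS : IsClosed (S : Set (K3 a b)) :=
      Subgroup.isClosed_of_isOpen _ (hθ'.comp SemidirectProduct.rightHom)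
    have htop : S = ⊤ := by
      refine eq_top_of_clS (X := Set.range (gen3 a b)) S hS ?_
      rintro _ ⟨i, rfl⟩
      show SemidirectProduct.rightHom (θ' ⟨gen3 a b i, gen3_mem a b i⟩) = 1
      rw [hval, map_mul, map_mul, map_inv, SemidirectProduct.rightHom_inl, mul_one, mul_inv_cancel]
    intro x
    have : x ∈ S := by rw [htop]; exact Subgroup.mem_top _
    exact this
  let φ : K3 a b →* P :=
    { toFun := fun x => (θ' x).left 1
      map_one' := by
        rw [map_one, SemidirectProduct.one_left, Pi.one_apply]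
      map_mul' := fun x y => by
        rw [map_mul, SemidirectProduct.mul_left, hright, map_one, Pi.mul_apply]
        rfl }
  refine ⟨φ, ?_, fun i => ?_⟩
  · refine Subgroup.isOpen_mono (H₁ := θ'.ker) ?_ hθ'
    intro x hx
    have hx' : θ' x = 1 := hx
    rw [MonoidHom.mem_ker]
    show (θ' x).left 1 = 1
    rw [hx', SemidirectProduct.one_left, Pi.one_apply]
  · show (θ' ⟨gen3 a b i, gen3_mem a b i⟩).left 1 = f i
    rw [hval, ← map_pow, ← map_inv, SemidirectProduct.mul_left, SemidirectProduct.mul_left,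
      SemidirectProduct.left_inr, SemidirectProduct.left_inl, SemidirectProduct.left_inr,
      SemidirectProduct.right_inr, one_mul, map_one, mul_one, ← hF i]
    show F ((t ^ (i : ℕ))⁻¹ * 1) = F (t ^ (i : ℕ))⁻¹
    rw [mul_one]

/-- `K3 a b` is free -/
theorem freeOn3 (hP : ProP p G) (hL : LiftP p G) {a b : G} (hab : a * b ≠ b * a) :
    FreeOn p (fun i => (⟨gen3 a b i, gen3_mem a b i⟩ : K3 a b)) where
  gen := by
    refine eq_top_of_clS (X := Set.range (gen3 a b)) _ (isClosed_clS _) ?_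
    rintro _ ⟨i, rfl⟩
    exact subset_clS _ ⟨i, rfl⟩
  ext P _ _ hPp f := free3 hP hL hab P hPp f

/-- A closed subgroup `K` with a retraction `π` onto a closed noncommutative subgroup `G'` and with
noncommutative kernel. -/
theorem exists_retract (hP : ProP p G) (hL : LiftP p G) (hG : ∃ x y : G, x * y ≠ y * x) :
    ∃ (K : Subgroup G) (π : K →* K) (G' : Subgroup K), IsClosed (K : Set G) ∧ Continuous π ∧
      IsClosed (G' : Set K) ∧ (∀ x, π x ∈ G') ∧ (∀ x ∈ G', π x = x) ∧
      (∃ x ∈ G', ∃ y ∈ G', x * y ≠ y * x) ∧ (∃ x ∈ π.ker, ∃ y ∈ π.ker, x * y ≠ y * x) := by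
  obtain ⟨a, b, hab⟩ := hG
  have hKc : IsClosed ((K3 a b : Subgroup G) : Set G) := isClosed_clS _
  have hcomp : CompactSpace (K3 a b) := isCompact_iff_compactSpace.1 hKc.isCompact
  have hKP : ProP p (K3 a b) := hP.sub _
  have hKL : LiftP p (K3 a b) := hL.sub _ hKc
  let X : Fin 3 → K3 a b := fun i => ⟨gen3 a b i, gen3_mem a b i⟩
  have hfree : FreeOn p X := freeOn3 hP hL hab
  obtain ⟨π, hπc, hπ⟩ := hfree.lift hKP (![1, X 1, X 2] : Fin 3 → K3 a b)
  have h0 : π (X 0) = 1 := hπ 0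
  have h1 : π (X 1) = X 1 := hπ 1
  have h2 : π (X 2) = X 2 := hπ 2
  -- two of the generators do not commute
  have hnc : ∀ i j : Fin 3, i ≠ j → X i * X j ≠ X j * X i := by
    intro i j hij h
    obtain ⟨φ, -, hφ⟩ := hfree.ext (Hei p) (Hei.isPGroup p)
      (fun k => if k = i then ⟨1, 0, 0⟩ else ⟨0, 1, 0⟩)
    apply Hei.noncomm p
    have e1 := hφ i
    have e2 := hφ j
    rw [if_pos rfl] at e1
    rw [if_neg (Ne.symm hij)] at e2
    rw [← e1, ← e2, ← map_mul, ← map_mul, h]
  refine ⟨K3 a b, π, cl2 (X 1) (X 2), hKc, hπc, isClosed_cl2 _ _, ?_, ?_,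
    ⟨X 1, left_mem_cl2 _ _, X 2, right_mem_cl2 _ _, hnc 1 2 (by decide)⟩, ?_⟩
  · have hcl : IsClosed (((cl2 (X 1) (X 2)).comap π : Subgroup (K3 a b)) : Set (K3 a b)) :=
      (isClosed_cl2 _ _).preimage hπc
    have hle : clS (Set.range X) ≤ (cl2 (X 1) (X 2)).comap π := by
      refine clS_le hcl ?_
      rintro _ ⟨i, rfl⟩
      rw [Subgroup.mem_comap]
      fin_cases i
      · show π (X 0) ∈ _
        rw [h0]
        exact Subgroup.one_mem _
      · show π (X 1) ∈ _
        rw [h1]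
        exact left_mem_cl2 _ _
      · show π (X 2) ∈ _
        rw [h2]
        exact right_mem_cl2 _ _
    intro x
    have hx : x ∈ clS (Set.range X) := by rw [hfree.gen]; exact Subgroup.mem_top _
    exact hle hx
  · have hcl : IsClosed ((π.eqLocus (MonoidHom.id (K3 a b)) : Subgroup (K3 a b)) :
        Set (K3 a b)) := isClosed_eq hπc continuous_id
    intro x hx
    exact cl2_le hcl h1 h2 hx
  · refine normal_noncomm hKP hKL π.ker inferInstance ?_ ⟨X 1, X 2, hnc 1 2 (by decide)⟩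
    intro hbot
    have h3 : X 0 ∈ π.ker := h0
    rw [hbot, Subgroup.mem_bot] at h3
    apply hnc 0 1 (by decide)
    rw [h3, one_mul, mul_one]

end

end MP35
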