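import Pool.Agent.Lib_MP_3538b5_al.GBase

/-! # Piece LFIX: coprime fixed points in pro-p groups -/

set_option autoImplicit false

namespace MP35

universe u

/-- the largest `τ`-stable subgroup inside `U` -/
def iterCore {Γ : Type u} [Group Γ] (τ : Γ →* Γ) (U : Subgroup Γ) : Subgroup Γ where
  carrier := {x | ∀ j : ℕ, (⇑τ)^[j] x ∈ U}
  mul_mem' := by
    intro a b ha hb j
    rw [iterate_map_mul]
    exact U.mul_mem (ha j) (hb j)
  one_mem' := by
    intro j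
    rw [iterate_map_one]
    exact U.one_mem
  inv_mem' := by
    intro a ha j
    rw [iterate_map_inv]
    exact U.inv_mem (ha j)

theorem mem_iterCore {Γ : Type u} [Group Γ] {τ : Γ →* Γ} {U : Subgroup Γ} {x : Γ} :
    x ∈ iterCore τ U ↔ ∀ j : ℕ, (⇑τ)^[j] x ∈ U := Iff.rfl

theorem iterCore_le {Γ : Type u} [Group Γ] (τ : Γ →* Γ) (U : Subgroup Γ) : iterCore τ U ≤ U :=
  fun _ hx => hx 0

theorem iterCore_mono {Γ : Type u} [Group Γ] (τ : Γ →* Γ) {U V : Subgroup Γ} (h : U ≤ V) :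
    iterCore τ U ≤ iterCore τ V := fun _ hx j => h (hx j)

theorem iterCore_stable {Γ : Type u} [Group Γ] (τ : Γ →* Γ) (U : Subgroup Γ) :
    iterCore τ U ≤ (iterCore τ U).comap τ := by
  intro x hx
  rw [Subgroup.mem_comap, mem_iterCore]
  intro j
  have := hx (j + 1)
  rwa [Function.iterate_succ_apply] at this

theorem iterCore_normal {Γ : Type u} [Group Γ] (τ : Γ →* Γ) (U : Subgroup Γ) [hU : U.Normal] :
    (iterCore τ U).Normal := by
  refine ⟨fun n hn g => ?_⟩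
  rw [mem_iterCore]
  intro j
  rw [iterate_map_mul, iterate_map_mul, iterate_map_inv]
  exact hU.conj_mem _ (hn j) _

theorem isOpen_iterCore {Γ : Type u} [Group Γ] [TopologicalSpace Γ] {ℓ : ℕ} (hl : 0 < ℓ)
    {τ : Γ →* Γ} (hτ : Continuous τ) (hτl : ∀ x, (⇑τ)^[ℓ] x = x) {U : Subgroup Γ}
    (hU : IsOpen (U : Set Γ)) : IsOpen (iterCore τ U : Set Γ) := by
  have h : (iterCore τ U : Set Γ) = ⋂ j ∈ Finset.range ℓ, (⇑τ)^[j] ⁻¹' (U : Set Γ) := by
    ext x
    simp only [SetLike.mem_coe, mem_iterCore, Set.mem_iInter, Set.mem_preimage, Finset.mem_range]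
    refine ⟨fun h j _ => h j, fun h j => ?_⟩
    have h1 : Function.IsPeriodicPt (⇑τ) ℓ x := hτl x
    rw [← h1.iterate_mod_apply j]
    exact h _ (Nat.mod_lt _ hl)
  rw [h]
  exact isOpen_biInter_finset fun j _ => hU.preimage (hτ.iterate j)

/-- the finite level: a fixed coset -/
theorem exists_fixed_coset {p ℓ : ℕ} [hp : Fact p.Prime] [hl : Fact ℓ.Prime] (hlp : ℓ ≠ p)
    {Γ : Type u} [Group Γ] [TopologicalSpace Γ] [IsTopologicalGroup Γ] [CompactSpace Γ]
    (hΓ : ProP p Γ) (τ : Γ →* Γ) (hτl : ∀ x, (⇑τ)^[ℓ] x = x) (R₀ : Subgroup Γ)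
    (hτR : ∀ x ∈ R₀, τ x ∈ R₀) (x : Γ) (hx : x⁻¹ * τ x ∈ R₀) (V : Subgroup Γ) [hV : V.Normal]
    (hVo : IsOpen (V : Set Γ)) (hVτ : V ≤ V.comap τ) :
    ∃ r ∈ R₀, (x * r)⁻¹ * τ (x * r) ∈ V := by
  classical
  have : Finite (Γ ⧸ V) := V.quotient_finite_of_isOpen hVo
  have : Fintype (Γ ⧸ V) := Fintype.ofFinite _
  have hQ : IsPGroup p (Γ ⧸ V) := by
    intro g
    obtain ⟨g, rfl⟩ := QuotientGroup.mk_surjective g
    obtain ⟨k, hk⟩ := hΓ V hV hVo g
    refine ⟨k, ?_⟩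
    rw [← QuotientGroup.mk_pow, QuotientGroup.eq_one_iff]
    exact hk
  let Rb : Subgroup (Γ ⧸ V) := R₀.map (QuotientGroup.mk' V)
  let S : Set (Γ ⧸ V) := {q | ∃ r ∈ R₀, q = QuotientGroup.mk' V (x * r)}
  let τb : Γ ⧸ V →* Γ ⧸ V := QuotientGroup.map V V τ hVτ
  have hτb : ∀ g : Γ, τb (QuotientGroup.mk' V g) = QuotientGroup.mk' V (τ g) := fun g => rfl
  have hSτ : ∀ q ∈ S, τb q ∈ S := by
    rintro q ⟨r, hr, rfl⟩
    refine ⟨x⁻¹ * τ x * τ r, R₀.mul_mem hx (hτR r hr), ?_⟩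
    rw [hτb]
    congr 1
    rw [map_mul]
    group
  -- the cardinality of S
  have hcard : Fintype.card S = Nat.card Rb := by
    rw [← Nat.card_eq_fintype_card]
    refine Nat.card_congr ?_
    refine
      { toFun := fun q => ⟨(QuotientGroup.mk' V x)⁻¹ * q.1, ?_⟩
        invFun := fun b => ⟨QuotientGroup.mk' V x * b.1, ?_⟩
        left_inv := ?_
        right_inv := ?_ }
    · obtain ⟨r, hr, hq⟩ := q.2
      refine ⟨r, hr, ?_⟩
      rw [hq, map_mul, inv_mul_cancel_left]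
    · obtain ⟨r, hr, hb⟩ := b.2
      refine ⟨r, hr, ?_⟩
      rw [map_mul, hb]
    · intro q
      apply Subtype.ext
      simp
    · intro b
      apply Subtype.ext
      simp
  obtain ⟨n, hn⟩ := (hQ.to_subgroup Rb).exists_card_eq
  let f : Function.End S := fun q => ⟨τb q.1, hSτ q.1 q.2⟩
  have hit : ∀ (j : ℕ) (q : S), ((f ^ j) q).1 = (⇑τb)^[j] q.1 := by
    intro j
    induction j with
    | zero => intro q; rfl
    | succ j ih =>
      intro q
      rw [pow_succ, Function.iterate_succ_apply]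
      change ((f ^ j) (f q)).1 = _
      rw [ih (f q)]
  have hitb : ∀ (j : ℕ) (g : Γ), (⇑τb)^[j] (QuotientGroup.mk' V g) = QuotientGroup.mk' V ((⇑τ)^[j] g) := by
    intro j
    induction j with
    | zero => intro g; rfl
    | succ j ih =>
      intro g
      rw [Function.iterate_succ_apply, Function.iterate_succ_apply, hτb, ih]
  have hf : f ^ ℓ ^ 1 = 1 := by
    rw [pow_one]
    funext q
    apply Subtype.ext
    rw [hit]
    obtain ⟨q, r, hr, rfl⟩ := q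
    change (⇑τb)^[ℓ] (QuotientGroup.mk' V (x * r)) = _
    rw [hitb, hτl]
    rfl
  have hmod := Equiv.Perm.card_fixedPoints_modEq hf
  have hne : Nonempty (Function.fixedPoints f) := by
    by_contra hcon
    rw [not_nonempty_iff] at hcon
    rw [Fintype.card_eq_zero (α := Function.fixedPoints f)] at hmod
    rw [hcard, hn] at hmod
    have h1 : ℓ ∣ p ^ n := Nat.modEq_zero_iff_dvd.1 hmod
    have h2 : ℓ ∣ p := hl.out.dvd_of_dvd_pow h1
    exact hlp ((Nat.prime_dvd_prime_iff_eq hl.out hp.out).1 h2)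
  obtain ⟨⟨⟨q, r, hr, rfl⟩, hq⟩⟩ := hne
  have h3 : τb (QuotientGroup.mk' V (x * r)) = QuotientGroup.mk' V (x * r) := congrArg Subtype.val hq
  refine ⟨r, hr, ?_⟩
  rw [hτb] at h3
  exact QuotientGroup.eq.1 h3.symm

/-- PROOF. For an open normal subgroup `U` of `Γ` let `U₀ = {x | ∀ j < ℓ, τ^[j] x ∈ U}`, an open normal subgroup, `τ U₀ ≤ U₀`, `U₀ ≤ U` (so the `U₀` are a basis of
neighbourhoods of `1`; `ProfiniteGrp.exist_openNormalSubgroup_sub_open_nhds_of_one`). Let `X U₀ = {r | r ∈ R₀ ∧ (x * r)⁻¹ * τ (x * r) ∈ U₀}`, a closed set. The sets `X U₀` are directed (intersection of two `U₀`), so by compactness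
(`IsCompact.nonempty_iInter_of_directed_nonempty_isCompact_isClosed` or `exists_mem_of_compact...`) it is enough that each `X U₀` is nonempty: an element of the intersection satisfies `(x r)⁻¹ τ (x r) ∈ ⋂ U₀ = 1`.
`X U₀ ≠ ∅`: let `S ⊆ Γ ⧸ U₀` be the finite set of cosets `x r U₀`, `r ∈ R₀`. `τ` acts on `Γ ⧸ U₀` and maps `S` to `S` because `τ (x r) = x (x⁻¹ τ x) (τ r)`. `τ^[ℓ] = id`. The cardinality of `S` is that of the image of `R₀` in the finite `p`-group `Γ ⧸ U₀`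
(`hΓ`; `IsPGroup`), a power of `p`. If `τ` had no fixed point on `S` then `ℓ ∣ card S` (`Equiv.Perm.card_fixedPoints_modEq`, or
`IsPGroup.card_modEq_card_fixedPoints` for the action of the cyclic group of order `ℓ`), a contradiction. A fixed coset `x r U₀` gives `r ∈ X U₀`. -/
theorem exists_fixed {p ℓ : ℕ} [hp : Fact p.Prime] [hl : Fact ℓ.Prime] (hlp : ℓ ≠ p) {Γ : Type u}
    [Group Γ] [TopologicalSpace Γ] [IsTopologicalGroup Γ] [CompactSpace Γ] [T2Space Γ]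
    [TotallyDisconnectedSpace Γ] (hΓ : ProP p Γ) (τ : Γ →* Γ) (hτ : Continuous τ)
    (hτl : ∀ x, (⇑τ)^[ℓ] x = x) (R₀ : Subgroup Γ) (hR₀ : IsClosed (R₀ : Set Γ))
    (hτR : ∀ x ∈ R₀, τ x ∈ R₀) (x : Γ) (hx : x⁻¹ * τ x ∈ R₀) : ∃ r ∈ R₀, τ (x * r) = x * r := by
  classical
  let X : OpenNormalSubgroup Γ → Set Γ := fun U =>
    {r | r ∈ R₀ ∧ (x * r)⁻¹ * τ (x * r) ∈ iterCore τ (U : Subgroup Γ)}
  have hopen : ∀ U : OpenNormalSubgroup Γ, IsOpen (iterCore τ (U : Subgroup Γ) : Set Γ) :=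
    fun U => isOpen_iterCore hl.out.pos hτ hτl U.isOpen'
  have hcl : ∀ U, IsClosed (X U) := by
    intro U
    have h1 : IsClosed (iterCore τ (U : Subgroup Γ) : Set Γ) :=
      Subgroup.isClosed_of_isOpen _ (hopen U)
    have h2 : Continuous fun r : Γ => (x * r)⁻¹ * τ (x * r) := by fun_prop
    exact hR₀.inter (h1.preimage h2)
  have hne : ∀ U, (X U).Nonempty := by
    intro U
    haveI : (iterCore τ (U : Subgroup Γ)).Normal := iterCore_normal τ _
    obtain ⟨r, hr, h⟩ := exists_fixed_coset hlp hΓ τ hτl R₀ hτR x hx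
      (iterCore τ (U : Subgroup Γ)) (hopen U) (iterCore_stable τ _)
    exact ⟨r, hr, h⟩
  have hdir : Directed (· ⊇ ·) X := by
    intro U V
    refine ⟨U ⊓ V, ?_, ?_⟩
    · rintro r ⟨hr, h⟩
      exact ⟨hr, iterCore_mono τ (inf_le_left : ((U ⊓ V : OpenNormalSubgroup Γ) : Subgroup Γ) ≤ U) h⟩
    · rintro r ⟨hr, h⟩
      exact ⟨hr, iterCore_mono τ (inf_le_right : ((U ⊓ V : OpenNormalSubgroup Γ) : Subgroup Γ) ≤ V) h⟩
  haveI : Nonempty (OpenNormalSubgroup Γ) :=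
    (ProfiniteGrp.exist_openNormalSubgroup_sub_open_nhds_of_one (G := Γ) isOpen_univ
      (Set.mem_univ 1)).nonempty
  obtain ⟨r, hr⟩ := IsCompact.nonempty_iInter_of_directed_nonempty_isCompact_isClosed X hdir hne
    (fun U => (hcl U).isCompact) hcl
  rw [Set.mem_iInter] at hr
  obtain ⟨U₁⟩ : Nonempty (OpenNormalSubgroup Γ) := inferInstance
  refine ⟨r, (hr U₁).1, ?_⟩
  by_contra hcon
  have h1 : (1 : Γ) ≠ (x * r)⁻¹ * τ (x * r) := by
    intro h
    apply hcon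
    exact (inv_mul_eq_one.1 h.symm).symm
  obtain ⟨H, hH⟩ := ProfiniteGrp.exist_openNormalSubgroup_sub_open_nhds_of_one
    (isOpen_compl_singleton (x := (x * r)⁻¹ * τ (x * r))) (Set.mem_compl_singleton_iff.2 h1)
  have h2 : (x * r)⁻¹ * τ (x * r) ∈ (H : Set Γ) := iterCore_le τ _ (hr H).2
  exact hH h2 rfl

end MP35
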