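import Pool.Agent.Lib_MP_3538b5_al.RDefs

/-! # Piece LORD: an order stable under conjugation by an element of finite order -/

set_option autoImplicit false

namespace MP35

universe u v

/-- PROOF. Let `F ⊆ Ω` be the finite set of all entries of the powers `s ^ j`, `j < ℓ`, and of the elements of a finite generating set of the `T`-module `A`. All elements of `Ω` are algebraic over `T`, so there is `d₀ ≠ 0` in `T`
with `algebraMap d₀ * x` integral over `T` for all `x ∈ F` (`IsAlgebraic.exists_integral_multiples`). Let `T' = Algebra.adjoin T {d₀ x | x ∈ F}`, a finite `T`-module (`Algebra.IsIntegral.finite..`, `Subalgebra.fg` + integral), `𝓜` the subalgebra of the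
matrices with entries in `T'` (finite over `T`), and `𝓞 = {y | ∀ j < ℓ, s ^ j * y * s ^ (ℓ - j) ∈ 𝓜}`: a subalgebra, contained in `𝓜`, so finite over `T` (noetherian). It is stable under `y ↦ s y s^(ℓ-1)` because `s ^ ℓ = 1`. With
`d = d₀ ^ 3`: `s ^ j (d a) s ^ (ℓ - j) = (d₀ s ^ j) (d₀ a) (d₀ s ^ (ℓ - j)) ∈ 𝓜` for the generators `a` of `A`, hence for all `a ∈ A`. -/
theorem exists_order {T : Type v} [CommRing T] [IsNoetherianRing T] [IsDomain T] {Ω : Type v} [Field Ω]
    [Algebra T Ω] (hinj : Function.Injective (algebraMap T Ω)) (alg : Algebra.IsAlgebraic T Ω) {n : ℕ}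
    (A : Subalgebra T (Matrix (Fin n) (Fin n) Ω)) (hA : Module.Finite T A)
    {s : Matrix (Fin n) (Fin n) Ω} {ℓ : ℕ} (hl : 0 < ℓ) (hs : s ^ ℓ = 1) :
    ∃ 𝓞 : Subalgebra T (Matrix (Fin n) (Fin n) Ω), Module.Finite T 𝓞 ∧
      (∀ y ∈ 𝓞, s * y * s ^ (ℓ - 1) ∈ 𝓞) ∧ ∃ d : T, d ≠ 0 ∧ ∀ a ∈ A, d • a ∈ 𝓞 := by
  classical
  -- generators of A
  have hfg : (Subalgebra.toSubmodule A).FG := Module.Finite.iff_fg.mp hA
  obtain ⟨S, hS⟩ := hfg
  -- the finite set of entries
  let F : Finset Ω := (Finset.image (fun q : ℕ × Fin n × Fin n => (s ^ q.1) q.2.1 q.2.2)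
      (Finset.range ℓ ×ˢ (Finset.univ ×ˢ Finset.univ))) ∪
    (S.biUnion fun m => Finset.image (fun q : Fin n × Fin n => m q.1 q.2) Finset.univ)
  have := alg
  have : FaithfulSMul T Ω := (faithfulSMul_iff_algebraMap_injective T Ω).mpr hinj
  obtain ⟨d₀, hd₀, hint⟩ := Algebra.IsAlgebraic.exists_integral_multiples T F
  let F' : Finset Ω := F.image (fun x => d₀ • x)
  let T' : Subalgebra T Ω := Algebra.adjoin T (F' : Set Ω)
  have hT'fg : (Subalgebra.toSubmodule T').FG := by
    refine fg_adjoin_of_finite (Finset.finite_toSet _) ?_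
    intro x hx
    obtain ⟨y, hy, rfl⟩ := Finset.mem_image.mp (Finset.mem_coe.mp hx)
    exact hint y hy
  have hT'fin : Module.Finite T T' := Module.Finite.iff_fg.mpr hT'fg
  have hF'T' : ∀ x ∈ F, d₀ • x ∈ T' := fun x hx =>
    Algebra.subset_adjoin (Finset.mem_coe.mpr (Finset.mem_image_of_mem _ hx))
  -- matrices with entries in T'
  let M : Subalgebra T (Matrix (Fin n) (Fin n) Ω) := (T'.val.mapMatrix (m := Fin n)).range
  have hmat : Module.Finite T (Matrix (Fin n) (Fin n) T') :=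
    inferInstanceAs (Module.Finite T (Fin n → Fin n → T'))
  have hMfin : Module.Finite T M :=
    Module.Finite.of_surjective ((T'.val.mapMatrix (m := Fin n)).rangeRestrict.toLinearMap)
      (AlgHom.rangeRestrict_surjective _)
  have hM : ∀ y : Matrix (Fin n) (Fin n) Ω, (∀ i j, y i j ∈ T') → y ∈ M := by
    intro y hy
    refine ⟨Matrix.of fun i j => ⟨y i j, hy i j⟩, ?_⟩
    ext i j
    rfl
  -- conjugation
  have hs1 : s ^ (ℓ - 1) * s = 1 := by
    rw [← pow_succ, Nat.sub_add_cancel hl, hs]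
  have hs2 : s * s ^ (ℓ - 1) = 1 := by
    rw [← pow_succ', Nat.sub_add_cancel hl, hs]
  let c : Matrix (Fin n) (Fin n) Ω →ₐ[T] Matrix (Fin n) (Fin n) Ω :=
    { toFun := fun y => s * y * s ^ (ℓ - 1)
      map_one' := by simp [hs2]
      map_mul' := fun x y => by
        calc s * (x * y) * s ^ (ℓ - 1) = s * x * (1 * y) * s ^ (ℓ - 1) := by
              simp only [one_mul, mul_assoc]
          _ = s * x * ((s ^ (ℓ - 1) * s) * y) * s ^ (ℓ - 1) := by rw [hs1]
          _ = _ := by simp only [mul_assoc]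
      map_zero' := by simp
      map_add' := fun x y => by simp [mul_add, add_mul]
      commutes' := fun r => by
        rw [← Algebra.commutes r s, mul_assoc, hs2, mul_one] }
  have hc : ∀ y, c y = s * y * s ^ (ℓ - 1) := fun _ => rfl
  have hcj : ∀ (j : ℕ) (y), (c ^ j) y = s ^ j * y * (s ^ (ℓ - 1)) ^ j := by
    intro j
    induction j with
    | zero => intro y; simp
    | succ j ih =>
      intro y
      rw [pow_succ', AlgHom.mul_apply, ih, hc, pow_succ' s, pow_succ (s ^ (ℓ - 1))]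
      simp only [mul_assoc]
  -- powers of s have entries in F
  have hpow : ∀ (j : ℕ) (i k : Fin n), (s ^ j) i k ∈ F := by
    intro j i k
    have h1 : s ^ j = s ^ (j % ℓ) := by
      conv_lhs => rw [← Nat.div_add_mod j ℓ, pow_add, pow_mul, hs, one_pow, one_mul]
    rw [h1]
    refine Finset.mem_union_left _ (Finset.mem_image.mpr ⟨(j % ℓ, i, k), ?_, rfl⟩)
    simp [Nat.mod_lt j hl]
  have hgen : ∀ m ∈ S, ∀ i k : Fin n, m i k ∈ F := by
    intro m hm i k
    refine Finset.mem_union_right _ (Finset.mem_biUnion.mpr ⟨m, hm, ?_⟩)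
    exact Finset.mem_image.mpr ⟨(i, k), Finset.mem_univ _, rfl⟩
  have hMs : ∀ m : Matrix (Fin n) (Fin n) Ω, (∀ i k, m i k ∈ F) → d₀ • m ∈ M := by
    intro m hm
    apply hM
    intro i k
    rw [Matrix.smul_apply]
    exact hF'T' _ (hm i k)
  let 𝓞 : Subalgebra T (Matrix (Fin n) (Fin n) Ω) := ⨅ j : ℕ, M.comap (c ^ j)
  have h𝓞 : ∀ y, y ∈ 𝓞 ↔ ∀ j : ℕ, (c ^ j) y ∈ M := by
    intro y
    simp only [𝓞, Algebra.mem_iInf, Subalgebra.mem_comap]
  refine ⟨𝓞, ?_, ?_, d₀ ^ 3, pow_ne_zero _ hd₀, ?_⟩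
  · have hle : Subalgebra.toSubmodule 𝓞 ≤ Subalgebra.toSubmodule M := by
      intro y hy
      have := (h𝓞 y).mp hy 0
      simpa using this
    have : IsNoetherian T (Subalgebra.toSubmodule M) := isNoetherian_of_isNoetherianRing_of_finite T M
    have : IsNoetherian T (Subalgebra.toSubmodule 𝓞) := isNoetherian_of_le hle
    exact (inferInstance : Module.Finite T (Subalgebra.toSubmodule 𝓞))
  · intro y hy
    rw [h𝓞] at hy ⊢
    intro j
    have := hy (j + 1)
    rw [pow_succ, AlgHom.mul_apply] at this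
    exact this
  · -- generators
    have key : ∀ m ∈ S, d₀ ^ 3 • m ∈ 𝓞 := by
      intro m hm
      rw [h𝓞]
      intro j
      rw [hcj]
      have e : s ^ j * (d₀ ^ 3 • m) * (s ^ (ℓ - 1)) ^ j =
          (d₀ • s ^ j) * (d₀ • m) * (d₀ • s ^ ((ℓ - 1) * j)) := by
        rw [pow_mul]
        simp only [smul_mul_assoc, mul_smul_comm, smul_smul]
        congr 1
        ring
      rw [e]
      exact M.mul_mem (M.mul_mem (hMs _ (hpow j)) (hMs _ (hgen m hm))) (hMs _ (hpow _))
    intro a ha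
    have ha' : a ∈ Submodule.span T (S : Set (Matrix (Fin n) (Fin n) Ω)) := by
      rw [hS]; exact ha
    refine Submodule.span_induction (p := fun a _ => d₀ ^ 3 • a ∈ 𝓞) ?_ ?_ ?_ ?_ ha'
    · intro m hm; exact key m (Finset.mem_coe.mp hm)
    · simp [𝓞.zero_mem]
    · intro x y _ _ hx hy
      rw [smul_add]; exact 𝓞.add_mem hx hy
    · intro t x _ hx
      rw [smul_comm]; exact 𝓞.smul_mem hx t

end MP35
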