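import Pool.Agent.Lib_MP_3538b5_al.LFC
import Pool.Agent.Lib_MP_3538b5_al.LFix
import Pool.Agent.Lib_MP_3538b5_al.LOrd
import Pool.Agent.Lib_MP_3538b5_al.RLoc

/-!
# Lemma E, the coprime action argument

`co_rep`: if conjugation with a matrix `s` of prime order different from `p` acts trivially on a factor
`B / B'` on which `G` is faithful, then some noncommutative closed subgroup has a representation of the
same degree which commutes with `s`.
-/

set_option autoImplicit false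

namespace MP35

universe u v w

open Topology Filter

/-- a nonzero topologically nilpotent element -/
theorem exists_tn_ne (T : Type v) [CommRing T] [TopologicalSpace T] [CNR T] [IsDomain T] [Infinite T] :
    ∃ c : T, c ≠ 0 ∧ IsTopologicallyNilpotent c := by
  by_contra hcon
  push Not at hcon
  have hloc := isLocalRing_of_cnr T
  have hopen := isOpen_maximalIdeal (T := T)
  have h0 : (IsLocalRing.maximalIdeal T : Set T) = {0} := by
    ext t
    rw [SetLike.mem_coe, mem_maximalIdeal_iff, Set.mem_singleton_iff]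
    constructor
    · intro h
      by_contra h1
      exact hcon t h1 h
    · rintro rfl
      exact IsTopologicallyNilpotent.zero
  rw [h0] at hopen
  have hdisc : DiscreteTopology T := discreteTopology_of_isOpen_singleton_zero hopen
  have hfin : Finite T := finite_of_compact_of_discrete
  exact not_finite T

namespace Rep

variable {p : ℕ} {G : Type u} [Group G] [TopologicalSpace G] {T : Type v} [CommRing T]
  [TopologicalSpace T] {Ω : Type v} [Field Ω] [Algebra T Ω] {n : ℕ} (R : Rep p G T Ω n)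

/-- the subspace is stable under conjugation with `G` -/
def Stable (B : Submodule Ω (Matrix (Fin n) (Fin n) Ω)) : Prop := ∀ g, ∀ w ∈ B, R.Ad g w ∈ B

/-- `G` acts faithfully on `B / B'` -/
def FaithQ (B' B : Submodule Ω (Matrix (Fin n) (Fin n) Ω)) : Prop :=
  ∀ g, (∀ w ∈ B, R.Ad g w - w ∈ B') → g = 1

/-- `μ` is an eigenvalue of `g` on `B / B'` -/
def EvQ (B' B : Submodule Ω (Matrix (Fin n) (Fin n) Ω)) (g : G) (μ : Ω) : Prop :=
  ∃ w ∈ B, w ∉ B' ∧ R.Ad g w - μ • w ∈ B'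

end Rep

section

variable {p : ℕ} [hp : Fact p.Prime] {G : Type u} [Group G] [TopologicalSpace G]
  [IsTopologicalGroup G] [CompactSpace G] [T2Space G] [TotallyDisconnectedSpace G] {T : Type v}
  [CommRing T] [TopologicalSpace T] [CNR T] {Ω : Type v} [Field Ω] [Algebra T Ω] {n : ℕ}

theorem co_rep (hG : PF p G) (R : Rep p G T Ω n) (alg : Algebra.IsAlgebraic T Ω)
    (hdeep : ∀ c : T, c ≠ 0 → ∃ h ∈ R.NI (Ideal.span {c}), h ≠ 1)
    {B' B : Submodule Ω (Matrix (Fin n) (Fin n) Ω)} (hle : B' ≤ B) (hB : R.Stable B)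
    (hB' : R.Stable B') (hf : R.FaithQ B' B) {ℓ : ℕ} (hl : ℓ.Prime) (hlp : ℓ ≠ p)
    {s : Matrix (Fin n) (Fin n) Ω} (hs : s ^ ℓ = 1) (hsB : ∀ w ∈ B, s * w * s ^ (ℓ - 1) - w ∈ B') :
    ∃ (H : Subgroup G) (R' : Rep p H T Ω n), IsClosed (H : Set G) ∧ PF p H ∧
      ∀ h, s * R'.ρ h = R'.ρ h * s := by
  classical
  haveI : Fact ℓ.Prime := ⟨hl⟩
  have hdom : IsDomain T := R.tinj.isDomain (algebraMap T Ω)
  haveI : Infinite T := infinite_of_rep hG R
  obtain ⟨c₁, hc₁, hc₁n⟩ := exists_tn_ne T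
  obtain ⟨𝓞, hfin, hτ𝓞, d, hd, hdA⟩ := exists_order R.tinj alg R.A R.fin hl.pos hs
  let S : Set T := {(p : T), c₁}
  have hS : ∀ t ∈ S, IsTopologicallyNilpotent t := by
    rintro t (rfl | ht)
    · exact R.pnil
    · rw [Set.mem_singleton_iff] at ht
      rw [ht]
      exact hc₁n
  have hpS : (p : T) ∈ S := Set.mem_insert _ _
  letI top𝓞 : TopologicalSpace 𝓞 := moduleTopology T 𝓞
  haveI mod𝓞 : IsModuleTopology T 𝓞 := ⟨rfl⟩
  haveI comp𝓞 : CompactSpace 𝓞 := compact_of_finite T 𝓞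
  haveI t2𝓞 : T2Space 𝓞 := t2_of_finite T 𝓞
  haveI ring𝓞 : IsTopologicalRing 𝓞 := IsModuleTopology.isTopologicalRing T 𝓞
  haveI td𝓞 : TotallyDisconnectedSpace 𝓞 := td_of_finite T 𝓞
  haveI tdu : TotallyDisconnectedSpace 𝓞ˣ := td_units
  let Γ : Subgroup 𝓞ˣ := cong (Ideal.span S) 𝓞
  have hΓc : IsClosed (Γ : Set 𝓞ˣ) := isClosed_cong (Ideal.span S)
  haveI compΓ : CompactSpace Γ := isCompact_iff_compactSpace.1 hΓc.isCompact
  have hΓP : ProP p Γ := proP_cong hS hpS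
  have hs1 : s * s ^ (ℓ - 1) = 1 := by
    rw [← pow_succ', Nat.sub_add_cancel hl.pos, hs]
  have hs2 : s ^ (ℓ - 1) * s = 1 := by
    rw [← pow_succ, Nat.sub_add_cancel hl.pos, hs]
  let us : (Matrix (Fin n) (Fin n) Ω)ˣ := ⟨s, s ^ (ℓ - 1), hs1, hs2⟩
  -- conjugation with `s`
  let τ₀ : 𝓞 →ₐ[T] 𝓞 :=
    { toFun := fun y => ⟨s * y * s ^ (ℓ - 1), hτ𝓞 y y.2⟩
      map_one' := Subtype.ext (by show s * 1 * s ^ (ℓ - 1) = 1; rw [mul_one, hs1])
      map_mul' := fun y z => Subtype.ext (by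
        show s * ((y : Matrix (Fin n) (Fin n) Ω) * z) * s ^ (ℓ - 1)
          = s * y * s ^ (ℓ - 1) * (s * z * s ^ (ℓ - 1))
        have e : s * (y : Matrix (Fin n) (Fin n) Ω) * s ^ (ℓ - 1) * (s * z * s ^ (ℓ - 1))
          = s * y * (s ^ (ℓ - 1) * s) * (z * s ^ (ℓ - 1)) := by
          simp only [mul_assoc]
        rw [e, hs2, mul_one]
        simp only [mul_assoc])
      map_zero' := Subtype.ext (by show s * 0 * s ^ (ℓ - 1) = 0; rw [mul_zero, zero_mul])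
      map_add' := fun y z => Subtype.ext (by
        show s * ((y : Matrix (Fin n) (Fin n) Ω) + z) * s ^ (ℓ - 1)
          = s * y * s ^ (ℓ - 1) + s * z * s ^ (ℓ - 1)
        rw [mul_add, add_mul])
      commutes' := fun t => Subtype.ext (by
        show s * (algebraMap T (Matrix (Fin n) (Fin n) Ω) t) * s ^ (ℓ - 1) = algebraMap T _ t
        rw [← Algebra.commutes, mul_assoc, hs1, mul_one]) }
  have hτ₀ : ∀ y : 𝓞, ((τ₀ y : 𝓞) : Matrix (Fin n) (Fin n) Ω) = s * y * s ^ (ℓ - 1) := fun y => rfl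
  have hτ₀c : Continuous τ₀ := IsModuleTopology.continuous_of_linearMap τ₀.toLinearMap
  let τ₁ : 𝓞ˣ →* 𝓞ˣ := Units.map (τ₀ : 𝓞 →* 𝓞)
  have hτ₁c : Continuous τ₁ := Continuous.units_map (τ₀ : 𝓞 →* 𝓞) hτ₀c
  have hτ₁Γ : ∀ x ∈ Γ, τ₁ x ∈ Γ := by
    intro x hx
    show ((τ₁ x : 𝓞ˣ) : 𝓞) - 1 ∈ (Ideal.span S • ⊤ : Submodule T 𝓞)
    have e : ((τ₁ x : 𝓞ˣ) : 𝓞) - 1 = τ₀.toLinearMap ((x : 𝓞) - 1) := by
      show τ₀ (x : 𝓞) - 1 = τ₀ ((x : 𝓞) - 1)
      rw [map_sub, map_one]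
    rw [e]
    have h1 : (x : 𝓞) - 1 ∈ (Ideal.span S • ⊤ : Submodule T 𝓞) := hx
    have h2 := Submodule.mem_map_of_mem (f := τ₀.toLinearMap) h1
    rw [Submodule.map_smul''] at h2
    exact Submodule.smul_mono le_rfl le_top h2
  let τ : Γ →* Γ := (τ₁.comp Γ.subtype).codRestrict Γ fun x => hτ₁Γ x x.2
  have hτc : Continuous τ := Continuous.subtype_mk (hτ₁c.comp continuous_subtype_val) _
  -- the inclusion in the matrices
  let ι : Γ →* (Matrix (Fin n) (Fin n) Ω)ˣ :=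
    (Units.map (𝓞.val : 𝓞 →* Matrix (Fin n) (Fin n) Ω)).comp Γ.subtype
  have hι : ∀ x : Γ, ((ι x : (Matrix (Fin n) (Fin n) Ω)ˣ) : Matrix (Fin n) (Fin n) Ω)
      = (((x : 𝓞ˣ) : 𝓞) : Matrix (Fin n) (Fin n) Ω) := fun x => rfl
  have hιinj : Function.Injective ι := by
    intro x y hxy
    have h1 := congrArg (fun z : (Matrix (Fin n) (Fin n) Ω)ˣ => (z : Matrix (Fin n) (Fin n) Ω)) hxy
    exact Subtype.ext (Units.ext (Subtype.ext h1))
  have hιτ : ∀ x : Γ, ι (τ x) = us * ι x * us⁻¹ := by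
    intro x
    apply Units.ext
    rfl
  have hτl : ∀ x : Γ, (⇑τ)^[ℓ] x = x := by
    intro x
    apply hιinj
    have h1 : ∀ k : ℕ, ι ((⇑τ)^[k] x) = us ^ k * ι x * (us ^ k)⁻¹ := by
      intro k
      induction k with
      | zero => simp
      | succ k ih =>
        rw [Function.iterate_succ', Function.comp_apply, hιτ, ih, pow_succ']
        group
    rw [h1 ℓ]
    have h2 : us ^ ℓ = 1 := Units.ext (by rw [Units.val_pow_eq_pow_val]; exact hs)
    rw [h2]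
    group
  -- the subgroup acting trivially on the factor
  let Tr := Triv B' B hle
  have hus : us ∈ Tr := hsB
  let R₀ : Subgroup Γ := Tr.comap ι
  have hFCι : FC T fun x : Γ => ((ι x : (Matrix (Fin n) (Fin n) Ω)ˣ) : Matrix (Fin n) (Fin n) Ω) := by
    have h1 : Continuous fun x : Γ => (((x : 𝓞ˣ) : 𝓞)) :=
      Units.continuous_val.comp continuous_subtype_val
    exact (FC.of_continuous (T := T) h1).map 𝓞.val.toLinearMap
  have hFCι' : FC T fun x : Γ => (((ι x)⁻¹ : (Matrix (Fin n) (Fin n) Ω)ˣ) : Matrix (Fin n) (Fin n) Ω) := by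
    have h1 : FC T fun x : Γ => ((ι x⁻¹ : (Matrix (Fin n) (Fin n) Ω)ˣ) : Matrix (Fin n) (Fin n) Ω) :=
      hFCι.comp continuous_inv
    simpa only [map_inv] using h1
  have hR₀ : IsClosed (R₀ : Set Γ) := by
    have h1 : (R₀ : Set Γ) = ⋂ w ∈ B, {x : Γ | ((ι x : (Matrix (Fin n) (Fin n) Ω)ˣ) :
        Matrix (Fin n) (Fin n) Ω) * w * (((ι x)⁻¹ : (Matrix (Fin n) (Fin n) Ω)ˣ) :
        Matrix (Fin n) (Fin n) Ω) - w ∈ B'.restrictScalars T} := by
      ext x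
      simp only [Set.mem_iInter]
      exact Iff.rfl
    rw [h1]
    refine isClosed_biInter fun w _ => ?_
    exact (((hFCι.mul (FC.const w)).mul hFCι').sub (FC.const w)).isClosed _
  have hτR : ∀ x ∈ R₀, τ x ∈ R₀ := by
    intro x hx
    show ι (τ x) ∈ Tr
    rw [hιτ]
    exact mul_mem (mul_mem hus hx) (inv_mem hus)
  -- the elements of the congruence subgroup
  let ρu : G →* (Matrix (Fin n) (Fin n) Ω)ˣ := R.ρ.toHomUnits
  have hρu : ∀ g, ((ρu g : (Matrix (Fin n) (Fin n) Ω)ˣ) : Matrix (Fin n) (Fin n) Ω) = R.ρ g :=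
    fun g => rfl
  have hρu' : ∀ g, (((ρu g)⁻¹ : (Matrix (Fin n) (Fin n) Ω)ˣ) : Matrix (Fin n) (Fin n) Ω) = R.ρ g⁻¹ :=
    fun g => by rw [← map_inv]; rfl
  have hstB : ∀ g, ∀ w ∈ B, ((ρu g : (Matrix (Fin n) (Fin n) Ω)ˣ) : Matrix (Fin n) (Fin n) Ω) * w
      * (((ρu g)⁻¹ : (Matrix (Fin n) (Fin n) Ω)ˣ) : Matrix (Fin n) (Fin n) Ω) ∈ B := by
    intro g w hw
    rw [hρu, hρu']
    exact hB g w hw
  have hstB' : ∀ g, ∀ w ∈ B', (((ρu g)⁻¹ : (Matrix (Fin n) (Fin n) Ω)ˣ) :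
      Matrix (Fin n) (Fin n) Ω) * w * ((ρu g : (Matrix (Fin n) (Fin n) Ω)ˣ) :
      Matrix (Fin n) (Fin n) Ω) ∈ B' := by
    intro g w hw
    rw [hρu, hρu']
    have := hB' g⁻¹ w hw
    rwa [Rep.Ad_apply, inv_inv] at this
  have hconj : ∀ (g : G) (t : (Matrix (Fin n) (Fin n) Ω)ˣ), t ∈ Tr → (ρu g)⁻¹ * t * ρu g ∈ Tr :=
    fun g t ht => Triv.conj ht (hstB g) (hstB' g)
  set c : T := d * c₁ with hc
  have hc0 : c ≠ 0 := mul_ne_zero hd hc₁
  have hmem : ∀ h ∈ R.NI (Ideal.span {c}), ∃ y : 𝓞, R.ρ h = y ∧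
      y - 1 ∈ (Ideal.span S • ⊤ : Submodule T 𝓞) := by
    intro h hh
    obtain ⟨x, hx⟩ := R.mem_NI_span.1 hh
    have h1 : R.ρ h = 1 + c₁ • (d • (x : Matrix (Fin n) (Fin n) Ω)) := by
      have := congrArg Subtype.val hx
      rw [Rep.j_coe] at this
      rw [this, smul_smul, mul_comm c₁ d]
      rfl
    refine ⟨1 + c₁ • ⟨d • (x : Matrix (Fin n) (Fin n) Ω), hdA _ x.2⟩, h1, ?_⟩
    rw [add_sub_cancel_left]
    exact Submodule.smul_mem_smul (Ideal.subset_span (by simp [S])) trivial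
  have hγ : ∀ h ∈ R.NI (Ideal.span {c}), ∃ y : Γ, ι y = ρu h := by
    intro h hh
    obtain ⟨y, hy1, hy2⟩ := hmem h hh
    obtain ⟨z, hz1, -⟩ := hmem h⁻¹ (inv_mem hh)
    have e1 : y * z = 1 := Subtype.ext (by
      show (y : Matrix (Fin n) (Fin n) Ω) * z = 1
      rw [← hy1, ← hz1, ← map_mul, mul_inv_cancel, map_one])
    have e2 : z * y = 1 := Subtype.ext (by
      show (z : Matrix (Fin n) (Fin n) Ω) * y = 1
      rw [← hy1, ← hz1, ← map_mul, inv_mul_cancel, map_one])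
    refine ⟨⟨⟨y, z, e1, e2⟩, hy2⟩, Units.ext hy1.symm⟩
  have hfix : ∀ h ∈ R.NI (Ideal.span {c}), ∃ y : Γ, τ y = y ∧ (ρu h)⁻¹ * ι y ∈ Tr := by
    intro h hh
    obtain ⟨x, hx⟩ := hγ h hh
    have h1 : x⁻¹ * τ x ∈ R₀ := by
      show ι (x⁻¹ * τ x) ∈ Tr
      rw [map_mul, map_inv, hιτ, hx]
      have : (ρu h)⁻¹ * (us * ρu h * us⁻¹) = ((ρu h)⁻¹ * us * ρu h) * us⁻¹ := by group
      rw [this]
      exact mul_mem (hconj h us hus) (inv_mem hus)
    obtain ⟨r, hr, hr2⟩ := exists_fixed hlp hΓP τ hτc hτl R₀ hR₀ hτR x h1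
    refine ⟨x * r, hr2, ?_⟩
    rw [map_mul, hx, inv_mul_cancel_left]
    exact hr
  -- two noncommuting elements
  obtain ⟨h₀, hh₀, hh₀1⟩ := hdeep c hc0
  have hNne : R.NI (Ideal.span {c}) ≠ ⊥ := by
    intro h
    rw [h, Subgroup.mem_bot] at hh₀
    exact hh₀1 hh₀
  obtain ⟨h₁, hh₁, h₂, hh₂, h12⟩ :=
    normal_noncomm hG.proP hG.lift (R.NI (Ideal.span {c})) (R.NI_normal _) hNne hG.nc
  obtain ⟨y₁, hy₁, hy₁T⟩ := hfix h₁ hh₁
  obtain ⟨y₂, hy₂, hy₂T⟩ := hfix h₂ hh₂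
  -- the fixed group
  let L : Subgroup Γ := τ.eqLocus (MonoidHom.id Γ)
  have hLc : IsClosed (L : Set Γ) := isClosed_eq hτc continuous_id
  haveI compL : CompactSpace L := isCompact_iff_compactSpace.1 hLc.isCompact
  have hLP : ProP p L := hΓP.sub L
  obtain ⟨φ, hφc, hφ1, hφ2⟩ := hom2 hG.proP hG.lift h12 (L := L) hLP ⟨y₁, hy₁⟩ ⟨y₂, hy₂⟩
  let H : Subgroup G := cl2 h₁ h₂
  have hHc : IsClosed (H : Set G) := isClosed_cl2 h₁ h₂
  let α : H →* (Matrix (Fin n) (Fin n) Ω)ˣ := (ι.comp L.subtype).comp φ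
  let β : H →* (Matrix (Fin n) (Fin n) Ω)ˣ := ρu.comp H.subtype
  have hFCα : FC T fun x : H => ((α x : (Matrix (Fin n) (Fin n) Ω)ˣ) : Matrix (Fin n) (Fin n) Ω) :=
    hFCι.comp (continuous_subtype_val.comp hφc)
  have hFCα' : FC T fun x : H => (((α x)⁻¹ : (Matrix (Fin n) (Fin n) Ω)ˣ) :
      Matrix (Fin n) (Fin n) Ω) := hFCι'.comp (continuous_subtype_val.comp hφc)
  have hFCβ : FC T fun x : H => ((β x : (Matrix (Fin n) (Fin n) Ω)ˣ) : Matrix (Fin n) (Fin n) Ω) := by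
    have h1 : Continuous fun x : H => R.j (x : G) := R.cont_j.comp continuous_subtype_val
    exact (FC.of_continuous (T := T) h1).map R.A.val.toLinearMap
  have hFCβ' : FC T fun x : H => (((β x)⁻¹ : (Matrix (Fin n) (Fin n) Ω)ˣ) :
      Matrix (Fin n) (Fin n) Ω) := by
    have h1 : FC T fun x : H => ((β x⁻¹ : (Matrix (Fin n) (Fin n) Ω)ˣ) : Matrix (Fin n) (Fin n) Ω) :=
      hFCβ.comp continuous_inv
    simpa only [map_inv] using h1
  let E : Subgroup H :=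
    { carrier := {g | (β g)⁻¹ * α g ∈ Tr}
      one_mem' := by
        show (β 1)⁻¹ * α 1 ∈ Tr
        rw [map_one, map_one, inv_one, one_mul]
        exact one_mem _
      mul_mem' := fun {g h} hg hh => by
        show (β (g * h))⁻¹ * α (g * h) ∈ Tr
        have e : (β (g * h))⁻¹ * α (g * h)
            = ((β h)⁻¹ * ((β g)⁻¹ * α g) * β h) * ((β h)⁻¹ * α h) := by
          rw [map_mul, map_mul]
          group
        rw [e]
        exact mul_mem (hconj _ _ hg) hh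
      inv_mem' := fun {g} hg => by
        show (β g⁻¹)⁻¹ * α g⁻¹ ∈ Tr
        have e : (β g⁻¹)⁻¹ * α g⁻¹ = (β g⁻¹)⁻¹ * ((β g)⁻¹ * α g)⁻¹ * β g⁻¹ := by
          rw [map_inv, map_inv]
          group
        rw [e]
        exact hconj _ _ (inv_mem hg) }
  have hEc : IsClosed (E : Set H) := by
    have h1 : (E : Set H) = ⋂ w ∈ B, {x : H | (((β x)⁻¹ : (Matrix (Fin n) (Fin n) Ω)ˣ) :
        Matrix (Fin n) (Fin n) Ω) * ((α x : (Matrix (Fin n) (Fin n) Ω)ˣ) :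
        Matrix (Fin n) (Fin n) Ω) * w * ((((α x)⁻¹ : (Matrix (Fin n) (Fin n) Ω)ˣ) :
        Matrix (Fin n) (Fin n) Ω) * ((β x : (Matrix (Fin n) (Fin n) Ω)ˣ) :
        Matrix (Fin n) (Fin n) Ω)) - w ∈ B'.restrictScalars T} := by
      ext x
      simp only [Set.mem_iInter]
      have : x ∈ (E : Set H) ↔ ∀ w ∈ B, ((((β x)⁻¹ * α x : (Matrix (Fin n) (Fin n) Ω)ˣ)) :
          Matrix (Fin n) (Fin n) Ω) * w * ((((β x)⁻¹ * α x)⁻¹ : (Matrix (Fin n) (Fin n) Ω)ˣ) :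
          Matrix (Fin n) (Fin n) Ω) - w ∈ B' := Iff.rfl
      rw [this]
      simp only [mul_inv_rev, inv_inv, Units.val_mul]
      exact Iff.rfl
    rw [h1]
    refine isClosed_biInter fun w _ => ?_
    exact ((((hFCβ'.mul hFCα).mul (FC.const w)).mul (hFCα'.mul hFCβ)).sub (FC.const w)).isClosed _
  have hE1 : (⟨h₁, left_mem_cl2 h₁ h₂⟩ : H) ∈ E := by
    show (β ⟨h₁, left_mem_cl2 h₁ h₂⟩)⁻¹ * α ⟨h₁, left_mem_cl2 h₁ h₂⟩ ∈ Tr
    have e : α ⟨h₁, left_mem_cl2 h₁ h₂⟩ = ι y₁ := by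
      show ι (φ ⟨h₁, left_mem_cl2 h₁ h₂⟩ : L) = ι y₁
      rw [hφ1]
    rw [e]
    exact hy₁T
  have hE2 : (⟨h₂, right_mem_cl2 h₁ h₂⟩ : H) ∈ E := by
    show (β ⟨h₂, right_mem_cl2 h₁ h₂⟩)⁻¹ * α ⟨h₂, right_mem_cl2 h₁ h₂⟩ ∈ Tr
    have e : α ⟨h₂, right_mem_cl2 h₁ h₂⟩ = ι y₂ := by
      show ι (φ ⟨h₂, right_mem_cl2 h₁ h₂⟩ : L) = ι y₂
      rw [hφ2]
    rw [e]
    exact hy₂T
  have hEtop : E = ⊤ := eq_top_of_cl2 E hEc hE1 hE2
  have hE : ∀ g : H, (β g)⁻¹ * α g ∈ Tr := fun g => by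
    have : g ∈ E := by rw [hEtop]; trivial
    exact this
  have hinj : Function.Injective α := by
    rw [injective_iff_map_eq_one]
    intro g hg
    have h1 := hE g
    rw [hg, mul_one] at h1
    have h2 : (g : G)⁻¹ = 1 := by
      apply hf
      intro w hw
      have h3 := h1 w hw
      rw [inv_inv] at h3
      rw [Rep.Ad_apply, inv_inv]
      have e : (((β g)⁻¹ : (Matrix (Fin n) (Fin n) Ω)ˣ) : Matrix (Fin n) (Fin n) Ω)
          = R.ρ (g : G)⁻¹ := hρu' g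
      rw [e] at h3
      exact h3
    exact Subtype.ext (inv_eq_one.1 h2)
  have hval : ∀ g : H, ((α g : (Matrix (Fin n) (Fin n) Ω)ˣ) : Matrix (Fin n) (Fin n) Ω) ∈ 𝓞 :=
    fun g => (((φ g : L) : Γ) : 𝓞ˣ).1.2
  let ρ' : H →* Matrix (Fin n) (Fin n) Ω := (Units.coeHom (Matrix (Fin n) (Fin n) Ω)).comp α
  have hle' : repAlg T ρ' ≤ 𝓞 := by
    refine Algebra.adjoin_le ?_
    rintro _ ⟨g, rfl⟩
    exact hval g
  haveI hfin' : Module.Finite T (repAlg T ρ') :=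
    Module.Finite.of_injective (Subalgebra.inclusion hle').toLinearMap
      (Subalgebra.inclusion_injective hle')
  let R' : Rep p H T Ω n :=
    { ρ := ρ'
      inj := fun g h hgh => hinj (Units.ext hgh)
      fin := hfin'
      cont := by
        have h1 := hFCα.contIn (repAlg T ρ').toSubmodule
          (fun g => Algebra.subset_adjoin ⟨g, rfl⟩)
        exact h1
      pnil := R.pnil
      tinj := R.tinj }
  refine ⟨H, R', hHc, ⟨hG.proP.sub H, hG.lift.sub H hHc, ⟨h₁, left_mem_cl2 h₁ h₂⟩,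
    ⟨h₂, right_mem_cl2 h₁ h₂⟩, fun h => h12 (congrArg Subtype.val h)⟩, fun g => ?_⟩
  have h1 : τ ((φ g : L) : Γ) = ((φ g : L) : Γ) := (φ g).2
  have h2 : us * α g * us⁻¹ = α g := by
    have := hιτ ((φ g : L) : Γ)
    rw [h1] at this
    exact this.symm
  have h3 : us * α g = α g * us := by
    calc us * α g = us * α g * us⁻¹ * us := by group
      _ = α g * us := by rw [h2]
  exact congrArg (fun z : (Matrix (Fin n) (Fin n) Ω)ˣ => (z : Matrix (Fin n) (Fin n) Ω)) h3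

end

end MP35
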