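import Pool.Agent.Lib_MP_3538b5_al.LTop

/-!
# Finitely continuous functions; the subgroup acting trivially on a factor
-/

set_option autoImplicit false

namespace MP35

universe u v w x

open Topology Filter

section fc

variable {T : Type v} [CommRing T] [TopologicalSpace T] [CNR T] {X : Type x} [TopologicalSpace X]

/-- the function `f` has values in a finite submodule and is continuous for the module topology -/
def FC (T : Type v) [CommRing T] [TopologicalSpace T] {X : Type x} [TopologicalSpace X] {W : Type w}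
    [AddCommGroup W] [Module T W] (f : X → W) : Prop :=
  ∃ (N : Submodule T W) (_ : Module.Finite T N) (h : ∀ x, f x ∈ N),
    @Continuous X N _ (moduleTopology T N) fun x => ⟨f x, h x⟩

section

variable {W : Type w} [AddCommGroup W] [Module T W]

/-- continuity for another finite submodule -/
theorem FC.contIn {f : X → W} (hf : FC T f) (N' : Submodule T W) [Module.Finite T N']
    (h' : ∀ x, f x ∈ N') : @Continuous X N' _ (moduleTopology T N') fun x => ⟨f x, h' x⟩ := by
  obtain ⟨N, hN, h, hc⟩ := hf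
  let Q : Submodule T W := N ⊔ N'
  haveI hQ : Module.Finite T Q := Module.Finite.iff_fg.2
    ((Module.Finite.iff_fg.1 hN).sup (Module.Finite.iff_fg.1 inferInstance))
  letI t1 : TopologicalSpace N := moduleTopology T N
  haveI m1 : IsModuleTopology T N := ⟨rfl⟩
  letI t2 : TopologicalSpace N' := moduleTopology T N'
  haveI m2 : IsModuleTopology T N' := ⟨rfl⟩
  letI t3 : TopologicalSpace Q := moduleTopology T Q
  haveI m3 : IsModuleTopology T Q := ⟨rfl⟩
  haveI := t2_of_finite T Q
  haveI : ContinuousAdd Q := IsModuleTopology.toContinuousAdd T Q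
  have e := isClosedEmbedding_of_injective (T := T) (Submodule.inclusion (le_sup_right : N' ≤ Q))
    (Submodule.inclusion_injective _)
  rw [e.continuous_iff]
  have e2 := IsModuleTopology.continuous_of_linearMap (R := T)
    (Submodule.inclusion (le_sup_left : N ≤ Q))
  exact e2.comp hc

theorem FC.of_contIn {f : X → W} (N : Submodule T W) [Module.Finite T N] (h : ∀ x, f x ∈ N)
    (hc : @Continuous X N _ (moduleTopology T N) fun x => ⟨f x, h x⟩) : FC T f :=
  ⟨N, inferInstance, h, hc⟩

theorem FC.const (w : W) : FC T (fun _ : X => w) := by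
  refine FC.of_contIn (T := T) (Submodule.span T {w}) (fun _ => Submodule.mem_span_singleton_self w) ?_
  exact @continuous_const _ _ _ (moduleTopology T _) _

theorem FC.add {f g : X → W} (hf : FC T f) (hg : FC T g) : FC T (fun x => f x + g x) := by
  obtain ⟨N, hN, h, -⟩ := id hf
  obtain ⟨N', hN', h', -⟩ := id hg
  let Q : Submodule T W := N ⊔ N'
  haveI hQ : Module.Finite T Q := Module.Finite.iff_fg.2
    ((Module.Finite.iff_fg.1 hN).sup (Module.Finite.iff_fg.1 hN'))
  have hfQ : ∀ x, f x ∈ Q := fun x => Submodule.mem_sup_left (h x)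
  have hgQ : ∀ x, g x ∈ Q := fun x => Submodule.mem_sup_right (h' x)
  refine FC.of_contIn (T := T) Q (fun x => Q.add_mem (hfQ x) (hgQ x)) ?_
  letI t3 : TopologicalSpace Q := moduleTopology T Q
  haveI m3 : IsModuleTopology T Q := ⟨rfl⟩
  haveI : ContinuousAdd Q := IsModuleTopology.toContinuousAdd T Q
  exact (hf.contIn Q hfQ).add (hg.contIn Q hgQ)

theorem FC.comp {Y : Type*} [TopologicalSpace Y] {f : X → W} (hf : FC T f) {k : Y → X}
    (hk : Continuous k) : FC T (fun y => f (k y)) := by
  obtain ⟨N, hN, h, hc⟩ := hf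
  refine FC.of_contIn (T := T) N (fun y => h (k y)) ?_
  letI t3 : TopologicalSpace N := moduleTopology T N
  exact hc.comp hk

theorem FC.map {f : X → W} (hf : FC T f) {W' : Type*} [AddCommGroup W'] [Module T W']
    (φ : W →ₗ[T] W') : FC T (fun x => φ (f x)) := by
  obtain ⟨N, hN, h, hc⟩ := hf
  haveI : Module.Finite T (N.map φ) := Module.Finite.iff_fg.2 ((Module.Finite.iff_fg.1 hN).map φ)
  refine FC.of_contIn (T := T) (N.map φ) (fun y => ⟨_, h y, rfl⟩) ?_
  letI t1 : TopologicalSpace N := moduleTopology T N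
  haveI m1 : IsModuleTopology T N := ⟨rfl⟩
  letI t3 : TopologicalSpace (N.map φ) := moduleTopology T (N.map φ)
  haveI m3 : IsModuleTopology T (N.map φ) := ⟨rfl⟩
  haveI : ContinuousAdd (N.map φ) := IsModuleTopology.toContinuousAdd T _
  have e2 := IsModuleTopology.continuous_of_linearMap (R := T)
    (φ.restrict (p := N) (q := N.map φ) fun x hx => ⟨x, hx, rfl⟩)
  exact e2.comp hc

theorem FC.neg {f : X → W} (hf : FC T f) : FC T (fun x => - f x) :=
  hf.map (-LinearMap.id)

theorem FC.sub {f g : X → W} (hf : FC T f) (hg : FC T g) : FC T (fun x => f x - g x) := by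
  have := hf.add hg.neg
  simpa only [sub_eq_add_neg] using this

/-- the preimage of a submodule is closed -/
theorem FC.isClosed {f : X → W} (hf : FC T f) (P : Submodule T W) : IsClosed {x | f x ∈ P} := by
  obtain ⟨N, hN, h, hc⟩ := hf
  letI t1 : TopologicalSpace N := moduleTopology T N
  haveI m1 : IsModuleTopology T N := ⟨rfl⟩
  exact (isClosed_submodule (T := T) (P.comap N.subtype)).preimage hc

/-- a continuous function to a finite module with the module topology -/
theorem FC.of_continuous {M : Type*} [AddCommGroup M] [Module T M] [Module.Finite T M]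
    [TopologicalSpace M] [IsModuleTopology T M] {f : X → M} (hf : Continuous f) : FC T f := by
  haveI : Module.Finite T (⊤ : Submodule T M) := Module.Finite.iff_fg.2 Module.Finite.fg_top
  refine FC.of_contIn (T := T) ⊤ (fun _ => trivial) ?_
  letI t3 : TopologicalSpace (⊤ : Submodule T M) := moduleTopology T _
  haveI m3 : IsModuleTopology T (⊤ : Submodule T M) := ⟨rfl⟩
  haveI : ContinuousAdd (⊤ : Submodule T M) := IsModuleTopology.toContinuousAdd T _
  have e := IsModuleTopology.continuous_of_linearMap (R := T)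
    ((Submodule.topEquiv (R := T) (M := M)).symm : M →ₗ[T] (⊤ : Submodule T M))
  exact e.comp hf

end

theorem FC.mul {W : Type w} [Ring W] [Algebra T W] {f g : X → W} (hf : FC T f) (hg : FC T g) :
    FC T (fun x => f x * g x) := by
  obtain ⟨N, hN, h, hc⟩ := hf
  obtain ⟨N', hN', h', hc'⟩ := hg
  haveI hQ : Module.Finite T (N * N' : Submodule T W) := Module.Finite.iff_fg.2
    (Submodule.FG.mul (Module.Finite.iff_fg.1 hN) (Module.Finite.iff_fg.1 hN'))
  refine FC.of_contIn (T := T) (N * N') (fun x => Submodule.mul_mem_mul (h x) (h' x)) ?_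
  letI t1 : TopologicalSpace N := moduleTopology T N
  haveI m1 : IsModuleTopology T N := ⟨rfl⟩
  letI t2 : TopologicalSpace N' := moduleTopology T N'
  haveI m2 : IsModuleTopology T N' := ⟨rfl⟩
  letI t3 : TopologicalSpace (N * N' : Submodule T W) := moduleTopology T _
  haveI m3 : IsModuleTopology T (N * N' : Submodule T W) := ⟨rfl⟩
  haveI : ContinuousAdd (N * N' : Submodule T W) := IsModuleTopology.toContinuousAdd T _
  let bil : N →ₗ[T] N' →ₗ[T] (N * N' : Submodule T W) :=
    LinearMap.mk₂ T (fun a b => ⟨(a : W) * b, Submodule.mul_mem_mul a.2 b.2⟩)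
      (fun a b c => Subtype.ext (add_mul _ _ _)) (fun r a b => Subtype.ext (smul_mul_assoc _ _ _))
      (fun a b c => Subtype.ext (mul_add _ _ _)) (fun r a b => Subtype.ext (mul_smul_comm _ _ _))
  have e := IsModuleTopology.continuous_bilinear_of_finite_left bil
  exact e.comp (hc.prodMk hc')

end fc

section triv

variable {Ω : Type v} [Field Ω] {W : Type w} [Ring W] [Algebra Ω W] [FiniteDimensional Ω W]

/-- an injective linear map which maps `B` to `B` reflects membership in `B` -/
theorem mem_of_map_mem (f : W →ₗ[Ω] W) (hf : Function.Injective f) {B : Submodule Ω W}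
    (h : ∀ x ∈ B, f x ∈ B) {x : W} (hx : f x ∈ B) : x ∈ B := by
  have h1 : B.map f ≤ B := by
    rintro _ ⟨y, hy, rfl⟩
    exact h y hy
  have h2 : B.map f = B := Submodule.eq_of_le_of_finrank_eq h1 (by
    exact (LinearEquiv.finrank_eq (B.equivMapOfInjective f hf)).symm)
  rw [← h2] at hx
  obtain ⟨y, hy, hyx⟩ := hx
  rwa [← hf hyx]

/-- the units which preserve `B`, `B'` by conjugation and act trivially on `B / B'` -/
def Triv (B' B : Submodule Ω W) (hle : B' ≤ B) : Subgroup Wˣ where
  carrier := {t | ∀ w ∈ B, (t : W) * w * ((t⁻¹ : Wˣ) : W) - w ∈ B'}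
  one_mem' w _ := by simp
  mul_mem' {s t} hs ht w hw := by
    have h1 := ht w hw
    have h2 := hs w hw
    have h3 := hs _ (hle h1)
    have e : ((s * t : Wˣ) : W) * w * (((s * t)⁻¹ : Wˣ) : W) - w
        = ((s : W) * ((t : W) * w * ((t⁻¹ : Wˣ) : W) - w) * ((s⁻¹ : Wˣ) : W)
          - ((t : W) * w * ((t⁻¹ : Wˣ) : W) - w)) + ((t : W) * w * ((t⁻¹ : Wˣ) : W) - w)
          + ((s : W) * w * ((s⁻¹ : Wˣ) : W) - w) := by
      rw [mul_inv_rev, Units.val_mul, Units.val_mul]
      noncomm_ring
    rw [e]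
    exact add_mem (add_mem h3 h1) h2
  inv_mem' {t} ht w hw := by
    -- conjugation with `t` preserves `B`, so does conjugation with `t⁻¹`
    let f : W →ₗ[Ω] W := LinearMap.mulLeftRight Ω ((t : W), ((t⁻¹ : Wˣ) : W))
    have hfa : ∀ x, f x = (t : W) * x * ((t⁻¹ : Wˣ) : W) := fun x => rfl
    have hf : Function.Injective f := by
      intro x y hxy
      rw [hfa, hfa] at hxy
      have h1 := congrArg (fun z => ((t⁻¹ : Wˣ) : W) * z * (t : W)) hxy
      simpa only [mul_assoc, Units.inv_mul, mul_one, Units.inv_mul_cancel_left] using h1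
    have hfB : ∀ x ∈ B, f x ∈ B := fun x hx => by
      have := hle (ht x hx)
      have h2 := add_mem this hx
      rwa [sub_add_cancel] at h2
    have h3 : ((t⁻¹ : Wˣ) : W) * w * (t : W) ∈ B := by
      refine mem_of_map_mem f hf hfB ?_
      rw [hfa]
      have : (t : W) * (((t⁻¹ : Wˣ) : W) * w * (t : W)) * ((t⁻¹ : Wˣ) : W) = w := by
        simp only [mul_assoc, Units.mul_inv, mul_one, Units.mul_inv_cancel_left]
      rwa [this]
    have h4 := ht _ h3
    have h5 : (t : W) * (((t⁻¹ : Wˣ) : W) * w * (t : W)) * ((t⁻¹ : Wˣ) : W) = w := by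
      simp only [mul_assoc, Units.mul_inv, mul_one, Units.mul_inv_cancel_left]
    rw [h5] at h4
    have h6 := neg_mem h4
    rw [neg_sub] at h6
    rw [inv_inv]
    exact h6

theorem mem_Triv {B' B : Submodule Ω W} {hle : B' ≤ B} {t : Wˣ} :
    t ∈ Triv B' B hle ↔ ∀ w ∈ B, (t : W) * w * ((t⁻¹ : Wˣ) : W) - w ∈ B' := Iff.rfl

/-- the stabiliser normalises `Triv` -/
theorem Triv.conj {B' B : Submodule Ω W} {hle : B' ≤ B} {t : Wˣ} (ht : t ∈ Triv B' B hle) {x : Wˣ}
    (h1 : ∀ w ∈ B, (x : W) * w * ((x⁻¹ : Wˣ) : W) ∈ B)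
    (h2 : ∀ w ∈ B', ((x⁻¹ : Wˣ) : W) * w * (x : W) ∈ B') : x⁻¹ * t * x ∈ Triv B' B hle := by
  intro w hw
  have h3 := h2 _ (ht _ (h1 w hw))
  have e : ((x⁻¹ * t * x : Wˣ) : W) * w * (((x⁻¹ * t * x)⁻¹ : Wˣ) : W) - w
      = ((x⁻¹ : Wˣ) : W) * ((t : W) * ((x : W) * w * ((x⁻¹ : Wˣ) : W)) * ((t⁻¹ : Wˣ) : W)
        - (x : W) * w * ((x⁻¹ : Wˣ) : W)) * (x : W) := by
    simp only [mul_inv_rev, inv_inv, Units.val_mul, mul_sub, sub_mul, mul_assoc, Units.inv_mul,
      mul_one, Units.inv_mul_cancel_left]
  rw [e]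
  exact h3

end triv

end MP35
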