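import Mathlib

/-! # Piece LGRP: characters of finitely generated commutative groups -/

set_option autoImplicit false

namespace MP35

universe u v

/-- a finitely generated commutative group in which all elements are `ℓ`-th powers is killed by a
nonzero integer -/
theorem exists_zpow_eq_one_of_fg {Q : Type u} [CommGroup Q] [Group.FG Q] {ℓ : ℕ} (hℓ : 1 < ℓ)
    (h : ∀ y : Q, ∃ z : Q, z ^ ℓ = y) : ∃ r : ℤ, r ≠ 0 ∧ ∀ y : Q, y ^ r = 1 := by
  have hfg : Module.Finite ℤ (Additive Q) :=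
    Module.Finite.iff_addGroup_fg.2 (inferInstance : AddGroup.FG (Additive Q))
  obtain ⟨r, hr1, hr2⟩ := Submodule.exists_sub_one_mem_and_smul_eq_zero_of_fg_of_le_smul
    (Ideal.span {(ℓ : ℤ)}) (⊤ : Submodule ℤ (Additive Q)) hfg.fg_top (by
      intro y _
      obtain ⟨z, hz⟩ := h (Additive.toMul y)
      have e : y = (ℓ : ℤ) • Additive.ofMul z := by
        apply Additive.toMul.injective
        rw [← hz, natCast_zsmul]
        rfl
      rw [e]
      exact Submodule.smul_mem_smul (Ideal.mem_span_singleton_self _) trivial)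
  refine ⟨r, ?_, fun y => ?_⟩
  · rintro rfl
    rw [Ideal.mem_span_singleton, zero_sub, dvd_neg] at hr1
    have := Int.natCast_dvd_natCast.1 (by simpa using hr1 : ((ℓ : ℕ) : ℤ) ∣ ((1 : ℕ) : ℤ))
    have := Nat.le_of_dvd one_pos this
    omega
  · have := hr2 (Additive.ofMul y) trivial
    exact congrArg Additive.toMul this

/-- a finitely generated commutative group in which all elements are `ℓ`-th powers for all primes
`ℓ ≠ p` is a finite `p`-group -/
theorem exists_pow_prime_pow_eq_one {Q : Type u} [CommGroup Q] [Group.FG Q] {p : ℕ}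
    (h : ∀ ℓ : ℕ, ℓ.Prime → ℓ ≠ p → ∀ y : Q, ∃ z : Q, z ^ ℓ = y) :
    ∃ m : ℕ, ∀ y : Q, y ^ p ^ m = 1 := by
  obtain ⟨ℓ₀, hℓ₀, hne⟩ : ∃ ℓ : ℕ, ℓ.Prime ∧ ℓ ≠ p := by
    rcases eq_or_ne p 2 with rfl | h2
    · exact ⟨3, Nat.prime_three, by norm_num⟩
    · exact ⟨2, Nat.prime_two, h2.symm⟩
  obtain ⟨r, hr0, hr⟩ := exists_zpow_eq_one_of_fg hℓ₀.one_lt (h ℓ₀ hℓ₀ hne)
  have hfin : Finite Q := by
    refine CommGroup.finite_of_fg_isMulTorsion Q fun y => ?_
    rw [isOfFinOrder_iff_pow_eq_one]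
    exact ⟨r.natAbs, Int.natAbs_pos.2 hr0, pow_natAbs_eq_one.2 (hr y)⟩
  have hcard : Nat.card Q = p ^ (Nat.card Q).primeFactorsList.length := by
    refine Nat.eq_prime_pow_of_unique_prime_dvd Nat.card_pos.ne' fun {d} hd hdvd => ?_
    by_contra hdp
    have : Fact d.Prime := ⟨hd⟩
    obtain ⟨y, hy⟩ := exists_prime_orderOf_dvd_card' d hdvd
    have hsurj : Function.Surjective (fun z : Q => z ^ d) := h d hd hdp
    have hinj : Function.Injective (fun z : Q => z ^ d) := Finite.injective_iff_surjective.2 hsurj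
    have h1 : y ^ d = 1 := by rw [← hy]; exact pow_orderOf_eq_one y
    have h2 : y = 1 := hinj (by simpa using h1)
    rw [h2, orderOf_one] at hy
    exact hd.one_lt.ne hy
  refine ⟨(Nat.card Q).primeFactorsList.length, fun y => ?_⟩
  rw [← hcard]
  exact pow_card_eq_one'

/-- PROOF. Let `Q = C ⧸ Y`, a finitely generated commutative group.
Suppose first that for every prime `ℓ ≠ p` every element of `Q` is an `ℓ`-th power. Take one such prime `ℓ₀`. By Nakayama (`Submodule.exists_sub_one_mem_and_smul_eq_zero_of_fg_of_le_smul` for the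
`ℤ`-module `Additive Q`) there is an integer `r ≡ 1` mod `ℓ₀` with `Q ^ r = 1`; so `Q` is finite. If a prime `ℓ ≠ p` divided the order of `Q`, `Q` would have an element of
order `ℓ` (Cauchy) and the `ℓ`-th power map would not be injective, hence (finite) not surjective. So the order of `Q` is a power of `p`, and the image of `x` in `Q` has order `p ^ m`, contradiction to `hno`.
So there are a prime `ℓ ≠ p` and `y ∈ C` whose image in `Q` is not an `ℓ`-th power. `Q' = Q ⧸ Q ^ ℓ` (`(powMonoidHom ℓ).range`) is finitely generated of exponent dividing `ℓ`, so finite, and not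
trivial. `Ω` has enough roots of unity of order `ℓ` (`ℓ ≠ 0` in `Ω`, algebraically closed): `CommGroup.exists_apply_ne_one_of_hasEnoughRootsOfUnity` gives a homomorphism `Q' →* Ωˣ` not trivial at the image of `y`. Compose with `C → Q'`. -/
theorem exists_char_root {Ω : Type v} [Field Ω] [IsAlgClosed Ω] {p : ℕ}
    (hchar : ∀ ℓ : ℕ, ℓ.Prime → ℓ ≠ p → (ℓ : Ω) ≠ 0) {C : Type u} [CommGroup C] [Group.FG C]
    (Y : Subgroup C) {x : C} (hno : ∀ m : ℕ, x ^ p ^ m ∉ Y) :
    ∃ ℓ : ℕ, ℓ.Prime ∧ ℓ ≠ p ∧ ∃ ε : C →* Ωˣ, (∀ y ∈ Y, ε y = 1) ∧ (∀ y, ε y ^ ℓ = 1) ∧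
      ∃ y, ε y ≠ 1 := by
  have hfg : Group.FG (C ⧸ Y) := QuotientGroup.fg Y
  by_cases hall : ∀ ℓ : ℕ, ℓ.Prime → ℓ ≠ p → ∀ y : C ⧸ Y, ∃ z : C ⧸ Y, z ^ ℓ = y
  · exfalso
    obtain ⟨m, hm⟩ := exists_pow_prime_pow_eq_one hall
    refine hno m ?_
    rw [← QuotientGroup.eq_one_iff, QuotientGroup.mk_pow]
    exact hm _
  · push Not at hall
    obtain ⟨ℓ, hℓ, hℓp, y, hy⟩ := hall
    let P : Subgroup (C ⧸ Y) := (powMonoidHom ℓ : C ⧸ Y →* C ⧸ Y).range
    have hfg' : Group.FG ((C ⧸ Y) ⧸ P) := QuotientGroup.fg P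
    have hpow : ∀ z : (C ⧸ Y) ⧸ P, z ^ ℓ = 1 := by
      intro z
      obtain ⟨w, rfl⟩ := QuotientGroup.mk_surjective z
      rw [← QuotientGroup.mk_pow, QuotientGroup.eq_one_iff]
      exact ⟨w, rfl⟩
    have hfin : Finite ((C ⧸ Y) ⧸ P) := by
      refine CommGroup.finite_of_fg_isMulTorsion _ fun z => ?_
      rw [isOfFinOrder_iff_pow_eq_one]
      exact ⟨ℓ, hℓ.pos, hpow z⟩
    have hexp : Monoid.exponent ((C ⧸ Y) ⧸ P) ∣ ℓ := Monoid.exponent_dvd_of_forall_pow_eq_one hpow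
    have : NeZero (ℓ : Ω) := ⟨hchar ℓ hℓ hℓp⟩
    have : NeZero ℓ := ⟨hℓ.ne_zero⟩
    have : HasEnoughRootsOfUnity Ω ℓ := inferInstance
    have : HasEnoughRootsOfUnity Ω (Monoid.exponent ((C ⧸ Y) ⧸ P)) :=
      HasEnoughRootsOfUnity.of_dvd Ω hexp
    have hy1 : (QuotientGroup.mk y : (C ⧸ Y) ⧸ P) ≠ 1 := by
      rw [Ne, QuotientGroup.eq_one_iff]
      rintro ⟨z, hz⟩
      exact hy z hz
    obtain ⟨φ, hφ⟩ := CommGroup.exists_apply_ne_one_of_hasEnoughRootsOfUnity ((C ⧸ Y) ⧸ P) Ω hy1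
    obtain ⟨c, rfl⟩ := QuotientGroup.mk_surjective y
    refine ⟨ℓ, hℓ, hℓp, φ.comp ((QuotientGroup.mk' P).comp (QuotientGroup.mk' Y)), ?_, ?_,
      c, hφ⟩
    · intro y hy
      have : (QuotientGroup.mk' Y) y = 1 := (QuotientGroup.eq_one_iff y).2 hy
      rw [MonoidHom.comp_apply, MonoidHom.comp_apply, this, map_one, map_one]
    · intro y
      rw [← map_pow, MonoidHom.comp_apply, MonoidHom.comp_apply, map_pow, map_pow, hpow, map_one]

end MP35
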