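import Mathlib

/-! # Piece LSPEC: functions of a matrix and the conjugation action -/

set_option autoImplicit false

namespace MP35

universe v

/-- the polynomial with prescribed values on the generalised eigenspaces -/
theorem exists_spec_poly {Ω : Type v} [Field Ω] {n : ℕ} (p : Polynomial Ω) (hp : p ≠ 0) (e : Ω → Ω) :
    ∃ P : Polynomial Ω, ∀ l, p.IsRoot l →
      (Polynomial.X - Polynomial.C l) ^ n ∣ P - Polynomial.C (e l) := by
  classical
  have hI : Pairwise (Function.onFun IsCoprime fun i : {x // x ∈ p.roots.toFinset} =>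
      Ideal.span {(Polynomial.X - Polynomial.C (i : Ω)) ^ n}) := by
    intro i j hij
    rw [Function.onFun, Ideal.isCoprime_span_singleton_iff]
    refine IsCoprime.pow ?_
    exact Polynomial.pairwise_coprime_X_sub_C
      (s := fun x : {x // x ∈ p.roots.toFinset} => (x : Ω)) Subtype.val_injective hij
  obtain ⟨P, hP⟩ := Ideal.exists_forall_sub_mem_ideal hI fun i => Polynomial.C (e (i : Ω))
  refine ⟨P, fun l hl => ?_⟩
  have hm : l ∈ p.roots.toFinset := by
    rw [Multiset.mem_toFinset, Polynomial.mem_roots hp]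
    exact hl
  exact Ideal.mem_span_singleton.1 (hP ⟨l, hm⟩)

/-- products of generalised eigenvectors -/
theorem gen_mul {Ω : Type v} [Field Ω] {n : ℕ} (f f' : Matrix (Fin n) (Fin n) Ω) (hf : f' * f = 1)
    (μ l : Ω) : ∀ (N a b : ℕ), a + b = N → ∀ (w : Matrix (Fin n) (Fin n) Ω) (v : Fin n → Ω),
      ((LinearMap.mulLeftRight Ω (f, f') - μ • 1 : Module.End Ω (Matrix (Fin n) (Fin n) Ω)) ^ a) w
        = 0 →
      ((Matrix.toLinAlgEquiv' f - l • 1 : Module.End Ω (Fin n → Ω)) ^ b) v = 0 →
      ((Matrix.toLinAlgEquiv' f - (μ * l) • 1 : Module.End Ω (Fin n → Ω)) ^ (a + b)) (w.mulVec v)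
        = 0 := by
  intro N
  induction N with
  | zero =>
    intro a b hab w v hw hv
    obtain ⟨rfl, rfl⟩ : a = 0 ∧ b = 0 := by omega
    rw [pow_zero, Module.End.one_apply] at hw
    rw [hw, Matrix.zero_mulVec, map_zero]
  | succ N ih =>
    intro a b hab w v hw hv
    rcases Nat.eq_zero_or_pos a with rfl | ha
    · rw [pow_zero, Module.End.one_apply] at hw
      rw [hw, Matrix.zero_mulVec, map_zero]
    rcases Nat.eq_zero_or_pos b with rfl | hb
    · rw [pow_zero, Module.End.one_apply] at hv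
      rw [hv, Matrix.mulVec_zero, map_zero]
    obtain ⟨a, rfl⟩ : ∃ a', a = a' + 1 := ⟨a - 1, by omega⟩
    obtain ⟨b, rfl⟩ : ∃ b', b = b' + 1 := ⟨b - 1, by omega⟩
    set A : Module.End Ω (Matrix (Fin n) (Fin n) Ω) :=
      LinearMap.mulLeftRight Ω (f, f') - μ • 1 with hA
    set F : Module.End Ω (Fin n → Ω) := Matrix.toLinAlgEquiv' f - l • 1 with hF
    set H : Module.End Ω (Fin n → Ω) :=
      Matrix.toLinAlgEquiv' f - (μ * l) • 1 with hH
    have key : H (w.mulVec v) = (A w).mulVec (f.mulVec v) + μ • w.mulVec (F v) := by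
      have e1 : A w = f * w * f' - μ • w := rfl
      have e2 : F v = f.mulVec v - l • v := by
        simp [hF, LinearMap.sub_apply, Matrix.toLinAlgEquiv'_apply]
      have e3 : H (w.mulVec v) = f.mulVec (w.mulVec v) - (μ * l) • w.mulVec v := by
        simp [hH, LinearMap.sub_apply, Matrix.toLinAlgEquiv'_apply]
      rw [e1, e2, e3, Matrix.sub_mulVec, Matrix.mulVec_sub, Matrix.mulVec_smul, Matrix.smul_mulVec,
        Matrix.mulVec_mulVec, Matrix.mulVec_mulVec, Matrix.mulVec_mulVec]
      have e4 : f * w * f' * f = f * w := by rw [Matrix.mul_assoc, hf, Matrix.mul_one]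
      rw [e4, smul_sub, smul_smul]
      abel
    have h1 : (H ^ (a + (b + 1))) ((A w).mulVec (f.mulVec v)) = 0 := by
      refine ih a (b + 1) (by omega) (A w) (f.mulVec v) ?_ ?_
      · rw [← Module.End.mul_apply, ← pow_succ]
        exact hw
      · have hc : Commute F (Matrix.toLinAlgEquiv' f) := by
          rw [hF]
          exact (Commute.refl _).sub_left ((Commute.one_left _).smul_left _)
        have e5 : f.mulVec v = Matrix.toLinAlgEquiv' f v := (Matrix.toLinAlgEquiv'_apply f v).symm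
        rw [e5, ← Module.End.mul_apply, (hc.pow_left (b + 1)).eq, Module.End.mul_apply, hv, map_zero]
    have h2 : (H ^ (a + 1 + b)) (w.mulVec (F v)) = 0 := by
      refine ih (a + 1) b (by omega) w (F v) hw ?_
      rw [← Module.End.mul_apply, ← pow_succ]
      exact hv
    have e6 : a + 1 + (b + 1) = (a + (b + 1)) + 1 := by ring
    have e7 : a + (b + 1) = a + 1 + b := by ring
    rw [e6, pow_succ, Module.End.mul_apply, key, map_add, map_smul, h1, e7, h2, smul_zero, add_zero]

/-- PROOF. Let `Λ` be the finite set of the roots of `f.charpoly`, `V_λ = (toLin' f).maxGenEigenspace λ`. By the Chinese remainder theorem for the pairwise coprime ideals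
`((X - C λ) ^ n)` (`Ideal.exists_forall_sub_mem_ideal` or similar) there is a polynomial `P` with `(X - C λ) ^ n ∣ P - C (e λ)` for `λ ∈ Λ`; let `s = aeval f P`. (1) `s v = e λ • v` for `v ∈ V_λ`, since
`(f - λ) ^ n v = 0`; the `V_λ`, `λ ∈ Λ`, span everything (`Module.End.iSup_maxGenEigenspace_eq_top`; `V_λ = 0` for `λ ∉ Λ`). (2) So `s ^ ℓ = 1` if all `e λ ^ ℓ = 1`. (3) Each `V_λ`, `λ ∈ Λ`, contains an eigenvector of `f`, nonzero.
(4) Let `w` be in the generalised eigenspace of `Ad f : x ↦ f x f⁻¹` for `μ`, and `v ∈ V_λ`. Then `w v ∈ V_{μ λ}`: `f (w v) = (Ad f w) (f v)`, so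
`(f - μ λ) (w v) = ((Ad f - μ) w) (f v) + μ • w ((f - λ) v)`; by induction on `a + b`: if `(Ad f - μ) ^ a w = 0` and `(f - λ) ^ b v = 0` then
`(f - μ λ) ^ (a + b) (w v) = 0`. So `s (w v) = e (μ λ) • w v` (or `w v = 0`, if `μ λ ∉ Λ`), and `w (s v) = e λ • w v`; with `e (μ λ) = c * e λ` this gives `s (w v) = c • w (s v)` for all `v ∈ V_λ`, `λ ∈ Λ`, so
`s w = c • w s`. -/
theorem exists_spec {Ω : Type v} [Field Ω] [IsAlgClosed Ω] {n : ℕ}
    (f f' : Matrix (Fin n) (Fin n) Ω) (hf : f * f' = 1) (e : Ω → Ω) :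
    ∃ s : Matrix (Fin n) (Fin n) Ω,
      (∀ ℓ : ℕ, (∀ l, f.charpoly.IsRoot l → e l ^ ℓ = 1) → s ^ ℓ = 1) ∧
      (∀ l, f.charpoly.IsRoot l → ∃ v : Fin n → Ω, v ≠ 0 ∧ s.mulVec v = e l • v) ∧
      ∀ (μ c : Ω) (w : Matrix (Fin n) (Fin n) Ω),
        w ∈ Module.End.maxGenEigenspace (LinearMap.mulLeftRight Ω (f, f')) μ →
        (∀ l l' : Ω, f.charpoly.IsRoot l → f.charpoly.IsRoot l' → l' = μ * l → e l' = c * e l) →
        s * w = c • (w * s) := by
  have hf' : f' * f = 1 := mul_eq_one_comm.1 hf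
  set F : Module.End Ω (Fin n → Ω) := Matrix.toLinAlgEquiv' f with hF
  have hFr : ∀ l, F.HasEigenvalue l ↔ f.charpoly.IsRoot l := by
    intro l
    rw [Module.End.hasEigenvalue_iff_isRoot_charpoly]
    have : F.charpoly = f.charpoly := Matrix.charpoly_toLin' f
    rw [this]
  obtain ⟨P, hP⟩ := exists_spec_poly (n := n) f.charpoly (Matrix.charpoly_monic f).ne_zero e
  set s : Matrix (Fin n) (Fin n) Ω := Polynomial.aeval f P with hs
  have hs' : Matrix.toLinAlgEquiv' s = Polynomial.aeval F P := by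
    rw [hs, hF]
    exact (Polynomial.aeval_algHom_apply (Matrix.toLinAlgEquiv' : _ ≃ₐ[Ω] _).toAlgHom f P).symm
  have hsv : ∀ v, s.mulVec v = Polynomial.aeval F P v := fun v => by
    rw [← hs', Matrix.toLinAlgEquiv'_apply]
  -- (1)
  have h1 : ∀ l, f.charpoly.IsRoot l → ∀ v ∈ F.maxGenEigenspace l, s.mulVec v = e l • v := by
    intro l hl v hv
    rw [Module.End.maxGenEigenspace_eq_genEigenspace_finrank, Module.finrank_fin_fun,
      Module.End.mem_genEigenspace_nat, LinearMap.mem_ker] at hv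
    obtain ⟨q, hq⟩ := hP l hl
    have e1 : Polynomial.aeval F (P - Polynomial.C (e l)) v = 0 := by
      rw [hq, mul_comm, map_mul, Module.End.mul_apply, map_pow, map_sub, Polynomial.aeval_X,
        Polynomial.aeval_C, Algebra.algebraMap_eq_smul_one, hv, map_zero]
    rw [map_sub, Polynomial.aeval_C, LinearMap.sub_apply, Module.algebraMap_end_apply,
      sub_eq_zero] at e1
    rw [hsv, e1]
  -- the eigenspaces of the roots are everything
  have h0 : ∀ K : Submodule Ω (Fin n → Ω),
      (∀ l, f.charpoly.IsRoot l → F.maxGenEigenspace l ≤ K) → K = ⊤ := by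
    intro K hK
    rw [eq_top_iff, ← Module.End.iSup_maxGenEigenspace_eq_top F]
    refine iSup_le fun l => ?_
    by_cases hl : f.charpoly.IsRoot l
    · exact hK l hl
    · have : F.maxGenEigenspace l = ⊥ := by
        by_contra hne
        apply hl
        rw [← hFr]
        rw [Module.End.maxGenEigenspace_eq_genEigenspace_finrank] at hne
        exact Module.End.hasEigenvalue_of_hasGenEigenvalue (k := Module.finrank Ω (Fin n → Ω)) hne
      rw [this]
      exact bot_le
  have hext : ∀ a b : Matrix (Fin n) (Fin n) Ω,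
      (∀ l, f.charpoly.IsRoot l → ∀ v ∈ F.maxGenEigenspace l, a.mulVec v = b.mulVec v) → a = b := by
    intro a b hab
    have hK := h0 (LinearMap.eqLocus (Matrix.toLinAlgEquiv' a : Module.End Ω (Fin n → Ω))
      (Matrix.toLinAlgEquiv' b)) (fun l hl v hv => by
        rw [LinearMap.mem_eqLocus, Matrix.toLinAlgEquiv'_apply, Matrix.toLinAlgEquiv'_apply]
        exact hab l hl v hv)
    refine Matrix.toLinAlgEquiv'.injective (LinearMap.ext fun v => ?_)
    have hv : v ∈ (⊤ : Submodule Ω (Fin n → Ω)) := trivial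
    rw [← hK, LinearMap.mem_eqLocus] at hv
    exact hv
  refine ⟨s, ?_, ?_, ?_⟩
  · intro ℓ hℓ
    apply hext
    intro l hl v hv
    have hpow : ∀ k : ℕ, (s ^ k).mulVec v = e l ^ k • v := by
      intro k
      induction k with
      | zero => simp
      | succ k ih =>
        rw [pow_succ, ← Matrix.mulVec_mulVec, h1 l hl v hv, Matrix.mulVec_smul, ih, smul_smul,
          pow_succ, mul_comm]
    rw [hpow, hℓ l hl, one_smul, Matrix.one_mulVec]
  · intro l hl
    obtain ⟨v, hv⟩ := ((hFr l).2 hl).exists_hasEigenvector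
    refine ⟨v, hv.2, h1 l hl v ?_⟩
    exact Module.End.eigenspace_le_maxGenEigenspace hv.1
  · intro μ c w hw hc
    apply hext
    intro l hl v hv
    rw [← Matrix.mulVec_mulVec, Matrix.smul_mulVec, ← Matrix.mulVec_mulVec, h1 l hl v hv,
      Matrix.mulVec_smul, smul_smul]
    rw [Module.End.mem_maxGenEigenspace] at hw hv
    obtain ⟨a, ha⟩ := hw
    obtain ⟨b, hb⟩ := hv
    have hwv : w.mulVec v ∈ F.maxGenEigenspace (μ * l) := by
      rw [Module.End.mem_maxGenEigenspace]
      exact ⟨a + b, gen_mul f f' hf' μ l (a + b) a b rfl w v ha hb⟩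
    by_cases hr : f.charpoly.IsRoot (μ * l)
    · rw [h1 _ hr _ hwv, hc l (μ * l) hl hr rfl]
    · have hz : w.mulVec v = 0 := by
        by_contra hne
        apply hr
        rw [← hFr]
        rw [Module.End.maxGenEigenspace_eq_genEigenspace_finrank] at hwv
        refine Module.End.hasEigenvalue_of_hasGenEigenvalue
          (k := Module.finrank Ω (Fin n → Ω)) ?_
        intro hbot
        rw [hbot, Submodule.mem_bot] at hwv
        exact hne hwv
      rw [hz, Matrix.mulVec_zero, smul_zero]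

end MP35
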