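import Pool.Agent.Lib_MP_3538b5_al.RDefs
import Pool.Agent.Lib_MP_3538b5_al.GHom
import Pool.Agent.Lib_MP_3538b5_al.RInitA

/-!
# Lemma E, topological part

* finite modules over a compact noetherian ring are totally disconnected;
* `cong I`: the units of a finite algebra congruent to `1` modulo an ideal; it is pro-p;
* `FC f`: finitely continuous functions with values in a `T`-module without topology.
-/

set_option autoImplicit false

namespace MP35

universe u v w x

open Topology Filter

section top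

variable {T : Type v} [CommRing T] [TopologicalSpace T] [CNR T]

/-- small neighbourhoods of zero in a finite module -/
theorem exists_ideal_smul {M : Type w} [AddCommGroup M] [Module T M] [Module.Finite T M]
    [TopologicalSpace M] [IsModuleTopology T M] {U : Set M} (hU : U ∈ 𝓝 (0 : M)) :
    ∃ I : Ideal T, IsOpen (I : Set T) ∧ ((I • ⊤ : Submodule T M) : Set M) ⊆ U ∧
      IsOpen ((I • ⊤ : Submodule T M) : Set M) := by
  obtain ⟨n, f, hf⟩ := Module.Finite.exists_fin' T M
  have hq := IsModuleTopology.isOpenQuotientMap_of_surjective hf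
  have h0 : f ⁻¹' U ∈ 𝓝 (0 : Fin n → T) := by
    apply hq.continuous.continuousAt.preimage_mem_nhds
    rwa [map_zero]
  rw [nhds_pi, Filter.mem_pi'] at h0
  obtain ⟨s, V, hV, hVU⟩ := h0
  have hI : ∀ i : Fin n, ∃ I : Ideal T, (I : Set T) ∈ 𝓝 (0 : T) ∧ (I : Set T) ⊆ V i := by
    intro i
    obtain ⟨I, hI, hIV⟩ := (IsLinearTopology.hasBasis_ideal (R := T)).mem_iff.1 (hV i)
    exact ⟨I, hI, hIV⟩
  choose I hI hIV using hI
  let J : Ideal T := ⨅ i, I i
  have hJ : (J : Set T) ∈ 𝓝 (0 : T) := by
    have : (J : Set T) = ⋂ i, (I i : Set T) := by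
      ext x
      simp [J]
    rw [this]
    exact Filter.iInter_mem.2 hI
  have hJo : IsOpen (J : Set T) := AddSubgroup.isOpen_of_mem_nhds J.toAddSubgroup hJ
  have hsub : f '' {c | ∀ i, c i ∈ J} ⊆ ((J • ⊤ : Submodule T M) : Set M) := by
    rintro _ ⟨c, hc, rfl⟩
    have : c = ∑ i, c i • (Pi.single i 1 : Fin n → T) := by
      ext k
      simp [Finset.sum_apply, Pi.single_apply]
    rw [this, map_sum]
    refine Submodule.sum_mem _ fun i _ => ?_
    rw [map_smul]
    exact Submodule.smul_mem_smul (hc i) trivial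
  refine ⟨J, hJo, ?_, ?_⟩
  · intro b hb
    have h8 : ∃ c : Fin n → T, (∀ i, c i ∈ J) ∧ f c = b := by
      refine Submodule.smul_induction_on hb ?_ ?_
      · intro t ht y _
        obtain ⟨c, hc⟩ := hf y
        refine ⟨t • c, fun i => J.mul_mem_right _ ht, ?_⟩
        rw [map_smul, hc]
      · rintro x y ⟨c, hc, rfl⟩ ⟨d, hd, rfl⟩
        exact ⟨c + d, fun i => J.add_mem (hc i) (hd i), map_add f c d⟩
    obtain ⟨c, hc, rfl⟩ := h8
    exact hVU fun i _ => hIV i (by
      have := hc i
      simp only [J, Ideal.mem_iInf] at this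
      exact this i)
  · have hA : IsTopologicalAddGroup M := IsModuleTopology.topologicalAddGroup T M
    refine AddSubgroup.isOpen_of_mem_nhds (J • ⊤ : Submodule T M).toAddSubgroup (g := 0) ?_
    refine Filter.mem_of_superset ?_ hsub
    have h7 : {c : Fin n → T | ∀ i, c i ∈ J} ∈ 𝓝 (0 : Fin n → T) := by
      have : {c : Fin n → T | ∀ i, c i ∈ J} = Set.univ.pi fun _ => (J : Set T) := by
        ext c
        simp
      rw [this]
      exact set_pi_mem_nhds Set.finite_univ fun i _ => hJ
    have := hq.isOpenMap.image_mem_nhds h7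
    rwa [map_zero] at this

/-- finite modules are totally disconnected -/
theorem td_of_finite (T : Type v) [CommRing T] [TopologicalSpace T] [CNR T] (M : Type w)
    [AddCommGroup M] [Module T M] [Module.Finite T M]
    [TopologicalSpace M] [IsModuleTopology T M] : TotallyDisconnectedSpace M := by
  have hA : IsTopologicalAddGroup M := IsModuleTopology.topologicalAddGroup T M
  have h2 := t2_of_finite T M
  have : NonarchimedeanAddGroup M := ⟨fun U hU => by
    obtain ⟨I, -, hIU, hIo⟩ := exists_ideal_smul (T := T) hU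
    exact ⟨⟨(I • ⊤ : Submodule T M).toAddSubgroup, hIo⟩, hIU⟩⟩
  infer_instance

/-- powers of finitely many topologically nilpotent elements are in open ideals -/
theorem span_pow_le {S : Set T} (hS : ∀ t ∈ S, IsTopologicallyNilpotent t) {I : Ideal T}
    (hI : IsOpen (I : Set T)) : ∃ n, Ideal.span S ^ n ≤ I := by
  refine Ideal.exists_pow_le_of_le_radical_of_fg ?_ (IsNoetherian.noetherian _)
  rw [Ideal.span_le]
  intro t ht
  have h1 := (hS t ht).eventually (hI.mem_nhds I.zero_mem)
  obtain ⟨N, hN⟩ := Filter.eventually_atTop.1 h1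
  exact ⟨N, hN N le_rfl⟩

end top

section alg

variable {T : Type v} [CommRing T] {B : Type w} [Ring B] [Algebra T B]

theorem mul_mem_smul_top {I J : Ideal T} {x y : B} (hx : x ∈ (I • ⊤ : Submodule T B))
    (hy : y ∈ (J • ⊤ : Submodule T B)) : x * y ∈ ((I * J) • ⊤ : Submodule T B) := by
  refine Submodule.smul_induction_on hx (fun t ht a _ => ?_) fun a b ha hb => ?_
  · refine Submodule.smul_induction_on hy (fun s hs b _ => ?_) fun b c hb hc => ?_
    · rw [smul_mul_smul_comm]
      exact Submodule.smul_mem_smul (Ideal.mul_mem_mul ht hs) trivial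
    · rw [mul_add]
      exact add_mem hb hc
  · rw [add_mul]
    exact add_mem ha hb

theorem mul_mem_smul_top' {I : Ideal T} {x : B} (hx : x ∈ (I • ⊤ : Submodule T B)) (y : B) :
    x * y ∈ (I • ⊤ : Submodule T B) := by
  have := mul_mem_smul_top (J := ⊤) hx (y := y) (by rw [Submodule.top_smul]; trivial)
  rwa [Ideal.mul_top] at this

theorem mul_mem_smul_top'' {I : Ideal T} {x : B} (hx : x ∈ (I • ⊤ : Submodule T B)) (y : B) :
    y * x ∈ (I • ⊤ : Submodule T B) := by
  have := mul_mem_smul_top (I := ⊤) (x := y) (by rw [Submodule.top_smul]; trivial) hx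
  rwa [Ideal.top_mul] at this

/-- the units congruent to one modulo the ideal -/
def cong (I : Ideal T) (B : Type w) [Ring B] [Algebra T B] : Subgroup Bˣ where
  carrier := {u | (u : B) - 1 ∈ (I • ⊤ : Submodule T B)}
  one_mem' := by
    show ((1 : Bˣ) : B) - 1 ∈ (I • ⊤ : Submodule T B)
    rw [Units.val_one, sub_self]
    exact zero_mem _
  mul_mem' {g h} hg hh := by
    show ((g * h : Bˣ) : B) - 1 ∈ (I • ⊤ : Submodule T B)
    have e : ((g * h : Bˣ) : B) - 1 = ((g : B) - 1) * h + ((h : B) - 1) := by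
      rw [Units.val_mul, sub_mul, one_mul]
      abel
    rw [e]
    exact add_mem (mul_mem_smul_top' hg _) hh
  inv_mem' {g} hg := by
    show ((g⁻¹ : Bˣ) : B) - 1 ∈ (I • ⊤ : Submodule T B)
    have e : ((g⁻¹ : Bˣ) : B) - 1 = -(((g⁻¹ : Bˣ) : B) * ((g : B) - 1)) := by
      rw [mul_sub, Units.inv_mul, mul_one, neg_sub]
    rw [e]
    exact neg_mem (mul_mem_smul_top'' hg _)

theorem mem_cong {I : Ideal T} {u : Bˣ} : u ∈ cong I B ↔ (u : B) - 1 ∈ (I • ⊤ : Submodule T B) :=
  Iff.rfl

variable [TopologicalSpace T] [CNR T] [Module.Finite T B] [TopologicalSpace B] [IsModuleTopology T B]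

/-- the `p`-th powers of elements congruent to one tend to one -/
theorem pow_mem_smul {p : ℕ} {S : Set T} (hp : (p : T) ∈ S) {x : B}
    (hx : x - 1 ∈ (Ideal.span S • ⊤ : Submodule T B)) (k : ℕ) :
    x ^ p ^ k - 1 ∈ (Ideal.span S ^ (k + 1) • ⊤ : Submodule T B) := by
  induction k with
  | zero => simpa using hx
  | succ k ih =>
    obtain ⟨c, -, hc⟩ := pow_expand (x ^ p ^ k - 1) p
    have e : x ^ p ^ (k + 1) - 1 = (p : T) • (x ^ p ^ k - 1)
        + (x ^ p ^ k - 1) * (x ^ p ^ k - 1) * c := by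
      rw [pow_succ, pow_mul]
      have : x ^ p ^ k = 1 + (x ^ p ^ k - 1) := by abel
      conv_lhs => rw [this, hc]
      rw [Algebra.smul_def, map_natCast]
      abel
    rw [e]
    refine add_mem ?_ ?_
    · rw [pow_succ', mul_smul]
      exact Submodule.smul_mem_smul (Ideal.subset_span hp) ih
    · refine mul_mem_smul_top' ?_ c
      have h1 := mul_mem_smul_top ih ih
      refine Submodule.smul_mono_left ?_ h1
      rw [← pow_add]
      exact Ideal.pow_le_pow_right (by omega)

theorem tendsto_pow_one {p : ℕ} {S : Set T} (hS : ∀ t ∈ S, IsTopologicallyNilpotent t)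
    (hp : (p : T) ∈ S) {x : B} (hx : x - 1 ∈ (Ideal.span S • ⊤ : Submodule T B)) {U : Set B}
    (hU : U ∈ 𝓝 (1 : B)) : ∃ N, ∀ k ≥ N, x ^ p ^ k ∈ U := by
  have hR : IsTopologicalRing B := IsModuleTopology.isTopologicalRing T B
  have h1 : (fun y : B => 1 + y) ⁻¹' U ∈ 𝓝 (0 : B) := by
    apply (continuous_const.add continuous_id).continuousAt.preimage_mem_nhds
    simpa using hU
  obtain ⟨I, hI, hIU, -⟩ := exists_ideal_smul (T := T) h1
  obtain ⟨n, hn⟩ := span_pow_le hS hI
  refine ⟨n, fun k hk => ?_⟩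
  have h2 := pow_mem_smul hp hx k
  have h3 : x ^ p ^ k - 1 ∈ (I • ⊤ : Submodule T B) :=
    Submodule.smul_mono_left ((Ideal.pow_le_pow_right (by omega)).trans hn) h2
  have h4 := hIU h3
  simpa using h4

variable [CompactSpace B] [T2Space B] [IsTopologicalRing B]

theorem isClosed_cong (I : Ideal T) : IsClosed ((cong I B : Subgroup Bˣ) : Set Bˣ) := by
  have h1 := isClosed_submodule (T := T) (I • ⊤ : Submodule T B)
  have : Continuous fun u : Bˣ => (u : B) - 1 := Units.continuous_val.sub continuous_const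
  exact h1.preimage this

theorem td_units [TotallyDisconnectedSpace B] : TotallyDisconnectedSpace Bˣ := by
  refine ⟨?_⟩
  have h := isTotallyDisconnected_of_totallyDisconnectedSpace (Set.univ : Set B)
  refine isTotallyDisconnected_of_image (f := (Units.val : Bˣ → B))
    Units.continuous_val.continuousOn Units.val_injective ?_
  exact fun t _ ht => isTotallyDisconnected_of_totallyDisconnectedSpace _ t (Set.subset_univ _) ht

theorem proP_cong {p : ℕ} {S : Set T} (hS : ∀ t ∈ S, IsTopologicallyNilpotent t) (hp : (p : T) ∈ S) :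
    ProP p (cong (Ideal.span S) B) := by
  intro N hN hNo g
  -- a neighbourhood of one in the units
  obtain ⟨V, hV, hVN⟩ := isOpen_induced_iff.1 hNo
  have h1 : (1 : Bˣ) ∈ V := by
    have : (1 : cong (Ideal.span S) B) ∈ Subtype.val ⁻¹' V := by
      rw [hVN]
      exact N.one_mem
    exact this
  have h2 : V ∈ 𝓝 (1 : Bˣ) := hV.mem_nhds h1
  rw [Units.isInducing_embedProduct.nhds_eq_comap] at h2
  obtain ⟨W, hW, hWV⟩ := Filter.mem_comap.1 h2
  rw [map_one] at hW
  obtain ⟨U₁, hU₁, U₂, hU₂, h12⟩ := mem_nhds_prod_iff.1 hW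
  have hU₂' : MulOpposite.op ⁻¹' U₂ ∈ 𝓝 (1 : B) :=
    MulOpposite.continuous_op.continuousAt.preimage_mem_nhds hU₂
  obtain ⟨N₁, hN₁⟩ := tendsto_pow_one hS hp g.2 hU₁
  obtain ⟨N₂, hN₂⟩ := tendsto_pow_one hS hp (inv_mem g.2) hU₂'
  refine ⟨max N₁ N₂, ?_⟩
  have h3 : ((g ^ p ^ max N₁ N₂ : cong (Ideal.span S) B) : Bˣ) ∈ V := by
    apply hWV
    apply h12
    refine ⟨?_, ?_⟩
    · have := hN₁ _ (le_max_left N₁ N₂)
      simpa [Units.embedProduct] using this
    · have := hN₂ _ (le_max_right N₁ N₂)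
      simp only [Set.mem_preimage] at this
      simpa [Units.embedProduct] using this
  have h4 : (g ^ p ^ max N₁ N₂ : cong (Ideal.span S) B) ∈ Subtype.val ⁻¹' V := h3
  rw [hVN] at h4
  exact h4

end alg

end MP35
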