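import Pool.Agent.Lib_MP_3538b5_al.LCO
import Pool.Agent.Lib_MP_3538b5_al.LGrp
import Pool.Agent.Lib_MP_3538b5_al.LSpec
import Pool.Agent.Lib_MP_3538b5_al.RSpan

/-!
# Lemma E: the eigenvalues on a faithful factor

* `co_scalar`: a matrix `s` of prime order `≠ p`, such that the conjugation with `s` acts trivially on a
  factor `B / B'` of the matrices on which `G` is faithful, is scalar.
* `Rep.quot_mem`: if `l, l'` are eigenvalues of `ρ g` then some power `(l / l') ^ p ^ m` is in the group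
  generated by the eigenvalues of `Ad g` on `B / B'`.
* `Rep.pow_mem`: if `det ρ g = 1` some power `l ^ (n * p ^ m)` is in this group.
-/

set_option autoImplicit false

namespace MP35

universe u v w

section

variable {p : ℕ} [hp : Fact p.Prime] {G : Type u} [Group G] [TopologicalSpace G]
  [IsTopologicalGroup G] [CompactSpace G] [T2Space G] [TotallyDisconnectedSpace G] {T : Type v}
  [CommRing T] [TopologicalSpace T] [CNR T] {Ω : Type v} [Field Ω] [Algebra T Ω] {n : ℕ}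

omit hp [IsTopologicalGroup G] [CompactSpace G] [T2Space G] [TotallyDisconnectedSpace G] [CNR T] in
/-- a matrix commuting with a spanning set is scalar -/
theorem scalar_of_commute {X : Set (Matrix (Fin n) (Fin n) Ω)} (hX : Submodule.span Ω X = ⊤)
    {s : Matrix (Fin n) (Fin n) Ω} (h : ∀ x ∈ X, s * x = x * s) : ∃ c : Ω, s = c • 1 := by
  have h1 : ∀ x : Matrix (Fin n) (Fin n) Ω, s * x = x * s := by
    intro x
    have hx : x ∈ Submodule.span Ω X := by rw [hX]; trivial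
    induction hx using Submodule.span_induction with
    | mem x hx => exact h x hx
    | zero => rw [mul_zero, zero_mul]
    | add x y _ _ hx hy => rw [mul_add, add_mul, hx, hy]
    | smul c x _ hx => rw [mul_smul_comm, smul_mul_assoc, hx]
  have h2 := Matrix.mem_range_scalar_of_commute_single (M := s) fun i j _ => (h1 _).symm
  obtain ⟨c, hc⟩ := h2
  refine ⟨c, ?_⟩
  rw [← hc]
  simp [Matrix.scalar_apply, Matrix.smul_one_eq_diagonal]

/-- **Coprime operators trivial on a faithful factor are scalar.** -/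
theorem co_scalar [IsDomain T] [IsAlgClosed Ω] (nmin : ∀ m, HasRep.{u, v} p m → n ≤ m) (hG : PF p G)
    (R : Rep p G T Ω n) (alg : Algebra.IsAlgebraic T Ω)
    (hdeep : ∀ c : T, c ≠ 0 → ∃ h ∈ R.NI (Ideal.span {c}), h ≠ 1)
    {B' B : Submodule Ω (Matrix (Fin n) (Fin n) Ω)} (hle : B' ≤ B) (hB : R.Stable B)
    (hB' : R.Stable B') (hf : R.FaithQ B' B) {ℓ : ℕ} (hl : ℓ.Prime) (hlp : ℓ ≠ p)
    {s : Matrix (Fin n) (Fin n) Ω} (hs : s ^ ℓ = 1) (hsB : ∀ w ∈ B, s * w * s ^ (ℓ - 1) - w ∈ B') :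
    ∃ c : Ω, s = c • 1 := by
  obtain ⟨H, R', hHc, hPF, hcomm⟩ := co_rep hG R alg hdeep hle hB hB' hf hl hlp hs hsB
  haveI : CompactSpace H := isCompact_iff_compactSpace.1 hHc.isCompact
  have hspan := R'.span_top nmin hPF
  refine scalar_of_commute hspan ?_
  rintro _ ⟨h, rfl⟩
  exact hcomm h

end

section eigen

variable {Ω : Type v} [Field Ω]

theorem hasEigenvalue_of_pow {V : Type w} [AddCommGroup V] [Module Ω V] {F : Module.End Ω V} {c : Ω} :
    ∀ (k : ℕ) (x : V), x ≠ 0 → ((F - c • (1 : Module.End Ω V)) ^ k) x = 0 → F.HasEigenvalue c := by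
  intro k
  induction k with
  | zero =>
    intro x hx h
    rw [pow_zero, Module.End.one_apply] at h
    exact absurd h hx
  | succ k ih =>
    intro x hx h
    by_cases h1 : (F - c • (1 : Module.End Ω V)) x = 0
    · refine Module.End.hasEigenvalue_of_hasEigenvector (x := x) ⟨?_, hx⟩
      rw [Module.End.mem_eigenspace_iff]
      rw [LinearMap.sub_apply, LinearMap.smul_apply, Module.End.one_apply, sub_eq_zero] at h1
      exact h1
    · refine ih _ h1 ?_
      rw [pow_succ, Module.End.mul_apply] at h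
      exact h

/-- generalised eigenvalues of `Ad f` are ratios of eigenvalues of `f` -/
theorem exists_ratio_of_ne [IsAlgClosed Ω] {n : ℕ} {f f' : Matrix (Fin n) (Fin n) Ω}
    (hf : f' * f = 1) {μ : Ω} {w : Matrix (Fin n) (Fin n) Ω}
    (hw : w ∈ Module.End.maxGenEigenspace (LinearMap.mulLeftRight Ω (f, f')) μ) (hw0 : w ≠ 0) :
    ∃ l, f.charpoly.IsRoot l ∧ f.charpoly.IsRoot (μ * l) := by
  set F : Module.End Ω (Fin n → Ω) := Matrix.toLinAlgEquiv' f with hF
  have hFr : ∀ l, F.HasEigenvalue l ↔ f.charpoly.IsRoot l := by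
    intro l
    rw [Module.End.hasEigenvalue_iff_isRoot_charpoly]
    have : F.charpoly = f.charpoly := Matrix.charpoly_toLin' f
    rw [this]
  obtain ⟨a, ha⟩ := (Module.End.mem_maxGenEigenspace _ _ _).1 hw
  by_contra hcon
  push Not at hcon
  apply hw0
  have hK : LinearMap.ker (Matrix.toLinAlgEquiv' w : Module.End Ω (Fin n → Ω)) = ⊤ := by
    rw [eq_top_iff, ← Module.End.iSup_maxGenEigenspace_eq_top F]
    refine iSup_le fun l v hv => ?_
    obtain ⟨b, hb⟩ := (Module.End.mem_maxGenEigenspace _ _ _).1 hv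
    rw [LinearMap.mem_ker, Matrix.toLinAlgEquiv'_apply]
    by_contra hne
    have h1 := gen_mul f f' hf μ l (a + b) a b rfl w v ha hb
    have h2 : v ≠ 0 := by
      rintro rfl
      exact hne (Matrix.mulVec_zero _)
    exact hcon l ((hFr l).1 (hasEigenvalue_of_pow b v h2 hb))
      ((hFr _).1 (hasEigenvalue_of_pow (a + b) _ hne h1))
  refine Matrix.toLinAlgEquiv'.injective (LinearMap.ext fun v => ?_)
  have hv : v ∈ (⊤ : Submodule Ω (Fin n → Ω)) := trivial
  rw [← hK, LinearMap.mem_ker] at hv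
  rw [hv, map_zero]
  rfl

end eigen

section

variable {p : ℕ} {G : Type u} [Group G] [TopologicalSpace G] {T : Type v}
  [CommRing T] [TopologicalSpace T] {Ω : Type v} [Field Ω] [Algebra T Ω] {n : ℕ}

theorem Rep.ρ_inv_mul (R : Rep p G T Ω n) (g : G) : R.ρ g⁻¹ * R.ρ g = 1 := by
  rw [← map_mul, inv_mul_cancel, map_one]

theorem Rep.ρ_mul_inv (R : Rep p G T Ω n) (g : G) : R.ρ g * R.ρ g⁻¹ = 1 := by
  rw [← map_mul, mul_inv_cancel, map_one]

theorem Rep.Ad_injective (R : Rep p G T Ω n) (g : G) : Function.Injective (R.Ad g) := by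
  intro x y hxy
  rw [R.Ad_apply, R.Ad_apply] at hxy
  have h1 := congrArg (fun z => R.ρ g⁻¹ * z * R.ρ g) hxy
  have e : ∀ z : Matrix (Fin n) (Fin n) Ω, R.ρ g⁻¹ * (R.ρ g * z * R.ρ g⁻¹) * R.ρ g = z := by
    intro z
    rw [show R.ρ g⁻¹ * (R.ρ g * z * R.ρ g⁻¹) * R.ρ g = (R.ρ g⁻¹ * R.ρ g) * z * (R.ρ g⁻¹ * R.ρ g) by
      noncomm_ring, R.ρ_inv_mul, one_mul, mul_one]
  simp only [e] at h1
  exact h1

/-- an eigenvalue on a factor is an eigenvalue -/
theorem Rep.EvQ.hasEigenvalue {R : Rep p G T Ω n} {B' B : Submodule Ω (Matrix (Fin n) (Fin n) Ω)}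
    (hB' : R.Stable B') {g : G} {μ : Ω} (h : R.EvQ B' B g μ) : (R.Ad g).HasEigenvalue μ := by
  obtain ⟨w, -, hw', hw⟩ := h
  by_contra hcon
  apply hw'
  refine mem_of_map_mem (R.Ad g - μ • 1) ?_ (B := B') (fun x hx => ?_) (x := w) ?_
  · rw [← LinearMap.ker_eq_bot]
    by_contra hne
    apply hcon
    obtain ⟨x, hx, hx0⟩ := Submodule.exists_mem_ne_zero_of_ne_bot hne
    exact hasEigenvalue_of_pow 1 x hx0 (by rw [pow_one]; exact hx)
  · exact B'.sub_mem (hB' g x hx) (B'.smul_mem μ hx)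
  · exact hw

/-- an eigenvalue on a factor is a ratio of eigenvalues -/
theorem Rep.EvQ.exists_ratio [IsAlgClosed Ω] {R : Rep p G T Ω n}
    {B' B : Submodule Ω (Matrix (Fin n) (Fin n) Ω)}
    (hB' : R.Stable B') {g : G} {μ : Ω} (h : R.EvQ B' B g μ) :
    ∃ l, (R.ρ g).charpoly.IsRoot l ∧ (R.ρ g).charpoly.IsRoot (μ * l) := by
  obtain ⟨w, hw⟩ := (h.hasEigenvalue hB').exists_hasEigenvector
  have h1 : R.Ad g w = μ • w := hw.apply_eq_smul
  refine exists_ratio_of_ne (R.ρ_inv_mul g) (w := w) ?_ hw.2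
  refine (Module.End.mem_maxGenEigenspace _ _ _).2 ⟨1, ?_⟩
  rw [pow_one]
  show R.Ad g w - μ • w = 0
  rw [h1, sub_self]

theorem Rep.root_ne_zero (R : Rep p G T Ω n) {g : G} {μ : Ω} (h : (R.ρ g).charpoly.IsRoot μ) :
    μ ≠ 0 := by
  rintro rfl
  have h1 : (R.ρ g).det ≠ 0 := by
    intro h0
    have h2 := congrArg Matrix.det (R.ρ_mul_inv g)
    rw [Matrix.det_mul, h0, zero_mul, Matrix.det_one] at h2
    exact zero_ne_one h2
  rw [Polynomial.IsRoot, Matrix.eval_charpoly, map_zero, zero_sub, Matrix.det_neg] at h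
  rcases mul_eq_zero.1 h with h | h
  · exact pow_ne_zero _ (neg_ne_zero.2 one_ne_zero) h
  · exact h1 h

theorem Rep.EvQ.ne_zero {R : Rep p G T Ω n} {B' B : Submodule Ω (Matrix (Fin n) (Fin n) Ω)}
    (hB' : R.Stable B') {g : G} {μ : Ω} (h : R.EvQ B' B g μ) : μ ≠ 0 := by
  rintro rfl
  obtain ⟨w, hw⟩ := (h.hasEigenvalue hB').exists_hasEigenvector
  have h1 : R.Ad g w = (0 : Ω) • w := hw.apply_eq_smul
  rw [zero_smul, ← map_zero (R.Ad g)] at h1
  exact hw.2 (R.Ad_injective g h1)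

/-- generalised eigenvectors in `B` whose eigenvalue is not an eigenvalue on `B / B'` are in `B'` -/
theorem Rep.mem_of_not_evQ (R : Rep p G T Ω n) {B' B : Submodule Ω (Matrix (Fin n) (Fin n) Ω)}
    (hB : R.Stable B) {g : G} {μ : Ω} (h : ¬ R.EvQ B' B g μ) :
    ∀ (k : ℕ) (w : Matrix (Fin n) (Fin n) Ω), w ∈ B → ((R.Ad g - μ • 1) ^ k) w ∈ B' → w ∈ B' := by
  intro k
  induction k with
  | zero =>
    intro w _ hk
    rwa [pow_zero, Module.End.one_apply] at hk
  | succ k ih =>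
    intro w hw hk
    rw [pow_succ, Module.End.mul_apply] at hk
    have h1 : (R.Ad g - μ • 1) w ∈ B := B.sub_mem (hB g w hw) (B.smul_mem μ hw)
    have h2 := ih _ h1 hk
    by_contra hw'
    exact h ⟨w, hw, hw', h2⟩

end

section

variable {p : ℕ} [hp : Fact p.Prime] {G : Type u} [Group G] [TopologicalSpace G]
  [IsTopologicalGroup G] [CompactSpace G] [T2Space G] [TotallyDisconnectedSpace G] {T : Type v}
  [CommRing T] [TopologicalSpace T] [CNR T] {Ω : Type v} [Field Ω] [Algebra T Ω] {n : ℕ}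

omit [IsTopologicalGroup G] [CompactSpace G] [T2Space G] [TotallyDisconnectedSpace G] in
/-- primes different from `p` are not zero in `Ω` -/
theorem Rep.prime_ne_zero [IsDomain T] (R : Rep p G T Ω n) {ℓ : ℕ} (hl : ℓ.Prime) (hlp : ℓ ≠ p) :
    (ℓ : Ω) ≠ 0 := by
  intro h0
  have h1 : (ℓ : T) = 0 := by
    apply R.tinj
    rw [map_natCast, h0, map_zero]
  have hco : IsCoprime (ℓ : ℤ) (p : ℤ) :=
    Nat.isCoprime_iff_coprime.2 ((Nat.coprime_primes hl hp.out).2 hlp)
  obtain ⟨a, b, hab⟩ := hco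
  have h2 : ((b : ℤ) : T) * (p : T) = 1 := by
    have := congrArg (fun z : ℤ => (z : T)) hab
    push_cast at this
    rw [h1, mul_zero, zero_add] at this
    exact this
  exact not_isUnit_of_tn R.pnil (IsUnit.of_mul_eq_one_right _ h2)

theorem Rep.quot_mem [IsDomain T] [IsAlgClosed Ω] (nmin : ∀ m, HasRep.{u, v} p m → n ≤ m)
    (hG : PF p G) (R : Rep p G T Ω n) (alg : Algebra.IsAlgebraic T Ω)
    (hdeep : ∀ c : T, c ≠ 0 → ∃ h ∈ R.NI (Ideal.span {c}), h ≠ 1)
    {B' B : Submodule Ω (Matrix (Fin n) (Fin n) Ω)} (hle : B' ≤ B) (hB : R.Stable B)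
    (hB' : R.Stable B') (hf : R.FaithQ B' B) {g : G} {l l' : Ωˣ}
    (hl : (R.ρ g).charpoly.IsRoot (l : Ω)) (hl' : (R.ρ g).charpoly.IsRoot (l' : Ω)) :
    ∃ m : ℕ, (l / l') ^ p ^ m ∈ Subgroup.closure {u : Ωˣ | R.EvQ B' B g u} := by
  classical
  by_contra hno
  push Not at hno
  let Λ : Set Ωˣ := {u | (R.ρ g).charpoly.IsRoot (u : Ω)}
  have hΛfin : Λ.Finite := by
    have h1 : {x : Ω | (R.ρ g).charpoly.IsRoot x}.Finite :=
      Polynomial.finite_setOf_isRoot (Matrix.charpoly_monic _).ne_zero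
    exact h1.preimage Units.val_injective.injOn
  let X : Set Ωˣ := (fun u => u / l') '' Λ
  have hXfin : X.Finite := hΛfin.image _
  let C : Subgroup Ωˣ := Subgroup.closure X
  haveI : Finite X := hXfin
  haveI hFG : Group.FG C := Group.closure_finite_fg X
  have hΛC : ∀ u ∈ Λ, u / l' ∈ C := fun u hu => Subgroup.subset_closure ⟨u, hu, rfl⟩
  have hEC : ∀ μ : Ωˣ, (∃ l₀ : Ω, (R.ρ g).charpoly.IsRoot l₀ ∧
      (R.ρ g).charpoly.IsRoot ((μ : Ω) * l₀)) → μ ∈ C := by
    rintro μ ⟨l₀, h1, h2⟩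
    have h3 := hΛC (Units.mk0 l₀ (R.root_ne_zero h1)) h1
    have h4 := hΛC (μ * Units.mk0 l₀ (R.root_ne_zero h1)) h2
    have h5 := C.div_mem h4 h3
    have h6 : μ * Units.mk0 l₀ (R.root_ne_zero h1) / l' / (Units.mk0 l₀ (R.root_ne_zero h1) / l')
        = μ := by
      rw [div_div_div_cancel_right, mul_div_cancel_right]
    rwa [h6] at h5
  let Y : Subgroup C := (Subgroup.closure {u : Ωˣ | R.EvQ B' B g u}).subgroupOf C
  obtain ⟨ℓ, hℓ, hℓp, ε, hε1, hε2, y, hy⟩ := exists_char_root (p := p)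
    (fun q hq hqp => R.prime_ne_zero hq hqp) Y (x := ⟨l / l', hΛC l hl⟩) (by
      intro m hm
      exact hno m (Subgroup.mem_subgroupOf.1 hm))
  -- the function `e`
  let e : Ω → Ω := fun x => if h : ∃ (u : Ωˣ) (_ : u / l' ∈ C), (u : Ω) = x then
    ((ε ⟨h.choose / l', h.choose_spec.choose⟩ : Ωˣ) : Ω) else 1
  have he : ∀ (u : Ωˣ) (hu : u / l' ∈ C), e (u : Ω) = ((ε ⟨u / l', hu⟩ : Ωˣ) : Ω) := by
    intro u hu
    have h : ∃ (v : Ωˣ) (_ : v / l' ∈ C), (v : Ω) = u := ⟨u, hu, rfl⟩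
    have h1 : e (u : Ω) = ((ε ⟨h.choose / l', h.choose_spec.choose⟩ : Ωˣ) : Ω) := dif_pos h
    have h2 : h.choose = u := Units.ext h.choose_spec.choose_spec
    rw [h1]
    congr 3
    rw [h2]
  obtain ⟨s, hs1, hs2, hs3⟩ := exists_spec (R.ρ g) (R.ρ g⁻¹) (R.ρ_mul_inv g) e
  have hroot : ∀ x : Ω, (R.ρ g).charpoly.IsRoot x → ∃ (u : Ωˣ) (hu : u / l' ∈ C), (u : Ω) = x ∧
      e x = ((ε ⟨u / l', hu⟩ : Ωˣ) : Ω) := by
    intro x hx
    have h1 := hΛC (Units.mk0 x (R.root_ne_zero hx)) hx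
    exact ⟨Units.mk0 x (R.root_ne_zero hx), h1, rfl, he _ h1⟩
  have hs : s ^ ℓ = 1 := by
    refine hs1 ℓ fun x hx => ?_
    obtain ⟨u, hu, -, h2⟩ := hroot x hx
    rw [h2, ← Units.val_pow_eq_pow_val, hε2, Units.val_one]
  have hsB : ∀ w ∈ B, s * w * s ^ (ℓ - 1) - w ∈ B' := by
    let K : Submodule Ω (Matrix (Fin n) (Fin n) Ω) :=
      B'.comap (LinearMap.mulLeftRight Ω (s, s ^ (ℓ - 1)) - 1)
    have hBK : B ≤ K := by
      rw [Submodule.eq_iSup_inf_genEigenspace (p := B) (f := R.Ad g) ⊤ (hB g)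
        (Module.End.iSup_maxGenEigenspace_eq_top (R.Ad g))]
      refine iSup_le fun μ => ?_
      rintro w ⟨hwB, hwE⟩
      have hwE' : w ∈ Module.End.maxGenEigenspace (R.Ad g) μ := hwE
      have key : ∃ c : Ω, (R.EvQ B' B g μ → c = 1) ∧ ∀ l₀ l₁ : Ω, (R.ρ g).charpoly.IsRoot l₀ →
          (R.ρ g).charpoly.IsRoot l₁ → l₁ = μ * l₀ → e l₁ = c * e l₀ := by
        by_cases hμ : ∃ l₀ : Ω, (R.ρ g).charpoly.IsRoot l₀ ∧ (R.ρ g).charpoly.IsRoot (μ * l₀)
        · have hμ0 : μ ≠ 0 := by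
            rintro rfl
            obtain ⟨l₀, -, h2⟩ := hμ
            exact R.root_ne_zero h2 (zero_mul _)
          have hμC : Units.mk0 μ hμ0 ∈ C := hEC _ hμ
          refine ⟨((ε ⟨Units.mk0 μ hμ0, hμC⟩ : Ωˣ) : Ω), fun hev => ?_, ?_⟩
          · have h7 : Units.mk0 μ hμ0 ∈ Subgroup.closure {u : Ωˣ | R.EvQ B' B g u} :=
              Subgroup.subset_closure hev
            rw [hε1 _ (Subgroup.mem_subgroupOf.2 h7), Units.val_one]
          · intro l₀ l₁ h0 h1 h01
            obtain ⟨u₀, hu₀, hx₀, he₀⟩ := hroot l₀ h0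
            obtain ⟨u₁, hu₁, hx₁, he₁⟩ := hroot l₁ h1
            rw [he₀, he₁, ← Units.val_mul, ← map_mul]
            congr 3
            have h3 : u₁ = Units.mk0 μ hμ0 * u₀ := by
              apply Units.ext
              rw [hx₁, h01, Units.val_mul, Units.val_mk0, hx₀]
            show u₁ / l' = Units.mk0 μ hμ0 * (u₀ / l')
            rw [h3, mul_div_assoc]
        · refine ⟨1, fun _ => rfl, fun l₀ l₁ h0 h1 h01 => ?_⟩
          exact absurd ⟨l₀, h0, h01 ▸ h1⟩ hμ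
      obtain ⟨c, hc1, hc2⟩ := key
      have hsw := hs3 μ c w hwE' hc2
      have h1 : s * w * s ^ (ℓ - 1) = c • w := by
        rw [hsw, smul_mul_assoc, mul_assoc, ← pow_succ', Nat.sub_add_cancel hℓ.pos, hs, mul_one]
      show s * w * s ^ (ℓ - 1) - w ∈ B'
      rw [h1]
      by_cases hev : R.EvQ B' B g μ
      · rw [hc1 hev, one_smul, sub_self]
        exact zero_mem _
      · obtain ⟨k, hk⟩ := (Module.End.mem_maxGenEigenspace _ _ _).1 hwE'
        have h2 : w ∈ B' := R.mem_of_not_evQ hB hev k w hwB (by rw [hk]; exact zero_mem _)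
        exact B'.sub_mem (B'.smul_mem c h2) h2
    exact fun w hw => hBK hw
  obtain ⟨c, hc⟩ := co_scalar nmin hG R alg hdeep hle hB hB' hf hℓ hℓp hs hsB
  have hec : ∀ x : Ω, (R.ρ g).charpoly.IsRoot x → e x = c := by
    intro x hx
    obtain ⟨v, hv0, hv⟩ := hs2 x hx
    rw [hc, Matrix.smul_mulVec, Matrix.one_mulVec] at hv
    have h1 : (c - e x) • v = 0 := by rw [sub_smul, hv, sub_self]
    rcases smul_eq_zero.1 h1 with h | h
    · exact (sub_eq_zero.1 h).symm
    · exact absurd h hv0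
  have hc1 : c = 1 := by
    obtain ⟨u, hu, hx, he'⟩ := hroot _ hl'
    rw [hec _ hl'] at he'
    have hul : u = l' := Units.ext hx
    have h2 : (⟨u / l', hu⟩ : C) = 1 := by
      apply Subtype.ext
      show u / l' = 1
      rw [hul, div_self']
    rw [he', h2, map_one, Units.val_one]
  have hε : ∀ z : C, ε z = 1 := by
    rintro ⟨z, hz⟩
    have h1 : ∀ z (hz : z ∈ Subgroup.closure X), ε ⟨z, hz⟩ = 1 := by
      intro z hz
      induction hz using Subgroup.closure_induction with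
      | mem z hz =>
        obtain ⟨u, hu, rfl⟩ := hz
        obtain ⟨u', hu', hx, he'⟩ := hroot _ hu
        rw [hec _ hu, hc1] at he'
        have h3 : u' = u := Units.ext hx
        subst h3
        exact Units.ext he'.symm
      | one => exact map_one ε
      | mul a b ha hb h1 h2 =>
        have : (⟨a * b, mul_mem ha hb⟩ : C) = ⟨a, ha⟩ * ⟨b, hb⟩ := rfl
        rw [this, map_mul, h1, h2, mul_one]
      | inv a ha h1 =>
        have : (⟨a⁻¹, inv_mem ha⟩ : C) = ⟨a, ha⟩⁻¹ := rfl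
        rw [this, map_inv, h1, inv_one]
    exact h1 z hz
  exact hy (hε y)

end

end MP35
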