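import Pool.Agent.Lib_MP_3538b5_al.RMain
import Pool.Agent.Lib_MP_3538b5_al.GStart

/-! # From the core situation to the theorem -/

set_option autoImplicit false

namespace MP35

universe u v w

/-- the characteristic of the field of a representation is `0` or `p` -/
theorem Rep.char_cases {p : ℕ} [hp : Fact p.Prime] {G : Type u} [Group G] [TopologicalSpace G]
    {T : Type v} [CommRing T] [TopologicalSpace T] [CNR T] [IsDomain T] {Ω : Type v} [Field Ω]
    [Algebra T Ω] {n : ℕ} (R : Rep p G T Ω n) : CharZero Ω ∨ CharP Ω p := by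
  obtain ⟨q, hq⟩ := CharP.exists Ω
  rcases CharP.char_is_prime_or_zero Ω q with h | rfl
  · right
    by_cases hqp : q = p
    · rw [← hqp]
      exact hq
    · exfalso
      have h0 : ((q : ℕ) : T) = 0 := by
        apply R.tinj
        rw [map_natCast, map_zero]
        exact CharP.cast_eq_zero Ω q
      have hcop : Nat.Coprime p q := (Nat.coprime_primes hp.out h).2 (Ne.symm hqp)
      have hu : IsUnit ((p : ℕ) : T) := by
        have h1 : IsCoprime (p : ℤ) (q : ℤ) := Nat.isCoprime_iff_coprime.2 hcop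
        obtain ⟨a, b, hab⟩ := h1
        have h2 : (a : T) * (p : T) = 1 := by
          have h3 := congrArg (Int.cast : ℤ → T) hab
          push_cast at h3
          rw [h0, mul_zero, add_zero] at h3
          exact h3
        exact IsUnit.of_mul_eq_one_right _ h2
      exact not_isUnit_of_tn R.pnil hu
  · left
    exact CharP.charP_to_charZero Ω

/-- there is no core situation -/
def NoCore (p : ℕ) : Prop :=
  ∀ (n k : ℕ) (G : Type u) (_ : Group G) (_ : TopologicalSpace G) (_ : IsTopologicalGroup G)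
    (_ : CompactSpace G) (_ : T2Space G) (_ : TotallyDisconnectedSpace G)
    (T : Type v) (_ : CommRing T) (_ : TopologicalSpace T) (_ : CNR T) (_ : IsDomain T)
    (Ω : Type v) (_ : Field Ω) (_ : IsAlgClosed Ω) (_ : Algebra T Ω) (R : Rep p G T Ω n),
    ¬ MCore.{u, v} R k

section

variable {p : ℕ} [hp : Fact p.Prime] {F : Type u} [Group F] [TopologicalSpace F]
    [IsTopologicalGroup F] [CompactSpace F] [T2Space F] [TotallyDisconnectedSpace F] {S : Type w}
    {e : S → F}

/-- no injective representation -/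
theorem free_not_linear (hno : NoCore.{u, v} p) (hF : IsFreeProP p e) (hS : Nontrivial S)
    {R : Type v} [CommRing R] [TopologicalSpace R] [IsTopologicalRing R] [CompactSpace R]
    [T2Space R] [TotallyDisconnectedSpace R] {n : ℕ} (ρ : F →* GL (Fin n) R)
    (hρ : Continuous fun g => (ρ g : Matrix (Fin n) (Fin n) R)) : ¬ Function.Injective ρ := by
  intro hinj
  obtain ⟨s, t, hst⟩ := exists_pair_ne S
  obtain ⟨x, y, hxy, hP, hL⟩ := exists_start hF ⟨s, t, hst⟩
  have hcl : IsClosed ((cl2 x y : Subgroup F) : Set F) := isClosed_cl2 x y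
  have : CompactSpace (cl2 x y) := isCompact_iff_compactSpace.1 hcl.isCompact
  have hG : PF p (cl2 x y) := ⟨hP, hL, ⟨x, left_mem_cl2 x y⟩, ⟨y, right_mem_cl2 x y⟩,
    fun h => hxy (congrArg Subtype.val h)⟩
  obtain ⟨n', k, G, i1, i2, i3, i4, i5, i6, T, i7, i8, i9, i10, Ω, i11, i12, i13, R', hR'⟩ :=
    reduction hG (ρ.comp (cl2 x y).subtype) (hρ.comp continuous_subtype_val)
      (hinj.comp (cl2 x y).subtype_injective)
  exact hno n' k G i1 i2 i3 i4 i5 i6 T i7 i8 i9 i10 Ω i11 i12 i13 R' hR'

end

/-- the identity form -/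
theorem exists_identity_n {p : ℕ} [hp : Fact p.Prime] {F : Type u} [Group F] [TopologicalSpace F]
    [IsTopologicalGroup F] [CompactSpace F] [T2Space F] [TotallyDisconnectedSpace F] {S : Type w}
    {e : S → F} (hno : NoCore.{u, max u v} p) (hF : IsFreeProP p e) (hS : Nontrivial S) (n : ℕ) :
    ∃ w : F, w ≠ 1 ∧ ∀ (R : Type v) [CommRing R] [TopologicalSpace R]
      [IsTopologicalRing R] [CompactSpace R] [T2Space R] [TotallyDisconnectedSpace R]
      (ρ : F →* GL (Fin n) R), Continuous (fun g => (ρ g : Matrix (Fin n) (Fin n) R)) → ρ w = 1 := by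
  by_contra hcon
  push Not at hcon
  choose R i1 i2 i3 i4 i5 i6 ρ hρ hne using (fun w : {w : F // w ≠ 1} => hcon w.1 w.2)
  let m : F →* Matrix (Fin n) (Fin n) (∀ w, R w) :=
    { toFun := fun g => Matrix.of fun i j w => (ρ w g : Matrix (Fin n) (Fin n) (R w)) i j
      map_one' := by
        ext i j w
        rw [Matrix.of_apply, map_one, Units.val_one, Matrix.one_apply, Matrix.one_apply]
        split_ifs <;> rfl
      map_mul' := fun g h => by
        ext i j w
        rw [Matrix.of_apply, map_mul, Units.val_mul, Matrix.mul_apply, Matrix.mul_apply,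
          Finset.sum_apply]
        rfl }
  have hm : Continuous m := by
    refine continuous_matrix fun i j => continuous_pi fun w => ?_
    exact (hρ w).matrix_elem i j
  refine free_not_linear hno hF hS m.toHomUnits hm ?_
  rw [injective_iff_map_eq_one]
  intro g hg
  by_contra hg1
  apply hne ⟨g, hg1⟩
  ext i j
  have h1 : m g = 1 := congrArg Units.val hg
  have h2 := congrFun (congrFun (congrFun h1 i) j) ⟨g, hg1⟩
  have h3 : (ρ ⟨g, hg1⟩ g : Matrix (Fin n) (Fin n) (R ⟨g, hg1⟩)) i j =
      (1 : Matrix (Fin n) (Fin n) (∀ w, R w)) i j ⟨g, hg1⟩ := h2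
  show (ρ ⟨g, hg1⟩ g : Matrix (Fin n) (Fin n) (R ⟨g, hg1⟩)) i j = (1 : Matrix (Fin n) (Fin n) _) i j
  rw [h3, Matrix.one_apply, Matrix.one_apply]
  split_ifs <;> rfl

end MP35
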