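import Pool.Agent.Lib_MP_3538b5_al.ZCoef
import Pool.Agent.Lib_MP_3538b5_al.LemV
import Pool.Agent.Lib_MP_3538b5_al.RBurn

/-! # Scalars on a simple stable faithful subspace (characteristic zero) -/

set_option autoImplicit false
set_option linter.unusedSectionVars false

namespace MP35

open Filter Topology

universe u v w

variable {p : ℕ} [hp : Fact p.Prime] {G : Type u} [Group G] [TopologicalSpace G]
  [IsTopologicalGroup G] [CompactSpace G] [T2Space G] [TotallyDisconnectedSpace G] {T : Type v}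
  [CommRing T] [TopologicalSpace T] [CNR T] {Ω : Type v} [Field Ω] [IsAlgClosed Ω] [CharZero Ω]
  [Algebra T Ω] {n : ℕ} {R : Rep p G T Ω n} {k : ℕ}

/-! ### restriction to `L` and matrices -/

section restr

variable {L : Submodule Ω (Matrix (Fin n) (Fin n) Ω)} (hL : R.Stable L) {m : ℕ}
  (b : Module.Basis (Fin m) Ω L)

include hL in
theorem ZD.mapsTo {y : Module.End Ω (Matrix (Fin n) (Fin n) Ω)} (hy : y ∈ R.B) :
    ∀ v ∈ L, y v ∈ L := R.B_stable hL hy

/-- restriction to `L` and the matrix, for the algebra generated by `Ad G` -/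
noncomputable def ZD.Psi : R.B →ₐ[T] Matrix (Fin m) (Fin m) Ω where
  toFun y := LinearMap.toMatrixAlgEquiv b
    ((y : Module.End Ω (Matrix (Fin n) (Fin n) Ω)).restrict (ZD.mapsTo hL y.2))
  map_one' := by
    rw [← map_one (LinearMap.toMatrixAlgEquiv b)]
    congr 1
  map_mul' x y := by
    rw [← map_mul (LinearMap.toMatrixAlgEquiv b)]
    congr 1
  map_zero' := by
    rw [← map_zero (LinearMap.toMatrixAlgEquiv b)]
    congr 1
  map_add' x y := by
    rw [← map_add (LinearMap.toMatrixAlgEquiv b)]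
    congr 1
  commutes' t := by
    have e1 : algebraMap T (Matrix (Fin m) (Fin m) Ω) t
        = algebraMap Ω (Matrix (Fin m) (Fin m) Ω) (algebraMap T Ω t) :=
      IsScalarTower.algebraMap_apply _ _ _ _
    rw [e1, ← AlgEquiv.commutes (LinearMap.toMatrixAlgEquiv b) (algebraMap T Ω t)]
    congr 1
    refine LinearMap.ext fun v => Subtype.ext ?_
    change (algebraMap T R.B t : Module.End Ω (Matrix (Fin n) (Fin n) Ω)) v
      = ((algebraMap T Ω t) • v : L)
    rw [Submodule.coe_smul, algebraMap_smul]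
    rfl

/-- the matrix of `Ad g` restricted to `L` -/
noncomputable def ZD.theta : G →* Matrix (Fin m) (Fin m) Ω :=
  (ZD.Psi hL b : R.B →* Matrix (Fin m) (Fin m) Ω).comp R.jB

theorem ZD.theta_apply (g : G) : ZD.theta hL b g
    = LinearMap.toMatrixAlgEquiv b ((R.Ad g).restrict (hL g)) := rfl

theorem ZD.root_iff (g : G) (ν : Ω) :
    (ZD.theta hL b g - 1).charpoly.IsRoot ν ↔ R.EvQ ⊥ L g (ν + 1) := by
  have e1 : ZD.theta hL b g - 1
      = LinearMap.toMatrix b b ((R.Ad g).restrict (hL g) - 1) := by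
    rw [ZD.theta_apply, ← map_one (LinearMap.toMatrixAlgEquiv b), ← map_sub]
    rfl
  rw [e1, LinearMap.charpoly_toMatrix, ← Module.End.hasEigenvalue_iff_isRoot_charpoly]
  constructor
  · intro h
    obtain ⟨v, hv⟩ := h.exists_hasEigenvector
    refine ⟨v, v.2, ?_, ?_⟩
    · rw [Submodule.mem_bot]
      exact fun h0 => hv.2 (Subtype.ext h0)
    · rw [Submodule.mem_bot, sub_eq_zero]
      have h1 := congrArg (Subtype.val : L → _) hv.apply_eq_smul
      have h2 : R.Ad g v - (v : Matrix (Fin n) (Fin n) Ω) = ν • (v : Matrix (Fin n) (Fin n) Ω) := h1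
      rw [add_smul, one_smul, ← h2, sub_add_cancel]
  · rintro ⟨w, hw, hw0, h⟩
    rw [Submodule.mem_bot] at hw0 h
    have h1 : Module.End.HasEigenvector ((R.Ad g).restrict (hL g) - 1) ν ⟨w, hw⟩ := by
      refine ⟨?_, fun h0 => hw0 (congrArg Subtype.val h0)⟩
      rw [Module.End.mem_eigenspace_iff]
      refine Subtype.ext ?_
      change R.Ad g w - w = ν • w
      rw [sub_eq_zero.1 h, add_smul, one_smul, add_sub_cancel_right]
    exact Module.End.hasEigenvalue_of_hasEigenvector h1

/-- irreducibility -/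
theorem ZD.span_theta (hirr : ∀ U : Submodule Ω (Matrix (Fin n) (Fin n) Ω), U ≤ L → R.Stable U →
    U = ⊥ ∨ U = L) : Submodule.span Ω (Set.range (ZD.theta hL b)) = ⊤ := by
  refine burnside_hom (ZD.theta hL b) fun U hU => ?_
  let U' : Submodule Ω L := U.comap b.equivFun.toLinearMap
  have hU' : ∀ v : L, v ∈ U' ↔ b.equivFun v ∈ U := fun v => Iff.rfl
  have hst : R.Stable (U'.map L.subtype) := by
    rintro g _ ⟨v, hv, rfl⟩
    refine ⟨(R.Ad g).restrict (hL g) v, ?_, rfl⟩
    rw [SetLike.mem_coe, hU'] at hv ⊢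
    have h1 := hU g _ hv
    have h2 : (ZD.theta hL b g).mulVec (b.equivFun v) = b.equivFun ((R.Ad g).restrict (hL g) v) :=
      LinearMap.toMatrix_mulVec_repr b b ((R.Ad g).restrict (hL g)) v
    rwa [h2] at h1
  have hle : U'.map L.subtype ≤ L := by
    rintro _ ⟨v, -, rfl⟩
    exact v.2
  rcases hirr _ hle hst with h | h
  · left
    rw [eq_bot_iff]
    intro x hx
    have h1 : (L.subtype (b.equivFun.symm x)) ∈ U'.map L.subtype :=
      ⟨_, by rw [SetLike.mem_coe, hU', LinearEquiv.apply_symm_apply]; exact hx, rfl⟩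
    rw [h, Submodule.mem_bot] at h1
    have h2 : b.equivFun.symm x = 0 := Subtype.ext h1
    rw [Submodule.mem_bot, ← LinearEquiv.apply_symm_apply b.equivFun x, h2, map_zero]
  · right
    rw [eq_top_iff]
    rintro x -
    have h1 : ((b.equivFun.symm x : L) : Matrix (Fin n) (Fin n) Ω) ∈ U'.map L.subtype := by
      rw [h]; exact (b.equivFun.symm x).2
    obtain ⟨v, hv, hvx⟩ := h1
    have h2 : v = b.equivFun.symm x := Subtype.ext hvx
    rw [h2, SetLike.mem_coe, hU', LinearEquiv.apply_symm_apply] at hv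
    exact hv

end restr

/-- elements of the ring generated by the image are integral combinations -/
theorem ZD.exists_finsupp {B : Type w} [Ring B] (θ : G →* B) {y : B}
    (hy : y ∈ Subring.closure (Set.range θ)) :
    ∃ m : G →₀ ℤ, m.sum (fun g k => k • θ g) = y := by
  have h : Subring.closure (Set.range θ) ≤ (MonoidAlgebra.lift ℤ B G θ).toRingHom.range := by
    rw [Subring.closure_le]
    rintro _ ⟨g, rfl⟩
    exact ⟨MonoidAlgebra.of ℤ G g, by simp⟩
  obtain ⟨f, hf⟩ := h hy
  refine ⟨f.coeff, ?_⟩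
  rw [← hf]
  exact (MonoidAlgebra.lift_apply θ f).symm

/-- PROOF. Let `m = finrank L > 0`, choose a basis of `L`, and let `θ : G →* M_m(Ω)` be the matrix of `R.Ad g` restricted to `L`. `θ` is irreducible (`hirr`), so `span Ω (range θ) = ⊤` (`burnside_hom`). Let `C_T = Algebra.adjoin T (range θ)`, a finite `T`-module (it is the image of the
finite `T`-algebra `R.B` of FDefs under restriction to `L` and the matrix). By `exists_coef_ring` (ZCoef) there is a finite `T' : Subalgebra T Ω` containing the coefficients of the characteristic polynomials of the left multiplications `L_y` by all `y ∈ C_T`. Give `T'` the module topology (`cnr_of_finite`).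
Let `X` be the set of `x ∈ T'` which are the `j`-th coefficient, `j < m ^ 2`, of the characteristic polynomial of `L_(θ g - 1)`, for some `g`. The roots of this polynomial are the `μ - 1`, `μ` an eigenvalue of `θ g` (`isRoot_mulLeft`), i.e. `R.EvQ ⊥ L g μ`; so for a valuation ring `O`, `X ⊆ O.nonunits` iff all these `μ - 1` are
(`root_mem_nonunits`, `coeff_mem_nonunits`). `Rep.finite_of_evQ` (with `MCore.deep_top`) gives `x : Fin r → T'`, `x i ∈ X`, the noetherian closed ring and finiteness. Let `C` be the subring of `M_m(Ω)` generated by `range θ`. `cRing C` is infinite (characteristic zero) and contains all `x i`. `scalars` for `N = C`: `z ≠ 0`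
with `(z * s) • 1 ∈ C` for all `s ∈ cRing C`. So `z ^ j * s` is in `C` (as a scalar matrix) for all `j ≥ 1` (products), in particular for `D := z ^ (m ^ 2)`, and `D` is in `T'`: up to sign it is the constant coefficient of the characteristic polynomial of `L_(z • 1)`, `z • 1 ∈ C ⊆ C_T`. For `s ∈ Subring.closure (range x)` the scalar matrix
`(D s) • 1` is in `C`, an integral combination of the `θ g` (the range of `θ` is closed under multiplication); translate back to `L`. -/
theorem exists_scalar_data (hR : MCore.{u, v} R k) (L : Submodule Ω (Matrix (Fin n) (Fin n) Ω))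
    (hL : R.Stable L) (hL0 : L ≠ ⊥) (hf : R.FaithQ ⊥ L)
    (hirr : ∀ U : Submodule Ω (Matrix (Fin n) (Fin n) Ω), U ≤ L → R.Stable U → U = ⊥ ∨ U = L) :
    ∃ (T' : Subalgebra T Ω) (_ : Module.Finite T T') (_ : TopologicalSpace T')
      (_ : IsModuleTopology T T') (_ : CNR T') (r : ℕ) (x : Fin r → T') (D : T'), D ≠ 0 ∧
      IsNoetherianRing (Subring.closure (Set.range x)).topologicalClosure ∧
      Module.Finite (Subring.closure (Set.range x)).topologicalClosure T' ∧
      ∀ s ∈ Subring.closure (Set.range x), ∃ m : G →₀ ℤ, ∀ y ∈ L,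
        m.sum (fun g k => k • (R.ρ g * y * R.ρ g⁻¹)) = algebraMap T' Ω (D * s) • y := by
  classical
  have hdT : IsDomain T := R.tinj.isDomain
  set m := Module.finrank Ω L with hm
  have hm0 : 0 < m := by
    rw [hm, Module.finrank_pos_iff]
    exact (Submodule.nontrivial_iff_ne_bot).2 hL0
  let b : Module.Basis (Fin m) Ω L := Module.finBasis Ω L
  let θ := ZD.theta hL b
  have hspan : Submodule.span Ω (Set.range θ) = ⊤ := ZD.span_theta hL b hirr
  -- the finite algebra
  let C : Subalgebra T (Matrix (Fin m) (Fin m) Ω) := (ZD.Psi hL b).range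
  have hθC : ∀ g, θ g ∈ C := fun g => ⟨R.jB g, rfl⟩
  have hCfin : Module.Finite T C := Module.Finite.range (ZD.Psi hL b).toLinearMap
  have hCspan : Submodule.span Ω (C : Set (Matrix (Fin m) (Fin m) Ω)) = ⊤ := by
    rw [eq_top_iff, ← hspan]
    refine Submodule.span_mono ?_
    rintro _ ⟨g, rfl⟩
    exact hθC g
  obtain ⟨T', hfin, hcoef⟩ := exists_coef_ring hm0 C hCspan
  have hcoef' : ∀ y ∈ C, ∀ j, (LinearMap.mulLeft Ω y).charpoly.coeff j ∈ T' := fun y hy j =>
    hcoef y (Algebra.subset_adjoin hy) j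
  let _ : TopologicalSpace T' := moduleTopology T T'
  have hmt : IsModuleTopology T T' := ⟨rfl⟩
  have hcnr : CNR T' := cnr_of_finite T T'
  -- degrees
  have hdeg : ∀ y : Matrix (Fin m) (Fin m) Ω, (LinearMap.mulLeft Ω y).charpoly.natDegree = m ^ 2 := by
    intro y
    rw [LinearMap.charpoly_natDegree, Module.finrank_matrix]
    simp [sq]
  -- the set `X`
  let X : Set T' := {x | ∃ g, ∃ j < m ^ 2, (x : Ω) = (LinearMap.mulLeft Ω (θ g - 1)).charpoly.coeff j}
  have hX : ∀ O : ValuationSubring Ω, (∀ t : T, algebraMap T Ω t ∈ O) → (p : Ω) ∈ O.nonunits →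
      ((∀ x ∈ X, (x : Ω) ∈ O.nonunits) ↔ ∀ g μ, R.EvQ ⊥ L g μ → μ - 1 ∈ O.nonunits) := by
    intro O hO hpO
    constructor
    · intro h g μ hμ
      have h1 : (θ g - 1).charpoly.IsRoot (μ - 1) := by
        rw [ZD.root_iff, sub_add_cancel]
        exact hμ
      rw [← isRoot_mulLeft] at h1
      refine root_mem_nonunits O (LinearMap.charpoly_monic _) (fun j hj => ?_) h1
      rw [hdeg] at hj
      exact h ⟨_, hcoef' _ (sub_mem (hθC g) (one_mem C)) j⟩ ⟨g, j, hj, rfl⟩
    · rintro h x ⟨g, j, hj, hx⟩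
      rw [hx]
      refine coeff_mem_nonunits O (LinearMap.charpoly_monic _) (fun ν hν => ?_) (by rw [hdeg]; exact hj)
      rw [isRoot_mulLeft, ZD.root_iff] at hν
      have := h g _ hν
      rwa [add_sub_cancel_right] at this
  obtain ⟨-, r, x, hxX, hSn, hSf⟩ := R.finite_of_evQ hR.opt.nmin hR.pf hR.alg hR.full
    (fun _ hc => hR.deep_top hc) (bot_le : (⊥ : Submodule Ω _) ≤ L) hL
    (fun g w hw => by
      rw [Submodule.mem_bot] at hw ⊢
      rw [hw, map_zero]) hf hR.det X hX
  -- the scalars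
  let CZ : Subring (Matrix (Fin m) (Fin m) Ω) := Subring.closure (Set.range θ)
  have hCZ : ∀ g, θ g ∈ CZ := fun g => Subring.subset_closure ⟨g, rfl⟩
  have hCZC : ∀ y ∈ CZ, y ∈ C := by
    intro y hy
    have : CZ ≤ C.toSubring := by
      rw [Subring.closure_le]
      rintro _ ⟨g, rfl⟩
      exact hθC g
    exact this hy
  have hCZspan : Submodule.span Ω (CZ : Set (Matrix (Fin m) (Fin m) Ω)) = ⊤ := by
    rw [eq_top_iff, ← hspan]
    refine Submodule.span_mono ?_
    rintro _ ⟨g, rfl⟩
    exact hCZ g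
  have hinf : (cRing CZ : Set Ω).Infinite :=
    Set.infinite_of_injective_forall_mem (f := fun k : ℕ => (k : Ω)) Nat.cast_injective
      fun k => natCast_mem (cRing CZ) k
  have hne : (1 : Matrix (Fin m) (Fin m) Ω) ≠ 0 := by
    have : Nonempty (Fin m) := ⟨⟨0, hm0⟩⟩
    exact one_ne_zero
  obtain ⟨z, hz0, hz⟩ := scalars hm0 CZ hCZspan hinf CZ.toAddSubgroup (fun x hx => hx)
    (fun a ha x hx => CZ.mul_mem ha hx) (fun a ha x hx => CZ.mul_mem hx ha) ⟨1, CZ.one_mem, hne⟩
  have hz1 : z • (1 : Matrix (Fin m) (Fin m) Ω) ∈ CZ := by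
    have := hz 1 (one_mem _)
    rwa [mul_one] at this
  have hzj : ∀ j : ℕ, ∀ s ∈ cRing CZ, (z ^ (j + 1) * s) • (1 : Matrix (Fin m) (Fin m) Ω) ∈ CZ := by
    intro j
    induction j with
    | zero =>
      intro s hs
      rw [zero_add, pow_one]
      exact hz s hs
    | succ j ih =>
      intro s hs
      have e : (z ^ (j + 1 + 1) * s) • (1 : Matrix (Fin m) (Fin m) Ω)
          = (z • 1) * ((z ^ (j + 1) * s) • 1) := by
        rw [smul_mul_smul_comm, one_mul, pow_succ' z (j + 1), mul_assoc]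
      rw [e]
      exact CZ.mul_mem hz1 (ih s hs)
  -- the element `D`
  have hD : z ^ (m ^ 2) ∈ T' := by
    have h1 := hcoef' _ (hCZC _ hz1) 0
    have h2 := LinearMap.det_eq_sign_charpoly_coeff (LinearMap.mulLeft Ω (z • (1 : Matrix (Fin m) (Fin m) Ω)))
    have h3 : LinearMap.mulLeft Ω (z • (1 : Matrix (Fin m) (Fin m) Ω))
        = z • (1 : Module.End Ω (Matrix (Fin m) (Fin m) Ω)) := by
      refine LinearMap.ext fun y => ?_
      simp
    have h4 : Module.finrank Ω (Matrix (Fin m) (Fin m) Ω) = m ^ 2 := by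
      rw [Module.finrank_matrix]
      simp [sq]
    rw [h3, LinearMap.det_smul, map_one, mul_one, h4] at h2
    rw [h2]
    rw [h3] at h1
    exact T'.mul_mem (T'.pow_mem (T'.neg_mem T'.one_mem) _) h1
  refine ⟨T', hfin, inferInstance, hmt, hcnr, r, x, ⟨z ^ (m ^ 2), hD⟩, ?_, hSn, hSf, ?_⟩
  · intro h
    exact pow_ne_zero _ hz0 (congrArg Subtype.val h)
  · intro s hs
    have hs1 : (s : Ω) ∈ cRing CZ := by
      have : Subring.closure (Set.range x) ≤ (cRing CZ).comap (algebraMap T' Ω) := by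
        rw [Subring.closure_le]
        rintro _ ⟨i, rfl⟩
        obtain ⟨g, j, hj, hx⟩ := hxX i
        change (x i : Ω) ∈ cRing CZ
        rw [hx]
        exact coeff_mem_cRing (sub_mem (hCZ g) (one_mem CZ)) j
      exact this hs
    have hm2 : 0 < m ^ 2 := pow_pos hm0 2
    obtain ⟨j, hj⟩ : ∃ j, m ^ 2 = j + 1 := ⟨m ^ 2 - 1, by omega⟩
    have hs2 := hzj j _ hs1
    rw [← hj] at hs2
    obtain ⟨c, hc⟩ := ZD.exists_finsupp θ hs2
    refine ⟨c, fun y hy => ?_⟩
    have h1 : c.sum (fun g k => k • (R.Ad g).restrict (hL g))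
        = (z ^ (m ^ 2) * (s : Ω)) • (1 : Module.End Ω L) := by
      apply (LinearMap.toMatrixAlgEquiv b).injective
      rw [map_finsuppSum, map_smul, map_one, ← hc]
      refine Finsupp.sum_congr fun g _ => ?_
      rw [map_zsmul]
      rfl
    have h2 := congrArg (fun f : Module.End Ω L => ((f ⟨y, hy⟩ : L) : Matrix (Fin n) (Fin n) Ω)) h1
    have h3 : ((((z ^ (m ^ 2) * (s : Ω)) • (1 : Module.End Ω L)) ⟨y, hy⟩ : L) :
        Matrix (Fin n) (Fin n) Ω) = (z ^ (m ^ 2) * (s : Ω)) • y := rfl
    have h4 : (((c.sum (fun g k => k • (R.Ad g).restrict (hL g)) : Module.End Ω L) ⟨y, hy⟩ : L) :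
        Matrix (Fin n) (Fin n) Ω) = c.sum (fun g k => k • (R.ρ g * y * R.ρ g⁻¹)) := by
      rw [Finsupp.sum, LinearMap.sum_apply, AddSubmonoidClass.coe_finsetSum, Finsupp.sum]
      rfl
    exact h4.symm.trans (h2.trans h3)

end MP35
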