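import Pool.Agent.Lib_MP_3538b5_al.RDefs
import Pool.Agent.Lib_MP_3538b5_al.GComm

/-! # The end of the proof in characteristic zero

Congruence subgroups `N i k = H ∩ (1 + p ^ i D ^ k A)` and the subgroups `V i k` of `A`,
`V i k = {x | ∃ y, 1 + p ^ i D ^ k (x + p y) ∈ H}`. -/

set_option autoImplicit false

namespace MP35

universe u v w

open Topology

namespace ZE

section basic

variable {p : ℕ} {G : Type u} [Group G] [TopologicalSpace G] {T : Type v} [CommRing T]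
  [TopologicalSpace T] {Ω : Type v} [Field Ω] [Algebra T Ω] {n : ℕ} (R : Rep p G T Ω n)

/-- the span of the image is torsion free -/
theorem smul_cancel {d : T} (hd : d ≠ 0) {x y : R.A} (h : d • x = d • y) : x = y := by
  have h1 : algebraMap T Ω d ≠ 0 := by
    intro h0
    exact hd (R.tinj (by rw [h0, map_zero]))
  refine Subtype.ext ?_
  have h2 : d • (x : Matrix (Fin n) (Fin n) Ω) = d • (y : Matrix (Fin n) (Fin n) Ω) :=
    congrArg Subtype.val h
  rw [← algebraMap_smul Ω d (x : Matrix (Fin n) (Fin n) Ω),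
    ← algebraMap_smul Ω d (y : Matrix (Fin n) (Fin n) Ω)] at h2
  exact smul_right_injective _ h1 h2

/-- `h` is `1 + d u` modulo `d ^ 2` -/
def near (d : T) (h : G) (u : R.A) : Prop := ∃ w : R.A, R.j h = 1 + d • u + d ^ 2 • w

theorem near_one (d : T) : near R d 1 0 :=
  ⟨0, by rw [map_one, smul_zero, smul_zero, add_zero, add_zero]⟩

theorem near_mul {d : T} {h h' : G} {u u' : R.A} (H1 : near R d h u) (H2 : near R d h' u') :
    near R d (h * h') (u + u') := by
  obtain ⟨w, hw⟩ := H1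
  obtain ⟨w', hw'⟩ := H2
  refine ⟨w + w' + u * u' + d • (u * w') + d • (w * u') + d ^ 2 • (w * w'), ?_⟩
  rw [map_mul, hw, hw']
  simp only [add_mul, mul_add, one_mul, mul_one, smul_mul_assoc, mul_smul_comm]
  module

theorem near_inv {d : T} {h : G} {u : R.A} (H1 : near R d h u) : near R d h⁻¹ (-u) := by
  obtain ⟨w, hw⟩ := H1
  have E : R.j h⁻¹ * (1 + d • u + d ^ 2 • w) = 1 := by
    rw [← hw, ← map_mul, inv_mul_cancel, map_one]
  have E2 : R.j h⁻¹ * (1 + d • u + d ^ 2 • w) * u = u := by rw [E, one_mul]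
  refine ⟨R.j h⁻¹ * u * u + d • (R.j h⁻¹ * w * u) - R.j h⁻¹ * w, ?_⟩
  simp only [add_mul, mul_add, mul_one, smul_mul_assoc, mul_smul_comm] at E E2
  linear_combination (norm := module) E - d • E2

theorem near_zpow {d : T} {h : G} {u : R.A} (H1 : near R d h u) (m : ℤ) :
    near R d (h ^ m) (m • u) := by
  induction m with
  | zero => rw [zpow_zero, zero_zsmul]; exact near_one R d
  | succ m ih => rw [zpow_add_one, add_zsmul, one_zsmul]; exact near_mul R ih H1
  | pred m ih =>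
    rw [zpow_sub_one, sub_zsmul, one_zsmul]
    exact near_mul R ih (near_inv R H1)

theorem near_pow {d : T} {h : G} {u : R.A} (H1 : near R d h u) (m : ℕ) :
    near R d (h ^ m) ((m : T) • u) := by
  have h1 := near_zpow R H1 (m : ℤ)
  rw [zpow_natCast, natCast_zsmul, ← Nat.cast_smul_eq_nsmul T] at h1
  exact h1

theorem near_conj {d : T} {h : G} {u : R.A} (H1 : near R d h u) (g : G) :
    near R d (g * h * g⁻¹) (R.j g * u * R.j g⁻¹) := by
  obtain ⟨w, hw⟩ := H1
  refine ⟨R.j g * w * R.j g⁻¹, ?_⟩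
  have e : R.j g * R.j g⁻¹ = 1 := by rw [← map_mul, mul_inv_cancel, map_one]
  rw [map_mul, map_mul, hw]
  simp only [add_mul, mul_add, mul_one, smul_mul_assoc, mul_smul_comm]
  rw [e]

theorem near_list {d : T} {ι : Type*} (l : List ι) (f : ι → G) (v : ι → R.A)
    (hf : ∀ i, near R d (f i) (v i)) : near R d (l.map f).prod (l.map v).sum := by
  induction l with
  | nil => exact near_one R d
  | cons a l ih =>
    rw [List.map_cons, List.map_cons, List.prod_cons, List.sum_cons]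
    exact near_mul R (hf a) ih

/-- products of conjugates -/
theorem near_sum {d : T} {h : G} {u : R.A} (H1 : near R d h u) (H : Subgroup G) (hH : H.Normal)
    (hh : h ∈ H) (m : G →₀ ℤ) :
    ∃ h' ∈ H, near R d h' (m.sum fun g k => k • (R.j g * u * R.j g⁻¹)) := by
  refine ⟨(m.support.toList.map fun g => (g * h * g⁻¹) ^ (m g)).prod, ?_, ?_⟩
  · refine Subgroup.list_prod_mem _ ?_
    intro x hx
    obtain ⟨g, -, rfl⟩ := List.mem_map.1 hx
    exact H.zpow_mem (hH.conj_mem h hh g) _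
  · have e : (m.sum fun g k => k • (R.j g * u * R.j g⁻¹)) =
        (m.support.toList.map fun g => m g • (R.j g * u * R.j g⁻¹)).sum :=
      (Finset.sum_map_toList _ _).symm
    rw [e]
    exact near_list R _ _ _ fun g => near_zpow R (near_conj R H1 g) _

/-- the ring elements -/
def PP (p : ℕ) {T : Type v} [CommRing T] (D : T) (i k : ℕ) : T := (p : T) ^ (i + 3) * D ^ (k + 1)

include R in
theorem PP_ne {D : T} (hp0 : (p : T) ≠ 0) (hD : D ≠ 0) (i k : ℕ) : PP p D i k ≠ 0 := by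
  have hdom : IsDomain T := Function.Injective.isDomain (algebraMap T Ω) R.tinj
  exact mul_ne_zero (pow_ne_zero _ hp0) (pow_ne_zero _ hD)

/-- the subgroups `V` -/
def V (H : Subgroup G) (D : T) (i k : ℕ) : AddSubgroup R.A where
  carrier := {x | ∃ h ∈ H, ∃ y : R.A, near R (PP p D i k) h (x + (p : T) • y)}
  zero_mem' := ⟨1, H.one_mem, 0, by rw [smul_zero, add_zero]; exact near_one R _⟩
  add_mem' := by
    rintro a b ⟨h, hh, y, hy⟩ ⟨h', hh', y', hy'⟩
    refine ⟨h * h', H.mul_mem hh hh', y + y', ?_⟩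
    have e : a + b + (p : T) • (y + y') = (a + (p : T) • y) + (b + (p : T) • y') := by module
    rw [e]
    exact near_mul R hy hy'
  neg_mem' := by
    rintro a ⟨h, hh, y, hy⟩
    refine ⟨h⁻¹, H.inv_mem hh, -y, ?_⟩
    have e : -a + (p : T) • (-y) = -(a + (p : T) • y) := by module
    rw [e]
    exact near_inv R hy

variable {R}

theorem mem_V {H : Subgroup G} {D : T} {i k : ℕ} {x : R.A} : x ∈ V R H D i k ↔
    ∃ h ∈ H, ∃ y : R.A, near R (PP p D i k) h (x + (p : T) • y) := Iff.rfl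

theorem V_exact {H : Subgroup G} {D : T} {i k : ℕ} {x : R.A} (hx : x ∈ V R H D i k) :
    ∃ h ∈ H, ∃ y : R.A, R.j h = 1 + PP p D i k • (x + (p : T) • y) := by
  obtain ⟨h, hh, y, w, hw⟩ := hx
  refine ⟨h, hh, y + ((p : T) ^ (i + 2) * D ^ (k + 1)) • w, ?_⟩
  rw [hw]
  unfold PP
  module

theorem smul_p_mem {H : Subgroup G} {D : T} {i k : ℕ} (x : R.A) : (p : T) • x ∈ V R H D i k := by
  refine ⟨1, H.one_mem, -x, ?_⟩
  have e : (p : T) • x + (p : T) • (-x) = 0 := by module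
  rw [e]
  exact near_one R _

/-- the exponent of `p` -/
theorem V_succ_left {H : Subgroup G} {D : T} {i k : ℕ} : V R H D i k ≤ V R H D (i + 1) k := by
  rintro x ⟨h, hh, y, hy⟩
  obtain ⟨w, hw⟩ := near_pow R hy p
  refine ⟨h ^ p, H.pow_mem hh p, y + ((p : T) ^ (i + 1) * D ^ (k + 1)) • w, 0, ?_⟩
  rw [hw]
  unfold PP
  module

end basic

section main

variable {p : ℕ} {G : Type u} [Group G] [TopologicalSpace G] {T : Type v} [CommRing T]
  [TopologicalSpace T] {Ω : Type v} [Field Ω] [Algebra T Ω] {n : ℕ} {R : Rep p G T Ω n}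

/-- step (c) -/
theorem closure_mem (hp0 : (p : T) ≠ 0) {H : Subgroup G} (hHn : H.Normal)
    {L : Submodule Ω (Matrix (Fin n) (Fin n) Ω)}
    (hlog : ∀ (d' : T), ∀ g ∈ H, g ∈ R.NI (Ideal.span {(p : T) ^ 2 * d'}) → ∃ x y : R.A,
      (x : Matrix (Fin n) (Fin n) Ω) ∈ L ∧
        R.j g = 1 + ((p : T) ^ 2 * d') • x + ((p : T) * d' * ((p : T) ^ 2 * d')) • y)
    {X : Set T} {D : T} (hD : D ≠ 0)
    (hsc : ∀ s ∈ Subring.closure X, ∃ m : G →₀ ℤ, ∀ x ∈ L,
      m.sum (fun g k => k • (R.ρ g * x * R.ρ g⁻¹)) = algebraMap T Ω (D * s) • x)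
    {s : T} (hs : s ∈ Subring.closure X) {i k : ℕ} {x : R.A} (hx : x ∈ V R H D i k) :
    s • x ∈ V R H D i (k + 1) := by
  obtain ⟨h, hh, y, hy⟩ := V_exact hx
  have hd : PP p D i k = (p : T) ^ 2 * ((p : T) ^ (i + 1) * D ^ (k + 1)) := by
    unfold PP; ring
  obtain ⟨x', y', hx', hxy⟩ := hlog ((p : T) ^ (i + 1) * D ^ (k + 1)) h hh (by
    rw [← hd]
    exact R.mem_NI_span.2 ⟨_, hy⟩)
  rw [← hd] at hxy
  have e1 : x = x' + (p : T) • (((p : T) ^ (i + 1) * D ^ (k + 1)) • y' - y) := by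
    have e2 : PP p D i k • x =
        PP p D i k • (x' + (p : T) • (((p : T) ^ (i + 1) * D ^ (k + 1)) • y' - y)) := by
      rw [hy] at hxy
      linear_combination (norm := module) hxy
    exact smul_cancel R (PP_ne R hp0 hD i k) e2
  obtain ⟨m, hm⟩ := hsc s hs
  have hnear : near R (PP p D i k) h (x' + ((p : T) * ((p : T) ^ (i + 1) * D ^ (k + 1))) • y') :=
    ⟨0, by rw [hxy]; module⟩
  obtain ⟨h', hh', w, hw⟩ := near_sum R hnear H hHn hh m
  have e3 : (m.sum fun g l => l • (R.j g * x' * R.j g⁻¹)) = (D * s) • x' := by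
    refine Subtype.ext ?_
    have h1 := hm x' hx'
    rw [algebraMap_smul] at h1
    rw [Subalgebra.coe_smul, ← h1]
    show R.A.val _ = _
    rw [map_finsuppSum]
    refine Finsupp.sum_congr fun g _ => ?_
    rw [map_zsmul, map_mul, map_mul]
    rfl
  have e4 : (m.sum fun g l => l • (R.j g *
      (x' + ((p : T) * ((p : T) ^ (i + 1) * D ^ (k + 1))) • y') * R.j g⁻¹)) =
      (D * s) • x' + ((p : T) * ((p : T) ^ (i + 1) * D ^ (k + 1))) •
        (m.sum fun g l => l • (R.j g * y' * R.j g⁻¹)) := by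
    rw [← e3, Finsupp.sum, Finsupp.sum, Finsupp.sum, Finset.smul_sum, ← Finset.sum_add_distrib]
    refine Finset.sum_congr rfl fun g _ => ?_
    simp only [add_mul, mul_add, smul_mul_assoc, mul_smul_comm]
    simp only [← Int.cast_smul_eq_zsmul T]
    module
  rw [e4] at hw
  have h1 : s • x' ∈ V R H D i (k + 1) := by
    refine ⟨h', hh', ((p : T) ^ (i + 1) * D ^ k) • (m.sum fun g l => l • (R.j g * y' * R.j g⁻¹)) +
      ((p : T) ^ (i + 2) * D ^ k) • w, 0, ?_⟩
    rw [hw]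
    unfold PP
    module
  have h2 : s • x = s • x' + (p : T) • (s • (((p : T) ^ (i + 1) * D ^ (k + 1)) • y' - y)) := by
    conv_lhs => rw [e1]
    module
  rw [h2]
  exact add_mem h1 (smul_p_mem _)

/-- the subgroups `V` are closed -/
theorem isClosed_V [CNR T] [CompactSpace G] {H : Subgroup G} (hHc : IsClosed (H : Set G))
    (D : T) (i k : ℕ) : IsClosed (V R H D i k : Set R.A) := by
  have h1 : IsCompact (R.j '' (H : Set G)) := hHc.isCompact.image R.cont_j
  have h2 : IsClosed {z : R.A × R.A | 1 + PP p D i k • (z.1 + (p : T) • z.2) ∈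
      R.j '' (H : Set G)} := by
    refine h1.isClosed.preimage ?_
    fun_prop
  have h3 : (V R H D i k : Set R.A) = Prod.fst ''
      {z : R.A × R.A | 1 + PP p D i k • (z.1 + (p : T) • z.2) ∈ R.j '' (H : Set G)} := by
    ext x
    constructor
    · intro hx
      obtain ⟨h, hh, y, hy⟩ := V_exact hx
      exact ⟨(x, y), ⟨h, hh, hy⟩, rfl⟩
    · rintro ⟨⟨x', y⟩, ⟨h, hh, hy⟩, rfl⟩
      exact ⟨h, hh, y, 0, by rw [hy, smul_zero, add_zero]⟩
  rw [h3]
  exact (h2.isCompact.image continuous_fst).isClosed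

theorem V_mono_left {H : Subgroup G} {D : T} {k : ℕ} {i j : ℕ} (hij : i ≤ j) :
    V R H D i k ≤ V R H D j k := by
  induction hij with
  | refl => exact le_rfl
  | step _ ih => exact ih.trans V_succ_left

/-- the ascending chain -/
theorem exists_stable [CNR T] [CompactSpace G] (S : Subring T) (hSn : IsNoetherianRing S)
    (hSf : Module.Finite S T) {H : Subgroup G} {D : T}
    (hmul : ∀ s ∈ S, ∀ i k : ℕ, ∀ x ∈ V R H D i k, s • x ∈ V R H D i (k + 1)) :
    ∃ i₀ k : ℕ, ∀ i, i₀ ≤ i → V R H D (i + 2) k ≤ V R H D i k := by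
  have hsucc : ∀ i k : ℕ, V R H D i k ≤ V R H D i (k + 1) := fun i k x hx => by
    have := hmul 1 S.one_mem i k x hx
    rwa [one_smul] at this
  have hmono : ∀ i k l : ℕ, k ≤ l → V R H D i k ≤ V R H D i l := by
    intro i k l hkl
    induction hkl with
    | refl => exact le_rfl
    | step _ ih => exact ih.trans (hsucc i _)
  have hfin : Module.Finite S R.A := Module.Finite.trans T R.A
  have hnoeth : IsNoetherian S R.A := isNoetherian_of_isNoetherianRing_of_finite S R.A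
  let W : ℕ →o Submodule S R.A :=
    ⟨fun j => Submodule.span S (V R H D j j : Set R.A), monotone_nat_of_le_succ fun j =>
      Submodule.span_mono fun x hx => hsucc (j + 1) j (V_succ_left hx)⟩
  obtain ⟨j0, hj0⟩ := monotone_stabilizes_iff_noetherian.2 hnoeth W
  have hW : ∀ x ∈ W j0, x ∈ V R H D j0 (j0 + 1) := by
    intro x hx
    refine Submodule.closure_induction (p := fun x _ => x ∈ V R H D j0 (j0 + 1)) ?_ ?_ ?_ hx
    · exact zero_mem _
    · intro x y _ _ h1 h2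
      exact add_mem h1 h2
    · rintro ⟨s, hs⟩ x h
      exact hmul s hs j0 j0 x h
  refine ⟨j0, j0 + 1, fun i hi x hx => ?_⟩
  have h1 : x ∈ V R H D (i + 2) (i + 2) := hmono _ _ _ (by omega) hx
  have h2 : x ∈ W (i + 2) := Submodule.subset_span h1
  rw [← hj0 (i + 2) (by omega)] at h2
  exact V_mono_left hi (hW x h2)

/-- the congruence subgroups of `H` -/
def N (R : Rep p G T Ω n) (H : Subgroup G) (D : T) (i k : ℕ) : Subgroup G :=
  H ⊓ R.NI (Ideal.span {PP p D i k})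

omit [TopologicalSpace T] in
theorem PP_dvd (D : T) (k : ℕ) {i j : ℕ} (hij : i ≤ j) : PP p D i k ∣ PP p D j k := by
  unfold PP
  exact mul_dvd_mul_right (pow_dvd_pow _ (by omega)) _

theorem NI_anti (R : Rep p G T Ω n) (D : T) (k : ℕ) {i j : ℕ} (hij : i ≤ j) :
    R.NI (Ideal.span {PP p D j k}) ≤ R.NI (Ideal.span {PP p D i k}) :=
  R.NI_mono (Ideal.span_singleton_le_span_singleton.2 (PP_dvd D k hij))

theorem N_anti {H : Subgroup G} {D : T} {k : ℕ} {i j : ℕ} (hij : i ≤ j) :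
    N R H D j k ≤ N R H D i k := inf_le_inf_left _ (NI_anti R D k hij)

/-- step (f), one step -/
theorem step_N {H : Subgroup G} {D : T} {i k : ℕ} (hV : V R H D (i + 2) k ≤ V R H D i k) {z : G}
    (hz : z ∈ N R H D (i + 2) k) :
    ∃ w ∈ N R H D i k, z * (w ^ p ^ 2)⁻¹ ∈ N R H D (i + 3) k := by
  obtain ⟨hzH, hz⟩ := hz
  obtain ⟨x, hx⟩ := R.mem_NI_span.1 hz
  have hxV : x ∈ V R H D (i + 2) k := ⟨z, hzH, 0, 0, by rw [hx]; module⟩
  obtain ⟨w, hw, y, hy⟩ := V_exact (hV hxV)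
  refine ⟨w, ⟨hw, R.mem_NI_span.2 ⟨_, hy⟩⟩, H.mul_mem hzH (H.inv_mem (H.pow_mem hw _)), ?_⟩
  have hnear : near R (PP p D i k) w (x + (p : T) • y) := ⟨0, by rw [hy, smul_zero, add_zero]⟩
  obtain ⟨v, hv⟩ := near_pow R hnear (p ^ 2)
  refine R.mem_NI_span.2 ⟨-((y + ((p : T) ^ i * D ^ (k + 1)) • v) * R.j (w ^ p ^ 2)⁻¹), ?_⟩
  have e1 : R.j (w ^ p ^ 2) * R.j (w ^ p ^ 2)⁻¹ = 1 := by
    rw [← map_mul, mul_inv_cancel, map_one]
  have e2 : R.j z = R.j (w ^ p ^ 2) -
      PP p D (i + 3) k • (y + ((p : T) ^ i * D ^ (k + 1)) • v) := by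
    rw [hv, hx]
    unfold PP
    push_cast
    module
  rw [map_mul, e2, sub_mul, e1, smul_mul_assoc, smul_neg, sub_eq_add_neg]

/-- the congruence subgroups are small -/
theorem small [CNR T] [CompactSpace G] [T2Space G] (R : Rep p G T Ω n) (D : T) (k : ℕ) {U : Set G}
    (hU : IsOpen U) (h1 : (1 : G) ∈ U) :
    ∃ i, (R.NI (Ideal.span {PP p D i k}) : Set G) ⊆ U := by
  have hemb : IsClosedEmbedding R.j := R.cont_j.isClosedEmbedding R.j_inj
  obtain ⟨U', hU', rfl⟩ := hemb.isInducing.isOpen_iff.1 hU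
  have h1' : (1 : R.A) ∈ U' := by
    have : R.j 1 ∈ U' := h1
    rwa [map_one] at this
  have hn : IsOpen {q : T × R.A | 1 + q.1 • q.2 ∈ U'} := hU'.preimage (by fun_prop)
  obtain ⟨A, B, hA, hB, h0A, hB', hAB⟩ := generalized_tube_lemma (isCompact_singleton (x := (0 : T)))
    (isCompact_univ (X := R.A)) hn (by
      rintro ⟨a, b⟩ ⟨ha, -⟩
      rw [Set.mem_singleton_iff] at ha
      show 1 + a • b ∈ U'
      have ha' : a = 0 := ha
      rw [ha', zero_smul, add_zero]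
      exact h1')
  have ht : Filter.Tendsto (fun i : ℕ => PP p D i k) Filter.atTop (nhds 0) := by
    have h2 : Filter.Tendsto (fun i : ℕ => (p : T) ^ i) Filter.atTop (nhds 0) := R.pnil
    have h3 : Filter.Tendsto (fun i : ℕ => (p : T) ^ (i + 3)) Filter.atTop (nhds 0) :=
      (Filter.tendsto_add_atTop_iff_nat 3).2 h2
    have h4 := h3.mul_const (D ^ (k + 1))
    rwa [zero_mul] at h4
  obtain ⟨i, hi⟩ := (ht.eventually_mem (hA.mem_nhds (h0A rfl))).exists
  refine ⟨i, fun g hg => ?_⟩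
  obtain ⟨x, hx⟩ := R.mem_NI_span.1 hg
  show R.j g ∈ U'
  rw [hx]
  exact hAB (show (PP p D i k, x) ∈ A ×ˢ B from ⟨hi, hB' trivial⟩)

/-- step (f) -/
theorem mem_clS [IsTopologicalGroup G] [CNR T] [CompactSpace G] [T2Space G] {H : Subgroup G}
    {D : T} {i₀ k : ℕ} (hV : ∀ i, i₀ ≤ i → V R H D (i + 2) k ≤ V R H D i k) {z : G}
    (hz : z ∈ N R H D (i₀ + 2) k) :
    z ∈ clS {z : G | ∃ h ∈ N R H D i₀ k, z = h ^ p ^ 2} := by
  have key : ∀ J : ℕ, ∃ c ∈ clS {z : G | ∃ h ∈ N R H D i₀ k, z = h ^ p ^ 2},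
      z * c⁻¹ ∈ N R H D (i₀ + J + 2) k := by
    intro J
    induction J with
    | zero => exact ⟨1, Subgroup.one_mem _, by rwa [inv_one, mul_one]⟩
    | succ J ih =>
      obtain ⟨c, hc, hzc⟩ := ih
      obtain ⟨w, hw, hzw⟩ := step_N (hV (i₀ + J) (by omega)) hzc
      refine ⟨w ^ p ^ 2 * c, Subgroup.mul_mem _ (subset_clS _ ⟨w, N_anti (by omega) hw, rfl⟩) hc, ?_⟩
      rw [mul_inv_rev, ← mul_assoc]
      have e : i₀ + (J + 1) + 2 = i₀ + J + 3 := by omega
      rw [e]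
      exact hzw
  have hcl := (isClosed_clS {z : G | ∃ h ∈ N R H D i₀ k, z = h ^ p ^ 2}).closure_eq
  rw [← SetLike.mem_coe, ← hcl, mem_closure_iff]
  intro o ho hzo
  have hU : IsOpen {g : G | g⁻¹ * z ∈ o} := ho.preimage (by fun_prop)
  obtain ⟨i, hi⟩ := small R D k hU (by
    show (1 : G)⁻¹ * z ∈ o
    rwa [inv_one, one_mul])
  obtain ⟨c, hc, hzc⟩ := key i
  refine ⟨c, ?_, hc⟩
  have h1 : z * c⁻¹ ∈ {g : G | g⁻¹ * z ∈ o} := hi (NI_anti R D k (by omega) hzc.2)
  have h2 : (z * c⁻¹)⁻¹ * z = c := by group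
  have h3 : (z * c⁻¹)⁻¹ * z ∈ o := h1
  rwa [h2] at h3

/-- step (g) -/
theorem comm_N {H : Subgroup G} {D : T} {i k : ℕ} {a b : G} (ha : a ∈ N R H D i k)
    (hb : b ∈ N R H D i k) : a * b * a⁻¹ * b⁻¹ ∈ N R H D (i + 2) k := by
  obtain ⟨haH, ha⟩ := ha
  obtain ⟨hbH, hb⟩ := hb
  refine ⟨H.mul_mem (H.mul_mem (H.mul_mem haH hbH) (H.inv_mem haH)) (H.inv_mem hbH), ?_⟩
  obtain ⟨x, hx⟩ := R.mem_NI_span.1 ha
  obtain ⟨y, hy⟩ := R.mem_NI_span.1 hb
  refine R.mem_NI_span.2 ⟨((p : T) ^ (i + 1) * D ^ (k + 1)) • ((x * y - y * x) *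
    (R.j a⁻¹ * R.j b⁻¹)), ?_⟩
  have e1 : R.j b * R.j a * (R.j a⁻¹ * R.j b⁻¹) = 1 := by
    rw [← map_mul, ← map_mul, ← map_mul]
    have : b * a * (a⁻¹ * b⁻¹) = 1 := by group
    rw [this, map_one]
  have e2 : R.j a * R.j b = R.j b * R.j a + (PP p D (i + 2) k * ((p : T) ^ (i + 1) * D ^ (k + 1))) •
      (x * y - y * x) := by
    rw [hx, hy]
    simp only [add_mul, mul_add, one_mul, mul_one, smul_mul_assoc, mul_smul_comm]
    unfold PP
    module
  rw [map_mul, map_mul, map_mul, mul_assoc (R.j a * R.j b), e2, add_mul, e1, smul_mul_assoc,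
    smul_smul]

theorem isClosed_N [IsTopologicalGroup G] [CNR T] {H : Subgroup G} (hHc : IsClosed (H : Set G))
    (D : T) (i k : ℕ) : IsClosed (N R H D i k : Set G) := by
  refine hHc.inter ?_
  have h1 : IsClosed ((Ideal.span {PP p D i k} • ⊤ : Submodule T R.A) : Set R.A) :=
    isClosed_submodule _
  have h2 : Continuous fun g : G => R.j g - 1 := R.cont_j.sub continuous_const
  exact h1.preimage h2

end main

end ZE

/-- PROOF. `A = R.A`; `T` is a domain, `A` a torsion free `T`-module (`R.tinj`, matrices over the field `Ω`), so one can divide equations in `A` by `d ≠ 0` in `T`. Write `P i k := p ^ i * D ^ k ∈ T`, `N i k := H ⊓ R.NI (span {P i k})`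
(closed: `R.NI` is closed by `isClosed_submodule`; normal), `V i k := {x : A | ∃ y : A, ∃ h ∈ H, R.j h = 1 + P i k • (x + p • y)}`. Let `i ≥ 3`, `k ≥ 1` throughout.
(a) `V i k` is an additive subgroup (`z z' = 1 + d (u + u') + d ^ 2 u u'`, `z⁻¹ = 1 - d u + d ^ 2 u ^ 2 z⁻¹`, `d = P i k` a multiple of `p`). If `p • a ∈ ...`: `V i k` contains `p • A` (`h = 1`), and with `x` all `x + p • y`.
(b) `V i k ≤ V (i + 1) k`: `h ↦ h ^ p`, binomial formula; `p ^ (i + 2)` divides `choose p l * p ^ (i l)` for `l ≥ 2`.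
(c) Let `x ∈ V i k`, `s ∈ Subring.closure X`. `h ∈ H` with `j h = 1 + d (x + p y)`; by `hlog` with `d' = p ^ (i - 2) * D ^ k`, `d = p ^ 2 * d'`: `j h = 1 + d x' + p d' d y'` with `x' ∈ 𝔤`; so `x - x' ∈ p • A`. By `hsc` the product
`h' := ∏_g (g h g⁻¹) ^ (m g)` (in any order, e.g. over `m.support.toList`; integer exponents) is in `H`, `j h' = 1 + d ∑ (m g) g (x' + p d' y') g⁻¹ + d ^ 2 (..)` and `∑ (m g) g x' g⁻¹ = D s x'`; `d'` and `d` are multiples of `D`, `d` of `p D`. So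
`j h' = 1 + P i (k + 1) • (s • x' + p • y'')`, so `s • x' ∈ V i (k + 1)` and `s • x ∈ V i (k + 1)`.
(d) The same for `s ∈ S`: for fixed `x` the set of `s ∈ T` with `s • x ∈ V i (k + 1)` is closed (`V i k` is the projection along the compact `A` of the closed set `{(x, y) | 1 + P i k • (x + p • y) ∈ j(H)}`; `j(H)` is compact).
Since `1 ∈ S`, `V i k ≤ V i (k + 1)`.
(e) The union `V∞` of all `V i k` (`i ≥ 3`, `k ≥ 1`, directed) is an `S`-submodule of `A`, finitely generated as `A` is a noetherian `S`-module (`Module.Finite.trans S T A`). The generators are in one `V i₀ k₀`, so `V∞ ≤ V i₀ (k₀ + 1)` by (d). With `k := k₀ + 1` fixed: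
`V i k = V∞` for all `i ≥ i₀`.
(f) Let `i ≥ i₀`, `z ∈ N (i + 2) k`: `z` is in the closed subgroup generated by the `w ^ p ^ 2`, `w ∈ N i k`. Indeed for `j = i, i + 1, ..` if `z ∈ N (j + 2) k`, `j z = 1 + P (j + 2) k • x`, `x ∈ V (j + 2) k = V j k`, there is `w ∈ N j k` with `j w = 1 + P j k • (x + p y)`;
`w ^ p ^ 2 = 1 + P (j + 2) k • (x + p y')` (`p ^ (j + 3)` divides `choose (p ^ 2) l * p ^ (j l)` for `l ≥ 2`, `j ≥ 3`), so `z * (w ^ p ^ 2)⁻¹ ∈ N (j + 3) k`. The elements of `N (j + J) k` tend to `1` (`p ^ J A` is small: `R.pnil`, compactness of `A`; or every open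
subgroup `U` of `G` contains some `N j k`: the closed sets `N j k \ U` decrease and have empty intersection, as `⋂ p ^ j A = 0` by `R.pnil` and Hausdorff).
(g) `[N i k, N i k] ≤ N (i + 2) k` (`a b a⁻¹ b⁻¹ = 1 + (a b - b a) a⁻¹ b⁻¹`, `a b - b a ∈ d ^ 2 A`). By `not_powerful` `N i k` is commutative. But it is normal and not trivial (`hcong`), so `normal_noncomm` gives a contradiction. -/
theorem z_end {p : ℕ} [hp : Fact p.Prime] {G : Type u} [Group G] [TopologicalSpace G]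
    [IsTopologicalGroup G] [CompactSpace G] [T2Space G] [TotallyDisconnectedSpace G] (hG : PF p G)
    {T : Type v} [CommRing T] [TopologicalSpace T] [CNR T] {Ω : Type v} [Field Ω] [Algebra T Ω]
    {n : ℕ} (R : Rep p G T Ω n) (hp0 : (p : T) ≠ 0)
    (H : Subgroup G) (hHn : H.Normal) (hHc : IsClosed (H : Set G))
    (hcong : ∀ c : T, c ≠ 0 → ∃ h ∈ H, h ∈ R.NI (Ideal.span {c}) ∧ h ≠ 1)
    (L : Submodule Ω (Matrix (Fin n) (Fin n) Ω))
    (hlog : ∀ (d' : T), ∀ g ∈ H, g ∈ R.NI (Ideal.span {(p : T) ^ 2 * d'}) → ∃ x y : R.A,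
      (x : Matrix (Fin n) (Fin n) Ω) ∈ L ∧
        R.j g = 1 + ((p : T) ^ 2 * d') • x + ((p : T) * d' * ((p : T) ^ 2 * d')) • y)
    (S : Subring T) (hSn : IsNoetherianRing S) (hSf : Module.Finite S T) (X : Set T)
    (hX : (S : Set T) ⊆ closure (Subring.closure X : Set T)) (D : T) (hD : D ≠ 0)
    (hsc : ∀ s ∈ Subring.closure X, ∃ m : G →₀ ℤ, ∀ x ∈ L,
      m.sum (fun g k => k • (R.ρ g * x * R.ρ g⁻¹)) = algebraMap T Ω (D * s) • x) : False := by
  have hmul : ∀ s ∈ S, ∀ i k : ℕ, ∀ x ∈ ZE.V R H D i k, s • x ∈ ZE.V R H D i (k + 1) := by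
    intro s hs i k x hx
    have h1 : IsClosed {s : T | s • x ∈ ZE.V R H D i (k + 1)} :=
      (ZE.isClosed_V hHc D i (k + 1)).preimage (f := fun s : T => s • x) (by fun_prop)
    have h2 : (Subring.closure X : Set T) ⊆ {s : T | s • x ∈ ZE.V R H D i (k + 1)} :=
      fun s hs => ZE.closure_mem hp0 hHn hlog hD hsc hs hx
    exact closure_minimal h2 h1 (hX hs)
  obtain ⟨i₀, k, hV⟩ := ZE.exists_stable S hSn hSf hmul
  have hcomm := not_powerful hG.proP hG.lift (ZE.isClosed_N (R := R) hHc D i₀ k)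
    fun x hx y hy => ZE.mem_clS hV (ZE.comm_N hx hy)
  have hnorm : (ZE.N R H D i₀ k).Normal := by
    have h1 := R.NI_normal (Ideal.span {ZE.PP p D i₀ k})
    exact Subgroup.normal_inf_normal H _
  have hne : ZE.N R H D i₀ k ≠ ⊥ := by
    intro hb
    obtain ⟨h, hh, hI, h1⟩ := hcong _ (ZE.PP_ne R hp0 hD i₀ k)
    have h2 : h ∈ ZE.N R H D i₀ k := ⟨hh, hI⟩
    rw [hb] at h2
    exact h1 (Subgroup.mem_bot.1 h2)
  obtain ⟨x, hx, y, hy, hxy⟩ := normal_noncomm hG.proP hG.lift _ hnorm hne hG.nc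
  exact hxy (hcomm x hx y hy)

end MP35
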