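import Pool.Agent.Lib_MP_3538b5_al.ZSimple
import Pool.Agent.Lib_MP_3538b5_al.ZData
import Pool.Agent.Lib_MP_3538b5_al.ZEnd

/-! # The core situation in characteristic zero is impossible -/

set_option autoImplicit false

namespace MP35

open Filter Topology

universe u v w

/-- congruence subgroups are closed -/
theorem Rep.isClosed_NI {p : ℕ} {G : Type u} [Group G] [TopologicalSpace G] {T : Type v}
    [CommRing T] [TopologicalSpace T] [CNR T] {Ω : Type v} [Field Ω] [Algebra T Ω] {n : ℕ}
    (R : Rep p G T Ω n) (I : Ideal T) : IsClosed (R.NI I : Set G) := by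
  have h1 : IsClosed ((I • ⊤ : Submodule T R.A) : Set R.A) := isClosed_submodule _
  have h2 : Continuous fun g : G => R.j g - 1 := R.cont_j.sub continuous_const
  exact h1.preimage h2

/-- a logarithm is zero only for the identity -/
theorem Rep.Lg.eq_one {p : ℕ} [Fact p.Prime] {G : Type u} [Group G] [TopologicalSpace G]
    {T : Type v} [CommRing T] [TopologicalSpace T] [CNR T] {Ω : Type v} [Field Ω] [CharZero Ω]
    [Algebra T Ω] {n : ℕ} {R : Rep p G T Ω n} {g : G} (h : R.Lg g 0) : g = 1 := by
  obtain ⟨y, hy, -, hy2⟩ := h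
  have : y = 0 := Subtype.ext hy
  rw [this, zexp_zero] at hy2
  exact (R.j_inj (by rw [← hy2, map_one])).symm

/-- **There is no core situation in characteristic zero.** -/
theorem core_zero {p : ℕ} [hp : Fact p.Prime] {G : Type u} [Group G] [TopologicalSpace G]
    [IsTopologicalGroup G] [CompactSpace G] [T2Space G] [TotallyDisconnectedSpace G]
    {T Ω : Type v} [CommRing T] [TopologicalSpace T] [CNR T] [Field Ω]
    [IsAlgClosed Ω] [CharZero Ω] [Algebra T Ω] {n k : ℕ} {R : Rep p G T Ω n}
    (hR : MCore.{u, v} R k) : False := by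
  have hdT : IsDomain T := R.tinj.isDomain
  have hp0 : (p : T) ≠ 0 := by
    intro h
    have h1 := congrArg (algebraMap T Ω) h
    rw [map_natCast, map_zero] at h1
    exact hp.out.ne_zero (Nat.cast_eq_zero.1 h1)
  let H : Subgroup G := R.NI (Ideal.span {(p : T) ^ 2})
  have hHn : H.Normal := R.NI_normal _
  have hHc : IsClosed (H : Set G) := R.isClosed_NI _
  obtain ⟨h0, hh0, hh1⟩ := hR.deep_top (c := (p : T) ^ 2) (pow_ne_zero 2 hp0)
  have hH1 : H ≠ ⊥ := by
    intro h
    have : h0 ∈ H := hh0
    rw [h, Subgroup.mem_bot] at this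
    exact hh1 this
  have hspan := R.span_of_normal hR hHn hHc hH1
  -- the Lie algebra
  have hL : R.Stable (R.lie H) := fun g w hw => Rep.lie_conj hHn g hw
  have hL0 : R.lie H ≠ ⊥ := by
    intro h
    obtain ⟨x, hx⟩ := Rep.exists_Lg (R := R) hh0
    have h1 := hx.mem_lie (H := H) hh0
    rw [h, Submodule.mem_bot] at h1
    rw [h1] at hx
    exact hh1 hx.eq_one
  have hf : R.FaithQ ⊥ (R.lie H) := by
    intro g hg
    refine Rep.lie_faithful hR.pf (le_refl H) hspan fun x hx => ?_
    have := hg x hx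
    rw [Submodule.mem_bot, sub_eq_zero] at this
    exact this
  obtain ⟨T', hfin, htop, hmt, hcnr, r, x, D, hD, hSn, hSf, hsc⟩ :=
    exists_scalar_data hR (R.lie H) hL hL0 hf fun U hUL hU =>
      lie_simple hR hHn hHc hH1 (le_refl H) U hUL fun g _ y hy => hU g y hy
  have hinj : Function.Injective (algebraMap T' Ω) := Subtype.val_injective
  have hR' : MCore.{u, v} (R.base T' hinj) k := hR.base hinj
  have hp0' : (p : T') ≠ 0 := by
    intro h
    have h1 := congrArg (algebraMap T' Ω) h
    rw [map_natCast, map_zero] at h1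
    exact hp.out.ne_zero (Nat.cast_eq_zero.1 h1)
  have hdT' : IsDomain T' := hinj.isDomain
  refine z_end hR.pf (R.base T' hinj) hp0' H hHn hHc ?_ (R.lie H) ?_
    (Subring.closure (Set.range x)).topologicalClosure hSn hSf (Set.range x) ?_ D hD hsc
  · intro c hc
    obtain ⟨g, hg, hg1⟩ := hR'.deep_top hc
    have h1 : (R.base T' hinj).NI (Ideal.span {c}) ≠ ⊥ := by
      intro h
      rw [h, Subgroup.mem_bot] at hg
      exact hg1 hg
    have h2 := normal_inter hR.pf.proP hR.pf.lift H _ hHn ((R.base T' hinj).NI_normal _) hH1 h1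
      hR.pf.nc
    obtain ⟨h, hh, hne⟩ := (Subgroup.bot_or_exists_ne_one _).resolve_left h2
    exact ⟨h, hh.1, hh.2, hne⟩
  · intro d' g hg hgd
    by_cases hd : (p : T') ^ 2 * d' = 0
    · rw [hd, Rep.mem_NI_span] at hgd
      obtain ⟨y, hy⟩ := hgd
      refine ⟨0, 0, zero_mem _, ?_⟩
      rw [hy, zero_smul, smul_zero, smul_zero, add_zero, add_zero]
    · obtain ⟨X, hX⟩ := Rep.exists_Lg (R := R) hg
      have hX' := hX.base hinj
      obtain ⟨y, hy⟩ := hX'.level (Dvd.intro _ rfl) hgd
      obtain ⟨z, hz⟩ := hX'.expand (c := d') (y := y) (by rw [hy])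
      refine ⟨y, z, ?_, hz⟩
      have h1 := hX.mem_lie hg
      rw [hy] at h1
      have h2 : (((((p : T') ^ 2 * d') • y : (R.base T' hinj).A)) : Matrix (Fin n) (Fin n) Ω)
          = (algebraMap T' Ω ((p : T') ^ 2 * d')) • (y : Matrix (Fin n) (Fin n) Ω) := by
        rw [algebraMap_smul]
        rfl
      rw [h2] at h1
      have h3 : algebraMap T' Ω ((p : T') ^ 2 * d') ≠ 0 := by
        intro h
        exact hd (hinj (by rw [h, map_zero]))
      exact (Submodule.smul_mem_iff _ h3).1 h1
  · intro s hs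
    exact hs

end MP35
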