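import Pool.Agent.Lib_MP_3538b5_al.FCoreP
import Pool.Agent.Lib_MP_3538b5_al.ZCore
import Pool.Agent.Lib_MP_3538b5_al.RFinal

/-! # The theorem: non-abelian free pro-`p` groups are not linear over commutative profinite rings -/

set_option autoImplicit false

namespace MP35

universe u v w

/-- there is no core situation -/
theorem noCore (p : ℕ) [hp : Fact p.Prime] : NoCore.{u, v} p := by
  intro n k G _ _ _ _ _ _ T _ _ _ _ Ω _ _ _ R hR
  rcases R.char_cases with h | h
  · exact core_zero hR
  · exact core_p hR

/-- identity form, with continuity of the homomorphism to `GL (Fin n) R` expressed by its entries -/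
theorem exists_identity_all {p : ℕ} [hp : Fact p.Prime] {F : Type u} [Group F] [TopologicalSpace F]
    [IsTopologicalGroup F] [CompactSpace F] [T2Space F] [TotallyDisconnectedSpace F] {S : Type w}
    {e : S → F} (hF : IsFreeProP p e) (hS : Nontrivial S) (n : ℕ) :
    ∃ w : F, w ≠ 1 ∧ ∀ (R : Type v) [CommRing R] [TopologicalSpace R]
      [IsTopologicalRing R] [CompactSpace R] [T2Space R] [TotallyDisconnectedSpace R]
      (ρ : F →* GL (Fin n) R), Continuous (fun g => (ρ g : Matrix (Fin n) (Fin n) R)) → ρ w = 1 :=
  exists_identity_n (noCore p) hF hS n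

end MP35
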