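import Pool.Agent.Lib_MP_3538b5_al.QGood
import Pool.Agent.Lib_MP_3538b5_al.RFinOver

/-! # Piece QAUT: the Frobenius automorphism and the group `Gam` -/

set_option autoImplicit false

namespace MP35

universe u v w x y

variable {p : ℕ} [Fact p.Prime] {T : Type v} [CommRing T] [TopologicalSpace T] [CNR T] [IsDomain T]
  {Ω : Type v} [Field Ω] [IsAlgClosed Ω] [CharP Ω p] [Algebra T Ω]

/-- powers of topologically nilpotent elements -/
theorem tn_pow_QA {T : Type v} [CommRing T] [TopologicalSpace T] {t : T}
    (ht : IsTopologicallyNilpotent t) {m : ℕ} (hm : 0 < m) : IsTopologicallyNilpotent (t ^ m) := by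
  unfold IsTopologicallyNilpotent at ht ⊢
  have h1 : (fun n : ℕ => (t ^ m) ^ n) = (fun n : ℕ => t ^ n) ∘ fun n : ℕ => m * n := by
    funext n
    simp only [Function.comp, ← pow_mul]
  rw [h1]
  exact ht.comp (Filter.tendsto_id.const_mul_atTop' hm)

/-- PROOF. Apply `finite_over` (RFinOver) to the set `X` of all `t ^ p`, `t` topologically nilpotent (`p = 0` in `T`; a prime ideal containing `t ^ p` contains `t`): `T` is finite over a closed subring generated by finitely many `x_i = t_i ^ p`. The set of all `t ^ p` is a closed subring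
(image of the compact ring `T` under the continuous `frobenius T p`) containing the `x_i`, so it contains this subring, and `T` is finite over it; the map `T → (frobenius T p).range` is surjective, so finite. -/
theorem frob_finite [CharP T p] : (frobenius T p).Finite := by
  have hp0 : (p : T) = 0 := CharP.cast_eq_zero T p
  have hp : IsTopologicallyNilpotent (p : T) := by
    rw [hp0]
    exact IsTopologicallyNilpotent.zero
  have hpp : 0 < p := (Fact.out : p.Prime).pos
  let X : Set T := {y | ∃ t : T, IsTopologicallyNilpotent t ∧ y = t ^ p}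
  obtain ⟨m, x, hxX, -, hfin⟩ := finite_over hp X
    (by
      rintro _ ⟨t, ht, rfl⟩
      exact tn_pow_QA ht hpp)
    (by
      intro Q hQ _ hXQ t ht
      exact hQ.mem_of_pow_mem p (hXQ ⟨t, ht, rfl⟩))
  have hcont : Continuous (frobenius T p) := by
    show Continuous fun t : T => t ^ p
    exact continuous_pow p
  have hcl : IsClosed ((frobenius T p).range : Set T) := by
    rw [RingHom.coe_range]
    exact (isCompact_range hcont).isClosed
  have hle : (Subring.closure (Set.range x)).topologicalClosure ≤ (frobenius T p).range := by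
    refine Subring.topologicalClosure_minimal _ ?_ hcl
    rw [Subring.closure_le]
    rintro _ ⟨i, rfl⟩
    obtain ⟨t, -, ht⟩ := hxX i
    exact ⟨t, ht.symm⟩
  have h1 : ((Subring.closure (Set.range x)).topologicalClosure.subtype).Finite :=
    RingHom.finite_algebraMap.2 hfin
  have h2 : ((frobenius T p).range.subtype).Finite := by
    refine RingHom.Finite.of_comp_finite (f := Subring.inclusion hle) ?_
    exact h1
  have h3 : ((frobenius T p).rangeRestrict).Finite :=
    RingHom.Finite.of_surjective _ (frobenius T p).rangeRestrict_surjective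
  have h4 : frobenius T p = ((frobenius T p).range.subtype).comp (frobenius T p).rangeRestrict :=
    RingHom.ext fun _ => rfl
  rw [h4]
  exact h2.comp h3

/-- PROOF. `x ↦ x ^ p` maps every `B` to itself and is continuous (topological ring `IsModuleTopology.isTopologicalRing`). -/
theorem ctsAut_frob : CtsAut T (FrobA p Ω) := by
  intro B hB
  let _ : TopologicalSpace B := moduleTopology T B
  have m1 : IsModuleTopology T B := ⟨rfl⟩
  have t1 : IsTopologicalRing B := IsModuleTopology.isTopologicalRing T B
  refine ⟨B, hB, fun b hb => ?_, ?_⟩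
  · rw [FrobA_apply]
    exact pow_mem hb p
  · have h1 : Continuous fun b : B => b ^ p := continuous_pow p
    exact h1

/-- PROOF. `ctsAut_of_link` for `S = T`, `φ = (algebraMap T Ω).comp (frobenius T p)`, `ψ = algebraMap T Ω` (`goodHom_algebraMap`): `Frob⁻¹ (φ t) = ψ t`. `φ` is a `GoodHom`: `B = ⊥`, the map `T → ⊥` is the composition of the finite continuous map `frobenius T p` (`frob_finite`) and the surjection `T → ⊥`. -/
theorem ctsAut_frob_inv (h : Function.Injective (algebraMap T Ω)) : CtsAut T (FrobA p Ω)⁻¹ := by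
  have hT : CharP T p := (algebraMap T Ω).charP h p
  obtain ⟨B, hB, h', hc, hf⟩ := (goodHom_algebraMap h).ex
  have hcont : Continuous (frobenius T p) := by
    show Continuous fun t : T => t ^ p
    exact continuous_pow p
  have hφ : GoodHom T ((algebraMap T Ω).comp (frobenius T p)) := by
    refine ⟨h, h.comp (frobenius_inj T p), B, hB, fun t => h' _, ?_, ?_⟩
    · let _ : TopologicalSpace B := moduleTopology T B
      exact hc.comp hcont
    · exact hf.comp frob_finite
  refine ctsAut_of_link hφ (goodHom_algebraMap h) _ fun t => ?_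
  show (FrobA p Ω).symm ((algebraMap T Ω) (t ^ p)) = algebraMap T Ω t
  rw [RingEquiv.symm_apply_eq, FrobA_apply, map_pow]

/-- PROOF. `Frob μ = μ ^ p` (`SatL.pow`), `(Frob⁻¹ μ) ^ p = μ` (`SatL.of_pow`), `ctsAut_frob`, `ctsAut_frob_inv R.tinj`. -/
theorem frobA_mem_Gam {G : Type u} [Group G] [TopologicalSpace G] {n : ℕ} (R : Rep p G T Ω n) :
    FrobA p Ω ∈ Gam R := by
  rw [mem_Gam]
  refine ⟨⟨ctsAut_frob, ?_⟩, ctsAut_frob_inv R.tinj, ?_⟩
  · intro g μ hμ
    rw [FrobA_apply]
    exact (SatL.of_root R hμ).pow p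
  · intro g μ hμ
    refine SatL.of_pow (Fact.out : p.Prime).pos ?_
    have e : ((FrobA p Ω)⁻¹ μ) ^ p = μ := by
      rw [← FrobA_apply]
      exact (FrobA p Ω).apply_symm_apply μ
    rw [e]
    exact SatL.of_root R hμ

/-- PROOF. `ctsAut_of_link` for `s` and for `s⁻¹` (`s⁻¹ (ψ x) = φ x`). -/
theorem mem_Gam_of_link {G : Type u} [Group G] [TopologicalSpace G] {n : ℕ} (R : Rep p G T Ω n)
    {S : Type x} [CommRing S] [TopologicalSpace S] [CompactSpace S] {φ ψ : S →+* Ω}
    (hφ : GoodHom T φ) (hψ : GoodHom T ψ)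
    (h1 : ∀ s : RingAut Ω, (∀ x, s (φ x) = ψ x) → SatAut R s)
    (h2 : ∀ s : RingAut Ω, (∀ x, s (ψ x) = φ x) → SatAut R s) {s : RingAut Ω}
    (h : ∀ x, s (φ x) = ψ x) : s ∈ Gam R := by
  rw [mem_Gam]
  have h' : ∀ x, s⁻¹ (ψ x) = φ x := by
    intro x
    show s.symm (ψ x) = φ x
    rw [RingEquiv.symm_apply_eq, h]
  exact ⟨⟨ctsAut_of_link hφ hψ s h, h1 s h⟩, ctsAut_of_link hψ hφ s⁻¹ h', h2 s⁻¹ h'⟩

end MP35
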