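import Pool.Agent.Lib_MP_3538b5_al.QDefs
import Pool.Agent.Lib_MP_3538b5_al.RLoc

/-! # Piece QGOOD: good homomorphisms -/

set_option autoImplicit false

namespace MP35

universe u v w x y

variable {T : Type v} [CommRing T] [TopologicalSpace T] [CNR T] {Ω : Type v} [Field Ω]
  [Algebra T Ω] {S : Type x} [CommRing S] [TopologicalSpace S]

/-- PROOF. `φ s` is in a finite `T`-subalgebra. -/
theorem GoodHom.isIntegral {φ : S →+* Ω} (hφ : GoodHom T φ) (s : S) : IsIntegral T (φ s) := by
  obtain ⟨B, hB, h, -⟩ := hφ.ex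
  exact (IsIntegral.of_finite T (⟨φ s, h s⟩ : B)).map B.val

/-- inclusions are continuous for the module topologies -/
theorem continuous_inclusion_QG {B₁ B₂ : Subalgebra T Ω} (h : B₁ ≤ B₂) :
    @Continuous B₁ B₂ (moduleTopology T B₁) (moduleTopology T B₂) (Subalgebra.inclusion h) := by
  let _ : TopologicalSpace B₁ := moduleTopology T B₁
  let _ : TopologicalSpace B₂ := moduleTopology T B₂
  have : IsModuleTopology T B₁ := ⟨rfl⟩
  have : IsModuleTopology T B₂ := ⟨rfl⟩
  have := IsModuleTopology.toContinuousAdd T B₂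
  exact IsModuleTopology.continuous_of_linearMap (Subalgebra.inclusion h).toLinearMap

theorem finite_inclusion_QG {B₁ B₂ : Subalgebra T Ω} (h : B₁ ≤ B₂) [hB : Module.Finite T B₂] :
    (Subalgebra.inclusion h : B₁ →ₐ[T] B₂).toRingHom.Finite := by
  refine RingHom.Finite.of_comp_finite (f := algebraMap T B₁) ?_
  have e : (Subalgebra.inclusion h : B₁ →ₐ[T] B₂).toRingHom.comp (algebraMap T B₁) =
      algebraMap T B₂ := RingHom.ext fun t => rfl
  rw [e, RingHom.finite_algebraMap]
  exact hB

/-- PROOF. Let `B₁` be the subalgebra of `hφ.ex`, `B = B₀ ⊔ B₁` (finite over `T`: `Subalgebra.finite_sup`). `B` is finite over `B₁` (a finite family generating `B` over `T` generates it over `B₁`), so over `S` (`RingHom.Finite.comp`); the inclusion `B₁ → B` is continuous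
(`IsModuleTopology.continuous_of_linearMap`). -/
theorem GoodHom.exists_ge {φ : S →+* Ω} (hφ : GoodHom T φ) (B₀ : Subalgebra T Ω)
    (hB₀ : Module.Finite T B₀) : ∃ B : Subalgebra T Ω, B₀ ≤ B ∧ Module.Finite T B ∧
      ∃ h : ∀ s, φ s ∈ B, @Continuous S B _ (moduleTopology T B) (φ.codRestrict B h) ∧
        (φ.codRestrict B h).Finite := by
  obtain ⟨B₁, hB₁, h₁, hc, hf⟩ := hφ.ex
  have hB : Module.Finite T ↥(B₀ ⊔ B₁) := Subalgebra.finite_sup B₀ B₁
  have hle : B₁ ≤ B₀ ⊔ B₁ := le_sup_right
  refine ⟨B₀ ⊔ B₁, le_sup_left, hB, fun s => hle (h₁ s), ?_, ?_⟩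
  · let _ : TopologicalSpace B₁ := moduleTopology T B₁
    let _ : TopologicalSpace ↥(B₀ ⊔ B₁) := moduleTopology T ↥(B₀ ⊔ B₁)
    exact (continuous_inclusion_QG hle).comp hc
  · exact (finite_inclusion_QG hle).comp hf

/-- PROOF. Let `B` be as in `hφ.ex`. Every element of `B`, in particular of (the image of) `T`, is integral over `S` (with the algebra structure `φ`), and `x` is algebraic over `T`; transitivity (`IsAlgebraic.tower`..., e.g. with the field `Subfield.closure (range φ)`: `x` is algebraic over the field generated by `T`, whose elements are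
algebraic over `Frac (φ S)`), and clear denominators (`IsFractionRing.isAlgebraic_iff`, or: `x` is algebraic over `integralClosure S Ω`, `Algebra.IsAlgebraic.trans`). -/
theorem GoodHom.algebraic [Algebra.IsAlgebraic T Ω] {φ : S →+* Ω} (hφ : GoodHom T φ) (x : Ω) :
    ∃ P : Polynomial S, P.map φ ≠ 0 ∧ P.eval₂ φ x = 0 := by
  have hT := hφ.tinj
  obtain ⟨B, hB, h, -, hf⟩ := hφ.ex
  have hS : IsDomain S := hφ.inj.isDomain φ
  let _ : Algebra S Ω := φ.toAlgebra
  have hS1 : FaithfulSMul S Ω := (faithfulSMul_iff_algebraMap_injective S Ω).2 hφ.inj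
  have hint : ∀ b ∈ B, IsIntegral S b := by
    intro b hb
    have h1 : (φ.codRestrict B h).IsIntegral := hf.to_isIntegral
    obtain ⟨P, hP, hPb⟩ := h1 ⟨b, hb⟩
    refine ⟨P, hP, ?_⟩
    have h2 := congrArg B.val.toRingHom hPb
    rw [Polynomial.hom_eval₂, map_zero] at h2
    exact h2
  have hx : IsAlgebraic S x := by
    -- `Ω` is algebraic over the integral closure
    have hTA : ∀ t : T, algebraMap T Ω t ∈ integralClosure S Ω := fun t =>
      hint _ (B.algebraMap_mem t)
    have h3 : IsAlgebraic (integralClosure S Ω) x := by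
      obtain ⟨P, hP, hPx⟩ := Algebra.IsAlgebraic.isAlgebraic (R := T) x
      let ι : T →+* integralClosure S Ω := (algebraMap T Ω).codRestrict _ hTA
      have hι : Function.Injective ι := fun a b hab => hT (congrArg Subtype.val hab)
      refine ⟨P.map ι, (Polynomial.map_ne_zero_iff hι).2 hP, ?_⟩
      rw [Polynomial.aeval_def, Polynomial.eval₂_map]
      exact hPx
    exact h3.restrictScalars_of_isIntegral S
  obtain ⟨P, hP, hPx⟩ := hx
  exact ⟨P, (Polynomial.map_ne_zero_iff hφ.inj).2 hP, hPx⟩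


private theorem cts_link_QG [CompactSpace S] {φ ψ : S →+* Ω} (s : RingAut Ω)
    (h : ∀ x, s (φ x) = ψ x) {B B' : Subalgebra T Ω} [Module.Finite T B] [TopologicalSpace B]
    [IsModuleTopology T B] [Module.Finite T B'] [TopologicalSpace B'] [IsModuleTopology T B']
    (hB : ∀ x, φ x ∈ B) (hBc : Continuous (φ.codRestrict B hB))
    (hB' : ∀ x, ψ x ∈ B') (hB'c : Continuous (ψ.codRestrict B' hB')) {r : ℕ} (b : Fin r → B)
    (hb : ∀ y : B, ∃ c : Fin r → S, y = ∑ i, φ.codRestrict B hB (c i) * b i)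
    (hsb : ∀ i, s (b i) ∈ B') :
    ∃ h' : ∀ y : B, s y ∈ B', Continuous fun y : B => (⟨s y, h' y⟩ : B') := by
  have t1 : IsTopologicalRing B := IsModuleTopology.isTopologicalRing T B
  have t2 : IsTopologicalRing B' := IsModuleTopology.isTopologicalRing T B'
  have t3 : T2Space B := t2_of_finite T B
  let q : (Fin r → S) → B := fun c => ∑ i, φ.codRestrict B hB (c i) * b i
  have hq : Continuous q := by
    refine continuous_finsetSum _ fun i _ => ?_
    exact (hBc.comp (continuous_apply i)).mul continuous_const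
  have hqs : Function.Surjective q := fun y => by
    obtain ⟨c, hc⟩ := hb y
    exact ⟨c, hc.symm⟩
  have hqq : Topology.IsQuotientMap q := hq.isClosedMap.isQuotientMap hq hqs
  let q' : (Fin r → S) → B' := fun c => ∑ i, ψ.codRestrict B' hB' (c i) * ⟨s (b i), hsb i⟩
  have hq' : Continuous q' := by
    refine continuous_finsetSum _ fun i _ => ?_
    exact (hB'c.comp (continuous_apply i)).mul continuous_const
  have hqq' : ∀ c, s (q c) = q' c := by
    intro c
    simp only [q, q', AddSubmonoidClass.coe_finsetSum, map_sum, MulMemClass.coe_mul, map_mul]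
    refine Finset.sum_congr rfl fun i _ => ?_
    have : ((φ.codRestrict B hB (c i) : B) : Ω) = φ (c i) := rfl
    rw [this, h]
    rfl
  have h' : ∀ y : B, s y ∈ B' := by
    intro y
    obtain ⟨c, rfl⟩ := hqs y
    rw [hqq']
    exact (q' c).2
  refine ⟨h', ?_⟩
  rw [hqq.continuous_iff]
  have e : (fun y : B => (⟨s y, h' y⟩ : B')) ∘ q = q' := by
    funext c
    exact Subtype.ext (hqq' c)
  rw [e]
  exact hq'

/-- PROOF. Let `B₀` be a finite `T`-subalgebra and `B ≥ B₀` as in `hφ.exists_ge`; it suffices to treat `B` (restrict along the continuous inclusion). Let `b_1, …, b_r` generate `B` over `S` via `φ`. The map `q : S ^ r → B`, `(s_i) ↦ Σ φ (s_i) b_i`, is continuous and surjective from a compact to a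
Hausdorff space (`t2_of_finite`), so a quotient map. `s b_i` is integral over `ψ (S)` (apply `s` to an integral equation of `b_i` over `φ (S)`), and `ψ S` is in the finite algebra `B_ψ`, so `s b_i` is integral over `T`. Let `B'` be the finite `T`-algebra generated by `B_ψ` and the `s b_i`. `s (Σ φ (s_i) b_i) = Σ ψ (s_i) s (b_i) ∈ B'`,
and `s ∘ q` is continuous, so `s : B → B'` is continuous. -/
theorem ctsAut_of_link [CompactSpace S] {φ ψ : S →+* Ω} (hφ : GoodHom T φ) (hψ : GoodHom T ψ)
    (s : RingAut Ω) (h : ∀ x, s (φ x) = ψ x) : CtsAut T s := by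
  intro B₀ hB₀
  obtain ⟨B, hle, hB, hφB, hφc, hφf⟩ := hφ.exists_ge B₀ hB₀
  obtain ⟨Bψ, hBψ, hψB, hψc, -⟩ := hψ.ex
  obtain ⟨r, b, hb⟩ : ∃ (r : ℕ) (b : Fin r → B), ∀ y : B, ∃ c : Fin r → S,
      y = ∑ i, φ.codRestrict B hφB (c i) * b i := by
    let _ : Algebra S B := (φ.codRestrict B hφB).toAlgebra
    have hf : Module.Finite S B := hφf
    obtain ⟨r, b, hb⟩ := Module.Finite.exists_fin (R := S) (M := B)
    refine ⟨r, b, fun y => ?_⟩
    have hy : y ∈ Submodule.span S (Set.range b) := by rw [hb]; trivial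
    obtain ⟨c, hc⟩ := (Submodule.mem_span_range_iff_exists_fun S).1 hy
    exact ⟨c, hc.symm⟩
  have hint : ∀ i, IsIntegral T (s (b i)) := by
    intro i
    obtain ⟨P, hP, hPb⟩ := hφf.to_isIntegral (b i)
    have h2 := congrArg B.val.toRingHom hPb
    rw [Polynomial.hom_eval₂, map_zero] at h2
    have h3 : Polynomial.eval₂ φ ((b i : B) : Ω) P = 0 := h2
    have h4 := congrArg (s : Ω →+* Ω) h3
    rw [Polynomial.hom_eval₂, map_zero] at h4
    have e1 : (s : Ω →+* Ω).comp φ = ψ := RingHom.ext h
    rw [e1] at h4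
    have hψi : ∀ x, ψ x ∈ integralClosure T Ω := fun x => hψ.isIntegral x
    let ψ' : S →+* integralClosure T Ω := ψ.codRestrict _ hψi
    have h5 : IsIntegral (integralClosure T Ω) (s (b i)) := by
      refine ⟨P.map ψ', hP.map _, ?_⟩
      rw [Polynomial.eval₂_map]
      exact h4
    exact isIntegral_trans _ h5
  let B₁ : Subalgebra T Ω := Algebra.adjoin T (Set.range fun i => s (b i))
  have hB₁ : Module.Finite T B₁ := by
    have := fg_adjoin_of_finite (R := T) (Set.finite_range fun i => s ((b i : B) : Ω))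
      (by rintro _ ⟨i, rfl⟩; exact hint i)
    exact Module.Finite.iff_fg.2 this
  have hB' : Module.Finite T ↥(Bψ ⊔ B₁) := Subalgebra.finite_sup Bψ B₁
  let _ : TopologicalSpace B₀ := moduleTopology T B₀
  let _ : TopologicalSpace B := moduleTopology T B
  let _ : TopologicalSpace Bψ := moduleTopology T Bψ
  let _ : TopologicalSpace ↥(Bψ ⊔ B₁) := moduleTopology T ↥(Bψ ⊔ B₁)
  have m1 : IsModuleTopology T B := ⟨rfl⟩
  have m2 : IsModuleTopology T ↥(Bψ ⊔ B₁) := ⟨rfl⟩
  have hψB' : ∀ x, ψ x ∈ Bψ ⊔ B₁ := fun x => le_sup_left (a := Bψ) (hψB x)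
  have hψc' : Continuous (ψ.codRestrict (Bψ ⊔ B₁) hψB') :=
    (continuous_inclusion_QG (le_sup_left (a := Bψ) (b := B₁))).comp hψc
  have hsb : ∀ i, s (b i) ∈ Bψ ⊔ B₁ := fun i =>
    le_sup_right (a := Bψ) (Algebra.subset_adjoin ⟨i, rfl⟩)
  obtain ⟨h', hc'⟩ := cts_link_QG s h hφB hφc hψB' hψc' b hb hsb
  refine ⟨Bψ ⊔ B₁, hB', fun y hy => h' ⟨y, hle hy⟩, ?_⟩
  exact hc'.comp (continuous_inclusion_QG hle)

/-- PROOF. `B = ⊥`, the image of `T`, a finite `T`-module; `T → B` is `T`-linear, surjective and continuous. -/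
theorem goodHom_algebraMap (h : Function.Injective (algebraMap T Ω)) :
    GoodHom T (algebraMap T Ω) := by
  refine ⟨h, h, ⊥, inferInstance, fun t => Subalgebra.algebraMap_mem _ t, ?_, ?_⟩
  · let _ : TopologicalSpace (⊥ : Subalgebra T Ω) := moduleTopology T (⊥ : Subalgebra T Ω)
    have m1 : IsModuleTopology T (⊥ : Subalgebra T Ω) := ⟨rfl⟩
    have := IsModuleTopology.toContinuousAdd T (⊥ : Subalgebra T Ω)
    exact IsModuleTopology.continuous_of_linearMap (Algebra.linearMap T (⊥ : Subalgebra T Ω))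
  · exact RingHom.finite_algebraMap.2 (inferInstance : Module.Finite T (⊥ : Subalgebra T Ω))

/-- PROOF. `S` is infinite: otherwise the ring `B` of `hφ.ex`, finite over `S`, is finite, and so is `T`. In a compact noetherian domain every element is a unit or topologically nilpotent (`isUnit_or_tn`); if `0` is the only topologically nilpotent element then `{0}` is the maximal ideal, which is open
(`isLocalRing_of_cnr`, `isOpen_maximalIdeal`), so `S` is discrete and compact, so finite. Let `x ≠ 0` be topologically nilpotent; `φ x ≠ 0`, and `(φ x) ^ m = 1` gives `x ^ m = 1`, `x` is a unit, contradiction to `not_isUnit_of_tn`. -/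
theorem GoodHom.exists_inf [Infinite T] (hT : Function.Injective (algebraMap T Ω)) [CNR S]
    [IsDomain S] {φ : S →+* Ω} (hφ : GoodHom T φ) :
    ∃ x, IsTopologicallyNilpotent x ∧ φ x ≠ 0 ∧ ∀ m : ℕ, 0 < m → φ x ^ m ≠ 1 := by
  obtain ⟨B, hB, hφB, -, hφf⟩ := hφ.ex
  have hS : Infinite S := by
    rw [← not_finite_iff_infinite]
    intro hS
    let _ : Algebra S B := (φ.codRestrict B hφB).toAlgebra
    have hf : Module.Finite S B := hφf
    have hBf : Finite B := Module.finite_of_finite S
    have hinj : Function.Injective (algebraMap T B) := fun a b hab =>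
      hT (congrArg Subtype.val hab)
    exact (Infinite.of_injective _ hinj).not_finite hBf
  have hloc : IsLocalRing S := isLocalRing_of_cnr S
  have hex : ∃ x ∈ IsLocalRing.maximalIdeal S, x ≠ 0 := by
    by_contra hcon
    push Not at hcon
    have h0 : (IsLocalRing.maximalIdeal S : Set S) = {0} := by
      ext x
      exact ⟨fun hx => hcon x hx, fun hx => by rw [hx]; exact zero_mem _⟩
    have h1 : IsOpen ({0} : Set S) := h0 ▸ isOpen_maximalIdeal
    have h2 : DiscreteTopology S := discreteTopology_of_isOpen_singleton_zero h1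
    have h3 : Finite S := finite_of_compact_of_discrete
    exact hS.not_finite h3
  obtain ⟨x, hx, hx0⟩ := hex
  refine ⟨x, mem_maximalIdeal_iff.1 hx, fun h => hx0 (hφ.inj (by rw [h, map_zero])), ?_⟩
  intro m hm h
  rw [← map_pow] at h
  have h1 : x ^ m = 1 := hφ.inj (by rw [h, map_one])
  exact (IsLocalRing.mem_maximalIdeal x).1 hx (IsUnit.of_pow_eq_one h1 hm.ne')

end MP35
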