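import Mathlib

/-! # Piece QLIN: Dedekind's lemma, Taylor expansion with a valuation, linear functionals -/

set_option autoImplicit false

namespace MP35

universe u v w x y

/-- PROOF. The characters `χ i` are linearly independent as functions `M → Ω` (`linearIndependent_monoidHom`). The vectors `(χ i s)_i`, `s ∈ M`, span `ι → Ω`: otherwise there is a nonzero linear form on `ι → Ω` which kills all of them, a linear relation between the `χ i`. So every `Pi.single i 1` is a combination of finitely many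
of these vectors; take all the points used for all `i` together. -/
theorem exists_dual_points {M : Type x} [Monoid M] {Ω : Type v} [Field Ω] {ι : Type w} [Fintype ι]
    [DecidableEq ι] (χ : ι → M →* Ω) (hχ : Function.Injective χ) :
    ∃ (r : ℕ) (s : Fin r → M) (c : ι → Fin r → Ω),
      ∀ i i', ∑ b, c i b * χ i' (s b) = if i' = i then 1 else 0 := by
  classical
  have hli : LinearIndependent Ω (fun i : ι => (χ i : M → Ω)) :=
    (linearIndependent_monoidHom M Ω).comp χ hχ
  let v : M → (ι → Ω) := fun s i => χ i s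
  have hspan : Submodule.span Ω (Set.range v) = ⊤ := by
    by_contra hne
    obtain ⟨f, hf0, hf⟩ := Submodule.exists_le_ker_of_lt_top _ (lt_top_iff_ne_top.mpr hne)
    apply hf0
    have h1 : ∀ y : ι → Ω, f y = ∑ i, y i * f (Pi.single i 1) := by
      intro y
      conv_lhs => rw [← Finset.univ_sum_single y]
      rw [map_sum]
      refine Finset.sum_congr rfl fun i _ => ?_
      have h2 : (Pi.single i (y i) : ι → Ω) = y i • (Pi.single i (1 : Ω) : ι → Ω) := by
        rw [← Pi.single_smul, smul_eq_mul, mul_one]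
      rw [h2, map_smul, smul_eq_mul]
    have h3 : ∀ s : M, ∑ i, χ i s * f (Pi.single i 1) = 0 := by
      intro s
      rw [← h1 (v s)]
      exact hf (Submodule.subset_span ⟨s, rfl⟩)
    have h4 : ∀ i, f (Pi.single i 1) = 0 := by
      apply Fintype.linearIndependent_iff.mp hli (fun i => f (Pi.single i 1))
      funext s
      rw [Finset.sum_apply]
      rw [Pi.zero_apply, ← h3 s]
      refine Finset.sum_congr rfl fun i _ => ?_
      rw [Pi.smul_apply, smul_eq_mul, mul_comm]
    apply LinearMap.ext
    intro y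
    rw [h1 y, LinearMap.zero_apply]
    exact Finset.sum_eq_zero fun i _ => by rw [h4 i, mul_zero]
  have hc : ∀ i : ι, ∃ c : M →₀ Ω, (c.sum fun s a => a • v s) = Pi.single i (1 : Ω) := by
    intro i
    apply Finsupp.mem_span_range_iff_exists_finsupp.mp
    rw [hspan]
    exact Submodule.mem_top
  choose c hc using hc
  let S : Finset M := Finset.univ.biUnion fun i => (c i).support
  refine ⟨S.card, fun b => (S.equivFin.symm b : M), fun i b => c i (S.equivFin.symm b : M), ?_⟩
  intro i i'
  have h5 : ∑ b : Fin S.card, c i (S.equivFin.symm b : M) * χ i' (S.equivFin.symm b : M)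
      = ∑ x : S, c i (x : M) * χ i' (x : M) :=
    Equiv.sum_comp S.equivFin.symm fun x : S => c i (x : M) * χ i' (x : M)
  rw [h5, Finset.sum_coe_sort S fun x => c i x * χ i' x]
  have h6 := congrFun (hc i) i'
  rw [Finsupp.sum, Finset.sum_apply, Pi.single_apply] at h6
  rw [← h6]
  symm
  refine Finset.sum_subset_zero_on_sdiff ?_ ?_ ?_
  · intro x hx
    exact Finset.mem_biUnion.mpr ⟨i, Finset.mem_univ _, hx⟩
  · intro x hx
    rw [Finset.mem_sdiff, Finsupp.notMem_support_iff] at hx
    rw [hx.2, zero_mul]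
  · intro x hx
    rfl

private theorem natCast_le_one_QLIN {Ω : Type v} [Field Ω]
    {Γ₀ : Type y} [LinearOrderedCommGroupWithZero Γ₀] (ν : Valuation Ω Γ₀) (n : ℕ) :
    ν (n : Ω) ≤ 1 := by
  induction n with
  | zero => rw [Nat.cast_zero, map_zero]; exact zero_le_one
  | succ n ih =>
    rw [Nat.cast_succ]
    exact (ν.map_add _ _).trans (max_le ih (by rw [map_one]))

private theorem algebraMap_le_one_QLIN {p : ℕ} [Fact p.Prime] {Ω : Type v} [Field Ω]
    [Algebra (ZMod p) Ω] {Γ₀ : Type y} [LinearOrderedCommGroupWithZero Γ₀] (ν : Valuation Ω Γ₀)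
    (c : ZMod p) : ν (algebraMap (ZMod p) Ω c) ≤ 1 := by
  have h : algebraMap (ZMod p) Ω c = ((c.val : ℕ) : Ω) := by
    rw [← map_natCast (algebraMap (ZMod p) Ω), ZMod.natCast_zmod_val]
  rw [h]
  exact natCast_le_one_QLIN ν _

private theorem aeval_le_one_QLIN {p : ℕ} [Fact p.Prime] {Ω : Type v} [Field Ω]
    [Algebra (ZMod p) Ω] {Γ₀ : Type y} [LinearOrderedCommGroupWithZero Γ₀] (ν : Valuation Ω Γ₀)
    {ι : Type w} (P : MvPolynomial ι (ZMod p)) (a : ι → Ω) (ha : ∀ i, ν (a i) ≤ 1) :
    ν (MvPolynomial.aeval a P) ≤ 1 := by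
  induction P using MvPolynomial.induction_on with
  | C c =>
    rw [MvPolynomial.aeval_C]
    exact algebraMap_le_one_QLIN ν c
  | add P Q hP hQ =>
    rw [map_add]
    exact (ν.map_add _ _).trans (max_le hP hQ)
  | mul_X P i hP =>
    rw [map_mul, MvPolynomial.aeval_X, map_mul]
    exact mul_le_one' hP (ha i)

/-- PROOF. `MvPolynomial.induction_on`. For `P = C c` and sums clear (the images of `ZMod p` have valuation `≤ 1`, because they are sums of ones). For `P * X i`, with `A = P (a + ε)`, `A₀ = P a`, `D = ∑ l, (pderiv l P) a * ε l`: `A (a i + ε i) - A₀ a i - (D a i + A₀ ε i) = (A - A₀ - D) (a i + ε i) + D ε i`. -/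
theorem taylor_bound_aux {p : ℕ} [Fact p.Prime] {Ω : Type v} [Field Ω] [Algebra (ZMod p) Ω]
    {Γ₀ : Type y} [LinearOrderedCommGroupWithZero Γ₀] (ν : Valuation Ω Γ₀) {ι : Type w} [Fintype ι]
    (P : MvPolynomial ι (ZMod p)) (a ε : ι → Ω) (ha : ∀ i, ν (a i) ≤ 1) {μ : Γ₀} (hμ : μ ≤ 1)
    (hε : ∀ i, ν (ε i) ≤ μ) :
    ν (MvPolynomial.aeval a P) ≤ 1 ∧
    ν (MvPolynomial.aeval (fun i => a i + ε i) P - MvPolynomial.aeval a P
      - ∑ i, MvPolynomial.aeval a (MvPolynomial.pderiv i P) * ε i) ≤ μ ^ 2 := by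
  classical
  refine ⟨aeval_le_one_QLIN ν P a ha, ?_⟩
  induction P using MvPolynomial.induction_on with
  | C c =>
    have h1 : ∑ i, MvPolynomial.aeval a (MvPolynomial.pderiv i (MvPolynomial.C c : MvPolynomial ι (ZMod p))) * ε i = 0 :=
      Finset.sum_eq_zero fun i _ => by rw [MvPolynomial.pderiv_C, map_zero, zero_mul]
    rw [h1, MvPolynomial.aeval_C, MvPolynomial.aeval_C, sub_self, sub_zero, map_zero]
    exact zero_le'
  | add P Q hP hQ =>
    have h1 : MvPolynomial.aeval (fun i => a i + ε i) (P + Q) - MvPolynomial.aeval a (P + Q)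
        - ∑ i, MvPolynomial.aeval a (MvPolynomial.pderiv i (P + Q)) * ε i
        = (MvPolynomial.aeval (fun i => a i + ε i) P - MvPolynomial.aeval a P
        - ∑ i, MvPolynomial.aeval a (MvPolynomial.pderiv i P) * ε i)
        + (MvPolynomial.aeval (fun i => a i + ε i) Q - MvPolynomial.aeval a Q
        - ∑ i, MvPolynomial.aeval a (MvPolynomial.pderiv i Q) * ε i) := by
      have h2 : ∑ i, MvPolynomial.aeval a (MvPolynomial.pderiv i (P + Q)) * ε i
          = ∑ i, MvPolynomial.aeval a (MvPolynomial.pderiv i P) * ε i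
          + ∑ i, MvPolynomial.aeval a (MvPolynomial.pderiv i Q) * ε i := by
        rw [← Finset.sum_add_distrib]
        refine Finset.sum_congr rfl fun i _ => ?_
        rw [map_add, map_add, add_mul]
      rw [h2, map_add, map_add]
      ring
    rw [h1]
    exact (ν.map_add _ _).trans (max_le hP hQ)
  | mul_X P j hP =>
    have h2 : ∑ i, MvPolynomial.aeval a (MvPolynomial.pderiv i (P * MvPolynomial.X j)) * ε i
        = (∑ i, MvPolynomial.aeval a (MvPolynomial.pderiv i P) * ε i) * a j
        + MvPolynomial.aeval a P * ε j := by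
      have h3 : ∀ i, MvPolynomial.aeval a (MvPolynomial.pderiv i (P * MvPolynomial.X j)) * ε i
          = MvPolynomial.aeval a (MvPolynomial.pderiv i P) * ε i * a j
          + (if i = j then MvPolynomial.aeval a P * ε j else 0) := by
        intro i
        rw [Derivation.leibniz, smul_eq_mul, smul_eq_mul, map_add, map_mul, map_mul,
          MvPolynomial.aeval_X, MvPolynomial.pderiv_X]
        by_cases hij : i = j
        · subst hij
          rw [Pi.single_eq_same, map_one, if_pos rfl]
          ring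
        · rw [Pi.single_eq_of_ne (fun h => hij h.symm), map_zero, if_neg hij]
          ring
      rw [Finset.sum_congr rfl fun i _ => h3 i, Finset.sum_add_distrib, ← Finset.sum_mul,
        Finset.sum_ite_eq' Finset.univ j]
      rw [if_pos (Finset.mem_univ j)]
    have h1 : MvPolynomial.aeval (fun i => a i + ε i) (P * MvPolynomial.X j)
        - MvPolynomial.aeval a (P * MvPolynomial.X j)
        - ∑ i, MvPolynomial.aeval a (MvPolynomial.pderiv i (P * MvPolynomial.X j)) * ε i
        = (MvPolynomial.aeval (fun i => a i + ε i) P - MvPolynomial.aeval a P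
        - ∑ i, MvPolynomial.aeval a (MvPolynomial.pderiv i P) * ε i) * (a j + ε j)
        + (∑ i, MvPolynomial.aeval a (MvPolynomial.pderiv i P) * ε i) * ε j := by
      rw [h2, map_mul, map_mul, MvPolynomial.aeval_X, MvPolynomial.aeval_X]
      ring
    rw [h1]
    have hD : ν (∑ i, MvPolynomial.aeval a (MvPolynomial.pderiv i P) * ε i) ≤ μ := by
      apply ν.map_sum_le
      intro i _
      rw [map_mul]
      calc ν (MvPolynomial.aeval a (MvPolynomial.pderiv i P)) * ν (ε i) ≤ 1 * μ :=
            mul_le_mul' (aeval_le_one_QLIN ν _ a ha) (hε i)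
        _ = μ := one_mul μ
    refine (ν.map_add _ _).trans (max_le ?_ ?_)
    · rw [map_mul]
      have h4 : ν (a j + ε j) ≤ 1 := (ν.map_add _ _).trans (max_le (ha j) ((hε j).trans hμ))
      calc _ ≤ μ ^ 2 * 1 := mul_le_mul' hP h4
        _ = μ ^ 2 := mul_one _
    · rw [map_mul, pow_two]
      exact mul_le_mul' hD (hε j)

/-- PROOF. Replace `ε i` by `0` for `i ∉ P.vars`: `P (a + ε)` does not change (`MvPolynomial.eval₂Hom_congr'` or `MvPolynomial.aeval_eq_...` : the value depends only on the variables in `P.vars`), and `pderiv i P = 0` for `i ∉ P.vars` (`MvPolynomial.pderiv_eq_zero_of_notMem_vars`). Apply `taylor_bound_aux`. -/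
theorem taylor_bound {p : ℕ} [Fact p.Prime] {Ω : Type v} [Field Ω] [Algebra (ZMod p) Ω]
    {Γ₀ : Type y} [LinearOrderedCommGroupWithZero Γ₀] (ν : Valuation Ω Γ₀) {ι : Type w} [Fintype ι]
    (P : MvPolynomial ι (ZMod p)) (a ε : ι → Ω) (ha : ∀ i, ν (a i) ≤ 1) {μ : Γ₀} (hμ : μ ≤ 1)
    (hε : ∀ i ∈ P.vars, ν (ε i) ≤ μ) :
    ν (MvPolynomial.aeval (fun i => a i + ε i) P - MvPolynomial.aeval a P
      - ∑ i ∈ P.vars, MvPolynomial.aeval a (MvPolynomial.pderiv i P) * ε i) ≤ μ ^ 2 := by
  classical
  let ε' : ι → Ω := fun i => if i ∈ P.vars then ε i else 0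
  have hε' : ∀ i, ν (ε' i) ≤ μ := by
    intro i
    by_cases hi : i ∈ P.vars
    · have h1 : ε' i = ε i := if_pos hi
      rw [h1]
      exact hε i hi
    · have h1 : ε' i = 0 := if_neg hi
      rw [h1, map_zero]
      exact zero_le'
  have h1 := (taylor_bound_aux ν P a ε' ha hμ hε').2
  have h2 : MvPolynomial.aeval (fun i => a i + ε' i) P = MvPolynomial.aeval (fun i => a i + ε i) P := by
    show MvPolynomial.eval₂Hom _ _ P = MvPolynomial.eval₂Hom _ _ P
    refine MvPolynomial.eval₂Hom_congr' rfl ?_ rfl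
    intro i hi _
    have h3 : ε' i = ε i := if_pos hi
    rw [h3]
  have h4 : ∑ i, MvPolynomial.aeval a (MvPolynomial.pderiv i P) * ε' i
      = ∑ i ∈ P.vars, MvPolynomial.aeval a (MvPolynomial.pderiv i P) * ε i := by
    symm
    refine Finset.sum_subset_zero_on_sdiff (Finset.subset_univ _) ?_ ?_
    · intro i hi
      rw [Finset.mem_sdiff] at hi
      rw [MvPolynomial.pderiv_eq_zero_of_notMem_vars hi.2, map_zero, zero_mul]
    · intro i hi
      have h3 : ε' i = ε i := if_pos hi
      rw [h3]
  rw [h2, h4] at h1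
  exact h1

/-- PROOF. The span of the `ℓ i` in the dual space is everything: its coannihilator is `0` by `h` and the space is finite dimensional (`Subspace.dualCoannihilator`, `Subspace.finrank_dualCoannihilator_eq`...). So every `f b` is a finite combination of the `ℓ i`; take all the indices used for all `b` together. -/
theorem exists_combination {Ω : Type v} [Field Ω] {V : Type w} [AddCommGroup V] [Module Ω V]
    [FiniteDimensional Ω V] {I : Type x} (ℓ : I → Module.Dual Ω V)
    (h : ∀ a : V, (∀ i, ℓ i a = 0) → a = 0) {β : Type y} [Finite β] (f : β → Module.Dual Ω V) :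
    ∃ (r : ℕ) (i : Fin r → I) (γ : β → Fin r → Ω), ∀ b a, f b a = ∑ t, γ b t * ℓ (i t) a := by
  classical
  haveI := Fintype.ofFinite β
  have hspan : Submodule.span Ω (Set.range ℓ) = ⊤ := by
    by_contra hne
    obtain ⟨F, hF0, hF⟩ := Submodule.exists_le_ker_of_lt_top _ (lt_top_iff_ne_top.mpr hne)
    apply hF0
    obtain ⟨a, ha⟩ := (Module.evalEquiv Ω V).surjective F
    have h1 : a = 0 := by
      apply h
      intro i
      have h2 : F (ℓ i) = 0 := hF (Submodule.subset_span ⟨i, rfl⟩)
      rw [← ha] at h2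
      exact h2
    rw [← ha, h1, map_zero]
  have hc : ∀ b : β, ∃ c : I →₀ Ω, (c.sum fun s a => a • ℓ s) = f b := by
    intro b
    apply Finsupp.mem_span_range_iff_exists_finsupp.mp
    rw [hspan]
    exact Submodule.mem_top
  choose c hc using hc
  let S : Finset I := Finset.univ.biUnion fun b => (c b).support
  refine ⟨S.card, fun t => (S.equivFin.symm t : I), fun b t => c b (S.equivFin.symm t : I), ?_⟩
  intro b a
  have h5 : ∑ t : Fin S.card, c b (S.equivFin.symm t : I) * ℓ (S.equivFin.symm t : I) a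
      = ∑ x : S, c b (x : I) * ℓ (x : I) a :=
    Equiv.sum_comp S.equivFin.symm fun x : S => c b (x : I) * ℓ (x : I) a
  rw [h5, Finset.sum_coe_sort S fun x => c b x * ℓ x a]
  have h6 : (c b).sum (fun s a => a • ℓ s) a = f b a := by rw [hc b]
  rw [Finsupp.sum, LinearMap.sum_apply] at h6
  rw [← h6]
  refine Finset.sum_subset_zero_on_sdiff ?_ ?_ ?_
  · intro x hx
    exact Finset.mem_biUnion.mpr ⟨b, Finset.mem_univ _, hx⟩
  · intro x hx
    rw [Finset.mem_sdiff, Finsupp.notMem_support_iff] at hx
    rw [hx.2, zero_mul]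
  · intro x hx
    rfl

end MP35
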