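import Pool.Agent.Lib_MP_3538b5_al.QDefs
import Pool.Agent.Lib_MP_3538b5_al.QLin

/-! # The key estimate in the proof of Theorem Q -/

set_option autoImplicit false

namespace MP35

universe u v w x y

section LRd

variable {p : ℕ} {G : Type u} [Group G] [TopologicalSpace G] {T : Type v} [CommRing T]
  [TopologicalSpace T] {Ω : Type v} [Field Ω] [Algebra T Ω] {n : ℕ} (R : Rep p G T Ω n)

/-- `LR` with a given denominator -/
def LRd (c : Module.End Ω (Matrix (Fin n) (Fin n) Ω)) (d : T) : Prop :=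
  ∀ N : Subgroup G, N.Normal → IsClosed (N : Set G) → ∀ z ∈ N,
    ∀ (lam : Ω) (X : Matrix (Fin n) (Fin n) Ω), lam ≠ 0 → R.ρ z = lam • (1 + X) →
      (∀ i j, ∃ y, IsIntegral T y ∧ X i j = algebraMap T Ω d * y) →
      ∃ z' ∈ N, ∀ (Γ₀ : Type v) [LinearOrderedCommGroupWithZero Γ₀] (ν : Valuation Ω Γ₀),
        (∀ t, ν (algebraMap T Ω t) ≤ 1) → ∀ μ : Γ₀, (∀ i j, ν (X i j) ≤ μ) →
          ∀ i j, ν (algebraMap T Ω d * (R.ρ z' - 1 - c X) i j) ≤ μ ^ 2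

theorem LR_iff {c : Module.End Ω (Matrix (Fin n) (Fin n) Ω)} :
    LR R c ↔ ∃ d : T, d ≠ 0 ∧ LRd R c d := Iff.rfl

variable {R}

theorem LRd.mul {c : Module.End Ω (Matrix (Fin n) (Fin n) Ω)} {d : T} (h : LRd R c d) (e : T) :
    LRd R c (d * e) := by
  intro N hN hNc z hz lam X hlam hρ hX
  obtain ⟨z', hz', h'⟩ := h N hN hNc z hz lam X hlam hρ fun i j => by
    obtain ⟨y, hy, hy'⟩ := hX i j
    exact ⟨algebraMap T Ω e * y, isIntegral_algebraMap.mul hy, by rw [hy', map_mul, mul_assoc]⟩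
  refine ⟨z', hz', fun Γ₀ _ ν hν μ hμ i j => ?_⟩
  have e1 : algebraMap T Ω (d * e) * (R.ρ z' - 1 - c X) i j
      = algebraMap T Ω e * (algebraMap T Ω d * (R.ρ z' - 1 - c X) i j) := by
    rw [map_mul]; ring
  rw [e1, map_mul ν]
  calc ν (algebraMap T Ω e) * ν (algebraMap T Ω d * (R.ρ z' - 1 - c X) i j)
      ≤ 1 * ν (algebraMap T Ω d * (R.ρ z' - 1 - c X) i j) := mul_le_mul_left (hν e) _
    _ ≤ μ ^ 2 := by rw [one_mul]; exact h' Γ₀ ν hν μ hμ i j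

theorem exists_LRd [IsDomain T] {β : Type*} [Fintype β]
    {c : β → Module.End Ω (Matrix (Fin n) (Fin n) Ω)} (h : ∀ b, LR R (c b)) :
    ∃ d : T, d ≠ 0 ∧ ∀ b, LRd R (c b) d := by
  classical
  choose d hd hd' using fun b => (LR_iff R).1 (h b)
  refine ⟨∏ b, d b, Finset.prod_ne_zero_iff.2 fun b _ => hd b, fun b => ?_⟩
  rw [← Finset.mul_prod_erase _ _ (Finset.mem_univ b)]
  exact (hd' b).mul _

end LRd

section bounds

variable {Ω : Type v} [Field Ω] {Γ₀ : Type y} [LinearOrderedCommGroupWithZero Γ₀] {n : ℕ}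

theorem exists_bound (ν : Valuation Ω Γ₀) {α : Type*} [Finite α] (f : α → Ω) :
    ∃ C : Γ₀, 1 ≤ C ∧ ∀ a, ν (f a) ≤ C := by
  obtain ⟨M, hM⟩ := Finite.exists_le fun a => ν (f a)
  exact ⟨max M 1, le_max_right _ _, fun a => (hM a).trans (le_max_left _ _)⟩

theorem val_trace_le (ν : Valuation Ω Γ₀) {A Z : Matrix (Fin n) (Fin n) Ω} {C μ : Γ₀}
    (hA : ∀ i j, ν (A i j) ≤ C) (hZ : ∀ i j, ν (Z i j) ≤ μ) : ν (A * Z).trace ≤ C * μ := by
  rw [Matrix.trace]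
  refine ν.map_sum_le fun i _ => ?_
  rw [Matrix.diag_apply, Matrix.mul_apply]
  refine ν.map_sum_le fun j _ => ?_
  rw [map_mul]
  exact mul_le_mul' (hA i j) (hZ j i)

theorem val_end_le (ν : Valuation Ω Γ₀) (L : Module.End Ω (Matrix (Fin n) (Fin n) Ω)) {C μ : Γ₀}
    (hL : ∀ a b k l, ν (L (Matrix.single a b 1) k l) ≤ C) {X : Matrix (Fin n) (Fin n) Ω}
    (hX : ∀ a b, ν (X a b) ≤ μ) (k l : Fin n) : ν (L X k l) ≤ C * μ := by
  have h1 : L X = ∑ a, ∑ b, X a b • L (Matrix.single a b 1) := by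
    conv_lhs => rw [Matrix.matrix_eq_sum_single X]
    rw [map_sum]
    refine Finset.sum_congr rfl fun a _ => ?_
    rw [map_sum]
    refine Finset.sum_congr rfl fun b _ => ?_
    rw [← map_smul, Matrix.smul_single, smul_eq_mul, mul_one]
  rw [h1, Matrix.sum_apply]
  refine ν.map_sum_le fun a _ => ?_
  rw [Matrix.sum_apply]
  refine ν.map_sum_le fun b _ => ?_
  rw [Matrix.smul_apply, smul_eq_mul, map_mul, mul_comm]
  exact mul_le_mul' (hL a b k l) (hX a b)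

end bounds

section key

set_option linter.unusedSectionVars false

open MvPolynomial

variable {p : ℕ} [Fact p.Prime] {G : Type u} [Group G] [TopologicalSpace G] {T : Type v}
  [CommRing T] [TopologicalSpace T] [IsDomain T] {Ω : Type v} [Field Ω] [CharP Ω p] [Algebra T Ω]
  [Algebra (ZMod p) Ω] {n : ℕ} {R : Rep p G T Ω n}

/-- the estimate for one group element -/
theorem key_step {ι : Type} [Fintype ι] (P : MvPolynomial ι (ZMod p))
    (σ : ι → RingAut Ω) (hσ : ∀ i x, IsIntegral T x → IsIntegral T (σ i x)) {U : Set G}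
    (hP : ∀ g ∈ U, aeval (fun i => σ i (R.ρ g).trace) P = 0)
    {g₁ g₂ : G} (hg₁ : g₁ ∈ U) (hg₂ : g₁ * g₂ ∈ U) (O : ValuationSubring Ω)
    (hO : ∀ x, IsIntegral T x → x ∈ O) (htr : ∀ g, IsIntegral T (R.ρ g).trace) {d : T} (hd : d ≠ 0)
    (Z : Matrix (Fin n) (Fin n) Ω) {C μ : O.ValueGroup} (hC : 1 ≤ C) (hμ : C ^ 3 * μ ≤ 1)
    (hCd : ∀ i, O.valuation (σ i (algebraMap T Ω d)⁻¹) ≤ C)
    (hCg : ∀ i a b, O.valuation (σ i (R.ρ g₁ a b)) ≤ C)
    (hZ : ∀ i ∈ P.vars, ∀ a b, O.valuation (σ i (Z a b)) ≤ C * μ)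
    (hg : ∀ i ∈ P.vars, ∀ a b,
      O.valuation (σ i (algebraMap T Ω d * (R.ρ g₂ - 1 - Z) a b)) ≤ μ ^ 2) :
    O.valuation (∑ i ∈ P.vars, aeval (fun i => σ i (R.ρ g₁).trace) (pderiv i P)
      * σ i (R.ρ g₁ * Z).trace) ≤ C ^ 6 * μ ^ 2 := by
  have hval : ∀ x, IsIntegral T x → O.valuation x ≤ 1 := fun x hx =>
    (O.valuation_le_one_iff x).2 (hO x hx)
  have hC0 : ∀ k l : ℕ, k ≤ l → C ^ k ≤ C ^ l := fun k l h => pow_le_pow_right₀ hC h
  have hμ1 : μ ≤ 1 := by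
    calc μ = 1 * μ := (one_mul μ).symm
      _ ≤ C ^ 3 * μ := mul_le_mul_left (one_le_pow_of_one_le' hC 3) μ
      _ ≤ 1 := hμ
  have hd' : algebraMap T Ω d ≠ 0 := (map_ne_zero_iff _ R.tinj).2 hd
  -- the valuation seen through `σ i`
  let ν : ι → Valuation Ω O.ValueGroup := fun i => O.valuation.comap (σ i : Ω →+* Ω)
  have hν : ∀ i x, ν i x = O.valuation (σ i x) := fun i x => rfl
  have hνd : ∀ i, ν i (algebraMap T Ω d) ≤ 1 := fun i => by
    rw [hν]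
    exact hval _ (hσ i _ isIntegral_algebraMap)
  have hνd' : ∀ i, ν i (algebraMap T Ω d)⁻¹ ≤ C := fun i => by
    rw [hν]
    exact hCd i
  -- difference
  have h1 : ∀ i ∈ P.vars, ∀ a b, ν i ((R.ρ g₂ - 1 - Z) a b) ≤ C * μ ^ 2 := by
    intro i hi a b
    have e : (R.ρ g₂ - 1 - Z) a b
        = (algebraMap T Ω d)⁻¹ * (algebraMap T Ω d * (R.ρ g₂ - 1 - Z) a b) := by
      rw [← mul_assoc, inv_mul_cancel₀ hd', one_mul]
    rw [e, map_mul]
    exact mul_le_mul' (hνd' i) (hg i hi a b)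
  have h2 : ∀ i ∈ P.vars, ∀ a b, ν i ((R.ρ g₂ - 1) a b) ≤ C * μ := by
    intro i hi a b
    have e : (R.ρ g₂ - 1) a b = (R.ρ g₂ - 1 - Z) a b + Z a b := by
      simp
    rw [e]
    refine (ν i).map_add_le ((h1 i hi a b).trans ?_) (hZ i hi a b)
    refine mul_le_mul' le_rfl ?_
    calc μ ^ 2 = μ * μ := sq μ
      _ ≤ μ * 1 := mul_le_mul' le_rfl hμ1
      _ = μ := mul_one μ
  -- the Taylor expansion
  let a : ι → Ω := fun i => σ i (R.ρ g₁).trace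
  let ε : ι → Ω := fun i => σ i (R.ρ g₁ * (R.ρ g₂ - 1)).trace
  have hε : ∀ i ∈ P.vars, O.valuation (ε i) ≤ C ^ 2 * μ := by
    intro i hi
    show ν i (R.ρ g₁ * (R.ρ g₂ - 1)).trace ≤ _
    have h6 : ν i (R.ρ g₁ * (R.ρ g₂ - 1)).trace ≤ C * (C * μ) :=
      val_trace_le (ν i) (fun k l => hCg i k l) (h2 i hi)
    rwa [← mul_assoc, ← sq] at h6
  have ha : ∀ i, O.valuation (a i) ≤ 1 := fun i => hval _ (hσ i _ (htr g₁))
  have haε : aeval (fun i => a i + ε i) P = 0 := by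
    have e : (fun i => a i + ε i) = fun i => σ i (R.ρ (g₁ * g₂)).trace := by
      funext i
      show σ i (R.ρ g₁).trace + σ i (R.ρ g₁ * (R.ρ g₂ - 1)).trace = σ i (R.ρ (g₁ * g₂)).trace
      rw [← map_add, ← Matrix.trace_add, map_mul, mul_sub, mul_one, add_sub_cancel]
    rw [e]
    exact hP _ hg₂
  have ha0 : aeval a P = 0 := hP _ hg₁
  have hCμ : C ^ 2 * μ ≤ 1 := (mul_le_mul' (hC0 2 3 (by norm_num)) le_rfl).trans hμ
  have h3 := taylor_bound O.valuation P a ε ha hCμ hε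
  rw [haε, ha0, sub_zero, zero_sub, Valuation.map_neg] at h3
  -- the difference of the linear terms
  have h4 : O.valuation (∑ i ∈ P.vars, aeval a (pderiv i P) *
      σ i (R.ρ g₁ * (R.ρ g₂ - 1 - Z)).trace) ≤ C ^ 2 * μ ^ 2 := by
    refine O.valuation.map_sum_le fun i hi => ?_
    rw [map_mul]
    have h5 : O.valuation (aeval a (pderiv i P)) ≤ 1 :=
      (taylor_bound_aux O.valuation (pderiv i P) a (fun _ => 0) ha (μ := 1) le_rfl
        fun i => by simp).1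
    have h6 : ν i (R.ρ g₁ * (R.ρ g₂ - 1 - Z)).trace ≤ C * (C * μ ^ 2) :=
      val_trace_le (ν i) (fun k l => hCg i k l) (h1 i hi)
    calc _ ≤ 1 * (C * (C * μ ^ 2)) := mul_le_mul' h5 h6
      _ = C ^ 2 * μ ^ 2 := by rw [one_mul, sq C, mul_assoc]
  have h7 : (∑ i ∈ P.vars, aeval a (pderiv i P) * σ i (R.ρ g₁ * Z).trace)
      = (∑ i ∈ P.vars, aeval a (pderiv i P) * ε i) - ∑ i ∈ P.vars, aeval a (pderiv i P) *
        σ i (R.ρ g₁ * (R.ρ g₂ - 1 - Z)).trace := by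
    rw [← Finset.sum_sub_distrib]
    refine Finset.sum_congr rfl fun i _ => ?_
    rw [← mul_sub]
    congr 1
    show σ i (R.ρ g₁ * Z).trace = σ i (R.ρ g₁ * (R.ρ g₂ - 1)).trace
      - σ i (R.ρ g₁ * (R.ρ g₂ - 1 - Z)).trace
    rw [← map_sub, ← Matrix.trace_sub, ← mul_sub, sub_sub_cancel]
  show O.valuation (∑ i ∈ P.vars, aeval a (pderiv i P) * σ i (R.ρ g₁ * Z).trace) ≤ _
  rw [h7]
  refine O.valuation.map_sub_le ?_ ?_
  · refine h3.trans ?_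
    rw [mul_pow, ← pow_mul]
    exact mul_le_mul' (hC0 4 6 (by norm_num)) le_rfl
  · exact h4.trans (mul_le_mul' (hC0 2 6 (by norm_num)) le_rfl)

theorem exists_bound_set {Γ₀ : Type y} [LinearOrderedCommGroupWithZero Γ₀] (ν : Valuation Ω Γ₀)
    {F : Set Ω} (hF : F.Finite) : ∃ C : Γ₀, 1 ≤ C ∧ ∀ x ∈ F, ν x ≤ C := by
  have := hF.to_subtype
  obtain ⟨C, h1, h2⟩ := exists_bound ν fun x : F => (x : Ω)
  exact ⟨C, h1, fun x hx => h2 ⟨x, hx⟩⟩

/-- **The key estimate.** -/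
theorem key_estimate {ι : Type} [Fintype ι] (P : MvPolynomial ι (ZMod p)) (σ : ι → RingAut Ω)
    (hσ : ∀ i x, IsIntegral T x → IsIntegral T (σ i x)) {U : Set G}
    (hP : ∀ g ∈ U, aeval (fun i => σ i (R.ρ g).trace) P = 0)
    (hD : ∀ i ∈ P.vars, ∀ g ∈ U, aeval (fun i => σ i (R.ρ g).trace) (pderiv i P) ≠ 0)
    {H : Subgroup G} (hHn : H.Normal) (hHc : IsClosed (H : Set G)) {g₁ : G}
    (hg₁ : ∀ h ∈ H, g₁ * h ∈ U) {J : Type x} [Fintype J] {S : Type w} [CommRing S]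
    (ψ : J → S →+* Ω) (hψ : ∀ j, Function.Injective (ψ j))
    (hdist : ∀ i ∈ P.vars, ∀ i' ∈ P.vars, ∀ j j', (∀ x, σ i (ψ j x) = σ i' (ψ j' x)) →
      i = i' ∧ j = j') (E : J → Module.End Ω (Matrix (Fin n) (Fin n) Ω)) {w : S} (hw : w ≠ 0)
    (m : ℕ) (y : Module.End Ω (Matrix (Fin n) (Fin n) Ω))
    (hlr : ∀ s, LR R ((∑ j, ψ j ((w * s) ^ p ^ m) • E j) * y)) (O : ValuationSubring Ω)
    (hO : ∀ x, IsIntegral T x → x ∈ O) (htr : ∀ g, IsIntegral T (R.ρ g).trace) :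
    ∃ (d : T) (C : O.ValueGroup), d ≠ 0 ∧ 1 ≤ C ∧ ∀ z ∈ H, ∀ (lam : Ω)
      (X : Matrix (Fin n) (Fin n) Ω), lam ≠ 0 → R.ρ z = lam • (1 + X) →
      (∀ a b, ∃ y', IsIntegral T y' ∧ X a b = algebraMap T Ω d * y') → ∀ μ, C * μ ≤ 1 →
      (∀ i ∈ P.vars, ∀ a b, O.valuation (σ i (X a b)) ≤ μ) →
      ∀ i ∈ P.vars, ∀ j, O.valuation (σ i (R.ρ g₁ * E j (y X)).trace) ≤ C * μ ^ 2 := by
  classical
  have hval : ∀ x, IsIntegral T x → O.valuation x ≤ 1 := fun x hx =>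
    (O.valuation_le_one_iff x).2 (hO x hx)
  -- the characters
  let χ : {i // i ∈ P.vars} × J → S →* Ω := fun q =>
    (powMonoidHom (p ^ m) : Ω →* Ω).comp
      (((σ q.1 : Ω →+* Ω).comp (ψ q.2) : S →+* Ω) : S →* Ω)
  have hχa : ∀ q x, χ q x = (σ q.1 (ψ q.2 x)) ^ p ^ m := fun q x => rfl
  have hχ : Function.Injective χ := by
    rintro ⟨⟨i, hi⟩, j⟩ ⟨⟨i', hi'⟩, j'⟩ h
    have h1 : ∀ x, σ i (ψ j x) = σ i' (ψ j' x) := by
      intro x
      have h2 := DFunLike.congr_fun h x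
      rw [hχa, hχa] at h2
      exact iterateFrobenius_inj Ω p m h2
    obtain ⟨rfl, rfl⟩ := hdist i hi i' hi' j j' h1
    rfl
  obtain ⟨r, s, c, hc⟩ := exists_dual_points χ hχ
  -- the operators
  let cb : Fin r → Module.End Ω (Matrix (Fin n) (Fin n) Ω) := fun b =>
    (∑ j, ψ j ((w * s b) ^ p ^ m) • E j) * y
  obtain ⟨d, hd, hdb⟩ := exists_LRd (R := R) (c := cb) fun b => hlr (s b)
  have hd' : algebraMap T Ω d ≠ 0 := (map_ne_zero_iff _ R.tinj).2 hd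
  let a : ι → Ω := fun i => σ i (R.ρ g₁).trace
  -- the constants
  let f1 : ι → Ω := fun i => σ i (algebraMap T Ω d)⁻¹
  let f2 : ι × Fin n × Fin n → Ω := fun q => σ q.1 (R.ρ g₁ q.2.1 q.2.2)
  let f3 : ι × Fin r × Fin n × Fin n × Fin n × Fin n → Ω := fun q =>
    σ q.1 (cb q.2.1 (Matrix.single q.2.2.1 q.2.2.2.1 1) q.2.2.2.2.1 q.2.2.2.2.2)
  let f4 : ({i // i ∈ P.vars} × J) × Fin r → Ω := fun q => c q.1 q.2
  let f5 : ι → Ω := fun i => (aeval a (pderiv i P))⁻¹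
  let f6 : ι × J → Ω := fun q => ((σ q.1 (ψ q.2 w)) ^ p ^ m)⁻¹
  obtain ⟨C, hC1, hC⟩ := exists_bound_set O.valuation
    (F := Set.range f1 ∪ (Set.range f2 ∪ (Set.range f3 ∪ (Set.range f4 ∪
      (Set.range f5 ∪ Set.range f6)))))
    ((Set.finite_range _).union ((Set.finite_range _).union ((Set.finite_range _).union
      ((Set.finite_range _).union ((Set.finite_range _).union (Set.finite_range _))))))
  have k1 : ∀ q, O.valuation (f1 q) ≤ C := fun q => hC _ (Or.inl ⟨q, rfl⟩)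
  have k2 : ∀ q, O.valuation (f2 q) ≤ C := fun q => hC _ (Or.inr (Or.inl ⟨q, rfl⟩))
  have k3 : ∀ q, O.valuation (f3 q) ≤ C := fun q => hC _ (Or.inr (Or.inr (Or.inl ⟨q, rfl⟩)))
  have k4 : ∀ q, O.valuation (f4 q) ≤ C := fun q =>
    hC _ (Or.inr (Or.inr (Or.inr (Or.inl ⟨q, rfl⟩))))
  have k5 : ∀ q, O.valuation (f5 q) ≤ C := fun q =>
    hC _ (Or.inr (Or.inr (Or.inr (Or.inr (Or.inl ⟨q, rfl⟩)))))
  have k6 : ∀ q, O.valuation (f6 q) ≤ C := fun q =>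
    hC _ (Or.inr (Or.inr (Or.inr (Or.inr (Or.inr ⟨q, rfl⟩)))))
  refine ⟨d, C ^ 9, hd, one_le_pow_of_one_le' hC1 9, ?_⟩
  intro z hz lam X hlam hρ hX μ hμ hXμ i hi j
  have hμ3 : C ^ 3 * μ ≤ 1 :=
    (mul_le_mul' (pow_le_pow_right₀ hC1 (by norm_num)) le_rfl).trans hμ
  -- all evaluation points
  have hb : ∀ b, O.valuation (∑ q : {i // i ∈ P.vars} × J,
      (aeval a (pderiv q.1.1 P) * (σ q.1 (ψ q.2 w)) ^ p ^ m *
        σ q.1 (R.ρ g₁ * E q.2 (y X)).trace) * χ q (s b)) ≤ C ^ 6 * μ ^ 2 := by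
    intro b
    obtain ⟨z', hz', hν⟩ := hdb b H hHn hHc z hz lam X hlam hρ hX
    have h1 := key_step (R := R) P σ hσ hP (g₁ := g₁) (g₂ := z')
      (by simpa using hg₁ 1 H.one_mem) (hg₁ z' hz') O hO htr hd (cb b X) hC1 hμ3 k1
      (fun i a b => k2 (i, a, b)) (fun i hi k l => ?_) (fun i hi k l => ?_)
    · refine le_trans (le_of_eq (congrArg _ ?_)) h1
      rw [Fintype.sum_prod_type, ← Finset.sum_coe_sort P.vars]
      refine Finset.sum_congr rfl fun i _ => ?_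
      have e1 : (R.ρ g₁ * cb b X).trace
          = ∑ j, ψ j ((w * s b) ^ p ^ m) * (R.ρ g₁ * E j (y X)).trace := by
        show (R.ρ g₁ * ((∑ j, ψ j ((w * s b) ^ p ^ m) • E j) * y) X).trace = _
        rw [Module.End.mul_apply, LinearMap.sum_apply, Finset.mul_sum, Matrix.trace_sum]
        refine Finset.sum_congr rfl fun j _ => ?_
        rw [LinearMap.smul_apply, Matrix.mul_smul, Matrix.trace_smul, smul_eq_mul]
      rw [e1, map_sum, Finset.mul_sum]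
      refine Finset.sum_congr rfl fun j _ => ?_
      show _ * _ * _ * (σ i (ψ j (s b))) ^ p ^ m = _
      rw [map_mul (σ i), mul_pow, map_mul (ψ j), map_pow, map_pow, map_mul (σ i), map_pow, map_pow]
      ring
    · refine val_end_le (O.valuation.comap (σ i : Ω →+* Ω)) (cb b) (fun a' b' k l => ?_)
        (fun a' b' => hXμ i hi a' b') k l
      exact k3 (i, b, a', b', k, l)
    · refine hν O.ValueGroup (O.valuation.comap (σ i : Ω →+* Ω)) (fun t => ?_) μ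
        (fun a' b' => hXμ i hi a' b') k l
      exact hval _ (hσ i _ isIntegral_algebraMap)
  -- the coefficients
  have h2 : aeval a (pderiv i P) * (σ i (ψ j w)) ^ p ^ m * σ i (R.ρ g₁ * E j (y X)).trace
      = ∑ b, c (⟨i, hi⟩, j) b * ∑ q : {i // i ∈ P.vars} × J,
      (aeval a (pderiv q.1.1 P) * (σ q.1 (ψ q.2 w)) ^ p ^ m *
        σ q.1 (R.ρ g₁ * E q.2 (y X)).trace) * χ q (s b) := by
    simp_rw [Finset.mul_sum]
    rw [Finset.sum_comm]
    have e2 : ∀ q : {i // i ∈ P.vars} × J, ∑ b, c (⟨i, hi⟩, j) b *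
        ((aeval a (pderiv q.1.1 P) * (σ q.1 (ψ q.2 w)) ^ p ^ m *
          σ q.1 (R.ρ g₁ * E q.2 (y X)).trace) * χ q (s b))
        = (aeval a (pderiv q.1.1 P) * (σ q.1 (ψ q.2 w)) ^ p ^ m *
          σ q.1 (R.ρ g₁ * E q.2 (y X)).trace) * if q = (⟨i, hi⟩, j) then 1 else 0 := by
      intro q
      rw [← hc, Finset.mul_sum]
      exact Finset.sum_congr rfl fun b _ => by ring
    rw [Finset.sum_congr rfl fun q _ => e2 q]
    simp
  have h3 : O.valuation (aeval a (pderiv i P) * (σ i (ψ j w)) ^ p ^ m *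
      σ i (R.ρ g₁ * E j (y X)).trace) ≤ C ^ 7 * μ ^ 2 := by
    rw [h2]
    refine O.valuation.map_sum_le fun b _ => ?_
    rw [map_mul]
    calc _ ≤ C * (C ^ 6 * μ ^ 2) := mul_le_mul' (k4 ((⟨i, hi⟩, j), b)) (hb b)
      _ = C ^ 7 * μ ^ 2 := by rw [← mul_assoc, ← pow_succ']
  have hn1 : aeval a (pderiv i P) ≠ 0 := hD i hi g₁ (by simpa using hg₁ 1 H.one_mem)
  have hn2 : (σ i (ψ j w)) ^ p ^ m ≠ 0 := by
    refine pow_ne_zero _ ?_
    rw [Ne, EmbeddingLike.map_eq_zero_iff, map_eq_zero_iff _ (hψ j)]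
    exact hw
  have h4 : σ i (R.ρ g₁ * E j (y X)).trace = f5 i * (f6 (i, j) * (aeval a (pderiv i P) *
      (σ i (ψ j w)) ^ p ^ m * σ i (R.ρ g₁ * E j (y X)).trace)) := by
    show _ = (aeval a (pderiv i P))⁻¹ * (((σ i (ψ j w)) ^ p ^ m)⁻¹ * _)
    field_simp
  rw [h4, map_mul, map_mul]
  calc _ ≤ C * (C * (C ^ 7 * μ ^ 2)) := mul_le_mul' (k5 i) (mul_le_mul' (k6 (i, j)) h3)
    _ = C ^ 9 * μ ^ 2 := by rw [← mul_assoc, ← mul_assoc, ← sq, ← pow_add]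

end key

end MP35
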