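import Pool.Agent.Lib_MP_3538b5_al.QCts

/-! # Piece QMIN: a minimal relation on an open set -/

set_option autoImplicit false

namespace MP35

universe u v w x y

section QMinHelpers

open MvPolynomial

private theorem aeval_qmin {p : ℕ} {Ω : Type v} [CommRing Ω] [Algebra (ZMod p) Ω] {ι : Type}
    [Fintype ι] [DecidableEq ι] (P : MvPolynomial ι (ZMod p)) (i : ι)
    (hP : ∀ m ∈ P.support, p ∣ m i) (y : ι → Ω) :
    aeval (Function.update y i (y i ^ p))
      (∑ m ∈ P.support, monomial (m.update i (m i / p)) (coeff m P)) = aeval y P := by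
  conv_rhs => rw [P.as_sum]
  rw [map_sum, map_sum]
  refine Finset.sum_congr rfl fun m hm => ?_
  rw [aeval_monomial, aeval_monomial, Finsupp.prod_fintype _ _ (fun _ => pow_zero _),
    Finsupp.prod_fintype _ _ (fun _ => pow_zero _)]
  congr 1
  refine Finset.prod_congr rfl fun j _ => ?_
  by_cases hj : j = i
  · subst hj
    rw [Finsupp.coe_update, Function.update_self, Function.update_self, ← pow_mul,
      Nat.mul_div_cancel' (hP m hm)]
  · rw [Finsupp.coe_update, Function.update_of_ne hj, Function.update_of_ne hj]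

private theorem supp_qmin {p : ℕ} {ι : Type} [DecidableEq ι] (P : MvPolynomial ι (ZMod p)) (i : ι)
    (m' : ι →₀ ℕ)
    (hm' : m' ∈ (∑ m ∈ P.support, monomial (m.update i (m i / p)) (coeff m P)).support) :
    ∃ m ∈ P.support, m' = m.update i (m i / p) := by
  have h1 := MvPolynomial.support_sum hm'
  rw [Finset.mem_biUnion] at h1
  obtain ⟨m, hm, h2⟩ := h1
  exact ⟨m, hm, by simpa using MvPolynomial.support_monomial_subset h2⟩

end QMinHelpers

/-- PROOF. There are countably many polynomials over `ZMod p` in the finitely many variables `ι`, and the sets `{a | P (f a) = 0}` are closed (`CtsInt.aeval`, `CtsInt.isClosed_zero`) and cover the compact Hausdorff space `X` (`hrel`). By Baire's theorem (`nonempty_interior_of_iUnion_of_closed`, index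
the nonzero polynomials) one of them has nonempty interior. So there are triples `(P, e, U)`, `P ≠ 0`, `U` open and not empty, `P ((f i a) ^ p ^ e i) = 0` on `U`. Choose one with `∑ i, P.degreeOf i` minimal (`Nat.find` or `WellFounded.min`). `P` is not a constant (a nonzero constant does not vanish at a point of `U`), so
`P.vars` is not empty. Let `i ∈ P.vars`, `Q = pderiv i P`. Suppose `Q = 0`. Then all exponents of `X i` in monomials of `P` are divisible by `p` (`MvPolynomial.coeff` of `pderiv`; `ZMod p` is a field), `P = P'(…, X i ^ p, …)`, `P' ≠ 0`, `P'.degreeOf i < P.degreeOf i`, the other degrees are not changed; `P'` vanishes on `U` for the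
exponents `e + Pi.single i 1`: contradiction to the choice. So `Q ≠ 0`, `Q.degreeOf i < P.degreeOf i`, `Q.degreeOf j ≤ P.degreeOf j`, and by the choice of `P` there is no nonempty open subset of `U` on which `Q ((f i a) ^ p ^ e i)` vanishes: its zero set is closed and its complement in `U` is open and dense in `U`.
The intersection `U'` of `U` with the finitely many (`i ∈ P.vars`) open dense sets is open and not empty. -/
theorem exists_min_relation {p : ℕ} [Fact p.Prime] {T : Type v} [CommRing T] [TopologicalSpace T]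
    [CNR T] {Ω : Type v} [Field Ω] [Algebra T Ω] [Algebra (ZMod p) Ω] {X : Type x}
    [TopologicalSpace X] [CompactSpace X] [T2Space X] [Nonempty X] {ι : Type} [Fintype ι]
    (f : ι → X → Ω) (hf : ∀ i, CtsInt T (f i))
    (hrel : ∀ a, ∃ P : MvPolynomial ι (ZMod p), P ≠ 0 ∧
      MvPolynomial.aeval (fun i => f i a) P = 0) :
    ∃ (P : MvPolynomial ι (ZMod p)) (e : ι → ℕ) (U : Set X), P.vars.Nonempty ∧ IsOpen U ∧
      U.Nonempty ∧ (∀ a ∈ U, MvPolynomial.aeval (fun i => f i a ^ p ^ e i) P = 0) ∧
      ∀ i ∈ P.vars, ∀ a ∈ U,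
        MvPolynomial.aeval (fun i => f i a ^ p ^ e i) (MvPolynomial.pderiv i P) ≠ 0 := by
  classical
  have hcl : ∀ (P : MvPolynomial ι (ZMod p)) (e : ι → ℕ),
      IsClosed {a | MvPolynomial.aeval (fun i => f i a ^ p ^ e i) P = 0} := fun P e =>
    (CtsInt.aeval (fun i => (hf i).pow (p ^ e i)) P).isClosed_zero
  -- a first relation
  have hex : ∃ (n : ℕ) (P : MvPolynomial ι (ZMod p)) (e : ι → ℕ) (U : Set X), P ≠ 0 ∧ IsOpen U ∧
      U.Nonempty ∧ (∀ a ∈ U, MvPolynomial.aeval (fun i => f i a ^ p ^ e i) P = 0) ∧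
      ∑ i, P.degreeOf i = n := by
    have hcount : Countable (MvPolynomial ι (ZMod p)) := by
      rw [← Cardinal.mk_le_aleph0_iff]
      refine (MvPolynomial.cardinalMk_le_max).trans ?_
      exact max_le (max_le (Cardinal.mk_le_aleph0) (Cardinal.mk_le_aleph0)) le_rfl
    have hcount2 : Countable {P : MvPolynomial ι (ZMod p) // P ≠ 0} := inferInstance
    obtain ⟨P, hP⟩ := nonempty_interior_of_iUnion_of_closed
      (f := fun P : {P : MvPolynomial ι (ZMod p) // P ≠ 0} =>
        {a | MvPolynomial.aeval (fun i => f i a ^ p ^ (0 : ι → ℕ) i) P.1 = 0})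
      (fun P => hcl P.1 0) (by
        rw [Set.eq_univ_iff_forall]
        intro a
        obtain ⟨P, hP0, hP⟩ := hrel a
        refine Set.mem_iUnion.2 ⟨⟨P, hP0⟩, ?_⟩
        simpa using hP)
    exact ⟨_, P.1, 0, _, P.2, isOpen_interior, hP,
      fun a ha => by have h1 := interior_subset ha; exact h1, rfl⟩
  obtain ⟨P, e, U, hP0, hU, hUn, hPU, hdeg⟩ := Nat.find_spec hex
  have hmin : ∀ (P' : MvPolynomial ι (ZMod p)) (e' : ι → ℕ) (U' : Set X), P' ≠ 0 → IsOpen U' →
      U'.Nonempty → (∀ a ∈ U', MvPolynomial.aeval (fun i => f i a ^ p ^ e' i) P' = 0) →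
      ∑ i, P.degreeOf i ≤ ∑ i, P'.degreeOf i := by
    intro P' e' U' h1 h2 h3 h4
    rw [hdeg]
    exact Nat.find_min' hex ⟨P', e', U', h1, h2, h3, h4, rfl⟩
  have hvars : P.vars.Nonempty := by
    rw [Finset.nonempty_iff_ne_empty]
    intro h
    obtain ⟨c, hc⟩ : ∃ c, P = MvPolynomial.C c := ⟨_, MvPolynomial.vars_eq_empty_iff_eq_C.1 h⟩
    obtain ⟨a, ha⟩ := hUn
    have h1 := hPU a ha
    rw [hc, MvPolynomial.aeval_C, map_eq_zero_iff _ (algebraMap (ZMod p) Ω).injective] at h1
    rw [h1, map_zero] at hc
    exact hP0 hc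
  -- positivity of the degree
  have hpos : ∀ i ∈ P.vars, 0 < P.degreeOf i := by
    intro i hi
    obtain ⟨m, hm, him⟩ := (MvPolynomial.mem_vars_iff_mem_support i).1 hi
    have h1 : m i ≤ P.degreeOf i := (MvPolynomial.degreeOf_le_iff.1 le_rfl) m hm
    have h2 : m i ≠ 0 := Finsupp.mem_support_iff.1 him
    omega
  have hQ0 : ∀ i ∈ P.vars, MvPolynomial.pderiv i P ≠ 0 := by
    intro i hi hQ
    have hdiv : ∀ m ∈ P.support, p ∣ m i := by
      intro m hm
      by_cases h0 : m i = 0
      · rw [h0]; exact dvd_zero p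
      · have h1 := MvPolynomial.coeff_pderiv (i := i) P (m - Finsupp.single i 1)
        have h2 : m - Finsupp.single i 1 + Finsupp.single i 1 = m := by
          refine tsub_add_cancel_of_le ?_
          rw [Finsupp.single_le_iff]
          omega
        rw [hQ, MvPolynomial.coeff_zero, h2] at h1
        have h3 : MvPolynomial.coeff m P ≠ 0 := MvPolynomial.mem_support_iff.1 hm
        have h4 : ((m i : ℕ) : ZMod p) = 0 := by
          have h5 := (mul_eq_zero.1 h1.symm).resolve_left h3
          have h6 : (m - Finsupp.single i 1 : ι →₀ ℕ) i + 1 = m i := by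
            rw [Finsupp.tsub_apply, Finsupp.single_eq_same]
            omega
          rw [← h6]
          push_cast
          exact h5
        exact (ZMod.natCast_eq_zero_iff _ _).1 h4
    set P' : MvPolynomial ι (ZMod p) :=
      ∑ m ∈ P.support, MvPolynomial.monomial (m.update i (m i / p)) (MvPolynomial.coeff m P) with hP'
    have hP'0 : P' ≠ 0 := by
      intro h
      have h1 := aeval_qmin P i hdiv (MvPolynomial.X : ι → MvPolynomial ι (ZMod p))
      rw [← hP', h, map_zero, MvPolynomial.aeval_X_left_apply] at h1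
      exact hP0 h1.symm
    have hle := hmin P' (Function.update e i (e i + 1)) U hP'0 hU hUn (by
      intro a ha
      have h1 := aeval_qmin P i hdiv (fun i => f i a ^ p ^ e i)
      rw [hPU a ha, ← hP'] at h1
      rw [← h1]
      congr 2
      funext j
      by_cases hj : j = i
      · subst hj
        rw [Function.update_self, Function.update_self, ← pow_mul, pow_succ]
      · rw [Function.update_of_ne hj, Function.update_of_ne hj])
    refine absurd hle (not_le.2 (Finset.sum_lt_sum (fun j _ => ?_) ⟨i, Finset.mem_univ _, ?_⟩))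
    · rw [MvPolynomial.degreeOf_le_iff]
      intro m' hm'
      obtain ⟨m, hm, rfl⟩ := supp_qmin P i m' hm'
      have h1 : m j ≤ P.degreeOf j := (MvPolynomial.degreeOf_le_iff.1 le_rfl) m hm
      by_cases hj : j = i
      · subst hj
        rw [Finsupp.coe_update, Function.update_self]
        exact (Nat.div_le_self _ _).trans h1
      · rw [Finsupp.coe_update, Function.update_of_ne hj]
        exact h1
    · rw [MvPolynomial.degreeOf_lt_iff (hpos i hi)]
      intro m' hm'
      obtain ⟨m, hm, rfl⟩ := supp_qmin P i m' hm'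
      have h1 : m i ≤ P.degreeOf i := (MvPolynomial.degreeOf_le_iff.1 le_rfl) m hm
      rw [Finsupp.coe_update, Function.update_self]
      rcases Nat.eq_zero_or_pos (m i) with h0 | h0
      · rw [h0, Nat.zero_div]
        exact hpos i hi
      · exact (Nat.div_lt_self h0 (Fact.out : p.Prime).one_lt).trans_le h1
  have hint : ∀ i ∈ P.vars,
      interior {a | MvPolynomial.aeval (fun i => f i a ^ p ^ e i) (MvPolynomial.pderiv i P) = 0}
        = ∅ := by
    intro i hi
    by_contra hne
    have hle := hmin (MvPolynomial.pderiv i P) e _ (hQ0 i hi) isOpen_interior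
      (Set.nonempty_iff_ne_empty.2 hne) (fun a ha => by have h1 := interior_subset ha; exact h1)
    have hsup : ∀ m ∈ (MvPolynomial.pderiv i P).support, m + Finsupp.single i 1 ∈ P.support := by
      intro m hm
      rw [MvPolynomial.mem_support_iff, MvPolynomial.coeff_pderiv] at hm
      exact MvPolynomial.mem_support_iff.2 (left_ne_zero_of_mul hm)
    refine absurd hle (not_le.2 (Finset.sum_lt_sum (fun j _ => ?_) ⟨i, Finset.mem_univ _, ?_⟩))
    · rw [MvPolynomial.degreeOf_le_iff]
      intro m hm
      have h1 := (MvPolynomial.degreeOf_le_iff.1 (le_refl (P.degreeOf j))) _ (hsup m hm)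
      rw [Finsupp.add_apply] at h1
      omega
    · rw [MvPolynomial.degreeOf_lt_iff (hpos i hi)]
      intro m hm
      have h1 := (MvPolynomial.degreeOf_le_iff.1 (le_refl (P.degreeOf i))) _ (hsup m hm)
      rw [Finsupp.add_apply, Finsupp.single_eq_same] at h1
      omega
  set W : ι → Set X := fun i =>
    {a | MvPolynomial.aeval (fun i => f i a ^ p ^ e i) (MvPolynomial.pderiv i P) = 0}ᶜ with hW
  have hWo : ∀ i, IsOpen (W i) := fun i => (hcl _ e).isOpen_compl
  have hWd : ∀ i ∈ (P.vars : Set ι), Dense (W i) := fun i hi =>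
    interior_eq_empty_iff_dense_compl.1 (hint i hi)
  have hD : Dense (⋂ i ∈ (P.vars : Set ι), W i) :=
    dense_biInter_of_isOpen (fun i _ => hWo i) P.vars.finite_toSet.countable hWd
  refine ⟨P, e, U ∩ ⋂ i ∈ (P.vars : Set ι), W i, hvars,
    hU.inter (P.vars.finite_toSet.isOpen_biInter fun i _ => hWo i),
    hD.inter_open_nonempty U hU hUn, fun a ha => hPU a ha.1, fun i hi a ha => ?_⟩
  have h1 := Set.mem_iInter₂.1 ha.2 i hi
  exact h1

end MP35
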