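import Pool.Agent.Lib_MP_3538b5_al.QDefs

/-! # Piece QREL: n + 1 conjugates of the trace are algebraically dependent -/

set_option autoImplicit false

namespace MP35

universe u v w x y

/-- PROOF. Let `Λ` be the set of eigenvalues of `ρ g` (roots of the characteristic polynomial, at most `n` elements), `K₀ = IntermediateField.adjoin (ZMod p) Λ` (or the subalgebra), `E` the set of elements of `Ω` algebraic over `K₀` (a field). For `μ ∈ Λ` the element `s l μ` is in `E`: a power of it is in the
multiplicative group generated by `Λ` (`hs`, `SatL`, `Rep.eigG`), so in `K₀`. The trace of `ρ g` is the sum of the roots of the characteristic polynomial (`Matrix.trace_eq_sum_roots_charpoly`, `Ω` algebraically closed), so `s l (trace) ∈ E`. `E` is algebraic over `ZMod p (Λ)`, so its transcendence degree over `ZMod p` is at most `n`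
(`Algebra.trdeg`, `IsTranscendenceBasis`, exchange), and `n + 1` elements of `E` are not algebraically independent (`AlgebraicIndependent`): there is a nonzero polynomial `P`. -/
theorem exists_relation {p : ℕ} [Fact p.Prime] {G : Type u} [Group G] [TopologicalSpace G]
    {T : Type v} [CommRing T] [TopologicalSpace T] {Ω : Type v} [Field Ω] [IsAlgClosed Ω]
    [Algebra T Ω] [Algebra (ZMod p) Ω] {n : ℕ} (R : Rep p G T Ω n) (s : Fin (n + 1) → RingAut Ω)
    (hs : ∀ l, SatAut R (s l)) (g : G) : ∃ P : MvPolynomial (Fin (n + 1)) (ZMod p), P ≠ 0 ∧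
      MvPolynomial.aeval (fun l => s l (R.ρ g).trace) P = 0 := by
  classical
  by_contra hcon
  push Not at hcon
  let f : Fin (n + 1) → Ω := fun l => s l (R.ρ g).trace
  have hind : AlgebraicIndependent (ZMod p) f := by
    rw [algebraicIndependent_iff]
    intro P hP
    by_contra h
    exact hcon P h hP
  have hne : (R.ρ g).charpoly ≠ 0 := (Matrix.charpoly_monic _).ne_zero
  let Λ : Set Ω := {μ | (R.ρ g).charpoly.IsRoot μ}
  let K₀ : Subalgebra (ZMod p) Ω := Algebra.adjoin (ZMod p) Λ
  -- the elements of the group of the eigenvalues are algebraic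
  have hG : ∀ u ∈ R.eigG g, IsAlgebraic K₀ ((u : Ωˣ) : Ω) := by
    intro u hu
    unfold Rep.eigG at hu
    induction hu using Subgroup.closure_induction with
    | mem u hu =>
      exact isAlgebraic_algebraMap (⟨(u : Ω), Algebra.subset_adjoin hu⟩ : K₀)
    | one =>
      rw [Units.val_one]
      exact isAlgebraic_one
    | mul a b _ _ ha hb =>
      rw [Units.val_mul]
      exact ha.mul hb
    | inv a _ ha =>
      rw [Units.val_inv_eq_inv_val]
      exact ha.inv
  have hroot : ∀ l, ∀ μ ∈ (R.ρ g).charpoly.roots, IsAlgebraic K₀ (s l μ) := by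
    intro l μ hμ
    obtain ⟨e, he, u, hu, hue⟩ := hs l g μ ((Polynomial.mem_roots hne).1 hμ)
    refine IsAlgebraic.of_pow he ?_
    rw [← hue]
    exact hG u hu
  have hsum : ∀ (l : Fin (n + 1)) (M : Multiset Ω), (∀ μ ∈ M, IsAlgebraic K₀ (s l μ)) →
      IsAlgebraic K₀ (s l M.sum) := by
    intro l M
    induction M using Multiset.induction_on with
    | empty =>
      intro _
      rw [Multiset.sum_zero, map_zero]
      exact isAlgebraic_zero
    | cons a M ih =>
      intro h
      rw [Multiset.sum_cons, map_add]
      exact (h a (Multiset.mem_cons_self a M)).add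
        (ih fun μ hμ => h μ (Multiset.mem_cons_of_mem hμ))
  have hf : ∀ l, IsAlgebraic K₀ (f l) := by
    intro l
    change IsAlgebraic K₀ (s l (R.ρ g).trace)
    rw [Matrix.trace_eq_sum_roots_charpoly]
    exact hsum l _ (hroot l)
  -- the matroid
  have hsub : Set.range f ⊆ (AlgebraicIndependent.matroid (ZMod p) Ω).closure Λ := by
    rw [AlgebraicIndependent.matroid_closure_eq]
    rintro _ ⟨l, rfl⟩
    exact (Subalgebra.mem_algebraicClosure _ _).2 (hf l)
  have hI : (AlgebraicIndependent.matroid (ZMod p) Ω).Indep (Set.range f) :=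
    AlgebraicIndependent.matroid_indep_iff.2 hind.coe_range
  have h1 := hI.encard_le_eRk_of_subset hsub
  rw [Matroid.eRk_closure_eq] at h1
  have h2 := h1.trans ((AlgebraicIndependent.matroid (ZMod p) Ω).eRk_le_encard Λ)
  have h3 : Λ = ((R.ρ g).charpoly.roots.toFinset : Set Ω) := by
    ext μ
    rw [Finset.mem_coe, Multiset.mem_toFinset, Polynomial.mem_roots hne]
    exact Iff.rfl
  have h6 : (Set.range f).encard = ((n + 1 : ℕ) : ℕ∞) := by
    rw [← Set.image_univ, (hind.injective.injOn).encard_image, Set.encard_univ,
      ENat.card_eq_coe_fintype_card, Fintype.card_fin]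
  rw [h6, h3, Set.encard_coe_eq_coe_finsetCard] at h2
  have h4 : (R.ρ g).charpoly.roots.toFinset.card ≤ n := by
    refine (Multiset.toFinset_card_le _).trans ((Polynomial.card_roots' _).trans ?_)
    rw [Matrix.charpoly_natDegree_eq_dim, Fintype.card_fin]
  have h5 : (n + 1 : ℕ) ≤ (R.ρ g).charpoly.roots.toFinset.card := by exact_mod_cast h2
  omega

end MP35
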