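import Pool.Agent.Lib_MP_3538b5_al.QCts
import Pool.Agent.Lib_MP_3538b5_al.RLoc
import Pool.Agent.Lib_MP_3538b5_al.RVal

/-! # Piece QVAL: valuations and small elements -/

set_option autoImplicit false

namespace MP35

universe u v w x y

variable {T : Type v} [CommRing T] [TopologicalSpace T] [CNR T] [IsDomain T] {Ω : Type v} [Field Ω]
  [Algebra T Ω]

/-- PROOF. `T` is local (`isLocalRing_of_cnr`); `exists_dominating` (RVal) for its maximal ideal (`mem_maximalIdeal_iff`). -/
theorem exists_val (hT : Function.Injective (algebraMap T Ω)) : ∃ O : ValuationSubring Ω,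
    (∀ t : T, algebraMap T Ω t ∈ O) ∧
      ∀ t : T, IsTopologicallyNilpotent t → algebraMap T Ω t ∈ O.nonunits := by
  have := isLocalRing_of_cnr T
  obtain ⟨O, h1, h2⟩ := exists_dominating hT (IsLocalRing.maximalIdeal T) inferInstance
  exact ⟨O, h1, fun t ht => (h2 t).2 (mem_maximalIdeal_iff.2 ht)⟩

/-- PROOF. `T` is local and its maximal ideal is open (RLoc); if it is zero, `T` is discrete and compact, so finite. -/
theorem exists_tn_ne_zero [Infinite T] : ∃ t : T, t ≠ 0 ∧ IsTopologicallyNilpotent t := by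
  have := isLocalRing_of_cnr T
  by_contra hcon
  push Not at hcon
  have hopen : IsOpen ((IsLocalRing.maximalIdeal T : Ideal T) : Set T) := isOpen_maximalIdeal
  have h0 : ((IsLocalRing.maximalIdeal T : Ideal T) : Set T) = {0} := by
    ext t
    constructor
    · intro ht
      by_contra hne
      exact hcon t hne (mem_maximalIdeal_iff.1 ht)
    · rintro rfl
      exact zero_mem _
  rw [h0] at hopen
  have : DiscreteTopology T := discreteTopology_of_isOpen_singleton_zero hopen
  have : Finite T := finite_of_compact_of_discrete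
  exact not_finite T

/-- PROOF. `x` is a root of a monic polynomial over `T`; dividing by a power of `X` we may assume that the constant term `c` is not zero (`Ω` is a field, `T → Ω` injective), and `x * y = - c` with `y` a polynomial in `x`, so integral. -/
theorem exists_mul_eq (hT : Function.Injective (algebraMap T Ω)) {x : Ω} (hx : IsIntegral T x)
    (h0 : x ≠ 0) : ∃ (t : T) (y : Ω), t ≠ 0 ∧ IsIntegral T y ∧ x * y = algebraMap T Ω t := by
  obtain ⟨y, hy, t, ht, h⟩ :=
    hx.isAlgebraic.exists_nonzero_eq_adjoin_mul (mem_nonZeroDivisors_of_ne_zero h0)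
  exact ⟨t, y, ht, adjoin_le_integralClosure hx hy, h⟩

/-- Topologically nilpotent elements of a finite subalgebra.
PROOF. Let `B` be a finite `T`-subalgebra containing `x`, with the module topology a compact noetherian domain (`cnr_of_finite`). By `isUnit_or_tn` `x` is a unit in `B` or topologically nilpotent; if it were a unit, `x⁻¹ ∈ B` would be integral. So `x` is in the maximal ideal `m` of the local ring `B`. The prime ideal `Q` of the elements of `B` which are
in `O.nonunits` (`B ≤ O` by `mem_of_isIntegral`) contracts to the maximal ideal of `T` (`hm`), so it is maximal (`Ideal.isMaximal_of_isIntegral_of_isMaximal_comap`), `Q = m ∋ x`. -/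
theorem mem_nonunits_of_integral (O : ValuationSubring Ω) (hO : ∀ t : T, algebraMap T Ω t ∈ O)
    (hm : ∀ t : T, IsTopologicallyNilpotent t → algebraMap T Ω t ∈ O.nonunits) {x : Ω}
    (hx : IsIntegral T x) (hx' : ¬ IsIntegral T x⁻¹) : x ∈ O.nonunits := by
  have hfin := Algebra.finite_adjoin_simple_of_isIntegral hx
  let B := Algebra.adjoin T ({x} : Set Ω)
  let _ : TopologicalSpace B := moduleTopology T B
  have hmod : IsModuleTopology T B := ⟨rfl⟩
  have hcnr : CNR B := cnr_of_finite T B
  have hint : ∀ b : B, IsIntegral T (b : Ω) := fun b => adjoin_le_integralClosure hx b.2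
  have hloc := isLocalRing_of_cnr B
  have hlocT := isLocalRing_of_cnr T
  let b : B := ⟨x, Algebra.self_mem_adjoin_singleton T x⟩
  have hb : IsTopologicallyNilpotent b := by
    rcases isUnit_or_tn b with h | h
    · obtain ⟨u, hu⟩ := h
      exfalso
      refine hx' ?_
      have h1 : x * ((u⁻¹ : Bˣ) : B) = 1 := by
        have h2 : (u : B) * ((u⁻¹ : Bˣ) : B) = 1 := u.mul_inv
        rw [hu] at h2
        exact congrArg Subtype.val h2
      have h3 : x⁻¹ = (((u⁻¹ : Bˣ) : B) : Ω) := (eq_inv_of_mul_eq_one_right h1).symm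
      rw [h3]
      exact hint _
    · exact h
  let f : B →+* O := (algebraMap B Ω).codRestrict O fun b => mem_of_isIntegral O hO (hint b)
  let Q : Ideal B := (IsLocalRing.maximalIdeal O).comap f
  have hQ : Q.IsPrime := Ideal.comap_isPrime _ _
  have hQT : Q.comap (algebraMap T B) = IsLocalRing.maximalIdeal T := by
    have hP : (Q.comap (algebraMap T B)).IsPrime := Ideal.comap_isPrime _ _
    refine ((IsLocalRing.maximalIdeal.isMaximal T).eq_of_le hP.ne_top fun t ht => ?_).symm
    have h1 : (((f (algebraMap T B t)) : O) : Ω) ∈ O.nonunits := hm t (mem_maximalIdeal_iff.1 ht)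
    exact O.coe_mem_nonunits_iff.1 h1
  have hmax : Q.IsMaximal := by
    refine Ideal.isMaximal_of_isIntegral_of_isMaximal_comap (R := T) Q ?_
    rw [hQT]
    infer_instance
  have hbQ : b ∈ Q := by
    rw [IsLocalRing.eq_maximalIdeal hmax]
    exact mem_maximalIdeal_iff.2 hb
  exact O.coe_mem_nonunits_iff.2 hbQ

/-- PROOF. Let `B` be a finite subalgebra containing `x⁻¹` and `t`-multiples: suppose `x = algebraMap t * y`, `y` integral, and `x⁻¹` integral. In a finite subalgebra `B` containing `y` and `x⁻¹` the element `t` is topologically nilpotent (`algebraMap T B` is continuous) and `t * (y * x⁻¹) = 1`, contradiction to `not_isUnit_of_tn`. -/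
theorem not_isIntegral_inv {t : T} (ht : IsTopologicallyNilpotent t) {y : Ω} (hy : IsIntegral T y)
    (hne : algebraMap T Ω t * y ≠ 0) : ¬ IsIntegral T (algebraMap T Ω t * y)⁻¹ := by
  intro hcon
  have h1 := Algebra.finite_adjoin_simple_of_isIntegral hy
  have h2 := Algebra.finite_adjoin_simple_of_isIntegral hcon
  have h3 := Subalgebra.finite_sup (Algebra.adjoin T ({y} : Set Ω))
    (Algebra.adjoin T ({(algebraMap T Ω t * y)⁻¹} : Set Ω))
  let B := Algebra.adjoin T ({y} : Set Ω) ⊔ Algebra.adjoin T ({(algebraMap T Ω t * y)⁻¹} : Set Ω)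
  let _ : TopologicalSpace B := moduleTopology T B
  have hmod : IsModuleTopology T B := ⟨rfl⟩
  have hcnr : CNR B := cnr_of_finite T B
  have hc : Continuous (algebraMap T B) :=
    IsModuleTopology.continuous_of_linearMap (Algebra.linearMap T B)
  have h4 : IsTopologicallyNilpotent (algebraMap T B t) := ht.map hc
  refine not_isUnit_of_tn h4 ?_
  have hy1 : y ∈ B := (le_sup_left : _ ≤ B) (Algebra.self_mem_adjoin_singleton T y)
  have hy2 : (algebraMap T Ω t * y)⁻¹ ∈ B :=
    (le_sup_right : _ ≤ B) (Algebra.self_mem_adjoin_singleton T _)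
  refine IsUnit.of_mul_eq_one (⟨y, hy1⟩ * ⟨_, hy2⟩) (Subtype.ext ?_)
  show algebraMap T Ω t * (y * (algebraMap T Ω t * y)⁻¹) = 1
  rw [← mul_assoc, mul_inv_cancel₀ hne]

/-- PROOF. In a finite subalgebra `B` containing `y`, `t y` is topologically nilpotent, so not a unit, and `1 + t y` is not topologically nilpotent (else `1` would be), so it is a unit (`isUnit_or_tn`). -/
theorem isIntegral_one_add_inv {t : T} (ht : IsTopologicallyNilpotent t) {y : Ω}
    (hy : IsIntegral T y) :
    1 + algebraMap T Ω t * y ≠ 0 ∧ IsIntegral T (1 + algebraMap T Ω t * y)⁻¹ := by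
  have hfin := Algebra.finite_adjoin_simple_of_isIntegral hy
  let B := Algebra.adjoin T ({y} : Set Ω)
  let _ : TopologicalSpace B := moduleTopology T B
  have hmod : IsModuleTopology T B := ⟨rfl⟩
  have hcnr : CNR B := cnr_of_finite T B
  have hloc := isLocalRing_of_cnr B
  have hc : Continuous (algebraMap T B) :=
    IsModuleTopology.continuous_of_linearMap (Algebra.linearMap T B)
  let b : B := algebraMap T B t * ⟨y, Algebra.self_mem_adjoin_singleton T y⟩
  have hb : IsTopologicallyNilpotent b := (ht.map hc).mul_right _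
  have h1 : IsUnit (1 + b) := by
    rcases isUnit_or_tn (1 + b) with h | h
    · exact h
    · exfalso
      have h2 : (1 : B) ∈ IsLocalRing.maximalIdeal B := by
        have h3 := Ideal.sub_mem _ (mem_maximalIdeal_iff.2 h) (mem_maximalIdeal_iff.2 hb)
        rwa [add_sub_cancel_right] at h3
      exact (Ideal.ne_top_iff_one _).1 (IsLocalRing.maximalIdeal.isMaximal B).ne_top h2
  obtain ⟨u, hu⟩ := h1
  have h4 : (1 + algebraMap T Ω t * y) * (((u⁻¹ : Bˣ) : B) : Ω) = 1 := by
    have h2 : (u : B) * ((u⁻¹ : Bˣ) : B) = 1 := u.mul_inv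
    rw [hu] at h2
    exact congrArg Subtype.val h2
  refine ⟨left_ne_zero_of_mul_eq_one h4, ?_⟩
  rw [(eq_inv_of_mul_eq_one_right h4).symm]
  exact adjoin_le_integralClosure hy ((u⁻¹ : Bˣ) : B).2

/-- PROOF. `s t` is integral (`CtsAut.isIntegral`). If `(s t)⁻¹` is integral, so is `t⁻¹ = s⁻¹ ((s t)⁻¹)`, contradiction to `not_isIntegral_inv` (`y = 1`; `t ≠ 0`). Now `mem_nonunits_of_integral`. (If `t = 0` clear.) -/
theorem aut_mem_nonunits (O : ValuationSubring Ω) (hO : ∀ t : T, algebraMap T Ω t ∈ O)
    (hm : ∀ t : T, IsTopologicallyNilpotent t → algebraMap T Ω t ∈ O.nonunits)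
    (hT : Function.Injective (algebraMap T Ω)) {s : RingAut Ω} (hs : CtsAut T s)
    (hs' : CtsAut T s⁻¹) {t : T} (ht : IsTopologicallyNilpotent t) :
    s (algebraMap T Ω t) ∈ O.nonunits := by
  by_cases h0 : t = 0
  · subst h0
    rw [map_zero, map_zero, ValuationSubring.mem_nonunits_iff, map_zero]
    exact zero_lt_one
  refine mem_nonunits_of_integral O hO hm (hs.isIntegral isIntegral_algebraMap) fun hcon => ?_
  have h1 := hs'.isIntegral hcon
  rw [map_inv₀] at h1
  have h2 : s⁻¹ (s (algebraMap T Ω t)) = algebraMap T Ω t := s.symm_apply_apply _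
  rw [h2] at h1
  have h3 := not_isIntegral_inv (Ω := Ω) ht isIntegral_one (by
    rw [mul_one]
    exact fun h => h0 (hT (h.trans (map_zero _).symm)))
  rw [mul_one] at h3
  exact h3 h1

/-- PROOF. If `c = 0` take `t` of `exists_tn_ne_zero`. Otherwise `c = O.valuation x`, `x = a / b` with `a` integral over `T` and `b ≠ 0` in `T` (`Ω` is algebraic over `T`), so `c ≤ (O.valuation b)⁻¹`. For each `i` the element `(s i)⁻¹ b` is integral and not zero, so `(s i)⁻¹ b * y_i = t_i`, `t_i ≠ 0` in `T`, `y_i` integral (`exists_mul_eq`); then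
`s i t_i = b * s i y_i` has valuation `≤` that of `b`. `t = t' * ∏ t_i` with `t'` of `exists_tn_ne_zero`: `O.valuation (s i t) ≤ O.valuation (s i t') * O.valuation b`, and `O.valuation (s i t') < 1` (`aut_mem_nonunits`). -/
theorem exists_small [Infinite T] [Algebra.IsAlgebraic T Ω] (O : ValuationSubring Ω)
    (hO : ∀ t : T, algebraMap T Ω t ∈ O)
    (hm : ∀ t : T, IsTopologicallyNilpotent t → algebraMap T Ω t ∈ O.nonunits)
    (hT : Function.Injective (algebraMap T Ω)) {ι : Type} [Finite ι] (s : ι → RingAut Ω)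
    (hs : ∀ i, CtsAut T (s i)) (hs' : ∀ i, CtsAut T (s i)⁻¹) (c : O.ValueGroup) :
    ∃ t : T, t ≠ 0 ∧ IsTopologicallyNilpotent t ∧
      ∀ i, O.valuation (s i (algebraMap T Ω t)) * c < 1 := by
  obtain ⟨t', ht', htn⟩ := exists_tn_ne_zero (T := T)
  have hle : ∀ x : Ω, IsIntegral T x → O.valuation x ≤ 1 := fun x hx =>
    (O.valuation_le_one_iff x).2 (mem_of_isIntegral O hO hx)
  by_cases hc : c = 0
  · refine ⟨t', ht', htn, fun i => ?_⟩
    rw [hc, mul_zero]
    exact zero_lt_one
  have := Fintype.ofFinite ι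
  obtain ⟨x, hx⟩ := O.valuation_surjective c
  obtain ⟨b, hb, hbx⟩ := (Algebra.IsAlgebraic.isAlgebraic (R := T) x).exists_integral_multiple
  have hb0 : algebraMap T Ω b ≠ 0 := fun h => hb (hT (h.trans (map_zero _).symm))
  have h1 : O.valuation (algebraMap T Ω b) * c ≤ 1 := by
    rw [← hx, ← map_mul, ← Algebra.smul_def]
    exact hle _ hbx
  choose ti yi hti hyi hmul using fun i => exists_mul_eq hT
    ((hs' i).isIntegral (isIntegral_algebraMap (x := b)))
    (fun h => hb0 ((map_eq_zero (s i)⁻¹).1 h))
  have h2 : ∀ i, O.valuation (s i (algebraMap T Ω (ti i))) ≤ O.valuation (algebraMap T Ω b) := by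
    intro i
    rw [← hmul i, map_mul, map_mul]
    have h3 : s i ((s i)⁻¹ (algebraMap T Ω b)) = algebraMap T Ω b := (s i).apply_symm_apply _
    rw [h3]
    exact mul_le_of_le_one_right' (hle _ ((hs i).isIntegral (hyi i)))
  refine ⟨t' * ∏ i, ti i, mul_ne_zero ht' (Finset.prod_ne_zero_iff.2 fun i _ => hti i),
    htn.mul_right _, fun i => ?_⟩
  have h4 : O.valuation (s i (algebraMap T Ω (∏ j, ti j))) ≤ O.valuation (algebraMap T Ω b) := by
    classical
    rw [← Finset.mul_prod_erase Finset.univ ti (Finset.mem_univ i), map_mul, map_mul, map_mul]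
    refine (mul_le_of_le_one_right' (hle _ ((hs i).isIntegral isIntegral_algebraMap))).trans (h2 i)
  have h5 : O.valuation (s i (algebraMap T Ω t')) < 1 :=
    O.mem_nonunits_iff.1 (aut_mem_nonunits O hO hm hT (hs i) (hs' i) htn)
  rw [map_mul, map_mul, map_mul, mul_assoc]
  refine (mul_le_of_le_one_right' ?_).trans_lt h5
  exact (mul_le_mul_left h4 c).trans h1

/-- PROOF. The entries of the elements of a finite generating set of the `T`-module `R.A` are algebraic over `T`; take a common denominator `δ` (`exists_integral_multiple`). -/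
theorem Rep.exists_denomQ [Algebra.IsAlgebraic T Ω] {p : ℕ} {G : Type u} [Group G]
    [TopologicalSpace G] {n : ℕ} (R : Rep p G T Ω n) :
    ∃ δ : T, δ ≠ 0 ∧ ∀ a ∈ R.A, ∀ i j, IsIntegral T (algebraMap T Ω δ * a i j) := by
  classical
  obtain ⟨S, hS⟩ := (Module.finite_def.1 (R.finA))
  let s : Finset Ω := S.biUnion fun a => Finset.univ.biUnion fun i : Fin n =>
    Finset.univ.image fun j : Fin n => (a : Matrix (Fin n) (Fin n) Ω) i j
  obtain ⟨δ, hδ, h⟩ := Algebra.IsAlgebraic.exists_integral_multiples T s
  refine ⟨δ, hδ, fun a ha => ?_⟩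
  have key : ∀ a : R.A, ∀ i j, IsIntegral T (algebraMap T Ω δ * (a : Matrix (Fin n) (Fin n) Ω) i j) := by
    intro a
    have ha : a ∈ Submodule.span T (S : Set R.A) := by
      rw [hS]
      trivial
    induction ha using Submodule.span_induction with
    | mem a ha =>
      intro i j
      rw [← Algebra.smul_def]
      refine h _ ?_
      simp only [s, Finset.mem_biUnion, Finset.mem_image, Finset.mem_univ, true_and]
      exact ⟨a, ha, i, j, rfl⟩
    | zero =>
      intro i j
      have h0 : ((0 : R.A) : Matrix (Fin n) (Fin n) Ω) i j = 0 := rfl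
      rw [h0, mul_zero]
      exact isIntegral_zero
    | add a b _ _ ha hb =>
      intro i j
      have h0 : ((a + b : R.A) : Matrix (Fin n) (Fin n) Ω) i j =
        (a : Matrix (Fin n) (Fin n) Ω) i j + (b : Matrix (Fin n) (Fin n) Ω) i j := rfl
      rw [h0, mul_add]
      exact (ha i j).add (hb i j)
    | smul t a _ ha =>
      intro i j
      have h0 : ((t • a : R.A) : Matrix (Fin n) (Fin n) Ω) i j =
        t • (a : Matrix (Fin n) (Fin n) Ω) i j := rfl
      rw [h0, mul_smul_comm]
      exact (ha i j).smul t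
  exact key ⟨a, ha⟩

end MP35
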