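import Pool.Agent.Lib_MP_3538b5_al.FDefs
import Pool.Agent.Lib_MP_3538b5_al.RSpan
import Pool.Agent.Lib_MP_3538b5_al.GComm

/-! # Piece QVIS: visibility -/

set_option autoImplicit false

namespace MP35

universe u v w x y

open scoped commutatorElement

variable {p : ℕ} [Fact p.Prime] {G : Type u} [Group G] [TopologicalSpace G] [IsTopologicalGroup G]
  [CompactSpace G] [T2Space G] [TotallyDisconnectedSpace G] {T : Type v} [CommRing T]
  [TopologicalSpace T] [CNR T] [IsDomain T] {Ω : Type v} [Field Ω] [IsAlgClosed Ω]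
  [Algebra T Ω] {n : ℕ} {R : Rep p G T Ω n}

/-- PROOF. `Rep.span_top` (RSpan) for the restriction to `H` (`R.res H`) and `hR.opt.nmin`; `PF p H` by `PF.sub`. -/
theorem span_res {k : ℕ} (hR : MCore R k) {H : Subgroup G} (hH : IsClosed (H : Set G))
    (hnc : ∃ x ∈ H, ∃ y ∈ H, x * y ≠ y * x) :
    Submodule.span Ω (Set.range fun h : H => R.ρ h) = ⊤ := by
  haveI : CompactSpace H := isCompact_iff_compactSpace.1 hH.isCompact
  exact Rep.span_top hR.opt.nmin (hR.pf.sub hH hnc) (R.res H)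

/-- A matrix `x` with `Ad g x - x` scalar for all `g` is scalar. -/
theorem scalar_of_Ad {k : ℕ} (hR : MCore R k) {x : Matrix (Fin n) (Fin n) Ω}
    (hx : ∀ g, ∃ c : Ω, R.Ad g x - x = c • 1) : ∃ c : Ω, x = c • 1 := by
  choose c hc using hx
  have hAd1 : ∀ g (d : Ω), R.Ad g (d • (1 : Matrix (Fin n) (Fin n) Ω)) = d • 1 := by
    intro g d
    rw [map_smul, Rep.Ad_apply, mul_one, ← map_mul, mul_inv_cancel, map_one]
  have hAd : ∀ g, R.Ad g x = x + c g • 1 := fun g => by rw [← hc g]; abel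
  have hmul : ∀ g h, R.Ad (g * h) x = R.Ad g (R.Ad h x) := fun g h => by
    have := R.adH.map_mul g h
    exact congrArg (fun f => f x) this
  let H : Subgroup G :=
    { carrier := {g | R.Ad g x = x}
      one_mem' := by
        show R.Ad 1 x = x
        rw [Rep.Ad_apply, inv_one, map_one, one_mul, mul_one]
      mul_mem' := fun {a b} ha hb => by
        show R.Ad (a * b) x = x
        rw [hmul, show R.Ad b x = x from hb, show R.Ad a x = x from ha]
      inv_mem' := fun {a} ha => by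
        show R.Ad a⁻¹ x = x
        have h1 : R.Ad a x = x := ha
        have h2 := hmul a⁻¹ a
        rw [inv_mul_cancel, h1] at h2
        rw [← h2, Rep.Ad_apply, inv_one, map_one, one_mul, mul_one] }
  have hcomm : commutator G ≤ H := by
    refine Subgroup.commutator_le.2 fun g _ h _ => ?_
    show R.Ad ⁅g, h⁆ x = x
    have e1 : R.Ad (g * h) x = R.Ad (h * g) x := by
      rw [hmul, hmul, hAd h, hAd g, map_add, map_add, hAd1, hAd1, hAd g, hAd h]
      abel
    have e2 : ⁅g, h⁆ = (g * h) * (h * g)⁻¹ := by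
      rw [commutatorElement_def]; group
    have e3 : R.Ad (h * g) (R.Ad (h * g)⁻¹ x) = x := by
      rw [← hmul, mul_inv_cancel, Rep.Ad_apply, inv_one, map_one, one_mul, mul_one]
    have e4 : R.Ad (h * g)⁻¹ (R.Ad (h * g) x) = x := by
      rw [← hmul, inv_mul_cancel, Rep.Ad_apply, inv_one, map_one, one_mul, mul_one]
    have e5 : R.Ad (h * g)⁻¹ x = x + c ((h * g)⁻¹) • 1 := hAd _
    rw [e2, hmul, e5, map_add, hAd1, e1, ← hAd1 (h * g), ← map_add, ← e5, e3]
  have hHcl : IsClosed (H : Set G) := by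
    let S : Submodule T R.A :=
      { carrier := {a | (a : Matrix (Fin n) (Fin n) Ω) * x = x * (a : Matrix (Fin n) (Fin n) Ω)}
        zero_mem' := by simp
        add_mem' := fun {a b} ha hb => by
          show ((a + b : R.A) : Matrix (Fin n) (Fin n) Ω) * x = x * ((a + b : R.A) : _)
          rw [AddMemClass.coe_add, add_mul, mul_add, show (a : Matrix (Fin n) (Fin n) Ω) * x = _ from ha,
            show (b : Matrix (Fin n) (Fin n) Ω) * x = _ from hb]
        smul_mem' := fun t a ha => by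
          show ((t • a : R.A) : Matrix (Fin n) (Fin n) Ω) * x = x * ((t • a : R.A) : _)
          rw [SetLike.val_smul, smul_mul_assoc, show (a : Matrix (Fin n) (Fin n) Ω) * x = _ from ha,
            mul_smul_comm] }
    have h1 : IsClosed (S : Set R.A) := isClosed_submodule S
    have h2 : (H : Set G) = R.j ⁻¹' (S : Set R.A) := by
      ext g
      show R.Ad g x = x ↔ R.ρ g * x = x * R.ρ g
      rw [Rep.Ad_apply]
      have h3 : R.ρ g⁻¹ * R.ρ g = 1 := by rw [← map_mul, inv_mul_cancel, map_one]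
      have h4 : R.ρ g * R.ρ g⁻¹ = 1 := by rw [← map_mul, mul_inv_cancel, map_one]
      constructor
      · intro h
        calc R.ρ g * x = R.ρ g * x * (R.ρ g⁻¹ * R.ρ g) := by rw [h3, mul_one]
          _ = R.ρ g * x * R.ρ g⁻¹ * R.ρ g := by rw [← mul_assoc]
          _ = x * R.ρ g := by rw [h]
      · intro h
        rw [h, mul_assoc, h4, mul_one]
    rw [h2]
    exact h1.preimage R.cont_j
  obtain ⟨a, ha, b, hb, hab⟩ := commutator_noncomm hR.pf.proP hR.pf.lift hR.pf.nc
  have hspan := span_res hR hHcl ⟨a, hcomm ha, b, hcomm hb, hab⟩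
  have hall : ∀ M : Matrix (Fin n) (Fin n) Ω, M * x = x * M := by
    intro M
    have hM : M ∈ Submodule.span Ω (Set.range fun h : H => R.ρ h) := by rw [hspan]; trivial
    induction hM using Submodule.span_induction with
    | mem M hM =>
      obtain ⟨⟨g, hg⟩, rfl⟩ := hM
      have h1 : R.Ad g x = x := hg
      rw [Rep.Ad_apply] at h1
      have h3 : R.ρ g⁻¹ * R.ρ g = 1 := by rw [← map_mul, inv_mul_cancel, map_one]
      show R.ρ g * x = x * R.ρ g
      calc R.ρ g * x = R.ρ g * x * (R.ρ g⁻¹ * R.ρ g) := by rw [h3, mul_one]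
        _ = R.ρ g * x * R.ρ g⁻¹ * R.ρ g := by rw [← mul_assoc]
        _ = x * R.ρ g := by rw [h1]
    | zero => simp
    | add M N _ _ hM hN => rw [add_mul, mul_add, hM, hN]
    | smul d M _ hM => rw [smul_mul_assoc, mul_smul_comm, hM]
  obtain ⟨d, hd⟩ := Matrix.mem_range_scalar_of_commute_single (M := x)
    (fun i j _ => (hall (Matrix.single i j 1)))
  refine ⟨d, ?_⟩
  rw [← hd, Matrix.scalar_apply, Matrix.smul_one_eq_diagonal]

/-- A subspace stable under `Ad` on which all `Ad g - 1` are nilpotent in a flag contains only scalars. -/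
theorem scalar_of_flag {k : ℕ} (hR : MCore R k) {Φ : R.Fl}
    {M : Submodule Ω (Matrix (Fin n) (Fin n) Ω)}
    (h : ∀ g, ∀ i, ∀ x ∈ M, x ∈ Φ.W (i + 1) → R.Ad g x - x ∈ M ∧ R.Ad g x - x ∈ Φ.W i)
    {x : Matrix (Fin n) (Fin n) Ω} (hx : x ∈ M) : ∃ c : Ω, x = c • 1 := by
  have key : ∀ i, ∀ x ∈ M, x ∈ Φ.W i → ∃ c : Ω, x = c • 1 := by
    intro i
    induction i with
    | zero =>
      intro x _ hx
      rw [Φ.bot] at hx
      exact ⟨0, by rw [(Submodule.mem_bot Ω).1 hx, zero_smul]⟩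
    | succ i ih =>
      intro x hxM hx
      exact scalar_of_Ad hR fun g => ih _ (h g i x hxM hx).1 (h g i x hxM hx).2
  exact key Φ.l x hx (by rw [Φ.top]; trivial)

/-- **Visibility.** -/
theorem vis {k : ℕ} (hR : MCore R k) {Φ : R.Fl} (𝓕 : R.Fams Φ)
    (E : ∀ κ, (𝓕.fam κ).ι → Module.End Ω (Matrix (Fin n) (Fin n) Ω))
    (hE : ∀ κ j, ∀ i < Φ.l, Φ.Acts (E κ j) i (if (𝓕.fam κ).lab i = some j then 1 else 0))
    {x : Matrix (Fin n) (Fin n) Ω} (hx : ∀ κ j, ∀ y ∈ R.CC, E κ j (y x) = 0) :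
    ∃ c : Ω, x = c • 1 := by
  let M : Submodule Ω (Matrix (Fin n) (Fin n) Ω) :=
    { carrier := {v | ∀ κ j, ∀ y ∈ R.CC, E κ j (y v) = 0}
      zero_mem' := fun κ j y _ => by rw [map_zero, map_zero]
      add_mem' := fun {a b} ha hb κ j y hy => by
        rw [map_add, map_add, ha κ j y hy, hb κ j y hy, add_zero]
      smul_mem' := fun c a ha κ j y hy => by
        rw [map_smul, map_smul, ha κ j y hy, smul_zero] }
  have hM : ∀ v, v ∈ M ↔ ∀ κ j, ∀ y ∈ R.CC, E κ j (y v) = 0 := fun v => Iff.rfl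
  have hAd : ∀ g, ∀ v ∈ M, R.Ad g v ∈ M := by
    intro g v hv
    rw [hM] at hv ⊢
    intro κ j y hy
    exact hv κ j (y * R.Ad g) (R.CC.mul_mem hy (R.Ad_mem_CC g))
  refine scalar_of_flag hR (M := M) (Φ := Φ) (fun g i v hv hvi => ⟨M.sub_mem (hAd g v hv) hv, ?_⟩) hx
  rcases lt_or_ge i Φ.l with hi | hi
  · by_cases ht : Φ.Triv i
    · have := ht (R.Ad g) ⟨g, rfl⟩ v hvi
      rwa [one_smul] at this
    · obtain ⟨κ, hκ, -⟩ := 𝓕.nontriv i hi ht
      obtain ⟨j, hj⟩ := Option.ne_none_iff_exists'.1 hκ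
      have h1 := hE κ j i hi v hvi
      rw [if_pos hj, one_smul] at h1
      have h2 := (hM v).1 hv κ j 1 R.CC.one_mem
      rw [Module.End.one_apply] at h2
      rw [h2, zero_sub, Submodule.neg_mem_iff] at h1
      exact Submodule.sub_mem _ (Φ.stable _ ⟨g, rfl⟩ i v h1) h1
  · rw [Φ.W_top hi]
    trivial

end MP35
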