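import Pool.Agent.Lib_MP_3538b5_al.QKey
import Pool.Agent.Lib_MP_3538b5_al.QMin
import Pool.Agent.Lib_MP_3538b5_al.QRel
import Pool.Agent.Lib_MP_3538b5_al.QVal
import Pool.Agent.Lib_MP_3538b5_al.QVis
import Pool.Agent.Lib_MP_3538b5_al.QAut

/-! # Theorem Q -/

set_option autoImplicit false

namespace MP35

universe u v w x y

set_option linter.unusedSectionVars false

section group

variable {p : ℕ} [Fact p.Prime] {G : Type u} [Group G] [TopologicalSpace G] [IsTopologicalGroup G]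
  [CompactSpace G] [T2Space G] [TotallyDisconnectedSpace G]

/-- central elements are trivial -/
theorem eq_one_of_central (hG : PF p G) {z : G} (hz : ∀ g, z * g = g * z) : z = 1 := by
  by_contra hne
  have h1 : (Subgroup.center G) ≠ ⊥ := by
    intro h
    have h2 : z ∈ Subgroup.center G := Subgroup.mem_center_iff.2 fun g => (hz g).symm
    rw [h, Subgroup.mem_bot] at h2
    exact hne h2
  obtain ⟨x, hx, y, hy, hxy⟩ := normal_noncomm hG.proP hG.lift (Subgroup.center G) inferInstance h1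
    hG.nc
  exact hxy (Subgroup.mem_center_iff.1 hy x)

/-- open normal subgroups are not commutative -/
theorem open_noncomm (hG : PF p G) (hinf : Infinite G) {H : Subgroup G} (hHn : H.Normal)
    (hH : IsOpen (H : Set G)) : ∃ x ∈ H, ∃ y ∈ H, x * y ≠ y * x := by
  refine normal_noncomm hG.proP hG.lift H hHn ?_ hG.nc
  rintro rfl
  have h1 : Finite (G ⧸ (⊥ : Subgroup G)) := Subgroup.quotient_finite_of_isOpen _ hH
  have h2 : Finite G := by
    refine Finite.of_injective (fun g : G => (g : G ⧸ (⊥ : Subgroup G))) fun a b hab => ?_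
    have := QuotientGroup.eq.1 hab
    rw [Subgroup.mem_bot, inv_mul_eq_one] at this
    exact this
  exact not_finite G

/-- an open set contains a coset of an open normal subgroup -/
theorem exists_coset {U : Set G} (hU : IsOpen U) {g₀ : G} (hg₀ : g₀ ∈ U) :
    ∃ H : Subgroup G, H.Normal ∧ IsOpen (H : Set G) ∧ ∀ h ∈ H, g₀ * h ∈ U := by
  have h1 : IsOpen ((fun h => g₀ * h) ⁻¹' U) := hU.preimage (continuous_const.mul continuous_id)
  obtain ⟨H, hH⟩ := ProfiniteGrp.exist_openNormalSubgroup_sub_open_nhds_of_one h1 (by simpa using hg₀)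
  exact ⟨H.toSubgroup, H.isNormal', H.isOpen, fun h hh => hH hh⟩

end group

section rep

variable {p : ℕ} [Fact p.Prime] {G : Type u} [Group G] [TopologicalSpace G] [IsTopologicalGroup G]
  [CompactSpace G] [T2Space G] [TotallyDisconnectedSpace G] {T : Type v} [CommRing T]
  [TopologicalSpace T] [CNR T] [IsDomain T] {Ω : Type v} [Field Ω] [IsAlgClosed Ω] [CharP Ω p]
  [Algebra T Ω] {n k : ℕ} {R : Rep p G T Ω n}

theorem infinite_G (hG : PF p G) : Infinite G := by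
  by_contra hfin
  rw [not_infinite_iff_finite] at hfin
  obtain ⟨x, y, hxy⟩ := hG.nc
  have h1 : ∀ g : G, g = 1 := fun g =>
    eq_one_of_pow hG.proP hG.lift (n := Nat.card G) (Nat.card_pos.ne') pow_card_eq_one'
  exact hxy (by rw [h1 x, h1 y])

theorem n_pos (hR : MCore R k) : 0 < n := by
  rcases Nat.eq_zero_or_pos n with rfl | h
  · exfalso
    obtain ⟨x, y, hxy⟩ := hR.pf.nc
    exact hxy (R.inj (Subsingleton.elim _ _))
  · exact h

/-- fullness passes to open subgroups (characteristic `p`) -/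
theorem full_res_open (hR : MCore R k) {H : Subgroup G} (hHn : H.Normal)
    (hH : IsOpen (H : Set G)) : (R.res H).Full := by
  intro O hO hp hU
  refine hR.full O hO hp fun g μ hμ => ?_
  obtain ⟨e, he⟩ := hR.pf.proP H hHn hH g
  exact R.sub_one_mem_of_pow O hO hp (fun ν hν => hU ⟨g ^ p ^ e, he⟩ ν hν) hμ

theorem exists_small_elt {H : Subgroup G} (hR : MCore R k) (hH : IsClosed (H : Set G))
    (hnc : ∃ x ∈ H, ∃ y ∈ H, x * y ≠ y * x) (hf : (R.res H).Full) {D : T} (hD : D ≠ 0) :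
    ∃ z ∈ H, z ≠ 1 ∧ ∃ a ∈ R.A, R.ρ z = 1 + D • a := by
  obtain ⟨h, hh, h1⟩ := hR.deep H hH hnc hf D hD
  obtain ⟨x, hx⟩ := (R.res H).mem_NI_span.1 hh
  refine ⟨h, h.2, fun h2 => h1 (Subtype.ext h2), (x : Matrix (Fin n) (Fin n) Ω), ?_, ?_⟩
  · have h3 : (R.res H).A ≤ R.A :=
      Algebra.adjoin_mono (by rintro _ ⟨g, rfl⟩; exact ⟨g, rfl⟩)
    exact h3 x.2
  · exact congrArg Subtype.val hx

/-- The coordinates in terms of the functionals `x ↦ tr (ρ (g₀ h) * E (y x))`. -/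
theorem exists_coord (hR : MCore R k) {K : Type x} {J : K → Type x} [∀ k, Fintype (J k)]
    {E : ∀ k, J k → Module.End Ω (Matrix (Fin n) (Fin n) Ω)}
    {Y : Finset (Module.End Ω (Matrix (Fin n) (Fin n) Ω))}
    (vis : ∀ x : Matrix (Fin n) (Fin n) Ω, (∀ k j, ∀ y ∈ Y, E k j (y x) = 0) →
      ∃ c : Ω, x = c • 1) {H : Subgroup G} (hH : IsClosed (H : Set G))
    (hnc : ∃ x ∈ H, ∃ y ∈ H, x * y ≠ y * x) (g₀ : G) (i₀ : Fin n) :
    ∃ (r : ℕ) (q : Fin r → Option (H × (Σ k, J k) × Y)) (γ : Fin n × Fin n → Fin r → Ω),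
      ∀ b (x : Matrix (Fin n) (Fin n) Ω), x b.1 b.2 = ∑ t, γ b t * (match q t with
        | some a => (R.ρ (g₀ * a.1) * E a.2.1.1 a.2.1.2 (a.2.2.1 x)).trace
        | none => x i₀ i₀) := by
  classical
  let tr : Module.Dual Ω (Matrix (Fin n) (Fin n) Ω) := Matrix.traceLinearMap (Fin n) Ω Ω
  let ℓ : Option (H × (Σ k, J k) × Y) → Module.Dual Ω (Matrix (Fin n) (Fin n) Ω) := fun q =>
    match q with
    | some a => tr ∘ₗ (LinearMap.mulLeft Ω (R.ρ (g₀ * a.1))) ∘ₗ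
        (E a.2.1.1 a.2.1.2) ∘ₗ (a.2.2.1)
    | none => Matrix.entryLinearMap Ω Ω i₀ i₀
  have hℓ : ∀ x : Matrix (Fin n) (Fin n) Ω, (∀ q, ℓ q x = 0) → x = 0 := by
    intro x hx
    have h1 : ∀ k j, ∀ y ∈ Y, E k j (y x) = 0 := by
      intro k j y hy
      have h2 : ∀ M ∈ Submodule.span Ω (Set.range fun h : H => R.ρ h),
          (R.ρ g₀ * M * E k j (y x)).trace = 0 := by
        intro M hM
        induction hM using Submodule.span_induction with
        | mem M hM =>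
          obtain ⟨h, rfl⟩ := hM
          have h3 := hx (some (h, ⟨k, j⟩, ⟨y, hy⟩))
          have h4 : (R.ρ (g₀ * h) * E k j (y x)).trace = 0 := h3
          rwa [map_mul] at h4
        | zero => simp
        | add a b _ _ ha hb => rw [mul_add, add_mul, Matrix.trace_add, ha, hb, add_zero]
        | smul c a _ ha =>
          rw [Matrix.mul_smul, Matrix.smul_mul, Matrix.trace_smul, ha, smul_zero]
      rw [span_res hR hH hnc] at h2
      have h5 : ∀ M : Matrix (Fin n) (Fin n) Ω, (M * E k j (y x)).trace = 0 := by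
        intro M
        have h6 := h2 (R.ρ g₀⁻¹ * M) trivial
        rwa [← mul_assoc, ← map_mul, mul_inv_cancel, map_one, one_mul] at h6
      ext a b
      have h7 := h5 (Matrix.single b a 1)
      rw [Matrix.trace_single_mul] at h7
      simpa using h7
    obtain ⟨c, rfl⟩ := vis x h1
    have h2 : (c • (1 : Matrix (Fin n) (Fin n) Ω)) i₀ i₀ = 0 := hx none
    rw [Matrix.smul_apply, Matrix.one_apply_eq, smul_eq_mul, mul_one] at h2
    rw [h2, zero_smul]
  obtain ⟨r, q, γ, h⟩ := exists_combination ℓ hℓ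
    (β := Fin n × Fin n) fun b => Matrix.entryLinearMap Ω Ω b.1 b.2
  refine ⟨r, q, γ, fun b x => ?_⟩
  have h1 := h b x
  rw [Matrix.entryLinearMap_apply] at h1
  rw [h1]
  refine Finset.sum_congr rfl fun t _ => ?_
  congr 1
  rcases hq : q t with _ | a
  · rfl
  · rfl

/-- **Theorem Q.** -/
theorem theoremQ (hR : MCore R k) {K : Type x} {J : K → Type x} [∀ k, Fintype (J k)]
    {S : K → Type v} [∀ k, CommRing (S k)] [∀ k, TopologicalSpace (S k)]
    {φ : ∀ k, J k → S k →+* Ω} {E : ∀ k, J k → Module.End Ω (Matrix (Fin n) (Fin n) Ω)}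
    {w : ∀ k, S k} {m : K → ℕ} {Y : Finset (Module.End Ω (Matrix (Fin n) (Fin n) Ω))}
    (hF : FamData R φ E w m Y) (s : Fin (n + 1) → RingAut Ω) (hs : ∀ l, s l ∈ Gam R) :
    ∃ l l', l ≠ l' ∧ ∃ k, ∃ i j : J k, ∃ c : ℤ, ∀ x,
      s l (φ k i x) = (FrobA p Ω ^ c) (s l' (φ k j x)) := by
  classical
  by_contra hsep
  push Not at hsep
  let _ : Algebra (ZMod p) Ω := ZMod.algebra Ω p
  have halg := hR.alg
  have hTinf : Infinite T := infinite_of_rep hR.pf R
  have hGinf : Infinite G := infinite_G hR.pf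
  have hn := n_pos hR
  let i₀ : Fin n := ⟨0, hn⟩
  -- the relation
  obtain ⟨P, e, U, hPv, hUo, ⟨g₀, hg₀⟩, hP0, hPD⟩ := exists_min_relation (T := T)
    (fun l g => s l (R.ρ g).trace) (fun l => (R.ctsInt_trace).aut (hs l).1.1)
    (fun g => exists_relation R s (fun l => (hs l).1.2) g)
  let σ : Fin (n + 1) → RingAut Ω := fun l => FrobA p Ω ^ (e l) * s l
  have hσa : ∀ l x, σ l x = (s l x) ^ p ^ e l := fun l x => FrobA_pow_apply p Ω (e l) (s l x)
  have hσΓ : ∀ l, σ l ∈ Gam R := fun l => mul_mem (pow_mem (frobA_mem_Gam R) _) (hs l)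
  have hσi : ∀ l x, IsIntegral T x → IsIntegral T (σ l x) := fun l x hx =>
    (hσΓ l).1.1.isIntegral hx
  have hσi' : ∀ l x, IsIntegral T x → IsIntegral T ((σ l)⁻¹ x) := fun l x hx =>
    (hσΓ l).2.1.isIntegral hx
  have hdist : ∀ k, ∀ i ∈ P.vars, ∀ i' ∈ P.vars, ∀ j j' : J k,
      (∀ x, σ i (φ k j x) = σ i' (φ k j' x)) → i = i' ∧ j = j' := by
    intro k i _ i' _ j j' h
    have h1 : i = i' := by
      by_contra hne
      obtain ⟨x, hx⟩ := hsep i i' hne k j j' ((e i' : ℤ) - e i)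
      apply hx
      have h2 : (FrobA p Ω ^ (e i : ℤ)) (s i (φ k j x))
          = (FrobA p Ω ^ (e i' : ℤ)) (s i' (φ k j' x)) := by
        rw [zpow_natCast, zpow_natCast]
        exact h x
      have h3 := congrArg (FrobA p Ω ^ (-(e i : ℤ))) h2
      have h4 : ∀ (a b : ℤ) (y : Ω), (FrobA p Ω ^ a) ((FrobA p Ω ^ b) y)
          = (FrobA p Ω ^ (a + b)) y := fun a b y => by
        rw [zpow_add]; rfl
      rw [h4, h4, neg_add_cancel, zpow_zero] at h3
      rw [show (e i' : ℤ) - e i = -(e i : ℤ) + e i' by ring]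
      exact h3
    subst h1
    refine ⟨rfl, ?_⟩
    by_contra hne
    exact hF.ne k j j' hne (RingHom.ext fun x => (σ i).injective (h x))
  -- the valuation and the open subgroup
  obtain ⟨O, hO, hm⟩ := exists_val (T := T) (Ω := Ω) R.tinj
  have hO' : ∀ x, IsIntegral T x → x ∈ O := fun x hx => mem_of_isIntegral O hO hx
  obtain ⟨H, hHn, hHo, hHU⟩ := exists_coset hUo hg₀
  have hHc : IsClosed (H : Set G) := H.isClosed_of_isOpen hHo
  have hnc := open_noncomm hR.pf hGinf hHn hHo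
  obtain ⟨r, q, γ, hγ⟩ := exists_coord hR hF.vis hHc hnc g₀ i₀
  have htr : ∀ g, IsIntegral T (R.ρ g).trace := by
    obtain ⟨B, hB, h, -⟩ := R.ctsInt_trace
    intro g
    exact (Algebra.IsIntegral.isIntegral (R := T) (⟨_, h g⟩ : B)).map B.val
  have hfun : ∀ g, (fun i => σ i (R.ρ g).trace) = fun i => (s i (R.ρ g).trace) ^ p ^ e i :=
    fun g => funext fun i => hσa i _
  have hP : ∀ g ∈ U, MvPolynomial.aeval (fun i => σ i (R.ρ g).trace) P = 0 := fun g hg => by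
    rw [hfun]
    exact hP0 g hg
  have hD : ∀ i ∈ P.vars, ∀ g ∈ U, MvPolynomial.aeval (fun i => σ i (R.ρ g).trace)
      (MvPolynomial.pderiv i P) ≠ 0 := fun i hi g hg => by
    rw [hfun]
    exact hPD i hi g hg
  -- the estimates
  let ℓ : Fin r → Matrix (Fin n) (Fin n) Ω → Ω := fun t x => match q t with
    | some a => (R.ρ (g₀ * a.1) * E a.2.1.1 a.2.1.2 (a.2.2.1 x)).trace
    | none => x i₀ i₀
  have hest : ∀ t, ∃ (d : T) (C : O.ValueGroup), d ≠ 0 ∧ 1 ≤ C ∧ ∀ z ∈ H, ∀ (lam : Ω)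
      (X : Matrix (Fin n) (Fin n) Ω), lam ≠ 0 → R.ρ z = lam • (1 + X) → X i₀ i₀ = 0 →
      (∀ a b, ∃ y', IsIntegral T y' ∧ X a b = algebraMap T Ω d * y') → ∀ μ, C * μ ≤ 1 →
      (∀ i ∈ P.vars, ∀ a b, O.valuation (σ i (X a b)) ≤ μ) →
      ∀ i ∈ P.vars, O.valuation (σ i (ℓ t X)) ≤ C * μ ^ 2 := by
    intro t
    rcases hq : q t with _ | ⟨h, ⟨k, j⟩, ⟨y, hy⟩⟩
    · refine ⟨1, 1, one_ne_zero, le_rfl, ?_⟩
      intro z _ lam X _ _ hX0 _ μ _ _ i _
      have : ℓ t X = X i₀ i₀ := by simp only [ℓ, hq]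
      rw [this, hX0, map_zero, map_zero]
      exact zero_le
    · obtain ⟨d, C, hd, hC, hest⟩ := key_estimate (R := R) P σ hσi hP hD hHn hHc
        (g₁ := g₀ * h) (fun h' hh' => by rw [mul_assoc]; exact hHU _ (H.mul_mem h.2 hh'))
        (φ k) (fun j => (hF.good k j).inj) (hdist k) (E k) (hF.w_ne k) (m k) y
        (fun x => hF.lr k x y hy) O hO' htr
      refine ⟨d, C, hd, hC, ?_⟩
      intro z hz lam X hlam hρ _ hX μ hμ hXμ i hi
      have h1 : ℓ t X = (R.ρ (g₀ * h) * E k j (y X)).trace := by simp only [ℓ, hq]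
      rw [h1]
      exact hest z hz lam X hlam hρ hX μ hμ hXμ i hi j
  choose dt Ct hdt hCt hest using hest
  -- the constants
  obtain ⟨C₁, hC₁⟩ := Finite.exists_le Ct
  obtain ⟨C₂, hC₂1, hC₂⟩ := exists_bound O.valuation
    fun a : Fin (n + 1) × (Fin n × Fin n) × Fin r => σ a.1 (γ a.2.1 a.2.2)
  let C : O.ValueGroup := max C₁ 1
  have hC1 : 1 ≤ C := le_max_right _ _
  have hCtC : ∀ t, Ct t ≤ C := fun t => (hC₁ t).trans (le_max_left _ _)
  obtain ⟨δ, hδ, hδA⟩ := R.exists_denomQ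
  obtain ⟨D', hD'0, hD'tn, hD'⟩ := exists_small O hO hm R.tinj σ (fun l => (hσΓ l).1.1)
    (fun l => (hσΓ l).2.1) (C₂ * C)
  let d : T := ∏ t, dt t
  have hd : d ≠ 0 := Finset.prod_ne_zero_iff.2 fun t _ => hdt t
  have hdd : ∀ t, ∃ d' : T, d = dt t * d' := fun t =>
    ⟨_, (Finset.mul_prod_erase _ _ (Finset.mem_univ t)).symm⟩
  obtain ⟨z, hzH, hz1, a, haA, hza⟩ := exists_small_elt hR hHc hnc (full_res_open hR hHn hHo)
    (D := D' * d * δ) (mul_ne_zero (mul_ne_zero hD'0 hd) hδ)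
  -- the entries
  let α : T →+* Ω := algebraMap T Ω
  let y : Matrix (Fin n) (Fin n) Ω := fun i j => α δ * a i j
  have hy : ∀ i j, IsIntegral T (y i j) := hδA a haA
  have hρz : ∀ i j, R.ρ z i j = (1 : Matrix (Fin n) (Fin n) Ω) i j + α D' * (α d * y i j) := by
    intro i j
    rw [hza, Matrix.add_apply, ← algebraMap_smul Ω (D' * d * δ) a, Matrix.smul_apply, smul_eq_mul,
      map_mul, map_mul]
    show _ = _ + α D' * (α d * (α δ * a i j))
    ring
  have hdy : ∀ i j, IsIntegral T (α d * y i j) := fun i j => isIntegral_algebraMap.mul (hy i j)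
  let lam : Ω := R.ρ z i₀ i₀
  have hlam' : lam = 1 + α D' * (α d * y i₀ i₀) := by
    show R.ρ z i₀ i₀ = _
    rw [hρz, Matrix.one_apply_eq]
  obtain ⟨hlam, hlami⟩ := isIntegral_one_add_inv hD'tn (hdy i₀ i₀)
  rw [← hlam'] at hlam hlami
  let X : Matrix (Fin n) (Fin n) Ω := lam⁻¹ • R.ρ z - 1
  have hρX : R.ρ z = lam • (1 + X) := by
    show R.ρ z = lam • (1 + (lam⁻¹ • R.ρ z - 1))
    rw [add_sub_cancel, smul_smul, mul_inv_cancel₀ hlam, one_smul]
  have hX0 : X i₀ i₀ = 0 := by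
    show lam⁻¹ * lam - (1 : Matrix (Fin n) (Fin n) Ω) i₀ i₀ = 0
    rw [inv_mul_cancel₀ hlam, Matrix.one_apply_eq, sub_self]
  have hXij : ∀ i j, ∃ Z, IsIntegral T Z ∧ X i j = α D' * (α d * Z) := by
    intro i j
    have h1 : IsIntegral T ((1 : Matrix (Fin n) (Fin n) Ω) i j) := by
      rw [Matrix.one_apply]
      split_ifs
      · exact isIntegral_one
      · exact isIntegral_zero
    refine ⟨lam⁻¹ * (y i j - y i₀ i₀ * (1 : Matrix (Fin n) (Fin n) Ω) i j),
      hlami.mul ((hy i j).sub ((hy i₀ i₀).mul h1)), ?_⟩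
    show lam⁻¹ * R.ρ z i j - (1 : Matrix (Fin n) (Fin n) Ω) i j = _
    have h2 : R.ρ z i j - lam * (1 : Matrix (Fin n) (Fin n) Ω) i j
        = α D' * (α d * (y i j - y i₀ i₀ * (1 : Matrix (Fin n) (Fin n) Ω) i j)) := by
      rw [hρz, hlam']; ring
    have h3 : lam⁻¹ * R.ρ z i j - (1 : Matrix (Fin n) (Fin n) Ω) i j
        = lam⁻¹ * (R.ρ z i j - lam * (1 : Matrix (Fin n) (Fin n) Ω) i j) := by
      rw [mul_sub, ← mul_assoc, inv_mul_cancel₀ hlam, one_mul]
    rw [h3, h2]; ring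
  -- the maximum
  obtain ⟨⟨i₁, a₁, b₁⟩, hmem, hmax⟩ := Finset.exists_max_image
    (P.vars ×ˢ ((Finset.univ : Finset (Fin n)) ×ˢ (Finset.univ : Finset (Fin n))))
    (fun c => O.valuation (σ c.1 (X c.2.1 c.2.2)))
    (hPv.product ((Finset.univ_nonempty_iff.2 ⟨i₀⟩).product (Finset.univ_nonempty_iff.2 ⟨i₀⟩)))
  have hi₁ : i₁ ∈ P.vars := (Finset.mem_product.1 hmem).1
  let μ : O.ValueGroup := O.valuation (σ i₁ (X a₁ b₁))
  have hXμ : ∀ i ∈ P.vars, ∀ a b, O.valuation (σ i (X a b)) ≤ μ := fun i hi a b =>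
    hmax (i, a, b) (Finset.mem_product.2 ⟨hi, Finset.mem_product.2
      ⟨Finset.mem_univ _, Finset.mem_univ _⟩⟩)
  have hXne : X ≠ 0 := by
    intro h0
    apply hz1
    refine eq_one_of_central hR.pf fun g => R.inj ?_
    rw [map_mul, map_mul, hρX, h0, add_zero, smul_mul_assoc, mul_smul_comm, one_mul, mul_one]
  have hμ0 : μ ≠ 0 := by
    intro h0
    apply hXne
    ext a b
    have h1 := hXμ i₁ hi₁ a b
    rw [h0, le_zero_iff, map_eq_zero, EmbeddingLike.map_eq_zero_iff] at h1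
    exact h1
  have hval : ∀ x, IsIntegral T x → O.valuation x ≤ 1 := fun x hx =>
    (O.valuation_le_one_iff x).2 (hO' x hx)
  have hμD : μ ≤ O.valuation (σ i₁ (α D')) := by
    obtain ⟨Z, hZ, hZX⟩ := hXij a₁ b₁
    show O.valuation (σ i₁ (X a₁ b₁)) ≤ _
    rw [hZX, map_mul, map_mul]
    calc _ ≤ O.valuation (σ i₁ (α D')) * 1 :=
          mul_le_mul' le_rfl (hval _ (hσi _ _ (isIntegral_algebraMap.mul hZ)))
      _ = _ := mul_one _
  have hsmall : C₂ * C * μ < 1 := by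
    calc C₂ * C * μ ≤ C₂ * C * O.valuation (σ i₁ (α D')) := mul_le_mul' le_rfl hμD
      _ = O.valuation (σ i₁ (α D')) * (C₂ * C) := mul_comm _ _
      _ < 1 := hD' i₁
  have hCμ : C * μ ≤ 1 := by
    calc C * μ = 1 * (C * μ) := (one_mul _).symm
      _ ≤ C₂ * (C * μ) := mul_le_mul' hC₂1 le_rfl
      _ = C₂ * C * μ := (mul_assoc _ _ _).symm
      _ ≤ 1 := hsmall.le
  have hfin : ∀ t, O.valuation (σ i₁ (ℓ t X)) ≤ C * μ ^ 2 := by
    intro t
    obtain ⟨d', hd'⟩ := hdd t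
    refine (hest t z hzH lam X hlam hρX hX0 (fun a b => ?_) μ
      ((mul_le_mul' (hCtC t) le_rfl).trans hCμ) hXμ i₁ hi₁).trans
      (mul_le_mul' (hCtC t) le_rfl)
    obtain ⟨Z, hZ, hZX⟩ := hXij a b
    refine ⟨α d' * (α D' * Z), isIntegral_algebraMap.mul (isIntegral_algebraMap.mul hZ), ?_⟩
    rw [hZX, hd', map_mul]
    show α D' * (α (dt t) * α d' * Z) = α (dt t) * (α d' * (α D' * Z))
    ring
  have hle : μ ≤ C₂ * (C * μ ^ 2) := by
    show O.valuation (σ i₁ (X a₁ b₁)) ≤ _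
    have h1 : X a₁ b₁ = ∑ t, γ (a₁, b₁) t * ℓ t X := hγ (a₁, b₁) X
    rw [h1, map_sum]
    refine O.valuation.map_sum_le fun t _ => ?_
    rw [map_mul, map_mul]
    exact mul_le_mul' (hC₂ (i₁, (a₁, b₁), t)) (hfin t)
  have hlt : C₂ * (C * μ ^ 2) < μ := by
    calc C₂ * (C * μ ^ 2) = C₂ * C * μ * μ := by rw [sq]; simp only [mul_assoc]
      _ < 1 * μ := (mul_lt_mul_iff_left₀ (zero_lt_iff.2 hμ0)).2 hsmall
      _ = μ := one_mul μ
  exact absurd hle (not_le.2 hlt)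

end rep

end MP35
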