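import Mathlib
import Pool.Agent.Lib_MP_3538b5.RTop

/-!
# Finite modules over compact noetherian rings

`CNR T`: compact Hausdorff noetherian commutative ring with a linear topology. A finite `T`-module with
the module topology is compact and Hausdorff, its submodules are closed, injective linear maps are
closed embeddings; a finite commutative `T`-algebra is a `CNR`.
-/

set_option autoImplicit false

namespace MP35

universe u v w x

open Topology

/-- a compact noetherian commutative ring with a linear topology -/
class CNR (T : Type v) [CommRing T] [TopologicalSpace T] : Prop extends IsTopologicalRing T,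
  CompactSpace T, T2Space T, IsLinearTopology T T, IsNoetherianRing T

section

variable {T : Type v} [CommRing T] [TopologicalSpace T] [CNR T]

/-- a finite module is compact -/
theorem compact_of_finite (T : Type v) [CommRing T] [TopologicalSpace T] [CNR T] (M : Type w)
    [AddCommGroup M] [Module T M] [Module.Finite T M] [TopologicalSpace M] [IsModuleTopology T M] :
    CompactSpace M := by
  obtain ⟨n, f, hf⟩ := Module.Finite.exists_fin' T M
  have hc : Continuous f := (IsModuleTopology.isQuotientMap_of_surjective hf).continuous
  rw [← isCompact_univ_iff, ← hf.range_eq]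
  exact isCompact_range hc

/-- submodules of `T ^ n` are closed -/
theorem isClosed_submodule_pi {n : ℕ} (N : Submodule T (Fin n → T)) :
    IsClosed (N : Set (Fin n → T)) := by
  obtain ⟨k, v, hv⟩ := Submodule.fg_iff_exists_fin_generating_family.1 (IsNoetherian.noetherian N)
  have h1 : (N : Set (Fin n → T)) = Set.range (fun c : Fin k → T => ∑ i, c i • v i) := by
    ext x
    rw [SetLike.mem_coe, ← hv, Submodule.mem_span_range_iff_exists_fun]
    rfl
  rw [h1]
  refine (isCompact_range ?_).isClosed
  fun_prop

/-- a finite module is Hausdorff -/
theorem t2_of_finite (T : Type v) [CommRing T] [TopologicalSpace T] [CNR T] (M : Type w)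
    [AddCommGroup M] [Module T M] [Module.Finite T M] [TopologicalSpace M] [IsModuleTopology T M] :
    T2Space M := by
  have := IsModuleTopology.topologicalAddGroup T M
  obtain ⟨n, f, hf⟩ := Module.Finite.exists_fin' T M
  have hq := IsModuleTopology.isQuotientMap_of_surjective hf
  have h0 : IsClosed ({0} : Set M) := by
    rw [← hq.isClosed_preimage]
    exact isClosed_submodule_pi (LinearMap.ker f)
  have : T1Space M := IsTopologicalAddGroup.t1Space M h0
  infer_instance

/-- submodules of finite modules are closed -/
theorem isClosed_submodule {M : Type w} [AddCommGroup M] [Module T M] [Module.Finite T M]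
    [TopologicalSpace M] [IsModuleTopology T M] (N : Submodule T M) : IsClosed (N : Set M) := by
  obtain ⟨n, f, hf⟩ := Module.Finite.exists_fin' T M
  have hq := IsModuleTopology.isQuotientMap_of_surjective hf
  rw [← hq.isClosed_preimage]
  exact isClosed_submodule_pi (N.comap f)

/-- an injective linear map from a finite module to a Hausdorff module is a closed embedding -/
theorem isClosedEmbedding_of_injective {M : Type w} [AddCommGroup M] [Module T M]
    [Module.Finite T M] [TopologicalSpace M] [IsModuleTopology T M] {N : Type x} [AddCommGroup N]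
    [Module T N] [TopologicalSpace N] [ContinuousAdd N] [ContinuousSMul T N] [T2Space N]
    (f : M →ₗ[T] N) (hf : Function.Injective f) : IsClosedEmbedding f := by
  have := compact_of_finite T M
  exact (IsModuleTopology.continuous_of_linearMap f).isClosedEmbedding hf

/-- a finite commutative algebra with the module topology -/
theorem cnr_of_finite (T : Type v) [CommRing T] [TopologicalSpace T] [CNR T] (B : Type w)
    [CommRing B] [Algebra T B] [Module.Finite T B] [TopologicalSpace B] [IsModuleTopology T B] :
    CNR B := by
  have h1 := compact_of_finite T B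
  have h2 := t2_of_finite T B
  have h3 := IsModuleTopology.isTopologicalRing T B
  have h4 : IsNoetherianRing B :=
    isNoetherian_of_tower T (isNoetherian_of_isNoetherianRing_of_finite T B)
  have h5 : IsLinearTopology B B := by
    rw [isLinearTopology_iff_hasBasis_ideal]
    refine ⟨fun U => ⟨fun hU => ?_, fun ⟨I, hI, hIU⟩ => Filter.mem_of_superset hI hIU⟩⟩
    obtain ⟨n, f, hf⟩ := Module.Finite.exists_fin' T B
    have hq := IsModuleTopology.isOpenQuotientMap_of_surjective hf
    have h0 : f ⁻¹' U ∈ nhds (0 : Fin n → T) := by
      apply hq.continuous.continuousAt.preimage_mem_nhds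
      rwa [map_zero]
    rw [nhds_pi, Filter.mem_pi'] at h0
    obtain ⟨s, V, hV, hVU⟩ := h0
    have hI : ∀ i : Fin n, ∃ I : Ideal T, (I : Set T) ∈ nhds (0 : T) ∧ (I : Set T) ⊆ V i := by
      intro i
      obtain ⟨I, hI, hIV⟩ := (IsLinearTopology.hasBasis_ideal (R := T)).mem_iff.1 (hV i)
      exact ⟨I, hI, hIV⟩
    choose I hI hIV using hI
    let J : Ideal T := ⨅ i, I i
    have hJ : (J : Set T) ∈ nhds (0 : T) := by
      have : (J : Set T) = ⋂ i, (I i : Set T) := by
        ext x
        simp [J]
      rw [this]
      exact Filter.iInter_mem.2 hI
    refine ⟨J.map (algebraMap T B), ?_, ?_⟩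
    · have h6 : f '' {c | ∀ i, c i ∈ J} ⊆ (J.map (algebraMap T B) : Set B) := by
        rintro _ ⟨c, hc, rfl⟩
        have : c = ∑ i, c i • (Pi.single i 1 : Fin n → T) := by
          ext k
          simp [Finset.sum_apply, Pi.single_apply]
        rw [this, map_sum]
        refine Ideal.sum_mem _ fun i _ => ?_
        rw [map_smul, Algebra.smul_def]
        exact Ideal.mul_mem_right _ _ (Ideal.mem_map_of_mem _ (hc i))
      refine Filter.mem_of_superset ?_ h6
      have h7 : {c : Fin n → T | ∀ i, c i ∈ J} ∈ nhds (0 : Fin n → T) := by
        have : {c : Fin n → T | ∀ i, c i ∈ J} = Set.univ.pi fun _ => (J : Set T) := by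
          ext c
          simp
        rw [this]
        exact set_pi_mem_nhds Set.finite_univ fun i _ => hJ
      have := hq.isOpenMap.image_mem_nhds h7
      rwa [map_zero] at this
    · intro b hb
      have h8 : ∃ c : Fin n → T, (∀ i, c i ∈ J) ∧ f c = b := by
        refine Submodule.span_induction (p := fun b _ => ∃ c : Fin n → T, (∀ i, c i ∈ J) ∧ f c = b)
          ?_ ⟨0, fun i => J.zero_mem, map_zero f⟩ ?_ ?_ hb
        · rintro _ ⟨t, ht, rfl⟩
          obtain ⟨c, hc⟩ := hf 1
          refine ⟨t • c, fun i => J.mul_mem_right _ ht, ?_⟩
          rw [map_smul, hc, Algebra.smul_def, mul_one]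
        · rintro x y _ _ ⟨c, hc, rfl⟩ ⟨d, hd, rfl⟩
          exact ⟨c + d, fun i => J.add_mem (hc i) (hd i), map_add f c d⟩
        · rintro a x _ ⟨c, hc, rfl⟩
          choose d hd using fun i : Fin n => hf (a * f (Pi.single i 1))
          refine ⟨∑ i, c i • d i, fun k => ?_, ?_⟩
          · rw [Finset.sum_apply]
            exact J.sum_mem fun i _ => J.mul_mem_right _ (hc i)
          · have : c = ∑ i, c i • (Pi.single i 1 : Fin n → T) := by
              ext k
              simp [Finset.sum_apply, Pi.single_apply]
            conv_rhs => rw [this, map_sum]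
            rw [map_sum, smul_eq_mul, Finset.mul_sum]
            refine Finset.sum_congr rfl fun i _ => ?_
            rw [map_smul, map_smul, hd, mul_smul_comm]
      obtain ⟨c, hc, rfl⟩ := h8
      exact hVU fun i _ => hIV i (by
        have := hc i
        simp only [J, Ideal.mem_iInf] at this
        exact this i)
  exact { h3, h1, h2, h5, h4 with }

/-- every ideal is closed -/
theorem CNR.closed_ideal (I : Ideal T) : IsClosed (I : Set T) := MP35.closed_ideal I

/-- the quotient by an ideal -/
theorem cnr_quot (I : Ideal T) : CNR (T ⧸ I) := by
  have h1 : T2Space (T ⧸ I) := t2_quot I (closed_ideal I)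
  have h2 : IsLinearTopology (T ⧸ I) (T ⧸ I) := lin_quot I
  have h3 : CompactSpace (T ⧸ I) := Quotient.compactSpace
  exact {}

/-- a closed noetherian subring -/
theorem cnr_subring {R : Type w} [CommRing R] [TopologicalSpace R] [IsTopologicalRing R]
    [CompactSpace R] [T2Space R] [IsLinearTopology R R] (S : Subring R) (hS : IsClosed (S : Set R))
    (hN : IsNoetherianRing S) : CNR S := by
  have h1 : IsLinearTopology S S := lin_subring S
  have h2 : CompactSpace S := isCompact_iff_compactSpace.1 hS.isCompact
  exact {}

end

end MP35
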