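import Mathlib
import Pool.Agent.Lib_MP_3538b5_al.GBase
import Pool.Agent.Lib_MP_3538b5_al.RTopo

/-!
# The reduction: definitions

`PF p G`: a noncommutative pro-p group with the lifting property.
`Rep p G T Ω n`: a faithful representation of degree `n` over the (algebraically closed) field `Ω`,
whose `T`-span `R.A` is a finite `T`-module (`T` a compact ring); continuous.
`Rep.NI`: congruence subgroups. `Rep.Full`, `Rep.TrivGE`, `HasRep`, `OptNK`, `MCore`.
-/

set_option autoImplicit false

namespace MP35

universe u v w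

/-- a noncommutative pro-`p` group with the lifting property -/
structure PF (p : ℕ) (G : Type u) [Group G] [TopologicalSpace G] : Prop where
  proP : ProP p G
  lift : LiftP p G
  nc : ∃ x y : G, x * y ≠ y * x

/-- the `T`-algebra generated by the image of a homomorphism; it is the `T`-span of the image -/
abbrev repAlg {G : Type u} [Group G] (T : Type v) [CommRing T] {B : Type w} [Ring B] [Algebra T B]
    (ρ : G →* B) : Subalgebra T B := Algebra.adjoin T (Set.range ρ)

/-- the homomorphism to `repAlg` -/
def repHom {G : Type u} [Group G] (T : Type v) [CommRing T] {B : Type w} [Ring B] [Algebra T B]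
    (ρ : G →* B) : G →* repAlg T ρ where
  toFun g := ⟨ρ g, Algebra.subset_adjoin ⟨g, rfl⟩⟩
  map_one' := Subtype.ext (map_one ρ)
  map_mul' g h := Subtype.ext (map_mul ρ g h)

/-- A faithful representation of `G` of degree `n` over the field `Ω`, integral over the compact ring
`T`: the `T`-span of the image is a finite `T`-module, and `G` acts continuously for the module
topology. -/
structure Rep (p : ℕ) (G : Type u) [Group G] [TopologicalSpace G] (T : Type v) [CommRing T]
    [TopologicalSpace T] (Ω : Type v) [Field Ω] [Algebra T Ω] (n : ℕ) where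
  /-- the homomorphism -/
  ρ : G →* Matrix (Fin n) (Fin n) Ω
  inj : Function.Injective ρ
  fin : Module.Finite T (repAlg T ρ)
  cont : @Continuous G (repAlg T ρ) _ (moduleTopology T (repAlg T ρ)) (repHom T ρ)
  pnil : IsTopologicallyNilpotent (p : T)
  tinj : Function.Injective (algebraMap T Ω)

namespace Rep

variable {p : ℕ} {G : Type u} [Group G] [TopologicalSpace G] {T : Type v} [CommRing T]
  [TopologicalSpace T] {Ω : Type v} [Field Ω] [Algebra T Ω] {n : ℕ} (R : Rep p G T Ω n)

/-- the `T`-span of `ρ(G)`, an algebra -/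
abbrev A : Subalgebra T (Matrix (Fin n) (Fin n) Ω) := repAlg T R.ρ

/-- the topology of `A` is the module topology -/
instance topA : TopologicalSpace R.A := moduleTopology T R.A

instance modA : IsModuleTopology T R.A := ⟨rfl⟩

instance finA : Module.Finite T R.A := R.fin

/-- the homomorphism from `G` to `A` -/
abbrev j : G →* R.A := repHom T R.ρ

theorem j_coe (g : G) : (R.j g : Matrix (Fin n) (Fin n) Ω) = R.ρ g := rfl

theorem cont_j : Continuous R.j := R.cont

theorem j_inj : Function.Injective R.j := fun g h hgh => R.inj (congrArg Subtype.val hgh)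

instance compactA [CNR T] : CompactSpace R.A := compact_of_finite T R.A

instance t2A [CNR T] : T2Space R.A := t2_of_finite T R.A

instance topRingA [CNR T] : IsTopologicalRing R.A := IsModuleTopology.isTopologicalRing T R.A

instance noethA [CNR T] : IsNoetherian T R.A := isNoetherian_of_isNoetherianRing_of_finite T R.A

theorem smul_top_mul {I : Ideal T} {x : R.A} (hx : x ∈ (I • ⊤ : Submodule T R.A)) (a : R.A) :
    x * a ∈ (I • ⊤ : Submodule T R.A) := by
  refine Submodule.smul_induction_on hx (fun t ht y _ => ?_) fun y z hy hz => ?_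
  · rw [smul_mul_assoc]
    exact Submodule.smul_mem_smul ht trivial
  · rw [add_mul]
    exact add_mem hy hz

theorem mul_smul_top {I : Ideal T} {x : R.A} (hx : x ∈ (I • ⊤ : Submodule T R.A)) (a : R.A) :
    a * x ∈ (I • ⊤ : Submodule T R.A) := by
  refine Submodule.smul_induction_on hx (fun t ht y _ => ?_) fun y z hy hz => ?_
  · rw [mul_smul_comm]
    exact Submodule.smul_mem_smul ht trivial
  · rw [mul_add]
    exact add_mem hy hz

/-- the congruence subgroup of the ideal `I` -/
def NI (I : Ideal T) : Subgroup G where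
  carrier := {g | R.j g - 1 ∈ (I • ⊤ : Submodule T R.A)}
  one_mem' := by
    show R.j 1 - 1 ∈ (I • ⊤ : Submodule T R.A)
    rw [map_one, sub_self]
    exact zero_mem _
  mul_mem' {g h} hg hh := by
    show R.j (g * h) - 1 ∈ (I • ⊤ : Submodule T R.A)
    have e : R.j (g * h) - 1 = (R.j g - 1) * R.j h + (R.j h - 1) := by
      rw [map_mul, sub_mul, one_mul]
      abel
    rw [e]
    exact add_mem (R.smul_top_mul hg _) hh
  inv_mem' {g} hg := by
    show R.j g⁻¹ - 1 ∈ (I • ⊤ : Submodule T R.A)
    have e : R.j g⁻¹ - 1 = -(R.j g⁻¹ * (R.j g - 1)) := by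
      rw [mul_sub, ← map_mul, inv_mul_cancel, map_one, mul_one, neg_sub]
    rw [e]
    exact neg_mem (R.mul_smul_top hg _)

theorem mem_NI {I : Ideal T} {g : G} : g ∈ R.NI I ↔ R.j g - 1 ∈ (I • ⊤ : Submodule T R.A) := Iff.rfl

theorem NI_normal (I : Ideal T) : (R.NI I).Normal := ⟨fun g hg h => by
  rw [mem_NI] at hg ⊢
  have e : R.j (h * g * h⁻¹) - 1 = R.j h * (R.j g - 1) * R.j h⁻¹ := by
    rw [mul_sub, sub_mul, map_mul, map_mul, mul_one, ← map_mul R.j h h⁻¹, mul_inv_cancel, map_one]
  rw [e]
  exact R.smul_top_mul (R.mul_smul_top hg _) _⟩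

theorem NI_mono {I J : Ideal T} (h : I ≤ J) : R.NI I ≤ R.NI J := fun _ hg =>
  Submodule.smul_mono_left h hg

/-- congruence modulo a principal ideal -/
theorem mem_NI_span {c : T} {g : G} : g ∈ R.NI (Ideal.span {c}) ↔ ∃ x : R.A, R.j g = 1 + c • x := by
  rw [mem_NI, Submodule.ideal_span_singleton_smul, Submodule.mem_smul_pointwise_iff_exists]
  constructor
  · rintro ⟨x, -, hx⟩
    exact ⟨x, by rw [hx]; abel⟩
  · rintro ⟨x, hx⟩
    exact ⟨x, trivial, by rw [hx]; abel⟩

/-- `G` is unipotent modulo the maximal ideal of the valuation ring `O` -/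
def Unip (O : ValuationSubring Ω) : Prop :=
  ∀ (g : G) (μ : Ω), (R.ρ g).charpoly.IsRoot μ → μ - 1 ∈ O.nonunits

/-- `T` is finite over the characteristic coefficients of `G`: whenever `G` is unipotent modulo a
valuation ring containing `T`, with residue characteristic `p`, the valuation ring is centered at the
maximal ideal of `T` -/
def Full : Prop :=
  ∀ O : ValuationSubring Ω, (∀ t : T, algebraMap T Ω t ∈ O) → (p : Ω) ∈ O.nonunits → R.Unip O →
    ∀ t : T, IsTopologicallyNilpotent t → algebraMap T Ω t ∈ O.nonunits

/-- the action of `G` on matrices by conjugation -/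
def Ad (g : G) : Module.End Ω (Matrix (Fin n) (Fin n) Ω) :=
  LinearMap.mulLeftRight Ω (R.ρ g, R.ρ g⁻¹)

theorem Ad_apply (g : G) (x : Matrix (Fin n) (Fin n) Ω) : R.Ad g x = R.ρ g * x * R.ρ g⁻¹ := rfl

/-- the augmentation algebra of the conjugation action -/
def aug : Submodule Ω (Module.End Ω (Matrix (Fin n) (Fin n) Ω)) :=
  Submodule.span Ω (Set.range fun g => R.Ad g - 1)

/-- the conjugation action has at least `k` trivial factors -/
def TrivGE (k : ℕ) : Prop := ∀ x ∈ R.aug, (Polynomial.X : Polynomial Ω) ^ k ∣ x.charpoly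

/-- restriction to a subgroup -/
def res [CNR T] (H : Subgroup G) : Rep p H T Ω n where
  ρ := R.ρ.comp H.subtype
  inj := R.inj.comp H.subtype_injective
  fin := by
    have h : repAlg T (R.ρ.comp H.subtype) ≤ R.A :=
      Algebra.adjoin_mono (by rintro _ ⟨g, rfl⟩; exact ⟨g, rfl⟩)
    exact Module.Finite.of_injective (Subalgebra.inclusion h).toLinearMap
      (Subalgebra.inclusion_injective h)
  cont := by
    have h : repAlg T (R.ρ.comp H.subtype) ≤ R.A :=
      Algebra.adjoin_mono (by rintro _ ⟨g, rfl⟩; exact ⟨g, rfl⟩)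
    letI : TopologicalSpace (repAlg T (R.ρ.comp H.subtype)) := moduleTopology T _
    haveI : IsModuleTopology T (repAlg T (R.ρ.comp H.subtype)) := ⟨rfl⟩
    haveI : Module.Finite T (repAlg T (R.ρ.comp H.subtype)) :=
      Module.Finite.of_injective (Subalgebra.inclusion h).toLinearMap
        (Subalgebra.inclusion_injective h)
    have e := isClosedEmbedding_of_injective (T := T) (Subalgebra.inclusion h).toLinearMap
      (Subalgebra.inclusion_injective h)
    rw [e.continuous_iff]
    exact R.cont_j.comp continuous_subtype_val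
  pnil := R.pnil
  tinj := R.tinj

@[simp] theorem res_ρ [CNR T] (H : Subgroup G) (h : H) : (R.res H).ρ h = R.ρ h := rfl

end Rep

/-- there is a representation of degree `n` of some group -/
def HasRep (p n : ℕ) : Prop :=
  ∃ (G : Type u) (_ : Group G) (_ : TopologicalSpace G) (_ : IsTopologicalGroup G)
    (_ : CompactSpace G) (_ : T2Space G) (_ : TotallyDisconnectedSpace G)
    (T : Type v) (_ : CommRing T) (_ : TopologicalSpace T) (_ : CNR T) (_ : IsDomain T)
    (Ω : Type v) (_ : Field Ω) (_ : IsAlgClosed Ω) (_ : Algebra T Ω),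
    PF p G ∧ Nonempty (Rep p G T Ω n)

/-- there is a representation of degree `n` of some group with at least `k` trivial factors -/
def HasRepTriv (p n k : ℕ) : Prop :=
  ∃ (G : Type u) (_ : Group G) (_ : TopologicalSpace G) (_ : IsTopologicalGroup G)
    (_ : CompactSpace G) (_ : T2Space G) (_ : TotallyDisconnectedSpace G)
    (T : Type v) (_ : CommRing T) (_ : TopologicalSpace T) (_ : CNR T) (_ : IsDomain T)
    (Ω : Type v) (_ : Field Ω) (_ : IsAlgClosed Ω) (_ : Algebra T Ω),
    PF p G ∧ ∃ R : Rep p G T Ω n, R.TrivGE k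

/-- `n` is the smallest degree, `k` the largest number of trivial factors in degree `n` -/
structure OptNK (p n k : ℕ) : Prop where
  hasrep : HasRepTriv.{u, v} p n k
  nmin : ∀ m, HasRep.{u, v} p m → n ≤ m
  kmax : ∀ l, HasRepTriv.{u, v} p n l → l ≤ k

/-- The core situation: the degree `n` is minimal among all representations of all groups, the number
`k` of trivial factors of the conjugation representation is maximal in degree `n`; `T` is finite over
the characteristic coefficients of `G`; determinant one; `G` is finitely generated; every closed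
noncommutative subgroup `H`, such that `T` is finite over the characteristic coefficients of `H`, meets
all congruence subgroups. -/
structure MCore {p : ℕ} {G : Type u} [Group G] [TopologicalSpace G] [IsTopologicalGroup G]
    {T : Type v} [CommRing T] [TopologicalSpace T] [CNR T] {Ω : Type v} [Field Ω] [Algebra T Ω]
    {n : ℕ} (R : Rep p G T Ω n) (k : ℕ) : Prop where
  pf : PF p G
  alg : Algebra.IsAlgebraic T Ω
  opt : OptNK.{u, v} p n k
  triv : R.TrivGE k
  full : R.Full
  det : ∀ g, (R.ρ g).det = 1
  fg : ∃ (m : ℕ) (z : Fin m → G), clS (Set.range z) = ⊤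
  deep : ∀ H : Subgroup G, IsClosed (H : Set G) → (∃ x ∈ H, ∃ y ∈ H, x * y ≠ y * x) →
    (R.res H).Full → ∀ c : T, c ≠ 0 → ∃ h ∈ (R.res H).NI (Ideal.span {c}), h ≠ 1

end MP35
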