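import Mathlib

/-! # Finite p-groups of matrices have bounded derived length -/

set_option autoImplicit false

namespace MP35

universe u v w

section pgroups

variable {p : ℕ} [hp : Fact p.Prime]

/-- a noncommutative finite `p`-group has a noncentral element whose commutators are central -/
theorem exists_second {Q : Type u} [Group Q] [Finite Q] (hQ : IsPGroup p Q)
    (h : ∃ x y : Q, x * y ≠ y * x) :
    ∃ a : Q, (∃ b : Q, a * b ≠ b * a) ∧ ∀ q : Q, q * a * q⁻¹ * a⁻¹ ∈ Subgroup.center Q := by
  have hn : Nontrivial (Q ⧸ Subgroup.center Q) := by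
    by_contra hn
    rw [not_nontrivial_iff_subsingleton] at hn
    obtain ⟨x, y, hxy⟩ := h
    apply hxy
    have : x ∈ Subgroup.center Q := (QuotientGroup.eq_one_iff x).1 (Subsingleton.elim _ _)
    exact (Subgroup.mem_center_iff.1 this y).symm
  have hQ' : IsPGroup p (Q ⧸ Subgroup.center Q) := hQ.to_quotient _
  have := hQ'.center_nontrivial
  obtain ⟨⟨z, hz⟩, hz1⟩ := exists_ne (1 : Subgroup.center (Q ⧸ Subgroup.center Q))
  obtain ⟨a, rfl⟩ := QuotientGroup.mk_surjective z
  refine ⟨a, ?_, ?_⟩
  · by_contra hcon
    push Not at hcon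
    apply hz1
    apply Subtype.ext
    show (a : Q ⧸ Subgroup.center Q) = 1
    rw [QuotientGroup.eq_one_iff]
    exact Subgroup.mem_center_iff.2 fun g => (hcon g).symm
  · intro q
    have h1 := Subgroup.mem_center_iff.1 hz (q : Q ⧸ Subgroup.center Q)
    rw [← QuotientGroup.eq_one_iff, QuotientGroup.mk_mul, QuotientGroup.mk_mul,
      QuotientGroup.mk_mul, h1, QuotientGroup.mk_inv, QuotientGroup.mk_inv]
    group

theorem comm_of_ker {Q : Type u} [Group Q] {M : Type w} [Monoid M] (f : Q →* M) {K : Subgroup Q}
    (h : ∀ x ∈ K, ∀ y ∈ K, f x * f y = f y * f x) : ⁅K, K⁆ ≤ f.ker := by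
  rw [Subgroup.commutator_le]
  intro x hx y hy
  rw [MonoidHom.mem_ker, commutatorElement_def, map_mul, map_mul, map_mul, h x hx y hy,
    ← map_mul, ← map_mul, ← map_mul]
  have : y * x * x⁻¹ * y⁻¹ = 1 := by group
  rw [this, map_one]

/-- commutators commute with the element of `exists_second` -/
theorem second_comm {Q : Type u} [Group Q] {a : Q}
    (h : ∀ q : Q, q * a * q⁻¹ * a⁻¹ ∈ Subgroup.center Q) {g : Q} (hg : g ∈ commutator Q) :
    g * a = a * g := by
  let C : Q →* Subgroup.center Q :=
    { toFun := fun q => ⟨q * a * q⁻¹ * a⁻¹, h q⟩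
      map_one' := by
        apply Subtype.ext
        show (1 : Q) * a * (1 : Q)⁻¹ * a⁻¹ = 1
        group
      map_mul' := by
        intro x y
        apply Subtype.ext
        show x * y * a * (x * y)⁻¹ * a⁻¹ = x * a * x⁻¹ * a⁻¹ * (y * a * y⁻¹ * a⁻¹)
        have h1 := Subgroup.mem_center_iff.1 (h y) x
        have h2 := Subgroup.mem_center_iff.1 (h y) (x * a * x⁻¹ * a⁻¹)
        rw [h2]
        have e1 : x * y * a * (x * y)⁻¹ * a⁻¹ = x * (y * a * y⁻¹ * a⁻¹) * (a * x⁻¹ * a⁻¹) := by
          group
        rw [e1, h1]
        group }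
  have hle : commutator Q ≤ C.ker := comm_of_ker C fun x _ y _ => by
    apply Subtype.ext
    exact Subgroup.mem_center_iff.1 (C y).2 (C x)
  have h1 : C g = 1 := hle hg
  have h2 : g * a * g⁻¹ * a⁻¹ = 1 := congrArg Subtype.val h1
  calc g * a = (g * a * g⁻¹ * a⁻¹) * (a * g) := by group
    _ = a * g := by rw [h2, one_mul]

/-- derived series of the commutator subgroup -/
theorem derived_commutator (Q : Type u) [Group Q] (m : ℕ) :
    derivedSeries Q (m + 1) = (derivedSeries (commutator Q) m).map (commutator Q).subtype := by
  induction m with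
  | zero =>
    rw [derivedSeries_zero, derivedSeries_one, ← MonoidHom.range_eq_map, Subgroup.range_subtype]
  | succ m ih =>
    rw [derivedSeries_succ, ih, derivedSeries_succ, Subgroup.map_commutator]

/-- finite `p`-groups of linear maps over an algebraically closed field have bounded derived
length -/
theorem pgroup_derived {k : Type v} [Field k] [IsAlgClosed k] (n : ℕ) :
    ∀ (V : Type w) [AddCommGroup V] [Module k V] [FiniteDimensional k V],
      Module.finrank k V ≤ n → ∀ (Q : Type u) [Group Q] [Finite Q], IsPGroup p Q →
      ∀ (f : Q →* Module.End k V) (q : Q), q ∈ derivedSeries Q (2 * n) → f q = 1 := by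
  induction n with
  | zero =>
    intro V _ _ _ hV Q _ _ _ f q _
    have : Subsingleton V := Module.finrank_zero_iff.1 (Nat.le_zero.1 hV)
    ext v
    exact Subsingleton.elim _ _
  | succ n ih =>
    intro V _ _ _ hV Q _ _ hQ f q hq
    by_cases hc : ∀ x y : Q, f x * f y = f y * f x
    · have h1 : commutator Q ≤ f.ker := comm_of_ker f fun x _ y _ => hc x y
      have h2 : derivedSeries Q (2 * (n + 1)) ≤ commutator Q := by
        rw [← derivedSeries_one]
        exact derivedSeries_antitone Q (by omega)
      exact h1 (h2 hq)
    push Not at hc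
    obtain ⟨x0, y0, hxy0⟩ := hc
    -- the image group
    let F : Q →* (Module.End k V)ˣ := f.toHomUnits
    have hFf : ∀ q, ((F q : (Module.End k V)ˣ) : Module.End k V) = f q := fun q => rfl
    have hP : IsPGroup p F.range := hQ.of_surjective F.rangeRestrict F.rangeRestrict_surjective
    have hPn : ∃ x y : F.range, x * y ≠ y * x := by
      refine ⟨F.rangeRestrict x0, F.rangeRestrict y0, fun h => hxy0 ?_⟩
      have h1 := congrArg (fun z : F.range => ((z : (Module.End k V)ˣ) : Module.End k V)) h
      exact h1
    have : Finite F.range := Finite.of_surjective F.rangeRestrict F.rangeRestrict_surjective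
    obtain ⟨a', ⟨b', hab'⟩, ha'⟩ := exists_second hP hPn
    obtain ⟨a, rfl⟩ := F.rangeRestrict_surjective a'
    obtain ⟨b, rfl⟩ := F.rangeRestrict_surjective b'
    have hab : f a * f b ≠ f b * f a := by
      intro h
      apply hab'
      apply Subtype.ext
      apply Units.ext
      exact h
    -- commutators commute with `f a`
    have hcomm : ∀ g ∈ commutator Q, f g * f a = f a * f g := by
      intro g hg
      have h1 : F.rangeRestrict g ∈ commutator F.range := by
        have h2 : (commutator Q).map F.rangeRestrict ≤ commutator F.range := by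
          unfold commutator
          rw [Subgroup.map_commutator]
          exact Subgroup.commutator_mono le_top le_top
        exact h2 ⟨g, hg, rfl⟩
      have h3 := second_comm ha' h1
      have h4 := congrArg (fun z : F.range => ((z : (Module.End k V)ˣ) : Module.End k V)) h3
      exact h4
    have hVn : Nontrivial V := by
      by_contra hn
      rw [not_nontrivial_iff_subsingleton] at hn
      apply hab
      ext v
      exact Subsingleton.elim _ _
    obtain ⟨μ, hμ⟩ := Module.End.exists_eigenvalue (f a)
    set E : Submodule k V := Module.End.eigenspace (f a) μ with hE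
    have hEb : E ≠ ⊥ := hμ
    have hEt : E ≠ ⊤ := by
      intro h
      apply hab
      have h1 : ∀ v : V, f a v = μ • v := by
        intro v
        have : v ∈ E := by rw [h]; trivial
        exact Module.End.mem_eigenspace_iff.1 this
      ext v
      rw [Module.End.mul_apply, Module.End.mul_apply, h1, h1, map_smul]
    have hmaps : ∀ g ∈ commutator Q, ∀ v ∈ E, f g v ∈ E := by
      intro g hg v hv
      have h1 : f a v = μ • v := Module.End.mem_eigenspace_iff.1 hv
      have h2 : f g (f a v) = f a (f g v) := by
        have := congrArg (fun T : Module.End k V => T v) (hcomm g hg)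
        exact this
      refine Module.End.mem_eigenspace_iff.2 ?_
      rw [← h2, h1, map_smul]
    have hfE : Module.finrank k E ≤ n := by
      have := Submodule.finrank_lt hEt
      omega
    have hfQ : Module.finrank k (V ⧸ E) ≤ n := by
      have h1 := Submodule.finrank_quotient_add_finrank E
      have h2 : 0 < Module.finrank k E := by
        rw [Module.finrank_pos_iff]
        exact Submodule.nontrivial_iff_ne_bot.2 hEb
      omega
    let f1 : commutator Q →* Module.End k E :=
      { toFun := fun g => (f (g : Q)).restrict (hmaps g g.2)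
        map_one' := by
          ext v
          show f ((1 : commutator Q) : Q) v = (v : V)
          rw [Subgroup.coe_one, map_one]
          rfl
        map_mul' := by
          intro g h
          ext v
          show f ((g * h : commutator Q) : Q) v = f (g : Q) (f (h : Q) v)
          rw [Subgroup.coe_mul, map_mul]
          rfl }
    let f2 : commutator Q →* Module.End k (V ⧸ E) :=
      { toFun := fun g => E.mapQ E (f (g : Q)) (fun v hv => hmaps g g.2 v hv)
        map_one' := by
          apply LinearMap.ext
          intro v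
          obtain ⟨v, rfl⟩ := Submodule.mkQ_surjective E v
          rw [Submodule.mkQ_apply, Submodule.mapQ_apply, Subgroup.coe_one, map_one]
          rfl
        map_mul' := by
          intro g h
          apply LinearMap.ext
          intro v
          obtain ⟨v, rfl⟩ := Submodule.mkQ_surjective E v
          rw [Submodule.mkQ_apply, Module.End.mul_apply, Submodule.mapQ_apply,
            Submodule.mapQ_apply, Submodule.mapQ_apply, Subgroup.coe_mul, map_mul]
          rfl }
    have hQ' : IsPGroup p (commutator Q) := hQ.to_subgroup _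
    have h1 : ∀ g : commutator Q, g ∈ derivedSeries (commutator Q) (2 * n) →
        (∀ v ∈ E, f (g : Q) v = v) ∧ ∀ v : V, f (g : Q) v - v ∈ E := by
      intro g hg
      constructor
      · intro v hv
        have h2 := ih E hfE (commutator Q) hQ' f1 g hg
        have h3 := congrArg (fun T : Module.End k E => ((T ⟨v, hv⟩ : E) : V)) h2
        exact h3
      · intro v
        have h2 := ih (V ⧸ E) hfQ (commutator Q) hQ' f2 g hg
        have h3 := congrArg (fun T : Module.End k (V ⧸ E) => T (Submodule.Quotient.mk v)) h2
        have h4 : (Submodule.Quotient.mk (f (g : Q) v) : V ⧸ E) = Submodule.Quotient.mk v := h3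
        exact (Submodule.Quotient.eq E).1 h4
    have h2 : ∀ g ∈ derivedSeries Q (2 * n + 1),
        (∀ v ∈ E, f g v = v) ∧ ∀ v : V, f g v - v ∈ E := by
      intro g hg
      rw [derived_commutator] at hg
      obtain ⟨g', hg', rfl⟩ := hg
      exact h1 g' hg'
    have h3 : derivedSeries Q (2 * (n + 1)) ≤ f.ker := by
      rw [show 2 * (n + 1) = (2 * n + 1) + 1 by ring, derivedSeries_succ]
      refine comm_of_ker f fun x hx y hy => ?_
      ext v
      obtain ⟨hx1, hx2⟩ := h2 x hx
      obtain ⟨hy1, hy2⟩ := h2 y hy
      rw [Module.End.mul_apply, Module.End.mul_apply]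
      have e1 : f x (f y v) = f x v + (f y v - v) := by
        rw [← hx1 _ (hy2 v), ← map_add, add_sub_cancel]
      have e2 : f y (f x v) = f y v + (f x v - v) := by
        rw [← hy1 _ (hx2 v), ← map_add, add_sub_cancel]
      rw [e1, e2]
      abel
    exact h3 hq

/-- the entries of the matrices are nilpotent -/
theorem nil_entriesP {A : Type v} [CommRing A] {P : Type u} [Group P] [Finite P]
    (hP : IsPGroup p P) {n : ℕ} (f : P →* Matrix (Fin n) (Fin n) A) {g : P}
    (hg : g ∈ derivedSeries P (2 * n)) (i j : Fin n) :
    IsNilpotent (f g i j - (1 : Matrix (Fin n) (Fin n) A) i j) := by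
  rw [nilpotent_iff_mem_prime]
  intro q hq
  have := hq
  let k := AlgebraicClosure (FractionRing (A ⧸ q))
  let φ : A →+* k := ((algebraMap (FractionRing (A ⧸ q)) k).comp
    (algebraMap (A ⧸ q) (FractionRing (A ⧸ q)))).comp (Ideal.Quotient.mk q)
  let f' : P →* Module.End k (Fin n → k) :=
    ((Matrix.toLinAlgEquiv' : Matrix (Fin n) (Fin n) k ≃ₐ[k] _).toAlgHom.toRingHom :
      Matrix (Fin n) (Fin n) k →* Module.End k (Fin n → k)).comp
      (((φ.mapMatrix : Matrix (Fin n) (Fin n) A →+* Matrix (Fin n) (Fin n) k) :
        Matrix (Fin n) (Fin n) A →* Matrix (Fin n) (Fin n) k).comp f)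
  have h1 : f' g = 1 := pgroup_derived n (Fin n → k) (by simp) P hP f' g hg
  have h2 : φ.mapMatrix (f g) = 1 := by
    apply (Matrix.toLinAlgEquiv' : Matrix (Fin n) (Fin n) k ≃ₐ[k] _).injective
    rw [map_one]
    exact h1
  have h3 : φ (f g i j - (1 : Matrix (Fin n) (Fin n) A) i j) = 0 := by
    have h4 := congrFun (congrFun h2 i) j
    rw [RingHom.mapMatrix_apply, Matrix.map_apply] at h4
    rw [map_sub, h4, Matrix.one_apply, Matrix.one_apply]
    split_ifs <;> simp
  have h5 : Ideal.Quotient.mk q (f g i j - (1 : Matrix (Fin n) (Fin n) A) i j) = 0 := by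
    apply IsFractionRing.injective (A ⧸ q) (FractionRing (A ⧸ q))
    apply (algebraMap (FractionRing (A ⧸ q)) k).injective
    rw [map_zero, map_zero]
    exact h3
  exact Ideal.Quotient.eq_zero_iff_mem.1 h5

end pgroups

end MP35
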