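import Pool.Agent.Lib_MP_3538b5_al.GPow
import Pool.Agent.Lib_MP_3538b5_al.RInitA
import Pool.Agent.Lib_MP_3538b5_al.RInitB

/-! # From a profinite ring to a noetherian one -/

set_option autoImplicit false

namespace MP35

universe u v w

open scoped commutatorElement

section derived

/-- the iterated closed commutator subgroups are not commutative -/
theorem exists_derived {p : ℕ} [hp : Fact p.Prime] {F : Type u} [Group F] [TopologicalSpace F]
    [IsTopologicalGroup F] [CompactSpace F] [T2Space F] [TotallyDisconnectedSpace F]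
    (hP : ProP p F) (hL : LiftP p F) (hnc : ∃ x y : F, x * y ≠ y * x) (m : ℕ) :
    ∃ H : Subgroup F, IsClosed (H : Set F) ∧ (∃ x ∈ H, ∃ y ∈ H, x * y ≠ y * x) ∧
      ∀ (A : Type v) [Group A] (f : F →* A), OpenKer f → ∀ h ∈ H, f h ∈ derivedSeries A m := by
  induction m with
  | zero =>
    obtain ⟨x, y, hxy⟩ := hnc
    refine ⟨⊤, isClosed_univ, ⟨x, trivial, y, trivial, hxy⟩, ?_⟩
    intro A _ f _ h _
    rw [derivedSeries_zero]
    trivial
  | succ m ih =>
    obtain ⟨H, hHc, ⟨x, hx, y, hy, hxy⟩, hH⟩ := ih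
    have : CompactSpace H := isCompact_iff_compactSpace.1 hHc.isCompact
    obtain ⟨a, ha, b, hb, hab⟩ := commutator_noncomm (hP.sub H) (hL.sub H hHc)
      ⟨⟨x, hx⟩, ⟨y, hy⟩, fun h => hxy (congrArg Subtype.val h)⟩
    refine ⟨cl2 (a : F) (b : F), isClosed_cl2 _ _, ⟨a, left_mem_cl2 _ _, b, right_mem_cl2 _ _,
      fun h => hab (Subtype.ext h)⟩, ?_⟩
    intro A _ f hf
    have h1 : IsOpen (((derivedSeries A (m + 1)).comap f : Subgroup F) : Set F) := by
      refine Subgroup.isOpen_mono (H₁ := f.ker) ?_ hf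
      intro z hz
      rw [Subgroup.mem_comap, MonoidHom.mem_ker.1 hz]
      exact Subgroup.one_mem _
    have h2 : IsClosed (((derivedSeries A (m + 1)).comap f : Subgroup F) : Set F) :=
      Subgroup.isClosed_of_isOpen _ h1
    have h3 : (commutator H).map H.subtype ≤ (derivedSeries A (m + 1)).comap f := by
      rw [Subgroup.map_le_iff_le_comap]
      show ⁅(⊤ : Subgroup H), (⊤ : Subgroup H)⁆ ≤ _
      rw [Subgroup.commutator_le]
      intro u _ w _
      show f ((⁅u, w⁆ : H) : F) ∈ derivedSeries A (m + 1)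
      have e : f ((⁅u, w⁆ : H) : F) = ⁅f u, f w⁆ := by
        rw [← map_commutatorElement]
        rfl
      rw [e, derivedSeries_succ]
      exact Subgroup.commutator_mem_commutator (hH A f hf u u.2) (hH A f hf w w.2)
    have h4 : cl2 (a : F) (b : F) ≤ (derivedSeries A (m + 1)).comap f :=
      cl2_le h2 (h3 ⟨a, ha, rfl⟩) (h3 ⟨b, hb, rfl⟩)
    intro h hh
    exact h4 hh

end derived

section main

variable {p : ℕ} [hp : Fact p.Prime] {F : Type u} [Group F] [TopologicalSpace F]
    [IsTopologicalGroup F] [CompactSpace F] [T2Space F] [TotallyDisconnectedSpace F]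

omit hp [IsTopologicalGroup F] [CompactSpace F] [T2Space F] [TotallyDisconnectedSpace F] in
/-- the kernel modulo an open ideal -/
theorem ker_mod {R : Type v} [CommRing R] [TopologicalSpace R] [IsTopologicalRing R] {n : ℕ}
    (ρ : F →* GL (Fin n) R) (hρ : Continuous fun g => (ρ g : Matrix (Fin n) (Fin n) R))
    (I : Ideal R) (hI : IsOpen (I : Set R)) :
    OpenKer ((Matrix.GeneralLinearGroup.map (n := Fin n) (Ideal.Quotient.mk I)).comp ρ) := by
  unfold OpenKer
  have hker : (((Matrix.GeneralLinearGroup.map (n := Fin n) (Ideal.Quotient.mk I)).comp ρ).ker :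
      Set F) = ⋂ (i : Fin n), ⋂ (j : Fin n),
      {g | (ρ g : Matrix (Fin n) (Fin n) R) i j - (1 : Matrix (Fin n) (Fin n) R) i j ∈ (I : Set R)} := by
    ext g
    simp only [SetLike.mem_coe, MonoidHom.mem_ker, Set.mem_iInter, Set.mem_ofPred_eq]
    have h1e : ∀ i j : Fin n, Ideal.Quotient.mk I ((1 : Matrix (Fin n) (Fin n) R) i j) =
        (1 : Matrix (Fin n) (Fin n) (R ⧸ I)) i j := by
      intro i j
      rw [Matrix.one_apply, Matrix.one_apply]
      split_ifs <;> simp
    constructor
    · intro h i j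
      have h2 := congrFun (congrFun (congrArg
        (fun w : GL (Fin n) (R ⧸ I) => (w : Matrix (Fin n) (Fin n) (R ⧸ I))) h) i) j
      have h3 : Ideal.Quotient.mk I ((ρ g : Matrix (Fin n) (Fin n) R) i j) =
        (1 : Matrix (Fin n) (Fin n) (R ⧸ I)) i j := h2
      rw [← Ideal.Quotient.eq_zero_iff_mem, map_sub, h3, h1e, sub_self]
    · intro h
      apply Units.ext
      ext i j
      have h2 := h i j
      rw [← Ideal.Quotient.eq_zero_iff_mem, map_sub, h1e, sub_eq_zero] at h2
      exact h2
  rw [hker]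
  apply isOpen_iInter_of_finite
  intro i
  apply isOpen_iInter_of_finite
  intro j
  have hc : Continuous fun g => (ρ g : Matrix (Fin n) (Fin n) R) i j -
      (1 : Matrix (Fin n) (Fin n) R) i j := by
    apply Continuous.sub _ continuous_const
    exact hρ.matrix_elem i j
  exact hI.preimage hc

/-- there is a closed noncommutative subgroup of matrices with topologically nilpotent entries
(minus the identity) -/
theorem exists_tn (hP : ProP p F) (hL : LiftP p F) (hnc : ∃ x y : F, x * y ≠ y * x)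
    {R : Type v} [CommRing R] [TopologicalSpace R] [IsTopologicalRing R] [CompactSpace R]
    [IsLinearTopology R R] {n : ℕ}
    (ρ : F →* GL (Fin n) R) (hρ : Continuous fun g => (ρ g : Matrix (Fin n) (Fin n) R)) :
    ∃ H : Subgroup F, IsClosed (H : Set F) ∧ (∃ x ∈ H, ∃ y ∈ H, x * y ≠ y * x) ∧
      ∀ h ∈ H, ∀ i j, IsTopologicallyNilpotent ((ρ h : Matrix (Fin n) (Fin n) R) i j
        - (1 : Matrix (Fin n) (Fin n) R) i j) := by
  obtain ⟨H, hHc, hHn, hH⟩ := exists_derived.{u, v} hP hL hnc (2 * n)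
  refine ⟨H, hHc, hHn, ?_⟩
  intro h hh i j
  unfold IsTopologicallyNilpotent
  rw [(IsLinearTopology.hasBasis_open_ideal (R := R)).tendsto_right_iff]
  intro I hI
  set f1 : F →* GL (Fin n) (R ⧸ I) :=
    (Matrix.GeneralLinearGroup.map (n := Fin n) (Ideal.Quotient.mk I)).comp ρ with hf1
  have hopen : OpenKer f1 := ker_mod ρ hρ I hI
  have hfin : Finite (F ⧸ f1.ker) := Subgroup.quotient_finite_of_isOpen f1.ker hopen
  have hfin2 : Finite f1.range :=
    Finite.of_equiv _ (QuotientGroup.quotientKerEquivRange f1).toEquiv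
  have hpg : IsPGroup p f1.range := by
    rintro ⟨g, g0, rfl⟩
    obtain ⟨k, hk⟩ := hP f1.ker inferInstance hopen g0
    refine ⟨k, ?_⟩
    apply Subtype.ext
    show f1 g0 ^ p ^ k = 1
    rw [← map_pow]
    exact hk
  have hopen2 : OpenKer f1.rangeRestrict := by
    unfold OpenKer
    rw [MonoidHom.ker_rangeRestrict]
    exact hopen
  have h1 := hH f1.range f1.rangeRestrict hopen2 h hh
  obtain ⟨k, hk⟩ := nil_entriesP hpg
    ((Units.coeHom (Matrix (Fin n) (Fin n) (R ⧸ I))).comp f1.range.subtype) h1 i j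
  have hk2 : Ideal.Quotient.mk I (((ρ h : Matrix (Fin n) (Fin n) R) i j
      - (1 : Matrix (Fin n) (Fin n) R) i j) ^ k) = 0 := by
    have h1e : Ideal.Quotient.mk I ((1 : Matrix (Fin n) (Fin n) R) i j) =
        (1 : Matrix (Fin n) (Fin n) (R ⧸ I)) i j := by
      rw [Matrix.one_apply, Matrix.one_apply]
      split_ifs <;> simp
    rw [map_pow, map_sub, h1e]
    exact hk
  rw [Ideal.Quotient.eq_zero_iff_mem] at hk2
  filter_upwards [Filter.eventually_ge_atTop k] with m hm
  obtain ⟨e, rfl⟩ := Nat.exists_eq_add_of_le hm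
  rw [pow_add]
  exact I.mul_mem_right _ hk2

/-- INIT: a linear noncommutative group with the lifting property contains a closed noncommutative
subgroup (topologically generated by two elements) which is linear over a compact noetherian ring
in which `p` is topologically nilpotent; the entries of the matrices minus the identity matrix
are topologically nilpotent, too. -/
theorem init (hP : ProP p F) (hL : LiftP p F) (hnc : ∃ x y : F, x * y ≠ y * x)
    {R : Type v} [CommRing R] [TopologicalSpace R] [IsTopologicalRing R] [CompactSpace R]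
    [T2Space R] [TotallyDisconnectedSpace R] {n : ℕ}
    (ρ : F →* GL (Fin n) R) (hρ : Continuous fun g => (ρ g : Matrix (Fin n) (Fin n) R))
    (hinj : Function.Injective ρ) :
    ∃ a b : F, a * b ≠ b * a ∧ ∃ (R' : Type v) (_ : CommRing R') (_ : TopologicalSpace R')
      (_ : IsTopologicalRing R') (_ : CompactSpace R') (_ : T2Space R')
      (_ : IsLinearTopology R' R') (_ : IsNoetherianRing R'),
      IsTopologicallyNilpotent (p : R') ∧
      ∃ σ : cl2 a b →* Matrix (Fin n) (Fin n) R', Continuous σ ∧ Function.Injective σ ∧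
        ∀ g i j, IsTopologicallyNilpotent (σ g i j - (1 : Matrix (Fin n) (Fin n) R') i j) := by
  have hlin : IsLinearTopology R R := linTop_of_profinite R
  obtain ⟨H, hHc, ⟨x, hx, y, hy, hxy⟩, hH⟩ := exists_tn hP hL hnc ρ hρ
  have hGH : cl2 x y ≤ H := cl2_le hHc hx hy
  have hGc : IsClosed ((cl2 x y : Subgroup F) : Set F) := isClosed_cl2 x y
  have : CompactSpace (cl2 x y) := isCompact_iff_compactSpace.1 hGc.isCompact
  have hJ : IsClosed (JinfP p R : Set R) := closed_JinfP p
  have hT2 : T2Space (R ⧸ JinfP p R) := t2_quot _ hJ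
  have hlin' : IsLinearTopology (R ⧸ JinfP p R) (R ⧸ JinfP p R) := lin_quot _
  have hmk : Continuous (Ideal.Quotient.mk (JinfP p R)) :=
    (QuotientRing.isOpenQuotientMap_mk (JinfP p R)).continuous
  let ρ' : cl2 x y →* Matrix (Fin n) (Fin n) R :=
    (Units.coeHom (Matrix (Fin n) (Fin n) R)).comp (ρ.comp (cl2 x y).subtype)
  have hρ' : Continuous ρ' := hρ.comp continuous_subtype_val
  let σ : cl2 x y →* Matrix (Fin n) (Fin n) (R ⧸ JinfP p R) :=
    (((Ideal.Quotient.mk (JinfP p R)).mapMatrix :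
      Matrix (Fin n) (Fin n) R →+* Matrix (Fin n) (Fin n) (R ⧸ JinfP p R)) :
      Matrix (Fin n) (Fin n) R →* Matrix (Fin n) (Fin n) (R ⧸ JinfP p R)).comp ρ'
  have hσe : ∀ g i j, σ g i j = Ideal.Quotient.mk (JinfP p R) (ρ' g i j) := fun _ _ _ => rfl
  have h1e : ∀ i j, Ideal.Quotient.mk (JinfP p R) ((1 : Matrix (Fin n) (Fin n) R) i j) =
      (1 : Matrix (Fin n) (Fin n) (R ⧸ JinfP p R)) i j := by
    intro i j
    rw [Matrix.one_apply, Matrix.one_apply]
    split_ifs <;> simp
  have hσ : Continuous σ := by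
    have : (σ : cl2 x y → Matrix (Fin n) (Fin n) (R ⧸ JinfP p R)) =
        fun g => (ρ' g).map (Ideal.Quotient.mk (JinfP p R)) := rfl
    rw [this]
    exact hρ'.matrix_map hmk
  have htn0 : ∀ (g : cl2 x y) i j, IsTopologicallyNilpotent (ρ' g i j
      - (1 : Matrix (Fin n) (Fin n) R) i j) := fun g i j => hH g (hGH g.2) i j
  have htn : ∀ (g : cl2 x y) i j, IsTopologicallyNilpotent (σ g i j
      - (1 : Matrix (Fin n) (Fin n) (R ⧸ JinfP p R)) i j) := by
    intro g i j
    have h := (htn0 g i j).map (φ := Ideal.Quotient.mk (JinfP p R)) hmk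
    rw [map_sub, h1e] at h
    exact h
  have hσi : Function.Injective σ := by
    rw [injective_iff_map_eq_one]
    intro g hg
    have hent : ∀ i j, ρ' g i j - (1 : Matrix (Fin n) (Fin n) R) i j ∈ JinfP p R := by
      intro i j
      rw [← Ideal.Quotient.eq_zero_iff_mem, map_sub, ← hσe, h1e, hg, sub_self]
    have h1 : ρ' g = 1 := by
      refine inj_modP (hP.sub _) ρ' hρ' (htn0 g) fun k i j => ?_
      have := hent i j
      unfold JinfP at this
      rw [Ideal.mem_iInf] at this
      exact Ideal.mem_span_singleton.1 (this k)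
    have h2 : (g : F) = 1 := hinj (by
      rw [map_one]
      exact Units.ext h1)
    exact Subtype.ext h2
  -- the ring
  let a : cl2 x y := ⟨x, left_mem_cl2 x y⟩
  let b : cl2 x y := ⟨y, right_mem_cl2 x y⟩
  let t : (Fin 4 × Fin n × Fin n) → R ⧸ JinfP p R := fun z =>
    σ (![a, a⁻¹, b, b⁻¹] z.1) z.2.1 z.2.2 - (1 : Matrix (Fin n) (Fin n) (R ⧸ JinfP p R)) z.2.1 z.2.2
  have hN := noeth_closureP (p_tn p (R := R)) t (fun z => htn _ _ _)
  set T : Subring (R ⧸ JinfP p R) := (Subring.closure (Set.range t)).topologicalClosure with hT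
  have hTc : IsClosed (T : Set (R ⧸ JinfP p R)) := Subring.isClosed_topologicalClosure _
  have hTcomp : CompactSpace T := isCompact_iff_compactSpace.1 hTc.isCompact
  have hlinT : IsLinearTopology T T := lin_subring T
  have h1T : ∀ i j, (1 : Matrix (Fin n) (Fin n) (R ⧸ JinfP p R)) i j ∈ T := by
    intro i j
    rw [Matrix.one_apply]
    split_ifs
    · exact T.one_mem
    · exact T.zero_mem
  have hgen : ∀ (k : Fin 4) i j, σ (![a, a⁻¹, b, b⁻¹] k) i j ∈ T := by
    intro k i j
    have h1 : t (k, i, j) ∈ T := Subring.le_topologicalClosure _ (Subring.subset_closure ⟨_, rfl⟩)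
    have h2 := T.add_mem h1 (h1T i j)
    have e : t (k, i, j) + (1 : Matrix (Fin n) (Fin n) (R ⧸ JinfP p R)) i j
        = σ (![a, a⁻¹, b, b⁻¹] k) i j := sub_add_cancel _ _
    rwa [e] at h2
  have hmulT : ∀ g h : cl2 x y, (∀ i j, σ g i j ∈ T) → (∀ i j, σ h i j ∈ T) →
      ∀ i j, σ (g * h) i j ∈ T := by
    intro g h hg hh i j
    rw [map_mul, Matrix.mul_apply]
    exact T.sum_mem fun l _ => T.mul_mem (hg i l) (hh l j)
  let S : Subgroup (cl2 x y) :=
    { carrier := {g | (∀ i j, σ g i j ∈ T) ∧ ∀ i j, σ g⁻¹ i j ∈ T}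
      one_mem' := by
        refine ⟨fun i j => ?_, fun i j => ?_⟩
        · rw [map_one]
          exact h1T i j
        · rw [inv_one, map_one]
          exact h1T i j
      mul_mem' := by
        rintro g h ⟨hg1, hg2⟩ ⟨hh1, hh2⟩
        refine ⟨hmulT g h hg1 hh1, ?_⟩
        rw [mul_inv_rev]
        exact hmulT _ _ hh2 hg2
      inv_mem' := by
        rintro g ⟨hg1, hg2⟩
        refine ⟨hg2, ?_⟩
        rw [inv_inv]
        exact hg1 }
  have hSc : IsClosed (S : Set (cl2 x y)) := by
    have : (S : Set (cl2 x y)) = (⋂ (i : Fin n), ⋂ (j : Fin n), (fun g => σ g i j) ⁻¹' (T : Set _)) ∩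
        ⋂ (i : Fin n), ⋂ (j : Fin n), (fun g => σ g⁻¹ i j) ⁻¹' (T : Set _) := by
      ext g
      simp only [Set.mem_inter_iff, Set.mem_iInter, Set.mem_preimage]
      exact Iff.rfl
    rw [this]
    refine IsClosed.inter ?_ ?_
    · refine isClosed_iInter fun i => isClosed_iInter fun j => hTc.preimage ?_
      exact hσ.matrix_elem i j
    · refine isClosed_iInter fun i => isClosed_iInter fun j => hTc.preimage ?_
      exact (hσ.comp continuous_inv).matrix_elem i j
  have hST : S = ⊤ := by
    refine eq_top_of_cl2 S hSc ?_ ?_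
    · exact ⟨hgen 0, hgen 1⟩
    · exact ⟨hgen 2, hgen 3⟩
  have hall : ∀ g i j, σ g i j ∈ T := by
    intro g
    have : g ∈ S := by rw [hST]; trivial
    exact this.1
  have h1c : ∀ i j, (((1 : Matrix (Fin n) (Fin n) T) i j : T) : R ⧸ JinfP p R) =
      (1 : Matrix (Fin n) (Fin n) (R ⧸ JinfP p R)) i j := by
    intro i j
    rw [Matrix.one_apply, Matrix.one_apply]
    split_ifs <;> rfl
  let τ : cl2 x y →* Matrix (Fin n) (Fin n) T :=
    { toFun := fun g => Matrix.of fun i j => ⟨σ g i j, hall g i j⟩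
      map_one' := by
        ext i j
        show σ 1 i j = _
        rw [map_one, h1c]
      map_mul' := by
        intro g h
        ext i j
        show σ (g * h) i j = _
        rw [map_mul, Matrix.mul_apply, Matrix.mul_apply, AddSubmonoidClass.coe_finsetSum]
        rfl }
  refine ⟨x, y, hxy, T, inferInstance, inferInstance, inferInstance, hTcomp, inferInstance, hlinT,
    hN, ?_, τ, ?_, ?_, ?_⟩
  · apply tn_subring
    have e : (((p : T) : T) : R ⧸ JinfP p R) = (p : R ⧸ JinfP p R) := by simp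
    rw [e]
    exact p_tn p
  · refine continuous_matrix fun i j => ?_
    exact Continuous.subtype_mk (hσ.matrix_elem i j) _
  · intro g h hgh
    apply hσi
    ext i j
    have := congrFun (congrFun hgh i) j
    exact congrArg Subtype.val this
  · intro g i j
    apply tn_subring
    have e : ((τ g i j - (1 : Matrix (Fin n) (Fin n) T) i j : T) : R ⧸ JinfP p R) =
        σ g i j - (1 : Matrix (Fin n) (Fin n) (R ⧸ JinfP p R)) i j := by
      rw [← h1c]
      rfl
    rw [e]
    exact htn g i j

end main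

end MP35
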