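import Mathlib

/-! # Piece RLEV: nil algebras of bounded index (Levitzki, Kaplansky) -/

set_option autoImplicit false

namespace MP35

universe u v w

private theorem pow_add_key {U : Type u} [Ring U] (P q a : U) (h1 : q * P = 0)
    (h2 : q * q * a = 0) (k : ℕ) :
    (P + q) ^ (k + 1) * a = P ^ (k + 1) * a + P ^ k * (q * a) := by
  induction k with
  | zero => rw [zero_add, pow_one, pow_one, pow_zero, one_mul, add_mul]
  | succ k ih =>
    rw [pow_succ', mul_assoc, ih, add_mul, mul_add, mul_add]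
    have h3 : q * (P ^ (k + 1) * a) = 0 := by
      rw [pow_succ', mul_assoc, ← mul_assoc, h1, zero_mul]
    have h4 : q * (P ^ k * (q * a)) = 0 := by
      rcases k with _ | k
      · rw [pow_zero, one_mul, ← mul_assoc, h2]
      · rw [pow_succ', mul_assoc, ← mul_assoc, h1, zero_mul]
    rw [h3, h4, add_zero, add_zero, ← mul_assoc, ← pow_succ', ← mul_assoc, ← pow_succ']

/-- PROOF (elementary, no structure theory). Let `Q` be the set of elements of a two-sided ideal, with `a q ∈ Q`... Formulation: `U` a ring, `Q ≤ U` an additive subgroup stable under multiplication by `U` on both sides, all `x ∈ Q` satisfy `x ^ n = 0`, and `Q` is prime in the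
sense that `a Q b = 0` with `a, b ∈ Q` implies `a = 0` or `b = 0`. Then `Q = 0`.
Suppose `0 ≠ a ∈ Q`. CLAIM: for every `m` with `1 ≤ m ≤ n` there is `0 ≠ b ∈ Q` with `(b x) ^ m * b = 0` for all `x ∈ Q`. `m = n`: `(a x) ^ n = 0`. Step from `m + 1 ≥ 2` to `m`: let `(a x) ^ (m+1) a = 0` for all `x`. Choose `x₀` with `a x₀ a ≠ 0` and `r ≥ 1` maximal with `(a x₀) ^ r a ≠ 0`
(`r ≤ m`), `z = x₀ (a x₀) ^ (r-1)`, `b = a z a = (a x₀) ^ r a ≠ 0`; `a z a z a = (a x₀) ^ (2 r) a = 0`. For `x ∈ Q` put `P = a z a x`, `q = a z`. Then `q P = 0` and `q q a = 0`, so `(P + q) ^ (m+1) a = P ^ (m+1) a + P ^ m q a` (induction). `P + q = a w`, `w = z a x + z ∈ Q`, so the left side is `0`; `P ^ (m+1) a = 0` as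
`P = a (z a x)`. Hence `0 = P ^ m q a = (b x) ^ m b`. For `m = 1`... go down to `m = 0`: the claim for `m = 1` gives `b x b = 0` for all `x ∈ Q`, contradiction to primeness. -/
theorem nil_prime_eq_zero {U : Type u} [Ring U] (Q : AddSubgroup U) (hl : ∀ u, ∀ x ∈ Q, u * x ∈ Q)
    (hr : ∀ u, ∀ x ∈ Q, x * u ∈ Q) {n : ℕ} (hn : 0 < n) (hnil : ∀ x ∈ Q, x ^ n = 0)
    (hprime : ∀ a ∈ Q, ∀ b ∈ Q, (∀ x ∈ Q, a * x * b = 0) → a = 0 ∨ b = 0) : Q = ⊥ := by
  classical
  by_contra hne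
  obtain ⟨a, ha, ha0⟩ : ∃ a ∈ Q, a ≠ 0 := by
    by_contra h
    push Not at h
    exact hne ((AddSubgroup.eq_bot_iff_forall Q).2 h)
  have step : ∀ m, 1 ≤ m → (∃ a ∈ Q, a ≠ 0 ∧ ∀ x ∈ Q, (a * x) ^ (m + 1) * a = 0) →
      ∃ b ∈ Q, b ≠ 0 ∧ ∀ x ∈ Q, (b * x) ^ m * b = 0 := by
    rintro m hm ⟨a, ha, ha0, hax⟩
    obtain ⟨x₀, hx₀, hx₀a⟩ : ∃ x₀ ∈ Q, a * x₀ * a ≠ 0 := by
      by_contra h
      push Not at h
      rcases hprime a ha a ha h with h | h <;> exact ha0 h
    have hex : ∃ k, (a * x₀) ^ k * a = 0 := ⟨m + 1, hax x₀ hx₀⟩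
    obtain ⟨k₀, hk₀, hmin⟩ : ∃ k₀, (a * x₀) ^ k₀ * a = 0 ∧ ∀ k < k₀, (a * x₀) ^ k * a ≠ 0 :=
      ⟨Nat.find hex, Nat.find_spec hex, fun k hk => Nat.find_min hex hk⟩
    have hk2 : 2 ≤ k₀ := by
      by_contra hcon
      push Not at hcon
      interval_cases k₀
      · exact ha0 (by simpa using hk₀)
      · exact hx₀a (by simpa using hk₀)
    obtain ⟨r, rfl⟩ : ∃ r, k₀ = r + 2 := ⟨k₀ - 2, by omega⟩
    -- `z = x₀ (a x₀) ^ r`, `b = a z a = (a x₀) ^ (r + 1) a`
    set z : U := x₀ * (a * x₀) ^ r with hz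
    have hzQ : z ∈ Q := hr _ _ hx₀
    have haz : a * z = (a * x₀) ^ (r + 1) := by
      rw [hz, ← mul_assoc, ← pow_succ']
    have hb0 : a * z * a ≠ 0 := by
      rw [haz]
      exact hmin (r + 1) (by omega)
    have hzz : a * z * (a * z) * a = 0 := by
      rw [haz, ← pow_add, show r + 1 + (r + 1) = r + (r + 2) by ring, pow_add, mul_assoc, hk₀,
        mul_zero]
    refine ⟨a * z * a, hr _ _ (hr _ _ ha), hb0, fun x hx => ?_⟩
    have hqP : a * z * (a * z * a * x) = 0 := by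
      rw [← mul_assoc, ← mul_assoc, hzz, zero_mul]
    have key := pow_add_key (a * z * a * x) (a * z) a hqP hzz
    have h1 : (a * z * a * x + a * z) ^ (m + 1) * a = 0 := by
      have e : a * z * a * x + a * z = a * (z * a * x + z) := by
        rw [mul_add]
        simp only [mul_assoc]
      rw [e]
      exact hax _ (Q.add_mem (hr _ _ (hr _ _ hzQ)) hzQ)
    have h2 : (a * z * a * x) ^ (m + 1) * a = 0 := by
      have e : a * z * a * x = a * (z * a * x) := by
        simp only [mul_assoc]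
      rw [e]
      exact hax _ (hr _ _ (hr _ _ hzQ))
    have h3 := key m
    rw [h1, h2, zero_add] at h3
    exact h3.symm
  have all : ∀ k, k < n → ∃ b ∈ Q, b ≠ 0 ∧ ∀ x ∈ Q, (b * x) ^ (n - k) * b = 0 := by
    intro k
    induction k with
    | zero =>
      intro _
      refine ⟨a, ha, ha0, fun x hx => ?_⟩
      rw [Nat.sub_zero, hnil _ (hr _ _ ha), zero_mul]
    | succ k ih =>
      intro hk
      obtain ⟨b, hb⟩ := ih (by omega)
      refine step (n - (k + 1)) (by omega) ⟨b, ?_⟩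
      rw [show n - (k + 1) + 1 = n - k by omega]
      exact hb
  obtain ⟨b, hb, hb0, hbx⟩ := all (n - 1) (by omega)
  rw [show n - (n - 1) = 1 by omega] at hbx
  rcases hprime b hb b hb (fun x hx => by rw [← pow_one (b * x)]; exact hbx x hx) with h | h <;>
    exact hb0 h


section lev

/-- the augmentation ideal of the free ring -/
private def augQ : AddSubgroup (FreeAlgebra ℤ (Fin 2)) :=
  (FreeAlgebra.algebraMapInv (R := ℤ) (X := Fin 2)).toRingHom.toAddMonoidHom.ker

private theorem mem_augQ {y : FreeAlgebra ℤ (Fin 2)} :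
    y ∈ augQ ↔ FreeAlgebra.algebraMapInv y = 0 := Iff.rfl

private theorem mul_mem_augQ (u : FreeAlgebra ℤ (Fin 2)) {x : FreeAlgebra ℤ (Fin 2)}
    (hx : x ∈ augQ) : u * x ∈ augQ := by
  rw [mem_augQ] at hx ⊢
  rw [map_mul, hx, mul_zero]

private theorem mem_augQ_mul (u : FreeAlgebra ℤ (Fin 2)) {x : FreeAlgebra ℤ (Fin 2)}
    (hx : x ∈ augQ) : x * u ∈ augQ := by
  rw [mem_augQ] at hx ⊢
  rw [map_mul, hx, zero_mul]

private theorem iota_mem_augQ (c : Fin 2) : FreeAlgebra.ι ℤ c ∈ augQ := by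
  rw [mem_augQ, FreeAlgebra.algebraMapInv, FreeAlgebra.lift_ι_apply]
  rfl

/-- the words -/
private abbrev wd {l : ℕ} (w : Fin l → Fin 2) : FreeAlgebra ℤ (Fin 2) :=
  (List.ofFn fun k => FreeAlgebra.ι ℤ (w k)).prod

private theorem wd_add {l m : ℕ} (w : Fin (l + m) → Fin 2) :
    wd w = wd (fun i => w (Fin.castAdd m i)) * wd (fun i => w (Fin.natAdd l i)) := by
  rw [wd, List.ofFn_add, List.prod_append]
  rfl

private theorem wd_one (w : Fin 1 → Fin 2) : wd w = FreeAlgebra.ι ℤ (w 0) := by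
  simp [wd]

/-- `J` contains all words of length `l`, for some `l` -/
private def Good (J : AddSubgroup (FreeAlgebra ℤ (Fin 2))) : Prop :=
  ∃ l : ℕ, ∀ w : Fin l → Fin 2, wd w ∈ J

/-- `J` is a two-sided ideal -/
private def Stab (J : AddSubgroup (FreeAlgebra ℤ (Fin 2))) : Prop :=
  (∀ u, ∀ x ∈ J, u * x ∈ J) ∧ ∀ u, ∀ x ∈ J, x * u ∈ J

/-- the ideal generated by `J` and `a` -/
private def adj (J : AddSubgroup (FreeAlgebra ℤ (Fin 2))) (a : FreeAlgebra ℤ (Fin 2)) :
    AddSubgroup (FreeAlgebra ℤ (Fin 2)) :=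
  AddSubgroup.closure ((J : Set (FreeAlgebra ℤ (Fin 2))) ∪ {x | ∃ u v, x = u * a * v})

private theorem le_adj (J : AddSubgroup (FreeAlgebra ℤ (Fin 2))) (a : FreeAlgebra ℤ (Fin 2)) :
    J ≤ adj J a := fun _ hx => AddSubgroup.subset_closure (Or.inl hx)

private theorem mem_adj (J : AddSubgroup (FreeAlgebra ℤ (Fin 2))) (a : FreeAlgebra ℤ (Fin 2)) :
    a ∈ adj J a := AddSubgroup.subset_closure (Or.inr ⟨1, 1, by rw [one_mul, mul_one]⟩)

private theorem stab_adj {J : AddSubgroup (FreeAlgebra ℤ (Fin 2))} (hJ : Stab J)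
    (a : FreeAlgebra ℤ (Fin 2)) : Stab (adj J a) := by
  constructor
  · intro u x hx
    refine AddSubgroup.closure_induction ?_ ?_ ?_ ?_ hx
    · rintro y (hy | ⟨u', v', rfl⟩)
      · exact AddSubgroup.subset_closure (Or.inl (hJ.1 u y hy))
      · exact AddSubgroup.subset_closure (Or.inr ⟨u * u', v', by simp only [mul_assoc]⟩)
    · rw [mul_zero]
      exact zero_mem _
    · intro y z _ _ hy hz
      rw [mul_add]
      exact add_mem hy hz
    · intro y _ hy
      rw [mul_neg]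
      exact neg_mem hy
  · intro u x hx
    refine AddSubgroup.closure_induction ?_ ?_ ?_ ?_ hx
    · rintro y (hy | ⟨u', v', rfl⟩)
      · exact AddSubgroup.subset_closure (Or.inl (hJ.2 u y hy))
      · exact AddSubgroup.subset_closure (Or.inr ⟨u', v' * u, by simp only [mul_assoc]⟩)
    · rw [zero_mul]
      exact zero_mem _
    · intro y z _ _ hy hz
      rw [add_mul]
      exact add_mem hy hz
    · intro y _ hy
      rw [neg_mul]
      exact neg_mem hy

/-- the product of `adj J a`, `augQ`, `adj J b` is in `J`, if `a Q b ≤ J` -/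
private theorem adj_mul {J : AddSubgroup (FreeAlgebra ℤ (Fin 2))} (hJ : Stab J)
    {a b : FreeAlgebra ℤ (Fin 2)} (hab : ∀ x ∈ augQ, a * x * b ∈ J)
    {x c y : FreeAlgebra ℤ (Fin 2)} (hx : x ∈ adj J a) (hc : c ∈ augQ) (hy : y ∈ adj J b) :
    x * c * y ∈ J := by
  refine AddSubgroup.closure_induction ?_ ?_ ?_ ?_ hx
  · rintro x (hx | ⟨u, v, rfl⟩)
    · exact hJ.2 _ _ (hJ.2 _ _ hx)
    · refine AddSubgroup.closure_induction ?_ ?_ ?_ ?_ hy
      · rintro y (hy | ⟨u', v', rfl⟩)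
        · exact hJ.1 _ _ hy
        · have h1 : a * (v * c * u') * b ∈ J := hab _ (mem_augQ_mul _ (mul_mem_augQ _ hc))
          have e : u * a * v * c * (u' * b * v') = u * (a * (v * c * u') * b) * v' := by
            simp only [mul_assoc]
          rw [e]
          exact hJ.2 _ _ (hJ.1 _ _ h1)
      · rw [mul_zero]
        exact zero_mem _
      · intro y z _ _ hy hz
        rw [mul_add]
        exact add_mem hy hz
      · intro y _ hy
        rw [mul_neg]
        exact neg_mem hy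
  · rw [zero_mul, zero_mul]
    exact zero_mem _
  · intro y z _ _ hy hz
    rw [add_mul, add_mul]
    exact add_mem hy hz
  · intro y _ hy
    rw [neg_mul, neg_mul]
    exact neg_mem hy

private theorem stab_sSup {c : Set (AddSubgroup (FreeAlgebra ℤ (Fin 2)))} (hne : c.Nonempty)
    (hc : IsChain (· ≤ ·) c) (hs : ∀ J ∈ c, Stab J) : Stab (sSup c) := by
  constructor
  · intro u x hx
    rw [AddSubgroup.mem_sSup_of_directedOn hne hc.directedOn] at hx ⊢
    obtain ⟨J, hJ, hxJ⟩ := hx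
    exact ⟨J, hJ, (hs J hJ).1 u x hxJ⟩
  · intro u x hx
    rw [AddSubgroup.mem_sSup_of_directedOn hne hc.directedOn] at hx ⊢
    obtain ⟨J, hJ, hxJ⟩ := hx
    exact ⟨J, hJ, (hs J hJ).2 u x hxJ⟩

private theorem exists_ge_of_chain {c : Set (AddSubgroup (FreeAlgebra ℤ (Fin 2)))}
    (hne : c.Nonempty) (hc : IsChain (· ≤ ·) c) {ι : Type} (s : Finset ι)
    (g : ι → AddSubgroup (FreeAlgebra ℤ (Fin 2))) (hg : ∀ i ∈ s, g i ∈ c) :
    ∃ J ∈ c, ∀ i ∈ s, g i ≤ J := by
  classical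
  induction s using Finset.induction_on with
  | empty =>
    obtain ⟨J, hJ⟩ := hne
    exact ⟨J, hJ, fun i hi => absurd hi (Finset.notMem_empty i)⟩
  | insert i s _ ih =>
    obtain ⟨J, hJ, h⟩ := ih fun i hi => hg i (Finset.mem_insert_of_mem hi)
    rcases hc.total hJ (hg i (Finset.mem_insert_self i s)) with h1 | h1
    · refine ⟨g i, hg i (Finset.mem_insert_self i s), fun k hk => ?_⟩
      rcases Finset.mem_insert.1 hk with rfl | hk
      · exact le_rfl
      · exact (h k hk).trans h1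
    · refine ⟨J, hJ, fun k hk => ?_⟩
      rcases Finset.mem_insert.1 hk with rfl | hk
      · exact h1
      · exact h k hk

private theorem good_of_chain {c : Set (AddSubgroup (FreeAlgebra ℤ (Fin 2)))} (hne : c.Nonempty)
    (hc : IsChain (· ≤ ·) c) (h : Good (sSup c)) : ∃ J ∈ c, Good J := by
  obtain ⟨l, hl⟩ := h
  have h1 : ∀ w : Fin l → Fin 2, ∃ J ∈ c, wd w ∈ J := fun w =>
    (AddSubgroup.mem_sSup_of_directedOn hne hc.directedOn).1 (hl w)
  choose g hg hgw using h1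
  obtain ⟨J, hJ, hJg⟩ := exists_ge_of_chain hne hc Finset.univ g fun w _ => hg w
  exact ⟨J, hJ, l, fun w => hJg w (Finset.mem_univ w) (hgw w)⟩

/-- a two-sided ideal containing all `y ^ n`, `y ∈ augQ`, is good -/
private theorem good_of_stab {n : ℕ} (hn : 0 < n) {J₀ : AddSubgroup (FreeAlgebra ℤ (Fin 2))}
    (hJ₀ : Stab J₀) (hpow : ∀ y ∈ augQ, y ^ n ∈ J₀) : Good J₀ := by
  classical
  by_contra hbad
  obtain ⟨J, hJ₀J, hJmax⟩ := zorn_le_nonempty₀
    {J : AddSubgroup (FreeAlgebra ℤ (Fin 2)) | Stab J ∧ J₀ ≤ J ∧ ¬ Good J} (by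
      intro c hcs hc y hy
      refine ⟨sSup c, ⟨stab_sSup ⟨y, hy⟩ hc fun J hJ => (hcs hJ).1,
        (hcs hy).2.1.trans (le_sSup hy), fun hgood => ?_⟩, fun z hz => le_sSup hz⟩
      obtain ⟨J, hJ, hJgood⟩ := good_of_chain ⟨y, hy⟩ hc hgood
      exact (hcs hJ).2.2 hJgood) J₀ ⟨hJ₀, le_rfl, hbad⟩
  obtain ⟨hJs, -, hJbad⟩ := hJmax.prop
  let I : TwoSidedIdeal (FreeAlgebra ℤ (Fin 2)) := TwoSidedIdeal.mk' (J : Set _) J.zero_mem
    J.add_mem J.neg_mem (fun {x y} hy => hJs.1 x y hy) (fun {x y} hx => hJs.2 y x hx)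
  have hI : ∀ x, x ∈ I ↔ x ∈ J := fun x => TwoSidedIdeal.mem_mk' _ _ _ _ _ _ x
  let π := I.ringCon.mk'
  have hπ0 : ∀ x, π x = 0 ↔ x ∈ J := by
    intro x
    rw [← hI, TwoSidedIdeal.mem_iff, ← map_zero π]
    exact I.ringCon.eq
  have hπs : Function.Surjective π := I.ringCon.mk'_surjective
  have hQ : augQ.map π.toAddMonoidHom = ⊥ := by
    refine nil_prime_eq_zero _ ?_ ?_ hn ?_ ?_
    · rintro u _ ⟨x, hx, rfl⟩
      obtain ⟨u', rfl⟩ := hπs u
      exact ⟨u' * x, mul_mem_augQ _ hx, map_mul π u' x⟩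
    · rintro u _ ⟨x, hx, rfl⟩
      obtain ⟨u', rfl⟩ := hπs u
      exact ⟨x * u', mem_augQ_mul _ hx, map_mul π x u'⟩
    · rintro _ ⟨x, hx, rfl⟩
      have h1 : π (x ^ n) = 0 := (hπ0 _).2 (hJ₀J (hpow x hx))
      rw [map_pow] at h1
      exact h1
    · rintro _ ⟨a, ha, rfl⟩ _ ⟨b, hb, rfl⟩ hab
      have hab' : ∀ x ∈ augQ, a * x * b ∈ J := by
        intro x hx
        rw [← hπ0, map_mul, map_mul]
        exact hab (π x) ⟨x, hx, rfl⟩
      by_contra hcon
      push Not at hcon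
      have haJ : a ∉ J := fun h => hcon.1 ((hπ0 a).2 h)
      have hbJ : b ∉ J := fun h => hcon.2 ((hπ0 b).2 h)
      have hgood : ∀ a, a ∉ J → Good (adj J a) := by
        intro a haJ
        by_contra hg
        have h1 : adj J a ≤ J := hJmax.2 ⟨stab_adj hJs a, hJ₀J.trans (le_adj J a), hg⟩ (le_adj J a)
        exact haJ (h1 (mem_adj J a))
      obtain ⟨l₁, h₁⟩ := hgood a haJ
      obtain ⟨l₂, h₂⟩ := hgood b hbJ
      refine hJbad ⟨l₁ + 1 + l₂, fun w => ?_⟩
      rw [wd_add, wd_add, wd_one]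
      exact adj_mul hJs hab' (h₁ _) (iota_mem_augQ _) (h₂ _)
  refine hJbad ⟨1, fun w => ?_⟩
  rw [wd_one, ← hπ0]
  have h1 : π (FreeAlgebra.ι ℤ (w 0)) ∈ augQ.map π.toAddMonoidHom := ⟨_, iota_mem_augQ _, rfl⟩
  rw [hQ] at h1
  exact h1

/-- the two-sided ideal generated by the `y ^ n`, `y ∈ S` -/
private def powI (n : ℕ) (S : Set (FreeAlgebra ℤ (Fin 2))) :
    AddSubgroup (FreeAlgebra ℤ (Fin 2)) :=
  AddSubgroup.closure {x | ∃ y ∈ S, ∃ u v, x = u * y ^ n * v}

private theorem powI_mono (n : ℕ) {S S' : Set (FreeAlgebra ℤ (Fin 2))} (h : S ⊆ S') :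
    powI n S ≤ powI n S' :=
  AddSubgroup.closure_mono (by
    rintro x ⟨y, hy, u, v, rfl⟩
    exact ⟨y, h hy, u, v, rfl⟩)

private theorem stab_powI (n : ℕ) (S : Set (FreeAlgebra ℤ (Fin 2))) : Stab (powI n S) := by
  constructor
  · intro u x hx
    refine AddSubgroup.closure_induction ?_ ?_ ?_ ?_ hx
    · rintro _ ⟨y, hy, u', v', rfl⟩
      exact AddSubgroup.subset_closure ⟨y, hy, u * u', v', by simp only [mul_assoc]⟩
    · rw [mul_zero]
      exact zero_mem _
    · intro y z _ _ hy hz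
      rw [mul_add]
      exact add_mem hy hz
    · intro y _ hy
      rw [mul_neg]
      exact neg_mem hy
  · intro u x hx
    refine AddSubgroup.closure_induction ?_ ?_ ?_ ?_ hx
    · rintro _ ⟨y, hy, u', v', rfl⟩
      exact AddSubgroup.subset_closure ⟨y, hy, u', v' * u, by simp only [mul_assoc]⟩
    · rw [zero_mul]
      exact zero_mem _
    · intro y z _ _ hy hz
      rw [add_mul]
      exact add_mem hy hz
    · intro y _ hy
      rw [neg_mul]
      exact neg_mem hy

private theorem exists_finset_powI {n : ℕ} {S : Set (FreeAlgebra ℤ (Fin 2))}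
    {x : FreeAlgebra ℤ (Fin 2)} (hx : x ∈ powI n S) :
    ∃ F : Finset (FreeAlgebra ℤ (Fin 2)), (F : Set _) ⊆ S ∧ x ∈ powI n (F : Set _) := by
  classical
  refine AddSubgroup.closure_induction ?_ ?_ ?_ ?_ hx
  · rintro _ ⟨y, hy, u, v, rfl⟩
    refine ⟨{y}, by simpa using hy, AddSubgroup.subset_closure ⟨y, by simp, u, v, rfl⟩⟩
  · exact ⟨∅, by simp, zero_mem _⟩
  · rintro x y - - ⟨F, hF, hx⟩ ⟨F', hF', hy⟩
    refine ⟨F ∪ F', by rw [Finset.coe_union]; exact Set.union_subset hF hF', add_mem ?_ ?_⟩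
    · exact powI_mono n (by rw [Finset.coe_union]; exact Set.subset_union_left) hx
    · exact powI_mono n (by rw [Finset.coe_union]; exact Set.subset_union_right) hy
  · rintro x - ⟨F, hF, hx⟩
    exact ⟨F, hF, neg_mem hx⟩

end lev

/-- PROOF. Let `U = FreeAlgebra ℤ (Fin 2)`, `Q` the augmentation ideal (kernel of `algebraMapInv`), spanned additively by the nonempty words, and for a two-sided ideal `J` of `U` say that `J` is good if it contains all words of length `l` for some `l`. Let `J₀` be the two-sided ideal generated by all `y ^ n`, `y ∈ Q`. CLAIM: `J₀` is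
good. Otherwise by Zorn there is a two-sided ideal `J ≥ J₀` maximal among those which are not good (the union of a chain of ideals which are not good is not good: there are only finitely many words of length `l`). In `U / J` let `Q'` be the image of `Q`; it is nil of index `n` and `Q' ≠ 0` (all words of length `1` in `J` would be good).
`Q'` is prime: if `a, b ∈ Q` are not in `J` and `a Q b ≤ J`: the ideals `J + (a)`, `J + (b)` are good with lengths `l₁, l₂`; `(J + (a)) Q (J + (b)) ≤ J + U a U Q U b U ≤ J` (`U Q U = Q`), so all words of length `l₁ + 1 + l₂` are in `J`, contradiction. So `nil_prime_eq_zero` gives `Q' = 0`, contradiction.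
So for some `l` all words of length `l` are in `J₀`, the additive group generated by the `u y ^ n v`, `y ∈ Q`; the finitely many words of length `l` involve only finitely many `y_i`. (Two-sided ideals of `U`: use additive subgroups stable on both sides, or `TwoSidedIdeal`, or `RingCon`.) -/
theorem levitzki {n : ℕ} (hn : 0 < n) : ∃ (l r : ℕ) (y : Fin r → FreeAlgebra ℤ (Fin 2)),
    (∀ i, FreeAlgebra.algebraMapInv (y i) = 0) ∧
    ∀ w : Fin l → Fin 2, (List.ofFn fun k => FreeAlgebra.ι ℤ (w k)).prod ∈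
      AddSubgroup.closure {x : FreeAlgebra ℤ (Fin 2) | ∃ i u v, x = u * y i ^ n * v} := by
  classical
  obtain ⟨l, hl⟩ := good_of_stab hn (stab_powI n (augQ : Set (FreeAlgebra ℤ (Fin 2))))
    fun y hy => AddSubgroup.subset_closure ⟨y, hy, 1, 1, by rw [one_mul, mul_one]⟩
  have h1 := fun w : Fin l → Fin 2 => exists_finset_powI (hl w)
  choose F hF hwF using h1
  let F' : Finset (FreeAlgebra ℤ (Fin 2)) := Finset.univ.biUnion F
  refine ⟨l, F'.card, fun i => (F'.equivFin.symm i : FreeAlgebra ℤ (Fin 2)), fun i => ?_, fun w => ?_⟩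
  · obtain ⟨w, -, hw⟩ := Finset.mem_biUnion.1 (F'.equivFin.symm i).2
    exact mem_augQ.1 (hF w hw)
  · refine AddSubgroup.closure_mono ?_ (hwF w)
    rintro x ⟨y, hy, u, v, rfl⟩
    have hy' : y ∈ F' := Finset.mem_biUnion.2 ⟨w, Finset.mem_univ w, hy⟩
    refine ⟨F'.equivFin ⟨y, hy'⟩, u, v, ?_⟩
    show u * y ^ n * v = u * (F'.equivFin.symm (F'.equivFin ⟨y, hy'⟩) : FreeAlgebra ℤ (Fin 2)) ^ n * v
    rw [Equiv.symm_apply_apply]

end MP35
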