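import Pool.Agent.Lib_MP_3538b5_al.RDefs
import Pool.Agent.Lib_MP_3538b5_al.RCap

/-! # Reductions of representations -/

set_option autoImplicit false

namespace MP35

universe u v w

/-- `R'` is a reduction of `R`: a ring homomorphism `π` from the order `R.A` to matrices over a field
`Ω'` containing the quotient `T'` of `T`, with `R'.ρ = π ∘ j` irreducible. -/
structure Red {p : ℕ} {G : Type u} [Group G] [TopologicalSpace G] {T : Type v} [CommRing T]
    [TopologicalSpace T] {Ω : Type v} [Field Ω] [Algebra T Ω] {n : ℕ} (R : Rep p G T Ω n)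
    {T' : Type v} [CommRing T'] [TopologicalSpace T'] {Ω' : Type v} [Field Ω'] [Algebra T' Ω']
    (R' : Rep p G T' Ω' n) where
  φ : T →+* T'
  surj : Function.Surjective φ
  cont : Continuous φ
  π : R.A →+* Matrix (Fin n) (Fin n) Ω'
  hρ : ∀ g, π (R.j g) = R'.ρ g
  hπ : ∀ (t : T) (a : R.A), π (t • a) = algebraMap T' Ω' (φ t) • π a
  span : Submodule.span Ω' (Set.range R'.ρ) = ⊤

namespace Red

variable {p : ℕ} {G : Type u} [Group G] [TopologicalSpace G] {T : Type v} [CommRing T]
    [TopologicalSpace T] {Ω : Type v} [Field Ω] [Algebra T Ω] {n : ℕ} {R : Rep p G T Ω n}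
    {T' : Type v} [CommRing T'] [TopologicalSpace T'] {Ω' : Type v} [Field Ω'] [Algebra T' Ω']
    {R' : Rep p G T' Ω' n} (X : Red R R')

theorem span_π : Submodule.span Ω' (Set.range X.π) = ⊤ := by
  rw [eq_top_iff, ← X.span]
  refine Submodule.span_mono ?_
  rintro _ ⟨g, rfl⟩
  exact ⟨R.j g, X.hρ g⟩

/-- the comparison of characteristic polynomials, upstairs: for an endomorphism `L` of the matrices
over `Ω` which maps `A` to `A` (as `LA`) -/
theorem capF_up [Infinite Ω] {L : Module.End Ω (Matrix (Fin n) (Fin n) Ω)} {LA : R.A → R.A}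
    (hL : ∀ a : R.A, ((LA a : R.A) : Matrix (Fin n) (Fin n) Ω) = L a) {j : ℕ} (hj : j ≤ n ^ 2)
    (b z : Fin (n ^ 2) → R.A) :
    ((capF LA j b z : R.A) : Matrix (Fin n) (Fin n) Ω)
      = L.charpoly.coeff j • ((capf b z : R.A) : Matrix (Fin n) (Fin n) Ω) := by
  have h1 := capF_map (R.A.val : R.A →+* Matrix (Fin n) (Fin n) Ω) (L := LA) (L' := L) hL j b z
  have h2 := capf_map (R.A.val : R.A →+* Matrix (Fin n) (Fin n) Ω) b z
  exact h1.trans ((capF_eq L hj _ _).trans (congrArg _ h2.symm))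

/-- the comparison of characteristic polynomials, downstairs -/
theorem capF_down [Infinite Ω'] {L' : Module.End Ω' (Matrix (Fin n) (Fin n) Ω')} {LA : R.A → R.A}
    (hL' : ∀ a : R.A, X.π (LA a) = L' (X.π a)) {j : ℕ} (hj : j ≤ n ^ 2) (b z : Fin (n ^ 2) → R.A) :
    X.π (capF LA j b z) = L'.charpoly.coeff j • X.π (capf b z) := by
  have h1 := capF_map X.π (L := LA) (L' := L') hL' j b z
  have h2 := capf_map X.π b z
  exact h1.trans ((capF_eq L' hj _ _).trans (congrArg _ h2.symm))

/-- there are `b, z` in `A` with `π (capf b z) ≠ 0` -/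
theorem exists_capf_ne (hn : 0 < n) : ∃ b z : Fin (n ^ 2) → R.A, X.π (capf b z) ≠ 0 := by
  obtain ⟨b, z, hb, hz, h⟩ := capf_ne_of_span hn le_rfl X.span_π
  choose b' hb' using hb
  choose z' hz' using hz
  refine ⟨b', z', ?_⟩
  rw [capf_map]
  have e1 : (fun i => X.π (b' i)) = b := funext hb'
  have e2 : (fun i => X.π (z' i)) = z := funext hz'
  rw [e1, e2]
  exact h

end Red

end MP35
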