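import Pool.Agent.Lib_MP_3538b5_al.RDefs

/-! # Piece RSPANFIN: short words span over the coefficient ring -/

set_option autoImplicit false

namespace MP35

universe u v w

/-- the word given by a list -/
def wordL (L : List (Fin 2)) : FreeAlgebra ℤ (Fin 2) := (L.map (FreeAlgebra.ι ℤ)).prod

theorem wordL_append (L M : List (Fin 2)) : wordL (L ++ M) = wordL L * wordL M := by
  unfold wordL
  rw [List.map_append, List.prod_append]

/-- the words span the free algebra -/
theorem mem_span_wordL (x : FreeAlgebra ℤ (Fin 2)) :
    x ∈ AddSubgroup.closure (Set.range wordL) := by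
  have hmul : ∀ a ∈ AddSubgroup.closure (Set.range wordL),
      ∀ b ∈ AddSubgroup.closure (Set.range wordL), a * b ∈ AddSubgroup.closure (Set.range wordL) := by
    intro a ha b hb
    induction ha using AddSubgroup.closure_induction with
    | mem a ha =>
      obtain ⟨L, rfl⟩ := ha
      induction hb using AddSubgroup.closure_induction with
      | mem b hb =>
        obtain ⟨M, rfl⟩ := hb
        rw [← wordL_append]
        exact AddSubgroup.subset_closure ⟨_, rfl⟩
      | zero =>
        rw [mul_zero]
        exact zero_mem _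
      | add b c _ _ hb hc =>
        rw [mul_add]
        exact add_mem hb hc
      | neg b _ hb =>
        rw [mul_neg]
        exact neg_mem hb
    | zero =>
      rw [zero_mul]
      exact zero_mem _
    | add a c _ _ ha hc =>
      rw [add_mul]
      exact add_mem ha hc
    | neg a _ ha =>
      rw [neg_mul]
      exact neg_mem ha
  have h1 : (1 : FreeAlgebra ℤ (Fin 2)) ∈ AddSubgroup.closure (Set.range wordL) :=
    AddSubgroup.subset_closure ⟨[], rfl⟩
  induction x using FreeAlgebra.induction with
  | grade0 r =>
    rw [Algebra.algebraMap_eq_smul_one]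
    exact zsmul_mem h1 r
  | grade1 i =>
    refine AddSubgroup.subset_closure ⟨[i], ?_⟩
    unfold wordL
    rw [List.map_singleton, List.prod_singleton]
  | mul a b ha hb => exact hmul a ha b hb
  | add a b ha hb => exact add_mem ha hb


/-- PROOF. Let `M` be the `S`-submodule of `B` generated by the (finitely many) words `ev (x_{w 1} ⋯ x_{w k})`, `k < l`; it is the continuous image of a compact space `S ^ N`, so compact and closed in `B` (`B` has the `T₁`-module topology, Hausdorff by `t2_of_finite`; `S → T₁` is continuous). Let `W` be the `S`-submodule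
generated by all words `= range of ev` spanned over `S`. If `l = 0` the hypothesis says that `1` is in the span below, same argument. CLAIM: `W ≤ M + 𝔞 W` where `𝔞` is the ideal of `S` generated by the `c i j`: a word of length `≥ l` is `w₁ w₂` with `w₁` of length `l`; by `hlev` (mapped by `ev`) `ev w₁` is a `ℤ`-combination of
`ev u * (ev (y i)) ^ n * ev v`, and `(ev (y i)) ^ n = Σ_j c i j • (ev (y i)) ^ j`. Hence `W ≤ M + 𝔞 ^ k W` for all `k`. `𝔞` is generated by finitely many topologically nilpotent elements, so `𝔞 ^ k • B` tends to `0`: for every neighbourhood `V` of `0` in `B` there is `k` with `𝔞 ^ k W ≤ V` (`B` is a finite `T₁`-module: `V` contains the image of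
`I ^ r` for an open ideal `I` of `T₁`, and `𝔞 ^ k` maps into `I`). So `W ≤ closure M = M`, and `W = M` is finitely generated. -/
theorem span_words {S : Type u} [CommRing S] [TopologicalSpace S] [CNR S] {T₁ : Type v} [CommRing T₁]
    [TopologicalSpace T₁] [CNR T₁] [Algebra S T₁] (hc : Continuous (algebraMap S T₁)) {B : Type w}
    [Ring B] [Algebra T₁ B] [Algebra S B] [IsScalarTower S T₁ B] [Module.Finite T₁ B]
    (X : Fin 2 → B) {n l r : ℕ} (y : Fin r → FreeAlgebra ℤ (Fin 2))
    (hlev : ∀ w : Fin l → Fin 2, (List.ofFn fun k => FreeAlgebra.ι ℤ (w k)).prod ∈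
      AddSubgroup.closure {x : FreeAlgebra ℤ (Fin 2) | ∃ i u v, x = u * y i ^ n * v})
    (c : Fin r → Fin n → S) (hct : ∀ i j, IsTopologicallyNilpotent (c i j))
    (hCH : ∀ i, FreeAlgebra.lift ℤ X (y i) ^ n
      = ∑ j : Fin n, c i j • FreeAlgebra.lift ℤ X (y i) ^ (j : ℕ)) :
    (Submodule.span S (Set.range (FreeAlgebra.lift ℤ X : FreeAlgebra ℤ (Fin 2) → B))).FG := by
  classical
  let _ : TopologicalSpace B := moduleTopology T₁ B
  have hmt : IsModuleTopology T₁ B := ⟨rfl⟩
  have hcadd : ContinuousAdd B := IsModuleTopology.toContinuousAdd T₁ B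
  have hcsmul : ContinuousSMul T₁ B := IsModuleTopology.toContinuousSMul T₁ B
  have htag : IsTopologicalAddGroup B := IsModuleTopology.topologicalAddGroup T₁ B
  have ht2 : T2Space B := t2_of_finite T₁ B
  have hsm : ContinuousSMul S B := by
    refine ⟨?_⟩
    have e : (fun z : S × B => z.1 • z.2) = fun z : S × B => algebraMap S T₁ z.1 • z.2 := by
      funext z
      rw [algebraMap_smul]
    rw [e]
    exact (hc.comp continuous_fst).smul continuous_snd
  set ev : FreeAlgebra ℤ (Fin 2) →ₐ[ℤ] B := FreeAlgebra.lift ℤ X with hev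
  set W : Submodule S B := Submodule.span S (Set.range ev) with hW
  let FS : Set B := (fun L => ev (wordL L)) '' {L : List (Fin 2) | L.length < l}
  have hFSf : FS.Finite := (List.finite_length_lt (Fin 2) l).image _
  let M : Submodule S B := Submodule.span S FS
  have hMfg : M.FG := Submodule.fg_span hFSf
  let 𝔞 : Ideal S := Ideal.span (Set.range fun z : Fin r × Fin n => c z.1 z.2)
  have hca : ∀ i j, c i j ∈ 𝔞 := fun i j => Ideal.subset_span ⟨(i, j), rfl⟩
  have hevW : ∀ x, ev x ∈ W := fun x => Submodule.subset_span ⟨x, rfl⟩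
  have hMW : M ≤ W := by
    refine Submodule.span_le.2 ?_
    rintro _ ⟨L, -, rfl⟩
    exact hevW _
  -- words of length `l`
  have hlong : ∀ z ∈ AddSubgroup.closure {x : FreeAlgebra ℤ (Fin 2) | ∃ i u v, x = u * y i ^ n * v},
      ∀ t, ev (z * t) ∈ 𝔞 • W := by
    intro z hz t
    induction hz using AddSubgroup.closure_induction with
    | mem z hz =>
      obtain ⟨i, u, v, rfl⟩ := hz
      have e : ev (u * y i ^ n * v * t) = ∑ j : Fin n, c i j • ev (u * y i ^ (j : ℕ) * v * t) := by
        rw [map_mul, map_mul, map_mul, map_pow, hCH, Finset.mul_sum, Finset.sum_mul,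
          Finset.sum_mul]
        refine Finset.sum_congr rfl fun j _ => ?_
        rw [map_mul, map_mul, map_mul, map_pow, mul_smul_comm, smul_mul_assoc, smul_mul_assoc]
      rw [e]
      exact Submodule.sum_mem _ fun j _ => Submodule.smul_mem_smul (hca i j) (hevW _)
    | zero =>
      rw [zero_mul, map_zero]
      exact zero_mem _
    | add a b _ _ ha hb =>
      rw [add_mul, map_add]
      exact add_mem ha hb
    | neg a _ ha =>
      rw [neg_mul, map_neg]
      exact neg_mem ha
  have hword : ∀ L : List (Fin 2), ev (wordL L) ∈ M ⊔ 𝔞 • W := by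
    intro L
    by_cases hL : L.length < l
    · exact Submodule.mem_sup_left (Submodule.subset_span ⟨L, hL, rfl⟩)
    · push Not at hL
      refine Submodule.mem_sup_right ?_
      have h1 : (L.take l).length = l := by
        rw [List.length_take]
        omega
      have h2 : wordL (L.take l) ∈
          AddSubgroup.closure {x : FreeAlgebra ℤ (Fin 2) | ∃ i u v, x = u * y i ^ n * v} := by
        have h3 := hlev (fun k => (L.take l).get ⟨k, by rw [h1]; exact k.2⟩)
        have h4 : (List.ofFn fun k : Fin l => FreeAlgebra.ι ℤ ((L.take l).get ⟨k, by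
            rw [h1]; exact k.2⟩)) = (L.take l).map (FreeAlgebra.ι ℤ) := by
          refine List.ext_get ?_ ?_
          · rw [List.length_ofFn, List.length_map, h1]
          · intro k hk1 hk2
            simp
        rw [h4] at h3
        exact h3
      rw [← List.take_append_drop l L, wordL_append]
      exact hlong _ h2 _
  have hWM : W ≤ M ⊔ 𝔞 • W := by
    refine Submodule.span_le.2 ?_
    rintro _ ⟨x, rfl⟩
    have hx := mem_span_wordL x
    induction hx using AddSubgroup.closure_induction with
    | mem x hx =>
      obtain ⟨L, rfl⟩ := hx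
      exact hword L
    | zero =>
      rw [map_zero]
      exact zero_mem _
    | add a b _ _ ha hb =>
      rw [map_add]
      exact add_mem ha hb
    | neg a _ ha =>
      rw [map_neg]
      exact neg_mem ha
  have hWk : ∀ k : ℕ, W ≤ M ⊔ 𝔞 ^ k • W := by
    intro k
    induction k with
    | zero =>
      rw [pow_zero, Submodule.one_smul]
      exact le_sup_right
    | succ k ih =>
      refine hWM.trans (sup_le le_sup_left ?_)
      refine (Submodule.smul_mono le_rfl ih).trans ?_
      rw [Submodule.smul_sup, ← Submodule.mul_smul, ← pow_succ']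
      exact sup_le_sup Submodule.smul_le_right le_rfl
  -- `M` is closed
  have hMc : IsClosed (M : Set B) := by
    obtain ⟨N, v, hv⟩ := Submodule.fg_iff_exists_fin_generating_family.1 hMfg
    have h1 : (M : Set B) = Set.range (fun a : Fin N → S => ∑ i, a i • v i) := by
      ext x
      rw [SetLike.mem_coe, ← hv, Submodule.mem_span_range_iff_exists_fun]
      rfl
    rw [h1]
    refine (isCompact_range ?_).isClosed
    fun_prop
  -- the powers of the ideal tend to `0`
  have hsmall : ∀ V ∈ nhds (0 : B), ∃ k : ℕ, ∀ x ∈ 𝔞 ^ k • W, x ∈ V := by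
    intro V hV
    obtain ⟨N, f, hf⟩ := Module.Finite.exists_fin' T₁ B
    have hfc : Continuous f := IsModuleTopology.continuous_of_linearMap f
    have h1 : f ⁻¹' V ∈ nhds (0 : Fin N → T₁) := by
      apply hfc.continuousAt.preimage_mem_nhds
      rw [map_zero]
      exact hV
    rw [nhds_pi, Filter.mem_pi] at h1
    obtain ⟨A, -, t, ht, htV⟩ := h1
    choose I hIo hIt using fun i : Fin N =>
      (IsLinearTopology.hasBasis_open_ideal (R := T₁)).mem_iff.1 (ht i)
    let I0 : Ideal T₁ := ⨅ i, I i
    have hI0 : IsOpen (I0 : Set T₁) := by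
      have : (I0 : Set T₁) = ⋂ i, (I i : Set T₁) := by
        ext x
        simp [I0]
      rw [this]
      exact isOpen_iInter_of_finite hIo
    have h2 : ∀ z : Fin N → T₁, (∀ i, z i ∈ I0) → f z ∈ V := by
      intro z hz
      apply htV
      intro i _
      exact hIt i ((Submodule.mem_iInf _).1 (hz i) i)
    have h3 : ∀ s ∈ I0, ∀ b : B, s • b ∈ V := by
      intro s hs b
      obtain ⟨z, rfl⟩ := hf b
      rw [← map_smul]
      exact h2 _ fun i => I0.mul_mem_right _ hs
    -- `V` may be replaced by the additive subgroup of `I0 • ⊤`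
    have h4 : ∀ x ∈ (I0 • ⊤ : Submodule T₁ B), x ∈ V := by
      intro x hx
      have h5 : x ∈ Submodule.map f (Submodule.pi Set.univ fun _ : Fin N => I0) := by
        refine Submodule.smul_induction_on hx (fun s hs b _ => ?_) fun x y hx hy => add_mem hx hy
        obtain ⟨z, rfl⟩ := hf b
        exact ⟨s • z, fun i _ => I0.mul_mem_right _ hs, map_smul f s z⟩
      obtain ⟨z, hz, rfl⟩ := h5
      exact h2 z fun i => hz i trivial
    have h5 : 𝔞 ≤ (I0.comap (algebraMap S T₁)).radical := by
      refine Ideal.span_le.2 ?_
      rintro _ ⟨z, rfl⟩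
      have h6 : IsTopologicallyNilpotent (algebraMap S T₁ (c z.1 z.2)) := (hct z.1 z.2).map hc
      obtain ⟨k, hk⟩ := h6.exists_pow_mem_of_mem_nhds (hI0.mem_nhds I0.zero_mem)
      refine ⟨k, ?_⟩
      rw [Ideal.mem_comap, map_pow]
      exact hk
    obtain ⟨k, hk⟩ := Ideal.exists_pow_le_of_le_radical_of_fg h5 (IsNoetherian.noetherian 𝔞)
    refine ⟨k, fun x hx => h4 x ?_⟩
    refine Submodule.smul_induction_on hx (fun s hs b _ => ?_) fun x y hx hy => add_mem hx hy
    rw [← algebraMap_smul T₁ s b]
    exact Submodule.smul_mem_smul (hk hs) trivial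
  have hWM2 : W ≤ M := by
    intro x hx
    have h1 : x ∈ closure (M : Set B) := by
      rw [mem_closure_iff_nhds_zero]
      intro V hV
      have hV' : (-V) ∈ nhds (0 : B) := by
        have := neg_mem_nhds_zero B hV
        exact this
      obtain ⟨k, hk⟩ := hsmall _ hV'
      obtain ⟨m, hm, e, he, hme⟩ := Submodule.mem_sup.1 (hWk k hx)
      refine ⟨m, hm, ?_⟩
      have h2 : m - x = -e := by
        rw [← hme]
        abel
      rw [h2]
      exact hk e he
    rwa [hMc.closure_eq] at h1
  rw [le_antisymm hWM2 hMW]
  exact hMfg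

/-- PROOF. `U = {g | x_g ∈ M}` for the closed set... Let `C ≤ G` be the set of `g` with `j g` in the closed subring (closed under multiplication, contains `1`) `M = span_S (range ev)` of `B`; it is a closed submonoid of `G` (closed: `M` is finitely generated over the compact `S`, so compact, and `j` is continuous)
containing `a, b` (`j a = 1 + X 0`). In a compact group a closed submonoid is a subgroup (for pro-`p` `G`: `a⁻¹` is in the closure of the powers of `a`: `a ^ (p ^ k)` tends to `1`; Mathlib may have it for compact monoids / `Submonoid` of compact groups). So it contains `cl2 a b = ⊤`. -/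
theorem mem_span_words {p : ℕ} {G : Type u} [Group G] [TopologicalSpace G]
    [IsTopologicalGroup G] [CompactSpace G] [T2Space G] (hG : ProP p G) {a b : G}
    (hab : cl2 a b = ⊤) {S : Type v} [CommRing S] [TopologicalSpace S] [CompactSpace S] {B : Type w}
    [Ring B] [Algebra S B] [TopologicalSpace B] [T2Space B] [ContinuousAdd B] [ContinuousSMul S B]
    (j : G →* B) (hj : Continuous j) {X : Fin 2 → B} (hX : X 0 = j a - 1 ∧ X 1 = j b - 1)
    (hfg : (Submodule.span S (Set.range (FreeAlgebra.lift ℤ X : FreeAlgebra ℤ (Fin 2) → B))).FG)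
    (g : G) :
    j g ∈ Submodule.span S (Set.range (FreeAlgebra.lift ℤ X : FreeAlgebra ℤ (Fin 2) → B)) := by
  set ev : FreeAlgebra ℤ (Fin 2) →ₐ[ℤ] B := FreeAlgebra.lift ℤ X with hev
  set M : Submodule S B := Submodule.span S (Set.range ev) with hM
  have hMc : IsClosed (M : Set B) := by
    obtain ⟨N, v, hv⟩ := Submodule.fg_iff_exists_fin_generating_family.1 hfg
    have h1 : (M : Set B) = Set.range (fun a : Fin N → S => ∑ i, a i • v i) := by
      ext x
      rw [SetLike.mem_coe, ← hv, Submodule.mem_span_range_iff_exists_fun]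
      rfl
    rw [h1]
    refine (isCompact_range ?_).isClosed
    fun_prop
  have hone : (1 : B) ∈ M := Submodule.subset_span ⟨1, map_one ev⟩
  have hmul : ∀ x ∈ M, ∀ y ∈ M, x * y ∈ M := by
    intro x hx y hy
    refine Submodule.span_induction ?_ ?_ ?_ ?_ hx
    · rintro _ ⟨s, rfl⟩
      refine Submodule.span_induction ?_ ?_ ?_ ?_ hy
      · rintro _ ⟨t, rfl⟩
        exact Submodule.subset_span ⟨s * t, map_mul ev s t⟩
      · rw [mul_zero]
        exact zero_mem _
      · intro a b _ _ ha hb
        rw [mul_add]
        exact add_mem ha hb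
      · intro c a _ ha
        rw [mul_smul_comm]
        exact M.smul_mem c ha
    · rw [zero_mul]
      exact zero_mem _
    · intro a b _ _ ha hb
      rw [add_mul]
      exact add_mem ha hb
    · intro c a _ ha
      rw [smul_mul_assoc]
      exact M.smul_mem c ha
  let C : Submonoid G :=
    { carrier := {g | j g ∈ M}
      one_mem' := by
        show j 1 ∈ M
        rw [map_one]
        exact hone
      mul_mem' := fun {g h} hg hh => by
        show j (g * h) ∈ M
        rw [map_mul]
        exact hmul _ hg _ hh }
  have hCc : IsClosed (C : Set G) := hMc.preimage hj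
  have ha : a ∈ C := by
    show j a ∈ M
    have e : j a = 1 + ev (FreeAlgebra.ι ℤ 0) := by
      rw [hev, FreeAlgebra.lift_ι_apply, hX.1]
      abel
    rw [e]
    exact add_mem hone (Submodule.subset_span ⟨_, rfl⟩)
  have hb : b ∈ C := by
    show j b ∈ M
    have e : j b = 1 + ev (FreeAlgebra.ι ℤ 1) := by
      rw [hev, FreeAlgebra.lift_ι_apply, hX.2]
      abel
    rw [e]
    exact add_mem hone (Submodule.subset_span ⟨_, rfl⟩)
  have h1 : Submonoid.closure {a, b} ≤ C := by
    rw [Submonoid.closure_le]
    rintro x (rfl | rfl)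
    · exact ha
    · exact hb
  have h2 : closure ((Submonoid.closure {a, b} : Submonoid G) : Set G) ⊆ (C : Set G) :=
    closure_minimal h1 hCc
  rw [closure_submonoidClosure_eq_closure_subgroupClosure] at h2
  have h3 : g ∈ cl2 a b := by rw [hab]; trivial
  exact h2 h3

end MP35
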