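import Pool.Agent.Lib_MP_3538b5_al.RLoc
import Pool.Agent.Lib_MP_3538b5_al.RVal
import Pool.Agent.Lib_MP_3538b5_al.RInitA

/-! # Piece RTRACE, step (5): topologically nilpotent elements of a finitely generated ring -/

set_option autoImplicit false

namespace MP35

universe u v w

/-- `S` is topologically generated by `E`; an ideal which contains `p` and `E` and is proper contains
all topologically nilpotent elements. -/
theorem tn_mem_of_dense {p : ℕ} [hp : Fact p.Prime] {S : Type v} [CommRing S] [TopologicalSpace S]
    [CNR S] (J : Ideal S) (hJ1 : (1 : S) ∉ J) (hpJ : (p : S) ∈ J) (E : Set S) (hE : E ⊆ J)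
    (hd : (Subring.closure E).topologicalClosure = ⊤) {s : S} (hs : IsTopologicallyNilpotent s) :
    s ∈ J := by
  have hJc : IsClosed (J : Set S) := CNR.closed_ideal J
  have hpz : (p : ℤ) ≠ 0 := by exact_mod_cast hp.out.ne_zero
  -- every element is an integer modulo `J`
  let B : Subring S :=
    { carrier := {x | ∃ m : ℤ, x - m ∈ J}
      zero_mem' := ⟨0, by simp⟩
      one_mem' := ⟨1, by simp⟩
      add_mem' := by
        rintro x y ⟨a, ha⟩ ⟨b, hb⟩
        refine ⟨a + b, ?_⟩
        have e : x + y - ((a + b : ℤ) : S) = (x - a) + (y - b) := by push_cast; ring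
        rw [e]
        exact J.add_mem ha hb
      neg_mem' := by
        rintro x ⟨a, ha⟩
        refine ⟨-a, ?_⟩
        have e : -x - ((-a : ℤ) : S) = -(x - a) := by push_cast; ring
        rw [e]
        exact J.neg_mem ha
      mul_mem' := by
        rintro x y ⟨a, ha⟩ ⟨b, hb⟩
        refine ⟨a * b, ?_⟩
        have e : x * y - ((a * b : ℤ) : S) = (x - a) * y + a * (y - b) := by push_cast; ring
        rw [e]
        exact J.add_mem (J.mul_mem_right _ ha) (J.mul_mem_left _ hb) }
  have hB : ∀ x, x ∈ B ↔ ∃ m : ℤ, x - m ∈ J := fun x => Iff.rfl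
  have hBc : IsClosed (B : Set S) := by
    have e : (B : Set S) = ⋃ m ∈ Finset.range p, {x : S | x - ((m : ℕ) : S) ∈ J} := by
      ext x
      rw [SetLike.mem_coe, hB, Set.mem_iUnion₂]
      constructor
      · rintro ⟨m, hm⟩
        refine ⟨(m % p).toNat, ?_, ?_⟩
        · rw [Finset.mem_range]
          have h1 := Int.emod_lt_of_pos m (by exact_mod_cast hp.out.pos : (0 : ℤ) < p)
          have h2 := Int.emod_nonneg m hpz
          omega
        · have h2 := Int.emod_nonneg m hpz
          have h3 : (((m % p).toNat : ℕ) : S) = ((m % p : ℤ) : S) := by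
            rw [← Int.cast_natCast, Int.toNat_of_nonneg h2]
          show x - (((m % p).toNat : ℕ) : S) ∈ J
          rw [h3]
          have h4 : x - ((m % p : ℤ) : S) = (x - m) + ((p : S) * ((m / p : ℤ) : S)) := by
            have h5 := congrArg (Int.cast : ℤ → S) (Int.emod_add_mul_ediv m p)
            push_cast at h5
            rw [← h5]
            ring
          rw [h4]
          exact J.add_mem hm (J.mul_mem_right _ hpJ)
      · rintro ⟨m, -, hm⟩
        exact ⟨m, by rw [Int.cast_natCast]; exact hm⟩
    rw [e]
    refine Set.Finite.isClosed_biUnion (Finset.finite_toSet _) fun m _ => ?_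
    exact hJc.preimage (continuous_id.sub continuous_const)
  have hBtop : B = ⊤ := by
    rw [eq_top_iff, ← hd]
    refine Subring.topologicalClosure_minimal _ ?_ hBc
    rw [Subring.closure_le]
    intro x hx
    exact ⟨0, by rw [Int.cast_zero, sub_zero]; exact hE hx⟩
  obtain ⟨m, hm⟩ : s ∈ B := by rw [hBtop]; trivial
  by_cases hpm : (p : ℤ) ∣ m
  · obtain ⟨c, rfl⟩ := hpm
    have h1 : ((p * c : ℤ) : S) ∈ J := by
      push_cast
      exact J.mul_mem_right _ hpJ
    have := J.add_mem hm h1
    rwa [sub_add_cancel] at this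
  · exfalso
    have hcop : IsCoprime m (p : ℤ) :=
      ((Prime.coprime_iff_not_dvd (Nat.prime_iff_prime_int.1 hp.out)).2 hpm).symm
    obtain ⟨a, b, hab⟩ := hcop
    -- `a * s` is `1` modulo `J`
    have h1 : (a : S) * s - 1 ∈ J := by
      have h2 := congrArg (Int.cast : ℤ → S) hab
      push_cast at h2
      have e : (a : S) * s - 1 = a * (s - m) - b * p := by
        rw [← h2]
        ring
      rw [e]
      exact J.sub_mem (J.mul_mem_left _ hm) (J.mul_mem_left _ hpJ)
    have h2 : ∀ k : ℕ, ((a : S) * s) ^ k - 1 ∈ J := by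
      intro k
      obtain ⟨c, hc⟩ := sub_one_dvd_pow_sub_one ((a : S) * s) k
      rw [hc]
      exact J.mul_mem_right _ h1
    have h3 : Filter.Tendsto (fun k : ℕ => ((a : S) * s) ^ k - 1) Filter.atTop (nhds (0 - 1)) := by
      refine Filter.Tendsto.sub ?_ tendsto_const_nhds
      rw [(IsLinearTopology.hasBasis_ideal (R := S)).tendsto_right_iff]
      intro I hI
      filter_upwards [Filter.Tendsto.eventually hs hI] with k hk
      rw [mul_pow]
      exact I.mul_mem_left _ hk
    have h4 : (0 - 1 : S) ∈ J := hJc.mem_of_tendsto h3 (Filter.Eventually.of_forall h2)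
    apply hJ1
    rw [zero_sub] at h4
    exact (Submodule.neg_mem_iff J).1 h4

/-- a closed subring is topologically generated by the generators -/
theorem dense_closure {T₁ : Type v} [CommRing T₁] [TopologicalSpace T₁] [IsTopologicalRing T₁]
    (E : Set T₁) : (Subring.closure
      ((Subtype.val : (Subring.closure E).topologicalClosure → T₁) ⁻¹' E)).topologicalClosure = ⊤ := by
  rw [eq_top_iff]
  rintro ⟨x, hx⟩ -
  have hsub : ∀ y (hy : y ∈ Subring.closure E), (⟨y, Subring.le_topologicalClosure _ hy⟩ :
      (Subring.closure E).topologicalClosure) ∈ Subring.closure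
        ((Subtype.val : (Subring.closure E).topologicalClosure → T₁) ⁻¹' E) := by
    intro y hy
    induction hy using Subring.closure_induction with
    | mem y hy => exact Subring.subset_closure hy
    | zero => exact Subring.zero_mem _
    | one => exact Subring.one_mem _
    | add y z hy hz h1 h2 => exact Subring.add_mem _ h1 h2
    | neg y hy h1 => exact Subring.neg_mem _ h1
    | mul y z hy hz h1 h2 => exact Subring.mul_mem _ h1 h2
  show (⟨x, hx⟩ : (Subring.closure E).topologicalClosure) ∈ closure _
  rw [closure_subtype]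
  refine closure_mono ?_ hx
  intro y hy
  exact ⟨⟨y, Subring.le_topologicalClosure _ hy⟩, hsub y hy, rfl⟩

/-- step (5): a valuation ring which contains the closed ring `S` generated by `E`, with `p` and `E` in
the maximal ideal, contains all topologically nilpotent elements of `S` in the maximal ideal -/
theorem tn_nonunits {p : ℕ} [hp : Fact p.Prime] {T₁ : Type v} [CommRing T₁] [TopologicalSpace T₁]
    [CNR T₁] {Ω : Type w} [Field Ω] [Algebra T₁ Ω] (E : Set T₁)
    [CNR (Subring.closure E).topologicalClosure] (O : ValuationSubring Ω)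
    (hO : ∀ s : (Subring.closure E).topologicalClosure, algebraMap T₁ Ω s ∈ O)
    (hpO : (p : Ω) ∈ O.nonunits) (hE : ∀ e ∈ E, algebraMap T₁ Ω e ∈ O.nonunits)
    (s : (Subring.closure E).topologicalClosure) (hs : IsTopologicallyNilpotent s) :
    algebraMap T₁ Ω s ∈ O.nonunits := by
  let f : (Subring.closure E).topologicalClosure →+* O :=
    ((algebraMap T₁ Ω).comp (Subring.closure E).topologicalClosure.subtype).codRestrict O.toSubring hO
  have hf : ∀ s, ((f s : O) : Ω) = algebraMap T₁ Ω s := fun s => rfl
  let J := (IsLocalRing.maximalIdeal O).comap f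
  have hJ : ∀ s, s ∈ J ↔ algebraMap T₁ Ω s ∈ O.nonunits := by
    intro s
    rw [Ideal.mem_comap, IsLocalRing.mem_maximalIdeal, ← hf, O.coe_mem_nonunits_iff]
    exact Iff.rfl
  rw [← hJ]
  refine tn_mem_of_dense (p := p) J ?_ ?_ _ ?_ (dense_closure E) hs
  · intro h1
    have := (Ideal.eq_top_iff_one _).2 h1
    have h2 : (IsLocalRing.maximalIdeal O).comap f ≠ ⊤ :=
      (Ideal.comap_isPrime f (IsLocalRing.maximalIdeal O)).ne_top
    exact h2 this
  · rw [hJ]
    have e : algebraMap T₁ Ω (((p : ℕ) : (Subring.closure E).topologicalClosure) : T₁) = (p : Ω) := by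
      rw [Subring.coe_natCast, map_natCast]
    rw [e]
    exact hpO
  · intro x hx
    exact (hJ x).2 (hE _ hx)

end MP35
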