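import Pool.Agent.Lib_MP_3538b5_al.RDefs
import Pool.Agent.Lib_MP_3538b5_al.RLoc
import Pool.Agent.Lib_MP_3538b5_al.RVal
import Pool.Agent.Lib_MP_3538b5_al.RInt
import Pool.Agent.Lib_MP_3538b5_al.RKol
import Pool.Agent.Lib_MP_3538b5_al.RLev
import Pool.Agent.Lib_MP_3538b5_al.RSpanFin
import Pool.Agent.Lib_MP_3538b5_al.RInitA
import Pool.Agent.Lib_MP_3538b5_al.RTraceF

/-! # Piece RTRACE: steps (1) to (4) -/

set_option autoImplicit false

namespace MP35

universe u v w

section words

variable {G : Type u} [Group G] {M : Type v} [Ring M] (ρ : G →* M)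

/-- step (1): words without constant term -/
theorem word_mem (X : Fin 2 → M) (hX : ∀ i, X i ∈ AddSubgroup.closure (Set.range fun g => ρ g - 1))
    (w : FreeAlgebra ℤ (Fin 2)) :
    FreeAlgebra.lift ℤ X w - (FreeAlgebra.algebraMapInv w : ℤ) • (1 : M) ∈
      AddSubgroup.closure (Set.range fun g => ρ g - 1) := by
  set D := AddSubgroup.closure (Set.range fun g => ρ g - 1) with hD
  have hmul1 : ∀ g : G, ∀ y ∈ D, (ρ g - 1) * y ∈ D := by
    intro g y hy
    induction hy using AddSubgroup.closure_induction with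
    | mem y hy =>
      obtain ⟨h, rfl⟩ := hy
      have e : (ρ g - 1) * (ρ h - 1) = (ρ (g * h) - 1) - (ρ g - 1) - (ρ h - 1) := by
        rw [map_mul]
        noncomm_ring
      show (ρ g - 1) * (ρ h - 1) ∈ D
      rw [e]
      exact D.sub_mem (D.sub_mem (AddSubgroup.subset_closure ⟨_, rfl⟩)
        (AddSubgroup.subset_closure ⟨_, rfl⟩)) (AddSubgroup.subset_closure ⟨_, rfl⟩)
    | zero => rw [mul_zero]; exact D.zero_mem
    | add y z _ _ hy hz => rw [mul_add]; exact D.add_mem hy hz
    | neg y _ hy => rw [mul_neg]; exact D.neg_mem hy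
  have hmul : ∀ x ∈ D, ∀ y ∈ D, x * y ∈ D := by
    intro x hx y hy
    induction hx using AddSubgroup.closure_induction with
    | mem x hx =>
      obtain ⟨g, rfl⟩ := hx
      exact hmul1 g y hy
    | zero => rw [zero_mul]; exact D.zero_mem
    | add x z _ _ hx hz => rw [add_mul]; exact D.add_mem hx hz
    | neg x _ hx => rw [neg_mul]; exact D.neg_mem hx
  induction w using FreeAlgebra.induction with
  | grade0 r =>
    have e : FreeAlgebra.lift ℤ X (algebraMap ℤ (FreeAlgebra ℤ (Fin 2)) r)
        - (FreeAlgebra.algebraMapInv (algebraMap ℤ (FreeAlgebra ℤ (Fin 2)) r) : ℤ) • (1 : M) = 0 := by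
      rw [AlgHom.commutes, FreeAlgebra.algebraMap_leftInverse, Algebra.algebraMap_eq_smul_one,
        sub_self]
    rw [e]
    exact D.zero_mem
  | grade1 i =>
    have e : (FreeAlgebra.algebraMapInv (FreeAlgebra.ι ℤ i) : ℤ) = 0 := by
      unfold FreeAlgebra.algebraMapInv
      rw [FreeAlgebra.lift_ι_apply]
      rfl
    rw [e, zero_smul, sub_zero, FreeAlgebra.lift_ι_apply]
    exact hX i
  | mul x y hx hy =>
    rw [map_mul, map_mul]
    set α : ℤ := FreeAlgebra.algebraMapInv x
    set β : ℤ := FreeAlgebra.algebraMapInv y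
    set u := FreeAlgebra.lift ℤ X x
    set v := FreeAlgebra.lift ℤ X y
    have e : u * v - (α * β) • (1 : M)
        = (u - α • (1 : M)) * (v - β • (1 : M)) + β • (u - α • (1 : M)) + α • (v - β • (1 : M)) := by
      simp only [sub_mul, mul_sub, smul_sub, mul_smul_comm, smul_mul_assoc, mul_one, one_mul, smul_smul]
      rw [mul_comm β α]
      abel
    rw [e]
    exact D.add_mem (D.add_mem (hmul _ hx _ hy) (D.zsmul_mem hx _)) (D.zsmul_mem hy _)
  | add x y hx hy =>
    rw [map_add, map_add]
    have e : FreeAlgebra.lift ℤ X x + FreeAlgebra.lift ℤ X y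
        - (FreeAlgebra.algebraMapInv x + FreeAlgebra.algebraMapInv y : ℤ) • (1 : M)
        = (FreeAlgebra.lift ℤ X x - (FreeAlgebra.algebraMapInv x : ℤ) • (1 : M))
          + (FreeAlgebra.lift ℤ X y - (FreeAlgebra.algebraMapInv y : ℤ) • (1 : M)) := by
      rw [add_smul]
      abel
    rw [e]
    exact D.add_mem hx hy

theorem word_mem_span (X : Fin 2 → M)
    (hX : ∀ i, X i ∈ AddSubgroup.closure (Set.range fun g => ρ g - 1))
    {w : FreeAlgebra ℤ (Fin 2)} (hw : FreeAlgebra.algebraMapInv w = 0) (S : Type w) [CommRing S]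
    [Module S M] : FreeAlgebra.lift ℤ X w ∈ Submodule.span S (Set.range fun g => ρ g - 1) := by
  have h := word_mem ρ X hX w
  rw [hw, zero_smul, sub_zero] at h
  have h2 : AddSubgroup.closure (Set.range fun g => ρ g - 1)
      ≤ (Submodule.span S (Set.range fun g => ρ g - 1)).toAddSubgroup := by
    rw [AddSubgroup.closure_le]
    exact Submodule.subset_span
  exact h2 h

end words

section algebra

variable {G : Type u} [Group G] {B : Type w} [Ring B] (ρ : G →* B)

/-- the algebra generated by a group is its span -/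
theorem repAlg_eq_span (T : Type v) [CommRing T] [Algebra T B] :
    Subalgebra.toSubmodule (repAlg T ρ) = Submodule.span T (Set.range ρ) := by
  rw [Algebra.adjoin_eq_span]
  congr 1
  have e : (Set.range ρ : Set B) = ((MonoidHom.mrange ρ : Submonoid B) : Set B) := rfl
  rw [e, Submonoid.closure_eq]

/-- finiteness passes to larger rings of scalars -/
theorem finite_repAlg {T : Type v} [CommRing T] [Algebra T B] {T₁ : Type v} [CommRing T₁]
    [IsNoetherianRing T₁] [Algebra T T₁] [Algebra T₁ B] [IsScalarTower T T₁ B]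
    (h : Module.Finite T (repAlg T ρ)) : Module.Finite T₁ (repAlg T₁ ρ) := by
  obtain ⟨F, hF⟩ := (Module.Finite.iff_fg (N := Subalgebra.toSubmodule (repAlg T ρ))).1 h
  have h2 : Subalgebra.toSubmodule (repAlg T₁ ρ) ≤ Submodule.span T₁ (F : Set B) := by
    rw [repAlg_eq_span, Submodule.span_le]
    rintro _ ⟨g, rfl⟩
    have h3 : ρ g ∈ Submodule.span T (F : Set B) := by
      rw [hF]
      exact Algebra.subset_adjoin ⟨g, rfl⟩
    exact Submodule.span_le_restrictScalars T T₁ (F : Set B) h3
  have h4 : Module.Finite T₁ (Submodule.span T₁ (F : Set B)) :=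
    Module.Finite.span_of_finite T₁ F.finite_toSet
  have h5 : IsNoetherian T₁ (Submodule.span T₁ (F : Set B)) :=
    isNoetherian_of_isNoetherianRing_of_finite T₁ _
  exact Module.Finite.of_injective (Submodule.inclusion h2) (Submodule.inclusion_injective h2)

end algebra


section change

variable {p : ℕ} {G : Type u} [Group G] [TopologicalSpace G] {T : Type v} [CommRing T]
  [TopologicalSpace T] [CNR T] {Ω : Type v} [Field Ω] [Algebra T Ω] {n : ℕ}

/-- extension of the ring of scalars -/
theorem Rep.exists_extend (R : Rep p G T Ω n) {T₁ : Type v} [CommRing T₁] [TopologicalSpace T₁]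
    [CNR T₁] [Algebra T T₁] [Algebra T₁ Ω] [IsScalarTower T T₁ Ω]
    (hc : Continuous (algebraMap T T₁)) (hinj : Function.Injective (algebraMap T₁ Ω)) :
    ∃ R₁ : Rep p G T₁ Ω n, R₁.ρ = R.ρ := by
  have hfin : Module.Finite T₁ (repAlg T₁ R.ρ) := finite_repAlg (T := T) R.ρ R.fin
  have hle : ∀ x ∈ R.A, x ∈ repAlg T₁ R.ρ := by
    intro x hx
    have h1 : R.A ≤ (repAlg T₁ R.ρ).restrictScalars T :=
      Algebra.adjoin_le fun y hy => Algebra.subset_adjoin hy
    exact h1 hx
  let ι : R.A →ₗ[T] repAlg T₁ R.ρ :=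
    { toFun := fun x => ⟨x, hle x x.2⟩
      map_add' := fun x y => rfl
      map_smul' := fun t x => rfl }
  refine ⟨⟨R.ρ, R.inj, hfin, ?_, ?_, hinj⟩, rfl⟩
  · let _ : TopologicalSpace (repAlg T₁ R.ρ) := moduleTopology T₁ _
    have : IsModuleTopology T₁ (repAlg T₁ R.ρ) := ⟨rfl⟩
    have h1 : ContinuousAdd (repAlg T₁ R.ρ) := IsModuleTopology.toContinuousAdd T₁ _
    have h2 : ContinuousSMul T₁ (repAlg T₁ R.ρ) := IsModuleTopology.toContinuousSMul T₁ _
    have h3 : ContinuousSMul T (repAlg T₁ R.ρ) := by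
      constructor
      have e : (fun q : T × repAlg T₁ R.ρ => q.1 • q.2)
          = fun q => (algebraMap T T₁ q.1) • q.2 := by
        funext q
        rw [algebraMap_smul]
      rw [e]
      exact (hc.comp continuous_fst).smul continuous_snd
    exact (IsModuleTopology.continuous_of_linearMap ι).comp R.cont_j
  · have := R.pnil.map (φ := algebraMap T T₁) hc
    rwa [map_natCast] at this

/-- descent to a smaller ring of scalars -/
theorem Rep.exists_descend (R : Rep p G T Ω n) {S : Type v} [CommRing S] [TopologicalSpace S]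
    [CNR S] [Algebra S T] [Algebra S Ω] [IsScalarTower S T Ω] (hc : Continuous (algebraMap S T))
    (hinj : Function.Injective (algebraMap S Ω)) (hp : IsTopologicallyNilpotent (p : S))
    (hfin : Module.Finite S (repAlg S R.ρ)) : ∃ R₁ : Rep p G S Ω n, R₁.ρ = R.ρ := by
  have hle : ∀ x ∈ repAlg S R.ρ, x ∈ R.A := by
    intro x hx
    have h1 : repAlg S R.ρ ≤ (R.A).restrictScalars S :=
      Algebra.adjoin_le fun y hy => Algebra.subset_adjoin hy
    exact h1 hx
  let ι : repAlg S R.ρ →ₗ[S] R.A :=
    { toFun := fun x => ⟨x, hle x x.2⟩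
      map_add' := fun x y => rfl
      map_smul' := fun t x => rfl }
  have hι : Function.Injective ι := fun x y hxy =>
    Subtype.ext (congrArg (fun z : R.A => (z : Matrix (Fin n) (Fin n) Ω)) hxy)
  refine ⟨⟨R.ρ, R.inj, hfin, ?_, hp, hinj⟩, rfl⟩
  let _ : TopologicalSpace (repAlg S R.ρ) := moduleTopology S _
  have : IsModuleTopology S (repAlg S R.ρ) := ⟨rfl⟩
  have h2 : ContinuousSMul T R.A := IsModuleTopology.toContinuousSMul T _
  have h3 : ContinuousSMul S R.A := by
    constructor
    have e : (fun q : S × R.A => q.1 • q.2) = fun q => (algebraMap S T q.1) • q.2 := by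
      funext q
      rw [algebraMap_smul]
    rw [e]
    exact (hc.comp continuous_fst).smul continuous_snd
  have e := isClosedEmbedding_of_injective (T := S) ι hι
  rw [e.continuous_iff]
  exact R.cont_j

end change

end MP35
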