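import Pool.Agent.Lib_MP_3538b5_al.RDefs
import Pool.Agent.Lib_MP_3538b5_al.RLoc
import Pool.Agent.Lib_MP_3538b5_al.RVal

/-! # Base change of representations to a finite extension -/

set_option autoImplicit false

namespace MP35

universe u v w

namespace Rep

variable {p : ℕ} {G : Type u} [Group G] [TopologicalSpace G] {T : Type v} [CommRing T]
  [TopologicalSpace T] {Ω : Type v} [Field Ω] [Algebra T Ω] {n : ℕ}

section base

variable [CNR T] (R : Rep p G T Ω n) (T' : Type v) [CommRing T'] [TopologicalSpace T']
  [Algebra T T'] [Algebra T' Ω] [IsScalarTower T T' Ω] [Module.Finite T T'] [IsModuleTopology T T']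

omit [CNR T] [TopologicalSpace T'] [Module.Finite T T'] [IsModuleTopology T T'] in
theorem mem_base {x : Matrix (Fin n) (Fin n) Ω} (hx : x ∈ R.A) : x ∈ repAlg T' R.ρ := by
  have h : R.A ≤ (repAlg T' R.ρ).restrictScalars T := Algebra.adjoin_le Algebra.subset_adjoin
  exact h hx

omit [CNR T] [TopologicalSpace T'] [Module.Finite T T'] [IsModuleTopology T T'] in
/-- the order of the base change is spanned by the order -/
theorem base_eq_span : Subalgebra.toSubmodule (repAlg T' R.ρ)
    = Submodule.span T' (R.A : Set (Matrix (Fin n) (Fin n) Ω)) := by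
  apply le_antisymm
  · rw [Algebra.adjoin_eq_span]
    refine Submodule.span_mono ?_
    have : Submonoid.closure (Set.range R.ρ) ≤ R.A.toSubmonoid := by
      rw [Submonoid.closure_le]
      exact Algebra.subset_adjoin
    exact this
  · exact Submodule.span_le.2 fun x hx => R.mem_base T' hx

omit [CNR T] [TopologicalSpace T'] [Module.Finite T T'] [IsModuleTopology T T'] in
theorem base_fin : Module.Finite T' (repAlg T' R.ρ) := by
  have h1 : (Subalgebra.toSubmodule R.A).FG := Module.Finite.iff_fg.1 R.fin
  obtain ⟨S, hS⟩ := h1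
  have h2 : Submodule.span T' (R.A : Set (Matrix (Fin n) (Fin n) Ω)) = Submodule.span T' (S : Set _) := by
    apply le_antisymm
    · refine Submodule.span_le.2 fun x hx => ?_
      have hx' : x ∈ Submodule.span T (S : Set (Matrix (Fin n) (Fin n) Ω)) := by
        rw [hS]; exact hx
      exact Submodule.span_le_restrictScalars T T' _ hx'
    · refine Submodule.span_mono ?_
      intro x hx
      have : x ∈ Subalgebra.toSubmodule R.A := by
        rw [← hS]; exact Submodule.subset_span hx
      exact this
  change Module.Finite T' (Subalgebra.toSubmodule (repAlg T' R.ρ))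
  rw [Module.Finite.iff_fg]
  exact ⟨S, by rw [base_eq_span, h2]⟩

/-- the inclusion of the order in the order of the base change -/
def baseLin : R.A →ₗ[T] repAlg T' R.ρ where
  toFun x := ⟨x, R.mem_base T' x.2⟩
  map_add' _ _ := rfl
  map_smul' _ _ := rfl

theorem base_continuous : @Continuous R.A (repAlg T' R.ρ) _ (moduleTopology T' (repAlg T' R.ρ))
    (R.baseLin T') := by
  let _ : TopologicalSpace (repAlg T' R.ρ) := moduleTopology T' (repAlg T' R.ρ)
  have : IsModuleTopology T' (repAlg T' R.ρ) := ⟨rfl⟩
  have := IsModuleTopology.toContinuousAdd T' (repAlg T' R.ρ)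
  have : CNR T' := cnr_of_finite T T'
  have := IsModuleTopology.toContinuousSMul T' (repAlg T' R.ρ)
  have hc : Continuous (algebraMap T T') := IsModuleTopology.continuous_of_linearMap (Algebra.linearMap T T')
  have : ContinuousSMul T (repAlg T' R.ρ) := ⟨by
    have e : (fun z : T × repAlg T' R.ρ => z.1 • z.2) = fun z => (algebraMap T T' z.1) • z.2 := by
      funext z
      rw [algebraMap_smul]
    rw [e]
    exact (hc.comp continuous_fst).smul continuous_snd⟩
  exact IsModuleTopology.continuous_of_linearMap (R.baseLin T')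

/-- base change -/
def base (h : Function.Injective (algebraMap T' Ω)) : Rep p G T' Ω n where
  ρ := R.ρ
  inj := R.inj
  fin := R.base_fin T'
  cont := by
    let _ : TopologicalSpace (repAlg T' R.ρ) := moduleTopology T' (repAlg T' R.ρ)
    exact (R.base_continuous T').comp R.cont_j
  pnil := by
    have : CNR T' := cnr_of_finite T T'
    have hc : Continuous (algebraMap T T') :=
      IsModuleTopology.continuous_of_linearMap (Algebra.linearMap T T')
    have := R.pnil.map (φ := algebraMap T T') hc
    rwa [map_natCast] at this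
  tinj := h

variable (h : Function.Injective (algebraMap T' Ω))

@[simp] theorem base_ρ : (R.base T' h).ρ = R.ρ := rfl

/-- the inclusion of the orders, a ring homomorphism -/
def baseHom : R.A →+* (R.base T' h).A where
  toFun x := ⟨(x : Matrix (Fin n) (Fin n) Ω), R.mem_base T' x.2⟩
  map_one' := Subtype.ext rfl
  map_mul' _ _ := Subtype.ext rfl
  map_zero' := Subtype.ext rfl
  map_add' _ _ := Subtype.ext rfl

theorem baseHom_apply (x : R.A) :
    R.baseHom T' h x = ⟨(x : Matrix (Fin n) (Fin n) Ω), R.mem_base T' x.2⟩ := rfl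

theorem baseHom_coe (x : R.A) :
    ((R.baseHom T' h x : (R.base T' h).A) : Matrix (Fin n) (Fin n) Ω) = x := by
  rw [baseHom_apply]

theorem baseHom_continuous : Continuous (R.baseHom T' h) := R.base_continuous T'

theorem baseHom_j (g : G) : R.baseHom T' h (R.j g) = (R.base T' h).j g := rfl

end base

/-- fullness passes to the base change -/
theorem Full.base [CNR T] {R : Rep p G T Ω n} (hR : R.Full) {T' : Type v} [CommRing T']
    [TopologicalSpace T'] [Algebra T T'] [Algebra T' Ω] [IsScalarTower T T' Ω] [Module.Finite T T']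
    [IsModuleTopology T T'] (h : Function.Injective (algebraMap T' Ω)) : (R.base T' h).Full := by
  intro O hO hp hU t' ht'
  have h1 : IsDomain T := R.tinj.isDomain
  have h2 : IsDomain T' := h.isDomain
  have h3 : CNR T' := cnr_of_finite T T'
  have h4 : IsLocalRing T := isLocalRing_of_cnr T
  have h5 : IsLocalRing T' := isLocalRing_of_cnr T'
  have hOT : ∀ t : T, algebraMap T Ω t ∈ O := by
    intro t
    rw [IsScalarTower.algebraMap_apply T T' Ω]
    exact hO _
  have h6 := hR O hOT hp hU
  let φ : T' →+* O := (algebraMap T' Ω).codRestrict O.toSubring hO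
  let Q : Ideal T' := (IsLocalRing.maximalIdeal O).comap φ
  have hQ : Q.IsPrime := Ideal.IsPrime.comap φ
  have hQm : ∀ t : T', t ∈ Q ↔ algebraMap T' Ω t ∈ O.nonunits := by
    intro t
    exact (ValuationSubring.coe_mem_nonunits_iff (A := O) (a := φ t)).symm
  have h7 : Q.comap (algebraMap T T') = IsLocalRing.maximalIdeal T := by
    have h8 : (Q.comap (algebraMap T T')).IsPrime := Ideal.IsPrime.comap _
    refine le_antisymm (IsLocalRing.le_maximalIdeal h8.ne_top) ?_
    intro t ht
    rw [Ideal.mem_comap, hQm, ← IsScalarTower.algebraMap_apply T T' Ω]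
    exact h6 t (mem_maximalIdeal_iff.1 ht)
  have h8 : Q.IsMaximal := by
    apply Ideal.isMaximal_of_isIntegral_of_isMaximal_comap (R := T)
    rw [h7]
    infer_instance
  rw [← hQm, IsLocalRing.eq_maximalIdeal h8, mem_maximalIdeal_iff]
  exact ht'

/-- fullness of the base change implies fullness -/
theorem Full.of_base [CNR T] {R : Rep p G T Ω n} {T' : Type v} [CommRing T']
    [TopologicalSpace T'] [Algebra T T'] [Algebra T' Ω] [IsScalarTower T T' Ω] [Module.Finite T T']
    [IsModuleTopology T T'] (h : Function.Injective (algebraMap T' Ω)) (hR : (R.base T' h).Full) :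
    R.Full := by
  intro O hO hp hU t ht
  have h3 : CNR T' := cnr_of_finite T T'
  rw [IsScalarTower.algebraMap_apply T T' Ω]
  refine hR O (fun t' => ?_) hp hU _ ?_
  · refine mem_of_isIntegral O hO ?_
    exact (Algebra.IsIntegral.isIntegral (R := T) t').algebraMap
  · have hc : Continuous (algebraMap T T') :=
      IsModuleTopology.continuous_of_linearMap (Algebra.linearMap T T')
    exact ht.map (φ := algebraMap T T') hc

theorem NI_base [CNR T] {R : Rep p G T Ω n} {T' : Type v} [CommRing T']
    [TopologicalSpace T'] [Algebra T T'] [Algebra T' Ω] [IsScalarTower T T' Ω] [Module.Finite T T']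
    [IsModuleTopology T T'] (h : Function.Injective (algebraMap T' Ω)) {c : T} {c' : T'}
    (hc : c' ∣ algebraMap T T' c) {g : G} (hg : g ∈ R.NI (Ideal.span {c})) :
    g ∈ (R.base T' h).NI (Ideal.span {c'}) := by
  obtain ⟨d, hd⟩ := hc
  rw [mem_NI_span] at hg ⊢
  obtain ⟨x, hx⟩ := hg
  refine ⟨d • R.baseHom T' h x, ?_⟩
  rw [← baseHom_j, hx, map_add, map_one, smul_smul, ← hd]
  congr 1
  apply Subtype.ext
  rw [baseHom_coe]
  change c • (x : Matrix (Fin n) (Fin n) Ω) = (algebraMap T T' c) • ((R.baseHom T' h x : (R.base T' h).A) : Matrix (Fin n) (Fin n) Ω)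
  rw [baseHom_coe, algebraMap_smul]

end Rep

/-- base change of the core situation -/
theorem MCore.base {p : ℕ} {G : Type u} [Group G] [TopologicalSpace G] [IsTopologicalGroup G]
    {T : Type v} [CommRing T] [TopologicalSpace T] [CNR T] {Ω : Type v} [Field Ω] [Algebra T Ω]
    {n : ℕ} {R : Rep p G T Ω n} {k : ℕ} (hR : MCore.{u, v} R k) {T' : Type v} [CommRing T']
    [TopologicalSpace T'] [CNR T'] [Algebra T T'] [Algebra T' Ω] [IsScalarTower T T' Ω]
    [Module.Finite T T'] [IsModuleTopology T T'] (h : Function.Injective (algebraMap T' Ω)) :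
    MCore.{u, v} (R.base T' h) k where
  pf := hR.pf
  alg := by
    have h1 : IsDomain T := R.tinj.isDomain
    have h2 : IsDomain T' := h.isDomain
    have := hR.alg
    have hinj : Function.Injective (algebraMap T T') := by
      have := R.tinj
      rw [IsScalarTower.algebraMap_eq T T' Ω] at this
      exact Function.Injective.of_comp this
    exact Algebra.IsAlgebraic.extendScalars hinj
  opt := hR.opt
  triv := hR.triv
  full := hR.full.base h
  det := hR.det
  fg := hR.fg
  deep := by
    intro H hH hnc hF c' hc'
    have h1 : IsDomain T := R.tinj.isDomain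
    have h2 : IsDomain T' := h.isDomain
    have hF' : ((R.res H).base T' h).Full := hF
    have h3 : IsAlgebraic T c' := (Algebra.IsIntegral.isIntegral (R := T) c').isAlgebraic
    obtain ⟨c, hc, hcd⟩ := h3.exists_nonzero_dvd (mem_nonZeroDivisors_of_ne_zero hc')
    obtain ⟨g, hg, hg1⟩ := hR.deep H hH hnc (Rep.Full.of_base h hF') c hc
    refine ⟨g, ?_, hg1⟩
    exact Rep.NI_base (R := R.res H) h hcd hg

end MP35
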