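import Pool.Agent.Lib_MP_3538b5_al.ZScal

/-! # A finite extension containing the characteristic coefficients

`C` a finite `T`-algebra of matrices over `K`, spanning over `K`, `T` noetherian: there is a finite
`T`-subalgebra `T'` of `K` containing the coefficients of the characteristic polynomials of the left
multiplications by all elements of `T' C`. -/

set_option autoImplicit false

namespace MP35

universe u v w

open Polynomial

section

variable {K : Type v} [Field K] {m : ℕ}

/-- multilinear maps with values in an `S`-module `I` for arguments in a set `C` have values in `I` for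
arguments in the `S`-span of `C` -/
theorem multi_span_mem {S : Subring K} {M N : Type w} [AddCommGroup M] [Module K M] [AddCommGroup N]
    [Module K N] {d : ℕ} (f : MultilinearMap K (fun _ : Fin d => M) N) (I : AddSubgroup N)
    (hI : ∀ s ∈ S, ∀ x ∈ I, s • x ∈ I) (C : Set M) (h : ∀ v : Fin d → M, (∀ i, v i ∈ C) → f v ∈ I)
    (v : Fin d → M) (hv : ∀ i, v i ∈ Submodule.span S C) : f v ∈ I := by
  classical
  have key : ∀ s : Finset (Fin d), ∀ v : Fin d → M, (∀ i ∈ s, v i ∈ Submodule.span S C) →
      (∀ i, i ∉ s → v i ∈ C) → f v ∈ I := by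
    intro s
    induction s using Finset.induction_on with
    | empty =>
      intro v _ hv
      exact h v fun i => hv i (Finset.notMem_empty i)
    | insert a s ha ih =>
      intro v hv1 hv2
      have h1 : ∀ x ∈ Submodule.span S C, f (Function.update v a x) ∈ I := by
        intro x hx
        refine Submodule.span_induction (p := fun x _ => f (Function.update v a x) ∈ I)
          (fun x hx => ?_) ?_ (fun x y _ _ hx hy => ?_) (fun c x _ hx => ?_) hx
        · refine ih _ (fun i hi => ?_) (fun i hi => ?_)
          · have hia : i ≠ a := fun e => ha (e ▸ hi)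
            rw [Function.update_of_ne hia]
            exact hv1 i (Finset.mem_insert_of_mem hi)
          · by_cases hia : i = a
            · subst hia
              rw [Function.update_self]
              exact hx
            · rw [Function.update_of_ne hia]
              exact hv2 i (by simp [hia, hi])
        · rw [f.map_coord_zero a (by rw [Function.update_self])]
          exact I.zero_mem
        · rw [f.map_update_add]
          exact I.add_mem hx hy
        · have e : c • x = (c : K) • x := rfl
          rw [e, f.map_update_smul]
          exact hI _ c.2 _ hx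
      have h2 := h1 (v a) (hv1 a (Finset.mem_insert_self a s))
      rwa [Function.update_eq_self] at h2
  exact key Finset.univ v (fun i _ => hv i) (fun i hi => absurd (Finset.mem_univ i) hi)

/-- the multilinear map `b ↦ capf b z` -/
noncomputable def capL {d : ℕ} (z : Fin d → Matrix (Fin m) (Fin m) K) :
    MultilinearMap K (fun _ : Fin d => Matrix (Fin m) (Fin m) K) (Matrix (Fin m) (Fin m) K) :=
  ∑ σ : Equiv.Perm (Fin d), ((Equiv.Perm.sign σ : ℤˣ) : ℤ) •
    (MultilinearMap.mkPiAlgebraFin K d (Matrix (Fin m) (Fin m) K)).compLinearMap
      (fun k => LinearMap.mulRight K (z (σ k)))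

theorem capL_apply {d : ℕ} (b z : Fin d → Matrix (Fin m) (Fin m) K) : capL z b = capf b z := by
  simp [capL, capf, MultilinearMap.mkPiAlgebraFin_apply]

/-- a finite extension containing the characteristic coefficients -/
theorem exists_coef_ring [Infinite K] (hm : 0 < m) {T : Type u} [CommRing T] [IsNoetherianRing T]
    [Algebra T K] (C : Subalgebra T (Matrix (Fin m) (Fin m) K)) [Module.Finite T C]
    (hC : Submodule.span K (C : Set (Matrix (Fin m) (Fin m) K)) = ⊤) :
    ∃ T' : Subalgebra T K, Module.Finite T T' ∧
      ∀ y ∈ Algebra.adjoin T' (C : Set (Matrix (Fin m) (Fin m) K)), ∀ j,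
        (LinearMap.mulLeft K y).charpoly.coeff j ∈ T' := by
  classical
  have hd : 0 < m ^ 2 := by positivity
  -- the module generated by the Capelli values
  let Q : Set (Matrix (Fin m) (Fin m) K) :=
    {x | ∃ b z : Fin (m ^ 2) → Matrix (Fin m) (Fin m) K, (∀ i, b i ∈ C) ∧ (∀ i, z i ∈ C) ∧ x = capf b z}
  let I : Submodule T (Matrix (Fin m) (Fin m) K) := Submodule.span T Q
  have hIC : I ≤ Subalgebra.toSubmodule C := by
    refine Submodule.span_le.2 ?_
    rintro x ⟨b, z, hb, hz, rfl⟩
    exact capf_mem (C := C.toSubring) (N := C.toSubring.toAddSubgroup) hd (fun x hx => hx)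
      (fun a ha x hx => C.mul_mem ha hx) (fun a ha x hx => C.mul_mem hx ha) hb hz
  have hCn : IsNoetherian T (Subalgebra.toSubmodule C) :=
    isNoetherian_of_isNoetherianRing_of_finite T C
  have hIn : IsNoetherian T I := isNoetherian_of_le hIC
  obtain ⟨b, z, hb, hz, hbz⟩ := capf_ne_of_span hm le_rfl hC
  have hv : capf b z ∈ I := Submodule.subset_span ⟨b, z, hb, hz, rfl⟩
  -- the ring of scalars preserving this module
  let T' : Subalgebra T K :=
    { carrier := {s | ∀ x ∈ I, s • x ∈ I}
      mul_mem' := fun {a b} ha hb x hx => by rw [mul_smul]; exact ha _ (hb _ hx)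
      one_mem' := fun x hx => by rw [one_smul]; exact hx
      add_mem' := fun {a b} ha hb x hx => by rw [add_smul]; exact I.add_mem (ha x hx) (hb x hx)
      zero_mem' := fun x _ => by rw [zero_smul]; exact I.zero_mem
      algebraMap_mem' := fun t x hx => by rw [algebraMap_smul]; exact I.smul_mem t hx }
  have hT' : ∀ s : K, s ∈ T' ↔ ∀ x ∈ I, s • x ∈ I := fun s => Iff.rfl
  refine ⟨T', ?_, ?_⟩
  · let f : T' →ₗ[T] I :=
      { toFun := fun s => ⟨(s : K) • capf b z, s.2 _ hv⟩
        map_add' := fun s t => Subtype.ext (add_smul _ _ _)
        map_smul' := fun t s => Subtype.ext (smul_assoc t (s : K) (capf b z)) }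
    refine Module.Finite.of_injective f ?_
    intro s t hst
    have h1 : (s : K) • capf b z = (t : K) • capf b z := congrArg Subtype.val hst
    rw [← sub_eq_zero, ← sub_smul, smul_eq_zero] at h1
    exact Subtype.ext (sub_eq_zero.1 (h1.resolve_right hbz))
  · -- the span of `C` over `T'`
    let S : Subring K := T'.toSubring
    have hspan : ∀ y, y ∈ Algebra.adjoin T' (C : Set (Matrix (Fin m) (Fin m) K)) ↔
        y ∈ Submodule.span S (C : Set (Matrix (Fin m) (Fin m) K)) := by
      intro y
      have h1 : Subalgebra.toSubmodule (Algebra.adjoin T' (C : Set (Matrix (Fin m) (Fin m) K)))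
          = Submodule.span T' (C : Set (Matrix (Fin m) (Fin m) K)) := by
        rw [Algebra.adjoin_eq_span]
        congr 1
        exact congrArg _ (Submonoid.closure_eq C.toSubmonoid)
      rw [← Subalgebra.mem_toSubmodule, h1]
      exact Iff.rfl
    have hIs : ∀ s ∈ S, ∀ x ∈ I.toAddSubgroup, s • x ∈ I.toAddSubgroup := fun s hs x hx => hs x hx
    have hcap : ∀ b z : Fin (m ^ 2) → Matrix (Fin m) (Fin m) K,
        (∀ i, b i ∈ Submodule.span S (C : Set (Matrix (Fin m) (Fin m) K))) →
        (∀ i, z i ∈ Submodule.span S (C : Set (Matrix (Fin m) (Fin m) K))) → capf b z ∈ I := by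
      intro b z hb hz
      rw [← capL_apply]
      refine multi_span_mem (S := S) (capL z) I.toAddSubgroup hIs C (fun b hb => ?_) b hb
      rw [capL_apply, ← capAlt_apply]
      refine multi_span_mem (S := S) (capAlt b).toMultilinearMap I.toAddSubgroup hIs C
        (fun z hz => ?_) z hz
      show capAlt b z ∈ I
      rw [capAlt_apply]
      exact Submodule.subset_span ⟨b, z, hb, hz, rfl⟩
    intro y hy j
    by_cases hj : j ≤ m ^ 2
    · rw [hT']
      intro x hx
      refine Submodule.span_induction (p := fun x _ => (LinearMap.mulLeft K y).charpoly.coeff j • x ∈ I)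
        (fun x hx => ?_) ?_ (fun x y _ _ hx hy => ?_) (fun c x _ hx => ?_) hx
      · obtain ⟨b, z, hb, hz, rfl⟩ := hx
        rw [← capF_eq (LinearMap.mulLeft K y) hj b z]
        unfold capF
        refine Submodule.sum_mem _ fun s _ => ?_
        refine zsmul_mem (hcap b _ (fun i => Submodule.subset_span (hb i)) fun i => ?_) _
        split_ifs
        · rw [LinearMap.mulLeft_apply, ← hspan]
          exact mul_mem hy (Algebra.subset_adjoin (hz i))
        · exact Submodule.subset_span (hz i)
      · rw [smul_zero]; exact I.zero_mem
      · rw [smul_add]; exact I.add_mem hx hy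
      · rw [smul_comm]; exact I.smul_mem c hx
    · have : (LinearMap.mulLeft K y).charpoly.coeff j = 0 := by
        apply Polynomial.coeff_eq_zero_of_natDegree_lt
        rw [LinearMap.charpoly_natDegree, Module.finrank_matrix]
        simp only [Fintype.card_fin, Module.finrank_self, mul_one]
        rw [sq] at hj
        omega
      rw [this]
      exact T'.zero_mem

end

end MP35
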