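import Pool.Agent.Lib_MP_3538b5_al.RDefs

/-! # Denominators of matrices -/

set_option autoImplicit false

namespace MP35

universe u v w

/-- PROOF. Every entry of the `x ∈ F` in a basis of the matrices contained in `R.A` (`hspan`) is algebraic over `T`, so a nonzero multiple by an element of `T` is integral over `T` (`exists_integral_multiple`); let `c` be the product of these multipliers and `T'` generated over `T` by the
(finitely many) integral elements `c * coordinate`; it is a finite `T`-module. -/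
theorem Rep.exists_denom_mats {p : ℕ} {G : Type u} [Group G] [TopologicalSpace G] {T : Type v}
    [CommRing T] [TopologicalSpace T] [IsDomain T] {Ω : Type v} [Field Ω] [Algebra T Ω] {n : ℕ}
    (R : Rep p G T Ω n) (alg : Algebra.IsAlgebraic T Ω)
    (hspan : Submodule.span Ω (R.A : Set (Matrix (Fin n) (Fin n) Ω)) = ⊤)
    (F : Finset (Matrix (Fin n) (Fin n) Ω)) :
    ∃ (T' : Subalgebra T Ω) (_ : Module.Finite T T') (c : T), c ≠ 0 ∧
      ∀ x ∈ F, c • x ∈ repAlg T' R.ρ := by
  classical
  have h1 : ∀ x : Matrix (Fin n) (Fin n) Ω, ∃ a : Matrix (Fin n) (Fin n) Ω →₀ Ω,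
      (a.support : Set (Matrix (Fin n) (Fin n) Ω)) ⊆ R.A ∧ (a.sum fun mi r => r • mi) = x := by
    intro x
    rw [← Submodule.mem_span_set, hspan]
    trivial
  choose a ha hax using h1
  obtain ⟨c, hc, hint⟩ := Algebra.IsAlgebraic.exists_integral_multiples T
    (F.biUnion fun x => (a x).support.image (a x))
  let s : Finset Ω := (F.biUnion fun x => (a x).support.image (a x)).image fun z => c • z
  have hs : ∀ z ∈ (s : Set Ω), IsIntegral T z := by
    intro z hz
    obtain ⟨y, hy, rfl⟩ := Finset.mem_image.1 (Finset.mem_coe.1 hz)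
    exact hint y hy
  have hfg := fg_adjoin_of_finite s.finite_toSet hs
  refine ⟨Algebra.adjoin T (s : Set Ω), Module.Finite.iff_fg.2 hfg, c, hc, ?_⟩
  intro x hx
  rw [← hax x, Finsupp.sum, Finset.smul_sum]
  refine Subalgebra.sum_mem _ fun m hm => ?_
  have h2 : c • (a x) m ∈ Algebra.adjoin T (s : Set Ω) := by
    refine Algebra.subset_adjoin (Finset.mem_coe.2 (Finset.mem_image.2 ⟨(a x) m, ?_, rfl⟩))
    exact Finset.mem_biUnion.2 ⟨x, hx, Finset.mem_image.2 ⟨m, hm, rfl⟩⟩
  have h3 : m ∈ repAlg (Algebra.adjoin T (s : Set Ω)) R.ρ := by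
    have h4 : R.A ≤ (repAlg (Algebra.adjoin T (s : Set Ω)) R.ρ).restrictScalars T :=
      Algebra.adjoin_le Algebra.subset_adjoin
    exact h4 (ha x hm)
  rw [← smul_assoc]
  exact Subalgebra.smul_mem _ h3 (⟨c • (a x) m, h2⟩ : Algebra.adjoin T (s : Set Ω))

end MP35
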