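import Mathlib

/-! # `p`-adic exponentials in compact subrings of `ℚ`-algebras -/

set_option autoImplicit false

namespace MP35

open Filter Topology

universe u v

section basic

variable (p : ℕ) {R : Type u} [Ring R] {S : Type v} [SetLike S R] [SubringClass S R]

/-- the additive subgroup `p ^ k A` of `R` -/
def pk (A : S) (k : ℕ) : AddSubgroup R where
  carrier := {x | ∃ a ∈ A, x = (p : R) ^ k * a}
  zero_mem' := ⟨0, zero_mem A, by simp⟩
  add_mem' := by
    rintro _ _ ⟨a, ha, rfl⟩ ⟨b, hb, rfl⟩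
    exact ⟨a + b, add_mem ha hb, by rw [mul_add]⟩
  neg_mem' := by
    rintro _ ⟨a, ha, rfl⟩
    exact ⟨-a, neg_mem ha, by rw [mul_neg]⟩

variable {p} {A : S}

theorem mem_pk {k : ℕ} {x : R} : x ∈ pk p A k ↔ ∃ a ∈ A, x = (p : R) ^ k * a := Iff.rfl

theorem pk_le {k : ℕ} {x : R} (hx : x ∈ pk p A k) : x ∈ A := by
  obtain ⟨a, ha, rfl⟩ := hx
  exact mul_mem (pow_mem (natCast_mem A p) k) ha

theorem pk_anti {k l : ℕ} (h : k ≤ l) {x : R} (hx : x ∈ pk p A l) : x ∈ pk p A k := by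
  obtain ⟨a, ha, rfl⟩ := hx
  refine ⟨(p : R) ^ (l - k) * a, mul_mem (pow_mem (natCast_mem A p) _) ha, ?_⟩
  rw [← mul_assoc, ← pow_add, Nat.add_sub_cancel' h]

theorem pk_zero {x : R} : x ∈ pk p A 0 ↔ x ∈ A := by
  constructor
  · exact pk_le
  · intro h; exact ⟨x, h, by simp⟩

theorem pk_mul {k l : ℕ} {x y : R} (hx : x ∈ pk p A k) (hy : y ∈ pk p A l) :
    x * y ∈ pk p A (k + l) := by
  obtain ⟨a, ha, rfl⟩ := hx
  obtain ⟨b, hb, rfl⟩ := hy
  refine ⟨a * b, mul_mem ha hb, ?_⟩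
  have : a * (p : R) ^ l = (p : R) ^ l * a := ((Nat.cast_commute p a).pow_left l).eq.symm
  rw [mul_assoc, ← mul_assoc a, this, pow_add]; simp only [mul_assoc]

theorem pk_mul_left {k : ℕ} {x y : R} (hx : x ∈ A) (hy : y ∈ pk p A k) : x * y ∈ pk p A k := by
  have := pk_mul (pk_zero.2 hx : x ∈ pk p A 0) hy
  rwa [zero_add] at this

theorem pk_mul_right {k : ℕ} {x y : R} (hx : x ∈ pk p A k) (hy : y ∈ A) : x * y ∈ pk p A k := by
  have := pk_mul hx (pk_zero.2 hy : y ∈ pk p A 0)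
  rwa [add_zero] at this

theorem pk_pow {k i : ℕ} {x : R} (hx : x ∈ pk p A k) : x ^ i ∈ pk p A (k * i) := by
  induction i with
  | zero => simpa using pk_zero.2 (one_mem A)
  | succ i ih => rw [pow_succ, mul_add, mul_one]; exact pk_mul ih hx

theorem pk_ppow {k l : ℕ} {x : R} (hx : x ∈ pk p A k) : (p : R) ^ l * x ∈ pk p A (k + l) := by
  obtain ⟨a, ha, rfl⟩ := hx
  exact ⟨a, ha, by rw [← mul_assoc, ← pow_add, add_comm]⟩

theorem pk_natCast {k : ℕ} (m : ℕ) {x : R} (hx : x ∈ pk p A k) : (m : R) * x ∈ pk p A k :=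
  pk_mul_left (natCast_mem A m) hx

end basic

section top

variable {p : ℕ} [hp : Fact p.Prime] {R : Type u} [Ring R] [Algebra ℚ R]
  {S : Type v} [SetLike S R] [SubringClass S R] {A : S}
  [TopologicalSpace A] [NonarchimedeanRing A] [CompactSpace A] [T2Space A]

omit [Algebra ℚ R] [NonarchimedeanRing A] [T2Space A] hp in
theorem zx_small [IsTopologicalRing A] (h : IsTopologicallyNilpotent (p : A)) {U : Set A}
    (hU : U ∈ 𝓝 (0 : A)) : ∃ k, ∀ m, k ≤ m → ∀ a : A, (p : A) ^ m * a ∈ U := by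
  have h1 : ∀ a : A, ∃ V ∈ 𝓝 (0 : A), ∃ W ∈ 𝓝 a, ∀ x ∈ V, ∀ y ∈ W, x * y ∈ U := by
    intro a
    have hc : Tendsto (fun z : A × A => z.1 * z.2) (𝓝 (0 : A) ×ˢ 𝓝 a) (𝓝 (0 * a)) := by
      rw [← nhds_prod_eq]; exact (continuous_mul (M := A)).tendsto (0, a)
    rw [zero_mul] at hc
    obtain ⟨V, hV, W, hW, hVW⟩ := Filter.mem_prod_iff.1 (hc hU)
    exact ⟨V, hV, W, hW, fun x hx y hy => hVW (show (x, y) ∈ V ×ˢ W from ⟨hx, hy⟩)⟩
  choose V hV W hW hVW using h1
  obtain ⟨t, -, ht⟩ := isCompact_univ.elim_nhds_subcover W (fun a _ => hW a)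
  have h2 : (⋂ a ∈ t, V a) ∈ 𝓝 (0 : A) := (Filter.biInter_finset_mem t).2 (fun a _ => hV a)
  obtain ⟨k, hk⟩ := (Filter.eventually_atTop.1 (h h2))
  refine ⟨k, fun m hm a => ?_⟩
  obtain ⟨b, hb, hab⟩ := Set.mem_iUnion₂.1 (ht (Set.mem_univ a))
  exact hVW b _ (Set.mem_iInter₂.1 (hk m hm) b hb) _ hab

omit [Algebra ℚ R] [NonarchimedeanRing A] hp in
theorem zx_eq_zero [IsTopologicalRing A] (h : IsTopologicallyNilpotent (p : A)) {x : R}
    (hx : ∀ k, x ∈ pk p A k) : x = 0 := by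
  by_contra hne
  have hxA : x ∈ A := pk_le (hx 0)
  have hne' : (⟨x, hxA⟩ : A) ≠ 0 := fun h => hne (congrArg Subtype.val h)
  have hU : {(⟨x, hxA⟩ : A)}ᶜ ∈ 𝓝 (0 : A) := isOpen_compl_singleton.mem_nhds (by simpa using hne'.symm)
  obtain ⟨k, hk⟩ := zx_small h hU
  obtain ⟨a, ha, hxa⟩ := hx k
  refine hk k le_rfl ⟨a, ha⟩ ?_
  simp only [Set.mem_singleton_iff]
  apply Subtype.ext
  simp [hxa]

omit [Algebra ℚ R] [NonarchimedeanRing A] hp in
theorem pk_closed [IsTopologicalRing A] (k : ℕ) : IsClosed {a : A | (a : R) ∈ pk p A k} := by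
  have : {a : A | (a : R) ∈ pk p A k} = Set.range (fun a : A => (p : A) ^ k * a) := by
    ext a
    constructor
    · rintro ⟨b, hb, hab⟩
      exact ⟨⟨b, hb⟩, Subtype.ext (by simp [hab])⟩
    · rintro ⟨b, rfl⟩
      exact ⟨b, b.2, by simp⟩
  rw [this]
  exact (isCompact_range (continuous_const.mul continuous_id)).isClosed

theorem zx_unit (h : IsTopologicallyNilpotent (p : A)) {m : ℕ} (hm : Nat.Coprime m p) :
    ((m : ℚ)⁻¹ • (1 : R)) ∈ A := by
  have hm0 : m ≠ 0 := by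
    rintro rfl
    rw [Nat.coprime_zero_left] at hm
    exact hp.out.one_lt.ne' hm
  set I : Set A := Set.range (fun a : A => (m : A) * a) with hI
  have hcl : IsClosed I := (isCompact_range (continuous_const.mul continuous_id)).isClosed
  have h1 : (1 : A) ∈ I := by
    rw [← hcl.closure_eq, mem_closure_iff_nhds]
    intro U hU
    have hU' : (fun x : A => 1 + x) ⁻¹' U ∈ 𝓝 (0 : A) := by
      have : Tendsto (fun x : A => 1 + x) (𝓝 0) (𝓝 (1 + 0)) := (continuous_const.add continuous_id).tendsto 0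
      rw [add_zero] at this
      exact this hU
    obtain ⟨k, hk⟩ := zx_small h hU'
    have hcop : Nat.Coprime m (p ^ k) := Nat.Coprime.pow_right k hm
    have hb := Nat.gcd_eq_gcd_ab m (p ^ k)
    rw [hcop] at hb
    refine ⟨1 + (p : A) ^ k * (-((Nat.gcdB m (p ^ k) : ℤ) : A)), hk k le_rfl _, ((Nat.gcdA m (p ^ k) : ℤ) : A), ?_⟩
    have := congrArg (fun z : ℤ => (z : A)) hb
    push_cast at this
    simp only [mul_neg]
    rw [eq_comm, ← sub_eq_add_neg, sub_eq_iff_eq_add]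
    simpa using this
  obtain ⟨a, ha⟩ := h1
  have ha' : (m : R) * (a : R) = 1 := by
    have := congrArg (Subtype.val : A → R) ha
    simpa using this
  have : ((m : ℚ)⁻¹ • (1 : R)) = a := by
    have hm0' : (m : ℚ) ≠ 0 := by exact_mod_cast hm0
    rw [← ha', inv_smul_eq_iff₀ hm0', Nat.cast_smul_eq_nsmul ℚ m (a : R), nsmul_eq_mul]
  rw [this]; exact a.2

theorem zx_div (h : IsTopologicallyNilpotent (p : A)) {m k : ℕ} (hm : m ≠ 0) {x : R}
    (hx : x ∈ pk p A (k + padicValNat p m)) : (m : ℚ)⁻¹ • x ∈ pk p A k := by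
  obtain ⟨a, ha, rfl⟩ := hx
  set v := padicValNat p m with hv
  obtain ⟨u, hu⟩ : p ^ v ∣ m := pow_padicValNat_dvd
  have hup : Nat.Coprime u p := by
    rw [Nat.coprime_comm, hp.out.coprime_iff_not_dvd]
    rintro ⟨w, hw⟩
    have : p ^ (v + 1) ∣ m := ⟨w, by rw [hu, hw, pow_succ, mul_assoc]⟩
    exact pow_succ_padicValNat_not_dvd hm this
  have hu0 : u ≠ 0 := by rintro rfl; rw [mul_zero] at hu; exact hm hu
  have hp0 : (p : ℚ) ≠ 0 := by exact_mod_cast hp.out.ne_zero
  refine ⟨((u : ℚ)⁻¹ • (1 : R)) * a, mul_mem (zx_unit h hup) ha, ?_⟩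
  rw [hu]
  push_cast
  have h1 : ((p : R) ^ v) = ((p : ℚ) ^ v) • (1 : R) := by
    rw [Algebra.smul_def, mul_one, map_pow, map_natCast]
  have h2 : (p : R) ^ (k + v) * a = ((p : ℚ) ^ v) • ((p : R) ^ k * a) := by
    rw [add_comm, pow_add, h1, smul_mul_assoc, smul_mul_assoc, one_mul]
  rw [h2, smul_smul, smul_mul_assoc, one_mul, mul_smul_comm]
  congr 1
  have hu0' : (u : ℚ) ≠ 0 := by exact_mod_cast hu0
  field_simp

omit [Algebra ℚ R] [NonarchimedeanRing A] [CompactSpace A] [T2Space A] [TopologicalSpace A] in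
theorem padicValNat_factorial_le (i : ℕ) : padicValNat p (i + 1).factorial ≤ i := by
  have h1 := sub_one_mul_padicValNat_factorial (p := p) (i + 1)
  have h2 : 1 ≤ (Nat.digits p (i + 1)).sum := by
    by_contra hcon
    have h0 : (Nat.digits p (i + 1)).sum = 0 := by omega
    have h3 : ∀ d ∈ Nat.digits p (i + 1), d = 0 := by
      intro d hd
      have := List.single_le_sum (l := Nat.digits p (i + 1)) (by simp) d hd
      omega
    have h4 : Nat.ofDigits p (Nat.digits p (i + 1)) = 0 := by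
      have : ∀ l : List ℕ, (∀ d ∈ l, d = 0) → Nat.ofDigits p l = 0 := by
        intro l
        induction l with
        | nil => simp
        | cons a l ih =>
          intro hl
          rw [Nat.ofDigits_cons, ih (fun d hd => hl d (List.mem_cons_of_mem _ hd)), hl a (by simp)]
          simp
      exact this _ h3
    rw [Nat.ofDigits_digits] at h4
    omega
  have h3 : padicValNat p (i + 1).factorial ≤ (p - 1) * padicValNat p (i + 1).factorial :=
    Nat.le_mul_of_pos_left _ (by have := hp.out.one_lt; omega)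
  omega

/-- terms of the exponential series are small -/
theorem zx_fact (h : IsTopologicallyNilpotent (p : A)) {k i : ℕ} {x : R} (hx : x ∈ pk p A (k + 2)) :
    ((i + 1).factorial : ℚ)⁻¹ • x ^ (i + 1) ∈ pk p A (k + 2 + (k + 1) * i) := by
  apply zx_div h (Nat.factorial_ne_zero _)
  refine pk_anti ?_ (pk_pow hx)
  have := padicValNat_factorial_le (p := p) i
  nlinarith

/-- congruent arguments: the terms of order at least two are more congruent -/
theorem zx_fact_sub (h : IsTopologicallyNilpotent (p : A)) {j i : ℕ} {x y : R} (hx : x ∈ pk p A 2)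
    (hy : y ∈ pk p A 2) (hxy : x - y ∈ pk p A j) :
    ((i + 2).factorial : ℚ)⁻¹ • (x ^ (i + 2) - y ^ (i + 2)) ∈ pk p A (j + 1) := by
  apply zx_div h (Nat.factorial_ne_zero _)
  have h1 : ∀ l : ℕ, x ^ (l + 1) - y ^ (l + 1) ∈ pk p A (j + 2 * l) := by
    intro l
    induction l with
    | zero => simpa using hxy
    | succ l ih =>
      have : x ^ (l + 1 + 1) - y ^ (l + 1 + 1) = (x ^ (l + 1) - y ^ (l + 1)) * x + y ^ (l + 1) * (x - y) := by
        rw [pow_succ x (l + 1), pow_succ y (l + 1)]; noncomm_ring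
      rw [this]
      refine AddSubgroup.add_mem _ ?_ ?_
      · exact pk_anti (by omega) (pk_mul ih hx)
      · refine pk_anti ?_ (pk_mul (pk_pow (i := l + 1) hy) hxy)
        omega
  refine pk_anti ?_ (h1 (i + 1))
  have : padicValNat p (i + 2).factorial ≤ i + 1 := padicValNat_factorial_le (p := p) (i + 1)
  omega

end top

end MP35
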