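import Pool.Agent.Lib_MP_3538b5_al.ZExp

/-! # The exponential in compact subrings of `ℚ`-algebras

`A` is a subring of the `ℚ`-algebra `R`, compact Hausdorff nonarchimedean for some topology, `p`
topologically nilpotent. `zterm x k` is `x ^ k / k!` (if it is in `A`), `zexp x` the sum of these. -/

set_option autoImplicit false

namespace MP35

open Filter Topology

universe u v u' v'

/-- in a compact nonarchimedean ring, sequences tending to `0` are summable -/
private theorem summable_of_small {B : Type u} [Ring B] [TopologicalSpace B] [NonarchimedeanRing B]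
    [CompactSpace B] {f : ℕ → B} (hf : Tendsto f cofinite (𝓝 0)) : Summable f := by
  let _ : UniformSpace B := IsTopologicalAddGroup.rightUniformSpace B
  have : IsUniformAddGroup B := isUniformAddGroup_of_addCommGroup
  exact NonarchimedeanAddGroup.summable_of_tendsto_cofinite_zero hf

private theorem summable_mul_of_summable {B : Type u} [Ring B] [TopologicalSpace B]
    [NonarchimedeanRing B] {f g : ℕ → B} (hf : Summable f) (hg : Summable g) :
    Summable fun i : ℕ × ℕ => f i.1 * g i.2 := by
  let _ : UniformSpace B := IsTopologicalAddGroup.rightUniformSpace B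
  have : IsUniformAddGroup B := isUniformAddGroup_of_addCommGroup
  exact hf.mul_of_nonarchimedean hg

/-- a sum, without its first terms, is in every closed subgroup containing all the other terms -/
private theorem hasSum_sub_mem {B : Type u} [AddCommGroup B] [TopologicalSpace B]
    [IsTopologicalAddGroup B] {f : ℕ → B} {a : B} (hf : HasSum f a) (W : AddSubgroup B)
    (hWc : IsClosed (W : Set B)) (N : ℕ) (hW : ∀ m, N ≤ m → f m ∈ W) :
    a - ∑ i ∈ Finset.range N, f i ∈ W := by
  have h1 : HasSum (fun n => f (n + N)) (a - ∑ i ∈ Finset.range N, f i) :=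
    (hasSum_nat_add_iff' N).2 hf
  have h2 : Tendsto (fun s : Finset ℕ => ∑ n ∈ s, f (n + N)) atTop
      (𝓝 (a - ∑ i ∈ Finset.range N, f i)) := h1
  exact hWc.mem_of_tendsto h2 (Eventually.of_forall fun s =>
    W.sum_mem fun n _ => hW _ (Nat.le_add_left N n))

section

variable (p : ℕ) [hp : Fact p.Prime] {R : Type u} [Ring R] [Algebra ℚ R]
  {S : Type v} [SetLike S R] [SubringClass S R] {A : S}

open Classical in
/-- the `k`-th term `x ^ k / k!` of the exponential series -/
noncomputable def zterm (x : A) (k : ℕ) : A :=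
  if h : (k.factorial : ℚ)⁻¹ • (x : R) ^ k ∈ A then ⟨_, h⟩ else 0

variable [TopologicalSpace A]

/-- the exponential -/
noncomputable def zexp (x : A) : A := ∑' k, zterm x k

variable [NonarchimedeanRing A] [CompactSpace A] [T2Space A]

variable {p}

/-- PROOF. `zx_fact` for `k = j + 1`, trivial for `k = 0`. -/
theorem zterm_coe (h : IsTopologicallyNilpotent ((p : ℕ) : A)) {x : A} (hx : (x : R) ∈ pk p A 2)
    (k : ℕ) : ((zterm x k : A) : R) = (k.factorial : ℚ)⁻¹ • (x : R) ^ k := by
  have hmem : (k.factorial : ℚ)⁻¹ • (x : R) ^ k ∈ A := by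
    rcases k with _ | j
    · simp
    · exact pk_le (zx_fact (k := 0) (i := j) h (by simpa using hx))
  rw [zterm, dif_pos hmem]

private theorem zterm_mem_pk (h : IsTopologicallyNilpotent ((p : ℕ) : A)) {x : A} {k : ℕ}
    (hx : (x : R) ∈ pk p A (k + 2)) (i : ℕ) :
    ((zterm x (i + 1) : A) : R) ∈ pk p A (k + 2 + (k + 1) * i) := by
  rw [zterm_coe h (pk_anti (by omega) hx)]
  exact zx_fact h hx

omit [Algebra ℚ R] [T2Space A] hp in
private theorem tendsto_of_mem_pk (h : IsTopologicallyNilpotent ((p : ℕ) : A)) {f : ℕ → A} {N : ℕ}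
    (hf : ∀ i, ((f (i + N) : A) : R) ∈ pk p A i) : Tendsto f cofinite (𝓝 0) := by
  rw [Nat.cofinite_eq_atTop]
  intro U hU
  obtain ⟨k, hk⟩ := zx_small h hU
  rw [mem_map, mem_atTop_sets]
  refine ⟨k + N, fun m hm => ?_⟩
  obtain ⟨a, ha, hma⟩ := hf (m - N)
  rw [Nat.sub_add_cancel (by omega)] at hma
  have e : f m = ((p : ℕ) : A) ^ (m - N) * ⟨a, ha⟩ := by
    apply Subtype.ext
    rw [hma]
    simp
  rw [Set.mem_preimage, e]
  exact hk _ (by omega) _

/-- PROOF. `zx_fact` (with `k = 0` there): the terms tend to `0` (`zx_small`); in a complete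
nonarchimedean group this is enough (`NonarchimedeanAddGroup.summable_of_tendsto_cofinite_zero`, for the
uniform structure `IsTopologicalAddGroup.rightUniformSpace A`; compact spaces are complete). -/
theorem zexp_hasSum (h : IsTopologicallyNilpotent ((p : ℕ) : A)) {x : A}
    (hx : (x : R) ∈ pk p A 2) : HasSum (zterm x) (zexp x) := by
  have h1 : Summable (zterm x) := by
    refine summable_of_small (tendsto_of_mem_pk (p := p) (N := 1) h fun i => ?_)
    exact pk_anti (by omega) (zterm_mem_pk (k := 0) h hx i)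
  exact h1.hasSum

omit [TopologicalSpace A] [NonarchimedeanRing A] [CompactSpace A] [T2Space A] in
private theorem zterm_zero_right (x : A) : zterm x 0 = 1 := by
  have hmem : ((Nat.factorial 0 : ℕ) : ℚ)⁻¹ • (x : R) ^ 0 ∈ A := by simpa using one_mem A
  rw [zterm, dif_pos hmem]
  apply Subtype.ext
  simp

omit [TopologicalSpace A] [NonarchimedeanRing A] [CompactSpace A] [T2Space A] in
private theorem zterm_zero_left (k : ℕ) : zterm (0 : A) (k + 1) = 0 := by
  rw [zterm]
  split_ifs with hmem
  · apply Subtype.ext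
    simp
  · rfl

/-- PROOF. All terms but the first vanish. -/
theorem zexp_zero : zexp (0 : A) = 1 := by
  rw [zexp, tsum_eq_single 0, zterm_zero_right]
  intro k hk
  obtain ⟨j, rfl⟩ := Nat.exists_eq_succ_of_ne_zero hk
  exact zterm_zero_left j

/-- PROOF. Cauchy product: `Summable.tsum_mul_tsum_eq_tsum_sum_antidiagonal`, with
`Summable.mul_of_nonarchimedean`, and the binomial theorem for commuting elements (`Commute.add_pow'`).
(`x + y` is in `pk p A 2`.) -/
theorem zexp_add (h : IsTopologicallyNilpotent ((p : ℕ) : A)) {x y : A} (hx : (x : R) ∈ pk p A 2)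
    (hy : (y : R) ∈ pk p A 2) (hxy : x * y = y * x) : zexp (x + y) = zexp x * zexp y := by
  have hxy' : ((x + y : A) : R) ∈ pk p A 2 := by
    rw [AddMemClass.coe_add]
    exact (pk p A 2).add_mem hx hy
  have hc : Commute (x : R) (y : R) := by
    have := congrArg (Subtype.val : A → R) hxy
    rwa [MulMemClass.coe_mul, MulMemClass.coe_mul] at this
  have h1 := (zexp_hasSum h hx).summable.tsum_mul_tsum_eq_tsum_sum_antidiagonal
    (zexp_hasSum h hy).summable
    (summable_mul_of_summable (zexp_hasSum h hx).summable (zexp_hasSum h hy).summable)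
  show ∑' k, zterm (x + y) k = (∑' k, zterm x k) * ∑' k, zterm y k
  rw [h1]
  congr 1
  funext n
  apply Subtype.ext
  rw [zterm_coe h hxy', AddMemClass.coe_add, hc.add_pow', Finset.smul_sum]
  rw [show ((∑ kl ∈ Finset.HasAntidiagonal.antidiagonal n, zterm x kl.1 * zterm y kl.2 : A) : R)
    = ∑ kl ∈ Finset.HasAntidiagonal.antidiagonal n, ((zterm x kl.1 * zterm y kl.2 : A) : R) from
    map_sum (SubringClass.subtype A) _ _]
  refine Finset.sum_congr rfl fun kl hkl => ?_
  rw [MulMemClass.coe_mul, zterm_coe h hx, zterm_coe h hy, smul_mul_assoc, mul_smul_comm,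
    smul_smul, ← Nat.cast_smul_eq_nsmul ℚ, smul_smul]
  congr 1
  rw [Finset.HasAntidiagonal.mem_antidiagonal] at hkl
  have h2 : (n.choose kl.1 : ℚ) = n.factorial / (kl.1.factorial * kl.2.factorial) := by
    rw [← hkl, Nat.cast_add_choose]
  have h3 : (n.factorial : ℚ) ≠ 0 := by exact_mod_cast Nat.factorial_ne_zero n
  rw [h2]
  field_simp

/-- PROOF. Partial sums of the terms of index `≥ N` are in the closed subgroup `W`. -/
theorem zexp_sub_mem (h : IsTopologicallyNilpotent ((p : ℕ) : A)) {x : A} (hx : (x : R) ∈ pk p A 2)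
    (W : AddSubgroup A) (hWc : IsClosed (W : Set A)) (N : ℕ) (hW : ∀ m, N ≤ m → zterm x m ∈ W) :
    zexp x - ∑ i ∈ Finset.range N, zterm x i ∈ W := by
  exact hasSum_sub_mem (zexp_hasSum h hx) W hWc N hW

/-- the closed subgroup of the elements of `A` in `p ^ k A` -/
private def pkA (p : ℕ) (A : S) (k : ℕ) : AddSubgroup A where
  carrier := {a | (a : R) ∈ pk p A k}
  zero_mem' := by
    show ((0 : A) : R) ∈ pk p A k
    rw [ZeroMemClass.coe_zero]
    exact zero_mem _
  add_mem' := by
    intro a b ha hb
    show ((a + b : A) : R) ∈ pk p A k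
    rw [AddMemClass.coe_add]
    exact add_mem ha hb
  neg_mem' := by
    intro a ha
    show ((-a : A) : R) ∈ pk p A k
    rw [NegMemClass.coe_neg]
    exact neg_mem ha

omit [Algebra ℚ R] [TopologicalSpace A] [NonarchimedeanRing A] [CompactSpace A] [T2Space A] hp in
private theorem mem_pkA {k : ℕ} {a : A} : a ∈ pkA p A k ↔ (a : R) ∈ pk p A k := Iff.rfl

omit [Algebra ℚ R] hp in
private theorem isClosed_pkA (k : ℕ) : IsClosed (pkA p A k : Set A) := pk_closed (p := p) (A := A) k

/-- `zexp x - 1 - x` is small -/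
private theorem zexp_sub_mem_pk (h : IsTopologicallyNilpotent ((p : ℕ) : A)) {x : A} {k : ℕ}
    (hx : (x : R) ∈ pk p A (k + 2)) : zexp x - 1 - x ∈ pkA p A (k + 3) := by
  have hx2 : (x : R) ∈ pk p A 2 := pk_anti (by omega) hx
  have h1 := zexp_sub_mem h hx2 (pkA p A (k + 3)) (isClosed_pkA _) 2 (fun m hm => by
    obtain ⟨i, rfl⟩ : ∃ i, m = i + 1 + 1 := ⟨m - 2, by omega⟩
    rw [mem_pkA]
    refine pk_anti ?_ (zterm_mem_pk (k := k) h hx (i + 1))
    nlinarith)
  have h2 : zterm x 1 = x := by
    apply Subtype.ext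
    rw [zterm_coe h hx2]
    simp
  rw [Finset.sum_range_succ, Finset.sum_range_one, zterm_zero_right, h2] at h1
  rwa [sub_sub]

private theorem zexp_sub_one_mem_pk (h : IsTopologicallyNilpotent ((p : ℕ) : A)) {x : A} {k : ℕ}
    (hx : (x : R) ∈ pk p A (k + 2)) : zexp x - 1 ∈ pkA p A (k + 2) := by
  have h1 := zexp_sub_mem_pk h hx
  have h2 : zexp x - 1 = (zexp x - 1 - x) + x := by abel
  rw [h2]
  exact add_mem (pk_anti (by omega) h1) hx

/-- what commutes with `x` commutes with `zexp x` -/
private theorem commute_zexp (h : IsTopologicallyNilpotent ((p : ℕ) : A)) {x : A}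
    (hx : (x : R) ∈ pk p A 2) {w : A} (hw : w * x = x * w) : w * zexp x = zexp x * w := by
  have h1 : HasSum (fun k => w * zterm x k) (w * zexp x) := (zexp_hasSum h hx).mul_left w
  have h2 : HasSum (fun k => zterm x k * w) (zexp x * w) := (zexp_hasSum h hx).mul_right w
  have h3 : (fun k => w * zterm x k) = fun k => zterm x k * w := by
    funext k
    apply Subtype.ext
    have hc : Commute (w : R) (x : R) := by
      have := congrArg (Subtype.val : A → R) hw
      rwa [MulMemClass.coe_mul, MulMemClass.coe_mul] at this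
    rw [MulMemClass.coe_mul, MulMemClass.coe_mul, zterm_coe h hx, mul_smul_comm, smul_mul_assoc,
      (hc.pow_right k).eq]
  rw [h3] at h1
  exact h1.unique h2

private theorem mul_zterm (h : IsTopologicallyNilpotent ((p : ℕ) : A)) {x : A}
    (hx : (x : R) ∈ pk p A 2) (m : ℕ) : x * zterm x m = (m + 1) • zterm x (m + 1) := by
  apply Subtype.ext
  rw [MulMemClass.coe_mul, zterm_coe h hx,
    show (((m + 1) • zterm x (m + 1) : A) : R) = (m + 1) • ((zterm x (m + 1) : A) : R) from
      map_nsmul (SubringClass.subtype A) _ _, zterm_coe h hx, mul_smul_comm, ← pow_succ',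
    ← Nat.cast_smul_eq_nsmul ℚ, smul_smul]
  congr 1
  rw [Nat.factorial_succ]
  push_cast
  have h3 : (m.factorial : ℚ) ≠ 0 := by exact_mod_cast Nat.factorial_ne_zero m
  have h4 : (m + 1 : ℚ) ≠ 0 := by positivity
  field_simp

private theorem zexp_neg_mul (h : IsTopologicallyNilpotent ((p : ℕ) : A)) {x : A}
    (hx : (x : R) ∈ pk p A 2) : zexp x * zexp (-x) = 1 := by
  have hx' : ((-x : A) : R) ∈ pk p A 2 := by
    rw [NegMemClass.coe_neg]
    exact neg_mem hx
  rw [← zexp_add h hx hx' (by rw [mul_neg, neg_mul]), add_neg_cancel, zexp_zero]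

/-- PROOF. Successive approximation. `x₀ = 0`, `e_n = u * zexp (-x_n) - 1`, `x_(n+1) = x_n + e_n`. All `x_n, e_n` are in `W` and in the closed subring of
elements commuting with everything that commutes with `u`, so they commute with each other and with `u`. So
`1 + e_(n+1) = u * zexp (-x_n) * zexp (-e_n) = (1 + e_n) * zexp (-e_n)` (`zexp_add`), and
`e_(n+1) = e_n + (zexp (-e_n) - 1) + e_n * (zexp (-e_n) - 1)` is in `W` (`zexp_sub_mem`; `e_n * zterm (-e_n) m = ± (m + 1) • zterm e_n (m + 1)`; use `zterm (-e) m = ± zterm e m`). Let `e_n ∈ p ^ k A`, `k ≥ 2`: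
`(1 + e_n) * zexp (-e_n) - 1` has no linear term, the coefficient of `e_n ^ m`, `m ≥ 2`, is an integer multiple of `1 / m!`, so `e_(n+1) ∈ p ^ (k + 1) A` (`zx_fact`). So `x_n` converges (Cauchy in
a compact, hence complete, group; or: `x = ∑ e_n` by `NonarchimedeanAddGroup.summable_of_tendsto_cofinite_zero`), `x ∈ W`, `x - x_n ∈ p ^ (n + 2) A` (closed), and
`zexp x = zexp x_n * zexp (x - x_n)`, `u = zexp x_n * (1 + e_n)`, so `u - zexp x ∈ p ^ k A` for all `k`, and `u = zexp x` by `zx_eq_zero`. -/
theorem exists_zlog (h : IsTopologicallyNilpotent ((p : ℕ) : A)) (W : AddSubgroup A)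
    (hWc : IsClosed (W : Set A)) (hW2 : ∀ x ∈ W, (x : R) ∈ pk p A 2)
    (hW : ∀ x ∈ W, ∀ m, 1 ≤ m → zterm x m ∈ W) {u : A} (hu : u - 1 ∈ W) : ∃ x ∈ W, zexp x = u := by
  classical
  -- the sequence
  let F : A → A := fun x => x + (u * zexp (-x) - 1)
  let X : ℕ → A := fun n => F^[n] 0
  let e : ℕ → A := fun n => u * zexp (-X n) - 1
  have hX0 : X 0 = 0 := rfl
  have hXs : ∀ n, X (n + 1) = X n + e n := fun n => Function.iterate_succ_apply' F n 0
  have hneg : ∀ {z : A}, z ∈ W → ((-z : A) : R) ∈ pk p A 2 := fun {z} hz => hW2 _ (W.neg_mem hz)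
  have key : ∀ n, X n ∈ W ∧ e n ∈ W ∧ e n ∈ pkA p A (n + 2) ∧
      (∀ w, w * u = u * w → w * X n = X n * w) ∧ ∀ w, w * u = u * w → w * e n = e n * w := by
    intro n
    induction n with
    | zero =>
      have he0 : e 0 = u - 1 := by
        show u * zexp (-X 0) - 1 = u - 1
        rw [hX0, neg_zero, zexp_zero, mul_one]
      refine ⟨W.zero_mem, by rw [he0]; exact hu, by rw [he0]; exact hW2 _ hu, fun w _ => ?_,
        fun w hw => ?_⟩
      · rw [hX0, mul_zero, zero_mul]
      · rw [he0, mul_sub, sub_mul, hw, mul_one, one_mul]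
    | succ n ih =>
      obtain ⟨h1, h2, h3, h4, h5⟩ := ih
      have hXm : X (n + 1) ∈ W := by
        rw [hXs]
        exact W.add_mem h1 h2
      have hcX : ∀ w, w * u = u * w → w * X (n + 1) = X (n + 1) * w := by
        intro w hw
        rw [hXs, mul_add, add_mul, h4 w hw, h5 w hw]
      have huX : X n * u = u * X n := (h4 u rfl).symm
      have hXe : X n * e n = e n * X n := h5 (X n) huX
      have he1 : 1 + e n = u * zexp (-X n) := by
        show 1 + (u * zexp (-X n) - 1) = _
        abel
      set z : A := -e n with hz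
      have hzW : z ∈ W := W.neg_mem h2
      have hz2 : (z : R) ∈ pk p A 2 := hW2 _ hzW
      have hzn : (z : R) ∈ pk p A (n + 2) := (pkA p A (n + 2)).neg_mem h3
      have hes : e (n + 1) = (1 - z) * zexp z - 1 := by
        show u * zexp (-X (n + 1)) - 1 = _
        have e1 : -X (n + 1) = -X n + z := by
          rw [hXs, hz]
          abel
        rw [e1, zexp_add h (hneg h1) hz2, ← mul_assoc, ← he1, hz, sub_neg_eq_add]
        rw [hz, mul_neg, neg_mul, mul_neg, neg_mul, hXe]
      have hes2 : e (n + 1) = (1 - z) * (zexp z - 1) - z := by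
        rw [hes, mul_sub, mul_one]
        abel
      have hes3 : e (n + 1) = (1 - z) * (zexp z - 1 - z) - z * z := by
        rw [hes]
        noncomm_ring
      refine ⟨hXm, ?_, ?_, hcX, ?_⟩
      · rw [hes2]
        refine W.sub_mem ?_ hzW
        let W' : AddSubgroup A := W.comap (AddMonoidHom.mulLeft (1 - z))
        have hW'c : IsClosed (W' : Set A) := by
          have : (W' : Set A) = (fun a => (1 - z) * a) ⁻¹' (W : Set A) := rfl
          rw [this]
          exact hWc.preimage (continuous_const.mul continuous_id)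
        have h6 := zexp_sub_mem h hz2 W' hW'c 1 (fun m hm => by
          show (1 - z) * zterm z m ∈ W
          rw [sub_mul, one_mul, mul_zterm h hz2]
          exact W.sub_mem (hW z hzW m hm) (W.nsmul_mem (hW z hzW (m + 1) (by omega)) _))
        rw [Finset.sum_range_one, zterm_zero_right] at h6
        exact h6
      · rw [hes3]
        refine (pkA p A (n + 1 + 2)).sub_mem ?_ ?_
        · have h6 : zexp z - 1 - z ∈ pkA p A (n + 3) := zexp_sub_mem_pk h hzn
          rw [mem_pkA, MulMemClass.coe_mul]
          exact pk_mul_left (1 - z).2 h6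
        · rw [mem_pkA, MulMemClass.coe_mul]
          exact pk_anti (by omega) (pk_mul hzn hz2)
      · intro w hw
        have h6 : w * zexp (-X (n + 1)) = zexp (-X (n + 1)) * w :=
          commute_zexp h (hneg hXm) (by rw [mul_neg, neg_mul, hcX w hw])
        show w * (u * zexp (-X (n + 1)) - 1) = (u * zexp (-X (n + 1)) - 1) * w
        rw [mul_sub, sub_mul, mul_one, one_mul, ← mul_assoc, hw, mul_assoc, h6, mul_assoc]
  have hsum : Summable e := by
    refine summable_of_small (tendsto_of_mem_pk (p := p) (N := 0) h fun i => ?_)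
    exact pk_anti (by omega) (key i).2.2.1
  have hXe : ∀ n, X n = ∑ i ∈ Finset.range n, e i := by
    intro n
    induction n with
    | zero => rw [Finset.sum_range_zero, hX0]
    | succ n ih => rw [Finset.sum_range_succ, ← ih, hXs]
  obtain ⟨x, hx⟩ := hsum
  have hlim : Tendsto X atTop (𝓝 x) := by
    have := hx.tendsto_sum_nat
    refine this.congr fun n => (hXe n).symm
  have hxW : x ∈ W := hWc.mem_of_tendsto hlim (Eventually.of_forall fun n => (key n).1)
  have hx2 := hW2 x hxW
  refine ⟨x, hxW, ?_⟩
  have hdiff : ∀ n, x - X n ∈ pkA p A (n + 2) := by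
    intro n
    rw [hXe]
    exact hasSum_sub_mem hx _ (isClosed_pkA _) n fun m hm => pk_anti (by omega) (key m).2.2.1
  have hcomm : ∀ n, X n * x = x * X n := by
    intro n
    have h1 : Tendsto (fun m => X n * X m) atTop (𝓝 (X n * x)) := hlim.const_mul _
    have h2 : Tendsto (fun m => X m * X n) atTop (𝓝 (x * X n)) := hlim.mul_const _
    have h3 : (fun m => X n * X m) = fun m => X m * X n := by
      funext m
      exact (key m).2.2.2.1 _ ((key n).2.2.2.1 u rfl).symm
    rw [h3] at h1
    exact tendsto_nhds_unique h1 h2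
  have hfin : ∀ n, u - zexp x ∈ pkA p A (n + 2) := by
    intro n
    obtain ⟨h1, h2, h3, h4, h5⟩ := key n
    have hd2 : ((x - X n : A) : R) ∈ pk p A 2 := hW2 _ (W.sub_mem hxW h1)
    have e1 : zexp x = zexp (X n) * zexp (x - X n) := by
      rw [← zexp_add h (hW2 _ h1) hd2 (by rw [mul_sub, sub_mul, hcomm]), add_sub_cancel]
    have e2 : u = zexp (X n) * (1 + e n) := by
      have he1 : 1 + e n = u * zexp (-X n) := by
        show 1 + (u * zexp (-X n) - 1) = _
        abel
      have h6 : u * zexp (X n) = zexp (X n) * u := commute_zexp h (hW2 _ h1) (h4 u rfl)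
      rw [he1, ← mul_assoc, ← h6, mul_assoc, zexp_neg_mul h (hW2 _ h1), mul_one]
    have e3 : u - zexp x = zexp (X n) * (e n - (zexp (x - X n) - 1)) := by
      rw [e1]
      nth_rewrite 1 [e2]
      rw [← mul_sub]
      congr 1
      abel
    rw [e3, mem_pkA, MulMemClass.coe_mul]
    exact pk_mul_left (zexp (X n)).2
      ((pkA p A (n + 2)).sub_mem h3 (zexp_sub_one_mem_pk h (hdiff n)))
  have h0 : ((u - zexp x : A) : R) = 0 := by
    refine zx_eq_zero h fun k => pk_anti (by omega) (hfin k)
  have h1 : u - zexp x = 0 := Subtype.ext h0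
  exact (sub_eq_zero.1 h1).symm

/-- PROOF. If `x - y ∈ p ^ j A` then the terms of order at least two of `zexp x` and `zexp y` differ by elements of
`p ^ (j + 1) A` (`zx_fact_sub`), so `x - y ∈ p ^ (j + 1) A` (`pk_closed`). `zx_eq_zero`. -/
theorem zexp_inj (h : IsTopologicallyNilpotent ((p : ℕ) : A)) {x y : A} (hx : (x : R) ∈ pk p A 2)
    (hy : (y : R) ∈ pk p A 2) (hxy : zexp x = zexp y) : x = y := by
  have hstep : ∀ j, x - y ∈ pkA p A j := by
    intro j
    induction j with
    | zero => exact pk_zero.2 (x - y).2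
    | succ j ih =>
      have hs : HasSum (fun m => zterm x m - zterm y m) (zexp x - zexp y) :=
        (zexp_hasSum h hx).sub (zexp_hasSum h hy)
      have h1 := hasSum_sub_mem hs (pkA p A (j + 1)) (isClosed_pkA _) 2 (fun m hm => by
        obtain ⟨i, rfl⟩ : ∃ i, m = i + 2 := ⟨m - 2, by omega⟩
        rw [mem_pkA, AddSubgroupClass.coe_sub, zterm_coe h hx, zterm_coe h hy, ← smul_sub]
        refine zx_fact_sub h hx hy ?_
        have := ih
        rwa [mem_pkA, AddSubgroupClass.coe_sub] at this)
      have hx1 : zterm x 1 = x := by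
        apply Subtype.ext
        rw [zterm_coe h hx]
        simp
      have hy1 : zterm y 1 = y := by
        apply Subtype.ext
        rw [zterm_coe h hy]
        simp
      rw [Finset.sum_range_succ, Finset.sum_range_one, zterm_zero_right, zterm_zero_right, hx1, hy1,
        hxy, sub_self, sub_self, zero_add, zero_sub] at h1
      have h2 := neg_mem h1
      rwa [neg_neg] at h2
  have h0 : ((x - y : A) : R) = 0 := zx_eq_zero h fun k => hstep k
  have h1 : x - y = 0 := Subtype.ext h0
  exact sub_eq_zero.1 h1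

/-- PROOF. Conjugation is a continuous automorphism of `A` (or `zexp_map` below). -/
theorem zexp_conj (h : IsTopologicallyNilpotent ((p : ℕ) : A)) {x : A} (hx : (x : R) ∈ pk p A 2)
    {u v : A} (huv : u * v = 1) (hvu : v * u = 1) : zexp (u * x * v) = u * zexp x * v := by
  have huv' : (u : R) * v = 1 := by
    have := congrArg (Subtype.val : A → R) huv
    simpa using this
  have hvu' : (v : R) * u = 1 := by
    have := congrArg (Subtype.val : A → R) hvu
    simpa using this
  have hx' : ((u * x * v : A) : R) ∈ pk p A 2 := by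
    rw [MulMemClass.coe_mul, MulMemClass.coe_mul]
    exact pk_mul_right (pk_mul_left u.2 hx) v.2
  have h1 : HasSum (fun k => u * zterm x k * v) (u * zexp x * v) :=
    ((zexp_hasSum h hx).mul_left u).mul_right v
  have h2 : (fun k => u * zterm x k * v) = zterm (u * x * v) := by
    funext k
    apply Subtype.ext
    rw [zterm_coe h hx', MulMemClass.coe_mul, MulMemClass.coe_mul, zterm_coe h hx,
      MulMemClass.coe_mul, MulMemClass.coe_mul, mul_smul_comm, smul_mul_assoc]
    congr 1
    induction k with
    | zero => rw [pow_zero, pow_zero, mul_one, huv']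
    | succ k ih =>
      rw [pow_succ, pow_succ, ← ih]
      have e : (u : R) * (x : R) ^ k * v * (u * x * v) = u * (x : R) ^ k * (v * u) * x * v := by
        simp only [mul_assoc]
      rw [e, hvu', mul_one]
      simp only [mul_assoc]
  rw [h2] at h1
  exact (zexp_hasSum h hx').unique h1

end

section

variable {p : ℕ} [hp : Fact p.Prime] {R : Type u} [Ring R] [Algebra ℚ R]
  {S : Type v} [SetLike S R] [SubringClass S R] {A : S} [TopologicalSpace A] [NonarchimedeanRing A]
  [CompactSpace A] [T2Space A] {R' : Type u'} [Ring R'] [Algebra ℚ R']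
  {S' : Type v'} [SetLike S' R'] [SubringClass S' R'] {B : S'} [TopologicalSpace B]
  [NonarchimedeanRing B] [CompactSpace B] [T2Space B]

/-- PROOF. `k! * f (zterm x k) = f x ^ k`, so `f (zterm x k) = zterm (f x) k`; `HasSum.map`. -/
theorem zexp_map (h : IsTopologicallyNilpotent ((p : ℕ) : A)) (f : A →+* B) (hf : Continuous f)
    {x : A} (hx : (x : R) ∈ pk p A 2) : f (zexp x) = zexp (f x) := by
  have hterm : ∀ k, f (zterm x k) = zterm (f x) k := by
    intro k
    have h0 : (k.factorial : ℚ) ≠ 0 := by exact_mod_cast Nat.factorial_ne_zero k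
    have h1 : (k.factorial : A) * zterm x k = x ^ k := by
      apply Subtype.ext
      rw [MulMemClass.coe_mul, zterm_coe h hx]
      have e1 : ((k.factorial : A) : R) = (k.factorial : R) := by simp
      have e2 : ((x ^ k : A) : R) = (x : R) ^ k := by simp
      rw [e1, e2, ← nsmul_eq_mul, ← Nat.cast_smul_eq_nsmul ℚ, smul_smul, mul_inv_cancel₀ h0,
        one_smul]
    have h2 := congrArg f h1
    rw [map_mul, map_natCast, map_pow] at h2
    have h3 : ((f (zterm x k) : B) : R') = (k.factorial : ℚ)⁻¹ • ((f x : B) : R') ^ k := by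
      have h4 := congrArg (Subtype.val : B → R') h2
      have e1 : (((k.factorial : B) * f (zterm x k) : B) : R')
          = (k.factorial : R') * ((f (zterm x k) : B) : R') := by simp
      have e2 : ((f x ^ k : B) : R') = ((f x : B) : R') ^ k := by simp
      rw [e1, e2] at h4
      rw [← h4, ← nsmul_eq_mul, ← Nat.cast_smul_eq_nsmul ℚ, smul_smul, inv_mul_cancel₀ h0, one_smul]
    have hmem : (k.factorial : ℚ)⁻¹ • ((f x : B) : R') ^ k ∈ B := by
      rw [← h3]
      exact (f (zterm x k)).2
    have h5 : zterm (f x) k = ⟨_, hmem⟩ := dif_pos hmem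
    rw [h5]
    exact Subtype.ext h3
  have h1 : HasSum (fun k => f (zterm x k)) (f (zexp x)) := (zexp_hasSum h hx).map f hf
  simp only [hterm] at h1
  exact h1.tsum_eq.symm

end

end MP35
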