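import Mathlib
import Pool.Agent.Lib_MP_3538b5_al.GHom

/-! # Homomorphisms of the free subgroup `cl2 a b` to the units of a compact ring -/

set_option autoImplicit false
set_option linter.unusedSectionVars false

namespace MP35

open Filter Topology

universe u v w

section

variable {B : Type w} [Ring B] [TopologicalSpace B] [IsTopologicalRing B] [CompactSpace B]
  [T2Space B] [TotallyDisconnectedSpace B]

/-- a closed two-sided ideal `I` such that `(1 + x) ^ (p ^ k) → 1` for all `x ∈ I` -/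
structure PIdeal (p : ℕ) (I : Set B) : Prop where
  closed : IsClosed I
  zero : (0 : B) ∈ I
  add : ∀ x ∈ I, ∀ y ∈ I, x + y ∈ I
  neg : ∀ x ∈ I, -x ∈ I
  left : ∀ b : B, ∀ x ∈ I, b * x ∈ I
  right : ∀ x ∈ I, ∀ b : B, x * b ∈ I
  pow : ∀ x ∈ I, Tendsto (fun k : ℕ => (1 + x) ^ (p ^ k)) atTop (𝓝 1)

/-- the group `1 + I` -/
def PIdeal.grp {p : ℕ} {I : Set B} (h : PIdeal p I) : Subgroup Bˣ where
  carrier := {u | (u : B) - 1 ∈ I}
  one_mem' := by simpa using h.zero
  mul_mem' := by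
    intro u v hu hv
    have e : ((u * v : Bˣ) : B) - 1 = (u : B) * ((v : B) - 1) + ((u : B) - 1) := by
      rw [Units.val_mul]; noncomm_ring
    show ((u * v : Bˣ) : B) - 1 ∈ I
    rw [e]
    exact h.add _ (h.left _ _ hv) _ hu
  inv_mem' := by
    intro u hu
    show ((u⁻¹ : Bˣ) : B) - 1 ∈ I
    have e : ((u⁻¹ : Bˣ) : B) - 1 = -(((u⁻¹ : Bˣ) : B) * ((u : B) - 1)) := by
      rw [mul_sub, Units.inv_mul]; simp
    rw [e]
    exact h.neg _ (h.left _ _ hu)

theorem PIdeal.mem_grp {p : ℕ} {I : Set B} (h : PIdeal p I) {u : Bˣ} :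
    u ∈ h.grp ↔ (u : B) - 1 ∈ I := Iff.rfl

theorem PIdeal.grp_closed {p : ℕ} {I : Set B} (h : PIdeal p I) : IsClosed (h.grp : Set Bˣ) := by
  have : (h.grp : Set Bˣ) = (fun u : Bˣ => (u : B) - 1) ⁻¹' I := rfl
  rw [this]
  exact h.closed.preimage (Units.continuous_val.sub continuous_const)

omit [TotallyDisconnectedSpace B] in
/-- `1 + x` is a unit for `x ∈ I` -/
theorem PIdeal.exists_unit {p : ℕ} [hp : Fact p.Prime] {I : Set B} (h : PIdeal p I) {x : B}
    (hx : x ∈ I) : ∃ u : Bˣ, (u : B) = 1 + x := by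
  have h1 : Tendsto (fun k : ℕ => (1 + x) ^ (p ^ k)) atTop (𝓝 1) := h.pow x hx
  have hp' : ∀ k : ℕ, 0 < p ^ k := fun k => pow_pos hp.out.pos k
  obtain ⟨y, -, hy⟩ := isCompact_univ.exists_mapClusterPt (f := atTop)
    (u := fun k : ℕ => (1 + x) ^ (p ^ k - 1)) (by simp)
  have h2 : (1 + x) * y = 1 := by
    have hc : MapClusterPt ((1 + x) * y) atTop (fun k : ℕ => (1 + x) * (1 + x) ^ (p ^ k - 1)) :=
      hy.continuousAt_comp (continuous_const.mul continuous_id).continuousAt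
    have he : (fun k : ℕ => (1 + x) * (1 + x) ^ (p ^ k - 1)) = fun k : ℕ => (1 + x) ^ (p ^ k) := by
      funext k
      rw [← pow_succ', Nat.sub_add_cancel (hp' k)]
    rw [he] at hc
    exact eq_of_nhds_neBot (ClusterPt.mono hc h1)
  have h3 : y * (1 + x) = 1 := by
    have hc : MapClusterPt (y * (1 + x)) atTop (fun k : ℕ => (1 + x) ^ (p ^ k - 1) * (1 + x)) :=
      hy.continuousAt_comp (continuous_id.mul continuous_const).continuousAt
    have he : (fun k : ℕ => (1 + x) ^ (p ^ k - 1) * (1 + x)) = fun k : ℕ => (1 + x) ^ (p ^ k) := by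
      funext k
      rw [← pow_succ, Nat.sub_add_cancel (hp' k)]
    rw [he] at hc
    exact eq_of_nhds_neBot (ClusterPt.mono hc h1)
  exact ⟨⟨1 + x, y, h2, h3⟩, rfl⟩

omit [CompactSpace B] [T2Space B] [TotallyDisconnectedSpace B] in
/-- powers of units -/
theorem PIdeal.pow_unit {p : ℕ} {I : Set B} (h : PIdeal p I) {u : Bˣ} (hu : u ∈ h.grp) :
    Tendsto (fun k : ℕ => u ^ (p ^ k)) atTop (𝓝 1) := by
  rw [Units.isInducing_embedProduct.tendsto_nhds_iff]
  have h1 : Tendsto (fun k : ℕ => ((u ^ (p ^ k) : Bˣ) : B)) atTop (𝓝 1) := by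
    have := h.pow _ hu
    simpa using this
  have h2 : Tendsto (fun k : ℕ => (((u ^ (p ^ k))⁻¹ : Bˣ) : B)) atTop (𝓝 1) := by
    have := h.pow _ (h.grp.inv_mem hu)
    simpa using this
  have h3 := h1.prodMk_nhds ((MulOpposite.continuous_op.tendsto (1 : B)).comp h2)
  simpa [Function.comp_def, Units.embedProduct_apply] using h3

theorem PIdeal.proP {p : ℕ} {I : Set B} (h : PIdeal p I) : ProP p h.grp := by
  intro N _ hN g
  have h1 : Tendsto (fun k : ℕ => g ^ (p ^ k)) atTop (𝓝 1) := by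
    rw [tendsto_subtype_rng]
    simpa using h.pow_unit g.2
  have h2 := h1 (hN.mem_nhds (show (1 : h.grp) ∈ (N : Set h.grp) from N.one_mem))
  exact (Filter.eventually_atTop.1 h2).imp fun k hk => hk k le_rfl

/-- homomorphisms from the free group `cl2 a b` to `1 + I` -/
theorem exists_hom_units {p : ℕ} [hp : Fact p.Prime] {G : Type u} [Group G] [TopologicalSpace G]
    [IsTopologicalGroup G] [CompactSpace G] [T2Space G] [TotallyDisconnectedSpace G]
    (hP : ProP p G) (hL : LiftP p G) {a b : G} (hab : a * b ≠ b * a) {I : Set B}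
    (h : PIdeal p I) {x y : B} (hx : x ∈ I) (hy : y ∈ I) :
    ∃ φ : cl2 a b →* B, Continuous φ ∧ φ ⟨a, left_mem_cl2 a b⟩ = 1 + x ∧
      φ ⟨b, right_mem_cl2 a b⟩ = 1 + y ∧ ∀ k, φ k - 1 ∈ I := by
  obtain ⟨u, hu⟩ := h.exists_unit hx
  obtain ⟨v, hv⟩ := h.exists_unit hy
  have hu' : u ∈ h.grp := by rw [h.mem_grp, hu]; simpa using hx
  have hv' : v ∈ h.grp := by rw [h.mem_grp, hv]; simpa using hy
  have hc : CompactSpace h.grp := isCompact_iff_compactSpace.1 h.grp_closed.isCompact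
  have htd : TotallyDisconnectedSpace Bˣ := by
    have hop : TotallyDisconnectedSpace Bᵐᵒᵖ :=
      (MulOpposite.opHomeomorph (M := B)).symm.isEmbedding.isTotallyDisconnected_range.1
        (isTotallyDisconnected_of_totallyDisconnectedSpace _)
    exact (Units.isEmbedding_embedProduct (M := B)).isTotallyDisconnected_range.1
      (isTotallyDisconnected_of_totallyDisconnectedSpace _)
  obtain ⟨φ, h1, h2, h3⟩ := hom2 hP hL hab h.proP ⟨u, hu'⟩ ⟨v, hv'⟩
  refine ⟨(Units.coeHom B).comp (h.grp.subtype.comp φ), ?_, ?_, ?_, fun k => (φ k).2⟩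
  · exact Units.continuous_val.comp (continuous_subtype_val.comp h1)
  · simp [h2, hu]
  · simp [h3, hv]

end

end MP35
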