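import Pool.Agent.Lib_MP_3538b5_al.ZLog
import Pool.Agent.Lib_MP_3538b5_al.ZCoef
import Pool.Agent.Lib_MP_3538b5_al.RSpan
import Pool.Agent.Lib_MP_3538b5_al.FDefs

/-! # The Lie algebra of a subgroup in characteristic zero -/

set_option autoImplicit false
set_option linter.unusedSectionVars false

namespace MP35

open Filter Topology

universe u v w

namespace Rep

variable {p : ℕ} [hp : Fact p.Prime] {G : Type u} [Group G] [TopologicalSpace G] {T : Type v}
  [CommRing T] [TopologicalSpace T] [CNR T] {Ω : Type v} [Field Ω] [CharZero Ω] [Algebra T Ω]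
  {n : ℕ} (R : Rep p G T Ω n)

/-- the span of the logarithms of the elements of `H` -/
def lie (H : Subgroup G) : Submodule Ω (Matrix (Fin n) (Fin n) Ω) :=
  Submodule.span Ω {x | ∃ g ∈ H, R.Lg g x}

variable {R}

theorem Lg.mem_lie {H : Subgroup G} {g : G} (hg : g ∈ H) {x : Matrix (Fin n) (Fin n) Ω}
    (h : R.Lg g x) : x ∈ R.lie H := Submodule.subset_span ⟨g, hg, h⟩

theorem lie_conj {H : Subgroup G} (hH : H.Normal) (a : G) {x : Matrix (Fin n) (Fin n) Ω}
    (hx : x ∈ R.lie H) : R.ρ a * x * R.ρ a⁻¹ ∈ R.lie H := by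
  refine Submodule.span_induction (p := fun x _ => R.ρ a * x * R.ρ a⁻¹ ∈ R.lie H) ?_ ?_ ?_ ?_ hx
  · rintro x ⟨g, hg, h⟩
    exact (h.conj a).mem_lie (hH.conj_mem g hg a)
  · rw [mul_zero, zero_mul]
    exact zero_mem _
  · intro x y _ _ hx hy
    rw [mul_add, add_mul]
    exact add_mem hx hy
  · intro c x _ hx
    rw [mul_smul_comm, smul_mul_assoc]
    exact Submodule.smul_mem _ _ hx

omit [CharZero Ω] hp in
/-- subspaces are closed -/
theorem mem_of_approx (U : Submodule Ω (Matrix (Fin n) (Fin n) Ω)) {x : R.A}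
    (h : ∀ k : ℕ, ∃ w : R.A, ((x + ((p : ℕ) : R.A) ^ k * w : R.A) : Matrix (Fin n) (Fin n) Ω) ∈ U) :
    (x : Matrix (Fin n) (Fin n) Ω) ∈ U := by
  let V : Submodule T R.A := (U.restrictScalars T).comap R.A.val.toLinearMap
  have hV : ∀ y : R.A, y ∈ V ↔ (y : Matrix (Fin n) (Fin n) Ω) ∈ U := fun y => Iff.rfl
  have hc : IsClosed (V : Set R.A) := isClosed_submodule V
  rw [← hV]
  change x ∈ (V : Set R.A)
  rw [← hc.closure_eq, mem_closure_iff_nhds]
  intro W hW
  have hW' : (fun z : R.A => x + z) ⁻¹' W ∈ 𝓝 (0 : R.A) := by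
    have hc : Continuous fun z : R.A => x + z := by fun_prop
    apply hc.continuousAt.preimage_mem_nhds
    rwa [add_zero]
  obtain ⟨k, hk⟩ := zx_small (p := p) R.pnilA hW'
  obtain ⟨w, hw⟩ := h k
  exact ⟨_, hk k le_rfl w, hw⟩

theorem coe_ppow_mul (k : ℕ) (a : Matrix (Fin n) (Fin n) Ω) :
    ((((p : ℕ) : R.A) ^ k : R.A) : Matrix (Fin n) (Fin n) Ω) * a = ((p : Ω) ^ k) • a := by
  have e2 : ((((p : ℕ) : R.A) ^ k : R.A) : Matrix (Fin n) (Fin n) Ω)
      = (((p : ℕ) : Matrix (Fin n) (Fin n) Ω)) ^ k := by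
    push_cast
    rfl
  rw [e2, ← smul_one_mul ((p : Ω) ^ k)]
  congr 1
  rw [← one_pow (M := Matrix (Fin n) (Fin n) Ω) k, ← smul_pow]
  congr 1
  rw [← nsmul_one, ← Nat.cast_smul_eq_nsmul Ω]

/-- an algebraic identity -/
theorem bracket_aux {M : Type w} [Ring M] [Algebra Ω M] (q : Ω) {P u X Y z : M}
    (hP : P = 1 + q • X + q ^ 2 • z) (hu : P * u = 1) :
    q • (X * Y - Y * X + q • ((z * Y - Y * z) * u - (X * Y - Y * X) * (X + q • z) * u))
      = P * Y * u - Y := by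
  have h1 : P * Y - Y * P = q • (X * Y - Y * X) + q ^ 2 • (z * Y - Y * z) := by
    rw [hP]
    simp only [add_mul, mul_add, one_mul, mul_one, smul_mul_assoc, mul_smul_comm, smul_sub]
    abel
  have h2 : (X * Y - Y * X) * u
      = (X * Y - Y * X) - q • ((X * Y - Y * X) * (X + q • z) * u) := by
    have h3 : (X * Y - Y * X) * (P * u) = (X * Y - Y * X) := by rw [hu, mul_one]
    rw [hP] at h3
    have h4 : (X * Y - Y * X) * ((1 + q • X + q ^ 2 • z) * u)
        = (X * Y - Y * X) * u + q • ((X * Y - Y * X) * (X + q • z) * u) := by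
      simp only [add_mul, mul_add, one_mul, smul_mul_assoc, mul_smul_comm, smul_add, smul_smul,
        mul_assoc, sq, add_assoc]
    rw [h4] at h3
    exact eq_sub_of_add_eq h3
  have h5 : P * Y * u - Y = (P * Y - Y * P) * u := by
    rw [sub_mul, mul_assoc Y, hu, mul_one]
  rw [h5, h1, add_mul, smul_mul_assoc, smul_mul_assoc, h2]
  simp only [smul_add, smul_sub, smul_smul, sq]
  abel

/-- the bracket of two logarithms -/
theorem Lg.bracket {H : Subgroup G} {g h : G} (hg : g ∈ H) (hh : h ∈ H)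
    {x y : Matrix (Fin n) (Fin n) Ω} (hx : R.Lg g x) (hy : R.Lg h y) :
    x * y - y * x ∈ R.lie H := by
  obtain ⟨x', hx'⟩ := hx.mem
  obtain ⟨y', hy'⟩ := hy.mem
  have hx1 : (((p : T) ^ 2 • x' : R.A) : Matrix (Fin n) (Fin n) Ω) = x := hx'.symm
  have hy1 : (((p : T) ^ 2 • y' : R.A) : Matrix (Fin n) (Fin n) Ω) = y := hy'.symm
  set X : R.A := (p : T) ^ 2 • x' with hX
  set Y : R.A := (p : T) ^ 2 • y' with hY
  have key : ((X * Y - Y * X : R.A) : Matrix (Fin n) (Fin n) Ω) ∈ R.lie H := by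
    refine mem_of_approx _ fun k => ?_
    obtain ⟨z, hz⟩ := hx.approx k
    -- `(Ad (g ^ p ^ k) - 1) y` is in the span
    have h1 : R.ρ (g ^ p ^ k) * y * R.ρ (g ^ p ^ k)⁻¹ - y ∈ R.lie H :=
      sub_mem ((hy.conj _).mem_lie (H.mul_mem (H.mul_mem (H.pow_mem hg _) hh) (H.inv_mem (H.pow_mem hg _))))
        (hy.mem_lie hh)
    set u : R.A := R.j (g ^ p ^ k)⁻¹ with hu
    have hu1 : (u : Matrix (Fin n) (Fin n) Ω) = R.ρ (g ^ p ^ k)⁻¹ := rfl
    have hgu : R.ρ (g ^ p ^ k) * (u : Matrix (Fin n) (Fin n) Ω) = 1 := by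
      rw [hu1, ← map_mul, mul_inv_cancel, map_one]
    -- `p ^ k` times the bracket
    refine ⟨(z * Y - Y * z) * u - (X * Y - Y * X) * (X + ((p : ℕ) : R.A) ^ k * z) * u, ?_⟩
    have hp0 : ((p : Ω) ^ k) ≠ 0 := pow_ne_zero _ (Nat.cast_ne_zero.2 hp.out.ne_zero)
    have h2 : ((X * Y - Y * X + ((p : ℕ) : R.A) ^ k * ((z * Y - Y * z) * u
        - (X * Y - Y * X) * (X + ((p : ℕ) : R.A) ^ k * z) * u) : R.A) : Matrix (Fin n) (Fin n) Ω)
        = ((p : Ω) ^ k)⁻¹ • (R.ρ (g ^ p ^ k) * y * R.ρ (g ^ p ^ k)⁻¹ - y) := by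
      rw [eq_inv_smul_iff₀ hp0, ← hu1]
      have h3 := bracket_aux (Ω := Ω) ((p : Ω) ^ k) (P := R.ρ (g ^ p ^ k))
        (u := (u : Matrix (Fin n) (Fin n) Ω)) (X := (X : Matrix (Fin n) (Fin n) Ω)) (Y := y)
        (z := (z : Matrix (Fin n) (Fin n) Ω)) (by rw [hz, hx1, ← pow_mul, mul_comm k 2]) hgu
      rw [← h3]
      congr 1
      simp only [Subalgebra.coe_add, Subalgebra.coe_sub, Subalgebra.coe_mul, coe_ppow_mul]
      rw [hy1]
    rw [h2]
    exact Submodule.smul_mem _ _ h1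
  have e : ((X * Y - Y * X : R.A) : Matrix (Fin n) (Fin n) Ω) = x * y - y * x := by
    rw [← hx1, ← hy1]
    rfl
  rwa [e] at key

theorem lie_bracket {H : Subgroup G} {x y : Matrix (Fin n) (Fin n) Ω} (hx : x ∈ R.lie H)
    (hy : y ∈ R.lie H) : x * y - y * x ∈ R.lie H := by
  refine Submodule.span_induction (p := fun x _ => x * y - y * x ∈ R.lie H) ?_ ?_ ?_ ?_ hx
  · rintro x ⟨g, hg, h⟩
    refine Submodule.span_induction (p := fun y _ => x * y - y * x ∈ R.lie H) ?_ ?_ ?_ ?_ hy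
    · rintro y ⟨g', hg', h'⟩
      exact h.bracket hg hg' h'
    · rw [mul_zero, zero_mul, sub_zero]
      exact zero_mem _
    · intro a b _ _ ha hb
      have e : x * (a + b) - (a + b) * x = (x * a - a * x) + (x * b - b * x) := by noncomm_ring
      rw [e]
      exact add_mem ha hb
    · intro c a _ ha
      rw [mul_smul_comm, smul_mul_assoc, ← smul_sub]
      exact Submodule.smul_mem _ _ ha
  · rw [mul_zero, zero_mul, sub_zero]
    exact zero_mem _
  · intro a b _ _ ha hb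
    have e : (a + b) * y - y * (a + b) = (a * y - y * a) + (b * y - y * b) := by noncomm_ring
    rw [e]
    exact add_mem ha hb
  · intro c a _ ha
    rw [mul_smul_comm, smul_mul_assoc, ← smul_sub]
    exact Submodule.smul_mem _ _ ha

end Rep

end MP35
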