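import Pool.Agent.Lib_MP_3538b5_al.ZExpA
import Pool.Agent.Lib_MP_3538b5_al.ZBase
import Pool.Agent.Lib_MP_3538b5_al.ZHom

/-! # Logarithms of group elements in characteristic zero

`R.Lg g x`: the matrix `x` is in `p ^ 2 A` and its exponential is `ρ g`. -/

set_option autoImplicit false

namespace MP35

open Filter Topology

universe u v w

/-- PROOF. `T` has a basis of neighbourhoods of `0` consisting of (open) ideals `I`; the `I • ⊤`, `I` an open ideal, are open subgroups of `A` and a basis of neighbourhoods of `0` in `A` (see the proof of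
`cnr_of_finite` in RTopo.lean for the same argument: the map `T ^ r → A` is an open quotient map, `IsModuleTopology.isOpenQuotientMap_of_surjective`). -/
theorem nonarch_of_finite (T : Type v) [CommRing T] [TopologicalSpace T] [CNR T] (A : Type w)
    [Ring A] [Algebra T A] [Module.Finite T A] [TopologicalSpace A] [IsModuleTopology T A] :
    NonarchimedeanRing A := by
  have h3 : IsTopologicalRing A := IsModuleTopology.isTopologicalRing T A
  refine { toIsTopologicalRing := h3, is_nonarchimedean := fun U hU => ?_ }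
  obtain ⟨n, f, hf⟩ := Module.Finite.exists_fin' T A
  have hq := IsModuleTopology.isOpenQuotientMap_of_surjective hf
  have h0 : f ⁻¹' U ∈ nhds (0 : Fin n → T) := by
    apply hq.continuous.continuousAt.preimage_mem_nhds
    rwa [map_zero]
  rw [nhds_pi, Filter.mem_pi'] at h0
  obtain ⟨s, V, hV, hVU⟩ := h0
  have hI : ∀ i : Fin n, ∃ I : Ideal T, (I : Set T) ∈ nhds (0 : T) ∧ (I : Set T) ⊆ V i := by
    intro i
    obtain ⟨I, hI, hIV⟩ := (IsLinearTopology.hasBasis_ideal (R := T)).mem_iff.1 (hV i)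
    exact ⟨I, hI, hIV⟩
  choose I hI hIV using hI
  let J : AddSubgroup (Fin n → T) :=
    { carrier := {c | ∀ i, c i ∈ I i}
      zero_mem' := fun i => (I i).zero_mem
      add_mem' := fun ha hb i => (I i).add_mem (ha i) (hb i)
      neg_mem' := fun ha i => (I i).neg_mem (ha i) }
  have hJ : (J : Set (Fin n → T)) ∈ nhds (0 : Fin n → T) := by
    have : (J : Set (Fin n → T)) = Set.univ.pi fun i => (I i : Set T) := by
      ext c
      simp [J]
    rw [this]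
    exact set_pi_mem_nhds Set.finite_univ fun i _ => hI i
  have hJo : IsOpen (J : Set (Fin n → T)) := J.isOpen_of_mem_nhds hJ
  refine ⟨{ toAddSubgroup := J.map f.toAddMonoidHom, isOpen' := hq.isOpenMap _ hJo }, ?_⟩
  rintro _ ⟨c, hc, rfl⟩
  exact hVU fun i _ => hIV i (hc i)

namespace Rep

variable {p : ℕ} [hp : Fact p.Prime] {G : Type u} [Group G] [TopologicalSpace G] {T : Type v}
  [CommRing T] [TopologicalSpace T] [CNR T] {Ω : Type v} [Field Ω] [CharZero Ω] [Algebra T Ω]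
  {n : ℕ} (R : Rep p G T Ω n)

instance nonarchA : NonarchimedeanRing R.A := nonarch_of_finite T R.A

omit hp [CharZero Ω] in
theorem pnilA : IsTopologicallyNilpotent ((p : ℕ) : R.A) := by
  have hc : Continuous (algebraMap T R.A) :=
    IsModuleTopology.continuous_of_linearMap (Algebra.linearMap T R.A)
  have := R.pnil.map (φ := algebraMap T R.A) hc
  rwa [map_natCast] at this

/-- `x` is the logarithm of `g` -/
def Lg (g : G) (x : Matrix (Fin n) (Fin n) Ω) : Prop :=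
  ∃ y : R.A, (y : Matrix (Fin n) (Fin n) Ω) = x ∧ (y : Matrix (Fin n) (Fin n) Ω) ∈ pk p R.A 2 ∧
    zexp y = R.j g

omit hp [CharZero Ω] in
/-- PROOF. `y ∈ pk p R.A 2` means `y = p ^ 2 * a` with `a ∈ R.A`, i.e. `y = (p ^ 2 : T) • a`. -/
theorem mem_pk_iff {y : R.A} {k : ℕ} : (y : Matrix (Fin n) (Fin n) Ω) ∈ pk p R.A k ↔
    ∃ a : R.A, y = ((p : T) ^ k) • a := by
  have key : ∀ M : Matrix (Fin n) (Fin n) Ω, ((p : T) ^ k) • M
      = (p : Matrix (Fin n) (Fin n) Ω) ^ k * M := by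
    intro M
    rw [Algebra.smul_def, map_pow, map_natCast]
  constructor
  · rintro ⟨a, ha, h⟩
    exact ⟨⟨a, ha⟩, Subtype.ext (h.trans (key a).symm)⟩
  · rintro ⟨a, rfl⟩
    exact ⟨a, a.2, key a⟩

private theorem mul_pow_two_mul_aux (p : ℕ) {T : Type v} [CommRing T] {d c : T} {i : ℕ}
    (hc : d = (p : T) ^ 2 * c) : (p : T) ^ (2 * i) * c ^ i = d ^ i := by
  rw [hc, mul_pow, ← pow_mul]

omit hp [CharZero Ω] in
private theorem smul_mem_pk {d : T} (hd : (p : T) ^ 2 ∣ d) (z : R.A) :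
    ((d • z : R.A) : Matrix (Fin n) (Fin n) Ω) ∈ pk p R.A 2 := by
  obtain ⟨c, rfl⟩ := hd
  exact (R.mem_pk_iff).2 ⟨c • z, by rw [smul_smul]⟩

/-- terms of the exponential series of multiples of `d` -/
private theorem zterm_smul {d e b : T} (z : R.A) {m k : ℕ} (hd : (p : T) ^ 2 ∣ d)
    (hm : d ^ m = e * ((p : T) ^ k * b)) (hk : padicValNat p m.factorial ≤ k) :
    ∃ w : R.A, zterm (d • z) m = e • w := by
  have h1 : ((((p : T) ^ k * b) • z ^ m : R.A) : Matrix (Fin n) (Fin n) Ω) ∈ pk p R.A k :=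
    (R.mem_pk_iff).2 ⟨b • z ^ m, by rw [smul_smul]⟩
  have h2 : (m.factorial : ℚ)⁻¹ • ((((p : T) ^ k * b) • z ^ m : R.A) : Matrix (Fin n) (Fin n) Ω)
      ∈ R.A := pk_le (zx_div (k := 0) R.pnilA (Nat.factorial_ne_zero m) (pk_anti (by omega) h1))
  refine ⟨⟨_, h2⟩, ?_⟩
  apply Subtype.ext
  rw [zterm_coe R.pnilA (R.smul_mem_pk hd z)]
  change (m.factorial : ℚ)⁻¹ • (d • (z : Matrix (Fin n) (Fin n) Ω)) ^ m
    = e • ((m.factorial : ℚ)⁻¹ • (((p : T) ^ k * b) • (z : Matrix (Fin n) (Fin n) Ω) ^ m))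
  rw [smul_pow, hm, Algebra.smul_def e, mul_smul_comm, ← Algebra.smul_def, mul_smul]

/-- the multiples of `d` -/
private def mulSub (d : T) : AddSubgroup R.A where
  carrier := Set.range fun z : R.A => d • z
  zero_mem' := ⟨0, smul_zero d⟩
  add_mem' := by
    rintro _ _ ⟨a, rfl⟩ ⟨b, rfl⟩
    exact ⟨a + b, smul_add d a b⟩
  neg_mem' := by
    rintro _ ⟨a, rfl⟩
    exact ⟨-a, smul_neg d a⟩

omit hp [CharZero Ω] in
private theorem mem_mulSub {d : T} {x : R.A} : x ∈ R.mulSub d ↔ ∃ z : R.A, d • z = x := Iff.rfl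

omit hp [CharZero Ω] in
private theorem mulSub_closed (d : T) : IsClosed (R.mulSub d : Set R.A) := by
  have hc : Continuous fun z : R.A => d • z :=
    IsModuleTopology.continuous_of_linearMap (LinearMap.lsmul T R.A d)
  exact (isCompact_range hc).isClosed

private theorem zterm_mem_mulSub {d : T} (hd : (p : T) ^ 2 ∣ d) (z : R.A) {m : ℕ} (hm : 1 ≤ m) :
    zterm (d • z) m ∈ R.mulSub d := by
  obtain ⟨i, rfl⟩ : ∃ i, m = i + 1 := ⟨m - 1, by omega⟩
  obtain ⟨c, hc⟩ := id hd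
  obtain ⟨w, hw⟩ := R.zterm_smul (d := d) (e := d) (b := c ^ i) z (m := i + 1) (k := 2 * i) hd
    (by rw [pow_succ', mul_pow_two_mul_aux p hc]) (by
      have := padicValNat_factorial_le (p := p) i
      omega)
  exact ⟨w, hw.symm⟩

private theorem exists_zexp_smul {d : T} (hd : (p : T) ^ 2 ∣ d) {g : G}
    (hg : g ∈ R.NI (Ideal.span {d})) : ∃ y : R.A, zexp (d • y) = R.j g := by
  obtain ⟨x, hx⟩ := R.mem_NI_span.1 hg
  obtain ⟨_, ⟨y, rfl⟩, hy⟩ := exists_zlog R.pnilA (R.mulSub d) (R.mulSub_closed d)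
    (by rintro _ ⟨z, rfl⟩; exact R.smul_mem_pk hd z)
    (by rintro _ ⟨z, rfl⟩ m hm; exact R.zterm_mem_mulSub hd z hm) (u := R.j g)
    ⟨x, by rw [hx]; simp⟩
  exact ⟨y, hy⟩

private theorem zterm_zero' {y : R.A} (hy : (y : Matrix (Fin n) (Fin n) Ω) ∈ pk p R.A 2) :
    zterm y 0 = 1 := by
  apply Subtype.ext
  rw [zterm_coe R.pnilA hy]
  simp

private theorem zterm_one' {y : R.A} (hy : (y : Matrix (Fin n) (Fin n) Ω) ∈ pk p R.A 2) :
    zterm y 1 = y := by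
  apply Subtype.ext
  rw [zterm_coe R.pnilA hy]
  simp

variable {R}

/-- the elements of `A` in the subalgebra `W` -/
private def subW (R : Rep p G T Ω n) (W : Subalgebra Ω (Matrix (Fin n) (Fin n) Ω)) :
    Submodule T R.A where
  carrier := {a | (a : Matrix (Fin n) (Fin n) Ω) ∈ W}
  zero_mem' := W.zero_mem
  add_mem' ha hb := W.add_mem ha hb
  smul_mem' t a ha := by
    change t • (a : Matrix (Fin n) (Fin n) Ω) ∈ W
    rw [← algebraMap_smul Ω t (a : Matrix (Fin n) (Fin n) Ω)]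
    exact W.smul_mem ha _

omit hp [CharZero Ω] in
private theorem mem_subW {W : Subalgebra Ω (Matrix (Fin n) (Fin n) Ω)} {a : R.A} :
    a ∈ R.subW W ↔ (a : Matrix (Fin n) (Fin n) Ω) ∈ W := Iff.rfl

private theorem zterm_mem_subW (R : Rep p G T Ω n) {y : R.A}
    (hy : (y : Matrix (Fin n) (Fin n) Ω) ∈ pk p R.A 2)
    (W : Subalgebra Ω (Matrix (Fin n) (Fin n) Ω)) (hyW : (y : Matrix (Fin n) (Fin n) Ω) ∈ W)
    (m : ℕ) : zterm y m ∈ R.subW W := by
  rw [mem_subW, zterm_coe R.pnilA hy]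
  have : (m.factorial : ℚ)⁻¹ • (y : Matrix (Fin n) (Fin n) Ω) ^ m
      = (((m.factorial : ℚ)⁻¹ : ℚ) : Ω) • (y : Matrix (Fin n) (Fin n) Ω) ^ m := by
    rw [Rat.cast_smul_eq_qsmul]
  rw [this]
  exact W.smul_mem (W.pow_mem hyW m) _

/-- PROOF. `zexp_inj`. -/
theorem Lg.unique {g : G} {x y : Matrix (Fin n) (Fin n) Ω} (hx : R.Lg g x) (hy : R.Lg g y) :
    x = y := by
  obtain ⟨a, rfl, ha, ea⟩ := hx
  obtain ⟨b, rfl, hb, eb⟩ := hy
  exact congrArg Subtype.val (zexp_inj R.pnilA ha hb (ea.trans eb.symm))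

/-- PROOF. `exists_zlog` with `W = p ^ 2 A` (closed by `pk_closed`; `zx_fact`). -/
theorem exists_Lg {g : G} (hg : g ∈ R.NI (Ideal.span {(p : T) ^ 2})) : ∃ x, R.Lg g x := by
  obtain ⟨y, hy⟩ := R.exists_zexp_smul (dvd_refl _) hg
  exact ⟨_, _, rfl, R.smul_mem_pk (dvd_refl _) y, hy⟩

/-- PROOF. `zexp_sub_mem` with `N = 1`, `W = p ^ 2 A`. -/
theorem Lg.mem_NI {g : G} {x : Matrix (Fin n) (Fin n) Ω} (h : R.Lg g x) :
    g ∈ R.NI (Ideal.span {(p : T) ^ 2}) := by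
  obtain ⟨y, rfl, hy, e⟩ := h
  obtain ⟨z, rfl⟩ := (R.mem_pk_iff).1 hy
  have h1 := zexp_sub_mem R.pnilA hy (R.mulSub ((p : T) ^ 2)) (R.mulSub_closed _) 1
    (fun m hm => R.zterm_mem_mulSub (dvd_refl _) z hm)
  rw [Finset.sum_range_one, R.zterm_zero' hy, e] at h1
  obtain ⟨w, hw⟩ := h1
  exact R.mem_NI_span.2 ⟨w, by rw [show (p : T) ^ 2 • w = R.j g - 1 from hw]; abel⟩

theorem Lg.mem {g : G} {x : Matrix (Fin n) (Fin n) Ω} (h : R.Lg g x) :
    ∃ y : R.A, x = (((p : T) ^ 2 • y : R.A) : Matrix (Fin n) (Fin n) Ω) := by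
  obtain ⟨y, rfl, hy, -⟩ := h
  obtain ⟨z, rfl⟩ := (R.mem_pk_iff).1 hy
  exact ⟨z, rfl⟩

/-- PROOF. `zexp_zero`. -/
theorem Lg.one : R.Lg (1 : G) 0 := by
  refine ⟨0, rfl, ?_, ?_⟩
  · exact (pk p R.A 2).zero_mem
  · rw [zexp_zero, map_one]

/-- PROOF. `zexp_conj`. -/
theorem Lg.conj {g : G} {x : Matrix (Fin n) (Fin n) Ω} (h : R.Lg g x) (a : G) :
    R.Lg (a * g * a⁻¹) (R.ρ a * x * R.ρ a⁻¹) := by
  obtain ⟨y, rfl, hy, e⟩ := h
  refine ⟨R.j a * y * R.j a⁻¹, rfl, ?_, ?_⟩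
  · exact pk_mul_right (pk_mul_left (R.j a).2 hy) (R.j a⁻¹).2
  · rw [zexp_conj R.pnilA hy (by rw [← map_mul, mul_inv_cancel, map_one])
      (by rw [← map_mul, inv_mul_cancel, map_one]), e, map_mul, map_mul]

/-- PROOF. Induction with `zexp_add`. -/
theorem Lg.pow {g : G} {x : Matrix (Fin n) (Fin n) Ω} (h : R.Lg g x) (m : ℕ) :
    R.Lg (g ^ m) ((m : Ω) • x) := by
  obtain ⟨y, rfl, hy, e⟩ := h
  induction m with
  | zero =>
    rw [pow_zero, Nat.cast_zero, zero_smul]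
    exact Lg.one
  | succ m ih =>
    obtain ⟨z, hz, hz2, ez⟩ := ih
    have hz' : z = m • y := by
      apply Subtype.ext
      rw [hz, Nat.cast_smul_eq_nsmul]
      rfl
    refine ⟨z + y, ?_, ?_, ?_⟩
    · change (z : Matrix (Fin n) (Fin n) Ω) + (y : Matrix (Fin n) (Fin n) Ω) = _
      rw [hz, Nat.cast_succ, add_smul, one_smul]
    · exact (pk p R.A 2).add_mem hz2 hy
    · rw [zexp_add R.pnilA hz2 hy (by rw [hz', smul_mul_assoc, mul_smul_comm]), ez, e, pow_succ,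
        map_mul]

/-- PROOF. `exists_zlog` with `W = d A`, `d = p ^ 2 * c`: `zterm (d • z) (m + 1)` is `d • z * (d • z) ^ m / (m + 1)!`, and `(d z) ^ m / (m + 1)!` is in `A` (`p ^ (2 m)` divided by `(m + 1)!`,
`padicValNat_factorial_le`, `zx_div`). By uniqueness the logarithm found is `x`. -/
theorem Lg.level {g : G} {x : Matrix (Fin n) (Fin n) Ω} (h : R.Lg g x) {d : T}
    (hd : (p : T) ^ 2 ∣ d) (hg : g ∈ R.NI (Ideal.span {d})) :
    ∃ y : R.A, x = ((d • y : R.A) : Matrix (Fin n) (Fin n) Ω) := by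
  obtain ⟨y, hy⟩ := R.exists_zexp_smul hd hg
  exact ⟨y, h.unique ⟨_, rfl, R.smul_mem_pk hd y, hy⟩⟩

/-- PROOF. `zexp_sub_mem` with `N = 2` and `W = p c d A`, `d = p ^ 2 c`: for `m ≥ 2` the term `(d y) ^ m / m!` is `p c d * (y ^ m * d ^ (m - 2) * p / m!)` (`d ^ 2 = p c d * p`), and `p * d ^ (m - 2) / m!` is in `A`
(`v_p(m!) ≤ m - 1 ≤ 2 (m - 2) + 1` for `m ≥ 2`, `zx_div`). -/
theorem Lg.expand {g : G} {x : Matrix (Fin n) (Fin n) Ω} (h : R.Lg g x) {c : T} {y : R.A}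
    (hx : x = ((((p : T) ^ 2 * c) • y : R.A) : Matrix (Fin n) (Fin n) Ω)) :
    ∃ z : R.A, R.j g = 1 + ((p : T) ^ 2 * c) • y + ((p : T) * c * ((p : T) ^ 2 * c)) • z := by
  obtain ⟨y0, h0, hy, e⟩ := h
  have h1 : y0 = ((p : T) ^ 2 * c) • y := Subtype.ext (h0.trans hx)
  subst h1
  have hd : (p : T) ^ 2 ∣ (p : T) ^ 2 * c := dvd_mul_right _ _
  have h2 := zexp_sub_mem R.pnilA hy (R.mulSub ((p : T) * c * ((p : T) ^ 2 * c)))
    (R.mulSub_closed _) 2 (fun m hm => by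
      obtain ⟨i, rfl⟩ : ∃ i, m = i + 2 := ⟨m - 2, by omega⟩
      obtain ⟨w, hw⟩ := R.zterm_smul (d := (p : T) ^ 2 * c)
        (e := (p : T) * c * ((p : T) ^ 2 * c)) (b := c ^ i) y (m := i + 2) (k := 2 * i + 1) hd
        (by ring) (by
          have := padicValNat_factorial_le (p := p) (i + 1)
          rw [show i + 2 = i + 1 + 1 from rfl]
          omega)
      exact ⟨w, hw.symm⟩)
  rw [Finset.sum_range_succ, Finset.sum_range_one, R.zterm_zero' hy, R.zterm_one' hy, e] at h2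
  obtain ⟨w, hw⟩ := h2
  refine ⟨w, ?_⟩
  rw [show ((p : T) * c * ((p : T) ^ 2 * c)) • w = R.j g - (1 + ((p : T) ^ 2 * c) • y) from hw]
  abel

/-- PROOF. `Lg.pow` and `Lg.expand` for `c = p ^ m` (`x = p ^ 2 • y'` by `Lg.mem`; `p * c * (p ^ 2 * c) = p ^ 3 * p ^ (2 m)`). -/
theorem Lg.approx {g : G} {x : Matrix (Fin n) (Fin n) Ω} (h : R.Lg g x) (m : ℕ) : ∃ z : R.A,
    R.ρ (g ^ p ^ m) = 1 + (p : Ω) ^ m • x + (p : Ω) ^ (2 * m) • (z : Matrix (Fin n) (Fin n) Ω) := by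
  obtain ⟨y, rfl⟩ := h.mem
  have key : ∀ (k : ℕ) (M : Matrix (Fin n) (Fin n) Ω), ((p : T) ^ k) • M = (p : Ω) ^ k • M := by
    intro k M
    rw [← algebraMap_smul Ω ((p : T) ^ k) M, map_pow, map_natCast]
  have h1 := h.pow (p ^ m)
  have h2 : (((p ^ m : ℕ) : Ω) • (((p : T) ^ 2 • y : R.A) : Matrix (Fin n) (Fin n) Ω))
      = ((((p : T) ^ 2 * (p : T) ^ m) • y : R.A) : Matrix (Fin n) (Fin n) Ω) := by
    change ((p ^ m : ℕ) : Ω) • ((p : T) ^ 2 • (y : Matrix (Fin n) (Fin n) Ω))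
      = ((p : T) ^ 2 * (p : T) ^ m) • (y : Matrix (Fin n) (Fin n) Ω)
    rw [← pow_add, key, key, smul_smul, pow_add, Nat.cast_pow, mul_comm]
  obtain ⟨z, hz⟩ := h1.expand h2
  refine ⟨(p : T) ^ 3 • z, ?_⟩
  have h3 := congrArg (Subtype.val : R.A → Matrix (Fin n) (Fin n) Ω) hz
  have h4 : R.ρ (g ^ p ^ m) = 1 + ((p : T) ^ 2 * (p : T) ^ m) • (y : Matrix (Fin n) (Fin n) Ω)
      + ((p : T) * (p : T) ^ m * ((p : T) ^ 2 * (p : T) ^ m)) • (z : Matrix (Fin n) (Fin n) Ω) := h3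
  rw [h4]
  change _ = 1 + (p : Ω) ^ m • ((p : T) ^ 2 • (y : Matrix (Fin n) (Fin n) Ω))
    + (p : Ω) ^ (2 * m) • ((p : T) ^ 3 • (z : Matrix (Fin n) (Fin n) Ω))
  have e1 : (p : T) ^ 2 * (p : T) ^ m = (p : T) ^ (m + 2) := by ring
  have e2 : (p : T) * (p : T) ^ m * ((p : T) ^ 2 * (p : T) ^ m) = (p : T) ^ (2 * m + 3) := by ring
  rw [e2, e1, key, key, key, key, smul_smul, smul_smul, ← pow_add, ← pow_add]

/-- PROOF. `W ∩ A` is a `T`-submodule of `A`, so closed (`isClosed_submodule`), and it contains all `zterm x k` (`W` is a `ℚ`-algebra). Partial sums. -/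
theorem zexp_mem_sub {y : R.A} (hy : (y : Matrix (Fin n) (Fin n) Ω) ∈ pk p R.A 2)
    (W : Subalgebra Ω (Matrix (Fin n) (Fin n) Ω)) (hyW : (y : Matrix (Fin n) (Fin n) Ω) ∈ W) :
    ((zexp y : R.A) : Matrix (Fin n) (Fin n) Ω) ∈ W := by
  have h1 := zexp_sub_mem R.pnilA hy (R.subW W).toAddSubgroup (isClosed_submodule (R.subW W)) 0
    (fun m _ => R.zterm_mem_subW hy W hyW m)
  rw [Finset.sum_range_zero, sub_zero] at h1
  exact h1

/-- PROOF. `←` `zexp_mem_sub`. `→`: `exists_zlog` with the closed subgroup `{x ∈ p ^ 2 A | x ∈ W}` of `A`; uniqueness. -/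
theorem Lg.mem_iff {g : G} {x : Matrix (Fin n) (Fin n) Ω} (h : R.Lg g x)
    (W : Subalgebra Ω (Matrix (Fin n) (Fin n) Ω)) : R.ρ g ∈ W ↔ x ∈ W := by
  constructor
  · intro hg
    obtain ⟨w, hw⟩ := R.mem_NI_span.1 h.mem_NI
    obtain ⟨y, ⟨⟨z, rfl⟩, hzW⟩, hy⟩ := exists_zlog R.pnilA
      (R.mulSub ((p : T) ^ 2) ⊓ (R.subW W).toAddSubgroup)
      ((R.mulSub_closed _).inter (isClosed_submodule (R.subW W)))
      (by rintro _ ⟨⟨z, rfl⟩, -⟩; exact R.smul_mem_pk (dvd_refl _) z)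
      (by
        rintro _ ⟨⟨z, rfl⟩, hz⟩ m hm
        exact ⟨R.zterm_mem_mulSub (dvd_refl _) z hm,
          R.zterm_mem_subW (R.smul_mem_pk (dvd_refl _) z) W hz m⟩)
      (u := R.j g)
      ⟨⟨w, by rw [hw]; simp⟩, W.sub_mem hg W.one_mem⟩
    rw [h.unique ⟨_, rfl, R.smul_mem_pk (dvd_refl _) z, hy⟩]
    exact hzW
  · intro hx
    obtain ⟨y, rfl, hy, e⟩ := h
    have := zexp_mem_sub hy W hx
    rw [e] at this
    exact this

/-- PROOF. `zexp_map` for `R.baseHom T' h'` (`Rep.baseHom_continuous`, `Rep.baseHom_j`). -/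
theorem Lg.base {g : G} {x : Matrix (Fin n) (Fin n) Ω} (h : R.Lg g x) {T' : Type v} [CommRing T']
    [TopologicalSpace T'] [CNR T'] [Algebra T T'] [Algebra T' Ω] [IsScalarTower T T' Ω]
    [Module.Finite T T'] [IsModuleTopology T T'] (h' : Function.Injective (algebraMap T' Ω)) :
    (R.base T' h').Lg g x := by
  obtain ⟨y, rfl, hy, e⟩ := h
  refine ⟨R.baseHom T' h' y, R.baseHom_coe T' h' y, ?_, ?_⟩
  · rw [R.baseHom_coe T' h' y]
    obtain ⟨a, ha, hya⟩ := hy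
    exact ⟨a, R.mem_base T' ha, hya⟩
  · rw [← zexp_map R.pnilA (R.baseHom T' h') (R.baseHom_continuous T' h') hy, e, R.baseHom_j]

variable (R)

/-- PROOF. Closed: `pk_closed`. `(1 + x) ^ p ^ k`, `x ∈ p ^ 2 A`, is in `1 + p ^ (k + 2) A` (induct on `k`: `(1 + z) ^ p ∈ 1 + p ^ (j + 1) A` for `z ∈ p ^ j A`, `j ≥ 1`), and `p ^ k A` is small (`zx_small`). -/
theorem pideal_sq : PIdeal p {y : R.A | (y : Matrix (Fin n) (Fin n) Ω) ∈ pk p R.A 2} where
  closed := pk_closed 2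
  zero := (pk p R.A 2).zero_mem
  add _ hx _ hy := (pk p R.A 2).add_mem hx hy
  neg _ hx := (pk p R.A 2).neg_mem hx
  left b _ hx := pk_mul_left b.2 hx
  right _ hx b := pk_mul_right hx b.2
  pow x hx := by
    have h1 : ∀ k : ℕ, (((1 + x) ^ (p ^ k) - 1 : R.A) : Matrix (Fin n) (Fin n) Ω)
        ∈ pk p R.A (k + 2) := by
      intro k
      induction k with
      | zero =>
        rw [pow_zero, pow_one, add_sub_cancel_left]
        exact hx
      | succ k ih =>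
        rw [pow_succ, pow_mul]
        set u : R.A := (1 + x) ^ (p ^ k) with hu
        have e1 : u ^ p - 1 = (u - 1) * ∑ i ∈ Finset.range p, u ^ i := (mul_geom_sum u p).symm
        have e2 : ∑ i ∈ Finset.range p, u ^ i
            = (p : R.A) + ∑ i ∈ Finset.range p, (u ^ i - 1) := by
          rw [Finset.sum_sub_distrib]
          simp
        have h2 : ∀ i : ℕ, ((u ^ i - 1 : R.A) : Matrix (Fin n) (Fin n) Ω) ∈ pk p R.A 1 := by
          intro i
          rw [← mul_geom_sum u i]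
          exact pk_anti (by omega) (pk_mul_right ih (∑ j ∈ Finset.range i, u ^ j).2)
        have h3 : ((∑ i ∈ Finset.range p, u ^ i : R.A) : Matrix (Fin n) (Fin n) Ω)
            ∈ pk p R.A 1 := by
          rw [e2]
          change ((p : R.A) : Matrix (Fin n) (Fin n) Ω)
            + ((∑ i ∈ Finset.range p, (u ^ i - 1) : R.A) : Matrix (Fin n) (Fin n) Ω) ∈ pk p R.A 1
          refine (pk p R.A 1).add_mem ?_ ?_
          · exact ⟨1, R.A.one_mem, by simp⟩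
          · have e3 : ((∑ i ∈ Finset.range p, (u ^ i - 1) : R.A) : Matrix (Fin n) (Fin n) Ω)
                = ∑ i ∈ Finset.range p, ((u ^ i - 1 : R.A) : Matrix (Fin n) (Fin n) Ω) :=
              map_sum (SubringClass.subtype R.A) _ _
            rw [e3]
            exact (pk p R.A 1).sum_mem fun i _ => h2 i
        rw [e1]
        exact pk_anti (by omega) (pk_mul ih h3)
    intro U hU
    have hU' : (fun z : R.A => 1 + z) ⁻¹' U ∈ 𝓝 (0 : R.A) := by
      have : Tendsto (fun z : R.A => 1 + z) (𝓝 0) (𝓝 (1 + 0)) :=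
        (continuous_const.add continuous_id).tendsto 0
      rw [add_zero] at this
      exact this hU
    obtain ⟨k, hk⟩ := zx_small R.pnilA hU'
    rw [mem_map, mem_atTop_sets]
    refine ⟨k, fun m hm => ?_⟩
    obtain ⟨a, ha, hma⟩ := h1 m
    have h4 := hk (m + 2) (by omega) ⟨a, ha⟩
    have e4 : ((p : ℕ) : R.A) ^ (m + 2) * ⟨a, ha⟩ = (1 + x) ^ (p ^ m) - 1 := by
      apply Subtype.ext
      rw [hma]
      simp
    rw [e4] at h4
    have h5 : 1 + ((1 + x) ^ (p ^ m) - 1) ∈ U := h4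
    rwa [add_sub_cancel] at h5

end Rep

end MP35
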