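import Mathlib

/-! # Eigenvalues of an element normalising an irreducible space of matrices -/

set_option autoImplicit false

namespace MP35

universe v

/-- Adding a generalized eigenvector: if `(f - μ) w` is a generalized eigenvector for `μ`, so is `w`. -/
private theorem mem_maxGen_of_sub {K : Type v} [Field K] {V : Type v} [AddCommGroup V] [Module K V]
    (f : Module.End K V) (μ : K) (w : V) (h : f w - μ • w ∈ f.maxGenEigenspace μ) :
    w ∈ f.maxGenEigenspace μ := by
  rw [Module.End.mem_maxGenEigenspace] at h ⊢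
  obtain ⟨k, hk⟩ := h
  refine ⟨k + 1, ?_⟩
  rw [pow_succ, Module.End.mul_apply]
  have : (f - μ • (1 : Module.End K V)) w = f w - μ • w := by simp
  rw [this, hk]

/-- The key computation: products of generalized eigenvectors, by a double induction. -/
private theorem mul_mem_maxGen {K : Type v} [Field K] {V X : Type v} [AddCommGroup V] [Module K V]
    [AddCommGroup X] [Module K X] (A : Module.End K X) (f : Module.End K V)
    (φ : X →ₗ[K] V →ₗ[K] V) (hφ : ∀ x v, f (φ x v) = φ (A x) (f v)) (κ μ : K) :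
    ∀ (a b : ℕ) (x : X) (v : V), ((A - κ • (1 : Module.End K X)) ^ a) x = 0 →
      ((f - μ • (1 : Module.End K V)) ^ b) v = 0 → φ x v ∈ f.maxGenEigenspace (κ * μ) := by
  intro a
  induction a with
  | zero =>
    intro b x v hx _
    have hx0 : x = 0 := by simpa using hx
    simp [hx0]
  | succ a iha =>
    intro b
    induction b with
    | zero =>
      intro x v _ hv
      have hv0 : v = 0 := by simpa using hv
      simp [hv0]
    | succ b ihb =>
      intro x v hx hv
      set y := (A - κ • (1 : Module.End K X)) x with hy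
      set u := (f - μ • (1 : Module.End K V)) v with hu
      have hAx : A x = κ • x + y := by rw [hy]; simp
      have hfv : f v = μ • v + u := by rw [hu]; simp
      have hya : ((A - κ • (1 : Module.End K X)) ^ a) y = 0 := by
        rw [hy, ← Module.End.mul_apply, ← pow_succ, hx]
      have hub : ((f - μ • (1 : Module.End K V)) ^ b) u = 0 := by
        rw [hu, ← Module.End.mul_apply, ← pow_succ, hv]
      have h1 := ihb x u hx hub
      have h2 := iha (b + 1) y v hya hv
      have h3 := iha b y u hya hub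
      apply mem_maxGen_of_sub
      have : f (φ x v) - (κ * μ) • φ x v = κ • φ x u + μ • φ y v + φ y u := by
        rw [hφ, hAx, hfv]
        simp only [map_add, map_smul, LinearMap.add_apply, LinearMap.smul_apply, smul_add, smul_smul]
        rw [mul_comm μ κ]
        abel
      rw [this]
      exact add_mem (add_mem (Submodule.smul_mem _ _ h1) (Submodule.smul_mem _ _ h2)) h3

/-- PROOF. `Fin n → K` is the direct sum of the generalized eigenspaces `V_μ` of `g` (`Module.End.iSup_maxGenEigenspace_eq_top`, `Module.End.independent_maxGenEigenspace`, for `Matrix.toLin' g`), and `L` of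
the generalized eigenspaces `L_κ` of the endomorphism `x ↦ g * x * g'` of `L`. For `x ∈ L_κ`, `v ∈ V_μ`: `(g - κ μ) (x v) = ((g x g') - κ x) (g v) + κ x ((g - μ) v)`, so by the binomial formula
(the two operators `x ⊗ v ↦ (g x g' - κ x) ⊗ g v` and `x ⊗ v ↦ κ x ⊗ (g - μ) v` commute), `x v ∈ V_(κ μ)` (this is the same as for Lie algebras: Mathlib `LieModule.lie_mem_genWeightSpace...` if helpful, or prove
`(g - κ μ) ^ N (x v) = ∑_i choose N i • (κ ^ i • (Ad g - κ) ^ (N - i) x) (g ^ (N - i) (g - μ) ^ i v)` by induction). By `hΓ` `κ` is in `Γ` if `L_κ ≠ 0` (`g` is invertible, so `κ ≠ 0`). Let `U` be the sum of the `V_μ` with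
`μ ∈ Γ α` (an eigenvalue `μ` is a unit). `U` is stable under all `L_κ`, so under `L`, and `U ≠ ⊥`, so `U = ⊤`, and every eigenvalue `β` of `g` is in `Γ α` (independence of the `V_μ`). -/
theorem eigen_ratio {K : Type v} [Field K] [IsAlgClosed K] {n : ℕ}
    (L : Submodule K (Matrix (Fin n) (Fin n) K))
    (hirr : ∀ U : Submodule K (Fin n → K), (∀ x ∈ L, ∀ v ∈ U, Matrix.mulVec x v ∈ U) → U = ⊥ ∨ U = ⊤)
    {g g' : Matrix (Fin n) (Fin n) K} (hg : g * g' = 1) (hgL : ∀ x ∈ L, g * x * g' ∈ L)
    (Γ : Subgroup Kˣ) (hΓ : ∀ (κ : Kˣ) (x : Matrix (Fin n) (Fin n) K), x ∈ L → x ≠ 0 →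
      g * x * g' = (κ : K) • x → κ ∈ Γ)
    {α β : Kˣ} (hα : g.charpoly.IsRoot (α : K)) (hβ : g.charpoly.IsRoot (β : K)) : β * α⁻¹ ∈ Γ := by
  classical
  have hg' : g' * g = 1 := mul_eq_one_comm.mp hg
  -- the endomorphism of `L`
  let A : Module.End K L :=
    { toFun := fun x => ⟨g * x.1 * g', hgL x.1 x.2⟩
      map_add' := fun x y => by
        apply Subtype.ext
        simp [mul_add, add_mul]
      map_smul' := fun c x => by
        apply Subtype.ext
        simp }
  let f : Module.End K (Fin n → K) := Matrix.toLin' g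
  let φ : L →ₗ[K] (Fin n → K) →ₗ[K] (Fin n → K) :=
    (Matrix.toLin' : Matrix (Fin n) (Fin n) K ≃ₗ[K] _).toLinearMap.comp L.subtype
  have hφ : ∀ (x : L) (v : Fin n → K), f (φ x v) = φ (A x) (f v) := by
    intro x v
    show Matrix.toLin' g (Matrix.toLin' x.1 v) = Matrix.toLin' (g * x.1 * g') (Matrix.toLin' g v)
    simp only [Matrix.toLin'_apply, Matrix.mulVec_mulVec]
    rw [mul_assoc (g * x.1) g' g, hg', mul_one]
  -- the set of eigenvalues considered
  let S : Set K := {μ | ∃ γ ∈ Γ, μ = ((γ * α : Kˣ) : K)}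
  let U : Submodule K (Fin n → K) := ⨆ μ ∈ S, f.maxGenEigenspace μ
  have hleU : ∀ μ ∈ S, f.maxGenEigenspace μ ≤ U := fun μ hμ => le_iSup₂_of_le μ hμ le_rfl
  -- `L_κ` maps `U` to `U`
  have hκ : ∀ (κ : K) (x : L), x ∈ A.maxGenEigenspace κ → ∀ v ∈ U, φ x v ∈ U := by
    intro κ x hx v hv
    by_cases hx0 : x = 0
    · simp [hx0]
    -- `κ` is an eigenvalue of `A`
    have hev : A.HasEigenvalue κ := by
      have h1 : A.HasUnifEigenvalue κ ⊤ := by
        intro hbot
        have : x ∈ (⊥ : Submodule K L) := by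
          rw [← hbot]; exact hx
        exact hx0 (by simpa using this)
      exact h1.lt zero_lt_one
    obtain ⟨y, hy⟩ := hev.exists_hasEigenvector
    have hyA : A y = κ • y := hy.apply_eq_smul
    have hy0 : y ≠ 0 := hy.2
    have hyM : g * y.1 * g' = κ • y.1 := by
      have := congrArg Subtype.val hyA
      simpa [A] using this
    have hy1 : y.1 ≠ 0 := fun h => hy0 (Subtype.ext h)
    have hκ0 : κ ≠ 0 := by
      rintro rfl
      rw [zero_smul] at hyM
      apply hy1
      calc y.1 = (g' * g) * y.1 * (g' * g) := by rw [hg', one_mul, mul_one]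
        _ = g' * (g * y.1 * g') * g := by noncomm_ring
        _ = 0 := by rw [hyM]; simp
    have hκΓ : Units.mk0 κ hκ0 ∈ Γ := hΓ (Units.mk0 κ hκ0) y.1 y.2 hy1 (by simpa using hyM)
    -- now `v ∈ U`
    rw [Module.End.mem_maxGenEigenspace] at hx
    obtain ⟨a, ha⟩ := hx
    have hsub : U ≤ U.comap (φ x) := by
      apply iSup₂_le
      intro μ hμ w hw
      rw [Submodule.mem_comap]
      obtain ⟨γ, hγ, rfl⟩ := hμ
      rw [Module.End.mem_maxGenEigenspace] at hw
      obtain ⟨b, hb⟩ := hw
      have := mul_mem_maxGen A f φ hφ κ _ a b x w ha hb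
      refine hleU _ ?_ this
      refine ⟨Units.mk0 κ hκ0 * γ, Γ.mul_mem hκΓ hγ, ?_⟩
      push_cast
      simp [mul_assoc]
    exact hsub hv
  have hstab : ∀ x ∈ L, ∀ v ∈ U, Matrix.mulVec x v ∈ U := by
    intro x hx v hv
    have htop : (⟨x, hx⟩ : L) ∈ ⨆ κ : K, A.maxGenEigenspace κ := by
      rw [Module.End.iSup_maxGenEigenspace_eq_top]; trivial
    have key : φ ⟨x, hx⟩ v ∈ U := by
      refine Submodule.iSup_induction _ (motive := fun y => φ y v ∈ U) htop ?_ ?_ ?_
      · intro κ y hy
        exact hκ κ y hy v hv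
      · simp
      · intro y z hy hz
        rw [map_add, LinearMap.add_apply]
        exact add_mem hy hz
    simpa [φ] using key
  have hfα : f.HasEigenvalue (α : K) := by
    rw [Module.End.hasEigenvalue_iff_isRoot_charpoly]
    show (Matrix.toLin' g).charpoly.IsRoot _
    rw [Matrix.charpoly_toLin']
    exact hα
  have hfβ : f.HasEigenvalue (β : K) := by
    rw [Module.End.hasEigenvalue_iff_isRoot_charpoly]
    show (Matrix.toLin' g).charpoly.IsRoot _
    rw [Matrix.charpoly_toLin']
    exact hβ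
  have hαS : (α : K) ∈ S := ⟨1, Γ.one_mem, by simp⟩
  have hUbot : U ≠ ⊥ := by
    intro h
    obtain ⟨w, hw⟩ := hfα.exists_hasEigenvector
    have h1 : w ∈ U := hleU _ hαS (Module.End.eigenspace_le_maxGenEigenspace hw.1)
    rw [h] at h1
    exact hw.2 (by simpa using h1)
  have hUtop : U = ⊤ := (hirr U hstab).resolve_left hUbot
  by_contra hcon
  have hβS : (β : K) ∉ S := by
    rintro ⟨γ, hγ, hβγ⟩
    apply hcon
    have : β = γ * α := Units.ext hβγ
    rw [this, mul_assoc, mul_inv_cancel, mul_one]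
    exact hγ
  obtain ⟨w, hw⟩ := hfβ.exists_hasEigenvector
  have hdis := (Module.End.independent_maxGenEigenspace f) (β : K)
  have hUle : U ≤ ⨆ j, ⨆ (_ : j ≠ (β : K)), f.maxGenEigenspace j := by
    apply iSup₂_le
    intro μ hμ
    refine le_iSup₂_of_le μ ?_ le_rfl
    rintro rfl
    exact hβS hμ
  have hwU : w ∈ ⨆ j, ⨆ (_ : j ≠ (β : K)), f.maxGenEigenspace j := by
    apply hUle
    rw [hUtop]; trivial
  have h0 := (Submodule.disjoint_def.mp hdis) w (Module.End.eigenspace_le_maxGenEigenspace hw.1) hwU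
  exact hw.2 h0

end MP35
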