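import Mathlib

/-! # Ideals of irreducible Lie algebras of matrices of trace zero -/

set_option autoImplicit false

namespace MP35

universe v

attribute [local instance 100] LieRing.ofAssociativeRing

/-- PROOF. Let `𝔤` be `L` as a Lie subalgebra of `Matrix (Fin n) (Fin n) K` (`LieSubalgebra`, bracket `x * y - y * x`, `Ring.lie_def`). `Fin n → K` is a `𝔤`-module (transport
`Matrix.mulVec`, e.g. through `Matrix.toLin'`/`lieEquivMatrix'`, or define the `LieRingModule` directly by `⁅x, v⁆ = x.1.mulVec v`), irreducible by `hirr` (and nontrivial by `hn`) and faithful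
(`Matrix.mulVec` is injective), trace `0` by `htr` (`Matrix.trace_toLin'_eq`/`Matrix.trace_toLin_eq`), triangularizable as `K` is algebraically closed. So
`LieAlgebra.hasTrivialRadical_of_isIrreducible_of_isFaithful` and `LieAlgebra.HasTrivialRadical.instIsKilling` (Mathlib.Algebra.Lie.CartanCriterion) show that `𝔤` is Killing. `a` is an ideal
`I` of `𝔤`. Let `b` be the (image of the) ideal `LieIdeal.killingCompl K 𝔤 I`, a complement of `I` by `LieIdeal.isCompl_killingCompl`. For `x ∈ a`, `y ∈ b` the bracket is in `a ⊓ b = ⊥`. -/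
theorem exists_complement {K : Type v} [Field K] [CharZero K] [IsAlgClosed K] {n : ℕ} (hn : 0 < n)
    (L : Submodule K (Matrix (Fin n) (Fin n) K)) (hL : ∀ x ∈ L, ∀ y ∈ L, x * y - y * x ∈ L)
    (htr : ∀ x ∈ L, x.trace = 0)
    (hirr : ∀ U : Submodule K (Fin n → K), (∀ x ∈ L, ∀ v ∈ U, Matrix.mulVec x v ∈ U) → U = ⊥ ∨ U = ⊤)
    (a : Submodule K (Matrix (Fin n) (Fin n) K)) (haL : a ≤ L)
    (ha : ∀ x ∈ L, ∀ y ∈ a, x * y - y * x ∈ a) :
    ∃ b : Submodule K (Matrix (Fin n) (Fin n) K), b ≤ L ∧ (∀ x ∈ L, ∀ y ∈ b, x * y - y * x ∈ b) ∧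
      a ⊓ b = ⊥ ∧ a ⊔ b = L ∧ ∀ x ∈ a, ∀ y ∈ b, x * y = y * x := by
  let 𝔤 : LieSubalgebra K (Matrix (Fin n) (Fin n) K) :=
    { L with
      lie_mem' := fun {x y} hx hy => by
        have := hL x hx y hy
        rw [Ring.lie_def]
        exact this }
  have hmem : ∀ x, x ∈ 𝔤 ↔ x ∈ L := fun x => Iff.rfl
  have hact : ∀ (x : 𝔤) (v : Fin n → K), ⁅x, v⁆ = Matrix.mulVec x.1 v := fun x v => rfl
  have : Nonempty (Fin n) := ⟨⟨0, hn⟩⟩
  have : Nontrivial (Fin n → K) := inferInstance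
  have hirr' : LieModule.IsIrreducible K 𝔤 (Fin n → K) := by
    apply LieModule.IsIrreducible.mk
    intro N hN
    rcases hirr N.toSubmodule (fun x hx v hv => by
      have := N.lie_mem (x := (⟨x, hx⟩ : 𝔤)) hv
      exact this) with h | h
    · exact absurd (by simpa using h) hN
    · simpa using h
  have hf : LieModule.IsFaithful K 𝔤 (Fin n → K) := by
    rw [LieModule.isFaithful_iff']
    intro x hx
    apply Subtype.ext
    show x.1 = 0
    apply Matrix.toLin'.injective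
    apply LinearMap.ext
    intro v
    rw [Matrix.toLin'_apply, ← hact x v, hx v]
    simp
  have : LieAlgebra.HasTrivialRadical K 𝔤 := by
    apply LieAlgebra.hasTrivialRadical_of_isIrreducible_of_isFaithful K 𝔤 (Fin n → K)
    intro x
    have h1 : LieModule.toEnd K 𝔤 (Fin n → K) x = Matrix.toLin' x.1 := by
      apply LinearMap.ext
      intro v
      rfl
    rw [h1, Matrix.trace_toLin'_eq]
    exact htr _ x.2
  have : LieAlgebra.IsKilling K 𝔤 := inferInstance
  let I : LieIdeal K 𝔤 :=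
    { a.comap L.subtype with
      lie_mem := fun {x y} hy => by
        have := ha x.1 x.2 y.1 hy
        show (⁅x, y⁆ : 𝔤).1 ∈ a
        rw [LieSubalgebra.coe_bracket, Ring.lie_def]
        exact this }
  have hI : ∀ x : 𝔤, x ∈ I ↔ x.1 ∈ a := fun x => Iff.rfl
  let J : LieIdeal K 𝔤 := LieIdeal.killingCompl K 𝔤 I
  have hIJ : IsCompl I J := LieIdeal.isCompl_killingCompl I
  let b : Submodule K (Matrix (Fin n) (Fin n) K) := J.toSubmodule.map L.subtype
  have hb : ∀ x : 𝔤, x.1 ∈ b ↔ x ∈ J := by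
    intro x
    constructor
    · rintro ⟨y, hy, hyx⟩
      have : y = x := Subtype.ext hyx
      rw [← this]
      exact hy
    · intro hx
      exact ⟨x, hx, rfl⟩
  have hbL : b ≤ L := by
    rintro x ⟨y, hy, rfl⟩
    exact y.2
  have hbid : ∀ x ∈ L, ∀ y ∈ b, x * y - y * x ∈ b := by
    intro x hx y hy
    have h1 := (hb ⟨y, hbL hy⟩).1 hy
    have h2 := J.lie_mem (x := (⟨x, hx⟩ : 𝔤)) h1
    have h3 := (hb _).2 h2
    rw [LieSubalgebra.coe_bracket, Ring.lie_def] at h3
    exact h3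
  have hinf : a ⊓ b = ⊥ := by
    rw [eq_bot_iff]
    rintro x ⟨hxa, hxb⟩
    have h1 : (⟨x, haL hxa⟩ : 𝔤) ∈ I := hxa
    have h2 : (⟨x, haL hxa⟩ : 𝔤) ∈ J := (hb ⟨x, haL hxa⟩).1 hxb
    have h3 : (⟨x, haL hxa⟩ : 𝔤) ∈ I ⊓ J := ⟨h1, h2⟩
    rw [hIJ.inf_eq_bot] at h3
    have h4 : (⟨x, haL hxa⟩ : 𝔤) = 0 := by simpa using h3
    have h5 := congrArg Subtype.val h4
    simpa using h5
  refine ⟨b, hbL, hbid, hinf, ?_, ?_⟩
  · apply le_antisymm (sup_le haL hbL)
    intro x hx
    have h1 : (⟨x, hx⟩ : 𝔤) ∈ I ⊔ J := by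
      rw [hIJ.sup_eq_top]
      exact LieSubmodule.mem_top _
    rw [LieSubmodule.mem_sup] at h1
    obtain ⟨y, hy, z, hz, hyz⟩ := h1
    have h2 : y.1 + z.1 = x := congrArg Subtype.val hyz
    rw [← h2]
    exact Submodule.add_mem_sup hy ((hb z).2 hz)
  · intro x hx y hy
    have h1 : x * y - y * x ∈ b := hbid x (haL hx) y hy
    have h2 : x * y - y * x ∈ a := by
      have := a.neg_mem (ha y (hbL hy) x hx)
      simpa using this
    have h3 : x * y - y * x ∈ a ⊓ b := ⟨h2, h1⟩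
    rw [hinf] at h3
    exact sub_eq_zero.1 (by simpa using h3)

end MP35
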