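import Pool.Agent.Lib_MP_3538b5_al.ZTr
import Pool.Agent.Lib_MP_3538b5_al.ZDen
import Pool.Agent.Lib_MP_3538b5_al.ZSemi
import Pool.Agent.Lib_MP_3538b5_al.LFC
import Pool.Agent.Lib_MP_3538b5_al.LemV

/-! # Simplicity of the Lie algebra -/

set_option autoImplicit false
set_option linter.unusedSectionVars false

namespace MP35

open Filter Topology

universe u v w

section

variable {p : ℕ} [hp : Fact p.Prime] {G : Type u} [Group G] [TopologicalSpace G]
  [IsTopologicalGroup G] [CompactSpace G] [T2Space G] [TotallyDisconnectedSpace G] {T : Type v}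
  [CommRing T] [TopologicalSpace T] [CNR T] {Ω : Type v} [Field Ω] [IsAlgClosed Ω] [CharZero Ω]
  [Algebra T Ω] {n : ℕ} {R : Rep p G T Ω n} {k : ℕ}

/-- what commutes with the Lie algebra of `H` is central -/
theorem Rep.comm_of_lie {H : Subgroup G} (hH2 : H ≤ R.NI (Ideal.span {(p : T) ^ 2}))
    (hspan : Submodule.span Ω (R.ρ '' (H : Set G)) = ⊤) {z : Matrix (Fin n) (Fin n) Ω}
    (hz : ∀ x ∈ R.lie H, z * x = x * z) (m : Matrix (Fin n) (Fin n) Ω) : z * m = m * z := by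
  let W : Subalgebra Ω (Matrix (Fin n) (Fin n) Ω) := Subalgebra.centralizer Ω {z}
  have hW : ∀ x, x ∈ W ↔ z * x = x * z := by
    intro x
    rw [Subalgebra.mem_centralizer_iff]
    simp
  have h1 : Submodule.span Ω (R.ρ '' (H : Set G)) ≤ Subalgebra.toSubmodule W := by
    rw [Submodule.span_le]
    rintro _ ⟨h, hh, rfl⟩
    obtain ⟨x, hx⟩ := Rep.exists_Lg (hH2 hh)
    exact (hx.mem_iff W).2 ((hW x).2 (hz x (hx.mem_lie hh)))
  rw [hspan] at h1
  exact (hW m).1 (h1 trivial)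

/-- scalar matrices of trace zero -/
theorem eq_zero_of_comm (hn : n ≠ 0) {X : Set (Matrix (Fin n) (Fin n) Ω)}
    (hX : Submodule.span Ω X = ⊤) {z : Matrix (Fin n) (Fin n) Ω} (hz : ∀ x ∈ X, z * x = x * z)
    (htr : z.trace = 0) : z = 0 := by
  obtain ⟨c, rfl⟩ := scalar_of_commute hX hz
  rw [Matrix.trace_smul, Matrix.trace_one, Fintype.card_fin, smul_eq_mul] at htr
  rcases mul_eq_zero.1 htr with h | h
  · rw [h, zero_smul]
  · exact absurd (Nat.cast_eq_zero.1 h) hn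

/-- `H` acts faithfully on its Lie algebra: the centralizer of `ρ g` is everything, and the center of
`G` is trivial. -/
theorem Rep.lie_faithful (hG : PF p G) {H : Subgroup G} (hH2 : H ≤ R.NI (Ideal.span {(p : T) ^ 2}))
    (hspan : Submodule.span Ω (R.ρ '' (H : Set G)) = ⊤) {g : G}
    (hg : ∀ x ∈ R.lie H, R.ρ g * x * R.ρ g⁻¹ = x) : g = 1 := by
  have h1 : ∀ x ∈ R.lie H, R.ρ g * x = x * R.ρ g := by
    intro x hx
    have h2 := congrArg (fun z => z * R.ρ g) (hg x hx)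
    simpa only [mul_assoc, ← map_mul, inv_mul_cancel, map_one, mul_one] using h2
  have h2 : ∀ y : G, g * y = y * g := by
    intro y
    apply R.inj
    rw [map_mul, map_mul]
    exact Rep.comm_of_lie hH2 hspan h1 _
  by_contra hne
  obtain ⟨x, y, hxy⟩ := hG.nc
  have hc : g ∈ Subgroup.center G := Subgroup.mem_center_iff.2 fun y => (h2 y).symm
  refine hxy (normal_comm' hG.proP hG.lift (Subgroup.center G) ⊤ inferInstance ?_ ?_ ?_ x y)
  · intro hb
    rw [hb, Subgroup.mem_bot] at hc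
    exact hne hc
  · intro hb
    have : g ∈ (⊤ : Subgroup G) := trivial
    rw [hb, Subgroup.mem_bot] at this
    exact hne this
  · intro a ha b _
    exact (Subgroup.mem_center_iff.1 ha b).symm

/-- decomposition of the elements of the order in `a ⊔ b`, with a common denominator -/
theorem Rep.exists_decomp [IsDomain T] (R : Rep p G T Ω n) (alg : Algebra.IsAlgebraic T Ω)
    (hspan : Submodule.span Ω (R.A : Set (Matrix (Fin n) (Fin n) Ω)) = ⊤)
    (a b : Submodule Ω (Matrix (Fin n) (Fin n) Ω)) :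
    ∃ (T' : Subalgebra T Ω) (_ : Module.Finite T T') (c : T), c ≠ 0 ∧
      ∀ y ∈ R.A, y ∈ a ⊔ b → ∃ u ∈ a, ∃ v ∈ b,
        y = u + v ∧ c • u ∈ repAlg T' R.ρ ∧ c • v ∈ repAlg T' R.ρ := by
  classical
  let M : Submodule T R.A := ((a ⊔ b).restrictScalars T).comap R.A.val.toLinearMap
  have hM : ∀ y : R.A, y ∈ M ↔ (y : Matrix (Fin n) (Fin n) Ω) ∈ a ⊔ b := fun y => Iff.rfl
  obtain ⟨S, hS⟩ : M.FG := IsNoetherian.noetherian M
  have h1 : ∀ s : R.A, ∃ uv : Matrix (Fin n) (Fin n) Ω × Matrix (Fin n) (Fin n) Ω,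
      s ∈ M → uv.1 ∈ a ∧ uv.2 ∈ b ∧ (s : Matrix (Fin n) (Fin n) Ω) = uv.1 + uv.2 := by
    intro s
    by_cases hs : s ∈ M
    · obtain ⟨u, hu, v, hv, huv⟩ := Submodule.mem_sup.1 ((hM s).1 hs)
      exact ⟨(u, v), fun _ => ⟨hu, hv, huv.symm⟩⟩
    · exact ⟨0, fun h => absurd h hs⟩
  choose f hf using h1
  obtain ⟨T', hT', c, hc, hF⟩ := R.exists_denom_mats alg hspan
    (S.image (fun s => (f s).1) ∪ S.image (fun s => (f s).2))
  refine ⟨T', hT', c, hc, fun y hy hyab => ?_⟩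
  have h2 : (⟨y, hy⟩ : R.A) ∈ Submodule.span T (S : Set R.A) := by
    rw [hS]
    exact hyab
  have key : ∀ z : R.A, z ∈ Submodule.span T (S : Set R.A) → ∃ u ∈ a, ∃ v ∈ b,
      (z : Matrix (Fin n) (Fin n) Ω) = u + v ∧ c • u ∈ repAlg T' R.ρ ∧ c • v ∈ repAlg T' R.ρ := by
    intro z hz
    induction hz using Submodule.span_induction with
    | mem x hx =>
      have hxM : x ∈ M := by
        rw [← hS]
        exact Submodule.subset_span hx
      obtain ⟨h3, h4, h5⟩ := hf x hxM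
      refine ⟨_, h3, _, h4, h5, hF _ ?_, hF _ ?_⟩
      · exact Finset.mem_union_left _ (Finset.mem_image_of_mem _ hx)
      · exact Finset.mem_union_right _ (Finset.mem_image_of_mem _ hx)
    | zero =>
      exact ⟨0, zero_mem _, 0, zero_mem _, by simp, by simp, by simp⟩
    | add x y _ _ hx hy =>
      obtain ⟨u, hu, v, hv, h3, h4, h5⟩ := hx
      obtain ⟨u', hu', v', hv', h3', h4', h5'⟩ := hy
      refine ⟨u + u', add_mem hu hu', v + v', add_mem hv hv', ?_, ?_, ?_⟩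
      · rw [Subalgebra.coe_add, h3, h3']
        abel
      · rw [smul_add]
        exact add_mem h4 h4'
      · rw [smul_add]
        exact add_mem h5 h5'
    | smul t x _ hx =>
      obtain ⟨u, hu, v, hv, h3, h4, h5⟩ := hx
      have e : ∀ w : Matrix (Fin n) (Fin n) Ω, t • w = (algebraMap T Ω t) • w := fun w =>
        (algebraMap_smul Ω t w).symm
      have e' : ∀ w : Matrix (Fin n) (Fin n) Ω, t • w = (algebraMap T T' t) • w := fun w =>
        (algebraMap_smul T' t w).symm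
      refine ⟨t • u, ?_, t • v, ?_, ?_, ?_, ?_⟩
      · rw [e]
        exact a.smul_mem _ hu
      · rw [e]
        exact b.smul_mem _ hv
      · rw [← smul_add, ← h3]
        rfl
      · rw [smul_comm, e']
        exact (repAlg T' R.ρ).smul_mem h4 _
      · rw [smul_comm, e']
        exact (repAlg T' R.ρ).smul_mem h5 _
  exact key ⟨y, hy⟩ h2

/-- the exponential of an element of `p ^ 2 A` is `1` modulo `p ^ 2 A` -/
theorem Rep.zexp_sub_one_mem {y : R.A} (hy : (y : Matrix (Fin n) (Fin n) Ω) ∈ pk p R.A 2) :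
    ((zexp y - 1 : R.A) : Matrix (Fin n) (Fin n) Ω) ∈ pk p R.A 2 := by
  let W : AddSubgroup R.A := (pk p R.A 2).comap R.A.val.toLinearMap.toAddMonoidHom
  have hW : ∀ z : R.A, z ∈ W ↔ (z : Matrix (Fin n) (Fin n) Ω) ∈ pk p R.A 2 := fun z => Iff.rfl
  have hWc : IsClosed (W : Set R.A) := pk_closed (p := p) (A := R.A) 2
  have h1 := zexp_sub_mem R.pnilA hy W hWc 1 (fun m hm => by
    obtain ⟨i, rfl⟩ : ∃ i, m = i + 1 := ⟨m - 1, by omega⟩
    rw [hW, zterm_coe R.pnilA hy]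
    exact pk_anti (by omega) (zx_fact (k := 0) (i := i) R.pnilA (by simpa using hy)))
  have h2 : zterm y 0 = 1 := by
    apply Subtype.ext
    rw [zterm_coe R.pnilA hy]
    simp
  rw [Finset.sum_range_one, h2] at h1
  exact h1

/-- the matrices of a representation depend continuously on the group element -/
theorem Rep.fc_rho (R : Rep p G T Ω n) : FC T (fun g : G => R.ρ g) :=
  (FC.of_continuous (T := T) (M := R.A) R.cont_j).map R.A.val.toLinearMap

/-- the condition `φ g * y = ρ g * y * ρ g⁻¹ * φ g` for all `y ∈ a` -/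
theorem Rep.conj_of_gen (R : Rep p G T Ω n) {h h' : G} {φ : cl2 h h' →* R.A} (hφ : Continuous φ)
    {a : Submodule Ω (Matrix (Fin n) (Fin n) Ω)}
    (ha : ∀ g ∈ cl2 h h', ∀ y ∈ a, R.ρ g * y * R.ρ g⁻¹ ∈ a)
    (h1 : ∀ y ∈ a, (φ ⟨h, left_mem_cl2 h h'⟩ : Matrix (Fin n) (Fin n) Ω) * y
      = R.ρ h * y * R.ρ h⁻¹ * φ ⟨h, left_mem_cl2 h h'⟩)
    (h2 : ∀ y ∈ a, (φ ⟨h', right_mem_cl2 h h'⟩ : Matrix (Fin n) (Fin n) Ω) * y
      = R.ρ h' * y * R.ρ h'⁻¹ * φ ⟨h', right_mem_cl2 h h'⟩) (g : cl2 h h') :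
    ∀ y ∈ a, (φ g : Matrix (Fin n) (Fin n) Ω) * y = R.ρ g * y * R.ρ (g : G)⁻¹ * φ g := by
  have hφm : ∀ x y : cl2 h h', ((φ (x * y) : R.A) : Matrix (Fin n) (Fin n) Ω) = φ x * φ y := by
    intro x y
    rw [map_mul, Subalgebra.coe_mul]
  let S : Subgroup (cl2 h h') :=
    { carrier := {g | ∀ y ∈ a, (φ g : Matrix (Fin n) (Fin n) Ω) * y
        = R.ρ g * y * R.ρ (g : G)⁻¹ * φ g}
      one_mem' := by
        intro y _
        simp
      mul_mem' := by
        intro x z hx hz y hy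
        have e1 : ((x * z : cl2 h h') : G) = x * z := rfl
        rw [hφm, mul_assoc, hz y hy, ← mul_assoc, hx _ (ha z z.2 y hy), e1, mul_inv_rev, map_mul,
          map_mul]
        simp only [mul_assoc]
      inv_mem' := by
        intro x hx y hy
        have e1 : ((x⁻¹ : cl2 h h') : G) = (x : G)⁻¹ := rfl
        have h3 := ha _ (inv_mem x.2) y hy
        rw [inv_inv] at h3
        have h4 := hx _ h3
        have e2 : (φ x⁻¹ : Matrix (Fin n) (Fin n) Ω) * φ x = 1 := by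
          rw [← hφm, inv_mul_cancel, map_one, Subalgebra.coe_one]
        have e3 : (φ x : Matrix (Fin n) (Fin n) Ω) * φ x⁻¹ = 1 := by
          rw [← hφm, mul_inv_cancel, map_one, Subalgebra.coe_one]
        have e4 : R.ρ (x : G) * R.ρ (x : G)⁻¹ = 1 := by rw [← map_mul, mul_inv_cancel, map_one]
        have e5 : R.ρ (x : G) * (R.ρ (x : G)⁻¹ * y * R.ρ (x : G)) * R.ρ (x : G)⁻¹ = y := by
          simp only [mul_assoc, e4, mul_one]
          rw [← mul_assoc, e4, one_mul]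
        rw [e5] at h4
        rw [e1, inv_inv]
        calc (φ x⁻¹ : Matrix (Fin n) (Fin n) Ω) * y
            = φ x⁻¹ * (y * φ x) * φ x⁻¹ := by
              rw [mul_assoc, mul_assoc, e3, mul_one]
          _ = φ x⁻¹ * (φ x * (R.ρ (x : G)⁻¹ * y * R.ρ (x : G))) * φ x⁻¹ := by rw [h4]
          _ = R.ρ (x : G)⁻¹ * y * R.ρ (x : G) * φ x⁻¹ := by
              rw [← mul_assoc (φ x⁻¹ : Matrix (Fin n) (Fin n) Ω), e2, one_mul] }
  have hS : ∀ g : cl2 h h', g ∈ S ↔ ∀ y ∈ a, (φ g : Matrix (Fin n) (Fin n) Ω) * y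
        = R.ρ g * y * R.ρ (g : G)⁻¹ * φ g := fun g => Iff.rfl
  have hφc : FC T (fun g : cl2 h h' => (φ g : Matrix (Fin n) (Fin n) Ω)) :=
    (FC.of_continuous (T := T) (M := R.A) hφ).map R.A.val.toLinearMap
  have hρ : FC T (fun g : cl2 h h' => R.ρ (g : G)) := R.fc_rho.comp continuous_subtype_val
  have hρ' : FC T (fun g : cl2 h h' => R.ρ (g : G)⁻¹) :=
    R.fc_rho.comp (continuous_inv.comp continuous_subtype_val)
  have hSc : IsClosed (S : Set (cl2 h h')) := by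
    have e : (S : Set (cl2 h h')) = ⋂ y ∈ a, {g : cl2 h h' | (φ g : Matrix (Fin n) (Fin n) Ω) * y
        - R.ρ g * y * R.ρ (g : G)⁻¹ * φ g ∈ (⊥ : Submodule T (Matrix (Fin n) (Fin n) Ω))} := by
      ext g
      simp only [SetLike.mem_coe, hS, Set.mem_iInter, Set.mem_setOf_eq, Submodule.mem_bot,
        sub_eq_zero]
    rw [e]
    refine isClosed_biInter fun y _ => ?_
    exact FC.isClosed ((hφc.mul (FC.const y)).sub (((hρ.mul (FC.const y)).mul hρ').mul hφc)) ⊥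
  have htop := eq_top_of_cl2 S hSc h1 h2
  have : g ∈ S := by
    rw [htop]
    trivial
  exact this

/-- the condition `φ g * y = y * φ g` for all `y ∈ b` -/
theorem Rep.comm_of_gen (R : Rep p G T Ω n) {h h' : G} {φ : cl2 h h' →* R.A} (hφ : Continuous φ)
    {b : Submodule Ω (Matrix (Fin n) (Fin n) Ω)}
    (h1 : ∀ y ∈ b, (φ ⟨h, left_mem_cl2 h h'⟩ : Matrix (Fin n) (Fin n) Ω) * y
      = y * φ ⟨h, left_mem_cl2 h h'⟩)
    (h2 : ∀ y ∈ b, (φ ⟨h', right_mem_cl2 h h'⟩ : Matrix (Fin n) (Fin n) Ω) * y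
      = y * φ ⟨h', right_mem_cl2 h h'⟩) (g : cl2 h h') :
    ∀ y ∈ b, (φ g : Matrix (Fin n) (Fin n) Ω) * y = y * φ g := by
  have hφm : ∀ x y : cl2 h h', ((φ (x * y) : R.A) : Matrix (Fin n) (Fin n) Ω) = φ x * φ y := by
    intro x y
    rw [map_mul, Subalgebra.coe_mul]
  let S : Subgroup (cl2 h h') :=
    { carrier := {g | ∀ y ∈ b, (φ g : Matrix (Fin n) (Fin n) Ω) * y = y * φ g}
      one_mem' := by
        intro y _
        simp
      mul_mem' := by
        intro x z hx hz y hy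
        rw [hφm, mul_assoc, hz y hy, ← mul_assoc, hx y hy, mul_assoc]
      inv_mem' := by
        intro x hx y hy
        have e2 : (φ x⁻¹ : Matrix (Fin n) (Fin n) Ω) * φ x = 1 := by
          rw [← hφm, inv_mul_cancel, map_one, Subalgebra.coe_one]
        have e3 : (φ x : Matrix (Fin n) (Fin n) Ω) * φ x⁻¹ = 1 := by
          rw [← hφm, mul_inv_cancel, map_one, Subalgebra.coe_one]
        calc (φ x⁻¹ : Matrix (Fin n) (Fin n) Ω) * y
            = φ x⁻¹ * (y * φ x) * φ x⁻¹ := by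
              rw [mul_assoc, mul_assoc, e3, mul_one]
          _ = φ x⁻¹ * (φ x * y) * φ x⁻¹ := by rw [hx y hy]
          _ = y * φ x⁻¹ := by
              rw [← mul_assoc (φ x⁻¹ : Matrix (Fin n) (Fin n) Ω), e2, one_mul] }
  have hS : ∀ g : cl2 h h', g ∈ S ↔ ∀ y ∈ b, (φ g : Matrix (Fin n) (Fin n) Ω) * y
        = y * φ g := fun g => Iff.rfl
  have hφc : FC T (fun g : cl2 h h' => (φ g : Matrix (Fin n) (Fin n) Ω)) :=
    (FC.of_continuous (T := T) (M := R.A) hφ).map R.A.val.toLinearMap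
  have hSc : IsClosed (S : Set (cl2 h h')) := by
    have e : (S : Set (cl2 h h')) = ⋂ y ∈ b, {g : cl2 h h' | (φ g : Matrix (Fin n) (Fin n) Ω) * y
        - y * φ g ∈ (⊥ : Submodule T (Matrix (Fin n) (Fin n) Ω))} := by
      ext g
      simp only [SetLike.mem_coe, hS, Set.mem_iInter, Set.mem_setOf_eq, Submodule.mem_bot,
        sub_eq_zero]
    rw [e]
    refine isClosed_biInter fun y _ => ?_
    exact FC.isClosed ((hφc.mul (FC.const y)).sub ((FC.const y).mul hφc)) ⊥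
  have htop := eq_top_of_cl2 S hSc h1 h2
  have : g ∈ S := by
    rw [htop]
    trivial
  exact this

/-- an injective continuous homomorphism to the order is a representation -/
theorem Rep.exists_ofHom (R : Rep p G T Ω n) (F : Subgroup G) {φ : F →* R.A} (hφ : Continuous φ)
    (hi : Function.Injective φ) :
    ∃ R' : Rep p F T Ω n, ∀ g, R'.ρ g = (φ g : Matrix (Fin n) (Fin n) Ω) := by
  let θ : F →* Matrix (Fin n) (Fin n) Ω := (R.A.val : R.A →* Matrix (Fin n) (Fin n) Ω).comp φ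
  have hθ : ∀ g, θ g = (φ g : Matrix (Fin n) (Fin n) Ω) := fun g => rfl
  have hle : repAlg T θ ≤ R.A := Algebra.adjoin_le (by rintro _ ⟨g, rfl⟩; exact (φ g).2)
  have hfin : Module.Finite T (repAlg T θ) :=
    Module.Finite.of_injective (Subalgebra.inclusion hle).toLinearMap
      (Subalgebra.inclusion_injective hle)
  refine ⟨{ ρ := θ, inj := fun x y hxy => hi (Subtype.ext hxy), fin := hfin, cont := ?_,
            pnil := R.pnil, tinj := R.tinj }, hθ⟩
  letI : TopologicalSpace (repAlg T θ) := moduleTopology T _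
  haveI : IsModuleTopology T (repAlg T θ) := ⟨rfl⟩
  have e := isClosedEmbedding_of_injective (T := T) (Subalgebra.inclusion hle).toLinearMap
    (Subalgebra.inclusion_injective hle)
  rw [e.continuous_iff]
  exact hφ

/-- one of the two homomorphisms -/
theorem Rep.exists_half (R : Rep p G T Ω n) (hG : PF p G)
    {a b : Submodule Ω (Matrix (Fin n) (Fin n) Ω)} (hab : ∀ x ∈ a, ∀ y ∈ b, x * y = y * x)
    {h h' : G} (hh : h * h' ≠ h' * h) (ha : ∀ g ∈ cl2 h h', ∀ y ∈ a, R.ρ g * y * R.ρ g⁻¹ ∈ a)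
    {α β α' β' : R.A} (hα : (α : Matrix (Fin n) (Fin n) Ω) ∈ pk p R.A 2)
    (hβ : (β : Matrix (Fin n) (Fin n) Ω) ∈ pk p R.A 2)
    (hα' : (α' : Matrix (Fin n) (Fin n) Ω) ∈ pk p R.A 2)
    (hβ' : (β' : Matrix (Fin n) (Fin n) Ω) ∈ pk p R.A 2)
    (hαa : (α : Matrix (Fin n) (Fin n) Ω) ∈ a) (hβb : (β : Matrix (Fin n) (Fin n) Ω) ∈ b)
    (hαa' : (α' : Matrix (Fin n) (Fin n) Ω) ∈ a) (hβb' : (β' : Matrix (Fin n) (Fin n) Ω) ∈ b)
    (hx : R.Lg h ((α : Matrix (Fin n) (Fin n) Ω) + β))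
    (hx' : R.Lg h' ((α' : Matrix (Fin n) (Fin n) Ω) + β')) :
    ∃ φ : cl2 h h' →* R.A, Continuous φ ∧
      (∀ g : cl2 h h', ∀ y ∈ a, (φ g : Matrix (Fin n) (Fin n) Ω) * y
        = R.ρ g * y * R.ρ (g : G)⁻¹ * φ g) ∧
      ∀ g : cl2 h h', ∀ y ∈ b, (φ g : Matrix (Fin n) (Fin n) Ω) * y = y * φ g := by
  obtain ⟨φ, hφ, h1, h2, -⟩ := exists_hom_units hG.proP hG.lift hh R.pideal_sq
    (Rep.zexp_sub_one_mem hα) (Rep.zexp_sub_one_mem hα')
  rw [add_sub_cancel] at h1 h2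
  -- the exponential of `α` commutes with `b`
  have c1 : ∀ x : R.A, (x : Matrix (Fin n) (Fin n) Ω) ∈ pk p R.A 2 →
      (x : Matrix (Fin n) (Fin n) Ω) ∈ a → ∀ y ∈ b,
      ((zexp x : R.A) : Matrix (Fin n) (Fin n) Ω) * y = y * (zexp x : R.A) := by
    intro x hx1 hx2 y hy
    have := Rep.zexp_mem_sub hx1 (Subalgebra.centralizer Ω {y}) (by
      rw [Subalgebra.mem_centralizer_iff]
      intro z hz
      rw [Set.mem_singleton_iff.1 hz]
      exact (hab _ hx2 y hy).symm)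
    rw [Subalgebra.mem_centralizer_iff] at this
    exact (this y rfl).symm
  have c2 : ∀ x : R.A, (x : Matrix (Fin n) (Fin n) Ω) ∈ pk p R.A 2 →
      (x : Matrix (Fin n) (Fin n) Ω) ∈ b → ∀ y ∈ a,
      ((zexp x : R.A) : Matrix (Fin n) (Fin n) Ω) * y = y * (zexp x : R.A) := by
    intro x hx1 hx2 y hy
    have := Rep.zexp_mem_sub hx1 (Subalgebra.centralizer Ω {y}) (by
      rw [Subalgebra.mem_centralizer_iff]
      intro z hz
      rw [Set.mem_singleton_iff.1 hz]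
      exact hab y hy _ hx2)
    rw [Subalgebra.mem_centralizer_iff] at this
    exact (this y rfl).symm
  have c3 : ∀ (g : G) (x y : R.A), (x : Matrix (Fin n) (Fin n) Ω) ∈ pk p R.A 2 →
      (y : Matrix (Fin n) (Fin n) Ω) ∈ pk p R.A 2 → (x : Matrix (Fin n) (Fin n) Ω) ∈ a →
      (y : Matrix (Fin n) (Fin n) Ω) ∈ b →
      R.Lg g ((x : Matrix (Fin n) (Fin n) Ω) + y) → ∀ z ∈ a,
      ((zexp x : R.A) : Matrix (Fin n) (Fin n) Ω) * z = R.ρ g * z * R.ρ g⁻¹ * (zexp x : R.A) := by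
    intro g x y hx1 hy1 hx2 hy2 hl z hz
    obtain ⟨w, hw, -, hwz⟩ := hl
    have hw' : w = x + y := Subtype.ext (by rw [hw]; rfl)
    have hxy : x * y = y * x := Subtype.ext (hab _ hx2 _ hy2)
    rw [hw', zexp_add R.pnilA hx1 hy1 hxy] at hwz
    have hwz' : R.j g = zexp y * zexp x := by
      rw [← zexp_add R.pnilA hy1 hx1 hxy.symm, add_comm, zexp_add R.pnilA hx1 hy1 hxy, hwz]
    have e1 : R.ρ g = ((zexp x : R.A) : Matrix (Fin n) (Fin n) Ω) * (zexp y : R.A) := by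
      rw [← R.j_coe, ← hwz, Subalgebra.coe_mul]
    have e2 : R.ρ g = ((zexp y : R.A) : Matrix (Fin n) (Fin n) Ω) * (zexp x : R.A) := by
      rw [← R.j_coe, hwz', Subalgebra.coe_mul]
    have e3 : ((zexp y : R.A) : Matrix (Fin n) (Fin n) Ω) * ((zexp x : R.A) * R.ρ g⁻¹) = 1 := by
      rw [← mul_assoc, ← e2, ← map_mul, mul_inv_cancel, map_one]
    have e4 : R.ρ g⁻¹ * R.ρ g = 1 := by rw [← map_mul, inv_mul_cancel, map_one]
    have e5 : ((zexp x : R.A) : Matrix (Fin n) (Fin n) Ω) * z * (zexp y : R.A)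
        = R.ρ g * z * R.ρ g⁻¹ * (zexp x : R.A) * (zexp y : R.A) := by
      rw [mul_assoc, ← c2 y hy1 hy2 z hz, ← mul_assoc, ← e1, mul_assoc _ _ ((zexp y : R.A) :
        Matrix (Fin n) (Fin n) Ω), ← e1, mul_assoc (R.ρ g * z), e4, mul_one]
    have e6 := congrArg (fun m => m * (((zexp x : R.A) : Matrix (Fin n) (Fin n) Ω) * R.ρ g⁻¹)) e5
    rw [mul_assoc _ ((zexp y : R.A) : Matrix (Fin n) (Fin n) Ω), e3, mul_one,
      mul_assoc _ ((zexp y : R.A) : Matrix (Fin n) (Fin n) Ω), e3, mul_one] at e6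
    exact e6
  refine ⟨φ, hφ, R.conj_of_gen hφ ha ?_ ?_, R.comm_of_gen hφ ?_ ?_⟩
  · rw [h1]
    exact c3 h α β hα hβ hαa hβb hx
  · rw [h2]
    exact c3 h' α' β' hα' hβ' hαa' hβb' hx'
  · rw [h1]
    exact c1 α hα hαa
  · rw [h2]
    exact c1 α' hα' hαa'

/-- an injective homomorphism commutes only with scalars -/
theorem Rep.eq_bot_of_inj [IsDomain T] (R : Rep p G T Ω n) (hn : n ≠ 0)
    (nmin : ∀ m, HasRep.{u, v} p m → n ≤ m) {F : Subgroup G} (hF : IsClosed (F : Set G))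
    (hPF : PF p F) {φ : F →* R.A} (hφ : Continuous φ) (hi : Function.Injective φ)
    {b : Submodule Ω (Matrix (Fin n) (Fin n) Ω)}
    (hb : ∀ g : F, ∀ y ∈ b, (φ g : Matrix (Fin n) (Fin n) Ω) * y = y * φ g)
    (htr : ∀ y ∈ b, y.trace = 0) : b = ⊥ := by
  obtain ⟨R', hR'⟩ := R.exists_ofHom F hφ hi
  haveI : CompactSpace F := isCompact_iff_compactSpace.1 hF.isCompact
  have hspan := R'.span_top nmin hPF
  rw [eq_bot_iff]
  intro y hy
  rw [Submodule.mem_bot]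
  refine eq_zero_of_comm hn hspan ?_ (htr y hy)
  rintro _ ⟨g, rfl⟩
  rw [hR']
  exact (hb g y hy).symm

/-- the two homomorphisms -/
theorem Rep.split_bot [IsDomain T] (R : Rep p G T Ω n) (hG : PF p G) (hn : n ≠ 0)
    (nmin : ∀ m, HasRep.{u, v} p m → n ≤ m)
    {a b : Submodule Ω (Matrix (Fin n) (Fin n) Ω)} (hab : ∀ x ∈ a, ∀ y ∈ b, x * y = y * x)
    {h h' : G} (hh : h * h' ≠ h' * h) (ha : ∀ g ∈ cl2 h h', ∀ y ∈ a, R.ρ g * y * R.ρ g⁻¹ ∈ a)
    (hb : ∀ g ∈ cl2 h h', ∀ y ∈ b, R.ρ g * y * R.ρ g⁻¹ ∈ b)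
    (htra : ∀ y ∈ a, y.trace = 0) (htrb : ∀ y ∈ b, y.trace = 0)
    (hf : ∀ g : G, (∀ x ∈ a, R.ρ g * x * R.ρ g⁻¹ = x) → (∀ x ∈ b, R.ρ g * x * R.ρ g⁻¹ = x) → g = 1)
    {α β α' β' : R.A} (hα : (α : Matrix (Fin n) (Fin n) Ω) ∈ pk p R.A 2)
    (hβ : (β : Matrix (Fin n) (Fin n) Ω) ∈ pk p R.A 2)
    (hα' : (α' : Matrix (Fin n) (Fin n) Ω) ∈ pk p R.A 2)
    (hβ' : (β' : Matrix (Fin n) (Fin n) Ω) ∈ pk p R.A 2)
    (hαa : (α : Matrix (Fin n) (Fin n) Ω) ∈ a) (hβb : (β : Matrix (Fin n) (Fin n) Ω) ∈ b)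
    (hαa' : (α' : Matrix (Fin n) (Fin n) Ω) ∈ a) (hβb' : (β' : Matrix (Fin n) (Fin n) Ω) ∈ b)
    (hx : R.Lg h ((α : Matrix (Fin n) (Fin n) Ω) + β))
    (hx' : R.Lg h' ((α' : Matrix (Fin n) (Fin n) Ω) + β')) : a = ⊥ ∨ b = ⊥ := by
  obtain ⟨φ, hφ, φa, φb⟩ := R.exists_half hG hab hh ha hα hβ hα' hβ' hαa hβb hαa' hβb' hx hx'
  obtain ⟨ψ, hψ, ψb, ψa⟩ := R.exists_half hG (fun x hx y hy => (hab y hy x hx).symm) hh hb hβ hα
    hβ' hα' hβb hαa hβb' hαa' (by rwa [add_comm]) (by rwa [add_comm])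
  have hFc : IsClosed ((cl2 h h' : Subgroup G) : Set G) := isClosed_cl2 h h'
  have hPF : PF p (cl2 h h') :=
    hG.sub hFc ⟨h, left_mem_cl2 h h', h', right_mem_cl2 h h', hh⟩
  haveI : CompactSpace (cl2 h h') := isCompact_iff_compactSpace.1 hFc.isCompact
  by_cases h1 : Function.Injective φ
  · exact Or.inr (R.eq_bot_of_inj hn nmin hFc hPF hφ h1 φb htrb)
  by_cases h2 : Function.Injective ψ
  · exact Or.inl (R.eq_bot_of_inj hn nmin hFc hPF hψ h2 ψa htra)
  exfalso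
  -- kernels
  have hk : ∀ θ : cl2 h h' →* R.A, ¬ Function.Injective θ → ∃ N : Subgroup (cl2 h h'), N.Normal ∧
      N ≠ ⊥ ∧ ∀ g ∈ N, θ g = 1 := by
    intro θ hθ
    refine ⟨θ.ker, inferInstance, fun hbot => hθ ((MonoidHom.ker_eq_bot_iff θ).1 hbot),
      fun g hg => hg⟩
  obtain ⟨N, hN, hN1, hNφ⟩ := hk φ h1
  obtain ⟨N', hN', hN1', hNψ⟩ := hk ψ h2
  have h3 := normal_inter hPF.proP hPF.lift N N' hN hN' hN1 hN1' hPF.nc
  obtain ⟨g, hg⟩ := Subgroup.ne_bot_iff_exists_ne_one.1 h3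
  have hgN := hNφ g.1 g.2.1
  have hgN' := hNψ g.1 g.2.2
  apply hg
  apply Subtype.ext
  apply Subtype.ext
  refine hf ((g : cl2 h h') : G) ?_ ?_
  · intro x hx
    have h4 := φa g x hx
    rw [hgN, Subalgebra.coe_one, one_mul, mul_one] at h4
    exact h4.symm
  · intro x hx
    have h4 := ψb g x hx
    rw [hgN', Subalgebra.coe_one, one_mul, mul_one] at h4
    exact h4.symm

/-- **The Lie algebra of a normal subgroup is simple.** The complement `b` of the ideal `a` is the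
centralizer of `a`. With a common denominator `c` (`Rep.exists_decomp`), the logarithms of two
noncommuting elements of `H`, congruent to `1` modulo `p ^ 2 * c`, are sums of elements of `p ^ 2 A'` in
`a` and in `b`; `Rep.split_bot`. -/
theorem lie_simple (hR : MCore.{u, v} R k) {H : Subgroup G} (hHn : H.Normal)
    (hHc : IsClosed (H : Set G)) (hH1 : H ≠ ⊥) (hH2 : H ≤ R.NI (Ideal.span {(p : T) ^ 2}))
    (a : Submodule Ω (Matrix (Fin n) (Fin n) Ω)) (haL : a ≤ R.lie H)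
    (hag : ∀ g ∈ H, ∀ y ∈ a, R.ρ g * y * R.ρ g⁻¹ ∈ a) : a = ⊥ ∨ a = R.lie H := by
  by_contra hcon
  push Not at hcon
  obtain ⟨ha0, haL'⟩ := hcon
  have hdom : IsDomain T := R.tinj.isDomain
  have hn : n ≠ 0 := by
    rintro rfl
    obtain ⟨x, y, hxy⟩ := hR.pf.nc
    exact hxy (R.inj (Subsingleton.elim _ _))
  have hspanH : Submodule.span Ω (R.ρ '' (H : Set G)) = ⊤ := Rep.span_of_normal hR hHn hHc hH1
  have hspanA : Submodule.span Ω (R.A : Set (Matrix (Fin n) (Fin n) Ω)) = ⊤ := by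
    rw [eq_top_iff, ← hspanH]
    refine Submodule.span_mono ?_
    rintro _ ⟨g, -, rfl⟩
    exact (R.j g).2
  have htr : ∀ x ∈ R.lie H, x.trace = 0 := fun x hx => Rep.lie_trace hn hspanA hR.det hx
  -- `a` is an ideal
  have haid : ∀ x ∈ R.lie H, ∀ y ∈ a, x * y - y * x ∈ a := by
    intro x hx y hy
    refine Submodule.span_induction (p := fun x _ => x * y - y * x ∈ a) ?_ ?_ ?_ ?_ hx
    · rintro x ⟨g, hg, h⟩
      exact h.ad_mem a (fun m y hy => hag _ (H.pow_mem hg m) y hy) hy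
    · rw [zero_mul, mul_zero, sub_zero]
      exact zero_mem _
    · intro x x' _ _ h1 h2
      have e : (x + x') * y - y * (x + x') = (x * y - y * x) + (x' * y - y * x') := by
        noncomm_ring
      rw [e]
      exact add_mem h1 h2
    · intro c x _ h1
      rw [smul_mul_assoc, mul_smul_comm, ← smul_sub]
      exact a.smul_mem _ h1
  obtain ⟨b, hbL, hbid, hinf, hsup, hab⟩ := exists_complement (Nat.pos_of_ne_zero hn) (R.lie H)
    (fun x hx y hy => Rep.lie_bracket hx hy) htr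
    (fun U hU => Rep.lie_irred hH2 hspanH U hU) a haL haid
  have hb0 : b ≠ ⊥ := by
    rintro rfl
    exact haL' (by rw [← hsup, sup_bot_eq])
  -- `b` is stable
  have hbg : ∀ g ∈ H, ∀ y ∈ b, R.ρ g * y * R.ρ g⁻¹ ∈ b := by
    intro g hg y hy
    have h1 : R.ρ g * y * R.ρ g⁻¹ ∈ R.lie H := Rep.lie_conj hHn g (hbL hy)
    have e1 : R.ρ g * R.ρ g⁻¹ = 1 := by rw [← map_mul, mul_inv_cancel, map_one]
    have e2 : R.ρ g⁻¹ * R.ρ g = 1 := by rw [← map_mul, inv_mul_cancel, map_one]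
    -- it commutes with `a`
    have h2 : ∀ u ∈ a, R.ρ g * y * R.ρ g⁻¹ * u = u * (R.ρ g * y * R.ρ g⁻¹) := by
      intro u hu
      have h3 := hag _ (H.inv_mem hg) u hu
      rw [inv_inv] at h3
      have h4 := hab _ h3 y hy
      calc R.ρ g * y * R.ρ g⁻¹ * u
          = R.ρ g * (y * (R.ρ g⁻¹ * u * R.ρ g)) * R.ρ g⁻¹ := by
            simp only [mul_assoc, e1, mul_one]
        _ = R.ρ g * (R.ρ g⁻¹ * u * R.ρ g * y) * R.ρ g⁻¹ := by rw [h4]
        _ = R.ρ g * R.ρ g⁻¹ * (u * (R.ρ g * y * R.ρ g⁻¹)) := by simp only [mul_assoc]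
        _ = _ := by rw [e1, one_mul]
    rw [← hsup] at h1
    obtain ⟨u, hu, v, hv, huv⟩ := Submodule.mem_sup.1 h1
    have h5 : ∀ x ∈ R.lie H, u * x = x * u := by
      intro x hx
      rw [← hsup] at hx
      obtain ⟨w, hw, w', hw', rfl⟩ := Submodule.mem_sup.1 hx
      have h6 : u * w = w * u := by
        have h7 := h2 w hw
        rw [← huv, add_mul, mul_add, hab w hw v hv] at h7
        exact add_right_cancel h7
      rw [mul_add, add_mul, h6, hab u hu w' hw']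
    have h6 : u = 0 := eq_zero_of_comm hn hspanH (fun x _ => Rep.comm_of_lie hH2 hspanH h5 x)
      (htr u (haL hu))
    rw [← huv, h6, zero_add]
    exact hv
  -- denominators
  obtain ⟨T', hT', c, hc, hdec⟩ := R.exists_decomp hR.alg hspanA a b
  letI tT : TopologicalSpace T' := moduleTopology T T'
  haveI mT : IsModuleTopology T T' := ⟨rfl⟩
  haveI cT : CNR T' := cnr_of_finite T T'
  have hinj : Function.Injective (algebraMap T' Ω) := Subtype.val_injective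
  have hp0 : (p : T) ≠ 0 := by
    intro h
    have := congrArg (algebraMap T Ω) h
    rw [map_natCast, map_zero] at this
    exact hp.out.ne_zero (Nat.cast_eq_zero.1 this)
  have hpc : (p : T) ^ 2 * c ≠ 0 := mul_ne_zero (pow_ne_zero _ hp0) hc
  obtain ⟨g0, hg0, hg01⟩ := hR.deep_top hpc
  set N := R.NI (Ideal.span {(p : T) ^ 2 * c}) with hN
  have hNn : N.Normal := R.NI_normal _
  have hN1 : N ≠ ⊥ := by
    intro h
    rw [h, Subgroup.mem_bot] at hg0
    exact hg01 hg0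
  have hK1 : H ⊓ N ≠ ⊥ := normal_inter hR.pf.proP hR.pf.lift H N hHn hNn hH1 hN1 hR.pf.nc
  have hKn : (H ⊓ N).Normal := Subgroup.normal_inf_normal H N
  obtain ⟨h, hh, h', hh', hne⟩ := normal_noncomm hR.pf.proP hR.pf.lift (H ⊓ N) hKn hK1 hR.pf.nc
  -- logarithms
  have hpcΩ : algebraMap T Ω ((p : T) ^ 2 * c) ≠ 0 := by
    intro h
    exact hpc (R.tinj (by rw [h, map_zero]))
  have hlog : ∀ g ∈ H ⊓ N, ∃ α β : (R.base T' hinj).A,
      (α : Matrix (Fin n) (Fin n) Ω) ∈ pk p (R.base T' hinj).A 2 ∧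
      (β : Matrix (Fin n) (Fin n) Ω) ∈ pk p (R.base T' hinj).A 2 ∧
      (α : Matrix (Fin n) (Fin n) Ω) ∈ a ∧ (β : Matrix (Fin n) (Fin n) Ω) ∈ b ∧
      (R.base T' hinj).Lg g ((α : Matrix (Fin n) (Fin n) Ω) + β) := by
    intro g hg
    obtain ⟨x, hx⟩ := Rep.exists_Lg (hH2 hg.1)
    obtain ⟨y, hy⟩ := hx.level (dvd_mul_right _ _) hg.2
    have hxL : x ∈ R.lie H := hx.mem_lie hg.1
    have hy' : x = algebraMap T Ω ((p : T) ^ 2 * c) • (y : Matrix (Fin n) (Fin n) Ω) := by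
      rw [hy, algebraMap_smul]
      rfl
    have hyL : (y : Matrix (Fin n) (Fin n) Ω) ∈ a ⊔ b := by
      rw [hsup]
      rw [hy'] at hxL
      exact (Submodule.smul_mem_iff _ hpcΩ).1 hxL
    obtain ⟨u, hu, v, hv, huv, hu', hv'⟩ := hdec y y.2 hyL
    have hm : ∀ w : Matrix (Fin n) (Fin n) Ω, c • w ∈ repAlg T' R.ρ →
        ((p : T) ^ 2 * c) • w ∈ pk p (R.base T' hinj).A 2 := by
      intro w hw
      refine ⟨c • w, hw, ?_⟩
      rw [mul_smul, Algebra.smul_def ((p : T) ^ 2), map_pow, map_natCast]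
    have e : ∀ w : Matrix (Fin n) (Fin n) Ω, ((p : T) ^ 2 * c) • w
        = (algebraMap T Ω ((p : T) ^ 2 * c)) • w := fun w =>
        (algebraMap_smul Ω _ w).symm
    refine ⟨⟨_, pk_le (hm u hu')⟩, ⟨_, pk_le (hm v hv')⟩, hm u hu', hm v hv', ?_, ?_, ?_⟩
    · change ((p : T) ^ 2 * c) • u ∈ a
      rw [e]
      exact a.smul_mem _ hu
    · change ((p : T) ^ 2 * c) • v ∈ b
      rw [e]
      exact b.smul_mem _ hv
    · change (R.base T' hinj).Lg g (((p : T) ^ 2 * c) • u + ((p : T) ^ 2 * c) • v)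
      rw [← smul_add, ← huv, e, ← hy']
      exact hx.base hinj
  obtain ⟨α, β, h1, h2, h3, h4, h5⟩ := hlog h hh
  obtain ⟨α', β', h1', h2', h3', h4', h5'⟩ := hlog h' hh'
  have hcl : cl2 h h' ≤ H := cl2_le hHc hh.1 hh'.1
  have hdom' : IsDomain T' := inferInstance
  rcases (R.base T' hinj).split_bot hR.pf hn hR.opt.nmin hab hne
    (fun g hg y hy => hag g (hcl hg) y hy) (fun g hg y hy => hbg g (hcl hg) y hy)
    (fun y hy => htr y (haL hy)) (fun y hy => htr y (hbL hy)) (fun g hga hgb => by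
      refine Rep.lie_faithful hR.pf hH2 hspanH fun x hx => ?_
      rw [← hsup] at hx
      obtain ⟨w, hw, w', hw', rfl⟩ := Submodule.mem_sup.1 hx
      have e1 := hga w hw
      have e2 := hgb w' hw'
      rw [Rep.base_ρ] at e1 e2
      rw [mul_add, add_mul, e1, e2]) h1 h2 h1' h2' h3 h4 h3' h4' h5 h5' with h6 | h6
  · exact ha0 h6
  · exact hb0 h6

end

end MP35
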