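import Pool.Agent.Lib_MP_3538b5_al.ZLie
import Pool.Agent.Lib_MP_3538b5_al.LTop

/-! # Ideals, traces and irreducibility -/

set_option autoImplicit false

namespace MP35

open Filter Topology

universe u v w

/-- PROOF. `V` is closed for the module topology of `M` (`isClosed_submodule`), and `p ^ k • w` is in any given neighbourhood of `0` for large `k` and all `w` (compactness of `M`, `compact_of_finite`; or Krull: apply the same to the finite module `M ⧸ V`). -/
theorem mem_of_approx' {p : ℕ} {T : Type v} [CommRing T] [TopologicalSpace T] [CNR T]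
    (hp : IsTopologicallyNilpotent (p : T)) {M : Type w} [AddCommGroup M] [Module T M]
    [Module.Finite T M] (V : Submodule T M) {x : M}
    (h : ∀ k : ℕ, ∃ w : M, x + (p : T) ^ k • w ∈ V) : x ∈ V := by
  let _ : TopologicalSpace M := moduleTopology T M
  have : IsModuleTopology T M := ⟨rfl⟩
  have : IsTopologicalAddGroup M := IsModuleTopology.topologicalAddGroup T M
  have hc : IsClosed (V : Set M) := isClosed_submodule V
  change x ∈ (V : Set M)
  rw [← hc.closure_eq, mem_closure_iff_nhds]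
  intro W hW
  have hW' : (fun z : M => x + z) ⁻¹' W ∈ 𝓝 (0 : M) := by
    have hc : Continuous fun z : M => x + z := continuous_const.add continuous_id
    apply hc.continuousAt.preimage_mem_nhds
    rwa [add_zero]
  obtain ⟨I, hI, hIU, -⟩ := exists_ideal_smul (T := T) hW'
  obtain ⟨k, hk⟩ := hp.exists_pow_mem_of_mem_nhds (hI.mem_nhds I.zero_mem)
  obtain ⟨w, hw⟩ := h k
  exact ⟨_, hIU (Submodule.smul_mem_smul hk trivial), hw⟩

/-! ### determinants with entries in a submodule -/

section det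

variable {T : Type u} [CommRing T] {Ω : Type v} [CommRing Ω] [Algebra T Ω]

/-- polynomials with coefficients in a submodule -/
def polySub (E : Submodule T Ω) : Submodule T (Polynomial Ω) where
  carrier := {f | ∀ j, f.coeff j ∈ E}
  zero_mem' := fun j => by rw [Polynomial.coeff_zero]; exact E.zero_mem
  add_mem' ha hb := fun j => by rw [Polynomial.coeff_add]; exact E.add_mem (ha j) (hb j)
  smul_mem' t f hf := fun j => by rw [Polynomial.coeff_smul]; exact E.smul_mem t (hf j)

theorem polySub_mul {E F : Submodule T Ω} {f g : Polynomial Ω} (hf : f ∈ polySub E)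
    (hg : g ∈ polySub F) : f * g ∈ polySub (E * F) := by
  intro j
  rw [Polynomial.coeff_mul]
  exact sum_mem fun i _ => Submodule.mul_mem_mul (hf _) (hg _)

theorem polySub_prod {ι : Type*} (s : Finset ι) {E : Submodule T Ω} {f : ι → Polynomial Ω}
    (hf : ∀ i ∈ s, f i ∈ polySub E) : ∏ i ∈ s, f i ∈ polySub (E ^ s.card) := by
  classical
  induction s using Finset.induction_on with
  | empty =>
    intro j
    rw [Finset.prod_empty, Finset.card_empty, pow_zero, Polynomial.coeff_one]
    split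
    · exact Submodule.one_le.1 le_rfl
    · exact Submodule.zero_mem _
  | insert a s ha ih =>
    rw [Finset.prod_insert ha, Finset.card_insert_of_notMem ha, pow_succ']
    exact polySub_mul (hf a (Finset.mem_insert_self a s))
      (ih fun i hi => hf i (Finset.mem_insert_of_mem hi))

/-- the quadratic rest of `det (1 + r Y)` -/
theorem exists_det_one_add {n : ℕ} {E : Submodule T Ω} (h1 : 1 ∈ E)
    {Y : Matrix (Fin n) (Fin n) Ω} (hY : ∀ i j, Y i j ∈ E) (r : T) :
    ∃ e ∈ E ^ n, (1 + algebraMap T Ω r • Y).det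
      = 1 + Y.trace * algebraMap T Ω r + e * algebraMap T Ω r ^ 2 := by
  classical
  refine ⟨_, ?_, Matrix.det_one_add_smul _ _⟩
  have h2 : (Matrix.det (1 + (Polynomial.X : Polynomial Ω) • Y.map Polynomial.C))
      ∈ polySub (E ^ n) := by
    rw [Matrix.det_apply]
    refine sum_mem fun σ _ => ?_
    have h3 : ∏ i, (1 + (Polynomial.X : Polynomial Ω) • Y.map Polynomial.C) (σ i) i
        ∈ polySub (E ^ n) := by
      have h4 := polySub_prod (Finset.univ : Finset (Fin n)) (E := E)
        (f := fun i => (1 + (Polynomial.X : Polynomial Ω) • Y.map Polynomial.C) (σ i) i) ?_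
      · rwa [Finset.card_univ, Fintype.card_fin] at h4
      · intro i _ j
        rw [Matrix.add_apply, Matrix.smul_apply, Matrix.map_apply, smul_eq_mul,
          Polynomial.coeff_add]
        refine E.add_mem ?_ ?_
        · rw [Matrix.one_apply]
          split
          · rw [Polynomial.coeff_one]
            split
            · exact h1
            · exact E.zero_mem
          · rw [Polynomial.coeff_zero]
            exact E.zero_mem
        · rcases j with _ | j
          · rw [Polynomial.mul_coeff_zero, Polynomial.coeff_X_zero, zero_mul]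
            exact E.zero_mem
          · rw [Polynomial.coeff_X_mul, Polynomial.coeff_C]
            split
            · exact hY _ _
            · exact E.zero_mem
    rcases Int.units_eq_one_or (Equiv.Perm.sign σ) with h | h
    · rw [h, one_smul]
      exact h3
    · rw [h, Units.neg_smul, one_smul]
      exact neg_mem h3
  rw [Polynomial.eval_eq_sum_range]
  refine sum_mem fun i _ => ?_
  rw [Polynomial.coeff_divX, Polynomial.coeff_divX, ← map_pow, mul_comm, ← Algebra.smul_def]
  exact Submodule.smul_mem _ _ (h2 _)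

end det

namespace Rep

variable {p : ℕ} [hp : Fact p.Prime] {G : Type u} [Group G] [TopologicalSpace G] {T : Type v}
  [CommRing T] [TopologicalSpace T] [CNR T] {Ω : Type v} [Field Ω] [CharZero Ω] [Algebra T Ω]
  {n : ℕ} {R : Rep p G T Ω n}

/-- PROOF. Let `M = R.lrMod` (FDefs: the finite `T`-module of the endomorphisms `y ↦ Σ a_i y b_i`, `a_i, b_i ∈ A`) and `V` its submodule of endomorphisms mapping `a` to `a`. Let `q = p ^ k`, `P = ρ (g ^ q) = 1 + q x + q ^ 2 z` (`Lg.approx`), `u = ρ (g ^ q)⁻¹`. By `bracket_aux` (ZLie) for `y ∈ a`: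
`q • (x y - y x + q • ((z y - y z) u - (x y - y x) (x + q z) u)) = P y u - y ∈ a`. So the element `y ↦ x y - y x` of `M` plus `p ^ k` times an element of `M` is in `V`, for all `k`. `mem_of_approx'`. -/
theorem Lg.ad_mem {g : G} {x : Matrix (Fin n) (Fin n) Ω} (hx : R.Lg g x)
    (a : Submodule Ω (Matrix (Fin n) (Fin n) Ω))
    (ha : ∀ m : ℕ, ∀ y ∈ a, R.ρ (g ^ m) * y * R.ρ (g ^ m)⁻¹ ∈ a) {y : Matrix (Fin n) (Fin n) Ω}
    (hy : y ∈ a) : x * y - y * x ∈ a := by
  obtain ⟨x', hx'⟩ := hx.mem
  have hx1 : (((p : T) ^ 2 • x' : R.A) : Matrix (Fin n) (Fin n) Ω) = x := hx'.symm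
  set X : R.A := (p : T) ^ 2 • x' with hX
  -- the endomorphisms preserving `a`
  let V : Submodule T R.lrMod :=
    { carrier := {f | ∀ y ∈ a, (f : Module.End Ω (Matrix (Fin n) (Fin n) Ω)) y ∈ a}
      zero_mem' := fun y _ => a.zero_mem
      add_mem' := fun hf hg y hy => a.add_mem (hf y hy) (hg y hy)
      smul_mem' := fun t f hf y hy => by
        show t • ((f : Module.End Ω (Matrix (Fin n) (Fin n) Ω)) y) ∈ a
        rw [← algebraMap_smul Ω t]
        exact a.smul_mem _ (hf y hy) }
  let F : R.A → R.A → R.A → R.lrMod := fun c d u =>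
    ⟨R.lrBil c (d * u) - R.lrBil 1 (c * (d * u)),
      sub_mem (R.lrBil_mem _ _) (R.lrBil_mem _ _)⟩
  have key : (⟨R.lrBil X 1 - R.lrBil 1 X, sub_mem (R.lrBil_mem _ _) (R.lrBil_mem _ _)⟩ : R.lrMod)
      ∈ V := by
    refine mem_of_approx' (p := p) (M := R.lrMod) R.pnil V fun k => ?_
    obtain ⟨z, hz⟩ := hx.approx k
    set u : R.A := R.j (g ^ p ^ k)⁻¹ with hu
    have hu1 : (u : Matrix (Fin n) (Fin n) Ω) = R.ρ (g ^ p ^ k)⁻¹ := rfl
    have hgu : R.ρ (g ^ p ^ k) * (u : Matrix (Fin n) (Fin n) Ω) = 1 := by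
      rw [hu1, ← map_mul, mul_inv_cancel, map_one]
    set d : R.A := (X + (p : T) ^ k • z) * u with hd
    refine ⟨⟨(R.lrBil z u - R.lrBil 1 (z * u)) - (R.lrBil X d - R.lrBil 1 (X * d)),
      sub_mem (sub_mem (R.lrBil_mem _ _) (R.lrBil_mem _ _))
        (sub_mem (R.lrBil_mem _ _) (R.lrBil_mem _ _))⟩, fun y hy => ?_⟩
    have hp0 : ((p : Ω) ^ k) ≠ 0 := pow_ne_zero _ (Nat.cast_ne_zero.2 hp.out.ne_zero)
    have hsm : ∀ M : Matrix (Fin n) (Fin n) Ω, ((p : T) ^ k) • M = (p : Ω) ^ k • M := by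
      intro M
      rw [← algebraMap_smul Ω ((p : T) ^ k) M, map_pow, map_natCast]
    have h3 := bracket_aux (Ω := Ω) ((p : Ω) ^ k) (P := R.ρ (g ^ p ^ k))
      (u := (u : Matrix (Fin n) (Fin n) Ω)) (X := (X : Matrix (Fin n) (Fin n) Ω)) (Y := y)
      (z := (z : Matrix (Fin n) (Fin n) Ω)) (by rw [hz, hx1, ← pow_mul, mul_comm k 2]) hgu
    have h4 : R.ρ (g ^ p ^ k) * y * (u : Matrix (Fin n) (Fin n) Ω) - y ∈ a :=
      a.sub_mem (ha _ y hy) hy
    rw [← h3] at h4
    have h5 := a.smul_mem ((p : Ω) ^ k)⁻¹ h4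
    rw [inv_smul_smul₀ hp0] at h5
    convert h5 using 1
    show (R.lrBil X 1 - R.lrBil 1 X) y + (p : T) ^ k •
      ((R.lrBil z u - R.lrBil 1 (z * u)) - (R.lrBil X d - R.lrBil 1 (X * d))) y = _
    have hdc : (d : Matrix (Fin n) (Fin n) Ω) = ((X : Matrix (Fin n) (Fin n) Ω)
        + (p : Ω) ^ k • (z : Matrix (Fin n) (Fin n) Ω)) * (u : Matrix (Fin n) (Fin n) Ω) := by
      rw [hd, ← hsm]
      rfl
    rw [hsm]
    simp only [LinearMap.sub_apply, lrBil_apply, MulMemClass.coe_mul, OneMemClass.coe_one,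
      one_mul, mul_one, hdc]
    congr 2
    simp only [sub_mul, mul_assoc]
  have := key y hy
  have e : ((⟨R.lrBil X 1 - R.lrBil 1 X, sub_mem (R.lrBil_mem _ _) (R.lrBil_mem _ _)⟩ : R.lrMod) :
      Module.End Ω (Matrix (Fin n) (Fin n) Ω)) y = x * y - y * x := by
    show (R.lrBil X 1 - R.lrBil 1 X) y = _
    rw [LinearMap.sub_apply, lrBil_apply, lrBil_apply, hx1, OneMemClass.coe_one, one_mul, mul_one]
  rwa [e] at this

/-- PROOF. The entries of the elements of `A` and `1` span a finite `T`-module `E ≤ Ω`; for `y ∈ A` and `q = p ^ k`: `det (1 + q y) = 1 + q tr y + q ^ 2 e` with `e ∈ E ^ n`.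
Let `x` be the logarithm of `g ∈ H`: `ρ (g ^ q) = 1 + q (x + q z)`, so `y = x + q z ∈ A` and `det (1 + q y) = 1`; so `tr x ∈ q (E ^ n + E)` for all `q = p ^ k`, and `tr x = 0` (`mem_of_approx'`). Extend linearly to the span. -/
theorem lie_trace [IsAlgClosed Ω] (_hn : n ≠ 0)
    (_hspan : Submodule.span Ω (R.A : Set (Matrix (Fin n) (Fin n) Ω)) = ⊤)
    (hdet : ∀ g, (R.ρ g).det = 1) {H : Subgroup G} {x : Matrix (Fin n) (Fin n) Ω}
    (hx : x ∈ R.lie H) : x.trace = 0 := by
  classical
  refine Submodule.span_induction (p := fun x _ => x.trace = 0) ?_ ?_ ?_ ?_ hx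
  · rintro x ⟨g, -, hx⟩
    obtain ⟨x', hx'⟩ := hx.mem
    -- the module of entries
    let ent : Fin n → Fin n → R.A →ₗ[T] Ω := fun i j =>
      { toFun := fun a => (a : Matrix (Fin n) (Fin n) Ω) i j
        map_add' := fun _ _ => rfl
        map_smul' := fun _ _ => rfl }
    let E : Submodule T Ω := Submodule.span T {1} ⊔ ⨆ i, ⨆ j, LinearMap.range (ent i j)
    have hEfg : E.FG := by
      refine (Submodule.fg_span_singleton _).sup ?_
      refine Submodule.fg_iSup _ fun i => Submodule.fg_iSup _ fun j => ?_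
      exact Module.Finite.iff_fg.1 (Module.Finite.range (ent i j))
    have h1 : (1 : Ω) ∈ E := Submodule.mem_sup_left (Submodule.mem_span_singleton_self _)
    have hent : ∀ (a : R.A) (i j), (a : Matrix (Fin n) (Fin n) Ω) i j ∈ E := fun a i j =>
      Submodule.mem_sup_right (Submodule.mem_iSup_of_mem i (Submodule.mem_iSup_of_mem j ⟨a, rfl⟩))
    have htr : ∀ a : R.A, (a : Matrix (Fin n) (Fin n) Ω).trace ∈ E := fun a =>
      sum_mem fun i _ => hent a i i
    let N : Submodule T Ω := E ^ n ⊔ E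
    have hNfg : N.FG := (hEfg.pow n).sup hEfg
    have hNfin : Module.Finite T N := Module.Finite.iff_fg.2 hNfg
    have hxN : x.trace ∈ N := by
      rw [hx']
      exact Submodule.mem_sup_right (htr _)
    have key : (⟨x.trace, hxN⟩ : N) ∈ (⊥ : Submodule T N) := by
      refine mem_of_approx' (p := p) R.pnil _ fun k => ?_
      obtain ⟨z, hz⟩ := hx.approx k
      set Y : R.A := (p : T) ^ 2 • x' + (p : T) ^ k • z with hY
      obtain ⟨e, he, hed⟩ := exists_det_one_add h1 (hent Y) ((p : T) ^ k)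
      have hp0 : ((p : Ω) ^ k) ≠ 0 := pow_ne_zero _ (Nat.cast_ne_zero.2 hp.out.ne_zero)
      have hpk : algebraMap T Ω ((p : T) ^ k) = (p : Ω) ^ k := by rw [map_pow, map_natCast]
      have hsm : ∀ M : Matrix (Fin n) (Fin n) Ω, ((p : T) ^ k) • M = (p : Ω) ^ k • M := by
        intro M
        rw [← algebraMap_smul Ω ((p : T) ^ k) M, hpk]
      have hYc : (Y : Matrix (Fin n) (Fin n) Ω)
          = x + (p : Ω) ^ k • (z : Matrix (Fin n) (Fin n) Ω) := by
        rw [hx', ← hsm]
        rfl
      have hPY : (1 + (p : Ω) ^ k • (Y : Matrix (Fin n) (Fin n) Ω)) = R.ρ (g ^ p ^ k) := by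
        rw [hz, hYc, smul_add, smul_smul, ← pow_add, ← two_mul, add_assoc]
      rw [hpk, hPY, hdet] at hed
      have h5 : (Y : Matrix (Fin n) (Fin n) Ω).trace = -(e * (p : Ω) ^ k) := by
        have h6 : ((Y : Matrix (Fin n) (Fin n) Ω).trace + e * (p : Ω) ^ k) * (p : Ω) ^ k = 0 := by
          linear_combination -hed
        rcases mul_eq_zero.1 h6 with h7 | h7
        · exact eq_neg_of_add_eq_zero_left h7
        · exact absurd h7 hp0
      have h8 : (Y : Matrix (Fin n) (Fin n) Ω).trace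
          = x.trace + (p : Ω) ^ k * (z : Matrix (Fin n) (Fin n) Ω).trace := by
        rw [hYc, Matrix.trace_add, Matrix.trace_smul, smul_eq_mul]
      refine ⟨⟨e + (z : Matrix (Fin n) (Fin n) Ω).trace,
        N.add_mem (Submodule.mem_sup_left he) (Submodule.mem_sup_right (htr z))⟩, ?_⟩
      rw [Submodule.mem_bot]
      apply Subtype.ext
      show x.trace + (p : T) ^ k • (e + (z : Matrix (Fin n) (Fin n) Ω).trace) = 0
      rw [Algebra.smul_def, hpk]
      linear_combination h5 - h8
    exact congrArg Subtype.val ((Submodule.mem_bot T).1 key)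
  · exact Matrix.trace_zero _ _
  · intro a b _ _ ha hb
    rw [Matrix.trace_add, ha, hb, add_zero]
  · intro c a _ ha
    rw [Matrix.trace_smul, ha, smul_zero]

/-- PROOF. The matrices mapping `U` to `U` form a subalgebra `W` over `Ω` containing `R.lie H`, so by `Lg.mem_iff` (`exists_Lg`) it contains `ρ(H)` and its span, all matrices. -/
theorem lie_irred {H : Subgroup G} (hH2 : H ≤ R.NI (Ideal.span {(p : T) ^ 2}))
    (hspan : Submodule.span Ω (R.ρ '' (H : Set G)) = ⊤) (U : Submodule Ω (Fin n → Ω))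
    (hU : ∀ x ∈ R.lie H, ∀ v ∈ U, Matrix.mulVec x v ∈ U) : U = ⊥ ∨ U = ⊤ := by
  classical
  let W : Subalgebra Ω (Matrix (Fin n) (Fin n) Ω) :=
    { carrier := {m | ∀ v ∈ U, Matrix.mulVec m v ∈ U}
      mul_mem' := fun {a b} ha hb v hv => by
        rw [← Matrix.mulVec_mulVec]
        exact ha _ (hb v hv)
      add_mem' := fun {a b} ha hb v hv => by
        rw [Matrix.add_mulVec]
        exact U.add_mem (ha v hv) (hb v hv)
      algebraMap_mem' := fun c v hv => by
        rw [Algebra.algebraMap_eq_smul_one, Matrix.smul_mulVec, Matrix.one_mulVec]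
        exact U.smul_mem c hv }
  have hW : ∀ m, m ∈ W ↔ ∀ v ∈ U, Matrix.mulVec m v ∈ U := fun m => Iff.rfl
  have h1 : Submodule.span Ω (R.ρ '' (H : Set G)) ≤ Subalgebra.toSubmodule W := by
    rw [Submodule.span_le]
    rintro _ ⟨g, hg, rfl⟩
    obtain ⟨x, hx⟩ := exists_Lg (hH2 hg)
    exact (hx.mem_iff W).2 fun v hv => hU x (hx.mem_lie hg) v hv
  rw [hspan] at h1
  have h2 : ∀ m, m ∈ W := fun m => h1 trivial
  by_cases hb : U = ⊥
  · exact Or.inl hb
  · right
    obtain ⟨v, hv, hv0⟩ := (Submodule.ne_bot_iff U).1 hb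
    obtain ⟨i, hi⟩ : ∃ i, v i ≠ 0 := by
      by_contra hcon
      push Not at hcon
      exact hv0 (funext hcon)
    rw [eq_top_iff]
    intro w _
    have h3 := (hW _).1 (h2 (Matrix.vecMulVec w (Pi.single i (v i)⁻¹))) v hv
    have h4 : Matrix.mulVec (Matrix.vecMulVec w (Pi.single i (v i)⁻¹)) v = w := by
      ext j
      rw [Matrix.mulVec, dotProduct]
      rw [Finset.sum_eq_single i]
      · rw [Matrix.vecMulVec_apply, Pi.single_eq_same, mul_assoc, inv_mul_cancel₀ hi, mul_one]
      · intro k _ hk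
        rw [Matrix.vecMulVec_apply, Pi.single_eq_of_ne hk, mul_zero, zero_mul]
      · intro h
        exact absurd (Finset.mem_univ i) h
    rwa [h4] at h3

/-- PROOF. `Rep.span_top` for the representation `R.res H` of the closed noncommutative group `H` (`PF.sub`, `normal_noncomm`). -/
theorem span_of_normal [IsTopologicalGroup G] [CompactSpace G] [T2Space G]
    [TotallyDisconnectedSpace G] [IsAlgClosed Ω] {k : ℕ} (hR : MCore.{u, v} R k) {H : Subgroup G}
    (hHn : H.Normal) (hHc : IsClosed (H : Set G)) (hH1 : H ≠ ⊥) :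
    Submodule.span Ω (R.ρ '' (H : Set G)) = ⊤ := by
  have hnc := normal_noncomm hR.pf.proP hR.pf.lift H hHn hH1 hR.pf.nc
  have hdom : IsDomain T := R.tinj.isDomain (algebraMap T Ω)
  have : CompactSpace H := isCompact_iff_compactSpace.1 hHc.isCompact
  have h1 := Rep.span_top hR.opt.nmin (hR.pf.sub hHc hnc) (R.res H)
  rw [← h1]
  congr 1
  ext m
  constructor
  · rintro ⟨g, hg, rfl⟩
    exact ⟨⟨g, hg⟩, rfl⟩
  · rintro ⟨g, rfl⟩
    exact ⟨g, g.2, rfl⟩

end Rep

end MP35
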