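import Pool.Agent.Lib_MP_3538b5_al.ZLie

/-! # The logarithms have trace zero -/

set_option autoImplicit false

namespace MP35

open Polynomial Matrix

universe u v w

section

open scoped Kronecker

variable {Ω : Type v} [Field Ω] {n : ℕ}

/-- the matrix of the left multiplication -/
theorem toMatrix_mulLeft (w : Matrix (Fin n) (Fin n) Ω) :
    LinearMap.toMatrix (Matrix.stdBasis Ω (Fin n) (Fin n)) (Matrix.stdBasis Ω (Fin n) (Fin n))
      (LinearMap.mulLeft Ω w) = w ⊗ₖ (1 : Matrix (Fin n) (Fin n) Ω) := by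
  ext ⟨i, j⟩ ⟨k, l⟩
  rw [LinearMap.toMatrix_apply, Matrix.stdBasis_eq_single, LinearMap.mulLeft_apply,
    Matrix.kroneckerMap_apply]
  have h : ∀ M : Matrix (Fin n) (Fin n) Ω,
      (Matrix.stdBasis Ω (Fin n) (Fin n)).repr M (i, j) = M i j := by
    intro M
    simp [Matrix.stdBasis]
  rw [h, Matrix.mul_apply]
  simp only [Matrix.single_apply, Matrix.one_apply]
  rw [Finset.sum_eq_single k]
  · by_cases hlj : l = j
    · simp [hlj]
    · simp [hlj, Ne.symm hlj]
  · intro b _ hb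
    rw [if_neg (fun e => hb e.1.symm), mul_zero]
  · intro hk
    exact absurd (Finset.mem_univ k) hk

/-- expansion of the determinant of `1 + q M` -/
theorem det_one_add_smul_mem {ι : Type} [Fintype ι] [DecidableEq ι] (S : Subring Ω)
    (M : Matrix ι ι Ω) (hM : ∀ j, M.charpoly.coeff j ∈ S) {q : Ω} (hq : q ∈ S) :
    ∃ e ∈ S, (1 + q • M).det = 1 + q * M.trace + q ^ 2 * e := by
  have h1 : ∀ j, M.charpolyRev.coeff j ∈ S := by
    intro j
    rw [← Matrix.reverse_charpoly, Polynomial.coeff_reverse]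
    exact hM _
  have h2 : (1 + q • M).det = M.charpolyRev.eval (-q) := by
    rw [Matrix.charpolyRev, ← Polynomial.coe_evalRingHom, RingHom.map_det]
    congr 1
    ext i j
    rcases eq_or_ne i j with hij | hij <;>
      simp [hij, Matrix.smul_apply] <;> ring
  refine ⟨M.charpolyRev.divX.divX.eval (-q), ?_, ?_⟩
  · rw [Polynomial.eval_eq_sum_range]
    refine S.sum_mem fun i _ => S.mul_mem ?_ (S.pow_mem (S.neg_mem hq) i)
    rw [Polynomial.coeff_divX, Polynomial.coeff_divX]
    exact h1 _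
  · rw [h2]
    have h3 := Polynomial.divX_mul_X_add M.charpolyRev
    have h4 := Polynomial.divX_mul_X_add M.charpolyRev.divX
    have h5 : M.charpolyRev.coeff 0 = 1 := by
      rw [Polynomial.coeff_zero_eq_eval_zero, Matrix.eval_charpolyRev]
    have h6 : M.charpolyRev.divX.coeff 0 = - M.trace := by
      rw [Polynomial.coeff_divX, zero_add, Matrix.coeff_charpolyRev_eq_neg_trace]
    rw [h5] at h3
    rw [h6] at h4
    calc M.charpolyRev.eval (-q) = (M.charpolyRev.divX * X + C 1).eval (-q) := by rw [h3]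
      _ = (M.charpolyRev.divX).eval (-q) * (-q) + 1 := by
        rw [Polynomial.eval_add, Polynomial.eval_mul, Polynomial.eval_X, Polynomial.eval_C]
      _ = (M.charpolyRev.divX.divX * X + C (-M.trace)).eval (-q) * (-q) + 1 := by rw [h4]
      _ = _ := by
        rw [Polynomial.eval_add, Polynomial.eval_mul, Polynomial.eval_X, Polynomial.eval_C]
        ring

/-- the trace from the characteristic polynomial -/
theorem trace_mem_of_coeff {ι : Type} [Fintype ι] [DecidableEq ι] (S : Subring Ω)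
    (M : Matrix ι ι Ω) (hM : ∀ j, M.charpoly.coeff j ∈ S) : M.trace ∈ S := by
  have h1 : M.charpolyRev.coeff 1 ∈ S := by
    rw [← Matrix.reverse_charpoly, Polynomial.coeff_reverse]
    exact hM _
  rw [Matrix.coeff_charpolyRev_eq_neg_trace] at h1
  have := S.neg_mem h1
  rwa [neg_neg] at this

theorem trace_kron_one (w : Matrix (Fin n) (Fin n) Ω) :
    (w ⊗ₖ (1 : Matrix (Fin n) (Fin n) Ω)).trace = (n : Ω) * w.trace := by
  rw [Matrix.trace_kronecker, Matrix.trace_one, Fintype.card_fin, mul_comm]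

end

/-- elements of `T'` divisible by all powers of `p` are zero -/
theorem eq_zero_of_pow_dvd {p : ℕ} {T : Type v} [CommRing T] [TopologicalSpace T] [CNR T]
    (hp : IsTopologicallyNilpotent (p : T)) (T' : Type w) [CommRing T'] [IsDomain T'] [Algebra T T']
    [Module.Finite T T'] {t : T'} (h : ∀ k : ℕ, (p : T') ^ k ∣ t) : t = 0 := by
  let _ : TopologicalSpace T' := moduleTopology T T'
  have : IsModuleTopology T T' := ⟨rfl⟩
  have h1 : CNR T' := cnr_of_finite T T'
  have h2 : IsLocalRing T' := isLocalRing_of_cnr T'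
  have hc : Continuous (algebraMap T T') :=
    IsModuleTopology.continuous_of_linearMap (Algebra.linearMap T T')
  have h3 := hp.map (φ := algebraMap T T') hc
  rw [map_natCast] at h3
  have h4 : (p : T') ∈ IsLocalRing.maximalIdeal T' := mem_maximalIdeal_iff.2 h3
  have h5 := Ideal.iInf_pow_eq_bot_of_isLocalRing (IsLocalRing.maximalIdeal T')
    (IsLocalRing.maximalIdeal.isMaximal T').ne_top
  rw [← Ideal.mem_bot, ← h5, Submodule.mem_iInf]
  intro k
  exact Ideal.mem_of_dvd _ (h k) (Ideal.pow_mem_pow h4 k)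

namespace Rep

open scoped Kronecker

variable {p : ℕ} [hp : Fact p.Prime] {G : Type u} [Group G] [TopologicalSpace G] {T : Type v}
  [CommRing T] [TopologicalSpace T] [CNR T] {Ω : Type v} [Field Ω] [CharZero Ω] [Algebra T Ω]
  {n : ℕ} {R : Rep p G T Ω n}

/-- the logarithm of an element of determinant one has trace zero -/
theorem Lg.trace [IsAlgClosed Ω] (hn : n ≠ 0)
    (hspan : Submodule.span Ω (R.A : Set (Matrix (Fin n) (Fin n) Ω)) = ⊤)
    (hdet : ∀ g, (R.ρ g).det = 1) {g : G} {x : Matrix (Fin n) (Fin n) Ω} (hx : R.Lg g x) :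
    x.trace = 0 := by
  have hinf : Infinite Ω := inferInstance
  obtain ⟨T', hfin, hT'⟩ := exists_coef_ring (Nat.pos_of_ne_zero hn) R.A hspan
  have hA : ∀ w : R.A, ∀ j, ((w : Matrix (Fin n) (Fin n) Ω) ⊗ₖ (1 : Matrix (Fin n) (Fin n) Ω)).charpoly.coeff j
      ∈ T'.toSubring := by
    intro w j
    rw [← toMatrix_mulLeft, LinearMap.charpoly_toMatrix]
    exact hT' _ (Algebra.subset_adjoin w.2) j
  have hpT : ∀ k : ℕ, (p : Ω) ^ k ∈ T'.toSubring := fun k =>
    Subring.pow_mem _ (natCast_mem _ p) k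
  have htr : ∀ w : R.A, (n : Ω) * (w : Matrix (Fin n) (Fin n) Ω).trace ∈ T'.toSubring := by
    intro w
    rw [← trace_kron_one]
    exact trace_mem_of_coeff _ _ (hA w)
  obtain ⟨x', hx'⟩ := hx.mem
  have hn0 : (n : Ω) ≠ 0 := Nat.cast_ne_zero.2 hn
  have key : ∀ k : ℕ, ∃ e ∈ T'.toSubring, (n : Ω) * x.trace = (p : Ω) ^ k * e := by
    intro k
    obtain ⟨z, hz⟩ := hx.approx k
    have hcoe : ∀ a : R.A, ((((p : T) ^ k) • a : R.A) : Matrix (Fin n) (Fin n) Ω)
        = (p : Ω) ^ k • (a : Matrix (Fin n) (Fin n) Ω) := by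
      intro a
      change ((p : T) ^ k) • (a : Matrix (Fin n) (Fin n) Ω) = _
      rw [← algebraMap_smul Ω ((p : T) ^ k) (a : Matrix (Fin n) (Fin n) Ω), map_pow, map_natCast]
    set w : R.A := (p : T) ^ 2 • x' + (p : T) ^ k • z with hw
    have hw1 : (w : Matrix (Fin n) (Fin n) Ω) = x + (p : Ω) ^ k • (z : Matrix (Fin n) (Fin n) Ω) := by
      rw [hx', ← hcoe]
      rfl
    have h1 : R.ρ (g ^ p ^ k) = 1 + (p : Ω) ^ k • (w : Matrix (Fin n) (Fin n) Ω) := by
      rw [hz, hw1, smul_add, smul_smul, ← pow_add, two_mul, add_assoc]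
    have h2 : (1 + (p : Ω) ^ k • ((w : Matrix (Fin n) (Fin n) Ω) ⊗ₖ
        (1 : Matrix (Fin n) (Fin n) Ω))).det = 1 := by
      have h3 : 1 + (p : Ω) ^ k • ((w : Matrix (Fin n) (Fin n) Ω) ⊗ₖ
          (1 : Matrix (Fin n) (Fin n) Ω)) = (R.ρ (g ^ p ^ k)) ⊗ₖ (1 : Matrix (Fin n) (Fin n) Ω) := by
        rw [h1, Matrix.add_kronecker, Matrix.one_kronecker_one, Matrix.smul_kronecker]
      rw [h3, Matrix.det_kronecker, hdet, Matrix.det_one, one_pow, one_mul]
    obtain ⟨e, he, h4⟩ := det_one_add_smul_mem T'.toSubring _ (hA w) (hpT k)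
    rw [h2, trace_kron_one] at h4
    have hp0 : ((p : Ω) ^ k) ≠ 0 := pow_ne_zero _ (Nat.cast_ne_zero.2 hp.out.ne_zero)
    have h5 : (n : Ω) * (w : Matrix (Fin n) (Fin n) Ω).trace = -((p : Ω) ^ k * e) := by
      have h6 : (p : Ω) ^ k * ((n : Ω) * (w : Matrix (Fin n) (Fin n) Ω).trace + (p : Ω) ^ k * e)
          = 0 := by
        linear_combination -h4
      have h7 := (mul_eq_zero.1 h6).resolve_left hp0
      linear_combination h7
    rw [hw1, Matrix.trace_add, Matrix.trace_smul, smul_eq_mul] at h5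
    refine ⟨-e - (n : Ω) * (z : Matrix (Fin n) (Fin n) Ω).trace,
      Subring.sub_mem _ (Subring.neg_mem _ he) (htr z), ?_⟩
    linear_combination h5
  have h0 : (n : Ω) * x.trace ∈ T'.toSubring := by
    obtain ⟨e, he, h⟩ := key 0
    rw [h]
    exact Subring.mul_mem _ (hpT 0) he
  have h1 : (⟨(n : Ω) * x.trace, h0⟩ : T') = 0 := by
    refine eq_zero_of_pow_dvd R.pnil T' fun k => ?_
    obtain ⟨e, he, h⟩ := key k
    refine ⟨⟨e, he⟩, Subtype.ext ?_⟩
    change (n : Ω) * x.trace = (((p : T') ^ k : T') : Ω) * e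
    rw [h]
    push_cast
    rfl
  have h2 : (n : Ω) * x.trace = 0 := congrArg Subtype.val h1
  exact (mul_eq_zero.1 h2).resolve_left hn0

theorem lie_trace [IsAlgClosed Ω] (hn : n ≠ 0)
    (hspan : Submodule.span Ω (R.A : Set (Matrix (Fin n) (Fin n) Ω)) = ⊤)
    (hdet : ∀ g, (R.ρ g).det = 1) {H : Subgroup G} {x : Matrix (Fin n) (Fin n) Ω}
    (hx : x ∈ R.lie H) : x.trace = 0 := by
  refine Submodule.span_induction (p := fun x _ => x.trace = 0) ?_ ?_ ?_ ?_ hx
  · rintro x ⟨g, hg, h⟩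
    exact h.trace hn hspan hdet
  · exact Matrix.trace_zero _ _
  · intro x y _ _ hx hy
    rw [Matrix.trace_add, hx, hy, add_zero]
  · intro c x _ hx
    rw [Matrix.trace_smul, hx, smul_zero]

end Rep

end MP35
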